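import Mathlib

namespace Pool.Agent.Lib.MP_1fc36f_co

open SimpleGraph

variable {V : Type}

/-- One move of a player: stay put or go to an adjacent vertex. -/
def Move (G : SimpleGraph V) (x y : V) : Prop := y = x ∨ G.Adj x y

/-- `Win G t a b r`: two cops stand on `a` and `b`, the robber stands on `r`, the cops are to
move, and the cops can force capture within `t` rounds (a round is a move of both cops followed
by a move of the robber; capture means that a cop is on the robber's vertex). -/
def Win (G : SimpleGraph V) : ℕ → V → V → V → Prop
  | 0, a, b, r => a = r ∨ b = r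
  | t + 1, a, b, r => ∃ a' b', Move G a a' ∧ Move G b b' ∧
      (a' = r ∨ b' = r ∨ ∀ r', Move G r r' → Win G t a' b' r')

/-- Two cops can choose starting vertices so that, wherever the robber starts and however he
plays, he is captured within `t` rounds. -/
def TwoCopsCaptureWithin (G : SimpleGraph V) (t : ℕ) : Prop := ∃ a b, ∀ r, Win G t a b r

/-- `G` has treewidth at most `k`: there is a tree `T` with a bag `B i` of at most `k + 1`
vertices at each node `i`, such that every vertex and every edge of `G` lies in a bag, and the
nodes whose bags contain a given vertex contain the path of `T` between any two of them. -/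
def TreewidthLE (G : SimpleGraph V) (k : ℕ) : Prop :=
  ∃ (ι : Type) (T : SimpleGraph ι) (B : ι → Finset V), T.IsTree ∧
    (∀ i, (B i).card ≤ k + 1) ∧
    (∀ v, ∃ i, v ∈ B i) ∧
    (∀ u v, G.Adj u v → ∃ i, u ∈ B i ∧ v ∈ B i) ∧
    (∀ (v : V) (i j : ι) (p : T.Walk i j), p.IsPath → v ∈ B i → v ∈ B j →
      ∀ l ∈ p.support, v ∈ B l)

end Pool.Agent.Lib.MP_1fc36f_co
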