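import Pool.Agent.Lib.MP_1fc36f_co.H19Defs

namespace Pool.Agent.Lib.MP_1fc36f_co

open SimpleGraph

variable {V : Type} {G : SimpleGraph V}

/-- Position after a move of the cops, robber to move. -/
def Post (G : SimpleGraph V) (t : ℕ) (a b r : V) : Prop :=
  a = r ∨ b = r ∨ ∀ r', Move G r r' → Win G t a b r'

lemma Move.refl (x : V) : Move G x x := Or.inl rfl

lemma Move.symm {x y : V} (h : Move G x y) : Move G y x := by
  rcases h with h | h
  · exact Or.inl h.symm
  · exact Or.inr h.symm

lemma win_succ {t : ℕ} {a b r a' b' : V} (ha : Move G a a') (hb : Move G b b')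
    (h : Post G t a' b' r) : Win G (t + 1) a b r := ⟨a', b', ha, hb, h⟩

lemma win_of_eq {t : ℕ} {a b r : V} (h : a = r ∨ b = r) : Win G t a b r := by
  cases t with
  | zero => exact h
  | succ t =>
    refine win_succ (Move.refl a) (Move.refl b) ?_
    rcases h with h | h
    · exact Or.inl h
    · exact Or.inr (Or.inl h)

lemma Win.succ {t : ℕ} : ∀ {a b r : V}, Win G t a b r → Win G (t + 1) a b r := by
  induction t with
  | zero => intro a b r h; exact win_of_eq h
  | succ t ih =>
    rintro a b r ⟨a', b', ha, hb, h⟩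
    refine win_succ ha hb ?_
    rcases h with h | h | h
    · exact Or.inl h
    · exact Or.inr (Or.inl h)
    · exact Or.inr (Or.inr fun r' hr => ih (h r' hr))

lemma Win.mono {t s : ℕ} {a b r : V} (h : Win G t a b r) (hts : t ≤ s) : Win G s a b r := by
  induction hts with
  | refl => exact h
  | step _ ih => exact ih.succ

lemma Post.mono {t s : ℕ} {a b r : V} (h : Post G t a b r) (hts : t ≤ s) : Post G s a b r := by
  rcases h with h | h | h
  · exact Or.inl h
  · exact Or.inr (Or.inl h)
  · exact Or.inr (Or.inr fun r' hr => (h r' hr).mono hts)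

lemma Win.symm {t : ℕ} : ∀ {a b r : V}, Win G t a b r → Win G t b a r := by
  induction t with
  | zero => intro a b r h; exact Or.symm h
  | succ t ih =>
    rintro a b r ⟨a', b', ha, hb, h⟩
    refine win_succ hb ha ?_
    rcases h with h | h | h
    · exact Or.inr (Or.inl h)
    · exact Or.inl h
    · exact Or.inr (Or.inr fun r' hr => ih (h r' hr))

lemma Post.symm {t : ℕ} {a b r : V} (h : Post G t a b r) : Post G t b a r := by
  rcases h with h | h | h
  · exact Or.inr (Or.inl h)
  · exact Or.inl h
  · exact Or.inr (Or.inr fun r' hr => (h r' hr).symm)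

/-- A guarded path `p 0, ..., p L` with a shadow index `f`, valid while the robber moves
inside `Ω`. -/
structure Guard (G : SimpleGraph V) where
  p : ℕ → V
  L : ℕ
  f : V → ℕ
  Ω : Set V
  adj : ∀ i, i < L → G.Adj (p i) (p (i + 1))
  stab : ∀ i, L ≤ i → p i = p L
  fp : ∀ i, i ≤ L → f (p i) = i
  fle : ∀ x, f x ≤ L
  mem : ∀ i, p i ∈ Ω
  lip : ∀ x ∈ Ω, ∀ y ∈ Ω, G.Adj x y → f y ≤ f x + 1

namespace Guard

variable (g : Guard G)

/-- The shadow of a vertex. -/
def σ (x : V) : V := g.p (g.f x)

/-- The vertices of the guarded path. -/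
def On (x : V) : Prop := g.σ x = x

lemma on_p (i : ℕ) : g.On (g.p i) := by
  unfold On σ
  by_cases h : i ≤ g.L
  · rw [g.fp i h]
  · have h' : g.L ≤ i := by omega
    rw [g.stab i h', g.fp _ le_rfl]

lemma On.mem {g : Guard G} {x : V} (h : g.On x) : x ∈ g.Ω := by
  have := g.mem (g.f x)
  unfold On σ at h
  rwa [h] at this

lemma inj {i j : ℕ} (hi : i ≤ g.L) (hj : j ≤ g.L) (h : g.p i = g.p j) : i = j := by
  have h1 := g.fp i hi
  rw [h, g.fp j hj] at h1
  exact h1.symm

lemma move_p {i j : ℕ} (hi : i ≤ g.L) (hj : j ≤ g.L) (h1 : i ≤ j + 1) (h2 : j ≤ i + 1) :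
    Move G (g.p i) (g.p j) := by
  rcases lt_trichotomy i j with h | h | h
  · have : j = i + 1 := by omega
    subst this
    exact Or.inr (g.adj i (by omega))
  · subst h; exact Move.refl _
  · have : i = j + 1 := by omega
    subst this
    exact Or.inr (g.adj j (by omega)).symm

lemma f_move {x y : V} (hx : x ∈ g.Ω) (hy : y ∈ g.Ω) (h : Move G x y) :
    g.f y ≤ g.f x + 1 ∧ g.f x ≤ g.f y + 1 := by
  rcases h with h | h
  · subst h; omega
  · exact ⟨g.lip x hx y hy h, g.lip y hy x hx h.symm⟩

lemma move_σ {x y : V} (hx : x ∈ g.Ω) (hy : y ∈ g.Ω) (h : Move G x y) :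
    Move G (g.σ x) (g.σ y) := by
  obtain ⟨h1, h2⟩ := g.f_move hx hy h
  exact g.move_p (g.fle x) (g.fle y) h2 h1

lemma dist_p_le (hG : G.Connected) (i k : ℕ) : G.dist (g.p i) (g.p (i + k)) ≤ k := by
  induction k with
  | zero => simp
  | succ k ih =>
    have h1 : G.dist (g.p (i + k)) (g.p (i + (k + 1))) ≤ 1 := by
      by_cases h : i + k < g.L
      · exact (dist_eq_one_iff_adj.2 (g.adj _ h)).le
      · rw [g.stab (i + k) (by omega), g.stab (i + (k + 1)) (by omega)]; simp
    have := hG.dist_triangle (u := g.p i) (v := g.p (i + k)) (w := g.p (i + (k + 1)))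
    omega

lemma dist_p_le' (hG : G.Connected) {i j : ℕ} (h : i ≤ j) : G.dist (g.p i) (g.p j) ≤ j - i := by
  have := g.dist_p_le hG i (j - i)
  rwa [show i + (j - i) = j by omega] at this

lemma dist_σ_le (hG : G.Connected) (x : V) {y : V} (hy : g.On y) : G.dist (g.σ x) y ≤ g.L := by
  have h1 := g.fle x
  have h2 := g.fle y
  rw [← hy]
  unfold σ
  rcases le_total (g.f x) (g.f y) with h | h
  · have := g.dist_p_le' hG h; omega
  · have := g.dist_p_le' hG h; rw [dist_comm]; omega

/-- The same guard with the path read backwards. -/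
def rev : Guard G where
  p i := g.p (g.L - i)
  L := g.L
  f x := g.L - g.f x
  Ω := g.Ω
  adj i hi := by
    have := (g.adj (g.L - (i + 1)) (by omega)).symm
    rwa [show g.L - (i + 1) + 1 = g.L - i by omega] at this
  stab i hi := by rw [show g.L - i = g.L - g.L by omega]
  fp i hi := by rw [g.fp _ (by omega)]; omega
  fle x := by omega
  mem i := g.mem _
  lip x hx y hy h := by
    have := g.lip y hy x hx h.symm
    have := g.fle x
    have := g.fle y
    omega

@[simp] lemma rev_σ (x : V) : g.rev.σ x = g.σ x := by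
  have := g.fle x
  show g.p (g.L - (g.L - g.f x)) = g.p (g.f x)
  rw [show g.L - (g.L - g.f x) = g.f x by omega]

@[simp] lemma rev_on (x : V) : g.rev.On x ↔ g.On x := by
  unfold On; rw [rev_σ]

/-- A cop sitting on a vertex. -/
def sit (G : SimpleGraph V) (v : V) : Guard G where
  p _ := v
  L := 0
  f _ := 0
  Ω := Set.univ
  adj i hi := by omega
  stab _ _ := rfl
  fp i hi := by omega
  fle _ := le_rfl
  mem _ := trivial
  lip _ _ _ _ _ := by omega

end Guard

/-- While one cop follows his shadow, the other one, who starts at the first vertex of a second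
path, catches the shadow on that path. -/
lemma catch_shadow (g h : Guard G) (K : Set V) (hg : K ⊆ g.Ω) (hh : K ⊆ h.Ω)
    (hN : ∀ x ∈ K, ∀ y, G.Adj x y → y ∈ K ∨ g.On y ∨ y = h.p 0) (t : ℕ)
    (hcont : ∀ r ∈ K, Post G t (g.σ r) (h.σ r) r) :
    ∀ (n j : ℕ) (r : V), r ∈ K → j ≤ h.f r → h.L ≤ j + n → Post G (t + n) (g.σ r) (h.p j) r := by
  intro n
  induction n with
  | zero =>
    intro j r hr hj hn
    have : j = h.f r := by have := h.fle r; omega
    subst this
    exact hcont r hr
  | succ n ih =>
    intro j r hr hj hn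
    by_cases hjr : j = h.f r
    · subst hjr
      exact (hcont r hr).mono (by omega)
    have hlt : j < h.f r := by omega
    have hL := h.fle r
    refine Or.inr (Or.inr fun r' hr' => ?_)
    by_cases hK : r' ∈ K
    · have hm := g.move_σ (hg hr) (hg hK) hr'
      have hf := h.f_move (hh hr) (hh hK) hr'
      by_cases hj' : j = h.f r'
      · refine win_succ (t := t + n) hm (Move.refl _) ?_
        rw [hj']
        exact (hcont r' hK).mono (by omega)
      · refine win_succ (t := t + n) hm (h.move_p (j := j + 1) (by omega) (by omega) (by omega)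
          (by omega)) ?_
        exact ih (j + 1) r' hK (by omega) (by omega)
    · have hadj : G.Adj r r' := by
        rcases hr' with h1 | h1
        · exact absurd (h1 ▸ hr) hK
        · exact h1
      rcases hN r hr r' hadj with h1 | h1 | h1
      · exact absurd h1 hK
      · have hm := g.move_σ (hg hr) h1.mem hr'
        exact win_succ (t := t + n) hm (Move.refl _) (Or.inl h1)
      · have h2 := h.lip r' (h1 ▸ h.mem 0) r (hh hr) hadj.symm
        rw [h1, h.fp 0 (by omega)] at h2
        have : j = 0 := by omega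
        subst this
        exact win_of_eq (Or.inr h1.symm)

/-- While one cop follows his shadow, the other one walks to a vertex `y` which he keeps
protected. -/
lemma walk_to (hG : G.Connected) (g : Guard G) (K : Set V) (hg : K ⊆ g.Ω) (y : V)
    (hN : ∀ x ∈ K, ∀ z, G.Adj x z → z ∈ K ∨ g.On z ∨ z = y) (ψ : V → ℕ)
    (hψ : ∀ x ∈ K, ∀ x' ∈ K, Move G x x' → ψ x ≤ ψ x' + 1)
    (hψy : ∀ x ∈ K, G.Adj x y → g.On y ∨ ψ x ≤ 1) (t : ℕ)
    (hcont : ∀ r ∈ K, Post G t (g.σ r) y r) :
    ∀ (n : ℕ) (q r : V), r ∈ K → G.dist q y ≤ n → G.dist q y ≤ ψ r →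
      Post G (t + n) (g.σ r) q r := by
  intro n
  induction n with
  | zero =>
    intro q r hr hn _
    have : q = y := hG.dist_eq_zero_iff.1 (by omega)
    subst this
    exact hcont r hr
  | succ n ih =>
    intro q r hr hn hq
    by_cases hqy : q = y
    · subst hqy
      exact (hcont r hr).mono (by omega)
    obtain ⟨w, hw⟩ := hG.exists_walk_length_eq_dist q y
    obtain ⟨q', hq', hd⟩ : ∃ q', G.Adj q q' ∧ G.dist q' y + 1 ≤ G.dist q y := by
      cases w with
      | nil => exact absurd rfl hqy
      | cons ha w' =>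
        refine ⟨_, ha, ?_⟩
        have := dist_le w'
        simp only [Walk.length_cons] at hw
        omega
    refine Or.inr (Or.inr fun r' hr' => ?_)
    by_cases hK : r' ∈ K
    · have hm := g.move_σ (hg hr) (hg hK) hr'
      have := hψ r hr r' hK hr'
      exact win_succ (t := t + n) hm (Or.inr hq') (ih q' r' hK (by omega) (by omega))
    · have hadj : G.Adj r r' := by
        rcases hr' with h1 | h1
        · exact absurd (h1 ▸ hr) hK
        · exact h1
      have hon : g.On r' → Win G (t + (n + 1)) (g.σ r) q r' := fun h1 =>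
        win_succ (t := t + n) (g.move_σ (hg hr) h1.mem hr') (Move.refl _) (Or.inl h1)
      rcases hN r hr r' hadj with h1 | h1 | h1
      · exact absurd h1 hK
      · exact hon h1
      · subst h1
        rcases hψy r hr hadj with h2 | h2
        · exact hon h2
        · have : q' = r' := hG.dist_eq_zero_iff.1 (by omega)
          exact win_succ (t := t + n) (Move.refl _) (Or.inr hq') (Or.inr (Or.inl this))

/-- The free cop walks to a vertex of the guarded path. -/
lemma walk_free (hG : G.Connected) (g : Guard G) (K : Set V) (hg : K ⊆ g.Ω) (y : V)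
    (hy : g.On y) (hN : ∀ x ∈ K, ∀ z, G.Adj x z → z ∈ K ∨ g.On z) (t : ℕ)
    (hcont : ∀ r ∈ K, Post G t (g.σ r) y r) (n : ℕ) (q r : V) (hr : r ∈ K)
    (hq : G.dist q y ≤ n) : Post G (t + n) (g.σ r) q r :=
  walk_to hG g K hg y (fun x hx z hz => (hN x hx z hz).imp_right Or.inl) (fun _ => n)
    (fun _ _ _ _ _ => by omega) (fun _ _ _ => Or.inl hy) t hcont n q r hr hq hq

/-- A cop who follows his shadow on `h` retires to the vertex `y` of his path. -/
lemma retire (hG : G.Connected) (g h : Guard G) (K : Set V) (hg : K ⊆ g.Ω) (hh : K ⊆ h.Ω)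
    (y : V) (hy : h.On y) (hN : ∀ x ∈ K, ∀ z, G.Adj x z → z ∈ K ∨ g.On z ∨ z = y) (t : ℕ)
    (hcont : ∀ r ∈ K, Post G t (g.σ r) y r) (r : V) (hr : r ∈ K) :
    Post G (t + h.L) (g.σ r) (h.σ r) r := by
  have key : ∀ x x', Move G (h.σ x) (h.σ x') → G.dist (h.σ x) y ≤ G.dist (h.σ x') y + 1 := by
    intro x x' hm
    have h1 : G.dist (h.σ x) (h.σ x') ≤ 1 := by
      rcases hm with h1 | h1
      · rw [h1]; simp
      · exact (dist_eq_one_iff_adj.2 h1).le
    have := hG.dist_triangle (u := h.σ x) (v := h.σ x') (w := y)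
    omega
  refine walk_to hG g K hg y hN (fun x => G.dist (h.σ x) y)
    (fun x hx x' hx' hm => key x x' (h.move_σ (hh hx) (hh hx') hm)) (fun x hx hxy => Or.inr ?_)
    t hcont h.L _ r hr (h.dist_σ_le hG r hy) le_rfl
  have := key x y (h.move_σ (hh hx) hy.mem (Or.inr hxy))
  rw [show h.σ y = y from hy] at this
  simpa using this

end Pool.Agent.Lib.MP_1fc36f_co
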