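import Pool.Agent.Lib.MP_1fc36f_co.H19Sets

namespace Pool.Agent.Lib.MP_1fc36f_co

open SimpleGraph Finset

section Tree

variable {ι : Type} {T : SimpleGraph ι}

/-- `j` is the parent of `i` when the tree is rooted at `ρ`. -/
def Par (T : SimpleGraph ι) (ρ i j : ι) : Prop := T.Adj i j ∧ T.dist ρ j + 1 = T.dist ρ i

lemma par_unique (hT : T.IsTree) {ρ i j j' : ι} (h : Par T ρ i j) (h' : Par T ρ i j') :
    j = j' := by
  obtain ⟨p, hp⟩ := hT.connected.exists_walk_length_eq_dist ρ j
  obtain ⟨p', hp'⟩ := hT.connected.exists_walk_length_eq_dist ρ j'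
  have h1 : (p.concat h.1.symm).IsPath :=
    Walk.isPath_of_length_eq_dist _ (by rw [Walk.length_concat, hp, h.2])
  have h2 : (p'.concat h'.1.symm).IsPath :=
    Walk.isPath_of_length_eq_dist _ (by rw [Walk.length_concat, hp', h'.2])
  have h3 := (hT.isAcyclic.subsingleton_path ρ i).elim ⟨_, h1⟩ ⟨_, h2⟩
  have h4 : p.concat h.1.symm = p'.concat h'.1.symm := congrArg Subtype.val h3
  obtain ⟨hv, _⟩ := Walk.concat_inj h4
  exact hv

lemma depth_lt_of_path (hT : T.IsTree) (ρ : ι) {a b : ι} (p : T.Walk a b) :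
    ∀ {x : ι} (h : T.Adj x a), (Walk.cons h p).IsPath → T.dist ρ a = T.dist ρ x + 1 →
      T.dist ρ x < T.dist ρ b := by
  induction p with
  | nil => intro x h _ h2; omega
  | @cons a a' b h' p' ih =>
    intro x h hp h2
    rcases hT.dist_eq_dist_add_one_of_adj ρ h' with h3 | h3
    · have : a' = x := par_unique hT (ρ := ρ) (i := a) ⟨h', h3.symm⟩ ⟨h.symm, h2.symm⟩
      subst this
      rw [Walk.cons_isPath_iff] at hp
      exact absurd (by simp) hp.2
    · have := ih h' hp.of_cons h3
      omega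

/-- `t` is an ancestor of `i`. -/
def Anc (T : SimpleGraph ι) (ρ t i : ι) : Prop := Relation.ReflTransGen (Par T ρ) i t

lemma Anc.depth_le {ρ t i : ι} (h : Anc T ρ t i) : T.dist ρ t ≤ T.dist ρ i := by
  induction h with
  | refl => exact le_rfl
  | tail _ h2 ih => have := h2.2; omega

lemma anc_cmp (hT : T.IsTree) {ρ t t' u : ι} (h' : Anc T ρ t' u) (hd : T.dist ρ t ≤ T.dist ρ t') :
    Anc T ρ t u → Anc T ρ t t' := by
  induction h' using Relation.ReflTransGen.head_induction_on with
  | refl => exact id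
  | @head u u' h1 h2 ih =>
    intro h
    rcases Relation.ReflTransGen.cases_head h with h3 | ⟨u'', h3, h4⟩
    · subst h3
      have := Anc.depth_le (T := T) (ρ := ρ) h2
      have := h1.2
      omega
    · exact ih (par_unique hT h1 h3 ▸ h4)

end Tree

variable {V : Type} {G : SimpleGraph V} [Fintype V] [DecidableEq V]

lemma good_of_treewidth (h : TreewidthLE G 3) : ∃ δ : V → ℕ, Good G δ univ := by
  obtain ⟨ι, T, B, hT, hcard, hv, he, hp⟩ := h
  obtain ⟨ρ⟩ := hT.connected.nonempty
  have htop : ∀ v, ∃ i, v ∈ B i ∧ ∀ j, v ∈ B j → T.dist ρ i ≤ T.dist ρ j := by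
    intro v
    obtain ⟨i, hi, hmin⟩ := (measure (fun i => T.dist ρ i)).wf.has_min {i | v ∈ B i} (hv v)
    exact ⟨i, hi, fun j hj => not_lt.1 (hmin j hj)⟩
  choose top htop1 htop2 using htop
  have hpar : ∀ v i, v ∈ B i → i ≠ top v → ∃ j, Par T ρ i j ∧ v ∈ B j := by
    intro v i hi hne
    obtain ⟨p, hpp, _⟩ := hT.connected.exists_path_of_dist i (top v)
    have hs := hp v i (top v) p hpp hi (htop1 v)
    cases p with
    | nil => exact absurd rfl hne
    | @cons _ s _ ha p' =>
      rcases hT.dist_eq_dist_add_one_of_adj ρ ha with h3 | h3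
      · exact ⟨s, ⟨ha, h3.symm⟩, hs s (by simp)⟩
      · have := depth_lt_of_path hT ρ p' ha hpp h3
        have := htop2 v i hi
        omega
  have hanc : ∀ v (n : ℕ) u, T.dist ρ u = n → v ∈ B u → Anc T ρ (top v) u := by
    intro v n
    induction n using Nat.strong_induction_on with
    | _ n ih =>
      intro u hu hvu
      by_cases h1 : u = top v
      · exact h1 ▸ Relation.ReflTransGen.refl
      · obtain ⟨j, hj, hvj⟩ := hpar v u hvu h1
        have := hj.2
        exact Relation.ReflTransGen.head hj (ih _ (by omega) j rfl hvj)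
  have hclimb : ∀ v t u, Anc T ρ t u → T.dist ρ (top v) ≤ T.dist ρ t → v ∈ B u → v ∈ B t := by
    intro v t u h1 hd
    induction h1 using Relation.ReflTransGen.head_induction_on with
    | refl => exact id
    | @head u u' h2 h3 ih =>
      intro hvu
      have h4 := Anc.depth_le (T := T) (ρ := ρ) h3
      have h5 := h2.2
      obtain ⟨j, hj, hvj⟩ := hpar v u hvu (fun h6 => by subst h6; omega)
      exact ih (par_unique hT hj h2 ▸ hvj)
  refine ⟨fun v => T.dist ρ (top v), fun Z _ hc hcl => ?_⟩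
  rcases Z.eq_empty_or_nonempty with hZ | hZ
  · have : nb G Z = ∅ := by
      ext y; simp [hZ, mem_nb]
    simp [this]
  obtain ⟨m, hm, hmin⟩ := exists_min_image Z (fun v => T.dist ρ (top v)) hZ
  have key : ∀ x ∈ Z, Anc T ρ (top m) (top x) := by
    intro x hx
    refine reach_ind (hc m hm x hx) (fun x => Anc T ρ (top m) (top x)) Relation.ReflTransGen.refl
      (fun a _ b hb hab ha => ?_)
    obtain ⟨u, hau, hbu⟩ := he a b hab
    exact anc_cmp hT (hanc b _ u rfl hbu) (hmin b hb)
      (Relation.ReflTransGen.trans (hanc a _ u rfl hau) ha)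
  have hsub : nb G Z ⊆ (B (top m)).erase m := by
    intro w hw
    obtain ⟨hwZ, x, hx, hxw⟩ := mem_nb.1 hw
    obtain ⟨u, hxu, hwu⟩ := he x w hxw
    refine mem_erase.2 ⟨fun h1 => hwZ (h1 ▸ hm), ?_⟩
    exact hclimb w (top m) u (Relation.ReflTransGen.trans (hanc x _ u rfl hxu) (key x hx))
      (hcl m hm w hw (mem_univ _)) hwu
  have h1 := card_le_card hsub
  rw [card_erase_of_mem (htop1 m)] at h1
  have := hcard (top m)
  omega

end Pool.Agent.Lib.MP_1fc36f_co
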