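import Pool.Agent.Lib.MP_1fc36f_co.H19Target
import Pool.Agent.Lib.MP_1fc36f_co.H19Tree

namespace Pool.Agent.Lib.MP_1fc36f_co

open SimpleGraph Finset

set_option linter.unusedSectionVars false

variable {V : Type} {G : SimpleGraph V} [Fintype V] [DecidableEq V] {δ : V → ℕ}

/-- The invariant of the strategy: the robber is in `K`, one cop follows his shadow on `g` and
the other cop sits on `c`. -/
structure St (G : SimpleGraph V) (δ : V → ℕ) (K : Finset V) (g : Guard G) (c : V) (L E : ℕ) :
    Prop where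
  conn : Conn G K
  good : Good G δ K
  dom : ∀ x ∈ K, x ∈ g.Ω
  e0 : g.p 0 ∉ K
  eL : g.p g.L ∉ K
  cnb : c ∈ nb G K
  cov : ∀ y ∈ nb G K, g.On y ∨ y = c
  bud : g.L ≤ L
  near : ∃ y ∈ nb G K, ∀ x, G.dist (g.σ x) y ≤ L
  small : ∀ Z ⊂ K, Z.Nonempty → (nb G Z).card ≤ 2 → Z.card ≤ E

open Classical in
/-- The potential. -/
noncomputable def pot (K : Finset V) (g : Guard G) (L E : ℕ) : ℕ :=
  3 * K.card + 2 * (K.filter (fun x => ¬ g.On x)).card + L + 2 * E

/-- The two modes of the strategy. -/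
def Mode (K : Finset V) (g : Guard G) (c : V) (E : ℕ) : Prop :=
  g.Bal K c ∨ ((nb G K).card ≤ 2 ∧ K.card ≤ E)

/-- The claim for the territory `K`. -/
def Claim (G : SimpleGraph V) (δ : V → ℕ) (K : Finset V) : Prop :=
  ∀ (g : Guard G) (c : V) (L E : ℕ), St G δ K g c L E → Mode K g c E →
    ∀ r ∈ K, Post G (pot K g L E) (g.σ r) c r

variable {K K' : Finset V} {g : Guard G} {c d : V} {L E : ℕ}

lemma St.near_sub (hG : G.Connected) (st : St G δ K g c L E) (s : Sub G K K' d) :
    ∃ y ∈ nb G K', ∀ x, G.dist (g.σ x) y ≤ L + (K \ K').card := by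
  obtain ⟨y, hy, h⟩ := st.near
  by_cases hy' : y ∈ nb G K'
  · exact ⟨y, hy', fun x => (h x).trans (Nat.le_add_right _ _)⟩
  · refine ⟨d, s.d_mem_nb st.conn, fun x => ?_⟩
    have h1 := s.gdist_of_not_nb st.conn hy hy'
    have h2 := hG.dist_triangle (u := g.σ x) (v := y) (w := d)
    have := h x
    omega

lemma St.small_sub (st : St G δ K g c L E) (s : Sub G K K' d) :
    ∀ Z ⊂ K', Z.Nonempty → (nb G Z).card ≤ 2 → Z.card ≤ E :=
  fun Z hZ => st.small Z (hZ.trans s.ssub)

lemma St.shrink (hG : G.Connected) (st : St G δ K g c L E) (s : Sub G K K' d)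
    (hg : Good G δ K') {y : V} (hy : y ∈ nb G K') (hcov : ∀ z ∈ nb G K', g.On z ∨ z = y) :
    St G δ K' g y (L + (K \ K').card) E :=
  ⟨s.conn, hg, fun x hx => st.dom x (s.sub hx), fun h => st.e0 (s.sub h),
    fun h => st.eL (s.sub h), hy, hcov, st.bud.trans (Nat.le_add_right _ _), st.near_sub hG s,
    st.small_sub s⟩

lemma pot_shrink (g : Guard G) (s : Sub G K K' d) (L E : ℕ) :
    pot K' g (L + (K \ K').card) E + 2 * (K \ K').card ≤ pot K g L E := by
  classical
  unfold pot
  have h1 := s.card_eq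
  have h2 := card_le_card (filter_subset_filter (fun x => ¬ g.On x) s.sub)
  omega

lemma exits {P : V → Prop} (h : ∀ z ∈ nb G K, P z) :
    ∀ x ∈ (↑K : Set V), ∀ z, G.Adj x z → z ∈ (↑K : Set V) ∨ P z := by
  intro x hx z hxz
  by_cases hz : z ∈ K
  · exact Or.inl hz
  · exact Or.inr (h z (mem_nb_of hx hz hxz))

lemma step_on (hG : G.Connected) (ih : ∀ K' ⊂ K, Claim G δ K') (st : St G δ K g c L E)
    (hd : d ∈ K) (hon : g.On d)
    (hs : ∀ K', Sub G K K' d → Good G δ K' ∧ (g.Bal K c ∨ (nb G K').card ≤ 2)) :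
    ∀ r ∈ K, Post G (pot K g L E) (g.σ r) c r := by
  intro r hr
  by_cases hrd : r = d
  · subst hrd
    exact Or.inl hon
  obtain ⟨K', s, hr'⟩ := exists_sub (G := G) hd hr hrd
  obtain ⟨hg, hb⟩ := hs K' s
  obtain ⟨y, hy, h1, h2⟩ := retarget hG g hon s st.conn (st.good.card_nb st.conn)
    (hg.card_nb s.conn) st.e0 st.eL st.cnb st.cov hb
  have hcov : ∀ z ∈ nb G K', g.On z ∨ z = y := by
    intro z hz
    rcases h1 with h1 | h1
    · rcases s.nb_cases hz with h | h
      · exact Or.inl (h ▸ hon)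
      · exact h1 ▸ st.cov z h
    · exact Or.inl (h1.1 z hz)
  have st' := st.shrink hG s hg hy hcov
  have hcl := ih K' s.ssub g y _ E st'
    (h2.imp_right fun h => ⟨h, st.small K' s.ssub s.ne h⟩)
  have hp := pot_shrink g s L E
  rcases h1 with h1 | h1
  · subst h1
    exact (hcl r hr').mono (by omega)
  · exact (walk_free hG g ↑K' st'.dom y (h1.1 y hy) (exits h1.1) _ hcl _ c r hr' h1.2).mono hp

lemma step_off (hG : G.Connected) (ih : ∀ K' ⊂ K, Claim G δ K') (st : St G δ K g c L E)
    (hd : d ∈ K) (hoff : ¬ g.On d) (hmin : ∀ x ∈ K, δ d ≤ δ x) (hbal : g.Bal K c) :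
    ∀ r ∈ K, Post G (pot K g L E) (g.σ r) c r := by
  classical
  have hcK : c ∉ K := nb_not_mem st.cnb
  have hreach : ∀ x ∈ insert c K, (res G (insert c K)).Reachable c x := by
    obtain ⟨_, u, hu, huc⟩ := mem_nb.1 st.cnb
    intro x hx
    rcases mem_insert.1 hx with h | h
    · exact h ▸ Reachable.refl _
    · exact (res_adj huc.symm (mem_insert_self _ _) (mem_insert_of_mem hu)).reachable.trans
        ((st.conn u hu x h).mono (res_mono (subset_insert _ _)))
  obtain ⟨h, h0, hL, hlen, hΩ⟩ := exists_guard (mem_insert_self c K) hreach (mem_insert_of_mem hd)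
  have hdom : ∀ x ∈ K, x ∈ h.Ω := fun x hx => by
    rw [hΩ]; exact mem_coe.2 (mem_insert_of_mem hx)
  have hmem : ∀ x, h.On x → x = c ∨ x ∈ K := fun x hx => by
    have := hx.mem
    rw [hΩ] at this
    exact mem_insert.1 (mem_coe.1 this)
  have hond : h.On d := hL ▸ h.on_p _
  have honc : h.On c := h0 ▸ h.on_p _
  have hLK : h.L ≤ K.card := by
    have := res_dist_lt (hreach d (mem_insert_of_mem hd)) (mem_insert_self _ _)
    rw [card_insert_of_notMem hcK] at this
    omega
  have hle : h.L ≤ pot K g L E := by unfold pot; omega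
  intro r hr
  have key := catch_shadow g h ↑K st.dom hdom
    (exits (P := fun y => g.On y ∨ y = h.p 0) (fun z hz => h0 ▸ st.cov z hz))
    (pot K g L E - h.L) ?_ h.L 0 r hr (Nat.zero_le _) (by omega)
  · rw [h0] at key
    exact key.mono (by omega)
  clear hr r
  intro r hr
  by_cases hrh : h.On r
  · exact Or.inr (Or.inl hrh)
  obtain ⟨K', s, hr'⟩ := exists_sub (G := G) hd hr (fun h1 => hrh (h1 ▸ hond))
  have hg := st.good.sub s hmin
  have h3' := hg.card_nb s.conn
  have hdn := s.d_mem_nb st.conn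
  have hdom' : ∀ x ∈ K', x ∈ h.Ω := fun x hx => hdom x (s.sub hx)
  have hdomg : ∀ x ∈ K', x ∈ g.Ω := fun x hx => st.dom x (s.sub hx)
  by_cases hX : c ∈ nb G K' ∧ ∀ x ∈ K', ¬ g.On x
  · obtain ⟨hc', hfree⟩ := hX
    have hpay : ∀ L', pot K' h h.L E + L' + (K \ K').card + h.L ≤ pot K g L' E := by
      intro L'
      unfold pot
      have h1 := s.card_eq
      have h2 : K'.card ≤ (K.filter (fun x => ¬ g.On x)).card :=
        card_le_card fun x hx => mem_filter.2 ⟨s.sub hx, hfree x hx⟩
      have h3 := card_filter_add_card_filter_not (s := K') h.On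
      have h4 := h.count (S := K'.filter h.On ∪ (K \ K')) (a := 1) (b := h.L + 1) le_rfl
        (fun i h5 h6 => by
          have h7 : h.p i ∈ K := (hmem _ (h.on_p i)).resolve_left fun h8 => by
            have := h.inj (i := i) (j := 0) (by omega) (by omega) (h8.trans h0.symm)
            omega
          by_cases h8 : h.p i ∈ K'
          · exact mem_union_left _ (mem_filter.2 ⟨h8, h.on_p i⟩)
          · exact mem_union_right _ (mem_sdiff.2 ⟨h7, h8⟩))
      have h5 := card_union_le (K'.filter h.On) (K \ K')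
      omega
    have mk : ∀ y ∈ nb G K', (∀ z ∈ nb G K', h.On z ∨ z = y) → St G δ K' h y h.L E :=
      fun y hy hcov => ⟨s.conn, hg, hdom', h0 ▸ nb_not_mem hc', hL ▸ s.nmem, hy, hcov, le_rfl,
        ⟨d, hdn, fun x => h.dist_σ_le hG x hond⟩, st.small_sub s⟩
    have hp := hpay L
    by_cases hY : ∀ a ∈ nb G K', h.On a
    · obtain ⟨y, hy, hyd⟩ := st.near_sub hG s
      have h2 : (nb G K').card ≤ 2 := card_le_two_of (a := c) (b := d) fun a ha =>
        (hmem a (hY a ha)).imp_right fun h1 =>
          (s.nb_cases ha).resolve_right fun h2 => nb_not_mem h2 h1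
      have hcl := ih K' s.ssub h y _ E (mk y hy fun z hz => Or.inl (hY z hz))
        (Or.inr ⟨h2, st.small K' s.ssub s.ne h2⟩)
      exact (walk_free hG h ↑K' hdom' y (hY y hy) (exits hY) _ hcl _ _ r hr'
        (hyd r)).symm.mono (by omega)
    · push Not at hY
      obtain ⟨a, ha, hah⟩ := hY
      have had : a ≠ d := fun h1 => hah (h1 ▸ hond)
      have hac : a ≠ c := fun h1 => hah (h1 ▸ honc)
      have hag : g.On a := (st.cov a ((s.nb_cases ha).resolve_left had)).resolve_right hac
      have hcov : ∀ z ∈ nb G K', h.On z ∨ z = a := by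
        intro z hz
        rcases three_cases h3' hc' hdn ha (fun h1 => hcK (h1 ▸ hd)) hac.symm had.symm hz
          with h1 | h1 | h1
        · exact Or.inl (h1 ▸ honc)
        · exact Or.inl (h1 ▸ hond)
        · exact Or.inr h1
      have hcl := ih K' s.ssub h a _ E (mk a ha hcov) (Or.inl fun h1 => absurd h1 hah)
      have := st.bud
      exact (retire hG h g ↑K' hdom' hdomg a hag (exits hcov) _ hcl r hr').symm.mono (by omega)
  · have hX' : (c ∈ nb G K' → g.On c) ∧ ∃ u ∈ K, u ∉ K' ∧ G.Adj u c := by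
      by_cases hc' : c ∈ nb G K'
      · have : ∃ x ∈ K', g.On x := by
          by_contra hcon
          push Not at hcon
          exact hX ⟨hc', hcon⟩
        obtain ⟨x, hx, hxon⟩ := this
        obtain ⟨h1, h2⟩ := off_path g hoff s st.conn h3' st.e0 st.eL st.cnb hc' hbal hx hxon
        exact ⟨fun _ => h1, h2⟩
      · obtain ⟨_, u, hu, huc⟩ := mem_nb.1 st.cnb
        exact ⟨fun h1 => absurd h1 hc', u, hu,
          fun hu' => hc' (mem_nb_of hu' (fun h1 => hcK (s.sub h1)) huc), huc⟩
    obtain ⟨h1, u, hu, hu', huc⟩ := hX'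
    have hshort := s.dist_d st.conn hu hu' huc (subset_insert c K) (mem_insert_self _ _)
    have hcov : ∀ z ∈ nb G K', g.On z ∨ z = d := by
      intro z hz
      rcases s.nb_cases hz with h2 | h2
      · exact Or.inr h2
      · rcases st.cov z h2 with h3 | h3
        · exact Or.inl h3
        · subst h3; exact Or.inl (h1 hz)
    have hcl := ih K' s.ssub g d _ E (st.shrink hG s hg hdn hcov)
      (Or.inl fun h2 => absurd h2 hoff)
    have hp := pot_shrink g s L E
    exact (retire hG g h ↑K' hdomg hdom' d hond (exits hcov) _ hcl r hr').mono (by omega)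

lemma step_bal (hG : G.Connected) (ih : ∀ K' ⊂ K, Claim G δ K') (st : St G δ K g c L E)
    (hbal : g.Bal K c) : ∀ r ∈ K, Post G (pot K g L E) (g.σ r) c r := by
  intro r hr
  obtain ⟨d, hd, hmin⟩ := exists_min_image K δ ⟨r, hr⟩
  by_cases hon : g.On d
  · exact step_on hG ih st hd hon (fun K' s => ⟨st.good.sub s hmin, Or.inl hbal⟩) r hr
  · exact step_off hG ih st hd hon hmin hbal r hr

lemma claim (hG : G.Connected) (K : Finset V) : Claim G δ K := by
  classical
  induction K using Finset.strongInduction with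
  | H K ih =>
  intro g c L E st hmode
  by_cases hbal : g.Bal K c
  · exact step_bal hG ih st hbal
  obtain ⟨h2, hE⟩ := hmode.resolve_left hbal
  rcases two_boundary g st.conn st.good st.dom h2 st.e0 st.eL st.cnb hbal with
    ⟨q, hq, hon, hs⟩ | ⟨v, hv, hon, hvc, hnb, hsmall⟩
  · exact step_on hG ih st hq hon (fun K' s => ⟨(hs K' s).1, Or.inr (hs K' s).2⟩)
  · have hvK := nb_not_mem hv
    have st' : St G δ K (Guard.sit G v) c 0 (K.card - (K.filter g.On).card) :=
      ⟨st.conn, st.good, fun _ _ => trivial, hvK, hvK, st.cnb,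
        fun y hy => (hnb y hy).symm.imp_left fun h => h.symm, le_rfl,
        ⟨v, hv, fun _ => SimpleGraph.dist_self.le⟩, fun Z hZ hne hZ2 => by
          have := hsmall Z hZ hne hZ2
          omega⟩
    have hcl := step_bal hG ih st' (fun h => absurd h hvc)
    intro r hr
    have key := retire hG (Guard.sit G c) g ↑K (fun _ _ => trivial) st.dom v hon
      (exits fun z hz => (hnb z hz).imp_left fun h => h.symm) _
      (fun r hr => (hcl r hr).symm) r hr
    refine key.symm.mono ?_
    unfold pot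
    have h1 := card_filter_le K (fun x => ¬ (Guard.sit G v).On x)
    have h3 := card_filter_add_card_filter_not (s := K) g.On
    have := st.bud
    omega

theorem capture_of_treewidth (hG : G.Connected) (h : TreewidthLE G 3) :
    TwoCopsCaptureWithin G (7 * Fintype.card V) := by
  classical
  obtain ⟨δ, hδ⟩ := good_of_treewidth h
  obtain ⟨v⟩ := hG.nonempty
  obtain ⟨d, hd, hmin⟩ := exists_min_image (univ : Finset V) δ ⟨v, mem_univ _⟩
  have hconn : Conn G univ := by
    intro x _ y _
    have h2 : res G univ = G := by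
      ext a b; simp [res]
    rw [h2]
    exact hG x y
  refine ⟨d, d, fun r => ?_⟩
  by_cases hr : r = d
  · exact win_of_eq (Or.inl hr.symm)
  obtain ⟨K, s, hrK⟩ := exists_sub (G := G) hd (mem_univ r) hr
  have hdn := s.d_mem_nb hconn
  have st : St G δ K (Guard.sit G d) d 0 (Fintype.card V) :=
    ⟨s.conn, hδ.sub s hmin, fun _ _ => trivial, s.nmem, s.nmem, hdn,
      fun y hy => Or.inr ((s.nb_cases hy).resolve_right fun h1 => nb_not_mem h1 (mem_univ _)),
      le_rfl, ⟨d, hdn, fun _ => SimpleGraph.dist_self.le⟩, fun Z _ _ _ => card_le_univ Z⟩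
  have hcl := claim hG K _ _ _ _ st (Or.inl fun _ => Iff.rfl) r hrK
  refine (win_succ (Move.refl d) (Move.refl d) hcl).mono ?_
  unfold pot
  have h1 := card_filter_le K (fun x => ¬ (Guard.sit G d).On x)
  have h2 := s.card_eq
  have h3 := s.card_pos
  rw [card_univ] at h2
  omega

end Pool.Agent.Lib.MP_1fc36f_co
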