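import Pool.Agent.Lib.MP_1fc36f_co.H19Sets

namespace Pool.Agent.Lib.MP_1fc36f_co

open SimpleGraph Finset

set_option linter.unusedSectionVars false

variable {V : Type} {G : SimpleGraph V} [Fintype V] [DecidableEq V]

lemma four_false {s : Finset V} (h : s.card ≤ 3) {a b c d : V} (ha : a ∈ s) (hb : b ∈ s)
    (hc : c ∈ s) (hd : d ∈ s) (hab : a ≠ b) (hac : a ≠ c) (had : a ≠ d) (hbc : b ≠ c)
    (hbd : b ≠ d) (hcd : c ≠ d) : False := by
  have h1 : ({a, b, c, d} : Finset V) ⊆ s := by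
    intro x hx
    simp only [mem_insert, mem_singleton] at hx
    rcases hx with rfl | rfl | rfl | rfl <;> assumption
  have h2 := card_le_card h1
  rw [card_insert_of_notMem (by simp [hab, hac, had]), card_insert_of_notMem (by simp [hbc, hbd]),
    card_insert_of_notMem (by simp [hcd]), card_singleton] at h2
  omega

lemma three_cases {s : Finset V} (h : s.card ≤ 3) {a b c y : V} (ha : a ∈ s) (hb : b ∈ s)
    (hc : c ∈ s) (hab : a ≠ b) (hac : a ≠ c) (hbc : b ≠ c) (hy : y ∈ s) :
    y = a ∨ y = b ∨ y = c := by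
  by_contra hn
  push Not at hn
  exact four_false h ha hb hc hy hab hac hn.1.symm hbc hn.2.1.symm hn.2.2.symm

lemma two_cases {s : Finset V} (h : s.card ≤ 2) {a b y : V} (ha : a ∈ s) (hb : b ∈ s)
    (hab : a ≠ b) (hy : y ∈ s) : y = a ∨ y = b := by
  by_contra hn
  push Not at hn
  have h1 : ({a, b, y} : Finset V) ⊆ s := by
    intro x hx
    simp only [mem_insert, mem_singleton] at hx
    rcases hx with rfl | rfl | rfl <;> assumption
  have h2 := card_le_card h1
  rw [card_insert_of_notMem (by simp [hab, hn.1.symm]), card_insert_of_notMem (by simp [hn.2.symm]),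
    card_singleton] at h2
  omega

lemma card_le_two_of {s : Finset V} {a b : V} (h : ∀ y ∈ s, y = a ∨ y = b) : s.card ≤ 2 := by
  have h1 : s ⊆ {a, b} := fun y hy => by simpa using h y hy
  exact (card_le_card h1).trans card_le_two

/-- A shortest route inside `S` can be guarded against a robber moving in `S`. -/
lemma exists_guard {S : Finset V} {c d : V} (hc : c ∈ S)
    (hS : ∀ x ∈ S, (res G S).Reachable c x) (hd : d ∈ S) :
    ∃ h : Guard G, h.p 0 = c ∧ h.p h.L = d ∧ h.L = (res G S).dist c d ∧ h.Ω = ↑S := by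
  obtain ⟨w, hw⟩ := (hS d hd).exists_walk_length_eq_dist
  have hmem : ∀ i, w.getVert i ∈ S := fun i => walk_support_mem w hc _ (w.getVert_mem_support i)
  have hlip : ∀ x ∈ S, ∀ y ∈ S, G.Adj x y → (res G S).dist c y ≤ (res G S).dist c x + 1 := by
    intro x hx y hy hxy
    have h1 := (hS x hx).dist_triangle_left y
    have h2 := dist_eq_one_iff_adj.2 (res_adj hxy hx hy)
    omega
  have hstep : ∀ i k, i + k ≤ w.length →
      (res G S).dist c (w.getVert (i + k)) ≤ (res G S).dist c (w.getVert i) + k := by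
    intro i k
    induction k with
    | zero => simp
    | succ k ih =>
      intro h
      have h1 := ih (by omega)
      have h2 := hlip _ (hmem (i + k)) _ (hmem (i + k + 1))
        (w.adj_getVert_succ (i := i + k) (by omega)).1
      rw [show i + (k + 1) = i + k + 1 by omega]
      omega
  refine ⟨⟨fun i => w.getVert i, w.length, fun x => min ((res G S).dist c x) w.length, ↑S,
    fun i hi => (w.adj_getVert_succ hi).1, fun i hi => ?_, fun i hi => ?_,
    fun x => min_le_right _ _, hmem, fun x hx y hy hxy => ?_⟩, by simp, by simp, hw, rfl⟩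
  · rw [w.getVert_of_length_le hi, w.getVert_length]
  · have h1 := hstep 0 i (by omega)
    have h2 := hstep i (w.length - i) (by omega)
    rw [show i + (w.length - i) = w.length by omega, w.getVert_length] at h2
    simp only [zero_add, Walk.getVert_zero, SimpleGraph.dist_self] at h1
    omega
  · have := hlip x hx y hy hxy
    omega

namespace Guard

variable (g : Guard G)

lemma lt_of_mem {S : Finset V} (hL : g.p g.L ∉ S) {j : ℕ} (hj : g.p j ∈ S) : j < g.L := by
  by_contra h
  exact hL (g.stab j (by omega) ▸ hj)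

lemma upnb {S : Finset V} (hL : g.p g.L ∉ S) {j : ℕ} (hj : g.p j ∈ S) :
    ∃ hi, j < hi ∧ hi ≤ g.L ∧ g.p hi ∈ nb G S ∧ ∀ i, j ≤ i → i < hi → g.p i ∈ S := by
  classical
  have hjL := g.lt_of_mem hL hj
  have hex : ∃ i, j < i ∧ g.p i ∉ S := ⟨g.L, hjL, hL⟩
  have h1 := Nat.find_spec hex
  have h2 : Nat.find hex ≤ g.L := Nat.find_min' hex ⟨hjL, hL⟩
  have h3 : ∀ i, j ≤ i → i < Nat.find hex → g.p i ∈ S := by
    intro i hi1 hi2
    rcases hi1.eq_or_lt with h | h
    · exact h ▸ hj
    · by_contra h4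
      exact Nat.find_min hex hi2 ⟨h, h4⟩
  refine ⟨Nat.find hex, h1.1, h2, ?_, h3⟩
  have h4 := g.adj (Nat.find hex - 1) (by omega)
  rw [show Nat.find hex - 1 + 1 = Nat.find hex by omega] at h4
  exact mem_nb_of (h3 _ (by omega) (by omega)) h1.2 h4

lemma downnb {S : Finset V} (h0 : g.p 0 ∉ S) {j : ℕ} (hjL : j ≤ g.L) (hj : g.p j ∈ S) :
    ∃ lo, lo < j ∧ g.p lo ∈ nb G S ∧ ∀ i, lo < i → i ≤ j → g.p i ∈ S := by
  have h1 : g.rev.p g.rev.L ∉ S := by
    show g.p (g.L - g.L) ∉ S
    rwa [Nat.sub_self]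
  have h2 : g.rev.p (g.L - j) ∈ S := by
    show g.p (g.L - (g.L - j)) ∈ S
    rwa [show g.L - (g.L - j) = j by omega]
  obtain ⟨hi, h3, h4, h5, h6⟩ := g.rev.upnb h1 h2
  have h4' : hi ≤ g.L := h4
  refine ⟨g.L - hi, by omega, h5, fun i hi1 hi2 => ?_⟩
  have := h6 (g.L - i) (by omega) (by omega)
  change g.p (g.L - (g.L - i)) ∈ S at this
  rwa [show g.L - (g.L - i) = i by omega] at this

lemma count {S : Finset V} {a b : ℕ} (hb : b ≤ g.L + 1) (h : ∀ i, a ≤ i → i < b → g.p i ∈ S) :
    b - a ≤ S.card := by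
  rw [← Nat.card_Ico]
  refine card_le_card_of_injOn g.p (fun i hi => ?_) (fun i hi j hj hij => ?_)
  · have := mem_Ico.1 (mem_coe.1 hi)
    exact mem_coe.2 (h i this.1 this.2)
  · have h1 := mem_Ico.1 (mem_coe.1 hi)
    have h2 := mem_Ico.1 (mem_coe.1 hj)
    exact g.inj (by omega) (by omega) hij

lemma reach_seg {M : Finset V} {a b : ℕ} (hab : a ≤ b) (hb : b ≤ g.L)
    (h : ∀ i, a ≤ i → i ≤ b → g.p i ∈ M) : (res G M).Reachable (g.p a) (g.p b) := by
  induction hab with
  | refl => exact Reachable.refl _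
  | @step b hab ih =>
    have hab' : a ≤ b := hab
    exact reach_step (ih (by omega) (fun i h1 h2 => h i h1 (by omega))) (g.adj b (by omega))
      (h b hab' (by omega)) (h (b + 1) (by omega) le_rfl)

/-- Along a stretch of the path inside `K` that avoids `d`, membership in `K'` is constant. -/
lemma seg_const {K K' : Finset V} {d : V} (s : Sub G K K' d) {a b : ℕ} (hab : a ≤ b)
    (hb : b ≤ g.L) (h : ∀ i, a ≤ i → i ≤ b → g.p i ∈ K ∧ g.p i ≠ d) :
    g.p a ∈ K' ↔ g.p b ∈ K' := by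
  induction hab with
  | refl => exact Iff.rfl
  | @step b hab ih =>
    have hab' : a ≤ b := hab
    rw [ih (by omega) (fun i h1 h2 => h i h1 (by omega))]
    have h1 := h b hab' (by omega)
    have h2 := h (b + 1) (by omega) le_rfl
    have h3 := g.adj b (by omega)
    exact ⟨fun h4 => (s.closed _ h4 _ h2.1 h3).resolve_right h2.2,
      fun h4 => (s.closed _ h4 _ h1.1 h3.symm).resolve_right h1.2⟩

/-- The next vertex on the path. -/
def nxt (y : V) : V := g.p (g.f y + 1)

/-- The previous vertex on the path. -/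
def prv (y : V) : V := g.p (g.f y - 1)

lemma rev_nxt (y : V) : g.rev.nxt y = g.prv y := by
  have := g.fle y
  show g.p (g.L - (g.L - g.f y + 1)) = g.p (g.f y - 1)
  rw [show g.L - (g.L - g.f y + 1) = g.f y - 1 by omega]

lemma rev_prv (y : V) : g.rev.prv y = g.nxt y := by
  have := g.fle y
  show g.p (g.L - (g.L - g.f y - 1)) = g.p (g.f y + 1)
  by_cases h : g.f y < g.L
  · rw [show g.L - (g.L - g.f y - 1) = g.f y + 1 by omega]
  · rw [show g.L - (g.L - g.f y - 1) = g.L by omega, g.stab (g.f y + 1) (by omega)]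

lemma nxt_p {j : ℕ} (hj : j ≤ g.L) : g.nxt (g.p j) = g.p (j + 1) := by
  unfold nxt; rw [g.fp j hj]

lemma prv_p {j : ℕ} (hj : j ≤ g.L) : g.prv (g.p j) = g.p (j - 1) := by
  unfold prv; rw [g.fp j hj]

lemma On.exists {g : Guard G} {y : V} (h : g.On y) : ∃ j, j ≤ g.L ∧ y = g.p j :=
  ⟨g.f y, g.fle y, h.symm⟩

lemma rev_e0 : g.rev.p 0 = g.p g.L := rfl

lemma rev_eL : g.rev.p g.rev.L = g.p 0 := by
  show g.p (g.L - g.L) = g.p 0
  rw [Nat.sub_self]

/-- If `y` is on the path, then either both or none of its two neighbours on the path are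
in `K`. -/
def Bal (K : Finset V) (y : V) : Prop := g.On y → (g.nxt y ∈ K ↔ g.prv y ∈ K)

lemma rev_bal (K : Finset V) (y : V) : g.rev.Bal K y ↔ g.Bal K y := by
  unfold Bal
  rw [rev_on, rev_nxt, rev_prv]
  exact imp_congr_right fun _ => Iff.comm

lemma bal_p {K : Finset V} {j : ℕ} (hj : j ≤ g.L) :
    g.Bal K (g.p j) ↔ (g.p (j + 1) ∈ K ↔ g.p (j - 1) ∈ K) := by
  unfold Bal
  rw [g.nxt_p hj, g.prv_p hj]
  exact ⟨fun h => h (g.on_p j), fun h _ => h⟩

lemma adj_nxt {K : Finset V} (hL : g.p g.L ∉ K) {y : V} (hy : g.On y) (h : g.nxt y ∈ K) :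
    G.Adj (g.nxt y) y := by
  have h1 := g.lt_of_mem hL (j := g.f y + 1) h
  have h2 := (g.adj (g.f y) (by omega)).symm
  rwa [show g.p (g.f y) = y from hy] at h2

lemma adj_prv {K : Finset V} (h0 : g.p 0 ∉ K) {y : V} (hy : g.On y) (h : g.prv y ∈ K) :
    G.Adj (g.prv y) y := by
  have := g.rev.adj_nxt (K := K) (by rwa [rev_eL]) (y := y) (by rwa [rev_on]) (by rwa [rev_nxt])
  rwa [rev_nxt] at this

end Guard

end Pool.Agent.Lib.MP_1fc36f_co
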