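import Pool.Agent.Lib.MP_1fc36f_co.H19Game

namespace Pool.Agent.Lib.MP_1fc36f_co

open SimpleGraph Finset

set_option linter.unusedSectionVars false

variable {V : Type} {G : SimpleGraph V}

/-- The edges of `G` with both ends in `S`. -/
def res (G : SimpleGraph V) (S : Finset V) : SimpleGraph V where
  Adj x y := G.Adj x y ∧ x ∈ S ∧ y ∈ S
  symm := ⟨fun _ _ h => ⟨h.1.symm, h.2.2, h.2.1⟩⟩
  loopless := ⟨fun _ h => h.1.ne rfl⟩

lemma res_adj {S : Finset V} {x y : V} (h : G.Adj x y) (hx : x ∈ S) (hy : y ∈ S) :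
    (res G S).Adj x y := ⟨h, hx, hy⟩

lemma res_mono {S S' : Finset V} (h : S ⊆ S') : res G S ≤ res G S' :=
  fun _ _ h' => ⟨h'.1, h h'.2.1, h h'.2.2⟩

lemma res_le (S : Finset V) : res G S ≤ G := fun _ _ h => h.1

lemma reach_ind {S : Finset V} {x y : V} (h : (res G S).Reachable x y) (P : V → Prop) (h0 : P x)
    (hs : ∀ u ∈ S, ∀ v ∈ S, G.Adj u v → P u → P v) : P y := by
  rw [reachable_iff_reflTransGen] at h
  induction h with
  | refl => exact h0
  | tail _ h2 ih => exact hs _ h2.2.1 _ h2.2.2 h2.1 ih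

lemma reach_step {S : Finset V} {x u v : V} (h : (res G S).Reachable x u) (huv : G.Adj u v)
    (hu : u ∈ S) (hv : v ∈ S) : (res G S).Reachable x v :=
  h.trans (res_adj huv hu hv).reachable

lemma walk_support_mem {S : Finset V} {x y : V} (w : (res G S).Walk x y) (hx : x ∈ S) :
    ∀ z ∈ w.support, z ∈ S := by
  induction w with
  | nil => simpa using hx
  | cons h w ih =>
    intro z hz
    simp only [Walk.support_cons, List.mem_cons] at hz
    rcases hz with hz | hz
    · exact hz ▸ hx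
    · exact ih h.2.2 z hz

lemma res_dist_lt {S : Finset V} {x y : V} (h : (res G S).Reachable x y) (hx : x ∈ S) :
    (res G S).dist x y + 1 ≤ S.card := by
  classical
  obtain ⟨w, hw, hl⟩ := h.exists_path_of_dist
  have h1 : w.support.toFinset ⊆ S := fun z hz =>
    walk_support_mem w hx z (List.mem_toFinset.1 hz)
  have h2 := card_le_card h1
  rw [List.toFinset_card_of_nodup hw.support_nodup, Walk.length_support] at h2
  omega

/-- The shadow index changes by at most the length of a route inside its domain. -/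
lemma Guard.f_le_dist (g : Guard G) {S : Finset V} (hS : ∀ x ∈ S, x ∈ g.Ω) {x y : V}
    (h : (res G S).Reachable x y) : g.f y ≤ g.f x + (res G S).dist x y := by
  obtain ⟨w, hw⟩ := h.exists_walk_length_eq_dist
  rw [← hw]
  clear hw h
  induction w with
  | nil => simp
  | cons h w ih =>
    have := g.lip _ (hS _ h.2.1) _ (hS _ h.2.2) h.1
    simp only [Walk.length_cons]
    omega

/-- Connected vertex sets. -/
def Conn (G : SimpleGraph V) (K : Finset V) : Prop := ∀ x ∈ K, ∀ y ∈ K, (res G K).Reachable x y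

variable [Fintype V] [DecidableEq V]

open Classical in
/-- The outer boundary of a vertex set. -/
noncomputable def nb (G : SimpleGraph V) (K : Finset V) : Finset V :=
  univ.filter (fun y => y ∉ K ∧ ∃ x ∈ K, G.Adj x y)

lemma mem_nb {K : Finset V} {y : V} : y ∈ nb G K ↔ y ∉ K ∧ ∃ x ∈ K, G.Adj x y := by
  simp [nb]

lemma mem_nb_of {K : Finset V} {x y : V} (hx : x ∈ K) (hy : y ∉ K) (h : G.Adj x y) :
    y ∈ nb G K := mem_nb.2 ⟨hy, x, hx, h⟩

open Classical in
/-- The component of `r` in the set `S`. -/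
noncomputable def comp (G : SimpleGraph V) (S : Finset V) (r : V) : Finset V :=
  S.filter (fun x => (res G S).Reachable r x)

lemma mem_comp {S : Finset V} {r x : V} : x ∈ comp G S r ↔ x ∈ S ∧ (res G S).Reachable r x := by
  simp [comp]

lemma comp_closed {S : Finset V} {r x y : V} (hx : x ∈ comp G S r) (hy : y ∈ S) (h : G.Adj x y) :
    y ∈ comp G S r :=
  mem_comp.2 ⟨hy, reach_step (mem_comp.1 hx).2 h (mem_comp.1 hx).1 hy⟩

lemma comp_conn {S : Finset V} {r : V} (hr : r ∈ S) : Conn G (comp G S r) := by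
  have key : ∀ x ∈ comp G S r, (res G (comp G S r)).Reachable r x := by
    intro x hx
    have := reach_ind (mem_comp.1 hx).2
      (fun u => u ∈ comp G S r ∧ (res G (comp G S r)).Reachable r u)
      ⟨mem_comp.2 ⟨hr, Reachable.refl _⟩, Reachable.refl _⟩
      (fun u _ v hv huv hu => ⟨comp_closed hu.1 hv huv,
        reach_step hu.2 huv hu.1 (comp_closed hu.1 hv huv)⟩)
    exact this.2
  intro x hx y hy
  exact (key x hx).symm.trans (key y hy)

/-- `K'` is a component of `K` minus the vertex `d`. -/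
structure Sub (G : SimpleGraph V) (K K' : Finset V) (d : V) : Prop where
  mem : d ∈ K
  sub : K' ⊆ K
  nmem : d ∉ K'
  closed : ∀ x ∈ K', ∀ y ∈ K, G.Adj x y → y ∈ K' ∨ y = d
  conn : Conn G K'
  ne : K'.Nonempty

lemma exists_sub {K : Finset V} {d r : V} (hd : d ∈ K) (hr : r ∈ K) (hrd : r ≠ d) :
    ∃ K', Sub G K K' d ∧ r ∈ K' := by
  have hr' : r ∈ K.erase d := mem_erase.2 ⟨hrd, hr⟩
  have hrc : r ∈ comp G (K.erase d) r := mem_comp.2 ⟨hr', Reachable.refl _⟩
  refine ⟨comp G (K.erase d) r, ⟨hd, fun x hx => mem_of_mem_erase (mem_comp.1 hx).1,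
    fun h => by simpa using (mem_comp.1 h).1, fun x hx y hy h => ?_, comp_conn hr', ⟨r, hrc⟩⟩, hrc⟩
  by_cases hyd : y = d
  · exact Or.inr hyd
  · exact Or.inl (comp_closed hx (mem_erase.2 ⟨hyd, hy⟩) h)

namespace Sub

variable {K K' : Finset V} {d : V}

lemma nb_cases (s : Sub G K K' d) {y : V} (hy : y ∈ nb G K') : y = d ∨ y ∈ nb G K := by
  obtain ⟨h1, x, hx, hxy⟩ := mem_nb.1 hy
  by_cases hK : y ∈ K
  · rcases s.closed x hx y hK hxy with h | h
    · exact absurd h h1
    · exact Or.inl h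
  · exact Or.inr (mem_nb_of (s.sub hx) hK hxy)

lemma d_mem_nb (s : Sub G K K' d) (hK : Conn G K) : d ∈ nb G K' := by
  obtain ⟨r, hr⟩ := s.ne
  have := reach_ind (hK r (s.sub hr) d s.mem) (fun u => u ∈ K' ∨ d ∈ nb G K') (Or.inl hr)
    (fun u _ v hv huv hu => by
      rcases hu with hu | hu
      · rcases s.closed u hu v hv huv with h | h
        · exact Or.inl h
        · exact Or.inr (h ▸ mem_nb_of hu (h ▸ s.nmem) huv)
      · exact Or.inr hu)
  exact this.resolve_left s.nmem

lemma card_eq (s : Sub G K K' d) : K.card = K'.card + (K \ K').card := by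
  have := card_sdiff_add_card_eq_card s.sub
  omega

lemma card_pos (s : Sub G K K' d) : 1 ≤ (K \ K').card :=
  Finset.card_pos.2 ⟨d, mem_sdiff.2 ⟨s.mem, s.nmem⟩⟩

lemma ssub (s : Sub G K K' d) : K' ⊂ K :=
  Finset.ssubset_iff_subset_ne.2 ⟨s.sub, fun h => s.nmem (h ▸ s.mem)⟩

/-- Inside the removed part every vertex reaches `d`. -/
lemma reach_d (s : Sub G K K' d) (hK : Conn G K) {x : V} (hx : x ∈ K) (hx' : x ∉ K') :
    (res G (K \ K')).Reachable x d := by
  have hd : d ∈ K \ K' := mem_sdiff.2 ⟨s.mem, s.nmem⟩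
  have := reach_ind (hK x hx d s.mem)
    (fun u => (res G (K \ K')).Reachable x d ∨ (u ∉ K' ∧ (res G (K \ K')).Reachable x u))
    (Or.inr ⟨hx', Reachable.refl _⟩)
    (fun u hu v hv huv h => by
      rcases h with h | ⟨h1, h2⟩
      · exact Or.inl h
      · by_cases hud : u = d
        · exact Or.inl (hud ▸ h2)
        · have hv' : v ∉ K' := fun hv' => by
            rcases s.closed v hv' u hu huv.symm with h | h
            · exact h1 h
            · exact hud h
          exact Or.inr ⟨hv', reach_step h2 huv (mem_sdiff.2 ⟨hu, h1⟩) (mem_sdiff.2 ⟨hv, hv'⟩)⟩)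
  rcases this with h | h
  · exact h
  · exact h.2

/-- A vertex with a neighbour in the removed part is close to `d`, in any graph that contains
the removed part and that vertex. -/
lemma dist_d (s : Sub G K K' d) (hK : Conn G K) {x y : V} (hx : x ∈ K) (hx' : x ∉ K')
    (hxy : G.Adj x y) {S : Finset V} (hS : K ⊆ S) (hy : y ∈ S) :
    (res G S).dist y d ≤ (K \ K').card := by
  have h1 := s.reach_d hK hx hx'
  have h2 := res_dist_lt h1 (mem_sdiff.2 ⟨hx, hx'⟩)
  have hle : res G (K \ K') ≤ res G S := res_mono (sdiff_subset.trans hS)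
  have h3 := Reachable.dist_anti hle h1
  have h4 : (res G S).Adj y x := res_adj hxy.symm hy (hS hx)
  have h5 := h4.reachable.dist_triangle_left d
  have h6 := dist_eq_one_iff_adj.2 h4
  omega

lemma gdist_d (s : Sub G K K' d) (hK : Conn G K) {x y : V} (hx : x ∈ K) (hx' : x ∉ K')
    (hxy : G.Adj x y) : G.dist y d ≤ (K \ K').card := by
  have h1 := s.dist_d hK hx hx' hxy (S := univ) (subset_univ _) (mem_univ _)
  have h2 : res G univ = G := by
    ext a b; simp [res]
  rwa [h2] at h1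

/-- A boundary vertex that is not on the new boundary is close to `d`. -/
lemma gdist_of_not_nb (s : Sub G K K' d) (hK : Conn G K) {y : V} (hy : y ∈ nb G K)
    (hy' : y ∉ nb G K') : G.dist y d ≤ (K \ K').card := by
  obtain ⟨h1, x, hx, hxy⟩ := mem_nb.1 hy
  exact s.gdist_d hK hx (fun hx' => hy' (mem_nb_of hx' (fun h => h1 (s.sub h)) hxy)) hxy

end Sub

/-- The elimination property: connected subsets of `K` whose neighbours in `K` have smaller depth
have at most three neighbours. -/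
def Good (G : SimpleGraph V) (δ : V → ℕ) (K : Finset V) : Prop :=
  ∀ Z ⊆ K, Conn G Z → (∀ z ∈ Z, ∀ w ∈ nb G Z, w ∈ K → δ w ≤ δ z) → (nb G Z).card ≤ 3

variable {δ : V → ℕ}

lemma Good.card_nb {K : Finset V} (h : Good G δ K) (hK : Conn G K) : (nb G K).card ≤ 3 :=
  h K Subset.rfl hK (fun _ _ _ hw hwK => absurd hwK (mem_nb.1 hw).1)

lemma Good.sub {K K' : Finset V} {d : V} (h : Good G δ K) (s : Sub G K K' d)
    (hd : ∀ x ∈ K, δ d ≤ δ x) : Good G δ K' := by
  intro Z hZ hc hcl
  refine h Z (hZ.trans s.sub) hc (fun z hz w hw hwK => ?_)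
  obtain ⟨_, x, hx, hxw⟩ := mem_nb.1 hw
  rcases s.closed x (hZ hx) w hwK hxw with h1 | h1
  · exact hcl z hz w hw h1
  · exact h1 ▸ hd z (s.sub (hZ hz))

/-- Cutting at a vertex `q` that is joined to a vertex outside `K` away from the component. -/
lemma Good.cut {K K' M : Finset V} {q t : V} (h : Good G δ K) (s : Sub G K K' q) (ht : t ∉ K)
    (hM : (res G M).Reachable q t) (hM1 : ∀ x ∈ M, x ∉ K')
    (hM2 : ∀ x ∈ M, x ∈ nb G K' → x = q) : Good G δ K' := by
  intro Z hZ hc hcl
  by_cases hq : q ∈ nb G Z → ∀ z ∈ Z, δ q ≤ δ z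
  · refine h Z (hZ.trans s.sub) hc (fun z hz w hw hwK => ?_)
    obtain ⟨_, x, hx, hxw⟩ := mem_nb.1 hw
    rcases s.closed x (hZ hx) w hwK hxw with h1 | h1
    · exact hcl z hz w hw h1
    · subst h1; exact hq hw z hz
  push Not at hq
  obtain ⟨hqZ, z0, hz0, hz0q⟩ := hq
  obtain ⟨z, hz, hzmin⟩ := exists_min_image Z δ ⟨z0, hz0⟩
  have hzq : δ z < δ q := lt_of_le_of_lt (hzmin z0 hz0) hz0q
  set S : Finset V := Z ∪ K.filter (fun x => δ z < δ x) with hSdef
  have hzS : z ∈ S := mem_union_left _ hz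
  have hSK : S ⊆ K := union_subset (hZ.trans s.sub) (filter_subset _ _)
  have hZc : ∀ x ∈ Z, x ∈ comp G S z := fun x hx =>
    mem_comp.2 ⟨mem_union_left _ hx, (hc z hz x hx).mono (res_mono subset_union_left)⟩
  have hcS : comp G S z ⊆ S := fun x hx => (mem_comp.1 hx).1
  have hqS : q ∈ S := mem_union_right _ (mem_filter.2 ⟨s.mem, hzq⟩)
  have hqc : q ∈ comp G S z := by
    obtain ⟨_, x, hx, hxq⟩ := mem_nb.1 hqZ
    exact comp_closed (hZc x hx) hqS hxq
  have hcard : (nb G (comp G S z)).card ≤ 3 := by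
    refine h _ (hcS.trans hSK) (comp_conn hzS) (fun x hx w hw hwK => ?_)
    obtain ⟨hw1, u, hu, huw⟩ := mem_nb.1 hw
    have hwS : w ∉ S := fun hwS => hw1 (comp_closed hu hwS huw)
    have h1 : δ w ≤ δ z := by
      by_contra hlt
      exact hwS (mem_union_right _ (mem_filter.2 ⟨hwK, by omega⟩))
    have h2 : δ z ≤ δ x := by
      rcases mem_union.1 (hcS hx) with h3 | h3
      · exact hzmin x h3
      · exact (mem_filter.1 h3).2.le
    omega
  obtain ⟨y, hyM, hy⟩ : ∃ y ∈ M, y ∈ nb G (comp G S z) := by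
    have := reach_ind hM (fun u => u ∈ comp G S z ∨ ∃ y ∈ M, y ∈ nb G (comp G S z)) (Or.inl hqc)
      (fun u _ v hv huv hu => by
        rcases hu with hu | hu
        · by_cases hvc : v ∈ comp G S z
          · exact Or.inl hvc
          · exact Or.inr ⟨v, hv, mem_nb_of hu hvc huv⟩
        · exact Or.inr hu)
    exact this.resolve_left (fun h1 => ht (hSK (hcS h1)))
  have hyq : y ≠ q := fun h1 => (mem_nb.1 hy).1 (h1 ▸ hqc)
  have hyZ : y ∉ nb G Z := by
    intro h1
    obtain ⟨_, x, hx, hxy⟩ := mem_nb.1 h1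
    exact hyq (hM2 y hyM (mem_nb_of (hZ hx) (hM1 y hyM) hxy))
  have hsub : insert y ((nb G Z).erase q) ⊆ nb G (comp G S z) := by
    intro w hw
    rcases mem_insert.1 hw with h1 | h1
    · exact h1 ▸ hy
    · obtain ⟨hwq, hw⟩ := mem_erase.1 h1
      obtain ⟨hwZ, x, hx, hxw⟩ := mem_nb.1 hw
      refine mem_nb_of (hZc x hx) (fun hwc => ?_) hxw
      have hwS := hcS hwc
      rcases mem_union.1 hwS with h2 | h2
      · exact hwZ h2
      · obtain ⟨hwK, h3⟩ := mem_filter.1 h2
        rcases s.closed x (hZ hx) w hwK hxw with h4 | h4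
        · have := hcl z hz w hw h4
          omega
        · exact hwq h4
  have h1 := card_le_card hsub
  rw [card_insert_of_notMem (fun h2 => hyZ (mem_of_mem_erase h2)), card_erase_of_mem hqZ] at h1
  have h2 : 1 ≤ (nb G Z).card := Finset.card_pos.2 ⟨q, hqZ⟩
  omega

/-- If no vertex of `K` separates `c` from `v`, then a proper subset with at most two neighbours
misses a route from `c` to `v`. -/
lemma reach_of_no_cut {K Z : Finset V} {c v : V} (hK : Conn G K) (hc : c ∉ K) (hv : v ∉ K)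
    (hno : ∀ q ∈ K, (res G ((insert c (insert v K)).erase q)).Reachable c v)
    (hZ : Z ⊂ K) (hne : Z.Nonempty) (h2 : (nb G Z).card ≤ 2) :
    (res G (insert c (insert v (K \ Z)))).Reachable c v := by
  obtain ⟨q, hqK, hq⟩ : ∃ q ∈ K, q ∈ nb G Z := by
    obtain ⟨z, hz⟩ := hne
    obtain ⟨x, hxK, hxZ⟩ := exists_of_ssubset hZ
    have := reach_ind (hK z (hZ.1 hz) x hxK) (fun u => u ∈ Z ∨ ∃ q ∈ K, q ∈ nb G Z) (Or.inl hz)
      (fun u _ w hw huw hu => by
        rcases hu with hu | hu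
        · by_cases hwZ : w ∈ Z
          · exact Or.inl hwZ
          · exact Or.inr ⟨w, hw, mem_nb_of hu hwZ huw⟩
        · exact Or.inr hu)
    exact this.resolve_left hxZ
  have huniq : ∀ a ∈ nb G Z, ∀ b ∈ nb G Z, a ≠ q → b ≠ q → a = b := by
    intro a ha b hb haq hbq
    have h1 : ((nb G Z).erase q).card ≤ 1 := by rw [card_erase_of_mem hq]; omega
    exact card_le_one.1 h1 a (mem_erase.2 ⟨haq, ha⟩) b (mem_erase.2 ⟨hbq, hb⟩)
  set S := insert c (insert v (K \ Z)) with hS
  have hmem : ∀ u ∈ (insert c (insert v K)).erase q, u ∉ Z → u ∈ S := by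
    intro u hu huZ
    have := mem_of_mem_erase hu
    simp only [hS, mem_insert, mem_sdiff] at this ⊢
    tauto
  have := reach_ind (hno q hqK)
    (fun u => (u ∉ Z ∧ (res G S).Reachable c u) ∨
      (u ∈ Z ∧ ∃ y ∈ nb G Z, y ≠ q ∧ (res G S).Reachable c y))
    (Or.inl ⟨fun h => hc (hZ.1 h), Reachable.refl _⟩)
    (fun u hu w hw huw h => by
      by_cases hwZ : w ∈ Z
      · rcases h with ⟨h1, h3⟩ | ⟨_, h3⟩
        · exact Or.inr ⟨hwZ, u, mem_nb_of hwZ h1 huw.symm, (mem_erase.1 hu).1, h3⟩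
        · exact Or.inr ⟨hwZ, h3⟩
      · rcases h with ⟨h1, h3⟩ | ⟨h1, y, hy, hyq, h3⟩
        · exact Or.inl ⟨hwZ, reach_step h3 huw (hmem u hu h1) (hmem w hw hwZ)⟩
        · have := huniq y hy w (mem_nb_of h1 hwZ huw) hyq (mem_erase.1 hw).1
          exact Or.inl ⟨hwZ, this ▸ h3⟩)
  rcases this with h | h
  · exact h.2
  · exact absurd (hZ.1 h.1) hv

end Pool.Agent.Lib.MP_1fc36f_co
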