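import Pool.Agent.Lib.MP_1fc36f_co.H19Path

namespace Pool.Agent.Lib.MP_1fc36f_co

open SimpleGraph Finset

set_option linter.unusedSectionVars false

variable {V : Type} {G : SimpleGraph V} [Fintype V] [DecidableEq V]

lemma nb_not_mem {K : Finset V} {y : V} (h : y ∈ nb G K) : y ∉ K := (mem_nb.1 h).1

lemma retarget_aux (hG : G.Connected) (g : Guard G) {K K' : Finset V} {c : V} {m : ℕ}
    (hm : m ≤ g.L) (s : Sub G K K' (g.p m)) (hK : Conn G K) (h3 : (nb G K).card ≤ 3)
    (h3' : (nb G K').card ≤ 3) (h2' : ¬ (nb G K').card ≤ 2) (e0 : g.p 0 ∉ K) (eL : g.p g.L ∉ K)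
    (hc : c ∈ nb G K) (hbal : g.Bal K c) (hall : ∀ z ∈ nb G K', g.On z)
    (hcc : c ∈ nb G K' → ¬ g.Bal K' c) (hcd : G.dist c (g.p m) ≤ (K \ K').card)
    (hn : g.p (m + 1) ∈ K') (hp : g.p (m - 1) ∉ K') :
    ∃ y ∈ nb G K', G.dist c y ≤ 2 * (K \ K').card ∧ g.Bal K' y := by
  have e0' : g.p 0 ∉ K' := fun h => e0 (s.sub h)
  have eL' : g.p g.L ∉ K' := fun h => eL (s.sub h)
  have hpos := s.card_pos
  have hd := s.d_mem_nb hK
  have ne : ∀ {i j : ℕ}, i ≤ g.L → j ≤ g.L → i ≠ j → g.p i ≠ g.p j :=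
    fun hi hj hij h => hij (g.inj hi hj h)
  obtain ⟨hi, hi1, hi2, hi3, hi4⟩ := g.upnb eL' hn
  obtain ⟨z, hz, hz1, hz2⟩ : ∃ z ∈ nb G K', z ≠ g.p m ∧ z ≠ g.p hi := by
    by_contra hcon
    push Not at hcon
    exact h2' (card_le_two_of (a := g.p m) (b := g.p hi) fun y hy => by
      by_cases h : y = g.p m
      · exact Or.inl h
      · exact Or.inr (hcon y hy h))
  obtain ⟨k, hk, rfl⟩ := (hall z hz).exists
  have hkm : k ≠ m := fun h => hz1 (h ▸ rfl)
  have hkh : k ≠ hi := fun h => hz2 (h ▸ rfl)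
  have hk2 : k < m ∨ hi < k := by
    by_contra hcon
    exact nb_not_mem hz (hi4 k (by omega) (by omega))
  have idx' : ∀ i, i ≤ g.L → g.p i ∈ nb G K' → i = m ∨ i = hi ∨ i = k := by
    intro i hiL h
    rcases three_cases h3' hd hi3 hz (ne hm hi2 (by omega)) hz1.symm hz2.symm h with h | h | h
    · exact Or.inl (g.inj hiL hm h)
    · exact Or.inr (Or.inl (g.inj hiL hi2 h))
    · exact Or.inr (Or.inr (g.inj hiL hk h))
  have hup : g.p (k + 1) ∉ K' := by
    intro h
    obtain ⟨h', a1, a2, a3, a4⟩ := g.upnb eL' h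
    rcases idx' h' a2 a3 with h5 | h5 | h5
    · exact hp (a4 (m - 1) (by omega) (by omega))
    · exact s.nmem (a4 m (by omega) (by omega))
    · omega
  have hiK : g.p hi ∈ nb G K := (s.nb_cases hi3).resolve_left (ne hi2 hm (by omega))
  have hkK : g.p k ∈ nb G K := (s.nb_cases hz).resolve_left hz1
  obtain ⟨lo, l1, l2, l3⟩ := g.downnb e0 hm s.mem
  have hhi1 : g.p (hi - 1) ∈ K := s.sub (hi4 _ (by omega) (by omega))
  have walk : ∀ a b, a < b → b ≤ g.L → (∀ i, a < i → i < b → g.p i ∈ K ∧ g.p i ∉ K') →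
      G.dist (g.p a) (g.p b) ≤ (K \ K').card + 1 := by
    intro a b hab hb h
    have h1 := g.dist_p_le' hG hab.le
    have h2 := g.count (S := K \ K') (a := a + 1) (b := b) (by omega)
      (fun i h3 h4 => mem_sdiff.2 (h i (by omega) h4))
    omega
  rcases hk2 with hk2 | hk2
  · have hdown : g.p (k - 1) ∉ K' := by
      intro h
      obtain ⟨l', a1, a3, _⟩ := g.downnb e0' (by omega) h
      have := idx' l' (by omega) a3
      omega
    have hb : g.Bal K' (g.p k) := (g.bal_p hk).2 ⟨fun h => absurd h hup, fun h => absurd h hdown⟩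
    refine ⟨_, hz, ?_, hb⟩
    have hklo : k ≤ lo := by
      by_contra hcon
      exact nb_not_mem hkK (l3 k (by omega) (by omega))
    rcases hklo.eq_or_lt with h | h
    · subst h
      have h1 := g.dist_p_le' hG hk2.le
      have h2 := g.count (S := K \ K') (a := k + 1) (b := m + 1) (by omega) (fun i h4 h5 => by
        refine mem_sdiff.2 ⟨l3 i (by omega) (by omega), fun h6 => ?_⟩
        by_cases h7 : i = m
        · exact s.nmem (h7 ▸ h6)
        · exact hp ((g.seg_const s (a := i) (b := m - 1) (by omega) (by omega)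
            (fun j h8 h9 => ⟨l3 j (by omega) (by omega), ne (by omega) hm (by omega)⟩)).1 h6))
      have h4 := hG.dist_triangle (u := c) (v := g.p m) (w := g.p k)
      rw [SimpleGraph.dist_comm] at h1
      omega
    · rcases three_cases h3 hkK l2 hiK (ne hk (by omega) (by omega)) (ne hk hi2 (by omega))
        (ne (by omega) hi2 (by omega)) hc with h4 | h4 | h4
      · subst h4
        exact absurd hb (hcc hz)
      · subst h4
        have h5 := ((g.bal_p (by omega)).1 hbal).1 (l3 (lo + 1) (by omega) (by omega))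
        obtain ⟨l', a1, a3, a4⟩ := g.downnb e0 (by omega) h5
        have h6 : l' = k := by
          rcases three_cases h3 hkK l2 hiK (ne hk (by omega) (by omega)) (ne hk hi2 (by omega))
            (ne (by omega) hi2 (by omega)) a3 with h7 | h7 | h7
          · exact g.inj (by omega) hk h7
          · have := g.inj (by omega) (by omega) h7; omega
          · have := g.inj (by omega) hi2 h7; omega
        subst h6
        have h7 := walk l' lo h (by omega) (fun i h8 h9 => ⟨a4 i h8 (by omega), fun h10 =>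
          hup ((g.seg_const s (a := l' + 1) (b := i) (by omega) (by omega)
            (fun j h11 h12 => ⟨a4 j (by omega) (by omega), ne (by omega) hm (by omega)⟩)).2 h10)⟩)
        rw [SimpleGraph.dist_comm] at h7
        omega
      · subst h4
        have h5 := ((g.bal_p hi2).1 hbal).2 hhi1
        obtain ⟨h', a1, a2, a3, _⟩ := g.upnb eL h5
        exact (four_false h3 hkK l2 hiK a3 (ne hk (by omega) (by omega)) (ne hk hi2 (by omega))
          (ne hk a2 (by omega)) (ne (by omega) hi2 (by omega)) (ne (by omega) a2 (by omega))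
          (ne hi2 a2 (by omega))).elim
  · rcases three_cases h3 l2 hiK hkK (ne (by omega) hi2 (by omega)) (ne (by omega) hk (by omega))
      (ne hi2 hk (by omega)) hc with h4 | h4 | h4
    · subst h4
      have h5 := ((g.bal_p (by omega)).1 hbal).1 (l3 (lo + 1) (by omega) (by omega))
      obtain ⟨l', a1, a3, _⟩ := g.downnb e0 (by omega) h5
      exact (four_false h3 a3 l2 hiK hkK (ne (by omega) (by omega) (by omega))
        (ne (by omega) hi2 (by omega)) (ne (by omega) hk (by omega))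
        (ne (by omega) hi2 (by omega)) (ne (by omega) hk (by omega))
        (ne hi2 hk (by omega))).elim
    · subst h4
      have h5 := ((g.bal_p hi2).1 hbal).2 hhi1
      have h6 : g.p (hi + 1) ∉ K' := fun h => hcc hi3 ((g.bal_p hi2).2
        ⟨fun _ => hi4 _ (by omega) (by omega), fun _ => h⟩)
      obtain ⟨h', a1, a2, a3, a4⟩ := g.upnb eL h5
      have h7 : h' = k := by
        rcases three_cases h3 l2 hiK hkK (ne (by omega) hi2 (by omega))
          (ne (by omega) hk (by omega)) (ne hi2 hk (by omega)) a3 with h7 | h7 | h7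
        · have := g.inj a2 (by omega) h7; omega
        · have := g.inj a2 hi2 h7; omega
        · exact g.inj a2 hk h7
      subst h7
      have h8 : ∀ i, hi < i → i < h' → g.p i ∈ K ∧ g.p i ∉ K' := fun i h8 h9 =>
        ⟨a4 i h8 h9, fun h10 => h6 ((g.seg_const s (a := hi + 1) (b := i) (by omega) (by omega)
          (fun j h11 h12 => ⟨a4 j (by omega) (by omega), ne (by omega) hm (by omega)⟩)).2 h10)⟩
      have h9 := walk hi h' hk2 hk h8
      exact ⟨_, hz, by omega, (g.bal_p hk).2 ⟨fun h => absurd h hup,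
        fun h => absurd h (h8 _ (by omega) (by omega)).2⟩⟩
    · subst h4
      have h5 : g.p (k - 1) ∈ K' := by
        by_contra h
        exact hcc hz ((g.bal_p hk).2 ⟨fun h' => absurd h' hup, fun h' => absurd h' h⟩)
      have h6 := ((g.bal_p hk).1 hbal).2 (s.sub h5)
      obtain ⟨h', a1, a2, a3, _⟩ := g.upnb eL h6
      exact (four_false h3 l2 hiK hkK a3 (ne (by omega) hi2 (by omega))
        (ne (by omega) hk (by omega)) (ne (by omega) a2 (by omega)) (ne hi2 hk (by omega))
        (ne hi2 a2 (by omega)) (ne hk a2 (by omega))).elim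

/-- If the removed vertex is on the guarded path, the second cop stays or has a cheap new
position. -/
lemma retarget (hG : G.Connected) (g : Guard G) {K K' : Finset V} {c d : V} (hd : g.On d)
    (s : Sub G K K' d) (hK : Conn G K) (h3 : (nb G K).card ≤ 3) (h3' : (nb G K').card ≤ 3)
    (e0 : g.p 0 ∉ K) (eL : g.p g.L ∉ K) (hc : c ∈ nb G K)
    (hcov : ∀ y ∈ nb G K, g.On y ∨ y = c) (hbal : g.Bal K c ∨ (nb G K').card ≤ 2) :
    ∃ y ∈ nb G K', (y = c ∨ (∀ z ∈ nb G K', g.On z) ∧ G.dist c y ≤ 2 * (K \ K').card) ∧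
      (g.Bal K' y ∨ (nb G K').card ≤ 2) := by
  by_cases h0 : c ∈ nb G K' ∧ (g.Bal K' c ∨ (nb G K').card ≤ 2)
  · exact ⟨c, h0.1, Or.inl rfl, h0.2⟩
  have hcc : c ∈ nb G K' → ¬ g.Bal K' c := fun h h' => h0 ⟨h, Or.inl h'⟩
  have hall : ∀ z ∈ nb G K', g.On z := by
    intro z hz
    rcases s.nb_cases hz with h | h
    · exact h ▸ hd
    · rcases hcov z h with h1 | h1
      · exact h1
      · subst h1
        by_contra h2
        exact hcc hz (fun h4 => absurd h4 h2)
  have hcd : G.dist c d ≤ (K \ K').card := by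
    by_cases h : c ∈ nb G K'
    · have hb : g.Bal K c := hbal.resolve_right (fun h' => h0 ⟨h, Or.inr h'⟩)
      have hon := hall c h
      have h1 := hcc h
      have h2 := hb hon
      by_cases h4 : g.nxt c ∈ K'
      · have h5 : g.prv c ∉ K' := fun h5 => h1 (fun _ => ⟨fun _ => h5, fun _ => h4⟩)
        have h6 := h2.1 (s.sub h4)
        exact s.gdist_d hK h6 h5 (g.adj_prv e0 hon h6)
      · have h5 : g.prv c ∈ K' := by
          by_contra h5
          exact h1 (fun _ => ⟨fun h6 => absurd h6 h4, fun h6 => absurd h6 h5⟩)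
        have h6 := h2.2 (s.sub h5)
        exact s.gdist_d hK h6 h4 (g.adj_nxt eL hon h6)
    · exact s.gdist_of_not_nb hK hc h
  by_cases h1 : g.Bal K' d ∨ (nb G K').card ≤ 2
  · exact ⟨d, s.d_mem_nb hK, Or.inr ⟨hall, by omega⟩, h1⟩
  push Not at h1
  have hb : g.Bal K c := hbal.resolve_right (by omega)
  have key : ∀ g' : Guard G, g'.On d → g'.p 0 ∉ K → g'.p g'.L ∉ K → g'.Bal K c →
      (∀ z ∈ nb G K', g'.On z) → (c ∈ nb G K' → ¬ g'.Bal K' c) → g'.nxt d ∈ K' → g'.prv d ∉ K' →
      ∃ y ∈ nb G K', G.dist c y ≤ 2 * (K \ K').card ∧ g'.Bal K' y := by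
    intro g' hd' a0 aL ab aall acc an ap
    obtain ⟨m, hm, rfl⟩ := hd'.exists
    rw [g'.nxt_p hm] at an
    rw [g'.prv_p hm] at ap
    exact retarget_aux hG g' hm s hK h3 h3' (by omega) a0 aL hc ab aall acc hcd an ap
  by_cases h4 : g.nxt d ∈ K'
  · have h5 : g.prv d ∉ K' := fun h5 => h1.1 (fun _ => ⟨fun _ => h5, fun _ => h4⟩)
    obtain ⟨y, hy, h6, h7⟩ := key g hd e0 eL hb hall hcc h4 h5
    exact ⟨y, hy, Or.inr ⟨hall, h6⟩, Or.inl h7⟩
  · have h5 : g.prv d ∈ K' := by
      by_contra h5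
      exact h1.1 (fun _ => ⟨fun h6 => absurd h6 h4, fun h6 => absurd h6 h5⟩)
    obtain ⟨y, hy, h6, h7⟩ := key g.rev (by rwa [g.rev_on]) (by rwa [g.rev_e0])
      (by rwa [g.rev_eL]) (by rwa [g.rev_bal]) (fun z hz => by rw [g.rev_on]; exact hall z hz)
      (fun h => by rw [g.rev_bal]; exact hcc h) (by rwa [g.rev_nxt]) (by rwa [g.rev_prv])
    exact ⟨y, hy, Or.inr ⟨hall, h6⟩, Or.inl ((g.rev_bal _ _).1 h7)⟩

/-- If the removed vertex is off the guarded path and the path meets the new territory, then the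
second cop has a neighbour in the removed part. -/
lemma off_path (g : Guard G) {K K' : Finset V} {c d x : V} (hd : ¬ g.On d)
    (s : Sub G K K' d) (hK : Conn G K) (h3' : (nb G K').card ≤ 3)
    (e0 : g.p 0 ∉ K) (eL : g.p g.L ∉ K) (hc : c ∈ nb G K) (hc' : c ∈ nb G K')
    (hbal : g.Bal K c) (hx : x ∈ K') (hxon : g.On x) :
    g.On c ∧ ∃ u ∈ K, u ∉ K' ∧ G.Adj u c := by
  have e0' : g.p 0 ∉ K' := fun h => e0 (s.sub h)
  have eL' : g.p g.L ∉ K' := fun h => eL (s.sub h)
  have hdn := s.d_mem_nb hK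
  have ne : ∀ {i j : ℕ}, i ≤ g.L → j ≤ g.L → i ≠ j → g.p i ≠ g.p j :=
    fun hi hj hij h => hij (g.inj hi hj h)
  have ned : ∀ i, d ≠ g.p i := fun i h => hd (h ▸ g.on_p i)
  obtain ⟨k, hk, rfl⟩ := hxon.exists
  obtain ⟨hi, a1, a2, a3, a4⟩ := g.upnb eL' hx
  obtain ⟨lo, b1, b3, b4⟩ := g.downnb e0' hk hx
  have hcd : c ≠ d := fun h => nb_not_mem hc (h ▸ s.mem)
  rcases three_cases h3' hdn b3 a3 (ned _) (ned _) (ne (by omega) a2 (by omega)) hc'
    with h | h | h
  · exact absurd h hcd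
  · subst h
    have h1 := ((g.bal_p (by omega)).1 hbal).1 (s.sub (b4 (lo + 1) (by omega) (by omega)))
    have h2 : g.prv (g.p lo) ∈ K := by rwa [g.prv_p (by omega)]
    refine ⟨g.on_p _, _, h2, fun h4 => ?_, g.adj_prv e0 (g.on_p _) h2⟩
    rw [g.prv_p (by omega)] at h4
    obtain ⟨l', c1, c3, _⟩ := g.downnb e0' (by omega) h4
    exact four_false h3' hdn c3 b3 a3 (ned _) (ned _) (ned _) (ne (by omega) (by omega) (by omega))
      (ne (by omega) a2 (by omega)) (ne (by omega) a2 (by omega))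
  · subst h
    have h1 := ((g.bal_p a2).1 hbal).2 (s.sub (a4 (hi - 1) (by omega) (by omega)))
    have h2 : g.nxt (g.p hi) ∈ K := by rwa [g.nxt_p a2]
    refine ⟨g.on_p _, _, h2, fun h4 => ?_, g.adj_nxt eL (g.on_p _) h2⟩
    rw [g.nxt_p a2] at h4
    obtain ⟨h', c1, c2, c3, _⟩ := g.upnb eL' h4
    exact four_false h3' hdn b3 a3 c3 (ned _) (ned _) (ned _) (ne (by omega) a2 (by omega))
      (ne (by omega) c2 (by omega)) (ne a2 c2 (by omega))

open Classical in
lemma two_boundary_aux {δ : V → ℕ} (g : Guard G) {K : Finset V} {j : ℕ} (hj : j ≤ g.L)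
    (hK : Conn G K) (hgood : Good G δ K) (hdom : ∀ x ∈ K, x ∈ g.Ω) (h2 : (nb G K).card ≤ 2)
    (eL : g.p g.L ∉ K) (hc : g.p j ∈ nb G K) (hn : g.p (j + 1) ∈ K) (hp : g.p (j - 1) ∉ K) :
    (∃ q ∈ K, g.On q ∧ ∀ K', Sub G K K' q → Good G δ K' ∧ (nb G K').card ≤ 2) ∨
    (∃ v ∈ nb G K, g.On v ∧ v ≠ g.p j ∧ (∀ y ∈ nb G K, y = g.p j ∨ y = v) ∧
      ∀ Z ⊂ K, Z.Nonempty → (nb G Z).card ≤ 2 → Z.card + (K.filter g.On).card ≤ K.card) := by
  have ne : ∀ {i j : ℕ}, i ≤ g.L → j ≤ g.L → i ≠ j → g.p i ≠ g.p j :=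
    fun hi hj hij h => hij (g.inj hi hj h)
  obtain ⟨hi, a1, a2, a3, a4⟩ := g.upnb eL hn
  have hcv : g.p j ≠ g.p hi := ne hj a2 (by omega)
  have hnb : ∀ y ∈ nb G K, y = g.p j ∨ y = g.p hi := fun y hy => two_cases h2 hc a3 hcv hy
  by_cases hno : ∀ q ∈ K,
      (res G ((insert (g.p j) (insert (g.p hi) K)).erase q)).Reachable (g.p j) (g.p hi)
  · refine Or.inr ⟨_, a3, g.on_p _, hcv.symm, hnb, fun Z hZ hne hZ2 => ?_⟩
    have h1 := reach_of_no_cut hK (nb_not_mem hc) (nb_not_mem a3) hno hZ hne hZ2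
    have h3 := g.f_le_dist (fun x hx => by
      simp only [mem_insert, mem_sdiff] at hx
      rcases hx with rfl | rfl | hx
      · exact g.mem _
      · exact g.mem _
      · exact hdom x hx.1) h1
    have h4 := res_dist_lt h1 (mem_insert_self _ _)
    have h5 := card_insert_le (g.p j) (insert (g.p hi) (K \ Z))
    have h6 := card_insert_le (g.p hi) (K \ Z)
    rw [g.fp j hj, g.fp hi a2] at h3
    have h7 : K.filter g.On ⊆ (Ico (j + 1) hi).image g.p := by
      intro x hx
      obtain ⟨hxK, hxon⟩ := mem_filter.1 hx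
      obtain ⟨k, hk, rfl⟩ := hxon.exists
      refine mem_image.2 ⟨k, mem_Ico.2 ?_, rfl⟩
      obtain ⟨h', b1, b2, b3, b4⟩ := g.upnb eL hxK
      rcases hnb _ b3 with h | h
      · have := g.inj b2 hj h
        subst this
        exact absurd (b4 (h' - 1) (by omega) (by omega)) hp
      · have := g.inj b2 a2 h
        subst this
        by_contra hcon
        exact nb_not_mem hc (b4 j (by omega) (by omega))
    have h8 := (card_le_card h7).trans card_image_le
    rw [Nat.card_Ico] at h8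
    have h9 := card_sdiff_add_card_eq_card hZ.1
    omega
  · push Not at hno
    obtain ⟨q, hqK, hq⟩ := hno
    have hqj : g.p j ≠ q := fun h => nb_not_mem hc (h ▸ hqK)
    have hqh : g.p hi ≠ q := fun h => nb_not_mem a3 (h ▸ hqK)
    obtain ⟨i, i1, i2, rfl⟩ : ∃ i, j < i ∧ i < hi ∧ q = g.p i := by
      by_contra hcon
      push Not at hcon
      refine hq (g.reach_seg (by omega) a2 (fun i h1 h3 => mem_erase.2 ⟨?_, ?_⟩))
      · by_cases h4 : i = j
        · exact h4 ▸ hqj
        by_cases h5 : i = hi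
        · exact h5 ▸ hqh
        exact (hcon i (by omega) (by omega)).symm
      · by_cases h4 : i = j
        · simp [h4]
        by_cases h5 : i = hi
        · simp [h5]
        exact mem_insert_of_mem (mem_insert_of_mem (a4 i (by omega) (by omega)))
    refine Or.inl ⟨_, hqK, g.on_p _, fun K' s => ?_⟩
    have hboth : g.p j ∉ nb G K' ∨ g.p hi ∉ nb G K' := by
      by_contra hcon
      push Not at hcon
      obtain ⟨_, x, hx, hxj⟩ := mem_nb.1 hcon.1
      obtain ⟨_, y, hy, hyh⟩ := mem_nb.1 hcon.2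
      have hsub : K' ⊆ (insert (g.p j) (insert (g.p hi) K)).erase (g.p i) := fun u hu =>
        mem_erase.2 ⟨fun h => s.nmem (h ▸ hu), mem_insert_of_mem (mem_insert_of_mem (s.sub hu))⟩
      exact hq (reach_step ((res_adj hxj.symm (mem_erase.2 ⟨hqj, by simp⟩) (hsub hx)).reachable.trans
        ((s.conn x hx y hy).mono (res_mono hsub))) hyh (hsub hy) (mem_erase.2 ⟨hqh, by simp⟩))
    have hcases : ∀ y ∈ nb G K', y = g.p i ∨ y = g.p j ∨ y = g.p hi := fun y hy =>
      (s.nb_cases hy).imp_right (hnb y)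
    rcases hboth with h | h
    · refine ⟨hgood.cut (M := (Icc j i).image g.p) s (nb_not_mem hc)
        (g.reach_seg (a := j) (b := i) (by omega) (by omega)
          (fun k h1 h3 => mem_image.2 ⟨k, mem_Icc.2 ⟨h1, h3⟩, rfl⟩)).symm (fun x hx hx' => ?_)
          (fun x hx hx' => ?_), card_le_two_of (a := g.p i) (b := g.p hi) fun y hy => ?_⟩
      · obtain ⟨k, hk, rfl⟩ := mem_image.1 hx
        obtain ⟨k1, k2⟩ := mem_Icc.1 hk
        by_cases h4 : k = j
        · exact nb_not_mem hc (h4 ▸ s.sub hx')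
        by_cases h5 : k = i
        · exact s.nmem (h5 ▸ hx')
        have h6 := (g.seg_const s (a := j + 1) (b := k) (by omega) (by omega) (fun l h7 h8 =>
          ⟨a4 l h7 (by omega), ne (by omega) (by omega) (by omega)⟩)).2 hx'
        exact h (mem_nb_of h6 (fun h7 => nb_not_mem hc (s.sub h7)) (g.adj j (by omega)).symm)
      · obtain ⟨k, hk, rfl⟩ := mem_image.1 hx
        obtain ⟨k1, k2⟩ := mem_Icc.1 hk
        rcases hcases _ hx' with h4 | h4 | h4
        · exact h4
        · exact absurd (h4 ▸ hx') h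
        · have := g.inj (by omega) a2 h4; omega
      · rcases hcases y hy with h4 | h4 | h4
        · exact Or.inl h4
        · exact absurd (h4 ▸ hy) h
        · exact Or.inr h4
    · refine ⟨hgood.cut (M := (Icc i hi).image g.p) s (nb_not_mem a3)
        (g.reach_seg (a := i) (b := hi) (by omega) a2
          (fun k h1 h3 => mem_image.2 ⟨k, mem_Icc.2 ⟨h1, h3⟩, rfl⟩)) (fun x hx hx' => ?_)
          (fun x hx hx' => ?_), card_le_two_of (a := g.p i) (b := g.p j) fun y hy => ?_⟩
      · obtain ⟨k, hk, rfl⟩ := mem_image.1 hx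
        obtain ⟨k1, k2⟩ := mem_Icc.1 hk
        by_cases h4 : k = hi
        · exact nb_not_mem a3 (h4 ▸ s.sub hx')
        by_cases h5 : k = i
        · exact s.nmem (h5 ▸ hx')
        have h6 := (g.seg_const s (a := k) (b := hi - 1) (by omega) (by omega) (fun l h7 h8 =>
          ⟨a4 l (by omega) (by omega), ne (by omega) (by omega) (by omega)⟩)).1 hx'
        have h7 := g.adj (hi - 1) (by omega)
        rw [show hi - 1 + 1 = hi by omega] at h7
        exact h (mem_nb_of h6 (fun h8 => nb_not_mem a3 (s.sub h8)) h7)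
      · obtain ⟨k, hk, rfl⟩ := mem_image.1 hx
        obtain ⟨k1, k2⟩ := mem_Icc.1 hk
        rcases hcases _ hx' with h4 | h4 | h4
        · exact h4
        · have := g.inj (by omega) hj h4; omega
        · exact absurd (h4 ▸ hx') h
      · rcases hcases y hy with h4 | h4 | h4
        · exact Or.inl h4
        · exact Or.inr h4
        · exact absurd (h4 ▸ hy) h

open Classical in
/-- A territory with two boundary vertices joined inside by the guarded path: either a cut vertex
lies on the path, or every proper subset with at most two neighbours misses many vertices. -/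
lemma two_boundary {δ : V → ℕ} (g : Guard G) {K : Finset V} {c : V}
    (hK : Conn G K) (hgood : Good G δ K) (hdom : ∀ x ∈ K, x ∈ g.Ω) (h2 : (nb G K).card ≤ 2)
    (e0 : g.p 0 ∉ K) (eL : g.p g.L ∉ K) (hc : c ∈ nb G K) (hbal : ¬ g.Bal K c) :
    (∃ q ∈ K, g.On q ∧ ∀ K', Sub G K K' q → Good G δ K' ∧ (nb G K').card ≤ 2) ∨
    (∃ v ∈ nb G K, g.On v ∧ v ≠ c ∧ (∀ y ∈ nb G K, y = c ∨ y = v) ∧
      ∀ Z ⊂ K, Z.Nonempty → (nb G Z).card ≤ 2 → Z.card + (K.filter g.On).card ≤ K.card) := by
  have hon : g.On c := by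
    by_contra h
    exact hbal (fun h' => absurd h' h)
  by_cases h4 : g.nxt c ∈ K
  · have h5 : g.prv c ∉ K := fun h5 => hbal (fun _ => ⟨fun _ => h5, fun _ => h4⟩)
    obtain ⟨j, hj, rfl⟩ := hon.exists
    rw [g.nxt_p hj] at h4
    rw [g.prv_p hj] at h5
    exact two_boundary_aux g hj hK hgood hdom h2 eL hc h4 h5
  · have h5 : g.prv c ∈ K := by
      by_contra h5
      exact hbal (fun _ => ⟨fun h6 => absurd h6 h4, fun h6 => absurd h6 h5⟩)
    rw [← g.rev_nxt] at h5
    rw [← g.rev_prv] at h4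
    obtain ⟨j, hj, rfl⟩ := ((g.rev_on c).2 hon).exists
    rw [g.rev.nxt_p hj] at h5
    rw [g.rev.prv_p hj] at h4
    have := two_boundary_aux g.rev hj hK hgood hdom h2 (by rwa [g.rev_eL]) hc h5 h4
    have e : g.rev.On = g.On := funext fun x => propext (g.rev_on x)
    simpa only [e] using this

end Pool.Agent.Lib.MP_1fc36f_co
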