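import Pool.Agent.Lib.MP_1fc36f_co.H40Defs

/-! The trivial upper bound: `k` cops that can win on `n` vertices win within `n ^ (k + 1)` rounds. -/

namespace Pool.Agent.Lib.MP_1fc36f_co.H22

open Pool.Agent.Lib.MP_1fc36f_co.H40

variable {V : Type} {G : SimpleGraph V} {k : ℕ}

theorem win_succ : ∀ (t : ℕ) (c : Fin k → V) (r : V), Win G k t c r → Win G k (t + 1) c r := by
  intro t
  induction t with
  | zero => intro c r h; exact ⟨c, fun _ => Or.inl rfl, Or.inl h⟩
  | succ t ih =>
    rintro c r ⟨c', h1, h2⟩
    exact ⟨c', h1, h2.imp id fun h r' hr => ih c' r' (h r' hr)⟩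

theorem win_mono {s t : ℕ} (hst : s ≤ t) {c : Fin k → V} {r : V} (h : Win G k s c r) :
    Win G k t c r := by
  induction hst with
  | refl => exact h
  | step _ ih => exact win_succ _ _ _ ih

/-- The positions won within `t` rounds. -/
def winSet (G : SimpleGraph V) (k t : ℕ) : Set ((Fin k → V) × V) := {p | Win G k t p.1 p.2}

theorem stable {s : ℕ} (h : winSet G k (s + 1) ⊆ winSet G k s) :
    ∀ m, winSet G k (s + m) ⊆ winSet G k s := by
  intro m
  induction m with
  | zero => exact subset_rfl
  | succ m ih =>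
    rintro ⟨c, r⟩ ⟨c', h1, h2⟩
    exact h ⟨c', h1, h2.imp id fun h r' hr => ih (a := (c', r')) (h r' hr)⟩

theorem exists_stable [Finite V] :
    ∃ s, s ≤ Nat.card V ^ (k + 1) ∧ winSet G k (s + 1) ⊆ winSet G k s := by
  by_contra hc
  push Not at hc
  have grow : ∀ s, s ≤ Nat.card V ^ (k + 1) + 1 → s ≤ (winSet G k s).ncard := by
    intro s
    induction s with
    | zero => intro _; exact Nat.zero_le _
    | succ s ih =>
      intro hs
      have h1 : winSet G k s ⊂ winSet G k (s + 1) :=
        ⟨fun p hp => win_succ _ _ _ hp, hc s (by omega)⟩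
      have h2 := Set.ncard_lt_ncard h1 (Set.toFinite _)
      have := ih (by omega)
      omega
  have h1 := grow _ le_rfl
  have h2 : (winSet G k (Nat.card V ^ (k + 1) + 1)).ncard ≤ Nat.card ((Fin k → V) × V) :=
    Set.ncard_le_card _
  rw [Nat.card_prod, Nat.card_fun, Nat.card_eq_fintype_card (α := Fin k), Fintype.card_fin,
    ← pow_succ] at h2
  omega

theorem win_card [Finite V] {t : ℕ} {c : Fin k → V} {r : V} (h : Win G k t c r) :
    Win G k (Nat.card V ^ (k + 1)) c r := by
  obtain ⟨s, hs, hst⟩ := exists_stable (G := G) (k := k)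
  have h1 : Win G k (s + t) c r := win_mono (by omega) h
  exact win_mono hs (stable hst t (a := (c, r)) h1)

/-- The capture time of a finite graph with cop number `k` is at most `n ^ (k + 1)`. -/
theorem capt_le [Finite V] (G : SimpleGraph V) : capt G ≤ Nat.card V ^ (copNumber G + 1) := by
  by_cases h : ∃ t, CaptureWithin G (copNumber G) t
  · obtain ⟨t, c, hc⟩ := h
    exact Nat.sInf_le ⟨c, fun r => win_card (hc r)⟩
  · have : {t | CaptureWithin G (copNumber G) t} = ∅ :=
      Set.eq_empty_of_forall_notMem fun t ht => h ⟨t, ht⟩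
    rw [capt, this, Nat.sInf_empty]
    exact Nat.zero_le _

/-- Two cops: the capture time is at most `n ^ 3`. -/
theorem capt_le_cube [Fintype V] (G : SimpleGraph V) (h : copNumber G = 2) :
    capt G ≤ Fintype.card V ^ 3 := by
  have := capt_le G
  rwa [h, Nat.card_eq_fintype_card] at this

end Pool.Agent.Lib.MP_1fc36f_co.H22
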