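import Pool.Agent.Lib.MP_1fc36f_co.H40Base

/-! Isomorphisms of weighted graphs, and invariance of the game under graph isomorphisms. -/

namespace Pool.Agent.Lib.MP_1fc36f_co.H39

open Pool.Agent.Lib.MP_1fc36f_co.H40

section Graph

variable {V V' : Type} {G : SimpleGraph V} {G' : SimpleGraph V'} (φ : G ≃g G')

theorem move_iff {x y : V} : Move G' (φ x) (φ y) ↔ Move G x y := by
  unfold Move
  rw [φ.map_rel_iff, φ.injective.eq_iff]

theorem win2_map {t : ℕ} : ∀ {a b r : V}, Win2 G t a b r → Win2 G' t (φ a) (φ b) (φ r) := by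
  induction t with
  | zero => intro a b r h; exact h.imp (congrArg _) (congrArg _)
  | succ t ih =>
    rintro a b r ⟨a', b', h1, h2, h3⟩
    refine ⟨φ a', φ b', (move_iff φ).2 h1, (move_iff φ).2 h2, ?_⟩
    refine h3.imp (congrArg _) (Or.imp (congrArg _) fun h r' hr => ?_)
    obtain ⟨r', rfl⟩ := φ.surjective r'
    exact ih (h r' ((move_iff φ).1 hr))

theorem win2_iff {t : ℕ} {a b r : V} : Win2 G' t (φ a) (φ b) (φ r) ↔ Win2 G t a b r :=
  ⟨fun h => by simpa using win2_map φ.symm h, win2_map φ⟩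

theorem cw_iff {a b r : V} : CW G' (φ a) (φ b) (φ r) ↔ CW G a b r :=
  exists_congr fun _ => win2_iff φ

theorem rw_iff {a b r : V} : RW G' (φ a) (φ b) (φ r) ↔ RW G a b r := by
  unfold RW
  rw [φ.injective.eq_iff, φ.injective.eq_iff, φ.surjective.forall]
  simp only [move_iff, cw_iff]

theorem rs_iff {N : ℕ} {a b r : V} : RS G' N (φ a) (φ b) (φ r) ↔ RS G N a b r := by
  unfold RS
  rw [φ.injective.ne_iff, φ.injective.ne_iff, φ.surjective.exists]
  simp only [move_iff, win2_iff]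

theorem reach_iff {x : V} {k : ℕ} : ∀ {a : V}, Reach G' (φ x) k (φ a) ↔ Reach G x k a := by
  induction k with
  | zero => intro a; exact φ.injective.eq_iff
  | succ k ih =>
    intro a
    unfold Reach
    rw [φ.surjective.exists]
    simp only [move_iff, ih]

theorem lip_comp {D : V' → ℤ} (h : Lip G' D) : Lip G fun x => D (φ x) :=
  fun _ _ hxy => h _ _ ((move_iff φ).2 hxy)

theorem isWalk_comp {w : ℤ → V} (h : IsWalk G w) : IsWalk G' fun x => φ (w x) :=
  fun x => (move_iff φ).2 (h x)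

theorem go_iff {N : ℕ} {D : V' → ℤ} {L : ℤ} {r : V} :
    Go G' N D L (φ r) ↔ Go G N (fun x => D (φ x)) L r := by
  unfold Go
  rw [φ.surjective.forall]
  refine forall_congr' fun a => ?_
  rw [φ.surjective.forall]
  simp only [rs_iff]

end Graph

/-- An isomorphism of weighted graphs that keeps the directions of the edges. -/
structure Iso (W W' : WG) where
  n : W.N ≃ W'.N
  e : W.E ≃ W'.E
  hs : ∀ x, W'.src (e x) = n (W.src x)
  ht : ∀ x, W'.tgt (e x) = n (W.tgt x)
  hl : ∀ x, W'.len (e x) = W.len x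

/-- A map of finite order is a bijection. -/
def iterEquiv {α : Type} (f : α → α) (k : ℕ) (h : ∀ x, f^[k + 1] x = x) : α ≃ α where
  toFun := f
  invFun := f^[k]
  left_inv x := by rw [← Function.iterate_succ_apply]; exact h x
  right_inv x := by rw [← Function.iterate_succ_apply' f]; exact h x

/-- A rotation of order dividing `k + 1`. -/
def Iso.ofIter {W : WG} (f : W.N → W.N) (g : W.E → W.E) (k : ℕ) (hf : ∀ x, f^[k + 1] x = x)
    (hg : ∀ x, g^[k + 1] x = x) (hs : ∀ x, W.src (g x) = f (W.src x))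
    (ht : ∀ x, W.tgt (g x) = f (W.tgt x)) (hl : ∀ x, W.len (g x) = W.len x) : Iso W W :=
  ⟨iterEquiv f k hf, iterEquiv g k hg, hs, ht, hl⟩

namespace Iso

variable {W W' : WG} (I : Iso W W')

/-- The inverse isomorphism. -/
def symm : Iso W' W where
  n := I.n.symm
  e := I.e.symm
  hs x := by rw [Equiv.eq_symm_apply, ← I.hs, Equiv.apply_symm_apply]
  ht x := by rw [Equiv.eq_symm_apply, ← I.ht, Equiv.apply_symm_apply]
  hl x := by rw [← I.hl, Equiv.apply_symm_apply]

/-- The bijection between the vertices of the subdivisions. -/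
def v : W.V ≃ W'.V :=
  Equiv.sumCongr I.n (Equiv.subtypeEquiv (Equiv.prodCongr I.e (Equiv.refl ℕ)) fun x => by
    simp [I.hl])

theorem v_node (x : W.N) : I.v (Sum.inl x) = Sum.inl (I.n x) := rfl

theorem v_pt (e : W.E) (j : ℕ) : I.v (W.pt e j) = W'.pt (I.e e) j := by
  by_cases h : 0 < j ∧ j < W.len e
  · rw [WG.pt_mid h, WG.pt_mid (W := W') (e := I.e e) (by rwa [I.hl])]; rfl
  · rcases Nat.eq_zero_or_pos j with rfl | h0
    · rw [WG.pt_zero, WG.pt_zero, v_node, I.hs]
    · rw [WG.pt_ge (by omega), WG.pt_ge (by rw [I.hl]; omega), v_node, I.ht]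

/-- The isomorphism of the subdivided graphs. -/
def g : W.G ≃g W'.G where
  toEquiv := I.v
  map_rel_iff' := by
    intro a b
    have key : ∀ a b : W.V, (∃ e j, j < W'.len e ∧ I.v a = W'.pt e j ∧ I.v b = W'.pt e (j + 1)) ↔
        ∃ e j, j < W.len e ∧ a = W.pt e j ∧ b = W.pt e (j + 1) := by
      intro a b
      rw [I.e.surjective.exists]
      simp only [I.hl, ← v_pt, I.v.injective.eq_iff]
    simp only [WG.G, SimpleGraph.fromRel_adj, key, I.v.injective.ne_iff]

theorem g_apply (x : W.V) : I.g x = I.v x := rfl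

theorem g_node (x : W.N) : I.g (Sum.inl x) = Sum.inl (I.n x) := rfl

theorem g_pt (e : W.E) (j : ℕ) : I.g (W.pt e j) = W'.pt (I.e e) j := I.v_pt e j

theorem ext_g (d : W'.N → ℤ) (x : W.V) : WG.ext d (I.g x) = WG.ext (fun y => d (I.n y)) x := by
  rcases x with x | ⟨⟨e, j⟩, h⟩
  · rfl
  · change min (d (W'.src (I.e e)) + j) (d (W'.tgt (I.e e)) + W'.len (I.e e) - j) = _
    rw [I.hs, I.ht, I.hl]; rfl

theorem itp_g (f : W'.N → ℤ) (x : W.V) : WG.itp f (I.g x) = WG.itp (fun y => f (I.n y)) x := by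
  rcases x with x | ⟨⟨e, j⟩, h⟩
  · rfl
  · change f (W'.src (I.e e)) + max (-(j : ℤ)) (min (f (W'.tgt (I.e e)) - f (W'.src (I.e e))) j) = _
    rw [I.hs, I.ht]; rfl

theorem mem_T (A : W'.N → Prop) (B : W'.E → Prop) (x : W.V) :
    I.g x ∈ WG.T A B ↔ x ∈ WG.T (fun y => A (I.n y)) fun y => B (I.e y) := by
  rcases x with x | ⟨⟨e, j⟩, h⟩ <;> rfl

theorem fit_iff (f : W'.N → ℤ) (e : W.E) : WG.Fit f (I.e e) ↔ WG.Fit (fun y => f (I.n y)) e := by
  unfold WG.Fit
  rw [I.hs, I.ht, I.hl]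

theorem fw_g (e : W.E) (x : ℤ) : I.g (WG.fw e x) = WG.fw (I.e e) x := I.v_pt _ _

theorem bw_g (e : W.E) (x : ℤ) : I.g (WG.bw e x) = WG.bw (I.e e) x := by
  unfold WG.bw
  rw [I.hl]; exact I.v_pt _ _

theorem st_iff {A : W'.N → Prop} {B : W'.E → Prop} {w w' : ℤ → W.V} {f f' : W'.N → ℤ} :
    WG.St A B (fun x => I.g (w x)) f (fun x => I.g (w' x)) f' ↔
      WG.St (fun y => A (I.n y)) (fun y => B (I.e y)) w (fun y => f (I.n y)) w'
        fun y => f' (I.n y) := by
  unfold WG.St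
  rw [I.g.surjective.forall]
  simp only [mem_T, rw_iff, itp_g]

theorem win2_pt {t : ℕ} {a b c : W.E} {i j k : ℕ} :
    Win2 W'.G t (W'.pt (I.e a) i) (W'.pt (I.e b) j) (W'.pt (I.e c) k) ↔
      Win2 W.G t (W.pt a i) (W.pt b j) (W.pt c k) := by
  rw [← g_pt, ← g_pt, ← g_pt, win2_iff]

end Iso

end Pool.Agent.Lib.MP_1fc36f_co.H39
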