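import Pool.Agent.Lib.MP_1fc36f_co.H39DistTab

/-! Exact distances to the nodes of the graphs of the family. -/

namespace Pool.Agent.Lib.MP_1fc36f_co.H39

open Pool.Agent.Lib.MP_1fc36f_co.H40

theorem fit1_sound {u v a b H : ℕ} (h : fit1 u v a b = true) (hH : 8 ≤ H) :
    ((v / 64 : ℕ) : ℤ) * H + (v % 64 : ℕ) + 64 ≤ ((u / 64 : ℕ) + a) * H + (u % 64 : ℕ) + b := by
  simp only [fit1, Bool.and_eq_true, Nat.ble_eq] at h
  obtain ⟨h1, h2⟩ := h
  obtain ⟨t, rfl⟩ := Nat.exists_eq_add_of_le hH
  have := Nat.mul_le_mul_right t h1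
  have : v / 64 * (8 + t) + v % 64 + 64 ≤ (u / 64 + a) * (8 + t) + u % 64 + b := by
    rw [Nat.mul_add, Nat.mul_add]; omega
  exact_mod_cast this

variable {H : ℕ} {hH : 5 ≤ H}

theorem fit_dist (h1 : 8 ≤ H) (x : Fin 250) (e : Fin 336) :
    WG.Fit (W := W H hH) (fun y => dist H x y.1) e := by
  have h := fit_tab
  simp only [List.all_eq_true, List.mem_range] at h
  have h := h x x.2 e e.2
  rw [fitE, Bool.and_eq_true] at h
  have k1 := fit1_sound h.1 h1
  have k2 := fit1_sound h.2 h1
  unfold WG.Fit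
  rw [len_cast]
  simp only [dist, dA, dB, bZ]
  constructor <;> linarith

/-- The distance from a vertex of the subdivision to the node `x`. -/
def D (H : ℕ) (hH : 5 ≤ H) (x : Fin 250) : (W H hH).V → ℤ := WG.ext fun y => dist H x y.1

theorem D_node (x y : Fin 250) : D H hH x (Sum.inl y) = dist H x y := rfl

theorem dist_self (x : Fin 250) : dist H x x = 0 := by
  simp [dist, dA, dB, self_tab x]

theorem D_self (x : Fin 250) : D H hH x (Sum.inl x) = 0 := dist_self x

theorem lip_D (h1 : 8 ≤ H) (x : Fin 250) : Lip (W H hH).G (D H hH x) :=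
  WG.lip_ext (fit_dist h1 x)

theorem D_pt (h1 : 8 ≤ H) (x : Fin 250) (e : Fin 336) {j : ℕ} (hj : j ≤ (W H hH).len e) :
    D H hH x ((W H hH).pt e j) =
      min (dist H x (srcN e) + j) (dist H x (tgtN e) + (aN e * H + bZ e) - j) := by
  rw [D, WG.ext_pt (fit_dist h1 x e) hj, len_cast]

theorem reach_mono {V : Type} {G : SimpleGraph V} {x a : V} {k l : ℕ} (hkl : k ≤ l)
    (h : Reach G x k a) : Reach G x l a := by
  induction hkl with
  | refl => exact h
  | step _ ih => exact ih.succ

theorem tight_step (x y : Fin 250) : y = x ∨ ∃ (z : Fin 250) (l : ℕ), 0 < l ∧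
    dist H x y = dist H x z + l ∧ Reach (W H hH).G (Sum.inl z) l (Sum.inl y) := by
  have h := tight_tab
  simp only [List.all_eq_true, List.mem_range] at h
  have h := h x x.2 y y.2
  simp only [Bool.or_eq_true, Nat.beq_eq, List.any_eq_true] at h
  rcases h with h | ⟨e, he, h⟩
  · exact Or.inl (Fin.ext h.symm)
  · obtain ⟨e, rfl⟩ : ∃ e' : Fin 336, e'.1 = e := ⟨⟨e, (inc_end y e he).1⟩, rfl⟩
    have key : ∀ u v a b : ℕ, v + 64 = u + 64 * a + b → v / 64 = u / 64 + a →
        ((v / 64 : ℕ) : ℤ) * H + (v % 64 : ℕ) - 16 =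
          ((u / 64 : ℕ) : ℤ) * H + (u % 64 : ℕ) - 16 + (a * H + ((b : ℤ) - 64)) := by
      intro u v a b k1 k2
      have : v % 64 + 64 = u % 64 + b := by omega
      have : ((v % 64 : ℕ) : ℤ) + 64 = (u % 64 : ℕ) + b := by exact_mod_cast this
      rw [k2]; push_cast at this ⊢; linarith
    simp only [tight, Bool.or_eq_true, Bool.and_eq_true, Nat.beq_eq] at h
    rcases h with ⟨⟨k0, k1⟩, k2⟩ | ⟨⟨k0, k1⟩, k2⟩
    · obtain rfl : y = (W H hH).src e := Fin.ext k0.symm
      exact Or.inr ⟨(W H hH).tgt e, (W H hH).len e, (W H hH).pos e,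
        by rw [len_cast]; exact key _ _ _ _ k1 k2, WG.reach_fw (W := W H hH) e⟩
    · obtain rfl : y = (W H hH).tgt e := Fin.ext k0.symm
      exact Or.inr ⟨(W H hH).src e, (W H hH).len e, (W H hH).pos e,
        by rw [len_cast]; exact key _ _ _ _ k1 k2, WG.reach_bw (W := W H hH) e⟩

theorem dist_nonneg (h1 : 8 ≤ H) (x y : Fin 250) : 0 ≤ dist H x y := by
  have key : ∀ k : ℕ, ∀ y : Fin 250, dist H x y + 16 ≤ k → 0 ≤ dist H x y := by
    intro k
    induction k using Nat.strong_induction_on with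
    | _ k ih =>
      intro y hy
      rcases tight_step (H := H) (hH := le_trans (by decide) h1) x y with rfl | ⟨z, l, h0, h2, -⟩
      · rw [dist_self]
      · have : (0 : ℤ) ≤ dist H x z + 16 := by
          have : (0 : ℤ) ≤ (dA x z : ℤ) * H := by positivity
          unfold dist; omega
        have := ih (k - 1) (by omega) z (by omega)
        omega
  exact key (dist H x y + 16).toNat y (Int.self_le_toNat _)

theorem reach_node (h1 : 8 ≤ H) (x : Fin 250) : ∀ (k : ℕ) (y : Fin 250), dist H x y ≤ k →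
    Reach (W H hH).G (Sum.inl x) k (Sum.inl y) := by
  intro k
  induction k using Nat.strong_induction_on with
  | _ k ih =>
    intro y hy
    rcases tight_step (H := H) (hH := hH) x y with rfl | ⟨z, l, h0, h2, h3⟩
    · exact reach_mono (Nat.zero_le k) rfl
    · have := dist_nonneg h1 x z
      exact reach_mono (by omega) ((ih (k - l) (by omega) z (by omega)).trans h3)

/-- The function `D` is the distance: a vertex reaches `x` in `D` moves. -/
theorem reach_D (h1 : 8 ≤ H) (x : Fin 250) {k : ℕ} {v : (W H hH).V} (h : D H hH x v ≤ k) :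
    Reach (W H hH).G (Sum.inl x) k v := by
  rcases WG.vert_cases v with ⟨y, rfl⟩ | ⟨e, j, -, hj, rfl⟩
  · exact reach_node h1 x k y h
  · rw [D_pt h1 x e hj.le, ← len_cast (hH := hH)] at h
    have a1 := dist_nonneg h1 x ((W H hH).src e)
    have a2 := dist_nonneg h1 x ((W H hH).tgt e)
    change 0 ≤ dist H x (srcN e) at a1
    change 0 ≤ dist H x (tgtN e) at a2
    rcases min_le_iff.1 h with h | h
    · have r := (WG.walk_fw (W := W H hH) e).reach 0 j j (by omega) (by omega)
      rw [WG.fw_src le_rfl, WG.fw_eq rfl] at r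
      exact reach_mono (by omega)
        ((reach_node h1 x (k - j) ((W H hH).src e) (by change dist H x (srcN e) ≤ _; omega)).trans r)
    · have r := (WG.walk_fw (W := W H hH) e).reach ((W H hH).len e) ((W H hH).len e - j) j
        (by omega) (by omega)
      rw [WG.fw_tgt le_rfl, WG.fw_eq rfl] at r
      exact reach_mono (by omega) ((reach_node h1 x (k - ((W H hH).len e - j)) ((W H hH).tgt e)
        (by change dist H x (tgtN e) ≤ _; omega)).trans r)

theorem D_le (h1 : 8 ≤ H) (x : Fin 250) {k : ℕ} {v : (W H hH).V}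
    (h : Reach (W H hH).G (Sum.inl x) k v) : D H hH x v ≤ k := by
  have := (lip_D h1 x).reach h
  rwa [D_self, zero_add] at this

theorem D_pos (h1 : 8 ≤ H) (x : Fin 250) {v : (W H hH).V} (h : v ≠ Sum.inl x) :
    0 < D H hH x v := by
  by_contra k
  exact h (reach_D h1 x (k := 0) (by omega))

end Pool.Agent.Lib.MP_1fc36f_co.H39
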