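import Pool.Agent.Lib.MP_1fc36f_co.H40Base

/-! Checkers for planarity and connectivity of subdivided weighted graphs. -/

namespace Pool.Agent.Lib.MP_1fc36f_co.H39

open Pool.Agent.Lib.MP_1fc36f_co.H40 WG

variable {W : WG}

/-- The point of the drawn edge `e` with parameter `s`. -/
noncomputable def ln (c : W.N → ℝ × ℝ) (e : W.E) (s : ℝ) : ℝ × ℝ :=
  c (W.src e) + s • (c (W.tgt e) - c (W.src e))

/-- The drawing of the subdivision. -/
noncomputable def drw (c : W.N → ℝ × ℝ) : W.V → ℝ × ℝ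
  | .inl x => c x
  | .inr y => ln c y.1.1 (y.1.2 / W.len y.1.1)

theorem ln_zero (c : W.N → ℝ × ℝ) (e : W.E) : ln c e 0 = c (W.src e) := by simp [ln]

theorem ln_one (c : W.N → ℝ × ℝ) (e : W.E) : ln c e 1 = c (W.tgt e) := by simp [ln]

theorem drw_pt (c : W.N → ℝ × ℝ) {e : W.E} {j : ℕ} (hj : j ≤ W.len e) :
    drw c (W.pt e j) = ln c e (j / W.len e) := by
  have : (0 : ℝ) < W.len e := by exact_mod_cast W.pos e
  rcases Nat.eq_zero_or_pos j with rfl | h0
  · rw [pt_zero]; simp [drw, ln]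
  · rcases hj.eq_or_lt with rfl | hj
    · rw [pt_ge le_rfl, div_self this.ne', ln_one]; rfl
    · rw [pt_mid ⟨h0, hj⟩]; rfl

theorem seg_ln {c : W.N → ℝ × ℝ} {e : W.E} {a b : ℝ} (hab : a ≤ b) {z : ℝ × ℝ}
    (h : z ∈ segment ℝ (ln c e a) (ln c e b)) : ∃ s, a ≤ s ∧ s ≤ b ∧ z = ln c e s := by
  obtain ⟨u, v, hu, hv, huv, rfl⟩ := h
  obtain rfl : u = 1 - v := by linarith
  refine ⟨(1 - v) * a + v * b, by nlinarith, by nlinarith, ?_⟩
  simp only [ln]; module

theorem ln_mem (c : W.N → ℝ × ℝ) (e : W.E) {s : ℝ} (h0 : 0 ≤ s) (h1 : s ≤ 1) :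
    ln c e s ∈ segment ℝ (c (W.src e)) (c (W.tgt e)) :=
  ⟨1 - s, s, by linarith, h0, by ring, by simp only [ln]; module⟩

theorem planar_of (c : W.N → ℝ × ℝ) (h0 : Function.Injective c) (h1 : ∀ e, W.src e ≠ W.tgt e)
    (h2 : ∀ x, ∃ e, W.src e = x ∨ W.tgt e = x)
    (h3 : ∀ e e' z, e ≠ e' → z ∈ segment ℝ (c (W.src e)) (c (W.tgt e)) →
      z ∈ segment ℝ (c (W.src e')) (c (W.tgt e')) →
      (z = c (W.src e) ∨ z = c (W.tgt e)) ∧ (z = c (W.src e') ∨ z = c (W.tgt e'))) :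
    Planar W.G := by
  have pos : ∀ e, (0 : ℝ) < W.len e := fun e => by exact_mod_cast W.pos e
  have inj : ∀ e s s', ln c e s = ln c e s' → s = s' := by
    intro e s s' h
    have hne : c (W.tgt e) - c (W.src e) ≠ 0 := sub_ne_zero.2 fun k => h1 e (h0 k).symm
    exact smul_left_injective ℝ hne (add_left_cancel h)
  have loc : ∀ w e s, 0 ≤ s → s ≤ 1 → drw c w = ln c e s →
      ∃ j, j ≤ W.len e ∧ w = W.pt e j ∧ s = j / W.len e := by
    intro w e s s0 s1 h
    rcases vert_cases w with ⟨x, rfl⟩ | ⟨e', j, j0, hj, rfl⟩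
    · have k : c x = c (W.src e) ∨ c x = c (W.tgt e) := by
        obtain ⟨e', he'⟩ := h2 x
        by_cases ee : e = e'
        · subst ee
          exact he'.imp (fun k => by rw [k]) fun k => by rw [k]
        · refine (h3 e e' (c x) ee ((show c x = _ from h) ▸ ln_mem c e s0 s1) ?_).1
          rcases he' with rfl | rfl
          exacts [left_mem_segment _ _ _, right_mem_segment _ _ _]
      rcases k with k | k
      · refine ⟨0, Nat.zero_le _, by rw [pt_zero, h0 k], ?_⟩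
        rw [← inj e 0 s (by rw [ln_zero, ← k]; exact h)]; simp
      · refine ⟨W.len e, le_rfl, by rw [pt_ge le_rfl, h0 k], ?_⟩
        rw [← inj e 1 s (by rw [ln_one, ← k]; exact h), div_self (pos e).ne']
    · rw [drw_pt c hj.le] at h
      by_cases ee : e' = e
      · subst ee
        exact ⟨j, hj.le, rfl, (inj _ _ _ h).symm⟩
      · have a0 : (0 : ℝ) < j / W.len e' := div_pos (by exact_mod_cast j0) (pos e')
        have a1 : (j : ℝ) / W.len e' < 1 := (div_lt_one (pos e')).2 (by exact_mod_cast hj)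
        rcases (h3 e' e _ ee (ln_mem c e' a0.le a1.le) (h ▸ ln_mem c e s0 s1)).1 with k | k
        · exact absurd (inj _ _ _ (k.trans (ln_zero c e').symm)) a0.ne'
        · exact absurd (inj _ _ _ (k.trans (ln_one c e').symm)) a1.ne
  have adj : ∀ u v, W.G.Adj u v → ∃ e j, j < W.len e ∧ s(u, v) = s(W.pt e j, W.pt e (j + 1)) ∧
      ∀ z ∈ segment ℝ (drw c u) (drw c v), ∃ s : ℝ, 0 ≤ s ∧ s ≤ 1 ∧ (j : ℝ) ≤ s * W.len e ∧
        s * W.len e ≤ j + 1 ∧ z = ln c e s := by
    intro u v h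
    have key : ∀ e j, j < W.len e → ∀ z ∈ segment ℝ (drw c (W.pt e j)) (drw c (W.pt e (j + 1))),
        ∃ s : ℝ, 0 ≤ s ∧ s ≤ 1 ∧ (j : ℝ) ≤ s * W.len e ∧ s * W.len e ≤ j + 1 ∧ z = ln c e s := by
      intro e j hj z hz
      have p := pos e
      rw [drw_pt c hj.le, drw_pt c hj] at hz
      obtain ⟨s, s0, s1, hs⟩ := seg_ln (div_le_div_of_nonneg_right (by simp) p.le) hz
      refine ⟨s, le_trans (by positivity) s0, s1.trans ((div_le_one p).2 (by exact_mod_cast hj)),
        (div_le_iff₀ p).1 s0, by simpa using (le_div_iff₀ p).1 s1, hs⟩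
    rcases move_cases (Or.inr h) with k | ⟨e, j, hj, ⟨rfl, rfl⟩ | ⟨rfl, rfl⟩⟩
    · exact absurd k h.ne'
    · exact ⟨e, j, hj, rfl, key e j hj⟩
    · exact ⟨e, j, hj, Sym2.eq_swap, fun z hz => key e j hj z (by rwa [segment_symm])⟩
  have on : ∀ u v w, W.G.Adj u v → drw c w ∈ segment ℝ (drw c u) (drw c v) → w = u ∨ w = v := by
    intro u v w h hw
    obtain ⟨e, j, -, k1, k2⟩ := adj u v h
    obtain ⟨s, s0, s1, s2, s3, hs⟩ := k2 _ hw
    obtain ⟨k, -, rfl, rfl⟩ := loc w e s s0 s1 hs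
    rw [div_mul_cancel₀ _ (pos e).ne'] at s2 s3
    have a1 : j ≤ k := by exact_mod_cast s2
    have a2 : k ≤ j + 1 := by exact_mod_cast s3
    rw [← Sym2.mem_iff, k1, Sym2.mem_iff]
    rcases (by omega : k = j ∨ k = j + 1) with rfl | rfl
    exacts [Or.inl rfl, Or.inr rfl]
  refine ⟨drw c, fun u v h => ?_, on, fun u v x y z huv hxy hne hz hz' => ?_⟩
  · have half : ∀ u e j, j < W.len e → drw c u = drw c (W.pt e j) → u = W.pt e j := by
      intro u e j hj h
      rw [drw_pt c hj.le] at h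
      obtain ⟨k, -, rfl, hk⟩ := loc u e _ (by have := pos e; positivity)
        ((div_le_one (pos e)).2 (by exact_mod_cast hj.le)) h
      obtain rfl : j = k := by exact_mod_cast (div_left_inj' (pos e).ne').1 hk
      rfl
    rcases vert_cases v with ⟨y, rfl⟩ | ⟨e, j, -, hj, rfl⟩
    · rcases vert_cases u with ⟨x, rfl⟩ | ⟨e, j, -, hj, rfl⟩
      · exact congrArg _ (h0 h)
      · exact (half _ e j hj h.symm).symm
    · exact half u e j hj h
  · suffices k : ∃ w, z = drw c w by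
      obtain ⟨w, rfl⟩ := k
      exact ⟨w, on u v w huv hz, on x y w hxy hz', rfl⟩
    obtain ⟨e, j, hj, k1, k2⟩ := adj u v huv
    obtain ⟨e', j', hj', k1', k2'⟩ := adj x y hxy
    obtain ⟨s, s0, s1, s2, s3, hs⟩ := k2 _ hz
    obtain ⟨s', s0', s1', s2', s3', hs'⟩ := k2' _ hz'
    by_cases ee : e = e'
    · subst ee
      obtain rfl := inj _ _ _ (hs.symm.trans hs')
      have jj : j ≠ j' := fun k => hne (by rw [k1, k1', k])
      have key : ∀ m : ℕ, m ≤ W.len e → s * W.len e = m → ∃ w, z = drw c w := fun m hm h =>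
        ⟨W.pt e m, by rw [drw_pt c hm, hs, ← h, mul_div_cancel_right₀ _ (pos e).ne']⟩
      rcases lt_or_gt_of_ne jj with k | k
      · have : (j : ℝ) + 1 ≤ j' := by exact_mod_cast k
        exact key j' hj'.le (by linarith)
      · have : (j' : ℝ) + 1 ≤ j := by exact_mod_cast k
        exact key j hj.le (by linarith)
    · rcases (h3 e e' z ee (hs ▸ ln_mem c e s0 s1) (hs' ▸ ln_mem c e' s0' s1')).1 with k | k
      exacts [⟨.inl _, k⟩, ⟨.inl _, k⟩]

/-- A drawn edge: the coordinates of its two ends and bounds for the first coordinate. -/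
structure Seg where
  x1 : ℕ
  y1 : ℕ
  x2 : ℕ
  y2 : ℕ
  lo : ℕ
  hi : ℕ

/-- The point `(u, v)` lies strictly to the left of the line of `s`. -/
def lft (s : Seg) (u v : ℕ) : Bool :=
  Nat.blt (s.x2 * s.y1 + s.x1 * v + u * s.y2) (s.x2 * v + s.x1 * s.y2 + u * s.y1)

/-- The point `(u, v)` lies strictly to the right of the line of `s`. -/
def rgt (s : Seg) (u v : ℕ) : Bool :=
  Nat.blt (s.x2 * v + s.x1 * s.y2 + u * s.y1) (s.x2 * s.y1 + s.x1 * v + u * s.y2)

/-- The point `(u, v)` is an end of `s`. -/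
def tip (s : Seg) (u v : ℕ) : Bool :=
  (Nat.beq u s.x1 && Nat.beq v s.y1) || (Nat.beq u s.x2 && Nat.beq v s.y2)

/-- The segment `t` meets the line of `s` at most in a common end. -/
def half (s t : Seg) : Bool :=
  (lft s t.x1 t.y1 && (lft s t.x2 t.y2 || tip s t.x2 t.y2)) ||
  (rgt s t.x1 t.y1 && (rgt s t.x2 t.y2 || tip s t.x2 t.y2)) ||
  (tip s t.x1 t.y1 && (lft s t.x2 t.y2 || rgt s t.x2 t.y2))

def ok (s t : Seg) : Bool := Nat.blt s.hi t.lo || (Nat.blt t.hi s.lo || (half s t || half t s))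

noncomputable def row (s : Seg) (l : List Seg) : Bool :=
  List.rec true (fun t _ ih => ok s t && ih) l

noncomputable def pairs (l : List Seg) : Bool := List.rec true (fun s l ih => row s l && ih) l

theorem row_sound {s : Seg} : ∀ {l : List Seg}, row s l = true → ∀ t ∈ l, ok s t = true
  | [], _, _, h => by simp at h
  | t :: l, h, u, hu => by
    have h' : (ok s t && row s l) = true := h
    rw [Bool.and_eq_true] at h'
    rcases List.mem_cons.1 hu with rfl | hu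
    exacts [h'.1, row_sound h'.2 u hu]

theorem pairs_sound : ∀ {l : List Seg}, pairs l = true → l.Pairwise fun s t => ok s t = true
  | [], _ => List.Pairwise.nil
  | s :: l, h => by
    have h' : (row s l && pairs l) = true := h
    rw [Bool.and_eq_true] at h'
    exact List.Pairwise.cons (row_sound h'.1) (pairs_sound h'.2)

/-- The real point with natural coordinates. -/
def rp (u v : ℕ) : ℝ × ℝ := (u, v)

/-- The determinant of the three points. -/
noncomputable def dt (s : Seg) (u v : ℕ) : ℝ :=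
  (s.x2 * v + s.x1 * s.y2 + u * s.y1 : ℝ) - (s.x2 * s.y1 + s.x1 * v + u * s.y2)

theorem lft_pos {s : Seg} {u v : ℕ} (h : lft s u v = true) : 0 < dt s u v := by
  have := Nat.blt_eq.mp h
  unfold dt
  rw [sub_pos]; exact_mod_cast this

theorem rgt_neg {s : Seg} {u v : ℕ} (h : rgt s u v = true) : dt s u v < 0 := by
  have := Nat.blt_eq.mp h
  unfold dt
  rw [sub_neg]; exact_mod_cast this

theorem tip_eq {s : Seg} {u v : ℕ} (h : tip s u v = true) :
    dt s u v = 0 ∧ (rp u v = rp s.x1 s.y1 ∨ rp u v = rp s.x2 s.y2) := by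
  simp only [tip, Bool.or_eq_true, Bool.and_eq_true, Nat.beq_eq] at h
  rcases h with ⟨rfl, rfl⟩ | ⟨rfl, rfl⟩
  · exact ⟨by unfold dt; ring, Or.inl rfl⟩
  · exact ⟨by unfold dt; ring, Or.inr rfl⟩

theorem half_meet {s t : Seg} (h : half s t = true) {z : ℝ × ℝ}
    (h1 : z ∈ segment ℝ (rp s.x1 s.y1) (rp s.x2 s.y2))
    (h2 : z ∈ segment ℝ (rp t.x1 t.y1) (rp t.x2 t.y2)) :
    (z = rp s.x1 s.y1 ∨ z = rp s.x2 s.y2) ∧ (z = rp t.x1 t.y1 ∨ z = rp t.x2 t.y2) := by
  obtain ⟨a, b, -, -, hab, e1⟩ := h1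
  obtain ⟨u, v, hu, hv, huv, e2⟩ := h2
  obtain rfl : a = 1 - b := by linarith
  obtain rfl : u = 1 - v := by linarith
  have x1 : (1 - b) * s.x1 + b * s.x2 = (1 - v) * t.x1 + v * t.x2 :=
    congrArg Prod.fst (e1.trans e2.symm)
  have x2 : (1 - b) * s.y1 + b * s.y2 = (1 - v) * t.y1 + v * t.y2 :=
    congrArg Prod.snd (e1.trans e2.symm)
  have key : (1 - v) * dt s t.x1 t.y1 + v * dt s t.x2 t.y2 = 0 := by
    simp only [dt]
    linear_combination ((s.y2 : ℝ) - s.y1) * x1 - ((s.x2 : ℝ) - s.x1) * x2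
  have z0 : v = 0 → z = rp t.x1 t.y1 := fun k => by rw [← e2, k]; simp
  have z1 : v = 1 → z = rp t.x2 t.y2 := fun k => by rw [← e2, k]; simp
  have c1 : dt s t.x1 t.y1 ≠ 0 → tip s t.x2 t.y2 = true →
      (z = rp s.x1 s.y1 ∨ z = rp s.x2 s.y2) ∧ (z = rp t.x1 t.y1 ∨ z = rp t.x2 t.y2) := by
    intro k1 k2
    obtain ⟨k2, k3⟩ := tip_eq k2
    rw [k2, mul_zero, add_zero, mul_eq_zero] at key
    have := z1 (by have := key.resolve_right k1; linarith)
    exact ⟨this ▸ k3, Or.inr this⟩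
  simp only [half, Bool.or_eq_true, Bool.and_eq_true] at h
  rcases h with (⟨k1, k2 | k2⟩ | ⟨k1, k2 | k2⟩) | ⟨k1, k2⟩
  · have := lft_pos k1
    have := lft_pos k2
    rcases hv.eq_or_lt with k | k <;> nlinarith
  · exact c1 (lft_pos k1).ne' k2
  · have := rgt_neg k1
    have := rgt_neg k2
    rcases hv.eq_or_lt with k | k <;> nlinarith
  · exact c1 (rgt_neg k1).ne k2
  · obtain ⟨k1, k3⟩ := tip_eq k1
    have k4 : dt s t.x2 t.y2 ≠ 0 := k2.elim (fun k => (lft_pos k).ne') fun k => (rgt_neg k).ne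
    rw [k1, mul_zero, zero_add, mul_eq_zero] at key
    have := z0 (key.resolve_right k4)
    exact ⟨this ▸ k3, Or.inl this⟩

/-- The bounds of a drawn edge are correct. -/
def Seg.Bd (s : Seg) : Prop := s.lo ≤ s.x1 ∧ s.lo ≤ s.x2 ∧ s.x1 ≤ s.hi ∧ s.x2 ≤ s.hi

theorem Seg.Bd.mem {s : Seg} (h : s.Bd) {z : ℝ × ℝ}
    (hz : z ∈ segment ℝ (rp s.x1 s.y1) (rp s.x2 s.y2)) : (s.lo : ℝ) ≤ z.1 ∧ z.1 ≤ s.hi := by
  obtain ⟨a, b, ha, hb, hab, rfl⟩ := hz
  obtain ⟨h1, h2, h3, h4⟩ := h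
  have h1' : (s.lo : ℝ) ≤ s.x1 := by exact_mod_cast h1
  have h2' : (s.lo : ℝ) ≤ s.x2 := by exact_mod_cast h2
  have h3' : (s.x1 : ℝ) ≤ s.hi := by exact_mod_cast h3
  have h4' : (s.x2 : ℝ) ≤ s.hi := by exact_mod_cast h4
  obtain rfl : a = 1 - b := by linarith
  change (s.lo : ℝ) ≤ (1 - b) * s.x1 + b * s.x2 ∧ (1 - b) * s.x1 + b * s.x2 ≤ (s.hi : ℝ)
  constructor <;> nlinarith

theorem ok_meet {s t : Seg} (hs : s.Bd) (ht : t.Bd) (h : ok s t = true) {z : ℝ × ℝ}
    (h1 : z ∈ segment ℝ (rp s.x1 s.y1) (rp s.x2 s.y2))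
    (h2 : z ∈ segment ℝ (rp t.x1 t.y1) (rp t.x2 t.y2)) :
    (z = rp s.x1 s.y1 ∨ z = rp s.x2 s.y2) ∧ (z = rp t.x1 t.y1 ∨ z = rp t.x2 t.y2) := by
  have b1 := hs.mem h1
  have b2 := ht.mem h2
  simp only [ok, Bool.or_eq_true, Nat.blt_eq] at h
  rcases h with h | h | h | h
  · have : (s.hi : ℝ) < t.lo := by exact_mod_cast h
    linarith [b1.2, b2.1]
  · have : (t.hi : ℝ) < s.lo := by exact_mod_cast h
    linarith [b1.1, b2.2]
  · exact half_meet h h1 h2
  · exact (half_meet h h2 h1).symm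

/-- The drawn edge between the nodes with indices `p.1`, `p.2`. -/
def mkSeg (cx cy : ℕ → ℕ) (p : ℕ × ℕ) : Seg :=
  ⟨cx p.1, cy p.1, cx p.2, cy p.2, min (cx p.1) (cx p.2), max (cx p.1) (cx p.2)⟩

/-- Planarity from a drawing of the nodes at points with natural coordinates. The index of a node
is read off from its first coordinate modulo `m`. -/
theorem planar_of_pairs (W : WG) (ix : W.N → ℕ) (hix : Function.Injective ix) (es : List W.E)
    (hes : ∀ e, e ∈ es) (cx cy : ℕ → ℕ) (m : ℕ) (hm : ∀ x, cx (ix x) % m = ix x)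
    (h1 : ∀ e, W.src e ≠ W.tgt e) (h2 : ∀ x, ∃ e, W.src e = x ∨ W.tgt e = x) (L : List Seg)
    (hL : es.map (fun e => mkSeg cx cy (ix (W.src e), ix (W.tgt e))) = L)
    (h : pairs L = true) : Planar W.G := by
  refine planar_of (fun x => rp (cx (ix x)) (cy (ix x))) (fun x y hxy => hix ?_) h1 h2 ?_
  · have : (cx (ix x) : ℝ) = cx (ix y) := congrArg Prod.fst hxy
    rw [← hm x, ← hm y, Nat.cast_injective this]
  · have bd : ∀ p, (mkSeg cx cy p).Bd := fun p =>
      ⟨min_le_left _ _, min_le_right _ _, le_max_left _ _, le_max_right _ _⟩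
    have pw := pairs_sound h
    rw [← hL, List.pairwise_map] at pw
    have pw' := pw.imp (S := fun e e' : W.E => ∀ z,
      z ∈ segment ℝ (rp (cx (ix (W.src e))) (cy (ix (W.src e))))
        (rp (cx (ix (W.tgt e))) (cy (ix (W.tgt e)))) →
      z ∈ segment ℝ (rp (cx (ix (W.src e'))) (cy (ix (W.src e'))))
        (rp (cx (ix (W.tgt e'))) (cy (ix (W.tgt e')))) →
      (z = rp (cx (ix (W.src e))) (cy (ix (W.src e))) ∨
        z = rp (cx (ix (W.tgt e))) (cy (ix (W.tgt e)))) ∧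
      (z = rp (cx (ix (W.src e'))) (cy (ix (W.src e'))) ∨
        z = rp (cx (ix (W.tgt e'))) (cy (ix (W.tgt e')))))
      fun k z k1 k2 => ok_meet (bd _) (bd _) k k1 k2
    intro e e' z hne
    exact @List.Pairwise.forall _ _ _ ⟨fun _ _ k z k1 k2 => (k z k2 k1).symm⟩ pw' _ (hes e) _
      (hes e') hne z

theorem reach_pt (e : W.E) (j : ℕ) : W.G.Reachable (.inl (W.src e)) (W.pt e j) := by
  induction j with
  | zero => rw [pt_zero]
  | succ j ih =>
    exact ih.trans ((move_pt e j).elim (fun k => k ▸ .refl _) fun k => k.reachable)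

/-- Connectivity from a spanning tree: every node but the root has an edge to a node of smaller
rank. -/
theorem connected_of_tree (W : WG) (x0 : W.N) (par : W.N → W.E) (rk : W.N → ℕ)
    (h : ∀ x, x = x0 ∨ (W.src (par x) = x ∧ rk (W.tgt (par x)) < rk x) ∨
      (W.tgt (par x) = x ∧ rk (W.src (par x)) < rk x)) : W.G.Connected := by
  have ed : ∀ e, W.G.Reachable (.inl (W.src e)) (.inl (W.tgt e)) := fun e => by
    have := reach_pt e (W.len e)
    rwa [pt_ge le_rfl] at this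
  have nx : ∀ k x, rk x < k → W.G.Reachable (.inl x0) (.inl x) := by
    intro k
    induction k with
    | zero => intro x hx; omega
    | succ k ih =>
      intro x hx
      rcases h x with rfl | ⟨h1, h2⟩ | ⟨h1, h2⟩
      · rfl
      · exact (ih _ (by omega)).trans (h1 ▸ (ed (par x)).symm)
      · exact (ih _ (by omega)).trans (h1 ▸ ed (par x))
  have all : ∀ v, W.G.Reachable (.inl x0) v := by
    intro v
    rcases vert_cases v with ⟨x, rfl⟩ | ⟨e, j, -, -, rfl⟩
    · exact nx _ x (Nat.lt_succ_self _)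
    · exact (nx _ _ (Nat.lt_succ_self _)).trans (reach_pt e j)
  have : Nonempty W.V := ⟨.inl x0⟩
  exact ⟨fun u v => (all u).symm.trans (all v)⟩

end Pool.Agent.Lib.MP_1fc36f_co.H39
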