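import Pool.Agent.Lib.MP_1fc36f_co.H40Game

/-! Subdivided weighted graphs: points, moves, interpolation, territories. -/

namespace Pool.Agent.Lib.MP_1fc36f_co.H40

/-- A graph whose edges carry positive integer lengths. -/
structure WG where
  N : Type
  E : Type
  src : E → N
  tgt : E → N
  len : E → ℕ
  pos : ∀ e, 0 < len e

namespace WG

variable (W : WG)

/-- Vertices of the subdivision. -/
abbrev V : Type := W.N ⊕ {x : W.E × ℕ // 0 < x.2 ∧ x.2 < W.len x.1}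

/-- The point of the edge `e` at distance `j` from its source. -/
def pt (e : W.E) (j : ℕ) : W.V :=
  if h : 0 < j ∧ j < W.len e then Sum.inr ⟨(e, j), h⟩
  else if j = 0 then Sum.inl (W.src e) else Sum.inl (W.tgt e)

/-- The subdivided graph. -/
def G : SimpleGraph W.V :=
  SimpleGraph.fromRel fun u v => ∃ e j, j < W.len e ∧ u = W.pt e j ∧ v = W.pt e (j + 1)

variable {W}

theorem pt_zero (e : W.E) : W.pt e 0 = Sum.inl (W.src e) := by simp [pt]

theorem pt_ge {e : W.E} {j : ℕ} (h : W.len e ≤ j) : W.pt e j = Sum.inl (W.tgt e) := by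
  have := W.pos e
  rw [pt, dif_neg (by omega), if_neg (by omega)]

theorem pt_mid {e : W.E} {j : ℕ} (h : 0 < j ∧ j < W.len e) : W.pt e j = Sum.inr ⟨(e, j), h⟩ := by
  rw [pt, dif_pos h]

theorem move_pt (e : W.E) (j : ℕ) : Move W.G (W.pt e j) (W.pt e (j + 1)) := by
  by_cases h : j < W.len e
  · by_cases e' : W.pt e (j + 1) = W.pt e j
    · exact Or.inl e'
    · exact Or.inr ((SimpleGraph.fromRel_adj _ _ _).2 ⟨Ne.symm e', Or.inl ⟨e, j, h, rfl, rfl⟩⟩)
  · rw [pt_ge (by omega), pt_ge (by omega)]; exact Move.refl _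

theorem move_cases {u v : W.V} (h : Move W.G u v) : v = u ∨ ∃ e j, j < W.len e ∧
    ((u = W.pt e j ∧ v = W.pt e (j + 1)) ∨ (u = W.pt e (j + 1) ∧ v = W.pt e j)) := by
  rcases h with h | h
  · exact Or.inl h
  · rcases ((SimpleGraph.fromRel_adj _ _ _).1 h).2 with ⟨e, j, h1, h2, h3⟩ | ⟨e, j, h1, h2, h3⟩
    · exact Or.inr ⟨e, j, h1, Or.inl ⟨h2, h3⟩⟩
    · exact Or.inr ⟨e, j, h1, Or.inr ⟨h3, h2⟩⟩

theorem pt_eq_mid {e e' : W.E} {j j' : ℕ} (h : 0 < j ∧ j < W.len e) (h' : W.pt e j = W.pt e' j') :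
    e' = e ∧ j' = j := by
  rw [pt_mid h, pt] at h'
  split_ifs at h'
  simp only [Sum.inr.injEq, Subtype.mk.injEq, Prod.mk.injEq] at h'
  exact ⟨h'.1.symm, h'.2.symm⟩

theorem pt_eq_node {e : W.E} {j : ℕ} {x : W.N} (hj : j ≤ W.len e) (h : W.pt e j = Sum.inl x) :
    (j = 0 ∧ W.src e = x) ∨ (j = W.len e ∧ W.tgt e = x) := by
  rw [pt] at h
  split_ifs at h with h1 h2
  · exact Or.inl ⟨h2, Sum.inl.inj h⟩
  · exact Or.inr ⟨by omega, Sum.inl.inj h⟩

theorem move_mid {e : W.E} {j : ℕ} (h0 : 0 < j) (h1 : j < W.len e) (r' : W.V)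
    (h : Move W.G (W.pt e j) r') : r' = W.pt e (j - 1) ∨ r' = W.pt e j ∨ r' = W.pt e (j + 1) := by
  rcases move_cases h with h | ⟨e', j', -, ⟨h2, h3⟩ | ⟨h2, h3⟩⟩
  · exact Or.inr (Or.inl h)
  · obtain ⟨rfl, rfl⟩ := pt_eq_mid ⟨h0, h1⟩ h2
    exact Or.inr (Or.inr h3)
  · obtain ⟨rfl, rfl⟩ := pt_eq_mid ⟨h0, h1⟩ h2
    exact Or.inl h3

theorem move_node {x : W.N} {r' : W.V} (h : Move W.G (Sum.inl x) r') : r' = Sum.inl x ∨
    ∃ e, (W.src e = x ∧ r' = W.pt e 1) ∨ (W.tgt e = x ∧ r' = W.pt e (W.len e - 1)) := by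
  rcases move_cases h with h | ⟨e, j, h1, ⟨h2, h3⟩ | ⟨h2, h3⟩⟩
  · exact Or.inl h
  · rcases pt_eq_node h1.le h2.symm with ⟨rfl, h⟩ | ⟨h, -⟩
    · exact Or.inr ⟨e, Or.inl ⟨h, h3⟩⟩
    · omega
  · rcases pt_eq_node h1 h2.symm with ⟨h, -⟩ | ⟨h, h'⟩
    · omega
    · exact Or.inr ⟨e, Or.inr ⟨h', by rw [h3, ← h]; rfl⟩⟩

theorem vert_cases (v : W.V) : (∃ x, v = Sum.inl x) ∨ ∃ e j, 0 < j ∧ j < W.len e ∧ v = W.pt e j := by
  rcases v with x | ⟨⟨e, j⟩, h⟩
  · exact Or.inl ⟨x, rfl⟩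
  · exact Or.inr ⟨e, j, h.1, h.2, (pt_mid h).symm⟩

/-- Interpolation of node values: leave the source value at unit speed towards the target value. -/
def itp (f : W.N → ℤ) : W.V → ℤ
  | Sum.inl x => f x
  | Sum.inr y => f (W.src y.1.1) + max (-(y.1.2 : ℤ)) (min (f (W.tgt y.1.1) - f (W.src y.1.1)) y.1.2)

/-- The node values fit the length of the edge. -/
def Fit (f : W.N → ℤ) (e : W.E) : Prop :=
  f (W.tgt e) - f (W.src e) ≤ W.len e ∧ f (W.src e) - f (W.tgt e) ≤ W.len e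

theorem itp_pt {f : W.N → ℤ} {e : W.E} (h : Fit f e) {j : ℕ} (hj : j ≤ W.len e) :
    itp f (W.pt e j) = f (W.src e) + max (-(j : ℤ)) (min (f (W.tgt e) - f (W.src e)) j) := by
  obtain ⟨h1, h2⟩ := h
  rcases Nat.eq_zero_or_pos j with rfl | h0
  · rw [pt_zero]; simp only [itp]; omega
  · rcases hj.eq_or_lt with rfl | hj
    · rw [pt_ge le_rfl]; simp only [itp]; omega
    · rw [pt_mid ⟨h0, hj⟩]; rfl

theorem itp_mid {f : W.N → ℤ} {e : W.E} {j : ℕ} (h0 : 0 < j) (hj : j < W.len e) :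
    itp f (W.pt e j) = f (W.src e) + max (-(j : ℤ)) (min (f (W.tgt e) - f (W.src e)) j) := by
  rw [pt_mid ⟨h0, hj⟩]; rfl

@[simp] theorem itp_node (f : W.N → ℤ) (x : W.N) : itp f (Sum.inl x) = f x := rfl

/-- The largest extension of node values that changes by at most one along a move. -/
def ext (d : W.N → ℤ) : W.V → ℤ
  | Sum.inl x => d x
  | Sum.inr y => min (d (W.src y.1.1) + y.1.2) (d (W.tgt y.1.1) + W.len y.1.1 - y.1.2)

theorem ext_pt {d : W.N → ℤ} {e : W.E} (h : Fit d e) {j : ℕ} (hj : j ≤ W.len e) :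
    ext d (W.pt e j) = min (d (W.src e) + j) (d (W.tgt e) + W.len e - j) := by
  obtain ⟨h1, h2⟩ := h
  rcases Nat.eq_zero_or_pos j with rfl | h0
  · rw [pt_zero]; simp only [ext]; omega
  · rcases hj.eq_or_lt with rfl | hj
    · rw [pt_ge le_rfl]; simp only [ext]; omega
    · rw [pt_mid ⟨h0, hj⟩]; rfl

@[simp] theorem ext_node (d : W.N → ℤ) (x : W.N) : ext d (Sum.inl x) = d x := rfl

theorem lip_ext {d : W.N → ℤ} (h : ∀ e, Fit d e) : Lip W.G (ext d) := by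
  intro x y hxy
  rcases move_cases hxy with rfl | ⟨e, j, h1, ⟨rfl, rfl⟩ | ⟨rfl, rfl⟩⟩
  · omega
  · rw [ext_pt (h e) h1.le, ext_pt (h e) h1]; push_cast; omega
  · rw [ext_pt (h e) h1.le, ext_pt (h e) h1]; push_cast; omega

/-- The territory given by a set of nodes and a set of open edges. -/
def T (A : W.N → Prop) (B : W.E → Prop) : Set W.V :=
  {v | match v with
    | Sum.inl x => A x
    | Sum.inr y => B y.1.1}

theorem node_mem {A : W.N → Prop} {B : W.E → Prop} {x : W.N} : Sum.inl x ∈ T A B ↔ A x := Iff.rfl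

theorem mid_mem {A : W.N → Prop} {B : W.E → Prop} {e : W.E} {j : ℕ} (h0 : 0 < j)
    (hj : j < W.len e) : W.pt e j ∈ T A B ↔ B e := by
  rw [pt_mid ⟨h0, hj⟩]; rfl

/-- Every edge at a node of the territory belongs to it. -/
def Closed (A : W.N → Prop) (B : W.E → Prop) : Prop := ∀ e, A (W.src e) ∨ A (W.tgt e) → B e

theorem move_T {A : W.N → Prop} {B : W.E → Prop} (hc : Closed A B) {r r' : W.V} (hr : r ∈ T A B)
    (h : Move W.G r r') : r' = r ∨ ∃ e j j', B e ∧ j ≤ W.len e ∧ j' ≤ W.len e ∧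
      j ≤ j' + 1 ∧ j' ≤ j + 1 ∧ r = W.pt e j ∧ r' = W.pt e j' := by
  have key : ∀ e j, j ≤ W.len e → W.pt e j ∈ T A B → B e := by
    intro e j hj hm
    rcases Nat.eq_zero_or_pos j with rfl | h0
    · rw [pt_zero] at hm; exact hc e (Or.inl hm)
    · rcases hj.eq_or_lt with rfl | hj
      · rw [pt_ge le_rfl] at hm; exact hc e (Or.inr hm)
      · exact (mid_mem h0 hj).1 hm
  rcases move_cases h with h | ⟨e, j, h1, ⟨rfl, rfl⟩ | ⟨rfl, rfl⟩⟩
  · exact Or.inl h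
  · exact Or.inr ⟨e, j, j + 1, key e j h1.le hr, h1.le, h1, by omega, le_rfl, rfl, rfl⟩
  · exact Or.inr ⟨e, j + 1, j, key e _ h1 hr, h1, h1.le, le_rfl, by omega, rfl, rfl⟩

theorem itp_step {A : W.N → Prop} {B : W.E → Prop} (hc : Closed A B) {f : W.N → ℤ}
    (hf : ∀ e, B e → Fit f e) {r r' : W.V} (hr : r ∈ T A B) (h : Move W.G r r') :
    itp f r' - itp f r ≤ 1 ∧ itp f r - itp f r' ≤ 1 := by
  rcases move_T hc hr h with rfl | ⟨e, j, j', h1, h2, h3, h4, h5, rfl, rfl⟩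
  · omega
  · rw [itp_pt (hf e h1) h2, itp_pt (hf e h1) h3]; omega

theorem exit_step {A : W.N → Prop} {B : W.E → Prop} (hc : Closed A B) {r r' : W.V}
    (hr : r ∈ T A B) (h : Move W.G r r') : r' ∈ T A B ∨
      ∃ e, B e ∧ (r' = Sum.inl (W.src e) ∨ r' = Sum.inl (W.tgt e)) := by
  rcases move_T hc hr h with rfl | ⟨e, j, j', h1, h2, h3, h4, h5, rfl, rfl⟩
  · exact Or.inl hr
  · rcases Nat.eq_zero_or_pos j' with rfl | h0
    · exact Or.inr ⟨e, h1, Or.inl (pt_zero e)⟩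
    · rcases h3.eq_or_lt with rfl | hj
      · exact Or.inr ⟨e, h1, Or.inr (pt_ge le_rfl)⟩
      · exact Or.inl ((mid_mem h0 hj).2 h1)

/-- The cops stand on their shadows, the robber is in the territory and to move, and loses. -/
def St (A : W.N → Prop) (B : W.E → Prop) (w : ℤ → W.V) (f : W.N → ℤ) (w' : ℤ → W.V)
    (g : W.N → ℤ) : Prop :=
  ∀ r ∈ T A B, RW W.G (w (itp f r)) (w' (itp g r)) r

theorem St.swap {A : W.N → Prop} {B : W.E → Prop} {w w' : ℤ → W.V} {f g : W.N → ℤ}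
    (h : St A B w f w' g) : St A B w' g w f := fun r hr => (h r hr).swap

variable [Finite W.V]

theorem St.shift {A : W.N → Prop} {B : W.E → Prop} (hc : Closed A B) {w w' : ℤ → W.V}
    (hw : IsWalk W.G w) (hw' : IsWalk W.G w') {f f' g : W.N → ℤ}
    (hf : ∀ e, B e → Fit f e) (hf' : ∀ e, B e → Fit f' e) (hg : ∀ e, B e → Fit g e)
    (hb : ∀ x, A x ∨ (f x = f' x ∧ w (f x) = Sum.inl x) ∨ w' (g x) = Sum.inl x ∨
      ∀ e, B e → W.src e ≠ x ∧ W.tgt e ≠ x)
    (h : St A B w f' w' g) : St A B w f w' g := by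
  refine H40.shift (T := T A B) (f := itp f) (f' := itp f') (g := fun r => w' (itp g r)) hw ?_ h
  intro r hr r' hm
  obtain ⟨a1, a2⟩ := itp_step hc hf hr hm
  obtain ⟨a3, a4⟩ := itp_step hc hf' hr hm
  obtain ⟨a5, a6⟩ := itp_step hc hg hr hm
  have mv : Move W.G (w' (itp g r)) (w' (itp g r')) := hw'.move a6 a5
  rcases exit_step hc hr hm with h1 | ⟨e, h1, h2⟩
  · exact Or.inr ⟨a1, a2, a3, a4, Or.inr ⟨h1, mv⟩⟩
  · obtain ⟨x, rfl, hx⟩ : ∃ x, r' = Sum.inl x ∧ (W.src e = x ∨ W.tgt e = x) := by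
      rcases h2 with h2 | h2
      · exact ⟨_, h2, Or.inl rfl⟩
      · exact ⟨_, h2, Or.inr rfl⟩
    rcases hb x with k | k | k | k
    · exact Or.inr ⟨a1, a2, a3, a4, Or.inr ⟨k, mv⟩⟩
    · exact Or.inr ⟨a1, a2, a3, a4, Or.inl k⟩
    · exact Or.inl (k ▸ mv)
    · exact absurd hx (not_or.2 (k e h1))

theorem trap_pt {e : W.E} {j : ℕ} (h0 : 0 < j) (hj : j < W.len e) {a b : W.V}
    (ha : Reach W.G (Sum.inl (W.src e)) j a) (hb : Reach W.G (Sum.inl (W.tgt e)) (W.len e - j) b) :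
    RW W.G a b (W.pt e j) :=
  trap (q := W.pt e) (L := W.len e) (fun j _ => move_pt e j) (fun _ h1 h2 => move_mid h1 h2)
    _ 0 (W.len e) j (W.len e - j) j a b le_rfl h0 hj le_rfl (by omega) le_rfl
    (by rwa [pt_zero]) (by rwa [pt_ge le_rfl])

omit [Finite W.V] in
theorem reach_src {w : ℤ → W.V} (hw : IsWalk W.G w) {f : W.N → ℤ} {e : W.E} {j : ℕ} (h0 : 0 < j)
    (hj : j < W.len e) (h : w (f (W.src e)) = Sum.inl (W.src e)) :
    Reach W.G (Sum.inl (W.src e)) j (w (itp f (W.pt e j))) := by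
  rw [← h, itp_mid h0 hj]
  exact hw.reach _ _ _ (by omega) (by omega)

omit [Finite W.V] in
theorem reach_tgt {w : ℤ → W.V} (hw : IsWalk W.G w) {f : W.N → ℤ} {e : W.E} (hf : Fit f e) {j : ℕ}
    (h0 : 0 < j) (hj : j < W.len e) (h : w (f (W.tgt e)) = Sum.inl (W.tgt e)) :
    Reach W.G (Sum.inl (W.tgt e)) (W.len e - j) (w (itp f (W.pt e j))) := by
  rw [← h, itp_mid h0 hj]
  obtain ⟨h1, h2⟩ := hf
  exact hw.reach _ _ _ (by push_cast [hj.le]; omega) (by push_cast [hj.le]; omega)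

/-- The walk runs along the edge `e` in step with the shadow. -/
def On (w : ℤ → W.V) (f : W.N → ℤ) (e : W.E) : Prop :=
  ∀ j, 0 < j → j < W.len e →
    w (f (W.src e) + max (-(j : ℤ)) (min (f (W.tgt e) - f (W.src e)) j)) = W.pt e j

theorem St.split {A A' : W.N → Prop} {B B' : W.E → Prop} {w w' : ℤ → W.V}
    (hw : IsWalk W.G w) (hw' : IsWalk W.G w') {f g : W.N → ℤ}
    (hf : ∀ e, B e → Fit f e) (hg : ∀ e, B e → Fit g e)
    (hn : ∀ x, A x → A' x ∨ w (f x) = Sum.inl x ∨ w' (g x) = Sum.inl x)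
    (he : ∀ e, B e → B' e ∨ On w f e ∨ On w' g e ∨
      (w (f (W.src e)) = Sum.inl (W.src e) ∧ w' (g (W.tgt e)) = Sum.inl (W.tgt e)) ∨
      (w' (g (W.src e)) = Sum.inl (W.src e) ∧ w (f (W.tgt e)) = Sum.inl (W.tgt e)))
    (h : St A' B' w f w' g) : St A B w f w' g := by
  intro r hr
  rcases vert_cases r with ⟨x, rfl⟩ | ⟨e, j, h0, hj, rfl⟩
  · rcases hn x hr with k | k | k
    · exact h _ k
    · exact Or.inl k
    · exact Or.inr (Or.inl k)
  · have hb := (mid_mem h0 hj).1 hr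
    rcases he e hb with k | k | k | ⟨k, k'⟩ | ⟨k, k'⟩
    · exact h _ ((mid_mem h0 hj).2 k)
    · exact Or.inl (by rw [itp_mid h0 hj]; exact k j h0 hj)
    · exact Or.inr (Or.inl (by rw [itp_mid h0 hj]; exact k j h0 hj))
    · exact trap_pt h0 hj (reach_src hw h0 hj k) (reach_tgt hw' (hg e hb) h0 hj k')
    · exact (trap_pt h0 hj (reach_src hw' h0 hj k) (reach_tgt hw (hf e hb) h0 hj k')).swap

omit [Finite W.V] in
theorem St.congr {A : W.N → Prop} {B : W.E → Prop} {w v w' : ℤ → W.V} {f f' g : W.N → ℤ}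
    (hn : ∀ x, A x → w (f x) = v (f' x))
    (he : ∀ e, B e → ∀ j : ℕ, 0 < j → j < W.len e →
      w (f (W.src e) + max (-(j : ℤ)) (min (f (W.tgt e) - f (W.src e)) j)) =
      v (f' (W.src e) + max (-(j : ℤ)) (min (f' (W.tgt e) - f' (W.src e)) j)))
    (h : St A B v f' w' g) : St A B w f w' g := by
  intro r hr
  have : w (itp f r) = v (itp f' r) := by
    rcases vert_cases r with ⟨x, rfl⟩ | ⟨e, j, h0, hj, rfl⟩
    · exact hn x hr
    · rw [itp_mid h0 hj, itp_mid h0 hj]; exact he e ((mid_mem h0 hj).1 hr) j h0 hj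
  rw [this]; exact h r hr

omit [Finite W.V]

/-- Forward traversal of an edge. -/
def fw (e : W.E) (x : ℤ) : W.V := W.pt e x.toNat

/-- Backward traversal of an edge. -/
def bw (e : W.E) (x : ℤ) : W.V := W.pt e (W.len e - x).toNat

/-- Concatenation of walks at the coordinate `L`. -/
def cat (L : ℤ) (u v : ℤ → W.V) (x : ℤ) : W.V := if x ≤ L then u x else v (x - L)

theorem move_pt' (e : W.E) {j j' : ℕ} (h1 : j ≤ j' + 1) (h2 : j' ≤ j + 1) :
    Move W.G (W.pt e j) (W.pt e j') := by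
  rcases (by omega : j' = j ∨ j' = j + 1 ∨ j = j' + 1) with rfl | rfl | rfl
  · exact Move.refl _
  · exact move_pt _ _
  · exact (move_pt _ _).symm

theorem walk_fw (e : W.E) : IsWalk W.G (fw e) := fun _ => move_pt' e (by omega) (by omega)

theorem walk_bw (e : W.E) : IsWalk W.G (bw e) := fun _ => move_pt' e (by omega) (by omega)

theorem walk_cat {L : ℤ} {u v : ℤ → W.V} (hu : IsWalk W.G u) (hv : IsWalk W.G v) (h : u L = v 0) :
    IsWalk W.G (cat L u v) := by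
  intro x
  unfold cat
  split_ifs with h1 h2 h2
  · exact hu x
  · obtain rfl : x = L := by omega
    rw [h]; exact hv.move (by omega) (by omega)
  · omega
  · exact hv.move (by omega) (by omega)

theorem cat_le {L x : ℤ} (u v : ℤ → W.V) (h : x ≤ L) : cat L u v x = u x := if_pos h

theorem cat_gt {L x : ℤ} (u v : ℤ → W.V) (h : L < x) : cat L u v x = v (x - L) :=
  if_neg (by omega)

theorem fw_eq {e : W.E} {x : ℤ} {j : ℕ} (h : x = j) : fw e x = W.pt e j := by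
  subst h; simp [fw]

theorem bw_eq {e : W.E} {x : ℤ} {j : ℕ} (h : x + j = W.len e) : bw e x = W.pt e j := by
  unfold bw; congr 1; omega

theorem fw_src {e : W.E} {x : ℤ} (h : x ≤ 0) : fw e x = Sum.inl (W.src e) := by
  rw [fw, ← pt_zero]; congr 1; omega

theorem fw_tgt {e : W.E} {x : ℤ} (h : W.len e ≤ x) : fw e x = Sum.inl (W.tgt e) :=
  pt_ge (by omega)

theorem bw_src {e : W.E} {x : ℤ} (h : W.len e ≤ x) : bw e x = Sum.inl (W.src e) := by
  rw [bw, ← pt_zero]; congr 1; omega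

theorem bw_tgt {e : W.E} {x : ℤ} (h : x ≤ 0) : bw e x = Sum.inl (W.tgt e) :=
  pt_ge (by omega)

theorem cat_ge {L x : ℤ} {u v : ℤ → W.V} (huv : u L = v 0) (h : L ≤ x) :
    cat L u v x = v (x - L) := by
  rcases h.eq_or_lt with rfl | h
  · rw [cat_le _ _ le_rfl, huv, sub_self]
  · exact cat_gt u v h

theorem reach_fw (e : W.E) : Reach W.G (Sum.inl (W.tgt e)) (W.len e) (Sum.inl (W.src e)) := by
  have := (walk_fw e).reach (W.len e) (W.len e) 0 (by omega) (by omega)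
  rwa [fw_tgt le_rfl, fw_src le_rfl] at this

theorem reach_bw (e : W.E) : Reach W.G (Sum.inl (W.src e)) (W.len e) (Sum.inl (W.tgt e)) := by
  have := (walk_fw e).reach 0 (W.len e) (W.len e) (by omega) (by omega)
  rwa [fw_tgt le_rfl, fw_src le_rfl] at this

theorem on_fw {w : ℤ → W.V} {f : W.N → ℤ} {e : W.E} (c : ℤ) (h1 : f (W.src e) = c)
    (h2 : c + W.len e - 1 ≤ f (W.tgt e))
    (h : ∀ x, c < x → x < c + W.len e → w x = fw e (x - c)) : On w f e := by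
  intro j h0 hj
  rw [h _ (by omega) (by omega)]
  exact fw_eq (by omega)

theorem on_bw {w : ℤ → W.V} {f : W.N → ℤ} {e : W.E} (c : ℤ) (h1 : f (W.src e) = c + W.len e)
    (h2 : f (W.tgt e) ≤ c + 1)
    (h : ∀ x, c < x → x < c + W.len e → w x = bw e (x - c)) : On w f e := by
  intro j h0 hj
  rw [h _ (by omega) (by omega)]
  exact bw_eq (by omega)

theorem on_short {w : ℤ → W.V} {f : W.N → ℤ} {e : W.E} (h : W.len e ≤ 1) : On w f e := by
  intro j h0 hj; omega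

theorem St.recoord {A : W.N → Prop} {B : W.E → Prop} {w v w' : ℤ → W.V} {f f' g : W.N → ℤ}
    (lo hi s c : ℤ) (hs : s = 1 ∨ s = -1) (hw : ∀ x, lo ≤ x → x ≤ hi → w x = v (s * x + c))
    (hn : ∀ x, A x → lo ≤ f x ∧ f x ≤ hi ∧ f' x = s * f x + c)
    (he : ∀ e, B e → (lo ≤ f (W.src e) ∧ f (W.src e) ≤ hi ∧ f' (W.src e) = s * f (W.src e) + c) ∧
      (lo ≤ f (W.tgt e) ∧ f (W.tgt e) ≤ hi ∧ f' (W.tgt e) = s * f (W.tgt e) + c))
    (h : St A B v f' w' g) : St A B w f w' g := by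
  refine St.congr (fun x hx => ?_) (fun e hb j _ _ => ?_) h
  · obtain ⟨k1, k2, k3⟩ := hn x hx
    rw [hw _ k1 k2, k3]
  · obtain ⟨⟨k1, k2, k3⟩, k4, k5, k6⟩ := he e hb
    rw [hw _ (by omega) (by omega), k3, k6]
    congr 1
    rcases hs with rfl | rfl <;> omega

theorem card_V [Fintype W.N] [Fintype W.E] :
    Nat.card W.V = Fintype.card W.N + ∑ e, (W.len e - 1) := by
  have e : {x : W.E × ℕ // 0 < x.2 ∧ x.2 < W.len x.1} ≃ Σ e : W.E, Fin (W.len e - 1) :=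
    { toFun := fun x => ⟨x.1.1, ⟨x.1.2 - 1, by have := x.2; omega⟩⟩
      invFun := fun y => ⟨(y.1, y.2 + 1), by have := y.2.2; simp only; omega⟩
      left_inv := fun x => by
        obtain ⟨⟨e, j⟩, h⟩ := x
        simp only [Subtype.mk.injEq, Prod.mk.injEq, true_and]
        simp only at h
        omega
      right_inv := fun y => by obtain ⟨e, j⟩ := y; simp }
  have : Finite {x : W.E × ℕ // 0 < x.2 ∧ x.2 < W.len x.1} := Finite.of_equiv _ e.symm
  rw [Nat.card_sum, Nat.card_congr e, Nat.card_eq_fintype_card, Nat.card_eq_fintype_card,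
    Fintype.card_sigma]
  simp

theorem finite_V [Finite W.N] [Finite W.E] : Finite W.V := by
  have : Finite {x : W.E × ℕ // 0 < x.2 ∧ x.2 < W.len x.1} :=
    Finite.of_injective (β := Σ e : W.E, Fin (W.len e)) (fun x => ⟨x.1.1, ⟨x.1.2, x.2.2⟩⟩) (by
      rintro ⟨⟨e, j⟩, h⟩ ⟨⟨e', j'⟩, h'⟩ hh
      simp only [Sigma.mk.injEq] at hh
      obtain ⟨rfl, h2⟩ := hh
      simpa using h2)
  infer_instance

end WG

end Pool.Agent.Lib.MP_1fc36f_co.H40
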