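import Pool.Agent.Lib.MP_1fc36f_co.H40Src

/-! Certificates for a long survival of the robber against two cops. -/

namespace Pool.Agent.Lib.MP_1fc36f_co.H40L

open Pool.Agent.Lib.MP_1fc36f_co.H40 Pool.Agent.Lib.MP_1fc36f_co.H39 WG

section Run

variable {V : Type} {Γ : SimpleGraph V}

/-- The run lemma with separate conditions for the two cops. -/
theorem run2 {D : V → ℤ} (hD : Lip Γ D) {w : V} (h0 : D w ≤ 0) {A B : ℤ → V → Prop}
    (hA : ∀ k a a', A (k + 1) a → Move Γ a a' → A k a')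
    (hB : ∀ k a a', B (k + 1) a → Move Γ a a' → B k a')
    (dA : ∀ k a, A k a → k < D a) (dB : ∀ k a, B k a → k < D a) :
    ∀ (k N : ℕ) (a b r : V), 0 < k → Reach Γ w k r →
      (∀ N', N' + k = N → ∀ a b, A 0 a → B 0 b → RS Γ N' a b w) → A k a → B k b →
      RS Γ N a b r := by
  intro k
  induction k with
  | zero => intro N a b r h; omega
  | succ k ih =>
    intro N a b r _ hr h ha hb
    have e1 := hD.reach hr
    obtain ⟨r', m, hr'⟩ := hr
    have e2 := hD.reach hr'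
    have e3 := dA _ _ ha
    have e4 := dB _ _ hb
    push_cast at *
    refine ⟨fun e => by subst e; omega, fun e => by subst e; omega, r', m, ?_⟩
    refine not_win2 (fun e => by subst e; omega) (fun e => by subst e; omega) ?_
    intro N' hN a' b' h1 h2
    rcases Nat.eq_zero_or_pos k with rfl | hk
    · obtain rfl : r' = w := hr'
      exact h N' (by omega) a' b' (hA _ _ _ ha h1) (hB _ _ _ hb h2)
    · exact ih N' a' b' r' hk hr' (fun N'' h' => h N'' (by omega)) (hA _ _ _ ha h1) (hB _ _ _ hb h2)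

theorem reach_le {x a : V} {k l : ℕ} (hkl : k ≤ l) (h : Reach Γ x k a) : Reach Γ x l a := by
  induction hkl with
  | refl => exact h
  | step _ ih => exact ih.succ

end Run

/-- A claim: node of the robber, forbidden regions of the two cops, domain of the counters. -/
structure Cl where
  v : ℕ
  P : List Src
  Q : List Src
  xl : List LF
  xu : List LF
  yl : List LF
  yu : List LF

def LF.z : LF := ⟨0, 0, 0, 0⟩

def pnt (v : ℕ) : Src := ⟨false, v, .z, .z⟩

def Cl.dom (c : Cl) : Cx := ⟨c.xl, c.xu, c.yl, c.yu, [], []⟩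

def Cl.P' (c : Cl) : List Src := pnt c.v :: c.P

def Cl.Q' (c : Cl) : List Src := pnt c.v :: c.Q

def Cl.ok (G : Gr) (c : Cl) : Bool :=
  decide (c.v < G.nN) && c.P.all (Src.ok G) && c.Q.all (Src.ok G)

def Cl.rot (G : Gr) (c : Cl) : Cl :=
  ⟨G.rn c.v, c.P.map (Src.rot G), c.Q.map (Src.rot G), c.xl, c.xu, c.yl, c.yu⟩

def Cl.swap (c : Cl) : Cl := ⟨c.v, c.Q, c.P, c.xl, c.xu, c.yl, c.yu⟩

/-- The potential. -/
def Phi (n x y : ℤ) : ℤ := n * (n * x + 2 * y)

variable {G : Gr} {n : ℕ} {W : WG} (M : Mod G n W)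

/-- The meaning of a claim for `N` rounds. -/
def Holds (N : ℕ) (c : Cl) : Prop :=
  ∀ x y : ℤ, c.dom.Sat n x y 0 → (N : ℤ) ≤ Phi n x y → ∀ a b : W.V,
    (∀ s ∈ c.P', M.Out x y 0 a s) → (∀ s ∈ c.Q', M.Out x y 0 b s) →
    RS W.G N a b (Sum.inl (M.nd c.v))

variable {M}

theorem ok_P' {c : Cl} (h : c.ok G = true) : ∀ s ∈ c.P', s.ok G = true := by
  simp only [Cl.ok, Bool.and_eq_true, List.all_eq_true] at h
  exact List.forall_mem_cons.2 ⟨h.1.1, h.1.2⟩

theorem ok_Q' {c : Cl} (h : c.ok G = true) : ∀ s ∈ c.Q', s.ok G = true := by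
  simp only [Cl.ok, Bool.and_eq_true, List.all_eq_true] at h
  exact List.forall_mem_cons.2 ⟨h.1.1, h.2⟩

theorem ok_v {c : Cl} (h : c.ok G = true) : c.v < G.nN := by
  simp only [Cl.ok, Bool.and_eq_true, decide_eq_true_eq] at h
  exact h.1.1

theorem Cl.ok_rot (M : Mod G n W) {c : Cl} (h : c.ok G = true) : (c.rot G).ok G = true := by
  have hv := ok_v h
  simp only [Cl.ok, Bool.and_eq_true, List.all_eq_true, Cl.rot, List.forall_mem_map] at h ⊢
  exact ⟨⟨decide_eq_true (M.rn_lt hv), fun s hs => Mod.ok_rot (h.1.2 s hs) M⟩,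
    fun s hs => Mod.ok_rot (h.2 s hs) M⟩

theorem Cl.ok_swap {c : Cl} (h : c.ok G = true) : c.swap.ok G = true := by
  simp only [Cl.ok, Bool.and_eq_true, Cl.swap] at h ⊢
  exact ⟨⟨h.1.1, h.2⟩, h.1.2⟩

theorem Holds.swap {N : ℕ} {c : Cl} (h : Holds M N c) : Holds M N c.swap :=
  fun x y s hN a b ha hb => (h x y s hN b a hb ha).swap

theorem Holds.rot {N : ℕ} {c : Cl} (ok : c.ok G = true) (h : Holds M N c) :
    Holds M N (c.rot G) := by
  intro x y s hN a b ha hb
  obtain ⟨a, rfl⟩ := M.I.g.surjective a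
  obtain ⟨b, rfl⟩ := M.I.g.surjective b
  have e : M.nd (c.rot G).v = M.I.n (M.nd c.v) := by
    rw [← M.nd_ix (M.I.n _), M.rn, M.ix_nd _ (ok_v ok)]; rfl
  rw [e, ← M.I.g_node, rs_iff]
  refine h x y s hN a b (fun s hs => Mod.out_rot (ok_P' ok s hs) (ha _ ?_))
    fun s hs => Mod.out_rot (ok_Q' ok s hs) (hb _ ?_)
  · exact List.mem_map_of_mem (f := Src.rot G) hs
  · exact List.mem_map_of_mem (f := Src.rot G) hs

/-- An option of the robber: a walk, the next claim, rotation, exchange of the cops, the new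
counters and two numbers for the comparison of the potentials. -/
structure Opt where
  path : List ℕ
  nx : ℕ
  ro : Bool
  sw : Bool
  X : LF
  Y : LF
  m : ℤ
  t : ℕ

def walk (G : Gr) (w : ℕ) : List ℕ → ℕ → Bool
  | [], v => Nat.beq v w
  | d :: r, v => Nat.blt (d / 2) G.nE &&
      bif Nat.beq (d % 2) 0 then Nat.beq (G.src (d / 2)) v && walk G w r (G.tgt (d / 2))
      else Nat.beq (G.tgt (d / 2)) v && walk G w r (G.src (d / 2))

def wl (f : ℕ → ℕ) : List ℕ → ℕ
  | [] => 0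
  | d :: r => wl f r + f (d / 2)

theorem walk_sound {w : ℕ} (p : List ℕ) : ∀ v, walk G w p v = true →
    Reach W.G (Sum.inl (M.nd w)) (wl G.a p * n + wl G.b p) (Sum.inl (M.nd v)) := by
  induction p with
  | nil =>
    intro v h
    obtain rfl := Nat.eq_of_beq_eq_true h
    simp only [wl, zero_mul]; rfl
  | cons d r ih =>
    intro v h
    simp only [walk, Bool.and_eq_true, Nat.blt_eq] at h
    obtain ⟨h1, h⟩ := h
    have e := M.ie_ed _ h1
    have es : M.nd (G.src (d / 2)) = W.src (M.ed (d / 2)) := by rw [← M.nd_ix (W.src _), M.hs, e]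
    have et : M.nd (G.tgt (d / 2)) = W.tgt (M.ed (d / 2)) := by rw [← M.nd_ix (W.tgt _), M.ht, e]
    have el : wl G.a (d :: r) * n + wl G.b (d :: r) =
        wl G.a r * n + wl G.b r + W.len (M.ed (d / 2)) := by rw [M.hl, e, wl, wl]; ring
    rw [el]
    cases hd : Nat.beq (d % 2) 0 <;> simp only [hd, cond_true, cond_false, Bool.and_eq_true] at h
    · obtain rfl := Nat.eq_of_beq_eq_true h.1
      have := ih _ h.2
      rw [es] at this
      rw [et]
      exact this.trans (reach_bw _)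
    · obtain rfl := Nat.eq_of_beq_eq_true h.1
      have := ih _ h.2
      rw [et] at this
      rw [es]
      exact this.trans (reach_fw _)

def Cl.tw (G : Gr) (ro sw : Bool) (c : Cl) : Cl :=
  bif ro then (bif sw then (c.rot G).swap else c.rot G) else bif sw then c.swap else c

theorem tw_ok (M : Mod G n W) {c : Cl} (ok : c.ok G = true) (ro sw : Bool) :
    (c.tw G ro sw).ok G = true := by
  cases ro <;> cases sw
  exacts [ok, Cl.ok_swap ok, Cl.ok_rot M ok, Cl.ok_swap (Cl.ok_rot M ok)]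

theorem tw_holds {N : ℕ} {c : Cl} (ok : c.ok G = true) (h : Holds M N c) (ro sw : Bool) :
    Holds M N (c.tw G ro sw) := by
  cases ro <;> cases sw
  exacts [h, h.swap, h.rot ok, (h.rot ok).swap]

def Cl.none : Cl := ⟨0, [], [], [], [], [], []⟩

def Opt.cl (G : Gr) (cs : List Cl) (o : Opt) : Cl := (cs.getD o.nx .none).tw G o.ro o.sw

def Opt.la (G : Gr) (o : Opt) : ℕ := wl G.a o.path

def Opt.lb (G : Gr) (o : Opt) : ℕ := max (wl G.b o.path) 1

def domOk (Γ : Cx) (c : Cl) (X Y : LF) : Bool :=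
  (c.xl.all fun l => pv3 Γ (X.add2 (-l.c) (-l.h))) &&
  (c.xu.all fun l => pv3 Γ (X.neg.add2 l.c l.h)) &&
  (c.yl.all fun l => pv3 Γ (Y.sub (LF.subst ⟨l.c, l.h, l.p, 0⟩ X .z))) &&
  (c.yu.all fun l => pv3 Γ ((LF.subst ⟨l.c, l.h, l.p, 0⟩ X .z).sub Y))

theorem domOk_sound {Γ : Cx} {n x y j : ℤ} (S : Γ.Sat n x y j) {c : Cl} {X Y : LF}
    (h : domOk Γ c X Y = true) : c.dom.Sat n (X.ev n x y) (Y.ev n x y) 0 := by
  simp only [domOk, Bool.and_eq_true, List.all_eq_true] at h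
  obtain ⟨⟨⟨h1, h2⟩, h3⟩, h4⟩ := h
  have e : ∀ l : LF, (LF.subst ⟨l.c, l.h, l.p, 0⟩ X .z).ev n x y =
      l.c + l.h * n + l.p * X.ev n x y := fun l => by
    rw [LF.ev_subst]; simp [LF.ev]
  refine ⟨S.n0, fun l hl => ?_, fun l hl => ?_, fun l hl => ?_, fun l hl => ?_,
    by simp [Cl.dom], by simp [Cl.dom]⟩
  · have := pv3_sound S (h1 l hl)
    rw [LF.ev_add2, neg_mul] at this
    omega
  · have := pv3_sound S (h2 l hl)
    rw [LF.ev_add2, LF.ev_neg] at this
    omega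
  · have := pv3_sound S (h3 l hl)
    rw [LF.ev_sub, e] at this
    omega
  · have := pv3_sound S (h4 l hl)
    rw [LF.ev_sub, e] at this
    omega

def reset (Γ : Cx) (X Y : LF) : Bool := pv3 Γ (X.add2 0 (-1)) && pv3 Γ Y

def potOk (Γ : Cx) (X Y : LF) (m : ℤ) (t la : ℕ) : Bool :=
  reset Γ X Y || (pv3 Γ (X.sub ⟨-m, 0, 1, 0⟩) && pv3 Γ ((Y.add Y).sub ⟨-t, m, 0, 2⟩) &&
    Nat.ble t la)

theorem reset_sound {Γ : Cx} {n x y j : ℤ} (S : Γ.Sat n x y j) {X Y : LF}
    (h : reset Γ X Y = true) : n ^ 3 ≤ Phi n (X.ev n x y) (Y.ev n x y) := by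
  rw [reset, Bool.and_eq_true] at h
  have h1 := pv3_sound S h.1
  have h2 := pv3_sound S h.2
  rw [LF.ev_add2] at h1
  have n0 := S.n0
  have := mul_nonneg n0 (mul_nonneg n0 h1)
  have := mul_nonneg n0 h2
  unfold Phi
  nlinarith

theorem potOk_sound {Γ : Cx} {n x y j N : ℤ} (S : Γ.Sat n x y j) {X Y : LF} {m : ℤ} {t la : ℕ}
    (h : potOk Γ X Y m t la = true) (h1 : N ≤ n ^ 3) (h2 : N ≤ Phi n x y) :
    N ≤ Phi n (X.ev n x y) (Y.ev n x y) + la * n := by
  have n0 := S.n0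
  have l0 : (0 : ℤ) ≤ la * n := mul_nonneg (Int.natCast_nonneg _) n0
  simp only [potOk, Bool.or_eq_true, Bool.and_eq_true, Nat.ble_eq] at h
  rcases h with h | ⟨⟨k1, k2⟩, k3⟩
  · have := reset_sound S h
    omega
  · have k1 := pv3_sound S k1
    have k2 := pv3_sound S k2
    have k3 : (t : ℤ) ≤ la := by exact_mod_cast k3
    rw [LF.ev_sub] at k1
    rw [LF.ev_sub, LF.ev_add] at k2
    generalize X.ev n x y = X at *
    generalize Y.ev n x y = Y at *
    simp only [LF.ev] at k1 k2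
    have := mul_nonneg n0 (mul_nonneg n0 k1)
    have := mul_nonneg n0 k2
    have := mul_le_mul_of_nonneg_right k3 n0
    unfold Phi at *
    nlinarith

def Opt.A (G : Gr) (cs : List Cl) (o : Opt) : List Src :=
  (o.cl G cs).P'.map (Src.mv o.X o.Y (o.la G) (o.lb G))

def Opt.B (G : Gr) (cs : List Cl) (o : Opt) : List Src :=
  (o.cl G cs).Q'.map (Src.mv o.X o.Y (o.la G) (o.lb G))

def Opt.ok (G : Gr) (cs : List Cl) (Γ : Cx) (v : ℕ) (o : Opt) : Bool :=
  Nat.blt o.nx cs.length && walk G (o.cl G cs).v o.path v && domOk Γ (o.cl G cs) o.X o.Y &&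
    potOk Γ o.X o.Y o.m o.t (o.la G)

theorem getD_mem {cs : List Cl} {i : ℕ} (h : Nat.blt i cs.length = true) :
    cs.getD i .none ∈ cs := by
  rw [Nat.blt_eq] at h
  rw [List.getD_eq_getElem _ _ h]
  exact List.getElem_mem h

theorem opt_sound {cs : List Cl} (hc : ∀ c ∈ cs, c.ok G = true) {N : ℕ}
    (ih : ∀ N', N' < N → ∀ c ∈ cs, Holds M N' c) {Γ : Cx} {x y j : ℤ} (S : Γ.Sat n x y j)
    (h1 : (N : ℤ) ≤ n ^ 3) (h2 : (N : ℤ) ≤ Phi n x y) {v : ℕ} {o : Opt}
    (h : o.ok G cs Γ v = true) {a b : W.V} (ha : ∀ s ∈ o.A G cs, M.Out x y 0 a s)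
    (hb : ∀ s ∈ o.B G cs, M.Out x y 0 b s) : RS W.G N a b (Sum.inl (M.nd v)) := by
  simp only [Opt.ok, Bool.and_eq_true] at h
  obtain ⟨⟨⟨k1, k2⟩, k3⟩, k4⟩ := h
  have mem := getD_mem k1
  have ok : (o.cl G cs).ok G = true := tw_ok M (hc _ mem) _ _
  have pot := potOk_sound S k4 h1 h2
  have hv := ok_v ok
  have key : ∀ (k : ℤ) (c : W.V), M.Out (o.X.ev n x y) (o.Y.ev n x y) k c (pnt (o.cl G cs).v) →
      k < M.D (o.cl G cs).v c := fun k c h => by simpa [Mod.Out, pnt, LF.z, LF.ev] using h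
  refine run2 (Mod.lipD (M := M) hv) (w := Sum.inl (M.nd (o.cl G cs).v))
    (A := fun k c => ∀ s ∈ (o.cl G cs).P', M.Out (o.X.ev n x y) (o.Y.ev n x y) k c s)
    (B := fun k c => ∀ s ∈ (o.cl G cs).Q', M.Out (o.X.ev n x y) (o.Y.ev n x y) k c s)
    (by have := Mod.D_self (M := M) (M.nd (o.cl G cs).v); rw [M.ix_nd _ hv] at this; omega)
    (fun k a a' h m s hs => Mod.out_step (ok_P' ok s hs) (h s hs) m)
    (fun k a a' h m s hs => Mod.out_step (ok_Q' ok s hs) (h s hs) m)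
    (fun k a h => key k a (h _ List.mem_cons_self)) (fun k a h => key k a (h _ List.mem_cons_self))
    (o.la G * n + o.lb G) N a b _ (by unfold Opt.lb; omega)
    (reach_le (by unfold Opt.la Opt.lb; omega) (walk_sound _ _ k2)) ?_ ?_ ?_
  · intro N' hN a b ha hb
    have : 0 < o.lb G := by unfold Opt.lb; omega
    refine tw_holds (hc _ mem) (ih N' (by omega) _ mem) _ _ _ _ (domOk_sound S k3) ?_ a b ha hb
    rw [← hN] at pot
    push_cast at pot
    omega
  · intro s hs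
    simpa using Mod.out_mv.1 (ha _ (List.mem_map_of_mem hs))
  · intro s hs
    simpa using Mod.out_mv.1 (hb _ (List.mem_map_of_mem hs))

/-- Options, the types of the two cops, and the case distinctions. -/
structure Lf where
  os : List Opt
  ta : List (List ℕ)
  tb : List (List ℕ)
  an : List (ℕ × Tr)
  ae : List (ℕ × Tr)
  bn : List (ℕ × Tr)
  be : List (ℕ × Tr)

def pick (l : List (List (Src × ℕ))) (S : List ℕ) : List (Src × ℕ) :=
  S.flatMap fun i => l.getD i []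

def mark (G : Gr) (Γ : Cx) (f : Opt → List Src) (o : Opt) : List (Src × ℕ) :=
  (f o).map fun s => (s, outM G Γ s)

def cover (G : Gr) (Γ : Cx) (P Q : List Src) (fa fb : Opt → List Src) (L : Lf) : Bool :=
  (L.ta.all fun S => L.tb.all fun T => S.any fun i => Nat.blt i L.os.length && T.any (Nat.beq i)) &&
    fact' G Γ P (L.ta.map (pick (L.os.map (mark G Γ fa)))) L.an L.ae &&
    fact' G Γ Q (L.tb.map (pick (L.os.map (mark G Γ fb)))) L.bn L.be

theorem pick_sound {Γ : Cx} {x y j : ℤ} (S : Γ.Sat n x y j) {P : List Src} {f : Opt → List Src}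
    {os : List Opt} {T : List (List ℕ)} {cn ce : List (ℕ × Tr)}
    (h : fact' G Γ P (T.map (pick (os.map (mark G Γ f)))) cn ce = true) {a : W.V}
    (ha : ∀ s ∈ P, M.Out x y 0 a s) :
    ∃ A ∈ T, ∀ i ∈ A, ∀ hi : i < os.length, ∀ s ∈ f os[i], M.Out x y 0 a s := by
  obtain ⟨_, hA, k⟩ := fact'_sound M S h (by
    intro A hA z hz v hv
    obtain ⟨A, -, rfl⟩ := List.mem_map.1 hA
    obtain ⟨i, -, hz⟩ := List.mem_flatMap.1 hz
    by_cases hi : i < (os.map (mark G Γ f)).length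
    · rw [List.getD_eq_getElem _ _ hi, List.getElem_map] at hz
      obtain ⟨s, -, rfl⟩ := List.mem_map.1 hz
      exact outM_sound S hv
    · rw [List.getD_eq_default _ _ (not_lt.1 hi)] at hz
      exact absurd hz List.not_mem_nil) a ha
  obtain ⟨A, mA, rfl⟩ := List.mem_map.1 hA
  refine ⟨A, mA, fun i iA hi s hs => k (s, outM G Γ s) (List.mem_flatMap.2 ⟨i, iA, ?_⟩)⟩
  rw [List.getD_eq_getElem _ _ (by simpa using hi), List.getElem_map]
  exact List.mem_map_of_mem hs

theorem cover_sound {Γ : Cx} {x y j : ℤ} (S : Γ.Sat n x y j) {P Q : List Src}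
    {fa fb : Opt → List Src} {L : Lf} (h : cover G Γ P Q fa fb L = true) {a b : W.V}
    (ha : ∀ s ∈ P, M.Out x y 0 a s) (hb : ∀ s ∈ Q, M.Out x y 0 b s) :
    ∃ o ∈ L.os, (∀ s ∈ fa o, M.Out x y 0 a s) ∧ ∀ s ∈ fb o, M.Out x y 0 b s := by
  simp only [cover, Bool.and_eq_true, List.all_eq_true, List.any_eq_true, Nat.blt_eq] at h
  obtain ⟨⟨h1, h2⟩, h3⟩ := h
  obtain ⟨A, mA, ka⟩ := pick_sound S h2 ha
  obtain ⟨B, mB, kb⟩ := pick_sound S h3 hb
  obtain ⟨i, iA, hi, i', iB, e⟩ := h1 A mA B mB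
  obtain rfl := Nat.eq_of_beq_eq_true e
  exact ⟨L.os[i], List.getElem_mem hi, ka i iA hi, kb i iB hi⟩

/-- The proof of a claim: case distinctions on the counters. -/
inductive PT
  | leaf (L : Lf)
  | triv
  | sx (u : LF) (l r : PT)
  | sy (u : LF) (l r : PT)

def chkP (G : Gr) (cs : List Cl) (c : Cl) : PT → Cx → Bool
  | .leaf L, Γ => L.os.all (Opt.ok G cs Γ c.v) && cover G Γ c.P' c.Q' (Opt.A G cs) (Opt.B G cs) L
  | .triv, Γ => (pv3 Γ ⟨0, 0, -1, 0⟩ && pv3 Γ ⟨0, 0, 0, -1⟩) || emp Γ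
  | .sx u l r, Γ => chkP G cs c l (Γ.xle u) && chkP G cs c r (Γ.xgt u)
  | .sy u l r, Γ => chkP G cs c l (Γ.yle u) && chkP G cs c r (Γ.ygt u)

theorem chkP_sound {cs : List Cl} (hc : ∀ c ∈ cs, c.ok G = true) {N : ℕ}
    (ih : ∀ N', N' < N → ∀ c ∈ cs, Holds M N' c) {x y : ℤ}
    (h1 : (N : ℤ) ≤ n ^ 3) (h2 : (N : ℤ) ≤ Phi n x y) {c : Cl} (ok : c.ok G = true) {a b : W.V}
    (ha : ∀ s ∈ c.P', M.Out x y 0 a s) (hb : ∀ s ∈ c.Q', M.Out x y 0 b s) (t : PT) :
    ∀ Γ : Cx, Γ.Sat n x y 0 → chkP G cs c t Γ = true → RS W.G N a b (Sum.inl (M.nd c.v)) := by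
  induction t with
  | leaf L =>
    intro Γ S h
    simp only [chkP, Bool.and_eq_true, List.all_eq_true] at h
    obtain ⟨o, ho, ka, kb⟩ := cover_sound S h.2 ha hb
    exact opt_sound hc ih S h1 h2 (h.1 o ho) ka kb
  | triv =>
    intro Γ S h
    simp only [chkP, Bool.and_eq_true, Bool.or_eq_true] at h
    rcases h with ⟨k1, k2⟩ | h
    · have k1 := pv3_sound S k1
      have k2 := pv3_sound S k2
      simp only [LF.ev] at k1 k2
      have n0 := S.n0
      have := mul_nonneg n0 (mul_nonneg n0 k1)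
      have := mul_nonneg n0 k2
      obtain rfl : N = 0 := by
        have : (N : ℤ) ≤ 0 := by unfold Phi at h2; nlinarith
        omega
      have z := Mod.D_self (M := M) (M.nd c.v)
      rw [M.ix_nd _ (ok_v ok)] at z
      have key : ∀ u : W.V, M.Out x y 0 u (pnt c.v) → u ≠ Sum.inl (M.nd c.v) := by
        rintro u h rfl
        simp [Mod.Out, pnt, LF.z, LF.ev, z] at h
      have na := key a (ha _ List.mem_cons_self)
      have nb := key b (hb _ List.mem_cons_self)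
      exact ⟨na, nb, _, Move.refl _, fun h => h.elim na nb⟩
    · exact (emp_sound S h).elim
  | sx u l r il ir =>
    intro Γ S k
    simp only [chkP, Bool.and_eq_true] at k
    exact (S.splitx u).elim (fun s => il _ s k.1) fun s => ir _ s k.2
  | sy u l r il ir =>
    intro Γ S k
    simp only [chkP, Bool.and_eq_true] at k
    exact (S.splity u).elim (fun s => il _ s k.1) fun s => ir _ s k.2

/-- The check of the claim with number `i`. -/
def chk (G : Gr) (cs : List Cl) (i : ℕ) (t : PT) : Bool :=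
  chkP G cs (cs.getD i .none) t (cs.getD i .none).dom

theorem all_hold (M : Mod G n W) {cs : List Cl} (hc : cs.all (Cl.ok G) = true)
    (h : ∀ i, i < cs.length → ∃ t, chk G cs i t = true) (N : ℕ) :
    (N : ℤ) ≤ n ^ 3 → ∀ c ∈ cs, Holds M N c := by
  rw [List.all_eq_true] at hc
  induction N using Nat.strong_induction_on with
  | _ N ih =>
    intro hN c hm x y S h2 a b ha hb
    obtain ⟨i, hi, rfl⟩ := List.getElem_of_mem hm
    obtain ⟨t, ht⟩ := h i hi
    rw [chk, List.getD_eq_getElem _ _ hi] at ht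
    exact chkP_sound hc (fun N' h' => ih N' h' (by omega)) hN h2 (hc _ hm) ha hb t _ S ht

def cx0 : Cx := ⟨[], [], [], [], [], []⟩

/-- The check of the starting positions. -/
def start (G : Gr) (cs : List Cl) (L : Lf) : Bool :=
  (L.os.all fun o => Nat.blt o.nx cs.length && domOk cx0 (o.cl G cs) o.X o.Y &&
    reset cx0 o.X o.Y) &&
  cover G cx0 [] [] (fun o => (o.cl G cs).P'.map (Src.mv o.X o.Y 0 0))
    (fun o => (o.cl G cs).Q'.map (Src.mv o.X o.Y 0 0)) L

theorem slow (M : Mod G n W) {cs : List Cl} (hc : cs.all (Cl.ok G) = true)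
    (h : ∀ i, i < cs.length → ∃ t, chk G cs i t = true) {L : Lf} (hL : start G cs L = true)
    {t : ℕ} (ht : CaptureWithin W.G 2 t) : n ^ 3 < t := by
  by_contra hlt
  have hN : (t : ℤ) ≤ n ^ 3 := by exact_mod_cast not_lt.1 hlt
  obtain ⟨c, hw⟩ := ht
  have S : cx0.Sat n 0 0 0 := ⟨Int.natCast_nonneg n, by simp [cx0], by simp [cx0], by simp [cx0],
    by simp [cx0], by simp [cx0], by simp [cx0]⟩
  simp only [start, Bool.and_eq_true, List.all_eq_true] at hL
  obtain ⟨o, ho, ka, kb⟩ := cover_sound (M := M) S hL.2 (a := c 0) (b := c 1) (by simp) (by simp)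
  obtain ⟨⟨k1, k2⟩, k3⟩ := hL.1 o ho
  have mem := getD_mem k1
  obtain ⟨-, -, r, -, hr⟩ := tw_holds (List.all_eq_true.1 hc _ mem)
    (all_hold M hc h t hN _ mem) o.ro o.sw _ _ (domOk_sound S k2) (hN.trans (reset_sound S k3))
    (c 0) (c 1) (fun s hs => by simpa using Mod.out_mv.1 (ka _ (List.mem_map_of_mem hs)))
    fun s hs => by simpa using Mod.out_mv.1 (kb _ (List.mem_map_of_mem hs))
  exact hr ((win_iff_win2 t c r).1 (hw r))

end Pool.Agent.Lib.MP_1fc36f_co.H40L
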