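import Pool.Agent.Lib.MP_1fc36f_co.H40Mod

/-! The claims about the robber. -/

namespace Pool.Agent.Lib.MP_1fc36f_co.H40L

/-- The list of claims. -/
def cs : List Cl := [
  ⟨4, [], [], [⟨0, 1, 0, 0⟩], [], [.z], []⟩,
  ⟨6, [], [], [⟨0, 1, 0, 0⟩], [], [.z], []⟩,
  ⟨7, [], [], [⟨0, 1, 0, 0⟩], [], [.z], []⟩,
  ⟨10, [], [], [⟨0, 1, 0, 0⟩], [], [.z], []⟩,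
  ⟨21, [], [], [⟨0, 1, 0, 0⟩], [], [.z], []⟩,
  ⟨24, [], [], [⟨0, 1, 0, 0⟩], [], [.z], []⟩,
  ⟨26, [], [], [⟨0, 1, 0, 0⟩], [], [.z], []⟩,
  ⟨28, [], [], [⟨0, 1, 0, 0⟩], [], [.z], []⟩,
  ⟨30, [], [], [⟨0, 1, 0, 0⟩], [], [.z], []⟩,
  ⟨32, [], [], [⟨0, 1, 0, 0⟩], [], [.z], []⟩,
  ⟨34, [], [], [⟨0, 1, 0, 0⟩], [], [.z], []⟩,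
  ⟨9, [], [], [⟨0, 1, 0, 0⟩], [], [.z], []⟩,
  ⟨11, [], [], [⟨0, 1, 0, 0⟩], [], [.z], []⟩,
  ⟨22, [], [], [⟨0, 1, 0, 0⟩], [], [.z], []⟩,
  ⟨20, [], [], [⟨0, 1, 0, 0⟩], [], [.z], []⟩,
  ⟨23, [], [], [⟨0, 1, 0, 0⟩], [], [.z], []⟩,
  ⟨25, [], [], [⟨0, 1, 0, 0⟩], [], [.z], []⟩,
  ⟨27, [], [], [⟨0, 1, 0, 0⟩], [], [.z], []⟩,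
  ⟨29, [], [], [⟨0, 1, 0, 0⟩], [], [.z], []⟩,
  ⟨31, [], [], [⟨0, 1, 0, 0⟩], [], [.z], []⟩,
  ⟨33, [], [], [⟨0, 1, 0, 0⟩], [], [.z], []⟩,
  ⟨35, [], [], [⟨0, 1, 0, 0⟩], [], [.z], []⟩,
  ⟨15, [], [], [⟨0, 1, 0, 0⟩], [], [.z], []⟩,
  ⟨37, [], [], [⟨0, 1, 0, 0⟩], [], [.z], []⟩,
  ⟨40, [], [], [⟨0, 1, 0, 0⟩], [], [.z], []⟩,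
  ⟨42, [], [], [⟨0, 1, 0, 0⟩], [], [.z], []⟩,
  ⟨44, [], [], [⟨0, 1, 0, 0⟩], [], [.z], []⟩,
  ⟨46, [], [], [⟨0, 1, 0, 0⟩], [], [.z], []⟩,
  ⟨48, [], [], [⟨0, 1, 0, 0⟩], [], [.z], []⟩,
  ⟨50, [], [], [⟨0, 1, 0, 0⟩], [], [.z], []⟩,
  ⟨14, [], [], [⟨0, 1, 0, 0⟩], [], [.z], []⟩,
  ⟨16, [], [], [⟨0, 1, 0, 0⟩], [], [.z], []⟩,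
  ⟨38, [], [], [⟨0, 1, 0, 0⟩], [], [.z], []⟩,
  ⟨36, [], [], [⟨0, 1, 0, 0⟩], [], [.z], []⟩,
  ⟨39, [], [], [⟨0, 1, 0, 0⟩], [], [.z], []⟩,
  ⟨41, [], [], [⟨0, 1, 0, 0⟩], [], [.z], []⟩,
  ⟨43, [], [], [⟨0, 1, 0, 0⟩], [], [.z], []⟩,
  ⟨45, [], [], [⟨0, 1, 0, 0⟩], [], [.z], []⟩,
  ⟨47, [], [], [⟨0, 1, 0, 0⟩], [], [.z], []⟩,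
  ⟨49, [], [], [⟨0, 1, 0, 0⟩], [], [.z], []⟩,
  ⟨51, [], [], [⟨0, 1, 0, 0⟩], [], [.z], []⟩,
  ⟨17, [], [], [⟨0, 1, 0, 0⟩], [], [.z], []⟩,
  ⟨53, [], [], [⟨0, 1, 0, 0⟩], [], [.z], []⟩,
  ⟨56, [], [], [⟨0, 1, 0, 0⟩], [], [.z], []⟩,
  ⟨58, [], [], [⟨0, 1, 0, 0⟩], [], [.z], []⟩,
  ⟨60, [], [], [⟨0, 1, 0, 0⟩], [], [.z], []⟩,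
  ⟨62, [], [], [⟨0, 1, 0, 0⟩], [], [.z], []⟩,
  ⟨64, [], [], [⟨0, 1, 0, 0⟩], [], [.z], []⟩,
  ⟨66, [], [], [⟨0, 1, 0, 0⟩], [], [.z], []⟩,
  ⟨19, [], [], [⟨0, 1, 0, 0⟩], [], [.z], []⟩,
  ⟨18, [], [], [⟨0, 1, 0, 0⟩], [], [.z], []⟩,
  ⟨54, [], [], [⟨0, 1, 0, 0⟩], [], [.z], []⟩,
  ⟨52, [], [], [⟨0, 1, 0, 0⟩], [], [.z], []⟩,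
  ⟨55, [], [], [⟨0, 1, 0, 0⟩], [], [.z], []⟩,
  ⟨57, [], [], [⟨0, 1, 0, 0⟩], [], [.z], []⟩,
  ⟨59, [], [], [⟨0, 1, 0, 0⟩], [], [.z], []⟩,
  ⟨61, [], [], [⟨0, 1, 0, 0⟩], [], [.z], []⟩,
  ⟨63, [], [], [⟨0, 1, 0, 0⟩], [], [.z], []⟩,
  ⟨65, [], [], [⟨0, 1, 0, 0⟩], [], [.z], []⟩,
  ⟨67, [], [], [⟨0, 1, 0, 0⟩], [], [.z], []⟩,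
  ⟨5, [⟨false, 4, ⟨-30, -3, 0, 0⟩, .z⟩, ⟨true, 61, .z, ⟨41, 3, 0, 0⟩⟩], [⟨false, 4, ⟨-30, -3, 0, 0⟩, .z⟩,
      ⟨true, 61, .z, ⟨41, 3, 0, 0⟩⟩], [⟨0, 1, 0, 0⟩], [], [.z], []⟩,
  ⟨5, [⟨true, 52, ⟨51, 4, 0, 0⟩, ⟨51, 4, 0, 0⟩⟩], [⟨true, 52, ⟨51, 4, 0, 0⟩, ⟨51, 4, 0, 0⟩⟩], [⟨0, 1, 0, 0⟩],
      [], [.z], []⟩,
  ⟨2, [⟨false, 5, ⟨-40, -3, 0, 0⟩, .z⟩], [⟨false, 5, ⟨-40, -3, 0, 0⟩, .z⟩], [⟨0, 1, 0, 0⟩], [], [.z], []⟩,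
  ⟨2, [⟨false, 7, ⟨-12, -1, 0, 0⟩, .z⟩, ⟨true, 27, ⟨28, 2, 0, 0⟩, ⟨28, 2, 0, 0⟩⟩, ⟨true, 33, ⟨16, 1, 0, 0⟩,
      ⟨16, 1, 0, 0⟩⟩], [⟨false, 7, ⟨-12, -1, 0, 0⟩, .z⟩, ⟨true, 27, ⟨28, 2, 0, 0⟩, ⟨28, 2, 0, 0⟩⟩, ⟨true, 33,
      ⟨16, 1, 0, 0⟩, ⟨16, 1, 0, 0⟩⟩], [⟨0, 1, 0, 0⟩], [], [.z], []⟩,
  ⟨83, [⟨true, 15, ⟨-3, 0, 0, 0⟩, ⟨23, 2, 0, 0⟩⟩, ⟨false, 4, ⟨-48, -4, 0, 0⟩, .z⟩, ⟨false, 5, ⟨-48, -4, 0, 0⟩,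
      .z⟩, ⟨false, 1, ⟨-24, -2, 0, 0⟩, .z⟩, ⟨false, 4, ⟨-65, -5, 0, 0⟩, .z⟩, ⟨false, 122, .z, .z⟩], [⟨true,
      15, ⟨-3, 0, 0, 0⟩, ⟨23, 2, 0, 0⟩⟩, ⟨false, 4, ⟨-48, -4, 0, 0⟩, .z⟩, ⟨false, 5, ⟨-48, -4, 0, 0⟩, .z⟩,
      ⟨false, 8, ⟨-12, -1, 0, 0⟩, .z⟩, ⟨false, 121, .z, .z⟩], [⟨0, 1, 0, 0⟩], [], [.z], []⟩,
  ⟨8, [⟨false, 1, ⟨-12, -1, 0, 0⟩, .z⟩, ⟨false, 2, ⟨-32, -2, 0, 0⟩, .z⟩, ⟨false, 4, ⟨-53, -4, 0, 0⟩, .z⟩,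
      ⟨false, 5, ⟨-72, -5, 0, 0⟩, .z⟩], [⟨true, 15, ⟨9, 1, 0, 0⟩, ⟨11, 1, 0, 0⟩⟩, ⟨false, 4, ⟨-36, -3, 0, 0⟩,
      .z⟩, ⟨false, 5, ⟨-36, -3, 0, 0⟩, .z⟩], [⟨0, 1, 0, 0⟩], [], [.z], []⟩,
  ⟨13, [⟨false, 131, ⟨-53, -4, 0, 0⟩, .z⟩, ⟨false, 14, ⟨-25, -2, 0, 0⟩, .z⟩], [⟨true, 58, .z, ⟨22, 2, 0, 0⟩⟩,
      ⟨false, 16, ⟨-1, 0, 0, 0⟩, .z⟩], [⟨0, 1, 0, 0⟩], [], [.z], []⟩,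
  ⟨0, [⟨false, 4, ⟨-18, -1, -1, 0⟩, .z⟩, ⟨true, 61, .z, ⟨39, 3, 0, 0⟩⟩, ⟨true, 67, ⟨65, 5, 0, 0⟩, ⟨104, 8, 0,
      0⟩⟩, ⟨true, 3, .z, ⟨38, 3, 0, 0⟩⟩, ⟨false, 6, ⟨-13, -1, 0, 0⟩, .z⟩], [⟨true, 27, ⟨9, 1, 0, -1⟩, ⟨12, 1,
      0, 0⟩⟩, ⟨true, 30, ⟨9, 1, 0, -1⟩, ⟨9, 1, 0, 0⟩⟩, ⟨false, 21, ⟨-1, 0, 0, 0⟩, .z⟩, ⟨false, 22, ⟨-1, 0, 0,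
      0⟩, .z⟩, ⟨false, 121, ⟨-1, 0, 0, 0⟩, .z⟩, ⟨true, 9, .z, ⟨1, 0, 0, 1⟩⟩], [⟨-1, 0, 0, 0⟩], [⟨0, 1, 0, 0⟩],
      [.z], [⟨13, 1, 0, 0⟩]⟩,
  ⟨1, [⟨true, 61, ⟨-18, -1, -1, 0⟩, ⟨85, 6, 0, 0⟩⟩, ⟨false, 5, ⟨-44, -3, 0, 0⟩, .z⟩, ⟨true, 64, ⟨-44, -3, 0,
      0⟩, ⟨83, 6, 0, 0⟩⟩, ⟨true, 74, ⟨-18, -1, 0, 0⟩, ⟨109, 8, 0, 0⟩⟩, ⟨true, 6, ⟨-44, -3, 0, 0⟩, ⟨82, 6, 0,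
      0⟩⟩, ⟨false, 7, ⟨-57, -4, 0, 0⟩, .z⟩, ⟨false, 9, ⟨-25, -2, 0, 0⟩, .z⟩, ⟨false, 6, ⟨-12, -1, 0, 0⟩, .z⟩],
      [⟨true, 27, ⟨10, 1, 0, -1⟩, ⟨11, 1, 0, 0⟩⟩, ⟨false, 10, ⟨0, 0, 0, -1⟩, .z⟩, ⟨false, 21, .z, .z⟩, ⟨false,
      22, .z, .z⟩, ⟨false, 121, .z, .z⟩], [⟨-1, 0, 0, 0⟩], [⟨0, 1, 0, 0⟩], [.z], [⟨13, 1, 0, 0⟩]⟩,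
  ⟨8, [⟨true, 61, ⟨-8, 0, -1, 0⟩, ⟨73, 5, 0, 0⟩⟩, ⟨false, 5, ⟨-32, -2, 0, 0⟩, .z⟩, ⟨true, 64, ⟨-32, -2, 0, 0⟩,
      ⟨71, 5, 0, 0⟩⟩, ⟨true, 74, ⟨-6, 0, 0, 0⟩, ⟨97, 7, 0, 0⟩⟩, ⟨true, 6, ⟨-32, -2, 0, 0⟩, ⟨70, 5, 0, 0⟩⟩,
      ⟨false, 7, ⟨-45, -3, 0, 0⟩, .z⟩, ⟨false, 9, ⟨-13, -1, 0, 0⟩, .z⟩], [⟨true, 30, ⟨2, 0, 0, 0⟩, ⟨9, 1, 0,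
      0⟩⟩, ⟨false, 9, ⟨-10, -1, 0, 0⟩, .z⟩, ⟨true, 33, .z, ⟨12, 1, 0, 0⟩⟩], [⟨-1, 0, 0, 0⟩], [⟨0, 1, 0, 0⟩],
      [⟨13, 1, 0, 0⟩], [⟨13, 1, 0, 0⟩]⟩,
  ⟨2, [⟨true, 61, ⟨24, 2, -1, 0⟩, ⟨41, 3, 0, 0⟩⟩, ⟨false, 5, .z, .z⟩, ⟨true, 64, .z, ⟨39, 3, 0, 0⟩⟩, ⟨true,
      74, ⟨26, 2, 0, 0⟩, ⟨65, 5, 0, 0⟩⟩, ⟨true, 6, .z, ⟨38, 3, 0, 0⟩⟩, ⟨false, 7, ⟨-13, -1, 0, 0⟩, .z⟩],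
      [⟨true, 55, ⟨9, 1, 0, -1⟩, ⟨21, 2, 0, 0⟩⟩, ⟨true, 12, .z, ⟨1, 0, 0, 1⟩⟩, ⟨false, 3, .z, .z⟩], [⟨-1, 0,
      0, 0⟩], [⟨0, 1, 0, 0⟩], [.z], [⟨13, 1, 0, 0⟩]⟩,
  ⟨12, [⟨false, 129, ⟨-59, -4, -1, 0⟩, .z⟩, ⟨true, 229, ⟨-41, -3, 0, 0⟩, ⟨80, 6, 0, 0⟩⟩, ⟨true, 235, ⟨24, 2,
      0, 0⟩, ⟨145, 11, 0, 0⟩⟩, ⟨true, 171, ⟨-41, -3, 0, 0⟩, ⟨79, 6, 0, 0⟩⟩, ⟨false, 131, ⟨-54, -4, 0, 0⟩, .z⟩,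
      ⟨false, 131, ⟨-78, -6, 0, 0⟩, .z⟩, ⟨false, 14, ⟨-50, -4, 0, 0⟩, .z⟩], [⟨true, 58, ⟨20, 2, 0, -1⟩, ⟨50,
      4, 0, 0⟩⟩, ⟨false, 13, ⟨-1, 0, 0, 0⟩, .z⟩, ⟨true, 46, .z, ⟨38, 3, 0, 0⟩⟩], [⟨-1, 0, 0, 0⟩], [⟨0, 1, 0,
      0⟩], [.z], [⟨13, 1, 0, 0⟩]⟩]

theorem cs_ok : cs.all (Cl.ok gr) = true := by decide +kernel

theorem cs_len : cs.length = 72 := by decide +kernel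

theorem cs_start : start gr cs
    ⟨[⟨[], 0, false, false, ⟨0, 1, 0, 0⟩, .z, 0, 0⟩, ⟨[], 1, false, false, ⟨0, 1, 0, 0⟩, .z, 0, 0⟩, ⟨[], 2,
      false, false, ⟨0, 1, 0, 0⟩, .z, 0, 0⟩],
    [[0, 1], [1, 2], [0, 2]], [[0, 1], [1, 2], [0, 2]],
    [],
    [],
    [],
    []⟩ = true := by
  decide +kernel

end Pool.Agent.Lib.MP_1fc36f_co.H40L
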