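import Mathlib

namespace Pool.Agent.Lib.MP_1fc36f_co.H40

variable {V : Type}

/-- One move of a player: stay put or go to an adjacent vertex. -/
def Move (G : SimpleGraph V) (x y : V) : Prop := y = x ∨ G.Adj x y

/-- `Win G k t c r`: the `k` cops stand on `c i`, the robber stands on `r`, the cops are to move,
and the cops can force capture within `t` rounds (a round is a move of all cops followed by a
move of the robber; capture means that a cop is on the vertex of the robber). -/
def Win (G : SimpleGraph V) (k : ℕ) : ℕ → (Fin k → V) → V → Prop
  | 0, c, r => ∃ i, c i = r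
  | t + 1, c, r => ∃ c' : Fin k → V, (∀ i, Move G (c i) (c' i)) ∧
      ((∃ i, c' i = r) ∨ ∀ r', Move G r r' → Win G k t c' r')

/-- `k` cops can choose starting vertices so that, wherever the robber starts and however he
plays, he is captured within `t` rounds. -/
def CaptureWithin (G : SimpleGraph V) (k t : ℕ) : Prop := ∃ c : Fin k → V, ∀ r, Win G k t c r

/-- The cop number: the least number of cops that can force capture. -/
noncomputable def copNumber (G : SimpleGraph V) : ℕ := sInf {k | ∃ t, CaptureWithin G k t}

/-- The capture time: the least number of rounds within which `copNumber G` cops can force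
capture. -/
noncomputable def capt (G : SimpleGraph V) : ℕ := sInf {t | CaptureWithin G (copNumber G) t}

/-- `G` has a plane drawing with straight edges: the vertices go to distinct points, no vertex
lies on an edge that does not end at it, and two different edges meet only at a common end. -/
def Planar (G : SimpleGraph V) : Prop :=
  ∃ p : V → ℝ × ℝ, Function.Injective p ∧
    (∀ u v w, G.Adj u v → p w ∈ segment ℝ (p u) (p v) → w = u ∨ w = v) ∧
    (∀ u v x y z, G.Adj u v → G.Adj x y → s(u, v) ≠ s(x, y) →
      z ∈ segment ℝ (p u) (p v) → z ∈ segment ℝ (p x) (p y) →
      ∃ w, (w = u ∨ w = v) ∧ (w = x ∨ w = y) ∧ z = p w)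

end Pool.Agent.Lib.MP_1fc36f_co.H40
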