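import Pool.Agent.Lib.MP_1fc36f_co.H40Defs

/-! The two-cop game in pair form: closure lemmas, the shift lemma and the run lemma. -/

namespace Pool.Agent.Lib.MP_1fc36f_co.H40

variable {V : Type} {G : SimpleGraph V}

theorem Move.refl (x : V) : Move G x x := Or.inl rfl

theorem Move.symm {x y : V} (h : Move G x y) : Move G y x :=
  h.elim (fun h => Or.inl h.symm) fun h => Or.inr h.symm

/-- The game with two named cops. -/
def Win2 (G : SimpleGraph V) : ℕ → V → V → V → Prop
  | 0, a, b, r => a = r ∨ b = r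
  | t + 1, a, b, r => ∃ a' b', Move G a a' ∧ Move G b b' ∧
      (a' = r ∨ b' = r ∨ ∀ r', Move G r r' → Win2 G t a' b' r')

theorem win_iff_win2 (t : ℕ) : ∀ (c : Fin 2 → V) (r : V), Win G 2 t c r ↔ Win2 G t (c 0) (c 1) r := by
  induction t with
  | zero => intro c r; simp [Win, Win2, Fin.exists_fin_two]
  | succ t ih =>
    intro c r
    constructor
    · rintro ⟨c', h1, h2⟩
      refine ⟨c' 0, c' 1, h1 0, h1 1, ?_⟩
      rcases h2 with h2 | h2
      · rcases Fin.exists_fin_two.1 h2 with h | h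
        · exact Or.inl h
        · exact Or.inr (Or.inl h)
      · exact Or.inr (Or.inr fun r' hr => (ih c' r').1 (h2 r' hr))
    · rintro ⟨a', b', h1, h2, h3⟩
      refine ⟨![a', b'], Fin.forall_fin_two.2 ⟨h1, h2⟩, ?_⟩
      rcases h3 with h | h | h
      · exact Or.inl ⟨0, h⟩
      · exact Or.inl ⟨1, h⟩
      · exact Or.inr fun r' hr => (ih ![a', b'] r').2 (h r' hr)

theorem Win2.swap {t : ℕ} : ∀ {a b r : V}, Win2 G t a b r → Win2 G t b a r := by
  induction t with
  | zero => intro a b r h; exact Or.symm h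
  | succ t ih =>
    rintro a b r ⟨a', b', h1, h2, h3⟩
    refine ⟨b', a', h2, h1, ?_⟩
    rcases h3 with h | h | h
    · exact Or.inr (Or.inl h)
    · exact Or.inl h
    · exact Or.inr (Or.inr fun r' hr => ih (h r' hr))

theorem Win2.succ {t : ℕ} : ∀ {a b r : V}, Win2 G t a b r → Win2 G (t + 1) a b r := by
  induction t with
  | zero =>
    intro a b r h
    refine ⟨a, b, Move.refl _, Move.refl _, ?_⟩
    rcases h with h | h
    · exact Or.inl h
    · exact Or.inr (Or.inl h)
  | succ t ih =>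
    rintro a b r ⟨a', b', h1, h2, h3⟩
    refine ⟨a', b', h1, h2, ?_⟩
    rcases h3 with h | h | h
    · exact Or.inl h
    · exact Or.inr (Or.inl h)
    · exact Or.inr (Or.inr fun r' hr => ih (h r' hr))

theorem Win2.mono {s t : ℕ} (hst : s ≤ t) {a b r : V} (h : Win2 G s a b r) : Win2 G t a b r := by
  induction hst with
  | refl => exact h
  | step _ ih => exact ih.succ

/-- Cops to move and win. -/
def CW (G : SimpleGraph V) (a b r : V) : Prop := ∃ t, Win2 G t a b r

/-- Robber to move, cops win. -/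
def RW (G : SimpleGraph V) (a b r : V) : Prop :=
  a = r ∨ b = r ∨ ∀ r', Move G r r' → CW G a b r'

theorem RW.swap {a b r : V} (h : RW G a b r) : RW G b a r := by
  rcases h with h | h | h
  · exact Or.inr (Or.inl h)
  · exact Or.inl h
  · exact Or.inr (Or.inr fun r' hr => (h r' hr).imp fun _ h => h.swap)

theorem exists_bound [Finite V] {P : V → ℕ → Prop} (hm : ∀ x s t, s ≤ t → P x s → P x t)
    (h : ∀ x, ∃ t, P x t) : ∃ t, ∀ x, P x t := by
  choose f hf using h
  obtain ⟨M, hM⟩ := (Set.finite_range f).bddAbove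
  exact ⟨M, fun x => hm x _ _ (hM ⟨x, rfl⟩) (hf x)⟩

theorem CW.of_move [Finite V] {a b r a' b' : V} (ha : Move G a a') (hb : Move G b b')
    (h : RW G a' b' r) : CW G a b r := by
  rcases h with h | h | h
  · exact ⟨1, a', b', ha, hb, Or.inl h⟩
  · exact ⟨1, a', b', ha, hb, Or.inr (Or.inl h)⟩
  · obtain ⟨t, ht⟩ := exists_bound (P := fun x t => Move G r x → Win2 G t a' b' x)
      (fun x s t hst h hx => (h hx).mono hst) (fun x => by
        by_cases hx : Move G r x
        · obtain ⟨t, ht⟩ := h x hx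
          exact ⟨t, fun _ => ht⟩
        · exact ⟨0, fun h => absurd h hx⟩)
    exact ⟨t + 1, a', b', ha, hb, Or.inr (Or.inr ht)⟩

theorem CW.left [Finite V] {a b r : V} (h : Move G a r) : CW G a b r :=
  CW.of_move h (Move.refl _) (Or.inl rfl)

theorem CW.right [Finite V] {a b r : V} (h : Move G b r) : CW G a b r :=
  CW.of_move (Move.refl _) h (Or.inr (Or.inl rfl))

theorem RW.of_all {a b r : V} (h : ∀ r', Move G r r' → CW G a b r') : RW G a b r :=
  Or.inr (Or.inr h)

/-- A walk with integer coordinates. -/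
def IsWalk (G : SimpleGraph V) (w : ℤ → V) : Prop := ∀ x, Move G (w x) (w (x + 1))

theorem IsWalk.move {w : ℤ → V} (h : IsWalk G w) {x y : ℤ} (h1 : x - y ≤ 1) (h2 : y - x ≤ 1) :
    Move G (w x) (w y) := by
  rcases (by omega : y = x ∨ y = x + 1 ∨ x = y + 1) with rfl | rfl | rfl
  · exact Move.refl _
  · exact h _
  · exact (h _).symm

theorem IsWalk.neg {w : ℤ → V} (h : IsWalk G w) : IsWalk G fun x => w (-x) :=
  fun x => h.move (by omega) (by omega)

/-- The shift lemma, upward form. -/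
theorem shift_up [Finite V] {T : Set V} {w : ℤ → V} (hw : IsWalk G w) {f f' : V → ℤ} {g : V → V}
    (hstep : ∀ r ∈ T, ∀ r', Move G r r' → Move G (g r) r' ∨
      (f r' - f r ≤ 1 ∧ f r - f r' ≤ 1 ∧ f' r' - f' r ≤ 1 ∧ f' r - f' r' ≤ 1 ∧
        ((f r' = f' r' ∧ w (f r') = r') ∨ (r' ∈ T ∧ Move G (g r) (g r')))))
    (h : ∀ r ∈ T, RW G (w (f' r)) (g r) r) :
    ∀ r ∈ T, ∀ x, f r ≤ x → x ≤ f' r → RW G (w x) (g r) r := by
  obtain ⟨B, hB⟩ := (Set.finite_range f').bddAbove
  have hB' : ∀ r, f' r ≤ B := fun r => hB ⟨r, rfl⟩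
  have key : ∀ m : ℕ, ∀ r ∈ T, ∀ x, f r ≤ x → x ≤ f' r → B - x ≤ m → RW G (w x) (g r) r := by
    intro m
    induction m with
    | zero =>
      intro r hr x _ h2 h3
      have : x = f' r := by have := hB' r; omega
      rw [this]; exact h r hr
    | succ m ih =>
      intro r hr x h1 h2 h3
      refine RW.of_all fun r' hr' => ?_
      rcases hstep r hr r' hr' with hc | ⟨a1, a2, a3, a4, ⟨b1, b2⟩ | ⟨b1, b2⟩⟩
      · exact CW.right hc
      · exact CW.left (b2 ▸ hw.move (by omega) (by omega))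
      · by_cases hx : f' r' ≤ x + 1
        · exact CW.of_move (hw.move (by omega) (by omega)) b2 (h r' b1)
        · exact CW.of_move (hw x) b2 (ih r' b1 (x + 1) (by omega) (by omega) (by push_cast at h3; omega))
  intro r hr x h1 h2
  exact key (B - x).toNat r hr x h1 h2 (by omega)

/-- The shift lemma: a cop on a walk may pass from one shadow to another. -/
theorem shift [Finite V] {T : Set V} {w : ℤ → V} (hw : IsWalk G w) {f f' : V → ℤ} {g : V → V}
    (hstep : ∀ r ∈ T, ∀ r', Move G r r' → Move G (g r) r' ∨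
      (f r' - f r ≤ 1 ∧ f r - f r' ≤ 1 ∧ f' r' - f' r ≤ 1 ∧ f' r - f' r' ≤ 1 ∧
        ((f r' = f' r' ∧ w (f r') = r') ∨ (r' ∈ T ∧ Move G (g r) (g r')))))
    (h : ∀ r ∈ T, RW G (w (f' r)) (g r) r) :
    ∀ r ∈ T, RW G (w (f r)) (g r) r := by
  intro r hr
  rcases le_total (f r) (f' r) with hle | hle
  · exact shift_up hw hstep h r hr _ le_rfl hle
  · have := shift_up (T := T) (f := fun r => - f r) (f' := fun r => - f' r) (g := g) hw.neg
      (fun r hr r' hr' => by
        rcases hstep r hr r' hr' with hc | ⟨a1, a2, a3, a4, ⟨b1, b2⟩ | b⟩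
        · exact Or.inl hc
        · exact Or.inr ⟨by omega, by omega, by omega, by omega,
            Or.inl ⟨by omega, by simpa using b2⟩⟩
        · exact Or.inr ⟨by omega, by omega, by omega, by omega, Or.inr b⟩)
      (fun r hr => by simpa using h r hr) r hr (- f r) le_rfl (by simpa using hle)
    simpa using this

/-- `a` can reach `x` in at most `k` moves. -/
def Reach (G : SimpleGraph V) (x : V) : ℕ → V → Prop
  | 0, a => a = x
  | k + 1, a => ∃ a', Move G a a' ∧ Reach G x k a'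

theorem Reach.succ {x : V} {k : ℕ} : ∀ {a : V}, Reach G x k a → Reach G x (k + 1) a := by
  intro a h
  exact ⟨a, Move.refl _, h⟩

theorem IsWalk.reach {w : ℤ → V} (hw : IsWalk G w) (y : ℤ) (k : ℕ) :
    ∀ x, x - y ≤ k → y - x ≤ k → Reach G (w y) k (w x) := by
  induction k with
  | zero => intro x h1 h2; have : x = y := by omega
            subst this; rfl
  | succ k ih =>
    intro x h1 h2
    rcases lt_trichotomy x y with h | h | h
    · exact ⟨w (x + 1), hw x, ih _ (by omega) (by omega)⟩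
    · exact ⟨w x, Move.refl _, ih _ (by omega) (by omega)⟩
    · exact ⟨w (x - 1), hw.move (by omega) (by omega), ih _ (by omega) (by omega)⟩

/-- The trap lemma: the robber is inside a path whose inner vertices have degree two, and the
cops control its two ends. -/
theorem trap [Finite V] {q : ℕ → V} {L : ℕ} (hq : ∀ j, j < L → Move G (q j) (q (j + 1)))
    (hn : ∀ j, 0 < j → j < L → ∀ r', Move G (q j) r' →
      r' = q (j - 1) ∨ r' = q j ∨ r' = q (j + 1)) :
    ∀ (m lo hi ka kb j : ℕ) (a b : V), ka + kb + (hi - lo) ≤ m → lo < j → j < hi → hi ≤ L →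
      ka ≤ j - lo → kb ≤ hi - j → Reach G (q lo) ka a → Reach G (q hi) kb b → RW G a b (q j) := by
  intro m
  induction m with
  | zero => intro lo hi ka kb j a b h1 h2 h3; omega
  | succ m ih =>
    intro lo hi ka kb j a b h1 h2 h3 h4 h5 h6 ha hb
    refine RW.of_all fun r' hr' => ?_
    obtain ⟨j', rfl, hj1, hj2⟩ : ∃ j', r' = q j' ∧ j ≤ j' + 1 ∧ j' ≤ j + 1 := by
      rcases hn j (by omega) (by omega) r' hr' with h | h | h
      · exact ⟨j - 1, h, by omega, by omega⟩
      · exact ⟨j, h, by omega, by omega⟩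
      · exact ⟨j + 1, h, by omega, by omega⟩
    obtain ⟨a', lo', ka', ma, ra, ea⟩ : ∃ a' lo' ka', Move G a a' ∧ Reach G (q lo') ka' a' ∧
        ((ka = 0 ∧ ka' = 0 ∧ lo' = lo + 1) ∨ (ka = ka' + 1 ∧ lo' = lo)) := by
      cases ka with
      | zero =>
        obtain rfl : a = q lo := ha
        exact ⟨q (lo + 1), lo + 1, 0, hq lo (by omega), rfl, Or.inl ⟨rfl, rfl, rfl⟩⟩
      | succ ka =>
        obtain ⟨a', h, h'⟩ := ha
        exact ⟨a', lo, ka, h, h', Or.inr ⟨rfl, rfl⟩⟩
    obtain ⟨b', hi', kb', mb, rb, eb⟩ : ∃ b' hi' kb', Move G b b' ∧ Reach G (q hi') kb' b' ∧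
        ((kb = 0 ∧ kb' = 0 ∧ hi = hi' + 1) ∨ (kb = kb' + 1 ∧ hi' = hi)) := by
      cases kb with
      | zero =>
        obtain rfl : b = q hi := hb
        obtain ⟨hi', rfl⟩ : ∃ h', hi = h' + 1 := ⟨hi - 1, by omega⟩
        exact ⟨q hi', hi', 0, (hq hi' (by omega)).symm, rfl, Or.inl ⟨rfl, rfl, rfl⟩⟩
      | succ kb =>
        obtain ⟨b', h, h'⟩ := hb
        exact ⟨b', hi, kb, h, h', Or.inr ⟨rfl, rfl⟩⟩
    by_cases c1 : j' = lo
    · subst c1
      rcases ea with ⟨e1, -, -⟩ | ⟨e1, e2⟩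
      · subst e1; exact CW.left (by obtain rfl : a = q j' := ha; exact Move.refl _)
      · obtain rfl : ka' = 0 := by omega
        subst e2
        obtain rfl : a' = q lo' := ra
        exact CW.left ma
    by_cases c2 : j' = hi
    · subst c2
      rcases eb with ⟨e1, -, -⟩ | ⟨e1, e2⟩
      · subst e1; exact CW.right (by obtain rfl : b = q j' := hb; exact Move.refl _)
      · obtain rfl : kb' = 0 := by omega
        subst e2
        obtain rfl : b' = q hi' := rb
        exact CW.right mb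
    by_cases c3 : j' = lo'
    · subst c3
      obtain rfl : ka' = 0 := by omega
      obtain rfl : a' = q j' := ra
      exact CW.left ma
    by_cases c4 : j' = hi'
    · subst c4
      obtain rfl : kb' = 0 := by omega
      obtain rfl : b' = q j' := rb
      exact CW.right mb
    exact CW.of_move ma mb (ih lo' hi' ka' kb' j' a' b' (by omega) (by omega) (by omega) (by omega)
      (by omega) (by omega) ra rb)

/-- Robber to move, and he survives `N` more rounds. -/
def RS (G : SimpleGraph V) (N : ℕ) (a b r : V) : Prop :=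
  a ≠ r ∧ b ≠ r ∧ ∃ r', Move G r r' ∧ ¬ Win2 G N a b r'

theorem RS.swap {N : ℕ} {a b r : V} (h : RS G N a b r) : RS G N b a r :=
  ⟨h.2.1, h.1, h.2.2.imp fun _ h => ⟨h.1, fun h' => h.2 h'.swap⟩⟩

theorem not_win2 {N : ℕ} {a b r : V} (ha : a ≠ r) (hb : b ≠ r)
    (h : ∀ N', N = N' + 1 → ∀ a' b', Move G a a' → Move G b b' → RS G N' a' b' r) :
    ¬ Win2 G N a b r := by
  cases N with
  | zero => rintro (h | h); exacts [ha h, hb h]
  | succ N =>
    rintro ⟨a', b', h1, h2, h3⟩
    obtain ⟨k1, k2, r', k3, k4⟩ := h N rfl a' b' h1 h2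
    rcases h3 with h | h | h
    · exact k1 h
    · exact k2 h
    · exact k4 (h r' k3)

/-- A function that changes by at most one along a move. -/
def Lip (G : SimpleGraph V) (D : V → ℤ) : Prop := ∀ x y, Move G x y → D x ≤ D y + 1

theorem Reach.trans {x y : V} {m : ℕ} (h' : Reach G x m y) {k : ℕ} :
    ∀ {a : V}, Reach G y k a → Reach G x (m + k) a := by
  induction k with
  | zero => intro a h; obtain rfl : a = y := h; exact h'
  | succ k ih => rintro a ⟨a', h1, h2⟩; exact ⟨a', h1, ih h2⟩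

theorem Reach.one {x a : V} (h : Move G a x) : Reach G x 1 a := ⟨x, h, rfl⟩

theorem Lip.reach {D : V → ℤ} (hD : Lip G D) {x : V} {k : ℕ} :
    ∀ {a : V}, Reach G x k a → D a ≤ D x + k := by
  induction k with
  | zero => intro a h; obtain rfl : a = x := h; simp
  | succ k ih =>
    rintro a ⟨a', h1, h2⟩
    have := hD _ _ h1
    have := ih h2
    push_cast; omega

/-- The run lemma: a robber who is closer to his goal than both cops gets there. -/
theorem run {D : V → ℤ} (hD : Lip G D) {x : V} (h0 : D x ≤ 0) :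
    ∀ (k N : ℕ) (a b r : V), 0 < k → Reach G x k r →
      (∀ N', N' < N → ∀ a b, 0 < D a → 0 < D b → RS G N' a b x) →
      (k : ℤ) < D a → (k : ℤ) < D b → RS G N a b r := by
  intro k
  induction k with
  | zero => intro N a b r h; omega
  | succ k ih =>
    intro N a b r _ hr h ha hb
    have e1 := hD.reach hr
    obtain ⟨r', m, hr'⟩ := hr
    have e2 := hD.reach hr'
    push_cast at *
    refine ⟨fun e => by subst e; omega, fun e => by subst e; omega, r', m, ?_⟩
    refine not_win2 (fun e => by subst e; omega) (fun e => by subst e; omega) ?_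
    intro N' hN a' b' h1 h2
    have := hD _ _ h1
    have := hD _ _ h2
    rcases Nat.eq_zero_or_pos k with rfl | hk
    · obtain rfl : r' = x := hr'
      exact h N' (by omega) a' b' (by omega) (by omega)
    · exact ih N' a' b' r' hk hr' (fun N'' h' => h N'' (by omega)) (by omega) (by omega)

/-- The robber on `r` survives if both cops have potential more than `L`. -/
def Go (G : SimpleGraph V) (N : ℕ) (D : V → ℤ) (L : ℤ) (r : V) : Prop :=
  ∀ a b, L < D a → L < D b → RS G N a b r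

theorem go {D : V → ℤ} (hD : Lip G D) {x : V} (h0 : D x ≤ 0) {k : ℕ} {r : V} (hr : Reach G x k r)
    {L : ℤ} (e : (k : ℤ) = L) (hL : 0 < L) {N : ℕ} (ih : ∀ N', N' < N → Go G N' D 0 x) :
    Go G N D L r :=
  fun a b ha hb => run hD h0 k N a b r (by omega) hr ih (e ▸ ha) (e ▸ hb)

/-- At a resting place the robber waits until a cop is next to him. -/
theorem rest {D : V → ℤ} (hD : Lip G D) {N : ℕ} {v : V} (h0 : D v ≤ 0)
    (ih : ∀ N', N' < N → Go G N' D 0 v)
    (h : ∀ a b, 0 < D a → 0 < D b → D a ≤ 1 → RS G N a b v) : Go G N D 0 v := by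
  intro a b ha hb
  by_cases ca : D a ≤ 1
  · exact h a b ha hb ca
  by_cases cb : D b ≤ 1
  · exact (h b a hb ha cb).swap
  have ha' : a ≠ v := fun e => by subst e; omega
  have hb' : b ≠ v := fun e => by subst e; omega
  refine ⟨ha', hb', v, Move.refl _, not_win2 ha' hb' fun N' hN a' b' h1 h2 => ?_⟩
  have := hD _ _ h1
  have := hD _ _ h2
  exact ih N' (by omega) a' b' (by omega) (by omega)

/-- One cop never wins if the robber can always answer by a run. -/
theorem not_win_one {P : V → V → Prop} (hP : ∀ a r, P a r → a ≠ r ∧ ∀ a', Move G a a' →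
      a' ≠ r ∧ ∃ r', Move G r r' ∧ P a' r') (t : ℕ) :
    ∀ (c : Fin 1 → V) (r : V), P (c 0) r → ¬ Win G 1 t c r := by
  induction t with
  | zero =>
    rintro c r h ⟨i, hi⟩
    obtain rfl : i = 0 := Subsingleton.elim _ _
    exact (hP _ _ h).1 hi
  | succ t ih =>
    rintro c r h ⟨c', h1, h2⟩
    obtain ⟨k1, r', k2, k3⟩ := (hP _ _ h).2 _ (h1 0)
    rcases h2 with ⟨i, hi⟩ | h2
    · obtain rfl : i = 0 := Subsingleton.elim _ _
      exact k1 hi
    · exact ih c' r' k3 (h2 r' k2)

theorem one_cop {S : Set (V × (V → ℤ))} (hS : ∀ s ∈ S, Lip G s.2 ∧ s.2 s.1 ≤ 0)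
    (h : ∀ s ∈ S, ∀ c, 0 < s.2 c → ∃ s' ∈ S, ∃ k : ℕ, 0 < k ∧ Reach G s'.1 k s.1 ∧ (k : ℤ) < s'.2 c)
    (h0 : ∀ c, ∃ s ∈ S, 0 < s.2 c) (t : ℕ) : ¬ CaptureWithin G 1 t := by
  rintro ⟨c, hc⟩
  have key := not_win_one (G := G) (P := fun a r => ∃ s ∈ S, ∃ k : ℕ,
      Reach G s.1 k r ∧ (k : ℤ) + 1 < s.2 a) (by
    rintro a r ⟨s, h4, k, h2, h5⟩
    obtain ⟨h1, h3⟩ := hS s h4
    have e := h1.reach h2
    refine ⟨fun e' => by subst e'; omega, fun a' ha => ?_⟩
    have e2 := h1 _ _ ha
    refine ⟨fun e' => by subst e'; omega, ?_⟩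
    cases k with
    | zero =>
      obtain rfl : r = s.1 := h2
      obtain ⟨s', k3, k', k4, k5, k6⟩ := h _ h4 a' (by omega)
      obtain ⟨k', rfl⟩ : ∃ m, k' = m + 1 := ⟨k' - 1, by omega⟩
      obtain ⟨r', m, k7⟩ := k5
      exact ⟨r', m, s', k3, k', k7, by push_cast at k6; omega⟩
    | succ k =>
      obtain ⟨r', m, k7⟩ := h2
      exact ⟨r', m, s, h4, k, k7, by push_cast at h5; omega⟩) t c
  obtain ⟨s, hs, hc0⟩ := h0 (c 0)
  obtain ⟨s', k3, k', k4, k5, k6⟩ := h _ hs _ hc0
  obtain ⟨k', rfl⟩ : ∃ m, k' = m + 1 := ⟨k' - 1, by omega⟩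
  obtain ⟨r', -, k7⟩ := k5
  exact key r' ⟨s', k3, k', k7, by push_cast at k6; omega⟩ (hc _)

end Pool.Agent.Lib.MP_1fc36f_co.H40
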