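import Pool.Agent.Lib.MP_1fc36f_co.H40Base

/-! The family of graphs. -/

namespace Pool.Agent.Lib.MP_1fc36f_co.H40

open WG

/-- The fixed nodes. -/
inductive FN | ha | hb | o1 | o2 | o3 | o4 | h1 | h2 | q1 | q2 | q3 | q4 | ce
  deriving DecidableEq, Fintype

/-- The fixed edges. -/
inductive FE | ra | r1 | r2 | r3 | rb | qa | q12 | q23 | q34 | qb | u1 | u2 | u3 | u4
  | p1 | p2 | p3 | p4 | pa | pb | mm | ya | yb | e1 | e2
  deriving DecidableEq, Fintype

/-- Parameters of the family. -/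
structure Par where
  t : ℕ
  K : ℕ
  p : ℕ
  ht : 40 ≤ t
  hK : 10 ≤ K
  hp : p ≤ 2

variable (P : Par)

abbrev Nd : Type := FN ⊕ Fin (P.K + 1)

abbrev Ed : Type := FE ⊕ Fin P.K ⊕ Fin P.K

def srcF : FE → FN
  | .ra => .ha | .r1 => .o1 | .r2 => .o2 | .r3 => .o3 | .rb => .hb
  | .qa => .h1 | .q12 => .q1 | .q23 => .q2 | .q34 => .q3 | .qb => .h2
  | .u1 => .o1 | .u2 => .o2 | .u3 => .o3 | .u4 => .o4
  | .p1 => .q1 | .p2 => .q2 | .p3 => .q3 | .p4 => .q4 | .pa => .h1 | .pb => .h2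
  | .mm => .h1 | .ya => .ha | .yb => .hb | .e1 => .h1 | .e2 => .h2

/-- The cell with index `i`. -/
def cel (i : ℕ) : Nd P := Sum.inr ⟨min i P.K, by omega⟩

def tgtF : FE → Nd P
  | .ra => .inl .o1 | .r1 => .inl .o2 | .r2 => .inl .o3 | .r3 => .inl .o4 | .rb => .inl .o4
  | .qa => .inl .q1 | .q12 => .inl .q2 | .q23 => .inl .q3 | .q34 => .inl .q4 | .qb => .inl .q4
  | .u1 => .inl .q1 | .u2 => .inl .q2 | .u3 => .inl .q3 | .u4 => .inl .q4
  | .p1 => .inl .ce | .p2 => .inl .ce | .p3 => .inl .ce | .p4 => .inl .ce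
  | .pa => .inl .ce | .pb => .inl .ce
  | .mm => .inl .h2 | .ya => cel P P.K | .yb => cel P P.K | .e1 => cel P 1 | .e2 => cel P 0

def lenF : FE → ℕ
  | .ra => 8 | .r1 => 8 | .r2 => 8 + P.p | .r3 => 8 | .rb => 8
  | .qa => 18 | .q12 => 18 | .q23 => 18 | .q34 => 18 | .qb => 18
  | .u1 => P.t | .u2 => P.t | .u3 => P.t | .u4 => P.t
  | .p1 => 19 | .p2 => 19 | .p3 => 19 | .p4 => 19 | .pa => 23 | .pb => 23
  | .mm => 2 | .ya => 2 | .yb => 1 | .e1 => P.t + 4 | .e2 => P.t + 4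

def hub (i : ℕ) : FN := if i % 2 = 0 then .hb else .ha

def src : Ed P → Nd P
  | .inl e => .inl (srcF e)
  | .inr (.inl i) => .inl (hub i)
  | .inr (.inr i) => cel P i

def tgt : Ed P → Nd P
  | .inl e => tgtF P e
  | .inr (.inl i) => cel P i
  | .inr (.inr i) => cel P (i + 1)

def len : Ed P → ℕ
  | .inl e => lenF P e
  | .inr (.inl _) => 3
  | .inr (.inr _) => 1

/-- The weighted graph. -/
abbrev W : WG where
  N := Nd P
  E := Ed P
  src := src P
  tgt := tgt P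
  len := len P
  pos := by
    have := P.ht
    rintro (e | i | i)
    · cases e <;> simp only [len, lenF] <;> omega
    · simp [len]
    · simp [len]

instance : Finite (W P).V := finite_V

abbrev nd (x : FN) : (W P).V := Sum.inl (Sum.inl x)

abbrev cl (i : ℕ) : (W P).V := Sum.inl (cel P i)

abbrev fe (e : FE) : Ed P := Sum.inl e

abbrev sp (i : Fin P.K) : Ed P := Sum.inr (Sum.inl i)

abbrev tr (i : Fin P.K) : Ed P := Sum.inr (Sum.inr i)

variable {P}

/-- Node values from a table and a formula for the cells. -/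
def nv (a : FN → ℤ) (c : ℕ → ℤ) : Nd P → ℤ
  | .inl x => a x
  | .inr i => c i

theorem nv_inl (a : FN → ℤ) (c : ℕ → ℤ) (x : FN) : nv (P := P) a c (.inl x) = a x := rfl

theorem nv_cel (a : FN → ℤ) (c : ℕ → ℤ) (i : ℕ) : nv a c (cel P i) = c (min i P.K) := rfl

theorem nv_cel' {a : FN → ℤ} {c : ℕ → ℤ} {i : ℕ} (h : i ≤ P.K) : nv a c (cel P i) = c i := by
  rw [nv_cel, min_eq_left h]

theorem hub_even {i : ℕ} (h : i % 2 = 0) : hub i = .hb := if_pos h

theorem hub_odd {i : ℕ} (h : i % 2 = 1) : hub i = .ha := if_neg (by omega)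

theorem cel_inj {i j : ℕ} (hi : i ≤ P.K) (hj : j ≤ P.K) (h : cel P i = cel P j) : i = j := by
  simp only [cel, Sum.inr.injEq, Fin.mk.injEq] at h
  omega

theorem cel_fin (i : Fin (P.K + 1)) : (Sum.inr i : Nd P) = cel P i := by
  simp only [cel, Sum.inr.injEq]
  ext; simp only; omega

theorem cel_ne (i : ℕ) (x : FN) : cel P i ≠ .inl x := by simp [cel]

theorem node_cases (x : Nd P) : (∃ y, x = .inl y) ∨ ∃ i, i ≤ P.K ∧ x = cel P i := by
  rcases x with y | i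
  · exact Or.inl ⟨y, rfl⟩
  · exact Or.inr ⟨i, by omega, cel_fin i⟩

/-- Node sets from a list and a condition on the cells. -/
def nA (l : List FN) (c : ℕ → Prop) : Nd P → Prop
  | .inl x => x ∈ l
  | .inr i => c i

/-- Edge sets from a list and conditions on spokes and track edges. -/
def eB (l : List FE) (s t : ℕ → Prop) : Ed P → Prop
  | .inl e => e ∈ l
  | .inr (.inl i) => s i
  | .inr (.inr i) => t i

theorem nA_cel (l : List FN) (c : ℕ → Prop) (i : ℕ) : nA l c (cel P i) ↔ c (min i P.K) := Iff.rfl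

theorem nA_cel' {l : List FN} {c : ℕ → Prop} {i : ℕ} (h : i ≤ P.K) : nA l c (cel P i) ↔ c i := by
  rw [nA_cel, min_eq_left h]

theorem nA_inl (l : List FN) (c : ℕ → Prop) (x : FN) : nA (P := P) l c (.inl x) ↔ x ∈ l := Iff.rfl

theorem forall_eB {l : List FE} {s t : ℕ → Prop} {q : Ed P → Prop} (h1 : ∀ e ∈ l, q (fe P e))
    (h2 : ∀ i : Fin P.K, s i → q (sp P i)) (h3 : ∀ i : Fin P.K, t i → q (tr P i)) :
    ∀ e, eB l s t e → q e := by
  rintro (e | i | i) h
  exacts [h1 e h, h2 i h, h3 i h]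

theorem forall_nA {l : List FN} {c : ℕ → Prop} {q : Nd P → Prop} (h1 : ∀ x ∈ l, q (.inl x))
    (h2 : ∀ i, i ≤ P.K → c i → q (cel P i)) : ∀ x, nA l c x → q x := by
  rintro (x | i) h
  · exact h1 x h
  · rw [cel_fin]; exact h2 i (by omega) h

theorem fit_sp {a : FN → ℤ} {c : ℕ → ℤ} (i : Fin P.K)
    (h0 : (i : ℕ) % 2 = 0 → c i - a .hb ≤ 3 ∧ a .hb - c i ≤ 3)
    (h1 : (i : ℕ) % 2 = 1 → c i - a .ha ≤ 3 ∧ a .ha - c i ≤ 3) : Fit (W := W P) (nv a c) (sp P i) := by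
  have e : min (i : ℕ) P.K = i := by omega
  simp only [Fit, src, tgt, len, nv_inl, nv_cel, e]
  rcases Nat.mod_two_eq_zero_or_one i with h | h
  · rw [hub_even h]; exact h0 (by omega)
  · rw [hub_odd h]; exact h1 (by omega)

theorem fit_tr {a : FN → ℤ} {c : ℕ → ℤ} (i : Fin P.K)
    (h : c (i + 1) - c i ≤ 1 ∧ c i - c (i + 1) ≤ 1) : Fit (W := W P) (nv a c) (tr P i) := by
  have e : min (i : ℕ) P.K = i := by omega
  have e' : min ((i : ℕ) + 1) P.K = i + 1 := by omega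
  simp only [Fit, src, tgt, len, nv_cel, e, e']
  exact h

theorem move_cl {j : ℕ} (hj : j < P.K) {v : (W P).V} (h : Move (W P).G (cl P j) v) :
    v = cl P j ∨ v = cl P (j + 1) ∨ (0 < j ∧ v = cl P (j - 1)) ∨ v = (W P).pt (sp P ⟨j, hj⟩) 2 ∨
      (j = 1 ∧ v = (W P).pt (fe P .e1) (P.t + 3)) ∨ (j = 0 ∧ v = (W P).pt (fe P .e2) (P.t + 3)) := by
  have := P.hK
  rcases move_node h with h | ⟨e | i | i, ⟨h1, h2⟩ | ⟨h1, h2⟩⟩
  · exact Or.inl h
  · exact absurd h1.symm (cel_ne _ _)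
  · cases e <;> first
      | exact absurd h1.symm (cel_ne _ _)
      | (have := cel_inj le_rfl hj.le h1; omega)
      | (have := cel_inj (by omega) hj.le h1; subst this; simp [h2, len, lenF])
  · exact absurd h1.symm (cel_ne _ _)
  · obtain rfl := cel_inj (by omega) hj.le h1
    exact Or.inr (Or.inr (Or.inr (Or.inl h2)))
  · obtain rfl := cel_inj (by omega) hj.le h1
    exact Or.inr (Or.inl (h2.trans (pt_ge le_rfl)))
  · obtain rfl := cel_inj (by omega) hj.le h1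
    exact Or.inr (Or.inr (Or.inl ⟨by omega, h2.trans (pt_zero _)⟩))

theorem move_cl_succ {j : ℕ} (hj : j < P.K) : Move (W P).G (cl P j) (cl P (j + 1)) := by
  have := move_pt (W := W P) (tr P ⟨j, hj⟩) 0
  rwa [pt_zero, pt_ge (by simp [len])] at this

/-- The target of a fixed edge, if it is a fixed node. -/
def tgt0 : FE → Option FN
  | .ra => some .o1 | .r1 => some .o2 | .r2 => some .o3 | .r3 => some .o4 | .rb => some .o4
  | .qa => some .q1 | .q12 => some .q2 | .q23 => some .q3 | .q34 => some .q4 | .qb => some .q4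
  | .u1 => some .q1 | .u2 => some .q2 | .u3 => some .q3 | .u4 => some .q4
  | .p1 => some .ce | .p2 => some .ce | .p3 => some .ce | .p4 => some .ce
  | .pa => some .ce | .pb => some .ce
  | .mm => some .h2 | .ya => none | .yb => none | .e1 => none | .e2 => none

theorem tgt0_iff (e : FE) (x : FN) : tgtF P e = .inl x ↔ tgt0 e = some x := by
  cases e <;> simp [tgtF, tgt0, cel]

theorem hub_cases (i : ℕ) : hub i = .ha ∨ hub i = .hb := by
  unfold hub; split_ifs <;> simp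

theorem closed_of {l : List FN} {c : ℕ → Prop} {m : List FE} {s t : ℕ → Prop}
    (h1 : ∀ e : FE, (srcF e ∈ l ∨ ∃ x ∈ l, tgt0 e = some x) → e ∈ m)
    (h2 : c 1 → .e1 ∈ m) (h3 : c 0 → .e2 ∈ m) (h4 : ¬ c P.K)
    (h5 : ∀ i, i < P.K → hub i ∈ l ∨ c i → s i) (h6 : ∀ i, i < P.K → c i ∨ c (i + 1) → t i) :
    Closed (W := W P) (nA l c) (eB m s t) := by
  have := P.hK
  have e1 : min 1 P.K = 1 := by omega
  rintro (e | i | i) h
  · rcases h with h | h
    · exact h1 e (Or.inl h)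
    · cases e <;> first
        | exact h1 _ (Or.inr ⟨_, h, rfl⟩)
        | exact absurd (by simpa [tgt, tgtF, nA_cel] using h) h4
        | exact h2 (by simpa [tgt, tgtF, nA_cel, e1] using h)
        | exact h3 (by simpa [tgt, tgtF, nA_cel] using h)
  · have e : min (i : ℕ) P.K = i := by omega
    exact h5 i i.2 (by simpa only [src, tgt, nA_cel, nA_inl, e] using h)
  · have e : min (i : ℕ) P.K = i := by omega
    have e' : min ((i : ℕ) + 1) P.K = i + 1 := by omega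
    exact h6 i i.2 (by simpa only [src, tgt, nA_cel, e, e'] using h)

theorem no_end {m : List FE} {s t : ℕ → Prop} {x : FN} (ha : x ≠ .ha) (hb : x ≠ .hb)
    (h : ∀ e ∈ m, srcF e ≠ x ∧ tgt0 e ≠ some x) :
    ∀ e, eB m s t e → src P e ≠ .inl x ∧ tgt P e ≠ .inl x := by
  refine forall_eB (fun e he => ⟨fun k => (h e he).1 (Sum.inl.inj k),
    fun k => (h e he).2 ((tgt0_iff e x).1 k)⟩) (fun i _ => ⟨fun k => ?_, cel_ne _ _⟩)
    (fun i _ => ⟨cel_ne _ _, cel_ne _ _⟩)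
  have k' : hub i = x := Sum.inl.inj k
  rcases hub_cases i with h | h
  · exact ha (k' ▸ h)
  · exact hb (k' ▸ h)

theorem no_end_cel {m : List FE} {s t : ℕ → Prop} {j : ℕ} (hj : j ≤ P.K) (ha : .ya ∉ m)
    (hb : .yb ∉ m) (h1 : .e1 ∈ m → j ≠ 1) (h0 : .e2 ∈ m → j ≠ 0) (hs : ¬ s j)
    (ht : ∀ i, t i → i ≠ j ∧ i + 1 ≠ j) :
    ∀ e, eB m s t e → src P e ≠ cel P j ∧ tgt P e ≠ cel P j := by
  have := P.hK
  refine forall_eB (fun e he => ⟨(cel_ne _ _).symm, fun k => ?_⟩)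
    (fun i hi => ⟨(cel_ne _ _).symm, fun k => ?_⟩) (fun i hi => ⟨fun k => ?_, fun k => ?_⟩)
  · cases e <;> first
      | exact absurd k.symm (cel_ne _ _)
      | exact ha he
      | exact hb he
      | exact h1 he (cel_inj (by omega) hj k).symm
      | exact h0 he (cel_inj (by omega) hj k).symm
  · obtain rfl := cel_inj (by omega) hj k
    exact hs hi
  · exact (ht i hi).1 (cel_inj (by omega) hj k)
  · exact (ht i hi).2 (cel_inj (by omega) hj k)

theorem vert_W (v : (W P).V) : (∃ x, v = nd P x) ∨ (∃ i, i ≤ P.K ∧ v = cl P i) ∨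
    (∃ e j, 0 < j ∧ j < lenF P e ∧ v = (W P).pt (fe P e) j) ∨
    ∃ (i : Fin P.K) (j : ℕ), 0 < j ∧ j < 3 ∧ v = (W P).pt (sp P i) j := by
  rcases vert_cases v with ⟨x, rfl⟩ | ⟨e | i | i, j, h0, hj, rfl⟩
  · rcases node_cases x with ⟨y, rfl⟩ | ⟨i, hi, rfl⟩
    · exact Or.inl ⟨y, rfl⟩
    · exact Or.inr (Or.inl ⟨i, hi, rfl⟩)
  · exact Or.inr (Or.inr (Or.inl ⟨e, j, h0, hj, rfl⟩))
  · exact Or.inr (Or.inr (Or.inr ⟨i, j, h0, hj, rfl⟩))
  · simp only [len] at hj; omega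

theorem card_W : Nat.card (W P).V = 254 + 6 * P.t + 3 * P.K + P.p := by
  have := P.ht
  rw [card_V, Fintype.sum_sum_type, Fintype.sum_sum_type]
  have e1 : Fintype.card FN = 13 := rfl
  have e2 : ∑ e : FE, (len P (.inl e) - 1) = ([FE.ra, .r1, .r2, .r3, .rb, .qa, .q12, .q23, .q34,
      .qb, .u1, .u2, .u3, .u4, .p1, .p2, .p3, .p4, .pa, .pb, .mm, .ya, .yb, .e1, .e2].map
      fun e => lenF P e - 1).sum := rfl
  rw [e2]
  simp [e1, len, lenF]
  omega

end Pool.Agent.Lib.MP_1fc36f_co.H40
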