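import Mathlib

/-! Linear forms in three integer parameters and a small sound procedure for inequalities. -/

namespace Pool.Agent.Lib.MP_1fc36f_co.H40L

/-- The form `c + h * n + p * x + q * y`. -/
structure LF where
  c : ℤ
  h : ℤ
  p : ℤ
  q : ℤ

namespace LF

def ev (f : LF) (n x y : ℤ) : ℤ := f.c + f.h * n + f.p * x + f.q * y

def add (f g : LF) : LF := ⟨f.c + g.c, f.h + g.h, f.p + g.p, f.q + g.q⟩

def sub (f g : LF) : LF := ⟨f.c - g.c, f.h - g.h, f.p - g.p, f.q - g.q⟩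

def neg (f : LF) : LF := ⟨-f.c, -f.h, -f.p, -f.q⟩

/-- Add a form in `n` only. -/
def add2 (f : LF) (c h : ℤ) : LF := ⟨f.c + c, f.h + h, f.p, f.q⟩

/-- Substitute forms for `x` and `y`. -/
def subst (f X Y : LF) : LF :=
  ⟨f.c + f.p * X.c + f.q * Y.c, f.h + f.p * X.h + f.q * Y.h, f.p * X.p + f.q * Y.p,
    f.p * X.q + f.q * Y.q⟩

variable {f g X Y : LF} {n x y c h : ℤ}

theorem ev_add : (f.add g).ev n x y = f.ev n x y + g.ev n x y := by simp only [ev, add]; ring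

theorem ev_sub : (f.sub g).ev n x y = f.ev n x y - g.ev n x y := by simp only [ev, sub]; ring

theorem ev_neg : f.neg.ev n x y = -f.ev n x y := by simp only [ev, neg]; ring

theorem ev_add2 : (f.add2 c h).ev n x y = f.ev n x y + c + h * n := by simp only [ev, add2]; ring

theorem ev_subst : (f.subst X Y).ev n x y = f.ev n (X.ev n x y) (Y.ev n x y) := by
  simp only [ev, subst]; ring

end LF

/-- Lower and upper bounds for `x`, `y` and `j`. -/
structure Cx where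
  xl : List LF
  xu : List LF
  yl : List LF
  yu : List LF
  jl : List LF
  ju : List LF

structure Cx.Sat (Γ : Cx) (n x y j : ℤ) : Prop where
  n0 : 0 ≤ n
  xl : ∀ l ∈ Γ.xl, l.c + l.h * n ≤ x
  xu : ∀ l ∈ Γ.xu, x ≤ l.c + l.h * n
  yl : ∀ l ∈ Γ.yl, l.c + l.h * n + l.p * x ≤ y
  yu : ∀ l ∈ Γ.yu, y ≤ l.c + l.h * n + l.p * x
  jl : ∀ l ∈ Γ.jl, l.ev n x y ≤ j
  ju : ∀ l ∈ Γ.ju, j ≤ l.ev n x y

def nn : ℤ → Bool
  | .ofNat _ => true
  | .negSucc _ => false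

theorem nn_sound {z : ℤ} (h : nn z = true) : 0 ≤ z := by
  cases z with
  | ofNat k => exact Int.natCast_nonneg k
  | negSucc k => simp [nn] at h

def pv1 (c h : ℤ) : Bool := nn c && nn h

def pv2 (Γ : Cx) (c h : ℤ) : ℤ → Bool
  | .ofNat 0 => pv1 c h
  | .ofNat (k + 1) => Γ.xl.any fun l =>
      pv1 (c + .ofNat (k + 1) * l.c) (h + .ofNat (k + 1) * l.h)
  | .negSucc k => Γ.xu.any fun l => pv1 (c + .negSucc k * l.c) (h + .negSucc k * l.h)

def pv3' (Γ : Cx) (c h p : ℤ) : ℤ → Bool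
  | .ofNat 0 => pv2 Γ c h p
  | .ofNat (k + 1) => Γ.yl.any fun l =>
      pv2 Γ (c + .ofNat (k + 1) * l.c) (h + .ofNat (k + 1) * l.h) (p + .ofNat (k + 1) * l.p)
  | .negSucc k => Γ.yu.any fun l =>
      pv2 Γ (c + .negSucc k * l.c) (h + .negSucc k * l.h) (p + .negSucc k * l.p)

/-- A proof search for `0 ≤ f`. -/
def pv3 (Γ : Cx) (f : LF) : Bool := pv3' Γ f.c f.h f.p f.q

/-- A proof search for `0 ≤ f + j`. -/
def pvP (Γ : Cx) (f : LF) : Bool := Γ.jl.any fun l => pv3 Γ (f.add l)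

/-- A proof search for `0 ≤ f - j`. -/
def pvM (Γ : Cx) (f : LF) : Bool := Γ.ju.any fun l => pv3 Γ (f.sub l)

/-- A proof search for a contradiction. -/
def emp (Γ : Cx) : Bool :=
  (Γ.jl.any fun l => pvM Γ (l.add2 (-1) 0)) ||
    (Γ.yl.any fun l => pv3' Γ (l.c - 1) l.h l.p (-1)) ||
    (Γ.xl.any fun l => pv2 Γ (l.c - 1) l.h (-1))

variable {Γ : Cx} {n x y j : ℤ}

theorem pv1_sound {c h : ℤ} (n0 : 0 ≤ n) (k : pv1 c h = true) : 0 ≤ c + h * n := by
  rw [pv1, Bool.and_eq_true] at k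
  exact add_nonneg (nn_sound k.1) (mul_nonneg (nn_sound k.2) n0)

theorem pv2_sound (s : Γ.Sat n x y j) {c h p : ℤ} (k : pv2 Γ c h p = true) :
    0 ≤ c + h * n + p * x := by
  match p, k with
  | .ofNat 0, k => simpa using pv1_sound s.n0 k
  | .ofNat (m + 1), k =>
    obtain ⟨l, hl, k⟩ := List.any_eq_true.1 k
    have k1 := pv1_sound s.n0 k
    have k2 := mul_le_mul_of_nonneg_left (s.xl l hl) (Int.natCast_nonneg (m + 1))
    change (0 : ℤ) ≤ c + h * n + ((m + 1 : ℕ) : ℤ) * x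
    change (0 : ℤ) ≤ c + ((m + 1 : ℕ) : ℤ) * l.c + (h + ((m + 1 : ℕ) : ℤ) * l.h) * n at k1
    linarith
  | .negSucc m, k =>
    obtain ⟨l, hl, k⟩ := List.any_eq_true.1 k
    have k1 := pv1_sound s.n0 k
    have k2 := mul_le_mul_of_nonpos_left (s.xu l hl) (Int.negSucc_lt_zero m).le
    linarith

theorem pv3'_sound (s : Γ.Sat n x y j) {c h p q : ℤ} (k : pv3' Γ c h p q = true) :
    0 ≤ c + h * n + p * x + q * y := by
  match q, k with
  | .ofNat 0, k => simpa using pv2_sound s k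
  | .ofNat (m + 1), k =>
    obtain ⟨l, hl, k⟩ := List.any_eq_true.1 k
    have k1 := pv2_sound s k
    have k2 := mul_le_mul_of_nonneg_left (s.yl l hl) (Int.natCast_nonneg (m + 1))
    change (0 : ℤ) ≤ c + h * n + p * x + ((m + 1 : ℕ) : ℤ) * y
    change (0 : ℤ) ≤ c + ((m + 1 : ℕ) : ℤ) * l.c + (h + ((m + 1 : ℕ) : ℤ) * l.h) * n +
      (p + ((m + 1 : ℕ) : ℤ) * l.p) * x at k1
    linarith
  | .negSucc m, k =>
    obtain ⟨l, hl, k⟩ := List.any_eq_true.1 k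
    have k1 := pv2_sound s k
    have k2 := mul_le_mul_of_nonpos_left (s.yu l hl) (Int.negSucc_lt_zero m).le
    linarith

theorem pv3_sound (s : Γ.Sat n x y j) {f : LF} (k : pv3 Γ f = true) : 0 ≤ f.ev n x y :=
  pv3'_sound s k

theorem pvP_sound (s : Γ.Sat n x y j) {f : LF} (k : pvP Γ f = true) : 0 ≤ f.ev n x y + j := by
  obtain ⟨l, hl, k⟩ := List.any_eq_true.1 k
  have := pv3_sound s k
  have := s.jl l hl
  rw [LF.ev_add] at *
  omega

theorem pvM_sound (s : Γ.Sat n x y j) {f : LF} (k : pvM Γ f = true) : 0 ≤ f.ev n x y - j := by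
  obtain ⟨l, hl, k⟩ := List.any_eq_true.1 k
  have := pv3_sound s k
  have := s.ju l hl
  rw [LF.ev_sub] at *
  omega

theorem emp_sound (s : Γ.Sat n x y j) (k : emp Γ = true) : False := by
  simp only [emp, Bool.or_eq_true, List.any_eq_true] at k
  rcases k with (⟨l, hl, k⟩ | ⟨l, hl, k⟩) | ⟨l, hl, k⟩
  · have := pvM_sound s k
    have := s.jl l hl
    rw [LF.ev_add2] at *
    omega
  · have := pv3'_sound s k
    have := s.yl l hl
    omega
  · have := pv2_sound s k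
    have := s.xl l hl
    omega

def Cx.xle (Γ : Cx) (u : LF) : Cx := { Γ with xu := u :: Γ.xu }
def Cx.xgt (Γ : Cx) (u : LF) : Cx := { Γ with xl := u.add2 1 0 :: Γ.xl }
def Cx.yle (Γ : Cx) (u : LF) : Cx := { Γ with yu := u :: Γ.yu }
def Cx.ygt (Γ : Cx) (u : LF) : Cx := { Γ with yl := u.add2 1 0 :: Γ.yl }
def Cx.jle (Γ : Cx) (u : LF) : Cx := { Γ with ju := u :: Γ.ju }
def Cx.jgt (Γ : Cx) (u : LF) : Cx := { Γ with jl := u.add2 1 0 :: Γ.jl }

/-- Replace the bounds for `j`. -/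
def Cx.setj (Γ : Cx) (l u : List LF) : Cx := { Γ with jl := l, ju := u }

theorem Cx.Sat.splitx (s : Γ.Sat n x y j) (u : LF) :
    (Γ.xle u).Sat n x y j ∨ (Γ.xgt u).Sat n x y j := by
  by_cases h : x ≤ u.c + u.h * n
  · exact Or.inl { s with xu := List.forall_mem_cons.2 ⟨h, s.xu⟩ }
  · exact Or.inr { s with xl := List.forall_mem_cons.2 ⟨by simp only [LF.add2, add_zero]; omega, s.xl⟩ }

theorem Cx.Sat.splity (s : Γ.Sat n x y j) (u : LF) :
    (Γ.yle u).Sat n x y j ∨ (Γ.ygt u).Sat n x y j := by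
  by_cases h : y ≤ u.c + u.h * n + u.p * x
  · exact Or.inl { s with yu := List.forall_mem_cons.2 ⟨h, s.yu⟩ }
  · exact Or.inr { s with yl := List.forall_mem_cons.2 ⟨by simp only [LF.add2, add_zero]; omega, s.yl⟩ }

theorem Cx.Sat.splitj (s : Γ.Sat n x y j) (u : LF) :
    (Γ.jle u).Sat n x y j ∨ (Γ.jgt u).Sat n x y j := by
  by_cases h : j ≤ u.ev n x y
  · exact Or.inl { s with ju := List.forall_mem_cons.2 ⟨h, s.ju⟩ }
  · exact Or.inr { s with jl := List.forall_mem_cons.2 ⟨by rw [LF.ev_add2]; omega, s.jl⟩ }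

theorem Cx.Sat.setj (s : Γ.Sat n x y j) {l u : List LF} {i : ℤ} (hl : ∀ f ∈ l, f.ev n x y ≤ i)
    (hu : ∀ f ∈ u, i ≤ f.ev n x y) : (Γ.setj l u).Sat n x y i :=
  ⟨s.n0, s.xl, s.xu, s.yl, s.yu, hl, hu⟩

end Pool.Agent.Lib.MP_1fc36f_co.H40L
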