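import Pool.Agent.Lib.MP_1fc36f_co.H40Cs

/-! Certificates for the claims 30 to 59. -/

namespace Pool.Agent.Lib.MP_1fc36f_co.H40L

theorem c30 : ∃ t, chk gr cs 30 t = true := ⟨.leaf ⟨[⟨[101, 99, 97, 90, 92, 94, 340, 342, 344], 0, true,
      false, ⟨0, 1, 0, 0⟩, .z, 0, 0⟩, ⟨[265], 29, false, false, ⟨0, 1, 0, 0⟩, .z, 0, 0⟩, ⟨[270], 40, false,
      false, ⟨0, 1, 0, 0⟩, .z, 0, 0⟩],
    [[1, 2], [0, 1], [0, 2]], [[1, 2], [0, 1], [0, 2]],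
    [],
    [],
    [],
    []⟩, by
  decide +kernel⟩

theorem c31 : ∃ t, chk gr cs 31 t = true := ⟨.leaf ⟨[⟨[114, 116, 118, 357, 355, 353, 337, 340, 342, 344], 0,
      true, false, ⟨0, 1, 0, 0⟩, .z, 0, 0⟩, ⟨[220], 33, false, false, ⟨0, 1, 0, 0⟩, .z, 0, 0⟩, ⟨[269], 39,
      false, false, ⟨0, 1, 0, 0⟩, .z, 0, 0⟩],
    [[1, 2], [0, 2], [0, 1]], [[1, 2], [0, 2], [0, 1]],
    [],
    [],
    [],
    []⟩, by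
  decide +kernel⟩

theorem c32 : ∃ t, chk gr cs 32 t = true := ⟨.leaf ⟨[⟨[225, 113, 111, 109, 57, 55, 53, 21, 19, 17, 1, 4, 6,
      8], 0, false, false, ⟨0, 1, 0, 0⟩, .z, 0, 0⟩, ⟨[226], 34, false, false, ⟨0, 1, 0, 0⟩, .z, 0, 0⟩, ⟨[273],
      40, false, false, ⟨0, 1, 0, 0⟩, .z, 0, 0⟩],
    [[1, 2], [0, 1], [0, 2]], [[1, 2], [0, 1], [0, 2]],
    [],
    [],
    [],
    []⟩, by
  decide +kernel⟩

theorem c33 : ∃ t, chk gr cs 33 t = true := ⟨.leaf ⟨[⟨[221, 114, 116, 118, 357, 355, 353, 337, 340, 342, 344],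
      0, true, false, ⟨0, 1, 0, 0⟩, .z, 0, 0⟩, ⟨[231], 23, false, false, ⟨0, 1, 0, 0⟩, .z, 0, 0⟩, ⟨[221], 31,
      false, false, ⟨0, 1, 0, 0⟩, .z, 0, 0⟩, ⟨[232], 35, false, false, ⟨0, 1, 0, 0⟩, .z, 0, 0⟩],
    [[1, 3], [1, 2], [0, 3]], [[1, 3], [2, 3], [0, 1]],
    [],
    [],
    [],
    []⟩, by
  decide +kernel⟩

theorem c34 : ∃ t, chk gr cs 34 t = true := ⟨.leaf ⟨[⟨[237], 24, false, false, ⟨0, 1, 0, 0⟩, .z, 0, 0⟩,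
      ⟨[227], 32, false, false, ⟨0, 1, 0, 0⟩, .z, 0, 0⟩, ⟨[238], 36, false, false, ⟨0, 1, 0, 0⟩, .z, 0, 0⟩],
    [[1, 2], [0, 2], [0, 1]], [[1, 2], [0, 2], [0, 1]],
    [],
    [],
    [],
    []⟩, by
  decide +kernel⟩

theorem c35 : ∃ t, chk gr cs 35 t = true := ⟨.leaf ⟨[⟨[243], 25, false, false, ⟨0, 1, 0, 0⟩, .z, 0, 0⟩,
      ⟨[233], 33, false, false, ⟨0, 1, 0, 0⟩, .z, 0, 0⟩, ⟨[244], 37, false, false, ⟨0, 1, 0, 0⟩, .z, 0, 0⟩],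
    [[0, 2], [0, 1], [1, 2]], [[0, 2], [0, 1], [1, 2]],
    [],
    [],
    [],
    []⟩, by
  decide +kernel⟩

theorem c36 : ∃ t, chk gr cs 36 t = true := ⟨.leaf ⟨[⟨[249], 26, false, false, ⟨0, 1, 0, 0⟩, .z, 0, 0⟩,
      ⟨[239], 34, false, false, ⟨0, 1, 0, 0⟩, .z, 0, 0⟩, ⟨[250], 38, false, false, ⟨0, 1, 0, 0⟩, .z, 0, 0⟩],
    [[0, 1], [0, 2], [1, 2]], [[0, 1], [0, 2], [1, 2]],
    [],
    [],
    [],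
    []⟩, by
  decide +kernel⟩

theorem c37 : ∃ t, chk gr cs 37 t = true := ⟨.leaf ⟨[⟨[255], 27, false, false, ⟨0, 1, 0, 0⟩, .z, 0, 0⟩,
      ⟨[245], 35, false, false, ⟨0, 1, 0, 0⟩, .z, 0, 0⟩, ⟨[256], 39, false, false, ⟨0, 1, 0, 0⟩, .z, 0, 0⟩],
    [[0, 1], [0, 2], [1, 2]], [[0, 1], [0, 2], [1, 2]],
    [],
    [],
    [],
    []⟩, by
  decide +kernel⟩

theorem c38 : ∃ t, chk gr cs 38 t = true := ⟨.leaf ⟨[⟨[261], 28, false, false, ⟨0, 1, 0, 0⟩, .z, 0, 0⟩,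
      ⟨[251], 36, false, false, ⟨0, 1, 0, 0⟩, .z, 0, 0⟩, ⟨[262], 40, false, false, ⟨0, 1, 0, 0⟩, .z, 0, 0⟩],
    [[0, 1], [1, 2], [0, 2]], [[0, 1], [1, 2], [0, 2]],
    [],
    [],
    [],
    []⟩, by
  decide +kernel⟩

theorem c39 : ∃ t, chk gr cs 39 t = true := ⟨.leaf ⟨[⟨[268, 114, 116, 118], 1, true, false, ⟨0, 1, 0, 0⟩, .z,
      0, 0⟩, ⟨[267], 29, false, false, ⟨0, 1, 0, 0⟩, .z, 0, 0⟩, ⟨[257], 37, false, false, ⟨0, 1, 0, 0⟩, .z, 0,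
      0⟩],
    [[1, 2], [0, 2], [0, 1]], [[1, 2], [0, 2], [0, 1]],
    [],
    [],
    [],
    []⟩, by
  decide +kernel⟩

theorem c40 : ∃ t, chk gr cs 40 t = true := ⟨.leaf ⟨[⟨[271, 101, 99, 97, 90, 92, 94, 340, 342, 344], 0, true,
      false, ⟨0, 1, 0, 0⟩, .z, 0, 0⟩, ⟨[272], 32, false, false, ⟨0, 1, 0, 0⟩, .z, 0, 0⟩, ⟨[263], 38, false,
      false, ⟨0, 1, 0, 0⟩, .z, 0, 0⟩],
    [[1, 2], [0, 2], [0, 1]], [[1, 2], [0, 2], [0, 1]],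
    [],
    [],
    [],
    []⟩, by
  decide +kernel⟩

theorem c41 : ∃ t, chk gr cs 41 t = true := ⟨.leaf ⟨[⟨[132, 134, 136], 0, false, false, ⟨0, 1, 0, 0⟩, .z, 0,
      0⟩, ⟨[284], 42, false, false, ⟨0, 1, 0, 0⟩, .z, 0, 0⟩, ⟨[286], 51, false, false, ⟨0, 1, 0, 0⟩, .z, 0,
      0⟩],
    [[1, 2], [0, 1], [0, 2]], [[1, 2], [0, 1], [0, 2]],
    [],
    [],
    [],
    []⟩, by
  decide +kernel⟩

theorem c42 : ∃ t, chk gr cs 42 t = true := ⟨.leaf ⟨[⟨[285, 132, 134, 136], 0, false, false, ⟨0, 1, 0, 0⟩, .z,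
      0, 0⟩, ⟨[290], 43, false, false, ⟨0, 1, 0, 0⟩, .z, 0, 0⟩, ⟨[292], 52, false, false, ⟨0, 1, 0, 0⟩, .z, 0,
      0⟩],
    [[1, 2], [0, 1], [0, 2]], [[1, 2], [0, 1], [0, 2]],
    [],
    [],
    [],
    []⟩, by
  decide +kernel⟩

theorem c43 : ∃ t, chk gr cs 43 t = true := ⟨.leaf ⟨[⟨[291], 42, false, false, ⟨0, 1, 0, 0⟩, .z, 0, 0⟩,
      ⟨[296], 44, false, false, ⟨0, 1, 0, 0⟩, .z, 0, 0⟩, ⟨[298], 53, false, false, ⟨0, 1, 0, 0⟩, .z, 0, 0⟩],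
    [[0, 1], [1, 2], [0, 2]], [[0, 1], [1, 2], [0, 2]],
    [],
    [],
    [],
    []⟩, by
  decide +kernel⟩

theorem c44 : ∃ t, chk gr cs 44 t = true := ⟨.leaf ⟨[⟨[297], 43, false, false, ⟨0, 1, 0, 0⟩, .z, 0, 0⟩,
      ⟨[302], 45, false, false, ⟨0, 1, 0, 0⟩, .z, 0, 0⟩, ⟨[304], 54, false, false, ⟨0, 1, 0, 0⟩, .z, 0, 0⟩],
    [[0, 1], [1, 2], [0, 2]], [[0, 1], [1, 2], [0, 2]],
    [],
    [],
    [],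
    []⟩, by
  decide +kernel⟩

theorem c45 : ∃ t, chk gr cs 45 t = true := ⟨.leaf ⟨[⟨[303], 44, false, false, ⟨0, 1, 0, 0⟩, .z, 0, 0⟩,
      ⟨[308], 46, false, false, ⟨0, 1, 0, 0⟩, .z, 0, 0⟩, ⟨[310], 55, false, false, ⟨0, 1, 0, 0⟩, .z, 0, 0⟩],
    [[0, 1], [1, 2], [0, 2]], [[0, 1], [1, 2], [0, 2]],
    [],
    [],
    [],
    []⟩, by
  decide +kernel⟩

theorem c46 : ∃ t, chk gr cs 46 t = true := ⟨.leaf ⟨[⟨[309], 45, false, false, ⟨0, 1, 0, 0⟩, .z, 0, 0⟩,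
      ⟨[314], 47, false, false, ⟨0, 1, 0, 0⟩, .z, 0, 0⟩, ⟨[316], 56, false, false, ⟨0, 1, 0, 0⟩, .z, 0, 0⟩],
    [[0, 2], [0, 1], [1, 2]], [[0, 2], [0, 1], [1, 2]],
    [],
    [],
    [],
    []⟩, by
  decide +kernel⟩

theorem c47 : ∃ t, chk gr cs 47 t = true := ⟨.leaf ⟨[⟨[315], 46, false, false, ⟨0, 1, 0, 0⟩, .z, 0, 0⟩,
      ⟨[320], 48, false, false, ⟨0, 1, 0, 0⟩, .z, 0, 0⟩, ⟨[322], 57, false, false, ⟨0, 1, 0, 0⟩, .z, 0, 0⟩],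
    [[0, 2], [0, 1], [1, 2]], [[0, 2], [0, 1], [1, 2]],
    [],
    [],
    [],
    []⟩, by
  decide +kernel⟩

theorem c48 : ∃ t, chk gr cs 48 t = true := ⟨.leaf ⟨[⟨[326, 152, 154, 156], 0, true, false, ⟨0, 1, 0, 0⟩, .z,
      0, 0⟩, ⟨[321], 47, false, false, ⟨0, 1, 0, 0⟩, .z, 0, 0⟩, ⟨[328], 58, false, false, ⟨0, 1, 0, 0⟩, .z, 0,
      0⟩],
    [[1, 2], [0, 2], [0, 1]], [[1, 2], [0, 2], [0, 1]],
    [],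
    [],
    [],
    []⟩, by
  decide +kernel⟩

theorem c49 : ∃ t, chk gr cs 49 t = true := ⟨.leaf ⟨[⟨[152, 154, 156], 0, true, false, ⟨0, 1, 0, 0⟩, .z, 0,
      0⟩, ⟨[327], 48, false, false, ⟨0, 1, 0, 0⟩, .z, 0, 0⟩, ⟨[332], 59, false, false, ⟨0, 1, 0, 0⟩, .z, 0,
      0⟩],
    [[1, 2], [0, 1], [0, 2]], [[1, 2], [0, 1], [0, 2]],
    [],
    [],
    [],
    []⟩, by
  decide +kernel⟩

theorem c50 : ∃ t, chk gr cs 50 t = true := ⟨.leaf ⟨[⟨[282], 52, false, false, ⟨0, 1, 0, 0⟩, .z, 0, 0⟩,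
      ⟨[331], 58, false, false, ⟨0, 1, 0, 0⟩, .z, 0, 0⟩, ⟨[138, 140, 142, 144, 146, 148, 150], 60, false,
      false, ⟨0, 1, 0, 0⟩, .z, 0, 0⟩],
    [[0, 1], [0, 2], [1, 2]], [[0, 1], [0, 2], [1, 2]],
    [],
    [],
    [],
    []⟩, by
  decide +kernel⟩

theorem c51 : ∃ t, chk gr cs 51 t = true := ⟨.leaf ⟨[⟨[287, 132, 134, 136], 0, false, false, ⟨0, 1, 0, 0⟩, .z,
      0, 0⟩, ⟨[335, 333, 152, 154, 156], 0, true, false, ⟨0, 1, 0, 0⟩, .z, 0, 0⟩, ⟨[287], 41, false, false,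
      ⟨0, 1, 0, 0⟩, .z, 0, 0⟩, ⟨[288], 53, false, false, ⟨0, 1, 0, 0⟩, .z, 0, 0⟩, ⟨[335], 59, false, false,
      ⟨0, 1, 0, 0⟩, .z, 0, 0⟩],
    [[2, 3], [1, 3], [0, 4]], [[3, 4], [0, 3], [0, 1, 2]],
    [],
    [],
    [],
    []⟩, by
  decide +kernel⟩

theorem c52 : ∃ t, chk gr cs 52 t = true := ⟨.leaf ⟨[⟨[293, 285, 132, 134, 136], 0, false, false, ⟨0, 1, 0,
      0⟩, .z, 0, 0⟩, ⟨[283], 50, false, false, ⟨0, 1, 0, 0⟩, .z, 0, 0⟩, ⟨[294], 54, false, false, ⟨0, 1, 0,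
      0⟩, .z, 0, 0⟩],
    [[1, 2], [0, 1], [0, 2]], [[1, 2], [0, 1], [0, 2]],
    [],
    [],
    [],
    []⟩, by
  decide +kernel⟩

theorem c53 : ∃ t, chk gr cs 53 t = true := ⟨.leaf ⟨[⟨[299], 43, false, false, ⟨0, 1, 0, 0⟩, .z, 0, 0⟩,
      ⟨[289], 51, false, false, ⟨0, 1, 0, 0⟩, .z, 0, 0⟩, ⟨[300], 55, false, false, ⟨0, 1, 0, 0⟩, .z, 0, 0⟩],
    [[0, 2], [0, 1], [1, 2]], [[0, 2], [0, 1], [1, 2]],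
    [],
    [],
    [],
    []⟩, by
  decide +kernel⟩

theorem c54 : ∃ t, chk gr cs 54 t = true := ⟨.leaf ⟨[⟨[305], 44, false, false, ⟨0, 1, 0, 0⟩, .z, 0, 0⟩,
      ⟨[295], 52, false, false, ⟨0, 1, 0, 0⟩, .z, 0, 0⟩, ⟨[306], 56, false, false, ⟨0, 1, 0, 0⟩, .z, 0, 0⟩],
    [[0, 2], [1, 2], [0, 1]], [[0, 2], [1, 2], [0, 1]],
    [],
    [],
    [],
    []⟩, by
  decide +kernel⟩

theorem c55 : ∃ t, chk gr cs 55 t = true := ⟨.leaf ⟨[⟨[311], 45, false, false, ⟨0, 1, 0, 0⟩, .z, 0, 0⟩,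
      ⟨[301], 53, false, false, ⟨0, 1, 0, 0⟩, .z, 0, 0⟩, ⟨[312], 57, false, false, ⟨0, 1, 0, 0⟩, .z, 0, 0⟩],
    [[0, 2], [0, 1], [1, 2]], [[0, 2], [0, 1], [1, 2]],
    [],
    [],
    [],
    []⟩, by
  decide +kernel⟩

theorem c56 : ∃ t, chk gr cs 56 t = true := ⟨.leaf ⟨[⟨[317], 46, false, false, ⟨0, 1, 0, 0⟩, .z, 0, 0⟩,
      ⟨[307], 54, false, false, ⟨0, 1, 0, 0⟩, .z, 0, 0⟩, ⟨[318], 58, false, false, ⟨0, 1, 0, 0⟩, .z, 0, 0⟩],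
    [[0, 1], [1, 2], [0, 2]], [[0, 1], [1, 2], [0, 2]],
    [],
    [],
    [],
    []⟩, by
  decide +kernel⟩

theorem c57 : ∃ t, chk gr cs 57 t = true := ⟨.leaf ⟨[⟨[323], 47, false, false, ⟨0, 1, 0, 0⟩, .z, 0, 0⟩,
      ⟨[313], 55, false, false, ⟨0, 1, 0, 0⟩, .z, 0, 0⟩, ⟨[324], 59, false, false, ⟨0, 1, 0, 0⟩, .z, 0, 0⟩],
    [[0, 1], [1, 2], [0, 2]], [[0, 1], [1, 2], [0, 2]],
    [],
    [],
    [],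
    []⟩, by
  decide +kernel⟩

theorem c58 : ∃ t, chk gr cs 58 t = true := ⟨.leaf ⟨[⟨[329, 326, 152, 154, 156], 0, true, false, ⟨0, 1, 0, 0⟩,
      .z, 0, 0⟩, ⟨[330], 50, false, false, ⟨0, 1, 0, 0⟩, .z, 0, 0⟩, ⟨[319], 56, false, false, ⟨0, 1, 0, 0⟩,
      .z, 0, 0⟩],
    [[1, 2], [0, 2], [0, 1]], [[1, 2], [0, 2], [0, 1]],
    [],
    [],
    [],
    []⟩, by
  decide +kernel⟩

theorem c59 : ∃ t, chk gr cs 59 t = true := ⟨.leaf ⟨[⟨[333, 152, 154, 156], 0, true, false, ⟨0, 1, 0, 0⟩, .z,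
      0, 0⟩, ⟨[333], 49, false, false, ⟨0, 1, 0, 0⟩, .z, 0, 0⟩, ⟨[334], 51, false, false, ⟨0, 1, 0, 0⟩, .z, 0,
      0⟩, ⟨[325], 57, false, false, ⟨0, 1, 0, 0⟩, .z, 0, 0⟩],
    [[1, 2], [2, 3], [0, 3]], [[2, 3], [1, 3], [0, 2]],
    [],
    [],
    [],
    []⟩, by
  decide +kernel⟩

end Pool.Agent.Lib.MP_1fc36f_co.H40L
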