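import Pool.Agent.Lib.MP_1fc36f_co.H40Cs

/-! Certificates for the claims 60 to 65. -/

namespace Pool.Agent.Lib.MP_1fc36f_co.H40L

theorem c60 : ∃ t, chk gr cs 60 t = true := ⟨.leaf ⟨[⟨[125, 123, 121], 0, false, false, ⟨0, 1, 0, 0⟩, .z, 0,
      0⟩, ⟨[126, 128, 130], 0, true, false, ⟨0, 1, 0, 0⟩, .z, 0, 0⟩, ⟨[15, 13, 11, 2, 22, 24, 26], 2, false,
      false, ⟨0, 1, 0, 0⟩, .z, 0, 0⟩, ⟨[151, 149, 147, 145, 143, 141, 139, 282, 293, 285], 41, false, false,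
      ⟨0, 1, 0, 0⟩, .z, 0, 0⟩, ⟨[151, 149, 147, 145, 143, 141, 139], 50, false, false, ⟨0, 1, 0, 0⟩, .z, 0,
      0⟩, ⟨[], 60, false, false, ⟨0, 1, 0, 0⟩, .z, 0, 0⟩, ⟨[], 61, false, false, ⟨0, 1, 0, 0⟩, .z, 0, 0⟩,
      ⟨[15, 13, 11], 70, false, false, ⟨0, 1, 0, 0⟩, .z, 0, 0⟩, ⟨[15, 13, 11], 70, false, true, ⟨0, 1, 0, 0⟩,
      .z, 0, 0⟩],
    [[0, 6], [0, 1, 3], [1, 4, 5], [0, 2, 3], [0, 5, 8], [0, 1, 2], [1, 2, 5], [3, 7]], [[0, 1, 3], [0, 3, 5],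
      [0, 5, 7], [1, 3, 5, 6], [0, 2, 3, 4], [0, 1, 7], [2, 3, 5, 6], [1, 3, 6, 8], [1, 2, 5, 6, 7]],
    [],
    [(3, .sj ⟨7, 0, 0, 0⟩ (.typ 2) (.sj ⟨23, 1, 0, 0⟩ (.typ 7) (.bad))), (52, .sj ⟨49, 4, 0, 0⟩ (.typ 0) (.typ
      4)), (61, .bad), (67, .sj ⟨61, 5, 0, 0⟩ (.typ 0) (.sj ⟨73, 5, 0, 0⟩ (.typ 6) (.sj ⟨89, 6, 0, 0⟩ (.typ 7)
      (.bad)))), (232, .sj ⟨33, 3, 0, 0⟩ (.typ 0) (.sj ⟨61, 4, 0, 0⟩ (.typ 7) (.bad))), (235, .sj ⟨13, 2, 0,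
      0⟩ (.bad) (.sj ⟨46, 4, 0, 0⟩ (.typ 7) (.typ 0))), (242, .sj ⟨9, 2, 0, 0⟩ (.bad) (.sj ⟨50, 4, 0, 0⟩ (.typ
      7) (.typ 0))), (245, .bad)],
    [],
    [(3, .sj ⟨7, 0, 0, 0⟩ (.typ 3) (.sj ⟨23, 1, 0, 0⟩ (.typ 7) (.bad))), (40, .sj ⟨21, 2, 0, 0⟩ (.typ 1) (.typ
      2)), (46, .sj ⟨20, 2, 0, 0⟩ (.typ 1) (.typ 2)), (52, .sj ⟨47, 4, 0, 0⟩ (.typ 1) (.typ 2)), (58, .sj ⟨45,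
      4, 0, 0⟩ (.typ 1) (.typ 2)), (61, .bad), (64, .typ 2), (67, .sj ⟨61, 5, 0, 0⟩ (.typ 2) (.sj ⟨73, 5, 0,
      0⟩ (.typ 8) (.sj ⟨89, 6, 0, 0⟩ (.typ 7) (.bad)))), (74, .typ 2), (232, .sj ⟨33, 3, 0, 0⟩ (.typ 2) (.sj
      ⟨45, 3, 0, 0⟩ (.typ 6) (.sj ⟨61, 4, 0, 0⟩ (.typ 7) (.bad)))), (235, .sj ⟨13, 2, 0, 0⟩ (.bad) (.sj ⟨26,
      2, 0, 0⟩ (.typ 7) (.typ 2))), (242, .sj ⟨9, 2, 0, 0⟩ (.bad) (.sj ⟨30, 2, 0, 0⟩ (.typ 7) (.typ 2))),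
      (245, .bad)]⟩, by
  decide +kernel⟩

theorem c61 : ∃ t, chk gr cs 61 t = true := ⟨.leaf ⟨[⟨[125, 123, 121], 0, false, false, ⟨0, 1, 0, 0⟩, .z, 0,
      0⟩, ⟨[126, 128, 130], 0, true, false, ⟨0, 1, 0, 0⟩, .z, 0, 0⟩, ⟨[15, 13, 11, 2, 22, 24, 26], 2, false,
      false, ⟨0, 1, 0, 0⟩, .z, 0, 0⟩, ⟨[151, 149, 147, 145, 143, 141, 139, 282, 293, 285], 41, false, false,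
      ⟨0, 1, 0, 0⟩, .z, 0, 0⟩, ⟨[151, 149, 147, 145, 143, 141, 139], 50, false, false, ⟨0, 1, 0, 0⟩, .z, 0,
      0⟩, ⟨[], 60, false, false, ⟨0, 1, 0, 0⟩, .z, 0, 0⟩, ⟨[], 61, false, false, ⟨0, 1, 0, 0⟩, .z, 0, 0⟩,
      ⟨[15, 13, 11], 62, false, false, ⟨0, 1, 0, 0⟩, .z, 0, 0⟩, ⟨[15, 13, 11], 63, false, false, ⟨0, 1, 0, 0⟩,
      .z, 0, 0⟩],
    [[0, 1, 3], [0, 4, 6], [1, 4, 5], [0, 4, 7], [4, 8], [0, 5, 8], [0, 1, 2], [1, 2, 5]], [[0, 1, 4], [0, 4,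
      5], [1, 4, 5], [0, 2, 4], [0, 5, 8], [1, 4, 8], [2, 3, 4, 5], [0, 1, 8], [1, 6, 7, 8]],
    [],
    [(40, .sj ⟨24, 2, 0, 0⟩ (.typ 1) (.typ 5)), (46, .sj ⟨23, 2, 0, 0⟩ (.typ 1) (.typ 5)), (52, .sj ⟨27, 2, 0,
      0⟩ (.typ 0) (.sj ⟨50, 4, 0, 0⟩ (.typ 3) (.bad))), (58, .sj ⟨48, 4, 0, 0⟩ (.typ 1) (.typ 5)), (64, .typ
      5), (67, .sj ⟨61, 5, 0, 0⟩ (.typ 5) (.sj ⟨73, 5, 0, 0⟩ (.typ 7) (.typ 4))), (74, .typ 5), (232, .sj ⟨33,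
      3, 0, 0⟩ (.typ 5) (.typ 4)), (235, .sj ⟨49, 4, 0, 0⟩ (.typ 4) (.typ 5)), (242, .sj ⟨53, 4, 0, 0⟩ (.typ
      4) (.typ 5))],
    [],
    [(40, .sj ⟨24, 2, 0, 0⟩ (.typ 1) (.typ 4)), (46, .sj ⟨23, 2, 0, 0⟩ (.typ 1) (.typ 4)), (52, .sj ⟨50, 4, 0,
      0⟩ (.typ 1) (.bad)), (58, .sj ⟨48, 4, 0, 0⟩ (.typ 1) (.typ 4)), (64, .typ 4), (67, .sj ⟨61, 5, 0, 0⟩
      (.typ 4) (.sj ⟨67, 5, 0, 0⟩ (.typ 8) (.typ 5))), (74, .typ 4), (232, .sj ⟨33, 3, 0, 0⟩ (.typ 4) (.sj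
      ⟨45, 3, 0, 0⟩ (.typ 6) (.typ 5))), (235, .sj ⟨26, 2, 0, 0⟩ (.typ 5) (.typ 4)), (242, .sj ⟨30, 2, 0, 0⟩
      (.typ 5) (.typ 4))]⟩, by
  decide +kernel⟩

theorem c62 : ∃ t, chk gr cs 62 t = true := ⟨.leaf ⟨[⟨[10, 12, 14, 125, 123, 121], 0, false, false, ⟨0, 1, 0,
      0⟩, .z, 0, 0⟩, ⟨[2, 22, 24, 26], 2, false, false, ⟨0, 1, 0, 0⟩, .z, 0, 0⟩, ⟨[10, 12, 14, 151, 149, 147,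
      145, 143, 141, 139, 282, 293, 285], 41, false, false, ⟨0, 1, 0, 0⟩, .z, 0, 0⟩, ⟨[10, 12, 14], 60, false,
      false, ⟨0, 1, 0, 0⟩, .z, 0, 0⟩, ⟨[10, 12, 14], 61, false, false, ⟨0, 1, 0, 0⟩, .z, 0, 0⟩, ⟨[], 62,
      false, false, ⟨0, 1, 0, 0⟩, .z, 0, 0⟩, ⟨[], 70, false, false, ⟨0, 1, 0, 0⟩, .z, 0, 0⟩, ⟨[], 70, false,
      true, ⟨0, 1, 0, 0⟩, .z, 0, 0⟩],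
    [[4, 5], [1, 3], [0, 4], [1, 2, 5], [3, 7], [4, 6]], [[1, 4, 7], [1, 3, 4], [0, 3, 5, 6], [2, 3, 4]],
    [],
    [(6, .bad), (61, .sj ⟨1, 0, 0, 0⟩ (.typ 5) (.bad)), (64, .sj ⟨39, 3, 0, 0⟩ (.bad) (.typ 1)), (74, .sj ⟨25,
      2, 0, 0⟩ (.typ 1) (.bad))],
    [],
    [(6, .bad), (27, .sj ⟨26, 2, 0, 0⟩ (.typ 0) (.typ 3)), (33, .sj ⟨14, 1, 0, 0⟩ (.typ 0) (.typ 3)), (61, .sj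
      ⟨1, 0, 0, 0⟩ (.typ 0) (.bad)), (64, .sj ⟨39, 3, 0, 0⟩ (.bad) (.typ 1)), (74, .sj ⟨24, 2, 0, 0⟩ (.typ 0)
      (.sj ⟨25, 2, 0, 0⟩ (.typ 1) (.bad)))]⟩, by
  decide +kernel⟩

theorem c63 : ∃ t, chk gr cs 63 t = true := ⟨.leaf ⟨[⟨[33, 31, 29, 16, 18, 20], 1, false, false, ⟨0, 1, 0, 0⟩,
      .z, 0, 0⟩, ⟨[2, 22, 24, 26], 2, false, false, ⟨0, 1, 0, 0⟩, .z, 0, 0⟩, ⟨[10, 12, 14], 60, false, false,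
      ⟨0, 1, 0, 0⟩, .z, 0, 0⟩, ⟨[], 62, false, false, ⟨0, 1, 0, 0⟩, .z, 0, 0⟩],
    [[1, 3], [0, 1], [1, 2], [0, 2, 3]], [[1, 3], [0, 1], [1, 2], [0, 2, 3]],
    [],
    [(12, .bad), (27, .sj ⟨27, 2, 0, 0⟩ (.typ 0) (.sj ⟨28, 2, 0, 0⟩ (.bad) (.bad))), (33, .sj ⟨15, 1, 0, 0⟩
      (.typ 0) (.sj ⟨16, 1, 0, 0⟩ (.bad) (.bad))), (52, .sj ⟨11, 1, 0, 0⟩ (.bad) (.typ 3)), (55, .sj ⟨11, 1,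
      0, 0⟩ (.bad) (.typ 3)), (61, .typ 1)],
    [],
    [(12, .bad), (27, .sj ⟨27, 2, 0, 0⟩ (.typ 0) (.sj ⟨28, 2, 0, 0⟩ (.bad) (.bad))), (33, .sj ⟨15, 1, 0, 0⟩
      (.typ 0) (.sj ⟨16, 1, 0, 0⟩ (.bad) (.bad))), (52, .sj ⟨11, 1, 0, 0⟩ (.bad) (.typ 3)), (55, .sj ⟨11, 1,
      0, 0⟩ (.bad) (.typ 3)), (61, .typ 1)]⟩, by
  decide +kernel⟩

theorem c64 : ∃ t, chk gr cs 64 t = true := ⟨.leaf ⟨[⟨[49, 47, 39, 37, 35, 1, 4, 6, 8], 0, false, false, ⟨0,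
      1, 0, 0⟩, .z, 0, 0⟩, ⟨[50], 11, false, false, ⟨0, 1, 0, 0⟩, .z, 0, 0⟩, ⟨[49, 47], 65, false, false, ⟨0,
      1, 0, 0⟩, .z, 0, 0⟩],
    [[0, 1], [2]], [[1, 2], [0, 2]],
    [],
    [(3, .bad), (6, .bad), (9, .bad), (15, .sj ⟨3, 0, 0, 0⟩ (.bad) (.sj ⟨23, 2, 0, 0⟩ (.bad) (.typ 0))), (18,
      .bad), (21, .sj ⟨11, 1, 0, 0⟩ (.bad) (.typ 0)), (24, .bad), (27, .sj ⟨11, 1, 0, 0⟩ (.bad) (.typ 0)),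
      (30, .bad), (61, .bad), (64, .sj ⟨4, 1, 0, 0⟩ (.bad) (.sj ⟨47, 4, 0, 0⟩ (.bad) (.typ 0))), (67, .sj ⟨39,
      3, 0, 0⟩ (.typ 0) (.bad)), (74, .sj ⟨43, 3, 0, 0⟩ (.typ 0) (.bad)), (208, .sj ⟨14, 1, 0, 0⟩ (.typ 0)
      (.bad)), (214, .sj ⟨13, 1, 0, 0⟩ (.typ 0) (.bad)), (220, .sj ⟨40, 3, 0, 0⟩ (.typ 0) (.bad)), (226, .sj
      ⟨38, 3, 0, 0⟩ (.typ 0) (.bad)), (232, .sj ⟨11, 1, 0, 0⟩ (.typ 0) (.bad)), (235, .sj ⟨31, 3, 0, 0⟩ (.bad)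
      (.sj ⟨48, 4, 0, 0⟩ (.bad) (.typ 0))), (242, .sj ⟨27, 3, 0, 0⟩ (.bad) (.sj ⟨44, 4, 0, 0⟩ (.bad) (.typ
      0))), (245, .bad)],
    [],
    [(3, .bad), (6, .bad), (9, .sj ⟨1, 0, 0, 0⟩ (.bad) (.sj ⟨6, 1, 0, 0⟩ (.bad) (.typ 0))), (12, .sj ⟨6, 1, 0,
      0⟩ (.bad) (.typ 0)), (15, .sj ⟨3, 0, 0, 0⟩ (.bad) (.sj ⟨23, 2, 0, 0⟩ (.bad) (.sj ⟨32, 2, 0, 0⟩ (.typ 0)
      (.bad)))), (18, .bad), (21, .sj ⟨11, 1, 0, 0⟩ (.bad) (.sj ⟨22, 1, 0, 0⟩ (.typ 0) (.bad))), (24, .bad),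
      (36, .sj ⟨6, 1, 0, 0⟩ (.bad) (.typ 0)), (61, .bad), (64, .sj ⟨4, 1, 0, 0⟩ (.bad) (.sj ⟨47, 4, 0, 0⟩
      (.bad) (.typ 0))), (67, .sj ⟨56, 4, 0, 0⟩ (.typ 0) (.bad)), (74, .sj ⟨17, 1, 0, 0⟩ (.typ 0) (.bad)),
      (208, .sj ⟨31, 2, 0, 0⟩ (.typ 0) (.bad)), (214, .sj ⟨30, 2, 0, 0⟩ (.typ 0) (.bad)), (232, .sj ⟨28, 2, 0,
      0⟩ (.typ 0) (.bad)), (235, .sj ⟨31, 3, 0, 0⟩ (.bad) (.typ 0)), (242, .sj ⟨27, 3, 0, 0⟩ (.bad) (.typ 0)),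
      (245, .bad)]⟩, by
  decide +kernel⟩

theorem c65 : ∃ t, chk gr cs 65 t = true := ⟨.leaf ⟨[⟨[39, 37, 35, 1, 4, 6, 8], 0, false, false, ⟨0, 1, 0, 0⟩,
      .z, 0, 0⟩, ⟨[40, 42, 44], 62, false, false, ⟨0, 1, 0, 0⟩, .z, 0, 0⟩],
    [[0, 1]], [[0], [1]],
    [],
    [(3, .bad), (6, .bad), (9, .bad), (12, .bad), (15, .sj ⟨11, 1, 0, 0⟩ (.bad) (.bad)), (18, .bad), (21,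
      .bad), (27, .sj ⟨21, 2, 0, 0⟩ (.typ 0) (.bad)), (33, .sj ⟨9, 1, 0, 0⟩ (.typ 0) (.bad)), (36, .bad), (37,
      .sj ⟨18, 1, 0, 0⟩ (.bad) (.typ 0)), (52, .sj ⟨18, 1, 0, 0⟩ (.bad) (.typ 0)), (55, .sj ⟨18, 1, 0, 0⟩
      (.bad) (.typ 0)), (61, .bad), (64, .sj ⟨9, 1, 0, 0⟩ (.bad) (.sj ⟨71, 5, 0, 0⟩ (.bad) (.typ 0))), (67,
      .sj ⟨51, 4, 0, 0⟩ (.typ 0) (.bad)), (74, .bad), (208, .sj ⟨26, 2, 0, 0⟩ (.typ 0) (.bad)), (214, .sj ⟨25,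
      2, 0, 0⟩ (.typ 0) (.bad)), (232, .sj ⟨23, 2, 0, 0⟩ (.typ 0) (.bad)), (235, .sj ⟨36, 3, 0, 0⟩ (.bad)
      (.typ 0)), (242, .sj ⟨32, 3, 0, 0⟩ (.bad) (.typ 0)), (245, .bad)],
    [],
    [(3, .sj ⟨9, 1, 0, 0⟩ (.typ 1) (.bad)), (6, .sj ⟨28, 2, 0, 0⟩ (.typ 0) (.bad)), (15, .sj ⟨8, 1, 0, 0⟩
      (.typ 1) (.sj ⟨11, 1, 0, 0⟩ (.bad) (.typ 0))), (61, .sj ⟨35, 3, 0, 0⟩ (.bad) (.bad)), (64, .sj ⟨35, 3,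
      0, 0⟩ (.bad) (.typ 0)), (67, .sj ⟨51, 4, 0, 0⟩ (.typ 0) (.sj ⟨75, 6, 0, 0⟩ (.typ 1) (.bad))), (74, .sj
      ⟨55, 4, 0, 0⟩ (.typ 0) (.bad)), (232, .sj ⟨23, 2, 0, 0⟩ (.typ 0) (.sj ⟨47, 4, 0, 0⟩ (.typ 1) (.bad))),
      (235, .sj ⟨19, 2, 0, 0⟩ (.bad) (.typ 1)), (242, .sj ⟨15, 2, 0, 0⟩ (.bad) (.typ 1)), (245, .bad)]⟩, by
  decide +kernel⟩

end Pool.Agent.Lib.MP_1fc36f_co.H40L
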