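import Pool.Agent.Lib.MP_1fc36f_co.H40Cs

/-! Certificates for the claims 66 to 71. -/

namespace Pool.Agent.Lib.MP_1fc36f_co.H40L

theorem c66 : ∃ t, chk gr cs 66 t = true := ⟨.leaf ⟨[⟨[90, 92, 94, 336, 352, 354, 356], 1, true, false, ⟨0, 1,
      0, 0⟩, .z, 0, 0⟩, ⟨[96, 98, 100], 30, false, false, ⟨0, 1, 0, 0⟩, .z, 0, 0⟩],
    [[0, 1]], [[1], [0]],
    [],
    [(40, .bad), (46, .bad), (49, .bad), (52, .bad), (55, .bad), (58, .bad), (171, .bad), (177, .bad), (180,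
      .bad), (183, .bad), (186, .bad), (189, .sj ⟨28, 2, 0, 0⟩ (.bad) (.typ 0)), (192, .bad), (195, .bad),
      (198, .bad), (201, .bad), (220, .sj ⟨10, 1, 0, 0⟩ (.bad) (.typ 0)), (223, .sj ⟨10, 1, 0, 0⟩ (.bad) (.typ
      0))],
    [],
    [(58, .sj ⟨22, 2, 0, 0⟩ (.bad) (.typ 0))]⟩, by
  decide +kernel⟩

theorem c67 : ∃ t, chk gr cs 67 t = true := ⟨.leaf ⟨[⟨[4, 6, 8], 0, false, false, ⟨0, 1, 0, 0⟩, .z, 0, 0⟩,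
      ⟨[0, 16, 18, 20], 1, false, false, ⟨0, 1, 0, 0⟩, .z, 0, 0⟩, ⟨[431, 429, 427, 432, 434, 436], 30, true,
      false, ⟨0, 1, 0, 0⟩, .z, 0, 0⟩, ⟨[0], 68, false, false, ⟨0, 0, 1, 0⟩, ⟨0, 0, 0, 1⟩, 0, 0⟩],
    [[0, 1], [2, 3]], [[1, 2], [0, 2], [0, 3]],
    [(183, .sx ⟨-1, 0, 0, 0⟩ (.typ 1) (.bad)), (239, .sx ⟨-1, 0, 0, 0⟩ (.typ 1) (.bad)), (240, .sx .z (.typ 1)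
      (.bad)), (241, .sx ⟨1, 0, 0, 0⟩ (.typ 1) (.bad)), (242, .sx ⟨2, 0, 0, 0⟩ (.typ 1) (.bad))],
    [(3, .bad), (9, .bad), (27, .sj ⟨12, 1, 0, 0⟩ (.bad) (.typ 0)), (30, .bad), (61, .sj ⟨17, 1, 1, 0⟩ (.bad)
      (.sj ⟨39, 3, 0, 0⟩ (.bad) (.typ 0))), (67, .sj ⟨64, 5, 0, 0⟩ (.typ 0) (.bad)), (220, .sj ⟨39, 3, 0, 0⟩
      (.typ 0) (.bad)), (226, .sj ⟨37, 3, 0, 0⟩ (.typ 0) (.bad)), (232, .sj ⟨36, 3, 0, 0⟩ (.typ 0) (.sj ⟨58,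
      5, -1, 0⟩ (.typ 1) (.bad))), (235, .sj ⟨1, 0, 1, 0⟩ (.bad) (.sj ⟨97, 8, 0, 0⟩ (.typ 1) (.typ 0))), (242,
      .sj ⟨-3, 0, 1, 0⟩ (.bad) (.typ 1)), (245, .bad)],
    [(6, .sy ⟨9, 1, 0, 0⟩ (.typ 2) (.bad)), (73, .sy ⟨10, 1, 0, 0⟩ (.typ 2) (.bad)), (84, .sy ⟨8, 1, 0, 0⟩
      (.typ 2) (.bad)), (86, .sy ⟨8, 1, 0, 0⟩ (.typ 2) (.bad)), (227, .sy ⟨10, 1, 0, 0⟩ (.typ 2) (.bad)),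
      (231, .sy ⟨10, 1, 0, 0⟩ (.typ 2) (.bad))],
    [(9, .sj ⟨1, 0, 0, 1⟩ (.bad) (.sj ⟨20, 2, 0, -1⟩ (.typ 2) (.bad))), (27, .sj ⟨8, 1, 0, -1⟩ (.sj ⟨-9, -1,
      0, 1⟩ (.bad) (.typ 2)) (.sj ⟨12, 1, 0, 0⟩ (.bad) (.typ 0))), (30, .sj ⟨8, 1, 0, -1⟩ (.sj ⟨-9, -1, 0, 1⟩
      (.bad) (.typ 2)) (.bad)), (220, .sj ⟨62, 5, 0, -1⟩ (.typ 2) (.bad)), (226, .sj ⟨60, 5, 0, -1⟩ (.typ 2)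
      (.bad))]⟩, by
  decide +kernel⟩

theorem c68 : ∃ t, chk gr cs 68 t = true := ⟨.sy .z (.sx .z (.triv) (.leaf ⟨[⟨[1, 4, 6, 8], 0, false, false,
      ⟨0, 1, 0, 0⟩, .z, 0, 0⟩, ⟨[16, 18, 20], 1, false, false, ⟨0, 1, 0, 0⟩, .z, 0, 0⟩, ⟨[28, 30, 32], 70,
      false, false, ⟨0, 0, 1, 0⟩, ⟨0, 0, 0, 1⟩, 0, 0⟩, ⟨[34, 36, 38], 69, false, false, ⟨-2, 0, 1, 0⟩, ⟨13, 1,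
      0, 0⟩, 2, 0⟩],
    [[0, 1], [1, 2, 3]], [[1], [0, 3], [0, 2]],
    [(240, .sx ⟨1, 0, 0, 0⟩ (.typ 1) (.bad)), (241, .sx ⟨2, 0, 0, 0⟩ (.typ 1) (.bad)), (242, .sx ⟨3, 0, 0, 0⟩
      (.typ 1) (.bad))],
    [(3, .sj ⟨1, 0, 0, 0⟩ (.bad) (.sj ⟨21, 2, -1, 0⟩ (.typ 1) (.bad))), (9, .bad), (27, .bad), (30, .bad),
      (61, .bad), (67, .sj ⟨9, 1, 0, 0⟩ (.typ 0) (.sj ⟨63, 5, 0, 0⟩ (.typ 0) (.sj ⟨87, 7, -1, 0⟩ (.typ 1)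
      (.bad)))), (220, .sj ⟨40, 3, 0, 0⟩ (.typ 0) (.bad)), (226, .sj ⟨38, 3, 0, 0⟩ (.typ 0) (.bad)), (232, .sj
      ⟨35, 3, 0, 0⟩ (.typ 0) (.sj ⟨59, 5, -1, 0⟩ (.typ 1) (.bad))), (235, .sj ⟨0, 0, 1, 0⟩ (.bad) (.sj ⟨98, 8,
      0, 0⟩ (.typ 1) (.typ 0))), (242, .sj ⟨-4, 0, 1, 0⟩ (.bad) (.typ 1)), (245, .bad)],
    [],
    [(27, .sj ⟨8, 1, 0, -1⟩ (.typ 2) (.typ 1))]⟩)) (.leaf ⟨[⟨[1, 4, 6, 8], 0, false, false, ⟨0, 1, 0, 0⟩, .z,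
      0, 0⟩, ⟨[16, 18, 20], 1, false, false, ⟨0, 1, 0, 0⟩, .z, 0, 0⟩, ⟨[28, 30, 32], 70, false, false, ⟨0, 0,
      1, 0⟩, ⟨-1, 0, 0, 1⟩, 0, 2⟩],
    [[0, 1], [1, 2]], [[1], [0, 2]],
    [(177, .sx ⟨-1, 0, 0, 0⟩ (.typ 1) (.bad)), (178, .sx ⟨-1, 0, 0, 0⟩ (.typ 1) (.bad)), (181, .sx ⟨-1, 0, 0,
      0⟩ (.typ 1) (.bad)), (182, .sx ⟨-1, 0, 0, 0⟩ (.typ 1) (.bad)), (183, .sx .z (.typ 1) (.bad)), (185, .sx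
      ⟨-1, 0, 0, 0⟩ (.typ 1) (.bad)), (236, .sx ⟨-1, 0, 0, 0⟩ (.typ 1) (.bad)), (238, .sx ⟨-1, 0, 0, 0⟩ (.typ
      1) (.bad)), (239, .sx .z (.typ 1) (.bad)), (240, .sx ⟨1, 0, 0, 0⟩ (.typ 1) (.bad)), (241, .sx ⟨2, 0, 0,
      0⟩ (.typ 1) (.bad)), (242, .sx ⟨3, 0, 0, 0⟩ (.typ 1) (.bad))],
    [(3, .sj ⟨1, 0, 0, 0⟩ (.typ 1) (.sj ⟨21, 2, -1, 0⟩ (.typ 1) (.bad))), (9, .bad), (27, .bad), (30, .bad),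
      (61, .bad), (67, .sj ⟨9, 1, 0, 0⟩ (.typ 0) (.sj ⟨63, 5, 0, 0⟩ (.typ 0) (.sj ⟨87, 7, -1, 0⟩ (.typ 1)
      (.bad)))), (220, .sj ⟨40, 3, 0, 0⟩ (.typ 0) (.bad)), (226, .sj ⟨38, 3, 0, 0⟩ (.typ 0) (.bad)), (232, .sj
      ⟨35, 3, 0, 0⟩ (.typ 0) (.sj ⟨59, 5, -1, 0⟩ (.typ 1) (.bad))), (235, .sj ⟨0, 0, 1, 0⟩ (.bad) (.sj ⟨100,
      8, 0, 0⟩ (.typ 1) (.typ 0))), (242, .sj ⟨-4, 0, 1, 0⟩ (.bad) (.typ 1)), (245, .bad)],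
    [(6, .sy ⟨10, 1, 0, 0⟩ (.typ 1) (.bad)), (73, .sy ⟨11, 1, 0, 0⟩ (.typ 1) (.bad)), (84, .sy ⟨9, 1, 0, 0⟩
      (.typ 1) (.bad)), (86, .sy ⟨11, 1, 0, 0⟩ (.typ 1) (.bad)), (227, .sy ⟨11, 1, 0, 0⟩ (.typ 1) (.bad)),
      (231, .sy ⟨11, 1, 0, 0⟩ (.typ 1) (.bad))],
    [(9, .sj ⟨21, 2, 0, -1⟩ (.typ 1) (.bad)), (27, .sj ⟨9, 1, 0, -1⟩ (.sj ⟨-10, -1, 0, 1⟩ (.bad) (.typ 1))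
      (.sj ⟨11, 1, 0, 0⟩ (.bad) (.typ 0))), (30, .sj ⟨11, 1, 0, -1⟩ (.sj ⟨-12, -1, 0, 1⟩ (.bad) (.typ 1))
      (.bad)), (220, .sj ⟨40, 3, 0, 0⟩ (.typ 0) (.sj ⟨63, 5, 0, -1⟩ (.typ 1) (.bad))), (226, .sj ⟨38, 3, 0, 0⟩
      (.typ 0) (.sj ⟨61, 5, 0, -1⟩ (.typ 1) (.bad)))]⟩), by
  decide +kernel⟩

theorem c69 : ∃ t, chk gr cs 69 t = true := ⟨.leaf ⟨[⟨[46, 48, 50, 215, 213], 3, false, false, ⟨0, 1, 0, 0⟩,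
      .z, 0, 0⟩, ⟨[46, 48, 50], 11, false, false, ⟨0, 1, 0, 0⟩, .z, 0, 0⟩, ⟨[40, 42, 44, 10, 12, 14, 151, 149,
      147, 145, 143, 141, 139, 282, 293, 285], 41, false, false, ⟨0, 1, 0, 0⟩, .z, 0, 0⟩, ⟨[40, 42, 44], 70,
      false, false, ⟨0, 0, 1, 0⟩, ⟨0, 0, 0, 1⟩, 0, 0⟩],
    [[0, 3], [1, 2]], [[0, 1], [2, 3]],
    [],
    [(3, .sj ⟨31, 3, -1, 0⟩ (.typ 0) (.bad)), (6, .bad), (12, .bad), (15, .sj ⟨8, 1, 0, 0⟩ (.typ 0) (.bad)),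
      (21, .bad), (24, .bad), (27, .bad), (30, .bad), (33, .bad), (36, .bad), (37, .sj ⟨17, 1, 0, 0⟩ (.bad)
      (.sj ⟨20, 1, 0, 0⟩ (.bad) (.typ 0))), (49, .sj ⟨3, 1, 0, 0⟩ (.typ 0) (.bad)), (52, .sj ⟨17, 1, 0, 0⟩
      (.bad) (.sj ⟨44, 3, 0, 0⟩ (.bad) (.typ 0))), (55, .bad), (58, .sj ⟨18, 1, 0, 0⟩ (.bad) (.typ 0)), (61,
      .bad), (64, .sj ⟨30, 2, 0, 0⟩ (.bad) (.sj ⟨31, 2, 0, 0⟩ (.bad) (.sj ⟨32, 2, 0, 0⟩ (.bad) (.sj ⟨71, 5, 0,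
      0⟩ (.bad) (.typ 0))))), (67, .sj ⟨97, 8, -1, 0⟩ (.typ 0) (.bad)), (74, .bad), (220, .sj ⟨48, 4, 0, 0⟩
      (.typ 0) (.typ 1)), (226, .sj ⟨46, 4, 0, 0⟩ (.typ 0) (.typ 1)), (232, .sj ⟨69, 6, -1, 0⟩ (.typ 0)
      (.bad)), (245, .sj ⟨4, 1, -1, 0⟩ (.typ 0) (.bad))],
    [],
    [(24, .sj ⟨21, 2, 0, -1⟩ (.typ 1) (.bad)), (27, .sj ⟨18, 2, 0, -1⟩ (.typ 1) (.typ 0)), (30, .sj ⟨20, 2, 0,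
      -1⟩ (.typ 1) (.bad)), (33, .sj ⟨7, 1, 0, 0⟩ (.bad) (.sj ⟨12, 1, 0, 0⟩ (.bad) (.typ 0))), (220, .sj ⟨48,
      4, 0, 0⟩ (.typ 0) (.typ 1)), (226, .sj ⟨46, 4, 0, 0⟩ (.typ 0) (.typ 1))]⟩, by
  decide +kernel⟩

theorem c70 : ∃ t, chk gr cs 70 t = true := ⟨.leaf ⟨[⟨[33, 31, 29, 16, 18, 20], 1, false, false, ⟨0, 1, 0, 0⟩,
      .z, 0, 0⟩, ⟨[2, 22, 24, 26], 2, false, false, ⟨0, 1, 0, 0⟩, .z, 0, 0⟩, ⟨[2, 70, 72, 74, 76], 71, false,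
      false, ⟨0, 0, 1, 0⟩, ⟨0, 0, 0, 1⟩, 0, 0⟩, ⟨[10, 12, 14], 60, false, false, ⟨0, 1, 0, 0⟩, .z, 0, 0⟩, ⟨[],
      62, false, false, ⟨0, 1, 0, 0⟩, .z, 0, 0⟩],
    [[1, 4], [1, 3], [0, 2]], [[1, 2], [0, 3, 4], [2, 3, 4]],
    [],
    [(6, .bad), (12, .bad), (27, .sj ⟨27, 2, 0, 0⟩ (.typ 0) (.bad)), (33, .sj ⟨15, 1, 0, 0⟩ (.typ 0) (.bad)),
      (52, .sj ⟨12, 1, 0, 0⟩ (.bad) (.typ 0)), (55, .sj ⟨12, 1, 0, 0⟩ (.bad) (.typ 0)), (61, .sj ⟨23, 2, -1,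
      0⟩ (.typ 2) (.bad)), (64, .sj ⟨39, 3, 0, 0⟩ (.bad) (.typ 1)), (74, .sj ⟨24, 2, 0, 0⟩ (.typ 0) (.sj ⟨25,
      2, 0, 0⟩ (.typ 1) (.bad)))],
    [(7, .sy ⟨9, 1, 0, 0⟩ (.typ 2) (.bad)), (75, .sy ⟨10, 1, 0, 0⟩ (.typ 2) (.bad)), (85, .sy ⟨10, 1, 0, 0⟩
      (.typ 2) (.bad)), (89, .sy ⟨10, 1, 0, 0⟩ (.typ 2) (.bad)), (101, .sy ⟨10, 1, 0, 0⟩ (.typ 2) (.bad)),
      (103, .sy ⟨8, 1, 0, 0⟩ (.typ 2) (.bad))],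
    [(12, .sj ⟨1, 0, 0, 1⟩ (.bad) (.sj ⟨20, 2, 0, -1⟩ (.typ 2) (.bad))), (27, .sj ⟨27, 2, 0, 0⟩ (.typ 0) (.sj
      ⟨50, 4, 0, -1⟩ (.typ 2) (.bad))), (33, .sj ⟨15, 1, 0, 0⟩ (.typ 0) (.sj ⟨38, 3, 0, -1⟩ (.typ 2) (.bad))),
      (52, .sj ⟨-11, -1, 0, 1⟩ (.bad) (.sj ⟨16, 1, 0, 0⟩ (.typ 2) (.typ 1))), (55, .sj ⟨8, 1, 0, -1⟩ (.sj ⟨-9,
      -1, 0, 1⟩ (.bad) (.typ 2)) (.bad))]⟩, by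
  decide +kernel⟩

theorem c71 : ∃ t, chk gr cs 71 t = true := ⟨.leaf ⟨[⟨[78, 80, 82, 340, 342, 344], 0, true, false, ⟨0, 1, 0,
      0⟩, .z, 0, 0⟩, ⟨[84, 86, 88, 96, 98, 100], 30, false, false, ⟨0, 1, 0, 0⟩, .z, 0, 0⟩, ⟨[78, 80, 82], 67,
      true, false, ⟨0, 0, 1, 0⟩, ⟨0, 0, 0, 1⟩, 0, 0⟩, ⟨[84, 86, 88], 66, false, false, ⟨0, 1, 0, 0⟩, .z, 0,
      0⟩],
    [[0, 1], [2, 3]], [[1, 3], [0, 3], [0, 2]],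
    [],
    [(6, .sj ⟨10, 1, 0, 0⟩ (.bad) (.sj ⟨11, 1, 0, 0⟩ (.bad) (.typ 1))), (12, .bad), (15, .sj ⟨28, 2, 0, 0⟩
      (.typ 0) (.bad)), (21, .sj ⟨18, 1, 0, 0⟩ (.typ 0) (.bad)), (27, .sj ⟨15, 1, 0, 0⟩ (.typ 0) (.bad)), (33,
      .sj ⟨3, 0, 0, 0⟩ (.typ 0) (.bad)), (36, .bad), (40, .bad), (43, .bad), (46, .bad), (49, .bad), (52,
      .bad), (55, .bad), (58, .bad), (64, .sj ⟨17, 2, -1, 0⟩ (.typ 1) (.bad)), (67, .sj ⟨42, 3, 1, 0⟩ (.bad)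
      (.typ 1)), (74, .sj ⟨38, 3, 1, 0⟩ (.bad) (.typ 1)), (77, .bad), (171, .bad), (174, .bad), (177, .bad),
      (183, .bad), (186, .bad), (189, .bad), (192, .bad), (195, .bad), (198, .bad), (201, .bad), (229, .bad),
      (232, .sj ⟨15, 1, 1, 0⟩ (.bad) (.sj ⟨37, 3, 0, 0⟩ (.bad) (.typ 0))), (235, .sj ⟨23, 2, 0, 0⟩ (.typ 0)
      (.bad)), (242, .sj ⟨27, 2, 0, 0⟩ (.typ 0) (.bad))],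
    [],
    [(6, .sj ⟨35, 3, 0, 0⟩ (.typ 1) (.typ 0)), (43, .typ 2), (46, .bad), (49, .typ 2), (52, .sj ⟨24, 2, 0, 0⟩
      (.typ 1) (.typ 0)), (58, .sj ⟨19, 2, 0, -1⟩ (.typ 2) (.bad))]⟩, by
  decide +kernel⟩

end Pool.Agent.Lib.MP_1fc36f_co.H40L
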