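import Pool.Agent.Lib.MP_1fc36f_co.H40Pf1
import Pool.Agent.Lib.MP_1fc36f_co.H40Pf2
import Pool.Agent.Lib.MP_1fc36f_co.H40Pf3
import Pool.Agent.Lib.MP_1fc36f_co.H40Pf4

/-! Two cops need a cubic number of rounds on the graphs of the family. -/

namespace Pool.Agent.Lib.MP_1fc36f_co.H40L

open Pool.Agent.Lib.MP_1fc36f_co.H40 Pool.Agent.Lib.MP_1fc36f_co.H39

theorem cs_all (i : ℕ) (h : i < cs.length) : ∃ t, chk gr cs i t = true := by
  rw [cs_len] at h
  interval_cases i
  exacts [c0, c1, c2, c3, c4, c5, c6, c7, c8, c9, c10, c11, c12, c13, c14, c15, c16, c17, c18, c19, c20, c21,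
      c22, c23, c24, c25, c26, c27, c28, c29, c30, c31, c32, c33, c34, c35, c36, c37, c38, c39, c40, c41, c42,
      c43, c44, c45, c46, c47, c48, c49, c50, c51, c52, c53, c54, c55, c56, c57, c58, c59, c60, c61, c62, c63,
      c64, c65, c66, c67, c68, c69, c70, c71]

/-- The lower bound for the capture time. -/
theorem lower {H : ℕ} (h : 24 ≤ H) (hH : 5 ≤ H) {t : ℕ} (ht : CaptureWithin (W H hH).G 2 t) :
    H ^ 3 ≤ 8 * t :=
  slow_W cs_ok cs_all cs_start h hH ht

end Pool.Agent.Lib.MP_1fc36f_co.H40L
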