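import Pool.Agent.Lib.MP_1fc36f_co.H40Tab

/-! The robber survives for a long time against two cops, and forever against one. -/

namespace Pool.Agent.Lib.MP_1fc36f_co.H40

open WG

set_option linter.unreachableTactic false
set_option linter.unusedTactic false

variable {P : Par}

theorem rf (e : FE) : Reach (W P).G (.inl (tgtF P e)) (lenF P e) (nd P (srcF e)) :=
  reach_fw (W := W P) (fe P e)

theorem rb (e : FE) : Reach (W P).G (nd P (srcF e)) (lenF P e) (.inl (tgtF P e)) :=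
  reach_bw (W := W P) (fe P e)

theorem r_ha_c1 : Reach (W P).G (cl P 1) 3 (nd P .ha) :=
  reach_fw (W := W P) (sp P ⟨1, by have := P.hK; omega⟩)

theorem r_c1_ha : Reach (W P).G (nd P .ha) 3 (cl P 1) :=
  reach_bw (W := W P) (sp P ⟨1, by have := P.hK; omega⟩)

theorem r_hb_c0 : Reach (W P).G (cl P 0) 3 (nd P .hb) :=
  reach_fw (W := W P) (sp P ⟨0, by have := P.hK; omega⟩)

theorem r_c0_hb : Reach (W P).G (nd P .hb) 3 (cl P 0) :=
  reach_bw (W := W P) (sp P ⟨0, by have := P.hK; omega⟩)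

theorem m01 : Move (W P).G (cl P 0) (cl P 1) := move_cl_succ (by have := P.hK; omega)

/-- The potential of the leg that ends at the cell `τ`. -/
def gz (τ : ℕ) (v : (W P).V) : ℤ := if τ = 1 then gl .e1 v else gl .e2 v

/-- No cop stands on a cell below `i` with the parity `τ`. -/
def Inv (τ i : ℕ) (v : (W P).V) : Prop := ix v < 0 ∨ i ≤ ix v ∨ ix v % 2 ≠ τ

/-- The position guards both hubs or both upper ends of the legs. -/
def Good (τ : ℕ) (v : (W P).V) : Prop :=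
  (Do1 P v ≤ 12 - τ ∧ Do4 P v ≤ 11 + τ) ∨ (Dh1 P v ≤ P.t + 5 - τ ∧ Dh2 P v ≤ P.t + 4 + τ)

theorem gl_le (e0 : FE) (v : (W P).V) : gl e0 v ≤ P.t + 3 := by
  rcases v with x | y
  · exact le_rfl
  · simp only [gl]; omega

theorem gl_leg {e0 : FE} (h : lenF P e0 = P.t + 4) {j : ℕ} (hj : j ≤ P.t + 3) :
    gl e0 ((W P).pt (fe P e0) j) = P.t + 3 - j := by
  rcases Nat.eq_zero_or_pos j with rfl | h0
  · rw [pt_zero]; simp [gl]
  · rw [gl_pt e0 h0 (by simp only [len]; omega), if_pos rfl]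

theorem gl_lip {e0 : FE} (h : lenF P e0 = P.t + 4) {c c' : (W P).V} (hm : Move (W P).G c c')
    (hc : c ≠ .inl (tgtF P e0)) : gl e0 c ≤ gl e0 c' + 1 := by
  have k := gl_le e0 c
  rcases vert_cases c' with ⟨x, rfl⟩ | ⟨e, j, h0, hj, rfl⟩
  · simp only [gl] at *; omega
  by_cases he : e = fe P e0
  swap
  · rw [gl_pt e0 h0 hj, if_neg he]; omega
  subst he
  have hj' : j < P.t + 4 := h ▸ hj
  rw [gl_leg h (by omega)]
  rcases move_mid h0 hj c hm.symm with rfl | rfl | rfl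
  · rw [gl_leg h (by omega)]; omega
  · rw [gl_leg h (by omega)]; omega
  · by_cases c : j + 1 ≤ P.t + 3
    · rw [gl_leg h c]; omega
    · exact absurd (pt_ge (by simp only [len]; omega)) hc

theorem gz_lip {τ : ℕ} (hτ : τ ≤ 1) {c c' : (W P).V} (hm : Move (W P).G c c') (hc : c ≠ cl P τ) :
    gz τ c ≤ gz τ c' + 1 := by
  rcases (by omega : τ = 0 ∨ τ = 1) with rfl | rfl
  · exact gl_lip (e0 := .e2) rfl hm hc
  · exact gl_lip (e0 := .e1) rfl hm hc

theorem ix_cases (v : (W P).V) : ix v < 0 ∨ ∃ j, j ≤ P.K ∧ v = cl P j := by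
  rcases v with (x | i) | y
  · exact Or.inl (by simp [ix])
  · exact Or.inr ⟨i, by omega, congrArg _ (cel_fin i)⟩
  · exact Or.inl (by simp [ix])

theorem good_ix {τ : ℕ} (hτ : τ ≤ 1) {v : (W P).V} (h : Good τ v) :
    (ix v < 0 ∨ (P.K : ℤ) - 2 ≤ ix v ∨ ix v % 2 = τ) ∧ 0 < gz (1 - τ) v := by
  rcases (by omega : τ = 0 ∨ τ = 1) with rfl | rfl
  · exact (facts v).x0 (by unfold Good at h; omega)
  · exact (facts v).x1 (by unfold Good at h; omega)

theorem good_sp {τ : ℕ} (hτ : τ ≤ 1) (i : Fin P.K) (hi : (i : ℕ) + 4 ≤ P.K) :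
    ¬ Good τ ((W P).pt (sp P i) 2) := by
  have := (facts_sp i (j := 2) (by omega) (by omega)).2 rfl hi
  unfold Good; omega

/-- Where a cop comes from when he enters a low cell. -/
theorem enter {τ i : ℕ} (hτ : τ ≤ 1) (hi : i + 3 ≤ P.K) {c c' : (W P).V} (hg : Good τ c)
    (hI : Inv τ i c) (hm : Move (W P).G c c') :
    (0 < gz τ c → Inv τ i c') ∧ Inv (1 - τ) (i - 1) c' := by
  obtain ⟨g1, g2⟩ := good_ix hτ hg
  unfold Inv at *
  rcases ix_cases c' with k | ⟨j, hj, rfl⟩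
  · exact ⟨fun _ => Or.inl k, Or.inl k⟩
  rw [ix_cl hj]
  by_cases hji : i ≤ j
  · omega
  have hjK : j < P.K := by clear hm; omega
  rcases move_cl hjK hm.symm with rfl | rfl | ⟨_, rfl⟩ | rfl | ⟨rfl, rfl⟩ | ⟨rfl, rfl⟩
  · rw [ix_cl hj] at g1 hI; omega
  · rw [ix_cl (by omega)] at g1 hI; omega
  · rw [ix_cl (by omega)] at g1 hI; omega
  · exact absurd hg (good_sp hτ _ (by simp only; omega))
  · have := gl_leg (P := P) (e0 := .e1) rfl le_rfl
    unfold gz at *
    omega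
  · have := gl_leg (P := P) (e0 := .e2) rfl le_rfl
    unfold gz at *
    omega

theorem Inv.ne {τ i : ℕ} (hτ : τ ≤ 1) (hi : 2 ≤ i) {c : (W P).V} (h : Inv τ i c) : c ≠ cl P τ := by
  have := P.hK
  rintro rfl
  unfold Inv at h
  rw [ix_cl (by omega)] at h
  omega

/-- The claim for the robber on one of the two lowest cells. -/
def Zs (P : Par) (N : ℕ) : Prop := ∀ τ m : ℕ, τ ≤ 1 → m + 6 ≤ P.K → ∀ a b : (W P).V,
  Inv τ (m + 3) a → Inv τ (m + 3) b → (N : ℤ) + 1 ≤ m * (P.t + 3) + gz τ a →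
  (N : ℤ) + 1 ≤ m * (P.t + 3) + gz τ b → RS (W P).G N a b (cl P τ)

/-- All claims for the number `N` of rounds. -/
structure All (P : Par) (N : ℕ) : Prop where
  o1 : Go (W P).G N (Do1 P) 0 (nd P .o1)
  o2 : Go (W P).G N (Do2 P) 0 (nd P .o2)
  o3 : Go (W P).G N (Do3 P) 0 (nd P .o3)
  o4 : Go (W P).G N (Do4 P) 0 (nd P .o4)
  q1 : Go (W P).G N (Dq1 P) 0 (nd P .q1)
  q2 : Go (W P).G N (Dq2 P) 0 (nd P .q2)
  q3 : Go (W P).G N (Dq3 P) 0 (nd P .q3)
  q4 : Go (W P).G N (Dq4 P) 0 (nd P .q4)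
  ce : Go (W P).G N (Dce P) 0 (nd P .ce)
  h1 : Go (W P).G N (Dh1 P) 0 (nd P .h1)
  h2 : Go (W P).G N (Dh2 P) 0 (nd P .h2)
  z : Zs P N

variable {N : ℕ}

theorem z_guard (ih : ∀ N', N' < N → All P N') {τ m : ℕ} (hτ : τ ≤ 1) (hm : m + 6 ≤ P.K)
    {a b : (W P).V} (ia : Inv τ (m + 3) a) (ib : Inv τ (m + 3) b)
    (pa : (N : ℤ) + 1 ≤ m * (P.t + 3) + gz τ a) (pb : (N : ℤ) + 1 ≤ m * (P.t + 3) + gz τ b)
    (xa : Do1 P a ≤ 12 - τ ∧ Do4 P a ≤ 11 + τ) (gb : Good τ b) :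
    RS (W P).G N a b (cl P τ) := by
  have ga : Good τ a := Or.inl xa
  have na := ia.ne hτ (by omega)
  have nb := ib.ne hτ (by omega)
  obtain ⟨l1, l2⟩ := (facts a).leg (by omega) (by omega)
  obtain ⟨l3, l4, l5⟩ := (facts b).pot
  have ea : ∀ σ, gz σ a = P.t + 3 := fun σ => by unfold gz; omega
  by_cases c : 0 < gz τ b
  · refine ⟨na, nb, _, Move.refl _, not_win2 na nb fun N' hN a' b' h1 h2 => ?_⟩
    have := gz_lip hτ h1 na
    have := gz_lip hτ h2 nb
    exact (ih N' (by omega)).z τ m hτ hm a' b' ((enter hτ hm ga ia h1).1 (by rw [ea]; omega))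
      ((enter hτ hm gb ib h2).1 c) (by omega) (by omega)
  · obtain ⟨m, rfl⟩ : ∃ k, m = k + 1 := by
      rcases m with _ | m
      · simp at pb; omega
      · exact ⟨m, rfl⟩
    have e : ((m + 1 : ℕ) : ℤ) * (P.t + 3) = m * (P.t + 3) + (P.t + 3) := by push_cast; ring
    have eb : gz (1 - τ) b = P.t + 3 := by unfold gz at *; omega
    have ne : ∀ v, Good τ v → v ≠ cl P (1 - τ) := by
      rintro v hv rfl
      have := (good_ix hτ hv).1
      rw [ix_cl (by omega)] at this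
      omega
    refine ⟨na, nb, cl P (1 - τ), ?_, not_win2 (ne a ga) (ne b gb) fun N' hN a' b' h1 h2 => ?_⟩
    · rcases (by omega : τ = 0 ∨ τ = 1) with rfl | rfl
      exacts [m01, m01.symm]
    have := gz_lip (τ := 1 - τ) (by omega) h1 (ne a ga)
    have := gz_lip (τ := 1 - τ) (by omega) h2 (ne b gb)
    have := ea (1 - τ)
    exact (ih N' (by omega)).z (1 - τ) m (by omega) (by omega) a' b' (enter hτ hm ga ia h1).2
      (enter hτ hm gb ib h2).2 (by omega) (by omega)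

theorem role_logic {Aa Ab Ba Bb Ha Hb Ia Ib : Prop} (h1 : Aa ∨ Ab) (h2 : Ba ∨ Bb) (h3 : Ha ∨ Hb)
    (h4 : Ia ∨ Ib) (za : Aa → Ha ∨ Ia → False) (zb : Ab → Hb ∨ Ib → False)
    (ya : Ha → Ia → Ba → False) (yb : Hb → Ib → Bb → False) :
    (Aa ∧ Ba ∧ Hb ∧ Ib) ∨ (Ab ∧ Bb ∧ Ha ∧ Ia) := by tauto

theorem step_z (ih : ∀ N', N' < N → All P N') : Zs P N := by
  have ht := P.ht
  intro τ m hτ hm a b ia ib pa pb
  have fa := facts a
  have fb := facts b
  have key : Go (W P).G N (Do1 P) (12 - τ) (cl P τ) ∧ Go (W P).G N (Do4 P) (11 + τ) (cl P τ) ∧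
      Go (W P).G N (Dh1 P) (P.t + 5 - τ) (cl P τ) ∧ Go (W P).G N (Dh2 P) (P.t + 4 + τ) (cl P τ) := by
    rcases (by omega : τ = 0 ∨ τ = 1) with rfl | rfl
    · exact ⟨go lip_o1 le_rfl (((rf .ra).trans r_c1_ha).trans (.one m01)) rfl (by omega)
          fun _ h => (ih _ h).o1,
        go lip_o4 le_rfl ((rf .rb).trans r_c0_hb) rfl (by omega) fun _ h => (ih _ h).o4,
        go lip_h1 le_rfl ((rb .e1).trans (.one m01)) (by first | rfl | (simp only [lenF]; omega)) (by omega)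
          fun _ h => (ih _ h).h1,
        go lip_h2 le_rfl (rb .e2) (by first | rfl | (simp only [lenF]; omega)) (by omega) fun _ h => (ih _ h).h2⟩
    · exact ⟨go lip_o1 le_rfl ((rf .ra).trans r_c1_ha) rfl (by omega) fun _ h => (ih _ h).o1,
        go lip_o4 le_rfl (((rf .rb).trans r_c0_hb).trans (.one m01.symm)) rfl (by omega)
          fun _ h => (ih _ h).o4,
        go lip_h1 le_rfl (rb .e1) (by first | rfl | (simp only [lenF]; omega)) (by omega) fun _ h => (ih _ h).h1,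
        go lip_h2 le_rfl ((rb .e2).trans (.one m01.symm)) (by first | rfl | (simp only [lenF]; omega)) (by omega)
          fun _ h => (ih _ h).h2⟩
  obtain ⟨k1, k2, k3, k4⟩ := key
  by_cases c1 : 12 - τ < Do1 P a ∧ 12 - τ < Do1 P b
  · exact k1 a b c1.1 c1.2
  by_cases c2 : 11 + τ < Do4 P a ∧ 11 + τ < Do4 P b
  · exact k2 a b c2.1 c2.2
  by_cases c3 : P.t + 5 - τ < Dh1 P a ∧ P.t + 5 - τ < Dh1 P b
  · exact k3 a b c3.1 c3.2
  by_cases c4 : P.t + 4 + τ < Dh2 P a ∧ P.t + 4 + τ < Dh2 P b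
  · exact k4 a b c4.1 c4.2
  have role : ((Do1 P a ≤ 12 - τ ∧ Do4 P a ≤ 11 + τ) ∧
        (Dh1 P b ≤ P.t + 5 - τ ∧ Dh2 P b ≤ P.t + 4 + τ)) ∨
      ((Do1 P b ≤ 12 - τ ∧ Do4 P b ≤ 11 + τ) ∧ (Dh1 P a ≤ P.t + 5 - τ ∧ Dh2 P a ≤ P.t + 4 + τ)) := by
    unfold Inv at ia ib
    rcases (by omega : τ = 0 ∨ τ = 1) with rfl | rfl
    · have := role_logic (Aa := Do4 P a ≤ 11) (Ab := Do4 P b ≤ 11) (Ba := Do1 P a ≤ 12)
        (Bb := Do1 P b ≤ 12) (Ha := Dh1 P a ≤ P.t + 5) (Hb := Dh1 P b ≤ P.t + 5)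
        (Ia := Dh2 P a ≤ P.t + 4) (Ib := Dh2 P b ≤ P.t + 4) (by omega) (by omega) (by omega)
        (by omega) (fun h k => by have := fa.z0 h k; omega) (fun h k => by have := fb.z0 h k; omega)
        (fun h k l => by have := fa.y0 h k l; omega) fun h k l => by have := fb.y0 h k l; omega
      clear c1 c2 c3 c4 ia ib
      omega
    · have := role_logic (Aa := Do1 P a ≤ 11) (Ab := Do1 P b ≤ 11) (Ba := Do4 P a ≤ 12)
        (Bb := Do4 P b ≤ 12) (Ha := Dh1 P a ≤ P.t + 4) (Hb := Dh1 P b ≤ P.t + 4)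
        (Ia := Dh2 P a ≤ P.t + 5) (Ib := Dh2 P b ≤ P.t + 5) (by omega) (by omega) (by omega)
        (by omega) (fun h k => by have := fa.z1 h k; omega) (fun h k => by have := fb.z1 h k; omega)
        (fun h k l => by have := fa.y1 h k l; omega) fun h k l => by have := fb.y1 h k l; omega
      clear c1 c2 c3 c4 ia ib
      omega
  rcases role with ⟨r1, r2⟩ | ⟨r1, r2⟩
  · exact z_guard ih hτ hm ia ib pa pb r1 (Or.inr r2)
  · exact (z_guard ih hτ hm ib ia pb pa r1 (Or.inr r2)).swap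

theorem go_J1 (hN : (N : ℤ) + 1 ≤ (P.K - 6 : ℕ) * (P.t + 3)) (h : All P N) :
    Go (W P).G N (DJ1 P) 0 (cl P 1) := by
  have := P.hK
  intro a b ha hb
  have := (facts a).j1 ha
  have := (facts b).j1 hb
  have := (facts a).pot
  have := (facts b).pot
  exact h.z 1 (P.K - 6) le_rfl (by omega) a b (by unfold Inv; omega) (by unfold Inv; omega)
    (by unfold gz; omega) (by unfold gz; omega)

theorem go_J0 (hN : (N : ℤ) + 1 ≤ (P.K - 6 : ℕ) * (P.t + 3)) (h : All P N) :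
    Go (W P).G N (DJ0 P) 0 (cl P 0) := by
  have := P.hK
  intro a b ha hb
  have := (facts a).j0 ha
  have := (facts b).j0 hb
  have := (facts a).pot
  have := (facts b).pot
  exact h.z 0 (P.K - 6) (by omega) (by omega) a b (by unfold Inv; omega) (by unfold Inv; omega)
    (by unfold gz; omega) (by unfold gz; omega)

theorem J1_zero : DJ1 P (cl P 1) ≤ 0 := by
  have := P.hK
  simp only [ext_node, dJ1, nv_cel]
  omega

theorem J0_zero : DJ0 P (cl P 0) ≤ 0 := by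
  have := P.hK
  have : DJ0 P (cl P 0) = max 0 (((0 : ℕ) : ℤ) + 2 - P.K) := rfl
  omega

theorem step_o1 (ih : ∀ N', N' < N → All P N') :
    Go (W P).G N (Do1 P) 0 (nd P .o1) := by
  have ht := P.ht
  refine rest lip_o1 le_rfl (fun _ h => (ih _ h).o1) fun a b ha hb h1 => ?_
  have fa := (facts a).bo1 ha h1
  have fb := (facts b).ao1 hb
  by_cases c0 : P.t < Dq1 P a ∧ P.t < Dq1 P b
  · exact go lip_q1 le_rfl (rf .u1)
      (by first | rfl | (simp only [lenF]; omega)) (by omega) (fun _ h => (ih _ h).q1) a b c0.1 c0.2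
  by_cases c1 : 19 < Do4 P a ∧ 19 < Do4 P b
  · exact go lip_o4 le_rfl ((((rf .rb).trans (rb .yb)).trans (rf .ya)).trans (rb .ra))
      (by first | rfl | (simp only [lenF]; omega)) (by omega) (fun _ h => (ih _ h).o4) a b c1.1 c1.2
  by_cases c2 : 8 < Do2 P a ∧ 8 < Do2 P b
  · exact go lip_o2 le_rfl (rf .r1)
      (by first | rfl | (simp only [lenF]; omega)) (by omega) (fun _ h => (ih _ h).o2) a b c2.1 c2.2
  by_cases c3 : P.t + 15 < Dh1 P a ∧ P.t + 15 < Dh1 P b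
  · exact go lip_h1 le_rfl (((rb .e1).trans r_ha_c1).trans (rb .ra))
      (by first | rfl | (simp only [lenF]; omega)) (by omega) (fun _ h => (ih _ h).h1) a b c3.1 c3.2
  omega

theorem step_o2 (ih : ∀ N', N' < N → All P N') :
    Go (W P).G N (Do2 P) 0 (nd P .o2) := by
  have ht := P.ht
  refine rest lip_o2 le_rfl (fun _ h => (ih _ h).o2) fun a b ha hb h1 => ?_
  have fa := (facts a).bo2 ha h1
  have fb := (facts b).ao2 hb
  by_cases c0 : 8 < Do1 P a ∧ 8 < Do1 P b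
  · exact go lip_o1 le_rfl (rb .r1)
      (by first | rfl | (simp only [lenF]; omega)) (by omega) (fun _ h => (ih _ h).o1) a b c0.1 c0.2
  by_cases c1 : P.t < Dq2 P a ∧ P.t < Dq2 P b
  · exact go lip_q2 le_rfl (rf .u2)
      (by first | rfl | (simp only [lenF]; omega)) (by omega) (fun _ h => (ih _ h).q2) a b c1.1 c1.2
  by_cases c2 : 8 + P.p < Do3 P a ∧ 8 + P.p < Do3 P b
  · exact go lip_o3 le_rfl (rf .r2)
      (by first | rfl | (simp only [lenF]; omega)) (by omega) (fun _ h => (ih _ h).o3) a b c2.1 c2.2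
  omega

theorem step_o3 (ih : ∀ N', N' < N → All P N') :
    Go (W P).G N (Do3 P) 0 (nd P .o3) := by
  have ht := P.ht
  refine rest lip_o3 le_rfl (fun _ h => (ih _ h).o3) fun a b ha hb h1 => ?_
  have fa := (facts a).bo3 ha h1
  have fb := (facts b).ao3 hb
  by_cases c0 : 8 + P.p < Do2 P a ∧ 8 + P.p < Do2 P b
  · exact go lip_o2 le_rfl (rb .r2)
      (by first | rfl | (simp only [lenF]; omega)) (by omega) (fun _ h => (ih _ h).o2) a b c0.1 c0.2
  by_cases c1 : 8 < Do4 P a ∧ 8 < Do4 P b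
  · exact go lip_o4 le_rfl (rf .r3)
      (by first | rfl | (simp only [lenF]; omega)) (by omega) (fun _ h => (ih _ h).o4) a b c1.1 c1.2
  by_cases c2 : P.t < Dq3 P a ∧ P.t < Dq3 P b
  · exact go lip_q3 le_rfl (rf .u3)
      (by first | rfl | (simp only [lenF]; omega)) (by omega) (fun _ h => (ih _ h).q3) a b c2.1 c2.2
  omega

theorem step_o4 (ih : ∀ N', N' < N → All P N') :
    Go (W P).G N (Do4 P) 0 (nd P .o4) := by
  have ht := P.ht
  refine rest lip_o4 le_rfl (fun _ h => (ih _ h).o4) fun a b ha hb h1 => ?_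
  have fa := (facts a).bo4 ha h1
  have fb := (facts b).ao4 hb
  by_cases c0 : 8 < Do3 P a ∧ 8 < Do3 P b
  · exact go lip_o3 le_rfl (rb .r3)
      (by first | rfl | (simp only [lenF]; omega)) (by omega) (fun _ h => (ih _ h).o3) a b c0.1 c0.2
  by_cases c1 : P.t < Dq4 P a ∧ P.t < Dq4 P b
  · exact go lip_q4 le_rfl (rf .u4)
      (by first | rfl | (simp only [lenF]; omega)) (by omega) (fun _ h => (ih _ h).q4) a b c1.1 c1.2
  by_cases c2 : 19 < Do1 P a ∧ 19 < Do1 P b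
  · exact go lip_o1 le_rfl ((((rf .ra).trans (rb .ya)).trans (rf .yb)).trans (rb .rb))
      (by first | rfl | (simp only [lenF]; omega)) (by omega) (fun _ h => (ih _ h).o1) a b c2.1 c2.2
  by_cases c3 : P.t + 15 < Dh2 P a ∧ P.t + 15 < Dh2 P b
  · exact go lip_h2 le_rfl (((rb .e2).trans r_hb_c0).trans (rb .rb))
      (by first | rfl | (simp only [lenF]; omega)) (by omega) (fun _ h => (ih _ h).h2) a b c3.1 c3.2
  omega

theorem step_q1 (ih : ∀ N', N' < N → All P N') :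
    Go (W P).G N (Dq1 P) 0 (nd P .q1) := by
  have ht := P.ht
  refine rest lip_q1 le_rfl (fun _ h => (ih _ h).q1) fun a b ha hb h1 => ?_
  have fa := (facts a).bq1 ha h1
  have fb := (facts b).aq1 hb
  by_cases c0 : 18 < Dh1 P a ∧ 18 < Dh1 P b
  · exact go lip_h1 le_rfl (rb .qa)
      (by first | rfl | (simp only [lenF]; omega)) (by omega) (fun _ h => (ih _ h).h1) a b c0.1 c0.2
  by_cases c1 : 18 < Dq2 P a ∧ 18 < Dq2 P b
  · exact go lip_q2 le_rfl (rf .q12)
      (by first | rfl | (simp only [lenF]; omega)) (by omega) (fun _ h => (ih _ h).q2) a b c1.1 c1.2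
  by_cases c2 : P.t < Do1 P a ∧ P.t < Do1 P b
  · exact go lip_o1 le_rfl (rb .u1)
      (by first | rfl | (simp only [lenF]; omega)) (by omega) (fun _ h => (ih _ h).o1) a b c2.1 c2.2
  by_cases c3 : 19 < Dce P a ∧ 19 < Dce P b
  · exact go lip_ce le_rfl (rf .p1)
      (by first | rfl | (simp only [lenF]; omega)) (by omega) (fun _ h => (ih _ h).ce) a b c3.1 c3.2
  omega

theorem step_q2 (ih : ∀ N', N' < N → All P N') :
    Go (W P).G N (Dq2 P) 0 (nd P .q2) := by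
  have ht := P.ht
  refine rest lip_q2 le_rfl (fun _ h => (ih _ h).q2) fun a b ha hb h1 => ?_
  have fa := (facts a).bq2 ha h1
  have fb := (facts b).aq2 hb
  by_cases c0 : 18 < Dq1 P a ∧ 18 < Dq1 P b
  · exact go lip_q1 le_rfl (rb .q12)
      (by first | rfl | (simp only [lenF]; omega)) (by omega) (fun _ h => (ih _ h).q1) a b c0.1 c0.2
  by_cases c1 : 18 < Dq3 P a ∧ 18 < Dq3 P b
  · exact go lip_q3 le_rfl (rf .q23)
      (by first | rfl | (simp only [lenF]; omega)) (by omega) (fun _ h => (ih _ h).q3) a b c1.1 c1.2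
  by_cases c2 : P.t < Do2 P a ∧ P.t < Do2 P b
  · exact go lip_o2 le_rfl (rb .u2)
      (by first | rfl | (simp only [lenF]; omega)) (by omega) (fun _ h => (ih _ h).o2) a b c2.1 c2.2
  by_cases c3 : 19 < Dce P a ∧ 19 < Dce P b
  · exact go lip_ce le_rfl (rf .p2)
      (by first | rfl | (simp only [lenF]; omega)) (by omega) (fun _ h => (ih _ h).ce) a b c3.1 c3.2
  omega

theorem step_q3 (ih : ∀ N', N' < N → All P N') :
    Go (W P).G N (Dq3 P) 0 (nd P .q3) := by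
  have ht := P.ht
  refine rest lip_q3 le_rfl (fun _ h => (ih _ h).q3) fun a b ha hb h1 => ?_
  have fa := (facts a).bq3 ha h1
  have fb := (facts b).aq3 hb
  by_cases c0 : 18 < Dq2 P a ∧ 18 < Dq2 P b
  · exact go lip_q2 le_rfl (rb .q23)
      (by first | rfl | (simp only [lenF]; omega)) (by omega) (fun _ h => (ih _ h).q2) a b c0.1 c0.2
  by_cases c1 : 18 < Dq4 P a ∧ 18 < Dq4 P b
  · exact go lip_q4 le_rfl (rf .q34)
      (by first | rfl | (simp only [lenF]; omega)) (by omega) (fun _ h => (ih _ h).q4) a b c1.1 c1.2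
  by_cases c2 : P.t < Do3 P a ∧ P.t < Do3 P b
  · exact go lip_o3 le_rfl (rb .u3)
      (by first | rfl | (simp only [lenF]; omega)) (by omega) (fun _ h => (ih _ h).o3) a b c2.1 c2.2
  by_cases c3 : 19 < Dce P a ∧ 19 < Dce P b
  · exact go lip_ce le_rfl (rf .p3)
      (by first | rfl | (simp only [lenF]; omega)) (by omega) (fun _ h => (ih _ h).ce) a b c3.1 c3.2
  omega

theorem step_q4 (ih : ∀ N', N' < N → All P N') :
    Go (W P).G N (Dq4 P) 0 (nd P .q4) := by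
  have ht := P.ht
  refine rest lip_q4 le_rfl (fun _ h => (ih _ h).q4) fun a b ha hb h1 => ?_
  have fa := (facts a).bq4 ha h1
  have fb := (facts b).aq4 hb
  by_cases c0 : 18 < Dq3 P a ∧ 18 < Dq3 P b
  · exact go lip_q3 le_rfl (rb .q34)
      (by first | rfl | (simp only [lenF]; omega)) (by omega) (fun _ h => (ih _ h).q3) a b c0.1 c0.2
  by_cases c1 : 18 < Dh2 P a ∧ 18 < Dh2 P b
  · exact go lip_h2 le_rfl (rb .qb)
      (by first | rfl | (simp only [lenF]; omega)) (by omega) (fun _ h => (ih _ h).h2) a b c1.1 c1.2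
  by_cases c2 : P.t < Do4 P a ∧ P.t < Do4 P b
  · exact go lip_o4 le_rfl (rb .u4)
      (by first | rfl | (simp only [lenF]; omega)) (by omega) (fun _ h => (ih _ h).o4) a b c2.1 c2.2
  by_cases c3 : 19 < Dce P a ∧ 19 < Dce P b
  · exact go lip_ce le_rfl (rf .p4)
      (by first | rfl | (simp only [lenF]; omega)) (by omega) (fun _ h => (ih _ h).ce) a b c3.1 c3.2
  omega

theorem step_ce (ih : ∀ N', N' < N → All P N') :
    Go (W P).G N (Dce P) 0 (nd P .ce) := by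
  have ht := P.ht
  refine rest lip_ce le_rfl (fun _ h => (ih _ h).ce) fun a b ha hb h1 => ?_
  have fa := (facts a).bce ha h1
  have fb := (facts b).ace hb
  by_cases c0 : 19 < Dq1 P a ∧ 19 < Dq1 P b
  · exact go lip_q1 le_rfl (rb .p1)
      (by first | rfl | (simp only [lenF]; omega)) (by omega) (fun _ h => (ih _ h).q1) a b c0.1 c0.2
  by_cases c1 : 19 < Dq3 P a ∧ 19 < Dq3 P b
  · exact go lip_q3 le_rfl (rb .p3)
      (by first | rfl | (simp only [lenF]; omega)) (by omega) (fun _ h => (ih _ h).q3) a b c1.1 c1.2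
  by_cases c2 : 23 < Dh1 P a ∧ 23 < Dh1 P b
  · exact go lip_h1 le_rfl (rb .pa)
      (by first | rfl | (simp only [lenF]; omega)) (by omega) (fun _ h => (ih _ h).h1) a b c2.1 c2.2
  by_cases c3 : 19 < Dq4 P a ∧ 19 < Dq4 P b
  · exact go lip_q4 le_rfl (rb .p4)
      (by first | rfl | (simp only [lenF]; omega)) (by omega) (fun _ h => (ih _ h).q4) a b c3.1 c3.2
  by_cases c4 : 19 < Dq2 P a ∧ 19 < Dq2 P b
  · exact go lip_q2 le_rfl (rb .p2)
      (by first | rfl | (simp only [lenF]; omega)) (by omega) (fun _ h => (ih _ h).q2) a b c4.1 c4.2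
  omega

theorem step_h1 (hN : (N : ℤ) + 1 ≤ (P.K - 6 : ℕ) * (P.t + 3)) (ih : ∀ N', N' < N → All P N') :
    Go (W P).G N (Dh1 P) 0 (nd P .h1) := by
  have ht := P.ht
  refine rest lip_h1 le_rfl (fun _ h => (ih _ h).h1) fun a b ha hb h1 => ?_
  have fa := (facts a).bh1 ha h1
  have fb := (facts b).ah1 hb
  by_cases c0 : 18 < Dq1 P a ∧ 18 < Dq1 P b
  · exact go lip_q1 le_rfl (rf .qa)
      (by first | rfl | (simp only [lenF]; omega)) (by omega) (fun _ h => (ih _ h).q1) a b c0.1 c0.2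
  by_cases c1 : 2 < Dh2 P a ∧ 2 < Dh2 P b
  · exact go lip_h2 le_rfl (rf .mm)
      (by first | rfl | (simp only [lenF]; omega)) (by omega) (fun _ h => (ih _ h).h2) a b c1.1 c1.2
  by_cases c2 : 23 < Dce P a ∧ 23 < Dce P b
  · exact go lip_ce le_rfl (rf .pa)
      (by first | rfl | (simp only [lenF]; omega)) (by omega) (fun _ h => (ih _ h).ce) a b c2.1 c2.2
  by_cases c3 : P.t + 4 < DJ1 P a ∧ P.t + 4 < DJ1 P b
  · exact go lip_J1 J1_zero (rf .e1) (by first | rfl | (simp only [lenF]; omega)) (by omega)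
      (fun _ h => go_J1 (by omega) (ih _ h)) a b c3.1 c3.2
  omega

theorem step_h2 (hN : (N : ℤ) + 1 ≤ (P.K - 6 : ℕ) * (P.t + 3)) (ih : ∀ N', N' < N → All P N') :
    Go (W P).G N (Dh2 P) 0 (nd P .h2) := by
  have ht := P.ht
  refine rest lip_h2 le_rfl (fun _ h => (ih _ h).h2) fun a b ha hb h1 => ?_
  have fa := (facts a).bh2 ha h1
  have fb := (facts b).ah2 hb
  by_cases c0 : 18 < Dq4 P a ∧ 18 < Dq4 P b
  · exact go lip_q4 le_rfl (rf .qb)
      (by first | rfl | (simp only [lenF]; omega)) (by omega) (fun _ h => (ih _ h).q4) a b c0.1 c0.2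
  by_cases c1 : 2 < Dh1 P a ∧ 2 < Dh1 P b
  · exact go lip_h1 le_rfl (rb .mm)
      (by first | rfl | (simp only [lenF]; omega)) (by omega) (fun _ h => (ih _ h).h1) a b c1.1 c1.2
  by_cases c2 : 23 < Dce P a ∧ 23 < Dce P b
  · exact go lip_ce le_rfl (rf .pb)
      (by first | rfl | (simp only [lenF]; omega)) (by omega) (fun _ h => (ih _ h).ce) a b c2.1 c2.2
  by_cases c3 : P.t + 4 < DJ0 P a ∧ P.t + 4 < DJ0 P b
  · exact go lip_J0 J0_zero (rf .e2) (by first | rfl | (simp only [lenF]; omega)) (by omega)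
      (fun _ h => go_J0 (by omega) (ih _ h)) a b c3.1 c3.2
  omega

theorem all_of_le : ∀ N : ℕ, (N : ℤ) + 1 ≤ (P.K - 6 : ℕ) * (P.t + 3) → All P N := by
  intro N
  induction N using Nat.strong_induction_on with
  | _ N ih =>
    intro hN
    have ih' : ∀ N', N' < N → All P N' := fun N' h => ih N' h (by omega)
    exact ⟨step_o1 ih', step_o2 ih', step_o3 ih', step_o4 ih', step_q1 ih', step_q2 ih',
      step_q3 ih', step_q4 ih', step_ce ih', step_h1 hN ih', step_h2 hN ih', step_z ih'⟩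

/-- Two cops need more than `(K - 6) (t + 3)` rounds. -/
theorem two_cops_slow {N : ℕ} (hN : N ≤ (P.K - 6) * (P.t + 3)) : ¬ CaptureWithin (W P).G 2 N := by
  rintro ⟨c, hc⟩
  have hN' : (N : ℤ) ≤ (P.K - 6 : ℕ) * (P.t + 3) := by exact_mod_cast hN
  have key : ∀ (D : (W P).V → ℤ) (x : (W P).V), Lip (W P).G D → D x ≤ 0 →
      (∀ N', All P N' → Go (W P).G N' D 0 x) → 1 < D (c 0) → 1 < D (c 1) → False := by
    intro D x h1 h2 h3 h4 h5
    refine not_win2 (fun e => by rw [e] at h4; omega) (fun e => by rw [e] at h5; omega)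
      (fun N' e a' b' m1 m2 => ?_) ((win_iff_win2 _ _ _).1 (hc x))
    have := h1 _ _ m1
    have := h1 _ _ m2
    exact h3 N' (all_of_le N' (by omega)) a' b' (by omega) (by omega)
  have f0 := (facts (c 0)).ini
  have f1 := (facts (c 1)).ini
  by_cases c1 : 1 < Do1 P (c 0) ∧ 1 < Do1 P (c 1)
  · exact key _ _ lip_o1 le_rfl (fun _ h => h.o1) c1.1 c1.2
  by_cases c2 : 1 < Do2 P (c 0) ∧ 1 < Do2 P (c 1)
  · exact key _ _ lip_o2 le_rfl (fun _ h => h.o2) c2.1 c2.2
  exact key _ _ lip_o3 le_rfl (fun _ h => h.o3) (by omega) (by omega)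

/-- One cop never wins. -/
theorem one_cop_loses (t : ℕ) : ¬ CaptureWithin (W P).G 1 t := by
  refine one_cop (S := {(nd P .q1, Dq1 P), (nd P .q2, Dq2 P), (nd P .q3, Dq3 P), (nd P .q4, Dq4 P),
    (nd P .h1, Dh1 P), (nd P .h2, Dh2 P)}) ?_ ?_ (fun c => ?_) t
  · rintro s (rfl | rfl | rfl | rfl | rfl | rfl)
    exacts [⟨lip_q1, le_rfl⟩, ⟨lip_q2, le_rfl⟩, ⟨lip_q3, le_rfl⟩, ⟨lip_q4, le_rfl⟩,
      ⟨lip_h1, le_rfl⟩, ⟨lip_h2, le_rfl⟩]
  · rintro s (rfl | rfl | rfl | rfl | rfl | rfl) c hc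
    · rcases ((facts c).aq1 hc).1 with k | k
      · exact ⟨(nd P .h1, Dh1 P), by simp, _, by simp [lenF], rb .qa, k⟩
      · exact ⟨(nd P .q2, Dq2 P), by simp, _, by simp [lenF], rf .q12, k⟩
    · rcases ((facts c).aq2 hc).1 with k | k
      · exact ⟨(nd P .q1, Dq1 P), by simp, _, by simp [lenF], rb .q12, k⟩
      · exact ⟨(nd P .q3, Dq3 P), by simp, _, by simp [lenF], rf .q23, k⟩
    · rcases ((facts c).aq3 hc).1 with k | k
      · exact ⟨(nd P .q2, Dq2 P), by simp, _, by simp [lenF], rb .q23, k⟩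
      · exact ⟨(nd P .q4, Dq4 P), by simp, _, by simp [lenF], rf .q34, k⟩
    · rcases ((facts c).aq4 hc).1 with k | k
      · exact ⟨(nd P .q3, Dq3 P), by simp, _, by simp [lenF], rb .q34, k⟩
      · exact ⟨(nd P .h2, Dh2 P), by simp, _, by simp [lenF], rb .qb, k⟩
    · rcases ((facts c).ah1 hc).1 with k | k
      · exact ⟨(nd P .q1, Dq1 P), by simp, _, by simp [lenF], rf .qa, k⟩
      · exact ⟨(nd P .h2, Dh2 P), by simp, _, by simp [lenF], rf .mm, k⟩
    · rcases ((facts c).ah2 hc).1 with k | k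
      · exact ⟨(nd P .q4, Dq4 P), by simp, _, by simp [lenF], rf .qb, k⟩
      · exact ⟨(nd P .h1, Dh1 P), by simp, _, by simp [lenF], rb .mm, k⟩
  · rcases (facts c).ini.2.2.2 with k | k
    · exact ⟨(nd P .q1, Dq1 P), by simp, k⟩
    · exact ⟨(nd P .q2, Dq2 P), by simp, k⟩

end Pool.Agent.Lib.MP_1fc36f_co.H40
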