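import Pool.Agent.Lib.MP_1fc36f_co.H40Chk
import Pool.Agent.Lib.MP_1fc36f_co.H40Rows
import Pool.Agent.Lib.MP_1fc36f_co.H39Dist

/-! The tables of the graphs of the family, with `H = n + 12`. -/

namespace Pool.Agent.Lib.MP_1fc36f_co.H40L

open Pool.Agent.Lib.MP_1fc36f_co.H40 Pool.Agent.Lib.MP_1fc36f_co.H39 WG

def gr : Gr where
  nN := 250
  nE := 336
  src := srcN
  tgt := tgtN
  a := aN
  b e := aN e * 12 + bN e - 64
  dA w v := Nat.div (fld (rowA w) v) 2
  dB w v := Nat.div (fld (rowB w) v) 2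
  rn w := (w + 125) % 250
  re e := (e + 168) % 336
  rA := rowA
  rB := rowB
  one := ones

theorem rows {w v : ℕ} (hw : w < 250) (hv : v < 250) :
    fld (rowA w) v = 2 * dA w v + 1 ∧ fld (rowB w) v + 31 = 2 * (dA w v * 12 + dB w v) ∧
      fld (rowB w) v < 2048 := by
  have k := rows_tab
  simp only [List.all_eq_true, List.mem_range] at k
  have k := k w hw v hv
  simp only [rowOk, Bool.and_eq_true, Nat.blt_eq] at k
  exact ⟨Nat.eq_of_beq_eq_true k.1.1, Nat.eq_of_beq_eq_true k.1.2, k.2⟩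

theorem gr_d {w v : ℕ} (hw : w < 250) (hv : v < 250) :
    gr.dA w v = dA w v ∧ gr.dB w v + 16 = dA w v * 12 + dB w v := by
  obtain ⟨h1, h2, -⟩ := rows hw hv
  change fld (rowA w) v / 2 = _ ∧ fld (rowB w) v / 2 + 16 = _
  omega

theorem cast_dist (n : ℕ) (w v : Fin 250) :
    (gr.dA w v : ℤ) * n + gr.dB w v = H39.dist (n + 12) w v := by
  obtain ⟨h1, h2⟩ := gr_d w.2 v.2
  have h2 : (gr.dB w v : ℤ) + 16 = dA w v * 12 + dB w v := by exact_mod_cast h2
  rw [h1, H39.dist]; push_cast; linarith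

/-- The graph with `H = n + 12` is described by the tables. -/
def model (n : ℕ) (hH : 5 ≤ n + 12) : Mod gr n (W (n + 12) hH) where
  ix := Fin.val
  ie := Fin.val
  nd k := ⟨k % 250, Nat.mod_lt _ (by decide)⟩
  ed k := ⟨k % 336, Nat.mod_lt _ (by decide)⟩
  ix_lt v := v.2
  ie_lt e := e.2
  ix_nd _ hk := Nat.mod_eq_of_lt hk
  nd_ix v := Fin.ext (Nat.mod_eq_of_lt v.2)
  ie_ed _ hk := Nat.mod_eq_of_lt hk
  ed_ie e := Fin.ext (Nat.mod_eq_of_lt e.2)
  hs _ := rfl
  ht _ := rfl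
  hl e := by
    have := len_pos e
    change aN e * (n + 12) + bN e - 64 = aN e * n + (aN e * 12 + bN e - 64)
    rw [Nat.mul_add]; omega
  I := rot (n + 12) hH
  rn _ := rfl
  re _ := rfl
  fit w hw e := by
    have := fit_dist (H := n + 12) (hH := hH) (by omega) ⟨w, hw⟩ e
    simpa only [← cast_dist n ⟨w, hw⟩] using this
  diag w hw := by
    have k := self_tab ⟨w, hw⟩
    have := gr_d hw hw
    simp only [dA, dB] at this k
    rw [k] at this
    omega
  rotd w hw v hv := by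
    have k := rot_row
    simp only [List.all_eq_true, List.mem_range] at k
    have k := Nat.eq_of_beq_eq_true (k w hw v hv)
    have k1 := gr_d hw hv
    have k2 := gr_d (w := (w + 125) % 250) (v := (v + 125) % 250) (Nat.mod_lt _ (by decide))
      (Nat.mod_lt _ (by decide))
    simp only [dA, dB] at k1 k2
    rw [k] at k2
    change gr.dA ((w + 125) % 250) ((v + 125) % 250) = _ ∧
      gr.dB ((w + 125) % 250) ((v + 125) % 250) = _
    omega
  one := ones_eq
  rowA w hw v hv := by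
    have k : dA w v < 16 := by
      have : tab 10 (drow w) v < 2 ^ 10 := Nat.mod_lt _ (by decide)
      unfold dA; omega
    have := (rows hw hv).1
    exact ⟨rfl, by change fld (rowA w) v < 2048; omega⟩
  rowB w hw v hv := ⟨rfl, (rows hw hv).2.2⟩

theorem slow_W {cs : List Cl} (hc : cs.all (Cl.ok gr) = true)
    (k : ∀ i, i < cs.length → ∃ t, chk gr cs i t = true) {L : Lf}
    (hL : start gr cs L = true) {H : ℕ} (hh : 24 ≤ H) (hH : 5 ≤ H) {t : ℕ}
    (ht : CaptureWithin (W H hH).G 2 t) : H ^ 3 ≤ 8 * t := by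
  obtain ⟨n, rfl⟩ : ∃ n, H = n + 12 := ⟨H - 12, by omega⟩
  have := slow (model n hH) hc k hL ht
  calc (n + 12) ^ 3 ≤ (2 * n) ^ 3 := Nat.pow_le_pow_left (by omega) 3
    _ = 8 * n ^ 3 := by ring
    _ ≤ 8 * t := by omega

end Pool.Agent.Lib.MP_1fc36f_co.H40L
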