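import Pool.Agent.Lib.MP_1fc36f_co.H40Cs

/-! Certificates for the claims 0 to 29. -/

namespace Pool.Agent.Lib.MP_1fc36f_co.H40L

theorem c0 : ∃ t, chk gr cs 0 t = true := ⟨.leaf ⟨[⟨[9, 7, 5, 0, 16, 18, 20], 1, false, false, ⟨0, 1, 0, 0⟩,
      .z, 0, 0⟩, ⟨[137, 135, 133], 41, false, false, ⟨0, 1, 0, 0⟩, .z, 0, 0⟩, ⟨[493, 491, 489, 668, 670, 623],
      41, true, false, ⟨0, 1, 0, 0⟩, .z, 0, 0⟩, ⟨[493, 491, 489], 49, true, false, ⟨0, 1, 0, 0⟩, .z, 0, 0⟩],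
    [[0, 2], [0, 3], [1, 3], [0, 1]], [[0, 3], [1, 2, 3], [0, 1]],
    [],
    [(52, .sj ⟨15, 1, 0, 0⟩ (.typ 2) (.typ 0)), (235, .sj ⟨14, 1, 0, 0⟩ (.typ 3) (.typ 1)), (242, .sj ⟨18, 1,
      0, 0⟩ (.typ 3) (.typ 0))],
    [],
    [(52, .sj ⟨15, 1, 0, 0⟩ (.typ 1) (.typ 0)), (235, .sj ⟨14, 1, 0, 0⟩ (.typ 2) (.typ 0)), (242, .sj ⟨18, 1,
      0, 0⟩ (.typ 2) (.typ 0))]⟩, by
  decide +kernel⟩

theorem c1 : ∃ t, chk gr cs 1 t = true := ⟨.leaf ⟨[⟨[21, 19, 17, 1, 4, 6, 8], 0, false, false, ⟨0, 1, 0, 0⟩,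
      .z, 0, 0⟩, ⟨[443, 441, 439], 2, true, false, ⟨0, 1, 0, 0⟩, .z, 0, 0⟩, ⟨[58, 60, 62], 3, false, false,
      ⟨0, 1, 0, 0⟩, .z, 0, 0⟩, ⟨[455, 453, 451], 31, true, false, ⟨0, 1, 0, 0⟩, .z, 0, 0⟩],
    [[0, 2], [0, 3], [1, 2]], [[2, 3], [0, 2], [0, 1]],
    [],
    [(208, .sj ⟨26, 2, 0, 0⟩ (.typ 0) (.typ 2)), (214, .sj ⟨25, 2, 0, 0⟩ (.typ 0) (.typ 2)), (232, .typ 2),
      (242, .typ 2)],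
    [],
    [(214, .sj ⟨25, 2, 0, 0⟩ (.typ 1) (.typ 0))]⟩, by
  decide +kernel⟩

theorem c2 : ∃ t, chk gr cs 2 t = true := ⟨.leaf ⟨[⟨[57, 55, 53, 21, 19, 17, 1, 4, 6, 8], 0, false, false, ⟨0,
      1, 0, 0⟩, .z, 0, 0⟩, ⟨[102, 104, 106, 357, 355, 353, 337, 340, 342, 344], 0, true, false, ⟨0, 1, 0, 0⟩,
      .z, 0, 0⟩, ⟨[], 2, false, false, ⟨0, 1, 0, 0⟩, .z, 0, 0⟩, ⟨[69, 67, 65], 12, false, false, ⟨0, 1, 0, 0⟩,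
      .z, 0, 0⟩, ⟨[108, 110, 112], 22, false, false, ⟨0, 1, 0, 0⟩, .z, 0, 0⟩],
    [[3, 4], [0, 4], [0, 2, 3], [1, 2, 4], [1, 3]], [[3, 4], [0, 2, 3], [1, 2, 4], [0, 1, 3], [0, 1, 4]],
    [],
    [(27, .typ 3), (33, .typ 3), (220, .sj ⟨36, 3, 0, 0⟩ (.typ 0) (.typ 3))],
    [],
    [(27, .typ 2), (33, .typ 2), (220, .sj ⟨36, 3, 0, 0⟩ (.typ 0) (.typ 2))]⟩, by
  decide +kernel⟩

theorem c3 : ∃ t, chk gr cs 3 t = true := ⟨.leaf ⟨[⟨[63, 61, 59, 21, 19, 17, 1, 4, 6, 8], 0, false, false, ⟨0,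
      1, 0, 0⟩, .z, 0, 0⟩, ⟨[160], 4, false, false, ⟨0, 1, 0, 0⟩, .z, 0, 0⟩, ⟨[162], 13, false, false, ⟨0, 1,
      0, 0⟩, .z, 0, 0⟩],
    [[1, 2], [0, 2], [0, 1]], [[1, 2], [0, 2], [0, 1]],
    [],
    [],
    [],
    []⟩, by
  decide +kernel⟩

theorem c4 : ∃ t, chk gr cs 4 t = true := ⟨.leaf ⟨[⟨[161, 63, 61, 59, 21, 19, 17, 1, 4, 6, 8], 0, false,
      false, ⟨0, 1, 0, 0⟩, .z, 0, 0⟩, ⟨[168, 159, 64, 66, 68, 102, 104, 106, 357, 355, 353, 337, 340, 342,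
      344], 0, true, false, ⟨0, 1, 0, 0⟩, .z, 0, 0⟩, ⟨[161], 3, false, false, ⟨0, 1, 0, 0⟩, .z, 0, 0⟩, ⟨[166],
      5, false, false, ⟨0, 1, 0, 0⟩, .z, 0, 0⟩, ⟨[168], 14, false, false, ⟨0, 1, 0, 0⟩, .z, 0, 0⟩],
    [[2, 3], [0, 4], [1, 3]], [[3, 4], [0, 3], [0, 1, 2]],
    [],
    [],
    [],
    []⟩, by
  decide +kernel⟩

theorem c5 : ∃ t, chk gr cs 5 t = true := ⟨.leaf ⟨[⟨[167], 4, false, false, ⟨0, 1, 0, 0⟩, .z, 0, 0⟩, ⟨[172],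
      6, false, false, ⟨0, 1, 0, 0⟩, .z, 0, 0⟩, ⟨[174], 15, false, false, ⟨0, 1, 0, 0⟩, .z, 0, 0⟩],
    [[1, 2], [0, 1], [0, 2]], [[1, 2], [0, 1], [0, 2]],
    [],
    [],
    [],
    []⟩, by
  decide +kernel⟩

theorem c6 : ∃ t, chk gr cs 6 t = true := ⟨.leaf ⟨[⟨[173], 5, false, false, ⟨0, 1, 0, 0⟩, .z, 0, 0⟩, ⟨[178],
      7, false, false, ⟨0, 1, 0, 0⟩, .z, 0, 0⟩, ⟨[180], 16, false, false, ⟨0, 1, 0, 0⟩, .z, 0, 0⟩],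
    [[1, 2], [0, 1], [0, 2]], [[1, 2], [0, 1], [0, 2]],
    [],
    [],
    [],
    []⟩, by
  decide +kernel⟩

theorem c7 : ∃ t, chk gr cs 7 t = true := ⟨.leaf ⟨[⟨[179], 6, false, false, ⟨0, 1, 0, 0⟩, .z, 0, 0⟩, ⟨[184],
      8, false, false, ⟨0, 1, 0, 0⟩, .z, 0, 0⟩, ⟨[186], 17, false, false, ⟨0, 1, 0, 0⟩, .z, 0, 0⟩],
    [[1, 2], [0, 2], [0, 1]], [[1, 2], [0, 2], [0, 1]],
    [],
    [],
    [],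
    []⟩, by
  decide +kernel⟩

theorem c8 : ∃ t, chk gr cs 8 t = true := ⟨.leaf ⟨[⟨[185], 7, false, false, ⟨0, 1, 0, 0⟩, .z, 0, 0⟩, ⟨[190],
      9, false, false, ⟨0, 1, 0, 0⟩, .z, 0, 0⟩, ⟨[192], 18, false, false, ⟨0, 1, 0, 0⟩, .z, 0, 0⟩],
    [[0, 1], [0, 2], [1, 2]], [[0, 1], [0, 2], [1, 2]],
    [],
    [],
    [],
    []⟩, by
  decide +kernel⟩

theorem c9 : ∃ t, chk gr cs 9 t = true := ⟨.leaf ⟨[⟨[191], 8, false, false, ⟨0, 1, 0, 0⟩, .z, 0, 0⟩, ⟨[196],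
      10, false, false, ⟨0, 1, 0, 0⟩, .z, 0, 0⟩, ⟨[198], 19, false, false, ⟨0, 1, 0, 0⟩, .z, 0, 0⟩],
    [[0, 2], [0, 1], [1, 2]], [[0, 2], [0, 1], [1, 2]],
    [],
    [],
    [],
    []⟩, by
  decide +kernel⟩

theorem c10 : ∃ t, chk gr cs 10 t = true := ⟨.leaf ⟨[⟨[197], 9, false, false, ⟨0, 1, 0, 0⟩, .z, 0, 0⟩, ⟨[202],
      11, false, false, ⟨0, 1, 0, 0⟩, .z, 0, 0⟩, ⟨[204], 20, false, false, ⟨0, 1, 0, 0⟩, .z, 0, 0⟩],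
    [[0, 2], [0, 1], [1, 2]], [[0, 2], [0, 1], [1, 2]],
    [],
    [],
    [],
    []⟩, by
  decide +kernel⟩

theorem c11 : ∃ t, chk gr cs 11 t = true := ⟨.leaf ⟨[⟨[203], 10, false, false, ⟨0, 1, 0, 0⟩, .z, 0, 0⟩,
      ⟨[208], 21, false, false, ⟨0, 1, 0, 0⟩, .z, 0, 0⟩, ⟨[51], 64, false, false, ⟨0, 1, 0, 0⟩, .z, 0, 0⟩,
      ⟨[51], 64, false, true, ⟨0, 1, 0, 0⟩, .z, 0, 0⟩],
    [[0, 1], [0, 3], [1, 2]], [[0, 1], [0, 2], [1, 3]],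
    [],
    [],
    [],
    []⟩, by
  decide +kernel⟩

theorem c12 : ∃ t, chk gr cs 12 t = true := ⟨.leaf ⟨[⟨[64, 66, 68, 102, 104, 106, 357, 355, 353, 337, 340,
      342, 344], 0, true, false, ⟨0, 1, 0, 0⟩, .z, 0, 0⟩, ⟨[158], 14, false, false, ⟨0, 1, 0, 0⟩, .z, 0, 0⟩,
      ⟨[207], 20, false, false, ⟨0, 1, 0, 0⟩, .z, 0, 0⟩],
    [[1, 2], [0, 2], [0, 1]], [[1, 2], [0, 2], [0, 1]],
    [],
    [],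
    [],
    []⟩, by
  decide +kernel⟩

theorem c13 : ∃ t, chk gr cs 13 t = true := ⟨.leaf ⟨[⟨[163, 63, 61, 59, 21, 19, 17, 1, 4, 6, 8], 0, false,
      false, ⟨0, 1, 0, 0⟩, .z, 0, 0⟩, ⟨[164], 15, false, false, ⟨0, 1, 0, 0⟩, .z, 0, 0⟩, ⟨[211], 21, false,
      false, ⟨0, 1, 0, 0⟩, .z, 0, 0⟩],
    [[1, 2], [0, 2], [0, 1]], [[1, 2], [0, 2], [0, 1]],
    [],
    [],
    [],
    []⟩, by
  decide +kernel⟩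

theorem c14 : ∃ t, chk gr cs 14 t = true := ⟨.leaf ⟨[⟨[159, 64, 66, 68, 102, 104, 106, 357, 355, 353, 337,
      340, 342, 344], 0, true, false, ⟨0, 1, 0, 0⟩, .z, 0, 0⟩, ⟨[169], 4, false, false, ⟨0, 1, 0, 0⟩, .z, 0,
      0⟩, ⟨[159], 12, false, false, ⟨0, 1, 0, 0⟩, .z, 0, 0⟩, ⟨[170], 16, false, false, ⟨0, 1, 0, 0⟩, .z, 0,
      0⟩],
    [[1, 3], [1, 2], [0, 3]], [[1, 3], [2, 3], [0, 1]],
    [],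
    [],
    [],
    []⟩, by
  decide +kernel⟩

theorem c15 : ∃ t, chk gr cs 15 t = true := ⟨.leaf ⟨[⟨[175], 5, false, false, ⟨0, 1, 0, 0⟩, .z, 0, 0⟩, ⟨[165],
      13, false, false, ⟨0, 1, 0, 0⟩, .z, 0, 0⟩, ⟨[176], 17, false, false, ⟨0, 1, 0, 0⟩, .z, 0, 0⟩],
    [[1, 2], [0, 2], [0, 1]], [[1, 2], [0, 2], [0, 1]],
    [],
    [],
    [],
    []⟩, by
  decide +kernel⟩

theorem c16 : ∃ t, chk gr cs 16 t = true := ⟨.leaf ⟨[⟨[181], 6, false, false, ⟨0, 1, 0, 0⟩, .z, 0, 0⟩, ⟨[171],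
      14, false, false, ⟨0, 1, 0, 0⟩, .z, 0, 0⟩, ⟨[182], 18, false, false, ⟨0, 1, 0, 0⟩, .z, 0, 0⟩],
    [[0, 2], [0, 1], [1, 2]], [[0, 2], [0, 1], [1, 2]],
    [],
    [],
    [],
    []⟩, by
  decide +kernel⟩

theorem c17 : ∃ t, chk gr cs 17 t = true := ⟨.leaf ⟨[⟨[187], 7, false, false, ⟨0, 1, 0, 0⟩, .z, 0, 0⟩, ⟨[177],
      15, false, false, ⟨0, 1, 0, 0⟩, .z, 0, 0⟩, ⟨[188], 19, false, false, ⟨0, 1, 0, 0⟩, .z, 0, 0⟩],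
    [[0, 1], [0, 2], [1, 2]], [[0, 1], [0, 2], [1, 2]],
    [],
    [],
    [],
    []⟩, by
  decide +kernel⟩

theorem c18 : ∃ t, chk gr cs 18 t = true := ⟨.leaf ⟨[⟨[193], 8, false, false, ⟨0, 1, 0, 0⟩, .z, 0, 0⟩, ⟨[183],
      16, false, false, ⟨0, 1, 0, 0⟩, .z, 0, 0⟩, ⟨[194], 20, false, false, ⟨0, 1, 0, 0⟩, .z, 0, 0⟩],
    [[0, 1], [0, 2], [1, 2]], [[0, 1], [0, 2], [1, 2]],
    [],
    [],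
    [],
    []⟩, by
  decide +kernel⟩

theorem c19 : ∃ t, chk gr cs 19 t = true := ⟨.leaf ⟨[⟨[199], 9, false, false, ⟨0, 1, 0, 0⟩, .z, 0, 0⟩, ⟨[189],
      17, false, false, ⟨0, 1, 0, 0⟩, .z, 0, 0⟩, ⟨[200], 21, false, false, ⟨0, 1, 0, 0⟩, .z, 0, 0⟩],
    [[0, 1], [1, 2], [0, 2]], [[0, 1], [1, 2], [0, 2]],
    [],
    [],
    [],
    []⟩, by
  decide +kernel⟩

theorem c20 : ∃ t, chk gr cs 20 t = true := ⟨.leaf ⟨[⟨[206, 64, 66, 68, 102, 104, 106, 357, 355, 353, 337,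
      340, 342, 344], 0, true, false, ⟨0, 1, 0, 0⟩, .z, 0, 0⟩, ⟨[205], 10, false, false, ⟨0, 1, 0, 0⟩, .z, 0,
      0⟩, ⟨[195], 18, false, false, ⟨0, 1, 0, 0⟩, .z, 0, 0⟩],
    [[1, 2], [0, 2], [0, 1]], [[1, 2], [0, 2], [0, 1]],
    [],
    [],
    [],
    []⟩, by
  decide +kernel⟩

theorem c21 : ∃ t, chk gr cs 21 t = true := ⟨.leaf ⟨[⟨[209], 11, false, false, ⟨0, 1, 0, 0⟩, .z, 0, 0⟩,
      ⟨[210], 13, false, false, ⟨0, 1, 0, 0⟩, .z, 0, 0⟩, ⟨[201], 19, false, false, ⟨0, 1, 0, 0⟩, .z, 0, 0⟩],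
    [[1, 2], [0, 2], [0, 1]], [[1, 2], [0, 2], [0, 1]],
    [],
    [],
    [],
    []⟩, by
  decide +kernel⟩

theorem c22 : ∃ t, chk gr cs 22 t = true := ⟨.leaf ⟨[⟨[113, 111, 109, 57, 55, 53, 21, 19, 17, 1, 4, 6, 8], 0,
      false, false, ⟨0, 1, 0, 0⟩, .z, 0, 0⟩, ⟨[222], 23, false, false, ⟨0, 1, 0, 0⟩, .z, 0, 0⟩, ⟨[224], 32,
      false, false, ⟨0, 1, 0, 0⟩, .z, 0, 0⟩],
    [[1, 2], [0, 2], [0, 1]], [[1, 2], [0, 2], [0, 1]],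
    [],
    [],
    [],
    []⟩, by
  decide +kernel⟩

theorem c23 : ∃ t, chk gr cs 23 t = true := ⟨.leaf ⟨[⟨[223, 113, 111, 109, 57, 55, 53, 21, 19, 17, 1, 4, 6,
      8], 0, false, false, ⟨0, 1, 0, 0⟩, .z, 0, 0⟩, ⟨[230, 221, 114, 116, 118], 1, true, false, ⟨0, 1, 0, 0⟩,
      .z, 0, 0⟩, ⟨[223], 22, false, false, ⟨0, 1, 0, 0⟩, .z, 0, 0⟩, ⟨[228], 24, false, false, ⟨0, 1, 0, 0⟩,
      .z, 0, 0⟩, ⟨[230], 33, false, false, ⟨0, 1, 0, 0⟩, .z, 0, 0⟩],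
    [[2, 3], [1, 3], [0, 4]], [[3, 4], [0, 3], [0, 1, 2]],
    [],
    [],
    [],
    []⟩, by
  decide +kernel⟩

theorem c24 : ∃ t, chk gr cs 24 t = true := ⟨.leaf ⟨[⟨[229], 23, false, false, ⟨0, 1, 0, 0⟩, .z, 0, 0⟩,
      ⟨[234], 25, false, false, ⟨0, 1, 0, 0⟩, .z, 0, 0⟩, ⟨[236], 34, false, false, ⟨0, 1, 0, 0⟩, .z, 0, 0⟩],
    [[1, 2], [0, 1], [0, 2]], [[1, 2], [0, 1], [0, 2]],
    [],
    [],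
    [],
    []⟩, by
  decide +kernel⟩

theorem c25 : ∃ t, chk gr cs 25 t = true := ⟨.leaf ⟨[⟨[235], 24, false, false, ⟨0, 1, 0, 0⟩, .z, 0, 0⟩,
      ⟨[240], 26, false, false, ⟨0, 1, 0, 0⟩, .z, 0, 0⟩, ⟨[242], 35, false, false, ⟨0, 1, 0, 0⟩, .z, 0, 0⟩],
    [[0, 1], [1, 2], [0, 2]], [[0, 1], [1, 2], [0, 2]],
    [],
    [],
    [],
    []⟩, by
  decide +kernel⟩

theorem c26 : ∃ t, chk gr cs 26 t = true := ⟨.leaf ⟨[⟨[241], 25, false, false, ⟨0, 1, 0, 0⟩, .z, 0, 0⟩,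
      ⟨[246], 27, false, false, ⟨0, 1, 0, 0⟩, .z, 0, 0⟩, ⟨[248], 36, false, false, ⟨0, 1, 0, 0⟩, .z, 0, 0⟩],
    [[1, 2], [0, 1], [0, 2]], [[1, 2], [0, 1], [0, 2]],
    [],
    [],
    [],
    []⟩, by
  decide +kernel⟩

theorem c27 : ∃ t, chk gr cs 27 t = true := ⟨.leaf ⟨[⟨[247], 26, false, false, ⟨0, 1, 0, 0⟩, .z, 0, 0⟩,
      ⟨[252], 28, false, false, ⟨0, 1, 0, 0⟩, .z, 0, 0⟩, ⟨[254], 37, false, false, ⟨0, 1, 0, 0⟩, .z, 0, 0⟩],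
    [[0, 1], [0, 2], [1, 2]], [[0, 1], [0, 2], [1, 2]],
    [],
    [],
    [],
    []⟩, by
  decide +kernel⟩

theorem c28 : ∃ t, chk gr cs 28 t = true := ⟨.leaf ⟨[⟨[253], 27, false, false, ⟨0, 1, 0, 0⟩, .z, 0, 0⟩,
      ⟨[258], 29, false, false, ⟨0, 1, 0, 0⟩, .z, 0, 0⟩, ⟨[260], 38, false, false, ⟨0, 1, 0, 0⟩, .z, 0, 0⟩],
    [[0, 2], [0, 1], [1, 2]], [[0, 2], [0, 1], [1, 2]],
    [],
    [],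
    [],
    []⟩, by
  decide +kernel⟩

theorem c29 : ∃ t, chk gr cs 29 t = true := ⟨.leaf ⟨[⟨[259], 28, false, false, ⟨0, 1, 0, 0⟩, .z, 0, 0⟩,
      ⟨[264], 30, false, false, ⟨0, 1, 0, 0⟩, .z, 0, 0⟩, ⟨[266], 39, false, false, ⟨0, 1, 0, 0⟩, .z, 0, 0⟩],
    [[0, 2], [0, 1], [1, 2]], [[0, 2], [0, 1], [1, 2]],
    [],
    [],
    [],
    []⟩, by
  decide +kernel⟩

end Pool.Agent.Lib.MP_1fc36f_co.H40L
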