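import Pool.Agent.Lib.MP_1fc36f_co.H40Graph

/-! A straight-line drawing of the graphs of the family, and connectivity. -/

namespace Pool.Agent.Lib.MP_1fc36f_co.H40

open WG

set_option linter.unusedSimpArgs false

namespace WG

variable {W : WG}

/-- The point of the drawn edge `e` with parameter `s`. -/
noncomputable def ln (c : W.N → ℝ × ℝ) (e : W.E) (s : ℝ) : ℝ × ℝ :=
  c (W.src e) + s • (c (W.tgt e) - c (W.src e))

/-- The drawing of the subdivision. -/
noncomputable def drw (c : W.N → ℝ × ℝ) : W.V → ℝ × ℝ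
  | .inl x => c x
  | .inr y => ln c y.1.1 (y.1.2 / W.len y.1.1)

theorem ln_zero (c : W.N → ℝ × ℝ) (e : W.E) : ln c e 0 = c (W.src e) := by simp [ln]

theorem ln_one (c : W.N → ℝ × ℝ) (e : W.E) : ln c e 1 = c (W.tgt e) := by simp [ln]

theorem drw_pt (c : W.N → ℝ × ℝ) {e : W.E} {j : ℕ} (hj : j ≤ W.len e) :
    drw c (W.pt e j) = ln c e (j / W.len e) := by
  have : (0 : ℝ) < W.len e := by exact_mod_cast W.pos e
  rcases Nat.eq_zero_or_pos j with rfl | h0
  · rw [pt_zero]; simp [drw, ln]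
  · rcases hj.eq_or_lt with rfl | hj
    · rw [pt_ge le_rfl, div_self this.ne', ln_one]; rfl
    · rw [pt_mid ⟨h0, hj⟩]; rfl

theorem seg_ln {c : W.N → ℝ × ℝ} {e : W.E} {a b : ℝ} (hab : a ≤ b) {z : ℝ × ℝ}
    (h : z ∈ segment ℝ (ln c e a) (ln c e b)) : ∃ s, a ≤ s ∧ s ≤ b ∧ z = ln c e s := by
  obtain ⟨u, v, hu, hv, huv, rfl⟩ := h
  obtain rfl : u = 1 - v := by linarith
  refine ⟨(1 - v) * a + v * b, by nlinarith, by nlinarith, ?_⟩
  simp only [ln]; module

theorem ln_mem (c : W.N → ℝ × ℝ) (e : W.E) {s : ℝ} (h0 : 0 ≤ s) (h1 : s ≤ 1) :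
    ln c e s ∈ segment ℝ (c (W.src e)) (c (W.tgt e)) :=
  ⟨1 - s, s, by linarith, h0, by ring, by simp only [ln]; module⟩

theorem planar_of (c : W.N → ℝ × ℝ) (h0 : Function.Injective c) (h1 : ∀ e, W.src e ≠ W.tgt e)
    (h2 : ∀ x, ∃ e, W.src e = x ∨ W.tgt e = x)
    (h3 : ∀ e e' z, e ≠ e' → z ∈ segment ℝ (c (W.src e)) (c (W.tgt e)) →
      z ∈ segment ℝ (c (W.src e')) (c (W.tgt e')) →
      (z = c (W.src e) ∨ z = c (W.tgt e)) ∧ (z = c (W.src e') ∨ z = c (W.tgt e'))) :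
    Planar W.G := by
  have pos : ∀ e, (0 : ℝ) < W.len e := fun e => by exact_mod_cast W.pos e
  have inj : ∀ e s s', ln c e s = ln c e s' → s = s' := by
    intro e s s' h
    have hne : c (W.tgt e) - c (W.src e) ≠ 0 := sub_ne_zero.2 fun k => h1 e (h0 k).symm
    exact smul_left_injective ℝ hne (add_left_cancel h)
  have loc : ∀ w e s, 0 ≤ s → s ≤ 1 → drw c w = ln c e s →
      ∃ j, j ≤ W.len e ∧ w = W.pt e j ∧ s = j / W.len e := by
    intro w e s s0 s1 h
    rcases vert_cases w with ⟨x, rfl⟩ | ⟨e', j, j0, hj, rfl⟩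
    · have k : c x = c (W.src e) ∨ c x = c (W.tgt e) := by
        obtain ⟨e', he'⟩ := h2 x
        by_cases ee : e = e'
        · subst ee
          exact he'.imp (fun k => by rw [k]) fun k => by rw [k]
        · refine (h3 e e' (c x) ee ((show c x = _ from h) ▸ ln_mem c e s0 s1) ?_).1
          rcases he' with rfl | rfl
          exacts [left_mem_segment _ _ _, right_mem_segment _ _ _]
      rcases k with k | k
      · refine ⟨0, Nat.zero_le _, by rw [pt_zero, h0 k], ?_⟩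
        rw [← inj e 0 s (by rw [ln_zero, ← k]; exact h)]; simp
      · refine ⟨W.len e, le_rfl, by rw [pt_ge le_rfl, h0 k], ?_⟩
        rw [← inj e 1 s (by rw [ln_one, ← k]; exact h), div_self (pos e).ne']
    · rw [drw_pt c hj.le] at h
      by_cases ee : e' = e
      · subst ee
        exact ⟨j, hj.le, rfl, (inj _ _ _ h).symm⟩
      · have a0 : (0 : ℝ) < j / W.len e' := div_pos (by exact_mod_cast j0) (pos e')
        have a1 : (j : ℝ) / W.len e' < 1 := (div_lt_one (pos e')).2 (by exact_mod_cast hj)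
        rcases (h3 e' e _ ee (ln_mem c e' a0.le a1.le) (h ▸ ln_mem c e s0 s1)).1 with k | k
        · exact absurd (inj _ _ _ (k.trans (ln_zero c e').symm)) a0.ne'
        · exact absurd (inj _ _ _ (k.trans (ln_one c e').symm)) a1.ne
  have adj : ∀ u v, W.G.Adj u v → ∃ e j, j < W.len e ∧ s(u, v) = s(W.pt e j, W.pt e (j + 1)) ∧
      ∀ z ∈ segment ℝ (drw c u) (drw c v), ∃ s : ℝ, 0 ≤ s ∧ s ≤ 1 ∧ (j : ℝ) ≤ s * W.len e ∧
        s * W.len e ≤ j + 1 ∧ z = ln c e s := by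
    intro u v h
    have key : ∀ e j, j < W.len e → ∀ z ∈ segment ℝ (drw c (W.pt e j)) (drw c (W.pt e (j + 1))),
        ∃ s : ℝ, 0 ≤ s ∧ s ≤ 1 ∧ (j : ℝ) ≤ s * W.len e ∧ s * W.len e ≤ j + 1 ∧ z = ln c e s := by
      intro e j hj z hz
      have p := pos e
      rw [drw_pt c hj.le, drw_pt c hj] at hz
      obtain ⟨s, s0, s1, hs⟩ := seg_ln (div_le_div_of_nonneg_right (by simp) p.le) hz
      refine ⟨s, le_trans (by positivity) s0, s1.trans ((div_le_one p).2 (by exact_mod_cast hj)),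
        (div_le_iff₀ p).1 s0, by simpa using (le_div_iff₀ p).1 s1, hs⟩
    rcases move_cases (Or.inr h) with k | ⟨e, j, hj, ⟨rfl, rfl⟩ | ⟨rfl, rfl⟩⟩
    · exact absurd k h.ne'
    · exact ⟨e, j, hj, rfl, key e j hj⟩
    · exact ⟨e, j, hj, Sym2.eq_swap, fun z hz => key e j hj z (by rwa [segment_symm])⟩
  have on : ∀ u v w, W.G.Adj u v → drw c w ∈ segment ℝ (drw c u) (drw c v) → w = u ∨ w = v := by
    intro u v w h hw
    obtain ⟨e, j, -, k1, k2⟩ := adj u v h
    obtain ⟨s, s0, s1, s2, s3, hs⟩ := k2 _ hw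
    obtain ⟨k, -, rfl, rfl⟩ := loc w e s s0 s1 hs
    rw [div_mul_cancel₀ _ (pos e).ne'] at s2 s3
    have a1 : j ≤ k := by exact_mod_cast s2
    have a2 : k ≤ j + 1 := by exact_mod_cast s3
    rw [← Sym2.mem_iff, k1, Sym2.mem_iff]
    rcases (by omega : k = j ∨ k = j + 1) with rfl | rfl
    exacts [Or.inl rfl, Or.inr rfl]
  refine ⟨drw c, fun u v h => ?_, on, fun u v x y z huv hxy hne hz hz' => ?_⟩
  · have half : ∀ u e j, j < W.len e → drw c u = drw c (W.pt e j) → u = W.pt e j := by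
      intro u e j hj h
      rw [drw_pt c hj.le] at h
      obtain ⟨k, -, rfl, hk⟩ := loc u e _ (by have := pos e; positivity)
        ((div_le_one (pos e)).2 (by exact_mod_cast hj.le)) h
      obtain rfl : j = k := by exact_mod_cast (div_left_inj' (pos e).ne').1 hk
      rfl
    rcases vert_cases v with ⟨y, rfl⟩ | ⟨e, j, -, hj, rfl⟩
    · rcases vert_cases u with ⟨x, rfl⟩ | ⟨e, j, -, hj, rfl⟩
      · exact congrArg _ (h0 h)
      · exact (half _ e j hj h.symm).symm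
    · exact half u e j hj h
  · suffices k : ∃ w, z = drw c w by
      obtain ⟨w, rfl⟩ := k
      exact ⟨w, on u v w huv hz, on x y w hxy hz', rfl⟩
    obtain ⟨e, j, hj, k1, k2⟩ := adj u v huv
    obtain ⟨e', j', hj', k1', k2'⟩ := adj x y hxy
    obtain ⟨s, s0, s1, s2, s3, hs⟩ := k2 _ hz
    obtain ⟨s', s0', s1', s2', s3', hs'⟩ := k2' _ hz'
    by_cases ee : e = e'
    · subst ee
      obtain rfl := inj _ _ _ (hs.symm.trans hs')
      have jj : j ≠ j' := fun k => hne (by rw [k1, k1', k])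
      have key : ∀ m : ℕ, m ≤ W.len e → s * W.len e = m → ∃ w, z = drw c w := fun m hm h =>
        ⟨W.pt e m, by rw [drw_pt c hm, hs, ← h, mul_div_cancel_right₀ _ (pos e).ne']⟩
      rcases lt_or_gt_of_ne jj with k | k
      · have : (j : ℝ) + 1 ≤ j' := by exact_mod_cast k
        exact key j' hj'.le (by linarith)
      · have : (j' : ℝ) + 1 ≤ j := by exact_mod_cast k
        exact key j hj.le (by linarith)
    · rcases (h3 e e' z ee (hs ▸ ln_mem c e s0 s1) (hs' ▸ ln_mem c e' s0' s1')).1 with k | k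
      exacts [⟨.inl _, k⟩, ⟨.inl _, k⟩]

end WG

def det (a b c : ℤ × ℤ) : ℤ := (b.1 - a.1) * (c.2 - a.2) - (b.2 - a.2) * (c.1 - a.1)

/-- A certificate that the segments `ab` and `cd` meet at most in a common end. -/
def Ok (a b c d : ℤ × ℤ) : Prop :=
  (0 < det a b c ∧ 0 < det a b d) ∨ (det a b c < 0 ∧ det a b d < 0) ∨
  (a.2 < c.2 ∧ b.2 < c.2 ∧ a.2 < d.2 ∧ b.2 < d.2) ∨
  ((c = a ∨ c = b) ∧ (det a b d ≠ 0 ∨ (a.2 ≤ c.2 ∧ b.2 ≤ c.2 ∧ c.2 < d.2))) ∨
  ((d = a ∨ d = b) ∧ det a b c ≠ 0)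

instance (a b c d : ℤ × ℤ) : Decidable (Ok a b c d) := by unfold Ok; infer_instance

def rp (a : ℤ × ℤ) : ℝ × ℝ := (a.1, a.2)

theorem Ok.meet {a b c d : ℤ × ℤ} (h : Ok a b c d) {z : ℝ × ℝ} (h1 : z ∈ segment ℝ (rp a) (rp b))
    (h2 : z ∈ segment ℝ (rp c) (rp d)) : (z = rp a ∨ z = rp b) ∧ (z = rp c ∨ z = rp d) := by
  obtain ⟨s, t, hs, ht, hst, e1⟩ := h1
  obtain ⟨u, v, hu, hv, huv, e2⟩ := h2
  obtain rfl : s = 1 - t := by linarith
  obtain rfl : u = 1 - v := by linarith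
  have x1 : (1 - t) * a.1 + t * b.1 = (1 - v) * c.1 + v * d.1 := congrArg Prod.fst (e1.trans e2.symm)
  have x2 : (1 - t) * a.2 + t * b.2 = (1 - v) * c.2 + v * d.2 := congrArg Prod.snd (e1.trans e2.symm)
  have key : (1 - v) * (det a b c : ℝ) + v * det a b d = 0 := by
    simp only [det]; push_cast
    linear_combination ((b.2 : ℝ) - a.2) * x1 - ((b.1 : ℝ) - a.1) * x2
  have z0 : v = 0 → z = rp c := fun k => by rw [← e2, k]; simp
  have z1 : v = 1 → z = rp d := fun k => by rw [← e2, k]; simp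
  have da : det a b a = 0 := by simp [det]
  have db : det a b b = 0 := by simp only [det]; ring
  rcases h with ⟨k1, k2⟩ | ⟨k1, k2⟩ | ⟨k1, k2, k3, k4⟩ | ⟨k1, k2⟩ | ⟨k1, k2⟩
  · have k1' : (0 : ℝ) < det a b c := by exact_mod_cast k1
    have k2' : (0 : ℝ) < det a b d := by exact_mod_cast k2
    rcases hv.eq_or_lt with k | k <;> nlinarith
  · have k1' : (det a b c : ℝ) < 0 := by exact_mod_cast k1
    have k2' : (det a b d : ℝ) < 0 := by exact_mod_cast k2
    rcases hv.eq_or_lt with k | k <;> nlinarith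
  · have m1 : (a.2 : ℝ) ≤ max a.2 b.2 := by exact_mod_cast le_max_left _ _
    have m2 : (b.2 : ℝ) ≤ max a.2 b.2 := by exact_mod_cast le_max_right _ _
    have m3 : ((max a.2 b.2 : ℤ) : ℝ) + 1 ≤ c.2 := by exact_mod_cast (by omega)
    have m4 : ((max a.2 b.2 : ℤ) : ℝ) + 1 ≤ d.2 := by exact_mod_cast (by omega)
    nlinarith
  · have v0 : v = 0 := by
      rcases k2 with k2 | ⟨k2, k3, k4⟩
      · have : det a b c = 0 := by rcases k1 with rfl | rfl <;> assumption
        rw [this] at key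
        simpa [k2] using key
      · have k2' : (a.2 : ℝ) ≤ c.2 := by exact_mod_cast k2
        have k3' : (b.2 : ℝ) ≤ c.2 := by exact_mod_cast k3
        have k4' : (c.2 : ℝ) < d.2 := by exact_mod_cast k4
        rcases hv.eq_or_lt with k | k
        · exact k.symm
        · nlinarith
    exact ⟨k1.imp (fun k => by rw [← k]; exact z0 v0) fun k => by rw [← k]; exact z0 v0, Or.inl (z0 v0)⟩
  · have v1 : v = 1 := by
      have : det a b d = 0 := by rcases k1 with rfl | rfl <;> assumption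
      rw [this] at key
      have : 1 - v = 0 := by simpa [k2] using key
      linarith
    exact ⟨k1.imp (fun k => by rw [← k]; exact z1 v1) fun k => by rw [← k]; exact z1 v1, Or.inr (z1 v1)⟩

def cF : FN → ℤ × ℤ
  | .ce => (0, 0) | .h1 => (-1, 2) | .h2 => (1, 2) | .q1 => (-2, 1) | .q2 => (-1, -3)
  | .q3 => (1, -3) | .q4 => (2, 1) | .o1 => (-4, 0) | .o2 => (-3, -4) | .o3 => (3, -4)
  | .o4 => (4, 0) | .ha => (-3, 4) | .hb => (3, 4)

variable {P : Par}

def cz : Nd P → ℤ × ℤ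
  | .inl x => cF x
  | .inr i => (0, 3 + i)

def tz (e : FE) : ℤ × ℤ :=
  match tgt0 e with
  | some x => cF x
  | none => if e = .e1 then (0, 4) else (0, 3)

abbrev Ok2 (a b c d : ℤ × ℤ) : Prop := Ok a b c d ∨ Ok c d a b

theorem okFF : ∀ e e' : FE, e ≠ .ya ∧ e ≠ .yb → e' ≠ .ya ∧ e' ≠ .yb → e ≠ e' →
    Ok2 (cF (srcF e)) (tz e) (cF (srcF e')) (tz e') := by decide +kernel

theorem okFS (e : FE) (h : e ≠ .ya ∧ e ≠ .yb) {σ i : ℤ} (hi : (σ = -3 ∧ 1 ≤ i) ∨ (σ = 3 ∧ 0 ≤ i)) :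
    Ok2 (cF (srcF e)) (tz e) (σ, 4) (0, 3 + i) := by
  rcases hi with ⟨rfl, hi⟩ | ⟨rfl, hi⟩ <;> cases e <;> first
    | exact absurd rfl h.1
    | exact absurd rfl h.2
    | (simp only [Ok2, Ok, det, cF, srcF, tz, tgt0, Prod.mk.injEq, reduceCtorEq, if_true, if_false,
        true_and, and_true, true_or, or_true]
       omega)

theorem okFT (e : FE) (h : e ≠ .ya ∧ e ≠ .yb) {i : ℤ} (hi : 0 ≤ i) :
    Ok2 (cF (srcF e)) (tz e) (0, 3 + i) (0, 3 + (i + 1)) := by
  cases e <;> first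
    | exact absurd rfl h.1
    | exact absurd rfl h.2
    | (simp only [Ok2, Ok, det, cF, srcF, tz, tgt0, Prod.mk.injEq, reduceCtorEq, if_true, if_false,
        true_and, and_true, true_or, or_true]
       omega)

theorem okSS {σ i ρ j : ℤ} (hi : (σ = -3 ∧ 1 ≤ i) ∨ (σ = 3 ∧ 0 ≤ i ∧ i ≠ 1))
    (hj : (ρ = -3 ∧ 1 ≤ j) ∨ (ρ = 3 ∧ 0 ≤ j ∧ j ≠ 1)) (h : σ ≠ ρ ∨ i ≠ j) :
    Ok2 (σ, 4) (0, 3 + i) (ρ, 4) (0, 3 + j) := by
  rcases hi with ⟨rfl, hi⟩ | ⟨rfl, hi⟩ <;> rcases hj with ⟨rfl, hj⟩ | ⟨rfl, hj⟩ <;>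
    simp only [Ok2, Ok, det, Prod.mk.injEq, true_and, and_true, true_or, or_true] <;> omega

theorem okST {σ i j : ℤ} (hi : σ = -3 ∨ σ = 3) :
    Ok2 (σ, 4) (0, 3 + i) (0, 3 + j) (0, 3 + (j + 1)) := by
  rcases hi with rfl | rfl <;> simp only [Ok2, Ok, det, Prod.mk.injEq, true_and, and_true, true_or, or_true] <;> omega

theorem okTT {i j : ℤ} (h : i ≠ j) :
    Ok2 (0, 3 + i) (0, 3 + (i + 1)) (0, 3 + j) (0, 3 + (j + 1)) := by
  simp only [Ok2, Ok, det, Prod.mk.injEq, true_and, and_true, true_or, or_true]; omega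

theorem cz_cel {i : ℕ} (h : i ≤ P.K) : cz (cel P i) = (0, 3 + (i : ℤ)) := by
  simp only [cz, cel, min_eq_left h]

/-- The abscissa of the hub and the index of the cell of a spoke. -/
def spk : Ed P → ℤ × ℤ
  | .inl e => if e = .ya then (-3, P.K) else (3, P.K)
  | .inr (.inl i) => (if (i : ℕ) % 2 = 0 then 3 else -3, i)
  | .inr (.inr _) => (0, 0)

theorem geo (e : Ed P) :
    (∃ f : FE, e = fe P f ∧ (f ≠ .ya ∧ f ≠ .yb) ∧ cz (src P e) = cF (srcF f) ∧ cz (tgt P e) = tz f) ∨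
    ((e = fe P .ya ∨ e = fe P .yb ∨ ∃ i, e = sp P i) ∧
      (((spk e).1 = -3 ∧ 1 ≤ (spk e).2) ∨ ((spk e).1 = 3 ∧ 0 ≤ (spk e).2 ∧ (spk e).2 ≠ 1)) ∧
      cz (src P e) = ((spk e).1, 4) ∧ cz (tgt P e) = (0, 3 + (spk e).2)) ∨
    ∃ i : Fin P.K, e = tr P i ∧ cz (src P e) = (0, 3 + ((i : ℕ) : ℤ)) ∧
      cz (tgt P e) = (0, 3 + (((i : ℕ) : ℤ) + 1)) := by
  have := P.hK
  rcases e with f | i | i
  · by_cases h : f ≠ .ya ∧ f ≠ .yb
    · refine Or.inl ⟨f, rfl, h, rfl, ?_⟩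
      cases f <;> first
        | rfl
        | exact absurd rfl h.1
        | exact absurd rfl h.2
        | exact cz_cel (by omega)
    · rcases (by tauto : f = .ya ∨ f = .yb) with rfl | rfl
      · exact Or.inr (Or.inl ⟨Or.inl rfl, by simp [spk]; omega, rfl, cz_cel le_rfl⟩)
      · exact Or.inr (Or.inl ⟨Or.inr (Or.inl rfl), by simp [spk]; omega, rfl, cz_cel le_rfl⟩)
  · refine Or.inr (Or.inl ⟨Or.inr (Or.inr ⟨i, rfl⟩), by simp only [spk]; omega, ?_, cz_cel i.2.le⟩)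
    simp only [src, hub, spk]
    split_ifs <;> rfl
  · exact Or.inr (Or.inr ⟨i, rfl, cz_cel i.2.le, cz_cel (Nat.succ_le_of_lt i.2)⟩)

theorem ok_all (e e' : Ed P) (h : e ≠ e') :
    Ok2 (cz (src P e)) (cz (tgt P e)) (cz (src P e')) (cz (tgt P e')) := by
  rcases geo e with ⟨f, a1, a2, a3, a4⟩ | ⟨a1, a2, a3, a4⟩ | ⟨i, a1, a3, a4⟩ <;>
    rcases geo e' with ⟨f', b1, b2, b3, b4⟩ | ⟨b1, b2, b3, b4⟩ | ⟨i', b1, b3, b4⟩ <;>
    rw [a3, a4, b3, b4]
  · exact okFF f f' a2 b2 fun k => h (by rw [a1, b1, k])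
  · exact okFS f a2 (by omega)
  · exact okFT f a2 (by omega)
  · exact (okFS f' b2 (by omega)).symm
  · refine okSS a2 b2 ?_
    rcases a1 with rfl | rfl | ⟨i, rfl⟩ <;> rcases b1 with rfl | rfl | ⟨j, rfl⟩ <;> first
      | exact absurd rfl h
      | (simp [spk]; done)
      | (simp only [spk, reduceCtorEq, if_true, if_false]; omega)
      | (have : (i : ℕ) ≠ j := fun k => h (by rw [Fin.ext k])
         simp only [spk]; omega)
  · exact okST (by omega)
  · exact (okFT f' b2 (by omega)).symm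
  · exact (okST (by omega)).symm
  · have : (i : ℕ) ≠ i' := fun k => h (by rw [a1, b1, Fin.ext k])
    exact okTT (by omega)

theorem cz_inj : Function.Injective (cz (P := P)) := by
  have k1 : ∀ x y : FN, cF x = cF y → x = y := by decide
  have k2 : ∀ x : FN, (cF x).1 ≠ 0 ∨ (cF x).2 < 3 := by decide
  rintro (x | i) (y | j) h
  · exact congrArg _ (k1 x y h)
  · have := k2 x
    rw [show cF x = (0, 3 + ((j : ℕ) : ℤ)) from h] at this
    simp only at this; omega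
  · have := k2 y
    rw [← show (0, 3 + ((i : ℕ) : ℤ)) = cF y from h] at this
    simp only at this; omega
  · simp only [cz, Prod.mk.injEq] at h
    exact congrArg _ (Fin.ext (by omega))

theorem planar_W : Planar (W P).G := by
  refine planar_of (W := W P) (fun x => rp (cz x)) (fun x y h => cz_inj ?_) ?_ (fun x => ?_)
    fun e e' z h h1 h2 => ?_
  · simp only [rp, Prod.mk.injEq, Int.cast_inj] at h
    exact Prod.ext h.1 h.2
  · rintro (e | i | i) h
    · exact (by decide : ∀ e, tgt0 e ≠ some (srcF e)) e ((tgt0_iff e _).1 h.symm)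
    · exact cel_ne _ _ h.symm
    · have := cel_inj i.2.le (Nat.succ_le_of_lt i.2) h
      omega
  · rcases node_cases x with ⟨y, rfl⟩ | ⟨i, hi, rfl⟩
    · obtain ⟨e, he⟩ := (by decide : ∀ y, ∃ e, srcF e = y ∨ tgt0 e = some y) y
      exact ⟨fe P e, he.imp (congrArg Sum.inl) (tgt0_iff e y).2⟩
    · rcases hi.eq_or_lt with rfl | hi
      · exact ⟨fe P .ya, Or.inr rfl⟩
      · exact ⟨sp P ⟨i, hi⟩, Or.inr rfl⟩
  · rcases ok_all e e' h with k | k
    · exact k.meet h1 h2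
    · exact (k.meet h2 h1).symm

theorem Move.reachable {V : Type} {G : SimpleGraph V} {x y : V} (h : Move G x y) :
    G.Reachable x y := h.elim (fun k => k ▸ .refl _) fun k => k.reachable

theorem reach_pt {W : WG} (e : W.E) (j : ℕ) : W.G.Reachable (.inl (W.src e)) (W.pt e j) := by
  induction j with
  | zero => rw [pt_zero]
  | succ j ih => exact ih.trans (move_pt e j).reachable

theorem connected_W : (W P).G.Connected := by
  have ed : ∀ e, (W P).G.Reachable (.inl (src P e)) (.inl (tgt P e)) := fun e => by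
    have := reach_pt (W := W P) e (len P e)
    rwa [pt_ge le_rfl] at this
  have q1 := (ed (fe P .p1)).symm
  have q2 := (ed (fe P .p2)).symm
  have q3 := (ed (fe P .p3)).symm
  have q4 := (ed (fe P .p4)).symm
  have o1 := q1.trans (ed (fe P .u1)).symm
  have o4 := q4.trans (ed (fe P .u4)).symm
  have fx : ∀ x, (W P).G.Reachable (nd P .ce) (nd P x) := by
    intro x
    cases x
    exacts [o1.trans (ed (fe P .ra)).symm, o4.trans (ed (fe P .rb)).symm, o1,
      q2.trans (ed (fe P .u2)).symm, q3.trans (ed (fe P .u3)).symm, o4, (ed (fe P .pa)).symm,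
      (ed (fe P .pb)).symm, q1, q2, q3, q4, .refl _]
  have nx : ∀ x, (W P).G.Reachable (nd P .ce) (.inl x) := by
    intro x
    rcases node_cases x with ⟨y, rfl⟩ | ⟨i, hi, rfl⟩
    · exact fx y
    · rcases hi.eq_or_lt with rfl | hi
      · exact (fx _).trans (ed (fe P .ya))
      · exact (fx _).trans (ed (sp P ⟨i, hi⟩))
  have all : ∀ v, (W P).G.Reachable (nd P .ce) v := by
    intro v
    rcases vert_cases v with ⟨x, rfl⟩ | ⟨e, j, -, -, rfl⟩
    · exact nx x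
    · exact (nx _).trans (reach_pt e j)
  have : Nonempty (W P).V := ⟨nd P .ce⟩
  exact ⟨fun u v => (all u).symm.trans (all v)⟩

end Pool.Agent.Lib.MP_1fc36f_co.H40
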