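import Pool.Agent.Lib.MP_1fc36f_co.H40Upper
import Pool.Agent.Lib.MP_1fc36f_co.H40Lower
import Pool.Agent.Lib.MP_1fc36f_co.H40Plane

namespace Pool.Agent.Lib.MP_1fc36f_co.H40Quadratic

open Pool.Agent.Lib.MP_1fc36f_co.H40

/-- For every `n ≥ 2000` there is a connected planar graph on `n` vertices with cop number two
and capture time at least `n ^ 2 / 100`. -/
theorem quadratic (n : ℕ) (hn : 2000 ≤ n) :
    ∃ (V : Type) (_ : Fintype V) (G : SimpleGraph V), Fintype.card V = n ∧ G.Connected ∧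
      Planar G ∧ copNumber G = 2 ∧ n ^ 2 ≤ 100 * capt G := by
  obtain ⟨t, ht⟩ : ∃ t, t = (n - 254) / 12 := ⟨_, rfl⟩
  obtain ⟨K, hK⟩ : ∃ K, K = (n - 254 - 6 * t) / 3 := ⟨_, rfl⟩
  obtain ⟨P, e1, e2, e3⟩ : ∃ P : Par, P.t = t ∧ P.K = K ∧ P.p = n - 254 - 6 * t - 3 * K :=
    ⟨⟨t, K, n - 254 - 6 * t - 3 * K, by omega, by omega, by omega⟩, rfl, rfl, rfl⟩
  have zero : ∀ s (c : Fin 0 → (W P).V) r, ¬ Win (W P).G 0 s c r := by
    intro s
    induction s with
    | zero => rintro c r ⟨i, -⟩; exact i.elim0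
    | succ s ih =>
      rintro c r ⟨c', -, ⟨i, -⟩ | h⟩
      · exact i.elim0
      · exact ih c' r (h r (Move.refl _))
  have cop : copNumber (W P).G = 2 := by
    refine le_antisymm (Nat.sInf_le two_cops) (le_csInf ⟨2, two_cops⟩ ?_)
    rintro k ⟨s, hs⟩
    by_contra hk
    rcases (by omega : k = 0 ∨ k = 1) with rfl | rfl
    · obtain ⟨c, hc⟩ := hs
      exact zero s c _ (hc (nd P .ce))
    · exact one_cop_loses s hs
  refine ⟨(W P).V, Fintype.ofFinite _, (W P).G, ?_, connected_W, planar_W, cop, ?_⟩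
  · rw [← @Nat.card_eq_fintype_card _ (Fintype.ofFinite _), card_W]
    omega
  · have mem : CaptureWithin (W P).G 2 (capt (W P).G) := by
      unfold capt
      rw [cop]
      exact Nat.sInf_mem (two_cops (P := P))
    have lt : (K - 6) * (t + 3) < capt (W P).G :=
      lt_of_not_ge fun h => two_cops_slow (by rwa [e1, e2]) mem
    obtain ⟨u, rfl⟩ : ∃ u, t = u + 145 := ⟨t - 145, by omega⟩
    have h1 : (2 * u + 284) * (u + 145 + 3) ≤ (K - 6) * (u + 145 + 3) :=
      Nat.mul_le_mul_right _ (by omega)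
    have h2 : n ^ 2 ≤ (12 * u + 2005) ^ 2 := Nat.pow_le_pow_left (by omega) 2
    nlinarith

end Pool.Agent.Lib.MP_1fc36f_co.H40Quadratic
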