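import Pool.Agent.Lib.MP_1fc36f_co.H39Aut
import Pool.Agent.Lib.MP_1fc36f_co.H40Lin

/-! Forbidden regions for a single cop, and a checker for covering facts about them. -/

namespace Pool.Agent.Lib.MP_1fc36f_co.H40L

open Pool.Agent.Lib.MP_1fc36f_co.H40 Pool.Agent.Lib.MP_1fc36f_co.H39 WG

/-- Index tables of a weighted graph with lengths `a * n + b`, node distances `dA * n + dB` and
a rotation. -/
structure Gr where
  nN : ℕ
  nE : ℕ
  src : ℕ → ℕ
  tgt : ℕ → ℕ
  a : ℕ → ℕ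
  b : ℕ → ℕ
  dA : ℕ → ℕ → ℕ
  dB : ℕ → ℕ → ℕ
  rn : ℕ → ℕ
  re : ℕ → ℕ
  rA : ℕ → ℕ
  rB : ℕ → ℕ
  one : ℕ

/-- Entry `v` of a row of 12-bit numbers. -/
def fld (R v : ℕ) : ℕ := Nat.mod (Nat.shiftRight R (Nat.mul 12 v)) 4096

/-- The row with `k` entries equal to one. -/
def rep : ℕ → ℕ
  | 0 => 0
  | k + 1 => 1 + 4096 * rep k

/-- The weighted graph `W` is described by the tables `G` for the parameter `n`. -/
structure Mod (G : Gr) (n : ℕ) (W : WG) where
  ix : W.N → ℕ
  ie : W.E → ℕ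
  nd : ℕ → W.N
  ed : ℕ → W.E
  ix_lt : ∀ v, ix v < G.nN
  ie_lt : ∀ e, ie e < G.nE
  ix_nd : ∀ k, k < G.nN → ix (nd k) = k
  nd_ix : ∀ v, nd (ix v) = v
  ie_ed : ∀ k, k < G.nE → ie (ed k) = k
  ed_ie : ∀ e, ed (ie e) = e
  hs : ∀ e, ix (W.src e) = G.src (ie e)
  ht : ∀ e, ix (W.tgt e) = G.tgt (ie e)
  hl : ∀ e, W.len e = G.a (ie e) * n + G.b (ie e)
  I : Iso W W
  rn : ∀ v, ix (I.n v) = G.rn (ix v)
  re : ∀ e, ie (I.e e) = G.re (ie e)
  fit : ∀ w, w < G.nN → ∀ e, Fit (fun v => (G.dA w (ix v) : ℤ) * n + G.dB w (ix v)) e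
  diag : ∀ w, w < G.nN → G.dA w w = 0 ∧ G.dB w w = 0
  rotd : ∀ w, w < G.nN → ∀ v, v < G.nN →
    G.dA (G.rn w) (G.rn v) = G.dA w v ∧ G.dB (G.rn w) (G.rn v) = G.dB w v
  one : G.one = rep G.nN
  rowA : ∀ w, w < G.nN → ∀ v, v < G.nN → fld (G.rA w) v / 2 = G.dA w v ∧ fld (G.rA w) v < 2048
  rowB : ∀ w, w < G.nN → ∀ v, v < G.nN → fld (G.rB w) v / 2 = G.dB w v ∧ fld (G.rB w) v < 2048

/-- A ball round a node, or a piece of an edge with its neighbourhood. -/
structure Src where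
  seg : Bool
  id : ℕ
  lo : LF
  hi : LF

variable {G : Gr} {n : ℕ} {W : WG} (M : Mod G n W)

/-- The distance potential of the node with index `w`. -/
def Mod.D (w : ℕ) : W.V → ℤ := ext fun v => (G.dA w (M.ix v) : ℤ) * n + G.dB w (M.ix v)

/-- The vertex `c` is at distance more than `θ` from the source. -/
def Mod.Out (x y θ : ℤ) (c : W.V) (s : Src) : Prop :=
  match s.seg with
  | false => θ < M.D s.id c + s.lo.ev n x y
  | true => θ < M.D (G.src s.id) c + s.lo.ev n x y ∧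
      θ < M.D (G.tgt s.id) c + ((G.a s.id : ℤ) * n + G.b s.id) - s.hi.ev n x y ∧
      ∀ e (j : ℕ), 0 < j → j < W.len e → c = W.pt e j → M.ie e = s.id →
        θ < s.lo.ev n x y - j ∨ θ < j - s.hi.ev n x y

def Src.ok (G : Gr) (s : Src) : Bool :=
  match s.seg with
  | false => decide (s.id < G.nN)
  | true => decide (s.id < G.nE)

def Src.rot (G : Gr) (s : Src) : Src :=
  match s.seg with
  | false => ⟨false, G.rn s.id, s.lo, s.hi⟩
  | true => ⟨true, G.re s.id, s.lo, s.hi⟩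

/-- Substitute the counters and grow by `la * n + lb`. -/
def Src.mv (X Y : LF) (la lb : ℤ) (s : Src) : Src :=
  ⟨s.seg, s.id, (s.lo.subst X Y).add2 (-lb) (-la), (s.hi.subst X Y).add2 lb la⟩

namespace Mod

variable {M}

theorem lipD {w : ℕ} (hw : w < G.nN) : Lip W.G (M.D w) := lip_ext (M.fit w hw)

theorem D_self (v : W.N) : M.D (M.ix v) (Sum.inl v) = 0 := by
  obtain ⟨h1, h2⟩ := M.diag _ (M.ix_lt v)
  simp [D, h1, h2]

theorem len_cast (e : W.E) : (W.len e : ℤ) = (G.a (M.ie e) : ℤ) * n + G.b (M.ie e) := by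
  rw [M.hl]; push_cast; rfl

theorem rn_lt (M : Mod G n W) {w : ℕ} (hw : w < G.nN) : G.rn w < G.nN := by
  rw [← M.ix_nd w hw, ← M.rn]; exact M.ix_lt _

theorem re_lt (M : Mod G n W) {e : ℕ} (he : e < G.nE) : G.re e < G.nE := by
  rw [← M.ie_ed e he, ← M.re]; exact M.ie_lt _

theorem D_rot {w : ℕ} (hw : w < G.nN) (c : W.V) : M.D (G.rn w) (M.I.g c) = M.D w c := by
  unfold D
  rw [M.I.ext_g]
  congr 1
  funext v
  obtain ⟨h1, h2⟩ := M.rotd w hw _ (M.ix_lt v)
  rw [M.rn, h1, h2]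

theorem out_mv {x y θ : ℤ} {c : W.V} {s : Src} {X Y : LF} {la lb : ℤ} :
    M.Out x y θ c (s.mv X Y la lb) ↔
      M.Out (X.ev n x y) (Y.ev n x y) (θ + (la * n + lb)) c s := by
  obtain ⟨sg, id, lo, hi⟩ := s
  cases sg
  · simp only [Out, Src.mv, LF.ev_add2, LF.ev_subst, neg_mul]; omega
  · simp only [Out, Src.mv, LF.ev_add2, LF.ev_subst, neg_mul]
    refine and_congr (by omega) (and_congr (by omega) ?_)
    refine forall₂_congr fun e j => forall₄_congr fun _ _ _ _ => by omega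

theorem ok_rot {s : Src} (h : s.ok G = true) (M : Mod G n W) : (s.rot G).ok G = true := by
  obtain ⟨sg, id, lo, hi⟩ := s
  cases sg
  exacts [decide_eq_true (M.rn_lt (of_decide_eq_true h)), decide_eq_true (M.re_lt (of_decide_eq_true h))]

theorem out_rot {x y θ : ℤ} {c : W.V} {s : Src} (h : s.ok G = true)
    (k : M.Out x y θ (M.I.g c) (s.rot G)) : M.Out x y θ c s := by
  obtain ⟨sg, id, lo, hi⟩ := s
  cases sg <;> simp only [Src.ok, decide_eq_true_eq] at h
  · simp only [Out, Src.rot] at k ⊢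
    rwa [D_rot h] at k
  · obtain ⟨e, rfl⟩ : ∃ e, id = M.ie e := ⟨M.ed id, (M.ie_ed id h).symm⟩
    simp only [Out, Src.rot] at k ⊢
    rw [← M.re, ← M.hs, ← M.ht, ← len_cast, M.I.hs, M.I.ht, M.I.hl, M.rn, M.rn,
      D_rot (M.ix_lt _), D_rot (M.ix_lt _)] at k
    rw [← M.hs, ← M.ht, ← len_cast]
    refine ⟨k.1, k.2.1, fun e' j h0 hj hc he => ?_⟩
    obtain rfl : e' = e := by rw [← M.ed_ie e', he, M.ed_ie]
    exact k.2.2 (M.I.e e') j h0 (by rwa [M.I.hl]) (by rw [hc, M.I.g_pt]) rfl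

theorem out_step {x y θ : ℤ} {c c' : W.V} {s : Src} (h : s.ok G = true)
    (k : M.Out x y (θ + 1) c s) (m : Move W.G c c') : M.Out x y θ c' s := by
  obtain ⟨sg, id, lo, hi⟩ := s
  cases sg <;> simp only [Src.ok, decide_eq_true_eq] at h
  · have := lipD (M := M) h _ _ m
    simp only [Out] at k ⊢
    omega
  · obtain ⟨e, rfl⟩ : ∃ e, id = M.ie e := ⟨M.ed id, (M.ie_ed id h).symm⟩
    simp only [Out] at k ⊢
    rw [← M.hs, ← M.ht, ← len_cast] at k ⊢
    obtain ⟨k1, k2, k3⟩ := k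
    have l1 := lipD (M := M) (M.ix_lt (W.src e)) _ _ m
    have l2 := lipD (M := M) (M.ix_lt (W.tgt e)) _ _ m
    refine ⟨by omega, by omega, fun e' j h0 hj hc he => ?_⟩
    obtain rfl : e' = e := by rw [← M.ed_ie e', he, M.ed_ie]
    subst hc
    rcases move_mid h0 hj c m.symm with rfl | rfl | rfl
    · rcases Nat.eq_zero_or_pos (j - 1) with z | z
      · rw [z, pt_zero, D_self] at k1; omega
      · have := k3 e' (j - 1) z (by omega) rfl rfl
        omega
    · have := k3 e' j h0 hj rfl rfl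
      omega
    · by_cases z : j + 1 < W.len e'
      · have := k3 e' (j + 1) (by omega) z rfl rfl
        omega
      · rw [pt_ge (by omega), D_self] at k2; omega

end Mod

/-- The form `d(w, v) + t`. -/
def dd (G : Gr) (w v : ℕ) (t : LF) : LF := t.add2 (G.dB w v) (G.dA w v)

/-- The offset of the far end of an edge piece. -/
def far (G : Gr) (s : Src) : LF := s.hi.neg.add2 (G.b s.id) (G.a s.id)

def ballN (G : Gr) (v : ℕ) (Γ : Cx) (w : ℕ) (t : LF) : Bool := pv3 Γ ((dd G w v t).add2 (-1) 0)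

def ballE (G : Gr) (e : ℕ) (Γ : Cx) (w : ℕ) (t : LF) : Bool :=
  pvP Γ ((dd G w (G.src e) t).add2 (-1) 0) &&
    pvM Γ ((dd G w (G.tgt e) t).add2 (G.b e - 1) (G.a e))

def nearN (G : Gr) (v : ℕ) (Γ : Cx) (w : ℕ) (t : LF) : Bool := pv3 Γ (dd G w v t).neg

def nearE (G : Gr) (e : ℕ) (Γ : Cx) (w : ℕ) (t : LF) : Bool :=
  pvM Γ (dd G w (G.src e) t).neg || pvP Γ ((dd G w (G.tgt e) t).add2 (G.b e) (G.a e)).neg

def outN (G : Gr) (v : ℕ) (Γ : Cx) (s : Src) : Bool :=
  match s.seg with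
  | false => ballN G v Γ s.id s.lo
  | true => ballN G v Γ (G.src s.id) s.lo && ballN G v Γ (G.tgt s.id) (far G s)

def outE (G : Gr) (e : ℕ) (Γ : Cx) (s : Src) : Bool :=
  match s.seg with
  | false => ballE G e Γ s.id s.lo
  | true => ballE G e Γ (G.src s.id) s.lo && ballE G e Γ (G.tgt s.id) (far G s) &&
      (!(Nat.beq e s.id) || pvM Γ (s.lo.add2 (-1) 0) || pvP Γ (s.hi.neg.add2 (-1) 0))

def inN (G : Gr) (v : ℕ) (Γ : Cx) (s : Src) : Bool :=
  match s.seg with
  | false => nearN G v Γ s.id s.lo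
  | true => nearN G v Γ (G.src s.id) s.lo || nearN G v Γ (G.tgt s.id) (far G s)

def inE (G : Gr) (e : ℕ) (Γ : Cx) (s : Src) : Bool :=
  match s.seg with
  | false => nearE G e Γ s.id s.lo
  | true => nearE G e Γ (G.src s.id) s.lo || nearE G e Γ (G.tgt s.id) (far G s) ||
      (Nat.beq e s.id && pvP Γ s.lo.neg && pvM Γ s.hi)

section Sound

variable {M} {Γ : Cx} {x y i : ℤ}

theorem D_node (w : ℕ) (v : W.N) :
    M.D w (Sum.inl v) = (G.dA w (M.ix v) : ℤ) * n + G.dB w (M.ix v) := rfl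

theorem D_mid (w : ℕ) {e : W.E} {j : ℕ} (h0 : 0 < j) (hj : j < W.len e) :
    M.D w (W.pt e j) = min ((G.dA w (G.src (M.ie e)) : ℤ) * n + G.dB w (G.src (M.ie e)) + j)
      ((G.dA w (G.tgt (M.ie e)) : ℤ) * n + G.dB w (G.tgt (M.ie e)) +
        ((G.a (M.ie e) : ℤ) * n + G.b (M.ie e)) - j) := by
  rw [pt_mid ⟨h0, hj⟩, ← M.hs, ← M.ht, ← Mod.len_cast]; rfl

theorem ev_far (s : Src) :
    (far G s).ev n x y = ((G.a s.id : ℤ) * n + G.b s.id) - s.hi.ev n x y := by
  rw [far, LF.ev_add2, LF.ev_neg]; ring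

theorem ballN_sound (S : Γ.Sat n x y i) {v : W.N} {w : ℕ} {t : LF}
    (k : ballN G (M.ix v) Γ w t = true) : 0 < M.D w (Sum.inl v) + t.ev n x y := by
  have := pv3_sound S k
  simp only [dd, LF.ev_add2] at this
  rw [D_node]; omega

theorem nearN_sound (S : Γ.Sat n x y i) {v : W.N} {w : ℕ} {t : LF}
    (k : nearN G (M.ix v) Γ w t = true) : M.D w (Sum.inl v) + t.ev n x y ≤ 0 := by
  have := pv3_sound S k
  simp only [dd, LF.ev_add2, LF.ev_neg] at this
  rw [D_node]; omega

theorem ballE_sound {e : W.E} {j : ℕ} (S : Γ.Sat n x y j) (h0 : 0 < j) (hj : j < W.len e) {w : ℕ}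
    {t : LF} (k : ballE G (M.ie e) Γ w t = true) : 0 < M.D w (W.pt e j) + t.ev n x y := by
  rw [ballE, Bool.and_eq_true] at k
  have k1 := pvP_sound S k.1
  have k2 := pvM_sound S k.2
  simp only [dd, LF.ev_add2] at k1 k2
  rw [D_mid w h0 hj]; omega

theorem nearE_sound {e : W.E} {j : ℕ} (S : Γ.Sat n x y j) (h0 : 0 < j) (hj : j < W.len e) {w : ℕ}
    {t : LF} (k : nearE G (M.ie e) Γ w t = true) : M.D w (W.pt e j) + t.ev n x y ≤ 0 := by
  rw [nearE, Bool.or_eq_true] at k
  rw [D_mid w h0 hj]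
  rcases k with k | k
  · have k1 := pvM_sound S k
    simp only [dd, LF.ev_add2, LF.ev_neg] at k1
    omega
  · have k1 := pvP_sound S k
    simp only [dd, LF.ev_add2, LF.ev_neg] at k1
    omega

theorem outN_sound (S : Γ.Sat n x y i) {v : W.N} {s : Src} (k : outN G (M.ix v) Γ s = true) :
    M.Out x y 0 (Sum.inl v) s := by
  obtain ⟨sg, id, lo, hi⟩ := s
  cases sg
  · exact ballN_sound S k
  · simp only [outN, Bool.and_eq_true] at k
    have k2 := ballN_sound S k.2
    rw [ev_far] at k2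
    refine ⟨ballN_sound S k.1, by simp only at k2 ⊢; omega, fun e j h0 hj hc _ => ?_⟩
    rw [pt_mid ⟨h0, hj⟩] at hc
    exact absurd hc Sum.inl_ne_inr

theorem inN_sound (S : Γ.Sat n x y i) {v : W.N} {s : Src} (k : inN G (M.ix v) Γ s = true) :
    ¬ M.Out x y 0 (Sum.inl v) s := by
  obtain ⟨sg, id, lo, hi⟩ := s
  cases sg
  · exact not_lt.2 (nearN_sound S k)
  · simp only [inN, Bool.or_eq_true] at k
    rintro ⟨k1, k2, -⟩
    rcases k with k | k
    · exact absurd k1 (not_lt.2 (nearN_sound S k))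
    · have := nearN_sound S k
      rw [ev_far] at this
      simp only at this k2
      omega

theorem outE_sound {e : W.E} {j : ℕ} (S : Γ.Sat n x y j) (h0 : 0 < j) (hj : j < W.len e)
    {s : Src} (k : outE G (M.ie e) Γ s = true) : M.Out x y 0 (W.pt e j) s := by
  obtain ⟨sg, id, lo, hi⟩ := s
  cases sg
  · exact ballE_sound S h0 hj k
  · simp only [outE, Bool.and_eq_true, Bool.or_eq_true, Bool.not_eq_true'] at k
    have k2 := ballE_sound S h0 hj k.1.2
    rw [ev_far] at k2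
    refine ⟨ballE_sound S h0 hj k.1.1, by simp only at k2 ⊢; omega, fun e' j' _ _ hc he => ?_⟩
    obtain ⟨rfl, rfl⟩ := pt_eq_mid ⟨h0, hj⟩ hc
    rcases k.2 with (k | k) | k
    · simp only at he
      rw [he, Nat.beq_refl] at k
      exact absurd k (by simp)
    · have := pvM_sound S k
      rw [LF.ev_add2] at this
      left; simp only; omega
    · have := pvP_sound S k
      rw [LF.ev_add2, LF.ev_neg] at this
      right; simp only; omega

theorem inE_sound {e : W.E} {j : ℕ} (S : Γ.Sat n x y j) (h0 : 0 < j) (hj : j < W.len e)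
    {s : Src} (k : inE G (M.ie e) Γ s = true) : ¬ M.Out x y 0 (W.pt e j) s := by
  obtain ⟨sg, id, lo, hi⟩ := s
  cases sg
  · exact not_lt.2 (nearE_sound S h0 hj k)
  · simp only [inE, Bool.or_eq_true, Bool.and_eq_true] at k
    rintro ⟨k1, k2, k3⟩
    rcases k with (k | k) | ⟨⟨k, k4⟩, k5⟩
    · exact absurd k1 (not_lt.2 (nearE_sound S h0 hj k))
    · have := nearE_sound S h0 hj k
      rw [ev_far] at this
      simp only at this k2
      omega
    · have := k3 e j h0 hj rfl (Nat.eq_of_beq_eq_true k)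
      have k4 := pvP_sound S k4
      have k5 := pvM_sound S k5
      rw [LF.ev_neg] at k4
      simp only at this
      omega

end Sound

section Mask

theorem fld_eq (R v : ℕ) : fld R v = R / 2 ^ (12 * v) % 4096 := by
  change (R >>> (12 * v)) % 4096 = _
  rw [Nat.shiftRight_eq_div_pow]

theorem fld_rep {c : ℕ} (hc : c < 4096) : ∀ k v, v < k → fld (c * rep k) v = c := by
  intro k
  induction k with
  | zero => intro v h; omega
  | succ k ih =>
    intro v h
    have e : c * rep (k + 1) = c + 4096 * (c * rep k) := by rw [rep]; ring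
    rw [fld_eq, e]
    cases v with
    | zero => simp only [Nat.mul_zero, pow_zero, Nat.div_one]; omega
    | succ v =>
      have := ih v (by omega)
      rw [fld_eq] at this
      rw [show 2 ^ (12 * (v + 1)) = 4096 * 2 ^ (12 * v) by ring, ← Nat.div_div_eq_div_mul,
        show (c + 4096 * (c * rep k)) / 4096 = c * rep k by omega, this]

theorem fld_add (R K v : ℕ) : ∃ c, c ≤ 1 ∧ fld (R + K) v = (fld R v + fld K v + c) % 4096 := by
  have hp : 0 < 2 ^ (12 * v) := by positivity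
  simp only [fld_eq]
  rw [Nat.add_div hp]
  split_ifs
  · exact ⟨1, le_rfl, by omega⟩
  · exact ⟨0, Nat.zero_le _, by omega⟩

/-- The top bit of entry `v`. -/
def bit (m v : ℕ) : Bool := Nat.ble 2048 (fld m v)

theorem bit_eq (m v : ℕ) : bit m v = m.testBit (12 * v + 11) := by
  rw [Nat.testBit_eq_decide_div_mod_eq, pow_add, ← Nat.div_div_eq_div_mul, Bool.eq_iff_iff, bit,
    fld_eq, Nat.ble_eq, decide_eq_true_iff]
  omega

theorem bit_land (a b v : ℕ) : bit (Nat.land a b) v = (bit a v && bit b v) := by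
  simp only [bit_eq]; exact Nat.testBit_land a b _

theorem bit_lor (a b v : ℕ) : bit (Nat.lor a b) v = (bit a v || bit b v) := by
  simp only [bit_eq]; exact Nat.testBit_lor a b _

theorem bit_zero (v : ℕ) : bit 0 v = false := by simp [bit_eq]

/-- Marks the entries `2 * d + 1` with `τ ≤ d`. -/
def gem (one R τ : ℕ) : ℕ := bif Nat.ble τ 1000 then R + (2047 - 2 * τ) * one else 0

/-- Marks the entries `2 * d + 1` with `σ < d`. -/
def lem (one R : ℕ) : ℤ → ℕ
  | .ofNat σ => R + (2046 - 2 * σ) * one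
  | .negSucc _ => 2048 * one

theorem gem_sound {k R τ v : ℕ} (hv : v < k) (h : bit (gem (rep k) R τ) v = true) :
    τ ≤ fld R v / 2 := by
  unfold gem at h
  cases ht : Nat.ble τ 1000 <;> rw [ht] at h
  · rw [cond_false, bit_zero] at h; exact absurd h (by simp)
  · obtain ⟨c, hc, e⟩ := fld_add R ((2047 - 2 * τ) * rep k) v
    have := Nat.le_of_ble_eq_true ht
    rw [cond_true, bit, e, fld_rep (by omega) k v hv, Nat.ble_eq] at h
    omega

theorem bit_all {k v : ℕ} (hv : v < k) : bit (2048 * rep k) v = true := by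
  rw [bit, fld_rep (by omega) k v hv]; rfl

theorem lem_sound {k R v : ℕ} {σ : ℤ} (hv : v < k) (hR : fld R v < 2048)
    (h : bit (lem (rep k) R σ) v = false) : ((fld R v / 2 : ℕ) : ℤ) ≤ σ := by
  cases σ with
  | ofNat σ =>
    obtain ⟨c, hc, e⟩ := fld_add R ((2046 - 2 * σ) * rep k) v
    have h' : ¬ 2048 ≤ fld (R + (2046 - 2 * σ) * rep k) v := fun k' => by
      rw [lem, bit, Nat.ble_eq_true_of_le k'] at h; exact absurd h (by simp)
    rw [e, fld_rep (by omega) k v hv] at h'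
    have : fld R v / 2 ≤ σ := by omega
    exact Int.ofNat_le.2 this
  | negSucc m => rw [lem, bit_all hv] at h; exact absurd h (by simp)

def low2 (Γ : Cx) (c h : ℤ) : ℤ → Option (ℤ × ℤ)
  | .ofNat 0 => some (c, h)
  | .ofNat (k + 1) => Γ.xl.head?.map fun l => (c + .ofNat (k + 1) * l.c, h + .ofNat (k + 1) * l.h)
  | .negSucc k => Γ.xu.head?.map fun l => (c + .negSucc k * l.c, h + .negSucc k * l.h)

def low3 (Γ : Cx) (c h p : ℤ) : ℤ → Option (ℤ × ℤ)
  | .ofNat 0 => low2 Γ c h p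
  | .ofNat (k + 1) => Γ.yl.head?.bind fun l =>
      low2 Γ (c + .ofNat (k + 1) * l.c) (h + .ofNat (k + 1) * l.h) (p + .ofNat (k + 1) * l.p)
  | .negSucc k => Γ.yu.head?.bind fun l =>
      low2 Γ (c + .negSucc k * l.c) (h + .negSucc k * l.h) (p + .negSucc k * l.p)

/-- A lower bound that does not depend on the counters. -/
def low (Γ : Cx) (f : LF) : Option (ℤ × ℤ) := low3 Γ f.c f.h f.p f.q

theorem low2_sound {Γ : Cx} {n x y j : ℤ} (s : Γ.Sat n x y j) {c h p : ℤ} {z : ℤ × ℤ}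
    (k : low2 Γ c h p = some z) : z.1 + z.2 * n ≤ c + h * n + p * x := by
  match p, k with
  | .ofNat 0, k => obtain rfl := Option.some.inj k; simp
  | .ofNat (m + 1), k =>
    obtain ⟨l, hl, rfl⟩ := Option.map_eq_some_iff.1 k
    have k2 := mul_le_mul_of_nonneg_left (s.xl l (List.mem_of_mem_head? hl))
      (Int.natCast_nonneg (m + 1))
    change c + ((m + 1 : ℕ) : ℤ) * l.c + (h + ((m + 1 : ℕ) : ℤ) * l.h) * n ≤
      c + h * n + ((m + 1 : ℕ) : ℤ) * x
    linarith
  | .negSucc m, k =>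
    obtain ⟨l, hl, rfl⟩ := Option.map_eq_some_iff.1 k
    have k2 := mul_le_mul_of_nonpos_left (s.xu l (List.mem_of_mem_head? hl))
      (Int.negSucc_lt_zero m).le
    simp only
    linarith

theorem low_sound {Γ : Cx} {n x y j : ℤ} (s : Γ.Sat n x y j) {f : LF} {z : ℤ × ℤ}
    (k : low Γ f = some z) : z.1 + z.2 * n ≤ f.ev n x y := by
  obtain ⟨c, h, p, q⟩ := f
  simp only [low, LF.ev] at k ⊢
  match q, k with
  | .ofNat 0, k => simpa using low2_sound s k
  | .ofNat (m + 1), k =>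
    obtain ⟨l, hl, k⟩ := Option.bind_eq_some_iff.1 k
    have k1 := low2_sound s k
    have k2 := mul_le_mul_of_nonneg_left (s.yl l (List.mem_of_mem_head? hl))
      (Int.natCast_nonneg (m + 1))
    change z.1 + z.2 * n ≤ c + h * n + p * x + ((m + 1 : ℕ) : ℤ) * y
    change z.1 + z.2 * n ≤ c + ((m + 1 : ℕ) : ℤ) * l.c + (h + ((m + 1 : ℕ) : ℤ) * l.h) * n +
      (p + ((m + 1 : ℕ) : ℤ) * l.p) * x at k1
    linarith
  | .negSucc m, k =>
    obtain ⟨l, hl, k⟩ := Option.bind_eq_some_iff.1 k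
    have k1 := low2_sound s k
    have k2 := mul_le_mul_of_nonpos_left (s.yu l (List.mem_of_mem_head? hl))
      (Int.negSucc_lt_zero m).le
    linarith

/-- The nodes that are certainly outside a ball. -/
def ballM (G : Gr) (Γ : Cx) (w : ℕ) (t : LF) : ℕ :=
  match low Γ t with
  | some z => bif Nat.blt w G.nN then
      Nat.land (gem G.one (G.rA w) (-z.2).toNat) (gem G.one (G.rB w) (1 - z.1).toNat) else 0
  | none => 0

/-- The complement of the nodes that are certainly inside a ball. -/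
def nearM (G : Gr) (Γ : Cx) (w : ℕ) (t : LF) : ℕ :=
  match low Γ t.neg with
  | some z => bif Nat.blt w G.nN then
      Nat.lor (lem G.one (G.rA w) z.2) (lem G.one (G.rB w) z.1) else 2048 * G.one
  | none => 2048 * G.one

def outM (G : Gr) (Γ : Cx) (s : Src) : ℕ :=
  match s.seg with
  | false => ballM G Γ s.id s.lo
  | true => Nat.land (ballM G Γ (G.src s.id) s.lo) (ballM G Γ (G.tgt s.id) (far G s))

def inM (G : Gr) (Γ : Cx) (s : Src) : ℕ :=
  match s.seg with
  | false => nearM G Γ s.id s.lo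
  | true => Nat.land (nearM G Γ (G.src s.id) s.lo) (nearM G Γ (G.tgt s.id) (far G s))

variable {M} {Γ : Cx} {x y i : ℤ}

theorem ballM_sound (S : Γ.Sat n x y i) {v : W.N} {w : ℕ} {t : LF}
    (k : bit (ballM G Γ w t) (M.ix v) = true) : 0 < M.D w (Sum.inl v) + t.ev n x y := by
  unfold ballM at k
  split at k
  · rename_i z hz
    cases hw : Nat.blt w G.nN <;> rw [hw] at k
    · rw [cond_false, bit_zero] at k; exact absurd k (by simp)
    · have hw := Nat.blt_eq.mp hw
      rw [cond_true, bit_land, Bool.and_eq_true, M.one] at k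
      have k1 := gem_sound (M.ix_lt v) k.1
      have k2 := gem_sound (M.ix_lt v) k.2
      rw [(M.rowA w hw _ (M.ix_lt v)).1] at k1
      rw [(M.rowB w hw _ (M.ix_lt v)).1] at k2
      have k3 := low_sound S hz
      have k4 : 0 ≤ ((G.dA w (M.ix v) : ℤ) + z.2) * n := mul_nonneg (by omega) S.n0
      rw [add_mul] at k4
      rw [D_node]; omega
  · rw [bit_zero] at k; exact absurd k (by simp)

theorem nearM_sound (S : Γ.Sat n x y i) {v : W.N} {w : ℕ} {t : LF}
    (k : bit (nearM G Γ w t) (M.ix v) = false) : M.D w (Sum.inl v) + t.ev n x y ≤ 0 := by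
  have all : bit (2048 * G.one) (M.ix v) = true := by rw [M.one]; exact bit_all (M.ix_lt v)
  unfold nearM at k
  split at k
  · rename_i z hz
    cases hw : Nat.blt w G.nN <;> rw [hw] at k
    · rw [cond_false, all] at k; exact absurd k (by simp)
    · have hw := Nat.blt_eq.mp hw
      rw [cond_true, bit_lor, Bool.or_eq_false_iff, M.one] at k
      have k1 := lem_sound (M.ix_lt v) (M.rowA w hw _ (M.ix_lt v)).2 k.1
      have k2 := lem_sound (M.ix_lt v) (M.rowB w hw _ (M.ix_lt v)).2 k.2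
      rw [(M.rowA w hw _ (M.ix_lt v)).1] at k1
      rw [(M.rowB w hw _ (M.ix_lt v)).1] at k2
      have k3 := low_sound S hz
      have k4 := mul_le_mul_of_nonneg_right k1 S.n0
      rw [LF.ev_neg] at k3
      rw [D_node]; omega
  · rw [all] at k; exact absurd k (by simp)

theorem outM_sound (S : Γ.Sat n x y i) {v : W.N} {s : Src}
    (k : bit (outM G Γ s) (M.ix v) = true) : M.Out x y 0 (Sum.inl v) s := by
  obtain ⟨sg, id, lo, hi⟩ := s
  cases sg
  · exact ballM_sound S k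
  · simp only [outM, bit_land, Bool.and_eq_true] at k
    have k2 := ballM_sound S k.2
    rw [ev_far] at k2
    refine ⟨ballM_sound S k.1, by simp only at k2 ⊢; omega, fun e j h0 hj hc _ => ?_⟩
    rw [pt_mid ⟨h0, hj⟩] at hc
    exact absurd hc Sum.inl_ne_inr

theorem inM_sound (S : Γ.Sat n x y i) {v : W.N} {s : Src}
    (k : bit (inM G Γ s) (M.ix v) = false) : ¬ M.Out x y 0 (Sum.inl v) s := by
  obtain ⟨sg, id, lo, hi⟩ := s
  cases sg
  · exact not_lt.2 (nearM_sound S k)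
  · simp only [inM, bit_land, Bool.and_eq_false_iff] at k
    rintro ⟨k1, k2, -⟩
    rcases k with k | k
    · exact absurd k1 (not_lt.2 (nearM_sound S k))
    · have := nearM_sound S k
      rw [ev_far] at this
      simp only at this k2
      omega

theorem out_mid {e : W.E} {j : ℕ} (h0 : 0 < j) (hj : j < W.len e) {s : Src}
    (h1 : M.Out x y 0 (Sum.inl (W.src e)) s) (h2 : M.Out x y 0 (Sum.inl (W.tgt e)) s)
    (h3 : (s.seg && Nat.beq (M.ie e) s.id) = false) : M.Out x y 0 (W.pt e j) s := by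
  have hl := M.len_cast e
  obtain ⟨sg, id, lo, hi⟩ := s
  cases sg
  · simp only [Mod.Out, D_node, D_mid _ h0 hj, M.hs, M.ht] at h1 h2 ⊢
    omega
  · simp only [Mod.Out, D_node, D_mid _ h0 hj, M.hs, M.ht] at h1 h2 ⊢
    refine ⟨by omega, by omega, fun e' j' _ _ hc he => ?_⟩
    obtain ⟨rfl, rfl⟩ := pt_eq_mid ⟨h0, hj⟩ hc
    rw [he] at h3
    simp at h3

end Mask

/-- Case distinctions for one class of vertices. -/
inductive Tr
  | auto
  | typ (i : ℕ)
  | bad
  | sx (u : LF) (l r : Tr)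
  | sy (u : LF) (l r : Tr)
  | sj (u : LF) (l r : Tr)

def chkT (P : List Src) (T : List (List (Src × ℕ))) (oc : Cx → Src × ℕ → Bool)
    (ic : Cx → Src → Bool) : Tr → Cx → Bool
  | .auto, Γ => (T.any fun S => S.all (oc Γ)) || P.any (ic Γ) || emp Γ
  | .typ i, Γ => ((T.drop i).take 1).any fun S => S.all (oc Γ)
  | .bad, Γ => P.any (ic Γ) || emp Γ
  | .sx u l r, Γ => chkT P T oc ic l (Γ.xle u) && chkT P T oc ic r (Γ.xgt u)
  | .sy u l r, Γ => chkT P T oc ic l (Γ.yle u) && chkT P T oc ic r (Γ.ygt u)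
  | .sj u l r, Γ => chkT P T oc ic l (Γ.jle u) && chkT P T oc ic r (Γ.jgt u)

theorem chkT_sound {P : List Src} {T : List (List (Src × ℕ))} {oc : Cx → Src × ℕ → Bool}
    {ic : Cx → Src → Bool} {O : Src → Prop} {O' : Src × ℕ → Prop}
    {n x y j : ℤ} (ho : ∀ Γ s, Γ.Sat n x y j → oc Γ s = true → O' s)
    (hi : ∀ Γ s, Γ.Sat n x y j → ic Γ s = true → ¬ O s) (hP : ∀ s ∈ P, O s) (t : Tr) :
    ∀ Γ, Γ.Sat n x y j → chkT P T oc ic t Γ = true → ∃ S ∈ T, ∀ s ∈ S, O' s := by
  induction t with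
  | auto =>
    intro Γ S k
    simp only [chkT, Bool.or_eq_true, List.any_eq_true, List.all_eq_true] at k
    rcases k with (⟨A, hA, k⟩ | ⟨s, hs, k⟩) | k
    · exact ⟨A, hA, fun s hs => ho Γ s S (k s hs)⟩
    · exact absurd (hP s hs) (hi Γ s S k)
    · exact (emp_sound S k).elim
  | typ i =>
    intro Γ S k
    simp only [chkT, List.any_eq_true, List.all_eq_true] at k
    obtain ⟨A, hA, k⟩ := k
    exact ⟨A, List.mem_of_mem_drop (List.mem_of_mem_take hA), fun s hs => ho Γ s S (k s hs)⟩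
  | bad =>
    intro Γ S k
    simp only [chkT, Bool.or_eq_true, List.any_eq_true] at k
    rcases k with ⟨s, hs, k⟩ | k
    · exact absurd (hP s hs) (hi Γ s S k)
    · exact (emp_sound S k).elim
  | sx u l r il ir =>
    intro Γ S k
    simp only [chkT, Bool.and_eq_true] at k
    exact (S.splitx u).elim (fun s => il _ s k.1) fun s => ir _ s k.2
  | sy u l r il ir =>
    intro Γ S k
    simp only [chkT, Bool.and_eq_true] at k
    exact (S.splity u).elim (fun s => il _ s k.1) fun s => ir _ s k.2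
  | sj u l r il ir =>
    intro Γ S k
    simp only [chkT, Bool.and_eq_true] at k
    exact (S.splitj u).elim (fun s => il _ s k.1) fun s => ir _ s k.2

def look (k : ℕ) : List (ℕ × Tr) → Tr
  | [] => .auto
  | z :: r => bif Nat.beq z.1 k then z.2 else look k r

def andM (G : Gr) (l : List ℕ) : ℕ := l.foldr Nat.land (2048 * G.one)

def orM (l : List ℕ) : ℕ := l.foldr Nat.lor 0

theorem andM_true {l : List ℕ} {v : ℕ} (h : bit (andM G l) v = true) : ∀ m ∈ l, bit m v = true := by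
  induction l with
  | nil => simp
  | cons a l ih =>
    rw [andM, List.foldr_cons, bit_land, Bool.and_eq_true] at h
    exact List.forall_mem_cons.2 ⟨h.1, ih h.2⟩

theorem andM_false (M : Mod G n W) {l : List ℕ} {v : ℕ} (hv : v < G.nN)
    (h : bit (andM G l) v = false) : ∃ m ∈ l, bit m v = false := by
  induction l with
  | nil => rw [andM, List.foldr_nil, M.one, bit_all hv] at h; exact absurd h (by simp)
  | cons a l ih =>
    rw [andM, List.foldr_cons, bit_land, Bool.and_eq_false_iff] at h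
    rcases h with h | h
    · exact ⟨a, List.mem_cons_self, h⟩
    · obtain ⟨m, hm, k⟩ := ih h
      exact ⟨m, List.mem_cons_of_mem _ hm, k⟩

theorem orM_true {l : List ℕ} {v : ℕ} (h : bit (orM l) v = true) : ∃ m ∈ l, bit m v = true := by
  induction l with
  | nil => rw [orM, List.foldr_nil, bit_zero] at h; exact absurd h (by simp)
  | cons a l ih =>
    rw [orM, List.foldr_cons, bit_lor, Bool.or_eq_true] at h
    rcases h with h | h
    · exact ⟨a, List.mem_cons_self, h⟩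
    · obtain ⟨m, hm, k⟩ := ih h
      exact ⟨m, List.mem_cons_of_mem _ hm, k⟩

def tm (G : Gr) (S : List (Src × ℕ)) : ℕ := andM G (S.map Prod.snd)

def ocN (G : Gr) (v : ℕ) (Γ : Cx) (a : Src × ℕ) : Bool := bit a.2 v || outN G v Γ a.1

def away (e : ℕ) (s : Src) : Bool := !(s.seg && Nat.beq e s.id)

def ocE (G : Gr) (e : ℕ) (Γ : Cx) (a : Src × ℕ) : Bool :=
  (bit a.2 (G.src e) && bit a.2 (G.tgt e) && away e a.1) || outE G e Γ a.1

def factN (G : Gr) (Γ : Cx) (P : List Src) (T : List (List (Src × ℕ))) (cn : List (ℕ × Tr))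
    (good bad : ℕ) : Bool :=
  (List.range G.nN).all fun v => bit good v || !bit bad v ||
    chkT P T (ocN G v) (inN G v) (look v cn) (Γ.setj [] [])

def factE (G : Gr) (Γ : Cx) (P : List Src) (T : List (List (Src × ℕ))) (ce : List (ℕ × Tr))
    (U : List (ℕ × List (Src × ℕ))) : Bool :=
  (List.range G.nE).all fun e => (Nat.beq (G.a e) 0 && Nat.ble (G.b e) 1) ||
    (U.any fun u => bit u.1 (G.src e) && bit u.1 (G.tgt e) && u.2.all fun a => away e a.1) ||
    chkT P T (ocE G e) (inE G e) (look e ce) (Γ.setj [⟨1, 0, 0, 0⟩] [⟨G.b e - 1, G.a e, 0, 0⟩])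

def fact' (G : Gr) (Γ : Cx) (P : List Src) (T : List (List (Src × ℕ))) (cn ce : List (ℕ × Tr)) :
    Bool :=
  factN G Γ P T cn (orM (T.map (tm G))) (andM G (P.map (inM G Γ))) &&
    factE G Γ P T ce (T.map fun S => (tm G S, S.filter fun a => a.1.seg))

theorem fact'_sound {Γ : Cx} {P : List Src} {T : List (List (Src × ℕ))} {cn ce : List (ℕ × Tr)}
    {x y i : ℤ} (S : Γ.Sat n x y i) (k : fact' G Γ P T cn ce = true)
    (hT : ∀ A ∈ T, ∀ a ∈ A, ∀ v, bit a.2 (M.ix v) = true → M.Out x y 0 (Sum.inl v) a.1) (c : W.V)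
    (hP : ∀ s ∈ P, M.Out x y 0 c s) : ∃ A ∈ T, ∀ a ∈ A, M.Out x y 0 c a.1 := by
  simp only [fact', factN, factE, Bool.and_eq_true, List.all_eq_true, List.mem_range,
    Bool.or_eq_true, Bool.not_eq_true', List.any_eq_true] at k
  rcases vert_cases c with ⟨v, rfl⟩ | ⟨e, j, h0, hj, rfl⟩
  · rcases k.1 _ (M.ix_lt v) with (k | k) | k
    · obtain ⟨_, hm, k⟩ := orM_true k
      obtain ⟨A, hA, rfl⟩ := List.mem_map.1 hm
      exact ⟨A, hA, fun a ha => hT A hA a ha v (andM_true k _ (List.mem_map_of_mem ha))⟩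
    · obtain ⟨_, hm, k⟩ := andM_false M (M.ix_lt v) k
      obtain ⟨s, hs, rfl⟩ := List.mem_map.1 hm
      exact absurd (hP s hs) (inM_sound S k)
    · obtain ⟨A, hA, k⟩ := chkT_sound (j := 0) (O' := fun a => (bit a.2 (M.ix v) = true →
          M.Out x y 0 (Sum.inl v) a.1) → M.Out x y 0 (Sum.inl v) a.1)
        (fun _ _ S k h => (Bool.or_eq_true _ _ ▸ k : _ ∨ _).elim h (outN_sound S))
        (fun _ _ S k => inN_sound S k) hP _ _ (S.setj (by simp) (by simp)) k
      exact ⟨A, hA, fun a ha => k a ha (hT A hA a ha v)⟩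
  · have hl := M.len_cast e
    rcases k.2 _ (M.ie_lt e) with (⟨k1, k2⟩ | ⟨_, hu, ⟨k1, k2⟩, k3⟩) | k
    · have k1 := Nat.eq_of_beq_eq_true k1
      have k2 := Nat.le_of_ble_eq_true k2
      rw [k1] at hl
      omega
    · obtain ⟨A, hA, rfl⟩ := List.mem_map.1 hu
      rw [← M.hs] at k1
      rw [← M.ht] at k2
      refine ⟨A, hA, fun a ha => out_mid h0 hj
        (hT A hA a ha _ (andM_true k1 _ (List.mem_map_of_mem ha)))
        (hT A hA a ha _ (andM_true k2 _ (List.mem_map_of_mem ha))) ?_⟩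
      cases hs : a.1.seg
      · rfl
      · have := k3 a (List.mem_filter.2 ⟨ha, hs⟩)
        simpa [away, hs] using this
    · obtain ⟨A, hA, k⟩ := chkT_sound (j := j) (O' := fun a => (∀ v, bit a.2 (M.ix v) = true →
          M.Out x y 0 (Sum.inl v) a.1) → M.Out x y 0 (W.pt e j) a.1)
        (fun _ a S k h => by
          simp only [ocE, Bool.or_eq_true, Bool.and_eq_true, away, Bool.not_eq_true'] at k
          rcases k with ⟨⟨k1, k2⟩, k3⟩ | k
          · exact out_mid h0 hj (h _ (M.hs e ▸ k1)) (h _ (M.ht e ▸ k2)) k3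
          · exact outE_sound S h0 hj k)
        (fun _ _ S k => inE_sound S h0 hj k) hP _ _ (S.setj
          (by simp only [List.mem_singleton, forall_eq, LF.ev]; omega)
          (by simp only [List.mem_singleton, forall_eq, LF.ev]; omega)) k
      exact ⟨A, hA, fun a ha => k a ha (hT A hA a ha)⟩

end Pool.Agent.Lib.MP_1fc36f_co.H40L
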