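import Pool.Agent.Lib.MP_1fc36f_co.H40Graph

/-! Distance tables and the covering facts used by the robber. -/

namespace Pool.Agent.Lib.MP_1fc36f_co.H40

open WG

variable {P : Par}

def no1 (t p : ℤ) : FN → ℤ
  | .ha => 8 | .hb => 11 | .o1 => 0 | .o2 => 8 | .o3 => p + 16
  | .o4 => 19 | .h1 => t + 15 | .h2 => t + 16 | .q1 => t | .q2 => t + 8
  | .q3 => t + p + 16 | .q4 => t + 19 | .ce => t + 19

def no2 (t p : ℤ) : FN → ℤ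
  | .ha => 16 | .hb => 19 | .o1 => 8 | .o2 => 0 | .o3 => p + 8
  | .o4 => p + 16 | .h1 => t + 22 | .h2 => t + 22 | .q1 => t + 8 | .q2 => t
  | .q3 => t + p + 8 | .q4 => t + p + 16 | .ce => t + 19

def no3 (t p : ℤ) : FN → ℤ
  | .ha => 19 | .hb => 16 | .o1 => p + 16 | .o2 => p + 8 | .o3 => 0
  | .o4 => 8 | .h1 => t + 21 | .h2 => t + 21 | .q1 => t + p + 16 | .q2 => t + p + 8
  | .q3 => t | .q4 => t + 8 | .ce => t + 19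

def no4 (t p : ℤ) : FN → ℤ
  | .ha => 11 | .hb => 8 | .o1 => 19 | .o2 => p + 16 | .o3 => 8
  | .o4 => 0 | .h1 => t + 16 | .h2 => t + 15 | .q1 => t + 19 | .q2 => t + p + 16
  | .q3 => t + 8 | .q4 => t | .ce => t + 19

def nq1 (t p : ℤ) : FN → ℤ
  | .ha => t + 8 | .hb => t + 11 | .o1 => t | .o2 => t + 8 | .o3 => t + p + 16
  | .o4 => t + 19 | .h1 => 18 | .h2 => 20 | .q1 => 0 | .q2 => 18
  | .q3 => 36 | .q4 => 38 | .ce => 19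

def nq2 (t p : ℤ) : FN → ℤ
  | .ha => t + 16 | .hb => t + 19 | .o1 => t + 8 | .o2 => t | .o3 => t + p + 8
  | .o4 => t + p + 16 | .h1 => 36 | .h2 => 38 | .q1 => 18 | .q2 => 0
  | .q3 => 18 | .q4 => 36 | .ce => 19

def nq3 (t p : ℤ) : FN → ℤ
  | .ha => t + 19 | .hb => t + 16 | .o1 => t + p + 16 | .o2 => t + p + 8 | .o3 => t
  | .o4 => t + 8 | .h1 => 38 | .h2 => 36 | .q1 => 36 | .q2 => 18
  | .q3 => 0 | .q4 => 18 | .ce => 19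

def nq4 (t p : ℤ) : FN → ℤ
  | .ha => t + 11 | .hb => t + 8 | .o1 => t + 19 | .o2 => t + p + 16 | .o3 => t + 8
  | .o4 => t | .h1 => 20 | .h2 => 18 | .q1 => 38 | .q2 => 36
  | .q3 => 18 | .q4 => 0 | .ce => 19

def nce (t : ℤ) : FN → ℤ
  | .ha => t + 27 | .hb => t + 27 | .o1 => t + 19 | .o2 => t + 19 | .o3 => t + 19
  | .o4 => t + 19 | .h1 => 23 | .h2 => 23 | .q1 => 19 | .q2 => 19
  | .q3 => 19 | .q4 => 19 | .ce => 0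

def nh1 (t : ℤ) : FN → ℤ
  | .ha => t + 7 | .hb => t + 8 | .o1 => t + 15 | .o2 => t + 23 | .o3 => t + 24
  | .o4 => t + 16 | .h1 => 0 | .h2 => 2 | .q1 => 18 | .q2 => 36
  | .q3 => 38 | .q4 => 20 | .ce => 23

def nh2 (t : ℤ) : FN → ℤ
  | .ha => t + 8 | .hb => t + 7 | .o1 => t + 16 | .o2 => t + 24 | .o3 => t + 23
  | .o4 => t + 15 | .h1 => 2 | .h2 => 0 | .q1 => 20 | .q2 => 38
  | .q3 => 36 | .q4 => 18 | .ce => 23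

def nJ1 (t : ℤ) : FN → ℤ
  | .ha => 3 | .hb => 3 | .o1 => 11 | .o2 => 19 | .o3 => 19
  | .o4 => 11 | .h1 => t + 4 | .h2 => t + 5 | .q1 => t + 11 | .q2 => t + 19
  | .q3 => t + 19 | .q4 => t + 11 | .ce => t + 27

def nJ0 (t : ℤ) : FN → ℤ
  | .ha => 3 | .hb => 3 | .o1 => 11 | .o2 => 19 | .o3 => 19
  | .o4 => 11 | .h1 => t + 5 | .h2 => t + 4 | .q1 => t + 11 | .q2 => t + 19
  | .q3 => t + 19 | .q4 => t + 11 | .ce => t + 27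

def do1 (P : Par) : Nd P → ℤ :=
  nv (no1 P.t P.p) fun i => min (12 - (i : ℤ) % 2) (10 + P.K - i)

def do2 (P : Par) : Nd P → ℤ :=
  nv (no2 P.t P.p) fun _ => 18

def do3 (P : Par) : Nd P → ℤ :=
  nv (no3 P.t P.p) fun _ => 17

def do4 (P : Par) : Nd P → ℤ :=
  nv (no4 P.t P.p) fun i => min (11 + (i : ℤ) % 2) (9 + P.K - i)

def dq1 (P : Par) : Nd P → ℤ :=
  nv (nq1 P.t P.p) fun _ => P.t + 10

def dq2 (P : Par) : Nd P → ℤ :=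
  nv (nq2 P.t P.p) fun _ => P.t + 18

def dq3 (P : Par) : Nd P → ℤ :=
  nv (nq3 P.t P.p) fun _ => P.t + 17

def dq4 (P : Par) : Nd P → ℤ :=
  nv (nq4 P.t P.p) fun _ => P.t + 9

def dce (P : Par) : Nd P → ℤ :=
  nv (nce P.t) fun _ => P.t + 27

def dh1 (P : Par) : Nd P → ℤ :=
  nv (nh1 P.t) fun i => min (P.t + 4 + max ((i : ℤ) - 1) (1 - i)) (P.t + 9)

def dh2 (P : Par) : Nd P → ℤ :=
  nv (nh2 P.t) fun i => min (P.t + 4 + (i : ℤ)) (P.t + 8)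

def dJ1 (P : Par) : Nd P → ℤ :=
  nv (nJ1 P.t) fun i => max (1 - (i : ℤ)) (max 0 (i + 2 - P.K))

def dJ0 (P : Par) : Nd P → ℤ :=
  nv (nJ0 P.t) fun i => if i = 1 then 1 else max 0 ((i : ℤ) + 2 - P.K)

abbrev Do1 (P : Par) : (W P).V → ℤ := ext (W := W P) (do1 P)
abbrev Do2 (P : Par) : (W P).V → ℤ := ext (W := W P) (do2 P)
abbrev Do3 (P : Par) : (W P).V → ℤ := ext (W := W P) (do3 P)
abbrev Do4 (P : Par) : (W P).V → ℤ := ext (W := W P) (do4 P)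
abbrev Dq1 (P : Par) : (W P).V → ℤ := ext (W := W P) (dq1 P)
abbrev Dq2 (P : Par) : (W P).V → ℤ := ext (W := W P) (dq2 P)
abbrev Dq3 (P : Par) : (W P).V → ℤ := ext (W := W P) (dq3 P)
abbrev Dq4 (P : Par) : (W P).V → ℤ := ext (W := W P) (dq4 P)
abbrev Dce (P : Par) : (W P).V → ℤ := ext (W := W P) (dce P)
abbrev Dh1 (P : Par) : (W P).V → ℤ := ext (W := W P) (dh1 P)
abbrev Dh2 (P : Par) : (W P).V → ℤ := ext (W := W P) (dh2 P)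
abbrev DJ1 (P : Par) : (W P).V → ℤ := ext (W := W P) (dJ1 P)
abbrev DJ0 (P : Par) : (W P).V → ℤ := ext (W := W P) (dJ0 P)

theorem fit_all (e : Ed P) :
    Fit (W := W P) (do1 P) e ∧ Fit (W := W P) (do2 P) e ∧ Fit (W := W P) (do3 P) e ∧ Fit (W := W
    P) (do4 P) e ∧ Fit (W := W P) (dq1 P) e ∧ Fit (W := W P) (dq2 P) e ∧ Fit (W := W P) (dq3 P)
    e ∧ Fit (W := W P) (dq4 P) e ∧ Fit (W := W P) (dce P) e ∧ Fit (W := W P) (dh1 P) e ∧ Fit (W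
    := W P) (dh2 P) e ∧ Fit (W := W P) (dJ1 P) e ∧ Fit (W := W P) (dJ0 P) e := by
  have := P.ht
  have := P.hK
  have := P.hp
  rcases e with e | i | i
  · cases e <;> simp only [Fit, src, tgt, len, srcF, tgtF, lenF, nv_inl, nv_cel,
      do1, do2, do3, do4, dq1, dq2, dq3, dq4, dce, dh1, dh2, dJ1, dJ0, no1, no2, no3, no4, nq1,
      nq2, nq3, nq4, nce, nh1, nh2, nJ1, nJ0] <;>
      refine ⟨?_, ?_, ?_, ?_, ?_, ?_, ?_, ?_, ?_, ?_, ?_, ?_, ?_⟩ <;> omega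
  · rcases Nat.mod_two_eq_zero_or_one i with c | c
    · simp only [Fit, src, tgt, len, nv_inl, nv_cel' i.2.le, hub_even c,
      do1, do2, do3, do4, dq1, dq2, dq3, dq4, dce, dh1, dh2, dJ1, dJ0, no1, no2, no3, no4, nq1,
      nq2, nq3, nq4, nce, nh1, nh2, nJ1, nJ0]
      refine ⟨?_, ?_, ?_, ?_, ?_, ?_, ?_, ?_, ?_, ?_, ?_, ?_, ?_⟩ <;> omega
    · simp only [Fit, src, tgt, len, nv_inl, nv_cel' i.2.le, hub_odd c,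
      do1, do2, do3, do4, dq1, dq2, dq3, dq4, dce, dh1, dh2, dJ1, dJ0, no1, no2, no3, no4, nq1,
      nq2, nq3, nq4, nce, nh1, nh2, nJ1, nJ0]
      refine ⟨?_, ?_, ?_, ?_, ?_, ?_, ?_, ?_, ?_, ?_, ?_, ?_, ?_⟩ <;> omega
  · simp only [Fit, src, tgt, len, nv_cel' i.2.le, nv_cel' (Nat.succ_le_of_lt i.2),
      do1, do2, do3, do4, dq1, dq2, dq3, dq4, dce, dh1, dh2, dJ1, dJ0]
    refine ⟨?_, ?_, ?_, ?_, ?_, ?_, ?_, ?_, ?_, ?_, ?_, ?_, ?_⟩ <;> omega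

theorem lip_o1 : Lip (W P).G (Do1 P) := lip_ext fun e => (fit_all e).1
theorem lip_o2 : Lip (W P).G (Do2 P) := lip_ext fun e => (fit_all e).2.1
theorem lip_o3 : Lip (W P).G (Do3 P) := lip_ext fun e => (fit_all e).2.2.1
theorem lip_o4 : Lip (W P).G (Do4 P) := lip_ext fun e => (fit_all e).2.2.2.1
theorem lip_q1 : Lip (W P).G (Dq1 P) := lip_ext fun e => (fit_all e).2.2.2.2.1
theorem lip_q2 : Lip (W P).G (Dq2 P) := lip_ext fun e => (fit_all e).2.2.2.2.2.1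
theorem lip_q3 : Lip (W P).G (Dq3 P) := lip_ext fun e => (fit_all e).2.2.2.2.2.2.1
theorem lip_q4 : Lip (W P).G (Dq4 P) := lip_ext fun e => (fit_all e).2.2.2.2.2.2.2.1
theorem lip_ce : Lip (W P).G (Dce P) := lip_ext fun e => (fit_all e).2.2.2.2.2.2.2.2.1
theorem lip_h1 : Lip (W P).G (Dh1 P) := lip_ext fun e => (fit_all e).2.2.2.2.2.2.2.2.2.1
theorem lip_h2 : Lip (W P).G (Dh2 P) := lip_ext fun e => (fit_all e).2.2.2.2.2.2.2.2.2.2.1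
theorem lip_J1 : Lip (W P).G (DJ1 P) := lip_ext fun e => (fit_all e).2.2.2.2.2.2.2.2.2.2.2.1
theorem lip_J0 : Lip (W P).G (DJ0 P) := lip_ext fun e => (fit_all e).2.2.2.2.2.2.2.2.2.2.2.2

/-- The index of a cell, and `-1` for the other vertices. -/
def ix : (W P).V → ℤ
  | .inl (.inr i) => i
  | _ => -1

/-- The distance to the last inner vertex of a leg, cut off at its first end. -/
def gl (e0 : FE) : (W P).V → ℤ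
  | .inl _ => P.t + 3
  | .inr y => if y.1.1 = fe P e0 then P.t + 3 - y.1.2 else P.t + 3

theorem ix_cl {i : ℕ} (h : i ≤ P.K) : ix (cl P i) = i := by
  simp only [ix, cl, cel, min_eq_left h]

theorem ix_pt {e : Ed P} {j : ℕ} (h0 : 0 < j) (hj : j < len P e) : ix ((W P).pt e j) = -1 := by
  rw [pt_mid (W := W P) ⟨h0, hj⟩]; rfl

theorem gl_pt (e0 : FE) {e : Ed P} {j : ℕ} (h0 : 0 < j) (hj : j < len P e) :
    gl e0 ((W P).pt e j) = if e = fe P e0 then (P.t : ℤ) + 3 - j else P.t + 3 := by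
  rw [pt_mid (W := W P) ⟨h0, hj⟩]; rfl

theorem ext_mid (d : Nd P → ℤ) {e : Ed P} {j : ℕ} (h0 : 0 < j) (hj : j < len P e) :
    ext (W := W P) d ((W P).pt e j) = min (d (src P e) + j) (d (tgt P e) + len P e - j) := by
  rw [pt_mid (W := W P) ⟨h0, hj⟩]; rfl

/-- The covering facts at one vertex, in terms of its potentials. -/
structure Facts (t p K o1 o2 o3 o4 q1 q2 q3 q4 ce h1 h2 J1 J0 x g1 g0 : ℤ) : Prop where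
  ao1 : 0 < o1 → (t < q1 ∨ 19 < o4) ∧ (8 < o2 ∨ t < q1) ∧ (8 < o2 ∨ t + 15 < h1)
  bo1 : 0 < o1 → o1 ≤ 1 → (t < q1 ∧ 19 < o4) ∨ (8 < o2 ∧ t < q1) ∨ (8 < o2 ∧ t + 15 < h1)
  ao2 : 0 < o2 → (8 < o1 ∨ t < q2) ∧ (8 < o1 ∨ 8 + p < o3) ∧ (8 + p < o3 ∨ t < q2)
  bo2 : 0 < o2 → o2 ≤ 1 → (8 < o1 ∧ t < q2) ∨ (8 < o1 ∧ 8 + p < o3) ∨ (8 + p < o3 ∧ t < q2)
  ao3 : 0 < o3 → (8 + p < o2 ∨ 8 < o4) ∧ (8 + p < o2 ∨ t < q3) ∧ (8 < o4 ∨ t < q3)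
  bo3 : 0 < o3 → o3 ≤ 1 → (8 + p < o2 ∧ 8 < o4) ∨ (8 + p < o2 ∧ t < q3) ∨ (8 < o4 ∧ t < q3)
  ao4 : 0 < o4 → (8 < o3 ∨ t < q4) ∧ (t < q4 ∨ 19 < o1) ∧ (8 < o3 ∨ t + 15 < h2)
  bo4 : 0 < o4 → o4 ≤ 1 → (8 < o3 ∧ t < q4) ∨ (t < q4 ∧ 19 < o1) ∨ (8 < o3 ∧ t + 15 < h2)
  aq1 : 0 < q1 → (18 < h1 ∨ 18 < q2) ∧ (t < o1 ∨ 19 < ce)
  bq1 : 0 < q1 → q1 ≤ 1 → (18 < h1 ∧ 18 < q2) ∨ (t < o1 ∧ 19 < ce)
  aq2 : 0 < q2 → (18 < q1 ∨ 18 < q3) ∧ (t < o2 ∨ 19 < ce)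
  bq2 : 0 < q2 → q2 ≤ 1 → (18 < q1 ∧ 18 < q3) ∨ (t < o2 ∧ 19 < ce)
  aq3 : 0 < q3 → (18 < q2 ∨ 18 < q4) ∧ (t < o3 ∨ 19 < ce)
  bq3 : 0 < q3 → q3 ≤ 1 → (18 < q2 ∧ 18 < q4) ∨ (t < o3 ∧ 19 < ce)
  aq4 : 0 < q4 → (18 < q3 ∨ 18 < h2) ∧ (t < o4 ∨ 19 < ce)
  bq4 : 0 < q4 → q4 ≤ 1 → (18 < q3 ∧ 18 < h2) ∨ (t < o4 ∧ 19 < ce)
  ace : 0 < ce → (19 < q1 ∨ 19 < q3 ∨ 23 < h1) ∧ (19 < q1 ∨ 19 < q3 ∨ 19 < q4) ∧ (19 < q1 ∨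
    19 < q2 ∨ 19 < q4) ∧ (19 < q2 ∨ 19 < q3 ∨ 23 < h1)
  bce : 0 < ce → ce ≤ 1 → (19 < q1 ∧ 19 < q3 ∧ 23 < h1) ∨ (19 < q1 ∧ 19 < q3 ∧ 19 < q4) ∨ (19
    < q1 ∧ 19 < q2 ∧ 19 < q4) ∨ (19 < q2 ∧ 19 < q3 ∧ 23 < h1)
  ah1 : 0 < h1 → (18 < q1 ∨ 2 < h2) ∧ (23 < ce ∨ t + 4 < J1)
  bh1 : 0 < h1 → h1 ≤ 1 → (18 < q1 ∧ 2 < h2) ∨ (23 < ce ∧ t + 4 < J1)
  ah2 : 0 < h2 → (18 < q4 ∨ 2 < h1) ∧ (23 < ce ∨ t + 4 < J0)
  bh2 : 0 < h2 → h2 ≤ 1 → (18 < q4 ∧ 2 < h1) ∨ (23 < ce ∧ t + 4 < J0)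
  z1 : o1 ≤ 11 → h1 ≤ t + 4 ∨ h2 ≤ t + 5 → x = 1
  z0 : o4 ≤ 11 → h1 ≤ t + 5 ∨ h2 ≤ t + 4 → x = 0 ∨ x = 2
  y1 : h1 ≤ t + 4 → h2 ≤ t + 5 → o4 ≤ 12 → x = 1
  y0 : h1 ≤ t + 5 → h2 ≤ t + 4 → o1 ≤ 12 → x = 0
  x1 : (o1 ≤ 11 ∧ o4 ≤ 12) ∨ (h1 ≤ t + 4 ∧ h2 ≤ t + 5) → (x < 0 ∨ K - 2 ≤ x ∨ x % 2 = 1) ∧ 0 < g0
  x0 : (o1 ≤ 12 ∧ o4 ≤ 11) ∨ (h1 ≤ t + 5 ∧ h2 ≤ t + 4) → (x < 0 ∨ K - 2 ≤ x ∨ x % 2 = 0) ∧ 0 < g1
  leg : o1 ≤ 12 → o4 ≤ 12 → g1 = t + 3 ∧ g0 = t + 3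
  pot : 0 ≤ g1 ∧ 0 ≤ g0 ∧ (g1 = t + 3 ∨ g0 = t + 3)
  j1 : 0 < J1 → x ≤ 0 ∨ K - 1 ≤ x
  j0 : 0 < J0 → x < 0 ∨ x = 1 ∨ K - 1 ≤ x
  ini : (1 < o1 ∨ 1 < o2) ∧ (1 < o1 ∨ 1 < o3) ∧ (1 < o2 ∨ 1 < o3) ∧ (0 < q1 ∨ 0 < q2)

abbrev FactsAt (P : Par) (v : (W P).V) : Prop :=
  Facts P.t P.p P.K (Do1 P v) (Do2 P v) (Do3 P v) (Do4 P v) (Dq1 P v) (Dq2 P v) (Dq3 P v) (Dq4 P v) (Dce P
    v) (Dh1 P v) (Dh2 P v) (DJ1 P v) (DJ0 P v) (ix v) (gl .e1 v) (gl .e2 v)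

theorem facts_nd (x : FN) : FactsAt P (nd P x) := by
  have := P.ht
  have := P.hK
  have := P.hp
  cases x <;> simp only [FactsAt, ext_node, ix, gl, nv_inl,
      do1, do2, do3, do4, dq1, dq2, dq3, dq4, dce, dh1, dh2, dJ1, dJ0, no1, no2, no3, no4, nq1,
      nq2, nq3, nq4, nce, nh1, nh2, nJ1, nJ0] <;>
    constructor <;> omega

theorem facts_cl {i : ℕ} (hi : i ≤ P.K) : FactsAt P (cl P i) := by
  have := P.ht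
  have := P.hK
  have := P.hp
  simp only [FactsAt, ext_node, ix_cl hi, gl, nv_cel' hi,
      do1, do2, do3, do4, dq1, dq2, dq3, dq4, dce, dh1, dh2, dJ1, dJ0]
  constructor <;> omega

theorem facts_fe {e : FE} {j : ℕ} (h0 : 0 < j) (hj : j < lenF P e) :
    FactsAt P ((W P).pt (fe P e) j) := by
  have := P.ht
  have := P.hK
  have := P.hp
  have e1 : min 1 P.K = 1 := by omega
  have k1 := fun d => ext_mid (e := fe P e) d h0 hj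
  have k2 := ix_pt (e := fe P e) h0 hj
  have k3 := fun e0 => gl_pt (e := fe P e) e0 h0 hj
  simp only [FactsAt, k1, k2, k3]
  clear k1 k2 k3
  cases e <;> simp only [lenF] at hj <;>
    simp only [src, tgt, len, srcF, tgtF, lenF, nv_inl, nv_cel, e1, Nat.zero_min, min_self,
      Sum.inl.injEq, reduceCtorEq, if_true, if_false,
      do1, do2, do3, do4, dq1, dq2, dq3, dq4, dce, dh1, dh2, dJ1, dJ0, no1, no2, no3, no4, nq1,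
      nq2, nq3, nq4, nce, nh1, nh2, nJ1, nJ0] <;>
    constructor <;> omega

theorem facts_sp (i : Fin P.K) {j : ℕ} (h0 : 0 < j) (hj : j < 3) :
    FactsAt P ((W P).pt (sp P i) j) ∧ (j = 2 → (i : ℕ) + 4 ≤ P.K →
      (12 < Do1 P ((W P).pt (sp P i) j) ∨ 12 < Do4 P ((W P).pt (sp P i) j) ∨
        (11 < Do1 P ((W P).pt (sp P i) j) ∧ 11 < Do4 P ((W P).pt (sp P i) j))) ∧
      (P.t + 5 < Dh1 P ((W P).pt (sp P i) j) ∨ P.t + 5 < Dh2 P ((W P).pt (sp P i) j) ∨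
        (P.t + 4 < Dh1 P ((W P).pt (sp P i) j) ∧ P.t + 4 < Dh2 P ((W P).pt (sp P i) j)))) := by
  have := P.ht
  have := P.hK
  have := P.hp
  have := i.2
  have k1 := fun d => ext_mid (e := sp P i) d h0 hj
  have k2 := ix_pt (e := sp P i) h0 hj
  have k3 := fun e0 => gl_pt (e := sp P i) e0 h0 hj
  simp only [FactsAt, k1, k2, k3]
  clear k1 k2 k3
  rcases Nat.mod_two_eq_zero_or_one i with c | c
  · simp only [src, tgt, len, nv_inl, nv_cel' i.2.le, hub_even c, reduceCtorEq, if_false,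
      do1, do2, do3, do4, dq1, dq2, dq3, dq4, dce, dh1, dh2, dJ1, dJ0, no1, no2, no3, no4, nq1,
      nq2, nq3, nq4, nce, nh1, nh2, nJ1, nJ0]
    refine ⟨?_, by omega⟩
    constructor <;> omega
  · simp only [src, tgt, len, nv_inl, nv_cel' i.2.le, hub_odd c, reduceCtorEq, if_false,
      do1, do2, do3, do4, dq1, dq2, dq3, dq4, dce, dh1, dh2, dJ1, dJ0, no1, no2, no3, no4, nq1,
      nq2, nq3, nq4, nce, nh1, nh2, nJ1, nJ0]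
    refine ⟨?_, by omega⟩
    constructor <;> omega

theorem facts (v : (W P).V) : FactsAt P v := by
  rcases vert_W v with ⟨x, rfl⟩ | ⟨i, hi, rfl⟩ | ⟨e, j, h0, hj, rfl⟩ | ⟨i, j, h0, hj, rfl⟩
  exacts [facts_nd x, facts_cl hi, facts_fe h0 hj, (facts_sp i h0 hj).1]

end Pool.Agent.Lib.MP_1fc36f_co.H40
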