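import Pool.Agent.Lib.MP_1fc36f_co.H40Graph

/-! The last phase of the strategy of the cops: the zigzag track. -/

namespace Pool.Agent.Lib.MP_1fc36f_co.H40

open WG

variable {P : Par}

/-- The path `ha`, two neighbouring cells, `hb`. -/
def om (xA xB : Ed P) (x : ℤ) : (W P).V := if x ≤ 3 then fw xA x else fw xB (7 - x)

/-- The pair of edges guards the cell `n`. -/
structure Pr (n : ℕ) (xA xB : Ed P) : Prop where
  sA : src P xA = .inl .ha
  sB : src P xB = .inl .hb
  lA : len P xA ≤ 3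
  lB : len P xB ≤ 3
  mv : Move (W P).G (.inl (tgt P xA)) (.inl (tgt P xB))
  odd : n % 2 = 1 → tgt P xA = cel P n
  even : n % 2 = 0 → tgt P xB = cel P n

def aZ : FN → ℤ | .hb => 7 | .h1 => 3 | .h2 => 4 | _ => 0

abbrev fZ (P : Par) : Nd P → ℤ := nv aZ fun i => 4 - (i : ℤ) % 2

theorem om_le {xA xB : Ed P} {x : ℤ} (h : x ≤ 3) : om xA xB x = fw xA x := if_pos h

theorem om_gt {xA xB : Ed P} {x : ℤ} (h : 3 < x) : om xA xB x = fw xB (7 - x) :=
  if_neg (by omega)

variable {n : ℕ} {xA xB : Ed P}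

theorem Pr.three (h : Pr n xA xB) : om xA xB 3 = .inl (tgt P xA) := by
  have := h.lA
  rw [om_le le_rfl]; exact fw_tgt (by simp only; omega)

theorem Pr.four (h : Pr n xA xB) : om xA xB 4 = .inl (tgt P xB) := by
  have := h.lB
  rw [om_gt (by omega)]; exact fw_tgt (by simp only; omega)

theorem Pr.walk (h : Pr n xA xB) : IsWalk (W P).G (om xA xB) := by
  intro x
  rcases lt_trichotomy x 3 with k | rfl | k
  · rw [om_le k.le, om_le (by omega)]; exact walk_fw _ _
  · rw [h.three]; exact h.four ▸ h.mv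
  · rw [om_gt k, om_gt (by omega)]; exact (walk_fw _).move (by omega) (by omega)

theorem Pr.ha (h : Pr n xA xB) : om xA xB (fZ P (.inl .ha)) = nd P .ha := by
  show om xA xB 0 = _
  rw [om_le (by omega), fw_src le_rfl]; exact congrArg _ h.sA

theorem Pr.hb (h : Pr n xA xB) : om xA xB (fZ P (.inl .hb)) = nd P .hb := by
  show om xA xB 7 = _
  rw [om_gt (by omega), fw_src (by omega)]; exact congrArg _ h.sB

theorem Pr.hub (h : Pr n xA xB) (i : ℕ) : om xA xB (fZ P (.inl (hub i))) = nd P (hub i) := by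
  rcases hub_cases i with k | k <;> rw [k]
  exacts [h.ha, h.hb]

theorem Pr.cel (h : Pr n xA xB) (hn : n ≤ P.K) : om xA xB (fZ P (cel P n)) = cl P n := by
  rw [show fZ P (H40.cel P n) = 4 - (n : ℤ) % 2 from nv_cel' hn]
  rcases Nat.mod_two_eq_zero_or_one n with k | k
  · rw [show 4 - (n : ℤ) % 2 = 4 by omega, h.four, h.even k]
  · rw [show 4 - (n : ℤ) % 2 = 3 by omega, h.three, h.odd k]

theorem fit_fZ {m : List FE} {s t : ℕ → Prop} (hm : ∀ e ∈ m, e = .e1 ∨ e = .e2) :
    ∀ e, eB m s t e → Fit (W := W P) (fZ P) e := by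
  have := P.hK
  refine forall_eB (fun e he => ?_) (fun i _ => fit_sp i (fun _ => ?_) fun _ => ?_)
    fun i _ => fit_tr i ?_
  · rcases hm e he with rfl | rfl <;>
      simp only [Fit, src, tgt, len, srcF, tgtF, lenF, nv_inl, nv_cel, aZ] <;> omega
  · simp only [aZ]; omega
  · simp only [aZ]; omega
  · push_cast; omega

/-- The walk along the track. -/
def wT (P : Par) (x : ℤ) : (W P).V := cl P x.toNat

theorem walk_wT : IsWalk (W P).G (wT P) := by
  intro x
  unfold wT
  by_cases h : x < 0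
  · rw [show (x + 1).toNat = x.toNat by omega]; exact Move.refl _
  rw [show (x + 1).toNat = x.toNat + 1 by omega]
  by_cases k : x.toNat < P.K
  · exact move_cl_succ k
  · refine Or.inl ?_
    simp only [cl, cel, Sum.inl.injEq, Sum.inr.injEq, Fin.mk.injEq]; omega

theorem wT_nat {x : ℤ} {j : ℕ} (h : x = j) : wT P x = cl P j := by subst h; simp [wT]

abbrev AR (P : Par) (q n : ℕ) : Nd P → Prop := nA [] fun j => q < j ∧ j < n

abbrev BR (P : Par) (q n : ℕ) : Ed P → Prop :=
  eB [] (fun j => q < j ∧ j < n) fun j => q ≤ j ∧ j < n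

theorem closed_R {q : ℕ} (hq : 1 ≤ q) (hn : n ≤ P.K) : Closed (W := W P) (AR P q n) (BR P q n) :=
  closed_of (by simp) (by omega) (by omega) (by omega) (fun i _ h => by simpa using h)
    fun i _ h => by omega

/-- The shadow for the cop who sweeps the track. -/
abbrev fq (P : Par) (q : ℕ) : Nd P → ℤ := nv (fun _ => q) fun j => if j < q then q - 1 else q

theorem fit_fq (q : ℕ) {s t : ℕ → Prop} : ∀ e, eB [] s t e → Fit (W := W P) (fq P q) e :=
  forall_eB (by simp) (fun i _ => fit_sp i (fun _ => by omega) fun _ => by omega)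
    fun i _ => fit_tr i (by omega)

theorem shift_R (h : Pr n xA xB) (hn : n ≤ P.K) {q : ℕ} (hq : 1 ≤ q) {f f' : Nd P → ℤ}
    (hf : ∀ e, BR P q n e → Fit (W := W P) f e) (hf' : ∀ e, BR P q n e → Fit (W := W P) f' e)
    (h1 : q ≤ P.K → f (cel P q) = q) (h2 : q ≤ P.K → f' (cel P q) = q)
    (k : St (AR P q n) (BR P q n) (wT P) f' (om xA xB) (fZ P)) :
    St (AR P q n) (BR P q n) (wT P) f (om xA xB) (fZ P) := by
  refine St.shift (closed_R hq hn) walk_wT h.walk hf hf' (fit_fZ (by simp)) (fun x => ?_) k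
  rcases node_cases x with ⟨y, rfl⟩ | ⟨i, hi, rfl⟩
  · by_cases ha : y = .ha
    · subst ha; exact Or.inr (Or.inr (Or.inl h.ha))
    by_cases hb : y = .hb
    · subst hb; exact Or.inr (Or.inr (Or.inl h.hb))
    exact Or.inr (Or.inr (Or.inr (no_end ha hb (by simp))))
  · by_cases c1 : q < i ∧ i < n
    · exact Or.inl ((nA_cel' hi).2 c1)
    by_cases c2 : i = q
    · subst c2
      exact Or.inr (Or.inl ⟨(h1 hi).trans (h2 hi).symm, wT_nat (h1 hi)⟩)
    by_cases c3 : i = n
    · subst c3; exact Or.inr (Or.inr (Or.inl (h.cel hi)))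
    exact Or.inr (Or.inr (Or.inr (no_end_cel hi (by simp) (by simp) (by simp) (by simp) c1
      fun j hj => by omega)))

/-- The sweep of the track. -/
theorem sweep (h : Pr n xA xB) (hn : n ≤ P.K) : ∀ (d q : ℕ), 1 ≤ q → n ≤ q + d →
    St (AR P q n) (BR P q n) (wT P) (fq P q) (om xA xB) (fZ P) := by
  intro d
  induction d with
  | zero =>
    intro q _ hq r hr
    rcases r with (x | x) | ⟨⟨e | i | i, j⟩, hj⟩
    · exact absurd hr List.not_mem_nil
    · exact absurd hr (by show ¬ (_ ∧ _); omega)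
    · exact absurd hr List.not_mem_nil
    · exact absurd hr (by show ¬ (_ ∧ _); omega)
    · exact absurd hr (by show ¬ (_ ∧ _); omega)
  | succ d ih =>
    intro q hq hd
    refine shift_R h hn hq (fit_fq q) (fit_fq (q + 1)) (fun k => ?_) (fun k => ?_) ?_
    · exact (nv_cel' k).trans (by simp)
    · exact (nv_cel' k).trans (by simp)
    refine St.split walk_wT h.walk (fit_fq _) (fit_fZ (by simp))
      (forall_nA (by simp) fun i hi hc => ?_) (forall_eB (by simp) (fun i hc => ?_) fun i hc => ?_)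
      (ih (q + 1) (by omega) (by omega))
    · by_cases c : i = q + 1
      · subst c
        exact Or.inr (Or.inl (wT_nat ((nv_cel' hi).trans (by simp))))
      · exact Or.inl ((nA_cel' hi).2 (by omega))
    · by_cases c : (i : ℕ) = q + 1
      · refine Or.inr (Or.inr (Or.inr (Or.inr ⟨h.hub i, wT_nat ?_⟩)))
        exact (nv_cel' i.2.le).trans (by simp [c])
      · exact Or.inl (by show _ ∧ _; omega)
    · exact Or.inr (Or.inl (on_short le_rfl))

/-- The shadow for the cop who waits on the cell `0`. -/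
abbrev f0 (P : Par) : Nd P → ℤ := nv (fun _ => 0) fun j => if j ≤ 1 then 1 else 0

theorem sweep0 (h : Pr n xA xB) (hn : n ≤ P.K) :
    St (AR P 1 n) (BR P 1 n) (wT P) (f0 P) (om xA xB) (fZ P) :=
  shift_R h hn le_rfl (forall_eB (by simp) (fun i _ => fit_sp i (fun _ => by omega) fun _ => by omega)
    fun i _ => fit_tr i (by omega)) (fit_fq 1) (fun k => (nv_cel' k).trans (by simp))
    (fun k => (nv_cel' k).trans (by simp)) (sweep h hn n 1 le_rfl (by omega))

/-- The walk down the two legs. -/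
def wD (P : Par) : ℤ → (W P).V :=
  cat (P.t + 4) (bw (fe P .e1)) (cat 2 (fw (fe P .mm)) (fw (fe P .e2)))

theorem wD1 {x : ℤ} (h : x ≤ P.t + 4) : wD P x = bw (fe P .e1) x := cat_le _ _ h

theorem wD_h1 : wD P (P.t + 4) = nd P .h1 := by
  rw [wD1 le_rfl]; exact bw_src (by simp [len, lenF])

theorem wD2 {x : ℤ} (h : P.t + 4 ≤ x) (h' : x ≤ P.t + 6) :
    wD P x = fw (fe P .mm) (x - (P.t + 4)) := by
  rw [wD, cat_ge _ h, cat_le _ _ (by omega)]
  rw [cat_le _ _ (by omega), fw_src le_rfl]; exact bw_src (by simp [len, lenF])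

theorem wD_h2 : wD P (P.t + 6) = nd P .h2 := by
  rw [wD2 (by omega) le_rfl]; exact fw_tgt (by simp [len, lenF])

theorem wD3 {x : ℤ} (h : P.t + 6 ≤ x) : wD P x = fw (fe P .e2) (x - (P.t + 6)) := by
  rw [wD, cat_gt _ _ (by omega), cat_ge _ (by omega)]
  · congr 1; omega
  · rw [fw_src le_rfl]; exact fw_tgt (by simp [len, lenF])

theorem walk_wD : IsWalk (W P).G (wD P) :=
  walk_cat (walk_bw _) (walk_cat (walk_fw _) (walk_fw _)
    (by rw [fw_src le_rfl]; exact fw_tgt (by simp [len, lenF])))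
    (by rw [cat_le _ _ (by omega), fw_src le_rfl]; exact bw_src (by simp [len, lenF]))

theorem wD_c1 {x : ℤ} (h : x ≤ 0) : wD P x = cl P 1 := by
  rw [wD1 (by omega)]; exact bw_tgt h

theorem wD_c0 {x : ℤ} (h : 2 * P.t + 10 ≤ x) : wD P x = cl P 0 := by
  rw [wD3 (by omega)]; exact fw_tgt (by simp only [len, lenF]; omega)

abbrev AZ (P : Par) (n : ℕ) : Nd P → Prop := nA [] (· < n)

abbrev BZ (P : Par) (n : ℕ) : Ed P → Prop := eB [.e1, .e2] (· < n) (· < n)

theorem closed_Z (hn : n ≤ P.K) : Closed (W := W P) (AZ P n) (BZ P n) :=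
  closed_of (by simp) (by simp) (by simp) (by omega) (fun i _ h => by simpa using h)
    fun i _ h => by omega

def aA (t : ℤ) : FN → ℤ | .h1 => t + 4 | .h2 => t + 6 | .ha => -2 | _ => 0

abbrev gA (P : Par) : Nd P → ℤ := nv (aA P.t) fun i => if i = 0 then 2 else if i = 1 then 1 else 0

def aB (t : ℤ) : FN → ℤ
  | .h1 => t + 4 | .h2 => t + 6 | .ha => 2 * t + 9 | .hb => 2 * t + 12 | _ => 0

abbrev gB (P : Par) : Nd P → ℤ := nv (aB P.t) fun i => if i = 1 then 2 * P.t + 8 else 2 * P.t + 9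

theorem fit_gA {s t : ℕ → Prop} : ∀ e, eB [.e1, .e2] s t e → Fit (W := W P) (gA P) e := by
  have := P.hK
  have e1 : min 1 P.K = 1 := by omega
  refine forall_eB (fun e he => ?_) (fun i _ => fit_sp i (fun _ => ?_) fun _ => ?_)
    fun i _ => fit_tr i ?_
  · rcases (by simpa using he : e = .e1 ∨ e = .e2) with rfl | rfl <;>
      simp [Fit, src, tgt, len, srcF, tgtF, lenF, nv_inl, nv_cel, aA, e1] <;> omega
  · simp only [aA]; omega
  · simp only [aA]; omega
  · omega

theorem fit_gB {s t : ℕ → Prop} : ∀ e, eB [.e1, .e2] s t e → Fit (W := W P) (gB P) e := by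
  have := P.hK
  have e1 : min 1 P.K = 1 := by omega
  refine forall_eB (fun e he => ?_) (fun i _ => fit_sp i (fun _ => ?_) fun _ => ?_)
    fun i _ => fit_tr i ?_
  · rcases (by simpa using he : e = .e1 ∨ e = .e2) with rfl | rfl <;>
      simp [Fit, src, tgt, len, srcF, tgtF, lenF, nv_inl, nv_cel, aB, e1] <;> omega
  · simp only [aB]; omega
  · simp only [aB]; omega
  · omega

theorem shift_Z (h : Pr n xA xB) (hn : n ≤ P.K) (h1 : 1 ≤ n) {f f' : Nd P → ℤ}
    (hf : ∀ e, BZ P n e → Fit (W := W P) f e) (hf' : ∀ e, BZ P n e → Fit (W := W P) f' e)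
    (a1 : f (.inl .h1) = P.t + 4) (a2 : f (.inl .h2) = P.t + 6)
    (b1 : f' (.inl .h1) = P.t + 4) (b2 : f' (.inl .h2) = P.t + 6)
    (k : St (AZ P n) (BZ P n) (wD P) f' (om xA xB) (fZ P)) :
    St (AZ P n) (BZ P n) (wD P) f (om xA xB) (fZ P) := by
  refine St.shift (closed_Z hn) walk_wD h.walk hf hf' (fit_fZ (by simp)) (fun x => ?_) k
  rcases node_cases x with ⟨y, rfl⟩ | ⟨i, hi, rfl⟩
  · cases y <;> first
      | exact Or.inr (Or.inr (Or.inl h.ha))
      | exact Or.inr (Or.inr (Or.inl h.hb))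
      | exact Or.inr (Or.inl ⟨a1.trans b1.symm, a1 ▸ wD_h1⟩)
      | exact Or.inr (Or.inl ⟨a2.trans b2.symm, a2 ▸ wD_h2⟩)
      | exact Or.inr (Or.inr (Or.inr (no_end (by decide) (by decide) (by decide))))
  · by_cases c1 : i < n
    · exact Or.inl ((nA_cel' hi).2 c1)
    by_cases c3 : i = n
    · subst c3; exact Or.inr (Or.inr (Or.inl (h.cel hi)))
    exact Or.inr (Or.inr (Or.inr (no_end_cel hi (by simp) (by simp) (by omega) (by omega) c1
      fun j hj => by omega)))

theorem itp_cl {a : FN → ℤ} {c : ℕ → ℤ} {i : ℕ} (h : i ≤ P.K) :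
    itp (W := W P) (nv a c) (cl P i) = c i := nv_cel' (a := a) h

theorem itp_fe {f : Nd P → ℤ} {e : FE} {j : ℕ} (h0 : 0 < j) (hj : j < lenF P e) :
    itp (W := W P) f ((W P).pt (fe P e) j) =
      f (.inl (srcF e)) + max (-(j : ℤ)) (min (f (tgtF P e) - f (.inl (srcF e))) j) :=
  itp_mid (W := W P) (e := fe P e) h0 hj

theorem mem_Z_cel {j : ℕ} (hn : n ≤ P.K) (hj : j < n) : cl P j ∈ T (W := W P) (AZ P n) (BZ P n) :=
  (nA_cel' (l := []) (c := (· < n)) (by omega)).2 hj

theorem ev_cel (h : Pr n xA xB) (hn : n ≤ P.K) {g : Nd P → ℤ}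
    (hg : ∀ e, BZ P n e → Fit (W := W P) g e) {w' : ℤ → (W P).V}
    (k : St (AZ P n) (BZ P n) (wD P) g w' (fZ P)) {r : (W P).V}
    (hr : r ∈ T (W := W P) (AZ P n) (BZ P n)) {j : ℕ} (hj : j ≤ n) (hm : Move (W P).G r (cl P j))
    (e : om xA xB (itp (fZ P) (cl P j)) = w' (itp (fZ P) (cl P j))) :
    CW (W P).G (wD P (itp g r)) (om xA xB (itp (fZ P) r)) (cl P j) := by
  obtain ⟨a1, a2⟩ := itp_step (closed_Z hn) hg hr hm
  obtain ⟨a3, a4⟩ := itp_step (closed_Z hn) (fit_fZ (by simp)) hr hm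
  have mv := h.walk.move a4 a3
  rcases hj.eq_or_lt with rfl | hj
  · exact CW.right ((h.cel hn) ▸ mv)
  · refine CW.of_move (walk_wD.move a2 a1) mv ?_
    rw [e]
    exact k _ (mem_Z_cel hn hj)

theorem trap_sp (h : Pr n xA xB) (i : Fin P.K) {j : ℕ} (h0 : 0 < j) (hj : j < 3) :
    RW (W P).G (cl P i) (om xA xB (itp (fZ P) ((W P).pt (sp P i) j))) ((W P).pt (sp P i) j) := by
  refine (trap_pt (W := W P) (e := sp P i) h0 hj
    (reach_src (e := sp P i) h.walk h0 hj (h.hub i)) ?_).swap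
  obtain ⟨k, hk⟩ : ∃ k, (W P).len (sp P i) - j = k := ⟨_, rfl⟩
  rw [hk]
  induction k with
  | zero => rfl
  | succ k ih => clear ih hk; induction k with
    | zero => exact Reach.succ rfl
    | succ k ih => exact ih.succ

theorem into_sp (h : Pr n xA xB) (hn : n ≤ P.K) (i : Fin P.K) (hi : (i : ℕ) < n) {a : (W P).V}
    (ha : Move (W P).G a (cl P i)) (hm : Move (W P).G (cl P i) ((W P).pt (sp P i) 2)) :
    CW (W P).G a (om xA xB (itp (fZ P) (cl P i))) ((W P).pt (sp P i) 2) := by
  obtain ⟨a3, a4⟩ := itp_step (closed_Z hn) (fit_fZ (by simp)) (mem_Z_cel hn hi) hm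
  exact CW.of_move ha (h.walk.move a4 a3) (trap_sp h i (by omega) (by omega))

theorem itp_sp {a : FN → ℤ} {c : ℕ → ℤ} (i : Fin P.K) {j : ℕ} (h0 : 0 < j) (hj : j < 3) :
    itp (W := W P) (nv a c) ((W P).pt (sp P i) j) =
      a (hub i) + max (-(j : ℤ)) (min (c i - a (hub i)) j) := by
  rw [itp_mid (W := W P) (e := sp P i) h0 hj]
  simp only [src, tgt, nv_inl, nv_cel' i.2.le]

theorem sweepA (h : Pr n xA xB) (hn : n ≤ P.K) :
    St (AR P 1 n) (BR P 1 n) (wD P) (gA P) (om xA xB) (fZ P) := by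
  refine St.congr (forall_nA (by simp) fun i hi hc => ?_)
    (forall_eB (by simp) (fun i hc j h0 hj => ?_) fun i hc j h0 hj => ?_)
    (sweep h hn n 1 le_rfl (by omega))
  · rw [wD_c1 ((nv_cel' hi).trans_le (by omega)), wT_nat (j := 1) ((nv_cel' hi).trans (by omega))]
  · simp only [src, tgt, nv_inl, nv_cel' i.2.le]
    rw [wD_c1, wT_nat (j := 1) (by omega)]
    rcases hub_cases i with k | k <;> simp only [k, aA] <;> omega
  · simp only [len] at hj; omega

theorem eventB (h : Pr n xA xB) (hn : n ≤ P.K) (h2 : 2 ≤ n) {yA : Ed P}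
    (k : St (AZ P n) (BZ P n) (wD P) (gA P) (om yA xB) (fZ P)) :
    St (AZ P n) (BZ P n) (wD P) (gA P) (om xA xB) (fZ P) := by
  have hK := P.hK
  have same : ∀ x, 3 < x → om xA xB x = om yA xB x := fun x hx => by rw [om_gt hx, om_gt hx]
  have e1 : min 1 P.K = 1 := by omega
  intro r hr
  rcases vert_W r with ⟨x, rfl⟩ | ⟨i, hi, rfl⟩ | ⟨e, j, h0, hj, rfl⟩ | ⟨i, j, h0, hj, rfl⟩
  · exact absurd hr List.not_mem_nil
  · have hin : i < n := (nA_cel' (l := []) (c := (· < n)) hi).1 hr
    rcases (by omega : i = 0 ∨ i = 1 ∨ 1 < i) with rfl | rfl | c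
    · rw [same _ (by rw [itp_cl hi]; omega)]; exact k _ hr
    · have p1 : wD P (itp (gA P) (cl P 1)) = (W P).pt (fe P .e1) (P.t + 3) := by
        rw [itp_cl hi, wD1 (by omega)]
        exact bw_eq (by simp [len, lenF]; omega)
      have p2 : Move (W P).G (wD P (itp (gA P) (cl P 1))) (cl P 1) := by
        rw [itp_cl hi, ← wD_c1 (x := 0) le_rfl]
        exact walk_wD.move (by simp) (by simp)
      refine RW.of_all fun r' hm => ?_
      rcases move_cl (by omega) hm with rfl | rfl | ⟨-, rfl⟩ | rfl | ⟨-, rfl⟩ | ⟨c, -⟩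
      · exact CW.left p2
      · exact ev_cel h hn fit_gA k hr (by omega) hm (same _ (by rw [itp_cl (by omega)]; omega))
      · exact ev_cel h hn fit_gA k hr (by omega) hm (same _ (by rw [itp_cl (by omega)]; omega))
      · exact into_sp h hn ⟨1, by omega⟩ hin p2 hm
      · exact CW.left (p1 ▸ Move.refl _)
      · omega
    · exact sweepA h hn _ ((nA_cel' (l := []) (c := fun j => 1 < j ∧ j < n) hi).2 ⟨c, hin⟩)
  · have hb : e ∈ [FE.e1, .e2] := (mid_mem (W := W P) (e := fe P e) h0 hj).1 hr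
    rcases (by simpa using hb : e = .e1 ∨ e = .e2) with rfl | rfl
    · refine Or.inl ?_
      rw [itp_fe h0 hj]
      simp only [lenF] at hj
      simp only [srcF, tgtF, nv_inl, nv_cel, e1, aA]
      rw [wD1 (by omega)]
      exact bw_eq (by simp only [len, lenF]; omega)
    · rw [same]
      · exact k _ hr
      · rw [itp_fe h0 hj]
        simp only [srcF, tgtF, nv_inl, nv_cel, aZ]; omega
  · have hin : (i : ℕ) < n := (mid_mem (W := W P) (e := sp P i) h0 hj).1 hr
    rcases (by omega : (i : ℕ) = 0 ∨ (i : ℕ) = 1 ∨ 1 < (i : ℕ)) with c | c | c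
    · rw [same]
      · exact k _ hr
      · rw [itp_sp i h0 hj, hub_even (by omega)]; simp only [aZ]; omega
    · have := trap_sp h i h0 hj
      rwa [c, ← wD_c1 (x := itp (gA P) ((W P).pt (sp P i) j))] at this
      rw [itp_sp i h0 hj, hub_odd (by omega)]; simp only [aA]; omega
    · exact sweepA h hn _ ((mid_mem (W := W P) (e := sp P i) h0 hj).2 ⟨c, hin⟩)

theorem eventA (h : Pr n xA xB) (hn : n ≤ P.K) {yB : Ed P}
    (k : St (AZ P n) (BZ P n) (wD P) (gB P) (om xA yB) (fZ P)) :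
    St (AZ P n) (BZ P n) (wD P) (gB P) (om xA xB) (fZ P) := by
  have hK := P.hK
  have same : ∀ x, x ≤ 3 → om xA xB x = om xA yB x := fun x hx => by rw [om_le hx, om_le hx]
  have e1 : min 1 P.K = 1 := by omega
  have p2 : Move (W P).G (wD P (2 * P.t + 9)) (cl P 0) := by
    rw [← wD_c0 (x := 2 * P.t + 10) le_rfl]
    exact walk_wD.move (by omega) (by omega)
  have s0 : ∀ (i : Fin P.K) (j : ℕ), 0 < j → j < 3 → 1 < (i : ℕ) → (i : ℕ) < n →
      RW (W P).G (cl P 0) (om xA xB (itp (fZ P) ((W P).pt (sp P i) j))) ((W P).pt (sp P i) j) := by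
    intro i j h0 hj c hin
    have := sweep0 h hn _ ((mid_mem (W := W P) (e := sp P i) h0 hj).2 ⟨c, hin⟩)
    rwa [wT_nat (j := 0) (by rw [itp_sp i h0 hj]; omega)] at this
  intro r hr
  rcases vert_W r with ⟨x, rfl⟩ | ⟨i, hi, rfl⟩ | ⟨e, j, h0, hj, rfl⟩ | ⟨i, j, h0, hj, rfl⟩
  · exact absurd hr List.not_mem_nil
  · have hin : i < n := (nA_cel' (l := []) (c := (· < n)) hi).1 hr
    rcases Nat.mod_two_eq_zero_or_one i with c | c
    swap
    · rw [same _ (by rw [itp_cl hi]; omega)]; exact k _ hr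
    have p0 : itp (gB P) (cl P i) = 2 * P.t + 9 := by rw [itp_cl hi]; omega
    refine RW.of_all fun r' hm => ?_
    rcases move_cl (by omega) hm with rfl | rfl | ⟨_, rfl⟩ | rfl | ⟨c', -⟩ | ⟨-, rfl⟩
    · rw [p0]
      rcases Nat.eq_zero_or_pos i with rfl | c'
      · exact CW.left p2
      · refine CW.of_move p2 (Move.refl _) ?_
        have := sweep0 h hn (cl P i) ((nA_cel' (l := []) (c := fun j => 1 < j ∧ j < n) hi).2
          ⟨by omega, hin⟩)
        rwa [wT_nat (j := 0) (by rw [itp_cl hi]; omega)] at this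
    · exact ev_cel h hn fit_gB k hr (by omega) hm (same _ (by rw [itp_cl (by omega)]; omega))
    · exact ev_cel h hn fit_gB k hr (by omega) hm (same _ (by rw [itp_cl (by omega)]; omega))
    · rw [p0]
      rcases Nat.eq_zero_or_pos i with rfl | c'
      · exact into_sp h hn ⟨0, by omega⟩ hin p2 hm
      · obtain ⟨a3, a4⟩ := itp_step (closed_Z hn) (fit_fZ (by simp)) hr hm
        exact CW.of_move p2 (h.walk.move a4 a3)
          (s0 ⟨i, by omega⟩ 2 (by omega) (by omega) (by simp only; omega) hin)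
    · omega
    · rw [p0, wD3 (by omega), fw_eq (j := P.t + 3) (by omega)]
      exact CW.left (Move.refl _)
  · have hb : e ∈ [FE.e1, .e2] := (mid_mem (W := W P) (e := fe P e) h0 hj).1 hr
    rcases (by simpa using hb : e = .e1 ∨ e = .e2) with rfl | rfl
    · rw [same]
      · exact k _ hr
      · rw [itp_fe h0 hj]
        simp only [srcF, tgtF, nv_inl, nv_cel, e1, aZ]; omega
    · refine Or.inl ?_
      rw [itp_fe h0 hj]
      simp only [lenF] at hj
      simp only [srcF, tgtF, nv_inl, nv_cel, aB]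
      rw [wD3 (by omega)]
      exact fw_eq (by omega)
  · have hin : (i : ℕ) < n := (mid_mem (W := W P) (e := sp P i) h0 hj).1 hr
    rcases Nat.mod_two_eq_zero_or_one i with c | c
    · rw [wD_c0 (by rw [itp_sp i h0 hj, hub_even c]; simp only [aB]; omega)]
      rcases Nat.eq_zero_or_pos i with c' | c'
      · have := trap_sp h i h0 hj
        rwa [c'] at this
      · exact s0 i j h0 hj (by omega) hin
    · rw [same]
      · exact k _ hr
      · rw [itp_sp i h0 hj, hub_odd c]; simp only [aZ]; omega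

theorem grow {i : Fin P.K} (h : Pr i xA xB) (hon : On (W := W P) (om xA xB) (fZ P) (sp P i))
    (k : St (AZ P i) (BZ P i) (wD P) (gA P) (om xA xB) (fZ P)) :
    St (AZ P (i + 1)) (BZ P (i + 1)) (wD P) (gA P) (om xA xB) (fZ P) := by
  refine St.split walk_wD h.walk fit_gA (fit_fZ (by simp))
    (forall_nA (by simp) fun j hj hc => ?_)
    (forall_eB (fun e he => Or.inl he) (fun j hc => ?_) fun j _ => Or.inr (Or.inl (on_short le_rfl))) k
  · by_cases c : j = i
    · subst c; exact Or.inr (Or.inr (h.cel hj))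
    · exact Or.inl ((nA_cel' hj).2 (by omega))
  · by_cases c : j = i
    · subst c; exact Or.inr (Or.inr (Or.inl hon))
    · exact Or.inl (by have : (j : ℕ) ≠ i := fun e => c (Fin.ext e)
                       show _ < _; omega)

/-- The cops win the last phase. -/
theorem phaseZ : ∀ (n : ℕ), n ≤ P.K → ∀ xA xB : Ed P, Pr n xA xB →
    St (AZ P n) (BZ P n) (wD P) (gA P) (om xA xB) (fZ P) := by
  have hK := P.hK
  have e1 : min 1 P.K = 1 := by omega
  intro n
  induction n with
  | zero =>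
    intro hn xA xB h
    refine St.split (A' := fun _ => False) (B' := fun _ => False) walk_wD h.walk fit_gA
      (fit_fZ (by simp)) (forall_nA (by simp) fun j hj hc => by omega)
      (forall_eB (fun e he => ?_) (fun j hc => by omega) fun j _ => by omega)
      (fun r hr => by rcases r with _ | _ <;> exact hr.elim)
    rcases (by simpa using he : e = .e1 ∨ e = .e2) with rfl | rfl
    · exact Or.inr (Or.inl (on_bw 0 (by simp [src, srcF, nv_inl, aA, len, lenF])
        (by simp [tgt, tgtF, nv_cel, e1]) fun x _ hx => by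
          rw [wD1 (by simp only [len, lenF] at hx; omega), sub_zero]))
    · exact Or.inr (Or.inr (Or.inr (Or.inl ⟨wD_h2, h.cel hn⟩)))
  | succ n ih =>
    intro hn xA xB h
    let i : Fin P.K := ⟨n, hn⟩
    rcases Nat.mod_two_eq_zero_or_one n with c | c
    · have h' : Pr n xA (sp P i) := ⟨h.sA, congrArg Sum.inl (hub_even c), h.lA, le_rfl,
        by rw [h.odd (by omega)]; exact (move_cl_succ hn).symm, by omega, fun _ => rfl⟩
      have h'' : Pr (n + 1) xA (sp P i) := ⟨h'.sA, h'.sB, h'.lA, h'.lB, h'.mv, h.odd, by omega⟩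
      have k := grow (i := i) h' (fun j h0 hj => by
        simp only [len] at hj
        simp only [src, tgt, nv_inl, nv_cel' i.2.le, hub_even (i := i) c, aZ, i]
        rw [om_gt (by omega)]; exact fw_eq (by omega)) (ih (by omega) _ _ h')
      exact shift_Z h hn (by omega) fit_gA fit_gB rfl rfl rfl rfl (eventA h hn
        (shift_Z h'' hn (by omega) fit_gB fit_gA rfl rfl rfl rfl k))
    · have h' : Pr n (sp P i) xB := ⟨congrArg Sum.inl (hub_odd c), h.sB, le_rfl, h.lB,
        by rw [h.even (by omega)]; exact move_cl_succ hn, fun _ => rfl, by omega⟩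
      have k := grow (i := i) h' (fun j h0 hj => by
        simp only [len] at hj
        simp only [src, tgt, nv_inl, nv_cel' i.2.le, hub_odd (i := i) c, aZ, i]
        rw [om_le (by omega)]; exact fw_eq (by omega)) (ih (by omega) _ _ h')
      exact eventB h hn (by omega) k

end Pool.Agent.Lib.MP_1fc36f_co.H40
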