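import Pool.Agent.Lib.MP_1fc36f_co.H40UpZ

/-! Two cops win on every graph of the family. -/

namespace Pool.Agent.Lib.MP_1fc36f_co.H40

open WG

variable {P : Par}

/-- A walk from `a` to `b` with coordinates from `0` to `L`. -/
def Seg (w : ℤ → (W P).V) (a : Nd P) (L : ℤ) (b : Nd P) : Prop :=
  IsWalk (W P).G w ∧ w 0 = .inl a ∧ w L = .inl b ∧ 0 ≤ L

theorem Seg.cat {u v : ℤ → (W P).V} {a b c : Nd P} {L M : ℤ} (h : Seg u a L b) (k : Seg v b M c) :
    Seg (cat L u v) a (L + M) c := by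
  obtain ⟨h1, h2, h3, h4⟩ := h
  obtain ⟨k1, k2, k3, k4⟩ := k
  refine ⟨walk_cat h1 k1 (h3.trans k2.symm), (cat_le _ _ h4).trans h2, ?_, by omega⟩
  rw [cat_ge (h3.trans k2.symm) (by omega), add_sub_cancel_left, k3]

theorem seg_fw (e : FE) (L : ℤ) (h : L = lenF P e) :
    Seg (fw (fe P e)) (.inl (srcF e)) L (tgtF P e) :=
  ⟨walk_fw _, fw_src le_rfl, fw_tgt (h ▸ le_rfl), by omega⟩

theorem seg_bw (e : FE) (L : ℤ) (h : L = lenF P e) :
    Seg (bw (fe P e)) (tgtF P e) L (.inl (srcF e)) :=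
  ⟨walk_bw _, bw_tgt le_rfl, bw_src (h ▸ le_rfl), by omega⟩

def wM (P : Par) : ℤ → (W P).V := cat 8 (bw (fe P .ra)) (cat 2 (fw (fe P .ya)) (bw (fe P .yb)))

def wA (P : Par) : ℤ → (W P).V :=
  cat 8 (bw (fe P .r1)) (cat 11 (wM P) (cat 8 (fw (fe P .rb)) (bw (fe P .r3))))

def wB (P : Par) : ℤ → (W P).V := cat 19 (bw (fe P .p1)) (cat P.t (bw (fe P .u1)) (wM P))

def wC (P : Par) : ℤ → (W P).V :=
  cat (8 + P.p) (bw (fe P .r2)) (cat P.t (fw (fe P .u2)) (cat 18 (fw (fe P .q23))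
    (cat 18 (fw (fe P .q34)) (cat 18 (bw (fe P .qb)) (bw (fe P .mm))))))

theorem seg_wM : Seg (wM P) (.inl .o1) 11 (.inl .hb) :=
  (seg_bw .ra 8 rfl).cat ((seg_fw .ya 2 rfl).cat (seg_bw .yb 1 rfl))

theorem walk_wA : IsWalk (W P).G (wA P) :=
  ((seg_bw .r1 8 rfl).cat (seg_wM.cat ((seg_fw .rb 8 rfl).cat (seg_bw .r3 8 rfl)))).1

theorem walk_wB : IsWalk (W P).G (wB P) :=
  ((seg_bw .p1 19 rfl).cat ((seg_bw .u1 P.t rfl).cat seg_wM)).1

theorem walk_wC : IsWalk (W P).G (wC P) :=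
  ((seg_bw .r2 (8 + P.p) (by simp [lenF])).cat ((seg_fw .u2 P.t rfl).cat ((seg_fw .q23 18 rfl).cat
    ((seg_fw .q34 18 rfl).cat ((seg_bw .qb 18 rfl).cat (seg_bw .mm 2 rfl)))))).1

section Pieces

variable {x : ℤ}

theorem wA1 (h : x ≤ 8) : wA P x = bw (fe P .r1) x := cat_le _ _ h

theorem wA_ra (h : 8 < x) (h' : x ≤ 16) : wA P x = bw (fe P .ra) (x - 8) := by
  simp only [wA, wM, cat]; split_ifs <;> first | omega | rfl

theorem wA_ya (h : 16 < x) (h' : x ≤ 18) : wA P x = fw (fe P .ya) (x - 16) := by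
  simp only [wA, wM, cat]; split_ifs <;> first | omega | (congr 1; omega)

theorem wA_yb (h : 18 < x) (h' : x ≤ 19) : wA P x = bw (fe P .yb) (x - 18) := by
  simp only [wA, wM, cat]; split_ifs <;> first | omega | (congr 1; omega)

theorem wA_rb (h : 19 < x) (h' : x ≤ 27) : wA P x = fw (fe P .rb) (x - 19) := by
  simp only [wA, cat]; split_ifs <;> first | omega | (congr 1; omega)

theorem wA_r3 (h : 27 < x) : wA P x = bw (fe P .r3) (x - 27) := by
  simp only [wA, cat]; split_ifs <;> first | omega | (congr 1; omega)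

theorem wB1 (h : x ≤ 19) : wB P x = bw (fe P .p1) x := cat_le _ _ h

theorem wB_u1 (h : 19 < x) (h' : x ≤ 19 + P.t) : wB P x = bw (fe P .u1) (x - 19) := by
  simp only [wB, cat]; split_ifs <;> first | omega | rfl

theorem wB_M (h : 19 + P.t < x) : wB P x = wM P (x - (19 + P.t)) := by
  simp only [wB, cat]; split_ifs <;> first | omega | (congr 1; omega)

theorem wA_M (h : 8 < x) (h' : x ≤ 19) : wA P x = wM P (x - 8) := by
  simp only [wA, cat]; split_ifs <;> first | omega | rfl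

theorem wC1 (h : x ≤ 8 + P.p) : wC P x = bw (fe P .r2) x := cat_le _ _ h

theorem wC_u2 (h : 8 + P.p < x) (h' : x ≤ 8 + P.p + P.t) :
    wC P x = fw (fe P .u2) (x - (8 + P.p)) := by
  simp only [wC, cat]; split_ifs <;> first | omega | rfl

theorem wC_q23 (h : 8 + P.p + P.t < x) (h' : x ≤ 26 + P.p + P.t) :
    wC P x = fw (fe P .q23) (x - (8 + P.p + P.t)) := by
  simp only [wC, cat]; split_ifs <;> first | omega | (congr 1; omega)

theorem wC_q34 (h : 26 + P.p + P.t < x) (h' : x ≤ 44 + P.p + P.t) :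
    wC P x = fw (fe P .q34) (x - (26 + P.p + P.t)) := by
  simp only [wC, cat]; split_ifs <;> first | omega | (congr 1; omega)

theorem wC_qb (h : 44 + P.p + P.t < x) (h' : x ≤ 62 + P.p + P.t) :
    wC P x = bw (fe P .qb) (x - (44 + P.p + P.t)) := by
  simp only [wC, cat]; split_ifs <;> first | omega | (congr 1; omega)

theorem wC_mm (h : 62 + P.p + P.t < x) : wC P x = bw (fe P .mm) (x - (62 + P.p + P.t)) := by
  simp only [wC, cat]; split_ifs <;> first | omega | (congr 1; omega)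

end Pieces

theorem wA_o2 : wA P 0 = nd P .o2 := (wA1 (by omega)).trans (bw_tgt le_rfl)
theorem wA_o1 : wA P 8 = nd P .o1 := (wA1 le_rfl).trans (bw_src le_rfl)
theorem wA_ha : wA P 16 = nd P .ha := (wA_ra (by omega) le_rfl).trans (bw_src le_rfl)
theorem wA_y : wA P 18 = cl P P.K := (wA_ya (by omega) le_rfl).trans (fw_tgt le_rfl)
theorem wA_hb : wA P 19 = nd P .hb := (wA_yb (by omega) le_rfl).trans (bw_src le_rfl)
theorem wA_o4 : wA P 27 = nd P .o4 := (wA_rb (by omega) le_rfl).trans (fw_tgt le_rfl)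
theorem wA_o3 : wA P 35 = nd P .o3 := (wA_r3 (by omega)).trans (bw_src le_rfl)
theorem wB_ce : wB P 0 = nd P .ce := (wB1 (by omega)).trans (bw_tgt le_rfl)
theorem wB_q1 : wB P 19 = nd P .q1 := (wB1 le_rfl).trans (bw_src le_rfl)
theorem wB_o1 : wB P (19 + P.t) = nd P .o1 :=
  (wB_u1 (by have := P.ht; omega) le_rfl).trans (bw_src (by simp [len, lenF]))

theorem wAB {x : ℤ} (h : 8 ≤ x) (h' : x ≤ 19) : wA P x = wB P (1 * x + (11 + P.t)) := by
  rcases h.eq_or_lt with rfl | h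
  · rw [wA_o1, ← wB_o1]; congr 1; omega
  · rw [wA_M h h', wB_M (by omega)]; congr 1; omega

theorem wB_ha : wB P (27 + P.t) = nd P .ha := by
  rw [← wA_ha, wAB (by omega) (by omega)]; congr 1; omega
theorem wB_y : wB P (29 + P.t) = cl P P.K := by
  rw [← wA_y, wAB (by omega) (by omega)]; congr 1; omega
theorem wB_hb : wB P (30 + P.t) = nd P .hb := by
  rw [← wA_hb, wAB (by omega) (by omega)]; congr 1; omega
theorem wC_o3 : wC P 0 = nd P .o3 := (wC1 (by omega)).trans (bw_tgt le_rfl)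
theorem wC_o2 : wC P (8 + P.p) = nd P .o2 := (wC1 le_rfl).trans (bw_src (by simp [len, lenF]))
theorem wC_q2 : wC P (8 + P.p + P.t) = nd P .q2 :=
  (wC_u2 (by have := P.ht; omega) le_rfl).trans (fw_tgt (by simp [len, lenF]))
theorem wC_q3 : wC P (26 + P.p + P.t) = nd P .q3 :=
  (wC_q23 (by omega) le_rfl).trans (fw_tgt (by simp only [len, lenF]; omega))
theorem wC_q4 : wC P (44 + P.p + P.t) = nd P .q4 :=
  (wC_q34 (by omega) le_rfl).trans (fw_tgt (by simp only [len, lenF]; omega))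
theorem wC_h2 : wC P (62 + P.p + P.t) = nd P .h2 :=
  (wC_qb (by omega) le_rfl).trans (bw_src (by simp only [len, lenF]; omega))
theorem wC_h1 : wC P (64 + P.p + P.t) = nd P .h1 :=
  (wC_mm (by omega)).trans (bw_src (by simp only [len, lenF]; omega))

theorem wCD {x : ℤ} (h : 62 + P.p + P.t ≤ x) (h' : x ≤ 64 + P.p + P.t) :
    wC P x = wD P (-1 * x + (68 + P.p + 2 * P.t)) := by
  rcases h.eq_or_lt with rfl | h
  · rw [wC_h2, ← wD_h2]; congr 1; omega
  · rw [wC_mm h, wD2 (by omega) (by omega)]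
    unfold bw fw; congr 1; simp only [len, lenF]; omega

abbrev TA (P : Par) (l : List FN) : Nd P → Prop := nA l (· < P.K)

abbrev TB (P : Par) (m : List FE) : Ed P → Prop := eB m (· < P.K) (· < P.K)

theorem shift_out {l : List FN} {m : List FE} (lf lg : List FN) {w w' : ℤ → (W P).V}
    (hw : IsWalk (W P).G w) (hw' : IsWalk (W P).G w') {f f' g : Nd P → ℤ}
    (hc : (∀ e : FE, (srcF e ∈ l ∨ ∃ x ∈ l, tgt0 e = some x) → e ∈ m) ∧ .e1 ∈ m ∧ .e2 ∈ m ∧
      ∀ x : FN, x ∈ l ∨ x ∈ lf ∨ x ∈ lg ∨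
        (x ≠ .ha ∧ x ≠ .hb ∧ ∀ e ∈ m, srcF e ≠ x ∧ tgt0 e ≠ some x))
    (hf : ∀ e, TB P m e → Fit (W := W P) f e) (hf' : ∀ e, TB P m e → Fit (W := W P) f' e)
    (hg : ∀ e, TB P m e → Fit (W := W P) g e)
    (h1 : ∀ x ∈ lf, f (.inl x) = f' (.inl x) ∧ w (f (.inl x)) = nd P x)
    (h2 : ∀ x ∈ lg, w' (g (.inl x)) = nd P x)
    (hy : (f (cel P P.K) = f' (cel P P.K) ∧ w (f (cel P P.K)) = cl P P.K) ∨
      w' (g (cel P P.K)) = cl P P.K)
    (h : St (TA P l) (TB P m) w f' w' g) : St (TA P l) (TB P m) w f w' g := by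
  refine St.shift (closed_of (c := (· < P.K)) hc.1 (fun _ => hc.2.1) (fun _ => hc.2.2.1) (lt_irrefl _)
    (fun i hi _ => hi) fun i hi _ => hi) hw hw' hf hf' hg (fun x => ?_) h
  rcases node_cases x with ⟨y, rfl⟩ | ⟨i, hi, rfl⟩
  · rcases hc.2.2.2 y with k | k | k | k
    · exact Or.inl k
    · exact Or.inr (Or.inl (h1 y k))
    · exact Or.inr (Or.inr (Or.inl (h2 y k)))
    · exact Or.inr (Or.inr (Or.inr (no_end k.1 k.2.1 k.2.2)))
  · rcases hi.eq_or_lt with rfl | hi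
    · exact Or.inr (hy.imp_right Or.inl)
    · exact Or.inl ((nA_cel' hi.le).2 hi)

theorem tgt_of {e : FE} {l : List FN} {q : Nd P → Prop} (h : ∃ x ∈ l, tgt0 e = some x)
    (k : ∀ x ∈ l, q (.inl x)) : q (tgtF P e) := by
  obtain ⟨x, h1, h2⟩ := h
  rw [(tgt0_iff e x).2 h2]; exact k x h1

theorem split_out {l l' : List FN} {m m' : List FE} (lf lg : List FN) (mf : List FE)
    {w w' : ℤ → (W P).V} (hw : IsWalk (W P).G w) (hw' : IsWalk (W P).G w') {f g : Nd P → ℤ}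
    (hc : (∀ x ∈ l, x ∈ l' ∨ x ∈ lf ∨ x ∈ lg) ∧ ∀ e ∈ m, e ∈ m' ∨ e ∈ mf ∨
      (srcF e ∈ lf ∧ ∃ x ∈ lg, tgt0 e = some x) ∨ (srcF e ∈ lg ∧ ∃ x ∈ lf, tgt0 e = some x))
    (hf : ∀ e, TB P m e → Fit (W := W P) f e) (hg : ∀ e, TB P m e → Fit (W := W P) g e)
    (h1 : ∀ x ∈ lf, w (f (.inl x)) = nd P x) (h2 : ∀ x ∈ lg, w' (g (.inl x)) = nd P x)
    (h3 : ∀ e ∈ mf, On (W := W P) w f (fe P e))
    (h : St (TA P l') (TB P m') w f w' g) : St (TA P l) (TB P m) w f w' g := by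
  refine St.split hw hw' hf hg (forall_nA (fun x hx => ?_) fun i hi hc => Or.inl ((nA_cel' hi).2 hc))
    (forall_eB (fun e he => ?_) (fun i hi => Or.inl hi) fun i hi => Or.inl hi) h
  · rcases hc.1 x hx with k | k | k
    exacts [Or.inl k, Or.inr (Or.inl (h1 x k)), Or.inr (Or.inr (h2 x k))]
  · rcases hc.2 e he with k | k | k | k
    · exact Or.inl k
    · exact Or.inr (Or.inl (h3 e k))
    · exact Or.inr (Or.inr (Or.inr (Or.inl ⟨h1 _ k.1,
        tgt_of (q := fun x => w' (g x) = .inl x) k.2 h2⟩)))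
    · exact Or.inr (Or.inr (Or.inr (Or.inr ⟨h2 _ k.1,
        tgt_of (q := fun x => w (f x) = .inl x) k.2 h1⟩)))

theorem fit_out {m : List FE} {s t : ℕ → Prop} {a : FN → ℤ} {k : ℤ}
    (h1 : ∀ e ∈ m, Fit (W := W P) (nv a fun _ => k) (fe P e))
    (ha : k - a .ha ≤ 3 ∧ a .ha - k ≤ 3) (hb : k - a .hb ≤ 3 ∧ a .hb - k ≤ 3) :
    ∀ e, eB m s t e → Fit (W := W P) (nv a fun _ => k) e :=
  forall_eB h1 (fun i _ => fit_sp i (fun _ => hb) fun _ => ha) fun i _ => fit_tr i (by omega)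

def a1 : FN → ℤ
  | .o1 => 8 | .ha => 16 | .hb => 19 | .o4 => 27 | .o2 => 14 | .o3 => 21 | _ => 18
def a3 : FN → ℤ
  | .o1 => 8 | .ha => 16 | .hb => 19 | .o4 => 27 | .o2 => 0 | .o3 => 35 | _ => 18
def a5 (t : ℤ) : FN → ℤ | .o1 => 19 + t | .ha => 27 + t | .hb => 30 + t | _ => 29 + t
def a6 (t : ℤ) : FN → ℤ
  | .ce => 0 | .o1 => 19 + t | .ha => 27 + t | .hb => 30 + t | .h1 => 23 | .h2 => 23 | _ => 19
def a9 (t : ℤ) : FN → ℤ | .ha => 27 + t | .hb => 30 + t | _ => 29 + t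
def b2 (p : ℤ) : FN → ℤ | .o2 => 8 + p | .o1 => 8 + p | _ => 0
def b4 (p t : ℤ) : FN → ℤ
  | .q2 => 8 + p + t | .o2 => 8 + p + t | .q4 => 44 + p + t | .o4 => 44 + p + t | _ => 26 + p + t
def b7 (p t : ℤ) : FN → ℤ
  | .h2 => 62 + p + t | .h1 => 64 + p + t | .q1 => 64 + p + t | .q4 => 44 + p + t | _ => 63 + p + t
def b8 (t : ℤ) : FN → ℤ | .h1 => t + 4 | .h2 => t + 6 | _ => t + 5

abbrev f1 (P : Par) : Nd P → ℤ := nv a1 fun _ => 18
abbrev f3 (P : Par) : Nd P → ℤ := nv a3 fun _ => 18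
abbrev f5 (P : Par) : Nd P → ℤ := nv (a5 P.t) fun _ => 29 + P.t
abbrev f6 (P : Par) : Nd P → ℤ := nv (a6 P.t) fun i => 27 + P.t + min 2 (max 0 ((i : ℤ) - 1))
abbrev f9 (P : Par) : Nd P → ℤ := nv (a9 P.t) fun _ => 29 + P.t
abbrev g2 (P : Par) : Nd P → ℤ := nv (b2 P.p) fun _ => 0
abbrev g4 (P : Par) : Nd P → ℤ := nv (b4 P.p P.t) fun _ => 26 + P.p + P.t
abbrev g7 (P : Par) : Nd P → ℤ := nv (b7 P.p P.t) fun _ => 63 + P.p + P.t
abbrev g8 (P : Par) : Nd P → ℤ := nv (b8 P.t) fun _ => P.t + 5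

abbrev l1 : List FN := [.o2, .o3, .h1, .h2, .q1, .q2, .q3, .q4, .ce]
abbrev l2 : List FN := [.h1, .h2, .q1, .q2, .q3, .q4, .ce]
abbrev l4 : List FN := [.h1, .h2, .q1, .ce]
abbrev l6 : List FN := [.h1, .h2]
abbrev m7 : List FE := [.e1, .e2]
abbrev m6 : List FE := [.qa, .qb, .pa, .pb, .mm, .e1, .e2]
abbrev m4 : List FE := [.q12, .u1, .p1, .p2, .p3, .p4, .qa, .qb, .pa, .pb, .mm, .e1, .e2]
abbrev m2 : List FE := [.q23, .q34, .u2, .u3, .u4,
  .q12, .u1, .p1, .p2, .p3, .p4, .qa, .qb, .pa, .pb, .mm, .e1, .e2]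
abbrev m1 : List FE := [.r1, .r2, .r3, .q23, .q34, .u2, .u3, .u4,
  .q12, .u1, .p1, .p2, .p3, .p4, .qa, .qb, .pa, .pb, .mm, .e1, .e2]

theorem fits (e : FE) : Fit (W := W P) (f1 P) (fe P e) ∧ (e ∈ m1 → Fit (W := W P) (g2 P) (fe P e)) ∧
    (e ∈ m2 → Fit (W := W P) (f3 P) (fe P e) ∧ Fit (W := W P) (g4 P) (fe P e)) ∧
    (e ∈ m4 → Fit (W := W P) (f5 P) (fe P e) ∧ Fit (W := W P) (f6 P) (fe P e)) ∧
    (e ∈ m6 → Fit (W := W P) (g7 P) (fe P e)) ∧
    (e ∈ m7 → Fit (W := W P) (g8 P) (fe P e) ∧ Fit (W := W P) (f9 P) (fe P e)) := by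
  have := P.ht
  have := P.hK
  have := P.hp
  cases e <;> refine ⟨?_, fun h => ?_, fun h => ?_, fun h => ?_, fun h => ?_, fun h => ?_⟩ <;> first
    | exact absurd h (by decide)
    | (simp only [Fit, src, tgt, len, srcF, tgtF, lenF, nv_inl, nv_cel, a1, a3, a5, a6, a9, b2, b4,
        b7, b8]; omega)

variable {m : List FE} {s t : ℕ → Prop}

theorem fit1 : ∀ e, eB m s t e → Fit (W := W P) (f1 P) e :=
  fit_out (fun e _ => (fits e).1) (by simp [a1]) (by simp [a1])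
theorem fit2 (h : ∀ e ∈ m, e ∈ m1) : ∀ e, eB m s t e → Fit (W := W P) (g2 P) e :=
  fit_out (fun e he => (fits e).2.1 (h e he)) (by simp [b2]) (by simp [b2])
theorem fit3 (h : ∀ e ∈ m, e ∈ m2) : ∀ e, eB m s t e → Fit (W := W P) (f3 P) e :=
  fit_out (fun e he => ((fits e).2.2.1 (h e he)).1) (by simp [a3]) (by simp [a3])
theorem fit4 (h : ∀ e ∈ m, e ∈ m2) : ∀ e, eB m s t e → Fit (W := W P) (g4 P) e :=
  fit_out (fun e he => ((fits e).2.2.1 (h e he)).2) (by simp [b4]) (by simp [b4])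
theorem fit5 (h : ∀ e ∈ m, e ∈ m4) : ∀ e, eB m s t e → Fit (W := W P) (f5 P) e :=
  fit_out (fun e he => ((fits e).2.2.2.1 (h e he)).1) (by simp only [a5]; omega)
    (by simp only [a5]; omega)
theorem fit6 (h : ∀ e ∈ m, e ∈ m4) : ∀ e, eB m s t e → Fit (W := W P) (f6 P) e :=
  forall_eB (fun e he => ((fits e).2.2.2.1 (h e he)).2) (fun i _ => fit_sp i
    (fun _ => by simp only [a6]; omega) fun _ => by simp only [a6]; omega)
    fun i _ => fit_tr i (by omega)
theorem fit7 (h : ∀ e ∈ m, e ∈ m6) : ∀ e, eB m s t e → Fit (W := W P) (g7 P) e :=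
  fit_out (fun e he => (fits e).2.2.2.2.1 (h e he)) (by simp [b7]) (by simp [b7])
theorem fit8 : ∀ e, eB m7 s t e → Fit (W := W P) (g8 P) e :=
  fit_out (fun e he => ((fits e).2.2.2.2.2 he).1) (by simp [b8]) (by simp [b8])
theorem fit9 : ∀ e, eB m7 s t e → Fit (W := W P) (f9 P) e :=
  fit_out (fun e he => ((fits e).2.2.2.2.2 he).2) (by simp only [a9]; omega)
    (by simp only [a9]; omega)

theorem pr_top : Pr P.K (fe P .ya) (fe P .yb) :=
  ⟨rfl, rfl, by simp [len, lenF], by simp [len, lenF], Move.refl _, fun _ => rfl, fun _ => rfl⟩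

theorem st9 : St (TA P []) (TB P m7) (wB P) (f9 P) (wD P) (g8 P) := by
  have hK := P.hK
  have k : St (AZ P P.K) (BZ P P.K) (wD P) (g8 P) (om (fe P .ya) (fe P .yb)) (fZ P) :=
    shift_Z pr_top le_rfl (by omega) fit8 fit_gA rfl rfl rfl rfl (phaseZ _ le_rfl _ _ pr_top)
  have y : ∀ x : ℤ, 2 ≤ x → x ≤ 6 → om (fe P .ya) (fe P .yb) x = cl P P.K := by
    intro x h1 h2
    rcases le_or_gt x 3 with h | h
    · rw [om_le h]; exact fw_tgt h1
    · rw [om_gt h]; exact fw_tgt (by simp only [len, lenF]; omega)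
  refine St.congr (forall_nA (by simp) fun i hi _ => ?_)
    (forall_eB (fun e he j h0 hj => ?_) (fun i _ j h0 hj => ?_) fun i _ j h0 hj => ?_) k.swap
  · rw [y _ ((nv_cel' hi).ge.trans' (by omega)) ((nv_cel' hi).le.trans (by omega))]
    exact wB_y
  · rcases (by simpa using he : e = .e1 ∨ e = .e2) with rfl | rfl <;>
    · simp only [src, tgt, srcF, tgtF, nv_inl, nv_cel, a9, aZ]
      rw [y _ (by omega) (by omega), ← wB_y]; congr 1; omega
  · simp only [len] at hj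
    simp only [src, tgt, nv_inl, nv_cel' i.2.le]
    rcases Nat.mod_two_eq_zero_or_one i with c | c
    · simp only [hub_even c, a9, aZ]
      rw [y _ (by omega) (by omega), ← wB_y]; congr 1; omega
    · simp only [hub_odd c, a9, aZ]
      rcases (by omega : j = 1 ∨ j = 2) with rfl | rfl
      · rw [om_le (by omega), fw_eq (j := 1) (by omega), ← fw_eq (x := 17 - 16) rfl,
          ← wA_ya (by omega) (by omega), wAB (by omega) (by omega)]
        congr 1; omega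
      · rw [y _ (by omega) (by omega), ← wB_y]; congr 1; omega
  · simp only [len] at hj; omega

theorem st7 : St (TA P []) (TB P m7) (wC P) (g7 P) (wB P) (f6 P) := by
  have hK := P.hK
  have k : St (TA P []) (TB P m7) (wB P) (f6 P) (wD P) (g8 P) :=
    shift_out [.ha, .hb] [.h1, .h2] walk_wB walk_wD (by decide) (fit6 (by decide)) fit9 fit8
      (by simp only [List.forall_mem_cons]; exact ⟨⟨rfl, wB_ha⟩, ⟨rfl, wB_hb⟩, by simp⟩)
      (by simp only [List.forall_mem_cons]; exact ⟨wD_h1, wD_h2, by simp⟩)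
      (by have e : f6 P (cel P P.K) = 29 + P.t := (nv_cel' le_rfl).trans (by omega)
          exact Or.inl ⟨e, e ▸ wB_y⟩) st9
  refine St.recoord (62 + P.p + P.t) (64 + P.p + P.t) (-1) (68 + P.p + 2 * P.t) (Or.inr rfl)
    (fun x => wCD) (forall_nA (by simp) fun i hi _ => ?_)
    (forall_eB (fun e he => ?_) (fun i _ => ?_) fun i _ => ?_) k.swap
  · simp only [nv_cel]; omega
  · rcases (by simpa using he : e = .e1 ∨ e = .e2) with rfl | rfl <;>
      simp only [src, tgt, srcF, tgtF, nv_inl, nv_cel, b7, b8] <;> omega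
  · simp only [src, tgt, nv_inl, nv_cel]
    rcases hub_cases i with c | c <;> simp only [c, b7, b8] <;> omega
  · simp only [src, tgt, nv_cel]; omega

theorem f6_y : wB P (f6 P (cel P P.K)) = cl P P.K := by
  have hK := P.hK
  have e : f6 P (cel P P.K) = 29 + P.t := (nv_cel' le_rfl).trans (by omega)
  exact e ▸ wB_y

theorem st6 : St (TA P l6) (TB P m6) (wB P) (f6 P) (wC P) (g4 P) := by
  refine St.swap (shift_out [.q4] [.ha, .hb, .q1, .ce] walk_wC walk_wB (by decide)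
    (fit4 (by decide)) (fit7 (by decide)) (fit6 (by decide))
    (by simp only [List.forall_mem_cons]; exact ⟨⟨rfl, wC_q4⟩, by simp⟩)
    (by simp only [List.forall_mem_cons]; exact ⟨wB_ha, wB_hb, wB_q1, wB_ce, by simp⟩)
    (Or.inr f6_y) ?_)
  refine split_out [.h1, .h2] [.q1, .ce] [.qb, .mm] walk_wC walk_wB (by decide)
    (fit7 (by decide)) (fit6 (by decide))
    (by simp only [List.forall_mem_cons]; exact ⟨wC_h1, wC_h2, by simp⟩)
    (by simp only [List.forall_mem_cons]; exact ⟨wB_q1, wB_ce, by simp⟩) ?_ st7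
  simp only [List.forall_mem_cons]
  refine ⟨on_bw (44 + P.p + P.t) ?_ ?_ fun x h1 h2 => wC_qb h1 ?_,
    on_bw (62 + P.p + P.t) ?_ ?_ fun x h1 h2 => wC_mm h1, by simp⟩ <;>
    simp only [src, tgt, len, srcF, tgtF, lenF, nv_inl, b7] at * <;> omega

theorem st4 : St (TA P l4) (TB P m4) (wC P) (g4 P) (wA P) (f3 P) := by
  have g : ∀ x ∈ [FN.q2, .q3, .q4], wC P (g4 P (.inl x)) = nd P x := by
    simp only [List.forall_mem_cons]; exact ⟨wC_q2, wC_q3, wC_q4, by simp⟩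
  have hK := P.hK
  have k : St (TA P l4) (TB P m4) (wB P) (f5 P) (wC P) (g4 P) := by
    refine shift_out [.o1, .ha, .hb] [.q2, .q3, .q4] walk_wB walk_wC (by decide) (fit5 (by decide))
      (fit6 (by decide)) (fit4 (by decide)) (by
        simp only [List.forall_mem_cons]
        exact ⟨⟨rfl, wB_o1⟩, ⟨rfl, wB_ha⟩, ⟨rfl, wB_hb⟩, by simp⟩) g
      (Or.inl ⟨((nv_cel' le_rfl).trans (by omega) : f6 P (cel P P.K) = 29 + P.t).symm, wB_y⟩) ?_
    refine split_out [.q1, .ce] [.q2, .q3, .q4] [.u1, .p1] walk_wB walk_wC (by decide)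
      (fit6 (by decide)) (fit4 (by decide))
      (by simp only [List.forall_mem_cons]; exact ⟨wB_q1, wB_ce, by simp⟩) g ?_ st6
    simp only [List.forall_mem_cons]
    refine ⟨on_bw 19 ?_ ?_ fun x h1 h2 => wB_u1 h1 ?_,
      on_bw 0 ?_ ?_ fun x h1 h2 => (sub_zero x).symm ▸ wB1 ?_, by simp⟩ <;>
      simp only [src, tgt, len, srcF, tgtF, lenF, nv_inl, a6] at * <;> omega
  refine St.swap (St.recoord 8 19 1 (11 + P.t) (Or.inl rfl) (fun x => wAB)
    (forall_nA (fun x hx => ?_) fun i hi _ => ?_)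
    (forall_eB (fun e he => ?_) (fun i _ => ?_) fun i _ => ?_) k)
  · cases x <;> first
      | exact absurd hx (by decide)
      | (simp only [nv_inl, a3, a5]; omega)
  · simp only [nv_cel]; omega
  · cases e <;> first
      | exact absurd he (by decide)
      | (simp only [src, tgt, srcF, tgtF, nv_inl, nv_cel, a3, a5]; omega)
  · simp only [src, tgt, nv_inl, nv_cel]
    rcases hub_cases i with c | c <;> simp only [c, a3, a5] <;> omega
  · simp only [src, tgt, nv_cel]; omega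

theorem st2 : St (TA P l2) (TB P m2) (wC P) (g2 P) (wA P) (f1 P) := by
  have g : ∀ x ∈ [FN.o1, .o2, .o3, .o4, .ha, .hb], wA P (f3 P (.inl x)) = nd P x := by
    simp only [List.forall_mem_cons]; exact ⟨wA_o1, wA_o2, wA_o3, wA_o4, wA_ha, wA_hb, by simp⟩
  refine St.swap (shift_out [.o1, .o4, .ha, .hb] [.o2, .o3] walk_wA walk_wC (by decide) fit1
    (fit3 (by decide)) (fit2 (by decide)) (by
      simp only [List.forall_mem_cons]
      exact ⟨⟨rfl, wA_o1⟩, ⟨rfl, wA_o4⟩, ⟨rfl, wA_ha⟩, ⟨rfl, wA_hb⟩, by simp⟩)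
    (by simp only [List.forall_mem_cons]; exact ⟨wC_o2, wC_o3, by simp⟩) (Or.inl ⟨rfl, wA_y⟩)
    (St.swap ?_))
  refine shift_out [] [.o1, .o2, .o3, .o4, .ha, .hb] walk_wC walk_wA (by decide) (fit2 (by decide))
    (fit4 (by decide)) (fit3 (by decide)) (by simp) g (Or.inr wA_y) ?_
  refine split_out [.q2, .q3, .q4] [.o1, .o2, .o3, .o4, .ha, .hb] [.q23, .q34] walk_wC walk_wA
    (by decide) (fit4 (by decide)) (fit3 (by decide))
    (by simp only [List.forall_mem_cons]; exact ⟨wC_q2, wC_q3, wC_q4, by simp⟩) g ?_ st4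
  simp only [List.forall_mem_cons]
  refine ⟨on_fw (8 + P.p + P.t) ?_ ?_ fun x h1 h2 => wC_q23 h1 ?_,
    on_fw (26 + P.p + P.t) ?_ ?_ fun x h1 h2 => wC_q34 h1 ?_, by simp⟩ <;>
    simp only [src, tgt, len, srcF, tgtF, lenF, nv_inl, b4] at * <;> omega

theorem fit_const (k : ℤ) (e : Ed P) : Fit (W := W P) (fun _ => k) e := by
  simp only [Fit]; omega

theorem st1 : St (TA P l1) (TB P m1) (wC P) (fun _ => 0) (wA P) (f1 P) := by
  have g : ∀ x ∈ [FN.o1, .o4, .ha, .hb], wA P (f1 P (.inl x)) = nd P x := by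
    simp only [List.forall_mem_cons]; exact ⟨wA_o1, wA_o4, wA_ha, wA_hb, by simp⟩
  refine shift_out [] [.o1, .o4, .ha, .hb] walk_wC walk_wA (by decide) (fun e _ => fit_const 0 e)
    (fit2 (by decide)) fit1 (by simp) g (Or.inr wA_y) ?_
  refine split_out [.o2, .o3] [.o1, .o4, .ha, .hb] [.r2] walk_wC walk_wA
    (by decide) (fit2 (by decide)) fit1
    (by simp only [List.forall_mem_cons]; exact ⟨wC_o2, wC_o3, by simp⟩) g ?_ st2
  simp only [List.forall_mem_cons]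
  refine ⟨on_bw 0 ?_ ?_ fun x h1 h2 => (sub_zero x).symm ▸ wC1 ?_, by simp⟩ <;>
    simp only [src, tgt, len, srcF, tgtF, lenF, nv_inl, b2] at * <;> omega

theorem st0 : St (fun _ => True) (fun _ => True) (wA P) (fun _ => 8) (wC P) (fun _ => 0) := by
  have fit : ∀ e, Fit (W := W P) (f1 P) e := by
    rintro (e | i | i)
    · exact (fits e).1
    · exact fit1 (m := []) (s := fun _ => True) (t := fun _ => True) _ trivial
    · exact fit1 (m := []) (s := fun _ => True) (t := fun _ => True) _ trivial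
  refine St.shift (fun _ _ => trivial) walk_wA walk_wC (fun e _ => fit_const 8 e) (fun e _ => fit e)
    (fun e _ => fit_const 0 e) (fun _ => Or.inl trivial) ?_
  refine St.split walk_wA walk_wC (fun e _ => fit e) (fun e _ => fit_const 0 e) (fun x _ => ?_)
    (fun e _ => ?_) st1.swap
  · rcases node_cases x with ⟨y, rfl⟩ | ⟨i, hi, rfl⟩
    · cases y <;> first
        | exact Or.inl ((nA_inl _ _ _).2 (by decide))
        | exact Or.inr (Or.inl wA_o1)
        | exact Or.inr (Or.inl wA_o4)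
        | exact Or.inr (Or.inl wA_ha)
        | exact Or.inr (Or.inl wA_hb)
    · rcases hi.eq_or_lt with rfl | hi
      · exact Or.inr (Or.inl wA_y)
      · exact Or.inl ((nA_cel' hi.le).2 hi)
  · rcases e with e | i | i
    · by_cases c : e ∈ m1
      · exact Or.inl c
      refine Or.inr (Or.inl ?_)
      cases e <;> first
        | exact absurd (by decide) c
        | exact on_short le_rfl
        | exact on_bw 8 rfl le_rfl.le fun x h1 h2 => wA_ra h1 h2.le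
        | exact on_bw 8 rfl (by decide : (8 : ℤ) ≤ 8 + 1) fun x h1 h2 => wA_ra h1 h2.le
        | exact on_fw 16 rfl (by decide : (17 : ℤ) ≤ 18) fun x h1 h2 => wA_ya h1 h2.le
        | exact on_fw 19 rfl (by decide : (26 : ℤ) ≤ 27) fun x h1 h2 => wA_rb h1 h2.le
    · exact Or.inl i.2
    · exact Or.inl i.2

theorem itp_const (k : ℤ) (r : (W P).V) : itp (W := W P) (fun _ => k) r = k := by
  rcases r with x | y
  · rfl
  · simp only [itp]; omega

/-- Two cops win. -/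
theorem two_cops : ∃ t, CaptureWithin (W P).G 2 t := by
  have k : ∀ r, CW (W P).G (nd P .o1) (nd P .o3) r := by
    intro r
    have := st0 r (by rcases r with _ | _ <;> trivial)
    rw [itp_const, itp_const, wA_o1, wC_o3] at this
    exact CW.of_move (Move.refl _) (Move.refl _) this
  obtain ⟨t, ht⟩ := exists_bound (P := fun r t => Win2 (W P).G t (nd P .o1) (nd P .o3) r)
    (fun _ _ _ hst h => h.mono hst) k
  exact ⟨t, ![nd P .o1, nd P .o3], fun r => (win_iff_win2 t _ r).2 (ht r)⟩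

end Pool.Agent.Lib.MP_1fc36f_co.H40
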