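import Pool.Agent.Lib.MP_1fc36f_co.H45Defs

/-! Soundness of the affine tests. -/

namespace Pool.Agent.Lib.MP_1fc36f_co.H45

open Pool.Agent.Lib.MP_1fc36f_co.H40 Pool.Agent.Lib.MP_1fc36f_co.H39

theorem Aff.ev_add (a b : Aff) (v : Val) : (a.add b).ev v = a.ev v + b.ev v := by
  simp only [Aff.ev, Aff.add]; ring
theorem Aff.ev_sub (a b : Aff) (v : Val) : (a.sub b).ev v = a.ev v - b.ev v := by
  simp only [Aff.ev, Aff.sub]; ring
theorem Aff.ev_smul (k : ℤ) (a : Aff) (v : Val) : (Aff.smul k a).ev v = k * a.ev v := by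
  simp only [Aff.ev, Aff.smul]; ring
theorem Aff.ev_succ (a : Aff) (v : Val) : a.succ.ev v = a.ev v + 1 := by
  simp only [Aff.ev, Aff.succ]; ring
theorem Aff.ev_zero (v : Val) : Aff.zero.ev v = 0 := by
  simp only [Aff.ev, Aff.zero]; ring
theorem Aff.ev_one (v : Val) : Aff.one.ev v = 1 := by
  simp only [Aff.ev, Aff.one]; ring
theorem Aff.ev_vJ (v : Val) : Aff.vJ.ev v = v.j := by
  simp only [Aff.ev, Aff.vJ]; ring
theorem Aff.ev_setJ (k : ℤ) (a : Aff) (H x y j : ℤ) :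
    (a.setJ k).ev ⟨H, x, y, j⟩ = (a.setJ 0).ev ⟨H, x, y, 0⟩ + k * j := by
  simp only [Aff.ev, Aff.setJ]; ring
theorem Aff.ev_subst (sx sy a : Aff) (v : Val) :
    (a.subst sx sy).ev v = a.ev ⟨v.H, sx.ev v, sy.ev v, v.j⟩ := by
  rw [Aff.subst, Aff.ev_add, Aff.ev_add, Aff.ev_smul, Aff.ev_smul]
  simp only [Aff.ev]; ring

variable {d : Dom} {v : Val}

theorem elim_le {k z : ℤ} {l u : Aff} (a : Aff) (h1 : l.ev v ≤ z) (h2 : z ≤ u.ev v) :
    (elim k l u a).ev v ≤ a.ev v + k * z := by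
  rcases k with (_ | n) | n
  · exact le_of_eq (by rw [show Int.ofNat 0 = 0 from rfl, zero_mul, add_zero]; rfl)
  · rw [show elim (Int.ofNat (n + 1)) l u a = a.add (Aff.smul (Int.ofNat (n + 1)) l) from rfl,
      Aff.ev_add, Aff.ev_smul]
    exact add_le_add le_rfl (mul_le_mul_of_nonneg_left h1 (Int.natCast_nonneg _))
  · rw [show elim (Int.negSucc n) l u a = a.add (Aff.smul (Int.negSucc n) u) from rfl,
      Aff.ev_add, Aff.ev_smul]
    exact add_le_add le_rfl (mul_le_mul_of_nonpos_left h2 (Int.negSucc_lt_zero n).le)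

theorem nn3_sound (hv : H0 ≤ v.H) {a : Aff} (h : nn3 a = true) : 0 ≤ a.ev v := by
  simp only [nn3, Bool.and_eq_true, decide_eq_true_eq] at h
  obtain ⟨⟨⟨⟨h1, h2⟩, h3⟩, h4⟩, h5⟩ := h
  have := mul_le_mul_of_nonneg_left hv h4
  simp only [Aff.ev, h1, h2, h3, zero_mul, add_zero]
  omega

theorem Dom.nn_sound (hv : d.mem v) {a : Aff} (h : d.nn a = true) : 0 ≤ a.ev v := by
  obtain ⟨h0, h1, h2, h3, h4, h5, h6⟩ := hv
  have k2 : ∀ a, nn2 d a = true → 0 ≤ a.ev v := fun a h =>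
    ((nn3_sound h0 h).trans (elim_le _ h1 h2)).trans_eq (by simp only [Aff.ev]; ring)
  have k1 : ∀ a, nn1 d a = true → 0 ≤ a.ev v := fun a h =>
    ((k2 _ h).trans (elim_le _ h3 h4)).trans_eq (by simp only [Aff.ev]; ring)
  exact ((k1 _ h).trans (elim_le _ h5 h6)).trans_eq (by simp only [Aff.ev]; ring)

theorem Dom.le_sound (hv : d.mem v) {a b : Aff} (h : d.le a b = true) : a.ev v ≤ b.ev v := by
  have := Dom.nn_sound hv h
  rw [Aff.ev_sub] at this
  omega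

theorem Dom.lt_sound (hv : d.mem v) {a b : Aff} (h : d.lt a b = true) : a.ev v < b.ev v := by
  have := Dom.le_sound hv h
  rw [Aff.ev_succ] at this
  omega

theorem Dom.geL_sound (hv : d.mem v) {L : List Aff} {t : Aff} (h : d.geL L t = true) {i : ℤ}
    (hi : ∀ a ∈ L, a.ev v ≤ i) : t.ev v ≤ i := by
  obtain ⟨a, ha, k⟩ := List.any_eq_true.1 h
  exact (Dom.le_sound hv k).trans (hi a ha)

theorem Dom.leU_sound (hv : d.mem v) {U : List Aff} {t : Aff} (h : d.leU U t = true) {i : ℤ}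
    (hi : ∀ a ∈ U, i ≤ a.ev v) : i ≤ t.ev v := by
  obtain ⟨a, ha, k⟩ := List.any_eq_true.1 h
  exact (hi a ha).trans (Dom.le_sound hv k)

theorem Dom.pairs_sound (hv : d.mem v) {L U : List Aff} (h : d.pairs L U = true) :
    ∀ a ∈ L, ∀ b ∈ U, a.ev v ≤ b.ev v := fun a ha b hb =>
  Dom.le_sound hv (List.all_eq_true.1 (List.all_eq_true.1 h a ha) b hb)

theorem pin_sound (hv : d.mem v) {c : Cop} {t : Aff} (h : pin d c t = true) {i : ℤ}
    (hi : c.mem v i) : i = t.ev v := by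
  rw [pin, Bool.and_eq_true] at h
  exact le_antisymm (Dom.leU_sound hv h.2 hi.2) (Dom.geL_sound hv h.1 hi.1)

theorem clash_sound (hv : d.mem v) {c : Cop} (h : clash d c = true) {i : ℤ} : ¬ c.mem v i := by
  obtain ⟨a, ha, k⟩ := List.any_eq_true.1 h
  obtain ⟨b, hb, k⟩ := List.any_eq_true.1 k
  exact fun hi => absurd ((hi.1 a ha).trans (hi.2 b hb)) (not_le.2 (Dom.lt_sound hv k))

theorem domIn_sound (hv : d.mem v) {x y : Aff} {d' : Dom} (h : domIn d x y d' = true) :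
    d'.mem ⟨v.H, x.ev v, y.ev v, v.j⟩ := by
  simp only [domIn, Bool.and_eq_true] at h
  obtain ⟨⟨⟨⟨⟨h1, h2⟩, h3⟩, h4⟩, h5⟩, h6⟩ := h
  have k1 := Dom.le_sound hv h1
  have k2 := Dom.le_sound hv h2
  have k3 := Dom.le_sound hv h3
  have k4 := Dom.le_sound hv h4
  have k5 := Dom.le_sound hv h5
  have k6 := Dom.le_sound hv h6
  rw [Aff.ev_subst] at k1 k2 k3 k4 k5 k6
  rw [Aff.ev_vJ] at k5 k6
  exact ⟨hv.1, k1, k2, k3, k4, k5, k6⟩

theorem muLt_sound (hv : d.mem v) {H : ℕ} (hH : v.H = H) {x y : Aff} {m' m : Mu}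
    (h : muLt d x y m' m = true) : m'.val H (x.ev v) (y.ev v) < m.val H v.x v.y := by
  have f : ∀ a : Aff, ((a.setJ 0).subst x y).ev v = (a.setJ 0).ev ⟨H, x.ev v, y.ev v, 0⟩ := by
    intro a
    rw [Aff.ev_subst, Aff.ev_setJ, hH, zero_mul, add_zero]
  have g : ∀ a : Aff, (a.setJ 0).ev v = (a.setJ 0).ev ⟨H, v.x, v.y, 0⟩ := by
    intro a
    rw [← hH]
    simp only [Aff.ev, Aff.setJ, zero_mul]
  have lt : ∀ a b : Aff, d.nn ((a.setJ 0).subst x y) = true ∧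
      d.lt ((a.setJ 0).subst x y) (b.setJ 0) = true →
      ((a.setJ 0).ev ⟨H, x.ev v, y.ev v, 0⟩).toNat < ((b.setJ 0).ev ⟨H, v.x, v.y, 0⟩).toNat := by
    intro a b k
    have k1 := Dom.nn_sound hv k.1
    have k2 := Dom.lt_sound hv k.2
    rw [f] at k1 k2
    rw [g] at k2
    omega
  have le : ∀ a b : Aff, d.le ((a.setJ 0).subst x y) (b.setJ 0) = true →
      ((a.setJ 0).ev ⟨H, x.ev v, y.ev v, 0⟩).toNat ≤ ((b.setJ 0).ev ⟨H, v.x, v.y, 0⟩).toNat := by
    intro a b k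
    have k2 := Dom.le_sound hv k
    rw [f, g] at k2
    omega
  have lex : ∀ {β : Type} [LT β] {a b : ℕ} {s t : β}, a < b ∨ (a ≤ b ∧ s < t) →
      toLex (a, s) < toLex (b, t) := by
    intro β _ a b s t k
    rw [Prod.Lex.toLex_lt_toLex]
    rcases k with k | ⟨k, k'⟩
    · exact Or.inl k
    · exact k.lt_or_eq.imp id fun e => ⟨e, k'⟩
  simp only [muLt, Bool.or_eq_true, Bool.and_eq_true] at h
  exact lex (h.imp (lt _ _) (And.imp (le _ _) fun h => lex (h.imp (lt _ _) (And.imp (le _ _)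
    fun h => lex (h.imp (lt _ _) (And.imp (le _ _) (lt _ _)))))))

theorem memb_iff {l : List ℕ} {x : ℕ} : memb l x = true ↔ x ∈ l := by
  simp only [memb, List.any_eq_true, Nat.beq_eq, exists_eq_right']

theorem eqW_eq : ∀ {l l' : List DE}, eqW l l' = true → l = l'
  | [], [], _ => rfl
  | d :: l, d' :: l', h => by
    simp only [eqW, Bool.and_eq_true, Nat.beq_eq, beq_iff_eq] at h
    rw [Prod.ext h.1.1 h.1.2, eqW_eq h.2]
  | [], _ :: _, h => absurd h Bool.false_ne_true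
  | _ :: _, [], h => absurd h Bool.false_ne_true

end Pool.Agent.Lib.MP_1fc36f_co.H45
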