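import Pool.Agent.Lib.MP_1fc36f_co.H40Base

/-! Finite tables for two cops in a bounded part of a graph. -/

namespace Pool.Agent.Lib.MP_1fc36f_co.H52

open Pool.Agent.Lib.MP_1fc36f_co.H40

variable {V : Type} {G : SimpleGraph V}

/-- A numbered part of a graph: `nb x` lists neighbours of `x`, all of them when `inn x`. -/
structure Loc (G : SimpleGraph V) (nb : ℕ → List ℕ) (inn : ℕ → Bool) (ι : ℕ → V) : Prop where
  sound : ∀ x y, y ∈ nb x → Move G (ι x) (ι y)
  full : ∀ x, inn x = true → ∀ r', Move G (ι x) r' → r' = ι x ∨ ∃ y ∈ nb x, r' = ι y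

/-- The check of one position with the robber to move. -/
def okAt (M : ℕ) (nb : ℕ → List ℕ) (inn : ℕ → Bool) (rk : ℕ → ℕ → ℕ → ℕ)
    (ex : ℕ → ℕ → ℕ → Bool) (a b r : ℕ) : Bool :=
  Nat.beq (rk a b r) 0 || (inn r && (r :: nb r).all fun r' => (a :: nb a).any fun a' =>
    Nat.beq a' r' || (b :: nb b).any fun b' => Nat.beq b' r' || ex a' b' r' ||
      (Nat.blt 0 (rk a' b' r') && Nat.blt (rk a' b' r') (rk a b r) &&
        Nat.blt a' M && Nat.blt b' M && Nat.blt r' M))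

/-- The check of all positions with the first cop on `a`. -/
def okRow (M : ℕ) (nb : ℕ → List ℕ) (inn : ℕ → Bool) (rk : ℕ → ℕ → ℕ → ℕ)
    (ex : ℕ → ℕ → ℕ → Bool) (a : ℕ) : Bool :=
  (List.range M).all fun b => (List.range M).all fun r => okAt M nb inn rk ex a b r

/-- The check of the whole table. -/
def okAll (M : ℕ) (nb : ℕ → List ℕ) (inn : ℕ → Bool) (rk : ℕ → ℕ → ℕ → ℕ)
    (ex : ℕ → ℕ → ℕ → Bool) : Bool :=
  (List.range M).all fun a => okRow M nb inn rk ex a

theorem table [Finite V] {M : ℕ} {nb : ℕ → List ℕ} {inn : ℕ → Bool} {ι : ℕ → V}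
    (L : Loc G nb inn ι) {rk : ℕ → ℕ → ℕ → ℕ} {ex : ℕ → ℕ → ℕ → Bool}
    (hex : ∀ a b r, ex a b r = true → RW G (ι a) (ι b) (ι r))
    (h : okAll M nb inn rk ex = true) :
    ∀ a b r, a < M → b < M → r < M → 0 < rk a b r → RW G (ι a) (ι b) (ι r) := by
  have mv : ∀ x y, y ∈ x :: nb x → Move G (ι x) (ι y) := by
    intro x y hy
    rcases List.mem_cons.1 hy with rfl | hy
    · exact Move.refl _
    · exact L.sound _ _ hy
  have key : ∀ n a b r, a < M → b < M → r < M → 0 < rk a b r → rk a b r ≤ n →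
      RW G (ι a) (ι b) (ι r) := by
    intro n
    induction n with
    | zero => intro a b r _ _ _ h1 h2; omega
    | succ n ih =>
      intro a b r ha hb hr h1 h2
      have k := List.all_eq_true.1 (List.all_eq_true.1 (List.all_eq_true.1 h a
        (List.mem_range.2 ha)) b (List.mem_range.2 hb)) r (List.mem_range.2 hr)
      simp only [okAt, Bool.or_eq_true, Bool.and_eq_true, Nat.beq_eq, Nat.blt_eq,
        List.all_eq_true, List.any_eq_true] at k
      rcases k with k | ⟨k1, k2⟩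
      · omega
      refine RW.of_all fun v hv => ?_
      obtain ⟨r', m1, rfl⟩ : ∃ r', r' ∈ r :: nb r ∧ v = ι r' := by
        rcases L.full r k1 v hv with rfl | ⟨y, hy, rfl⟩
        · exact ⟨r, List.mem_cons_self, rfl⟩
        · exact ⟨y, List.mem_cons_of_mem _ hy, rfl⟩
      obtain ⟨a', m2, k3⟩ := k2 r' m1
      rcases k3 with rfl | ⟨b', m3, (rfl | k4) | ⟨⟨⟨⟨k5, k6⟩, k7⟩, k8⟩, k9⟩⟩
      · exact CW.left (mv _ _ m2)
      · exact CW.right (mv _ _ m3)
      · exact CW.of_move (mv _ _ m2) (mv _ _ m3) (hex _ _ _ k4)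
      · exact CW.of_move (mv _ _ m2) (mv _ _ m3) (ih _ _ _ k7 k8 k9 k5 (by omega))
  exact fun a b r ha hb hr h0 => key _ a b r ha hb hr h0 le_rfl

/-- Ranks packed as bytes: one number for each pair of cop positions. -/
def rkOf (t : List (List ℕ)) (a b r : ℕ) : ℕ :=
  Nat.land (Nat.shiftRight ((t.getD a []).getD b 0) (8 * r)) 255

/-- Neighbour lists given as a list. -/
def nbOf (l : List (List ℕ)) (x : ℕ) : List ℕ := l.getD x []

/-- A numbered part of a subdivided weighted graph made of nodes joined by unit edges. -/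
theorem loc_wg {W : WG} {nb : ℕ → List ℕ} {inn : ℕ → Bool} {ν : ℕ → W.N}
    (h1 : ∀ x y, y ∈ nb x → ∃ e, W.len e = 1 ∧
      ((W.src e = ν x ∧ W.tgt e = ν y) ∨ (W.src e = ν y ∧ W.tgt e = ν x)))
    (h2 : ∀ x, inn x = true → ∀ e, (W.src e = ν x → W.len e = 1 ∧ ∃ y ∈ nb x, W.tgt e = ν y) ∧
      (W.tgt e = ν x → W.len e = 1 ∧ ∃ y ∈ nb x, W.src e = ν y)) :
    Loc W.G nb inn fun x => Sum.inl (ν x) where
  sound x y hy := by
    obtain ⟨e, h, k⟩ := h1 x y hy
    have m := WG.move_pt e 0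
    rw [WG.pt_zero, WG.pt_ge (by omega)] at m
    rcases k with ⟨k1, k2⟩ | ⟨k1, k2⟩
    · rwa [k1, k2] at m
    · rw [k1, k2] at m; exact m.symm
  full x hx r' hr := by
    rcases WG.move_node hr with h | ⟨e, ⟨h, rfl⟩ | ⟨h, rfl⟩⟩
    · exact Or.inl h
    · obtain ⟨k1, y, k2, k3⟩ := (h2 x hx e).1 h
      exact Or.inr ⟨y, k2, by rw [WG.pt_ge (by omega), k3]⟩
    · obtain ⟨k1, y, k2, k3⟩ := (h2 x hx e).2 h
      exact Or.inr ⟨y, k2, by rw [k1, WG.pt_zero, k3]⟩

end Pool.Agent.Lib.MP_1fc36f_co.H52
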