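import Pool.Agent.Lib.MP_1fc36f_co.H39Graph
import Pool.Agent.Lib.MP_1fc36f_co.H52Cage

/-! A checker for cop strategies on the graphs `W H`, uniform in `H`: definitions. -/

namespace Pool.Agent.Lib.MP_1fc36f_co.H45

open Pool.Agent.Lib.MP_1fc36f_co.H40 Pool.Agent.Lib.MP_1fc36f_co.H39

/-- The least value of the parameter. -/
def H0 : ℤ := 30

/-- An affine form in `H, x, y, j`. -/
structure Aff where
  h : ℤ
  x : ℤ
  y : ℤ
  j : ℤ
  c : ℤ

/-- Values of the variables. -/
structure Val where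
  H : ℤ
  x : ℤ
  y : ℤ
  j : ℤ

namespace Aff

def ev (a : Aff) (v : Val) : ℤ := a.h * v.H + a.x * v.x + a.y * v.y + a.j * v.j + a.c
def add (a b : Aff) : Aff := ⟨a.h + b.h, a.x + b.x, a.y + b.y, a.j + b.j, a.c + b.c⟩
def sub (a b : Aff) : Aff := ⟨a.h - b.h, a.x - b.x, a.y - b.y, a.j - b.j, a.c - b.c⟩
def smul (k : ℤ) (a : Aff) : Aff := ⟨k * a.h, k * a.x, k * a.y, k * a.j, k * a.c⟩
def succ (a : Aff) : Aff := ⟨a.h, a.x, a.y, a.j, a.c + 1⟩
def setJ (k : ℤ) (a : Aff) : Aff := ⟨a.h, a.x, a.y, k, a.c⟩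
def zero : Aff := ⟨0, 0, 0, 0, 0⟩
def one : Aff := ⟨0, 0, 0, 0, 1⟩
def vJ : Aff := ⟨0, 0, 0, 1, 0⟩
def isZ (a : Aff) : Bool :=
  decide (a.h = 0) && decide (a.x = 0) && decide (a.y = 0) && decide (a.j = 0) && decide (a.c = 0)
/-- Substitution for `x` and `y`. -/
def subst (a sx sy : Aff) : Aff :=
  (Aff.mk a.h 0 0 a.j a.c).add ((smul a.x sx).add (smul a.y sy))
/-- An affine form packed into one number. -/
def dec (n : ℕ) : Aff :=
  ⟨Int.subNatNat (n % 256) 128, Int.subNatNat (n / 256 % 16) 8, Int.subNatNat (n / 4096 % 16) 8,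
    Int.subNatNat (n / 65536 % 16) 8, Int.subNatNat (n / 1048576) 1024⟩

end Aff

/-- A domain for the variables. -/
structure Dom where
  xl : Aff
  xu : Aff
  yl : Aff
  yu : Aff
  jl : Aff
  ju : Aff

def Dom.mem (d : Dom) (v : Val) : Prop :=
  H0 ≤ v.H ∧ d.xl.ev v ≤ v.x ∧ v.x ≤ d.xu.ev v ∧ d.yl.ev v ≤ v.y ∧ v.y ≤ d.yu.ev v ∧
    d.jl.ev v ≤ v.j ∧ v.j ≤ d.ju.ev v

/-- Replace a variable with coefficient `k` by its worst bound. -/
def elim (k : ℤ) (l u a : Aff) : Aff :=
  match k with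
  | Int.ofNat 0 => a
  | Int.ofNat _ => a.add (Aff.smul k l)
  | Int.negSucc _ => a.add (Aff.smul k u)

def nn3 (a : Aff) : Bool :=
  decide (a.x = 0) && decide (a.y = 0) && decide (a.j = 0) && decide (0 ≤ a.h) &&
    decide (0 ≤ a.h * H0 + a.c)
def nn2 (d : Dom) (a : Aff) : Bool := nn3 (elim a.x d.xl d.xu ⟨a.h, 0, a.y, a.j, a.c⟩)
def nn1 (d : Dom) (a : Aff) : Bool := nn2 d (elim a.y d.yl d.yu ⟨a.h, a.x, 0, a.j, a.c⟩)
/-- A sufficient test that the form is nonnegative on the domain. -/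
def Dom.nn (d : Dom) (a : Aff) : Bool := nn1 d (elim a.j d.jl d.ju ⟨a.h, a.x, a.y, 0, a.c⟩)
def Dom.le (d : Dom) (a b : Aff) : Bool := d.nn (b.sub a)
def Dom.lt (d : Dom) (a b : Aff) : Bool := d.le a.succ b
/-- Some lower bound in the list is at least `t`. -/
def Dom.geL (d : Dom) (L : List Aff) (t : Aff) : Bool := L.any fun a => d.le t a
/-- Some upper bound in the list is at most `t`. -/
def Dom.leU (d : Dom) (U : List Aff) (t : Aff) : Bool := U.any fun a => d.le a t
/-- Every lower bound is below every upper bound. -/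
def Dom.pairs (d : Dom) (L U : List Aff) : Bool := L.all fun a => U.all fun b => d.le a b

/-- A directed edge: its number and whether it is run forwards. -/
abbrev DE : Type := ℕ × Bool

def lenA (e : ℕ) : Aff := ⟨aN e, 0, 0, 0, bZ e⟩
def unit (e : ℕ) : Bool := Nat.beq (aN e) 0 && Nat.beq (bN e) 65
def dsrc (d : DE) : ℕ := cond d.2 (srcN d.1) (tgtN d.1)
def dtgt (d : DE) : ℕ := cond d.2 (tgtN d.1) (srcN d.1)
def wf : ℕ → List DE → Bool
  | n, [] => Nat.blt n 250
  | n, d :: l => Nat.blt d.1 336 && Nat.beq (dsrc d) n && wf (dtgt d) l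
def endN : ℕ → List DE → ℕ
  | n, [] => n
  | _, d :: l => endN (dtgt d) l
def tot : List DE → Aff
  | [] => Aff.zero
  | d :: l => (lenA d.1).add (tot l)
def revW (l : List DE) : List DE := (l.map fun d => (d.1, !d.2)).reverse
def eqW : List DE → List DE → Bool
  | [], [] => true
  | d :: l, d' :: l' => Nat.beq d.1 d'.1 && (d.2 == d'.2) && eqW l l'
  | _, _ => false
def rN (n : ℕ) : ℕ := (n + 125) % 250
def rE (e : ℕ) : ℕ := (e + 168) % 336
def memb (l : List ℕ) (x : ℕ) : Bool := l.any (Nat.beq x)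
def look {α : Type} : List (ℕ × α) → α → ℕ → α
  | [], d, _ => d
  | p :: l, d, n => cond (Nat.beq p.1 n) p.2 (look l d n)

/-- A cop: a walk and bounds for his index on it. -/
structure Cop where
  n : ℕ
  w : List DE
  L : List Aff
  U : List Aff

def Cop.mem (c : Cop) (v : Val) (i : ℤ) : Prop :=
  (∀ a ∈ c.L, a.ev v ≤ i) ∧ ∀ a ∈ c.U, i ≤ a.ev v
def Cop.rot (c : Cop) : Cop := ⟨rN c.n, c.w.map fun d => (rE d.1, d.2), c.L, c.U⟩
def Cop.node (n : ℕ) : Cop := ⟨n, [], [Aff.zero], [Aff.zero]⟩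

/-- A family of positions: the robber on a node or inside an edge, two cops; `cw` says that the
cops are to move. -/
structure Cell where
  d : Dom
  cw : Bool
  isE : Bool
  p : ℕ
  c1 : Cop
  c2 : Cop

/-- A measure. -/
structure Mu where
  a : Aff
  b : Aff
  c : Aff
  d : Aff

/-- A walk with bounds depending on the place of the robber. -/
structure Side where
  n : ℕ
  w : List DE
  L : List Aff
  U : List Aff
  lo : List (ℕ × List Aff)
  hi : List (ℕ × List Aff)

def Side.atN (s : Side) (n : ℕ) : Cop :=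
  ⟨s.n, s.w, (s.L ++ look s.lo [] n).map (Aff.setJ 0), (s.U ++ look s.hi [] n).map (Aff.setJ 0)⟩
def Side.atE (s : Side) (e : ℕ) : Cop :=
  ⟨s.n, s.w,
    s.L.map (Aff.setJ 0) ++ ((look s.lo [] (srcN e)).map (Aff.setJ (-1)) ++
      (look s.lo [] (tgtN e)).map fun a => (a.sub (lenA e)).setJ 1),
    s.U.map (Aff.setJ 0) ++ ((look s.hi [] (srcN e)).map (Aff.setJ 1) ++
      (look s.hi [] (tgtN e)).map fun a => (a.add (lenA e)).setJ (-1))⟩

/-- The domain of the two parameters and the measure. -/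
structure Hd where
  xl : Aff
  xu : Aff
  yl : Aff
  yu : Aff
  m : Mu

def Hd.dom (h : Hd) (jl ju : Aff) : Dom :=
  ⟨h.xl.setJ 0, h.xu.setJ 0, h.yl.setJ 0, h.yu.setJ 0, jl, ju⟩
def Hd.domN (h : Hd) : Dom := h.dom Aff.zero Aff.zero

/-- A claim: a territory of nodes and open pieces of edges and the places of the cops. An edge
listed in `J` contributes only the open piece between the two given points. -/
structure Claim where
  h : Hd
  A : List ℕ
  B : List ℕ
  s1 : Side
  s2 : Side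
  J : List (ℕ × Aff × Aff)

def Claim.ja (C : Claim) (e : ℕ) : Aff := (look C.J (Aff.zero, lenA e) e).1.setJ 0
def Claim.jb (C : Claim) (e : ℕ) : Aff := (look C.J (Aff.zero, lenA e) e).2.setJ 0
def Claim.domE (C : Claim) (e : ℕ) : Dom := C.h.dom (C.ja e).succ ((C.jb e).sub Aff.one)
def Claim.cellN (C : Claim) (n : ℕ) : Cell := ⟨C.h.domN, false, false, n, C.s1.atN n, C.s2.atN n⟩
def Claim.cellE (C : Claim) (e : ℕ) : Cell := ⟨C.domE e, false, true, e, C.s1.atE e, C.s2.atE e⟩
/-- The robber stands on the point `c` of the edge `e`. -/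
def Claim.cellC (C : Claim) (e : ℕ) (c : Aff) : Cell :=
  ⟨C.h.dom c c, false, true, e, C.s1.atE e, C.s2.atE e⟩
/-- The robber has just moved from the node `n` to the node `b`. -/
def Claim.cellW (C : Claim) (n b : ℕ) : Cell := ⟨C.h.domN, true, false, b, C.s1.atN n, C.s2.atN n⟩
def Claim.cell (C : Claim) (isE : Bool) (p : ℕ) : Cell := cond isE (C.cellE p) (C.cellN p)
def Claim.has (C : Claim) (isE : Bool) (p : ℕ) : Bool := cond isE (memb C.B p) (memb C.A p)
def Claim.wf (C : Claim) : Bool := H45.wf C.s1.n C.s1.w && H45.wf C.s2.n C.s2.w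

/-- A finite table on a numbered list of nodes. -/
structure Tab where
  h : Hd
  M : ℕ
  nu : List ℕ
  nb : List (List ℕ)
  inn : List Bool
  rk : List (List ℕ)

/-- All claims and tables. -/
structure Env where
  cs : List Claim
  ts : List Tab

/-- A common piece of two walks: it starts after `p` and `q` edges and has `n` edges. -/
structure Seg where
  p : ℕ
  n : ℕ
  q : ℕ
  rev : Bool

/-- Proofs for cells. -/
inductive Tree where
  | sx (c : Aff) (s t : Tree)
  | sy (c : Aff) (s t : Tree)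
  | sj (c : Aff) (s t : Tree)
  | s1 (c : Aff) (s t : Tree)
  | s2 (c : Aff) (s t : Tree)
  | swap (t : Tree)
  | rot (t : Tree)
  | rew (n : ℕ) (w : List DE) (g : Seg) (t : Tree)
  | go (a b : ℤ) (t : Tree)
  | empty
  | cap (p : ℕ)
  | del (k : ℕ) (x y : Aff) (g1 g2 : Seg)
  | fin (k : ℕ) (x y : Aff) (a b r p q : ℕ)

/-- The measure `m'` (after substitution) is below `m`. -/
def muLt (d : Dom) (x y : Aff) (m' m : Mu) : Bool :=
  let f := fun a : Aff => (a.setJ 0).subst x y
  let g := fun a : Aff => a.setJ 0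
  (d.nn (f m'.a) && d.lt (f m'.a) (g m.a)) || (d.le (f m'.a) (g m.a) &&
    ((d.nn (f m'.b) && d.lt (f m'.b) (g m.b)) || (d.le (f m'.b) (g m.b) &&
      ((d.nn (f m'.c) && d.lt (f m'.c) (g m.c)) || (d.le (f m'.c) (g m.c) &&
        (d.nn (f m'.d) && d.lt (f m'.d) (g m.d)))))))

/-- The substituted point lies in the domain `d'`. -/
def domIn (d : Dom) (x y : Aff) (d' : Dom) : Bool :=
  d.le (d'.xl.subst x y) x && d.le x (d'.xu.subst x y) && d.le (d'.yl.subst x y) y &&
    d.le y (d'.yu.subst x y) && d.le (d'.jl.subst x y) Aff.vJ && d.le Aff.vJ (d'.ju.subst x y)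

/-- The cop `c` stays on a piece of his walk that is also a piece of the walk `w` from `n`. -/
def segOK (d : Dom) (c : Cop) (n : ℕ) (w : List DE) (g : Seg) : Bool :=
  let s := (c.w.drop g.p).take g.n
  let s' := (w.drop g.q).take g.n
  let m := endN c.n (c.w.take g.p)
  let m' := endN n (w.take g.q)
  let a := tot (c.w.take g.p)
  d.geL c.L a && d.leU c.U (a.add (tot s)) &&
    cond g.rev (eqW s' (revW s) && Nat.beq m' (endN m s)) (eqW s' s && Nat.beq m' m)

/-- The cop `c` seen on the walk `w` from `n`. -/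
def Cop.tr (c : Cop) (n : ℕ) (w : List DE) (g : Seg) : Cop :=
  let a := tot (c.w.take g.p)
  let a' := tot (w.take g.q)
  let b := a'.add (a.add (tot ((c.w.drop g.p).take g.n)))
  let o := a'.sub a
  cond g.rev ⟨n, w, c.U.map b.sub, c.L.map b.sub⟩ ⟨n, w, c.L.map o.add, c.U.map o.add⟩

/-- The places of the cop `c` are among the places of `c'`. -/
def copIn (d : Dom) (x y : Aff) (c c' : Cop) (g : Seg) : Bool :=
  segOK d c c'.n c'.w g &&
    (c'.L.all fun l => d.geL (c.tr c'.n c'.w g).L (l.subst x y)) &&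
    c'.U.all fun u => d.leU (c.tr c'.n c'.w g).U (u.subst x y)

/-- The cop after a step of `a` along his walk. -/
def Cop.shift (c : Cop) (a : ℤ) : Cop :=
  ⟨c.n, c.w, c.L.map (Aff.add ⟨0, 0, 0, 0, a⟩), c.U.map (Aff.add ⟨0, 0, 0, 0, a⟩)⟩

/-- The index of the cop is `t`. -/
def pin (d : Dom) (c : Cop) (t : Aff) : Bool := d.geL c.L t && d.leU c.U t

/-- The cop stands on the node `n`, which is reached after `p` edges. -/
def pinN (d : Dom) (c : Cop) (p n : ℕ) : Bool :=
  Nat.beq (endN c.n (c.w.take p)) n && pin d c (tot (c.w.take p))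

/-- The cop stands on the point `j` of the edge `e`, which is edge number `p` of his walk. -/
def pinE (d : Dom) (c : Cop) (p e : ℕ) : Bool :=
  match c.w.drop p with
  | [] => false
  | t :: _ => Nat.beq t.1 e && d.nn Aff.vJ && d.le Aff.vJ (lenA e) &&
      pin d c ((tot (c.w.take p)).add (cond t.2 Aff.vJ ((lenA e).sub Aff.vJ)))

def clash (d : Dom) (c : Cop) : Bool := c.L.any fun a => c.U.any fun b => d.lt b a

def chkT (E : Env) (m : Mu) : Tree → Cell → Bool
  | .sx a s t, c => chkT E m s { c with d := { c.d with xu := a } } &&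
      chkT E m t { c with d := { c.d with xl := a.succ } }
  | .sy a s t, c => chkT E m s { c with d := { c.d with yu := a } } &&
      chkT E m t { c with d := { c.d with yl := a.succ } }
  | .sj a s t, c => chkT E m s { c with d := { c.d with ju := a } } &&
      chkT E m t { c with d := { c.d with jl := a.succ } }
  | .s1 a s t, c => chkT E m s { c with c1 := { c.c1 with U := a :: c.c1.U } } &&
      chkT E m t { c with c1 := { c.c1 with L := a.succ :: c.c1.L } }
  | .s2 a s t, c => chkT E m s { c with c2 := { c.c2 with U := a :: c.c2.U } } &&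
      chkT E m t { c with c2 := { c.c2 with L := a.succ :: c.c2.L } }
  | .swap t, c => chkT E m t { c with c1 := c.c2, c2 := c.c1 }
  | .rot t, c => chkT E m t ⟨c.d, c.cw, c.isE, cond c.isE (rE c.p) (rN c.p), c.c1.rot, c.c2.rot⟩
  | .rew n w g t, c => wf n w && segOK c.d c.c1 n w g && chkT E m t { c with c1 := c.c1.tr n w g }
  | .go a b t, c => c.cw && decide (-1 ≤ a) && decide (a ≤ 1) && decide (-1 ≤ b) &&
      decide (b ≤ 1) && chkT E m t { c with cw := false, c1 := c.c1.shift a, c2 := c.c2.shift b }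
  | .empty, c => c.d.lt c.d.ju c.d.jl || c.d.lt c.d.yu c.d.yl || c.d.lt c.d.xu c.d.xl ||
      clash c.d c.c1 || clash c.d c.c2
  | .cap p, c => cond c.isE (pinE c.d c.c1 p c.p) (pinN c.d c.c1 p c.p)
  | .del k x y g1 g2, c =>
      match E.cs[k]? with
      | none => false
      | some C => C.has c.isE c.p && muLt c.d x y C.h.m m && domIn c.d x y (C.cell c.isE c.p).d &&
          copIn c.d x y c.c1 (C.cell c.isE c.p).c1 g1 && copIn c.d x y c.c2 (C.cell c.isE c.p).c2 g2
  | .fin k x y a b r p q, c =>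
      match E.ts[k]? with
      | none => false
      | some T => !c.isE && muLt c.d x y T.h.m m && domIn c.d x y T.h.domN &&
          Nat.blt a T.M && Nat.blt b T.M && Nat.blt r T.M && Nat.blt 0 (H52.rkOf T.rk a b r) &&
          Nat.beq (T.nu.getD r 0) c.p && pinN c.d c.c1 p (T.nu.getD a 0) &&
          pinN c.d c.c2 q (T.nu.getD b 0)

/-- The cell with the lower bounds of the first cop of `g` added. -/
def Cell.goal (c g : Cell) : Cell := { c with c1 := { c.c1 with L := g.c1.L ++ c.c1.L } }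

/-- All cells of the territory of `C`, with the lower bounds of `G` added, are proved. -/
def chkAll (E : Env) (C G : Claim) (tn te : List (ℕ × Tree)) (d : Tree) : Bool :=
  (C.A.all fun n => chkT E C.h.m (look tn d n) ((C.cellN n).goal (G.cellN n))) &&
    C.B.all fun e => unit e || chkT E C.h.m (look te d e) ((C.cellE e).goal (G.cellE e))

/-- The bounds at `t` can be met when the robber leaves the node `s` along an edge. -/
def fit (d : Dom) (s : Side) (l : Aff) (a b : ℕ) : Bool :=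
  ((s.atN b).L.all fun u => d.geL (s.atN a).L (u.sub l)) &&
    (s.atN b).U.all fun u => d.leU (s.atN a).U (u.add l)

def okSide (C : Claim) (s : Side) (X : List ℕ) : Bool :=
  ((C.A ++ X).all fun n => C.h.domN.pairs (s.atN n).L (s.atN n).U) &&
    C.B.all fun e =>
      (!memb C.A (srcN e) || fit C.h.domN s (lenA e) (srcN e) (tgtN e)) &&
      (!memb C.A (tgtN e) || fit C.h.domN s (lenA e) (tgtN e) (srcN e)) &&
      (unit e || (C.domE e).pairs (s.atE e).L (s.atE e).U)

/-- The claim with other lower bounds for the first cop. -/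
def Claim.withLo (C : Claim) (L : List Aff) (lo : List (ℕ × List Aff)) : Claim :=
  { C with s1 := { C.s1 with L := L, lo := lo } }

/-- Proofs for claims. -/
inductive Pf where
  | cover (tn te : List (ℕ × Tree)) (d : Tree)
  | step (L : List Aff) (lo : List (ℕ × List Aff)) (X : List ℕ)
      (tn te tx ty tc : List (ℕ × Tree)) (d : Tree)
  | one (tz ty : List (ℕ × Tree))

/-- The other end of an edge. -/
def other (e n : ℕ) : ℕ := cond (Nat.beq (srcN e) n) (tgtN e) (srcN e)

/-- The robber leaves `n` along the unit edge `e` and the cops answer by a tree. -/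
def chkW (E : Env) (C : Claim) (ty : List (ℕ × Tree)) (n e : ℕ) : Bool :=
  unit e && chkT E C.h.m (look ty Tree.empty e) (C.cellW n (other e n))

def bounded (C : Claim) : Bool :=
  (C.A.all fun n => Nat.blt n 250) && C.B.all fun e => Nat.blt e 336 &&
    C.h.domN.nn (C.ja e) && C.h.domN.le (C.jb e) (lenA e)

/-- The edge `e` is cut at the inner point `c`, its end `n` is dropped, and `c` is an exit. -/
def cutOK (E : Env) (C : Claim) (tc : List (ℕ × Tree)) (e n : ℕ) (c : Aff) : Bool :=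
  !memb C.A n && C.h.domN.le Aff.one c && C.h.domN.lt c (lenA e) &&
    (C.h.dom c c).pairs (C.s1.atE e).L (C.s1.atE e).U &&
    (C.h.dom c c).pairs (C.s2.atE e).L (C.s2.atE e).U &&
    chkT E C.h.m (look tc Tree.empty e) (C.cellC e c)

def chkC (E : Env) (C : Claim) : Pf → Bool
  | .cover tn te d => bounded C && chkAll E C (C.withLo [] []) tn te d
  | .step L lo X tn te tx ty tc d => bounded C && (X.all fun n => Nat.blt n 250) &&
      !C.s1.U.isEmpty &&
      (C.A.all fun n => (incs n).all fun e => memb C.B e || chkW E C ty n e) &&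
      (C.B.all fun e =>
        (((C.ja e).isZ && (memb C.A (srcN e) || memb X (srcN e))) ||
          cutOK E C tc e (srcN e) (C.ja e)) &&
        ((((C.jb e).sub (lenA e)).isZ && (memb C.A (tgtN e) || memb X (tgtN e))) ||
          cutOK E C tc e (tgtN e) (C.jb e))) &&
      okSide C C.s1 X && okSide C C.s2 X &&
      (C.A.all fun n => C.h.domN.pairs ((C.withLo L lo).s1.atN n).L (C.s1.atN n).U) &&
      (C.B.all fun e => unit e ||
        (C.domE e).pairs ((C.withLo L lo).s1.atE e).L (C.s1.atE e).U) &&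
      chkAll E C (C.withLo L lo) tn te d &&
      X.all fun n => chkT E C.h.m (look tx Tree.empty n) (C.cellN n)
  | .one tz ty => bounded C && C.B.isEmpty && C.A.all fun n =>
      chkT E C.h.m (look tz Tree.empty n) (C.cellW n n) && (incs n).all (chkW E C ty n)

/-- The numbered nodes of the table are joined by unit edges as listed. -/
def okLoc (T : Tab) : Bool :=
  (T.nu.all fun n => Nat.blt n 250) && Nat.ble T.nb.length T.M &&
  (List.range T.M).all fun a =>
    ((T.nb.getD a []).all fun b => (incs (T.nu.getD a 0)).any fun e => unit e &&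
      ((Nat.beq (srcN e) (T.nu.getD a 0) && Nat.beq (tgtN e) (T.nu.getD b 0)) ||
        (Nat.beq (tgtN e) (T.nu.getD a 0) && Nat.beq (srcN e) (T.nu.getD b 0)))) &&
    (!T.inn.getD a false || (incs (T.nu.getD a 0)).all fun e => unit e &&
      (!Nat.beq (srcN e) (T.nu.getD a 0) ||
        (T.nb.getD a []).any fun b => Nat.beq (tgtN e) (T.nu.getD b 0)) &&
      (!Nat.beq (tgtN e) (T.nu.getD a 0) ||
        (T.nb.getD a []).any fun b => Nat.beq (srcN e) (T.nu.getD b 0)))

def exOf (ex : List (ℕ × ℕ × ℕ × Tree)) (a b r : ℕ) : Bool :=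
  ex.any fun t => Nat.beq t.1 a && Nat.beq t.2.1 b && Nat.beq t.2.2.1 r

def chkTab (E : Env) (T : Tab) (ex : List (ℕ × ℕ × ℕ × Tree)) : Bool :=
  okLoc T && Nat.ble T.inn.length T.M &&
    H52.okAll T.M (H52.nbOf T.nb) (fun a => T.inn.getD a false) (H52.rkOf T.rk) (exOf ex) &&
    ex.all fun t => chkT E T.h.m t.2.2.2 ⟨T.h.domN, false, false, T.nu.getD t.2.2.1 0,
      Cop.node (T.nu.getD t.1 0), Cop.node (T.nu.getD t.2.1 0)⟩

/-- The starting claim: the whole graph, both cops at the starts of their walks. -/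
def isStart (C : Claim) : Bool :=
  C.J.isEmpty && ((List.range 250).all (memb C.A)) && ((List.range 336).all (memb C.B)) &&
    C.s1.lo.isEmpty && C.s1.hi.isEmpty && C.s2.lo.isEmpty && C.s2.hi.isEmpty &&
    (((C.s1.L ++ C.s1.U) ++ (C.s2.L ++ C.s2.U)) ++ [C.h.xl, C.h.xu, C.h.yl, C.h.yu]).all fun a =>
      decide (a.h = 0) && decide (a.c = 0)

section Sem

variable (H : ℕ) (hH : 5 ≤ H)

def nd (n : ℕ) : (W H hH).V := Sum.inl (Fin.ofNat 250 n)
def ed (e : ℕ) : Fin 336 := Fin.ofNat 336 e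
def dpt (d : DE) (i : ℤ) : (W H hH).V :=
  cond d.2 (WG.fw (W := W H hH) (ed d.1) i) (WG.bw (W := W H hH) (ed d.1) i)
/-- The length of an edge. -/
def lenZ (e : ℕ) : ℤ := ((W H hH).len (ed e) : ℕ)
/-- The point of a walk with a given index. -/
def evW : ℕ → List DE → ℤ → (W H hH).V
  | n, [], _ => nd H hH n
  | _, d :: l, i => if i ≤ lenZ H hH d.1 then dpt H hH d i else evW (dtgt d) l (i - lenZ H hH d.1)

def Cell.pos (c : Cell) (v : Val) : (W H hH).V :=
  cond c.isE ((W H hH).pt (ed c.p) v.j.toNat) (nd H hH c.p)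

def Cell.Holds (c : Cell) (v : Val) : Prop :=
  c.d.mem v → ∀ i k, c.c1.mem v i → c.c2.mem v k →
    cond c.cw CW RW (W H hH).G (evW H hH c.c1.n c.c1.w i) (evW H hH c.c2.n c.c2.w k)
      (c.pos H hH v)

def Cell.WF (c : Cell) : Prop :=
  wf c.c1.n c.c1.w = true ∧ wf c.c2.n c.c2.w = true ∧ c.p < cond c.isE 336 250

def Claim.Holds (C : Claim) (x y : ℤ) : Prop :=
  (∀ n ∈ C.A, ∀ j, (C.cellN n).Holds H hH ⟨H, x, y, j⟩) ∧
    ∀ e ∈ C.B, ∀ j, (C.cellE e).Holds H hH ⟨H, x, y, j⟩

def Tab.Holds (T : Tab) (x y : ℤ) : Prop :=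
  T.h.domN.mem ⟨H, x, y, 0⟩ → ∀ a b r, a < T.M → b < T.M → r < T.M → 0 < H52.rkOf T.rk a b r →
    RW (W H hH).G (nd H hH (T.nu.getD a 0)) (nd H hH (T.nu.getD b 0)) (nd H hH (T.nu.getD r 0))

/-- The value of a measure. -/
def Mu.val (m : Mu) (x y : ℤ) : ℕ ×ₗ ℕ ×ₗ ℕ ×ₗ ℕ :=
  toLex (((m.a.setJ 0).ev ⟨H, x, y, 0⟩).toNat, toLex (((m.b.setJ 0).ev ⟨H, x, y, 0⟩).toNat,
    toLex (((m.c.setJ 0).ev ⟨H, x, y, 0⟩).toNat, ((m.d.setJ 0).ev ⟨H, x, y, 0⟩).toNat)))

/-- Everything below the measure `μ` holds. -/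
def Env.Below (E : Env) (μ : ℕ ×ₗ ℕ ×ₗ ℕ ×ₗ ℕ) : Prop :=
  (∀ C ∈ E.cs, ∀ x y, C.h.m.val H x y < μ → C.Holds H hH x y) ∧
    ∀ T ∈ E.ts, ∀ x y, T.h.m.val H x y < μ → T.Holds H hH x y

end Sem

end Pool.Agent.Lib.MP_1fc36f_co.H45
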