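import Pool.Agent.Lib.MP_1fc36f_co.H45Tree

/-! Soundness of the finite tables. -/

namespace Pool.Agent.Lib.MP_1fc36f_co.H45

open Pool.Agent.Lib.MP_1fc36f_co.H40 Pool.Agent.Lib.MP_1fc36f_co.H39

variable {H : ℕ} {hH : 5 ≤ H}

theorem okLoc_sound {T : Tab} (h : okLoc T = true) (hi : T.inn.length ≤ T.M) :
    H52.Loc (W H hH).G (H52.nbOf T.nb) (fun a => T.inn.getD a false)
      fun a => nd H hH (T.nu.getD a 0) := by
  simp only [okLoc, Bool.and_eq_true, List.all_eq_true, List.any_eq_true, Bool.or_eq_true,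
    Nat.blt_eq, Nat.ble_eq, Nat.beq_eq, List.mem_range, Bool.not_eq_true'] at h
  obtain ⟨⟨h1, h2⟩, h3⟩ := h
  have lt : ∀ a, T.nu.getD a 0 < 250 := by
    intro a
    rcases Nat.lt_or_ge a T.nu.length with k | k
    · rw [List.getD_eq_getElem _ _ k]; exact h1 _ (List.getElem_mem k)
    · rw [List.getD_eq_default _ _ k]; decide
  have val : ∀ a, (Fin.ofNat 250 (T.nu.getD a 0)).1 = T.nu.getD a 0 :=
    fun a => Nat.mod_eq_of_lt (lt a)
  have len : ∀ e : Fin 336, unit e = true → (W H hH).len e = 1 := by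
    intro e he
    have := unit_len (H := H) (hH := hH) e.2 he
    rwa [ed, Fin.ofNat_val_eq_self] at this
  have src : ∀ (e : Fin 336) a, (W H hH).src e = Fin.ofNat 250 (T.nu.getD a 0) ↔
      srcN e = T.nu.getD a 0 := fun e a => by rw [Fin.ext_iff, val]
  have tgt : ∀ (e : Fin 336) a, (W H hH).tgt e = Fin.ofNat 250 (T.nu.getD a 0) ↔
      tgtN e = T.nu.getD a 0 := fun e a => by rw [Fin.ext_iff, val]
  refine H52.loc_wg (W := W H hH) (ν := fun a => Fin.ofNat 250 (T.nu.getD a 0))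
    (fun a b hb => ?_) fun a ha e => ?_
  · have k : a < T.M := by
      by_contra k
      rw [H52.nbOf, List.getD_eq_default _ _ (by omega)] at hb
      exact absurd hb List.not_mem_nil
    obtain ⟨e, k1, k2, k3⟩ := (h3 a k).1 b hb
    have k4 := (inc_end ⟨_, lt a⟩ e k1).1
    refine ⟨⟨e, k4⟩, len ⟨e, k4⟩ k2, ?_⟩
    rw [src, tgt, src, tgt]
    exact k3.imp id And.symm
  · have k : a < T.M := by
      by_contra k
      rw [List.getD_eq_default _ _ (by omega)] at ha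
      exact absurd ha (by decide)
    have k1 := (h3 a k).2.resolve_left (by rw [ha]; decide)
    rw [src, tgt]
    refine ⟨fun k2 => ?_, fun k2 => ?_⟩
    · obtain ⟨⟨k3, k4⟩, -⟩ := k1 e (k2 ▸ inc_src e)
      obtain ⟨b, k5, k6⟩ := k4.resolve_left (by rw [k2, Nat.beq_refl]; decide)
      exact ⟨len e k3, b, k5, (tgt e b).2 k6⟩
    · obtain ⟨⟨k3, -⟩, k4⟩ := k1 e (k2 ▸ inc_tgt e)
      obtain ⟨b, k5, k6⟩ := k4.resolve_left (by rw [k2, Nat.beq_refl]; decide)
      exact ⟨len e k3, b, k5, (src e b).2 k6⟩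

theorem chkTab_sound {E : Env} (hw : ∀ C ∈ E.cs, C.wf = true) {T : Tab}
    {ex : List (ℕ × ℕ × ℕ × Tree)} (h : chkTab E T ex = true) {x y : ℤ}
    (ih : E.Below H hH (T.h.m.val H x y)) : T.Holds H hH x y := by
  simp only [chkTab, Bool.and_eq_true, Nat.ble_eq, List.all_eq_true] at h
  obtain ⟨⟨⟨h1, h2⟩, h3⟩, h4⟩ := h
  intro hb
  refine H52.table (okLoc_sound h1 h2) (fun a b r hx => ?_) h3
  simp only [okLoc, Bool.and_eq_true, List.all_eq_true, Nat.blt_eq] at h1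
  have lt : ∀ a, T.nu.getD a 0 < 250 := by
    intro a
    rcases Nat.lt_or_ge a T.nu.length with k | k
    · rw [List.getD_eq_getElem _ _ k]; exact h1.1.1 _ (List.getElem_mem k)
    · rw [List.getD_eq_default _ _ k]; decide
  simp only [exOf, List.any_eq_true, Bool.and_eq_true, Nat.beq_eq] at hx
  obtain ⟨t, ht, ⟨rfl, rfl⟩, rfl⟩ := hx
  have z : ∀ n, (Cop.node n).mem ⟨H, x, y, 0⟩ 0 := fun n =>
    ⟨fun a ha => by rw [List.mem_singleton.1 ha, Aff.ev_zero],
      fun a ha => by rw [List.mem_singleton.1 ha, Aff.ev_zero]⟩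
  exact chkT_sound (hH := hH) hw (v := ⟨H, x, y, 0⟩) rfl ih _ ⟨T.h.domN, false, false,
    T.nu.getD t.2.2.1 0, Cop.node (T.nu.getD t.1 0), Cop.node (T.nu.getD t.2.1 0)⟩
    ⟨Nat.blt_eq.mpr (lt _), Nat.blt_eq.mpr (lt _), lt _⟩ (h4 t ht) hb 0 0 (z _) (z _)

end Pool.Agent.Lib.MP_1fc36f_co.H45
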