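import Pool.Agent.Lib.MP_1fc36f_co.H45Step
import Pool.Agent.Lib.MP_1fc36f_co.H45Tab

/-! A checked list of claims gives a win of two cops. -/

namespace Pool.Agent.Lib.MP_1fc36f_co.H45

open Pool.Agent.Lib.MP_1fc36f_co.H40 Pool.Agent.Lib.MP_1fc36f_co.H39

variable {H : ℕ} {hH : 5 ≤ H}

theorem all_below {E : Env} (hw : ∀ C ∈ E.cs, C.wf = true)
    (hc : ∀ C ∈ E.cs, ∃ p, chkC E C p = true) (ht : ∀ T ∈ E.ts, ∃ ex, chkTab E T ex = true) :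
    ∀ μ, E.Below H hH μ := by
  intro μ
  induction μ using WellFoundedLT.induction with
  | ind μ ih =>
    refine ⟨fun C hC x y h => ?_, fun T hT x y h => ?_⟩
    · obtain ⟨p, hp⟩ := hc C hC
      exact chkC_sound hw (hw C hC) hp (ih _ h)
    · obtain ⟨ex, hp⟩ := ht T hT
      exact chkTab_sound hw hp (ih _ h)

theorem up {E : Env} (hw : ∀ C ∈ E.cs, C.wf = true)
    (hc : ∀ C ∈ E.cs, ∃ p, chkC E C p = true) (ht : ∀ T ∈ E.ts, ∃ ex, chkTab E T ex = true)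
    (hs : ∃ C ∈ E.cs, isStart C = true) (h0 : H0 ≤ H) : ∃ t, CaptureWithin (W H hH).G 2 t := by
  obtain ⟨C, hC, hs⟩ := hs
  obtain ⟨p, hp⟩ := hc C hC
  have K : C.Holds H hH 0 0 := chkC_sound hw (hw C hC) hp (all_below hw hc ht _)
  simp only [isStart, Bool.and_eq_true, List.all_eq_true, List.mem_range, memb_iff,
    List.isEmpty_iff, decide_eq_true_eq, List.mem_append] at hs
  obtain ⟨⟨⟨⟨⟨⟨⟨s0, s1⟩, s2⟩, s3⟩, s4⟩, s5⟩, s6⟩, s7⟩ := hs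
  have z : ∀ a : Aff, a.h = 0 ∧ a.c = 0 → bv H 0 0 a = 0 := fun a h => by
    simp only [bv, h.1, h.2, mul_zero, zero_mul, add_zero]
  have l1 : ∀ a ∈ C.s1.L, bv H 0 0 a ≤ 0 := fun a h => (z a (s7 a (.inl (.inl (.inl h))))).le
  have u1 : ∀ a ∈ C.s1.U, 0 ≤ bv H 0 0 a := fun a h => (z a (s7 a (.inl (.inl (.inr h))))).ge
  have l2 : ∀ a ∈ C.s2.L, bv H 0 0 a ≤ 0 := fun a h => (z a (s7 a (.inl (.inr (.inl h))))).le
  have u2 : ∀ a ∈ C.s2.U, 0 ≤ bv H 0 0 a := fun a h => (z a (s7 a (.inl (.inr (.inr h))))).ge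
  have hb : C.h.domN.mem ⟨H, 0, 0, 0⟩ := by
    simp only [Hd.domN, Hd.dom, Dom.mem, ev_set, Aff.ev_zero, mul_zero, add_zero, le_refl, and_true]
    exact ⟨h0, (z _ (s7 _ (.inr (by simp)))).le, (z _ (s7 _ (.inr (by simp)))).ge,
      (z _ (s7 _ (.inr (by simp)))).le, (z _ (s7 _ (.inr (by simp)))).ge⟩
  have nil : ∀ (n : ℕ) (p : Aff → Prop), ∀ a ∈ look ([] : List (ℕ × List Aff)) [] n, p a :=
    fun _ _ _ h => absurd h List.not_mem_nil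
  have mN : ∀ (s : Side) n, s.lo = [] → s.hi = [] → (∀ a ∈ s.L, bv H 0 0 a ≤ 0) →
      (∀ a ∈ s.U, 0 ≤ bv H 0 0 a) → (s.atN n).mem ⟨H, 0, 0, 0⟩ 0 := fun s n a b c d =>
    ⟨(atN_L (p := fun z => z ≤ 0)).2 ⟨c, by rw [a]; exact nil _ _⟩,
      (atN_U (p := fun z => 0 ≤ z)).2 ⟨d, by rw [b]; exact nil _ _⟩⟩
  have mE : ∀ (s : Side) e j, s.lo = [] → s.hi = [] → (∀ a ∈ s.L, bv H 0 0 a ≤ 0) →
      (∀ a ∈ s.U, 0 ≤ bv H 0 0 a) → (s.atE e).mem ⟨H, 0, 0, j⟩ 0 := fun s e j a b c d =>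
    ⟨(atE_L (p := fun z => z ≤ 0)).2 ⟨c, by rw [a]; exact ⟨nil _ _, nil _ _⟩⟩,
      (atE_U (p := fun z => 0 ≤ z)).2 ⟨d, by rw [b]; exact ⟨nil _ _, nil _ _⟩⟩⟩
  have R : ∀ r, RW (W H hH).G (evW H hH C.s1.n C.s1.w 0) (evW H hH C.s2.n C.s2.w 0) r := by
    rintro (n | ⟨⟨e, j⟩, hj⟩)
    · have key := K.1 n (s1 _ n.2) 0 hb 0 0 (mN _ _ s3 s4 l1 u1) (mN _ _ s5 s6 l2 u2)
      rw [← nd_val]
      exact key
    · have hl := len_cast (H := H) (hH := hH) e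
      have hj' : 0 < j ∧ j < (W H hH).len e := hj
      have hd : (C.domE e).mem ⟨H, 0, 0, j⟩ := by
        refine domE_mem.2 ⟨hb, ?_, ?_⟩
        · simp only [Claim.ja, s0, look, Aff.setJ, Aff.zero, Aff.ev]
          omega
        · simp only [Claim.jb, s0, look, Aff.setJ, lenA, Aff.ev]
          omega
      have key := K.2 e (s2 _ e.2) j hd 0 0 (mE _ _ _ s3 s4 l1 u1)
        (mE _ _ _ s5 s6 l2 u2)
      have e1 : (W H hH).pt (ed e) (j : ℤ).toNat = Sum.inr ⟨(e, j), hj⟩ := by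
        rw [ed_val, Int.toNat_natCast, WG.pt_mid]
      rw [← e1]
      exact key
  obtain ⟨t, k⟩ := exists_bound
    (P := fun r t => Win2 (W H hH).G t (evW H hH C.s1.n C.s1.w 0) (evW H hH C.s2.n C.s2.w 0) r)
    (fun _ _ _ hst h => Win2.mono hst h) fun r => CW.of_move (Move.refl _) (Move.refl _) (R r)
  exact ⟨t, ![evW H hH C.s1.n C.s1.w 0, evW H hH C.s2.n C.s2.w 0],
    fun r => (win_iff_win2 t _ r).2 (k r)⟩

end Pool.Agent.Lib.MP_1fc36f_co.H45
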