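import Pool.Agent.Lib.MP_1fc36f_co.H45Tree

/-! Soundness of the rules for claims. -/

namespace Pool.Agent.Lib.MP_1fc36f_co.H45

open Pool.Agent.Lib.MP_1fc36f_co.H40 Pool.Agent.Lib.MP_1fc36f_co.H39

/-- The first cop raises his index until he meets the goal. -/
theorem raise {V : Type} [Finite V] {G : SimpleGraph V} {T : Set V} {w w' : ℤ → V}
    (hw : IsWalk G w) (hw' : IsWalk G w') {P Q P' : V → ℤ → Prop} {M : ℤ}
    (hM : ∀ r i, P r i → i ≤ M)
    (step : ∀ r ∈ T, ∀ r', Move G r r' → (∀ i k, P r i → Q r k → CW G (w i) (w' k) r') ∨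
      ((∀ i, P r i → P r' (i + 1) ∨
          ∃ i', i' ≤ i + 1 ∧ i ≤ i' + 1 ∧ P r' i' ∧ (r' ∈ T → P' r' i')) ∧
        (∀ k, Q r k → ∃ k', k' ≤ k + 1 ∧ k ≤ k' + 1 ∧ Q r' k') ∧
        (r' ∈ T ∨ ∀ i k, P r' i → Q r' k → RW G (w i) (w' k) r')))
    (goal : ∀ r ∈ T, ∀ i k, P r i → P' r i → Q r k → RW G (w i) (w' k) r) :
    ∀ r ∈ T, ∀ i k, P r i → Q r k → RW G (w i) (w' k) r := by
  have key : ∀ m : ℕ, ∀ r ∈ T, ∀ i k, M - i < m → P r i → Q r k → RW G (w i) (w' k) r := by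
    intro m
    induction m with
    | zero => intro r _ i k h hi _; have := hM r i hi; omega
    | succ m ih =>
      intro r hr i k h hi hk
      refine RW.of_all fun r' hr' => ?_
      rcases step r hr r' hr' with h0 | ⟨h1, h2, h3⟩
      · exact h0 i k hi hk
      obtain ⟨k', a1, a2, a3⟩ := h2 k hk
      have mk : Move G (w' k) (w' k') := hw'.move (by omega) (by omega)
      rcases h1 i hi with b | ⟨i', b1, b2, b3, b4⟩
      · refine CW.of_move (hw i) mk ?_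
        rcases h3 with h3 | h3
        · exact ih r' h3 (i + 1) k' (by push_cast at h; omega) b a3
        · exact h3 _ _ b a3
      · refine CW.of_move (hw.move (y := i') (by omega) (by omega)) mk ?_
        rcases h3 with h3 | h3
        · exact goal r' h3 i' k' b3 (b4 h3) a3
        · exact h3 _ _ b3 a3
  exact fun r hr i k hi hk => key ((M - i).toNat + 1) r hr i k (by push_cast; omega) hi hk

theorem near {c : Cop} {v : Val} {i : ℤ} (h1 : ∀ a ∈ c.L, a.ev v ≤ i + 1)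
    (h2 : ∀ a ∈ c.U, i ≤ a.ev v + 1) (h3 : ∀ a ∈ c.L, ∀ b ∈ c.U, a.ev v ≤ b.ev v) :
    c.mem v (i + 1) ∨ ∃ i', i' ≤ i + 1 ∧ i ≤ i' + 1 ∧ c.mem v i' ∧ ∃ b ∈ c.U, b.ev v = i' := by
  by_cases k1 : ∀ a ∈ c.U, i + 1 ≤ a.ev v
  · exact Or.inl ⟨h1, k1⟩
  push Not at k1
  by_cases k2 : ∀ a ∈ c.U, i ≤ a.ev v
  · obtain ⟨b, hb, hb'⟩ := k1
    have := k2 b hb
    exact Or.inr ⟨i, by omega, by omega, ⟨fun a ha => by have := h3 a ha b hb; omega, k2⟩,
      b, hb, by omega⟩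
  · push Not at k2
    obtain ⟨b, hb, hb'⟩ := k2
    have := h2 b hb
    exact Or.inr ⟨i - 1, by omega, by omega, ⟨fun a ha => by have := h3 a ha b hb; omega,
      fun a ha => by have := h2 a ha; omega⟩, b, hb, by omega⟩

/-- The value of a form without its `j` part. -/
def bv (H x y : ℤ) (a : Aff) : ℤ := a.h * H + a.x * x + a.y * y + a.c

theorem ev_set (k : ℤ) (a : Aff) (H x y j : ℤ) :
    (a.setJ k).ev ⟨H, x, y, j⟩ = bv H x y a + k * j := by
  simp only [Aff.ev, Aff.setJ, bv]; ring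

theorem bv_sub (H x y : ℤ) (a : Aff) (e : ℕ) :
    bv H x y (a.sub (lenA e)) = bv H x y a - (aN e * H + bZ e) := by
  simp only [Aff.sub, lenA, bv]; ring

theorem bv_add (H x y : ℤ) (a : Aff) (e : ℕ) :
    bv H x y (a.add (lenA e)) = bv H x y a + (aN e * H + bZ e) := by
  simp only [Aff.add, lenA, bv]; ring

theorem ev_len (H x y j : ℤ) (e : ℕ) : (lenA e).ev ⟨H, x, y, j⟩ = aN e * H + bZ e := by
  simp only [Aff.ev, lenA]; ring

theorem atN_L {s : Side} {n : ℕ} {H x y j : ℤ} {p : ℤ → Prop} :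
    (∀ a ∈ (s.atN n).L, p (a.ev ⟨H, x, y, j⟩)) ↔
      (∀ a ∈ s.L, p (bv H x y a)) ∧ ∀ a ∈ look s.lo [] n, p (bv H x y a) := by
  simp only [Side.atN, List.forall_mem_map, List.forall_mem_append, ev_set, zero_mul, add_zero]

theorem atN_U {s : Side} {n : ℕ} {H x y j : ℤ} {p : ℤ → Prop} :
    (∀ a ∈ (s.atN n).U, p (a.ev ⟨H, x, y, j⟩)) ↔
      (∀ a ∈ s.U, p (bv H x y a)) ∧ ∀ a ∈ look s.hi [] n, p (bv H x y a) := by
  simp only [Side.atN, List.forall_mem_map, List.forall_mem_append, ev_set, zero_mul, add_zero]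

theorem atE_L {s : Side} {e : ℕ} {H x y j : ℤ} {p : ℤ → Prop} :
    (∀ a ∈ (s.atE e).L, p (a.ev ⟨H, x, y, j⟩)) ↔
      (∀ a ∈ s.L, p (bv H x y a)) ∧ (∀ a ∈ look s.lo [] (srcN e), p (bv H x y a - j)) ∧
        ∀ a ∈ look s.lo [] (tgtN e), p (bv H x y a - (aN e * H + bZ e) + j) := by
  simp only [Side.atE, List.forall_mem_map, List.forall_mem_append, ev_set, zero_mul, add_zero,
    bv_sub, one_mul, neg_mul, ← sub_eq_add_neg]

theorem atE_U {s : Side} {e : ℕ} {H x y j : ℤ} {p : ℤ → Prop} :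
    (∀ a ∈ (s.atE e).U, p (a.ev ⟨H, x, y, j⟩)) ↔
      (∀ a ∈ s.U, p (bv H x y a)) ∧ (∀ a ∈ look s.hi [] (srcN e), p (bv H x y a + j)) ∧
        ∀ a ∈ look s.hi [] (tgtN e), p (bv H x y a + (aN e * H + bZ e) - j) := by
  simp only [Side.atE, List.forall_mem_map, List.forall_mem_append, ev_set, zero_mul, add_zero,
    bv_add, one_mul, neg_mul, ← sub_eq_add_neg]

theorem dom_mem {h : Hd} {jl ju : Aff} {H x y j : ℤ} : (h.dom jl ju).mem ⟨H, x, y, j⟩ ↔
    h.domN.mem ⟨H, x, y, 0⟩ ∧ jl.ev ⟨H, x, y, j⟩ ≤ j ∧ j ≤ ju.ev ⟨H, x, y, j⟩ := by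
  simp only [Hd.domN, Hd.dom, Dom.mem, ev_set, zero_mul, add_zero, Aff.ev_zero, le_refl, and_true,
    and_assoc]

theorem domN_mem {h : Hd} {H x y j : ℤ} (hv : h.domN.mem ⟨H, x, y, j⟩) :
    j = 0 ∧ h.domN.mem ⟨H, x, y, 0⟩ := by
  have := dom_mem.1 hv
  simp only [Aff.ev_zero] at this
  exact ⟨by omega, this.1⟩

theorem ja_ev (C : Claim) (e : ℕ) (H x y j : ℤ) :
    (C.ja e).ev ⟨H, x, y, j⟩ = (C.ja e).ev ⟨H, x, y, 0⟩ := by
  simp only [Claim.ja, ev_set, zero_mul]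

theorem jb_ev (C : Claim) (e : ℕ) (H x y j : ℤ) :
    (C.jb e).ev ⟨H, x, y, j⟩ = (C.jb e).ev ⟨H, x, y, 0⟩ := by
  simp only [Claim.jb, ev_set, zero_mul]

theorem domE_mem {C : Claim} {e : ℕ} {H x y j : ℤ} : (C.domE e).mem ⟨H, x, y, j⟩ ↔
    C.h.domN.mem ⟨H, x, y, 0⟩ ∧ (C.ja e).ev ⟨H, x, y, 0⟩ < j ∧ j < (C.jb e).ev ⟨H, x, y, 0⟩ := by
  rw [Claim.domE, dom_mem, Aff.ev_sub, Aff.ev_one, Aff.ev_succ, ja_ev, jb_ev]
  exact and_congr_right fun _ => by omega

theorem isZ_ev {a : Aff} (h : a.isZ = true) (v : Val) : a.ev v = 0 := by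
  simp only [Aff.isZ, Bool.and_eq_true, decide_eq_true_eq] at h
  obtain ⟨⟨⟨⟨h1, h2⟩, h3⟩, h4⟩, h5⟩ := h
  simp only [Aff.ev, h1, h2, h3, h4, h5, zero_mul, add_zero]

variable {H : ℕ} {hH : 5 ≤ H}

theorem nd_val (n : Fin 250) : nd H hH n = Sum.inl n := by rw [nd, Fin.ofNat_val_eq_self]

theorem ed_val (e : Fin 336) : ed e = e := by rw [ed, Fin.ofNat_val_eq_self]

/-- The bounds of a side for a given place of the robber. -/
def copAt (s : Side) : (W H hH).V → Cop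
  | Sum.inl n => s.atN n.1
  | Sum.inr y => s.atE y.1.1.1

/-- The values of the variables for a given place of the robber. -/
def valAt (x y : ℤ) : (W H hH).V → Val
  | Sum.inl _ => ⟨H, x, y, 0⟩
  | Sum.inr z => ⟨H, x, y, z.1.2⟩

theorem pt_cases (e : Fin 336) {j : ℕ} (hj : j ≤ (W H hH).len e) :
    (j = 0 ∧ (W H hH).pt e j = Sum.inl ((W H hH).src e)) ∨
      (j = (W H hH).len e ∧ (W H hH).pt e j = Sum.inl ((W H hH).tgt e)) ∨
      ∃ h : 0 < j ∧ j < (W H hH).len e, (W H hH).pt e j = Sum.inr ⟨(e, j), h⟩ := by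
  rcases Nat.eq_zero_or_pos j with rfl | h0
  · exact Or.inl ⟨rfl, WG.pt_zero _⟩
  · rcases hj.eq_or_lt with h | h
    · exact Or.inr (Or.inl ⟨h, WG.pt_ge h.ge⟩)
    · exact Or.inr (Or.inr ⟨⟨h0, h⟩, WG.pt_mid _⟩)

theorem fit_sound {d : Dom} {v : Val} (hv : d.mem v) {s : Side} {l : Aff} {a b : ℕ}
    (h : fit d s l a b = true) {i : ℤ} (hi : (s.atN a).mem v i) :
    (∀ u ∈ (s.atN b).L, u.ev v - l.ev v ≤ i) ∧ ∀ u ∈ (s.atN b).U, i ≤ u.ev v + l.ev v := by
  simp only [fit, Bool.and_eq_true, List.all_eq_true] at h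
  exact ⟨fun u hu => Aff.ev_sub u l v ▸ Dom.geL_sound hv (h.1 u hu) hi.1,
    fun u hu => Aff.ev_add u l v ▸ Dom.leU_sound hv (h.2 u hu) hi.2⟩

section Step

variable {C : Claim} {s : Side} {X : List ℕ} {x y : ℤ}

/-- The nodes of a list and the open pieces of edges of a claim. -/
def Claim.terA (C : Claim) (A : List ℕ) (H : ℕ) (hH : 5 ≤ H) (x y : ℤ) : Set (W H hH).V :=
  {v | match v with
    | Sum.inl n => n.1 ∈ A
    | Sum.inr z => z.1.1.1 ∈ C.B ∧ (C.ja z.1.1.1).ev ⟨H, x, y, 0⟩ < (z.1.2 : ℤ) ∧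
        (z.1.2 : ℤ) < (C.jb z.1.1.1).ev ⟨H, x, y, 0⟩}

/-- The territory of a claim. -/
abbrev Claim.terr (C : Claim) (H : ℕ) (hH : 5 ≤ H) (x y : ℤ) : Set (W H hH).V :=
  C.terA C.A H hH x y

theorem to_edge (hb : C.h.domN.mem ⟨H, x, y, 0⟩) (ok : okSide C s X = true) {e : Fin 336}
    (he : e.1 ∈ C.B) {j : ℕ} (hj : j ≤ (W H hH).len e) (hr : (W H hH).pt e j ∈ C.terr H hH x y)
    {i : ℤ} (hi : (copAt s ((W H hH).pt e j)).mem (valAt x y ((W H hH).pt e j)) i) :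
    (s.atE e).mem ⟨H, x, y, j⟩ i := by
  simp only [okSide, Bool.and_eq_true, List.all_eq_true, Bool.or_eq_true, Bool.not_eq_true'] at ok
  obtain ⟨⟨k1, k2⟩, -⟩ := ok.2 e he
  have hl := len_cast (H := H) (hH := hH) e
  rcases pt_cases e hj with ⟨rfl, h⟩ | ⟨hj', h⟩ | ⟨h0, h⟩
  · rw [h] at hr hi
    have m : memb C.A (srcN e) = true := memb_iff.2 hr
    rcases k1 with k1 | k1
    · rw [m] at k1; exact absurd k1 (by decide)
    obtain ⟨f1, f2⟩ := fit_sound hb k1 hi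
    rw [ev_len] at f1 f2
    have a1 := (atN_L (p := fun z => z ≤ i)).1 hi.1
    have a2 := (atN_U (p := fun z => i ≤ z)).1 hi.2
    have a3 := (atN_L (p := fun z => z - (aN e * H + bZ e) ≤ i)).1 f1
    have a4 := (atN_U (p := fun z => i ≤ z + (aN e * H + bZ e))).1 f2
    exact ⟨(atE_L (p := fun z => z ≤ i)).2 ⟨a1.1, fun a ha => by have := a1.2 a ha; omega,
        fun a ha => by have := a3.2 a ha; omega⟩,
      (atE_U (p := fun z => i ≤ z)).2 ⟨a2.1, fun a ha => by have := a2.2 a ha; omega,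
        fun a ha => by have := a4.2 a ha; omega⟩⟩
  · rw [h] at hr hi
    have m : memb C.A (tgtN e) = true := memb_iff.2 hr
    rcases k2 with k2 | k2
    · rw [m] at k2; exact absurd k2 (by decide)
    obtain ⟨f1, f2⟩ := fit_sound hb k2 hi
    rw [ev_len] at f1 f2
    have a1 := (atN_L (p := fun z => z ≤ i)).1 hi.1
    have a2 := (atN_U (p := fun z => i ≤ z)).1 hi.2
    have a3 := (atN_L (p := fun z => z - (aN e * H + bZ e) ≤ i)).1 f1
    have a4 := (atN_U (p := fun z => i ≤ z + (aN e * H + bZ e))).1 f2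
    rw [← hj'] at hl
    exact ⟨(atE_L (p := fun z => z ≤ i)).2 ⟨a1.1, fun a ha => by have := a3.2 a ha; omega,
        fun a ha => by have := a1.2 a ha; omega⟩,
      (atE_U (p := fun z => i ≤ z)).2 ⟨a2.1, fun a ha => by have := a4.2 a ha; omega,
        fun a ha => by have := a2.2 a ha; omega⟩⟩
  · rw [h] at hi
    exact hi

theorem from_edge {e : Fin 336} {j j' : ℕ} (hj : j ≤ (W H hH).len e) (hj' : j' ≤ (W H hH).len e)
    (h1 : j ≤ j' + 1) (h2 : j' ≤ j + 1) {i : ℤ} (hi : (s.atE e).mem ⟨H, x, y, j⟩ i) :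
    (∀ a ∈ (copAt s ((W H hH).pt e j')).L, a.ev (valAt x y ((W H hH).pt e j')) ≤ i + 1) ∧
      ∀ a ∈ (copAt s ((W H hH).pt e j')).U, i ≤ a.ev (valAt x y ((W H hH).pt e j')) + 1 := by
  have hl := len_cast (H := H) (hH := hH) e
  obtain ⟨a1, a2, a3⟩ := (atE_L (p := fun z => z ≤ i)).1 hi.1
  obtain ⟨b1, b2, b3⟩ := (atE_U (p := fun z => i ≤ z)).1 hi.2
  rcases pt_cases e hj' with ⟨rfl, h⟩ | ⟨e1, h⟩ | ⟨h0, h⟩ <;> rw [h]
  · exact ⟨(atN_L (p := fun z => z ≤ i + 1)).2 ⟨fun a ha => by have := a1 a ha; omega,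
        fun a ha => by have := a2 a ha; omega⟩,
      (atN_U (p := fun z => i ≤ z + 1)).2 ⟨fun a ha => by have := b1 a ha; omega,
        fun a ha => by have := b2 a ha; omega⟩⟩
  · rw [← e1] at hl
    exact ⟨(atN_L (p := fun z => z ≤ i + 1)).2 ⟨fun a ha => by have := a1 a ha; omega,
        fun a ha => by have := a3 a ha; omega⟩,
      (atN_U (p := fun z => i ≤ z + 1)).2 ⟨fun a ha => by have := b1 a ha; omega,
        fun a ha => by have := b3 a ha; omega⟩⟩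
  · exact ⟨(atE_L (s := s) (e := e) (H := H) (x := x) (y := y) (j := (j' : ℤ))
        (p := fun z => z ≤ i + 1)).2 ⟨fun a ha => by have := a1 a ha; omega,
        fun a ha => by have := a2 a ha; omega, fun a ha => by have := a3 a ha; omega⟩,
      (atE_U (s := s) (e := e) (H := H) (x := x) (y := y) (j := (j' : ℤ))
        (p := fun z => i ≤ z + 1)).2 ⟨fun a ha => by have := b1 a ha; omega,
        fun a ha => by have := b2 a ha; omega, fun a ha => by have := b3 a ha; omega⟩⟩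

theorem mid_dom (hb : C.h.domN.mem ⟨H, x, y, 0⟩) {e : Fin 336} {j : ℕ}
    (h : 0 < j ∧ j < (W H hH).len e) {A : List ℕ}
    (hr : (Sum.inr ⟨(e, j), h⟩ : (W H hH).V) ∈ C.terA A H hH x y) :
    unit e ≠ true ∧ (C.domE e).mem ⟨H, x, y, j⟩ := by
  refine ⟨fun hu => ?_, domE_mem.2 ⟨hb, hr.2⟩⟩
  have := unit_len (H := H) (hH := hH) e.2 hu
  rw [ed_val] at this
  omega

theorem pairs_at (hb : C.h.domN.mem ⟨H, x, y, 0⟩) {s' : Side} {A : List ℕ}
    (hn : ∀ n ∈ A, C.h.domN.pairs (s'.atN n).L (s.atN n).U = true)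
    (hE : ∀ e ∈ C.B, unit e = true ∨ (C.domE e).pairs (s'.atE e).L (s.atE e).U = true)
    {r : (W H hH).V} (hr : r ∈ C.terA A H hH x y) :
    ∀ a ∈ (copAt s' r).L, ∀ b ∈ (copAt s r).U, a.ev (valAt x y r) ≤ b.ev (valAt x y r) := by
  rcases r with n | ⟨⟨e, j⟩, h⟩
  · exact Dom.pairs_sound hb (hn _ hr)
  · obtain ⟨k1, k2⟩ := mid_dom (C := C) hb h hr
    exact Dom.pairs_sound k2 ((hE _ hr.1).resolve_left k1)

theorem pairs_ok (hb : C.h.domN.mem ⟨H, x, y, 0⟩) (ok : okSide C s X = true) {r : (W H hH).V}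
    (hr : r ∈ C.terA (C.A ++ X) H hH x y) :
    ∀ a ∈ (copAt s r).L, ∀ b ∈ (copAt s r).U, a.ev (valAt x y r) ≤ b.ev (valAt x y r) := by
  simp only [okSide, Bool.and_eq_true, List.all_eq_true, Bool.or_eq_true] at ok
  exact pairs_at hb ok.1 (fun e he => (ok.2 e he).2) hr

theorem side_step (hb : C.h.domN.mem ⟨H, x, y, 0⟩) (ok : okSide C s X = true) {e : Fin 336}
    (he : e.1 ∈ C.B) {j j' : ℕ} (hj : j ≤ (W H hH).len e) (hj' : j' ≤ (W H hH).len e)
    (h1 : j ≤ j' + 1) (h2 : j' ≤ j + 1) (hr : (W H hH).pt e j ∈ C.terr H hH x y)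
    (hr' : ∀ a ∈ (copAt s ((W H hH).pt e j')).L, ∀ b ∈ (copAt s ((W H hH).pt e j')).U,
      a.ev (valAt x y ((W H hH).pt e j')) ≤ b.ev (valAt x y ((W H hH).pt e j')))
    {i : ℤ} (hi : (copAt s ((W H hH).pt e j)).mem (valAt x y ((W H hH).pt e j)) i) :
    (copAt s ((W H hH).pt e j')).mem (valAt x y ((W H hH).pt e j')) (i + 1) ∨
      ∃ i', i' ≤ i + 1 ∧ i ≤ i' + 1 ∧
        (copAt s ((W H hH).pt e j')).mem (valAt x y ((W H hH).pt e j')) i' ∧
        ∃ b ∈ (copAt s ((W H hH).pt e j')).U, b.ev (valAt x y ((W H hH).pt e j')) = i' := by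
  obtain ⟨k1, k2⟩ := from_edge hj hj' h1 h2 (to_edge hb ok he hj hr hi)
  exact near k1 k2 hr'

variable {E : Env}

theorem other_lt {e : Fin 336} (n : ℕ) : other e n < 250 := by
  unfold other
  cases Nat.beq (srcN e) n
  · exact src_lt e
  · exact tgt_lt e

theorem chkW_sound (hw : ∀ C ∈ E.cs, C.wf = true) (hC : C.wf = true)
    (ih : E.Below H hH (C.h.m.val H x y)) (hb : C.h.domN.mem ⟨H, x, y, 0⟩)
    {ty : List (ℕ × Tree)} {n : ℕ} {e : Fin 336} (h : chkW E C ty n e = true) {r' : (W H hH).V}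
    (hr : (srcN e = n ∧ r' = (W H hH).pt e 1) ∨
      (tgtN e = n ∧ r' = (W H hH).pt e ((W H hH).len e - 1))) {i k : ℤ}
    (hi : (C.s1.atN n).mem ⟨H, x, y, 0⟩ i) (hk : (C.s2.atN n).mem ⟨H, x, y, 0⟩ k) :
    CW (W H hH).G (evW H hH C.s1.n C.s1.w i) (evW H hH C.s2.n C.s2.w k) r' := by
  simp only [chkW, Bool.and_eq_true] at h
  simp only [Claim.wf, Bool.and_eq_true] at hC
  have hl := unit_len (H := H) (hH := hH) e.2 h.1
  have s1 := src_ed (H := H) (hH := hH) e.2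
  have s2 := tgt_ed (H := H) (hH := hH) e.2
  rw [ed_val] at hl s1 s2
  have key := chkT_sound (hH := hH) hw (v := ⟨H, x, y, 0⟩) rfl ih _ (C.cellW n (other e n))
    ⟨hC.1, hC.2, other_lt n⟩ h.2 hb i k hi hk
  have e1 : r' = nd H hH (other e n) := by
    rcases hr with ⟨h1, rfl⟩ | ⟨h1, rfl⟩
    · rw [WG.pt_ge hl.le, s2, other, h1, Nat.beq_refl]; rfl
    · rw [hl, WG.pt_zero, s1, other]
      cases h2 : Nat.beq (srcN e) n
      · rfl
      · rw [Nat.eq_of_beq_eq_true h2, h1]; rfl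
  rw [e1]
  exact key

theorem chkAll_sound (hw : ∀ C ∈ E.cs, C.wf = true) (hC : C.wf = true)
    (ih : E.Below H hH (C.h.m.val H x y)) (hb : C.h.domN.mem ⟨H, x, y, 0⟩) {G : Claim}
    {tn te : List (ℕ × Tree)} {d : Tree} (h : chkAll E C G tn te d = true) {r : (W H hH).V}
    (hr : r ∈ C.terr H hH x y) {i k : ℤ} (hi : (copAt C.s1 r).mem (valAt x y r) i)
    (hg : ∀ a ∈ (copAt G.s1 r).L, a.ev (valAt x y r) ≤ i)
    (hk : (copAt C.s2 r).mem (valAt x y r) k) :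
    RW (W H hH).G (evW H hH C.s1.n C.s1.w i) (evW H hH C.s2.n C.s2.w k) r := by
  simp only [chkAll, Bool.and_eq_true, List.all_eq_true, Bool.or_eq_true] at h
  simp only [Claim.wf, Bool.and_eq_true] at hC
  rcases r with n | ⟨⟨e, j⟩, hj⟩
  · have key := chkT_sound (hH := hH) hw (v := ⟨H, x, y, 0⟩) rfl ih _
      ((C.cellN n).goal (G.cellN n)) ⟨hC.1, hC.2, n.2⟩ (h.1 _ hr) hb i k
      ⟨List.forall_mem_append.2 ⟨hg, hi.1⟩, hi.2⟩ hk
    rw [← nd_val]
    exact key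
  · obtain ⟨k1, k2⟩ := mid_dom (C := C) hb hj hr
    have key := chkT_sound (hH := hH) hw (v := ⟨H, x, y, j⟩) rfl ih _
      ((C.cellE e).goal (G.cellE e)) ⟨hC.1, hC.2, e.2⟩ ((h.2 _ hr.1).resolve_left k1) k2 i k
      ⟨List.forall_mem_append.2 ⟨hg, hi.1⟩, hi.2⟩ hk
    have e1 : (W H hH).pt (ed e) (j : ℤ).toNat = Sum.inr ⟨(e, j), hj⟩ := by
      rw [ed_val, Int.toNat_natCast, WG.pt_mid]
    rw [← e1]
    exact key

theorem cut_sound (hw : ∀ C ∈ E.cs, C.wf = true) (hC : C.wf = true)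
    (ih : E.Below H hH (C.h.m.val H x y)) (hb : C.h.domN.mem ⟨H, x, y, 0⟩)
    {tc : List (ℕ × Tree)} {e : Fin 336} {n : ℕ} {c : Aff}
    (hc : ∀ j, c.ev ⟨H, x, y, j⟩ = c.ev ⟨H, x, y, 0⟩) (h : cutOK E C tc e n c = true) :
    n ∉ C.A ∧ 1 ≤ c.ev ⟨H, x, y, 0⟩ ∧ c.ev ⟨H, x, y, 0⟩ < ((W H hH).len e : ℕ) ∧
      ∀ j : ℕ, (j : ℤ) = c.ev ⟨H, x, y, 0⟩ → ∀ r, r = (W H hH).pt e j →
        (∀ a ∈ (copAt C.s1 r).L, ∀ b ∈ (copAt C.s1 r).U,
          a.ev (valAt x y r) ≤ b.ev (valAt x y r)) ∧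
        (∀ a ∈ (copAt C.s2 r).L, ∀ b ∈ (copAt C.s2 r).U,
          a.ev (valAt x y r) ≤ b.ev (valAt x y r)) ∧
        ∀ i k, (copAt C.s1 r).mem (valAt x y r) i → (copAt C.s2 r).mem (valAt x y r) k →
          RW (W H hH).G (evW H hH C.s1.n C.s1.w i) (evW H hH C.s2.n C.s2.w k) r := by
  simp only [cutOK, Bool.and_eq_true, Bool.not_eq_true'] at h
  simp only [Claim.wf, Bool.and_eq_true] at hC
  obtain ⟨⟨⟨⟨⟨h1, h2⟩, h3⟩, h4⟩, h5⟩, h6⟩ := h
  have hl := len_cast (H := H) (hH := hH) e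
  have a2 := Dom.le_sound hb h2
  have a3 := Dom.lt_sound hb h3
  rw [Aff.ev_one] at a2
  rw [ev_len] at a3
  refine ⟨fun m => ?_, a2, by omega, fun j hj r hr => ?_⟩
  · rw [memb_iff.2 m] at h1
    exact absurd h1 (by decide)
  have hj' : 0 < j ∧ j < (W H hH).len e := by omega
  have hv : (C.h.dom c c).mem ⟨H, x, y, j⟩ := dom_mem.2 ⟨hb, by rw [hc]; omega, by rw [hc]; omega⟩
  have e0 : (W H hH).pt e j = Sum.inr ⟨(e, j), hj'⟩ := WG.pt_mid _
  rw [hr, e0]
  refine ⟨Dom.pairs_sound hv h4, Dom.pairs_sound hv h5, fun i k hi hk => ?_⟩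
  have key := chkT_sound (hH := hH) hw (v := ⟨H, x, y, j⟩) rfl ih _ (C.cellC e c)
    ⟨hC.1, hC.2, e.2⟩ h6 hv i k hi hk
  have e1 : (W H hH).pt (ed e) (j : ℤ).toNat = Sum.inr ⟨(e, j), hj'⟩ := by
    rw [ed_val, Int.toNat_natCast, WG.pt_mid]
  rw [← e1]
  exact key

theorem holds_of (hB : bounded C = true) (h : C.h.domN.mem ⟨H, x, y, 0⟩ → ∀ r ∈ C.terr H hH x y,
    ∀ i k, (copAt C.s1 r).mem (valAt x y r) i → (copAt C.s2 r).mem (valAt x y r) k →
      RW (W H hH).G (evW H hH C.s1.n C.s1.w i) (evW H hH C.s2.n C.s2.w k) r) :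
    C.Holds H hH x y := by
  simp only [bounded, Bool.and_eq_true, List.all_eq_true, Nat.blt_eq] at hB
  refine ⟨fun n hn j hv i k hi hk => ?_, fun e he j hv i k hi hk => ?_⟩
  · obtain ⟨rfl, hb⟩ := domN_mem hv
    have key := h hb (Sum.inl ⟨n, hB.1 n hn⟩) hn i k hi hk
    rw [← nd_val] at key
    exact key
  · obtain ⟨hb, j1, j2⟩ := domE_mem.1 hv
    obtain ⟨⟨b1, b2⟩, b3⟩ := hB.2 e he
    have b4 := Dom.nn_sound hb b2
    have b5 := Dom.le_sound hb b3
    rw [ev_len] at b5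
    have hl := len_cast (H := H) (hH := hH) ⟨e, b1⟩
    obtain ⟨j, rfl⟩ : ∃ m : ℕ, j = m := ⟨j.toNat, by omega⟩
    have hj : 0 < j ∧ j < (W H hH).len ⟨e, b1⟩ := by
      simp only at hl ⊢
      omega
    have key := h hb (Sum.inr ⟨(⟨e, b1⟩, j), hj⟩) ⟨he, j1, j2⟩ i k hi hk
    have e1 : (W H hH).pt (ed e) (j : ℤ).toNat = Sum.inr ⟨(⟨e, b1⟩, j), hj⟩ := by
      rw [show ed e = ⟨e, b1⟩ from ed_val ⟨e, b1⟩, Int.toNat_natCast, WG.pt_mid]
    rw [← e1] at key
    exact key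

end Step

theorem chkC_sound {E : Env} (hw : ∀ C ∈ E.cs, C.wf = true) {C : Claim} (hC : C.wf = true)
    {p : Pf} (h : chkC E C p = true) {x y : ℤ} (ih : E.Below H hH (C.h.m.val H x y)) :
    C.Holds H hH x y := by
  have hC' := hC
  simp only [Claim.wf, Bool.and_eq_true] at hC'
  cases p with
  | cover tn te d =>
    simp only [chkC, Bool.and_eq_true] at h
    refine holds_of h.1 fun hb r hr i k hi hk => chkAll_sound hw hC ih hb h.2 hr hi ?_ hk
    rcases r with n | z <;> exact fun a ha => absurd ha List.not_mem_nil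
  | one tz ty =>
    simp only [chkC, Bool.and_eq_true, List.all_eq_true, List.isEmpty_iff] at h
    obtain ⟨⟨h1, h2⟩, h3⟩ := h
    refine holds_of h1 fun hb r hr i k hi hk => ?_
    rcases r with n | ⟨⟨e, j⟩, hj⟩
    · obtain ⟨k1, k2⟩ := h3 _ hr
      refine RW.of_all fun r' hr' => ?_
      rcases move_nd hr' with rfl | ⟨e, m1, m2⟩
      · have key := chkT_sound (hH := hH) hw (v := ⟨H, x, y, 0⟩) rfl ih _ (C.cellW n n)
          ⟨hC'.1, hC'.2, n.2⟩ k1 hb i k hi hk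
        rw [← nd_val]
        exact key
      · exact chkW_sound hw hC ih hb (k2 _ m1) m2 hi hk
    · have : e.1 ∈ C.B := hr.1
      rw [h2] at this
      exact absurd this List.not_mem_nil
  | step L lo X tn te tx ty tc d =>
    simp only [chkC, Bool.and_eq_true, List.all_eq_true, Bool.or_eq_true, Nat.blt_eq,
      Bool.not_eq_true', memb_iff] at h
    obtain ⟨⟨⟨⟨⟨⟨⟨⟨⟨⟨h1, h2⟩, h3⟩, h4⟩, h5⟩, h6⟩, h7⟩, h8⟩, h9⟩, h10⟩, h11⟩ := h
    obtain ⟨u, hu⟩ := List.exists_mem_of_ne_nil C.s1.U (List.isEmpty_eq_false_iff.1 h3)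
    refine holds_of h1 fun hb => raise (evW_walk hC'.1) (evW_walk hC'.2)
      (P := fun r i => (copAt C.s1 r).mem (valAt x y r) i)
      (Q := fun r i => (copAt C.s2 r).mem (valAt x y r) i)
      (P' := fun r i => ∀ a ∈ (copAt (C.withLo L lo).s1 r).L, a.ev (valAt x y r) ≤ i)
      (M := bv H x y u) (fun r i hi => ?_) (fun r hr r' hr' => ?_)
      fun r hr i k hi hg hk => chkAll_sound hw hC ih hb h10 hr hi hg hk
    · rcases r with n | z
      · exact ((atN_U (p := fun z => i ≤ z)).1 hi.2).1 u hu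
      · exact ((atE_U (p := fun z => i ≤ z)).1 hi.2).1 u hu
    have top : ∀ r ∈ C.terr H hH x y, ∀ i, (∃ b ∈ (copAt C.s1 r).U, b.ev (valAt x y r) = i) →
        ∀ a ∈ (copAt (C.withLo L lo).s1 r).L, a.ev (valAt x y r) ≤ i := by
      rintro r hr i ⟨b, b1, rfl⟩ a ha
      exact pairs_at hb h8 h9 hr a ha b b1
    have main : ∀ (e : Fin 336) (j j' : ℕ), j ≤ (W H hH).len e → j' ≤ (W H hH).len e →
        (j' = j + 1 ∨ j = j' + 1) → r = (W H hH).pt e j → r' = (W H hH).pt e j' →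
        (∀ i k, (copAt C.s1 r).mem (valAt x y r) i → (copAt C.s2 r).mem (valAt x y r) k →
          CW (W H hH).G (evW H hH C.s1.n C.s1.w i) (evW H hH C.s2.n C.s2.w k) r') ∨
        ((∀ i, (copAt C.s1 r).mem (valAt x y r) i → (copAt C.s1 r').mem (valAt x y r') (i + 1) ∨
          ∃ i', i' ≤ i + 1 ∧ i ≤ i' + 1 ∧ (copAt C.s1 r').mem (valAt x y r') i' ∧
            (r' ∈ C.terr H hH x y →
              ∀ a ∈ (copAt (C.withLo L lo).s1 r').L, a.ev (valAt x y r') ≤ i')) ∧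
        (∀ k, (copAt C.s2 r).mem (valAt x y r) k →
          ∃ k', k' ≤ k + 1 ∧ k ≤ k' + 1 ∧ (copAt C.s2 r').mem (valAt x y r') k') ∧
        (r' ∈ C.terr H hH x y ∨ ∀ i k, (copAt C.s1 r').mem (valAt x y r') i →
          (copAt C.s2 r').mem (valAt x y r') k →
          RW (W H hH).G (evW H hH C.s1.n C.s1.w i) (evW H hH C.s2.n C.s2.w k) r')) := by
      rintro e j j' hj hj' hjj rfl rfl
      have p0 := (W H hH).pos e
      by_cases he : e.1 ∈ C.B
      · have ex : ∀ n : Fin 250, n.1 ∈ X → ∀ i k,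
            (copAt (hH := hH) C.s1 (Sum.inl n)).mem (valAt (hH := hH) x y (Sum.inl n)) i →
            (copAt (hH := hH) C.s2 (Sum.inl n)).mem (valAt (hH := hH) x y (Sum.inl n)) k →
            RW (W H hH).G (evW H hH C.s1.n C.s1.w i) (evW H hH C.s2.n C.s2.w k) (Sum.inl n) := by
          intro n hn i k hi hk
          have key := chkT_sound (hH := hH) hw (v := ⟨H, x, y, 0⟩) rfl ih _ (C.cellN n)
            ⟨hC'.1, hC'.2, n.2⟩ (h11 _ hn) hb i k hi hk
          rw [← nd_val]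
          exact key
        have hl := len_cast (H := H) (hH := hH) e
        have c1 := (h5 _ he).1.imp (And.imp_left fun z => isZ_ev z ⟨H, x, y, 0⟩)
          (cut_sound (hH := hH) hw hC ih hb (ja_ev C e H x y))
        have c2 := (h5 _ he).2.imp (And.imp_left fun z => isZ_ev z ⟨H, x, y, 0⟩)
          (cut_sound (hH := hH) hw hC ih hb (jb_ev C e H x y))
        rw [Aff.ev_sub, ev_len] at c2
        have q1 : (C.ja e).ev ⟨H, x, y, 0⟩ < ((W H hH).len e : ℕ) := by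
          rcases c1 with c | c
          · have := c.1; omega
          · exact c.2.2.1
        have q2 : 1 ≤ (C.jb e).ev ⟨H, x, y, 0⟩ := by
          rcases c2 with c | c
          · have := c.1; omega
          · exact c.2.1
        have rg : (C.ja e).ev ⟨H, x, y, 0⟩ ≤ j' ∧ (j' : ℤ) ≤ (C.jb e).ev ⟨H, x, y, 0⟩ := by
          rcases pt_cases e hj with ⟨e1, h⟩ | ⟨e1, h⟩ | ⟨h0, h⟩ <;> rw [h] at hr
          · rcases c1 with c | c
            · have := c.1; omega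
            · exact absurd hr c.1
          · rcases c2 with c | c
            · have := c.1; omega
            · exact absurd hr c.1
          · have t1 : (C.ja e).ev ⟨H, x, y, 0⟩ < (j : ℤ) := hr.2.1
            have t2 : (j : ℤ) < (C.jb e).ev ⟨H, x, y, 0⟩ := hr.2.2
            omega
        have m : ∀ r', r' = (W H hH).pt e j' →
            (∀ a ∈ (copAt C.s1 r').L, ∀ b ∈ (copAt C.s1 r').U,
              a.ev (valAt x y r') ≤ b.ev (valAt x y r')) ∧
            (∀ a ∈ (copAt C.s2 r').L, ∀ b ∈ (copAt C.s2 r').U,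
              a.ev (valAt x y r') ≤ b.ev (valAt x y r')) ∧
            (r' ∈ C.terr H hH x y ∨ ∀ i k, (copAt C.s1 r').mem (valAt x y r') i →
              (copAt C.s2 r').mem (valAt x y r') k →
              RW (W H hH).G (evW H hH C.s1.n C.s1.w i) (evW H hH C.s2.n C.s2.w k) r') := by
          intro r' er
          have nd' : ∀ n : Fin 250, r' = Sum.inl n → n.1 ∈ C.A ∨ n.1 ∈ X →
              (∀ a ∈ (copAt C.s1 r').L, ∀ b ∈ (copAt C.s1 r').U,
                a.ev (valAt x y r') ≤ b.ev (valAt x y r')) ∧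
              (∀ a ∈ (copAt C.s2 r').L, ∀ b ∈ (copAt C.s2 r').U,
                a.ev (valAt x y r') ≤ b.ev (valAt x y r')) ∧
              (r' ∈ C.terr H hH x y ∨ ∀ i k, (copAt C.s1 r').mem (valAt x y r') i →
                (copAt C.s2 r').mem (valAt x y r') k →
                RW (W H hH).G (evW H hH C.s1.n C.s1.w i) (evW H hH C.s2.n C.s2.w k) r') := by
            rintro n rfl hn
            exact ⟨pairs_ok hb h6 (List.mem_append.2 hn), pairs_ok hb h7 (List.mem_append.2 hn),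
              hn.imp id (ex _)⟩
          by_cases z1 : (j' : ℤ) = (C.ja e).ev ⟨H, x, y, 0⟩
          · rcases c1 with c | c
            · have : j' = 0 := by have := c.1; omega
              exact nd' _ (by rw [er, this, WG.pt_zero]) c.2
            · obtain ⟨t1, t2, t3⟩ := c.2.2.2 j' z1 r' er
              exact ⟨t1, t2, Or.inr t3⟩
          by_cases z2 : (j' : ℤ) = (C.jb e).ev ⟨H, x, y, 0⟩
          · rcases c2 with c | c
            · have : (W H hH).len e ≤ j' := by have := c.1; omega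
              exact nd' _ (by rw [er, WG.pt_ge this]) c.2
            · obtain ⟨t1, t2, t3⟩ := c.2.2.2 j' z2 r' er
              exact ⟨t1, t2, Or.inr t3⟩
          have b1 : 0 ≤ (C.ja e).ev ⟨H, x, y, 0⟩ := by
            rcases c1 with c | c
            · have := c.1; omega
            · have := c.2.1; omega
          have b2 : (C.jb e).ev ⟨H, x, y, 0⟩ ≤ ((W H hH).len e : ℕ) := by
            rcases c2 with c | c
            · have := c.1; omega
            · have := c.2.2.1; omega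
          have h0 : 0 < j' ∧ j' < (W H hH).len e := by omega
          have mm : ∀ A, r' ∈ C.terA A H hH x y := fun A => by
            rw [er, WG.pt_mid h0]
            exact ⟨he, lt_of_le_of_ne rg.1 (Ne.symm z1), lt_of_le_of_ne rg.2 z2⟩
          exact ⟨pairs_ok hb h6 (mm _), pairs_ok hb h7 (mm _), Or.inl (mm _)⟩
        obtain ⟨m1, m2, m3⟩ := m _ rfl
        refine Or.inr ⟨fun i hi => ?_, fun k hk => ?_, m3⟩
        · refine (side_step hb h6 he hj hj' (by omega) (by omega) hr m1 hi).imp id ?_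
          rintro ⟨i', a1, a2, a3, a4⟩
          exact ⟨i', a1, a2, a3, fun ht => top _ ht _ a4⟩
        · rcases side_step hb h7 he hj hj' (by omega) (by omega) hr m2 hk with a | ⟨k', a1, a2, a3, -⟩
          · exact ⟨k + 1, le_rfl, by omega, a⟩
          · exact ⟨k', a1, a2, a3⟩
      · refine Or.inl fun i k hi hk => ?_
        rcases pt_cases e hj with ⟨rfl, h⟩ | ⟨e1, h⟩ | ⟨h0, h⟩ <;> rw [h] at hr hi hk
        · obtain rfl : j' = 1 := by omega
          exact chkW_sound hw hC ih hb ((h4 _ hr _ (inc_src e)).resolve_left he)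
            (Or.inl ⟨rfl, rfl⟩) hi hk
        · obtain rfl : j' = (W H hH).len e - 1 := by omega
          exact chkW_sound hw hC ih hb ((h4 _ hr _ (inc_tgt e)).resolve_left he)
            (Or.inr ⟨rfl, rfl⟩) hi hk
        · exact absurd hr.1 he
    rcases WG.move_cases hr' with rfl | ⟨e, j, hj, ⟨a1, a2⟩ | ⟨a1, a2⟩⟩
    · refine Or.inr ⟨fun i hi => ?_, fun k hk => ⟨k, by omega, by omega, hk⟩, Or.inl hr⟩
      refine (near (fun a ha => by have := hi.1 a ha; omega) (fun a ha => by have := hi.2 a ha; omega)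
        fun a ha b hb => (hi.1 a ha).trans (hi.2 b hb)).imp id ?_
      rintro ⟨i', a1, a2, a3, a4⟩
      exact ⟨i', a1, a2, a3, fun ht => top _ ht _ a4⟩
    · exact main e j (j + 1) hj.le hj (Or.inl rfl) a1 a2
    · exact main e (j + 1) j hj hj.le (Or.inr rfl) a1 a2

end Pool.Agent.Lib.MP_1fc36f_co.H45
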