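import Pool.Agent.Lib.MP_1fc36f_co.H45Walk

/-! Soundness of the proof trees. -/

namespace Pool.Agent.Lib.MP_1fc36f_co.H45

open Pool.Agent.Lib.MP_1fc36f_co.H40 Pool.Agent.Lib.MP_1fc36f_co.H39

section General

variable {V : Type} {G : SimpleGraph V} {a b r : V}

theorem cond_of_rw [Finite V] (s : Bool) (h : RW G a b r) : cond s CW RW G a b r := by
  cases s
  · exact h
  · exact CW.of_move (Move.refl _) (Move.refl _) h

theorem cond_swap (s : Bool) (h : cond s CW RW G a b r) : cond s CW RW G b a r := by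
  cases s
  · exact RW.swap h
  · exact Exists.imp (fun _ h => Win2.swap h) h

theorem cond_iso (φ : G ≃g G) (s : Bool) (h : cond s CW RW G (φ a) (φ b) (φ r)) :
    cond s CW RW G a b r := by
  cases s
  · exact (rw_iff φ).1 h
  · exact (cw_iff φ).1 h

end General

variable {H : ℕ} {hH : 5 ≤ H}

theorem Cop.mem_U {c : Cop} {v : Val} {i : ℤ} {a : Aff} (h : c.mem v i) (ha : i ≤ a.ev v) :
    Cop.mem { c with U := a :: c.U } v i :=
  ⟨h.1, fun b hb => (List.mem_cons.1 hb).elim (fun e => e ▸ ha) (h.2 b)⟩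

theorem Cop.mem_L {c : Cop} {v : Val} {i : ℤ} {a : Aff} (h : c.mem v i) (ha : ¬ i ≤ a.ev v) :
    Cop.mem { c with L := a.succ :: c.L } v i :=
  ⟨fun b hb => (List.mem_cons.1 hb).elim (fun e => by rw [e, Aff.ev_succ]; omega) (h.1 b), h.2⟩

theorem cell_holds {C : Claim} {x y : ℤ} (h : C.Holds H hH x y) {s : Bool} {p : ℕ}
    (hp : C.has s p = true) (j : ℤ) : (C.cell s p).Holds H hH ⟨H, x, y, j⟩ := by
  cases s
  · exact h.1 p (memb_iff.1 hp) j
  · exact h.2 p (memb_iff.1 hp) j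

theorem cell_wf {C : Claim} (h : C.wf = true) (s : Bool) (p : ℕ) :
    wf (C.cell s p).c1.n (C.cell s p).c1.w = true ∧
      wf (C.cell s p).c2.n (C.cell s p).c2.w = true := by
  rw [Claim.wf, Bool.and_eq_true] at h
  cases s <;> exact h

theorem cell_cw (C : Claim) (s : Bool) (p : ℕ) : (C.cell s p).cw = false := by cases s <;> rfl

theorem cell_pos (C : Claim) (c : Cell) (v v' : Val) (h : v'.j = v.j) :
    (C.cell c.isE c.p).pos H hH v' = c.pos H hH v := by
  obtain ⟨d, cw, s, p, c1, c2⟩ := c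
  cases s
  · rfl
  · change (W H hH).pt (ed p) v'.j.toNat = (W H hH).pt (ed p) v.j.toNat
    rw [h]

theorem chkT_sound {E : Env} (hw : ∀ C ∈ E.cs, C.wf = true) {m : Mu} {v : Val} (hv : v.H = H)
    (ih : E.Below H hH (m.val H v.x v.y)) :
    ∀ (t : Tree) (c : Cell), c.WF → chkT E m t c = true → c.Holds H hH v := by
  suffices key : ∀ (t : Tree) (c : Cell), chkT E m t c = true → c.WF → c.Holds H hH v from
    fun t c w h => key t c h w
  intro t
  induction t with
  | sx a s t hs ht =>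
    intro c h w hd i k h1 h2
    rw [chkT, Bool.and_eq_true] at h
    obtain ⟨d0, d1, d2, d3⟩ := hd
    by_cases e : v.x ≤ a.ev v
    · exact hs _ h.1 w ⟨d0, d1, e, d3⟩ i k h1 h2
    · exact ht _ h.2 w ⟨d0, by change a.succ.ev v ≤ _; rw [Aff.ev_succ]; omega, d2, d3⟩ i k h1 h2
  | sy a s t hs ht =>
    intro c h w hd i k h1 h2
    rw [chkT, Bool.and_eq_true] at h
    obtain ⟨d0, d1, d2, d3, d4, d5⟩ := hd
    by_cases e : v.y ≤ a.ev v
    · exact hs _ h.1 w ⟨d0, d1, d2, d3, e, d5⟩ i k h1 h2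
    · exact ht _ h.2 w
        ⟨d0, d1, d2, by change a.succ.ev v ≤ _; rw [Aff.ev_succ]; omega, d4, d5⟩ i k h1 h2
  | sj a s t hs ht =>
    intro c h w hd i k h1 h2
    rw [chkT, Bool.and_eq_true] at h
    obtain ⟨d0, d1, d2, d3, d4, d5, d6⟩ := hd
    by_cases e : v.j ≤ a.ev v
    · exact hs _ h.1 w ⟨d0, d1, d2, d3, d4, d5, e⟩ i k h1 h2
    · exact ht _ h.2 w
        ⟨d0, d1, d2, d3, d4, by change a.succ.ev v ≤ _; rw [Aff.ev_succ]; omega, d6⟩ i k h1 h2
  | s1 a s t hs ht =>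
    intro c h w hd i k h1 h2
    rw [chkT, Bool.and_eq_true] at h
    by_cases e : i ≤ a.ev v
    · exact hs _ h.1 w hd i k (Cop.mem_U h1 e) h2
    · exact ht _ h.2 w hd i k (Cop.mem_L h1 e) h2
  | s2 a s t hs ht =>
    intro c h w hd i k h1 h2
    rw [chkT, Bool.and_eq_true] at h
    by_cases e : k ≤ a.ev v
    · exact hs _ h.1 w hd i k h1 (Cop.mem_U h2 e)
    · exact ht _ h.2 w hd i k h1 (Cop.mem_L h2 e)
  | swap t ht =>
    intro c h w hd i k h1 h2
    rw [chkT] at h
    exact cond_swap _ (ht _ h ⟨w.2.1, w.1, w.2.2⟩ hd k i h2 h1)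
  | rot t ht =>
    intro c h w hd i k h1 h2
    rw [chkT] at h
    obtain ⟨w1, w2, w3⟩ := w
    have := ht _ h ⟨wf_rot w1, wf_rot w2, by
      obtain ⟨d, cw, s, p, c1, c2⟩ := c
      cases s
      · exact Nat.mod_lt _ (by decide)
      · exact Nat.mod_lt _ (by decide)⟩ hd i k h1 h2
    refine cond_iso (rot H hH).g _ ?_
    rw [← evW_rot w1, ← evW_rot w2]
    convert this using 1
    obtain ⟨d, cw, s, p, c1, c2⟩ := c
    cases s
    · exact (nd_rot w3).symm
    · exact (pt_rot w3 _).symm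
  | rew n w' g t ht =>
    intro c h w hd i k h1 h2
    rw [chkT, Bool.and_eq_true, Bool.and_eq_true] at h
    obtain ⟨⟨k1, k2⟩, k3⟩ := h
    obtain ⟨e1, e2, i', m1, m2⟩ := tr_sound (hH := hH) hd hv w.1 k1 k2 h1
    have := ht _ k3 ⟨by change wf (c.c1.tr n w' g).n (c.c1.tr n w' g).w = true; rw [e1, e2]; exact k1,
      w.2.1, w.2.2⟩ hd i' k m1 h2
    change cond c.cw CW RW _ (evW H hH (c.c1.tr n w' g).n (c.c1.tr n w' g).w i') _ _ at this
    rw [e1, e2, ← m2] at this
    exact this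
  | go a b t ht =>
    intro c h w hd i k h1 h2
    rw [chkT] at h
    simp only [Bool.and_eq_true, decide_eq_true_eq] at h
    obtain ⟨⟨⟨⟨⟨k0, k1⟩, k2⟩, k3⟩, k4⟩, k5⟩ := h
    have := ht _ k5 w hd (i + a) (k + b) (shift_mem h1) (shift_mem h2)
    rw [k0]
    exact CW.of_move ((evW_walk w.1).move (by omega) (by omega))
      ((evW_walk w.2.1).move (by omega) (by omega)) this
  | empty =>
    intro c h w hd i k h1 h2
    rw [chkT] at h
    simp only [Bool.or_eq_true] at h
    exfalso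
    rcases h with (((h | h) | h) | h) | h
    · have := Dom.lt_sound hd h
      obtain ⟨-, -, -, -, -, d5, d6⟩ := hd
      omega
    · have := Dom.lt_sound hd h
      obtain ⟨-, -, -, d5, d6, -⟩ := hd
      omega
    · have := Dom.lt_sound hd h
      obtain ⟨-, d5, d6, -⟩ := hd
      omega
    · exact clash_sound hd h h1
    · exact clash_sound hd h h2
  | cap p =>
    intro c h w hd i k h1 h2
    rw [chkT] at h
    refine cond_of_rw _ (Or.inl ?_)
    obtain ⟨d, cw, s, q, c1, c2⟩ := c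
    cases s
    · exact pinN_sound hd hv w.1 h h1
    · exact pinE_sound hd hv w.1 h h1
  | del n x y g1 g2 =>
    intro c h w hd i k h1 h2
    rw [chkT] at h
    split at h
    · exact absurd h (by decide)
    · rename_i C hC
      simp only [Bool.and_eq_true] at h
      obtain ⟨⟨⟨⟨k0, k1⟩, k2⟩, k3⟩, k4⟩ := h
      have hm : C ∈ E.cs := List.mem_of_getElem? hC
      obtain ⟨u1, u2⟩ := cell_wf (hw C hm) c.isE c.p
      obtain ⟨i', m1, e1⟩ := copIn_sound (hH := hH) hd hv w.1 u1 k3 h1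
      obtain ⟨k', m2, e2⟩ := copIn_sound (hH := hH) hd hv w.2.1 u2 k4 h2
      have q := domIn_sound hd k2
      rw [hv] at q m1 m2
      have := cell_holds (ih.1 C hm _ _ (muLt_sound hd hv k1)) k0 v.j q i' k' m1 m2
      rw [cell_cw, cell_pos C c v ⟨H, x.ev v, y.ev v, v.j⟩ rfl, ← e1, ← e2] at this
      exact cond_of_rw _ this
  | fin n x y a b r p q =>
    intro c h w hd i k h1 h2
    rw [chkT] at h
    split at h
    · exact absurd h (by decide)
    · rename_i T hT
      simp only [Bool.and_eq_true, Nat.blt_eq, Nat.beq_eq, Bool.not_eq_true'] at h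
      obtain ⟨⟨⟨⟨⟨⟨⟨⟨⟨k0, k1⟩, k2⟩, k3⟩, k4⟩, k5⟩, k6⟩, k7⟩, k8⟩, k9⟩ := h
      have hm : T ∈ E.ts := List.mem_of_getElem? hT
      have u := domIn_sound hd k2
      have j0 : v.j = 0 := by
        obtain ⟨-, -, -, -, -, d5, d6⟩ := u
        have e1 : T.h.domN.jl = Aff.zero := rfl
        have e2 : T.h.domN.ju = Aff.zero := rfl
        rw [e1, Aff.ev_zero] at d5
        rw [e2, Aff.ev_zero] at d6
        exact le_antisymm d6 d5
      rw [hv, j0] at u
      have := ih.2 T hm _ _ (muLt_sound hd hv k1) u a b r k3 k4 k5 k6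
      refine cond_of_rw _ ?_
      rw [pinN_sound (hH := hH) hd hv w.1 k8 h1, pinN_sound (hH := hH) hd hv w.2.1 k9 h2, Cell.pos,
        k0, ← k7]
      exact this

end Pool.Agent.Lib.MP_1fc36f_co.H45
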