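import Pool.Agent.Lib.MP_1fc36f_co.H45Aff

/-! Walks given by lists of directed edges. -/

namespace Pool.Agent.Lib.MP_1fc36f_co.H45

open Pool.Agent.Lib.MP_1fc36f_co.H40 Pool.Agent.Lib.MP_1fc36f_co.H39

variable {H : ℕ} {hH : 5 ≤ H} {d : Dom} {v : Val}

namespace Walk

theorem ed_eq {e : ℕ} (he : e < 336) : ed e = ⟨e, he⟩ := Fin.ext (Nat.mod_eq_of_lt he)

theorem nd_eq {n : ℕ} (hn : n < 250) : nd H hH n = Sum.inl (⟨n, hn⟩ : Fin 250) :=
  congrArg Sum.inl (Fin.ext (Nat.mod_eq_of_lt hn))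

end Walk

open Walk

theorem lenA_ev (hv : v.H = H) {e : ℕ} (he : e < 336) : (lenA e).ev v = lenZ H hH e := by
  unfold lenZ
  rw [len_cast, ed_eq he]
  simp only [lenA, Aff.ev, hv, zero_mul, add_zero]

theorem src_ed {e : ℕ} (he : e < 336) :
    (Sum.inl ((W H hH).src (ed e)) : (W H hH).V) = nd H hH (srcN e) := by
  rw [ed_eq he, nd_eq (src_lt ⟨e, he⟩)]

theorem tgt_ed {e : ℕ} (he : e < 336) :
    (Sum.inl ((W H hH).tgt (ed e)) : (W H hH).V) = nd H hH (tgtN e) := by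
  rw [ed_eq he, nd_eq (tgt_lt ⟨e, he⟩)]

theorem unit_len {e : ℕ} (he : e < 336) (h : unit e = true) : (W H hH).len (ed e) = 1 := by
  unfold unit at h
  rw [Bool.and_eq_true, Nat.beq_eq, Nat.beq_eq] at h
  rw [ed_eq he]
  change aN e * H + bN e - 64 = 1
  rw [h.1, h.2]; omega

namespace Walk

/-- The total length of a walk. -/
def tz (H : ℕ) (hH : 5 ≤ H) : List DE → ℤ
  | [] => 0
  | t :: l => lenZ H hH t.1 + tz H hH l

theorem lenZ_nonneg (e : ℕ) : 0 ≤ lenZ H hH e := Int.natCast_nonneg _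

theorem tz_nonneg : ∀ l : List DE, 0 ≤ tz H hH l
  | [] => le_rfl
  | t :: l => add_nonneg (lenZ_nonneg t.1) (tz_nonneg l)

theorem tz_append : ∀ a b : List DE, tz H hH (a ++ b) = tz H hH a + tz H hH b
  | [], b => (zero_add _).symm
  | t :: l, b => by
    rw [List.cons_append, tz, tz, tz_append l b, add_assoc]

theorem wf_cons {n : ℕ} {t : DE} {l : List DE} :
    wf n (t :: l) = true ↔ t.1 < 336 ∧ dsrc t = n ∧ wf (dtgt t) l = true := by
  rw [wf, Bool.and_eq_true, Bool.and_eq_true, Nat.blt_eq, Nat.beq_eq, and_assoc]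

theorem wf_nil {n : ℕ} : wf n [] = true ↔ n < 250 := by rw [wf, Nat.blt_eq]

theorem dsrc_lt {t : DE} (h : t.1 < 336) : dsrc t < 250 := by
  obtain ⟨e, _ | _⟩ := t
  exacts [tgt_lt ⟨e, h⟩, src_lt ⟨e, h⟩]

theorem wf_lt : ∀ {n : ℕ} {w : List DE}, wf n w = true → n < 250
  | _, [], h => wf_nil.1 h
  | _, _ :: _, h => (wf_cons.1 h).2.1 ▸ dsrc_lt (wf_cons.1 h).1

theorem endN_append : ∀ (n : ℕ) (a b : List DE), endN n (a ++ b) = endN (endN n a) b
  | _, [], _ => rfl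
  | _, t :: l, b => endN_append (dtgt t) l b

theorem wf_append : ∀ {n : ℕ} {a b : List DE},
    wf n (a ++ b) = true ↔ wf n a = true ∧ wf (endN n a) b = true
  | _, [], _ => ⟨fun h => ⟨wf_nil.2 (wf_lt h), h⟩, fun h => h.2⟩
  | _, t :: l, b => by
    rw [List.cons_append, wf_cons, wf_cons, wf_append (a := l), endN, and_assoc, and_assoc]

theorem tot_ev (hv : v.H = H) : ∀ {n : ℕ} {w : List DE}, wf n w = true →
    (tot w).ev v = tz H hH w
  | _, [], _ => Aff.ev_zero v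
  | _, _ :: _, h => by
    rw [tot, Aff.ev_add, lenA_ev (hH := hH) hv (wf_cons.1 h).1, tot_ev hv (wf_cons.1 h).2.2, tz]

theorem dpt_le {t : DE} (h : t.1 < 336) {i : ℤ} (hi : i ≤ 0) :
    dpt H hH t i = nd H hH (dsrc t) := by
  obtain ⟨e, _ | _⟩ := t
  · exact (WG.bw_tgt (W := W H hH) hi).trans (tgt_ed h)
  · exact (WG.fw_src (W := W H hH) hi).trans (src_ed h)

theorem dpt_ge {t : DE} (h : t.1 < 336) {i : ℤ} (hi : lenZ H hH t.1 ≤ i) :
    dpt H hH t i = nd H hH (dtgt t) := by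
  obtain ⟨e, _ | _⟩ := t
  · exact (WG.bw_src (W := W H hH) hi).trans (src_ed h)
  · exact (WG.fw_tgt (W := W H hH) hi).trans (tgt_ed h)

theorem dpt_walk (t : DE) : IsWalk (W H hH).G (dpt H hH t) := by
  obtain ⟨e, _ | _⟩ := t
  exacts [WG.walk_bw (W := W H hH) (ed e), WG.walk_fw (W := W H hH) (ed e)]

theorem dpt_rev (t : DE) (i : ℤ) :
    dpt H hH (t.1, !t.2) i = dpt H hH t (lenZ H hH t.1 - i) := by
  obtain ⟨e, _ | _⟩ := t
  · change (W H hH).pt (ed e) i.toNat =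
      (W H hH).pt (ed e) (lenZ H hH e - (lenZ H hH e - i)).toNat
    rw [sub_sub_cancel]
  · rfl

theorem evW_cons_le {n : ℕ} {t : DE} {l : List DE} {i : ℤ} (hi : i ≤ lenZ H hH t.1) :
    evW H hH n (t :: l) i = dpt H hH t i := if_pos hi

theorem evW_le {n : ℕ} {w : List DE} (h : wf n w = true) {i : ℤ} (hi : i ≤ 0) :
    evW H hH n w i = nd H hH n := by
  cases w with
  | nil => rfl
  | cons t l =>
    rw [evW_cons_le (hi.trans (lenZ_nonneg _)), dpt_le (wf_cons.1 h).1 hi, (wf_cons.1 h).2.1]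

theorem evW_cons_ge {n : ℕ} {t : DE} {l : List DE} (h : wf n (t :: l) = true) {i : ℤ}
    (hi : lenZ H hH t.1 ≤ i) :
    evW H hH n (t :: l) i = evW H hH (dtgt t) l (i - lenZ H hH t.1) := by
  by_cases h' : i ≤ lenZ H hH t.1
  · rw [evW_cons_le h', dpt_ge (wf_cons.1 h).1 hi, evW_le (wf_cons.1 h).2.2 (by omega)]
  · exact if_neg h'

theorem evW_ge : ∀ {n : ℕ} {w : List DE}, wf n w = true → ∀ {i : ℤ}, tz H hH w ≤ i →
    evW H hH n w i = nd H hH (endN n w)
  | _, [], _, _, _ => rfl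
  | _, t :: l, h, i, hi => by
    have := tz_nonneg (H := H) (hH := hH) l
    rw [tz] at hi
    rw [evW_cons_ge h (by omega), evW_ge (wf_cons.1 h).2.2 (by omega), endN]

theorem evW_left : ∀ {n : ℕ} {a b : List DE}, wf n (a ++ b) = true → ∀ {i : ℤ}, i ≤ tz H hH a →
    evW H hH n (a ++ b) i = evW H hH n a i
  | _, [], _, h, _, hi => evW_le h hi
  | _, t :: l, b, h, i, hi => by
    rw [tz] at hi
    rw [List.cons_append] at h ⊢
    by_cases h' : i ≤ lenZ H hH t.1
    · rw [evW_cons_le h', evW_cons_le h']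
    · rw [evW, evW, if_neg h', if_neg h', evW_left (wf_cons.1 h).2.2 (by omega)]

theorem evW_right : ∀ {n : ℕ} {a b : List DE}, wf n (a ++ b) = true → ∀ {i : ℤ}, tz H hH a ≤ i →
    evW H hH n (a ++ b) i = evW H hH (endN n a) b (i - tz H hH a)
  | _, [], _, _, _, _ => by rw [tz, sub_zero]; rfl
  | _, t :: l, b, h, i, hi => by
    have := tz_nonneg (H := H) (hH := hH) l
    rw [tz] at hi
    rw [List.cons_append] at h ⊢
    rw [evW_cons_ge h (by omega), evW_right (wf_cons.1 h).2.2 (by omega), endN, tz, sub_sub]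

theorem revW_cons (t : DE) (l : List DE) : revW (t :: l) = revW l ++ [(t.1, !t.2)] := by
  rw [revW, List.map_cons, List.reverse_cons, revW]

theorem tz_rev : ∀ l : List DE, tz H hH (revW l) = tz H hH l
  | [] => rfl
  | t :: l => by rw [revW_cons, tz_append, tz_rev l, tz, tz, tz, add_zero, add_comm]

theorem dsrc_rev (t : DE) : dsrc (t.1, !t.2) = dtgt t := by obtain ⟨e, _ | _⟩ := t <;> rfl

theorem dtgt_rev (t : DE) : dtgt (t.1, !t.2) = dsrc t := by obtain ⟨e, _ | _⟩ := t <;> rfl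

theorem wf_rev : ∀ {n : ℕ} {w : List DE}, wf n w = true →
    wf (endN n w) (revW w) = true ∧ endN (endN n w) (revW w) = n
  | _, [], h => ⟨h, rfl⟩
  | _, t :: l, h => by
    obtain ⟨h1, h2, h3⟩ := wf_cons.1 h
    obtain ⟨h4, h5⟩ := wf_rev h3
    rw [revW_cons, endN, wf_append, endN_append, h5]
    refine ⟨⟨h4, wf_cons.2 ⟨h1, dsrc_rev t, wf_nil.2 ?_⟩⟩, (dtgt_rev t).trans h2⟩
    rw [dtgt_rev]; exact dsrc_lt h1

theorem evW_rev : ∀ {n : ℕ} {w : List DE}, wf n w = true → ∀ i : ℤ,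
    evW H hH (endN n w) (revW w) i = evW H hH n w (tz H hH w - i)
  | _, [], _, _ => rfl
  | _, t :: l, h, i => by
    obtain ⟨h1, h2, h3⟩ := wf_cons.1 h
    have h4 := (wf_rev h).1
    rw [revW_cons, endN] at h4 ⊢
    rw [tz]
    by_cases hi : i ≤ tz H hH l
    · rw [evW_left h4 (by rwa [tz_rev]), evW_rev h3, evW_cons_ge h (by omega)]
      congr 1; omega
    · rw [evW_right h4 (by rw [tz_rev]; omega), tz_rev, evW_cons_le (l := l) (by omega)]
      by_cases hj : i - tz H hH l ≤ lenZ H hH t.1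
      · rw [evW_cons_le (t := (t.1, !t.2)) hj, dpt_rev]
        congr 1; omega
      · rw [evW, if_neg hj, evW, dtgt_rev, dpt_le h1 (by omega)]

theorem wf_take {n : ℕ} {w : List DE} (h : wf n w = true) (p : ℕ) : wf n (w.take p) = true := by
  rw [← List.take_append_drop p w] at h
  exact (wf_append.1 h).1

theorem wf_drop {n : ℕ} {w : List DE} (h : wf n w = true) (p : ℕ) :
    wf (endN n (w.take p)) (w.drop p) = true := by
  rw [← List.take_append_drop p w] at h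
  exact (wf_append.1 h).2

theorem evW_drop {n : ℕ} {w : List DE} (h : wf n w = true) (p : ℕ) {i : ℤ}
    (hi : tz H hH (w.take p) ≤ i) :
    evW H hH n w i = evW H hH (endN n (w.take p)) (w.drop p) (i - tz H hH (w.take p)) := by
  rw [← evW_right (by rwa [List.take_append_drop]) hi, List.take_append_drop]

theorem evW_take {n : ℕ} {w : List DE} (h : wf n w = true) (p : ℕ) {i : ℤ}
    (hi : i ≤ tz H hH (w.take p)) : evW H hH n w i = evW H hH n (w.take p) i := by
  rw [← evW_left (b := w.drop p) (by rwa [List.take_append_drop]) hi, List.take_append_drop]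

theorem evW_seg {n : ℕ} {w : List DE} (h : wf n w = true) (p k : ℕ) {i : ℤ}
    (h1 : tz H hH (w.take p) ≤ i) (h2 : i ≤ tz H hH (w.take p) + tz H hH ((w.drop p).take k)) :
    evW H hH n w i =
      evW H hH (endN n (w.take p)) ((w.drop p).take k) (i - tz H hH (w.take p)) := by
  rw [evW_drop h p h1, evW_take (wf_drop h p) k (by omega)]

theorem ed_rE {e : ℕ} (h : e < 336) : ed (rE e) = rotE (ed e) := by
  rw [ed_eq h, ed_eq (e := rE e) (Nat.mod_lt _ (by decide))]; rfl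

theorem dsrc_rot {t : DE} (h : t.1 < 336) : dsrc (rE t.1, t.2) = rN (dsrc t) := by
  obtain ⟨e, _ | _⟩ := t
  exacts [(rot_tab ⟨e, h⟩).2.1, (rot_tab ⟨e, h⟩).1]

theorem dtgt_rot {t : DE} (h : t.1 < 336) : dtgt (rE t.1, t.2) = rN (dtgt t) := by
  obtain ⟨e, _ | _⟩ := t
  exacts [(rot_tab ⟨e, h⟩).1, (rot_tab ⟨e, h⟩).2.1]

theorem lenZ_rot {e : ℕ} (h : e < 336) : lenZ H hH (rE e) = lenZ H hH e := by
  unfold lenZ
  rw [ed_rE h]
  exact congrArg _ ((rot H hH).hl (ed e))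

theorem dpt_rot {t : DE} (h : t.1 < 336) (i : ℤ) :
    dpt H hH (rE t.1, t.2) i = (rot H hH).g (dpt H hH t i) := by
  obtain ⟨e, _ | _⟩ := t
  · change WG.bw (W := W H hH) (ed (rE e)) i = (rot H hH).g (WG.bw (W := W H hH) (ed e) i)
    rw [Iso.bw_g, ed_rE h, rot_e]
  · change WG.fw (W := W H hH) (ed (rE e)) i = (rot H hH).g (WG.fw (W := W H hH) (ed e) i)
    rw [Iso.fw_g, ed_rE h, rot_e]

theorem wf_map : ∀ {n : ℕ} {w : List DE}, wf n w = true →
    wf (rN n) (w.map fun t => (rE t.1, t.2)) = true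
  | _, [], _ => wf_nil.2 (Nat.mod_lt _ (by decide))
  | _, t :: l, h => by
    obtain ⟨h1, h2, h3⟩ := wf_cons.1 h
    rw [List.map_cons, wf_cons, dsrc_rot h1, dtgt_rot h1, h2]
    exact ⟨Nat.mod_lt _ (by decide), rfl, wf_map h3⟩

end Walk

theorem evW_walk {n : ℕ} {w : List DE} (h : wf n w = true) :
    IsWalk (W H hH).G (evW H hH n w) := by
  induction w generalizing n with
  | nil => exact fun _ => Move.refl _
  | cons t l ih =>
    obtain ⟨h1, -, h3⟩ := wf_cons.1 h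
    exact WG.walk_cat (W := W H hH) (L := lenZ H hH t.1) (dpt_walk t) (ih h3)
      ((dpt_ge h1 le_rfl).trans (evW_le h3 le_rfl).symm)

theorem wf_rot {c : Cop} (h : wf c.n c.w = true) : wf c.rot.n c.rot.w = true := wf_map h

theorem nd_rot {n : ℕ} (h : n < 250) : nd H hH (rN n) = (rot H hH).g (nd H hH n) := by
  rw [nd_eq h, nd_eq (n := rN n) (Nat.mod_lt _ (by decide))]; rfl

theorem Walk.evW_map : ∀ {n : ℕ} {w : List DE}, wf n w = true → ∀ i : ℤ,
    evW H hH (rN n) (w.map fun t => (rE t.1, t.2)) i = (rot H hH).g (evW H hH n w i)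
  | _, [], h, _ => nd_rot (wf_nil.1 h)
  | _, t :: l, h, i => by
    obtain ⟨h1, h2, h3⟩ := wf_cons.1 h
    rw [List.map_cons, evW, evW, lenZ_rot h1, dtgt_rot h1]
    split_ifs
    exacts [dpt_rot h1 i, Walk.evW_map h3 _]

theorem evW_rot {c : Cop} (h : wf c.n c.w = true) (i : ℤ) :
    evW H hH c.rot.n c.rot.w i = (rot H hH).g (evW H hH c.n c.w i) := evW_map h i

theorem pt_rot {e : ℕ} (h : e < 336) (j : ℕ) :
    (W H hH).pt (ed (rE e)) j = (rot H hH).g ((W H hH).pt (ed e) j) := by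
  rw [Iso.g_pt, ed_rE h, rot_e]

theorem pinN_sound (hv : d.mem v) (hvH : v.H = H) {c : Cop} (hw : wf c.n c.w = true) {p n : ℕ}
    (h : pinN d c p n = true) {i : ℤ} (hi : c.mem v i) : evW H hH c.n c.w i = nd H hH n := by
  rw [pinN, Bool.and_eq_true, Nat.beq_eq] at h
  have e := pin_sound hv h.2 hi
  rw [tot_ev (hH := hH) hvH (wf_take hw p)] at e
  rw [evW_take hw p e.le, evW_ge (wf_take hw p) e.ge, h.1]

theorem pinE_sound (hv : d.mem v) (hvH : v.H = H) {c : Cop} (hw : wf c.n c.w = true) {p e : ℕ}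
    (h : pinE d c p e = true) {i : ℤ} (hi : c.mem v i) :
    evW H hH c.n c.w i = (W H hH).pt (ed e) v.j.toNat := by
  have hd := wf_drop hw p
  unfold pinE at h
  split at h
  · exact absurd h Bool.false_ne_true
  · rename_i t r hr
    rw [Bool.and_eq_true, Bool.and_eq_true, Bool.and_eq_true, Nat.beq_eq] at h
    obtain ⟨⟨⟨rfl, h2⟩, h3⟩, h4⟩ := h
    rw [hr] at hd
    have he := (wf_cons.1 hd).1
    have e2 := Dom.nn_sound hv h2
    have e3 := Dom.le_sound hv h3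
    have e4 := pin_sound hv h4 hi
    rw [Aff.ev_vJ] at e2 e3
    rw [lenA_ev (hH := hH) hvH he] at e3
    rw [Aff.ev_add, tot_ev (hH := hH) hvH (wf_take hw p)] at e4
    obtain ⟨e, _ | _⟩ := t
    · rw [cond_false, Aff.ev_sub, Aff.ev_vJ, lenA_ev (hH := hH) hvH he] at e4
      rw [evW_drop hw p (by omega), hr, evW_cons_le (by omega)]
      change (W H hH).pt (ed e) (lenZ H hH e - _).toNat = _
      congr 2
      dsimp only at e4
      omega
    · rw [cond_true, Aff.ev_vJ] at e4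
      rw [evW_drop hw p (by omega), hr, evW_cons_le (by omega)]
      change (W H hH).pt (ed e) (_ : ℤ).toNat = _
      congr 2
      omega

theorem tr_sound (hv : d.mem v) (hvH : v.H = H) {c : Cop} {n : ℕ} {w : List DE} {g : Seg}
    (hw : wf c.n c.w = true) (hw' : wf n w = true) (h : segOK d c n w g = true) {i : ℤ}
    (hi : c.mem v i) : (c.tr n w g).n = n ∧ (c.tr n w g).w = w ∧
      ∃ i', (c.tr n w g).mem v i' ∧ evW H hH c.n c.w i = evW H hH n w i' := by
  obtain ⟨p, k, q, rv⟩ := g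
  simp only [segOK, Bool.and_eq_true] at h
  obtain ⟨⟨h1, h2⟩, h3⟩ := h
  have hs := wf_take (wf_drop hw p) k
  have ea := tot_ev (hH := hH) hvH (wf_take hw p)
  have ea' := tot_ev (hH := hH) hvH (wf_take hw' q)
  have es := tot_ev (hH := hH) hvH hs
  have e1 := Dom.geL_sound hv h1 hi.1
  have e2 := Dom.leU_sound hv h2 hi.2
  rw [ea] at e1
  rw [Aff.ev_add, ea, es] at e2
  rw [evW_seg hw p k e1 e2]
  cases rv with
  | false =>
    rw [cond_false, Bool.and_eq_true, Nat.beq_eq] at h3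
    have e3 := eqW_eq h3.1
    refine ⟨rfl, rfl, i + (tz H hH (w.take q) - tz H hH (c.w.take p)), ⟨fun a ha => ?_,
      fun a ha => ?_⟩, ?_⟩
    · obtain ⟨b, hb, rfl⟩ := List.mem_map.1 ha
      have := hi.1 b hb
      rw [Aff.ev_add, Aff.ev_sub, ea, ea']; omega
    · obtain ⟨b, hb, rfl⟩ := List.mem_map.1 ha
      have := hi.2 b hb
      rw [Aff.ev_add, Aff.ev_sub, ea, ea']; omega
    · rw [evW_seg hw' q k (by omega) (by rw [e3]; omega), e3, h3.2]
      congr 1; omega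
  | true =>
    rw [cond_true, Bool.and_eq_true, Nat.beq_eq] at h3
    have e3 := eqW_eq h3.1
    refine ⟨rfl, rfl, tz H hH (w.take q) + (tz H hH (c.w.take p) +
      tz H hH ((c.w.drop p).take k)) - i, ⟨fun a ha => ?_, fun a ha => ?_⟩, ?_⟩
    · obtain ⟨b, hb, rfl⟩ := List.mem_map.1 ha
      have := hi.2 b hb
      rw [Aff.ev_sub, Aff.ev_add, Aff.ev_add, ea, ea', es]; omega
    · obtain ⟨b, hb, rfl⟩ := List.mem_map.1 ha
      have := hi.1 b hb
      rw [Aff.ev_sub, Aff.ev_add, Aff.ev_add, ea, ea', es]; omega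
    · rw [evW_seg hw' q k (by omega) (by rw [e3, tz_rev]; omega), e3, h3.2, evW_rev hs]
      congr 1; omega

theorem shift_mem {c : Cop} {a i : ℤ} (hi : c.mem v i) : (c.shift a).mem v (i + a) := by
  have e : (⟨0, 0, 0, 0, a⟩ : Aff).ev v = a := by simp only [Aff.ev, zero_mul, zero_add]
  refine ⟨fun b hb => ?_, fun b hb => ?_⟩
  · obtain ⟨b, hb', rfl⟩ := List.mem_map.1 hb
    have := hi.1 b hb'
    rw [Aff.ev_add, e]; omega
  · obtain ⟨b, hb', rfl⟩ := List.mem_map.1 hb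
    have := hi.2 b hb'
    rw [Aff.ev_add, e]; omega

theorem copIn_sound (hv : d.mem v) (hvH : v.H = H) {x y : Aff} {c c' : Cop} {g : Seg}
    (hw : wf c.n c.w = true) (hw' : wf c'.n c'.w = true) (h : copIn d x y c c' g = true) {i : ℤ}
    (hi : c.mem v i) : ∃ i', c'.mem ⟨v.H, x.ev v, y.ev v, v.j⟩ i' ∧
      evW H hH c.n c.w i = evW H hH c'.n c'.w i' := by
  rw [copIn, Bool.and_eq_true, Bool.and_eq_true, List.all_eq_true, List.all_eq_true] at h
  obtain ⟨-, -, i', h1, h2⟩ := tr_sound (hH := hH) hv hvH hw hw' h.1.1 hi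
  refine ⟨i', ⟨fun a ha => ?_, fun a ha => ?_⟩, h2⟩
  · rw [← Aff.ev_subst]; exact Dom.geL_sound hv (h.1.2 a ha) h1.1
  · rw [← Aff.ev_subst]; exact Dom.leU_sound hv (h.2 a ha) h1.2

end Pool.Agent.Lib.MP_1fc36f_co.H45
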