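import Pool.Agent.Lib.MP_1fc36f_co.H52Pad
import Pool.Agent.Lib.MP_1fc36f_co.H40Base

/-! Assembly: a family of planar graphs with linearly many vertices on which two cops win, but
only after a cubic number of rounds, gives the cubic order of the capture time. -/

namespace Pool.Agent.Lib.MP_1fc36f_co.H52

open Pool.Agent.Lib.MP_1fc36f_co.H40 Pool.Agent.Lib.MP_1fc36f_co.H22

variable {V : Type} {G : SimpleGraph V}

theorem win_more {k l : ℕ} (f : Fin l → Fin k) (hf : Function.Surjective f) (t : ℕ) :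
    ∀ (c : Fin k → V) (r : V), Win G k t c r → Win G l t (fun i => c (f i)) r := by
  induction t with
  | zero =>
    rintro c r ⟨i, hi⟩
    obtain ⟨j, rfl⟩ := hf i
    exact ⟨j, hi⟩
  | succ t ih =>
    rintro c r ⟨c', h1, h2⟩
    refine ⟨fun i => c' (f i), fun i => h1 _, ?_⟩
    rcases h2 with ⟨i, hi⟩ | h2
    · obtain ⟨j, rfl⟩ := hf i
      exact Or.inl ⟨j, hi⟩
    · exact Or.inr fun r' hr => ih c' r' (h2 r' hr)

theorem not_win_zero (t : ℕ) : ∀ (c : Fin 0 → V) (r : V), ¬ Win G 0 t c r := by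
  induction t with
  | zero => rintro c r ⟨i, -⟩; exact i.elim0
  | succ t ih =>
    rintro c r ⟨c', -, ⟨i, -⟩ | h⟩
    · exact i.elim0
    · exact ih c' r (h r (Or.inl rfl))

/-- If two cops win but need more than `n ^ 2` rounds, then the cop number is two. -/
theorem copNumber_eq_two [Finite V] [Nonempty V] (h : ∃ t, CaptureWithin G 2 t)
    (slow : ¬ CaptureWithin G 2 (Nat.card V ^ 2)) : copNumber G = 2 := by
  refine le_antisymm (Nat.sInf_le h) (le_csInf ⟨2, h⟩ ?_)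
  rintro k ⟨s, c, hc⟩
  by_contra hk
  rcases (by omega : k = 0 ∨ k = 1) with rfl | rfl
  · exact not_win_zero s c _ (hc (Classical.arbitrary V))
  · exact slow ⟨_, fun r => win_more (fun _ : Fin 2 => (0 : Fin 1))
      (fun i => ⟨0, Subsingleton.elim _ _⟩) _ c r (win_card (hc r))⟩

/-- A member of the family: at most `m` vertices, two cops win but need `s / D` rounds. -/
def Slow (m s D : ℕ) : Prop :=
  ∃ (V : Type) (_ : Finite V) (G : SimpleGraph V), Nat.card V ≤ m ∧ G.Connected ∧ Planar G ∧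
    (∃ t, CaptureWithin G 2 t) ∧ ∀ t, CaptureWithin G 2 t → s ≤ D * t

theorem of_slow {m s D n : ℕ} (h : Slow m s D) (hs : D * m ^ 2 < s) (hn : m ≤ n) :
    ∃ (V : Type) (_ : Fintype V) (G : SimpleGraph V), Fintype.card V = n ∧ G.Connected ∧
      Planar G ∧ copNumber G = 2 ∧ s ≤ D * capt G := by
  obtain ⟨V, _, G, h1, h2, h3, h4, h5⟩ := h
  have : Nonempty V := h2.nonempty
  have cop : copNumber G = 2 := copNumber_eq_two h4 fun k => by
    have e1 := h5 _ k
    have e2 : D * Nat.card V ^ 2 ≤ D * m ^ 2 := Nat.mul_le_mul_left _ (Nat.pow_le_pow_left h1 2)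
    omega
  have low : s ≤ D * capt G := h5 _ (by
    unfold capt
    rw [cop]
    exact Nat.sInf_mem h4)
  let _ : Fintype V := Fintype.ofFinite V
  rw [Nat.card_eq_fintype_card] at h1
  obtain ⟨U, _, F, k1, k2, k3, k4, k5⟩ := pad_many h2 h3 (n - Fintype.card V)
  exact ⟨U, inferInstance, F, by omega, k2, k3, k4.trans cop,
    low.trans (Nat.mul_le_mul_left _ k5)⟩

/-- The lower bound for all large `n` from a family with at most `a * H` vertices and capture
time at least `H ^ 3 / D`. -/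
theorem cubic_lower {a D H₀ : ℕ} (fam : ∀ H, H₀ ≤ H → Slow (a * H) (H ^ 3) D) :
    ∃ C n₀ : ℕ, 0 < C ∧ ∀ n, n₀ ≤ n → ∃ (V : Type) (_ : Fintype V) (G : SimpleGraph V),
      Fintype.card V = n ∧ G.Connected ∧ Planar G ∧ copNumber G = 2 ∧ n ^ 3 ≤ C * capt G := by
  obtain ⟨b, hb⟩ : ∃ b, b = a + 1 := ⟨_, rfl⟩
  have b0 : 0 < b := by omega
  refine ⟨8 * b ^ 3 * (D + 1), b * (H₀ + D * b ^ 2 + 1), by positivity, fun n hn => ?_⟩
  obtain ⟨H, hH⟩ : ∃ H, H = n / b := ⟨_, rfl⟩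
  have e1 : H₀ + D * b ^ 2 + 1 ≤ H := by
    rw [hH, Nat.le_div_iff_mul_le b0, Nat.mul_comm]; exact hn
  have e2 : b * H ≤ n := hH ▸ Nat.mul_div_le n b
  have e3 : n < b * (H + 1) := hH ▸ Nat.lt_mul_div_succ n b0
  have e4 : a * H ≤ b * H := Nat.mul_le_mul_right _ (by omega)
  have e6 : D * (a * H) ^ 2 < H ^ 3 := by
    have k1 : D * (a * H) ^ 2 ≤ D * (b * H) ^ 2 :=
      Nat.mul_le_mul_left _ (Nat.pow_le_pow_left e4 2)
    have k3 : (D * b ^ 2 + 1) * H ^ 2 ≤ H * H ^ 2 := Nat.mul_le_mul_right _ (by omega)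
    have k4 : 0 < H ^ 2 := pow_pos (by omega) 2
    nlinarith
  obtain ⟨V, _, G, h1, h2, h3, h4, h5⟩ := of_slow (fam H (by omega)) e6 (e4.trans e2)
  refine ⟨V, inferInstance, G, h1, h2, h3, h4, ?_⟩
  have k1 : n ≤ b * (2 * H) := e3.le.trans (Nat.mul_le_mul_left _ (by omega))
  calc n ^ 3 ≤ (b * (2 * H)) ^ 3 := Nat.pow_le_pow_left k1 3
    _ = 8 * b ^ 3 * H ^ 3 := by ring
    _ ≤ 8 * b ^ 3 * (D * capt G) := Nat.mul_le_mul_left _ h5
    _ ≤ 8 * b ^ 3 * ((D + 1) * capt G) :=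
      Nat.mul_le_mul_left _ (Nat.mul_le_mul_right _ (Nat.le_succ D))
    _ = 8 * b ^ 3 * (D + 1) * capt G := by ring

/-- Both bounds, explicit form. -/
theorem cubic_both {a D H₀ : ℕ} (fam : ∀ H, H₀ ≤ H → Slow (a * H) (H ^ 3) D) :
    ∃ C n₀ : ℕ, ∀ n, n₀ ≤ n →
      (∃ (V : Type) (_ : Fintype V) (G : SimpleGraph V), Fintype.card V = n ∧ G.Connected ∧
        Planar G ∧ copNumber G = 2 ∧ n ^ 3 ≤ C * capt G) ∧
      (∀ (V : Type) (_ : Fintype V) (G : SimpleGraph V), Fintype.card V = n →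
        copNumber G = 2 → capt G ≤ n ^ 3) := by
  obtain ⟨C, n₀, -, h⟩ := cubic_lower fam
  exact ⟨C, n₀, fun n hn => ⟨h n hn, fun V _ G h1 h2 => h1 ▸ capt_le_cube G h2⟩⟩

/-- A family of subdivided weighted graphs with a fixed number of nodes and edges. -/
theorem slow_of_wg (W : WG) [Fintype W.N] [Fintype W.E] {L m s D : ℕ} (hL : ∀ e, W.len e ≤ L)
    (hm : Fintype.card W.N + Fintype.card W.E * L ≤ m) (hc : W.G.Connected) (hp : Planar W.G)
    (hw : ∃ t, CaptureWithin W.G 2 t) (hs : ∀ t, CaptureWithin W.G 2 t → s ≤ D * t) :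
    Slow m s D := by
  refine ⟨W.V, WG.finite_V, W.G, le_trans ?_ hm, hc, hp, hw, hs⟩
  rw [WG.card_V]
  refine Nat.add_le_add_left ?_ _
  calc ∑ e, (W.len e - 1) ≤ ∑ _e : W.E, L :=
        Finset.sum_le_sum fun e _ => (Nat.sub_le _ _).trans (hL e)
    _ = Fintype.card W.E * L := by simp

end Pool.Agent.Lib.MP_1fc36f_co.H52
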