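import Pool.Agent.Lib.MP_1fc36f_co.H52Cage

/-! A checker that turns lists of node numbers into a numbered part of a weighted graph. -/

namespace Pool.Agent.Lib.MP_1fc36f_co.H52

open Pool.Agent.Lib.MP_1fc36f_co.H40

/-- The check of the neighbour list of one local node. -/
def locAt (nN nE : ℕ) (sN tN : ℕ → ℕ) (un : ℕ → Bool) (incs : ℕ → List ℕ) (loc : List ℕ)
    (nbl : List (List ℕ)) (mask x : ℕ) : Bool :=
  Nat.blt (loc.getD x 0) nN &&
  ((nbOf nbl x).all fun y => Nat.blt (loc.getD y 0) nN && (incs (loc.getD x 0)).any fun e =>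
    Nat.blt e nE && un e && ((Nat.beq (sN e) (loc.getD x 0) && Nat.beq (tN e) (loc.getD y 0)) ||
      (Nat.beq (sN e) (loc.getD y 0) && Nat.beq (tN e) (loc.getD x 0)))) &&
  (!Nat.testBit mask x || (incs (loc.getD x 0)).all fun e => un e &&
    (!Nat.beq (sN e) (loc.getD x 0) || (nbOf nbl x).any fun y => Nat.beq (tN e) (loc.getD y 0)) &&
    (!Nat.beq (tN e) (loc.getD x 0) || (nbOf nbl x).any fun y => Nat.beq (sN e) (loc.getD y 0)))

/-- The check of all neighbour lists. -/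
def locOk (nN nE : ℕ) (sN tN : ℕ → ℕ) (un : ℕ → Bool) (incs : ℕ → List ℕ) (loc : List ℕ)
    (nbl : List (List ℕ)) (mask : ℕ) : Bool :=
  Nat.blt mask (2 ^ nbl.length) &&
    (List.range nbl.length).all fun x => locAt nN nE sN tN un incs loc nbl mask x

theorem loc_fin {nN nE : ℕ} [NeZero nN] {src tgt : Fin nE → Fin nN} {len : Fin nE → ℕ}
    {pos : ∀ e, 0 < len e} {sN tN : ℕ → ℕ} {un : ℕ → Bool} {incs : ℕ → List ℕ}
    (hs : ∀ e, (src e : ℕ) = sN e) (ht : ∀ e, (tgt e : ℕ) = tN e)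
    (hu : ∀ e : Fin nE, un e = true → len e = 1)
    (i1 : ∀ e : Fin nE, e.1 ∈ incs (sN e)) (i2 : ∀ e : Fin nE, e.1 ∈ incs (tN e))
    {loc : List ℕ} {nbl : List (List ℕ)} {mask : ℕ}
    (h : locOk nN nE sN tN un incs loc nbl mask = true) :
    Loc (WG.G ⟨Fin nN, Fin nE, src, tgt, len, pos⟩) (nbOf nbl) (Nat.testBit mask)
      fun x => Sum.inl (Fin.ofNat nN (loc.getD x 0)) := by
  simp only [locOk, Bool.and_eq_true, Nat.blt_eq, List.all_eq_true, List.mem_range] at h
  obtain ⟨hm, h⟩ := h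
  have val : ∀ {a : Fin nN} {b : ℕ}, b < nN → (a = Fin.ofNat nN b ↔ (a : ℕ) = b) := by
    intro a b hb
    rw [Fin.ext_iff, Fin.val_ofNat, Nat.mod_eq_of_lt hb]
  refine loc_wg (W := ⟨Fin nN, Fin nE, src, tgt, len, pos⟩)
    (ν := fun x => Fin.ofNat nN (loc.getD x 0)) (fun x y hy => ?_) fun x hx e => ?_
  · have hx : x < nbl.length := by
      by_contra hc
      rw [nbOf, List.getD_eq_default _ _ (by omega)] at hy
      exact absurd hy List.not_mem_nil
    have k := h x hx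
    simp only [locAt, Bool.and_eq_true, Bool.or_eq_true, Nat.blt_eq, Nat.beq_eq,
      List.all_eq_true, List.any_eq_true] at k
    obtain ⟨⟨k1, k2⟩, -⟩ := k
    obtain ⟨k3, e, -, ⟨k4, k5⟩, k6⟩ := k2 y hy
    refine ⟨⟨e, k4⟩, hu _ k5, k6.imp (fun k => ⟨(val k1).2 ?_, (val k3).2 ?_⟩)
      fun k => ⟨(val k3).2 ?_, (val k1).2 ?_⟩⟩
    · exact (hs _).trans k.1
    · exact (ht _).trans k.2
    · exact (hs _).trans k.1
    · exact (ht _).trans k.2
  · have hx' : x < nbl.length := by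
      by_contra hc
      rw [Nat.testBit_lt_two_pow (hm.trans_le (Nat.pow_le_pow_right (by decide) (by omega)))] at hx
      exact absurd hx (by decide)
    have k := h x hx'
    simp only [locAt, Bool.and_eq_true, Bool.or_eq_true, Nat.blt_eq, Nat.beq_eq,
      List.all_eq_true, List.any_eq_true, Bool.not_eq_true', hx, Bool.true_eq_false,
      false_or] at k
    obtain ⟨⟨k1, k2⟩, k3⟩ := k
    constructor
    · intro he
      have e1 : sN e = loc.getD x 0 := (hs e).symm.trans ((val k1).1 he)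
      obtain ⟨⟨a1, a2⟩, -⟩ := k3 e (e1 ▸ i1 e)
      rcases a2 with a2 | ⟨y, a3, a4⟩
      · exact absurd e1 (Nat.ne_of_beq_eq_false a2)
      · exact ⟨hu e a1, y, a3, (val (k2 y a3).1).2 ((ht e).trans a4)⟩
    · intro he
      have e1 : tN e = loc.getD x 0 := (ht e).symm.trans ((val k1).1 he)
      obtain ⟨⟨a1, -⟩, a2⟩ := k3 e (e1 ▸ i2 e)
      rcases a2 with a2 | ⟨y, a3, a4⟩
      · exact absurd e1 (Nat.ne_of_beq_eq_false a2)
      · exact ⟨hu e a1, y, a3, (val (k2 y a3).1).2 ((hs e).trans a4)⟩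

end Pool.Agent.Lib.MP_1fc36f_co.H52
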