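import Pool.Agent.Lib.MP_1fc36f_co.H52Loc
import Pool.Agent.Lib.MP_1fc36f_co.H39Graph

/-! Numbered parts of the graphs of the family. -/

namespace Pool.Agent.Lib.MP_1fc36f_co.H52

open Pool.Agent.Lib.MP_1fc36f_co.H40 Pool.Agent.Lib.MP_1fc36f_co.H39

/-- The edge has length one for every value of the parameter. -/
def unitE (e : ℕ) : Bool := Nat.beq (aN e) 0 && Nat.beq (bN e) 65

theorem loc_W {H : ℕ} {hH : 5 ≤ H} {loc : List ℕ} {nbl : List (List ℕ)} {mask : ℕ}
    (h : locOk 250 336 srcN tgtN unitE incs loc nbl mask = true) :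
    Loc (W H hH).G (nbOf nbl) (Nat.testBit mask)
      fun x => Sum.inl (Fin.ofNat 250 (loc.getD x 0)) :=
  loc_fin (fun _ => rfl) (fun _ => rfl) (fun e he => by
    simp only [unitE, Bool.and_eq_true, Nat.beq_eq] at he
    rw [he.1, he.2]; omega) inc_src inc_tgt h

/-- The vertex of the node with number `x`. -/
def nd (H : ℕ) (hH : 5 ≤ H) (x : ℕ) : (W H hH).V := Sum.inl (Fin.ofNat 250 x)

theorem nd_fin {H : ℕ} {hH : 5 ≤ H} (x : Fin 250) : nd H hH x = Sum.inl x := by
  rw [nd, Fin.ofNat_val_eq_self]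

/-- The position, given by node numbers, is listed in the table. -/
def inTab (loc : List ℕ) (tab : List (List ℕ)) (a b r : ℕ) : Bool :=
  Nat.blt (loc.idxOf a) loc.length && Nat.blt (loc.idxOf b) loc.length &&
    Nat.blt (loc.idxOf r) loc.length && Nat.blt 0 (rkOf tab (loc.idxOf a) (loc.idxOf b) (loc.idxOf r))

/-- The whole check of a table whose exits are given by node numbers. -/
def tabOk (loc : List ℕ) (nbl : List (List ℕ)) (mask : ℕ) (tab : List (List ℕ))
    (ex : ℕ → ℕ → ℕ → Bool) : Bool :=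
  locOk 250 336 srcN tgtN unitE incs loc nbl mask &&
    okAll loc.length (nbOf nbl) (Nat.testBit mask) (rkOf tab)
      fun a b r => ex (loc.getD a 0) (loc.getD b 0) (loc.getD r 0)

theorem table_W {H : ℕ} {hH : 5 ≤ H} {loc : List ℕ} {nbl : List (List ℕ)} {mask : ℕ}
    {tab : List (List ℕ)} {ex : ℕ → ℕ → ℕ → Bool} (h : tabOk loc nbl mask tab ex = true)
    (hex : ∀ a b r, ex a b r = true → RW (W H hH).G (nd H hH a) (nd H hH b) (nd H hH r))
    {a b r : ℕ} (hi : inTab loc tab a b r = true) :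
    RW (W H hH).G (nd H hH a) (nd H hH b) (nd H hH r) := by
  simp only [tabOk, Bool.and_eq_true] at h
  simp only [inTab, Bool.and_eq_true, Nat.blt_eq] at hi
  obtain ⟨⟨⟨h1, h2⟩, h3⟩, h4⟩ := hi
  have e : ∀ x, loc.idxOf x < loc.length → loc.getD (loc.idxOf x) 0 = x := fun x hx => by
    rw [List.getD_eq_getElem _ _ hx, List.getElem_idxOf]
  have k := table (loc_W (H := H) (hH := hH) h.1) (fun a b r => hex _ _ _) h.2 _ _ _ h1 h2 h3 h4
  rwa [e a h1, e b h2, e r h3] at k

end Pool.Agent.Lib.MP_1fc36f_co.H52
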