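import Pool.Agent.Lib.MP_1fc36f_co.H52Final
import Pool.Agent.Lib.MP_1fc36f_co.H39GraphPl

/-! The cubic order of the capture time from the two game statements for the family. -/

namespace Pool.Agent.Lib.MP_1fc36f_co.H52

open Pool.Agent.Lib.MP_1fc36f_co.H40 Pool.Agent.Lib.MP_1fc36f_co.H39

theorem cubic_W {q D H₀ : ℕ} (hq : 0 < q)
    (up : ∀ K, H₀ ≤ K → ∀ hH : 5 ≤ q * K, ∃ t, CaptureWithin (W (q * K) hH).G 2 t)
    (low : ∀ K, H₀ ≤ K → ∀ hH : 5 ≤ q * K, ∀ t, CaptureWithin (W (q * K) hH).G 2 t →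
      K ^ 3 ≤ D * t) :
    ∃ C n₀ : ℕ, ∀ n, n₀ ≤ n →
      (∃ (V : Type) (_ : Fintype V) (G : SimpleGraph V), Fintype.card V = n ∧ G.Connected ∧
        Planar G ∧ copNumber G = 2 ∧ n ^ 3 ≤ C * capt G) ∧
      (∀ (V : Type) (_ : Fintype V) (G : SimpleGraph V), Fintype.card V = n →
        copNumber G = 2 → capt G ≤ n ^ 3) := by
  refine cubic_both (a := 200 * q) (D := D) (H₀ := max H₀ 5) fun K hK => ?_
  have h1 : H₀ ≤ K := (le_max_left _ _).trans hK
  have h2 : 5 ≤ K := (le_max_right _ _).trans hK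
  have hH : 5 ≤ q * K := h2.trans (Nat.le_mul_of_pos_left _ hq)
  refine ⟨(W (q * K) hH).V, inferInstance, (W (q * K) hH).G, ?_, connected_W, planar_W,
    up K h1 hH, low K h1 hH⟩
  have e := card_W (H := q * K) (hH := hH)
  rw [Nat.mul_assoc]
  omega

end Pool.Agent.Lib.MP_1fc36f_co.H52
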