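import Pool.Agent.Lib.MP_1fc36f_co.H22Cubic

/-! Adding a leaf keeps planarity, connectivity and the cop number, and does not lower the
capture time. -/

namespace Pool.Agent.Lib.MP_1fc36f_co.H52

open Pool.Agent.Lib.MP_1fc36f_co.H40 Pool.Agent.Lib.MP_1fc36f_co.H22

variable {V : Type} {G : SimpleGraph V} {k : ℕ}

/-- The graph `G` with a new leaf attached at `v`. -/
def pad (G : SimpleGraph V) (v : V) : SimpleGraph (Option V) where
  Adj a b := (∃ x y, a = some x ∧ b = some y ∧ G.Adj x y) ∨ (a = none ∧ b = some v) ∨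
    (a = some v ∧ b = none)
  symm := ⟨by
    rintro a b (⟨x, y, h1, h2, h3⟩ | ⟨h1, h2⟩ | ⟨h1, h2⟩)
    · exact Or.inl ⟨y, x, h2, h1, h3.symm⟩
    · exact Or.inr (Or.inr ⟨h2, h1⟩)
    · exact Or.inr (Or.inl ⟨h2, h1⟩)⟩
  loopless := ⟨by
    rintro a (⟨x, y, h1, h2, h3⟩ | ⟨h1, h2⟩ | ⟨h1, h2⟩)
    · obtain rfl : x = y := Option.some.inj (h1.symm.trans h2)
      exact G.irrefl h3
    · exact absurd (h1.symm.trans h2) (by simp)
    · exact absurd (h1.symm.trans h2) (by simp)⟩

theorem move_some {v x y : V} (h : Move G x y) : Move (pad G v) (some x) (some y) := by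
  rcases h with rfl | h
  · exact Or.inl rfl
  · exact Or.inr (Or.inl ⟨x, y, rfl, rfl, h⟩)

theorem move_getD {v : V} {a b : Option V} (h : Move (pad G v) a b) :
    Move G (a.getD v) (b.getD v) := by
  rcases h with rfl | ⟨x, y, rfl, rfl, h⟩ | ⟨rfl, rfl⟩ | ⟨rfl, rfl⟩
  · exact Or.inl rfl
  · exact Or.inr h
  · exact Or.inl rfl
  · exact Or.inl rfl

theorem win_of_eq (t : ℕ) {c : Fin k → V} {r : V} (h : ∃ i, c i = r) : Win G k t c r := by
  cases t with
  | zero => exact h
  | succ t => exact ⟨c, fun _ => Or.inl rfl, Or.inl h⟩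

theorem win_down {v : V} (t : ℕ) : ∀ (c : Fin k → Option V) (r : V),
    Win (pad G v) k t c (some r) → Win G k t (fun i => (c i).getD v) r := by
  induction t with
  | zero =>
    rintro c r ⟨i, hi⟩
    exact ⟨i, by simp [hi]⟩
  | succ t ih =>
    rintro c r ⟨c', h1, h2⟩
    refine ⟨fun i => (c' i).getD v, fun i => move_getD (h1 i), ?_⟩
    rcases h2 with ⟨i, hi⟩ | h2
    · exact Or.inl ⟨i, by simp [hi]⟩
    · exact Or.inr fun r' hr => ih c' r' (h2 _ (move_some hr))

theorem win_up {v : V} (t : ℕ) : ∀ (c : Fin k → V) (r : Option V),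
    Win G k t c (r.getD v) → Win (pad G v) k (t + 1) (fun i => some (c i)) r := by
  classical
  induction t with
  | zero =>
    rintro c r ⟨i, hi⟩
    cases r with
    | some r => exact win_of_eq _ ⟨i, congrArg some hi⟩
    | none =>
      refine ⟨fun j => if j = i then none else some (c j), fun j => ?_, Or.inl ⟨i, by simp⟩⟩
      by_cases hj : j = i
      · subst hj
        beta_reduce
        rw [if_pos rfl]
        exact Or.inr (Or.inr (Or.inr ⟨congrArg some hi, rfl⟩))
      · beta_reduce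
        rw [if_neg hj]
        exact Or.inl rfl
  | succ t ih =>
    rintro c r ⟨c', h1, h2⟩
    refine ⟨fun i => some (c' i), fun i => move_some (h1 i), ?_⟩
    rcases h2 with ⟨i, hi⟩ | h2
    · cases r with
      | some r => exact Or.inl ⟨i, congrArg some hi⟩
      | none =>
        refine Or.inr fun r' hr => ih c' r' (win_of_eq _ ⟨i, ?_⟩)
        rcases hr with rfl | ⟨x, y, h, -⟩ | ⟨-, rfl⟩ | ⟨h, -⟩
        · exact hi
        · exact absurd h (by simp)
        · exact hi
        · exact absurd h (by simp)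
    · exact Or.inr fun r' hr => ih c' r' (h2 _ (move_getD hr))

theorem capture_down {v : V} {t : ℕ} (h : CaptureWithin (pad G v) k t) : CaptureWithin G k t :=
  let ⟨c, hc⟩ := h
  ⟨_, fun r => win_down t c r (hc _)⟩

theorem capture_up {v : V} {t : ℕ} (h : CaptureWithin G k t) :
    CaptureWithin (pad G v) k (t + 1) :=
  let ⟨c, hc⟩ := h
  ⟨_, fun r => win_up t c r (hc _)⟩

theorem copNumber_pad (v : V) : copNumber (pad G v) = copNumber G := by
  have : {k | ∃ t, CaptureWithin (pad G v) k t} = {k | ∃ t, CaptureWithin G k t} :=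
    Set.ext fun k => ⟨fun ⟨t, h⟩ => ⟨t, capture_down h⟩, fun ⟨t, h⟩ => ⟨t + 1, capture_up h⟩⟩
  rw [copNumber, this, copNumber]

theorem capt_pad (v : V) : capt G ≤ capt (pad G v) := by
  by_cases h : ∃ t, CaptureWithin G (copNumber G) t
  · obtain ⟨t, ht⟩ := h
    have mem : CaptureWithin (pad G v) (copNumber (pad G v)) (capt (pad G v)) :=
      Nat.sInf_mem (s := {t | CaptureWithin (pad G v) (copNumber (pad G v)) t})
        ⟨t + 1, by rw [copNumber_pad]; exact capture_up ht⟩
    rw [copNumber_pad] at mem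
    exact Nat.sInf_le (capture_down mem)
  · have : {t | CaptureWithin G (copNumber G) t} = ∅ :=
      Set.eq_empty_of_forall_notMem fun t ht => h ⟨t, ht⟩
    rw [capt, this, Nat.sInf_empty]
    exact Nat.zero_le _

theorem connected_pad (h : G.Connected) (v : V) : (pad G v).Connected := by
  rw [SimpleGraph.connected_iff_exists_forall_reachable]
  refine ⟨some v, fun w => ?_⟩
  cases w with
  | none => exact SimpleGraph.Adj.reachable (Or.inr (Or.inr ⟨rfl, rfl⟩))
  | some w =>
    let f : G →g pad G v := ⟨some, fun {x y} hxy => Or.inl ⟨x, y, rfl, rfl, hxy⟩⟩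
    exact (h.preconnected v w).map f

theorem planar_pad [Finite V] [Nonempty V] (h : Planar G) : ∃ v, Planar (pad G v) := by
  obtain ⟨p, h0, h1, h2⟩ := h
  obtain ⟨v, hv⟩ := Finite.exists_max fun x => (p x).1
  have old : ∀ x y z, z ∈ segment ℝ (p x) (p y) → z.1 ≤ (p v).1 := by
    rintro x y z ⟨a, b, ha, hb, hab, rfl⟩
    have e1 := hv x
    have e2 := hv y
    simp only [Prod.fst_add, Prod.smul_fst, smul_eq_mul]
    obtain rfl : a = 1 - b := by linarith
    nlinarith
  have new : ∀ z, z ∈ segment ℝ (p v) (p v + (1, 0)) → z.1 ≤ (p v).1 → z = p v := by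
    rintro z ⟨a, b, ha, hb, hab, rfl⟩ hz
    obtain rfl : a = 1 - b := by linarith
    simp only [Prod.fst_add, Prod.smul_fst, smul_eq_mul] at hz
    obtain rfl : b = 0 := by nlinarith
    simp
  let q : Option V → ℝ × ℝ := fun o => o.elim (p v + (1, 0)) p
  have qn : q none = p v + (1, 0) := rfl
  have qs : ∀ x, q (some x) = p x := fun _ => rfl
  have far : ¬ (p v + ((1 : ℝ), (0 : ℝ))).1 ≤ (p v).1 := by simp
  have mix : ∀ x y z, G.Adj x y → z ∈ segment ℝ (p x) (p y) →
      z ∈ segment ℝ (p v) (p v + (1, 0)) → (v = x ∨ v = y) ∧ z = p v := by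
    intro x y z hxy k1 k2
    obtain rfl := new z k2 (old x y z k1)
    exact ⟨h1 x y v hxy k1, rfl⟩
  refine ⟨v, q, ?_, ?_, ?_⟩
  · intro a b hab
    cases a <;> cases b
    · rfl
    · rename_i y
      rw [qn, qs] at hab
      exact absurd (hab ▸ hv y) far
    · rename_i y
      rw [qn, qs] at hab
      exact absurd (hab ▸ hv y) far
    · exact congrArg some (h0 hab)
  · rintro a b w (⟨x, y, rfl, rfl, h⟩ | ⟨rfl, rfl⟩ | ⟨rfl, rfl⟩) hw
    · cases w with
      | none => exact absurd (old x y _ hw) far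
      | some w => exact (h1 x y w h hw).imp (congrArg some) (congrArg some)
    · cases w with
      | none => exact Or.inl rfl
      | some w =>
        rw [qn, qs, qs, segment_symm] at hw
        exact Or.inr (congrArg some (h0 (new _ hw (hv w))))
    · cases w with
      | none => exact Or.inr rfl
      | some w =>
        rw [qn, qs, qs] at hw
        exact Or.inl (congrArg some (h0 (new _ hw (hv w))))
  · rintro a b c d z (⟨x, y, rfl, rfl, h⟩ | ⟨rfl, rfl⟩ | ⟨rfl, rfl⟩)
      (⟨x', y', rfl, rfl, h'⟩ | ⟨rfl, rfl⟩ | ⟨rfl, rfl⟩) hne k1 k2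
    · obtain ⟨w, a1, a2, a3⟩ := h2 x y x' y' z h h' (fun e => hne (by
        rcases Sym2.eq_iff.1 e with ⟨rfl, rfl⟩ | ⟨rfl, rfl⟩
        · rfl
        · exact Sym2.eq_swap)) k1 k2
      exact ⟨some w, a1.imp (congrArg some) (congrArg some),
        a2.imp (congrArg some) (congrArg some), a3⟩
    · rw [qn, qs, segment_symm] at k2
      obtain ⟨a1, a2⟩ := mix x y z h k1 k2
      exact ⟨some v, a1.imp (congrArg some) (congrArg some), Or.inr rfl, a2⟩
    · obtain ⟨a1, a2⟩ := mix x y z h k1 k2
      exact ⟨some v, a1.imp (congrArg some) (congrArg some), Or.inl rfl, a2⟩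
    · rw [qn, qs, segment_symm] at k1
      obtain ⟨a1, a2⟩ := mix x' y' z h' k2 k1
      exact ⟨some v, Or.inr rfl, a1.imp (congrArg some) (congrArg some), a2⟩
    · exact absurd rfl hne
    · exact absurd Sym2.eq_swap hne
    · obtain ⟨a1, a2⟩ := mix x' y' z h' k2 k1
      exact ⟨some v, Or.inl rfl, a1.imp (congrArg some) (congrArg some), a2⟩
    · exact absurd Sym2.eq_swap hne
    · exact absurd rfl hne

/-- Padding by any number of vertices. -/
theorem pad_many [Fintype V] (hc : G.Connected) (hp : Planar G) (m : ℕ) :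
    ∃ (U : Type) (_ : Fintype U) (F : SimpleGraph U), Fintype.card U = Fintype.card V + m ∧
      F.Connected ∧ Planar F ∧ copNumber F = copNumber G ∧ capt G ≤ capt F := by
  induction m with
  | zero => exact ⟨V, inferInstance, G, rfl, hc, hp, rfl, le_rfl⟩
  | succ m ih =>
    obtain ⟨U, _, F, h1, h2, h3, h4, h5⟩ := ih
    have : Nonempty U := h2.nonempty
    obtain ⟨v, hv⟩ := planar_pad h3
    exact ⟨Option U, inferInstance, pad F v, by rw [Fintype.card_option, h1, Nat.add_assoc],
      connected_pad h2 v, hv, (copNumber_pad v).trans h4, h5.trans (capt_pad v)⟩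

end Pool.Agent.Lib.MP_1fc36f_co.H52
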