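import Pool.Agent.Lib.MP_1fc36f_co.H61Env

/-! Checked proofs of the claims. -/

namespace Pool.Agent.Lib.MP_1fc36f_co.H61

open Pool.Agent.Lib.MP_1fc36f_co.H45

def p124 : Pf :=
  .step []
    [(0, [⟨4, 0, 0, 0, 8⟩]),
    (1, [⟨4, 0, 0, 0, 9⟩]),
    (2, [⟨7, 0, 0, 0, 15⟩]),
    (3, [⟨7, 0, 0, 0, 16⟩]),
    (4, [⟨1, 0, 0, 0, 4⟩]),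
    (5, [⟨4, 0, 0, 0, 11⟩]),
    (6, [⟨5, 0, 0, 0, 9⟩]),
    (7, [⟨8, 0, 0, 0, 15⟩]),
    (8, [⟨5, 0, 0, 0, 9⟩]),
    (9, [⟨6, 0, 0, 0, 10⟩]),
    (10, [⟨6, 0, 0, 0, 8⟩]),
    (11, [⟨6, 0, 0, 0, 11⟩]),
    (12, [⟨10, 0, 0, 0, 16⟩]),
    (13, [⟨11, 0, 0, 0, 23⟩]),
    (14, [⟨10, 0, 0, 0, 16⟩]),
    (15, [⟨10, 0, 0, 0, 14⟩]),
    (16, [⟨10, 0, 0, 0, 17⟩]),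
    (17, [⟨9, 0, 0, 0, 14⟩]),
    (18, [⟨9, 0, 0, 0, 17⟩]),
    (19, [⟨9, 0, 0, 0, 14⟩]),
    (20, [⟨6, 0, 0, 0, 10⟩]),
    (21, [⟨6, 0, 0, 0, 9⟩]),
    (22, [⟨6, 0, 0, 0, 9⟩]),
    (23, [⟨6, 0, 0, 0, 10⟩]),
    (24, [⟨6, 0, 0, 0, 10⟩]),
    (25, [⟨6, 0, 0, 0, 11⟩]),
    (26, [⟨6, 0, 0, 0, 11⟩]),
    (27, [⟨6, 0, 0, 0, 11⟩]),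
    (28, [⟨6, 0, 0, 0, 12⟩]),
    (29, [⟨6, 0, 0, 0, 12⟩]),
    (30, [⟨6, 0, 0, 0, 13⟩]),
    (31, [⟨6, 0, 0, 0, 11⟩]),
    (32, [⟨6, 0, 0, 0, 12⟩]),
    (33, [⟨6, 0, 0, 0, 12⟩]),
    (34, [⟨6, 0, 0, 0, 11⟩]),
    (35, [⟨6, 0, 0, 0, 10⟩]),
    (36, [⟨10, 0, 0, 0, 16⟩]),
    (37, [⟨10, 0, 0, 0, 15⟩]),
    (38, [⟨10, 0, 0, 0, 15⟩]),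
    (39, [⟨10, 0, 0, 0, 16⟩]),
    (40, [⟨10, 0, 0, 0, 16⟩]),
    (41, [⟨10, 0, 0, 0, 17⟩]),
    (42, [⟨10, 0, 0, 0, 17⟩]),
    (43, [⟨10, 0, 0, 0, 17⟩]),
    (44, [⟨10, 0, 0, 0, 18⟩]),
    (45, [⟨10, 0, 0, 0, 18⟩]),
    (46, [⟨10, 0, 0, 0, 19⟩]),
    (47, [⟨10, 0, 0, 0, 17⟩]),
    (48, [⟨10, 0, 0, 0, 18⟩]),
    (49, [⟨10, 0, 0, 0, 18⟩]),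
    (50, [⟨10, 0, 0, 0, 17⟩]),
    (51, [⟨10, 0, 0, 0, 16⟩]),
    (52, [⟨9, 0, 0, 0, 16⟩]),
    (53, [⟨9, 0, 0, 0, 15⟩]),
    (54, [⟨9, 0, 0, 0, 15⟩]),
    (55, [⟨9, 0, 0, 0, 16⟩]),
    (56, [⟨9, 0, 0, 0, 16⟩]),
    (57, [⟨9, 0, 0, 0, 17⟩]),
    (58, [⟨9, 0, 0, 0, 17⟩]),
    (59, [⟨9, 0, 0, 0, 17⟩]),
    (60, [⟨9, 0, 0, 0, 18⟩]),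
    (61, [⟨9, 0, 0, 0, 17⟩]),
    (62, [⟨9, 0, 0, 0, 17⟩]),
    (63, [⟨9, 0, 0, 0, 16⟩]),
    (64, [⟨9, 0, 0, 0, 16⟩]),
    (65, [⟨9, 0, 0, 0, 16⟩]),
    (66, [⟨9, 0, 0, 0, 15⟩]),
    (67, [⟨9, 0, 0, 0, 15⟩]),
    (68, [⟨4, 0, 0, 0, 7⟩]),
    (69, [⟨1, 0, 0, 0, 5⟩]),
    (70, [⟨7, 0, 0, 0, 14⟩]),
    (71, [⟨4, 0, 0, 0, 12⟩]),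
    (72, [⟨4, 0, 0, 0, 10⟩]),
    (73, [⟨5, 0, 0, 0, 8⟩]),
    (74, [⟨7, 0, 0, 0, 17⟩]),
    (75, [⟨8, 0, 0, 0, 15⟩]),
    (76, [⟨4, 0, 0, 0, 10⟩]),
    (77, [⟨7, 0, 0, 0, 14⟩]),
    (78, [⟨4, 0, 0, 0, 10⟩]),
    (79, [⟨5, 0, 0, 0, 8⟩]),
    (80, [⟨5, 0, 0, 0, 10⟩]),
    (81, [⟨7, 0, 0, 0, 16⟩]),
    (82, [⟨5, 0, 0, 0, 10⟩]),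
    (83, [⟨6, 0, 0, 0, 9⟩]),
    (84, [⟨5, 0, 0, 0, 10⟩]),
    (85, [⟨8, 0, 0, 0, 14⟩]),
    (86, [⟨5, 0, 0, 0, 10⟩]),
    (87, [⟨6, 0, 0, 0, 7⟩]),
    (90, [⟨7, 0, 0, 0, 17⟩]),
    (91, [⟨8, 0, 0, 0, 17⟩]),
    (92, [⟨10, 0, 0, 0, 15⟩]),
    (93, [⟨10, 0, 0, 0, 17⟩]),
    (94, [⟨11, 0, 0, 0, 18⟩]),
    (95, [⟨10, 0, 0, 0, 17⟩]),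
    (96, [⟨11, 0, 0, 0, 23⟩]),
    (97, [⟨11, 0, 0, 0, 23⟩]),
    (98, [⟨11, 0, 0, 0, 18⟩]),
    (99, [⟨11, 0, 0, 0, 23⟩]),
    (100, [⟨10, 0, 0, 0, 17⟩]),
    (103, [⟨8, 0, 0, 0, 16⟩]),
    (104, [⟨10, 0, 0, 0, 13⟩]),
    (105, [⟨10, 0, 0, 0, 18⟩]),
    (106, [⟨11, 0, 0, 0, 23⟩]),
    (107, [⟨1, 0, 0, 0, 5⟩]),
    (108, [⟨4, 0, 0, 0, 10⟩]),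
    (109, [⟨4, 0, 0, 0, 12⟩]),
    (110, [⟨8, 0, 0, 0, 14⟩]),
    (111, [⟨9, 0, 0, 0, 13⟩]),
    (112, [⟨1, 0, 0, 0, 5⟩]),
    (113, [⟨9, 0, 0, 0, 18⟩]),
    (114, [⟨9, 0, 0, 0, 19⟩]),
    (115, [⟨9, 0, 0, 0, 19⟩]),
    (116, [⟨9, 0, 0, 0, 18⟩]),
    (117, [⟨9, 0, 0, 0, 17⟩]),
    (118, [⟨4, 0, 0, 0, 12⟩]),
    (121, [⟨6, 0, 0, 0, 9⟩]),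
    (123, [⟨10, 0, 0, 0, 15⟩]),
    (124, [⟨10, 0, 0, 0, 17⟩]),
    (125, [⟨11, 0, 0, 0, 17⟩]),
    (126, [⟨11, 0, 0, 0, 18⟩]),
    (127, [⟨8, 0, 0, 0, 15⟩]),
    (128, [⟨8, 0, 0, 0, 16⟩]),
    (129, [⟨8, 0, 0, 0, 13⟩]),
    (130, [⟨5, 0, 0, 0, 11⟩]),
    (131, [⟨11, 0, 0, 0, 23⟩]),
    (132, [⟨9, 0, 0, 0, 15⟩]),
    (133, [⟨10, 0, 0, 0, 23⟩]),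
    (134, [⟨11, 0, 0, 0, 23⟩]),
    (135, [⟨11, 0, 0, 0, 23⟩]),
    (136, [⟨11, 0, 0, 0, 21⟩]),
    (137, [⟨7, 0, 0, 0, 13⟩]),
    (138, [⟨7, 0, 0, 0, 12⟩]),
    (139, [⟨9, 0, 0, 0, 13⟩]),
    (140, [⟨9, 0, 0, 0, 15⟩]),
    (141, [⟨9, 0, 0, 0, 13⟩]),
    (142, [⟨0, 0, 0, 0, 3⟩]),
    (143, [⟨0, 0, 0, 0, 0⟩]),
    (144, [⟨0, 0, 0, 0, 3⟩]),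
    (145, [⟨11, 0, 0, 0, 22⟩]),
    (146, [⟨11, 0, 0, 0, 23⟩]),
    (147, [⟨11, 0, 0, 0, 23⟩]),
    (148, [⟨11, 0, 0, 0, 23⟩]),
    (149, [⟨11, 0, 0, 0, 23⟩]),
    (150, [⟨11, 0, 0, 0, 23⟩]),
    (151, [⟨11, 0, 0, 0, 23⟩]),
    (152, [⟨11, 0, 0, 0, 23⟩]),
    (153, [⟨11, 0, 0, 0, 23⟩]),
    (154, [⟨11, 0, 0, 0, 23⟩]),
    (155, [⟨11, 0, 0, 0, 23⟩]),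
    (156, [⟨11, 0, 0, 0, 23⟩]),
    (157, [⟨11, 0, 0, 0, 23⟩]),
    (158, [⟨11, 0, 0, 0, 22⟩]),
    (159, [⟨11, 0, 0, 0, 23⟩]),
    (160, [⟨11, 0, 0, 0, 23⟩]),
    (161, [⟨9, 0, 0, 0, 14⟩]),
    (162, [⟨9, 0, 0, 0, 15⟩]),
    (163, [⟨9, 0, 0, 0, 15⟩]),
    (164, [⟨9, 0, 0, 0, 16⟩]),
    (165, [⟨9, 0, 0, 0, 16⟩]),
    (166, [⟨9, 0, 0, 0, 15⟩]),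
    (167, [⟨9, 0, 0, 0, 16⟩]),
    (168, [⟨9, 0, 0, 0, 16⟩]),
    (169, [⟨9, 0, 0, 0, 17⟩]),
    (170, [⟨9, 0, 0, 0, 15⟩]),
    (171, [⟨9, 0, 0, 0, 16⟩]),
    (172, [⟨9, 0, 0, 0, 15⟩]),
    (173, [⟨9, 0, 0, 0, 15⟩]),
    (174, [⟨9, 0, 0, 0, 14⟩]),
    (175, [⟨9, 0, 0, 0, 14⟩]),
    (176, [⟨9, 0, 0, 0, 14⟩]),
    (177, [⟨0, 0, 0, 0, 1⟩]),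
    (178, [⟨0, 0, 0, 0, 2⟩]),
    (179, [⟨0, 0, 0, 0, 4⟩]),
    (180, [⟨0, 0, 0, 0, 4⟩]),
    (181, [⟨0, 0, 0, 0, 3⟩]),
    (182, [⟨0, 0, 0, 0, 2⟩]),
    (183, [⟨0, 0, 0, 0, 3⟩]),
    (184, [⟨0, 0, 0, 0, 5⟩]),
    (185, [⟨0, 0, 0, 0, 4⟩]),
    (186, [⟨0, 0, 0, 0, 2⟩]),
    (187, [⟨0, 0, 0, 0, 3⟩]),
    (188, [⟨0, 0, 0, 0, 4⟩]),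
    (189, [⟨0, 0, 0, 0, 3⟩]),
    (190, [⟨0, 0, 0, 0, 1⟩]),
    (191, [⟨0, 0, 0, 0, 2⟩]),
    (192, [⟨0, 0, 0, 0, 4⟩]),
    (195, [⟨8, 0, 0, 0, 14⟩]),
    (196, [⟨5, 0, 0, 0, 12⟩]),
    (199, [⟨8, 0, 0, 0, 17⟩]),
    (200, [⟨9, 0, 0, 0, 15⟩]),
    (201, [⟨11, 0, 0, 0, 19⟩]),
    (202, [⟨8, 0, 0, 0, 16⟩]),
    (203, [⟨11, 0, 0, 0, 19⟩]),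
    (204, [⟨10, 0, 0, 0, 24⟩]),
    (205, [⟨10, 0, 0, 0, 22⟩]),
    (206, [⟨8, 0, 0, 0, 16⟩]),
    (207, [⟨10, 0, 0, 0, 24⟩]),
    (208, [⟨11, 0, 0, 0, 23⟩]),
    (209, [⟨11, 0, 0, 0, 23⟩]),
    (210, [⟨9, 0, 0, 0, 16⟩]),
    (211, [⟨11, 0, 0, 0, 23⟩]),
    (212, [⟨11, 0, 0, 0, 23⟩]),
    (213, [⟨11, 0, 0, 0, 20⟩]),
    (214, [⟨9, 0, 0, 0, 16⟩]),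
    (215, [⟨8, 0, 0, 0, 17⟩]),
    (216, [⟨9, 0, 0, 0, 12⟩]),
    (217, [⟨7, 0, 0, 0, 14⟩]),
    (218, [⟨7, 0, 0, 0, 12⟩]),
    (219, [⟨4, 0, 0, 0, 9⟩]),
    (220, [⟨7, 0, 0, 0, 14⟩]),
    (221, [⟨7, 0, 0, 0, 13⟩]),
    (222, [⟨7, 0, 0, 0, 11⟩]),
    (223, [⟨4, 0, 0, 0, 9⟩]),
    (224, [⟨7, 0, 0, 0, 13⟩]),
    (225, [⟨9, 0, 0, 0, 12⟩]),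
    (226, [⟨9, 0, 0, 0, 14⟩]),
    (227, [⟨5, 0, 0, 0, 10⟩]),
    (228, [⟨9, 0, 0, 0, 16⟩]),
    (229, [⟨9, 0, 0, 0, 16⟩]),
    (230, [⟨9, 0, 0, 0, 12⟩]),
    (231, [⟨5, 0, 0, 0, 10⟩]),
    (232, [⟨8, 0, 0, 0, 14⟩]),
    (233, [⟨5, 0, 0, 0, 12⟩]),
    (234, [⟨5, 0, 0, 0, 12⟩]),
    (235, [⟨1, 0, 0, 0, 5⟩]),
    (236, [⟨0, 0, 0, 0, 4⟩]),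
    (237, [⟨8, 0, 0, 0, 12⟩]),
    (238, [⟨0, 0, 0, 0, 1⟩]),
    (239, [⟨0, 0, 0, 0, 2⟩]),
    (240, [⟨0, 0, 0, 0, 3⟩]),
    (241, [⟨0, 0, 0, 0, 4⟩]),
    (242, [⟨0, 0, 0, 0, 5⟩]),
    (243, [⟨5, 0, 0, 0, 10⟩]),
    (244, [⟨0, 0, 0, 0, 4⟩]),
    (245, [⟨1, 0, 0, 0, 3⟩]),
    (246, [⟨11, 0, 0, 0, 23⟩]),
    (247, [⟨11, 0, 0, 0, 22⟩]),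
    (248, [⟨9, 0, 0, 0, 14⟩]),
    (249, [⟨9, 0, 0, 0, 14⟩])]
    [7, 9, 11, 18, 19, 65, 66, 125, 126, 129, 131]
    [(0, (.cap 9)),
    (1, (.cap 10)),
    (4, (.cap 6)),
    (6, (.cap 13)),
    (10, (.del 121 ⟨0, 0, 0, 0, 0⟩ ⟨0, 0, 0, 0, 0⟩ ⟨13, 8, 0, true⟩ ⟨0, 21, 0, false⟩)),
    (17, (.del 90 ⟨0, 0, 0, 0, 0⟩ ⟨0, 0, 0, 0, 0⟩ ⟨6, 15, 0, true⟩ ⟨0, 21, 0, false⟩)),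
    (20, (.del 121 ⟨0, 0, 0, 0, 0⟩ ⟨0, 0, 0, 0, 0⟩ ⟨13, 8, 0, true⟩ ⟨0, 21, 0, false⟩)),
    (21, (.del 121 ⟨0, 0, 0, 0, 0⟩ ⟨0, 0, 0, 0, 0⟩ ⟨13, 8, 0, true⟩ ⟨0, 21, 0, false⟩)),
    (22, (.del 121 ⟨0, 0, 0, 0, 0⟩ ⟨0, 0, 0, 0, 0⟩ ⟨13, 8, 0, true⟩ ⟨0, 21, 0, false⟩)),
    (23, (.del 121 ⟨0, 0, 0, 0, 0⟩ ⟨0, 0, 0, 0, 0⟩ ⟨13, 8, 0, true⟩ ⟨0, 21, 0, false⟩)),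
    (24, (.del 121 ⟨0, 0, 0, 0, 0⟩ ⟨0, 0, 0, 0, 0⟩ ⟨13, 8, 0, true⟩ ⟨0, 21, 0, false⟩)),
    (25, (.del 121 ⟨0, 0, 0, 0, 0⟩ ⟨0, 0, 0, 0, 0⟩ ⟨13, 8, 0, true⟩ ⟨0, 21, 0, false⟩)),
    (26, (.del 121 ⟨0, 0, 0, 0, 0⟩ ⟨0, 0, 0, 0, 0⟩ ⟨13, 8, 0, true⟩ ⟨0, 21, 0, false⟩)),
    (27, (.del 121 ⟨0, 0, 0, 0, 0⟩ ⟨0, 0, 0, 0, 0⟩ ⟨13, 8, 0, true⟩ ⟨0, 21, 0, false⟩)),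
    (28, (.del 121 ⟨0, 0, 0, 0, 0⟩ ⟨0, 0, 0, 0, 0⟩ ⟨13, 8, 0, true⟩ ⟨0, 21, 0, false⟩)),
    (29, (.del 121 ⟨0, 0, 0, 0, 0⟩ ⟨0, 0, 0, 0, 0⟩ ⟨13, 8, 0, true⟩ ⟨0, 21, 0, false⟩)),
    (30, (.del 121 ⟨0, 0, 0, 0, 0⟩ ⟨0, 0, 0, 0, 0⟩ ⟨13, 8, 0, true⟩ ⟨0, 21, 0, false⟩)),
    (31, (.del 121 ⟨0, 0, 0, 0, 0⟩ ⟨0, 0, 0, 0, 0⟩ ⟨13, 8, 0, true⟩ ⟨0, 21, 0, false⟩)),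
    (32, (.del 121 ⟨0, 0, 0, 0, 0⟩ ⟨0, 0, 0, 0, 0⟩ ⟨13, 8, 0, true⟩ ⟨0, 21, 0, false⟩)),
    (33, (.del 121 ⟨0, 0, 0, 0, 0⟩ ⟨0, 0, 0, 0, 0⟩ ⟨13, 8, 0, true⟩ ⟨0, 21, 0, false⟩)),
    (34, (.del 121 ⟨0, 0, 0, 0, 0⟩ ⟨0, 0, 0, 0, 0⟩ ⟨13, 8, 0, true⟩ ⟨0, 21, 0, false⟩)),
    (35, (.del 121 ⟨0, 0, 0, 0, 0⟩ ⟨0, 0, 0, 0, 0⟩ ⟨13, 8, 0, true⟩ ⟨0, 21, 0, false⟩)),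
    (52, (.del 90 ⟨0, 0, 0, 0, 0⟩ ⟨0, 0, 0, 0, 0⟩ ⟨6, 15, 0, true⟩ ⟨0, 21, 0, false⟩)),
    (53, (.del 90 ⟨0, 0, 0, 0, 0⟩ ⟨0, 0, 0, 0, 0⟩ ⟨6, 15, 0, true⟩ ⟨0, 21, 0, false⟩)),
    (54, (.swap (.del 92 ⟨0, 0, 0, 0, 0⟩ ⟨0, 0, 0, 0, 0⟩ ⟨0, 21, 0, true⟩ ⟨0, 21, 0, false⟩))),
    (55, (.swap (.del 92 ⟨0, 0, 0, 0, 0⟩ ⟨0, 0, 0, 0, 0⟩ ⟨0, 21, 0, true⟩ ⟨0, 21, 0, false⟩))),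
    (56, (.del 90 ⟨0, 0, 0, 0, 0⟩ ⟨0, 0, 0, 0, 0⟩ ⟨6, 15, 0, true⟩ ⟨0, 21, 0, false⟩)),
    (57, (.del 90 ⟨0, 0, 0, 0, 0⟩ ⟨0, 0, 0, 0, 0⟩ ⟨6, 15, 0, true⟩ ⟨0, 21, 0, false⟩)),
    (58, (.del 90 ⟨0, 0, 0, 0, 0⟩ ⟨0, 0, 0, 0, 0⟩ ⟨6, 15, 0, true⟩ ⟨0, 21, 0, false⟩)),
    (59, (.swap (.del 92 ⟨0, 0, 0, 0, 0⟩ ⟨0, 0, 0, 0, 0⟩ ⟨0, 21, 0, true⟩ ⟨0, 21, 0, false⟩))),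
    (60, (.swap (.del 92 ⟨0, 0, 0, 0, 0⟩ ⟨0, 0, 0, 0, 0⟩ ⟨0, 21, 0, true⟩ ⟨0, 21, 0, false⟩))),
    (61, (.del 90 ⟨0, 0, 0, 0, 0⟩ ⟨0, 0, 0, 0, 0⟩ ⟨6, 15, 0, true⟩ ⟨0, 21, 0, false⟩)),
    (62, (.del 90 ⟨0, 0, 0, 0, 0⟩ ⟨0, 0, 0, 0, 0⟩ ⟨6, 15, 0, true⟩ ⟨0, 21, 0, false⟩)),
    (63, (.swap (.del 92 ⟨0, 0, 0, 0, 0⟩ ⟨0, 0, 0, 0, 0⟩ ⟨0, 21, 0, true⟩ ⟨0, 21, 0, false⟩))),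
    (64, (.del 90 ⟨0, 0, 0, 0, 0⟩ ⟨0, 0, 0, 0, 0⟩ ⟨6, 15, 0, true⟩ ⟨0, 21, 0, false⟩)),
    (67, (.swap (.del 92 ⟨0, 0, 0, 0, 0⟩ ⟨0, 0, 0, 0, 0⟩ ⟨0, 21, 0, true⟩ ⟨0, 21, 0, false⟩))),
    (68, (.rot (.del 96 ⟨0, 0, 0, 0, 0⟩ ⟨0, 0, 0, 0, 0⟩ ⟨6, 7, 0, true⟩ ⟨0, 21, 0, false⟩))),
    (69, (.rot (.del 96 ⟨0, 0, 0, 0, 0⟩ ⟨0, 0, 0, 0, 0⟩ ⟨6, 7, 0, true⟩ ⟨0, 21, 0, false⟩))),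
    (72, (.cap 11)),
    (73, (.cap 12)),
    (84, (.del 123 ⟨0, 0, 0, 0, 0⟩ ⟨0, 0, 0, 0, 0⟩ ⟨13, 2, 0, true⟩ ⟨14, 7, 0, false⟩)),
    (85, (.del 123 ⟨0, 0, 0, 0, 0⟩ ⟨0, 0, 0, 0, 0⟩ ⟨13, 2, 0, true⟩ ⟨14, 7, 0, false⟩)),
    (86, (.del 121 ⟨0, 0, 0, 0, 0⟩ ⟨0, 0, 0, 0, 0⟩ ⟨13, 8, 0, true⟩ ⟨0, 21, 0, false⟩)),
    (87, (.del 121 ⟨0, 0, 0, 0, 0⟩ ⟨0, 0, 0, 0, 0⟩ ⟨13, 8, 0, true⟩ ⟨0, 21, 0, false⟩)),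
    (107, (.del 76 ⟨0, 0, 0, 0, 0⟩ ⟨0, 0, 0, 0, 0⟩ ⟨6, 15, 0, true⟩ ⟨0, 21, 0, false⟩)),
    (110, (.del 76 ⟨0, 0, 0, 0, 0⟩ ⟨0, 0, 0, 0, 0⟩ ⟨6, 15, 0, true⟩ ⟨0, 21, 0, false⟩)),
    (111, (.swap (.del 92 ⟨0, 0, 0, 0, 0⟩ ⟨0, 0, 0, 0, 0⟩ ⟨0, 21, 0, true⟩ ⟨0, 21, 0, false⟩))),
    (112, (.swap (.del 89 ⟨0, 0, 0, 0, 0⟩ ⟨0, 0, 0, 0, 0⟩ ⟨0, 21, 0, true⟩ ⟨6, 4, 0, false⟩))),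
    (121, (.del 121 ⟨0, 0, 0, 0, 0⟩ ⟨0, 0, 0, 0, 0⟩ ⟨13, 8, 0, true⟩ ⟨0, 21, 0, false⟩)),
    (127, (.rot (.swap (.del 116 ⟨0, 0, 0, 0, 0⟩ ⟨0, 0, 0, 0, 0⟩ ⟨0, 21, 0, true⟩ ⟨0, 21, 0, false⟩)))),
    (128, (.rot (.swap (.del 116 ⟨0, 0, 0, 0, 0⟩ ⟨0, 0, 0, 0, 0⟩ ⟨0, 21, 0, true⟩ ⟨0, 21, 0, false⟩)))),
    (130, (.rot (.swap (.del 116 ⟨0, 0, 0, 0, 0⟩ ⟨0, 0, 0, 0, 0⟩ ⟨0, 21, 0, true⟩ ⟨0, 21, 0, false⟩)))),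
    (132, (.cap 16)),
    (133, (.rot (.swap (.del 116 ⟨0, 0, 0, 0, 0⟩ ⟨0, 0, 0, 0, 0⟩ ⟨0, 21, 0, true⟩ ⟨0, 21, 0, false⟩)))),
    (134, (.cap 21)),
    (135, (.rot (.swap (.del 121 ⟨0, 0, 0, 0, 0⟩ ⟨0, 0, 0, 0, 0⟩ ⟨13, 8, 0, true⟩ ⟨0, 21, 0, false⟩)))),
    (136, (.cap 19)),
    (137, (.rot (.swap (.del 116 ⟨0, 0, 0, 0, 0⟩ ⟨0, 0, 0, 0, 0⟩ ⟨0, 21, 0, true⟩ ⟨0, 21, 0, false⟩)))),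
    (138, (.rot (.swap (.del 116 ⟨0, 0, 0, 0, 0⟩ ⟨0, 0, 0, 0, 0⟩ ⟨0, 21, 0, true⟩ ⟨0, 21, 0, false⟩)))),
    (139, (.rot (.swap (.del 116 ⟨0, 0, 0, 0, 0⟩ ⟨0, 0, 0, 0, 0⟩ ⟨0, 21, 0, true⟩ ⟨0, 21, 0, false⟩)))),
    (140, (.rot (.swap (.del 116 ⟨0, 0, 0, 0, 0⟩ ⟨0, 0, 0, 0, 0⟩ ⟨0, 21, 0, true⟩ ⟨0, 21, 0, false⟩)))),
    (141, (.rot (.swap (.del 116 ⟨0, 0, 0, 0, 0⟩ ⟨0, 0, 0, 0, 0⟩ ⟨0, 21, 0, true⟩ ⟨0, 21, 0, false⟩)))),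
    (142, (.rot (.swap (.del 90 ⟨0, 0, 0, 0, 0⟩ ⟨0, 0, 0, 0, 0⟩ ⟨6, 15, 0, true⟩ ⟨0, 21, 0, false⟩)))),
    (143, (.cap 0)),
    (144, (.rot (.del 92 ⟨0, 0, 0, 0, 0⟩ ⟨0, 0, 0, 0, 0⟩ ⟨0, 21, 0, true⟩ ⟨0, 21, 0, false⟩))),
    (145, (.rot (.swap (.del 121 ⟨0, 0, 0, 0, 0⟩ ⟨0, 0, 0, 0, 0⟩ ⟨13, 8, 0, true⟩ ⟨0, 21, 0, false⟩)))),
    (146, (.rot (.swap (.del 121 ⟨0, 0, 0, 0, 0⟩ ⟨0, 0, 0, 0, 0⟩ ⟨13, 8, 0, true⟩ ⟨0, 21, 0, false⟩)))),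
    (147, (.rot (.swap (.del 121 ⟨0, 0, 0, 0, 0⟩ ⟨0, 0, 0, 0, 0⟩ ⟨13, 8, 0, true⟩ ⟨0, 21, 0, false⟩)))),
    (148, (.rot (.swap (.del 121 ⟨0, 0, 0, 0, 0⟩ ⟨0, 0, 0, 0, 0⟩ ⟨13, 8, 0, true⟩ ⟨0, 21, 0, false⟩)))),
    (149, (.rot (.swap (.del 121 ⟨0, 0, 0, 0, 0⟩ ⟨0, 0, 0, 0, 0⟩ ⟨13, 8, 0, true⟩ ⟨0, 21, 0, false⟩)))),
    (150, (.rot (.swap (.del 121 ⟨0, 0, 0, 0, 0⟩ ⟨0, 0, 0, 0, 0⟩ ⟨13, 8, 0, true⟩ ⟨0, 21, 0, false⟩)))),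
    (151, (.rot (.swap (.del 121 ⟨0, 0, 0, 0, 0⟩ ⟨0, 0, 0, 0, 0⟩ ⟨13, 8, 0, true⟩ ⟨0, 21, 0, false⟩)))),
    (152, (.rot (.swap (.del 121 ⟨0, 0, 0, 0, 0⟩ ⟨0, 0, 0, 0, 0⟩ ⟨13, 8, 0, true⟩ ⟨0, 21, 0, false⟩)))),
    (153, (.rot (.swap (.del 121 ⟨0, 0, 0, 0, 0⟩ ⟨0, 0, 0, 0, 0⟩ ⟨13, 8, 0, true⟩ ⟨0, 21, 0, false⟩)))),
    (154, (.rot (.swap (.del 121 ⟨0, 0, 0, 0, 0⟩ ⟨0, 0, 0, 0, 0⟩ ⟨13, 8, 0, true⟩ ⟨0, 21, 0, false⟩)))),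
    (155, (.rot (.swap (.del 121 ⟨0, 0, 0, 0, 0⟩ ⟨0, 0, 0, 0, 0⟩ ⟨13, 8, 0, true⟩ ⟨0, 21, 0, false⟩)))),
    (156, (.rot (.swap (.del 121 ⟨0, 0, 0, 0, 0⟩ ⟨0, 0, 0, 0, 0⟩ ⟨13, 8, 0, true⟩ ⟨0, 21, 0, false⟩)))),
    (157, (.rot (.swap (.del 121 ⟨0, 0, 0, 0, 0⟩ ⟨0, 0, 0, 0, 0⟩ ⟨13, 8, 0, true⟩ ⟨0, 21, 0, false⟩)))),
    (158, (.rot (.swap (.del 121 ⟨0, 0, 0, 0, 0⟩ ⟨0, 0, 0, 0, 0⟩ ⟨13, 8, 0, true⟩ ⟨0, 21, 0, false⟩)))),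
    (159, (.rot (.swap (.del 121 ⟨0, 0, 0, 0, 0⟩ ⟨0, 0, 0, 0, 0⟩ ⟨13, 8, 0, true⟩ ⟨0, 21, 0, false⟩)))),
    (160, (.rot (.swap (.del 121 ⟨0, 0, 0, 0, 0⟩ ⟨0, 0, 0, 0, 0⟩ ⟨13, 8, 0, true⟩ ⟨0, 21, 0, false⟩)))),
    (161, (.rot (.swap (.del 116 ⟨0, 0, 0, 0, 0⟩ ⟨0, 0, 0, 0, 0⟩ ⟨0, 21, 0, true⟩ ⟨0, 21, 0, false⟩)))),
    (162, (.rot (.swap (.del 116 ⟨0, 0, 0, 0, 0⟩ ⟨0, 0, 0, 0, 0⟩ ⟨0, 21, 0, true⟩ ⟨0, 21, 0, false⟩)))),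
    (163, (.rot (.swap (.del 116 ⟨0, 0, 0, 0, 0⟩ ⟨0, 0, 0, 0, 0⟩ ⟨0, 21, 0, true⟩ ⟨0, 21, 0, false⟩)))),
    (164, (.rot (.swap (.del 116 ⟨0, 0, 0, 0, 0⟩ ⟨0, 0, 0, 0, 0⟩ ⟨0, 21, 0, true⟩ ⟨0, 21, 0, false⟩)))),
    (165, (.rot (.swap (.del 116 ⟨0, 0, 0, 0, 0⟩ ⟨0, 0, 0, 0, 0⟩ ⟨0, 21, 0, true⟩ ⟨0, 21, 0, false⟩)))),
    (166, (.rot (.swap (.del 116 ⟨0, 0, 0, 0, 0⟩ ⟨0, 0, 0, 0, 0⟩ ⟨0, 21, 0, true⟩ ⟨0, 21, 0, false⟩)))),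
    (167, (.rot (.swap (.del 116 ⟨0, 0, 0, 0, 0⟩ ⟨0, 0, 0, 0, 0⟩ ⟨0, 21, 0, true⟩ ⟨0, 21, 0, false⟩)))),
    (168, (.rot (.swap (.del 116 ⟨0, 0, 0, 0, 0⟩ ⟨0, 0, 0, 0, 0⟩ ⟨0, 21, 0, true⟩ ⟨0, 21, 0, false⟩)))),
    (169, (.rot (.swap (.del 116 ⟨0, 0, 0, 0, 0⟩ ⟨0, 0, 0, 0, 0⟩ ⟨0, 21, 0, true⟩ ⟨0, 21, 0, false⟩)))),
    (170, (.rot (.swap (.del 116 ⟨0, 0, 0, 0, 0⟩ ⟨0, 0, 0, 0, 0⟩ ⟨0, 21, 0, true⟩ ⟨0, 21, 0, false⟩)))),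
    (171, (.rot (.swap (.del 116 ⟨0, 0, 0, 0, 0⟩ ⟨0, 0, 0, 0, 0⟩ ⟨0, 21, 0, true⟩ ⟨0, 21, 0, false⟩)))),
    (172, (.rot (.swap (.del 116 ⟨0, 0, 0, 0, 0⟩ ⟨0, 0, 0, 0, 0⟩ ⟨0, 21, 0, true⟩ ⟨0, 21, 0, false⟩)))),
    (173, (.rot (.swap (.del 116 ⟨0, 0, 0, 0, 0⟩ ⟨0, 0, 0, 0, 0⟩ ⟨0, 21, 0, true⟩ ⟨0, 21, 0, false⟩)))),
    (174, (.rot (.swap (.del 116 ⟨0, 0, 0, 0, 0⟩ ⟨0, 0, 0, 0, 0⟩ ⟨0, 21, 0, true⟩ ⟨0, 21, 0, false⟩)))),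
    (175, (.rot (.swap (.del 116 ⟨0, 0, 0, 0, 0⟩ ⟨0, 0, 0, 0, 0⟩ ⟨0, 21, 0, true⟩ ⟨0, 21, 0, false⟩)))),
    (176, (.rot (.swap (.del 116 ⟨0, 0, 0, 0, 0⟩ ⟨0, 0, 0, 0, 0⟩ ⟨0, 21, 0, true⟩ ⟨0, 21, 0, false⟩)))),
    (177, (.rot (.swap (.del 90 ⟨0, 0, 0, 0, 0⟩ ⟨0, 0, 0, 0, 0⟩ ⟨6, 15, 0, true⟩ ⟨0, 21, 0, false⟩)))),
    (178, (.rot (.swap (.del 90 ⟨0, 0, 0, 0, 0⟩ ⟨0, 0, 0, 0, 0⟩ ⟨6, 15, 0, true⟩ ⟨0, 21, 0, false⟩)))),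
    (179, (.rot (.del 92 ⟨0, 0, 0, 0, 0⟩ ⟨0, 0, 0, 0, 0⟩ ⟨0, 21, 0, true⟩ ⟨0, 21, 0, false⟩))),
    (180, (.rot (.del 92 ⟨0, 0, 0, 0, 0⟩ ⟨0, 0, 0, 0, 0⟩ ⟨0, 21, 0, true⟩ ⟨0, 21, 0, false⟩))),
    (181, (.rot (.swap (.del 90 ⟨0, 0, 0, 0, 0⟩ ⟨0, 0, 0, 0, 0⟩ ⟨6, 15, 0, true⟩ ⟨0, 21, 0, false⟩)))),
    (182, (.rot (.swap (.del 90 ⟨0, 0, 0, 0, 0⟩ ⟨0, 0, 0, 0, 0⟩ ⟨6, 15, 0, true⟩ ⟨0, 21, 0, false⟩)))),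
    (183, (.rot (.swap (.del 90 ⟨0, 0, 0, 0, 0⟩ ⟨0, 0, 0, 0, 0⟩ ⟨6, 15, 0, true⟩ ⟨0, 21, 0, false⟩)))),
    (184, (.rot (.del 92 ⟨0, 0, 0, 0, 0⟩ ⟨0, 0, 0, 0, 0⟩ ⟨0, 21, 0, true⟩ ⟨0, 21, 0, false⟩))),
    (185, (.rot (.del 92 ⟨0, 0, 0, 0, 0⟩ ⟨0, 0, 0, 0, 0⟩ ⟨0, 21, 0, true⟩ ⟨0, 21, 0, false⟩))),
    (186, (.rot (.swap (.del 90 ⟨0, 0, 0, 0, 0⟩ ⟨0, 0, 0, 0, 0⟩ ⟨6, 15, 0, true⟩ ⟨0, 21, 0, false⟩)))),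
    (187, (.rot (.swap (.del 90 ⟨0, 0, 0, 0, 0⟩ ⟨0, 0, 0, 0, 0⟩ ⟨6, 15, 0, true⟩ ⟨0, 21, 0, false⟩)))),
    (188, (.rot (.del 92 ⟨0, 0, 0, 0, 0⟩ ⟨0, 0, 0, 0, 0⟩ ⟨0, 21, 0, true⟩ ⟨0, 21, 0, false⟩))),
    (189, (.rot (.swap (.del 90 ⟨0, 0, 0, 0, 0⟩ ⟨0, 0, 0, 0, 0⟩ ⟨6, 15, 0, true⟩ ⟨0, 21, 0, false⟩)))),
    (190, (.rot (.swap (.del 90 ⟨0, 0, 0, 0, 0⟩ ⟨0, 0, 0, 0, 0⟩ ⟨6, 15, 0, true⟩ ⟨0, 21, 0, false⟩)))),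
    (191, (.rot (.swap (.del 90 ⟨0, 0, 0, 0, 0⟩ ⟨0, 0, 0, 0, 0⟩ ⟨6, 15, 0, true⟩ ⟨0, 21, 0, false⟩)))),
    (192, (.rot (.del 92 ⟨0, 0, 0, 0, 0⟩ ⟨0, 0, 0, 0, 0⟩ ⟨0, 21, 0, true⟩ ⟨0, 21, 0, false⟩))),
    (195, (.rot (.swap (.del 116 ⟨0, 0, 0, 0, 0⟩ ⟨0, 0, 0, 0, 0⟩ ⟨0, 21, 0, true⟩ ⟨0, 21, 0, false⟩)))),
    (196, (.rot (.swap (.del 116 ⟨0, 0, 0, 0, 0⟩ ⟨0, 0, 0, 0, 0⟩ ⟨0, 21, 0, true⟩ ⟨0, 21, 0, false⟩)))),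
    (199, (.rot (.swap (.del 116 ⟨0, 0, 0, 0, 0⟩ ⟨0, 0, 0, 0, 0⟩ ⟨0, 21, 0, true⟩ ⟨0, 21, 0, false⟩)))),
    (200, (.rot (.swap (.del 116 ⟨0, 0, 0, 0, 0⟩ ⟨0, 0, 0, 0, 0⟩ ⟨0, 21, 0, true⟩ ⟨0, 21, 0, false⟩)))),
    (201, (.rot (.swap (.del 116 ⟨0, 0, 0, 0, 0⟩ ⟨0, 0, 0, 0, 0⟩ ⟨0, 21, 0, true⟩ ⟨0, 21, 0, false⟩)))),
    (202, (.rot (.swap (.del 116 ⟨0, 0, 0, 0, 0⟩ ⟨0, 0, 0, 0, 0⟩ ⟨0, 21, 0, true⟩ ⟨0, 21, 0, false⟩)))),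
    (203, (.rot (.swap (.del 116 ⟨0, 0, 0, 0, 0⟩ ⟨0, 0, 0, 0, 0⟩ ⟨0, 21, 0, true⟩ ⟨0, 21, 0, false⟩)))),
    (204, (.rot (.swap (.del 116 ⟨0, 0, 0, 0, 0⟩ ⟨0, 0, 0, 0, 0⟩ ⟨0, 21, 0, true⟩ ⟨0, 21, 0, false⟩)))),
    (205, (.rot (.swap (.del 116 ⟨0, 0, 0, 0, 0⟩ ⟨0, 0, 0, 0, 0⟩ ⟨0, 21, 0, true⟩ ⟨0, 21, 0, false⟩)))),
    (206, (.rot (.swap (.del 116 ⟨0, 0, 0, 0, 0⟩ ⟨0, 0, 0, 0, 0⟩ ⟨0, 21, 0, true⟩ ⟨0, 21, 0, false⟩)))),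
    (207, (.rot (.swap (.del 116 ⟨0, 0, 0, 0, 0⟩ ⟨0, 0, 0, 0, 0⟩ ⟨0, 21, 0, true⟩ ⟨0, 21, 0, false⟩)))),
    (208, (.rot (.swap (.del 116 ⟨0, 0, 0, 0, 0⟩ ⟨0, 0, 0, 0, 0⟩ ⟨0, 21, 0, true⟩ ⟨0, 21, 0, false⟩)))),
    (209, (.rot (.swap (.del 123 ⟨0, 0, 0, 0, 0⟩ ⟨0, 0, 0, 0, 0⟩ ⟨13, 2, 0, true⟩ ⟨14, 7, 0, false⟩)))),
    (210, (.rot (.swap (.del 123 ⟨0, 0, 0, 0, 0⟩ ⟨0, 0, 0, 0, 0⟩ ⟨13, 2, 0, true⟩ ⟨14, 7, 0, false⟩)))),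
    (211, (.rot (.swap (.del 121 ⟨0, 0, 0, 0, 0⟩ ⟨0, 0, 0, 0, 0⟩ ⟨13, 8, 0, true⟩ ⟨0, 21, 0, false⟩)))),
    (212, (.rot (.swap (.del 121 ⟨0, 0, 0, 0, 0⟩ ⟨0, 0, 0, 0, 0⟩ ⟨13, 8, 0, true⟩ ⟨0, 21, 0, false⟩)))),
    (213, (.cap 18)),
    (214, (.cap 17)),
    (215, (.rot (.swap (.del 116 ⟨0, 0, 0, 0, 0⟩ ⟨0, 0, 0, 0, 0⟩ ⟨0, 21, 0, true⟩ ⟨0, 21, 0, false⟩)))),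
    (216, (.rot (.swap (.del 116 ⟨0, 0, 0, 0, 0⟩ ⟨0, 0, 0, 0, 0⟩ ⟨0, 21, 0, true⟩ ⟨0, 21, 0, false⟩)))),
    (217, (.rot (.swap (.del 116 ⟨0, 0, 0, 0, 0⟩ ⟨0, 0, 0, 0, 0⟩ ⟨0, 21, 0, true⟩ ⟨0, 21, 0, false⟩)))),
    (218, (.rot (.swap (.del 116 ⟨0, 0, 0, 0, 0⟩ ⟨0, 0, 0, 0, 0⟩ ⟨0, 21, 0, true⟩ ⟨0, 21, 0, false⟩)))),
    (219, (.rot (.swap (.del 116 ⟨0, 0, 0, 0, 0⟩ ⟨0, 0, 0, 0, 0⟩ ⟨0, 21, 0, true⟩ ⟨0, 21, 0, false⟩)))),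
    (220, (.rot (.swap (.del 116 ⟨0, 0, 0, 0, 0⟩ ⟨0, 0, 0, 0, 0⟩ ⟨0, 21, 0, true⟩ ⟨0, 21, 0, false⟩)))),
    (221, (.rot (.swap (.del 116 ⟨0, 0, 0, 0, 0⟩ ⟨0, 0, 0, 0, 0⟩ ⟨0, 21, 0, true⟩ ⟨0, 21, 0, false⟩)))),
    (222, (.rot (.swap (.del 116 ⟨0, 0, 0, 0, 0⟩ ⟨0, 0, 0, 0, 0⟩ ⟨0, 21, 0, true⟩ ⟨0, 21, 0, false⟩)))),
    (223, (.rot (.swap (.del 116 ⟨0, 0, 0, 0, 0⟩ ⟨0, 0, 0, 0, 0⟩ ⟨0, 21, 0, true⟩ ⟨0, 21, 0, false⟩)))),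
    (224, (.rot (.swap (.del 116 ⟨0, 0, 0, 0, 0⟩ ⟨0, 0, 0, 0, 0⟩ ⟨0, 21, 0, true⟩ ⟨0, 21, 0, false⟩)))),
    (225, (.rot (.swap (.del 116 ⟨0, 0, 0, 0, 0⟩ ⟨0, 0, 0, 0, 0⟩ ⟨0, 21, 0, true⟩ ⟨0, 21, 0, false⟩)))),
    (226, (.cap 15)),
    (227, (.cap 14)),
    (228, (.rot (.swap (.del 116 ⟨0, 0, 0, 0, 0⟩ ⟨0, 0, 0, 0, 0⟩ ⟨0, 21, 0, true⟩ ⟨0, 21, 0, false⟩)))),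
    (229, (.rot (.swap (.del 116 ⟨0, 0, 0, 0, 0⟩ ⟨0, 0, 0, 0, 0⟩ ⟨0, 21, 0, true⟩ ⟨0, 21, 0, false⟩)))),
    (230, (.rot (.swap (.del 116 ⟨0, 0, 0, 0, 0⟩ ⟨0, 0, 0, 0, 0⟩ ⟨0, 21, 0, true⟩ ⟨0, 21, 0, false⟩)))),
    (231, (.rot (.swap (.del 116 ⟨0, 0, 0, 0, 0⟩ ⟨0, 0, 0, 0, 0⟩ ⟨0, 21, 0, true⟩ ⟨0, 21, 0, false⟩)))),
    (232, (.rot (.swap (.del 76 ⟨0, 0, 0, 0, 0⟩ ⟨0, 0, 0, 0, 0⟩ ⟨6, 15, 0, true⟩ ⟨0, 21, 0, false⟩)))),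
    (233, (.rot (.swap (.del 116 ⟨0, 0, 0, 0, 0⟩ ⟨0, 0, 0, 0, 0⟩ ⟨0, 21, 0, true⟩ ⟨0, 21, 0, false⟩)))),
    (234, (.rot (.swap (.del 116 ⟨0, 0, 0, 0, 0⟩ ⟨0, 0, 0, 0, 0⟩ ⟨0, 21, 0, true⟩ ⟨0, 21, 0, false⟩)))),
    (235, (.rot (.swap (.del 76 ⟨0, 0, 0, 0, 0⟩ ⟨0, 0, 0, 0, 0⟩ ⟨6, 15, 0, true⟩ ⟨0, 21, 0, false⟩)))),
    (236, (.rot (.del 92 ⟨0, 0, 0, 0, 0⟩ ⟨0, 0, 0, 0, 0⟩ ⟨0, 21, 0, true⟩ ⟨0, 21, 0, false⟩))),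
    (237, (.rot (.del 89 ⟨0, 0, 0, 0, 0⟩ ⟨0, 0, 0, 0, 0⟩ ⟨0, 21, 0, true⟩ ⟨6, 4, 0, false⟩))),
    (238, (.rot (.swap (.del 116 ⟨0, 0, 0, 0, 0⟩ ⟨0, 0, 0, 0, 0⟩ ⟨0, 21, 0, true⟩ ⟨0, 21, 0, false⟩)))),
    (239, (.rot (.swap (.del 116 ⟨0, 0, 0, 0, 0⟩ ⟨0, 0, 0, 0, 0⟩ ⟨0, 21, 0, true⟩ ⟨0, 21, 0, false⟩)))),
    (240, (.rot (.swap (.del 116 ⟨0, 0, 0, 0, 0⟩ ⟨0, 0, 0, 0, 0⟩ ⟨0, 21, 0, true⟩ ⟨0, 21, 0, false⟩)))),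
    (241, (.rot (.swap (.del 116 ⟨0, 0, 0, 0, 0⟩ ⟨0, 0, 0, 0, 0⟩ ⟨0, 21, 0, true⟩ ⟨0, 21, 0, false⟩)))),
    (242, (.rot (.swap (.del 116 ⟨0, 0, 0, 0, 0⟩ ⟨0, 0, 0, 0, 0⟩ ⟨0, 21, 0, true⟩ ⟨0, 21, 0, false⟩)))),
    (243, (.rot (.swap (.del 116 ⟨0, 0, 0, 0, 0⟩ ⟨0, 0, 0, 0, 0⟩ ⟨0, 21, 0, true⟩ ⟨0, 21, 0, false⟩)))),
    (244, (.rot (.del 92 ⟨0, 0, 0, 0, 0⟩ ⟨0, 0, 0, 0, 0⟩ ⟨0, 21, 0, true⟩ ⟨0, 21, 0, false⟩))),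
    (245, (.rot (.del 92 ⟨0, 0, 0, 0, 0⟩ ⟨0, 0, 0, 0, 0⟩ ⟨0, 21, 0, true⟩ ⟨0, 21, 0, false⟩))),
    (246, (.rot (.swap (.del 121 ⟨0, 0, 0, 0, 0⟩ ⟨0, 0, 0, 0, 0⟩ ⟨13, 8, 0, true⟩ ⟨0, 21, 0, false⟩)))),
    (247, (.cap 20)),
    (248, (.rot (.swap (.del 116 ⟨0, 0, 0, 0, 0⟩ ⟨0, 0, 0, 0, 0⟩ ⟨0, 21, 0, true⟩ ⟨0, 21, 0, false⟩)))),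
    (249, (.rot (.swap (.del 116 ⟨0, 0, 0, 0, 0⟩ ⟨0, 0, 0, 0, 0⟩ ⟨0, 21, 0, true⟩ ⟨0, 21, 0, false⟩))))]
    [(3, (.rot (.del 96 ⟨0, 0, 0, 0, 0⟩ ⟨0, 0, 0, 0, 0⟩ ⟨6, 7, 0, true⟩ ⟨0, 21, 0, false⟩))),
    (9, (.cap 11)),
    (27, (.del 123 ⟨0, 0, 0, 0, 0⟩ ⟨0, 0, 0, 0, 0⟩ ⟨13, 2, 0, true⟩ ⟨14, 7, 0, false⟩)),
    (30, (.del 121 ⟨0, 0, 0, 0, 0⟩ ⟨0, 0, 0, 0, 0⟩ ⟨13, 8, 0, true⟩ ⟨0, 21, 0, false⟩)),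
    (61, (.swap (.del 89 ⟨0, 0, 0, 0, 0⟩ ⟨0, 0, 0, 0, 0⟩ ⟨0, 21, 0, true⟩ ⟨6, 4, 0, false⟩))),
    (67, (.swap (.del 92 ⟨0, 0, 0, 0, 0⟩ ⟨0, 0, 0, 0, 0⟩ ⟨0, 21, 0, true⟩ ⟨0, 21, 0, false⟩))),
    (174, (.rot (.swap (.del 116 ⟨0, 0, 0, 0, 0⟩ ⟨0, 0, 0, 0, 0⟩ ⟨0, 21, 0, true⟩ ⟨0, 21, 0, false⟩)))),
    (180, (.rot (.swap (.del 116 ⟨0, 0, 0, 0, 0⟩ ⟨0, 0, 0, 0, 0⟩ ⟨0, 21, 0, true⟩ ⟨0, 21, 0, false⟩)))),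
    (183, (.rot (.swap (.del 116 ⟨0, 0, 0, 0, 0⟩ ⟨0, 0, 0, 0, 0⟩ ⟨0, 21, 0, true⟩ ⟨0, 21, 0, false⟩)))),
    (186, (.rot (.swap (.del 116 ⟨0, 0, 0, 0, 0⟩ ⟨0, 0, 0, 0, 0⟩ ⟨0, 21, 0, true⟩ ⟨0, 21, 0, false⟩)))),
    (189, (.rot (.swap (.del 116 ⟨0, 0, 0, 0, 0⟩ ⟨0, 0, 0, 0, 0⟩ ⟨0, 21, 0, true⟩ ⟨0, 21, 0, false⟩)))),
    (192, (.rot (.swap (.del 116 ⟨0, 0, 0, 0, 0⟩ ⟨0, 0, 0, 0, 0⟩ ⟨0, 21, 0, true⟩ ⟨0, 21, 0, false⟩)))),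
    (195, (.rot (.swap (.del 123 ⟨0, 0, 0, 0, 0⟩ ⟨0, 0, 0, 0, 0⟩ ⟨13, 2, 0, true⟩ ⟨14, 7, 0, false⟩)))),
    (198, (.rot (.swap (.del 121 ⟨0, 0, 0, 0, 0⟩ ⟨0, 0, 0, 0, 0⟩ ⟨13, 8, 0, true⟩ ⟨0, 21, 0, false⟩)))),
    (201, (.cap 17)),
    (204, (.rot (.swap (.del 116 ⟨0, 0, 0, 0, 0⟩ ⟨0, 0, 0, 0, 0⟩ ⟨0, 21, 0, true⟩ ⟨0, 21, 0, false⟩)))),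
    (205, (.rot (.swap (.del 116 ⟨0, 0, 0, 0, 0⟩ ⟨0, 0, 0, 0, 0⟩ ⟨0, 21, 0, true⟩ ⟨0, 21, 0, false⟩)))),
    (208, (.rot (.swap (.del 116 ⟨0, 0, 0, 0, 0⟩ ⟨0, 0, 0, 0, 0⟩ ⟨0, 21, 0, true⟩ ⟨0, 21, 0, false⟩)))),
    (211, (.rot (.swap (.del 116 ⟨0, 0, 0, 0, 0⟩ ⟨0, 0, 0, 0, 0⟩ ⟨0, 21, 0, true⟩ ⟨0, 21, 0, false⟩)))),
    (214, (.rot (.swap (.del 116 ⟨0, 0, 0, 0, 0⟩ ⟨0, 0, 0, 0, 0⟩ ⟨0, 21, 0, true⟩ ⟨0, 21, 0, false⟩)))),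
    (217, (.rot (.swap (.del 116 ⟨0, 0, 0, 0, 0⟩ ⟨0, 0, 0, 0, 0⟩ ⟨0, 21, 0, true⟩ ⟨0, 21, 0, false⟩)))),
    (220, (.cap 14)),
    (223, (.rot (.swap (.del 116 ⟨0, 0, 0, 0, 0⟩ ⟨0, 0, 0, 0, 0⟩ ⟨0, 21, 0, true⟩ ⟨0, 21, 0, false⟩)))),
    (226, (.rot (.swap (.del 116 ⟨0, 0, 0, 0, 0⟩ ⟨0, 0, 0, 0, 0⟩ ⟨0, 21, 0, true⟩ ⟨0, 21, 0, false⟩)))),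
    (229, (.rot (.del 89 ⟨0, 0, 0, 0, 0⟩ ⟨0, 0, 0, 0, 0⟩ ⟨0, 21, 0, true⟩ ⟨6, 4, 0, false⟩))),
    (232, (.rot (.swap (.del 116 ⟨0, 0, 0, 0, 0⟩ ⟨0, 0, 0, 0, 0⟩ ⟨0, 21, 0, true⟩ ⟨0, 21, 0, false⟩)))),
    (235, (.rot (.del 92 ⟨0, 0, 0, 0, 0⟩ ⟨0, 0, 0, 0, 0⟩ ⟨0, 21, 0, true⟩ ⟨0, 21, 0, false⟩))),
    (242, (.rot (.swap (.del 116 ⟨0, 0, 0, 0, 0⟩ ⟨0, 0, 0, 0, 0⟩ ⟨0, 21, 0, true⟩ ⟨0, 21, 0, false⟩)))),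
    (245, (.rot (.del 92 ⟨0, 0, 0, 0, 0⟩ ⟨0, 0, 0, 0, 0⟩ ⟨0, 21, 0, true⟩ ⟨0, 21, 0, false⟩)))]
    [(7, (.swap (.cap 16))),
    (9, (.swap (.cap 21))),
    (11, (.swap (.cap 19))),
    (18, (.swap (.cap 0))),
    (19, (.swap (.del 92 ⟨0, 0, 0, 0, 0⟩ ⟨0, 0, 0, 0, 0⟩ ⟨0, 21, 0, true⟩ ⟨0, 21, 0, false⟩))),
    (65, (.swap (.del 92 ⟨0, 0, 0, 0, 0⟩ ⟨0, 0, 0, 0, 0⟩ ⟨0, 21, 0, true⟩ ⟨0, 21, 0, false⟩))),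
    (66, (.swap (.del 92 ⟨0, 0, 0, 0, 0⟩ ⟨0, 0, 0, 0, 0⟩ ⟨0, 21, 0, true⟩ ⟨0, 21, 0, false⟩))),
    (125, (.swap (.cap 9))),
    (126, (.swap (.cap 10))),
    (129, (.swap (.cap 6))),
    (131, (.swap (.cap 13)))]
    []
    []
    (.del 116 ⟨0, 0, 0, 0, 0⟩ ⟨0, 0, 0, 0, 0⟩ ⟨0, 21, 0, true⟩ ⟨0, 21, 0, false⟩)

theorem k124 : chkC env c124 p124 = true := by decide +kernel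

def p20 : Pf :=
  .step []
    [(1, [⟨1, 0, 0, 0, -1⟩]),
    (2, [⟨4, 0, 0, 0, 5⟩]),
    (3, [⟨4, 0, 0, 0, 6⟩]),
    (5, [⟨1, 0, 0, 0, 1⟩]),
    (7, [⟨3, 0, 0, 0, 6⟩]),
    (70, [⟨4, 0, 0, 0, 4⟩]),
    (71, [⟨1, 0, 0, 0, 2⟩]),
    (74, [⟨4, 0, 0, 0, 5⟩]),
    (75, [⟨3, 0, 0, 0, 7⟩]),
    (76, [⟨1, 0, 0, 0, 0⟩]),
    (77, [⟨4, 0, 0, 0, 4⟩]),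
    (80, [⟨2, 0, 0, 0, -2⟩]),
    (81, [⟨4, 0, 0, 0, 4⟩]),
    (90, [⟨4, 0, 0, 0, 5⟩]),
    (91, [⟨3, 0, 0, 0, 5⟩])]
    [1, 5, 7, 91]
    [(3, (.del 18 ⟨0, 0, 0, 0, 0⟩ ⟨0, 0, 0, 0, 0⟩ ⟨3, 3, 10, false⟩ ⟨0, 9, 0, false⟩)),
    (74, (.del 18 ⟨0, 0, 0, 0, 0⟩ ⟨0, 0, 0, 0, 0⟩ ⟨3, 3, 10, false⟩ ⟨0, 9, 0, false⟩)),
    (75, (.del 18 ⟨0, 0, 0, 0, 0⟩ ⟨0, 0, 0, 0, 0⟩ ⟨3, 3, 10, false⟩ ⟨0, 9, 0, false⟩)),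
    (76, (.del 11 ⟨0, 0, 0, 0, 0⟩ ⟨0, 0, 0, 0, 0⟩ ⟨0, 6, 0, true⟩ ⟨0, 3, 0, false⟩)),
    (81, (.swap (.del 16 ⟨3, 0, 0, 0, 4⟩ ⟨0, 0, 0, 0, 0⟩ ⟨0, 6, 0, true⟩ ⟨3, 3, 0, true⟩))),
    (90, (.swap (.del 2 ⟨0, 0, 0, 0, 0⟩ ⟨0, 0, 0, 0, 0⟩ ⟨0, 9, 0, false⟩ ⟨3, 3, 0, true⟩)))]
    [(12, (.del 18 ⟨0, 0, 0, 0, 0⟩ ⟨0, 0, 0, 0, 0⟩ ⟨3, 3, 10, false⟩ ⟨0, 9, 0, false⟩)),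
    (21, (.swap (.del 16 ⟨3, 0, 0, 0, 4⟩ ⟨0, 0, 0, 0, 0⟩ ⟨0, 6, 0, true⟩ ⟨3, 3, 0, true⟩))),
    (36, (.swap (.del 2 ⟨0, 0, 0, 0, 0⟩ ⟨0, 0, 0, 0, 0⟩ ⟨0, 9, 0, false⟩ ⟨3, 3, 0, true⟩)))]
    [(1, (.del 11 ⟨0, 0, 0, 0, 0⟩ ⟨0, 0, 0, 0, 0⟩ ⟨0, 6, 0, true⟩ ⟨0, 3, 0, false⟩)),
    (5, (.swap (.cap 3))),
    (7, (.cap 3)),
    (91, (.swap (.del 2 ⟨0, 0, 0, 0, 0⟩ ⟨0, 0, 0, 0, 0⟩ ⟨0, 9, 0, false⟩ ⟨3, 3, 0, true⟩)))]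
    []
    [(21, (.swap (.del 16 ⟨3, 0, 0, 0, 4⟩ ⟨0, 0, 0, 0, 0⟩ ⟨0, 6, 0, true⟩ ⟨3, 3, 0, true⟩)))]
    (.swap (.del 15 ⟨3, 0, 0, 0, 4⟩ ⟨0, 0, 0, 0, 0⟩ ⟨0, 6, 0, true⟩ ⟨0, 6, 0, true⟩))

theorem k20 : chkC env c20 p20 = true := by decide +kernel

def p91 : Pf :=
  .step []
    [(4, [⟨1, 0, 0, 0, 4⟩]),
    (17, [⟨9, 0, 0, 0, 14⟩]),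
    (18, [⟨9, 0, 0, 0, 14⟩]),
    (19, [⟨9, 0, 0, 0, 14⟩]),
    (52, [⟨9, 0, 0, 0, 14⟩]),
    (53, [⟨9, 0, 0, 0, 14⟩]),
    (54, [⟨9, 0, 0, 0, 14⟩]),
    (55, [⟨9, 0, 0, 0, 14⟩]),
    (56, [⟨9, 0, 0, 0, 14⟩]),
    (57, [⟨9, 0, 0, 0, 14⟩]),
    (58, [⟨9, 0, 0, 0, 14⟩]),
    (59, [⟨9, 0, 0, 0, 14⟩]),
    (60, [⟨9, 0, 0, 0, 14⟩]),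
    (61, [⟨9, 0, 0, 0, 14⟩]),
    (62, [⟨9, 0, 0, 0, 14⟩]),
    (63, [⟨9, 0, 0, 0, 14⟩]),
    (64, [⟨9, 0, 0, 0, 14⟩]),
    (65, [⟨9, 0, 0, 0, 14⟩]),
    (66, [⟨9, 0, 0, 0, 14⟩]),
    (67, [⟨9, 0, 0, 0, 14⟩]),
    (111, [⟨9, 0, 0, 0, 13⟩]),
    (112, [⟨1, 0, 0, 0, 5⟩]),
    (113, [⟨9, 0, 0, 0, 14⟩]),
    (114, [⟨9, 0, 0, 0, 13⟩]),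
    (115, [⟨9, 0, 0, 0, 12⟩])]
    [4, 19, 115]
    [(17, (.del 90 ⟨0, 0, 0, 0, 0⟩ ⟨0, 0, 0, 0, 0⟩ ⟨6, 3, 15, false⟩ ⟨0, 21, 0, false⟩)),
    (111, (.del 90 ⟨0, 0, 0, 0, 0⟩ ⟨0, 0, 0, 0, 0⟩ ⟨6, 3, 15, false⟩ ⟨0, 21, 0, false⟩)),
    (112, (.del 90 ⟨0, 0, 0, 0, 0⟩ ⟨0, 0, 0, 0, 0⟩ ⟨6, 3, 15, false⟩ ⟨0, 21, 0, false⟩))]
    [(67, (.del 90 ⟨0, 0, 0, 0, 0⟩ ⟨0, 0, 0, 0, 0⟩ ⟨6, 3, 15, false⟩ ⟨0, 21, 0, false⟩))]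
    [(4, (.cap 6)),
    (19, (.swap (.cap 3))),
    (115, (.s1 ⟨1, 0, 0, 0, 4⟩ (.del 77 ⟨0, 0, 0, 0, 0⟩ ⟨0, 0, 0, 0, 0⟩ ⟨0, 6, 0, false⟩ ⟨0, 21, 0, false⟩) (.del 75 ⟨0, 0, 0, 0, 0⟩ ⟨0, 0, 0, 0, 0⟩ ⟨6, 3, 0, true⟩ ⟨0, 21, 0, false⟩)))]
    []
    []
    (.swap (.del 78 ⟨0, 0, 0, 0, 0⟩ ⟨0, 0, 0, 0, 0⟩ ⟨0, 21, 0, true⟩ ⟨6, 3, 0, true⟩))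

theorem k91 : chkC env c91 p91 = true := by decide +kernel

def p42 : Pf :=
  .step []
    [(1, [⟨6, 1, 0, 0, 8⟩]),
    (2, [⟨9, 1, 0, 0, 14⟩]),
    (8, [⟨7, 1, 0, 0, 6⟩]),
    (78, [⟨6, 1, 0, 0, 7⟩]),
    (79, [⟨7, 1, 0, 0, 5⟩]),
    (80, [⟨7, 1, 0, 0, 7⟩]),
    (81, [⟨9, 1, 0, 0, 13⟩])]
    [1, 2]
    []
    []
    [(1, (.s2 ⟨4, 0, 0, 0, 4⟩ (.del 30 ⟨0, 1, 0, 0, 0⟩ ⟨-1, 0, 0, 0, 0⟩ ⟨0, 12, 0, false⟩ ⟨0, 3, 0, false⟩) (.del 36 ⟨0, 1, 0, 0, 0⟩ ⟨0, 0, 0, 0, 0⟩ ⟨0, 12, 0, false⟩ ⟨3, 4, 0, true⟩))),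
    (2, (.del 34 ⟨0, 1, 0, 0, 0⟩ ⟨0, 0, 0, 0, 0⟩ ⟨0, 12, 0, false⟩ ⟨9, 6, 0, false⟩))]
    [(23, (.s1 ⟨10, 0, 0, 0, 8⟩ (.s2 ⟨5, 0, 0, 0, 3⟩ (.swap (.rew 6 w37 ⟨3, 3, 0, false⟩ (.swap (.go 0 1 (.del 49 ⟨0, 1, 0, 0, 1⟩ ⟨0, 0, 0, 0, 0⟩ ⟨0, 12, 0, false⟩ ⟨0, 5, 0, false⟩))))) (.s2 ⟨5, 0, 0, 0, 4⟩ (.go 0 (-1) (.del 49 ⟨0, 1, 0, 0, 1⟩ ⟨0, 0, 0, 0, 0⟩ ⟨0, 12, 0, false⟩ ⟨3, 3, 0, false⟩)) (.s2 ⟨6, 0, 0, 0, 2⟩ (.go 0 1 (.del 51 ⟨0, 1, 0, 0, 1⟩ ⟨0, 0, 0, 0, 0⟩ ⟨0, 12, 0, false⟩ ⟨9, 3, 0, true⟩)) (.go 0 (-1) (.del 51 ⟨0, 1, 0, 0, 1⟩ ⟨0, 0, 0, 0, 0⟩ ⟨0, 12, 0, false⟩ ⟨9, 3, 0, true⟩))))) (.s2 ⟨5, 0, 0, 0, 3⟩ (.swap (.rew 6 w20 ⟨3, 3, 0, false⟩ (.go 1 (-1) (.del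 18 ⟨0, 0, 0, 0, 0⟩ ⟨0, 0, 0, 0, 0⟩ ⟨0, 13, 0, false⟩ ⟨3, 6, 0, false⟩)))) (.s2 ⟨5, 0, 0, 0, 4⟩ (.swap (.go (-1) (-1) (.del 18 ⟨0, 0, 0, 0, 0⟩ ⟨0, 0, 0, 0, 0⟩ ⟨3, 3, 0, false⟩ ⟨3, 6, 0, false⟩))) (.s2 ⟨6, 0, 0, 0, 3⟩ (.swap (.go 1 (-1) (.del 18 ⟨0, 0, 0, 0, 0⟩ ⟨0, 0, 0, 0, 0⟩ ⟨9, 3, 7, false⟩ ⟨3, 6, 0, false⟩))) (.go (-1) 0 (.del 17 ⟨3, 0, 0, 0, 4⟩ ⟨0, 0, 0, 0, 0⟩ ⟨3, 6, 0, true⟩ ⟨9, 3, 3, true⟩)))))))]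
    []
    (.del 43 ⟨0, 1, 0, 0, 1⟩ ⟨0, 0, 0, 0, 0⟩ ⟨0, 12, 0, false⟩ ⟨0, 15, 0, false⟩)

theorem k42 : chkC env c42 p42 = true := by decide +kernel

def p43 : Pf :=
  .cover [(8, (.sx ⟨3, 0, 0, 0, 3⟩ (.del 42 ⟨0, 1, 0, 0, 0⟩ ⟨0, 0, 0, 0, 0⟩ ⟨0, 12, 0, false⟩ ⟨0, 15, 0, false⟩) (.swap (.del 19 ⟨0, 0, 0, 0, 0⟩ ⟨0, 0, 0, 0, 0⟩ ⟨3, 9, 0, false⟩ ⟨3, 6, 0, false⟩)))),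
    (80, (.sx ⟨3, 0, 0, 0, 3⟩ (.del 42 ⟨0, 1, 0, 0, 0⟩ ⟨0, 0, 0, 0, 0⟩ ⟨0, 12, 0, false⟩ ⟨0, 15, 0, false⟩) (.swap (.del 19 ⟨0, 0, 0, 0, 0⟩ ⟨0, 0, 0, 0, 0⟩ ⟨3, 9, 0, false⟩ ⟨3, 6, 0, false⟩)))),
    (81, (.sx ⟨3, 0, 0, 0, 3⟩ (.del 42 ⟨0, 1, 0, 0, 0⟩ ⟨0, 0, 0, 0, 0⟩ ⟨0, 12, 0, false⟩ ⟨0, 15, 0, false⟩) (.s2 ⟨7, 0, 0, 0, 12⟩ (.swap (.del 18 ⟨0, 0, 0, 0, 0⟩ ⟨0, 0, 0, 0, 0⟩ ⟨9, 3, 7, false⟩ ⟨3, 6, 0, false⟩)) (.swap (.del 21 ⟨0, 0, 0, 0, 0⟩ ⟨0, 0, 0, 0, 0⟩ ⟨12, 3, 9, true⟩ ⟨3, 6, 0, false⟩)))))]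
    [(21, (.sx ⟨3, 0, 0, 0, 3⟩ (.del 42 ⟨0, 1, 0, 0, 0⟩ ⟨0, 0, 0, 0, 0⟩ ⟨0, 12, 0, false⟩ ⟨0, 15, 0, false⟩) (.s2 ⟨7, 0, 0, 0, 12⟩ (.swap (.del 19 ⟨0, 0, 0, 0, 0⟩ ⟨0, 0, 0, 0, 0⟩ ⟨3, 9, 0, false⟩ ⟨3, 6, 0, false⟩)) (.sj ⟨1, 0, 0, 0, 7⟩ .empty (.swap (.del 21 ⟨0, 0, 0, 0, 0⟩ ⟨0, 0, 0, 0, 0⟩ ⟨12, 3, 9, true⟩ ⟨3, 6, 0, false⟩))))))]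
    (.sx ⟨3, 0, 0, 0, 3⟩ (.del 42 ⟨0, 1, 0, 0, 0⟩ ⟨0, 0, 0, 0, 0⟩ ⟨0, 12, 0, false⟩ ⟨0, 15, 0, false⟩) (.swap (.del 27 ⟨0, 0, 0, 0, 0⟩ ⟨0, 0, 0, 0, 0⟩ ⟨0, 12, 0, false⟩ ⟨3, 6, 0, false⟩)))

theorem k43 : chkC env c43 p43 = true := by decide +kernel

def p53 : Pf :=
  .cover [(97, (.sx ⟨3, 0, 0, 0, 3⟩ (.del 52 ⟨0, 1, 0, 0, 0⟩ ⟨0, 0, 0, 0, 0⟩ ⟨0, 12, 0, false⟩ ⟨0, 12, 0, false⟩) (.rot (.swap (.del 25 ⟨0, 0, 0, 0, 0⟩ ⟨0, 0, 0, 0, 0⟩ ⟨0, 9, 0, false⟩ ⟨9, 3, 0, false⟩))))),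
    (98, (.sx ⟨3, 0, 0, 0, 3⟩ (.del 52 ⟨0, 1, 0, 0, 0⟩ ⟨0, 0, 0, 0, 0⟩ ⟨0, 12, 0, false⟩ ⟨0, 12, 0, false⟩) (.s2 ⟨6, 0, 0, 0, 6⟩ (.rot (.swap (.del 25 ⟨0, 0, 0, 0, 0⟩ ⟨0, 0, 0, 0, 0⟩ ⟨0, 9, 0, false⟩ ⟨9, 3, 0, false⟩))) (.rot (.swap (.del 11 ⟨0, 0, 0, 0, 0⟩ ⟨0, 0, 0, 0, 0⟩ ⟨9, 3, 3, true⟩ ⟨9, 3, 0, false⟩))))))]
    [(46, (.sx ⟨3, 0, 0, 0, 3⟩ (.del 52 ⟨0, 1, 0, 0, 0⟩ ⟨0, 0, 0, 0, 0⟩ ⟨0, 12, 0, false⟩ ⟨0, 12, 0, false⟩) (.s2 ⟨6, 0, 0, 0, 6⟩ (.rot (.swap (.del 25 ⟨0, 0, 0, 0, 0⟩ ⟨0, 0, 0, 0, 0⟩ ⟨0, 9, 0, false⟩ ⟨9, 3, 0, false⟩))) (.sj ⟨2, 0, 0, 0, 4⟩ .empty (.rot (.swap (.del 11 ⟨0, 0, 0, 0, 0⟩ ⟨0, 0, 0, 0, 0⟩ ⟨9, 3, 3, true⟩ ⟨9, 3, 0, false⟩)))))))]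
    (.sx ⟨3, 0, 0, 0, 3⟩ (.del 52 ⟨0, 1, 0, 0, 0⟩ ⟨0, 0, 0, 0, 0⟩ ⟨0, 12, 0, false⟩ ⟨0, 12, 0, false⟩) (.swap (.del 4 ⟨0, 0, 0, 0, 0⟩ ⟨0, 0, 0, 0, 0⟩ ⟨0, 9, 3, true⟩ ⟨3, 6, 0, false⟩)))

theorem k53 : chkC env c53 p53 = true := by decide +kernel

def p73 : Pf :=
  .step []
    [(5, [⟨14, 0, 0, 0, 25⟩]),
    (18, [⟨9, 0, 0, 0, 14⟩]),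
    (113, [⟨9, 0, 0, 0, 15⟩]),
    (114, [⟨9, 0, 0, 0, 16⟩]),
    (115, [⟨9, 0, 0, 0, 17⟩]),
    (116, [⟨9, 0, 0, 0, 18⟩]),
    (117, [⟨9, 0, 0, 0, 19⟩]),
    (118, [⟨14, 0, 0, 0, 24⟩])]
    [18, 5]
    [(113, (.cap 16)),
    (114, (.cap 17)),
    (115, (.cap 18)),
    (116, (.cap 19)),
    (118, (.cap 21))]
    []
    [(5, (.swap (.cap 5))),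
    (18, (.cap 15))]
    []
    []
    (.cap 20)

theorem k73 : chkC env c73 p73 = true := by decide +kernel

def p47 : Pf :=
  .cover [(81, (.sx ⟨3, 0, 0, 0, 3⟩ (.del 46 ⟨0, 1, 0, 0, 0⟩ ⟨0, 0, 0, 0, 0⟩ ⟨0, 12, 0, false⟩ ⟨0, 12, 0, false⟩) (.s2 ⟨3, 0, 0, 0, 8⟩ (.swap (.del 18 ⟨0, 0, 0, 0, 0⟩ ⟨0, 0, 0, 0, 0⟩ ⟨6, 3, 7, false⟩ ⟨3, 6, 0, false⟩)) (.swap (.del 20 ⟨0, 0, 0, 0, 0⟩ ⟨0, 0, 0, 0, 0⟩ ⟨9, 3, 0, true⟩ ⟨3, 6, 0, false⟩)))))]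
    [(21, (.sx ⟨3, 0, 0, 0, 3⟩ (.del 46 ⟨0, 1, 0, 0, 0⟩ ⟨0, 0, 0, 0, 0⟩ ⟨0, 12, 0, false⟩ ⟨0, 12, 0, false⟩) (.s2 ⟨3, 0, 0, 0, 8⟩ (.swap (.del 19 ⟨0, 0, 0, 0, 0⟩ ⟨0, 0, 0, 0, 0⟩ ⟨0, 9, 0, false⟩ ⟨3, 6, 0, false⟩)) (.sj ⟨1, 0, 0, 0, 7⟩ .empty (.swap (.del 20 ⟨0, 0, 0, 0, 0⟩ ⟨0, 0, 0, 0, 0⟩ ⟨9, 3, 0, true⟩ ⟨3, 6, 0, false⟩))))))]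
    (.sx ⟨3, 0, 0, 0, 3⟩ (.del 42 ⟨0, 1, 0, 0, 0⟩ ⟨0, 0, 0, 0, 0⟩ ⟨0, 12, 0, false⟩ ⟨0, 9, 3, false⟩) (.swap (.del 19 ⟨0, 0, 0, 0, 0⟩ ⟨0, 0, 0, 0, 0⟩ ⟨0, 9, 0, false⟩ ⟨3, 6, 0, false⟩)))

theorem k47 : chkC env c47 p47 = true := by decide +kernel

def p14 : Pf :=
  .step []
    [(8, [⟨4, 0, 0, 0, 3⟩]),
    (9, [⟨3, 0, 0, 0, 2⟩]),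
    (82, [⟨4, 0, 0, 0, 2⟩]),
    (83, [⟨3, 0, 0, 0, 3⟩])]
    [8, 9]
    []
    []
    [(8, (.sx ⟨0, 0, 0, 0, 1⟩ (.del 13 ⟨0, 1, 0, 0, 0⟩ ⟨0, 0, 0, 0, 0⟩ ⟨0, 6, 0, false⟩ ⟨0, 6, 0, false⟩) (.s1 ⟨4, -1, 0, 0, 3⟩ (.del 13 ⟨0, 1, 0, 0, 0⟩ ⟨0, 0, 0, 0, 0⟩ ⟨0, 6, 0, false⟩ ⟨0, 6, 0, false⟩) (.del 13 ⟨0, 1, 0, 0, -1⟩ ⟨0, 0, 0, 0, 0⟩ ⟨0, 6, 0, false⟩ ⟨0, 6, 0, false⟩)))),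
    (9, (.swap (.cap 8)))]
    []
    []
    (.swap (.del 9 ⟨0, 0, 0, 0, 0⟩ ⟨0, 0, 0, 0, 0⟩ ⟨0, 9, 0, false⟩ ⟨0, 6, 0, false⟩))

theorem k14 : chkC env c14 p14 = true := by decide +kernel

def p8 : Pf :=
  .step []
    [(0, [⟨6, 0, 0, 0, 11⟩]),
    (4, [⟨3, 0, 0, 0, 7⟩]),
    (68, [⟨6, 0, 0, 0, 10⟩]),
    (69, [⟨3, 0, 0, 0, 8⟩])]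
    [0, 4]
    [(68, (.sx ⟨0, 0, 0, 0, 1⟩ (.del 6 ⟨0, 1, 0, 0, 0⟩ ⟨0, 0, 0, 0, 0⟩ ⟨0, 6, 0, false⟩ ⟨0, 3, 0, false⟩) (.del 6 ⟨0, 1, 0, 0, -1⟩ ⟨0, 0, 0, 0, 0⟩ ⟨0, 6, 0, false⟩ ⟨0, 3, 0, false⟩)))]
    []
    [(0, (.del 6 ⟨0, 1, 0, 0, 0⟩ ⟨0, 0, 0, 0, 0⟩ ⟨0, 6, 0, false⟩ ⟨0, 3, 0, false⟩)),
    (4, (.cap 3))]
    []
    []
    (.sx ⟨0, 0, 0, 0, 1⟩ (.cap 4) (.del 8 ⟨0, 1, 0, 0, -1⟩ ⟨0, 0, 0, 0, 0⟩ ⟨0, 6, 0, false⟩ ⟨0, 13, 0, false⟩))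

theorem k8 : chkC env c8 p8 = true := by decide +kernel

def p94 : Pf :=
  .one [(129, (.s1 ⟨1, 0, 0, 0, 5⟩ (.del 93 ⟨0, 0, 0, 0, 0⟩ ⟨0, 0, 0, 0, 0⟩ ⟨0, 21, 0, false⟩ ⟨0, 21, 0, false⟩) (.go (-1) 0 (.del 93 ⟨0, 0, 0, 0, 0⟩ ⟨0, 0, 0, 0, 0⟩ ⟨0, 21, 0, false⟩ ⟨0, 21, 0, false⟩))))]
    [(65, (.swap (.go 0 (-1) (.del 76 ⟨0, 0, 0, 0, 0⟩ ⟨0, 0, 0, 0, 0⟩ ⟨6, 15, 0, true⟩ ⟨0, 21, 0, false⟩)))),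
    (78, (.go (-1) 0 (.del 92 ⟨0, 0, 0, 0, 0⟩ ⟨0, 0, 0, 0, 0⟩ ⟨0, 21, 0, true⟩ ⟨0, 21, 0, false⟩))),
    (172, (.s1 ⟨1, 0, 0, 0, 5⟩ (.cap 7) (.go (-1) 0 (.cap 7)))),
    (228, (.s2 ⟨8, 0, 0, 0, 16⟩ (.rot (.go (-1) 1 (.del 76 ⟨0, 0, 0, 0, 0⟩ ⟨0, 0, 0, 0, 0⟩ ⟨6, 15, 0, true⟩ ⟨0, 21, 0, false⟩))) (.rot (.go (-1) (-1) (.del 76 ⟨0, 0, 0, 0, 0⟩ ⟨0, 0, 0, 0, 0⟩ ⟨6, 15, 0, true⟩ ⟨0, 21, 0, false⟩))))),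
    (236, (.rot (.swap (.go 0 (-1) (.del 89 ⟨0, 0, 0, 0, 0⟩ ⟨0, 0, 0, 0, 0⟩ ⟨0, 21, 0, true⟩ ⟨6, 4, 0, false⟩)))))]

theorem k94 : chkC env c94 p94 = true := by decide +kernel

def p49 : Pf :=
  .cover [(83, (.sx ⟨3, 0, 0, 0, 3⟩ (.del 48 ⟨0, 1, 0, 0, 0⟩ ⟨0, 0, 0, 0, 0⟩ ⟨0, 12, 0, false⟩ ⟨0, 5, 0, false⟩) (.swap (.del 9 ⟨0, 0, 0, 0, 0⟩ ⟨0, 0, 0, 0, 0⟩ ⟨0, 5, 8, true⟩ ⟨3, 3, 0, false⟩))))]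
    []
    (.sx ⟨3, 0, 0, 0, 3⟩ (.del 48 ⟨0, 1, 0, 0, 0⟩ ⟨0, 0, 0, 0, 0⟩ ⟨0, 12, 0, false⟩ ⟨0, 5, 0, false⟩) (.swap (.del 18 ⟨0, 0, 0, 0, 0⟩ ⟨0, 0, 0, 0, 0⟩ ⟨0, 5, 0, false⟩ ⟨3, 6, 0, false⟩)))

theorem k49 : chkC env c49 p49 = true := by decide +kernel

def p102 : Pf :=
  .step []
    [(13, [⟨4, 0, 0, 0, 1⟩]),
    (97, [⟨4, 0, 0, 0, 2⟩]),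
    (98, [⟨7, 0, 0, 0, 4⟩]),
    (125, [⟨7, 0, 0, 0, 5⟩])]
    [13, 125]
    [(98, (.cap 9))]
    []
    [(13, (.cap 7)),
    (125, (.swap (.cap 6)))]
    []
    []
    (.cap 8)

theorem k102 : chkC env c102 p102 = true := by decide +kernel

def p101 : Pf :=
  .step []
    [(12, [⟨3, 0, 0, 0, 4⟩]),
    (13, [⟨5, 0, 0, 0, 5⟩]),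
    (95, [⟨3, 0, 0, 0, 5⟩]),
    (96, [⟨5, 0, 0, 0, 4⟩])]
    [12, 13]
    [(96, (.cap 4))]
    []
    [(12, (.cap 2)),
    (13, (.swap (.cap 3)))]
    []
    []
    (.cap 3)

theorem k101 : chkC env c101 p101 = true := by decide +kernel

def p71 : Pf :=
  .step [⟨4, 0, 0, 0, 6⟩]
    []
    [3, 91]
    []
    []
    [(3, (.sx ⟨0, 0, 0, 0, 1⟩ (.swap (.del 31 ⟨-3, 0, 0, 0, -4⟩ ⟨0, 0, 0, 0, 0⟩ ⟨0, 3, 3, false⟩ ⟨3, 3, 6, false⟩)) (.del 69 ⟨0, 1, 0, 0, -1⟩ ⟨0, 0, 0, 0, 0⟩ ⟨0, 3, 0, false⟩ ⟨0, 3, 0, false⟩))),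
    (91, (.swap (.del 31 ⟨-3, 0, 0, 0, -4⟩ ⟨0, 0, 0, 0, 0⟩ ⟨0, 3, 3, false⟩ ⟨3, 3, 6, false⟩)))]
    []
    []
    (.swap (.del 31 ⟨-3, 0, 0, 0, -4⟩ ⟨0, 0, 0, 0, 0⟩ ⟨0, 3, 3, false⟩ ⟨3, 3, 6, false⟩))

theorem k71 : chkC env c71 p71 = true := by decide +kernel

def p56 : Pf :=
  .step [⟨12, 1, 0, 0, 15⟩]
    []
    [12, 13]
    []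
    []
    [(12, (.del 30 ⟨0, 1, 0, 0, 0⟩ ⟨-1, 0, 0, 0, 0⟩ ⟨0, 12, 0, false⟩ ⟨0, 9, 6, false⟩)),
    (13, (.del 52 ⟨0, 1, 0, 0, 0⟩ ⟨0, 0, 0, 0, 0⟩ ⟨0, 12, 0, false⟩ ⟨0, 9, 0, false⟩))]
    []
    []
    (.del 57 ⟨0, 1, 0, 0, 1⟩ ⟨0, 0, 0, 0, 0⟩ ⟨0, 12, 0, false⟩ ⟨0, 9, 0, false⟩)

theorem k56 : chkC env c56 p56 = true := by decide +kernel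

def p81 : Pf :=
  .one [(114, (.go 0 (-1) (.del 79 ⟨0, 0, 0, 0, 0⟩ ⟨0, 0, 0, 0, 0⟩ ⟨0, 3, 0, false⟩ ⟨0, 3, 0, true⟩)))]
    [(70, (.del 79 ⟨0, 0, 0, 0, 0⟩ ⟨0, 0, 0, 0, 0⟩ ⟨0, 3, 0, false⟩ ⟨0, 3, 0, true⟩)),
    (71, (.swap (.go 0 (-1) (.del 80 ⟨0, 0, 0, 0, 0⟩ ⟨0, 0, 0, 0, 0⟩ ⟨1, 5, 0, false⟩ ⟨0, 2, 0, false⟩))))]

theorem k81 : chkC env c81 p81 = true := by decide +kernel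

end Pool.Agent.Lib.MP_1fc36f_co.H61
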