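import Pool.Agent.Lib.MP_1fc36f_co.H61Env

/-! Checked proofs of the claims. -/

namespace Pool.Agent.Lib.MP_1fc36f_co.H61

open Pool.Agent.Lib.MP_1fc36f_co.H45

def p125 : Pf :=
  .step []
    [(0, [⟨11, 0, 0, 0, 17⟩]),
    (1, [⟨11, 0, 0, 0, 18⟩]),
    (2, [⟨8, 0, 0, 0, 15⟩]),
    (3, [⟨8, 0, 0, 0, 16⟩]),
    (4, [⟨8, 0, 0, 0, 13⟩]),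
    (5, [⟨5, 0, 0, 0, 11⟩]),
    (6, [⟨11, 0, 0, 0, 23⟩]),
    (7, [⟨9, 0, 0, 0, 15⟩]),
    (8, [⟨10, 0, 0, 0, 23⟩]),
    (9, [⟨11, 0, 0, 0, 23⟩]),
    (10, [⟨11, 0, 0, 0, 23⟩]),
    (11, [⟨11, 0, 0, 0, 21⟩]),
    (12, [⟨7, 0, 0, 0, 13⟩]),
    (13, [⟨7, 0, 0, 0, 12⟩]),
    (14, [⟨9, 0, 0, 0, 13⟩]),
    (15, [⟨9, 0, 0, 0, 15⟩]),
    (16, [⟨9, 0, 0, 0, 13⟩]),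
    (17, [⟨0, 0, 0, 0, 3⟩]),
    (18, [⟨0, 0, 0, 0, 0⟩]),
    (19, [⟨0, 0, 0, 0, 3⟩]),
    (20, [⟨11, 0, 0, 0, 22⟩]),
    (21, [⟨11, 0, 0, 0, 23⟩]),
    (22, [⟨11, 0, 0, 0, 23⟩]),
    (23, [⟨11, 0, 0, 0, 23⟩]),
    (24, [⟨11, 0, 0, 0, 23⟩]),
    (25, [⟨11, 0, 0, 0, 23⟩]),
    (26, [⟨11, 0, 0, 0, 23⟩]),
    (27, [⟨11, 0, 0, 0, 23⟩]),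
    (28, [⟨11, 0, 0, 0, 23⟩]),
    (29, [⟨11, 0, 0, 0, 23⟩]),
    (30, [⟨11, 0, 0, 0, 23⟩]),
    (31, [⟨11, 0, 0, 0, 23⟩]),
    (32, [⟨11, 0, 0, 0, 23⟩]),
    (33, [⟨11, 0, 0, 0, 22⟩]),
    (34, [⟨11, 0, 0, 0, 23⟩]),
    (35, [⟨11, 0, 0, 0, 23⟩]),
    (36, [⟨9, 0, 0, 0, 14⟩]),
    (37, [⟨9, 0, 0, 0, 15⟩]),
    (38, [⟨9, 0, 0, 0, 15⟩]),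
    (39, [⟨9, 0, 0, 0, 16⟩]),
    (40, [⟨9, 0, 0, 0, 16⟩]),
    (41, [⟨9, 0, 0, 0, 15⟩]),
    (42, [⟨9, 0, 0, 0, 16⟩]),
    (43, [⟨9, 0, 0, 0, 16⟩]),
    (44, [⟨9, 0, 0, 0, 17⟩]),
    (45, [⟨9, 0, 0, 0, 15⟩]),
    (46, [⟨9, 0, 0, 0, 16⟩]),
    (47, [⟨9, 0, 0, 0, 15⟩]),
    (48, [⟨9, 0, 0, 0, 15⟩]),
    (49, [⟨9, 0, 0, 0, 14⟩]),
    (50, [⟨9, 0, 0, 0, 14⟩]),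
    (51, [⟨9, 0, 0, 0, 14⟩]),
    (52, [⟨0, 0, 0, 0, 1⟩]),
    (53, [⟨0, 0, 0, 0, 2⟩]),
    (54, [⟨0, 0, 0, 0, 4⟩]),
    (55, [⟨0, 0, 0, 0, 4⟩]),
    (56, [⟨0, 0, 0, 0, 3⟩]),
    (57, [⟨0, 0, 0, 0, 2⟩]),
    (58, [⟨0, 0, 0, 0, 3⟩]),
    (59, [⟨0, 0, 0, 0, 5⟩]),
    (60, [⟨0, 0, 0, 0, 4⟩]),
    (61, [⟨0, 0, 0, 0, 2⟩]),
    (62, [⟨0, 0, 0, 0, 3⟩]),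
    (63, [⟨0, 0, 0, 0, 4⟩]),
    (64, [⟨0, 0, 0, 0, 3⟩]),
    (65, [⟨0, 0, 0, 0, 1⟩]),
    (66, [⟨0, 0, 0, 0, 2⟩]),
    (67, [⟨0, 0, 0, 0, 4⟩]),
    (68, [⟨11, 0, 0, 0, 16⟩]),
    (69, [⟨8, 0, 0, 0, 14⟩]),
    (70, [⟨8, 0, 0, 0, 14⟩]),
    (71, [⟨5, 0, 0, 0, 12⟩]),
    (72, [⟨11, 0, 0, 0, 19⟩]),
    (73, [⟨11, 0, 0, 0, 23⟩]),
    (74, [⟨8, 0, 0, 0, 17⟩]),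
    (75, [⟨9, 0, 0, 0, 15⟩]),
    (76, [⟨11, 0, 0, 0, 19⟩]),
    (77, [⟨8, 0, 0, 0, 16⟩]),
    (78, [⟨11, 0, 0, 0, 19⟩]),
    (79, [⟨10, 0, 0, 0, 24⟩]),
    (80, [⟨10, 0, 0, 0, 22⟩]),
    (81, [⟨8, 0, 0, 0, 16⟩]),
    (82, [⟨10, 0, 0, 0, 24⟩]),
    (83, [⟨11, 0, 0, 0, 23⟩]),
    (84, [⟨11, 0, 0, 0, 23⟩]),
    (85, [⟨9, 0, 0, 0, 16⟩]),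
    (86, [⟨11, 0, 0, 0, 23⟩]),
    (87, [⟨11, 0, 0, 0, 23⟩]),
    (88, [⟨11, 0, 0, 0, 20⟩]),
    (89, [⟨9, 0, 0, 0, 16⟩]),
    (90, [⟨8, 0, 0, 0, 17⟩]),
    (91, [⟨9, 0, 0, 0, 12⟩]),
    (92, [⟨7, 0, 0, 0, 14⟩]),
    (93, [⟨7, 0, 0, 0, 12⟩]),
    (94, [⟨4, 0, 0, 0, 9⟩]),
    (95, [⟨7, 0, 0, 0, 14⟩]),
    (96, [⟨7, 0, 0, 0, 13⟩]),
    (97, [⟨7, 0, 0, 0, 11⟩]),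
    (98, [⟨4, 0, 0, 0, 9⟩]),
    (99, [⟨7, 0, 0, 0, 13⟩]),
    (100, [⟨9, 0, 0, 0, 12⟩]),
    (101, [⟨9, 0, 0, 0, 14⟩]),
    (102, [⟨5, 0, 0, 0, 10⟩]),
    (103, [⟨9, 0, 0, 0, 16⟩]),
    (104, [⟨9, 0, 0, 0, 16⟩]),
    (105, [⟨9, 0, 0, 0, 12⟩]),
    (106, [⟨5, 0, 0, 0, 10⟩]),
    (107, [⟨8, 0, 0, 0, 14⟩]),
    (108, [⟨5, 0, 0, 0, 12⟩]),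
    (109, [⟨5, 0, 0, 0, 12⟩]),
    (110, [⟨1, 0, 0, 0, 5⟩]),
    (111, [⟨0, 0, 0, 0, 4⟩]),
    (112, [⟨8, 0, 0, 0, 12⟩]),
    (113, [⟨0, 0, 0, 0, 1⟩]),
    (114, [⟨0, 0, 0, 0, 2⟩]),
    (115, [⟨0, 0, 0, 0, 3⟩]),
    (116, [⟨0, 0, 0, 0, 4⟩]),
    (117, [⟨0, 0, 0, 0, 5⟩]),
    (118, [⟨5, 0, 0, 0, 10⟩]),
    (119, [⟨0, 0, 0, 0, 4⟩]),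
    (120, [⟨1, 0, 0, 0, 3⟩]),
    (121, [⟨11, 0, 0, 0, 23⟩]),
    (122, [⟨11, 0, 0, 0, 22⟩]),
    (123, [⟨9, 0, 0, 0, 14⟩]),
    (124, [⟨9, 0, 0, 0, 14⟩]),
    (125, [⟨4, 0, 0, 0, 8⟩]),
    (126, [⟨4, 0, 0, 0, 9⟩]),
    (127, [⟨7, 0, 0, 0, 15⟩]),
    (128, [⟨7, 0, 0, 0, 16⟩]),
    (129, [⟨1, 0, 0, 0, 4⟩]),
    (130, [⟨4, 0, 0, 0, 11⟩]),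
    (131, [⟨5, 0, 0, 0, 9⟩]),
    (132, [⟨8, 0, 0, 0, 15⟩]),
    (133, [⟨5, 0, 0, 0, 9⟩]),
    (134, [⟨6, 0, 0, 0, 10⟩]),
    (135, [⟨6, 0, 0, 0, 8⟩]),
    (136, [⟨6, 0, 0, 0, 11⟩]),
    (137, [⟨10, 0, 0, 0, 16⟩]),
    (138, [⟨11, 0, 0, 0, 23⟩]),
    (139, [⟨10, 0, 0, 0, 16⟩]),
    (140, [⟨10, 0, 0, 0, 14⟩]),
    (141, [⟨10, 0, 0, 0, 17⟩]),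
    (142, [⟨9, 0, 0, 0, 14⟩]),
    (143, [⟨9, 0, 0, 0, 17⟩]),
    (144, [⟨9, 0, 0, 0, 14⟩]),
    (145, [⟨6, 0, 0, 0, 10⟩]),
    (146, [⟨6, 0, 0, 0, 9⟩]),
    (147, [⟨6, 0, 0, 0, 9⟩]),
    (148, [⟨6, 0, 0, 0, 10⟩]),
    (149, [⟨6, 0, 0, 0, 10⟩]),
    (150, [⟨6, 0, 0, 0, 11⟩]),
    (151, [⟨6, 0, 0, 0, 11⟩]),
    (152, [⟨6, 0, 0, 0, 11⟩]),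
    (153, [⟨6, 0, 0, 0, 12⟩]),
    (154, [⟨6, 0, 0, 0, 12⟩]),
    (155, [⟨6, 0, 0, 0, 13⟩]),
    (156, [⟨6, 0, 0, 0, 11⟩]),
    (157, [⟨6, 0, 0, 0, 12⟩]),
    (158, [⟨6, 0, 0, 0, 12⟩]),
    (159, [⟨6, 0, 0, 0, 11⟩]),
    (160, [⟨6, 0, 0, 0, 10⟩]),
    (161, [⟨10, 0, 0, 0, 16⟩]),
    (162, [⟨10, 0, 0, 0, 15⟩]),
    (163, [⟨10, 0, 0, 0, 15⟩]),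
    (164, [⟨10, 0, 0, 0, 16⟩]),
    (165, [⟨10, 0, 0, 0, 16⟩]),
    (166, [⟨10, 0, 0, 0, 17⟩]),
    (167, [⟨10, 0, 0, 0, 17⟩]),
    (168, [⟨10, 0, 0, 0, 17⟩]),
    (169, [⟨10, 0, 0, 0, 18⟩]),
    (170, [⟨10, 0, 0, 0, 18⟩]),
    (171, [⟨10, 0, 0, 0, 19⟩]),
    (172, [⟨10, 0, 0, 0, 17⟩]),
    (173, [⟨10, 0, 0, 0, 18⟩]),
    (174, [⟨10, 0, 0, 0, 18⟩]),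
    (175, [⟨10, 0, 0, 0, 17⟩]),
    (176, [⟨10, 0, 0, 0, 16⟩]),
    (177, [⟨9, 0, 0, 0, 16⟩]),
    (178, [⟨9, 0, 0, 0, 15⟩]),
    (179, [⟨9, 0, 0, 0, 15⟩]),
    (180, [⟨9, 0, 0, 0, 16⟩]),
    (181, [⟨9, 0, 0, 0, 16⟩]),
    (182, [⟨9, 0, 0, 0, 17⟩]),
    (183, [⟨9, 0, 0, 0, 17⟩]),
    (184, [⟨9, 0, 0, 0, 17⟩]),
    (185, [⟨9, 0, 0, 0, 18⟩]),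
    (186, [⟨9, 0, 0, 0, 17⟩]),
    (187, [⟨9, 0, 0, 0, 17⟩]),
    (188, [⟨9, 0, 0, 0, 16⟩]),
    (189, [⟨9, 0, 0, 0, 16⟩]),
    (190, [⟨9, 0, 0, 0, 16⟩]),
    (191, [⟨9, 0, 0, 0, 15⟩]),
    (192, [⟨9, 0, 0, 0, 15⟩]),
    (193, [⟨4, 0, 0, 0, 7⟩]),
    (194, [⟨1, 0, 0, 0, 5⟩]),
    (195, [⟨7, 0, 0, 0, 14⟩]),
    (196, [⟨4, 0, 0, 0, 12⟩]),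
    (197, [⟨4, 0, 0, 0, 10⟩]),
    (198, [⟨5, 0, 0, 0, 8⟩]),
    (199, [⟨7, 0, 0, 0, 17⟩]),
    (200, [⟨8, 0, 0, 0, 15⟩]),
    (201, [⟨4, 0, 0, 0, 10⟩]),
    (202, [⟨7, 0, 0, 0, 14⟩]),
    (203, [⟨4, 0, 0, 0, 10⟩]),
    (204, [⟨5, 0, 0, 0, 8⟩]),
    (205, [⟨5, 0, 0, 0, 10⟩]),
    (206, [⟨7, 0, 0, 0, 16⟩]),
    (207, [⟨5, 0, 0, 0, 10⟩]),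
    (208, [⟨6, 0, 0, 0, 9⟩]),
    (209, [⟨5, 0, 0, 0, 10⟩]),
    (210, [⟨8, 0, 0, 0, 14⟩]),
    (211, [⟨5, 0, 0, 0, 10⟩]),
    (212, [⟨6, 0, 0, 0, 7⟩]),
    (213, [⟨6, 0, 0, 0, 12⟩]),
    (214, [⟨8, 0, 0, 0, 16⟩]),
    (215, [⟨7, 0, 0, 0, 17⟩]),
    (216, [⟨8, 0, 0, 0, 17⟩]),
    (217, [⟨10, 0, 0, 0, 15⟩]),
    (218, [⟨10, 0, 0, 0, 17⟩]),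
    (219, [⟨11, 0, 0, 0, 18⟩]),
    (220, [⟨10, 0, 0, 0, 17⟩]),
    (221, [⟨11, 0, 0, 0, 23⟩]),
    (222, [⟨11, 0, 0, 0, 23⟩]),
    (223, [⟨11, 0, 0, 0, 18⟩]),
    (224, [⟨11, 0, 0, 0, 23⟩]),
    (225, [⟨10, 0, 0, 0, 17⟩]),
    (226, [⟨8, 0, 0, 0, 16⟩]),
    (227, [⟨11, 0, 0, 0, 23⟩]),
    (228, [⟨8, 0, 0, 0, 16⟩]),
    (229, [⟨10, 0, 0, 0, 13⟩]),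
    (230, [⟨10, 0, 0, 0, 18⟩]),
    (231, [⟨11, 0, 0, 0, 23⟩]),
    (232, [⟨1, 0, 0, 0, 5⟩]),
    (233, [⟨4, 0, 0, 0, 10⟩]),
    (234, [⟨4, 0, 0, 0, 12⟩]),
    (235, [⟨8, 0, 0, 0, 14⟩]),
    (236, [⟨9, 0, 0, 0, 13⟩]),
    (237, [⟨1, 0, 0, 0, 5⟩]),
    (238, [⟨9, 0, 0, 0, 18⟩]),
    (239, [⟨9, 0, 0, 0, 19⟩]),
    (240, [⟨9, 0, 0, 0, 19⟩]),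
    (241, [⟨9, 0, 0, 0, 18⟩]),
    (242, [⟨9, 0, 0, 0, 17⟩]),
    (243, [⟨4, 0, 0, 0, 12⟩]),
    (244, [⟨9, 0, 0, 0, 13⟩]),
    (245, [⟨8, 0, 0, 0, 14⟩]),
    (246, [⟨6, 0, 0, 0, 9⟩]),
    (247, [⟨6, 0, 0, 0, 11⟩]),
    (248, [⟨10, 0, 0, 0, 15⟩]),
    (249, [⟨10, 0, 0, 0, 17⟩])]
    []
    [(5, (.swap (.del 77 ⟨0, 0, 0, 0, 0⟩ ⟨0, 0, 0, 0, 0⟩ ⟨0, 0, 0, false⟩ ⟨0, 21, 0, false⟩))),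
    (7, (.cap 16)),
    (9, (.cap 21)),
    (11, (.cap 19)),
    (12, (.swap (.del 115 ⟨0, 0, 0, 0, 0⟩ ⟨0, 0, 0, 0, 0⟩ ⟨0, 0, 0, false⟩ ⟨0, 21, 0, false⟩))),
    (13, (.swap (.del 115 ⟨0, 0, 0, 0, 0⟩ ⟨0, 0, 0, 0, 0⟩ ⟨0, 0, 0, false⟩ ⟨0, 21, 0, false⟩))),
    (14, (.swap (.del 115 ⟨0, 0, 0, 0, 0⟩ ⟨0, 0, 0, 0, 0⟩ ⟨0, 0, 0, false⟩ ⟨0, 21, 0, false⟩))),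
    (15, (.swap (.del 115 ⟨0, 0, 0, 0, 0⟩ ⟨0, 0, 0, 0, 0⟩ ⟨0, 0, 0, false⟩ ⟨0, 21, 0, false⟩))),
    (16, (.swap (.del 115 ⟨0, 0, 0, 0, 0⟩ ⟨0, 0, 0, 0, 0⟩ ⟨0, 0, 0, false⟩ ⟨0, 21, 0, false⟩))),
    (17, (.swap (.del 91 ⟨0, 0, 0, 0, 0⟩ ⟨0, 0, 0, 0, 0⟩ ⟨0, 0, 0, false⟩ ⟨0, 21, 0, false⟩))),
    (18, (.swap (.del 91 ⟨0, 0, 0, 0, 0⟩ ⟨0, 0, 0, 0, 0⟩ ⟨0, 0, 0, false⟩ ⟨0, 21, 0, false⟩))),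
    (19, (.del 92 ⟨0, 0, 0, 0, 0⟩ ⟨0, 0, 0, 0, 0⟩ ⟨0, 21, 0, true⟩ ⟨0, 0, 0, false⟩)),
    (36, (.swap (.del 115 ⟨0, 0, 0, 0, 0⟩ ⟨0, 0, 0, 0, 0⟩ ⟨0, 0, 0, false⟩ ⟨0, 21, 0, false⟩))),
    (37, (.swap (.del 115 ⟨0, 0, 0, 0, 0⟩ ⟨0, 0, 0, 0, 0⟩ ⟨0, 0, 0, false⟩ ⟨0, 21, 0, false⟩))),
    (38, (.swap (.del 115 ⟨0, 0, 0, 0, 0⟩ ⟨0, 0, 0, 0, 0⟩ ⟨0, 0, 0, false⟩ ⟨0, 21, 0, false⟩))),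
    (39, (.swap (.del 115 ⟨0, 0, 0, 0, 0⟩ ⟨0, 0, 0, 0, 0⟩ ⟨0, 0, 0, false⟩ ⟨0, 21, 0, false⟩))),
    (40, (.swap (.del 115 ⟨0, 0, 0, 0, 0⟩ ⟨0, 0, 0, 0, 0⟩ ⟨0, 0, 0, false⟩ ⟨0, 21, 0, false⟩))),
    (41, (.swap (.del 115 ⟨0, 0, 0, 0, 0⟩ ⟨0, 0, 0, 0, 0⟩ ⟨0, 0, 0, false⟩ ⟨0, 21, 0, false⟩))),
    (42, (.swap (.del 115 ⟨0, 0, 0, 0, 0⟩ ⟨0, 0, 0, 0, 0⟩ ⟨0, 0, 0, false⟩ ⟨0, 21, 0, false⟩))),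
    (43, (.swap (.del 115 ⟨0, 0, 0, 0, 0⟩ ⟨0, 0, 0, 0, 0⟩ ⟨0, 0, 0, false⟩ ⟨0, 21, 0, false⟩))),
    (44, (.swap (.del 115 ⟨0, 0, 0, 0, 0⟩ ⟨0, 0, 0, 0, 0⟩ ⟨0, 0, 0, false⟩ ⟨0, 21, 0, false⟩))),
    (45, (.swap (.del 115 ⟨0, 0, 0, 0, 0⟩ ⟨0, 0, 0, 0, 0⟩ ⟨0, 0, 0, false⟩ ⟨0, 21, 0, false⟩))),
    (46, (.swap (.del 115 ⟨0, 0, 0, 0, 0⟩ ⟨0, 0, 0, 0, 0⟩ ⟨0, 0, 0, false⟩ ⟨0, 21, 0, false⟩))),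
    (47, (.swap (.del 115 ⟨0, 0, 0, 0, 0⟩ ⟨0, 0, 0, 0, 0⟩ ⟨0, 0, 0, false⟩ ⟨0, 21, 0, false⟩))),
    (48, (.swap (.del 115 ⟨0, 0, 0, 0, 0⟩ ⟨0, 0, 0, 0, 0⟩ ⟨0, 0, 0, false⟩ ⟨0, 21, 0, false⟩))),
    (49, (.swap (.del 115 ⟨0, 0, 0, 0, 0⟩ ⟨0, 0, 0, 0, 0⟩ ⟨0, 0, 0, false⟩ ⟨0, 21, 0, false⟩))),
    (50, (.swap (.del 115 ⟨0, 0, 0, 0, 0⟩ ⟨0, 0, 0, 0, 0⟩ ⟨0, 0, 0, false⟩ ⟨0, 21, 0, false⟩))),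
    (51, (.swap (.del 115 ⟨0, 0, 0, 0, 0⟩ ⟨0, 0, 0, 0, 0⟩ ⟨0, 0, 0, false⟩ ⟨0, 21, 0, false⟩))),
    (52, (.swap (.del 91 ⟨0, 0, 0, 0, 0⟩ ⟨0, 0, 0, 0, 0⟩ ⟨0, 0, 0, false⟩ ⟨0, 21, 0, false⟩))),
    (53, (.swap (.del 91 ⟨0, 0, 0, 0, 0⟩ ⟨0, 0, 0, 0, 0⟩ ⟨0, 0, 0, false⟩ ⟨0, 21, 0, false⟩))),
    (54, (.del 92 ⟨0, 0, 0, 0, 0⟩ ⟨0, 0, 0, 0, 0⟩ ⟨0, 21, 0, true⟩ ⟨0, 0, 0, false⟩)),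
    (55, (.del 92 ⟨0, 0, 0, 0, 0⟩ ⟨0, 0, 0, 0, 0⟩ ⟨0, 21, 0, true⟩ ⟨0, 0, 0, false⟩)),
    (56, (.swap (.del 91 ⟨0, 0, 0, 0, 0⟩ ⟨0, 0, 0, 0, 0⟩ ⟨0, 0, 0, false⟩ ⟨0, 21, 0, false⟩))),
    (57, (.swap (.del 91 ⟨0, 0, 0, 0, 0⟩ ⟨0, 0, 0, 0, 0⟩ ⟨0, 0, 0, false⟩ ⟨0, 21, 0, false⟩))),
    (58, (.swap (.del 91 ⟨0, 0, 0, 0, 0⟩ ⟨0, 0, 0, 0, 0⟩ ⟨0, 0, 0, false⟩ ⟨0, 21, 0, false⟩))),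
    (59, (.del 92 ⟨0, 0, 0, 0, 0⟩ ⟨0, 0, 0, 0, 0⟩ ⟨0, 21, 0, true⟩ ⟨0, 0, 0, false⟩)),
    (60, (.del 92 ⟨0, 0, 0, 0, 0⟩ ⟨0, 0, 0, 0, 0⟩ ⟨0, 21, 0, true⟩ ⟨0, 0, 0, false⟩)),
    (61, (.swap (.del 91 ⟨0, 0, 0, 0, 0⟩ ⟨0, 0, 0, 0, 0⟩ ⟨0, 0, 0, false⟩ ⟨0, 21, 0, false⟩))),
    (62, (.swap (.del 91 ⟨0, 0, 0, 0, 0⟩ ⟨0, 0, 0, 0, 0⟩ ⟨0, 0, 0, false⟩ ⟨0, 21, 0, false⟩))),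
    (63, (.del 92 ⟨0, 0, 0, 0, 0⟩ ⟨0, 0, 0, 0, 0⟩ ⟨0, 21, 0, true⟩ ⟨0, 0, 0, false⟩)),
    (64, (.swap (.del 91 ⟨0, 0, 0, 0, 0⟩ ⟨0, 0, 0, 0, 0⟩ ⟨0, 0, 0, false⟩ ⟨0, 21, 0, false⟩))),
    (65, (.swap (.del 91 ⟨0, 0, 0, 0, 0⟩ ⟨0, 0, 0, 0, 0⟩ ⟨0, 0, 0, false⟩ ⟨0, 21, 0, false⟩))),
    (66, (.swap (.del 91 ⟨0, 0, 0, 0, 0⟩ ⟨0, 0, 0, 0, 0⟩ ⟨0, 0, 0, false⟩ ⟨0, 21, 0, false⟩))),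
    (67, (.del 92 ⟨0, 0, 0, 0, 0⟩ ⟨0, 0, 0, 0, 0⟩ ⟨0, 21, 0, true⟩ ⟨0, 0, 0, false⟩)),
    (71, (.swap (.del 77 ⟨0, 0, 0, 0, 0⟩ ⟨0, 0, 0, 0, 0⟩ ⟨0, 0, 0, false⟩ ⟨0, 21, 0, false⟩))),
    (88, (.cap 18)),
    (89, (.cap 17)),
    (92, (.swap (.del 115 ⟨0, 0, 0, 0, 0⟩ ⟨0, 0, 0, 0, 0⟩ ⟨0, 0, 0, false⟩ ⟨0, 21, 0, false⟩))),
    (93, (.swap (.del 115 ⟨0, 0, 0, 0, 0⟩ ⟨0, 0, 0, 0, 0⟩ ⟨0, 0, 0, false⟩ ⟨0, 21, 0, false⟩))),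
    (94, (.swap (.del 115 ⟨0, 0, 0, 0, 0⟩ ⟨0, 0, 0, 0, 0⟩ ⟨0, 0, 0, false⟩ ⟨0, 21, 0, false⟩))),
    (95, (.swap (.del 115 ⟨0, 0, 0, 0, 0⟩ ⟨0, 0, 0, 0, 0⟩ ⟨0, 0, 0, false⟩ ⟨0, 21, 0, false⟩))),
    (96, (.swap (.del 115 ⟨0, 0, 0, 0, 0⟩ ⟨0, 0, 0, 0, 0⟩ ⟨0, 0, 0, false⟩ ⟨0, 21, 0, false⟩))),
    (97, (.swap (.del 115 ⟨0, 0, 0, 0, 0⟩ ⟨0, 0, 0, 0, 0⟩ ⟨0, 0, 0, false⟩ ⟨0, 21, 0, false⟩))),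
    (98, (.swap (.del 115 ⟨0, 0, 0, 0, 0⟩ ⟨0, 0, 0, 0, 0⟩ ⟨0, 0, 0, false⟩ ⟨0, 21, 0, false⟩))),
    (99, (.swap (.del 115 ⟨0, 0, 0, 0, 0⟩ ⟨0, 0, 0, 0, 0⟩ ⟨0, 0, 0, false⟩ ⟨0, 21, 0, false⟩))),
    (100, (.swap (.del 115 ⟨0, 0, 0, 0, 0⟩ ⟨0, 0, 0, 0, 0⟩ ⟨0, 0, 0, false⟩ ⟨0, 21, 0, false⟩))),
    (101, (.cap 15)),
    (102, (.cap 14)),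
    (103, (.swap (.del 115 ⟨0, 0, 0, 0, 0⟩ ⟨0, 0, 0, 0, 0⟩ ⟨0, 0, 0, false⟩ ⟨0, 21, 0, false⟩))),
    (104, (.swap (.del 115 ⟨0, 0, 0, 0, 0⟩ ⟨0, 0, 0, 0, 0⟩ ⟨0, 0, 0, false⟩ ⟨0, 21, 0, false⟩))),
    (105, (.swap (.del 115 ⟨0, 0, 0, 0, 0⟩ ⟨0, 0, 0, 0, 0⟩ ⟨0, 0, 0, false⟩ ⟨0, 21, 0, false⟩))),
    (106, (.swap (.del 115 ⟨0, 0, 0, 0, 0⟩ ⟨0, 0, 0, 0, 0⟩ ⟨0, 0, 0, false⟩ ⟨0, 21, 0, false⟩))),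
    (108, (.swap (.del 77 ⟨0, 0, 0, 0, 0⟩ ⟨0, 0, 0, 0, 0⟩ ⟨0, 0, 0, false⟩ ⟨0, 21, 0, false⟩))),
    (109, (.swap (.del 77 ⟨0, 0, 0, 0, 0⟩ ⟨0, 0, 0, 0, 0⟩ ⟨0, 0, 0, false⟩ ⟨0, 21, 0, false⟩))),
    (110, (.swap (.del 77 ⟨0, 0, 0, 0, 0⟩ ⟨0, 0, 0, 0, 0⟩ ⟨0, 0, 0, false⟩ ⟨0, 21, 0, false⟩))),
    (111, (.del 92 ⟨0, 0, 0, 0, 0⟩ ⟨0, 0, 0, 0, 0⟩ ⟨0, 21, 0, true⟩ ⟨0, 0, 0, false⟩)),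
    (113, (.swap (.del 77 ⟨0, 0, 0, 0, 0⟩ ⟨0, 0, 0, 0, 0⟩ ⟨0, 0, 0, false⟩ ⟨0, 21, 0, false⟩))),
    (114, (.swap (.del 77 ⟨0, 0, 0, 0, 0⟩ ⟨0, 0, 0, 0, 0⟩ ⟨0, 0, 0, false⟩ ⟨0, 21, 0, false⟩))),
    (115, (.swap (.del 77 ⟨0, 0, 0, 0, 0⟩ ⟨0, 0, 0, 0, 0⟩ ⟨0, 0, 0, false⟩ ⟨0, 21, 0, false⟩))),
    (116, (.swap (.del 77 ⟨0, 0, 0, 0, 0⟩ ⟨0, 0, 0, 0, 0⟩ ⟨0, 0, 0, false⟩ ⟨0, 21, 0, false⟩))),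
    (117, (.swap (.del 77 ⟨0, 0, 0, 0, 0⟩ ⟨0, 0, 0, 0, 0⟩ ⟨0, 0, 0, false⟩ ⟨0, 21, 0, false⟩))),
    (118, (.swap (.del 77 ⟨0, 0, 0, 0, 0⟩ ⟨0, 0, 0, 0, 0⟩ ⟨0, 0, 0, false⟩ ⟨0, 21, 0, false⟩))),
    (119, (.del 92 ⟨0, 0, 0, 0, 0⟩ ⟨0, 0, 0, 0, 0⟩ ⟨0, 21, 0, true⟩ ⟨0, 0, 0, false⟩)),
    (120, (.del 92 ⟨0, 0, 0, 0, 0⟩ ⟨0, 0, 0, 0, 0⟩ ⟨0, 21, 0, true⟩ ⟨0, 0, 0, false⟩)),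
    (122, (.cap 20)),
    (123, (.swap (.del 115 ⟨0, 0, 0, 0, 0⟩ ⟨0, 0, 0, 0, 0⟩ ⟨0, 0, 0, false⟩ ⟨0, 21, 0, false⟩))),
    (124, (.swap (.del 115 ⟨0, 0, 0, 0, 0⟩ ⟨0, 0, 0, 0, 0⟩ ⟨0, 0, 0, false⟩ ⟨0, 21, 0, false⟩))),
    (125, (.cap 9)),
    (126, (.cap 10)),
    (129, (.cap 6)),
    (131, (.cap 13)),
    (193, (.cap 8)),
    (194, (.cap 7)),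
    (197, (.cap 11)),
    (198, (.cap 12))]
    [(33, (.cap 17)),
    (37, (.swap (.del 115 ⟨0, 0, 0, 0, 0⟩ ⟨0, 0, 0, 0, 0⟩ ⟨0, 0, 0, false⟩ ⟨0, 21, 0, false⟩))),
    (40, (.swap (.del 115 ⟨0, 0, 0, 0, 0⟩ ⟨0, 0, 0, 0, 0⟩ ⟨0, 0, 0, false⟩ ⟨0, 21, 0, false⟩))),
    (43, (.swap (.del 115 ⟨0, 0, 0, 0, 0⟩ ⟨0, 0, 0, 0, 0⟩ ⟨0, 0, 0, false⟩ ⟨0, 21, 0, false⟩))),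
    (46, (.swap (.del 115 ⟨0, 0, 0, 0, 0⟩ ⟨0, 0, 0, 0, 0⟩ ⟨0, 0, 0, false⟩ ⟨0, 21, 0, false⟩))),
    (49, (.swap (.del 115 ⟨0, 0, 0, 0, 0⟩ ⟨0, 0, 0, 0, 0⟩ ⟨0, 0, 0, false⟩ ⟨0, 21, 0, false⟩))),
    (52, (.cap 14)),
    (55, (.swap (.del 115 ⟨0, 0, 0, 0, 0⟩ ⟨0, 0, 0, 0, 0⟩ ⟨0, 0, 0, false⟩ ⟨0, 21, 0, false⟩))),
    (58, (.swap (.del 115 ⟨0, 0, 0, 0, 0⟩ ⟨0, 0, 0, 0, 0⟩ ⟨0, 0, 0, false⟩ ⟨0, 21, 0, false⟩))),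
    (64, (.swap (.del 77 ⟨0, 0, 0, 0, 0⟩ ⟨0, 0, 0, 0, 0⟩ ⟨0, 0, 0, false⟩ ⟨0, 21, 0, false⟩))),
    (74, (.swap (.del 77 ⟨0, 0, 0, 0, 0⟩ ⟨0, 0, 0, 0, 0⟩ ⟨0, 0, 0, false⟩ ⟨0, 21, 0, false⟩))),
    (77, (.del 92 ⟨0, 0, 0, 0, 0⟩ ⟨0, 0, 0, 0, 0⟩ ⟨0, 21, 0, true⟩ ⟨0, 0, 0, false⟩)),
    (171, (.cap 7)),
    (177, (.cap 11))]
    []
    []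
    []
    (.swap (.del 124 ⟨0, 0, 0, 0, 0⟩ ⟨0, 0, 0, 0, 0⟩ ⟨0, 0, 0, false⟩ ⟨0, 21, 0, false⟩))

theorem k125 : chkC env c125 p125 = true := by decide +kernel

def p109 : Pf :=
  .step []
    [(3, [⟨6, 0, 0, 0, 12⟩]),
    (12, [⟨9, 0, 0, 0, 12⟩]),
    (13, [⟨9, 0, 0, 0, 13⟩]),
    (14, [⟨9, 0, 0, 0, 13⟩]),
    (15, [⟨9, 0, 0, 0, 11⟩]),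
    (16, [⟨9, 0, 0, 0, 13⟩]),
    (36, [⟨9, 0, 0, 0, 13⟩]),
    (37, [⟨9, 0, 0, 0, 12⟩]),
    (38, [⟨9, 0, 0, 0, 12⟩]),
    (39, [⟨9, 0, 0, 0, 13⟩]),
    (40, [⟨9, 0, 0, 0, 13⟩]),
    (41, [⟨9, 0, 0, 0, 13⟩]),
    (42, [⟨9, 0, 0, 0, 13⟩]),
    (43, [⟨9, 0, 0, 0, 13⟩]),
    (44, [⟨9, 0, 0, 0, 13⟩]),
    (45, [⟨9, 0, 0, 0, 13⟩]),
    (46, [⟨9, 0, 0, 0, 13⟩]),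
    (47, [⟨9, 0, 0, 0, 13⟩]),
    (48, [⟨9, 0, 0, 0, 13⟩]),
    (49, [⟨9, 0, 0, 0, 13⟩]),
    (50, [⟨9, 0, 0, 0, 13⟩]),
    (51, [⟨9, 0, 0, 0, 13⟩]),
    (90, [⟨6, 0, 0, 0, 13⟩]),
    (91, [⟨7, 0, 0, 0, 13⟩]),
    (92, [⟨9, 0, 0, 0, 11⟩]),
    (93, [⟨9, 0, 0, 0, 13⟩]),
    (94, [⟨9, 0, 0, 0, 13⟩]),
    (95, [⟨9, 0, 0, 0, 13⟩]),
    (96, [⟨9, 0, 0, 0, 13⟩]),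
    (97, [⟨9, 0, 0, 0, 13⟩]),
    (98, [⟨9, 0, 0, 0, 13⟩]),
    (99, [⟨9, 0, 0, 0, 13⟩]),
    (100, [⟨9, 0, 0, 0, 13⟩]),
    (123, [⟨9, 0, 0, 0, 12⟩]),
    (124, [⟨9, 0, 0, 0, 13⟩]),
    (125, [⟨9, 0, 0, 0, 13⟩])]
    [3, 15, 16, 125]
    [(14, (.cap 16)),
    (36, (.swap (.del 108 ⟨0, 0, 0, 0, 0⟩ ⟨0, 0, 0, 0, 0⟩ ⟨0, 17, 0, false⟩ ⟨0, 16, 0, false⟩))),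
    (37, (.swap (.del 108 ⟨0, 0, 0, 0, 0⟩ ⟨0, 0, 0, 0, 0⟩ ⟨0, 17, 0, false⟩ ⟨0, 16, 0, false⟩))),
    (38, (.swap (.del 108 ⟨0, 0, 0, 0, 0⟩ ⟨0, 0, 0, 0, 0⟩ ⟨0, 17, 0, false⟩ ⟨0, 16, 0, false⟩))),
    (39, (.swap (.del 108 ⟨0, 0, 0, 0, 0⟩ ⟨0, 0, 0, 0, 0⟩ ⟨0, 17, 0, false⟩ ⟨0, 16, 0, false⟩))),
    (40, (.swap (.del 108 ⟨0, 0, 0, 0, 0⟩ ⟨0, 0, 0, 0, 0⟩ ⟨0, 17, 0, false⟩ ⟨0, 16, 0, false⟩))),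
    (41, (.swap (.del 108 ⟨0, 0, 0, 0, 0⟩ ⟨0, 0, 0, 0, 0⟩ ⟨0, 17, 0, false⟩ ⟨0, 16, 0, false⟩))),
    (42, (.swap (.del 108 ⟨0, 0, 0, 0, 0⟩ ⟨0, 0, 0, 0, 0⟩ ⟨0, 17, 0, false⟩ ⟨0, 16, 0, false⟩))),
    (43, (.swap (.del 108 ⟨0, 0, 0, 0, 0⟩ ⟨0, 0, 0, 0, 0⟩ ⟨0, 17, 0, false⟩ ⟨0, 16, 0, false⟩))),
    (44, (.swap (.del 108 ⟨0, 0, 0, 0, 0⟩ ⟨0, 0, 0, 0, 0⟩ ⟨0, 17, 0, false⟩ ⟨0, 16, 0, false⟩))),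
    (45, (.swap (.del 108 ⟨0, 0, 0, 0, 0⟩ ⟨0, 0, 0, 0, 0⟩ ⟨0, 17, 0, false⟩ ⟨0, 16, 0, false⟩))),
    (46, (.swap (.del 108 ⟨0, 0, 0, 0, 0⟩ ⟨0, 0, 0, 0, 0⟩ ⟨0, 17, 0, false⟩ ⟨0, 16, 0, false⟩))),
    (47, (.swap (.del 108 ⟨0, 0, 0, 0, 0⟩ ⟨0, 0, 0, 0, 0⟩ ⟨0, 17, 0, false⟩ ⟨0, 16, 0, false⟩))),
    (48, (.swap (.del 108 ⟨0, 0, 0, 0, 0⟩ ⟨0, 0, 0, 0, 0⟩ ⟨0, 17, 0, false⟩ ⟨0, 16, 0, false⟩))),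
    (49, (.swap (.del 108 ⟨0, 0, 0, 0, 0⟩ ⟨0, 0, 0, 0, 0⟩ ⟨0, 17, 0, false⟩ ⟨0, 16, 0, false⟩))),
    (50, (.swap (.del 108 ⟨0, 0, 0, 0, 0⟩ ⟨0, 0, 0, 0, 0⟩ ⟨0, 17, 0, false⟩ ⟨0, 16, 0, false⟩))),
    (51, (.swap (.del 108 ⟨0, 0, 0, 0, 0⟩ ⟨0, 0, 0, 0, 0⟩ ⟨0, 17, 0, false⟩ ⟨0, 16, 0, false⟩))),
    (98, (.del 102 ⟨0, 0, 0, 0, 0⟩ ⟨0, 0, 0, 0, 0⟩ ⟨12, 4, 0, false⟩ ⟨9, 6, 0, true⟩)),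
    (123, (.cap 15)),
    (124, (.swap (.del 108 ⟨0, 0, 0, 0, 0⟩ ⟨0, 0, 0, 0, 0⟩ ⟨0, 17, 0, false⟩ ⟨0, 16, 0, false⟩)))]
    []
    [(3, (.cap 8)),
    (15, (.cap 14)),
    (16, (.swap (.cap 16))),
    (125, (.swap (.cap 9)))]
    []
    []
    (.swap (.del 106 ⟨0, 0, 0, 0, 0⟩ ⟨0, 0, 0, 0, 0⟩ ⟨9, 8, 0, true⟩ ⟨0, 16, 0, false⟩))

theorem k109 : chkC env c109 p109 = true := by decide +kernel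

def p10 : Pf :=
  .step [⟨4, 0, 0, 0, 8⟩]
    [(0, [⟨5, 0, 0, 0, 7⟩]),
    (1, [⟨5, 0, 0, 0, 8⟩]),
    (2, [⟨2, 0, 0, 0, 2⟩]),
    (4, [⟨2, 0, 0, 0, 3⟩]),
    (6, [⟨4, 0, 0, 0, 8⟩]),
    (8, [⟨4, 0, 0, 0, 8⟩]),
    (68, [⟨5, 0, 0, 0, 6⟩]),
    (69, [⟨2, 0, 0, 0, 4⟩]),
    (72, [⟨5, 0, 0, 0, 7⟩]),
    (73, [⟨4, 0, 0, 0, 9⟩]),
    (76, [⟨5, 0, 0, 0, 7⟩]),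
    (77, [⟨2, 0, 0, 0, 3⟩]),
    (78, [⟨5, 0, 0, 0, 7⟩]),
    (79, [⟨4, 0, 0, 0, 9⟩]),
    (80, [⟨4, 0, 0, 0, 7⟩]),
    (81, [⟨2, 0, 0, 0, 1⟩]),
    (218, [⟨2, 0, 0, 0, 3⟩]),
    (219, [⟨5, 0, 0, 0, 6⟩]),
    (222, [⟨2, 0, 0, 0, 4⟩]),
    (223, [⟨5, 0, 0, 0, 6⟩])]
    [2, 4, 6]
    [(0, (.swap (.del 6 ⟨6, 0, 0, 0, 8⟩ ⟨0, 0, 0, 0, 0⟩ ⟨0, 3, 0, true⟩ ⟨12, 3, 0, true⟩))),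
    (8, (.swap (.del 0 ⟨0, 0, 0, 0, 0⟩ ⟨0, 0, 0, 0, 0⟩ ⟨0, 6, 0, false⟩ ⟨9, 6, 0, true⟩))),
    (68, (.swap (.del 6 ⟨6, 0, 0, 0, 8⟩ ⟨0, 0, 0, 0, 0⟩ ⟨0, 3, 0, true⟩ ⟨12, 3, 0, true⟩))),
    (69, (.swap (.del 6 ⟨6, 0, 0, 0, 8⟩ ⟨0, 0, 0, 0, 0⟩ ⟨0, 3, 0, true⟩ ⟨12, 3, 0, true⟩))),
    (78, (.swap (.del 0 ⟨0, 0, 0, 0, 0⟩ ⟨0, 0, 0, 0, 0⟩ ⟨0, 6, 0, false⟩ ⟨9, 6, 0, true⟩))),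
    (79, (.swap (.del 0 ⟨0, 0, 0, 0, 0⟩ ⟨0, 0, 0, 0, 0⟩ ⟨0, 6, 0, false⟩ ⟨9, 6, 0, true⟩))),
    (80, (.swap (.del 0 ⟨0, 0, 0, 0, 0⟩ ⟨0, 0, 0, 0, 0⟩ ⟨0, 6, 0, false⟩ ⟨9, 6, 0, true⟩))),
    (81, (.swap (.del 0 ⟨0, 0, 0, 0, 0⟩ ⟨0, 0, 0, 0, 0⟩ ⟨0, 6, 0, false⟩ ⟨9, 6, 0, true⟩))),
    (219, (.swap (.del 6 ⟨6, 0, 0, 0, 8⟩ ⟨0, 0, 0, 0, 0⟩ ⟨0, 3, 0, true⟩ ⟨12, 3, 0, true⟩))),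
    (223, (.swap (.del 7 ⟨6, 0, 0, 0, 8⟩ ⟨0, 0, 0, 0, 0⟩ ⟨0, 3, 0, true⟩ ⟨12, 3, 0, true⟩)))]
    [(3, (.swap (.del 6 ⟨6, 0, 0, 0, 8⟩ ⟨0, 0, 0, 0, 0⟩ ⟨0, 3, 0, true⟩ ⟨12, 3, 0, true⟩))),
    (18, (.swap (.del 0 ⟨0, 0, 0, 0, 0⟩ ⟨0, 0, 0, 0, 0⟩ ⟨0, 6, 0, false⟩ ⟨9, 6, 0, true⟩))),
    (21, (.swap (.del 0 ⟨0, 0, 0, 0, 0⟩ ⟨0, 0, 0, 0, 0⟩ ⟨0, 6, 0, false⟩ ⟨9, 6, 0, true⟩))),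
    (208, (.swap (.del 6 ⟨6, 0, 0, 0, 8⟩ ⟨0, 0, 0, 0, 0⟩ ⟨0, 3, 0, true⟩ ⟨12, 3, 0, true⟩))),
    (214, (.swap (.del 7 ⟨6, 0, 0, 0, 8⟩ ⟨0, 0, 0, 0, 0⟩ ⟨0, 3, 0, true⟩ ⟨12, 3, 0, true⟩)))]
    [(2, (.swap (.cap 6))),
    (4, (.swap (.cap 0))),
    (6, (.cap 12))]
    [(23, (.s1 ⟨3, 0, 0, 0, 6⟩ (.go 0 (-1) (.del 9 ⟨0, 0, 0, 0, 0⟩ ⟨0, 0, 0, 0, 0⟩ ⟨0, 6, 0, false⟩ ⟨0, 6, 0, false⟩)) (.s1 ⟨3, 0, 0, 0, 7⟩ (.go (-1) (-1) (.del 9 ⟨0, 0, 0, 0, 0⟩ ⟨0, 0, 0, 0, 0⟩ ⟨0, 6, 0, false⟩ ⟨0, 6, 0, false⟩)) (.s1 ⟨4, 0, 0, 0, 6⟩ (.go 1 (-1) (.del 9 ⟨0, 0, 0, 0, 0⟩ ⟨0, 0, 0, 0, 0⟩ ⟨9, 6, 10, false⟩ ⟨0, 6, 0, false⟩)) (.go (-1) (-1) (.del 9 ⟨0, 0, 0, 0, 0⟩ ⟨0, 0, 0, 0, 0⟩ ⟨9, 6,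 10, false⟩ ⟨0, 6, 0, false⟩))))))]
    [(208, (.swap (.del 6 ⟨6, 0, 0, 0, 8⟩ ⟨0, 0, 0, 0, 0⟩ ⟨0, 3, 0, true⟩ ⟨12, 3, 0, true⟩))),
    (214, (.swap (.del 7 ⟨6, 0, 0, 0, 8⟩ ⟨0, 0, 0, 0, 0⟩ ⟨0, 3, 0, true⟩ ⟨12, 3, 0, true⟩)))]
    (.del 9 ⟨0, 0, 0, 0, 0⟩ ⟨0, 0, 0, 0, 0⟩ ⟨9, 6, 10, false⟩ ⟨0, 6, 0, false⟩)

theorem k10 : chkC env c10 p10 = true := by decide +kernel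

def p25 : Pf :=
  .step []
    [(0, [⟨7, 0, 0, 0, 5⟩]),
    (1, [⟨7, 0, 0, 0, 6⟩]),
    (2, [⟨4, 0, 0, 0, 0⟩]),
    (4, [⟨4, 0, 0, 0, 1⟩]),
    (6, [⟨6, 0, 0, 0, 6⟩]),
    (8, [⟨6, 0, 0, 0, 6⟩]),
    (68, [⟨7, 0, 0, 0, 4⟩]),
    (69, [⟨4, 0, 0, 0, 2⟩]),
    (72, [⟨7, 0, 0, 0, 5⟩]),
    (73, [⟨6, 0, 0, 0, 7⟩]),
    (76, [⟨7, 0, 0, 0, 5⟩]),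
    (77, [⟨4, 0, 0, 0, 1⟩]),
    (78, [⟨7, 0, 0, 0, 5⟩]),
    (79, [⟨6, 0, 0, 0, 7⟩]),
    (138, [⟨4, 0, 0, 0, 1⟩]),
    (218, [⟨4, 0, 0, 0, 1⟩]),
    (219, [⟨7, 0, 0, 0, 4⟩]),
    (222, [⟨4, 0, 0, 0, 2⟩]),
    (223, [⟨7, 0, 0, 0, 4⟩])]
    [2, 4, 6, 8, 138, 218]
    [(0, (.swap (.del 6 ⟨6, 0, 0, 0, 8⟩ ⟨0, 0, 0, 0, 0⟩ ⟨0, 3, 0, true⟩ ⟨9, 3, 0, true⟩))),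
    (68, (.swap (.del 6 ⟨6, 0, 0, 0, 8⟩ ⟨0, 0, 0, 0, 0⟩ ⟨0, 3, 0, true⟩ ⟨9, 3, 0, true⟩))),
    (69, (.swap (.del 24 ⟨0, 0, 0, 0, 0⟩ ⟨0, 0, 0, 0, 0⟩ ⟨0, 3, 0, true⟩ ⟨6, 6, 0, true⟩))),
    (77, (.del 64 ⟨0, 0, 0, 0, 0⟩ ⟨0, 0, 0, 0, 0⟩ ⟨7, 5, 0, false⟩ ⟨1, 5, 0, false⟩)),
    (78, (.swap (.del 0 ⟨0, 0, 0, 0, 0⟩ ⟨0, 0, 0, 0, 0⟩ ⟨0, 6, 0, false⟩ ⟨9, 3, 0, true⟩))),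
    (79, (.swap (.del 0 ⟨0, 0, 0, 0, 0⟩ ⟨0, 0, 0, 0, 0⟩ ⟨0, 6, 0, false⟩ ⟨9, 3, 0, true⟩))),
    (219, (.swap (.del 6 ⟨6, 0, 0, 0, 8⟩ ⟨0, 0, 0, 0, 0⟩ ⟨0, 3, 0, true⟩ ⟨9, 3, 0, true⟩))),
    (222, (.swap (.del 7 ⟨6, 0, 0, 0, 8⟩ ⟨0, 0, 0, 0, 0⟩ ⟨0, 3, 0, true⟩ ⟨6, 6, 0, true⟩))),
    (223, (.swap (.del 7 ⟨6, 0, 0, 0, 8⟩ ⟨0, 0, 0, 0, 0⟩ ⟨0, 3, 0, true⟩ ⟨6, 6, 0, true⟩)))]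
    [(3, (.swap (.del 24 ⟨0, 0, 0, 0, 0⟩ ⟨0, 0, 0, 0, 0⟩ ⟨0, 3, 0, true⟩ ⟨6, 6, 0, true⟩))),
    (15, (.del 64 ⟨0, 0, 0, 0, 0⟩ ⟨0, 0, 0, 0, 0⟩ ⟨7, 5, 0, false⟩ ⟨1, 5, 0, false⟩)),
    (18, (.swap (.del 0 ⟨0, 0, 0, 0, 0⟩ ⟨0, 0, 0, 0, 0⟩ ⟨0, 6, 0, false⟩ ⟨9, 3, 0, true⟩))),
    (208, (.swap (.del 24 ⟨0, 0, 0, 0, 0⟩ ⟨0, 0, 0, 0, 0⟩ ⟨0, 3, 0, true⟩ ⟨6, 6, 0, true⟩))),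
    (214, (.swap (.del 7 ⟨6, 0, 0, 0, 8⟩ ⟨0, 0, 0, 0, 0⟩ ⟨0, 3, 0, true⟩ ⟨6, 6, 0, true⟩)))]
    [(2, (.swap (.cap 6))),
    (4, (.swap (.cap 0))),
    (6, (.cap 9)),
    (8, (.swap (.del 0 ⟨0, 0, 0, 0, 0⟩ ⟨0, 0, 0, 0, 0⟩ ⟨0, 6, 0, false⟩ ⟨9, 3, 0, true⟩))),
    (138, (.rot (.del 4 ⟨0, 0, 0, 0, 0⟩ ⟨0, 0, 0, 0, 0⟩ ⟨0, 12, 0, true⟩ ⟨0, 0, 6, false⟩))),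
    (218, (.rot (.del 21 ⟨0, 0, 0, 0, 0⟩ ⟨0, 0, 0, 0, 0⟩ ⟨0, 12, 0, true⟩ ⟨0, 0, 6, false⟩)))]
    []
    []
    (.del 9 ⟨0, 0, 0, 0, 0⟩ ⟨0, 0, 0, 0, 0⟩ ⟨9, 3, 13, false⟩ ⟨0, 6, 0, false⟩)

theorem k25 : chkC env c25 p25 = true := by decide +kernel

def p11 : Pf :=
  .step [⟨4, 0, 0, 0, 6⟩]
    [(0, [⟨5, 0, 0, 0, 5⟩]),
    (1, [⟨5, 0, 0, 0, 6⟩]),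
    (2, [⟨2, 0, 0, 0, 0⟩]),
    (4, [⟨2, 0, 0, 0, 1⟩]),
    (6, [⟨4, 0, 0, 0, 6⟩]),
    (8, [⟨4, 0, 0, 0, 6⟩]),
    (68, [⟨5, 0, 0, 0, 4⟩]),
    (69, [⟨2, 0, 0, 0, 2⟩]),
    (72, [⟨5, 0, 0, 0, 5⟩]),
    (73, [⟨4, 0, 0, 0, 7⟩]),
    (76, [⟨5, 0, 0, 0, 5⟩]),
    (77, [⟨2, 0, 0, 0, 1⟩]),
    (78, [⟨5, 0, 0, 0, 5⟩]),
    (79, [⟨4, 0, 0, 0, 7⟩]),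
    (218, [⟨2, 0, 0, 0, 1⟩]),
    (219, [⟨5, 0, 0, 0, 4⟩]),
    (222, [⟨2, 0, 0, 0, 2⟩]),
    (223, [⟨5, 0, 0, 0, 4⟩])]
    [2, 4, 6, 8]
    [(0, (.swap (.del 6 ⟨6, 0, 0, 0, 8⟩ ⟨0, 0, 0, 0, 0⟩ ⟨0, 3, 0, true⟩ ⟨6, 3, 0, true⟩))),
    (68, (.swap (.del 6 ⟨6, 0, 0, 0, 8⟩ ⟨0, 0, 0, 0, 0⟩ ⟨0, 3, 0, true⟩ ⟨6, 3, 0, true⟩))),
    (69, (.swap (.del 6 ⟨6, 0, 0, 0, 8⟩ ⟨0, 0, 0, 0, 0⟩ ⟨0, 3, 0, true⟩ ⟨6, 3, 0, true⟩))),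
    (78, (.swap (.del 0 ⟨0, 0, 0, 0, 0⟩ ⟨0, 0, 0, 0, 0⟩ ⟨0, 6, 0, false⟩ ⟨6, 3, 0, true⟩))),
    (79, (.swap (.del 0 ⟨0, 0, 0, 0, 0⟩ ⟨0, 0, 0, 0, 0⟩ ⟨0, 6, 0, false⟩ ⟨6, 3, 0, true⟩))),
    (219, (.swap (.del 6 ⟨6, 0, 0, 0, 8⟩ ⟨0, 0, 0, 0, 0⟩ ⟨0, 3, 0, true⟩ ⟨6, 3, 0, true⟩))),
    (223, (.swap (.del 7 ⟨6, 0, 0, 0, 8⟩ ⟨0, 0, 0, 0, 0⟩ ⟨0, 3, 0, true⟩ ⟨6, 3, 0, true⟩)))]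
    [(3, (.swap (.del 6 ⟨6, 0, 0, 0, 8⟩ ⟨0, 0, 0, 0, 0⟩ ⟨0, 3, 0, true⟩ ⟨6, 3, 0, true⟩))),
    (18, (.swap (.del 0 ⟨0, 0, 0, 0, 0⟩ ⟨0, 0, 0, 0, 0⟩ ⟨0, 6, 0, false⟩ ⟨6, 3, 0, true⟩))),
    (208, (.swap (.del 6 ⟨6, 0, 0, 0, 8⟩ ⟨0, 0, 0, 0, 0⟩ ⟨0, 3, 0, true⟩ ⟨6, 3, 0, true⟩))),
    (214, (.swap (.del 7 ⟨6, 0, 0, 0, 8⟩ ⟨0, 0, 0, 0, 0⟩ ⟨0, 3, 0, true⟩ ⟨6, 3, 0, true⟩)))]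
    [(2, (.swap (.cap 6))),
    (4, (.swap (.cap 0))),
    (6, (.cap 6)),
    (8, (.swap (.del 0 ⟨0, 0, 0, 0, 0⟩ ⟨0, 0, 0, 0, 0⟩ ⟨0, 6, 0, false⟩ ⟨6, 3, 0, true⟩)))]
    []
    [(208, (.swap (.del 6 ⟨6, 0, 0, 0, 8⟩ ⟨0, 0, 0, 0, 0⟩ ⟨0, 3, 0, true⟩ ⟨6, 3, 0, true⟩))),
    (214, (.swap (.del 7 ⟨6, 0, 0, 0, 8⟩ ⟨0, 0, 0, 0, 0⟩ ⟨0, 3, 0, true⟩ ⟨6, 3, 0, true⟩)))]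
    (.del 9 ⟨0, 0, 0, 0, 0⟩ ⟨0, 0, 0, 0, 0⟩ ⟨6, 3, 13, false⟩ ⟨0, 6, 0, false⟩)

theorem k11 : chkC env c11 p11 = true := by decide +kernel

def p82 : Pf :=
  .step []
    [(5, [⟨0, 0, 0, 0, 0⟩]),
    (17, [⟨6, 0, 0, 0, 6⟩]),
    (18, [⟨5, 0, 0, 0, 11⟩]),
    (19, [⟨5, 0, 0, 0, 14⟩]),
    (52, [⟨5, 0, 0, 0, 12⟩]),
    (53, [⟨5, 0, 0, 0, 13⟩]),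
    (54, [⟨5, 0, 0, 0, 16⟩]),
    (55, [⟨5, 0, 0, 0, 15⟩]),
    (56, [⟨5, 0, 0, 0, 14⟩]),
    (57, [⟨5, 0, 0, 0, 13⟩]),
    (58, [⟨5, 0, 0, 0, 14⟩]),
    (59, [⟨5, 0, 0, 0, 16⟩]),
    (60, [⟨5, 0, 0, 0, 15⟩]),
    (61, [⟨5, 0, 0, 0, 13⟩]),
    (62, [⟨5, 0, 0, 0, 14⟩]),
    (63, [⟨5, 0, 0, 0, 15⟩]),
    (64, [⟨5, 0, 0, 0, 14⟩]),
    (65, [⟨5, 0, 0, 0, 12⟩]),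
    (66, [⟨5, 0, 0, 0, 13⟩]),
    (67, [⟨5, 0, 0, 0, 15⟩]),
    (113, [⟨5, 0, 0, 0, 10⟩]),
    (114, [⟨5, 0, 0, 0, 9⟩]),
    (115, [⟨5, 0, 0, 0, 8⟩]),
    (116, [⟨5, 0, 0, 0, 7⟩]),
    (117, [⟨5, 0, 0, 0, 6⟩]),
    (118, [⟨0, 0, 0, 0, 1⟩]),
    (119, [⟨5, 0, 0, 0, 15⟩]),
    (120, [⟨6, 0, 0, 0, 6⟩]),
    (129, [⟨6, 0, 0, 0, 6⟩])]
    [5, 17, 129]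
    [(114, (.del 81 ⟨0, 0, 0, 0, 0⟩ ⟨0, 0, 0, 0, 0⟩ ⟨0, 3, 0, false⟩ ⟨0, 6, 0, false⟩)),
    (115, (.swap (.del 80 ⟨0, 0, 0, 0, 0⟩ ⟨0, 0, 0, 0, 0⟩ ⟨1, 5, 0, false⟩ ⟨0, 2, 0, false⟩))),
    (116, (.swap (.del 80 ⟨0, 0, 0, 0, 0⟩ ⟨0, 0, 0, 0, 0⟩ ⟨1, 5, 0, false⟩ ⟨0, 2, 0, false⟩))),
    (117, (.swap (.del 80 ⟨0, 0, 0, 0, 0⟩ ⟨0, 0, 0, 0, 0⟩ ⟨1, 5, 0, false⟩ ⟨0, 2, 0, false⟩))),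
    (118, (.swap (.del 80 ⟨0, 0, 0, 0, 0⟩ ⟨0, 0, 0, 0, 0⟩ ⟨1, 5, 0, false⟩ ⟨0, 2, 0, false⟩))),
    (120, (.del 78 ⟨0, 0, 0, 0, 0⟩ ⟨0, 0, 0, 0, 0⟩ ⟨3, 0, 15, false⟩ ⟨0, 3, 0, true⟩))]
    [(74, (.swap (.del 80 ⟨0, 0, 0, 0, 0⟩ ⟨0, 0, 0, 0, 0⟩ ⟨1, 5, 0, false⟩ ⟨0, 2, 0, false⟩)))]
    [(5, (.cap 0)),
    (17, (.swap (.cap 3))),
    (129, (.cap 3))]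
    []
    []
    (.del 79 ⟨0, 0, 0, 0, 0⟩ ⟨0, 0, 0, 0, 0⟩ ⟨0, 3, 0, false⟩ ⟨0, 3, 0, true⟩)

theorem k82 : chkC env c82 p82 = true := by decide +kernel

def p79 : Pf :=
  .step [⟨6, 0, 0, 0, 6⟩]
    []
    [17, 118, 129]
    []
    []
    [(17, (.swap (.cap 0))),
    (118, (.swap (.del 75 ⟨0, 0, 0, 0, 0⟩ ⟨0, 0, 0, 0, 0⟩ ⟨0, 3, 0, false⟩ ⟨3, 15, 6, false⟩))),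
    (129, (.cap 3))]
    []
    []
    (.del 78 ⟨0, 0, 0, 0, 0⟩ ⟨0, 0, 0, 0, 0⟩ ⟨3, 15, 0, true⟩ ⟨0, 3, 0, false⟩)

theorem k79 : chkC env c79 p79 = true := by decide +kernel

def p35 : Pf :=
  .cover [(71, (.sx ⟨3, 0, 0, 0, 3⟩ (.del 34 ⟨0, 1, 0, 0, 0⟩ ⟨0, 0, 0, 0, 0⟩ ⟨0, 12, 0, false⟩ ⟨0, 12, 0, false⟩) (.s2 ⟨2, 0, 0, 0, 6⟩ (.del 16 ⟨0, 1, 0, 0, -1⟩ ⟨0, 0, 0, 0, 0⟩ ⟨3, 6, 0, true⟩ ⟨0, 3, 3, true⟩) (.swap (.del 21 ⟨0, 0, 0, 0, 0⟩ ⟨0, 0, 0, 0, 0⟩ ⟨3, 9, 3, true⟩ ⟨3, 6, 0, false⟩))))),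
    (91, (.sx ⟨3, 0, 0, 0, 3⟩ (.del 30 ⟨0, 1, 0, 0, 0⟩ ⟨-1, 0, 0, 0, 0⟩ ⟨0, 12, 0, false⟩ ⟨3, 9, 6, false⟩) (.swap (.del 21 ⟨0, 0, 0, 0, 0⟩ ⟨0, 0, 0, 0, 0⟩ ⟨3, 9, 3, true⟩ ⟨3, 6, 0, false⟩)))),
    (92, (.sx ⟨3, 0, 0, 0, 3⟩ (.del 30 ⟨0, 1, 0, 0, 0⟩ ⟨-1, 0, 0, 0, 0⟩ ⟨0, 12, 0, false⟩ ⟨3, 9, 6, false⟩) (.swap (.del 21 ⟨0, 0, 0, 0, 0⟩ ⟨0, 0, 0, 0, 0⟩ ⟨3, 9, 3, true⟩ ⟨3, 6, 0, false⟩))))]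
    [(37, (.sx ⟨3, 0, 0, 0, 3⟩ (.del 30 ⟨0, 1, 0, 0, 0⟩ ⟨-1, 0, 0, 0, 0⟩ ⟨0, 12, 0, false⟩ ⟨3, 9, 6, false⟩) (.swap (.del 21 ⟨0, 0, 0, 0, 0⟩ ⟨0, 0, 0, 0, 0⟩ ⟨3, 9, 3, true⟩ ⟨3, 6, 0, false⟩))))]
    (.sx ⟨3, 0, 0, 0, 3⟩ (.del 34 ⟨0, 1, 0, 0, 0⟩ ⟨0, 0, 0, 0, 0⟩ ⟨0, 12, 0, false⟩ ⟨0, 12, 0, false⟩) (.s2 ⟨2, 0, 0, 0, 6⟩ (.swap (.del 18 ⟨0, 0, 0, 0, 0⟩ ⟨0, 0, 0, 0, 0⟩ ⟨0, 3, 7, false⟩ ⟨3, 6, 0, false⟩)) (.swap (.del 21 ⟨0, 0, 0, 0, 0⟩ ⟨0, 0, 0, 0, 0⟩ ⟨3, 9, 3, true⟩ ⟨3, 6, 0, false⟩))))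

theorem k35 : chkC env c35 p35 = true := by decide +kernel

def p107 : Pf :=
  .step []
    [(12, [⟨2, 0, 0, 0, 1⟩]),
    (13, [⟨2, 0, 0, 0, 2⟩]),
    (90, [⟨-1, 0, 0, 0, 2⟩]),
    (91, [⟨0, 0, 0, 0, 2⟩]),
    (92, [⟨2, 0, 0, 0, 0⟩]),
    (93, [⟨2, 0, 0, 0, 2⟩]),
    (94, [⟨5, 0, 0, 0, 5⟩]),
    (95, [⟨2, 0, 0, 0, 0⟩]),
    (96, [⟨2, 0, 0, 0, 1⟩]),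
    (97, [⟨2, 0, 0, 0, 3⟩]),
    (98, [⟨5, 0, 0, 0, 5⟩]),
    (99, [⟨2, 0, 0, 0, 1⟩]),
    (100, [⟨0, 0, 0, 0, 2⟩]),
    (125, [⟨5, 0, 0, 0, 6⟩])]
    [3, 14, 126]
    [(98, (.swap (.del 103 ⟨0, 0, 0, 0, 0⟩ ⟨0, 0, 0, 0, 0⟩ ⟨0, 16, 0, false⟩ ⟨0, 8, 0, false⟩))),
    (125, (.cap 8))]
    []
    [(3, (.swap (.cap 8))),
    (14, (.swap (.cap 16))),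
    (126, (.cap 7))]
    [(170, (.rew 131 w78 ⟨4, 4, 0, false⟩ (.go 1 (-1) (.del 95 ⟨0, 0, 0, 0, 0⟩ ⟨0, 0, 0, 0, 0⟩ ⟨0, 7, 0, false⟩ ⟨0, 8, 0, false⟩))))]
    []
    (.del 106 ⟨0, 0, 0, 0, 0⟩ ⟨0, 0, 0, 0, 0⟩ ⟨0, 8, 0, false⟩ ⟨0, 16, 0, false⟩)

theorem k107 : chkC env c107 p107 = true := by decide +kernel

def p69 : Pf :=
  .step [⟨4, 0, 0, 0, 6⟩]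
    []
    [5, 7]
    [(71, (.sx ⟨0, 0, 0, 0, 1⟩ (.swap (.del 12 ⟨3, 0, 0, 0, 9⟩ ⟨0, 0, 0, 0, 0⟩ ⟨0, 3, 0, false⟩ ⟨3, 0, 3, false⟩)) (.s2 ⟨3, -1, 0, 0, 8⟩ (.swap (.del 12 ⟨0, 1, 0, 0, 0⟩ ⟨0, 0, 0, 0, 0⟩ ⟨0, 3, 0, false⟩ ⟨3, 0, 3, false⟩)) (.swap (.del 12 ⟨0, 1, 0, 0, -1⟩ ⟨0, 0, 0, 0, 0⟩ ⟨0, 3, 0, false⟩ ⟨3, 0, 3, false⟩)))))]
    []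
    [(5, (.swap (.cap 3))),
    (7, (.cap 3))]
    [(16, (.sx ⟨0, 0, 0, 0, 1⟩ (.swap (.swap (.rew 131 w52 ⟨0, 3, 0, false⟩ (.swap (.go 0 1 (.del 66 ⟨0, 0, 0, 0, 0⟩ ⟨0, 0, 0, 0, 0⟩ ⟨0, 3, 0, false⟩ ⟨0, 6, 0, false⟩)))))) (.rew 131 w52 ⟨0, 3, 0, false⟩ (.go 1 0 (.del 70 ⟨0, 1, 0, 0, -1⟩ ⟨0, 0, 0, 0, 0⟩ ⟨0, 6, 0, false⟩ ⟨0, 3, 0, false⟩))))),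
    (22, (.sx ⟨0, 0, 0, 0, 1⟩ (.swap (.swap (.rew 131 w53 ⟨0, 3, 0, false⟩ (.swap (.go 0 1 (.del 67 ⟨0, 0, 0, 0, 0⟩ ⟨0, 0, 0, 0, 0⟩ ⟨0, 3, 0, false⟩ ⟨0, 6, 0, false⟩)))))) (.rew 131 w53 ⟨0, 3, 0, false⟩ (.go 1 0 (.del 72 ⟨0, 1, 0, 0, -1⟩ ⟨0, 0, 0, 0, 0⟩ ⟨0, 6, 0, false⟩ ⟨0, 3, 0, false⟩))))),
    (35, (.sx ⟨0, 0, 0, 0, 1⟩ (.s2 ⟨3, 0, 0, 0, 6⟩ (.swap (.swap (.rew 131 w54 ⟨0, 3, 0, false⟩ (.swap (.go 1 1 (.del 68 ⟨0, 0, 0, 0, 0⟩ ⟨0, 0, 0, 0, 0⟩ ⟨0, 3, 0, false⟩ ⟨0, 6, 0, false⟩)))))) (.swap (.swap (.rew 131 w54 ⟨0, 3, 0, false⟩ (.swap (.go 0 1 (.del 68 ⟨0, 0, 0, 0, 0⟩ ⟨0, 0, 0, 0, 0⟩ ⟨0, 3, 0, false⟩ ⟨0, 6, 0, false⟩))))))) (.s2 ⟨3, 0, 0, 0, 6⟩ (.rew 131 w54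 ⟨0, 3, 0, false⟩ (.go 1 1 (.del 71 ⟨0, 1, 0, 0, -1⟩ ⟨0, 0, 0, 0, 0⟩ ⟨0, 6, 0, false⟩ ⟨0, 3, 0, false⟩))) (.rew 131 w54 ⟨0, 3, 0, false⟩ (.go 1 0 (.del 71 ⟨0, 1, 0, 0, -1⟩ ⟨0, 0, 0, 0, 0⟩ ⟨0, 6, 0, false⟩ ⟨0, 3, 0, false⟩))))))]
    []
    (.swap (.del 31 ⟨-3, 0, 0, 0, -4⟩ ⟨0, 0, 0, 0, 0⟩ ⟨0, 3, 3, false⟩ ⟨3, 0, 6, false⟩))

theorem k69 : chkC env c69 p69 = true := by decide +kernel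

def p0 : Pf :=
  .step []
    [(1, [⟨7, 0, 0, 0, 19⟩]),
    (2, [⟨6, 0, 0, 0, 11⟩]),
    (8, [⟨8, 0, 0, 0, 19⟩]),
    (9, [⟨9, 0, 0, 0, 18⟩]),
    (78, [⟨7, 0, 0, 0, 20⟩]),
    (79, [⟨8, 0, 0, 0, 18⟩]),
    (80, [⟨8, 0, 0, 0, 18⟩]),
    (81, [⟨6, 0, 0, 0, 12⟩]),
    (82, [⟨8, 0, 0, 0, 20⟩]),
    (83, [⟨9, 0, 0, 0, 19⟩])]
    [1, 2, 9]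
    [(8, (.cap 9)),
    (80, (.cap 8)),
    (81, (.cap 7)),
    (82, (.cap 10)),
    (83, (.cap 11))]
    [(21, (.cap 7)),
    (24, (.cap 10))]
    [(1, (.swap (.cap 0))),
    (2, (.cap 6)),
    (9, (.swap (.cap 8)))]
    []
    []
    (.swap (.del 60 ⟨0, 0, 0, 0, 0⟩ ⟨0, 0, 0, 0, 0⟩ ⟨0, 3, 0, true⟩ ⟨7, 4, 0, false⟩))

theorem k0 : chkC env c0 p0 = true := by decide +kernel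

def p80 : Pf :=
  .step []
    [(5, [⟨13, 0, 0, 0, 23⟩]),
    (18, [⟨8, 0, 0, 0, 12⟩]),
    (113, [⟨8, 0, 0, 0, 13⟩]),
    (114, [⟨8, 0, 0, 0, 14⟩]),
    (115, [⟨8, 0, 0, 0, 15⟩]),
    (116, [⟨8, 0, 0, 0, 16⟩]),
    (117, [⟨8, 0, 0, 0, 17⟩]),
    (118, [⟨13, 0, 0, 0, 22⟩])]
    [18, 5]
    [(113, (.cap 6)),
    (114, (.cap 7)),
    (115, (.cap 8)),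
    (116, (.cap 9)),
    (118, (.cap 11))]
    []
    [(5, (.swap (.cap 0))),
    (18, (.cap 5))]
    []
    []
    (.cap 10)

theorem k80 : chkC env c80 p80 = true := by decide +kernel

def p117 : Pf :=
  .step []
    [(1, [⟨5, 0, 0, 0, 16⟩]),
    (2, [⟨3, 0, 0, 0, 8⟩]),
    (8, [⟨5, 0, 0, 0, 16⟩]),
    (9, [⟨5, 0, 0, 0, 16⟩]),
    (78, [⟨5, 0, 0, 0, 16⟩]),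
    (79, [⟨5, 0, 0, 0, 16⟩]),
    (80, [⟨5, 0, 0, 0, 15⟩]),
    (81, [⟨3, 0, 0, 0, 9⟩]),
    (82, [⟨5, 0, 0, 0, 16⟩]),
    (83, [⟨5, 0, 0, 0, 16⟩])]
    [1, 2, 9]
    [(81, (.cap 9))]
    [(21, (.cap 9))]
    [(1, (.swap (.cap 8))),
    (2, (.cap 8)),
    (9, (.swap (.cap 0)))]
    []
    []
    (.del 0 ⟨0, 0, 0, 0, 0⟩ ⟨0, 0, 0, 0, 0⟩ ⟨8, 3, 6, false⟩ ⟨0, 8, 0, true⟩)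

theorem k117 : chkC env c117 p117 = true := by decide +kernel

def p54 : Pf :=
  .step []
    [(13, [⟨12, 1, 0, 0, 16⟩]),
    (97, [⟨12, 1, 0, 0, 17⟩]),
    (98, [⟨15, 1, 0, 0, 19⟩]),
    (125, [⟨15, 1, 0, 0, 20⟩])]
    [13, 125]
    [(97, (.del 52 ⟨0, 1, 0, 0, 0⟩ ⟨0, 0, 0, 0, 0⟩ ⟨0, 12, 0, false⟩ ⟨0, 9, 0, false⟩))]
    []
    [(13, (.del 52 ⟨0, 1, 0, 0, 0⟩ ⟨0, 0, 0, 0, 0⟩ ⟨0, 12, 0, false⟩ ⟨0, 9, 0, false⟩)),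
    (125, (.s2 ⟨6, 0, 0, 0, 6⟩ (.rot (.del 30 ⟨0, 1, 0, 0, 0⟩ ⟨-1, 0, 0, 0, 0⟩ ⟨6, 6, 0, false⟩ ⟨6, 3, 0, false⟩)) (.rot (.del 36 ⟨0, 1, 0, 0, 0⟩ ⟨0, 0, 0, 0, 0⟩ ⟨6, 6, 0, false⟩ ⟨9, 4, 0, true⟩))))]
    []
    []
    (.del 55 ⟨0, 1, 0, 0, 1⟩ ⟨0, 0, 0, 0, 0⟩ ⟨0, 12, 0, false⟩ ⟨0, 13, 0, false⟩)

theorem k54 : chkC env c54 p54 = true := by decide +kernel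

def p23 : Pf :=
  .step [⟨3, 0, 0, 0, 6⟩]
    []
    [1, 8]
    [(78, (.del 10 ⟨0, 0, 0, 0, 0⟩ ⟨0, 0, 0, 0, 0⟩ ⟨3, 9, 3, true⟩ ⟨0, 3, 0, false⟩))]
    []
    [(1, (.s1 ⟨3, 0, 0, 0, 6⟩ (.del 11 ⟨0, 0, 0, 0, 0⟩ ⟨0, 0, 0, 0, 0⟩ ⟨0, 3, 3, false⟩ ⟨0, 3, 0, false⟩) (.del 10 ⟨0, 0, 0, 0, 0⟩ ⟨0, 0, 0, 0, 0⟩ ⟨3, 9, 3, true⟩ ⟨0, 3, 0, false⟩))),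
    (8, (.del 19 ⟨0, 0, 0, 0, 0⟩ ⟨0, 0, 0, 0, 0⟩ ⟨3, 9, 0, false⟩ ⟨0, 9, 0, false⟩))]
    []
    []
    (.del 19 ⟨0, 0, 0, 0, 0⟩ ⟨0, 0, 0, 0, 0⟩ ⟨3, 9, 0, false⟩ ⟨0, 9, 0, false⟩)

theorem k23 : chkC env c23 p23 = true := by decide +kernel

def p50 : Pf :=
  .step []
    [(8, [⟨7, 1, 0, 0, 6⟩]),
    (9, [⟨6, 1, 0, 0, 5⟩]),
    (82, [⟨7, 1, 0, 0, 5⟩]),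
    (83, [⟨6, 1, 0, 0, 6⟩])]
    [8, 9]
    [(83, (.del 49 ⟨0, 1, 0, 0, 1⟩ ⟨0, 0, 0, 0, 0⟩ ⟨0, 12, 0, false⟩ ⟨5, 0, 5, false⟩))]
    []
    [(8, (.del 42 ⟨0, 1, 0, 0, 0⟩ ⟨0, 0, 0, 0, 0⟩ ⟨0, 12, 0, false⟩ ⟨0, 3, 9, true⟩)),
    (9, (.swap (.cap 5)))]
    []
    []
    (.del 51 ⟨0, 1, 0, 0, 1⟩ ⟨0, 0, 0, 0, 0⟩ ⟨0, 12, 0, false⟩ ⟨0, 5, 0, false⟩)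

theorem k50 : chkC env c50 p50 = true := by decide +kernel

def p70 : Pf :=
  .step [⟨4, 0, 0, 0, 6⟩]
    []
    [1, 2]
    [(76, (.swap (.del 29 ⟨-3, 0, 0, 0, -4⟩ ⟨0, 0, 0, 0, 0⟩ ⟨0, 3, 3, false⟩ ⟨3, 3, 0, true⟩)))]
    []
    [(1, (.swap (.del 29 ⟨-3, 0, 0, 0, -4⟩ ⟨0, 0, 0, 0, 0⟩ ⟨0, 3, 3, false⟩ ⟨3, 3, 0, true⟩))),
    (2, (.sx ⟨0, 0, 0, 0, 1⟩ (.swap (.del 31 ⟨-3, 0, 0, 0, -4⟩ ⟨0, 0, 0, 0, 0⟩ ⟨0, 3, 3, false⟩ ⟨3, 3, 3, true⟩)) (.del 69 ⟨0, 1, 0, 0, -1⟩ ⟨0, 0, 0, 0, 0⟩ ⟨0, 3, 0, false⟩ ⟨0, 3, 0, false⟩)))]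
    []
    []
    (.swap (.del 31 ⟨-3, 0, 0, 0, -4⟩ ⟨0, 0, 0, 0, 0⟩ ⟨0, 3, 3, false⟩ ⟨3, 3, 3, true⟩))

theorem k70 : chkC env c70 p70 = true := by decide +kernel

def p61 : Pf :=
  .step []
    [(12, [⟨4, 0, 0, 0, -1⟩]),
    (93, [⟨4, 0, 0, 0, 0⟩]),
    (94, [⟨7, 0, 0, 0, 3⟩]),
    (125, [⟨7, 0, 0, 0, 4⟩])]
    [12, 125]
    [(94, (.cap 8))]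
    []
    [(12, (.cap 6)),
    (125, (.swap (.cap 4)))]
    []
    []
    (.cap 7)

theorem k61 : chkC env c61 p61 = true := by decide +kernel

def p123 : Pf :=
  .step []
    [(6, [⟨4, 0, 0, 0, 5⟩]),
    (7, [⟨7, 0, 0, 0, 11⟩]),
    (84, [⟨4, 0, 0, 0, 6⟩]),
    (85, [⟨7, 0, 0, 0, 10⟩])]
    [6, 7]
    [(85, (.cap 4))]
    []
    [(6, (.cap 2)),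
    (7, (.swap (.cap 2)))]
    []
    []
    (.cap 3)

theorem k123 : chkC env c123 p123 = true := by decide +kernel

def p60 : Pf :=
  .step []
    [(1, [⟨1, 0, 0, 0, 0⟩]),
    (8, [⟨2, 0, 0, 0, 0⟩]),
    (78, [⟨1, 0, 0, 0, 1⟩]),
    (79, [⟨2, 0, 0, 0, -1⟩])]
    [1, 8]
    [(79, (.cap 5))]
    []
    [(1, (.cap 3)),
    (8, (.swap (.cap 2)))]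
    []
    []
    (.cap 4)

theorem k60 : chkC env c60 p60 = true := by decide +kernel

def p93 : Pf :=
  .one [(129, (.go (-1) 0 (.cap 6)))]
    [(65, (.swap (.del 76 ⟨0, 0, 0, 0, 0⟩ ⟨0, 0, 0, 0, 0⟩ ⟨6, 15, 0, true⟩ ⟨0, 21, 0, false⟩))),
    (78, (.del 92 ⟨0, 0, 0, 0, 0⟩ ⟨0, 0, 0, 0, 0⟩ ⟨0, 21, 0, true⟩ ⟨0, 21, 0, false⟩)),
    (172, (.cap 7)),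
    (228, (.rot (.swap (.del 89 ⟨0, 0, 0, 0, 0⟩ ⟨0, 0, 0, 0, 0⟩ ⟨0, 21, 0, true⟩ ⟨6, 4, 0, false⟩)))),
    (236, (.rot (.swap (.del 89 ⟨0, 0, 0, 0, 0⟩ ⟨0, 0, 0, 0, 0⟩ ⟨0, 21, 0, true⟩ ⟨6, 4, 0, false⟩))))]

theorem k93 : chkC env c93 p93 = true := by decide +kernel

def p65 : Pf :=
  .cover [(71, (.del 12 ⟨3, 0, 0, 0, 9⟩ ⟨0, 0, 0, 0, 0⟩ ⟨0, 3, 0, false⟩ ⟨0, 0, 3, false⟩))]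
    []
    (.del 31 ⟨-3, 0, 0, 0, -4⟩ ⟨0, 0, 0, 0, 0⟩ ⟨0, 3, 3, false⟩ ⟨0, 0, 6, false⟩)

theorem k65 : chkC env c65 p65 = true := by decide +kernel

end Pool.Agent.Lib.MP_1fc36f_co.H61
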