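import Pool.Agent.Lib.MP_1fc36f_co.H61Env

/-! Checked proofs of the claims. -/

namespace Pool.Agent.Lib.MP_1fc36f_co.H61

open Pool.Agent.Lib.MP_1fc36f_co.H45

def e0 : List (ℕ × ℕ × ℕ × Tree) :=
  [(0, 17, 19, (.del 75 ⟨0, 0, 0, 0, 0⟩ ⟨0, 0, 0, 0, 0⟩ ⟨0, 0, 0, false⟩ ⟨0, 0, 1, false⟩)),
   (21, 7, 20, (.del 75 ⟨0, 0, 0, 0, 0⟩ ⟨0, 0, 0, 0, 0⟩ ⟨0, 0, 1, false⟩ ⟨0, 0, 2, false⟩)),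
   (21, 17, 19, (.del 75 ⟨0, 0, 0, 0, 0⟩ ⟨0, 0, 0, 0, 0⟩ ⟨0, 0, 1, false⟩ ⟨0, 0, 1, false⟩))]

theorem j0 : chkTab env t0 e0 = true := by decide +kernel

def p30 : Pf :=
  .step []
    [(0, [⟨6, 1, 0, 0, 7⟩]),
    (1, [⟨6, 1, 0, 0, 8⟩]),
    (2, [⟨9, 1, 0, 0, 14⟩]),
    (3, [⟨9, 1, 0, 0, 15⟩]),
    (4, [⟨3, 1, 0, 0, 3⟩]),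
    (5, [⟨6, 1, 0, 0, 10⟩]),
    (6, [⟨5, 1, 0, 0, 8⟩]),
    (7, [⟨8, 1, 0, 0, 15⟩]),
    (12, [⟨12, 1, 0, 0, 15⟩]),
    (68, [⟨6, 1, 0, 0, 6⟩]),
    (69, [⟨3, 1, 0, 0, 4⟩]),
    (70, [⟨9, 1, 0, 0, 13⟩]),
    (71, [⟨6, 1, 0, 0, 11⟩]),
    (72, [⟨6, 1, 0, 0, 7⟩]),
    (73, [⟨5, 1, 0, 0, 9⟩]),
    (74, [⟨9, 1, 0, 0, 14⟩]),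
    (75, [⟨8, 1, 0, 0, 16⟩]),
    (76, [⟨6, 1, 0, 0, 9⟩]),
    (77, [⟨9, 1, 0, 0, 13⟩]),
    (78, [⟨6, 1, 0, 0, 7⟩]),
    (81, [⟨9, 1, 0, 0, 13⟩]),
    (90, [⟨9, 1, 0, 0, 16⟩]),
    (91, [⟨10, 1, 0, 0, 16⟩]),
    (92, [⟨12, 1, 0, 0, 14⟩]),
    (93, [⟨12, 1, 0, 0, 16⟩]),
    (94, [⟨15, 1, 0, 0, 19⟩]),
    (95, [⟨12, 1, 0, 0, 15⟩]),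
    (125, [⟨15, 1, 0, 0, 20⟩]),
    (219, [⟨6, 1, 0, 0, 6⟩]),
    (223, [⟨6, 1, 0, 0, 6⟩])]
    [4, 5, 6, 7, 78, 81, 95, 125, 219, 223]
    [(68, (.sy ⟨1, 0, 0, 0, -3⟩ (.s2 ⟨4, 0, 1, 0, 2⟩ (.del 31 ⟨0, 1, 0, 0, 1⟩ ⟨0, 0, 0, 0, 0⟩ ⟨0, 12, 0, false⟩ ⟨0, 18, 0, false⟩) (.del 30 ⟨0, 1, 0, 0, 0⟩ ⟨0, 0, 1, 0, 1⟩ ⟨0, 12, 0, false⟩ ⟨0, 18, 0, false⟩)) (.del 31 ⟨0, 1, 0, 0, 1⟩ ⟨0, 0, 0, 0, 0⟩ ⟨0, 12, 0, false⟩ ⟨0, 18, 0, false⟩))),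
    (69, (.sy ⟨1, 0, 0, 0, -3⟩ (.del 30 ⟨0, 1, 0, 0, 0⟩ ⟨0, 0, 1, 0, 1⟩ ⟨0, 12, 0, false⟩ ⟨0, 18, 0, false⟩) (.del 31 ⟨0, 1, 0, 0, 1⟩ ⟨0, 0, 0, 0, 0⟩ ⟨0, 12, 0, false⟩ ⟨0, 18, 0, false⟩))),
    (70, (.sy ⟨1, 0, 0, 0, -3⟩ (.s2 ⟨7, 0, 1, 0, 9⟩ (.del 31 ⟨0, 1, 0, 0, 1⟩ ⟨0, 0, 0, 0, 0⟩ ⟨0, 12, 0, false⟩ ⟨0, 18, 0, false⟩) (.del 30 ⟨0, 1, 0, 0, 0⟩ ⟨0, 0, 1, 0, 1⟩ ⟨0, 12, 0, false⟩ ⟨0, 18, 0, false⟩)) (.del 31 ⟨0, 1, 0, 0, 1⟩ ⟨0, 0, 0, 0, 0⟩ ⟨0, 12, 0, false⟩ ⟨0, 18, 0, false⟩))),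
    (71, (.sy ⟨1, 0, 0, 0, -3⟩ (.del 30 ⟨0, 1, 0, 0, 0⟩ ⟨0, 0, 1, 0, 1⟩ ⟨0, 12, 0, false⟩ ⟨0, 18, 0, false⟩) (.del 31 ⟨0, 1, 0, 0, 1⟩ ⟨0, 0, 0, 0, 0⟩ ⟨0, 12, 0, false⟩ ⟨0, 18, 0, false⟩))),
    (72, (.sy ⟨1, 0, 0, 0, -3⟩ (.s2 ⟨4, 0, 1, 0, 3⟩ (.del 31 ⟨0, 1, 0, 0, 1⟩ ⟨0, 0, 0, 0, 0⟩ ⟨0, 12, 0, false⟩ ⟨0, 18, 0, false⟩) (.del 30 ⟨0, 1, 0, 0, 0⟩ ⟨0, 0, 1, 0, 1⟩ ⟨0, 12, 0, false⟩ ⟨0, 18, 0, false⟩)) (.del 31 ⟨0, 1, 0, 0, 1⟩ ⟨0, 0, 0, 0, 0⟩ ⟨0, 12, 0, false⟩ ⟨0, 18, 0, false⟩))),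
    (73, (.sy ⟨1, 0, 0, 0, -3⟩ (.del 30 ⟨0, 1, 0, 0, 0⟩ ⟨0, 0, 1, 0, 1⟩ ⟨0, 12, 0, false⟩ ⟨0, 18, 0, false⟩) (.del 31 ⟨0, 1, 0, 0, 1⟩ ⟨0, 0, 0, 0, 0⟩ ⟨0, 12, 0, false⟩ ⟨0, 18, 0, false⟩))),
    (74, (.sy ⟨1, 0, 0, 0, -3⟩ (.s2 ⟨7, 0, 1, 0, 10⟩ (.del 31 ⟨0, 1, 0, 0, 1⟩ ⟨0, 0, 0, 0, 0⟩ ⟨0, 12, 0, false⟩ ⟨0, 18, 0, false⟩) (.del 30 ⟨0, 1, 0, 0, 0⟩ ⟨0, 0, 1, 0, 1⟩ ⟨0, 12, 0, false⟩ ⟨0, 18, 0, false⟩)) (.del 31 ⟨0, 1, 0, 0, 1⟩ ⟨0, 0, 0, 0, 0⟩ ⟨0, 12, 0, false⟩ ⟨0, 18, 0, false⟩))),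
    (75, (.sy ⟨1, 0, 0, 0, -3⟩ (.s2 ⟨6, 0, 1, 0, 12⟩ (.del 31 ⟨0, 1, 0, 0, 1⟩ ⟨0, 0, 0, 0, 0⟩ ⟨0, 12, 0, false⟩ ⟨0, 18, 0, false⟩) (.del 30 ⟨0, 1, 0, 0, 0⟩ ⟨0, 0, 1, 0, 1⟩ ⟨0, 12, 0, false⟩ ⟨0, 18, 0, false⟩)) (.del 31 ⟨0, 1, 0, 0, 1⟩ ⟨0, 0, 0, 0, 0⟩ ⟨0, 12, 0, false⟩ ⟨0, 18, 0, false⟩)))]
    [(3, (.sy ⟨1, 0, 0, 0, -3⟩ (.s2 ⟨4, 0, 1, -1, 2⟩ (.del 31 ⟨0, 1, 0, 0, 1⟩ ⟨0, 0, 0, 0, 0⟩ ⟨0, 12, 0, false⟩ ⟨0, 18, 0, false⟩) (.del 30 ⟨0, 1, 0, 0, 0⟩ ⟨0, 0, 1, 0, 1⟩ ⟨0, 12, 0, false⟩ ⟨0, 18, 0, false⟩)) (.del 31 ⟨0, 1, 0, 0, 1⟩ ⟨0, 0, 0, 0, 0⟩ ⟨0, 12, 0, false⟩ ⟨0, 18, 0, false⟩))),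
    (6, (.sy ⟨1, 0, 0, 0, -3⟩ (.s2 ⟨7, 0, 1, -1, 9⟩ (.del 31 ⟨0, 1, 0, 0, 1⟩ ⟨0, 0, 0, 0, 0⟩ ⟨0, 12, 0, false⟩ ⟨0, 18, 0, false⟩) (.del 30 ⟨0, 1, 0, 0, 0⟩ ⟨0, 0, 1, 0, 1⟩ ⟨0, 12, 0, false⟩ ⟨0, 18, 0, false⟩)) (.del 31 ⟨0, 1, 0, 0, 1⟩ ⟨0, 0, 0, 0, 0⟩ ⟨0, 12, 0, false⟩ ⟨0, 18, 0, false⟩))),
    (9, (.sy ⟨1, 0, 0, 0, -3⟩ (.s2 ⟨4, 0, 1, -1, 3⟩ (.del 31 ⟨0, 1, 0, 0, 1⟩ ⟨0, 0, 0, 0, 0⟩ ⟨0, 12, 0, false⟩ ⟨0, 18, 0, false⟩) (.del 30 ⟨0, 1, 0, 0, 0⟩ ⟨0, 0, 1, 0, 1⟩ ⟨0, 12, 0, false⟩ ⟨0, 18, 0, false⟩)) (.del 31 ⟨0, 1, 0, 0, 1⟩ ⟨0, 0, 0, 0, 0⟩ ⟨0, 12, 0, false⟩ ⟨0, 18, 0, false⟩))),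
    (12, (.sy ⟨1, 0, 0, 0, -3⟩ (.s2 ⟨7, 0, 1, -1, 10⟩ (.del 31 ⟨0, 1, 0, 0, 1⟩ ⟨0, 0, 0, 0, 0⟩ ⟨0, 12, 0, false⟩ ⟨0, 18, 0, false⟩) (.del 30 ⟨0, 1, 0, 0, 0⟩ ⟨0, 0, 1, 0, 1⟩ ⟨0, 12, 0, false⟩ ⟨0, 18, 0, false⟩)) (.del 31 ⟨0, 1, 0, 0, 1⟩ ⟨0, 0, 0, 0, 0⟩ ⟨0, 12, 0, false⟩ ⟨0, 18, 0, false⟩)))]
    [(4, (.cap 3)),
    (5, (.cap 6)),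
    (6, (.swap (.cap 3))),
    (7, (.swap (.cap 6))),
    (78, (.s2 ⟨4, 0, 0, 0, 4⟩ (.del 43 ⟨0, 1, 0, 0, 1⟩ ⟨0, 0, 0, 0, 0⟩ ⟨0, 12, 0, false⟩ ⟨0, 3, 0, false⟩) (.del 45 ⟨0, 1, 0, 0, 1⟩ ⟨0, 0, 0, 0, 0⟩ ⟨0, 12, 0, false⟩ ⟨3, 3, 0, true⟩))),
    (81, (.s2 ⟨7, 0, 0, 0, 10⟩ (.del 47 ⟨0, 1, 0, 0, 1⟩ ⟨0, 0, 0, 0, 0⟩ ⟨0, 12, 0, false⟩ ⟨3, 3, 9, true⟩) (.del 43 ⟨0, 1, 0, 0, 1⟩ ⟨0, 0, 0, 0, 0⟩ ⟨0, 12, 0, false⟩ ⟨6, 3, 12, false⟩))),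
    (95, (.del 57 ⟨0, 1, 0, 0, 1⟩ ⟨0, 0, 0, 0, 0⟩ ⟨0, 12, 0, false⟩ ⟨6, 9, 0, false⟩)),
    (125, (.sy ⟨1, 0, 0, 0, -3⟩ (.rot (.del 30 ⟨0, 1, 0, 0, 0⟩ ⟨0, 0, 1, 0, 1⟩ ⟨6, 6, 0, false⟩ ⟨12, 6, 0, false⟩)) (.rot (.del 28 ⟨0, 1, 0, 0, 0⟩ ⟨0, 0, 0, 0, 0⟩ ⟨6, 6, 0, false⟩ ⟨15, 3, 0, false⟩)))),
    (219, (.rot (.del 31 ⟨0, 1, 0, 0, 1⟩ ⟨0, 0, 0, 0, 0⟩ ⟨0, 6, 6, false⟩ ⟨0, 6, 12, false⟩))),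
    (223, (.rot (.del 53 ⟨0, 1, 0, 0, 1⟩ ⟨0, 0, 0, 0, 0⟩ ⟨0, 6, 6, false⟩ ⟨0, 6, 6, false⟩)))]
    []
    []
    (.del 31 ⟨0, 1, 0, 0, 1⟩ ⟨0, 0, 0, 0, 0⟩ ⟨0, 12, 0, false⟩ ⟨0, 18, 0, false⟩)

theorem k30 : chkC env c30 p30 = true := by decide +kernel

def p112 : Pf :=
  .step []
    [(3, [⟨6, 0, 0, 0, 12⟩]),
    (7, [⟨7, 0, 0, 0, 12⟩]),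
    (12, [⟨9, 0, 0, 0, 11⟩]),
    (13, [⟨9, 0, 0, 0, 11⟩]),
    (14, [⟨9, 0, 0, 0, 11⟩]),
    (15, [⟨9, 0, 0, 0, 11⟩]),
    (16, [⟨9, 0, 0, 0, 11⟩]),
    (36, [⟨9, 0, 0, 0, 11⟩]),
    (37, [⟨9, 0, 0, 0, 11⟩]),
    (38, [⟨9, 0, 0, 0, 11⟩]),
    (39, [⟨9, 0, 0, 0, 11⟩]),
    (40, [⟨9, 0, 0, 0, 11⟩]),
    (41, [⟨9, 0, 0, 0, 11⟩]),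
    (42, [⟨9, 0, 0, 0, 11⟩]),
    (43, [⟨9, 0, 0, 0, 11⟩]),
    (44, [⟨9, 0, 0, 0, 11⟩]),
    (45, [⟨9, 0, 0, 0, 11⟩]),
    (46, [⟨9, 0, 0, 0, 11⟩]),
    (47, [⟨9, 0, 0, 0, 11⟩]),
    (48, [⟨9, 0, 0, 0, 11⟩]),
    (49, [⟨9, 0, 0, 0, 11⟩]),
    (50, [⟨9, 0, 0, 0, 11⟩]),
    (51, [⟨9, 0, 0, 0, 11⟩]),
    (90, [⟨6, 0, 0, 0, 13⟩]),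
    (91, [⟨7, 0, 0, 0, 13⟩]),
    (92, [⟨9, 0, 0, 0, 11⟩]),
    (93, [⟨9, 0, 0, 0, 11⟩]),
    (94, [⟨9, 0, 0, 0, 11⟩]),
    (95, [⟨9, 0, 0, 0, 11⟩]),
    (96, [⟨9, 0, 0, 0, 11⟩]),
    (97, [⟨9, 0, 0, 0, 11⟩]),
    (98, [⟨9, 0, 0, 0, 11⟩]),
    (99, [⟨9, 0, 0, 0, 11⟩]),
    (100, [⟨9, 0, 0, 0, 11⟩]),
    (103, [⟨7, 0, 0, 0, 13⟩]),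
    (104, [⟨9, 0, 0, 0, 10⟩]),
    (105, [⟨9, 0, 0, 0, 11⟩]),
    (106, [⟨9, 0, 0, 0, 11⟩]),
    (123, [⟨9, 0, 0, 0, 11⟩]),
    (124, [⟨9, 0, 0, 0, 11⟩]),
    (125, [⟨9, 0, 0, 0, 11⟩]),
    (131, [⟨9, 0, 0, 0, 11⟩])]
    [3, 7, 125, 131]
    [(15, (.cap 14)),
    (94, (.swap (.del 110 ⟨0, 0, 0, 0, 0⟩ ⟨0, 0, 0, 0, 0⟩ ⟨0, 13, 0, false⟩ ⟨0, 16, 0, false⟩))),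
    (98, (.swap (.del 110 ⟨0, 0, 0, 0, 0⟩ ⟨0, 0, 0, 0, 0⟩ ⟨0, 13, 0, false⟩ ⟨0, 16, 0, false⟩))),
    (103, (.cap 12)),
    (104, (.cap 13))]
    [(55, (.cap 12))]
    [(3, (.cap 8)),
    (7, (.swap (.cap 16))),
    (125, (.swap (.cap 9))),
    (131, (.swap (.cap 13)))]
    []
    []
    (.swap (.del 111 ⟨0, 0, 0, 0, 0⟩ ⟨0, 0, 0, 0, 0⟩ ⟨0, 21, 0, true⟩ ⟨0, 16, 0, false⟩))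

theorem k112 : chkC env c112 p112 = true := by decide +kernel

def p108 : Pf :=
  .step [⟨9, 0, 0, 0, 13⟩]
    []
    [14, 15, 16]
    [(36, (.s2 ⟨9, 0, 0, 0, 11⟩ (.swap (.fin 1 ⟨0, 0, 0, 0, 0⟩ ⟨0, 0, 0, 0, 0⟩ 0 9 11 14 16)) (.s2 ⟨9, 0, 0, 0, 12⟩ (.swap (.fin 1 ⟨0, 0, 0, 0, 0⟩ ⟨0, 0, 0, 0, 0⟩ 19 9 11 15 16)) (.swap (.fin 1 ⟨0, 0, 0, 0, 0⟩ ⟨0, 0, 0, 0, 0⟩ 8 9 11 16 16))))),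
    (38, (.s2 ⟨9, 0, 0, 0, 11⟩ (.swap (.fin 1 ⟨0, 0, 0, 0, 0⟩ ⟨0, 0, 0, 0, 0⟩ 0 9 10 14 16)) (.swap (.fin 1 ⟨0, 0, 0, 0, 0⟩ ⟨0, 0, 0, 0, 0⟩ 19 9 10 15 16)))),
    (39, (.s2 ⟨9, 0, 0, 0, 11⟩ (.swap (.fin 1 ⟨0, 0, 0, 0, 0⟩ ⟨0, 0, 0, 0, 0⟩ 0 9 12 14 16)) (.s2 ⟨9, 0, 0, 0, 12⟩ (.swap (.fin 1 ⟨0, 0, 0, 0, 0⟩ ⟨0, 0, 0, 0, 0⟩ 19 9 12 15 16)) (.swap (.fin 1 ⟨0, 0, 0, 0, 0⟩ ⟨0, 0, 0, 0, 0⟩ 8 9 12 16 16))))),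
    (40, (.s2 ⟨9, 0, 0, 0, 11⟩ (.swap (.fin 1 ⟨0, 0, 0, 0, 0⟩ ⟨0, 0, 0, 0, 0⟩ 0 9 2 14 16)) (.s2 ⟨9, 0, 0, 0, 12⟩ (.swap (.fin 1 ⟨0, 0, 0, 0, 0⟩ ⟨0, 0, 0, 0, 0⟩ 19 9 2 15 16)) (.swap (.fin 1 ⟨0, 0, 0, 0, 0⟩ ⟨0, 0, 0, 0, 0⟩ 8 9 2 16 16))))),
    (41, (.s2 ⟨9, 0, 0, 0, 11⟩ (.swap (.fin 1 ⟨0, 0, 0, 0, 0⟩ ⟨0, 0, 0, 0, 0⟩ 0 9 13 14 16)) (.s2 ⟨9, 0, 0, 0, 12⟩ (.swap (.fin 1 ⟨0, 0, 0, 0, 0⟩ ⟨0, 0, 0, 0, 0⟩ 19 9 13 15 16)) (.swap (.fin 1 ⟨0, 0, 0, 0, 0⟩ ⟨0, 0, 0, 0, 0⟩ 8 9 13 16 16))))),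
    (42, (.s2 ⟨9, 0, 0, 0, 11⟩ (.swap (.fin 1 ⟨0, 0, 0, 0, 0⟩ ⟨0, 0, 0, 0, 0⟩ 0 9 3 14 16)) (.s2 ⟨9, 0, 0, 0, 12⟩ (.swap (.fin 1 ⟨0, 0, 0, 0, 0⟩ ⟨0, 0, 0, 0, 0⟩ 19 9 3 15 16)) (.swap (.fin 1 ⟨0, 0, 0, 0, 0⟩ ⟨0, 0, 0, 0, 0⟩ 8 9 3 16 16))))),
    (43, (.s2 ⟨9, 0, 0, 0, 11⟩ (.swap (.fin 1 ⟨0, 0, 0, 0, 0⟩ ⟨0, 0, 0, 0, 0⟩ 0 9 14 14 16)) (.s2 ⟨9, 0, 0, 0, 12⟩ (.swap (.fin 1 ⟨0, 0, 0, 0, 0⟩ ⟨0, 0, 0, 0, 0⟩ 19 9 14 15 16)) (.swap (.fin 1 ⟨0, 0, 0, 0, 0⟩ ⟨0, 0, 0, 0, 0⟩ 8 9 14 16 16))))),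
    (44, (.s2 ⟨9, 0, 0, 0, 11⟩ (.swap (.fin 1 ⟨0, 0, 0, 0, 0⟩ ⟨0, 0, 0, 0, 0⟩ 0 9 4 14 16)) (.s2 ⟨9, 0, 0, 0, 12⟩ (.swap (.fin 1 ⟨0, 0, 0, 0, 0⟩ ⟨0, 0, 0, 0, 0⟩ 19 9 4 15 16)) (.swap (.fin 1 ⟨0, 0, 0, 0, 0⟩ ⟨0, 0, 0, 0, 0⟩ 8 9 4 16 16))))),
    (45, (.s2 ⟨9, 0, 0, 0, 11⟩ (.swap (.fin 1 ⟨0, 0, 0, 0, 0⟩ ⟨0, 0, 0, 0, 0⟩ 0 9 15 14 16)) (.s2 ⟨9, 0, 0, 0, 12⟩ (.swap (.fin 1 ⟨0, 0, 0, 0, 0⟩ ⟨0, 0, 0, 0, 0⟩ 19 9 15 15 16)) (.swap (.fin 1 ⟨0, 0, 0, 0, 0⟩ ⟨0, 0, 0, 0, 0⟩ 8 9 15 16 16))))),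
    (46, (.s2 ⟨9, 0, 0, 0, 11⟩ (.swap (.fin 1 ⟨0, 0, 0, 0, 0⟩ ⟨0, 0, 0, 0, 0⟩ 0 9 5 14 16)) (.s2 ⟨9, 0, 0, 0, 12⟩ (.swap (.fin 1 ⟨0, 0, 0, 0, 0⟩ ⟨0, 0, 0, 0, 0⟩ 19 9 5 15 16)) (.swap (.fin 1 ⟨0, 0, 0, 0, 0⟩ ⟨0, 0, 0, 0, 0⟩ 8 9 5 16 16))))),
    (47, (.s2 ⟨9, 0, 0, 0, 11⟩ (.swap (.fin 1 ⟨0, 0, 0, 0, 0⟩ ⟨0, 0, 0, 0, 0⟩ 0 9 16 14 16)) (.s2 ⟨9, 0, 0, 0, 12⟩ (.swap (.fin 1 ⟨0, 0, 0, 0, 0⟩ ⟨0, 0, 0, 0, 0⟩ 19 9 16 15 16)) (.swap (.fin 1 ⟨0, 0, 0, 0, 0⟩ ⟨0, 0, 0, 0, 0⟩ 8 9 16 16 16))))),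
    (48, (.s2 ⟨9, 0, 0, 0, 11⟩ (.swap (.fin 1 ⟨0, 0, 0, 0, 0⟩ ⟨0, 0, 0, 0, 0⟩ 0 9 6 14 16)) (.s2 ⟨9, 0, 0, 0, 12⟩ (.swap (.fin 1 ⟨0, 0, 0, 0, 0⟩ ⟨0, 0, 0, 0, 0⟩ 19 9 6 15 16)) (.swap (.fin 1 ⟨0, 0, 0, 0, 0⟩ ⟨0, 0, 0, 0, 0⟩ 8 9 6 16 16))))),
    (49, (.s2 ⟨9, 0, 0, 0, 11⟩ (.swap (.fin 1 ⟨0, 0, 0, 0, 0⟩ ⟨0, 0, 0, 0, 0⟩ 0 9 17 14 16)) (.s2 ⟨9, 0, 0, 0, 12⟩ (.swap (.fin 1 ⟨0, 0, 0, 0, 0⟩ ⟨0, 0, 0, 0, 0⟩ 19 9 17 15 16)) (.swap (.fin 1 ⟨0, 0, 0, 0, 0⟩ ⟨0, 0, 0, 0, 0⟩ 8 9 17 16 16))))),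
    (50, (.s2 ⟨9, 0, 0, 0, 12⟩ (.swap (.fin 1 ⟨0, 0, 0, 0, 0⟩ ⟨0, 0, 0, 0, 0⟩ 19 9 7 15 16)) (.swap (.fin 1 ⟨0, 0, 0, 0, 0⟩ ⟨0, 0, 0, 0, 0⟩ 8 9 7 16 16)))),
    (51, (.s2 ⟨9, 0, 0, 0, 12⟩ (.swap (.fin 1 ⟨0, 0, 0, 0, 0⟩ ⟨0, 0, 0, 0, 0⟩ 19 9 18 15 16)) (.swap (.fin 1 ⟨0, 0, 0, 0, 0⟩ ⟨0, 0, 0, 0, 0⟩ 8 9 18 16 16)))),
    (124, (.s2 ⟨9, 0, 0, 0, 12⟩ (.swap (.fin 1 ⟨0, 0, 0, 0, 0⟩ ⟨0, 0, 0, 0, 0⟩ 19 9 20 15 16)) (.swap (.fin 1 ⟨0, 0, 0, 0, 0⟩ ⟨0, 0, 0, 0, 0⟩ 8 9 20 16 16))))]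
    []
    [(14, (.swap (.cap 16))),
    (15, (.swap (.cap 14))),
    (16, (.cap 16))]
    []
    []
    (.s2 ⟨9, 0, 0, 0, 11⟩ (.swap (.fin 1 ⟨0, 0, 0, 0, 0⟩ ⟨0, 0, 0, 0, 0⟩ 0 9 1 14 16)) (.swap (.fin 1 ⟨0, 0, 0, 0, 0⟩ ⟨0, 0, 0, 0, 0⟩ 19 9 1 15 16)))

theorem k108 : chkC env c108 p108 = true := by decide +kernel

def p111 : Pf :=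
  .step [⟨6, 0, 0, 0, 14⟩]
    []
    [3, 15, 125, 131]
    []
    []
    [(3, (.swap (.cap 8))),
    (15, (.swap (.cap 14))),
    (125, (.cap 12)),
    (131, (.cap 8))]
    []
    []
    (.del 110 ⟨0, 0, 0, 0, 0⟩ ⟨0, 0, 0, 0, 0⟩ ⟨8, 13, 0, true⟩ ⟨0, 16, 0, false⟩)

theorem k111 : chkC env c111 p111 = true := by decide +kernel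

def p37 : Pf :=
  .cover [(1, (.sx ⟨3, 0, 0, 0, 3⟩ (.del 36 ⟨0, 1, 0, 0, 0⟩ ⟨0, 0, 0, 0, 0⟩ ⟨0, 12, 0, false⟩ ⟨0, 10, 0, false⟩) (.s2 ⟨1, 0, 0, 0, 0⟩ (.swap (.del 10 ⟨0, 0, 0, 0, 0⟩ ⟨0, 0, 0, 0, 0⟩ ⟨0, 4, 8, false⟩ ⟨3, 3, 0, false⟩)) (.swap (.del 11 ⟨0, 0, 0, 0, 0⟩ ⟨0, 0, 0, 0, 0⟩ ⟨4, 3, 3, true⟩ ⟨3, 3, 0, false⟩))))),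
    (69, (.sx ⟨3, 0, 0, 0, 3⟩ (.del 36 ⟨0, 1, 0, 0, 0⟩ ⟨0, 0, 0, 0, 0⟩ ⟨0, 12, 0, false⟩ ⟨0, 10, 0, false⟩) (.s2 ⟨1, 0, 0, 0, 0⟩ (.del 8 ⟨0, 1, 0, 0, -1⟩ ⟨0, 0, 0, 0, 0⟩ ⟨3, 3, 0, true⟩ ⟨1, 3, 3, true⟩) (.swap (.del 11 ⟨0, 0, 0, 0, 0⟩ ⟨0, 0, 0, 0, 0⟩ ⟨4, 3, 3, true⟩ ⟨3, 3, 0, false⟩))))),
    (76, (.sx ⟨3, 0, 0, 0, 3⟩ (.del 36 ⟨0, 1, 0, 0, 0⟩ ⟨0, 0, 0, 0, 0⟩ ⟨0, 12, 0, false⟩ ⟨0, 10, 0, false⟩) (.swap (.del 22 ⟨0, 0, 0, 0, 0⟩ ⟨0, 0, 0, 0, 0⟩ ⟨0, 7, 0, false⟩ ⟨3, 6, 0, false⟩)))),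
    (77, (.sx ⟨3, 0, 0, 0, 3⟩ (.del 30 ⟨0, 1, 0, 0, 0⟩ ⟨-1, 0, 0, 0, 0⟩ ⟨0, 12, 0, false⟩ ⟨4, 6, 3, false⟩) (.s2 ⟨4, 0, 0, 0, 6⟩ (.swap (.del 20 ⟨0, 0, 0, 0, 0⟩ ⟨0, 0, 0, 0, 0⟩ ⟨4, 3, 0, false⟩ ⟨3, 6, 0, false⟩)) (.swap (.del 21 ⟨0, 0, 0, 0, 0⟩ ⟨0, 0, 0, 0, 0⟩ ⟨7, 3, 9, true⟩ ⟨3, 6, 0, false⟩)))))]
    [(3, (.sx ⟨3, 0, 0, 0, 3⟩ (.del 36 ⟨0, 1, 0, 0, 0⟩ ⟨0, 0, 0, 0, 0⟩ ⟨0, 12, 0, false⟩ ⟨0, 10, 0, false⟩) (.s2 ⟨1, 0, 0, 0, 0⟩ (.swap (.del 10 ⟨0, 0, 0, 0, 0⟩ ⟨0, 0, 0, 0, 0⟩ ⟨0, 4, 8, false⟩ ⟨3, 3, 0, false⟩)) (.s2 ⟨4, 0, 0, 0, 6⟩ (.swap (.del 11 ⟨0, 0, 0, 0, 0⟩ ⟨0, 0, 0, 0, 0⟩ ⟨4, 3, 3, true⟩ ⟨3, 3, 0, false⟩)) (.sj ⟨2, 0, 0, 0, 7⟩ .empty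 .empty))))),
    (15, (.sx ⟨3, 0, 0, 0, 3⟩ (.del 36 ⟨0, 1, 0, 0, 0⟩ ⟨0, 0, 0, 0, 0⟩ ⟨0, 12, 0, false⟩ ⟨0, 10, 0, false⟩) (.sj ⟨2, 0, 0, 0, 4⟩ (.swap (.del 22 ⟨0, 0, 0, 0, 0⟩ ⟨0, 0, 0, 0, 0⟩ ⟨0, 7, 0, false⟩ ⟨3, 6, 0, false⟩)) (.s2 ⟨4, 0, 0, 0, 6⟩ (.swap (.del 20 ⟨0, 0, 0, 0, 0⟩ ⟨0, 0, 0, 0, 0⟩ ⟨4, 3, 0, false⟩ ⟨3, 6, 0, false⟩)) (.sj ⟨2, 0, 0, 0, 5⟩ .empty (.swap (.del 21 ⟨0, 0, 0, 0, 0⟩ ⟨0, 0, 0, 0, 0⟩ ⟨7, 3, 9, true⟩ ⟨3, 6, 0, false⟩)))))))]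
    (.sx ⟨3, 0, 0, 0, 3⟩ (.del 36 ⟨0, 1, 0, 0, 0⟩ ⟨0, 0, 0, 0, 0⟩ ⟨0, 12, 0, false⟩ ⟨0, 10, 0, false⟩) (.s2 ⟨1, 0, 0, 0, 0⟩ (.swap (.del 9 ⟨0, 0, 0, 0, 0⟩ ⟨0, 0, 0, 0, 0⟩ ⟨1, 3, 10, false⟩ ⟨3, 3, 0, false⟩)) (.swap (.del 11 ⟨0, 0, 0, 0, 0⟩ ⟨0, 0, 0, 0, 0⟩ ⟨4, 3, 3, true⟩ ⟨3, 3, 0, false⟩))))

theorem k37 : chkC env c37 p37 = true := by decide +kernel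

def p83 : Pf :=
  .step [⟨8, 0, 0, 0, 10⟩]
    []
    [5, 17, 129]
    [(113, (.swap (.del 82 ⟨0, 0, 0, 0, 0⟩ ⟨0, 0, 0, 0, 0⟩ ⟨0, 3, 0, false⟩ ⟨0, 6, 0, false⟩))),
    (114, (.swap (.del 82 ⟨0, 0, 0, 0, 0⟩ ⟨0, 0, 0, 0, 0⟩ ⟨0, 3, 0, false⟩ ⟨0, 6, 0, false⟩))),
    (115, (.del 80 ⟨0, 0, 0, 0, 0⟩ ⟨0, 0, 0, 0, 0⟩ ⟨1, 5, 0, false⟩ ⟨0, 2, 0, false⟩)),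
    (116, (.del 80 ⟨0, 0, 0, 0, 0⟩ ⟨0, 0, 0, 0, 0⟩ ⟨1, 5, 0, false⟩ ⟨0, 2, 0, false⟩)),
    (117, (.del 80 ⟨0, 0, 0, 0, 0⟩ ⟨0, 0, 0, 0, 0⟩ ⟨1, 5, 0, false⟩ ⟨0, 2, 0, false⟩)),
    (118, (.del 80 ⟨0, 0, 0, 0, 0⟩ ⟨0, 0, 0, 0, 0⟩ ⟨1, 5, 0, false⟩ ⟨0, 2, 0, false⟩))]
    [(74, (.del 80 ⟨0, 0, 0, 0, 0⟩ ⟨0, 0, 0, 0, 0⟩ ⟨1, 5, 0, false⟩ ⟨0, 2, 0, false⟩))]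
    [(5, (.swap (.cap 0))),
    (17, (.cap 3)),
    (129, (.swap (.cap 3)))]
    []
    []
    (.swap (.del 79 ⟨0, 0, 0, 0, 0⟩ ⟨0, 0, 0, 0, 0⟩ ⟨0, 3, 0, false⟩ ⟨0, 3, 0, true⟩))

theorem k83 : chkC env c83 p83 = true := by decide +kernel

def p29 : Pf :=
  .cover [(2, (.s1 ⟨9, 0, 0, 0, 9⟩ (.sx ⟨3, 0, 0, 0, 3⟩ (.del 28 ⟨0, 1, 0, 0, 0⟩ ⟨0, 0, 0, 0, 0⟩ ⟨0, 12, 0, false⟩ ⟨0, 6, 0, false⟩) .empty) (.del 15 ⟨3, 0, 0, 0, 4⟩ ⟨0, 0, 0, 0, 0⟩ ⟨3, 6, 0, true⟩ ⟨0, 6, 0, true⟩))),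
    (70, (.s1 ⟨9, 0, 0, 0, 9⟩ (.sx ⟨3, 0, 0, 0, 3⟩ (.del 28 ⟨0, 1, 0, 0, 0⟩ ⟨0, 0, 0, 0, 0⟩ ⟨0, 12, 0, false⟩ ⟨0, 6, 0, false⟩) .empty) (.del 15 ⟨3, 0, 0, 0, 4⟩ ⟨0, 0, 0, 0, 0⟩ ⟨3, 6, 0, true⟩ ⟨0, 6, 0, true⟩))),
    (71, (.del 15 ⟨3, 0, 0, 0, 4⟩ ⟨0, 0, 0, 0, 0⟩ ⟨3, 6, 0, true⟩ ⟨0, 6, 0, true⟩)),
    (77, (.s1 ⟨9, 0, 0, 0, 9⟩ (.sx ⟨3, 0, 0, 0, 3⟩ (.del 28 ⟨0, 1, 0, 0, 0⟩ ⟨0, 0, 0, 0, 0⟩ ⟨0, 12, 0, false⟩ ⟨0, 6, 0, false⟩) .empty) (.del 15 ⟨3, 0, 0, 0, 4⟩ ⟨0, 0, 0, 0, 0⟩ ⟨3, 6, 0, true⟩ ⟨0, 6, 0, true⟩)))]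
    [(6, (.sx ⟨3, 0, 0, 0, 3⟩ (.del 28 ⟨0, 1, 0, 0, 0⟩ ⟨0, 0, 0, 0, 0⟩ ⟨0, 12, 0, false⟩ ⟨0, 6, 0, false⟩) (.del 15 ⟨0, 1, 0, 0, -1⟩ ⟨0, 0, 0, 0, 0⟩ ⟨3, 6, 0, true⟩ ⟨0, 6, 0, true⟩))),
    (15, (.sx ⟨3, 0, 0, 0, 3⟩ (.del 28 ⟨0, 1, 0, 0, 0⟩ ⟨0, 0, 0, 0, 0⟩ ⟨0, 12, 0, false⟩ ⟨0, 6, 0, false⟩) (.del 15 ⟨0, 1, 0, 0, -1⟩ ⟨0, 0, 0, 0, 0⟩ ⟨3, 6, 0, true⟩ ⟨0, 6, 0, true⟩)))]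
    (.sx ⟨3, 0, 0, 0, 3⟩ (.del 28 ⟨0, 1, 0, 0, 0⟩ ⟨0, 0, 0, 0, 0⟩ ⟨0, 12, 0, false⟩ ⟨0, 6, 0, false⟩) (.swap (.del 11 ⟨0, 0, 0, 0, 0⟩ ⟨0, 0, 0, 0, 0⟩ ⟨0, 6, 0, true⟩ ⟨3, 3, 0, false⟩)))

theorem k29 : chkC env c29 p29 = true := by decide +kernel

def p122 : Pf :=
  .step []
    [(6, [⟨5, 0, 0, 0, 9⟩]),
    (9, [⟨6, 0, 0, 0, 8⟩]),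
    (10, [⟨6, 0, 0, 0, 8⟩]),
    (11, [⟨6, 0, 0, 0, 8⟩]),
    (20, [⟨6, 0, 0, 0, 8⟩]),
    (21, [⟨6, 0, 0, 0, 8⟩]),
    (22, [⟨6, 0, 0, 0, 8⟩]),
    (23, [⟨6, 0, 0, 0, 8⟩]),
    (24, [⟨6, 0, 0, 0, 8⟩]),
    (25, [⟨6, 0, 0, 0, 8⟩]),
    (26, [⟨6, 0, 0, 0, 8⟩]),
    (27, [⟨6, 0, 0, 0, 8⟩]),
    (28, [⟨6, 0, 0, 0, 8⟩]),
    (29, [⟨6, 0, 0, 0, 8⟩]),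
    (30, [⟨6, 0, 0, 0, 8⟩]),
    (31, [⟨6, 0, 0, 0, 8⟩]),
    (32, [⟨6, 0, 0, 0, 8⟩]),
    (33, [⟨6, 0, 0, 0, 8⟩]),
    (34, [⟨6, 0, 0, 0, 8⟩]),
    (35, [⟨6, 0, 0, 0, 8⟩]),
    (86, [⟨5, 0, 0, 0, 10⟩]),
    (87, [⟨6, 0, 0, 0, 7⟩]),
    (121, [⟨6, 0, 0, 0, 8⟩])]
    [6, 9, 11]
    []
    []
    [(6, (.cap 13)),
    (9, (.swap (.cap 21))),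
    (11, (.swap (.cap 19)))]
    []
    []
    (.del 121 ⟨0, 0, 0, 0, 0⟩ ⟨0, 0, 0, 0, 0⟩ ⟨13, 3, 8, false⟩ ⟨0, 21, 0, false⟩)

theorem k122 : chkC env c122 p122 = true := by decide +kernel

def p2 : Pf :=
  .step []
    [(3, [⟨10, 0, 0, 0, 20⟩]),
    (12, [⟨13, 0, 0, 0, 20⟩]),
    (13, [⟨15, 0, 0, 0, 21⟩]),
    (14, [⟨17, 0, 0, 0, 20⟩]),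
    (90, [⟨10, 0, 0, 0, 21⟩]),
    (91, [⟨11, 0, 0, 0, 21⟩]),
    (92, [⟨13, 0, 0, 0, 19⟩]),
    (93, [⟨13, 0, 0, 0, 19⟩]),
    (94, [⟨10, 0, 0, 0, 16⟩]),
    (95, [⟨13, 0, 0, 0, 21⟩]),
    (96, [⟨15, 0, 0, 0, 20⟩]),
    (97, [⟨15, 0, 0, 0, 20⟩]),
    (98, [⟨12, 0, 0, 0, 18⟩]),
    (99, [⟨15, 0, 0, 0, 22⟩]),
    (100, [⟨17, 0, 0, 0, 21⟩]),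
    (125, [⟨12, 0, 0, 0, 17⟩])]
    [3, 14, 125]
    [(13, (.cap 12)),
    (97, (.cap 11)),
    (98, (.cap 10)),
    (99, (.cap 13)),
    (100, (.cap 14))]
    [(46, (.cap 10)),
    (49, (.cap 13))]
    [(3, (.swap (.cap 0))),
    (14, (.swap (.cap 8))),
    (125, (.cap 9))]
    []
    []
    (.swap (.del 1 ⟨0, 0, 0, 0, 0⟩ ⟨0, 0, 0, 0, 0⟩ ⟨0, 8, 0, true⟩ ⟨0, 15, 0, false⟩))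

theorem k2 : chkC env c2 p2 = true := by decide +kernel

def p100 : Pf :=
  .step []
    [(1, [⟨12, 0, 0, 0, 24⟩]),
    (2, [⟨12, 0, 0, 0, 24⟩]),
    (8, [⟨12, 0, 0, 0, 24⟩]),
    (9, [⟨11, 0, 0, 0, 23⟩]),
    (78, [⟨12, 0, 0, 0, 24⟩]),
    (79, [⟨12, 0, 0, 0, 24⟩]),
    (80, [⟨12, 0, 0, 0, 24⟩]),
    (81, [⟨12, 0, 0, 0, 24⟩]),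
    (82, [⟨12, 0, 0, 0, 23⟩]),
    (83, [⟨11, 0, 0, 0, 24⟩])]
    [1, 2, 9]
    [(8, (.cap 24)),
    (78, (.s2 ⟨3, 0, 0, 0, 5⟩ (.swap (.del 97 ⟨0, 0, 0, 0, 0⟩ ⟨0, 0, 0, 0, 0⟩ ⟨1, 3, 0, false⟩ ⟨22, 2, 0, false⟩)) (.swap (.del 98 ⟨0, 0, 0, 0, 0⟩ ⟨0, 0, 0, 0, 0⟩ ⟨4, 2, 0, true⟩ ⟨22, 2, 0, false⟩)))),
    (79, (.swap (.del 98 ⟨0, 0, 0, 0, 0⟩ ⟨0, 0, 0, 0, 0⟩ ⟨4, 2, 0, true⟩ ⟨22, 2, 0, false⟩))),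
    (82, (.cap 23)),
    (83, (.cap 22))]
    [(18, (.swap (.del 98 ⟨0, 0, 0, 0, 0⟩ ⟨0, 0, 0, 0, 0⟩ ⟨4, 2, 0, true⟩ ⟨22, 2, 0, false⟩))),
    (24, (.cap 22))]
    [(1, (.swap (.cap 4))),
    (2, (.swap (.cap 7))),
    (9, (.cap 21))]
    []
    []
    (.del 99 ⟨0, 0, 0, 0, 0⟩ ⟨0, 0, 0, 0, 0⟩ ⟨17, 7, 0, false⟩ ⟨5, 3, 0, false⟩)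

theorem k100 : chkC env c100 p100 = true := by decide +kernel

def p4 : Pf :=
  .step [⟨5, 0, 0, 0, 7⟩]
    []
    [3, 125]
    [(94, (.del 1 ⟨0, 0, 0, 0, 0⟩ ⟨0, 0, 0, 0, 0⟩ ⟨9, 6, 2, false⟩ ⟨0, 9, 0, false⟩))]
    []
    [(3, (.cap 15)),
    (125, (.swap (.cap 9)))]
    [(48, (.s1 ⟨5, 0, 0, 0, 4⟩ (.rew 131 w5 ⟨3, 3, 0, false⟩ (.go 1 0 (.del 3 ⟨0, 0, 0, 0, 0⟩ ⟨0, 0, 0, 0, 0⟩ ⟨0, 13, 0, false⟩ ⟨0, 9, 0, false⟩))) (.s1 ⟨5, 0, 0, 0, 5⟩ (.go (-1) 0 (.del 3 ⟨0, 0, 0, 0, 0⟩ ⟨0, 0, 0, 0, 0⟩ ⟨3, 3, 0, false⟩ ⟨0, 9, 0, false⟩)) (.s1 ⟨7, 0, 0, 0, 4⟩ (.swap (.go 0 1 (.del 2 ⟨0, 0, 0, 0, 0⟩ ⟨0, 0, 0, 0, 0⟩ ⟨0, 9, 0, false⟩ ⟨9, 6, 0, true⟩))) (.swap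 (.go 0 (-1) (.del 2 ⟨0, 0, 0, 0, 0⟩ ⟨0, 0, 0, 0, 0⟩ ⟨0, 9, 0, false⟩ ⟨9, 6, 0, true⟩)))))))]
    []
    (.swap (.del 2 ⟨0, 0, 0, 0, 0⟩ ⟨0, 0, 0, 0, 0⟩ ⟨0, 9, 0, false⟩ ⟨9, 6, 0, true⟩))

theorem k4 : chkC env c4 p4 = true := by decide +kernel

def p39 : Pf :=
  .cover [(94, (.sx ⟨3, 0, 0, 0, 3⟩ (.del 38 ⟨0, 1, 0, 0, 0⟩ ⟨0, 0, 0, 0, 0⟩ ⟨0, 12, 0, false⟩ ⟨0, 13, 0, false⟩) (.s2 ⟨6, 0, 0, 0, 6⟩ (.rot (.swap (.del 25 ⟨0, 0, 0, 0, 0⟩ ⟨0, 0, 0, 0, 0⟩ ⟨0, 9, 0, false⟩ ⟨9, 3, 0, false⟩))) (.rot (.swap (.del 9 ⟨0, 0, 0, 0, 0⟩ ⟨0, 0, 0, 0, 0⟩ ⟨9, 3, 10, true⟩ ⟨9, 3, 0, false⟩))))))]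
    [(40, (.sx ⟨3, 0, 0, 0, 3⟩ (.del 38 ⟨0, 1, 0, 0, 0⟩ ⟨0, 0, 0, 0, 0⟩ ⟨0, 12, 0, false⟩ ⟨0, 13, 0, false⟩) (.s2 ⟨6, 0, 0, 0, 6⟩ (.rot (.swap (.del 25 ⟨0, 0, 0, 0, 0⟩ ⟨0, 0, 0, 0, 0⟩ ⟨0, 9, 0, false⟩ ⟨9, 3, 0, false⟩))) (.sj ⟨2, 0, 0, 0, 5⟩ .empty (.rot (.swap (.del 9 ⟨0, 0, 0, 0, 0⟩ ⟨0, 0, 0, 0, 0⟩ ⟨9, 3, 10, true⟩ ⟨9, 3, 0, false⟩)))))))]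
    (.sx ⟨3, 0, 0, 0, 3⟩ (.del 30 ⟨0, 1, 0, 0, 0⟩ ⟨-1, 0, 0, 0, 0⟩ ⟨0, 12, 0, false⟩ ⟨0, 9, 6, false⟩) (.swap (.del 21 ⟨0, 0, 0, 0, 0⟩ ⟨0, 0, 0, 0, 0⟩ ⟨0, 9, 3, true⟩ ⟨3, 6, 0, false⟩)))

theorem k39 : chkC env c39 p39 = true := by decide +kernel

def p5 : Pf :=
  .step [⟨5, 0, 0, 0, 6⟩]
    []
    [3, 13, 125]
    [(94, (.del 1 ⟨0, 0, 0, 0, 0⟩ ⟨0, 0, 0, 0, 0⟩ ⟨6, 3, 5, false⟩ ⟨0, 9, 0, false⟩))]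
    []
    [(3, (.cap 9)),
    (13, (.swap (.del 2 ⟨0, 0, 0, 0, 0⟩ ⟨0, 0, 0, 0, 0⟩ ⟨0, 9, 0, false⟩ ⟨6, 3, 0, true⟩))),
    (125, (.swap (.cap 9)))]
    []
    []
    (.swap (.del 2 ⟨0, 0, 0, 0, 0⟩ ⟨0, 0, 0, 0, 0⟩ ⟨0, 9, 0, false⟩ ⟨6, 3, 0, true⟩))

theorem k5 : chkC env c5 p5 = true := by decide +kernel

def p7 : Pf :=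
  .step []
    [(0, [⟨6, 0, 0, 0, 11⟩]),
    (138, [⟨3, 0, 0, 0, 7⟩]),
    (222, [⟨3, 0, 0, 0, 8⟩]),
    (223, [⟨6, 0, 0, 0, 10⟩])]
    [0, 138]
    []
    []
    [(0, (.del 6 ⟨0, 1, 0, 0, 0⟩ ⟨0, 0, 0, 0, 0⟩ ⟨0, 6, 0, false⟩ ⟨0, 3, 0, false⟩)),
    (138, (.rot (.swap (.del 4 ⟨0, 0, 0, 0, 0⟩ ⟨0, 0, 0, 0, 0⟩ ⟨0, 6, 0, false⟩ ⟨3, 3, 6, false⟩))))]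
    []
    []
    (.sx ⟨0, 0, 0, 0, 1⟩ (.rot (.swap (.del 4 ⟨0, 0, 0, 0, 0⟩ ⟨0, 0, 0, 0, 0⟩ ⟨0, 6, 0, false⟩ ⟨3, 3, 6, false⟩))) (.del 7 ⟨0, 1, 0, 0, -1⟩ ⟨0, 0, 0, 0, 0⟩ ⟨0, 6, 0, false⟩ ⟨0, 6, 0, false⟩))

theorem k7 : chkC env c7 p7 = true := by decide +kernel

def p105 : Pf :=
  .step []
    [(3, [⟨3, 0, 0, 0, 0⟩]),
    (12, [⟨6, 0, 0, 0, 0⟩]),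
    (90, [⟨3, 0, 0, 0, 1⟩]),
    (91, [⟨4, 0, 0, 0, 1⟩]),
    (92, [⟨6, 0, 0, 0, -1⟩])]
    [3, 12]
    [(91, (.cap 9)),
    (92, (.cap 10))]
    [(37, (.cap 9))]
    [(3, (.cap 7)),
    (12, (.swap (.cap 2)))]
    []
    []
    (.cap 8)

theorem k105 : chkC env c105 p105 = true := by decide +kernel

def p51 : Pf :=
  .cover [(83, (.sx ⟨3, 0, 0, 0, 3⟩ (.del 48 ⟨0, 1, 0, 0, 0⟩ ⟨0, 0, 0, 0, 0⟩ ⟨0, 12, 0, false⟩ ⟨5, 0, 5, false⟩) (.swap (.del 9 ⟨0, 0, 0, 0, 0⟩ ⟨0, 0, 0, 0, 0⟩ ⟨0, 5, 3, false⟩ ⟨3, 3, 0, false⟩))))]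
    []
    (.sx ⟨3, 0, 0, 0, 3⟩ (.del 50 ⟨0, 1, 0, 0, 0⟩ ⟨0, 0, 0, 0, 0⟩ ⟨0, 12, 0, false⟩ ⟨0, 5, 0, false⟩) (.swap (.del 18 ⟨0, 0, 0, 0, 0⟩ ⟨0, 0, 0, 0, 0⟩ ⟨0, 5, 5, true⟩ ⟨3, 6, 0, false⟩)))

theorem k51 : chkC env c51 p51 = true := by decide +kernel

def p72 : Pf :=
  .step [⟨4, 0, 0, 0, 6⟩]
    []
    [2, 8]
    [(80, (.swap (.del 33 ⟨-3, 0, 0, 0, -4⟩ ⟨0, 0, 0, 0, 0⟩ ⟨0, 3, 3, false⟩ ⟨3, 3, 0, true⟩)))]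
    []
    [(2, (.sx ⟨0, 0, 0, 0, 1⟩ (.swap (.del 31 ⟨-3, 0, 0, 0, -4⟩ ⟨0, 0, 0, 0, 0⟩ ⟨0, 3, 3, false⟩ ⟨3, 0, 6, false⟩)) (.del 69 ⟨0, 1, 0, 0, -1⟩ ⟨0, 0, 0, 0, 0⟩ ⟨0, 3, 0, false⟩ ⟨0, 3, 0, false⟩))),
    (8, (.swap (.del 43 ⟨-3, 0, 0, 0, -4⟩ ⟨0, 0, 0, 0, 0⟩ ⟨0, 3, 3, false⟩ ⟨3, 3, 9, true⟩)))]
    []
    []
    (.swap (.del 43 ⟨-3, 0, 0, 0, -4⟩ ⟨0, 0, 0, 0, 0⟩ ⟨0, 3, 3, false⟩ ⟨3, 3, 9, true⟩))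

theorem k72 : chkC env c72 p72 = true := by decide +kernel

def p86 : Pf :=
  .step []
    [(2, [⟨3, 0, 0, 0, 5⟩]),
    (5, [⟨6, 0, 0, 0, 9⟩]),
    (70, [⟨3, 0, 0, 0, 6⟩]),
    (71, [⟨6, 0, 0, 0, 8⟩])]
    [2, 5]
    [(71, (.cap 4))]
    []
    [(2, (.cap 2)),
    (5, (.swap (.cap 2)))]
    []
    []
    (.cap 3)

theorem k86 : chkC env c86 p86 = true := by decide +kernel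

def p113 : Pf :=
  .step []
    [(3, [⟨3, 0, 0, 0, 6⟩]),
    (7, [⟨4, 0, 0, 0, 6⟩]),
    (74, [⟨3, 0, 0, 0, 7⟩]),
    (75, [⟨4, 0, 0, 0, 5⟩])]
    [3, 7]
    [(75, (.cap 5))]
    []
    [(3, (.cap 3)),
    (7, (.swap (.cap 2)))]
    []
    []
    (.cap 4)

theorem k113 : chkC env c113 p113 = true := by decide +kernel

def p96 : Pf :=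
  .step []
    [(125, [⟨1, 0, 0, 0, 1⟩]),
    (129, [⟨4, 0, 0, 0, 5⟩]),
    (193, [⟨1, 0, 0, 0, 2⟩]),
    (194, [⟨4, 0, 0, 0, 4⟩])]
    [125, 129]
    [(194, (.cap 6))]
    []
    [(125, (.cap 4)),
    (129, (.s1 ⟨4, 0, 0, 0, 4⟩ (.del 94 ⟨0, 0, 0, 0, 0⟩ ⟨0, 0, 0, 0, 0⟩ ⟨0, 7, 6, true⟩ ⟨0, 21, 0, false⟩) (.cap 7)))]
    []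
    []
    (.cap 5)

theorem k96 : chkC env c96 p96 = true := by decide +kernel

def p67 : Pf :=
  .cover [(80, (.del 33 ⟨-3, 0, 0, 0, -4⟩ ⟨0, 0, 0, 0, 0⟩ ⟨0, 3, 3, false⟩ ⟨3, 3, 0, true⟩))]
    []
    (.del 43 ⟨-3, 0, 0, 0, -4⟩ ⟨0, 0, 0, 0, 0⟩ ⟨0, 3, 3, false⟩ ⟨3, 3, 9, true⟩)

theorem k67 : chkC env c67 p67 = true := by decide +kernel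

def p68 : Pf :=
  .cover []
    []
    (.del 31 ⟨-3, 0, 0, 0, -4⟩ ⟨0, 0, 0, 0, 0⟩ ⟨0, 3, 3, false⟩ ⟨3, 3, 6, false⟩)

theorem k68 : chkC env c68 p68 = true := by decide +kernel

end Pool.Agent.Lib.MP_1fc36f_co.H61
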