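import Pool.Agent.Lib.MP_1fc36f_co.H61Env

/-! Checked proofs of the claims. -/

namespace Pool.Agent.Lib.MP_1fc36f_co.H61

open Pool.Agent.Lib.MP_1fc36f_co.H45

def e1 : List (ℕ × ℕ × ℕ × Tree) :=
  [(8, 9, 21, (.swap (.del 107 ⟨0, 0, 0, 0, 0⟩ ⟨0, 0, 0, 0, 0⟩ ⟨0, 0, 1, false⟩ ⟨0, 0, 16, false⟩))),
   (8, 17, 21, (.swap (.del 107 ⟨0, 0, 0, 0, 0⟩ ⟨0, 0, 0, 0, 0⟩ ⟨0, 0, 0, false⟩ ⟨0, 0, 16, false⟩))),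
   (8, 23, 21, (.swap (.del 106 ⟨0, 0, 0, 0, 0⟩ ⟨0, 0, 0, 0, 0⟩ ⟨0, 0, 2, false⟩ ⟨0, 0, 16, false⟩))),
   (19, 9, 21, (.swap (.del 107 ⟨0, 0, 0, 0, 0⟩ ⟨0, 0, 0, 0, 0⟩ ⟨0, 0, 1, false⟩ ⟨0, 0, 15, false⟩))),
   (19, 17, 21, (.swap (.del 107 ⟨0, 0, 0, 0, 0⟩ ⟨0, 0, 0, 0, 0⟩ ⟨0, 0, 0, false⟩ ⟨0, 0, 15, false⟩))),
   (19, 23, 21, (.swap (.del 106 ⟨0, 0, 0, 0, 0⟩ ⟨0, 0, 0, 0, 0⟩ ⟨0, 0, 2, false⟩ ⟨0, 0, 15, false⟩)))]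

theorem j1 : chkTab env t1 e1 = true := by decide +kernel

def p115 : Pf :=
  .step [⟨1, 0, 0, 0, 4⟩]
    []
    [1, 4, 7, 9, 18, 125, 129, 131]
    [(14, (.del 112 ⟨0, 0, 0, 0, 0⟩ ⟨0, 0, 0, 0, 0⟩ ⟨6, 4, 0, false⟩ ⟨0, 21, 0, false⟩)),
    (15, (.del 112 ⟨0, 0, 0, 0, 0⟩ ⟨0, 0, 0, 0, 0⟩ ⟨6, 4, 0, false⟩ ⟨0, 21, 0, false⟩)),
    (16, (.del 112 ⟨0, 0, 0, 0, 0⟩ ⟨0, 0, 0, 0, 0⟩ ⟨6, 4, 0, false⟩ ⟨0, 21, 0, false⟩)),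
    (36, (.del 112 ⟨0, 0, 0, 0, 0⟩ ⟨0, 0, 0, 0, 0⟩ ⟨6, 4, 0, false⟩ ⟨0, 21, 0, false⟩)),
    (37, (.del 112 ⟨0, 0, 0, 0, 0⟩ ⟨0, 0, 0, 0, 0⟩ ⟨6, 4, 0, false⟩ ⟨0, 21, 0, false⟩)),
    (38, (.del 112 ⟨0, 0, 0, 0, 0⟩ ⟨0, 0, 0, 0, 0⟩ ⟨6, 4, 0, false⟩ ⟨0, 21, 0, false⟩)),
    (39, (.del 112 ⟨0, 0, 0, 0, 0⟩ ⟨0, 0, 0, 0, 0⟩ ⟨6, 4, 0, false⟩ ⟨0, 21, 0, false⟩)),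
    (40, (.del 112 ⟨0, 0, 0, 0, 0⟩ ⟨0, 0, 0, 0, 0⟩ ⟨6, 4, 0, false⟩ ⟨0, 21, 0, false⟩)),
    (41, (.del 112 ⟨0, 0, 0, 0, 0⟩ ⟨0, 0, 0, 0, 0⟩ ⟨6, 4, 0, false⟩ ⟨0, 21, 0, false⟩)),
    (42, (.del 112 ⟨0, 0, 0, 0, 0⟩ ⟨0, 0, 0, 0, 0⟩ ⟨6, 4, 0, false⟩ ⟨0, 21, 0, false⟩)),
    (43, (.del 112 ⟨0, 0, 0, 0, 0⟩ ⟨0, 0, 0, 0, 0⟩ ⟨6, 4, 0, false⟩ ⟨0, 21, 0, false⟩)),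
    (44, (.del 112 ⟨0, 0, 0, 0, 0⟩ ⟨0, 0, 0, 0, 0⟩ ⟨6, 4, 0, false⟩ ⟨0, 21, 0, false⟩)),
    (45, (.del 112 ⟨0, 0, 0, 0, 0⟩ ⟨0, 0, 0, 0, 0⟩ ⟨6, 4, 0, false⟩ ⟨0, 21, 0, false⟩)),
    (46, (.del 112 ⟨0, 0, 0, 0, 0⟩ ⟨0, 0, 0, 0, 0⟩ ⟨6, 4, 0, false⟩ ⟨0, 21, 0, false⟩)),
    (47, (.del 112 ⟨0, 0, 0, 0, 0⟩ ⟨0, 0, 0, 0, 0⟩ ⟨6, 4, 0, false⟩ ⟨0, 21, 0, false⟩)),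
    (48, (.del 112 ⟨0, 0, 0, 0, 0⟩ ⟨0, 0, 0, 0, 0⟩ ⟨6, 4, 0, false⟩ ⟨0, 21, 0, false⟩)),
    (49, (.del 112 ⟨0, 0, 0, 0, 0⟩ ⟨0, 0, 0, 0, 0⟩ ⟨6, 4, 0, false⟩ ⟨0, 21, 0, false⟩)),
    (50, (.del 112 ⟨0, 0, 0, 0, 0⟩ ⟨0, 0, 0, 0, 0⟩ ⟨6, 4, 0, false⟩ ⟨0, 21, 0, false⟩)),
    (51, (.del 112 ⟨0, 0, 0, 0, 0⟩ ⟨0, 0, 0, 0, 0⟩ ⟨6, 4, 0, false⟩ ⟨0, 21, 0, false⟩)),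
    (78, (.swap (.del 100 ⟨0, 0, 0, 0, 0⟩ ⟨0, 0, 0, 0, 0⟩ ⟨0, 21, 0, false⟩ ⟨6, 4, 0, false⟩))),
    (98, (.del 112 ⟨0, 0, 0, 0, 0⟩ ⟨0, 0, 0, 0, 0⟩ ⟨6, 4, 0, false⟩ ⟨0, 21, 0, false⟩)),
    (100, (.del 112 ⟨0, 0, 0, 0, 0⟩ ⟨0, 0, 0, 0, 0⟩ ⟨6, 4, 0, false⟩ ⟨0, 21, 0, false⟩)),
    (103, (.del 112 ⟨0, 0, 0, 0, 0⟩ ⟨0, 0, 0, 0, 0⟩ ⟨6, 4, 0, false⟩ ⟨0, 21, 0, false⟩)),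
    (104, (.del 112 ⟨0, 0, 0, 0, 0⟩ ⟨0, 0, 0, 0, 0⟩ ⟨6, 4, 0, false⟩ ⟨0, 21, 0, false⟩)),
    (105, (.del 112 ⟨0, 0, 0, 0, 0⟩ ⟨0, 0, 0, 0, 0⟩ ⟨6, 4, 0, false⟩ ⟨0, 21, 0, false⟩)),
    (106, (.del 112 ⟨0, 0, 0, 0, 0⟩ ⟨0, 0, 0, 0, 0⟩ ⟨6, 4, 0, false⟩ ⟨0, 21, 0, false⟩)),
    (110, (.del 76 ⟨0, 0, 0, 0, 0⟩ ⟨0, 0, 0, 0, 0⟩ ⟨6, 15, 0, true⟩ ⟨0, 21, 0, false⟩)),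
    (113, (.swap (.del 88 ⟨0, 0, 0, 0, 0⟩ ⟨0, 0, 0, 0, 0⟩ ⟨0, 21, 0, false⟩ ⟨6, 4, 0, false⟩))),
    (114, (.swap (.del 88 ⟨0, 0, 0, 0, 0⟩ ⟨0, 0, 0, 0, 0⟩ ⟨0, 21, 0, false⟩ ⟨6, 4, 0, false⟩))),
    (115, (.swap (.del 88 ⟨0, 0, 0, 0, 0⟩ ⟨0, 0, 0, 0, 0⟩ ⟨0, 21, 0, false⟩ ⟨6, 4, 0, false⟩))),
    (116, (.swap (.del 88 ⟨0, 0, 0, 0, 0⟩ ⟨0, 0, 0, 0, 0⟩ ⟨0, 21, 0, false⟩ ⟨6, 4, 0, false⟩))),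
    (117, (.swap (.del 88 ⟨0, 0, 0, 0, 0⟩ ⟨0, 0, 0, 0, 0⟩ ⟨0, 21, 0, false⟩ ⟨6, 4, 0, false⟩))),
    (123, (.del 112 ⟨0, 0, 0, 0, 0⟩ ⟨0, 0, 0, 0, 0⟩ ⟨6, 4, 0, false⟩ ⟨0, 21, 0, false⟩)),
    (124, (.del 112 ⟨0, 0, 0, 0, 0⟩ ⟨0, 0, 0, 0, 0⟩ ⟨6, 4, 0, false⟩ ⟨0, 21, 0, false⟩))]
    [(55, (.del 112 ⟨0, 0, 0, 0, 0⟩ ⟨0, 0, 0, 0, 0⟩ ⟨6, 4, 0, false⟩ ⟨0, 21, 0, false⟩)),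
    (58, (.del 112 ⟨0, 0, 0, 0, 0⟩ ⟨0, 0, 0, 0, 0⟩ ⟨6, 4, 0, false⟩ ⟨0, 21, 0, false⟩))]
    [(1, (.cap 10)),
    (4, (.cap 6)),
    (7, (.swap (.cap 16))),
    (9, (.swap (.cap 21))),
    (18, (.swap (.del 92 ⟨0, 0, 0, 0, 0⟩ ⟨0, 0, 0, 0, 0⟩ ⟨0, 21, 0, true⟩ ⟨0, 21, 0, false⟩))),
    (125, (.swap (.cap 9))),
    (129, (.swap (.cap 6))),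
    (131, (.swap (.cap 13)))]
    []
    []
    (.del 114 ⟨0, 0, 0, 0, 0⟩ ⟨0, 0, 0, 0, 0⟩ ⟨6, 4, 0, false⟩ ⟨0, 21, 0, false⟩)

theorem k115 : chkC env c115 p115 = true := by decide +kernel

def p92 : Pf :=
  .step []
    [(4, [⟨11, 0, 0, 0, 20⟩]),
    (17, [⟨11, 0, 0, 0, 20⟩]),
    (18, [⟨11, 0, 0, 0, 20⟩]),
    (19, [⟨11, 0, 0, 0, 20⟩]),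
    (52, [⟨11, 0, 0, 0, 20⟩]),
    (53, [⟨11, 0, 0, 0, 20⟩]),
    (54, [⟨11, 0, 0, 0, 20⟩]),
    (55, [⟨11, 0, 0, 0, 20⟩]),
    (56, [⟨11, 0, 0, 0, 20⟩]),
    (57, [⟨11, 0, 0, 0, 20⟩]),
    (58, [⟨11, 0, 0, 0, 20⟩]),
    (59, [⟨11, 0, 0, 0, 20⟩]),
    (60, [⟨11, 0, 0, 0, 20⟩]),
    (61, [⟨11, 0, 0, 0, 20⟩]),
    (62, [⟨11, 0, 0, 0, 20⟩]),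
    (63, [⟨11, 0, 0, 0, 20⟩]),
    (64, [⟨11, 0, 0, 0, 20⟩]),
    (65, [⟨11, 0, 0, 0, 20⟩]),
    (66, [⟨11, 0, 0, 0, 20⟩]),
    (67, [⟨11, 0, 0, 0, 20⟩]),
    (111, [⟨11, 0, 0, 0, 20⟩]),
    (112, [⟨11, 0, 0, 0, 20⟩]),
    (113, [⟨11, 0, 0, 0, 22⟩]),
    (114, [⟨11, 0, 0, 0, 21⟩]),
    (115, [⟨11, 0, 0, 0, 20⟩]),
    (116, [⟨11, 0, 0, 0, 19⟩]),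
    (117, [⟨11, 0, 0, 0, 18⟩]),
    (118, [⟨6, 0, 0, 0, 13⟩]),
    (119, [⟨11, 0, 0, 0, 19⟩]),
    (120, [⟨10, 0, 0, 0, 20⟩]),
    (129, [⟨10, 0, 0, 0, 19⟩])]
    [4, 118, 129]
    [(19, (.cap 18)),
    (112, (.s2 ⟨1, 0, 0, 0, 4⟩ (.swap (.del 91 ⟨0, 0, 0, 0, 0⟩ ⟨0, 0, 0, 0, 0⟩ ⟨0, 6, 0, false⟩ ⟨0, 21, 0, true⟩)) (.del 88 ⟨0, 0, 0, 0, 0⟩ ⟨0, 0, 0, 0, 0⟩ ⟨0, 21, 0, true⟩ ⟨6, 4, 0, false⟩))),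
    (113, (.s2 ⟨1, 0, 0, 0, 4⟩ (.swap (.del 77 ⟨0, 0, 0, 0, 0⟩ ⟨0, 0, 0, 0, 0⟩ ⟨0, 6, 0, false⟩ ⟨0, 21, 0, true⟩)) (.swap (.del 76 ⟨0, 0, 0, 0, 0⟩ ⟨0, 0, 0, 0, 0⟩ ⟨6, 15, 0, true⟩ ⟨0, 21, 0, true⟩)))),
    (114, (.s2 ⟨1, 0, 0, 0, 4⟩ (.swap (.del 77 ⟨0, 0, 0, 0, 0⟩ ⟨0, 0, 0, 0, 0⟩ ⟨0, 6, 0, false⟩ ⟨0, 21, 0, true⟩)) (.swap (.del 76 ⟨0, 0, 0, 0, 0⟩ ⟨0, 0, 0, 0, 0⟩ ⟨6, 15, 0, true⟩ ⟨0, 21, 0, true⟩)))),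
    (115, (.s2 ⟨1, 0, 0, 0, 4⟩ (.swap (.del 77 ⟨0, 0, 0, 0, 0⟩ ⟨0, 0, 0, 0, 0⟩ ⟨0, 6, 0, false⟩ ⟨0, 21, 0, true⟩)) (.swap (.del 76 ⟨0, 0, 0, 0, 0⟩ ⟨0, 0, 0, 0, 0⟩ ⟨6, 15, 0, true⟩ ⟨0, 21, 0, true⟩)))),
    (116, (.s2 ⟨1, 0, 0, 0, 4⟩ (.swap (.del 77 ⟨0, 0, 0, 0, 0⟩ ⟨0, 0, 0, 0, 0⟩ ⟨0, 6, 0, false⟩ ⟨0, 21, 0, true⟩)) (.swap (.del 76 ⟨0, 0, 0, 0, 0⟩ ⟨0, 0, 0, 0, 0⟩ ⟨6, 15, 0, true⟩ ⟨0, 21, 0, true⟩)))),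
    (117, (.s2 ⟨1, 0, 0, 0, 4⟩ (.swap (.del 77 ⟨0, 0, 0, 0, 0⟩ ⟨0, 0, 0, 0, 0⟩ ⟨0, 6, 0, false⟩ ⟨0, 21, 0, true⟩)) (.swap (.del 76 ⟨0, 0, 0, 0, 0⟩ ⟨0, 0, 0, 0, 0⟩ ⟨6, 15, 0, true⟩ ⟨0, 21, 0, true⟩)))),
    (119, (.cap 17)),
    (120, (.cap 16))]
    [(74, (.s2 ⟨1, 0, 0, 0, 4⟩ (.swap (.del 77 ⟨0, 0, 0, 0, 0⟩ ⟨0, 0, 0, 0, 0⟩ ⟨0, 6, 0, false⟩ ⟨0, 21, 0, true⟩)) (.swap (.del 76 ⟨0, 0, 0, 0, 0⟩ ⟨0, 0, 0, 0, 0⟩ ⟨6, 15, 0, true⟩ ⟨0, 21, 0, true⟩)))),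
    (77, (.cap 16))]
    [(4, (.swap (.cap 6))),
    (118, (.s2 ⟨1, 0, 0, 0, 4⟩ (.swap (.del 77 ⟨0, 0, 0, 0, 0⟩ ⟨0, 0, 0, 0, 0⟩ ⟨0, 6, 0, false⟩ ⟨0, 21, 0, true⟩)) (.swap (.del 76 ⟨0, 0, 0, 0, 0⟩ ⟨0, 0, 0, 0, 0⟩ ⟨6, 15, 0, true⟩ ⟨0, 21, 0, true⟩)))),
    (129, (.cap 15))]
    []
    []
    (.s2 ⟨1, 0, 0, 0, 4⟩ (.swap (.del 91 ⟨0, 0, 0, 0, 0⟩ ⟨0, 0, 0, 0, 0⟩ ⟨0, 6, 0, false⟩ ⟨0, 21, 0, true⟩)) (.swap (.del 90 ⟨0, 0, 0, 0, 0⟩ ⟨0, 0, 0, 0, 0⟩ ⟨6, 15, 0, true⟩ ⟨0, 21, 0, true⟩)))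

theorem k92 : chkC env c92 p92 = true := by decide +kernel

def p21 : Pf :=
  .step [⟨7, 0, 0, 0, 6⟩]
    [(2, [⟨8, 0, 0, 0, 5⟩]),
    (3, [⟨8, 0, 0, 0, 6⟩]),
    (5, [⟨5, 0, 0, 0, 1⟩]),
    (7, [⟨7, 0, 0, 0, 6⟩]),
    (12, [⟨5, 0, 0, 0, 6⟩]),
    (13, [⟨3, 0, 0, 0, 5⟩]),
    (70, [⟨8, 0, 0, 0, 4⟩]),
    (71, [⟨5, 0, 0, 0, 2⟩]),
    (74, [⟨8, 0, 0, 0, 5⟩]),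
    (75, [⟨7, 0, 0, 0, 7⟩]),
    (76, [⟨5, 0, 0, 0, 0⟩]),
    (77, [⟨8, 0, 0, 0, 4⟩]),
    (80, [⟨6, 0, 0, 0, -2⟩]),
    (81, [⟨8, 0, 0, 0, 4⟩]),
    (90, [⟨8, 0, 0, 0, 5⟩]),
    (91, [⟨7, 0, 0, 0, 5⟩]),
    (92, [⟨5, 0, 0, 0, 7⟩]),
    (93, [⟨5, 0, 0, 0, 5⟩]),
    (94, [⟨2, 0, 0, 0, 2⟩]),
    (95, [⟨5, 0, 0, 0, 5⟩]),
    (96, [⟨3, 0, 0, 0, 6⟩]),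
    (125, [⟨2, 0, 0, 0, 1⟩])]
    [5, 7, 13, 125]
    [(2, (.swap (.del 15 ⟨3, 0, 0, 0, 4⟩ ⟨0, 0, 0, 0, 0⟩ ⟨0, 6, 0, true⟩ ⟨12, 3, 0, true⟩))),
    (3, (.del 18 ⟨0, 0, 0, 0, 0⟩ ⟨0, 0, 0, 0, 0⟩ ⟨12, 3, 10, false⟩ ⟨0, 9, 0, false⟩)),
    (70, (.swap (.del 15 ⟨3, 0, 0, 0, 4⟩ ⟨0, 0, 0, 0, 0⟩ ⟨0, 6, 0, true⟩ ⟨12, 3, 0, true⟩))),
    (71, (.swap (.del 15 ⟨3, 0, 0, 0, 4⟩ ⟨0, 0, 0, 0, 0⟩ ⟨0, 6, 0, true⟩ ⟨12, 3, 0, true⟩))),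
    (74, (.del 18 ⟨0, 0, 0, 0, 0⟩ ⟨0, 0, 0, 0, 0⟩ ⟨12, 3, 10, false⟩ ⟨0, 9, 0, false⟩)),
    (75, (.del 18 ⟨0, 0, 0, 0, 0⟩ ⟨0, 0, 0, 0, 0⟩ ⟨12, 3, 10, false⟩ ⟨0, 9, 0, false⟩)),
    (77, (.swap (.del 15 ⟨3, 0, 0, 0, 4⟩ ⟨0, 0, 0, 0, 0⟩ ⟨0, 6, 0, true⟩ ⟨12, 3, 0, true⟩))),
    (81, (.swap (.del 16 ⟨3, 0, 0, 0, 4⟩ ⟨0, 0, 0, 0, 0⟩ ⟨0, 6, 0, true⟩ ⟨12, 3, 0, true⟩))),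
    (94, (.del 1 ⟨0, 0, 0, 0, 0⟩ ⟨0, 0, 0, 0, 0⟩ ⟨9, 6, 2, false⟩ ⟨0, 9, 0, false⟩))]
    [(6, (.swap (.del 15 ⟨3, 0, 0, 0, 4⟩ ⟨0, 0, 0, 0, 0⟩ ⟨0, 6, 0, true⟩ ⟨12, 3, 0, true⟩))),
    (12, (.del 18 ⟨0, 0, 0, 0, 0⟩ ⟨0, 0, 0, 0, 0⟩ ⟨12, 3, 10, false⟩ ⟨0, 9, 0, false⟩)),
    (15, (.swap (.del 15 ⟨3, 0, 0, 0, 4⟩ ⟨0, 0, 0, 0, 0⟩ ⟨0, 6, 0, true⟩ ⟨12, 3, 0, true⟩))),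
    (21, (.swap (.del 16 ⟨3, 0, 0, 0, 4⟩ ⟨0, 0, 0, 0, 0⟩ ⟨0, 6, 0, true⟩ ⟨12, 3, 0, true⟩)))]
    [(5, (.swap (.cap 3))),
    (7, (.cap 12)),
    (13, (.del 4 ⟨0, 0, 0, 0, 0⟩ ⟨0, 0, 0, 0, 0⟩ ⟨0, 15, 0, false⟩ ⟨0, 9, 0, false⟩)),
    (125, (.swap (.cap 9)))]
    []
    [(15, (.swap (.del 15 ⟨3, 0, 0, 0, 4⟩ ⟨0, 0, 0, 0, 0⟩ ⟨0, 6, 0, true⟩ ⟨12, 3, 0, true⟩))),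
    (21, (.swap (.del 16 ⟨3, 0, 0, 0, 4⟩ ⟨0, 0, 0, 0, 0⟩ ⟨0, 6, 0, true⟩ ⟨12, 3, 0, true⟩)))]
    (.swap (.del 2 ⟨0, 0, 0, 0, 0⟩ ⟨0, 0, 0, 0, 0⟩ ⟨0, 9, 0, false⟩ ⟨9, 6, 0, true⟩))

theorem k21 : chkC env c21 p21 = true := by decide +kernel

def p126 : Pf :=
  .cover [(17, (.swap (.del 91 ⟨0, 0, 0, 0, 0⟩ ⟨0, 0, 0, 0, 0⟩ ⟨0, 0, 0, false⟩ ⟨0, 0, 0, false⟩))),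
    (18, (.swap (.del 91 ⟨0, 0, 0, 0, 0⟩ ⟨0, 0, 0, 0, 0⟩ ⟨0, 0, 0, false⟩ ⟨0, 0, 0, false⟩))),
    (52, (.swap (.del 91 ⟨0, 0, 0, 0, 0⟩ ⟨0, 0, 0, 0, 0⟩ ⟨0, 0, 0, false⟩ ⟨0, 0, 0, false⟩))),
    (53, (.swap (.del 91 ⟨0, 0, 0, 0, 0⟩ ⟨0, 0, 0, 0, 0⟩ ⟨0, 0, 0, false⟩ ⟨0, 0, 0, false⟩))),
    (55, (.swap (.del 91 ⟨0, 0, 0, 0, 0⟩ ⟨0, 0, 0, 0, 0⟩ ⟨0, 0, 0, false⟩ ⟨0, 0, 0, false⟩))),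
    (56, (.swap (.del 91 ⟨0, 0, 0, 0, 0⟩ ⟨0, 0, 0, 0, 0⟩ ⟨0, 0, 0, false⟩ ⟨0, 0, 0, false⟩))),
    (57, (.swap (.del 91 ⟨0, 0, 0, 0, 0⟩ ⟨0, 0, 0, 0, 0⟩ ⟨0, 0, 0, false⟩ ⟨0, 0, 0, false⟩))),
    (58, (.swap (.del 91 ⟨0, 0, 0, 0, 0⟩ ⟨0, 0, 0, 0, 0⟩ ⟨0, 0, 0, false⟩ ⟨0, 0, 0, false⟩))),
    (59, (.swap (.del 91 ⟨0, 0, 0, 0, 0⟩ ⟨0, 0, 0, 0, 0⟩ ⟨0, 0, 0, false⟩ ⟨0, 0, 0, false⟩))),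
    (60, (.swap (.del 91 ⟨0, 0, 0, 0, 0⟩ ⟨0, 0, 0, 0, 0⟩ ⟨0, 0, 0, false⟩ ⟨0, 0, 0, false⟩))),
    (61, (.swap (.del 91 ⟨0, 0, 0, 0, 0⟩ ⟨0, 0, 0, 0, 0⟩ ⟨0, 0, 0, false⟩ ⟨0, 0, 0, false⟩))),
    (62, (.swap (.del 91 ⟨0, 0, 0, 0, 0⟩ ⟨0, 0, 0, 0, 0⟩ ⟨0, 0, 0, false⟩ ⟨0, 0, 0, false⟩))),
    (111, (.swap (.del 91 ⟨0, 0, 0, 0, 0⟩ ⟨0, 0, 0, 0, 0⟩ ⟨0, 0, 0, false⟩ ⟨0, 0, 0, false⟩))),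
    (113, (.swap (.del 115 ⟨0, 0, 0, 0, 0⟩ ⟨0, 0, 0, 0, 0⟩ ⟨0, 0, 0, false⟩ ⟨0, 0, 0, false⟩)))]
    []
    (.del 125 ⟨0, 0, 0, 0, 0⟩ ⟨0, 0, 0, 0, 0⟩ ⟨0, 0, 0, false⟩ ⟨0, 0, 0, false⟩)

theorem k126 : chkC env c126 p126 = true := by decide +kernel

def p76 : Pf :=
  .step []
    [(2, [⟨13, 0, 0, 0, 26⟩]),
    (4, [⟨10, 0, 0, 0, 19⟩]),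
    (5, [⟨13, 0, 0, 0, 26⟩]),
    (18, [⟨13, 0, 0, 0, 26⟩]),
    (70, [⟨13, 0, 0, 0, 26⟩]),
    (71, [⟨13, 0, 0, 0, 26⟩]),
    (107, [⟨10, 0, 0, 0, 20⟩]),
    (108, [⟨13, 0, 0, 0, 25⟩]),
    (109, [⟨13, 0, 0, 0, 26⟩]),
    (110, [⟨13, 0, 0, 0, 26⟩]),
    (113, [⟨13, 0, 0, 0, 26⟩]),
    (114, [⟨13, 0, 0, 0, 26⟩]),
    (115, [⟨13, 0, 0, 0, 26⟩]),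
    (116, [⟨13, 0, 0, 0, 26⟩]),
    (117, [⟨13, 0, 0, 0, 26⟩]),
    (118, [⟨13, 0, 0, 0, 26⟩]),
    (129, [⟨13, 0, 0, 0, 26⟩])]
    [2, 4, 18, 129]
    [(5, (.del 75 ⟨0, 0, 0, 0, 0⟩ ⟨0, 0, 0, 0, 0⟩ ⟨15, 3, 3, false⟩ ⟨0, 21, 0, false⟩)),
    (70, (.swap (.del 69 ⟨1, 0, 0, 0, 0⟩ ⟨0, 0, 0, 0, 0⟩ ⟨13, 3, 0, false⟩ ⟨15, 3, 0, false⟩))),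
    (71, (.swap (.del 69 ⟨1, 0, 0, 0, 0⟩ ⟨0, 0, 0, 0, 0⟩ ⟨13, 3, 0, false⟩ ⟨15, 3, 0, false⟩))),
    (107, (.del 75 ⟨0, 0, 0, 0, 0⟩ ⟨0, 0, 0, 0, 0⟩ ⟨15, 3, 3, false⟩ ⟨0, 21, 0, false⟩)),
    (108, (.del 75 ⟨0, 0, 0, 0, 0⟩ ⟨0, 0, 0, 0, 0⟩ ⟨15, 3, 3, false⟩ ⟨0, 21, 0, false⟩)),
    (109, (.del 74 ⟨0, 0, 0, 0, 0⟩ ⟨0, 0, 0, 0, 0⟩ ⟨15, 3, 2, false⟩ ⟨0, 15, 0, false⟩)),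
    (110, (.del 74 ⟨0, 0, 0, 0, 0⟩ ⟨0, 0, 0, 0, 0⟩ ⟨15, 3, 2, false⟩ ⟨0, 15, 0, false⟩))]
    [(6, (.swap (.del 69 ⟨1, 0, 0, 0, 0⟩ ⟨0, 0, 0, 0, 0⟩ ⟨13, 3, 0, false⟩ ⟨15, 3, 0, false⟩))),
    (61, (.del 75 ⟨0, 0, 0, 0, 0⟩ ⟨0, 0, 0, 0, 0⟩ ⟨15, 3, 3, false⟩ ⟨0, 21, 0, false⟩)),
    (64, (.s1 ⟨10, 0, 0, 0, 18⟩ (.sj ⟨3, 0, 0, 0, 7⟩ .empty .empty) (.del 74 ⟨0, 0, 0, 0, 0⟩ ⟨0, 0, 0, 0, 0⟩ ⟨15, 3, 2, false⟩ ⟨0, 15, 0, false⟩))),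
    (74, (.s1 ⟨10, 0, 0, 0, 18⟩ (.sj ⟨3, 0, 0, 0, 7⟩ .empty .empty) (.swap (.del 73 ⟨0, 0, 0, 0, 0⟩ ⟨0, 0, 0, 0, 0⟩ ⟨0, 15, 0, true⟩ ⟨15, 3, 2, false⟩))))]
    [(2, (.swap (.del 69 ⟨1, 0, 0, 0, 0⟩ ⟨0, 0, 0, 0, 0⟩ ⟨13, 3, 0, false⟩ ⟨15, 3, 0, false⟩))),
    (4, (.cap 15)),
    (18, (.swap (.cap 0))),
    (129, (.swap (.cap 6)))]
    []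
    []
    (.swap (.del 73 ⟨0, 0, 0, 0, 0⟩ ⟨0, 0, 0, 0, 0⟩ ⟨0, 15, 0, true⟩ ⟨15, 3, 2, false⟩))

theorem k76 : chkC env c76 p76 = true := by decide +kernel

def p90 : Pf :=
  .step []
    [(4, [⟨10, 0, 0, 0, 19⟩]),
    (17, [⟨18, 0, 0, 0, 29⟩]),
    (18, [⟨18, 0, 0, 0, 29⟩]),
    (19, [⟨18, 0, 0, 0, 29⟩]),
    (52, [⟨18, 0, 0, 0, 29⟩]),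
    (53, [⟨18, 0, 0, 0, 29⟩]),
    (54, [⟨18, 0, 0, 0, 29⟩]),
    (55, [⟨18, 0, 0, 0, 29⟩]),
    (56, [⟨18, 0, 0, 0, 29⟩]),
    (57, [⟨18, 0, 0, 0, 29⟩]),
    (58, [⟨18, 0, 0, 0, 29⟩]),
    (59, [⟨18, 0, 0, 0, 29⟩]),
    (60, [⟨18, 0, 0, 0, 29⟩]),
    (61, [⟨18, 0, 0, 0, 29⟩]),
    (62, [⟨18, 0, 0, 0, 29⟩]),
    (63, [⟨18, 0, 0, 0, 29⟩]),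
    (64, [⟨18, 0, 0, 0, 29⟩]),
    (65, [⟨18, 0, 0, 0, 29⟩]),
    (66, [⟨18, 0, 0, 0, 29⟩]),
    (67, [⟨18, 0, 0, 0, 29⟩]),
    (111, [⟨18, 0, 0, 0, 28⟩]),
    (112, [⟨10, 0, 0, 0, 20⟩]),
    (113, [⟨18, 0, 0, 0, 29⟩]),
    (114, [⟨18, 0, 0, 0, 28⟩]),
    (115, [⟨18, 0, 0, 0, 27⟩])]
    [4, 19, 115]
    [(17, (.cap 18)),
    (111, (.cap 17)),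
    (112, (.cap 16))]
    [(67, (.cap 16))]
    [(4, (.cap 15)),
    (19, (.swap (.cap 3))),
    (115, (.s1 ⟨10, 0, 0, 0, 19⟩ (.del 76 ⟨0, 0, 0, 0, 0⟩ ⟨0, 0, 0, 0, 0⟩ ⟨0, 15, 0, false⟩ ⟨0, 21, 0, false⟩) (.del 75 ⟨0, 0, 0, 0, 0⟩ ⟨0, 0, 0, 0, 0⟩ ⟨15, 3, 0, true⟩ ⟨0, 21, 0, false⟩)))]
    []
    []
    (.swap (.del 78 ⟨0, 0, 0, 0, 0⟩ ⟨0, 0, 0, 0, 0⟩ ⟨0, 21, 0, true⟩ ⟨15, 3, 0, true⟩))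

theorem k90 : chkC env c90 p90 = true := by decide +kernel

def p75 : Pf :=
  .step []
    [(2, [⟨11, 0, 0, 0, 17⟩]),
    (4, [⟨8, 0, 0, 0, 10⟩]),
    (5, [⟨11, 0, 0, 0, 17⟩]),
    (18, [⟨11, 0, 0, 0, 17⟩]),
    (70, [⟨11, 0, 0, 0, 17⟩]),
    (71, [⟨11, 0, 0, 0, 17⟩]),
    (107, [⟨8, 0, 0, 0, 11⟩]),
    (108, [⟨11, 0, 0, 0, 16⟩]),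
    (109, [⟨11, 0, 0, 0, 17⟩]),
    (110, [⟨11, 0, 0, 0, 17⟩]),
    (113, [⟨11, 0, 0, 0, 17⟩]),
    (114, [⟨11, 0, 0, 0, 17⟩]),
    (115, [⟨11, 0, 0, 0, 17⟩]),
    (116, [⟨11, 0, 0, 0, 17⟩]),
    (117, [⟨11, 0, 0, 0, 17⟩]),
    (118, [⟨11, 0, 0, 0, 17⟩]),
    (129, [⟨11, 0, 0, 0, 17⟩])]
    [2, 4, 18, 129]
    [(5, (.cap 6)),
    (70, (.swap (.del 69 ⟨1, 0, 0, 0, 0⟩ ⟨0, 0, 0, 0, 0⟩ ⟨13, 3, 0, false⟩ ⟨3, 3, 0, false⟩))),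
    (71, (.swap (.del 69 ⟨1, 0, 0, 0, 0⟩ ⟨0, 0, 0, 0, 0⟩ ⟨13, 3, 0, false⟩ ⟨3, 3, 0, false⟩))),
    (107, (.cap 4)),
    (108, (.cap 5)),
    (109, (.del 74 ⟨0, 0, 0, 0, 0⟩ ⟨0, 0, 0, 0, 0⟩ ⟨1, 5, 0, false⟩ ⟨0, 15, 0, false⟩)),
    (110, (.del 74 ⟨0, 0, 0, 0, 0⟩ ⟨0, 0, 0, 0, 0⟩ ⟨1, 5, 0, false⟩ ⟨0, 15, 0, false⟩))]
    [(6, (.swap (.del 69 ⟨1, 0, 0, 0, 0⟩ ⟨0, 0, 0, 0, 0⟩ ⟨13, 3, 0, false⟩ ⟨3, 3, 0, false⟩))),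
    (61, (.cap 4)),
    (64, (.del 74 ⟨0, 0, 0, 0, 0⟩ ⟨0, 0, 0, 0, 0⟩ ⟨1, 5, 0, false⟩ ⟨0, 15, 0, false⟩))]
    [(2, (.swap (.del 69 ⟨1, 0, 0, 0, 0⟩ ⟨0, 0, 0, 0, 0⟩ ⟨13, 3, 0, false⟩ ⟨3, 3, 0, false⟩))),
    (4, (.cap 3)),
    (18, (.swap (.cap 0))),
    (129, (.swap (.cap 6)))]
    []
    []
    (.swap (.del 73 ⟨0, 0, 0, 0, 0⟩ ⟨0, 0, 0, 0, 0⟩ ⟨0, 15, 0, true⟩ ⟨1, 5, 0, false⟩))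

theorem k75 : chkC env c75 p75 = true := by decide +kernel

def p36 : Pf :=
  .step []
    [(0, [⟨6, 1, 0, 0, 7⟩]),
    (1, [⟨6, 1, 0, 0, 8⟩]),
    (2, [⟨9, 1, 0, 0, 14⟩]),
    (4, [⟨3, 1, 0, 0, 3⟩]),
    (6, [⟨5, 1, 0, 0, 8⟩]),
    (68, [⟨6, 1, 0, 0, 6⟩]),
    (69, [⟨3, 1, 0, 0, 4⟩]),
    (72, [⟨6, 1, 0, 0, 7⟩]),
    (73, [⟨5, 1, 0, 0, 9⟩]),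
    (76, [⟨6, 1, 0, 0, 9⟩]),
    (77, [⟨9, 1, 0, 0, 13⟩]),
    (78, [⟨6, 1, 0, 0, 7⟩]),
    (219, [⟨6, 1, 0, 0, 6⟩]),
    (223, [⟨6, 1, 0, 0, 6⟩])]
    [2, 4, 6, 78, 219, 223]
    [(77, (.del 30 ⟨0, 1, 0, 0, 0⟩ ⟨-1, 0, 0, 0, 0⟩ ⟨0, 12, 0, false⟩ ⟨4, 6, 3, false⟩))]
    []
    [(2, (.del 30 ⟨0, 1, 0, 0, 0⟩ ⟨-1, 0, 0, 0, 0⟩ ⟨0, 12, 0, false⟩ ⟨4, 6, 3, false⟩)),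
    (4, (.cap 3)),
    (6, (.swap (.cap 4))),
    (78, (.del 45 ⟨0, 1, 0, 0, 1⟩ ⟨0, 0, 0, 0, 0⟩ ⟨0, 12, 0, false⟩ ⟨0, 7, 0, true⟩)),
    (219, (.s2 ⟨1, 0, 0, 0, 0⟩ (.rot (.del 39 ⟨0, 1, 0, 0, 1⟩ ⟨0, 0, 0, 0, 0⟩ ⟨0, 6, 6, false⟩ ⟨0, 4, 9, true⟩)) (.rot (.del 30 ⟨0, 1, 0, 0, 0⟩ ⟨-1, 0, 0, 0, 0⟩ ⟨0, 6, 6, false⟩ ⟨4, 3, 15, false⟩)))),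
    (223, (.s2 ⟨1, 0, 0, 0, 0⟩ (.rot (.del 55 ⟨0, 1, 0, 0, 1⟩ ⟨0, 0, 0, 0, 0⟩ ⟨0, 6, 6, false⟩ ⟨0, 4, 9, true⟩)) (.rot (.del 53 ⟨0, 1, 0, 0, 1⟩ ⟨0, 0, 0, 0, 0⟩ ⟨0, 6, 6, false⟩ ⟨4, 3, 9, false⟩))))]
    []
    []
    (.del 37 ⟨0, 1, 0, 0, 1⟩ ⟨0, 0, 0, 0, 0⟩ ⟨0, 12, 0, false⟩ ⟨0, 10, 0, false⟩)

theorem k36 : chkC env c36 p36 = true := by decide +kernel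

def p24 : Pf :=
  .step []
    [(0, [⟨6, 0, 0, 0, 11⟩]),
    (1, [⟨6, 0, 0, 0, 10⟩]),
    (4, [⟨3, 0, 0, 0, 7⟩]),
    (68, [⟨6, 0, 0, 0, 10⟩]),
    (69, [⟨3, 0, 0, 0, 8⟩]),
    (138, [⟨3, 0, 0, 0, 7⟩]),
    (218, [⟨3, 0, 0, 0, 7⟩]),
    (219, [⟨6, 0, 0, 0, 10⟩]),
    (222, [⟨3, 0, 0, 0, 8⟩]),
    (223, [⟨6, 0, 0, 0, 10⟩])]
    [1, 4, 138, 218]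
    [(69, (.cap 4)),
    (222, (.del 7 ⟨6, 0, 0, 0, 8⟩ ⟨0, 0, 0, 0, 0⟩ ⟨0, 6, 0, false⟩ ⟨0, 6, 0, false⟩)),
    (223, (.del 7 ⟨6, 0, 0, 0, 8⟩ ⟨0, 0, 0, 0, 0⟩ ⟨0, 6, 0, false⟩ ⟨0, 6, 0, false⟩))]
    [(3, (.cap 4)),
    (208, (.rot (.swap (.del 21 ⟨0, 0, 0, 0, 0⟩ ⟨0, 0, 0, 0, 0⟩ ⟨0, 6, 0, false⟩ ⟨3, 3, 6, false⟩)))),
    (214, (.del 7 ⟨6, 0, 0, 0, 8⟩ ⟨0, 0, 0, 0, 0⟩ ⟨0, 6, 0, false⟩ ⟨0, 6, 0, false⟩))]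
    [(1, (.swap (.cap 0))),
    (4, (.cap 3)),
    (138, (.rot (.swap (.del 4 ⟨0, 0, 0, 0, 0⟩ ⟨0, 0, 0, 0, 0⟩ ⟨0, 6, 0, false⟩ ⟨3, 3, 6, false⟩)))),
    (218, (.rot (.swap (.del 21 ⟨0, 0, 0, 0, 0⟩ ⟨0, 0, 0, 0, 0⟩ ⟨0, 6, 0, false⟩ ⟨3, 3, 6, false⟩))))]
    []
    []
    (.del 6 ⟨6, 0, 0, 0, 8⟩ ⟨0, 0, 0, 0, 0⟩ ⟨0, 6, 0, false⟩ ⟨0, 3, 0, false⟩)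

theorem k24 : chkC env c24 p24 = true := by decide +kernel

def p103 : Pf :=
  .step []
    [(12, [⟨11, 0, 0, 0, 14⟩]),
    (13, [⟨11, 0, 0, 0, 14⟩]),
    (14, [⟨9, 0, 0, 0, 13⟩]),
    (95, [⟨11, 0, 0, 0, 14⟩]),
    (96, [⟨11, 0, 0, 0, 14⟩]),
    (97, [⟨11, 0, 0, 0, 14⟩]),
    (98, [⟨11, 0, 0, 0, 14⟩]),
    (99, [⟨11, 0, 0, 0, 13⟩]),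
    (100, [⟨9, 0, 0, 0, 14⟩]),
    (125, [⟨11, 0, 0, 0, 14⟩])]
    [12, 14, 125]
    [(13, (.cap 19)),
    (97, (.del 102 ⟨0, 0, 0, 0, 0⟩ ⟨0, 0, 0, 0, 0⟩ ⟨12, 7, 0, false⟩ ⟨2, 8, 0, false⟩)),
    (98, (.del 102 ⟨0, 0, 0, 0, 0⟩ ⟨0, 0, 0, 0, 0⟩ ⟨12, 7, 0, false⟩ ⟨2, 8, 0, false⟩)),
    (99, (.cap 18)),
    (100, (.cap 17))]
    [(46, (.del 102 ⟨0, 0, 0, 0, 0⟩ ⟨0, 0, 0, 0, 0⟩ ⟨12, 7, 0, false⟩ ⟨2, 8, 0, false⟩)),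
    (49, (.cap 17))]
    [(12, (.swap (.cap 11))),
    (14, (.cap 16)),
    (125, (.swap (.cap 8)))]
    []
    []
    (.swap (.del 101 ⟨0, 0, 0, 0, 0⟩ ⟨0, 0, 0, 0, 0⟩ ⟨9, 2, 0, false⟩ ⟨16, 3, 0, false⟩))

theorem k103 : chkC env c103 p103 = true := by decide +kernel

def p88 : Pf :=
  .step [⟨1, 0, 0, 0, 4⟩]
    []
    [2, 4, 129]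
    [(112, (.swap (.del 84 ⟨0, 0, 0, 0, 0⟩ ⟨0, 0, 0, 0, 0⟩ ⟨0, 8, 0, true⟩ ⟨6, 0, 3, false⟩))),
    (120, (.swap (.del 84 ⟨0, 0, 0, 0, 0⟩ ⟨0, 0, 0, 0, 0⟩ ⟨0, 8, 0, true⟩ ⟨6, 0, 3, false⟩)))]
    []
    [(2, (.swap (.cap 7))),
    (4, (.swap (.cap 0))),
    (129, (.cap 6))]
    []
    []
    (.del 87 ⟨0, 0, 0, 0, 0⟩ ⟨0, 0, 0, 0, 0⟩ ⟨6, 0, 0, false⟩ ⟨0, 8, 0, false⟩)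

theorem k88 : chkC env c88 p88 = true := by decide +kernel

def p55 : Pf :=
  .cover [(98, (.sx ⟨3, 0, 0, 0, 3⟩ (.del 54 ⟨0, 1, 0, 0, 0⟩ ⟨0, 0, 0, 0, 0⟩ ⟨0, 12, 0, false⟩ ⟨0, 13, 0, false⟩) (.s2 ⟨6, 0, 0, 0, 6⟩ (.rot (.swap (.del 25 ⟨0, 0, 0, 0, 0⟩ ⟨0, 0, 0, 0, 0⟩ ⟨0, 9, 0, false⟩ ⟨9, 3, 0, false⟩))) (.rot (.swap (.del 9 ⟨0, 0, 0, 0, 0⟩ ⟨0, 0, 0, 0, 0⟩ ⟨9, 3, 10, true⟩ ⟨9, 3, 0, false⟩))))))]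
    [(46, (.sx ⟨3, 0, 0, 0, 3⟩ (.del 54 ⟨0, 1, 0, 0, 0⟩ ⟨0, 0, 0, 0, 0⟩ ⟨0, 12, 0, false⟩ ⟨0, 13, 0, false⟩) (.s2 ⟨6, 0, 0, 0, 6⟩ (.rot (.swap (.del 25 ⟨0, 0, 0, 0, 0⟩ ⟨0, 0, 0, 0, 0⟩ ⟨0, 9, 0, false⟩ ⟨9, 3, 0, false⟩))) (.sj ⟨2, 0, 0, 0, 4⟩ .empty (.rot (.swap (.del 9 ⟨0, 0, 0, 0, 0⟩ ⟨0, 0, 0, 0, 0⟩ ⟨9, 3, 10, true⟩ ⟨9, 3, 0, false⟩)))))))]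
    (.sx ⟨3, 0, 0, 0, 3⟩ (.del 52 ⟨0, 1, 0, 0, 0⟩ ⟨0, 0, 0, 0, 0⟩ ⟨0, 12, 0, false⟩ ⟨0, 9, 0, false⟩) (.rot (.swap (.del 25 ⟨0, 0, 0, 0, 0⟩ ⟨0, 0, 0, 0, 0⟩ ⟨0, 9, 0, false⟩ ⟨9, 3, 0, false⟩))))

theorem k55 : chkC env c55 p55 = true := by decide +kernel

def p41 : Pf :=
  .cover [(77, (.sx ⟨3, 0, 0, 0, 3⟩ (.del 40 ⟨0, 1, 0, 0, 0⟩ ⟨0, 0, 0, 0, 0⟩ ⟨0, 12, 0, false⟩ ⟨0, 6, 0, false⟩) (.s2 ⟨2, 0, 0, 0, 6⟩ (.swap (.del 18 ⟨0, 0, 0, 0, 0⟩ ⟨0, 0, 0, 0, 0⟩ ⟨0, 3, 7, false⟩ ⟨3, 6, 0, false⟩)) (.swap (.del 20 ⟨0, 0, 0, 0, 0⟩ ⟨0, 0, 0, 0, 0⟩ ⟨3, 3, 0, true⟩ ⟨3, 6, 0, false⟩)))))]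
    [(15, (.sx ⟨3, 0, 0, 0, 3⟩ (.del 40 ⟨0, 1, 0, 0, 0⟩ ⟨0, 0, 0, 0, 0⟩ ⟨0, 12, 0, false⟩ ⟨0, 6, 0, false⟩) (.s2 ⟨2, 0, 0, 0, 5⟩ (.sj ⟨2, 0, 0, 0, 5⟩ .empty (.swap (.del 18 ⟨0, 0, 0, 0, 0⟩ ⟨0, 0, 0, 0, 0⟩ ⟨0, 3, 7, false⟩ ⟨3, 6, 0, false⟩))) (.swap (.del 20 ⟨0, 0, 0, 0, 0⟩ ⟨0, 0, 0, 0, 0⟩ ⟨3, 3, 0, true⟩ ⟨3, 6, 0, false⟩)))))]
    (.sx ⟨3, 0, 0, 0, 3⟩ (.del 30 ⟨0, 1, 0, 0, 0⟩ ⟨-1, 0, 0, 0, 0⟩ ⟨0, 12, 0, false⟩ ⟨3, 3, 3, true⟩) (.swap (.del 11 ⟨0, 0, 0, 0, 0⟩ ⟨0, 0, 0, 0, 0⟩ ⟨3, 3, 3, false⟩ ⟨3, 3, 0, false⟩)))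

theorem k41 : chkC env c41 p41 = true := by decide +kernel

def p27 : Pf :=
  .step [⟨4, 0, 0, 0, 4⟩]
    []
    [1, 8]
    [(78, (.del 10 ⟨0, 0, 0, 0, 0⟩ ⟨0, 0, 0, 0, 0⟩ ⟨3, 9, 3, true⟩ ⟨0, 3, 0, false⟩))]
    []
    [(1, (.s1 ⟨4, 0, 0, 0, 4⟩ (.del 25 ⟨0, 0, 0, 0, 0⟩ ⟨0, 0, 0, 0, 0⟩ ⟨0, 3, 6, false⟩ ⟨0, 3, 0, false⟩) (.del 10 ⟨0, 0, 0, 0, 0⟩ ⟨0, 0, 0, 0, 0⟩ ⟨3, 9, 3, true⟩ ⟨0, 3, 0, false⟩))),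
    (8, (.del 19 ⟨0, 0, 0, 0, 0⟩ ⟨0, 0, 0, 0, 0⟩ ⟨3, 9, 0, false⟩ ⟨0, 9, 0, false⟩))]
    []
    []
    (.del 19 ⟨0, 0, 0, 0, 0⟩ ⟨0, 0, 0, 0, 0⟩ ⟨3, 9, 0, false⟩ ⟨0, 9, 0, false⟩)

theorem k27 : chkC env c27 p27 = true := by decide +kernel

def p104 : Pf :=
  .step []
    [(3, [⟨3, 0, 0, 0, 6⟩]),
    (12, [⟨6, 0, 0, 0, 6⟩]),
    (90, [⟨3, 0, 0, 0, 7⟩]),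
    (91, [⟨4, 0, 0, 0, 7⟩]),
    (92, [⟨6, 0, 0, 0, 5⟩])]
    [3, 12]
    [(91, (.cap 5)),
    (92, (.cap 6))]
    [(37, (.cap 5))]
    [(3, (.cap 3)),
    (12, (.swap (.cap 2)))]
    []
    []
    (.cap 4)

theorem k104 : chkC env c104 p104 = true := by decide +kernel

def p58 : Pf :=
  .step []
    [(13, [⟨12, 1, 0, 0, 16⟩]),
    (14, [⟨10, 1, 0, 0, 15⟩]),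
    (99, [⟨12, 1, 0, 0, 15⟩]),
    (100, [⟨10, 1, 0, 0, 16⟩])]
    [13, 14]
    []
    []
    [(13, (.del 52 ⟨0, 1, 0, 0, 0⟩ ⟨0, 0, 0, 0, 0⟩ ⟨0, 12, 0, false⟩ ⟨0, 3, 6, true⟩)),
    (14, (.swap (.cap 5)))]
    []
    []
    (.del 59 ⟨0, 1, 0, 0, 1⟩ ⟨0, 0, 0, 0, 0⟩ ⟨0, 12, 0, false⟩ ⟨0, 5, 0, false⟩)

theorem k58 : chkC env c58 p58 = true := by decide +kernel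

def p48 : Pf :=
  .step []
    [(8, [⟨7, 1, 0, 0, 6⟩]),
    (9, [⟨6, 1, 0, 0, 5⟩]),
    (82, [⟨7, 1, 0, 0, 5⟩]),
    (83, [⟨6, 1, 0, 0, 6⟩])]
    [8, 9]
    []
    []
    [(8, (.del 42 ⟨0, 1, 0, 0, 0⟩ ⟨0, 0, 0, 0, 0⟩ ⟨0, 12, 0, false⟩ ⟨0, 3, 3, false⟩)),
    (9, (.swap (.cap 5)))]
    []
    []
    (.del 49 ⟨0, 1, 0, 0, 1⟩ ⟨0, 0, 0, 0, 0⟩ ⟨0, 12, 0, false⟩ ⟨0, 5, 0, false⟩)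

theorem k48 : chkC env c48 p48 = true := by decide +kernel

def p62 : Pf :=
  .step []
    [(12, [⟨3, 0, 0, 0, -1⟩]),
    (13, [⟨5, 0, 0, 0, 0⟩]),
    (95, [⟨3, 0, 0, 0, 0⟩]),
    (96, [⟨5, 0, 0, 0, -1⟩])]
    [12, 13]
    [(96, (.cap 5))]
    []
    [(12, (.cap 3)),
    (13, (.swap (.cap 2)))]
    []
    []
    (.cap 4)

theorem k62 : chkC env c62 p62 = true := by decide +kernel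

def p64 : Pf :=
  .step []
    [(1, [⟨5, 0, 0, 0, 3⟩]),
    (2, [⟨8, 0, 0, 0, 9⟩]),
    (76, [⟨5, 0, 0, 0, 4⟩]),
    (77, [⟨8, 0, 0, 0, 8⟩])]
    [1, 2]
    [(77, (.cap 7))]
    []
    [(1, (.cap 5)),
    (2, (.swap (.cap 5)))]
    []
    []
    (.cap 6)

theorem k64 : chkC env c64 p64 = true := by decide +kernel

def p45 : Pf :=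
  .cover []
    []
    (.sx ⟨3, 0, 0, 0, 3⟩ (.del 44 ⟨0, 1, 0, 0, 0⟩ ⟨0, 0, 0, 0, 0⟩ ⟨0, 12, 0, false⟩ ⟨0, 12, 0, false⟩) (.swap (.del 23 ⟨0, 0, 0, 0, 0⟩ ⟨0, 0, 0, 0, 0⟩ ⟨0, 12, 0, false⟩ ⟨3, 6, 0, false⟩)))

theorem k45 : chkC env c45 p45 = true := by decide +kernel

def p118 : Pf :=
  .one [(0, (.go 1 0 (.cap 9)))]
    [(0, (.cap 8)),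
    (2, (.rot (.del 96 ⟨0, 0, 0, 0, 0⟩ ⟨0, 0, 0, 0, 0⟩ ⟨5, 4, 0, false⟩ ⟨1, 3, 16, true⟩))),
    (209, (.rot (.swap (.del 116 ⟨0, 0, 0, 0, 0⟩ ⟨0, 0, 0, 0, 0⟩ ⟨1, 3, 2, false⟩ ⟨5, 4, 9, true⟩)))),
    (215, (.rot (.swap (.del 116 ⟨0, 0, 0, 0, 0⟩ ⟨0, 0, 0, 0, 0⟩ ⟨1, 3, 2, false⟩ ⟨5, 4, 9, true⟩))))]

theorem k118 : chkC env c118 p118 = true := by decide +kernel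

def p57 : Pf :=
  .cover []
    []
    (.sx ⟨3, 0, 0, 0, 3⟩ (.del 56 ⟨0, 1, 0, 0, 0⟩ ⟨0, 0, 0, 0, 0⟩ ⟨0, 12, 0, false⟩ ⟨0, 9, 0, false⟩) (.swap (.del 21 ⟨0, 0, 0, 0, 0⟩ ⟨0, 0, 0, 0, 0⟩ ⟨0, 9, 3, true⟩ ⟨3, 6, 0, false⟩)))

theorem k57 : chkC env c57 p57 = true := by decide +kernel

end Pool.Agent.Lib.MP_1fc36f_co.H61
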