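import Pool.Agent.Lib.MP_1fc36f_co.H61Env

/-! Checked proofs of the claims. -/

namespace Pool.Agent.Lib.MP_1fc36f_co.H61

open Pool.Agent.Lib.MP_1fc36f_co.H45

def e2 : List (ℕ × ℕ × ℕ × Tree) :=
  [(8, 9, 21, (.del 120 ⟨0, 0, 0, 0, 0⟩ ⟨0, 0, 0, 0, 0⟩ ⟨0, 0, 0, false⟩ ⟨0, 0, 1, false⟩)),
   (8, 17, 21, (.del 120 ⟨0, 0, 0, 0, 0⟩ ⟨0, 0, 0, 0, 0⟩ ⟨0, 0, 0, false⟩ ⟨0, 0, 0, false⟩)),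
   (8, 23, 21, (.del 120 ⟨0, 0, 0, 0, 0⟩ ⟨0, 0, 0, 0, 0⟩ ⟨0, 0, 0, false⟩ ⟨0, 0, 2, false⟩)),
   (19, 9, 21, (.swap (.del 117 ⟨0, 0, 0, 0, 0⟩ ⟨0, 0, 0, 0, 0⟩ ⟨0, 0, 1, false⟩ ⟨0, 0, 1, false⟩))),
   (19, 17, 21, (.swap (.del 117 ⟨0, 0, 0, 0, 0⟩ ⟨0, 0, 0, 0, 0⟩ ⟨0, 0, 0, false⟩ ⟨0, 0, 1, false⟩))),
   (19, 23, 21, (.swap (.del 117 ⟨0, 0, 0, 0, 0⟩ ⟨0, 0, 0, 0, 0⟩ ⟨0, 0, 2, false⟩ ⟨0, 0, 1, false⟩)))]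

theorem j2 : chkTab env t2 e2 = true := by decide +kernel

def p78 : Pf :=
  .step []
    [(17, [⟨11, 0, 0, 0, 20⟩]),
    (18, [⟨11, 0, 0, 0, 20⟩]),
    (19, [⟨11, 0, 0, 0, 20⟩]),
    (52, [⟨11, 0, 0, 0, 20⟩]),
    (53, [⟨11, 0, 0, 0, 20⟩]),
    (54, [⟨11, 0, 0, 0, 20⟩]),
    (55, [⟨11, 0, 0, 0, 20⟩]),
    (56, [⟨11, 0, 0, 0, 20⟩]),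
    (57, [⟨11, 0, 0, 0, 20⟩]),
    (58, [⟨11, 0, 0, 0, 20⟩]),
    (59, [⟨11, 0, 0, 0, 20⟩]),
    (60, [⟨11, 0, 0, 0, 20⟩]),
    (61, [⟨11, 0, 0, 0, 20⟩]),
    (62, [⟨11, 0, 0, 0, 20⟩]),
    (63, [⟨11, 0, 0, 0, 20⟩]),
    (64, [⟨11, 0, 0, 0, 20⟩]),
    (65, [⟨11, 0, 0, 0, 20⟩]),
    (66, [⟨11, 0, 0, 0, 20⟩]),
    (67, [⟨11, 0, 0, 0, 20⟩]),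
    (113, [⟨11, 0, 0, 0, 22⟩]),
    (114, [⟨11, 0, 0, 0, 21⟩]),
    (115, [⟨11, 0, 0, 0, 20⟩]),
    (116, [⟨11, 0, 0, 0, 19⟩]),
    (117, [⟨11, 0, 0, 0, 18⟩]),
    (118, [⟨6, 0, 0, 0, 13⟩]),
    (119, [⟨11, 0, 0, 0, 19⟩]),
    (120, [⟨10, 0, 0, 0, 20⟩]),
    (129, [⟨10, 0, 0, 0, 19⟩])]
    [17, 118, 129]
    [(18, (.s1 ⟨11, 0, 0, 0, 20⟩ (.swap (.fin 0 ⟨0, 0, 0, 0, 0⟩ ⟨0, 0, 0, 0, 0⟩ 0 8 9 0 18)) (.s1 ⟨11, 0, 0, 0, 21⟩ (.swap (.fin 0 ⟨0, 0, 0, 0, 0⟩ ⟨0, 0, 0, 0, 0⟩ 0 7 9 0 19)) (.s1 ⟨11, 0, 0, 0, 22⟩ (.swap (.fin 0 ⟨0, 0, 0, 0, 0⟩ ⟨0, 0, 0, 0, 0⟩ 0 17 9 0 20)) (.cap 21))))),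
    (19, (.cap 18)),
    (52, (.s1 ⟨11, 0, 0, 0, 20⟩ (.swap (.fin 0 ⟨0, 0, 0, 0, 0⟩ ⟨0, 0, 0, 0, 0⟩ 0 8 11 0 18)) (.s1 ⟨11, 0, 0, 0, 21⟩ (.swap (.fin 0 ⟨0, 0, 0, 0, 0⟩ ⟨0, 0, 0, 0, 0⟩ 0 7 11 0 19)) (.s1 ⟨11, 0, 0, 0, 22⟩ (.swap (.fin 0 ⟨0, 0, 0, 0, 0⟩ ⟨0, 0, 0, 0, 0⟩ 0 17 11 0 20)) (.swap (.fin 0 ⟨0, 0, 0, 0, 0⟩ ⟨0, 0, 0, 0, 0⟩ 0 9 11 0 21)))))),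
    (53, (.s1 ⟨11, 0, 0, 0, 20⟩ (.swap (.fin 0 ⟨0, 0, 0, 0, 0⟩ ⟨0, 0, 0, 0, 0⟩ 0 8 1 0 18)) (.s1 ⟨11, 0, 0, 0, 21⟩ (.swap (.fin 0 ⟨0, 0, 0, 0, 0⟩ ⟨0, 0, 0, 0, 0⟩ 0 7 1 0 19)) (.s1 ⟨11, 0, 0, 0, 22⟩ (.swap (.fin 0 ⟨0, 0, 0, 0, 0⟩ ⟨0, 0, 0, 0, 0⟩ 0 17 1 0 20)) (.swap (.fin 0 ⟨0, 0, 0, 0, 0⟩ ⟨0, 0, 0, 0, 0⟩ 0 9 1 0 21)))))),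
    (54, (.s1 ⟨11, 0, 0, 0, 20⟩ (.swap (.fin 0 ⟨0, 0, 0, 0, 0⟩ ⟨0, 0, 0, 0, 0⟩ 0 8 10 0 18)) (.s1 ⟨11, 0, 0, 0, 21⟩ (.swap (.fin 0 ⟨0, 0, 0, 0, 0⟩ ⟨0, 0, 0, 0, 0⟩ 0 7 10 0 19)) (.swap (.fin 0 ⟨0, 0, 0, 0, 0⟩ ⟨0, 0, 0, 0, 0⟩ 0 17 10 0 20))))),
    (55, (.s1 ⟨11, 0, 0, 0, 20⟩ (.swap (.fin 0 ⟨0, 0, 0, 0, 0⟩ ⟨0, 0, 0, 0, 0⟩ 0 8 12 0 18)) (.s1 ⟨11, 0, 0, 0, 21⟩ (.swap (.fin 0 ⟨0, 0, 0, 0, 0⟩ ⟨0, 0, 0, 0, 0⟩ 0 7 12 0 19)) (.s1 ⟨11, 0, 0, 0, 22⟩ (.swap (.fin 0 ⟨0, 0, 0, 0, 0⟩ ⟨0, 0, 0, 0, 0⟩ 0 17 12 0 20)) (.swap (.fin 0 ⟨0, 0, 0, 0, 0⟩ ⟨0, 0, 0, 0, 0⟩ 0 9 12 0 21)))))),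
    (56, (.s1 ⟨11, 0, 0, 0, 20⟩ (.swap (.fin 0 ⟨0, 0, 0, 0, 0⟩ ⟨0, 0, 0, 0, 0⟩ 0 8 2 0 18)) (.s1 ⟨11, 0, 0, 0, 21⟩ (.swap (.fin 0 ⟨0, 0, 0, 0, 0⟩ ⟨0, 0, 0, 0, 0⟩ 0 7 2 0 19)) (.s1 ⟨11, 0, 0, 0, 22⟩ (.swap (.fin 0 ⟨0, 0, 0, 0, 0⟩ ⟨0, 0, 0, 0, 0⟩ 0 17 2 0 20)) (.swap (.fin 0 ⟨0, 0, 0, 0, 0⟩ ⟨0, 0, 0, 0, 0⟩ 0 9 2 0 21)))))),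
    (57, (.s1 ⟨11, 0, 0, 0, 20⟩ (.swap (.fin 0 ⟨0, 0, 0, 0, 0⟩ ⟨0, 0, 0, 0, 0⟩ 0 8 13 0 18)) (.s1 ⟨11, 0, 0, 0, 21⟩ (.swap (.fin 0 ⟨0, 0, 0, 0, 0⟩ ⟨0, 0, 0, 0, 0⟩ 0 7 13 0 19)) (.s1 ⟨11, 0, 0, 0, 22⟩ (.swap (.fin 0 ⟨0, 0, 0, 0, 0⟩ ⟨0, 0, 0, 0, 0⟩ 0 17 13 0 20)) (.swap (.fin 0 ⟨0, 0, 0, 0, 0⟩ ⟨0, 0, 0, 0, 0⟩ 0 9 13 0 21)))))),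
    (58, (.s1 ⟨11, 0, 0, 0, 20⟩ (.swap (.fin 0 ⟨0, 0, 0, 0, 0⟩ ⟨0, 0, 0, 0, 0⟩ 0 8 3 0 18)) (.s1 ⟨11, 0, 0, 0, 21⟩ (.swap (.fin 0 ⟨0, 0, 0, 0, 0⟩ ⟨0, 0, 0, 0, 0⟩ 0 7 3 0 19)) (.s1 ⟨11, 0, 0, 0, 22⟩ (.swap (.fin 0 ⟨0, 0, 0, 0, 0⟩ ⟨0, 0, 0, 0, 0⟩ 0 17 3 0 20)) (.swap (.fin 0 ⟨0, 0, 0, 0, 0⟩ ⟨0, 0, 0, 0, 0⟩ 0 9 3 0 21)))))),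
    (59, (.s1 ⟨11, 0, 0, 0, 20⟩ (.swap (.fin 0 ⟨0, 0, 0, 0, 0⟩ ⟨0, 0, 0, 0, 0⟩ 0 8 14 0 18)) (.s1 ⟨11, 0, 0, 0, 21⟩ (.swap (.fin 0 ⟨0, 0, 0, 0, 0⟩ ⟨0, 0, 0, 0, 0⟩ 0 7 14 0 19)) (.s1 ⟨11, 0, 0, 0, 22⟩ (.swap (.fin 0 ⟨0, 0, 0, 0, 0⟩ ⟨0, 0, 0, 0, 0⟩ 0 17 14 0 20)) (.swap (.fin 0 ⟨0, 0, 0, 0, 0⟩ ⟨0, 0, 0, 0, 0⟩ 0 9 14 0 21)))))),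
    (60, (.s1 ⟨11, 0, 0, 0, 20⟩ (.swap (.fin 0 ⟨0, 0, 0, 0, 0⟩ ⟨0, 0, 0, 0, 0⟩ 0 8 4 0 18)) (.s1 ⟨11, 0, 0, 0, 21⟩ (.swap (.fin 0 ⟨0, 0, 0, 0, 0⟩ ⟨0, 0, 0, 0, 0⟩ 0 7 4 0 19)) (.s1 ⟨11, 0, 0, 0, 22⟩ (.swap (.fin 0 ⟨0, 0, 0, 0, 0⟩ ⟨0, 0, 0, 0, 0⟩ 0 17 4 0 20)) (.swap (.fin 0 ⟨0, 0, 0, 0, 0⟩ ⟨0, 0, 0, 0, 0⟩ 0 9 4 0 21)))))),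
    (61, (.s1 ⟨11, 0, 0, 0, 20⟩ (.swap (.fin 0 ⟨0, 0, 0, 0, 0⟩ ⟨0, 0, 0, 0, 0⟩ 0 8 15 0 18)) (.s1 ⟨11, 0, 0, 0, 21⟩ (.swap (.fin 0 ⟨0, 0, 0, 0, 0⟩ ⟨0, 0, 0, 0, 0⟩ 0 7 15 0 19)) (.s1 ⟨11, 0, 0, 0, 22⟩ (.swap (.fin 0 ⟨0, 0, 0, 0, 0⟩ ⟨0, 0, 0, 0, 0⟩ 0 17 15 0 20)) (.swap (.fin 0 ⟨0, 0, 0, 0, 0⟩ ⟨0, 0, 0, 0, 0⟩ 0 9 15 0 21)))))),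
    (62, (.s1 ⟨11, 0, 0, 0, 20⟩ (.swap (.fin 0 ⟨0, 0, 0, 0, 0⟩ ⟨0, 0, 0, 0, 0⟩ 0 8 5 0 18)) (.s1 ⟨11, 0, 0, 0, 21⟩ (.swap (.fin 0 ⟨0, 0, 0, 0, 0⟩ ⟨0, 0, 0, 0, 0⟩ 0 7 5 0 19)) (.s1 ⟨11, 0, 0, 0, 22⟩ (.swap (.fin 0 ⟨0, 0, 0, 0, 0⟩ ⟨0, 0, 0, 0, 0⟩ 0 17 5 0 20)) (.swap (.fin 0 ⟨0, 0, 0, 0, 0⟩ ⟨0, 0, 0, 0, 0⟩ 0 9 5 0 21)))))),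
    (63, (.s1 ⟨11, 0, 0, 0, 20⟩ (.swap (.fin 0 ⟨0, 0, 0, 0, 0⟩ ⟨0, 0, 0, 0, 0⟩ 0 8 16 0 18)) (.s1 ⟨11, 0, 0, 0, 21⟩ (.swap (.fin 0 ⟨0, 0, 0, 0, 0⟩ ⟨0, 0, 0, 0, 0⟩ 0 7 16 0 19)) (.swap (.fin 0 ⟨0, 0, 0, 0, 0⟩ ⟨0, 0, 0, 0, 0⟩ 0 17 16 0 20))))),
    (64, (.s1 ⟨11, 0, 0, 0, 20⟩ (.swap (.fin 0 ⟨0, 0, 0, 0, 0⟩ ⟨0, 0, 0, 0, 0⟩ 0 8 6 0 18)) (.s1 ⟨11, 0, 0, 0, 21⟩ (.swap (.fin 0 ⟨0, 0, 0, 0, 0⟩ ⟨0, 0, 0, 0, 0⟩ 0 7 6 0 19)) (.swap (.fin 0 ⟨0, 0, 0, 0, 0⟩ ⟨0, 0, 0, 0, 0⟩ 0 17 6 0 20))))),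
    (65, (.s1 ⟨11, 0, 0, 0, 20⟩ (.swap (.fin 0 ⟨0, 0, 0, 0, 0⟩ ⟨0, 0, 0, 0, 0⟩ 0 8 17 0 18)) (.s1 ⟨11, 0, 0, 0, 21⟩ (.swap (.fin 0 ⟨0, 0, 0, 0, 0⟩ ⟨0, 0, 0, 0, 0⟩ 0 7 17 0 19)) (.cap 20)))),
    (66, (.s1 ⟨11, 0, 0, 0, 20⟩ (.swap (.fin 0 ⟨0, 0, 0, 0, 0⟩ ⟨0, 0, 0, 0, 0⟩ 0 8 7 0 18)) (.cap 19))),
    (67, (.s1 ⟨11, 0, 0, 0, 20⟩ (.swap (.fin 0 ⟨0, 0, 0, 0, 0⟩ ⟨0, 0, 0, 0, 0⟩ 0 8 18 0 18)) (.swap (.fin 0 ⟨0, 0, 0, 0, 0⟩ ⟨0, 0, 0, 0, 0⟩ 0 7 18 0 19)))),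
    (119, (.cap 17)),
    (120, (.cap 16))]
    [(77, (.cap 16))]
    [(17, (.swap (.cap 0))),
    (118, (.swap (.del 75 ⟨0, 0, 0, 0, 0⟩ ⟨0, 0, 0, 0, 0⟩ ⟨0, 3, 0, false⟩ ⟨0, 21, 0, true⟩))),
    (129, (.cap 15))]
    []
    []
    (.swap (.del 75 ⟨0, 0, 0, 0, 0⟩ ⟨0, 0, 0, 0, 0⟩ ⟨0, 3, 0, false⟩ ⟨0, 21, 0, true⟩))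

theorem k78 : chkC env c78 p78 = true := by decide +kernel

def p121 : Pf :=
  .step []
    [(6, [⟨6, 0, 0, 0, 14⟩]),
    (9, [⟨7, 0, 0, 0, 13⟩]),
    (10, [⟨7, 0, 0, 0, 13⟩]),
    (11, [⟨7, 0, 0, 0, 13⟩]),
    (20, [⟨7, 0, 0, 0, 13⟩]),
    (21, [⟨7, 0, 0, 0, 13⟩]),
    (22, [⟨7, 0, 0, 0, 13⟩]),
    (23, [⟨7, 0, 0, 0, 13⟩]),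
    (24, [⟨7, 0, 0, 0, 13⟩]),
    (25, [⟨7, 0, 0, 0, 13⟩]),
    (26, [⟨7, 0, 0, 0, 13⟩]),
    (27, [⟨7, 0, 0, 0, 13⟩]),
    (28, [⟨7, 0, 0, 0, 13⟩]),
    (29, [⟨7, 0, 0, 0, 13⟩]),
    (30, [⟨7, 0, 0, 0, 13⟩]),
    (31, [⟨7, 0, 0, 0, 13⟩]),
    (32, [⟨7, 0, 0, 0, 13⟩]),
    (33, [⟨7, 0, 0, 0, 13⟩]),
    (34, [⟨7, 0, 0, 0, 13⟩]),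
    (35, [⟨7, 0, 0, 0, 13⟩]),
    (86, [⟨6, 0, 0, 0, 15⟩]),
    (87, [⟨7, 0, 0, 0, 12⟩]),
    (121, [⟨7, 0, 0, 0, 13⟩])]
    [6, 9, 11]
    [(10, (.cap 11)),
    (20, (.s2 ⟨11, 0, 0, 0, 21⟩ (.fin 2 ⟨0, 0, 0, 0, 0⟩ ⟨0, 0, 0, 0, 0⟩ 0 9 11 11 19) (.fin 2 ⟨0, 0, 0, 0, 0⟩ ⟨0, 0, 0, 0, 0⟩ 0 20 11 11 20))),
    (21, (.s2 ⟨11, 0, 0, 0, 21⟩ (.fin 2 ⟨0, 0, 0, 0, 0⟩ ⟨0, 0, 0, 0, 0⟩ 0 9 1 11 19) (.s2 ⟨11, 0, 0, 0, 22⟩ (.fin 2 ⟨0, 0, 0, 0, 0⟩ ⟨0, 0, 0, 0, 0⟩ 0 20 1 11 20) (.fin 2 ⟨0, 0, 0, 0, 0⟩ ⟨0, 0, 0, 0, 0⟩ 0 8 1 11 21)))),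
    (22, (.s2 ⟨11, 0, 0, 0, 21⟩ (.fin 2 ⟨0, 0, 0, 0, 0⟩ ⟨0, 0, 0, 0, 0⟩ 0 9 10 11 19) (.s2 ⟨11, 0, 0, 0, 22⟩ (.fin 2 ⟨0, 0, 0, 0, 0⟩ ⟨0, 0, 0, 0, 0⟩ 0 20 10 11 20) (.fin 2 ⟨0, 0, 0, 0, 0⟩ ⟨0, 0, 0, 0, 0⟩ 0 8 10 11 21)))),
    (23, (.s2 ⟨11, 0, 0, 0, 21⟩ (.fin 2 ⟨0, 0, 0, 0, 0⟩ ⟨0, 0, 0, 0, 0⟩ 0 9 12 11 19) (.s2 ⟨11, 0, 0, 0, 22⟩ (.fin 2 ⟨0, 0, 0, 0, 0⟩ ⟨0, 0, 0, 0, 0⟩ 0 20 12 11 20) (.fin 2 ⟨0, 0, 0, 0, 0⟩ ⟨0, 0, 0, 0, 0⟩ 0 8 12 11 21)))),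
    (24, (.s2 ⟨11, 0, 0, 0, 21⟩ (.fin 2 ⟨0, 0, 0, 0, 0⟩ ⟨0, 0, 0, 0, 0⟩ 0 9 2 11 19) (.s2 ⟨11, 0, 0, 0, 22⟩ (.fin 2 ⟨0, 0, 0, 0, 0⟩ ⟨0, 0, 0, 0, 0⟩ 0 20 2 11 20) (.fin 2 ⟨0, 0, 0, 0, 0⟩ ⟨0, 0, 0, 0, 0⟩ 0 8 2 11 21)))),
    (25, (.s2 ⟨11, 0, 0, 0, 21⟩ (.fin 2 ⟨0, 0, 0, 0, 0⟩ ⟨0, 0, 0, 0, 0⟩ 0 9 13 11 19) (.s2 ⟨11, 0, 0, 0, 22⟩ (.fin 2 ⟨0, 0, 0, 0, 0⟩ ⟨0, 0, 0, 0, 0⟩ 0 20 13 11 20) (.fin 2 ⟨0, 0, 0, 0, 0⟩ ⟨0, 0, 0, 0, 0⟩ 0 8 13 11 21)))),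
    (26, (.s2 ⟨11, 0, 0, 0, 21⟩ (.fin 2 ⟨0, 0, 0, 0, 0⟩ ⟨0, 0, 0, 0, 0⟩ 0 9 3 11 19) (.s2 ⟨11, 0, 0, 0, 22⟩ (.fin 2 ⟨0, 0, 0, 0, 0⟩ ⟨0, 0, 0, 0, 0⟩ 0 20 3 11 20) (.fin 2 ⟨0, 0, 0, 0, 0⟩ ⟨0, 0, 0, 0, 0⟩ 0 8 3 11 21)))),
    (27, (.s2 ⟨11, 0, 0, 0, 21⟩ (.fin 2 ⟨0, 0, 0, 0, 0⟩ ⟨0, 0, 0, 0, 0⟩ 0 9 14 11 19) (.s2 ⟨11, 0, 0, 0, 22⟩ (.fin 2 ⟨0, 0, 0, 0, 0⟩ ⟨0, 0, 0, 0, 0⟩ 0 20 14 11 20) (.fin 2 ⟨0, 0, 0, 0, 0⟩ ⟨0, 0, 0, 0, 0⟩ 0 8 14 11 21)))),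
    (28, (.s2 ⟨11, 0, 0, 0, 21⟩ (.fin 2 ⟨0, 0, 0, 0, 0⟩ ⟨0, 0, 0, 0, 0⟩ 0 9 4 11 19) (.s2 ⟨11, 0, 0, 0, 22⟩ (.fin 2 ⟨0, 0, 0, 0, 0⟩ ⟨0, 0, 0, 0, 0⟩ 0 20 4 11 20) (.fin 2 ⟨0, 0, 0, 0, 0⟩ ⟨0, 0, 0, 0, 0⟩ 0 8 4 11 21)))),
    (29, (.s2 ⟨11, 0, 0, 0, 21⟩ (.fin 2 ⟨0, 0, 0, 0, 0⟩ ⟨0, 0, 0, 0, 0⟩ 0 9 15 11 19) (.s2 ⟨11, 0, 0, 0, 22⟩ (.fin 2 ⟨0, 0, 0, 0, 0⟩ ⟨0, 0, 0, 0, 0⟩ 0 20 15 11 20) (.fin 2 ⟨0, 0, 0, 0, 0⟩ ⟨0, 0, 0, 0, 0⟩ 0 8 15 11 21)))),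
    (30, (.s2 ⟨11, 0, 0, 0, 21⟩ (.fin 2 ⟨0, 0, 0, 0, 0⟩ ⟨0, 0, 0, 0, 0⟩ 0 9 5 11 19) (.s2 ⟨11, 0, 0, 0, 22⟩ (.fin 2 ⟨0, 0, 0, 0, 0⟩ ⟨0, 0, 0, 0, 0⟩ 0 20 5 11 20) (.fin 2 ⟨0, 0, 0, 0, 0⟩ ⟨0, 0, 0, 0, 0⟩ 0 8 5 11 21)))),
    (31, (.s2 ⟨11, 0, 0, 0, 21⟩ (.fin 2 ⟨0, 0, 0, 0, 0⟩ ⟨0, 0, 0, 0, 0⟩ 0 9 16 11 19) (.s2 ⟨11, 0, 0, 0, 22⟩ (.fin 2 ⟨0, 0, 0, 0, 0⟩ ⟨0, 0, 0, 0, 0⟩ 0 20 16 11 20) (.fin 2 ⟨0, 0, 0, 0, 0⟩ ⟨0, 0, 0, 0, 0⟩ 0 8 16 11 21)))),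
    (32, (.s2 ⟨11, 0, 0, 0, 21⟩ (.fin 2 ⟨0, 0, 0, 0, 0⟩ ⟨0, 0, 0, 0, 0⟩ 0 9 6 11 19) (.s2 ⟨11, 0, 0, 0, 22⟩ (.fin 2 ⟨0, 0, 0, 0, 0⟩ ⟨0, 0, 0, 0, 0⟩ 0 20 6 11 20) (.fin 2 ⟨0, 0, 0, 0, 0⟩ ⟨0, 0, 0, 0, 0⟩ 0 8 6 11 21)))),
    (33, (.s2 ⟨11, 0, 0, 0, 21⟩ (.fin 2 ⟨0, 0, 0, 0, 0⟩ ⟨0, 0, 0, 0, 0⟩ 0 9 17 11 19) (.fin 2 ⟨0, 0, 0, 0, 0⟩ ⟨0, 0, 0, 0, 0⟩ 0 20 17 11 20))),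
    (34, (.s2 ⟨11, 0, 0, 0, 22⟩ (.fin 2 ⟨0, 0, 0, 0, 0⟩ ⟨0, 0, 0, 0, 0⟩ 0 20 7 11 20) (.fin 2 ⟨0, 0, 0, 0, 0⟩ ⟨0, 0, 0, 0, 0⟩ 0 8 7 11 21))),
    (35, (.s2 ⟨11, 0, 0, 0, 22⟩ (.fin 2 ⟨0, 0, 0, 0, 0⟩ ⟨0, 0, 0, 0, 0⟩ 0 20 18 11 20) (.fin 2 ⟨0, 0, 0, 0, 0⟩ ⟨0, 0, 0, 0, 0⟩ 0 8 18 11 21))),
    (87, (.cap 10)),
    (121, (.s2 ⟨11, 0, 0, 0, 22⟩ (.fin 2 ⟨0, 0, 0, 0, 0⟩ ⟨0, 0, 0, 0, 0⟩ 0 20 19 11 20) (.fin 2 ⟨0, 0, 0, 0, 0⟩ ⟨0, 0, 0, 0, 0⟩ 0 8 19 11 21)))]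
    []
    [(6, (.cap 8)),
    (9, (.swap (.cap 21))),
    (11, (.swap (.cap 19)))]
    []
    []
    (.cap 9)

theorem k121 : chkC env c121 p121 = true := by decide +kernel

def p9 : Pf :=
  .step []
    [(0, [⟨5, 0, 0, 0, 8⟩]),
    (1, [⟨5, 0, 0, 0, 9⟩]),
    (2, [⟨2, 0, 0, 0, 3⟩]),
    (4, [⟨2, 0, 0, 0, 4⟩]),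
    (6, [⟨4, 0, 0, 0, 9⟩]),
    (8, [⟨4, 0, 0, 0, 9⟩]),
    (9, [⟨3, 0, 0, 0, 8⟩]),
    (68, [⟨5, 0, 0, 0, 7⟩]),
    (69, [⟨2, 0, 0, 0, 5⟩]),
    (72, [⟨5, 0, 0, 0, 8⟩]),
    (73, [⟨4, 0, 0, 0, 10⟩]),
    (76, [⟨5, 0, 0, 0, 8⟩]),
    (77, [⟨2, 0, 0, 0, 4⟩]),
    (78, [⟨5, 0, 0, 0, 8⟩]),
    (79, [⟨4, 0, 0, 0, 10⟩]),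
    (80, [⟨4, 0, 0, 0, 8⟩]),
    (81, [⟨2, 0, 0, 0, 2⟩]),
    (82, [⟨4, 0, 0, 0, 8⟩]),
    (83, [⟨3, 0, 0, 0, 9⟩]),
    (218, [⟨2, 0, 0, 0, 4⟩]),
    (219, [⟨5, 0, 0, 0, 7⟩]),
    (222, [⟨2, 0, 0, 0, 5⟩]),
    (223, [⟨5, 0, 0, 0, 7⟩])]
    [2, 4, 6, 9]
    [(0, (.swap (.del 6 ⟨6, 0, 0, 0, 8⟩ ⟨0, 0, 0, 0, 0⟩ ⟨0, 3, 0, true⟩ ⟨13, 3, 0, true⟩))),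
    (1, (.cap 16)),
    (68, (.swap (.del 6 ⟨6, 0, 0, 0, 8⟩ ⟨0, 0, 0, 0, 0⟩ ⟨0, 3, 0, true⟩ ⟨13, 3, 0, true⟩))),
    (69, (.swap (.del 8 ⟨6, 0, 0, 0, 8⟩ ⟨0, 0, 0, 0, 0⟩ ⟨0, 3, 0, true⟩ ⟨3, 13, 0, true⟩))),
    (72, (.cap 15)),
    (73, (.cap 14)),
    (76, (.del 63 ⟨0, 0, 0, 0, 0⟩ ⟨0, 0, 0, 0, 0⟩ ⟨4, 12, 0, false⟩ ⟨1, 5, 0, false⟩)),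
    (77, (.del 63 ⟨0, 0, 0, 0, 0⟩ ⟨0, 0, 0, 0, 0⟩ ⟨4, 12, 0, false⟩ ⟨1, 5, 0, false⟩)),
    (219, (.swap (.del 6 ⟨6, 0, 0, 0, 8⟩ ⟨0, 0, 0, 0, 0⟩ ⟨0, 3, 0, true⟩ ⟨13, 3, 0, true⟩))),
    (223, (.swap (.del 7 ⟨6, 0, 0, 0, 8⟩ ⟨0, 0, 0, 0, 0⟩ ⟨0, 3, 0, true⟩ ⟨13, 3, 0, true⟩)))]
    [(3, (.swap (.del 8 ⟨6, 0, 0, 0, 8⟩ ⟨0, 0, 0, 0, 0⟩ ⟨0, 3, 0, true⟩ ⟨3, 13, 0, true⟩))),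
    (9, (.cap 14)),
    (15, (.del 63 ⟨0, 0, 0, 0, 0⟩ ⟨0, 0, 0, 0, 0⟩ ⟨4, 12, 0, false⟩ ⟨1, 5, 0, false⟩)),
    (208, (.swap (.del 6 ⟨6, 0, 0, 0, 8⟩ ⟨0, 0, 0, 0, 0⟩ ⟨0, 3, 0, true⟩ ⟨13, 3, 0, true⟩))),
    (214, (.swap (.del 7 ⟨6, 0, 0, 0, 8⟩ ⟨0, 0, 0, 0, 0⟩ ⟨0, 3, 0, true⟩ ⟨13, 3, 0, true⟩)))]
    [(2, (.swap (.cap 6))),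
    (4, (.swap (.cap 0))),
    (6, (.cap 13)),
    (9, (.cap 8))]
    []
    [(208, (.swap (.del 6 ⟨6, 0, 0, 0, 8⟩ ⟨0, 0, 0, 0, 0⟩ ⟨0, 3, 0, true⟩ ⟨13, 3, 0, true⟩))),
    (214, (.swap (.del 7 ⟨6, 0, 0, 0, 8⟩ ⟨0, 0, 0, 0, 0⟩ ⟨0, 3, 0, true⟩ ⟨13, 3, 0, true⟩)))]
    (.swap (.del 0 ⟨0, 0, 0, 0, 0⟩ ⟨0, 0, 0, 0, 0⟩ ⟨0, 6, 0, false⟩ ⟨3, 13, 0, true⟩))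

theorem k9 : chkC env c9 p9 = true := by decide +kernel

def p19 : Pf :=
  .step []
    [(1, [⟨1, 0, 0, 0, -1⟩]),
    (2, [⟨4, 0, 0, 0, 7⟩]),
    (3, [⟨4, 0, 0, 0, 8⟩]),
    (5, [⟨1, 0, 0, 0, 3⟩]),
    (7, [⟨3, 0, 0, 0, 8⟩]),
    (8, [⟨2, 0, 0, 0, -1⟩]),
    (70, [⟨4, 0, 0, 0, 6⟩]),
    (71, [⟨1, 0, 0, 0, 4⟩]),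
    (74, [⟨4, 0, 0, 0, 7⟩]),
    (75, [⟨3, 0, 0, 0, 9⟩]),
    (76, [⟨1, 0, 0, 0, 2⟩]),
    (77, [⟨4, 0, 0, 0, 6⟩]),
    (78, [⟨1, 0, 0, 0, 0⟩]),
    (79, [⟨2, 0, 0, 0, -2⟩]),
    (80, [⟨2, 0, 0, 0, 0⟩]),
    (81, [⟨4, 0, 0, 0, 6⟩]),
    (90, [⟨4, 0, 0, 0, 7⟩]),
    (91, [⟨3, 0, 0, 0, 7⟩])]
    [1, 5, 7, 91]
    [(2, (.swap (.del 15 ⟨3, 0, 0, 0, 4⟩ ⟨0, 0, 0, 0, 0⟩ ⟨0, 6, 0, true⟩ ⟨9, 3, 0, true⟩))),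
    (3, (.del 18 ⟨0, 0, 0, 0, 0⟩ ⟨0, 0, 0, 0, 0⟩ ⟨6, 6, 7, false⟩ ⟨0, 9, 0, false⟩)),
    (70, (.swap (.del 15 ⟨3, 0, 0, 0, 4⟩ ⟨0, 0, 0, 0, 0⟩ ⟨0, 6, 0, true⟩ ⟨9, 3, 0, true⟩))),
    (74, (.del 18 ⟨0, 0, 0, 0, 0⟩ ⟨0, 0, 0, 0, 0⟩ ⟨6, 6, 7, false⟩ ⟨0, 9, 0, false⟩)),
    (75, (.del 18 ⟨0, 0, 0, 0, 0⟩ ⟨0, 0, 0, 0, 0⟩ ⟨6, 6, 7, false⟩ ⟨0, 9, 0, false⟩)),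
    (77, (.swap (.del 15 ⟨3, 0, 0, 0, 4⟩ ⟨0, 0, 0, 0, 0⟩ ⟨0, 6, 0, true⟩ ⟨9, 3, 0, true⟩))),
    (78, (.del 10 ⟨0, 0, 0, 0, 0⟩ ⟨0, 0, 0, 0, 0⟩ ⟨0, 12, 0, true⟩ ⟨0, 3, 0, false⟩)),
    (90, (.swap (.del 2 ⟨0, 0, 0, 0, 0⟩ ⟨0, 0, 0, 0, 0⟩ ⟨0, 9, 0, false⟩ ⟨9, 3, 0, true⟩)))]
    [(12, (.del 18 ⟨0, 0, 0, 0, 0⟩ ⟨0, 0, 0, 0, 0⟩ ⟨6, 6, 7, false⟩ ⟨0, 9, 0, false⟩)),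
    (15, (.swap (.del 15 ⟨3, 0, 0, 0, 4⟩ ⟨0, 0, 0, 0, 0⟩ ⟨0, 6, 0, true⟩ ⟨9, 3, 0, true⟩))),
    (36, (.swap (.del 2 ⟨0, 0, 0, 0, 0⟩ ⟨0, 0, 0, 0, 0⟩ ⟨0, 9, 0, false⟩ ⟨9, 3, 0, true⟩)))]
    [(1, (.del 10 ⟨0, 0, 0, 0, 0⟩ ⟨0, 0, 0, 0, 0⟩ ⟨0, 12, 0, true⟩ ⟨0, 3, 0, false⟩)),
    (5, (.swap (.cap 3))),
    (7, (.cap 9)),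
    (91, (.swap (.del 2 ⟨0, 0, 0, 0, 0⟩ ⟨0, 0, 0, 0, 0⟩ ⟨0, 9, 0, false⟩ ⟨9, 3, 0, true⟩)))]
    [(23, (.s1 ⟨1, 0, 0, 0, -1⟩ (.rew 6 w20 ⟨0, 3, 0, false⟩ (.go 1 (-1) (.del 18 ⟨0, 0, 0, 0, 0⟩ ⟨0, 0, 0, 0, 0⟩ ⟨0, 13, 0, false⟩ ⟨0, 9, 0, false⟩))) (.s1 ⟨1, 0, 0, 0, 0⟩ (.go (-1) (-1) (.del 18 ⟨0, 0, 0, 0, 0⟩ ⟨0, 0, 0, 0, 0⟩ ⟨0, 3, 0, false⟩ ⟨0, 9, 0, false⟩)) (.s1 ⟨2, 0, 0, 0, -1⟩ (.go 1 (-1) (.del 18 ⟨0, 0, 0, 0, 0⟩ ⟨0, 0, 0, 0, 0⟩ ⟨6, 6, 7, false⟩ ⟨0, 9, 0, false⟩)) (.swap (.go (-1) 0 (.del 17 ⟨3, 0, 0, 0, 4⟩ ⟨0, 0, 0, 0, 0⟩ ⟨0, 6, 0, true⟩ ⟨6, 6, 0, true⟩)))))))]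
    [(15, (.swap (.del 15 ⟨3, 0, 0, 0, 4⟩ ⟨0, 0, 0, 0, 0⟩ ⟨0, 6, 0, true⟩ ⟨9, 3, 0, true⟩)))]
    (.swap (.del 16 ⟨3, 0, 0, 0, 4⟩ ⟨0, 0, 0, 0, 0⟩ ⟨0, 6, 0, true⟩ ⟨0, 12, 0, true⟩))

theorem k19 : chkC env c19 p19 = true := by decide +kernel

def p87 : Pf :=
  .step []
    [(2, [⟨6, 0, 0, 0, 6⟩]),
    (4, [⟨6, 0, 0, 0, 6⟩]),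
    (5, [⟨6, 0, 0, 0, 6⟩]),
    (17, [⟨1, 0, 0, 0, 4⟩]),
    (18, [⟨1, 0, 0, 0, 4⟩]),
    (19, [⟨1, 0, 0, 0, 1⟩]),
    (52, [⟨1, 0, 0, 0, 5⟩]),
    (53, [⟨1, 0, 0, 0, 5⟩]),
    (54, [⟨1, 0, 0, 0, 3⟩]),
    (55, [⟨1, 0, 0, 0, 4⟩]),
    (56, [⟨1, 0, 0, 0, 5⟩]),
    (57, [⟨1, 0, 0, 0, 5⟩]),
    (58, [⟨1, 0, 0, 0, 6⟩]),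
    (59, [⟨1, 0, 0, 0, 4⟩]),
    (60, [⟨1, 0, 0, 0, 5⟩]),
    (61, [⟨1, 0, 0, 0, 4⟩]),
    (62, [⟨1, 0, 0, 0, 4⟩]),
    (63, [⟨1, 0, 0, 0, 3⟩]),
    (64, [⟨1, 0, 0, 0, 3⟩]),
    (65, [⟨1, 0, 0, 0, 3⟩]),
    (66, [⟨1, 0, 0, 0, 2⟩]),
    (67, [⟨1, 0, 0, 0, 2⟩]),
    (70, [⟨6, 0, 0, 0, 6⟩]),
    (71, [⟨6, 0, 0, 0, 6⟩]),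
    (107, [⟨6, 0, 0, 0, 6⟩]),
    (108, [⟨6, 0, 0, 0, 6⟩]),
    (109, [⟨6, 0, 0, 0, 5⟩]),
    (110, [⟨0, 0, 0, 0, 1⟩]),
    (111, [⟨1, 0, 0, 0, 5⟩]),
    (112, [⟨6, 0, 0, 0, 6⟩]),
    (113, [⟨1, 0, 0, 0, 5⟩]),
    (114, [⟨1, 0, 0, 0, 6⟩]),
    (115, [⟨1, 0, 0, 0, 7⟩]),
    (116, [⟨1, 0, 0, 0, 8⟩]),
    (117, [⟨1, 0, 0, 0, 9⟩]),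
    (118, [⟨6, 0, 0, 0, 6⟩]),
    (119, [⟨1, 0, 0, 0, 0⟩]),
    (120, [⟨0, 0, 0, 0, 1⟩]),
    (129, [⟨0, 0, 0, 0, 0⟩])]
    [2, 4, 129]
    [(5, (.cap 3)),
    (70, (.swap (.del 86 ⟨0, 0, 0, 0, 0⟩ ⟨0, 0, 0, 0, 0⟩ ⟨5, 2, 0, false⟩ ⟨1, 2, 0, false⟩))),
    (71, (.swap (.del 86 ⟨0, 0, 0, 0, 0⟩ ⟨0, 0, 0, 0, 0⟩ ⟨5, 2, 0, false⟩ ⟨1, 2, 0, false⟩))),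
    (107, (.swap (.del 85 ⟨0, 0, 0, 0, 0⟩ ⟨0, 0, 0, 0, 0⟩ ⟨0, 6, 0, true⟩ ⟨1, 2, 0, false⟩))),
    (108, (.swap (.del 85 ⟨0, 0, 0, 0, 0⟩ ⟨0, 0, 0, 0, 0⟩ ⟨0, 6, 0, true⟩ ⟨1, 2, 0, false⟩))),
    (109, (.cap 2)),
    (110, (.cap 1))]
    [(6, (.swap (.del 86 ⟨0, 0, 0, 0, 0⟩ ⟨0, 0, 0, 0, 0⟩ ⟨5, 2, 0, false⟩ ⟨1, 2, 0, false⟩))),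
    (61, (.swap (.del 85 ⟨0, 0, 0, 0, 0⟩ ⟨0, 0, 0, 0, 0⟩ ⟨0, 6, 0, true⟩ ⟨1, 2, 0, false⟩))),
    (64, (.cap 1))]
    [(2, (.swap (.cap 7))),
    (4, (.swap (.cap 0))),
    (129, (.cap 0))]
    []
    []
    (.swap (.del 84 ⟨0, 0, 0, 0, 0⟩ ⟨0, 0, 0, 0, 0⟩ ⟨0, 8, 0, true⟩ ⟨0, 3, 0, true⟩))

theorem k87 : chkC env c87 p87 = true := by decide +kernel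

def p16 : Pf :=
  .step [⟨6, 0, 0, 0, 6⟩]
    []
    [1, 3, 5, 77, 82]
    [(2, (.del 12 ⟨3, 0, 0, 0, 9⟩ ⟨0, 0, 0, 0, 0⟩ ⟨3, 3, 0, true⟩ ⟨0, 3, 0, false⟩)),
    (8, (.sx ⟨0, 0, 0, 0, 1⟩ (.del 13 ⟨3, 0, 0, 0, 9⟩ ⟨0, 0, 0, 0, 0⟩ ⟨3, 3, 0, true⟩ ⟨0, 12, 0, false⟩) (.s1 ⟨5, 1, 0, 0, 9⟩ (.del 13 ⟨0, 1, 0, 0, -1⟩ ⟨0, 0, 0, 0, 0⟩ ⟨3, 3, 0, true⟩ ⟨0, 12, 0, false⟩) (.del 13 ⟨3, 0, 0, 0, 9⟩ ⟨0, 0, 0, 0, 0⟩ ⟨3, 3, 0, true⟩ ⟨0, 12, 0, false⟩)))),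
    (70, (.del 12 ⟨3, 0, 0, 0, 9⟩ ⟨0, 0, 0, 0, 0⟩ ⟨3, 3, 0, true⟩ ⟨0, 3, 0, false⟩)),
    (71, (.sx ⟨0, 0, 0, 0, 1⟩ (.del 13 ⟨3, 0, 0, 0, 9⟩ ⟨0, 0, 0, 0, 0⟩ ⟨3, 3, 0, true⟩ ⟨0, 12, 0, false⟩) (.s1 ⟨6, 1, 0, 0, 4⟩ (.del 13 ⟨0, 1, 0, 0, -1⟩ ⟨0, 0, 0, 0, 0⟩ ⟨3, 3, 0, true⟩ ⟨0, 12, 0, false⟩) (.del 13 ⟨0, 1, 0, 0, 0⟩ ⟨0, 0, 0, 0, 0⟩ ⟨3, 3, 0, true⟩ ⟨0, 12, 0, false⟩)))),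
    (78, (.swap (.del 10 ⟨0, 0, 0, 0, 0⟩ ⟨0, 0, 0, 0, 0⟩ ⟨0, 12, 0, false⟩ ⟨3, 3, 0, true⟩))),
    (79, (.sx ⟨0, 0, 0, 0, 1⟩ (.del 13 ⟨3, 0, 0, 0, 9⟩ ⟨0, 0, 0, 0, 0⟩ ⟨3, 3, 0, true⟩ ⟨0, 12, 0, false⟩) (.s1 ⟨5, 1, 0, 0, 10⟩ (.del 13 ⟨0, 1, 0, 0, -1⟩ ⟨0, 0, 0, 0, 0⟩ ⟨3, 3, 0, true⟩ ⟨0, 12, 0, false⟩) (.del 13 ⟨3, 0, 0, 0, 9⟩ ⟨0, 0, 0, 0, 0⟩ ⟨3, 3, 0, true⟩ ⟨0, 12, 0, false⟩)))),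
    (80, (.sx ⟨0, 0, 0, 0, 1⟩ (.del 13 ⟨3, 0, 0, 0, 9⟩ ⟨0, 0, 0, 0, 0⟩ ⟨3, 3, 0, true⟩ ⟨0, 12, 0, false⟩) (.s1 ⟨5, 1, 0, 0, 8⟩ (.del 13 ⟨0, 1, 0, 0, -1⟩ ⟨0, 0, 0, 0, 0⟩ ⟨3, 3, 0, true⟩ ⟨0, 12, 0, false⟩) (.del 13 ⟨3, 0, 0, 0, 9⟩ ⟨0, 0, 0, 0, 0⟩ ⟨3, 3, 0, true⟩ ⟨0, 12, 0, false⟩))))]
    [(18, (.sx ⟨0, 0, 0, 0, 1⟩ (.del 13 ⟨3, 0, 0, 0, 9⟩ ⟨0, 0, 0, 0, 0⟩ ⟨3, 3, 0, true⟩ ⟨0, 12, 0, false⟩) (.s1 ⟨6, 1, 0, -1, 8⟩ (.del 13 ⟨0, 1, 0, 0, -1⟩ ⟨0, 0, 0, 0, 0⟩ ⟨3, 3, 0, true⟩ ⟨0, 12, 0, false⟩) (.del 13 ⟨3, 0, 0, 0, 9⟩ ⟨0, 0, 0, 0, 0⟩ ⟨3, 3, 0, true⟩ ⟨0, 12, 0, false⟩))))]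
    [(1, (.swap (.del 10 ⟨0, 0, 0, 0, 0⟩ ⟨0, 0, 0, 0, 0⟩ ⟨0, 12, 0, false⟩ ⟨3, 3, 0, true⟩))),
    (3, (.swap (.cap 0))),
    (5, (.cap 3)),
    (77, (.sx ⟨0, 0, 0, 0, 1⟩ (.del 12 ⟨3, 0, 0, 0, 9⟩ ⟨0, 0, 0, 0, 0⟩ ⟨3, 3, 0, true⟩ ⟨0, 3, 0, false⟩) (.del 15 ⟨0, 1, 0, 0, -1⟩ ⟨0, 0, 0, 0, 0⟩ ⟨0, 6, 0, false⟩ ⟨0, 3, 0, false⟩))),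
    (82, (.sx ⟨0, 0, 0, 0, 1⟩ (.del 14 ⟨3, 0, 0, 0, 9⟩ ⟨0, 0, 0, 0, 0⟩ ⟨3, 3, 0, true⟩ ⟨0, 6, 0, false⟩) (.del 17 ⟨0, 1, 0, 0, -1⟩ ⟨0, 0, 0, 0, 0⟩ ⟨0, 6, 0, false⟩ ⟨0, 6, 0, false⟩)))]
    []
    []
    (.del 13 ⟨3, 0, 0, 0, 9⟩ ⟨0, 0, 0, 0, 0⟩ ⟨3, 3, 0, true⟩ ⟨0, 12, 0, false⟩)

theorem k16 : chkC env c16 p16 = true := by decide +kernel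

def p106 : Pf :=
  .step []
    [(3, [⟨8, 0, 0, 0, 11⟩]),
    (12, [⟨8, 0, 0, 0, 11⟩]),
    (13, [⟨8, 0, 0, 0, 10⟩]),
    (14, [⟨8, 0, 0, 0, 11⟩]),
    (90, [⟨8, 0, 0, 0, 11⟩]),
    (91, [⟨8, 0, 0, 0, 11⟩]),
    (92, [⟨8, 0, 0, 0, 11⟩]),
    (93, [⟨8, 0, 0, 0, 10⟩]),
    (94, [⟨5, 0, 0, 0, 7⟩]),
    (95, [⟨8, 0, 0, 0, 11⟩]),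
    (96, [⟨8, 0, 0, 0, 11⟩]),
    (97, [⟨8, 0, 0, 0, 9⟩]),
    (98, [⟨5, 0, 0, 0, 7⟩]),
    (99, [⟨8, 0, 0, 0, 11⟩]),
    (100, [⟨8, 0, 0, 0, 11⟩]),
    (125, [⟨5, 0, 0, 0, 6⟩])]
    [3, 14, 125]
    [(12, (.cap 11)),
    (90, (.s2 ⟨6, 0, 0, 0, 12⟩ (.swap (.del 104 ⟨0, 0, 0, 0, 0⟩ ⟨0, 0, 0, 0, 0⟩ ⟨5, 3, 0, false⟩ ⟨9, 2, 0, false⟩)) (.swap (.del 105 ⟨0, 0, 0, 0, 0⟩ ⟨0, 0, 0, 0, 0⟩ ⟨8, 7, 0, true⟩ ⟨9, 2, 0, false⟩)))),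
    (91, (.s2 ⟨6, 0, 0, 0, 12⟩ (.swap (.del 104 ⟨0, 0, 0, 0, 0⟩ ⟨0, 0, 0, 0, 0⟩ ⟨5, 3, 0, false⟩ ⟨9, 2, 0, false⟩)) (.swap (.del 105 ⟨0, 0, 0, 0, 0⟩ ⟨0, 0, 0, 0, 0⟩ ⟨8, 7, 0, true⟩ ⟨9, 2, 0, false⟩)))),
    (92, (.s2 ⟨6, 0, 0, 0, 12⟩ (.swap (.del 104 ⟨0, 0, 0, 0, 0⟩ ⟨0, 0, 0, 0, 0⟩ ⟨5, 3, 0, false⟩ ⟨9, 2, 0, false⟩)) (.swap (.del 105 ⟨0, 0, 0, 0, 0⟩ ⟨0, 0, 0, 0, 0⟩ ⟨8, 7, 0, true⟩ ⟨9, 2, 0, false⟩)))),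
    (93, (.cap 10)),
    (94, (.cap 9))]
    [(36, (.s2 ⟨6, 0, 0, 0, 12⟩ (.swap (.del 104 ⟨0, 0, 0, 0, 0⟩ ⟨0, 0, 0, 0, 0⟩ ⟨5, 3, 0, false⟩ ⟨9, 2, 0, false⟩)) (.swap (.del 105 ⟨0, 0, 0, 0, 0⟩ ⟨0, 0, 0, 0, 0⟩ ⟨8, 7, 0, true⟩ ⟨9, 2, 0, false⟩)))),
    (37, (.s2 ⟨6, 0, 0, 0, 12⟩ (.swap (.del 104 ⟨0, 0, 0, 0, 0⟩ ⟨0, 0, 0, 0, 0⟩ ⟨5, 3, 0, false⟩ ⟨9, 2, 0, false⟩)) (.swap (.del 105 ⟨0, 0, 0, 0, 0⟩ ⟨0, 0, 0, 0, 0⟩ ⟨8, 7, 0, true⟩ ⟨9, 2, 0, false⟩)))),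
    (40, (.cap 9))]
    [(3, (.swap (.cap 8))),
    (14, (.swap (.cap 16))),
    (125, (.cap 8))]
    []
    []
    (.swap (.del 103 ⟨0, 0, 0, 0, 0⟩ ⟨0, 0, 0, 0, 0⟩ ⟨0, 16, 0, false⟩ ⟨0, 11, 0, false⟩))

theorem k106 : chkC env c106 p106 = true := by decide +kernel

def p13 : Pf :=
  .step []
    [(1, [⟨3, 0, 0, 0, 5⟩]),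
    (2, [⟨6, 0, 0, 0, 11⟩]),
    (3, [⟨6, 0, 0, 0, 12⟩]),
    (5, [⟨3, 0, 0, 0, 7⟩]),
    (8, [⟨4, 0, 0, 0, 3⟩]),
    (70, [⟨6, 0, 0, 0, 10⟩]),
    (71, [⟨3, 0, 0, 0, 8⟩]),
    (77, [⟨6, 0, 0, 0, 10⟩]),
    (78, [⟨3, 0, 0, 0, 4⟩]),
    (79, [⟨4, 0, 0, 0, 2⟩]),
    (80, [⟨4, 0, 0, 0, 4⟩]),
    (81, [⟨6, 0, 0, 0, 10⟩]),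
    (82, [⟨4, 0, 0, 0, 2⟩])]
    [1, 3, 5, 77, 82]
    [(2, (.sx ⟨0, 0, 0, 0, 1⟩ (.cap 6) (.del 12 ⟨0, 1, 0, 0, -1⟩ ⟨0, 0, 0, 0, 0⟩ ⟨0, 6, 0, false⟩ ⟨0, 3, 0, false⟩))),
    (70, (.sx ⟨0, 0, 0, 0, 1⟩ (.cap 5) (.del 12 ⟨0, 1, 0, 0, -1⟩ ⟨0, 0, 0, 0, 0⟩ ⟨0, 6, 0, false⟩ ⟨0, 3, 0, false⟩))),
    (71, (.sx ⟨0, 0, 0, 0, 1⟩ (.cap 4) (.del 13 ⟨0, 1, 0, 0, -1⟩ ⟨0, 0, 0, 0, 0⟩ ⟨0, 6, 0, false⟩ ⟨0, 12, 0, false⟩)))]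
    [(6, (.sx ⟨0, 0, 0, 0, 1⟩ (.cap 4) (.del 13 ⟨0, 1, 0, 0, -1⟩ ⟨0, 0, 0, 0, 0⟩ ⟨0, 6, 0, false⟩ ⟨0, 12, 0, false⟩)))]
    [(1, (.swap (.del 10 ⟨0, 0, 0, 0, 0⟩ ⟨0, 0, 0, 0, 0⟩ ⟨0, 12, 0, false⟩ ⟨0, 6, 0, false⟩))),
    (3, (.swap (.cap 0))),
    (5, (.cap 3)),
    (77, (.sx ⟨0, 0, 0, 0, 1⟩ (.swap (.del 11 ⟨0, 0, 0, 0, 0⟩ ⟨0, 0, 0, 0, 0⟩ ⟨0, 3, 0, false⟩ ⟨0, 6, 0, false⟩)) (.del 12 ⟨0, 1, 0, 0, -1⟩ ⟨0, 0, 0, 0, 0⟩ ⟨0, 6, 0, false⟩ ⟨0, 3, 0, false⟩))),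
    (82, (.sx ⟨0, 0, 0, 0, 1⟩ (.swap (.del 9 ⟨0, 0, 0, 0, 0⟩ ⟨0, 0, 0, 0, 0⟩ ⟨0, 6, 0, false⟩ ⟨0, 6, 0, false⟩)) (.del 14 ⟨0, 1, 0, 0, -1⟩ ⟨0, 0, 0, 0, 0⟩ ⟨0, 6, 0, false⟩ ⟨0, 6, 0, false⟩)))]
    []
    []
    (.swap (.del 10 ⟨0, 0, 0, 0, 0⟩ ⟨0, 0, 0, 0, 0⟩ ⟨0, 12, 0, false⟩ ⟨0, 6, 0, false⟩))

theorem k13 : chkC env c13 p13 = true := by decide +kernel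

def p6 : Pf :=
  .step []
    [(0, [⟨6, 0, 0, 0, 11⟩]),
    (1, [⟨6, 0, 0, 0, 10⟩]),
    (4, [⟨3, 0, 0, 0, 7⟩]),
    (68, [⟨6, 0, 0, 0, 10⟩]),
    (69, [⟨3, 0, 0, 0, 8⟩]),
    (218, [⟨3, 0, 0, 0, 7⟩]),
    (219, [⟨6, 0, 0, 0, 10⟩]),
    (223, [⟨6, 0, 0, 0, 10⟩])]
    [1, 4, 218, 223]
    [(0, (.sx ⟨0, 0, 0, 0, 1⟩ (.cap 6) (.del 6 ⟨0, 1, 0, 0, -1⟩ ⟨0, 0, 0, 0, 0⟩ ⟨0, 6, 0, false⟩ ⟨0, 9, 0, false⟩))),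
    (68, (.sx ⟨0, 0, 0, 0, 1⟩ (.cap 5) (.del 6 ⟨0, 1, 0, 0, -1⟩ ⟨0, 0, 0, 0, 0⟩ ⟨0, 6, 0, false⟩ ⟨0, 9, 0, false⟩))),
    (69, (.sx ⟨0, 0, 0, 0, 1⟩ (.cap 4) (.del 6 ⟨0, 1, 0, 0, -1⟩ ⟨0, 0, 0, 0, 0⟩ ⟨0, 6, 0, false⟩ ⟨0, 9, 0, false⟩)))]
    [(3, (.sx ⟨0, 0, 0, 0, 1⟩ (.cap 4) (.del 6 ⟨0, 1, 0, 0, -1⟩ ⟨0, 0, 0, 0, 0⟩ ⟨0, 6, 0, false⟩ ⟨0, 9, 0, false⟩)))]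
    [(1, (.swap (.cap 0))),
    (4, (.cap 3)),
    (218, (.rot (.swap (.del 5 ⟨0, 0, 0, 0, 0⟩ ⟨0, 0, 0, 0, 0⟩ ⟨0, 9, 0, false⟩ ⟨3, 3, 6, false⟩)))),
    (223, (.sx ⟨0, 0, 0, 0, 1⟩ (.rot (.swap (.del 4 ⟨0, 0, 0, 0, 0⟩ ⟨0, 0, 0, 0, 0⟩ ⟨0, 3, 0, false⟩ ⟨3, 3, 6, false⟩))) (.del 7 ⟨0, 1, 0, 0, -1⟩ ⟨0, 0, 0, 0, 0⟩ ⟨0, 6, 0, false⟩ ⟨0, 3, 0, false⟩)))]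
    []
    []
    (.sx ⟨0, 0, 0, 0, 1⟩ (.rot (.swap (.del 5 ⟨0, 0, 0, 0, 0⟩ ⟨0, 0, 0, 0, 0⟩ ⟨0, 9, 0, false⟩ ⟨3, 3, 6, false⟩))) (.del 6 ⟨0, 1, 0, 0, -1⟩ ⟨0, 0, 0, 0, 0⟩ ⟨0, 6, 0, false⟩ ⟨0, 9, 0, false⟩))

theorem k6 : chkC env c6 p6 = true := by decide +kernel

def p15 : Pf :=
  .step [⟨6, 0, 0, 0, 6⟩]
    []
    [1, 3, 5, 81]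
    [(71, (.sx ⟨0, 0, 0, 0, 1⟩ (.del 12 ⟨3, 0, 0, 0, 9⟩ ⟨0, 0, 0, 0, 0⟩ ⟨3, 3, 0, true⟩ ⟨0, 6, 0, false⟩) (.s1 ⟨6, 1, 0, 0, 4⟩ (.del 12 ⟨0, 1, 0, 0, -1⟩ ⟨0, 0, 0, 0, 0⟩ ⟨3, 3, 0, true⟩ ⟨0, 6, 0, false⟩) (.del 12 ⟨0, 1, 0, 0, 0⟩ ⟨0, 0, 0, 0, 0⟩ ⟨3, 3, 0, true⟩ ⟨0, 6, 0, false⟩)))),
    (76, (.sx ⟨0, 0, 0, 0, 1⟩ (.del 12 ⟨3, 0, 0, 0, 9⟩ ⟨0, 0, 0, 0, 0⟩ ⟨3, 3, 0, true⟩ ⟨0, 6, 0, false⟩) (.s1 ⟨6, 1, 0, 0, 6⟩ (.del 12 ⟨0, 1, 0, 0, -1⟩ ⟨0, 0, 0, 0, 0⟩ ⟨3, 3, 0, true⟩ ⟨0, 6, 0, false⟩) (.del 12 ⟨0, 1, 0, 0, 0⟩ ⟨0, 0, 0, 0, 0⟩ ⟨3, 3, 0, true⟩ ⟨0, 6, 0, false⟩))))]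
    []
    [(1, (.swap (.del 11 ⟨0, 0, 0, 0, 0⟩ ⟨0, 0, 0, 0, 0⟩ ⟨0, 6, 0, false⟩ ⟨3, 3, 0, true⟩))),
    (3, (.swap (.cap 0))),
    (5, (.cap 3)),
    (81, (.sx ⟨0, 0, 0, 0, 1⟩ (.del 13 ⟨3, 0, 0, 0, 9⟩ ⟨0, 0, 0, 0, 0⟩ ⟨3, 3, 0, true⟩ ⟨0, 3, 0, false⟩) (.del 16 ⟨0, 1, 0, 0, -1⟩ ⟨0, 0, 0, 0, 0⟩ ⟨0, 6, 0, false⟩ ⟨0, 3, 0, false⟩)))]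
    []
    []
    (.del 12 ⟨3, 0, 0, 0, 9⟩ ⟨0, 0, 0, 0, 0⟩ ⟨3, 3, 0, true⟩ ⟨0, 6, 0, false⟩)

theorem k15 : chkC env c15 p15 = true := by decide +kernel

def p17 : Pf :=
  .step [⟨6, 0, 0, 0, 6⟩]
    []
    [8, 9]
    [(83, (.sx ⟨0, 0, 0, 0, 1⟩ (.del 14 ⟨3, 0, 0, 0, 9⟩ ⟨0, 0, 0, 0, 0⟩ ⟨3, 3, 0, true⟩ ⟨0, 9, 0, false⟩) (.s1 ⟨6, 1, 0, 0, 9⟩ (.del 14 ⟨0, 1, 0, 0, -1⟩ ⟨0, 0, 0, 0, 0⟩ ⟨3, 3, 0, true⟩ ⟨0, 9, 0, false⟩) (.del 14 ⟨3, 0, 0, 0, 9⟩ ⟨0, 0, 0, 0, 0⟩ ⟨3, 3, 0, true⟩ ⟨0, 9, 0, false⟩))))]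
    [(24, (.sx ⟨0, 0, 0, 0, 1⟩ (.del 14 ⟨3, 0, 0, 0, 9⟩ ⟨0, 0, 0, 0, 0⟩ ⟨3, 3, 0, true⟩ ⟨0, 9, 0, false⟩) (.s1 ⟨5, 1, 0, 1, 10⟩ (.del 14 ⟨0, 1, 0, 0, -1⟩ ⟨0, 0, 0, 0, 0⟩ ⟨3, 3, 0, true⟩ ⟨0, 9, 0, false⟩) (.del 14 ⟨3, 0, 0, 0, 9⟩ ⟨0, 0, 0, 0, 0⟩ ⟨3, 3, 0, true⟩ ⟨0, 9, 0, false⟩))))]
    [(8, (.sx ⟨0, 0, 0, 0, 1⟩ (.del 13 ⟨3, 0, 0, 0, 9⟩ ⟨0, 0, 0, 0, 0⟩ ⟨3, 3, 0, true⟩ ⟨0, 6, 0, false⟩) (.del 16 ⟨0, 1, 0, 0, -1⟩ ⟨0, 0, 0, 0, 0⟩ ⟨0, 6, 0, false⟩ ⟨0, 6, 0, false⟩))),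
    (9, (.swap (.cap 8)))]
    []
    []
    (.sx ⟨0, 0, 0, 0, 1⟩ (.del 14 ⟨3, 0, 0, 0, 9⟩ ⟨0, 0, 0, 0, 0⟩ ⟨3, 3, 0, true⟩ ⟨0, 9, 0, false⟩) (.s1 ⟨5, 1, 0, 0, 10⟩ (.del 14 ⟨0, 1, 0, 0, -1⟩ ⟨0, 0, 0, 0, 0⟩ ⟨3, 3, 0, true⟩ ⟨0, 9, 0, false⟩) (.del 14 ⟨3, 0, 0, 0, 9⟩ ⟨0, 0, 0, 0, 0⟩ ⟨3, 3, 0, true⟩ ⟨0, 9, 0, false⟩)))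

theorem k17 : chkC env c17 p17 = true := by decide +kernel

def p3 : Pf :=
  .step [⟨4, 0, 0, 0, 6⟩]
    []
    [3, 14, 125]
    [(94, (.del 1 ⟨0, 0, 0, 0, 0⟩ ⟨0, 0, 0, 0, 0⟩ ⟨5, 8, 0, false⟩ ⟨0, 9, 0, false⟩))]
    []
    [(3, (.cap 13)),
    (14, (.cap 5)),
    (125, (.swap (.cap 9)))]
    []
    []
    (.swap (.del 2 ⟨0, 0, 0, 0, 0⟩ ⟨0, 0, 0, 0, 0⟩ ⟨0, 9, 0, false⟩ ⟨5, 8, 0, true⟩))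

theorem k3 : chkC env c3 p3 = true := by decide +kernel

def p38 : Pf :=
  .step []
    [(12, [⟨12, 1, 0, 0, 15⟩]),
    (93, [⟨12, 1, 0, 0, 16⟩]),
    (94, [⟨15, 1, 0, 0, 19⟩]),
    (125, [⟨15, 1, 0, 0, 20⟩])]
    [12, 125]
    [(93, (.del 30 ⟨0, 1, 0, 0, 0⟩ ⟨-1, 0, 0, 0, 0⟩ ⟨0, 12, 0, false⟩ ⟨0, 9, 6, false⟩))]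
    []
    [(12, (.del 30 ⟨0, 1, 0, 0, 0⟩ ⟨-1, 0, 0, 0, 0⟩ ⟨0, 12, 0, false⟩ ⟨0, 9, 6, false⟩)),
    (125, (.s2 ⟨6, 0, 0, 0, 6⟩ (.rot (.del 30 ⟨0, 1, 0, 0, 0⟩ ⟨-1, 0, 0, 0, 0⟩ ⟨6, 6, 0, false⟩ ⟨6, 3, 0, false⟩)) (.rot (.del 36 ⟨0, 1, 0, 0, 0⟩ ⟨0, 0, 0, 0, 0⟩ ⟨6, 6, 0, false⟩ ⟨9, 4, 0, true⟩))))]
    []
    []
    (.del 39 ⟨0, 1, 0, 0, 1⟩ ⟨0, 0, 0, 0, 0⟩ ⟨0, 12, 0, false⟩ ⟨0, 13, 0, false⟩)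

theorem k38 : chkC env c38 p38 = true := by decide +kernel

def p40 : Pf :=
  .step []
    [(1, [⟨6, 1, 0, 0, 8⟩]),
    (2, [⟨9, 1, 0, 0, 14⟩]),
    (76, [⟨6, 1, 0, 0, 9⟩]),
    (77, [⟨9, 1, 0, 0, 13⟩])]
    [1, 2]
    [(76, (.del 30 ⟨0, 1, 0, 0, 0⟩ ⟨-1, 0, 0, 0, 0⟩ ⟨0, 12, 0, false⟩ ⟨3, 3, 3, true⟩))]
    []
    [(1, (.del 30 ⟨0, 1, 0, 0, 0⟩ ⟨-1, 0, 0, 0, 0⟩ ⟨0, 12, 0, false⟩ ⟨3, 3, 3, true⟩)),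
    (2, (.s2 ⟨2, 0, 0, 0, 6⟩ (.del 34 ⟨0, 1, 0, 0, 0⟩ ⟨0, 0, 0, 0, 0⟩ ⟨0, 12, 0, false⟩ ⟨0, 3, 0, false⟩) (.del 30 ⟨0, 1, 0, 0, 0⟩ ⟨-1, 0, 0, 0, 0⟩ ⟨0, 12, 0, false⟩ ⟨3, 3, 3, true⟩)))]
    []
    []
    (.del 41 ⟨0, 1, 0, 0, 1⟩ ⟨0, 0, 0, 0, 0⟩ ⟨0, 12, 0, false⟩ ⟨0, 6, 0, false⟩)

theorem k40 : chkC env c40 p40 = true := by decide +kernel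

def p33 : Pf :=
  .cover [(81, (.s1 ⟨9, 0, 0, 0, 9⟩ (.sx ⟨3, 0, 0, 0, 3⟩ (.del 32 ⟨0, 1, 0, 0, 0⟩ ⟨0, 0, 0, 0, 0⟩ ⟨0, 12, 0, false⟩ ⟨0, 6, 0, false⟩) .empty) (.del 16 ⟨3, 0, 0, 0, 4⟩ ⟨0, 0, 0, 0, 0⟩ ⟨3, 6, 0, true⟩ ⟨0, 6, 0, true⟩)))]
    []
    (.sx ⟨3, 0, 0, 0, 3⟩ (.del 32 ⟨0, 1, 0, 0, 0⟩ ⟨0, 0, 0, 0, 0⟩ ⟨0, 12, 0, false⟩ ⟨0, 6, 0, false⟩) (.del 16 ⟨0, 1, 0, 0, -1⟩ ⟨0, 0, 0, 0, 0⟩ ⟨3, 6, 0, true⟩ ⟨0, 6, 0, true⟩))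

theorem k33 : chkC env c33 p33 = true := by decide +kernel

def p26 : Pf :=
  .step [⟨4, 0, 0, 0, 4⟩]
    []
    [1]
    []
    [(15, (.del 20 ⟨0, 0, 0, 0, 0⟩ ⟨0, 0, 0, 0, 0⟩ ⟨3, 3, 0, false⟩ ⟨0, 9, 0, false⟩))]
    [(1, (.s1 ⟨4, 0, 0, 0, 4⟩ (.del 25 ⟨0, 0, 0, 0, 0⟩ ⟨0, 0, 0, 0, 0⟩ ⟨0, 3, 6, false⟩ ⟨0, 3, 0, false⟩) (.del 11 ⟨0, 0, 0, 0, 0⟩ ⟨0, 0, 0, 0, 0⟩ ⟨3, 3, 3, true⟩ ⟨0, 3, 0, false⟩)))]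
    []
    [(15, (.del 20 ⟨0, 0, 0, 0, 0⟩ ⟨0, 0, 0, 0, 0⟩ ⟨3, 3, 0, false⟩ ⟨0, 9, 0, false⟩))]
    (.del 11 ⟨0, 0, 0, 0, 0⟩ ⟨0, 0, 0, 0, 0⟩ ⟨3, 3, 3, true⟩ ⟨0, 3, 0, false⟩)

theorem k26 : chkC env c26 p26 = true := by decide +kernel

def p85 : Pf :=
  .step []
    [(4, [⟨6, 0, 0, 0, 10⟩]),
    (5, [⟨9, 0, 0, 0, 17⟩]),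
    (107, [⟨6, 0, 0, 0, 11⟩]),
    (108, [⟨9, 0, 0, 0, 16⟩])]
    [4, 5]
    [(108, (.cap 8))]
    []
    [(4, (.cap 6)),
    (5, (.swap (.cap 2)))]
    []
    []
    (.cap 7)

theorem k85 : chkC env c85 p85 = true := by decide +kernel

def p97 : Pf :=
  .step []
    [(1, [⟨3, 0, 0, 0, 4⟩]),
    (8, [⟨4, 0, 0, 0, 4⟩]),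
    (78, [⟨3, 0, 0, 0, 5⟩]),
    (79, [⟨4, 0, 0, 0, 3⟩])]
    [1, 8]
    [(79, (.cap 5))]
    []
    [(1, (.cap 3)),
    (8, (.swap (.cap 2)))]
    []
    []
    (.cap 4)

theorem k97 : chkC env c97 p97 = true := by decide +kernel

def p63 : Pf :=
  .step []
    [(1, [⟨4, 0, 0, 0, 8⟩]),
    (2, [⟨7, 0, 0, 0, 14⟩]),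
    (76, [⟨4, 0, 0, 0, 9⟩]),
    (77, [⟨7, 0, 0, 0, 13⟩])]
    [1, 2]
    [(77, (.cap 14))]
    []
    [(1, (.cap 12)),
    (2, (.swap (.cap 5)))]
    []
    []
    (.cap 13)

theorem k63 : chkC env c63 p63 = true := by decide +kernel

def p95 : Pf :=
  .step []
    [(125, [⟨1, 0, 0, 0, 1⟩]),
    (129, [⟨4, 0, 0, 0, 5⟩]),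
    (193, [⟨1, 0, 0, 0, 2⟩]),
    (194, [⟨4, 0, 0, 0, 4⟩])]
    [125, 129]
    [(194, (.cap 6))]
    []
    [(125, (.cap 4)),
    (129, (.s1 ⟨4, 0, 0, 0, 4⟩ (.del 94 ⟨0, 0, 0, 0, 0⟩ ⟨0, 0, 0, 0, 0⟩ ⟨0, 7, 6, true⟩ ⟨0, 4, 6, false⟩) (.cap 7)))]
    []
    []
    (.cap 5)

theorem k95 : chkC env c95 p95 = true := by decide +kernel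

def p119 : Pf :=
  .one [(1, (.go 1 0 (.cap 8)))]
    [(0, (.go 1 0 (.del 118 ⟨0, 0, 0, 0, 0⟩ ⟨0, 0, 0, 0, 0⟩ ⟨0, 9, 0, false⟩ ⟨0, 8, 0, false⟩))),
    (8, (.cap 7)),
    (14, (.go 1 0 (.del 114 ⟨0, 0, 0, 0, 0⟩ ⟨0, 0, 0, 0, 0⟩ ⟨8, 1, 3, true⟩ ⟨1, 3, 16, true⟩))),
    (17, (.swap (.del 117 ⟨0, 0, 0, 0, 0⟩ ⟨0, 0, 0, 0, 0⟩ ⟨0, 8, 0, false⟩ ⟨0, 9, 0, false⟩)))]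

theorem k119 : chkC env c119 p119 = true := by decide +kernel

end Pool.Agent.Lib.MP_1fc36f_co.H61
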