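import Pool.Agent.Lib.MP_1fc36f_co.H61Env

/-! Checked proofs of the claims. -/

namespace Pool.Agent.Lib.MP_1fc36f_co.H61

open Pool.Agent.Lib.MP_1fc36f_co.H45

def p114 : Pf :=
  .step []
    [(1, [⟨3, 0, 0, 0, 5⟩]),
    (2, [⟨6, 0, 0, 0, 11⟩]),
    (3, [⟨6, 0, 0, 0, 12⟩]),
    (4, [⟨0, 0, 0, 0, 0⟩]),
    (5, [⟨3, 0, 0, 0, 7⟩]),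
    (7, [⟨6, 0, 0, 0, 12⟩]),
    (8, [⟨4, 0, 0, 0, 5⟩]),
    (9, [⟨5, 0, 0, 0, 6⟩]),
    (12, [⟨6, 0, 0, 0, 12⟩]),
    (13, [⟨6, 0, 0, 0, 12⟩]),
    (14, [⟨6, 0, 0, 0, 12⟩]),
    (15, [⟨6, 0, 0, 0, 12⟩]),
    (16, [⟨6, 0, 0, 0, 12⟩]),
    (18, [⟨6, 0, 0, 0, 12⟩]),
    (36, [⟨6, 0, 0, 0, 12⟩]),
    (37, [⟨6, 0, 0, 0, 12⟩]),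
    (38, [⟨6, 0, 0, 0, 12⟩]),
    (39, [⟨6, 0, 0, 0, 12⟩]),
    (40, [⟨6, 0, 0, 0, 12⟩]),
    (41, [⟨6, 0, 0, 0, 12⟩]),
    (42, [⟨6, 0, 0, 0, 12⟩]),
    (43, [⟨6, 0, 0, 0, 12⟩]),
    (44, [⟨6, 0, 0, 0, 12⟩]),
    (45, [⟨6, 0, 0, 0, 12⟩]),
    (46, [⟨6, 0, 0, 0, 12⟩]),
    (47, [⟨6, 0, 0, 0, 12⟩]),
    (48, [⟨6, 0, 0, 0, 12⟩]),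
    (49, [⟨6, 0, 0, 0, 12⟩]),
    (50, [⟨6, 0, 0, 0, 12⟩]),
    (51, [⟨6, 0, 0, 0, 12⟩]),
    (70, [⟨6, 0, 0, 0, 10⟩]),
    (71, [⟨3, 0, 0, 0, 8⟩]),
    (74, [⟨6, 0, 0, 0, 12⟩]),
    (75, [⟨6, 0, 0, 0, 12⟩]),
    (76, [⟨3, 0, 0, 0, 6⟩]),
    (77, [⟨6, 0, 0, 0, 10⟩]),
    (78, [⟨3, 0, 0, 0, 6⟩]),
    (79, [⟨4, 0, 0, 0, 4⟩]),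
    (80, [⟨4, 0, 0, 0, 6⟩]),
    (81, [⟨6, 0, 0, 0, 12⟩]),
    (82, [⟨4, 0, 0, 0, 6⟩]),
    (83, [⟨5, 0, 0, 0, 5⟩]),
    (90, [⟨6, 0, 0, 0, 12⟩]),
    (91, [⟨6, 0, 0, 0, 12⟩]),
    (92, [⟨6, 0, 0, 0, 12⟩]),
    (93, [⟨6, 0, 0, 0, 12⟩]),
    (94, [⟨6, 0, 0, 0, 12⟩]),
    (95, [⟨6, 0, 0, 0, 12⟩]),
    (96, [⟨6, 0, 0, 0, 12⟩]),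
    (97, [⟨6, 0, 0, 0, 12⟩]),
    (98, [⟨6, 0, 0, 0, 12⟩]),
    (99, [⟨6, 0, 0, 0, 12⟩]),
    (100, [⟨6, 0, 0, 0, 12⟩]),
    (103, [⟨6, 0, 0, 0, 12⟩]),
    (104, [⟨6, 0, 0, 0, 12⟩]),
    (105, [⟨6, 0, 0, 0, 12⟩]),
    (106, [⟨6, 0, 0, 0, 12⟩]),
    (107, [⟨0, 0, 0, 0, 1⟩]),
    (108, [⟨3, 0, 0, 0, 6⟩]),
    (109, [⟨3, 0, 0, 0, 8⟩]),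
    (110, [⟨6, 0, 0, 0, 12⟩]),
    (113, [⟨6, 0, 0, 0, 12⟩]),
    (114, [⟨6, 0, 0, 0, 12⟩]),
    (115, [⟨6, 0, 0, 0, 12⟩]),
    (116, [⟨6, 0, 0, 0, 12⟩]),
    (117, [⟨6, 0, 0, 0, 12⟩]),
    (118, [⟨3, 0, 0, 0, 8⟩]),
    (123, [⟨6, 0, 0, 0, 12⟩]),
    (124, [⟨6, 0, 0, 0, 12⟩]),
    (125, [⟨6, 0, 0, 0, 12⟩]),
    (129, [⟨6, 0, 0, 0, 12⟩]),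
    (131, [⟨6, 0, 0, 0, 12⟩])]
    [1, 4, 7, 9, 18, 125, 129, 131]
    [(2, (.cap 7)),
    (3, (.cap 8)),
    (5, (.swap (.del 89 ⟨0, 0, 0, 0, 0⟩ ⟨0, 0, 0, 0, 0⟩ ⟨0, 21, 0, true⟩ ⟨0, 8, 0, false⟩))),
    (8, (.swap (.del 100 ⟨0, 0, 0, 0, 0⟩ ⟨0, 0, 0, 0, 0⟩ ⟨0, 21, 0, false⟩ ⟨0, 8, 0, false⟩))),
    (12, (.swap (.del 111 ⟨0, 0, 0, 0, 0⟩ ⟨0, 0, 0, 0, 0⟩ ⟨0, 21, 0, true⟩ ⟨0, 8, 0, false⟩))),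
    (70, (.swap (.del 89 ⟨0, 0, 0, 0, 0⟩ ⟨0, 0, 0, 0, 0⟩ ⟨0, 21, 0, true⟩ ⟨0, 8, 0, false⟩))),
    (71, (.swap (.del 89 ⟨0, 0, 0, 0, 0⟩ ⟨0, 0, 0, 0, 0⟩ ⟨0, 21, 0, true⟩ ⟨0, 8, 0, false⟩))),
    (74, (.del 113 ⟨0, 0, 0, 0, 0⟩ ⟨0, 0, 0, 0, 0⟩ ⟨5, 3, 0, false⟩ ⟨14, 4, 0, false⟩)),
    (75, (.del 113 ⟨0, 0, 0, 0, 0⟩ ⟨0, 0, 0, 0, 0⟩ ⟨5, 3, 0, false⟩ ⟨14, 4, 0, false⟩)),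
    (76, (.cap 5)),
    (77, (.cap 6)),
    (78, (.swap (.del 100 ⟨0, 0, 0, 0, 0⟩ ⟨0, 0, 0, 0, 0⟩ ⟨0, 21, 0, false⟩ ⟨0, 8, 0, false⟩))),
    (79, (.swap (.del 100 ⟨0, 0, 0, 0, 0⟩ ⟨0, 0, 0, 0, 0⟩ ⟨0, 21, 0, false⟩ ⟨0, 8, 0, false⟩))),
    (80, (.swap (.del 100 ⟨0, 0, 0, 0, 0⟩ ⟨0, 0, 0, 0, 0⟩ ⟨0, 21, 0, false⟩ ⟨0, 8, 0, false⟩))),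
    (81, (.swap (.del 100 ⟨0, 0, 0, 0, 0⟩ ⟨0, 0, 0, 0, 0⟩ ⟨0, 21, 0, false⟩ ⟨0, 8, 0, false⟩))),
    (82, (.swap (.del 100 ⟨0, 0, 0, 0, 0⟩ ⟨0, 0, 0, 0, 0⟩ ⟨0, 21, 0, false⟩ ⟨0, 8, 0, false⟩))),
    (83, (.swap (.del 100 ⟨0, 0, 0, 0, 0⟩ ⟨0, 0, 0, 0, 0⟩ ⟨0, 21, 0, false⟩ ⟨0, 8, 0, false⟩))),
    (90, (.swap (.del 111 ⟨0, 0, 0, 0, 0⟩ ⟨0, 0, 0, 0, 0⟩ ⟨0, 21, 0, true⟩ ⟨0, 8, 0, false⟩))),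
    (91, (.swap (.del 111 ⟨0, 0, 0, 0, 0⟩ ⟨0, 0, 0, 0, 0⟩ ⟨0, 21, 0, true⟩ ⟨0, 8, 0, false⟩))),
    (92, (.swap (.del 111 ⟨0, 0, 0, 0, 0⟩ ⟨0, 0, 0, 0, 0⟩ ⟨0, 21, 0, true⟩ ⟨0, 8, 0, false⟩))),
    (93, (.swap (.del 111 ⟨0, 0, 0, 0, 0⟩ ⟨0, 0, 0, 0, 0⟩ ⟨0, 21, 0, true⟩ ⟨0, 8, 0, false⟩))),
    (94, (.swap (.del 110 ⟨0, 0, 0, 0, 0⟩ ⟨0, 0, 0, 0, 0⟩ ⟨0, 13, 0, false⟩ ⟨0, 8, 0, false⟩))),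
    (95, (.swap (.del 111 ⟨0, 0, 0, 0, 0⟩ ⟨0, 0, 0, 0, 0⟩ ⟨0, 21, 0, true⟩ ⟨0, 8, 0, false⟩))),
    (98, (.swap (.del 110 ⟨0, 0, 0, 0, 0⟩ ⟨0, 0, 0, 0, 0⟩ ⟨0, 13, 0, false⟩ ⟨0, 8, 0, false⟩))),
    (106, (.swap (.del 111 ⟨0, 0, 0, 0, 0⟩ ⟨0, 0, 0, 0, 0⟩ ⟨0, 21, 0, true⟩ ⟨0, 8, 0, false⟩))),
    (107, (.swap (.del 89 ⟨0, 0, 0, 0, 0⟩ ⟨0, 0, 0, 0, 0⟩ ⟨0, 21, 0, true⟩ ⟨0, 8, 0, false⟩))),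
    (108, (.swap (.del 89 ⟨0, 0, 0, 0, 0⟩ ⟨0, 0, 0, 0, 0⟩ ⟨0, 21, 0, true⟩ ⟨0, 8, 0, false⟩))),
    (109, (.swap (.del 89 ⟨0, 0, 0, 0, 0⟩ ⟨0, 0, 0, 0, 0⟩ ⟨0, 21, 0, true⟩ ⟨0, 8, 0, false⟩))),
    (110, (.s2 ⟨1, 0, 0, 0, 4⟩ (.swap (.del 88 ⟨0, 0, 0, 0, 0⟩ ⟨0, 0, 0, 0, 0⟩ ⟨0, 21, 0, false⟩ ⟨0, 8, 0, false⟩)) (.swap (.del 89 ⟨0, 0, 0, 0, 0⟩ ⟨0, 0, 0, 0, 0⟩ ⟨0, 21, 0, true⟩ ⟨0, 8, 0, false⟩)))),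
    (113, (.swap (.del 88 ⟨0, 0, 0, 0, 0⟩ ⟨0, 0, 0, 0, 0⟩ ⟨0, 21, 0, false⟩ ⟨0, 8, 0, false⟩))),
    (114, (.swap (.del 88 ⟨0, 0, 0, 0, 0⟩ ⟨0, 0, 0, 0, 0⟩ ⟨0, 21, 0, false⟩ ⟨0, 8, 0, false⟩))),
    (115, (.swap (.del 88 ⟨0, 0, 0, 0, 0⟩ ⟨0, 0, 0, 0, 0⟩ ⟨0, 21, 0, false⟩ ⟨0, 8, 0, false⟩))),
    (116, (.swap (.del 88 ⟨0, 0, 0, 0, 0⟩ ⟨0, 0, 0, 0, 0⟩ ⟨0, 21, 0, false⟩ ⟨0, 8, 0, false⟩))),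
    (117, (.swap (.del 88 ⟨0, 0, 0, 0, 0⟩ ⟨0, 0, 0, 0, 0⟩ ⟨0, 21, 0, false⟩ ⟨0, 8, 0, false⟩))),
    (118, (.swap (.del 89 ⟨0, 0, 0, 0, 0⟩ ⟨0, 0, 0, 0, 0⟩ ⟨0, 21, 0, true⟩ ⟨0, 8, 0, false⟩)))]
    [(6, (.swap (.del 89 ⟨0, 0, 0, 0, 0⟩ ⟨0, 0, 0, 0, 0⟩ ⟨0, 21, 0, true⟩ ⟨0, 8, 0, false⟩))),
    (12, (.del 113 ⟨0, 0, 0, 0, 0⟩ ⟨0, 0, 0, 0, 0⟩ ⟨5, 3, 0, false⟩ ⟨14, 4, 0, false⟩)),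
    (15, (.cap 5)),
    (18, (.swap (.del 100 ⟨0, 0, 0, 0, 0⟩ ⟨0, 0, 0, 0, 0⟩ ⟨0, 21, 0, false⟩ ⟨0, 8, 0, false⟩))),
    (21, (.swap (.del 100 ⟨0, 0, 0, 0, 0⟩ ⟨0, 0, 0, 0, 0⟩ ⟨0, 21, 0, false⟩ ⟨0, 8, 0, false⟩))),
    (24, (.swap (.del 100 ⟨0, 0, 0, 0, 0⟩ ⟨0, 0, 0, 0, 0⟩ ⟨0, 21, 0, false⟩ ⟨0, 8, 0, false⟩))),
    (36, (.swap (.del 111 ⟨0, 0, 0, 0, 0⟩ ⟨0, 0, 0, 0, 0⟩ ⟨0, 21, 0, true⟩ ⟨0, 8, 0, false⟩))),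
    (37, (.swap (.del 111 ⟨0, 0, 0, 0, 0⟩ ⟨0, 0, 0, 0, 0⟩ ⟨0, 21, 0, true⟩ ⟨0, 8, 0, false⟩))),
    (40, (.swap (.del 111 ⟨0, 0, 0, 0, 0⟩ ⟨0, 0, 0, 0, 0⟩ ⟨0, 21, 0, true⟩ ⟨0, 8, 0, false⟩))),
    (61, (.swap (.del 89 ⟨0, 0, 0, 0, 0⟩ ⟨0, 0, 0, 0, 0⟩ ⟨0, 21, 0, true⟩ ⟨0, 8, 0, false⟩))),
    (64, (.s2 ⟨1, 0, 0, 0, 3⟩ (.swap (.del 88 ⟨0, 0, 0, 0, 0⟩ ⟨0, 0, 0, 0, 0⟩ ⟨0, 21, 0, false⟩ ⟨0, 8, 0, false⟩)) (.swap (.del 89 ⟨0, 0, 0, 0, 0⟩ ⟨0, 0, 0, 0, 0⟩ ⟨0, 21, 0, true⟩ ⟨0, 8, 0, false⟩)))),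
    (74, (.s2 ⟨1, 0, 0, 0, 4⟩ (.swap (.del 88 ⟨0, 0, 0, 0, 0⟩ ⟨0, 0, 0, 0, 0⟩ ⟨0, 21, 0, false⟩ ⟨0, 8, 0, false⟩)) (.swap (.del 89 ⟨0, 0, 0, 0, 0⟩ ⟨0, 0, 0, 0, 0⟩ ⟨0, 21, 0, true⟩ ⟨0, 8, 0, false⟩))))]
    [(1, (.cap 4)),
    (4, (.cap 0)),
    (7, (.swap (.cap 16))),
    (9, (.swap (.cap 21))),
    (18, (.swap (.del 88 ⟨0, 0, 0, 0, 0⟩ ⟨0, 0, 0, 0, 0⟩ ⟨0, 21, 0, false⟩ ⟨0, 8, 0, false⟩))),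
    (125, (.swap (.cap 9))),
    (129, (.swap (.cap 6))),
    (131, (.swap (.cap 13)))]
    []
    []
    (.del 112 ⟨0, 0, 0, 0, 0⟩ ⟨0, 0, 0, 0, 0⟩ ⟨0, 8, 0, false⟩ ⟨0, 21, 0, false⟩)

theorem k114 : chkC env c114 p114 = true := by decide +kernel

def p31 : Pf :=
  .cover [(0, (.sx ⟨3, 0, 0, 0, 3⟩ (.del 30 ⟨0, 1, 0, 0, 0⟩ ⟨-1, 0, 0, 0, 0⟩ ⟨0, 12, 0, false⟩ ⟨0, 18, 0, false⟩) (.s2 ⟨4, 0, 0, 0, 4⟩ (.swap (.del 25 ⟨0, 0, 0, 0, 0⟩ ⟨0, 0, 0, 0, 0⟩ ⟨0, 3, 6, false⟩ ⟨3, 3, 0, false⟩)) (.swap (.del 11 ⟨0, 0, 0, 0, 0⟩ ⟨0, 0, 0, 0, 0⟩ ⟨3, 3, 3, true⟩ ⟨3, 3, 0, false⟩))))),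
    (1, (.sx ⟨3, 0, 0, 0, 3⟩ (.del 30 ⟨0, 1, 0, 0, 0⟩ ⟨-1, 0, 0, 0, 0⟩ ⟨0, 12, 0, false⟩ ⟨0, 18, 0, false⟩) (.s2 ⟨4, 0, 0, 0, 4⟩ (.swap (.del 25 ⟨0, 0, 0, 0, 0⟩ ⟨0, 0, 0, 0, 0⟩ ⟨0, 3, 6, false⟩ ⟨3, 3, 0, false⟩)) (.swap (.del 11 ⟨0, 0, 0, 0, 0⟩ ⟨0, 0, 0, 0, 0⟩ ⟨3, 3, 3, true⟩ ⟨3, 3, 0, false⟩))))),
    (12, (.sx ⟨3, 0, 0, 0, 3⟩ (.del 30 ⟨0, 1, 0, 0, 0⟩ ⟨-1, 0, 0, 0, 0⟩ ⟨0, 12, 0, false⟩ ⟨0, 18, 0, false⟩) (.swap (.del 21 ⟨0, 0, 0, 0, 0⟩ ⟨0, 0, 0, 0, 0⟩ ⟨6, 9, 3, true⟩ ⟨3, 6, 0, false⟩)))),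
    (68, (.sx ⟨3, 0, 0, 0, 3⟩ (.del 30 ⟨0, 1, 0, 0, 0⟩ ⟨-1, 0, 0, 0, 0⟩ ⟨0, 12, 0, false⟩ ⟨0, 18, 0, false⟩) (.s2 ⟨4, 0, 0, 0, 4⟩ (.swap (.del 25 ⟨0, 0, 0, 0, 0⟩ ⟨0, 0, 0, 0, 0⟩ ⟨0, 3, 6, false⟩ ⟨3, 3, 0, false⟩)) (.swap (.del 11 ⟨0, 0, 0, 0, 0⟩ ⟨0, 0, 0, 0, 0⟩ ⟨3, 3, 3, true⟩ ⟨3, 3, 0, false⟩))))),
    (69, (.sx ⟨3, 0, 0, 0, 3⟩ (.del 30 ⟨0, 1, 0, 0, 0⟩ ⟨-1, 0, 0, 0, 0⟩ ⟨0, 12, 0, false⟩ ⟨0, 18, 0, false⟩) (.s2 ⟨4, 0, 0, 0, 4⟩ (.del 24 ⟨0, 0, 0, 0, 0⟩ ⟨0, 0, 0, 0, 0⟩ ⟨3, 3, 0, true⟩ ⟨0, 3, 3, true⟩) (.swap (.del 11 ⟨0, 0, 0, 0, 0⟩ ⟨0, 0, 0, 0, 0⟩ ⟨3, 3, 3, true⟩ ⟨3, 3, 0, false⟩))))),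
    (71, (.sx ⟨3, 0, 0, 0, 3⟩ (.del 30 ⟨0, 1, 0, 0, 0⟩ ⟨-1, 0, 0, 0, 0⟩ ⟨0, 12, 0, false⟩ ⟨0, 18, 0, false⟩) (.s2 ⟨7, 0, 0, 0, 10⟩ (.del 15 ⟨0, 1, 0, 0, -1⟩ ⟨0, 0, 0, 0, 0⟩ ⟨3, 6, 0, true⟩ ⟨3, 3, 3, true⟩) (.swap (.del 21 ⟨0, 0, 0, 0, 0⟩ ⟨0, 0, 0, 0, 0⟩ ⟨6, 9, 3, true⟩ ⟨3, 6, 0, false⟩))))),
    (72, (.sx ⟨3, 0, 0, 0, 3⟩ (.del 30 ⟨0, 1, 0, 0, 0⟩ ⟨-1, 0, 0, 0, 0⟩ ⟨0, 12, 0, false⟩ ⟨0, 18, 0, false⟩) (.s2 ⟨4, 0, 0, 0, 4⟩ (.swap (.del 25 ⟨0, 0, 0, 0, 0⟩ ⟨0, 0, 0, 0, 0⟩ ⟨0, 3, 6, false⟩ ⟨3, 3, 0, false⟩)) (.swap (.del 11 ⟨0, 0, 0, 0, 0⟩ ⟨0, 0, 0, 0, 0⟩ ⟨3, 3, 3, true⟩ ⟨3, 3, 0, false⟩))))),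
    (73, (.sx ⟨3, 0, 0, 0, 3⟩ (.del 30 ⟨0, 1, 0, 0, 0⟩ ⟨-1, 0, 0, 0, 0⟩ ⟨0, 12, 0, false⟩ ⟨0, 18, 0, false⟩) (.s2 ⟨4, 0, 0, 0, 4⟩ (.swap (.del 25 ⟨0, 0, 0, 0, 0⟩ ⟨0, 0, 0, 0, 0⟩ ⟨0, 3, 6, false⟩ ⟨3, 3, 0, false⟩)) (.swap (.del 11 ⟨0, 0, 0, 0, 0⟩ ⟨0, 0, 0, 0, 0⟩ ⟨3, 3, 3, true⟩ ⟨3, 3, 0, false⟩))))),
    (76, (.sx ⟨3, 0, 0, 0, 3⟩ (.del 30 ⟨0, 1, 0, 0, 0⟩ ⟨-1, 0, 0, 0, 0⟩ ⟨0, 12, 0, false⟩ ⟨0, 18, 0, false⟩) (.swap (.del 26 ⟨0, 0, 0, 0, 0⟩ ⟨0, 0, 0, 0, 0⟩ ⟨0, 6, 0, false⟩ ⟨3, 6, 0, false⟩)))),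
    (91, (.sx ⟨3, 0, 0, 0, 3⟩ (.del 30 ⟨0, 1, 0, 0, 0⟩ ⟨-1, 0, 0, 0, 0⟩ ⟨0, 12, 0, false⟩ ⟨0, 18, 0, false⟩) (.swap (.del 21 ⟨0, 0, 0, 0, 0⟩ ⟨0, 0, 0, 0, 0⟩ ⟨6, 9, 3, true⟩ ⟨3, 6, 0, false⟩)))),
    (92, (.sx ⟨3, 0, 0, 0, 3⟩ (.del 30 ⟨0, 1, 0, 0, 0⟩ ⟨-1, 0, 0, 0, 0⟩ ⟨0, 12, 0, false⟩ ⟨0, 18, 0, false⟩) (.swap (.del 21 ⟨0, 0, 0, 0, 0⟩ ⟨0, 0, 0, 0, 0⟩ ⟨6, 9, 3, true⟩ ⟨3, 6, 0, false⟩)))),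
    (93, (.sx ⟨3, 0, 0, 0, 3⟩ (.del 30 ⟨0, 1, 0, 0, 0⟩ ⟨-1, 0, 0, 0, 0⟩ ⟨0, 12, 0, false⟩ ⟨0, 18, 0, false⟩) (.swap (.del 21 ⟨0, 0, 0, 0, 0⟩ ⟨0, 0, 0, 0, 0⟩ ⟨6, 9, 3, true⟩ ⟨3, 6, 0, false⟩)))),
    (94, (.sx ⟨3, 0, 0, 0, 3⟩ (.del 30 ⟨0, 1, 0, 0, 0⟩ ⟨-1, 0, 0, 0, 0⟩ ⟨0, 12, 0, false⟩ ⟨0, 18, 0, false⟩) (.s2 ⟨13, 0, 0, 0, 16⟩ (.rot (.swap (.del 25 ⟨0, 0, 0, 0, 0⟩ ⟨0, 0, 0, 0, 0⟩ ⟨6, 9, 0, false⟩ ⟨9, 3, 0, false⟩))) (.rot (.swap (.del 11 ⟨0, 0, 0, 0, 0⟩ ⟨0, 0, 0, 0, 0⟩ ⟨15, 3, 3, true⟩ ⟨9, 3, 0, false⟩))))))]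
    [(3, (.sx ⟨3, 0, 0, 0, 3⟩ (.del 30 ⟨0, 1, 0, 0, 0⟩ ⟨-1, 0, 0, 0, 0⟩ ⟨0, 12, 0, false⟩ ⟨0, 18, 0, false⟩) (.s2 ⟨4, 0, 0, 0, 4⟩ (.swap (.del 25 ⟨0, 0, 0, 0, 0⟩ ⟨0, 0, 0, 0, 0⟩ ⟨0, 3, 6, false⟩ ⟨3, 3, 0, false⟩)) (.s2 ⟨7, 0, 0, 0, 10⟩ (.swap (.del 11 ⟨0, 0, 0, 0, 0⟩ ⟨0, 0, 0, 0, 0⟩ ⟨3, 3, 3, true⟩ ⟨3, 3, 0, false⟩)) (.sj ⟨2, 0, 0, 0, 7⟩ .empty .empty))))),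
    (6, (.sx ⟨3, 0, 0, 0, 3⟩ (.del 30 ⟨0, 1, 0, 0, 0⟩ ⟨-1, 0, 0, 0, 0⟩ ⟨0, 12, 0, false⟩ ⟨0, 18, 0, false⟩) (.s2 ⟨4, 0, 0, 0, 3⟩ (.sj ⟨2, 0, 0, 0, 6⟩ .empty .empty) (.s2 ⟨7, 0, 0, 0, 10⟩ (.swap (.del 20 ⟨0, 0, 0, 0, 0⟩ ⟨0, 0, 0, 0, 0⟩ ⟨3, 3, 0, false⟩ ⟨3, 6, 0, false⟩)) (.swap (.del 21 ⟨0, 0, 0, 0, 0⟩ ⟨0, 0, 0, 0, 0⟩ ⟨6, 9, 3, true⟩ ⟨3, 6, 0, false⟩)))))),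
    (9, (.sx ⟨3, 0, 0, 0, 3⟩ (.del 30 ⟨0, 1, 0, 0, 0⟩ ⟨-1, 0, 0, 0, 0⟩ ⟨0, 12, 0, false⟩ ⟨0, 18, 0, false⟩) (.s2 ⟨4, 0, 0, 0, 4⟩ (.swap (.del 25 ⟨0, 0, 0, 0, 0⟩ ⟨0, 0, 0, 0, 0⟩ ⟨0, 3, 6, false⟩ ⟨3, 3, 0, false⟩)) (.swap (.del 11 ⟨0, 0, 0, 0, 0⟩ ⟨0, 0, 0, 0, 0⟩ ⟨3, 3, 3, true⟩ ⟨3, 3, 0, false⟩))))),
    (15, (.sx ⟨3, 0, 0, 0, 3⟩ (.del 30 ⟨0, 1, 0, 0, 0⟩ ⟨-1, 0, 0, 0, 0⟩ ⟨0, 12, 0, false⟩ ⟨0, 18, 0, false⟩) (.sj ⟨2, 0, 0, 0, 4⟩ (.swap (.del 26 ⟨0, 0, 0, 0, 0⟩ ⟨0, 0, 0, 0, 0⟩ ⟨0, 6, 0, false⟩ ⟨3, 6, 0, false⟩)) (.s2 ⟨7, 0, 0, 0, 10⟩ (.swap (.del 20 ⟨0, 0, 0, 0, 0⟩ ⟨0, 0, 0, 0, 0⟩ ⟨3, 3, 0, false⟩ ⟨3, 6, 0, false⟩)) (.sj ⟨2, 0, 0, 0, 5⟩ .empty (.swap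 (.del 21 ⟨0, 0, 0, 0, 0⟩ ⟨0, 0, 0, 0, 0⟩ ⟨6, 9, 3, true⟩ ⟨3, 6, 0, false⟩))))))),
    (37, (.sx ⟨3, 0, 0, 0, 3⟩ (.del 30 ⟨0, 1, 0, 0, 0⟩ ⟨-1, 0, 0, 0, 0⟩ ⟨0, 12, 0, false⟩ ⟨0, 18, 0, false⟩) (.swap (.del 21 ⟨0, 0, 0, 0, 0⟩ ⟨0, 0, 0, 0, 0⟩ ⟨6, 9, 3, true⟩ ⟨3, 6, 0, false⟩)))),
    (40, (.sx ⟨3, 0, 0, 0, 3⟩ (.del 30 ⟨0, 1, 0, 0, 0⟩ ⟨-1, 0, 0, 0, 0⟩ ⟨0, 12, 0, false⟩ ⟨0, 18, 0, false⟩) (.s2 ⟨13, 0, 0, 0, 16⟩ (.rot (.swap (.del 25 ⟨0, 0, 0, 0, 0⟩ ⟨0, 0, 0, 0, 0⟩ ⟨6, 9, 0, false⟩ ⟨9, 3, 0, false⟩))) (.sj ⟨2, 0, 0, 0, 5⟩ .empty (.rot (.swap (.del 11 ⟨0, 0, 0, 0, 0⟩ ⟨0, 0, 0, 0, 0⟩ ⟨15, 3, 3, true⟩ ⟨9, 3, 0, false⟩)))))))]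
    (.sx ⟨3, 0, 0, 0, 3⟩ (.del 30 ⟨0, 1, 0, 0, 0⟩ ⟨-1, 0, 0, 0, 0⟩ ⟨0, 12, 0, false⟩ ⟨0, 18, 0, false⟩) (.s2 ⟨7, 0, 0, 0, 10⟩ (.swap (.del 20 ⟨0, 0, 0, 0, 0⟩ ⟨0, 0, 0, 0, 0⟩ ⟨3, 3, 0, false⟩ ⟨3, 6, 0, false⟩)) (.swap (.del 21 ⟨0, 0, 0, 0, 0⟩ ⟨0, 0, 0, 0, 0⟩ ⟨6, 9, 3, true⟩ ⟨3, 6, 0, false⟩))))

theorem k31 : chkC env c31 p31 = true := by decide +kernel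

def p116 : Pf :=
  .step [⟨7, 0, 0, 0, 14⟩]
    []
    [1, 4, 7, 9, 18, 125, 129, 131]
    [(8, (.del 114 ⟨0, 0, 0, 0, 0⟩ ⟨0, 0, 0, 0, 0⟩ ⟨11, 4, 0, true⟩ ⟨0, 21, 0, false⟩)),
    (76, (.del 114 ⟨0, 0, 0, 0, 0⟩ ⟨0, 0, 0, 0, 0⟩ ⟨11, 4, 0, true⟩ ⟨0, 21, 0, false⟩)),
    (77, (.del 114 ⟨0, 0, 0, 0, 0⟩ ⟨0, 0, 0, 0, 0⟩ ⟨11, 4, 0, true⟩ ⟨0, 21, 0, false⟩)),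
    (78, (.swap (.del 100 ⟨0, 0, 0, 0, 0⟩ ⟨0, 0, 0, 0, 0⟩ ⟨0, 21, 0, false⟩ ⟨11, 4, 0, true⟩))),
    (79, (.del 114 ⟨0, 0, 0, 0, 0⟩ ⟨0, 0, 0, 0, 0⟩ ⟨11, 4, 0, true⟩ ⟨0, 21, 0, false⟩)),
    (80, (.del 114 ⟨0, 0, 0, 0, 0⟩ ⟨0, 0, 0, 0, 0⟩ ⟨11, 4, 0, true⟩ ⟨0, 21, 0, false⟩)),
    (82, (.del 114 ⟨0, 0, 0, 0, 0⟩ ⟨0, 0, 0, 0, 0⟩ ⟨11, 4, 0, true⟩ ⟨0, 21, 0, false⟩)),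
    (83, (.del 114 ⟨0, 0, 0, 0, 0⟩ ⟨0, 0, 0, 0, 0⟩ ⟨11, 4, 0, true⟩ ⟨0, 21, 0, false⟩))]
    [(15, (.del 114 ⟨0, 0, 0, 0, 0⟩ ⟨0, 0, 0, 0, 0⟩ ⟨11, 4, 0, true⟩ ⟨0, 21, 0, false⟩)),
    (18, (.del 114 ⟨0, 0, 0, 0, 0⟩ ⟨0, 0, 0, 0, 0⟩ ⟨11, 4, 0, true⟩ ⟨0, 21, 0, false⟩)),
    (24, (.del 114 ⟨0, 0, 0, 0, 0⟩ ⟨0, 0, 0, 0, 0⟩ ⟨11, 4, 0, true⟩ ⟨0, 21, 0, false⟩))]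
    [(1, (.cap 11)),
    (4, (.cap 15)),
    (7, (.swap (.cap 16))),
    (9, (.swap (.cap 21))),
    (18, (.swap (.cap 0))),
    (125, (.swap (.cap 9))),
    (129, (.swap (.cap 6))),
    (131, (.swap (.cap 13)))]
    []
    []
    (.del 115 ⟨0, 0, 0, 0, 0⟩ ⟨0, 0, 0, 0, 0⟩ ⟨0, 21, 0, true⟩ ⟨0, 21, 0, false⟩)

theorem k116 : chkC env c116 p116 = true := by decide +kernel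

def p110 : Pf :=
  .step []
    [(3, [⟨9, 0, 0, 0, 13⟩]),
    (12, [⟨7, 0, 0, 0, 13⟩]),
    (13, [⟨7, 0, 0, 0, 12⟩]),
    (14, [⟨9, 0, 0, 0, 13⟩]),
    (15, [⟨9, 0, 0, 0, 13⟩]),
    (16, [⟨9, 0, 0, 0, 13⟩]),
    (36, [⟨9, 0, 0, 0, 13⟩]),
    (37, [⟨9, 0, 0, 0, 13⟩]),
    (38, [⟨9, 0, 0, 0, 13⟩]),
    (39, [⟨9, 0, 0, 0, 13⟩]),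
    (40, [⟨9, 0, 0, 0, 13⟩]),
    (41, [⟨9, 0, 0, 0, 13⟩]),
    (42, [⟨9, 0, 0, 0, 13⟩]),
    (43, [⟨9, 0, 0, 0, 13⟩]),
    (44, [⟨9, 0, 0, 0, 13⟩]),
    (45, [⟨9, 0, 0, 0, 13⟩]),
    (46, [⟨9, 0, 0, 0, 13⟩]),
    (47, [⟨9, 0, 0, 0, 13⟩]),
    (48, [⟨9, 0, 0, 0, 13⟩]),
    (49, [⟨9, 0, 0, 0, 13⟩]),
    (50, [⟨9, 0, 0, 0, 13⟩]),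
    (51, [⟨9, 0, 0, 0, 13⟩]),
    (90, [⟨9, 0, 0, 0, 13⟩]),
    (91, [⟨9, 0, 0, 0, 12⟩]),
    (92, [⟨7, 0, 0, 0, 14⟩]),
    (93, [⟨7, 0, 0, 0, 12⟩]),
    (94, [⟨4, 0, 0, 0, 9⟩]),
    (95, [⟨7, 0, 0, 0, 14⟩]),
    (96, [⟨7, 0, 0, 0, 13⟩]),
    (97, [⟨7, 0, 0, 0, 11⟩]),
    (98, [⟨4, 0, 0, 0, 9⟩]),
    (99, [⟨7, 0, 0, 0, 13⟩]),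
    (100, [⟨9, 0, 0, 0, 12⟩]),
    (105, [⟨9, 0, 0, 0, 12⟩]),
    (106, [⟨5, 0, 0, 0, 10⟩]),
    (123, [⟨9, 0, 0, 0, 13⟩]),
    (124, [⟨9, 0, 0, 0, 13⟩]),
    (125, [⟨4, 0, 0, 0, 8⟩]),
    (131, [⟨5, 0, 0, 0, 9⟩])]
    [3, 15, 125, 131]
    [(16, (.cap 16)),
    (90, (.del 106 ⟨0, 0, 0, 0, 0⟩ ⟨0, 0, 0, 0, 0⟩ ⟨9, 8, 0, true⟩ ⟨0, 16, 0, false⟩)),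
    (91, (.del 106 ⟨0, 0, 0, 0, 0⟩ ⟨0, 0, 0, 0, 0⟩ ⟨9, 8, 0, true⟩ ⟨0, 16, 0, false⟩)),
    (105, (.cap 15)),
    (106, (.cap 14))]
    [(36, (.del 106 ⟨0, 0, 0, 0, 0⟩ ⟨0, 0, 0, 0, 0⟩ ⟨9, 8, 0, true⟩ ⟨0, 16, 0, false⟩)),
    (58, (.cap 14))]
    [(3, (.swap (.cap 8))),
    (15, (.swap (.cap 14))),
    (125, (.cap 9)),
    (131, (.cap 13))]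
    []
    []
    (.swap (.del 109 ⟨0, 0, 0, 0, 0⟩ ⟨0, 0, 0, 0, 0⟩ ⟨0, 16, 0, false⟩ ⟨0, 17, 0, false⟩))

theorem k110 : chkC env c110 p110 = true := by decide +kernel

def p18 : Pf :=
  .step []
    [(1, [⟨1, 0, 0, 0, 0⟩]),
    (2, [⟨4, 0, 0, 0, 8⟩]),
    (3, [⟨4, 0, 0, 0, 9⟩]),
    (5, [⟨1, 0, 0, 0, 4⟩]),
    (7, [⟨3, 0, 0, 0, 9⟩]),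
    (8, [⟨2, 0, 0, 0, 0⟩]),
    (9, [⟨1, 0, 0, 0, -1⟩]),
    (70, [⟨4, 0, 0, 0, 7⟩]),
    (71, [⟨1, 0, 0, 0, 5⟩]),
    (74, [⟨4, 0, 0, 0, 8⟩]),
    (75, [⟨3, 0, 0, 0, 10⟩]),
    (76, [⟨1, 0, 0, 0, 3⟩]),
    (77, [⟨4, 0, 0, 0, 7⟩]),
    (78, [⟨1, 0, 0, 0, 1⟩]),
    (79, [⟨2, 0, 0, 0, -1⟩]),
    (80, [⟨2, 0, 0, 0, 1⟩]),
    (81, [⟨4, 0, 0, 0, 7⟩]),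
    (82, [⟨2, 0, 0, 0, -1⟩]),
    (83, [⟨1, 0, 0, 0, 0⟩]),
    (90, [⟨4, 0, 0, 0, 8⟩]),
    (91, [⟨3, 0, 0, 0, 8⟩])]
    [1, 5, 7, 9, 91]
    [(2, (.swap (.del 15 ⟨3, 0, 0, 0, 4⟩ ⟨0, 0, 0, 0, 0⟩ ⟨0, 6, 0, true⟩ ⟨10, 3, 0, true⟩))),
    (3, (.cap 13)),
    (70, (.swap (.del 15 ⟨3, 0, 0, 0, 4⟩ ⟨0, 0, 0, 0, 0⟩ ⟨0, 6, 0, true⟩ ⟨10, 3, 0, true⟩))),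
    (74, (.cap 12)),
    (75, (.cap 11)),
    (77, (.swap (.del 15 ⟨3, 0, 0, 0, 4⟩ ⟨0, 0, 0, 0, 0⟩ ⟨0, 6, 0, true⟩ ⟨10, 3, 0, true⟩))),
    (78, (.del 9 ⟨0, 0, 0, 0, 0⟩ ⟨0, 0, 0, 0, 0⟩ ⟨0, 13, 0, true⟩ ⟨0, 3, 0, false⟩)),
    (82, (.swap (.del 17 ⟨3, 0, 0, 0, 4⟩ ⟨0, 0, 0, 0, 0⟩ ⟨0, 6, 0, true⟩ ⟨4, 9, 0, true⟩))),
    (83, (.del 9 ⟨0, 0, 0, 0, 0⟩ ⟨0, 0, 0, 0, 0⟩ ⟨0, 13, 0, true⟩ ⟨0, 3, 0, false⟩)),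
    (90, (.swap (.del 2 ⟨0, 0, 0, 0, 0⟩ ⟨0, 0, 0, 0, 0⟩ ⟨0, 9, 0, false⟩ ⟨10, 3, 0, true⟩)))]
    [(12, (.cap 11)),
    (15, (.swap (.del 15 ⟨3, 0, 0, 0, 4⟩ ⟨0, 0, 0, 0, 0⟩ ⟨0, 6, 0, true⟩ ⟨10, 3, 0, true⟩))),
    (18, (.s2 ⟨3, 0, 0, 0, 7⟩ (.del 9 ⟨0, 0, 0, 0, 0⟩ ⟨0, 0, 0, 0, 0⟩ ⟨0, 13, 0, true⟩ ⟨0, 3, 0, false⟩) (.s1 ⟨1, 0, 0, 0, 2⟩ (.sj ⟨0, 0, 0, 0, 3⟩ .empty .empty) (.swap (.del 16 ⟨3, 0, 0, 0, 4⟩ ⟨0, 0, 0, 0, 0⟩ ⟨0, 6, 0, true⟩ ⟨7, 6, 0, true⟩))))),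
    (24, (.swap (.del 17 ⟨3, 0, 0, 0, 4⟩ ⟨0, 0, 0, 0, 0⟩ ⟨0, 6, 0, true⟩ ⟨4, 9, 0, true⟩))),
    (36, (.swap (.del 2 ⟨0, 0, 0, 0, 0⟩ ⟨0, 0, 0, 0, 0⟩ ⟨0, 9, 0, false⟩ ⟨10, 3, 0, true⟩)))]
    [(1, (.del 9 ⟨0, 0, 0, 0, 0⟩ ⟨0, 0, 0, 0, 0⟩ ⟨0, 13, 0, true⟩ ⟨0, 3, 0, false⟩)),
    (5, (.swap (.cap 3))),
    (7, (.cap 10)),
    (9, (.cap 5)),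
    (91, (.swap (.del 2 ⟨0, 0, 0, 0, 0⟩ ⟨0, 0, 0, 0, 0⟩ ⟨0, 9, 0, false⟩ ⟨10, 3, 0, true⟩)))]
    []
    [(15, (.swap (.del 15 ⟨3, 0, 0, 0, 4⟩ ⟨0, 0, 0, 0, 0⟩ ⟨0, 6, 0, true⟩ ⟨10, 3, 0, true⟩)))]
    (.swap (.del 16 ⟨3, 0, 0, 0, 4⟩ ⟨0, 0, 0, 0, 0⟩ ⟨0, 6, 0, true⟩ ⟨7, 6, 0, true⟩))

theorem k18 : chkC env c18 p18 = true := by decide +kernel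

def p84 : Pf :=
  .step []
    [(4, [⟨6, 0, 0, 0, 12⟩]),
    (5, [⟨14, 0, 0, 0, 22⟩]),
    (17, [⟨14, 0, 0, 0, 22⟩]),
    (18, [⟨14, 0, 0, 0, 22⟩]),
    (19, [⟨14, 0, 0, 0, 22⟩]),
    (52, [⟨14, 0, 0, 0, 22⟩]),
    (53, [⟨14, 0, 0, 0, 22⟩]),
    (54, [⟨14, 0, 0, 0, 22⟩]),
    (55, [⟨14, 0, 0, 0, 22⟩]),
    (56, [⟨14, 0, 0, 0, 22⟩]),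
    (57, [⟨14, 0, 0, 0, 22⟩]),
    (58, [⟨14, 0, 0, 0, 22⟩]),
    (59, [⟨14, 0, 0, 0, 22⟩]),
    (60, [⟨14, 0, 0, 0, 22⟩]),
    (61, [⟨14, 0, 0, 0, 22⟩]),
    (62, [⟨14, 0, 0, 0, 22⟩]),
    (63, [⟨14, 0, 0, 0, 22⟩]),
    (64, [⟨14, 0, 0, 0, 22⟩]),
    (65, [⟨14, 0, 0, 0, 22⟩]),
    (66, [⟨14, 0, 0, 0, 22⟩]),
    (67, [⟨14, 0, 0, 0, 22⟩]),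
    (111, [⟨14, 0, 0, 0, 21⟩]),
    (112, [⟨6, 0, 0, 0, 13⟩]),
    (113, [⟨14, 0, 0, 0, 22⟩]),
    (114, [⟨14, 0, 0, 0, 22⟩]),
    (115, [⟨14, 0, 0, 0, 22⟩]),
    (116, [⟨14, 0, 0, 0, 22⟩]),
    (117, [⟨14, 0, 0, 0, 22⟩]),
    (118, [⟨14, 0, 0, 0, 22⟩]),
    (119, [⟨14, 0, 0, 0, 22⟩]),
    (120, [⟨14, 0, 0, 0, 22⟩]),
    (129, [⟨14, 0, 0, 0, 22⟩])]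
    [4, 5, 129]
    [(17, (.cap 11)),
    (111, (.cap 10)),
    (112, (.cap 9)),
    (113, (.swap (.del 82 ⟨0, 0, 0, 0, 0⟩ ⟨0, 0, 0, 0, 0⟩ ⟨0, 3, 0, false⟩ ⟨8, 3, 0, false⟩))),
    (114, (.swap (.del 82 ⟨0, 0, 0, 0, 0⟩ ⟨0, 0, 0, 0, 0⟩ ⟨0, 3, 0, false⟩ ⟨8, 3, 0, false⟩))),
    (115, (.del 80 ⟨0, 0, 0, 0, 0⟩ ⟨0, 0, 0, 0, 0⟩ ⟨9, 2, 0, false⟩ ⟨0, 2, 0, false⟩)),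
    (116, (.del 80 ⟨0, 0, 0, 0, 0⟩ ⟨0, 0, 0, 0, 0⟩ ⟨9, 2, 0, false⟩ ⟨0, 2, 0, false⟩)),
    (117, (.del 80 ⟨0, 0, 0, 0, 0⟩ ⟨0, 0, 0, 0, 0⟩ ⟨9, 2, 0, false⟩ ⟨0, 2, 0, false⟩)),
    (118, (.del 80 ⟨0, 0, 0, 0, 0⟩ ⟨0, 0, 0, 0, 0⟩ ⟨9, 2, 0, false⟩ ⟨0, 2, 0, false⟩))]
    [(67, (.cap 9)),
    (74, (.del 80 ⟨0, 0, 0, 0, 0⟩ ⟨0, 0, 0, 0, 0⟩ ⟨9, 2, 0, false⟩ ⟨0, 2, 0, false⟩))]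
    [(4, (.cap 8)),
    (5, (.swap (.cap 0))),
    (129, (.swap (.cap 3)))]
    []
    []
    (.swap (.del 79 ⟨0, 0, 0, 0, 0⟩ ⟨0, 0, 0, 0, 0⟩ ⟨0, 3, 0, false⟩ ⟨8, 3, 0, true⟩))

theorem k84 : chkC env c84 p84 = true := by decide +kernel

def p28 : Pf :=
  .step []
    [(0, [⟨6, 1, 0, 0, 7⟩]),
    (1, [⟨6, 1, 0, 0, 8⟩]),
    (2, [⟨9, 1, 0, 0, 14⟩]),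
    (3, [⟨9, 1, 0, 0, 15⟩]),
    (5, [⟨6, 1, 0, 0, 10⟩]),
    (68, [⟨6, 1, 0, 0, 6⟩]),
    (70, [⟨9, 1, 0, 0, 13⟩]),
    (71, [⟨6, 1, 0, 0, 11⟩]),
    (72, [⟨6, 1, 0, 0, 7⟩]),
    (76, [⟨6, 1, 0, 0, 9⟩]),
    (77, [⟨9, 1, 0, 0, 13⟩]),
    (78, [⟨6, 1, 0, 0, 7⟩]),
    (81, [⟨9, 1, 0, 0, 13⟩]),
    (219, [⟨6, 1, 0, 0, 6⟩]),
    (223, [⟨6, 1, 0, 0, 6⟩])]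
    [3, 5, 68, 72, 78, 81, 219, 223]
    [(2, (.s1 ⟨9, 0, 0, 0, 9⟩ (.del 29 ⟨0, 1, 0, 0, 1⟩ ⟨0, 0, 0, 0, 0⟩ ⟨0, 12, 0, false⟩ ⟨0, 6, 0, false⟩) (.del 15 ⟨3, 0, 0, 0, 4⟩ ⟨0, 0, 0, 0, 0⟩ ⟨3, 6, 0, true⟩ ⟨0, 6, 0, true⟩))),
    (70, (.s1 ⟨9, 0, 0, 0, 9⟩ (.del 29 ⟨0, 1, 0, 0, 1⟩ ⟨0, 0, 0, 0, 0⟩ ⟨0, 12, 0, false⟩ ⟨0, 6, 0, false⟩) (.del 15 ⟨3, 0, 0, 0, 4⟩ ⟨0, 0, 0, 0, 0⟩ ⟨3, 6, 0, true⟩ ⟨0, 6, 0, true⟩))),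
    (71, (.del 15 ⟨3, 0, 0, 0, 4⟩ ⟨0, 0, 0, 0, 0⟩ ⟨3, 6, 0, true⟩ ⟨0, 6, 0, true⟩)),
    (77, (.s1 ⟨9, 0, 0, 0, 9⟩ (.del 29 ⟨0, 1, 0, 0, 1⟩ ⟨0, 0, 0, 0, 0⟩ ⟨0, 12, 0, false⟩ ⟨0, 6, 0, false⟩) (.del 15 ⟨3, 0, 0, 0, 4⟩ ⟨0, 0, 0, 0, 0⟩ ⟨3, 6, 0, true⟩ ⟨0, 6, 0, true⟩)))]
    []
    [(3, (.swap (.cap 6))),
    (5, (.cap 6)),
    (68, (.del 31 ⟨0, 1, 0, 0, 1⟩ ⟨0, 0, 0, 0, 0⟩ ⟨0, 12, 0, false⟩ ⟨0, 3, 3, false⟩)),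
    (72, (.del 31 ⟨0, 1, 0, 0, 1⟩ ⟨0, 0, 0, 0, 0⟩ ⟨0, 12, 0, false⟩ ⟨0, 3, 3, false⟩)),
    (78, (.del 45 ⟨0, 1, 0, 0, 1⟩ ⟨0, 0, 0, 0, 0⟩ ⟨0, 12, 0, false⟩ ⟨0, 3, 0, true⟩)),
    (81, (.s1 ⟨9, 0, 0, 0, 9⟩ (.del 33 ⟨0, 1, 0, 0, 1⟩ ⟨0, 0, 0, 0, 0⟩ ⟨0, 12, 0, false⟩ ⟨3, 3, 3, false⟩) (.del 16 ⟨3, 0, 0, 0, 4⟩ ⟨0, 0, 0, 0, 0⟩ ⟨3, 6, 0, true⟩ ⟨3, 3, 0, true⟩))),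
    (219, (.rot (.del 31 ⟨0, 1, 0, 0, 1⟩ ⟨0, 0, 0, 0, 0⟩ ⟨0, 6, 6, false⟩ ⟨0, 3, 15, false⟩))),
    (223, (.rot (.del 53 ⟨0, 1, 0, 0, 1⟩ ⟨0, 0, 0, 0, 0⟩ ⟨0, 6, 6, false⟩ ⟨0, 3, 9, false⟩)))]
    []
    []
    (.del 29 ⟨0, 1, 0, 0, 1⟩ ⟨0, 0, 0, 0, 0⟩ ⟨0, 12, 0, false⟩ ⟨0, 6, 0, false⟩)

theorem k28 : chkC env c28 p28 = true := by decide +kernel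

def p77 : Pf :=
  .step []
    [(2, [⟨4, 0, 0, 0, 11⟩]),
    (4, [⟨1, 0, 0, 0, 4⟩]),
    (5, [⟨4, 0, 0, 0, 11⟩]),
    (18, [⟨4, 0, 0, 0, 11⟩]),
    (70, [⟨4, 0, 0, 0, 11⟩]),
    (71, [⟨4, 0, 0, 0, 11⟩]),
    (107, [⟨1, 0, 0, 0, 5⟩]),
    (108, [⟨4, 0, 0, 0, 10⟩]),
    (109, [⟨4, 0, 0, 0, 11⟩]),
    (110, [⟨4, 0, 0, 0, 11⟩]),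
    (113, [⟨4, 0, 0, 0, 11⟩]),
    (114, [⟨4, 0, 0, 0, 11⟩]),
    (115, [⟨4, 0, 0, 0, 11⟩]),
    (116, [⟨4, 0, 0, 0, 11⟩]),
    (117, [⟨4, 0, 0, 0, 11⟩]),
    (118, [⟨4, 0, 0, 0, 11⟩]),
    (129, [⟨4, 0, 0, 0, 11⟩])]
    [2, 4, 18, 129]
    [(5, (.del 75 ⟨0, 0, 0, 0, 0⟩ ⟨0, 0, 0, 0, 0⟩ ⟨6, 3, 3, false⟩ ⟨0, 21, 0, false⟩)),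
    (70, (.swap (.del 69 ⟨1, 0, 0, 0, 0⟩ ⟨0, 0, 0, 0, 0⟩ ⟨13, 3, 0, false⟩ ⟨6, 3, 0, false⟩))),
    (71, (.swap (.del 69 ⟨1, 0, 0, 0, 0⟩ ⟨0, 0, 0, 0, 0⟩ ⟨13, 3, 0, false⟩ ⟨6, 3, 0, false⟩))),
    (107, (.del 75 ⟨0, 0, 0, 0, 0⟩ ⟨0, 0, 0, 0, 0⟩ ⟨6, 3, 3, false⟩ ⟨0, 21, 0, false⟩)),
    (108, (.del 75 ⟨0, 0, 0, 0, 0⟩ ⟨0, 0, 0, 0, 0⟩ ⟨6, 3, 3, false⟩ ⟨0, 21, 0, false⟩)),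
    (109, (.del 74 ⟨0, 0, 0, 0, 0⟩ ⟨0, 0, 0, 0, 0⟩ ⟨6, 3, 2, false⟩ ⟨0, 15, 0, false⟩)),
    (110, (.del 74 ⟨0, 0, 0, 0, 0⟩ ⟨0, 0, 0, 0, 0⟩ ⟨6, 3, 2, false⟩ ⟨0, 15, 0, false⟩))]
    [(6, (.swap (.del 69 ⟨1, 0, 0, 0, 0⟩ ⟨0, 0, 0, 0, 0⟩ ⟨13, 3, 0, false⟩ ⟨6, 3, 0, false⟩))),
    (61, (.del 75 ⟨0, 0, 0, 0, 0⟩ ⟨0, 0, 0, 0, 0⟩ ⟨6, 3, 3, false⟩ ⟨0, 21, 0, false⟩)),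
    (64, (.s1 ⟨1, 0, 0, 0, 3⟩ (.sj ⟨3, 0, 0, 0, 7⟩ .empty .empty) (.del 74 ⟨0, 0, 0, 0, 0⟩ ⟨0, 0, 0, 0, 0⟩ ⟨6, 3, 2, false⟩ ⟨0, 15, 0, false⟩))),
    (74, (.s1 ⟨1, 0, 0, 0, 3⟩ (.sj ⟨3, 0, 0, 0, 7⟩ .empty .empty) (.swap (.del 73 ⟨0, 0, 0, 0, 0⟩ ⟨0, 0, 0, 0, 0⟩ ⟨0, 15, 0, true⟩ ⟨6, 3, 2, false⟩))))]
    [(2, (.swap (.del 69 ⟨1, 0, 0, 0, 0⟩ ⟨0, 0, 0, 0, 0⟩ ⟨13, 3, 0, false⟩ ⟨6, 3, 0, false⟩))),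
    (4, (.cap 6)),
    (18, (.swap (.cap 0))),
    (129, (.swap (.cap 6)))]
    []
    []
    (.swap (.del 73 ⟨0, 0, 0, 0, 0⟩ ⟨0, 0, 0, 0, 0⟩ ⟨0, 15, 0, true⟩ ⟨6, 3, 2, false⟩))

theorem k77 : chkC env c77 p77 = true := by decide +kernel

def p34 : Pf :=
  .step []
    [(2, [⟨9, 1, 0, 0, 14⟩]),
    (3, [⟨9, 1, 0, 0, 15⟩]),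
    (5, [⟨6, 1, 0, 0, 10⟩]),
    (7, [⟨8, 1, 0, 0, 15⟩]),
    (12, [⟨12, 1, 0, 0, 15⟩]),
    (70, [⟨9, 1, 0, 0, 13⟩]),
    (71, [⟨6, 1, 0, 0, 11⟩]),
    (74, [⟨9, 1, 0, 0, 14⟩]),
    (75, [⟨8, 1, 0, 0, 16⟩]),
    (77, [⟨9, 1, 0, 0, 13⟩]),
    (81, [⟨9, 1, 0, 0, 13⟩]),
    (90, [⟨9, 1, 0, 0, 16⟩]),
    (91, [⟨10, 1, 0, 0, 16⟩]),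
    (92, [⟨12, 1, 0, 0, 14⟩])]
    [5, 7, 12, 77, 81]
    [(91, (.del 30 ⟨0, 1, 0, 0, 0⟩ ⟨-1, 0, 0, 0, 0⟩ ⟨0, 12, 0, false⟩ ⟨3, 9, 6, false⟩)),
    (92, (.del 30 ⟨0, 1, 0, 0, 0⟩ ⟨-1, 0, 0, 0, 0⟩ ⟨0, 12, 0, false⟩ ⟨3, 9, 6, false⟩))]
    [(37, (.del 30 ⟨0, 1, 0, 0, 0⟩ ⟨-1, 0, 0, 0, 0⟩ ⟨0, 12, 0, false⟩ ⟨3, 9, 6, false⟩))]
    [(5, (.cap 6)),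
    (7, (.swap (.cap 3))),
    (12, (.del 30 ⟨0, 1, 0, 0, 0⟩ ⟨-1, 0, 0, 0, 0⟩ ⟨0, 12, 0, false⟩ ⟨3, 9, 6, false⟩)),
    (77, (.s2 ⟨2, 0, 0, 0, 6⟩ (.del 41 ⟨0, 1, 0, 0, 1⟩ ⟨0, 0, 0, 0, 0⟩ ⟨0, 12, 0, false⟩ ⟨0, 3, 0, false⟩) (.del 30 ⟨0, 1, 0, 0, 0⟩ ⟨-1, 0, 0, 0, 0⟩ ⟨0, 12, 0, false⟩ ⟨3, 9, 6, false⟩))),
    (81, (.del 43 ⟨0, 1, 0, 0, 1⟩ ⟨0, 0, 0, 0, 0⟩ ⟨0, 12, 0, false⟩ ⟨0, 6, 9, false⟩))]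
    []
    []
    (.del 35 ⟨0, 1, 0, 0, 1⟩ ⟨0, 0, 0, 0, 0⟩ ⟨0, 12, 0, false⟩ ⟨0, 12, 0, false⟩)

theorem k34 : chkC env c34 p34 = true := by decide +kernel

def p89 : Pf :=
  .step [⟨10, 0, 0, 0, 19⟩]
    []
    [2, 4, 129]
    [(112, (.swap (.del 84 ⟨0, 0, 0, 0, 0⟩ ⟨0, 0, 0, 0, 0⟩ ⟨0, 8, 0, true⟩ ⟨15, 0, 3, false⟩))),
    (120, (.swap (.del 84 ⟨0, 0, 0, 0, 0⟩ ⟨0, 0, 0, 0, 0⟩ ⟨0, 8, 0, true⟩ ⟨15, 0, 3, false⟩)))]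
    []
    [(2, (.swap (.cap 7))),
    (4, (.swap (.cap 0))),
    (129, (.cap 15))]
    []
    []
    (.del 87 ⟨0, 0, 0, 0, 0⟩ ⟨0, 0, 0, 0, 0⟩ ⟨15, 0, 0, false⟩ ⟨0, 8, 0, false⟩)

theorem k89 : chkC env c89 p89 = true := by decide +kernel

def p12 : Pf :=
  .step []
    [(1, [⟨3, 0, 0, 0, 5⟩]),
    (2, [⟨6, 0, 0, 0, 11⟩]),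
    (3, [⟨6, 0, 0, 0, 12⟩]),
    (5, [⟨3, 0, 0, 0, 7⟩]),
    (70, [⟨6, 0, 0, 0, 10⟩]),
    (71, [⟨3, 0, 0, 0, 8⟩]),
    (76, [⟨3, 0, 0, 0, 6⟩]),
    (77, [⟨6, 0, 0, 0, 10⟩]),
    (81, [⟨6, 0, 0, 0, 10⟩])]
    [1, 3, 5, 81]
    [(2, (.sx ⟨0, 0, 0, 0, 1⟩ (.cap 6) (.del 12 ⟨0, 1, 0, 0, -1⟩ ⟨0, 0, 0, 0, 0⟩ ⟨0, 6, 0, false⟩ ⟨0, 6, 0, false⟩))),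
    (70, (.sx ⟨0, 0, 0, 0, 1⟩ (.cap 5) (.del 12 ⟨0, 1, 0, 0, -1⟩ ⟨0, 0, 0, 0, 0⟩ ⟨0, 6, 0, false⟩ ⟨0, 6, 0, false⟩))),
    (71, (.sx ⟨0, 0, 0, 0, 1⟩ (.cap 4) (.del 12 ⟨0, 1, 0, 0, -1⟩ ⟨0, 0, 0, 0, 0⟩ ⟨0, 6, 0, false⟩ ⟨0, 6, 0, false⟩)))]
    [(6, (.sx ⟨0, 0, 0, 0, 1⟩ (.cap 4) (.del 12 ⟨0, 1, 0, 0, -1⟩ ⟨0, 0, 0, 0, 0⟩ ⟨0, 6, 0, false⟩ ⟨0, 6, 0, false⟩)))]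
    [(1, (.swap (.del 11 ⟨0, 0, 0, 0, 0⟩ ⟨0, 0, 0, 0, 0⟩ ⟨0, 6, 0, false⟩ ⟨0, 6, 0, false⟩))),
    (3, (.swap (.cap 0))),
    (5, (.cap 3)),
    (81, (.sx ⟨0, 0, 0, 0, 1⟩ (.swap (.del 10 ⟨0, 0, 0, 0, 0⟩ ⟨0, 0, 0, 0, 0⟩ ⟨0, 3, 0, false⟩ ⟨0, 6, 0, false⟩)) (.del 13 ⟨0, 1, 0, 0, -1⟩ ⟨0, 0, 0, 0, 0⟩ ⟨0, 6, 0, false⟩ ⟨0, 3, 0, false⟩)))]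
    []
    []
    (.swap (.del 11 ⟨0, 0, 0, 0, 0⟩ ⟨0, 0, 0, 0, 0⟩ ⟨0, 6, 0, false⟩ ⟨0, 6, 0, false⟩))

theorem k12 : chkC env c12 p12 = true := by decide +kernel

def p1 : Pf :=
  .step []
    [(3, [⟨3, 0, 0, 0, 1⟩]),
    (12, [⟨6, 0, 0, 0, 1⟩]),
    (13, [⟨4, 0, 0, 0, 0⟩]),
    (90, [⟨3, 0, 0, 0, 2⟩]),
    (91, [⟨4, 0, 0, 0, 2⟩]),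
    (92, [⟨6, 0, 0, 0, 0⟩]),
    (93, [⟨6, 0, 0, 0, 0⟩]),
    (94, [⟨3, 0, 0, 0, -3⟩]),
    (95, [⟨6, 0, 0, 0, 0⟩]),
    (96, [⟨4, 0, 0, 0, 1⟩]),
    (125, [⟨3, 0, 0, 0, -4⟩])]
    [3, 13, 125]
    [(12, (.cap 12)),
    (90, (.cap 9)),
    (91, (.cap 10)),
    (92, (.cap 11)),
    (95, (.del 62 ⟨0, 0, 0, 0, 0⟩ ⟨0, 0, 0, 0, 0⟩ ⟨9, 3, 0, false⟩ ⟨10, 5, 0, false⟩)),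
    (96, (.del 62 ⟨0, 0, 0, 0, 0⟩ ⟨0, 0, 0, 0, 0⟩ ⟨9, 3, 0, false⟩ ⟨10, 5, 0, false⟩))]
    [(36, (.cap 9)),
    (37, (.cap 10)),
    (43, (.del 62 ⟨0, 0, 0, 0, 0⟩ ⟨0, 0, 0, 0, 0⟩ ⟨9, 3, 0, false⟩ ⟨10, 5, 0, false⟩))]
    [(3, (.cap 8)),
    (13, (.swap (.cap 12))),
    (125, (.swap (.cap 9)))]
    []
    []
    (.del 61 ⟨0, 0, 0, 0, 0⟩ ⟨0, 0, 0, 0, 0⟩ ⟨6, 6, 0, false⟩ ⟨5, 8, 0, false⟩)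

theorem k1 : chkC env c1 p1 = true := by decide +kernel

def p52 : Pf :=
  .step []
    [(13, [⟨12, 1, 0, 0, 16⟩]),
    (96, [⟨12, 1, 0, 0, 15⟩]),
    (97, [⟨12, 1, 0, 0, 17⟩]),
    (98, [⟨15, 1, 0, 0, 19⟩]),
    (125, [⟨15, 1, 0, 0, 20⟩])]
    [96, 125]
    []
    []
    [(96, (.del 57 ⟨0, 1, 0, 0, 1⟩ ⟨0, 0, 0, 0, 0⟩ ⟨0, 12, 0, false⟩ ⟨0, 9, 0, false⟩)),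
    (125, (.rot (.del 30 ⟨0, 1, 0, 0, 0⟩ ⟨-1, 0, 0, 0, 0⟩ ⟨6, 6, 0, false⟩ ⟨6, 6, 0, false⟩)))]
    [(48, (.s1 ⟨15, 0, 0, 0, 18⟩ (.s2 ⟨4, 0, 0, 0, -1⟩ (.go 0 1 (.del 59 ⟨0, 1, 0, 0, 1⟩ ⟨0, 0, 0, 0, 0⟩ ⟨0, 12, 0, false⟩ ⟨6, 3, 0, true⟩)) (.go 0 (-1) (.del 59 ⟨0, 1, 0, 0, 1⟩ ⟨0, 0, 0, 0, 0⟩ ⟨0, 12, 0, false⟩ ⟨6, 3, 0, true⟩))) (.s2 ⟨4, 0, 0, 0, -1⟩ (.swap (.go 1 0 (.del 3 ⟨0, 0, 0, 0, 0⟩ ⟨0, 0, 0, 0, 0⟩ ⟨6, 3, 0, true⟩ ⟨3, 6, 0, false⟩))) (.swap (.go (-1) 0 (.del 3 ⟨0, 0, 0, 0, 0⟩ ⟨0, 0, 0, 0, 0⟩ ⟨6, 3, 0, true⟩ ⟨3, 6, 0, false⟩))))))]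
    []
    (.del 53 ⟨0, 1, 0, 0, 1⟩ ⟨0, 0, 0, 0, 0⟩ ⟨0, 12, 0, false⟩ ⟨0, 12, 0, false⟩)

theorem k52 : chkC env c52 p52 = true := by decide +kernel

def p120 : Pf :=
  .step []
    [(1, [⟨2, 0, 0, 0, 1⟩]),
    (2, [⟨-1, 0, 0, 0, -7⟩]),
    (8, [⟨1, 0, 0, 0, 1⟩]),
    (9, [⟨0, 0, 0, 0, 0⟩]),
    (78, [⟨2, 0, 0, 0, 0⟩]),
    (79, [⟨1, 0, 0, 0, 2⟩]),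
    (80, [⟨1, 0, 0, 0, 0⟩]),
    (81, [⟨-1, 0, 0, 0, -6⟩]),
    (82, [⟨1, 0, 0, 0, 0⟩]),
    (83, [⟨0, 0, 0, 0, 1⟩])]
    [1, 2, 9]
    []
    []
    [(1, (.s1 ⟨2, 0, 0, 0, 0⟩ (.del 119 ⟨0, 0, 0, 0, 0⟩ ⟨0, 0, 0, 0, 0⟩ ⟨0, 9, 0, false⟩ ⟨0, 8, 0, false⟩) (.cap 8))),
    (2, (.swap (.cap 8))),
    (9, (.cap 0))]
    []
    []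
    (.swap (.del 117 ⟨0, 0, 0, 0, 0⟩ ⟨0, 0, 0, 0, 0⟩ ⟨0, 8, 0, false⟩ ⟨0, 9, 0, false⟩))

theorem k120 : chkC env c120 p120 = true := by decide +kernel

def p32 : Pf :=
  .step []
    [(2, [⟨9, 1, 0, 0, 14⟩]),
    (8, [⟨7, 1, 0, 0, 6⟩]),
    (80, [⟨7, 1, 0, 0, 7⟩]),
    (81, [⟨9, 1, 0, 0, 13⟩])]
    [2, 8]
    [(81, (.s1 ⟨9, 0, 0, 0, 9⟩ (.del 33 ⟨0, 1, 0, 0, 1⟩ ⟨0, 0, 0, 0, 0⟩ ⟨0, 12, 0, false⟩ ⟨0, 6, 0, false⟩) (.del 16 ⟨3, 0, 0, 0, 4⟩ ⟨0, 0, 0, 0, 0⟩ ⟨3, 6, 0, true⟩ ⟨0, 6, 0, true⟩)))]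
    []
    [(2, (.s1 ⟨9, 0, 0, 0, 9⟩ (.del 28 ⟨0, 1, 0, 0, 0⟩ ⟨0, 0, 0, 0, 0⟩ ⟨0, 12, 0, false⟩ ⟨3, 3, 3, false⟩) (.del 15 ⟨3, 0, 0, 0, 4⟩ ⟨0, 0, 0, 0, 0⟩ ⟨3, 6, 0, true⟩ ⟨3, 3, 0, true⟩))),
    (8, (.del 43 ⟨0, 1, 0, 0, 1⟩ ⟨0, 0, 0, 0, 0⟩ ⟨0, 12, 0, false⟩ ⟨0, 3, 9, false⟩))]
    []
    []
    (.del 33 ⟨0, 1, 0, 0, 1⟩ ⟨0, 0, 0, 0, 0⟩ ⟨0, 12, 0, false⟩ ⟨0, 6, 0, false⟩)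

theorem k32 : chkC env c32 p32 = true := by decide +kernel

def p46 : Pf :=
  .step []
    [(2, [⟨9, 1, 0, 0, 14⟩]),
    (8, [⟨7, 1, 0, 0, 6⟩]),
    (80, [⟨7, 1, 0, 0, 7⟩]),
    (81, [⟨9, 1, 0, 0, 13⟩])]
    [2, 8]
    [(80, (.del 42 ⟨0, 1, 0, 0, 0⟩ ⟨0, 0, 0, 0, 0⟩ ⟨0, 12, 0, false⟩ ⟨0, 9, 3, false⟩))]
    []
    [(2, (.s2 ⟨3, 0, 0, 0, 8⟩ (.del 34 ⟨0, 1, 0, 0, 0⟩ ⟨0, 0, 0, 0, 0⟩ ⟨0, 12, 0, false⟩ ⟨6, 3, 0, false⟩) (.del 30 ⟨0, 1, 0, 0, 0⟩ ⟨-1, 0, 0, 0, 0⟩ ⟨0, 12, 0, false⟩ ⟨9, 3, 3, true⟩))),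
    (8, (.del 42 ⟨0, 1, 0, 0, 0⟩ ⟨0, 0, 0, 0, 0⟩ ⟨0, 12, 0, false⟩ ⟨0, 9, 3, false⟩))]
    []
    []
    (.del 47 ⟨0, 1, 0, 0, 1⟩ ⟨0, 0, 0, 0, 0⟩ ⟨0, 12, 0, false⟩ ⟨0, 12, 0, false⟩)

theorem k46 : chkC env c46 p46 = true := by decide +kernel

def p44 : Pf :=
  .step []
    [(1, [⟨6, 1, 0, 0, 8⟩]),
    (8, [⟨7, 1, 0, 0, 6⟩]),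
    (78, [⟨6, 1, 0, 0, 7⟩]),
    (79, [⟨7, 1, 0, 0, 5⟩])]
    [1, 8]
    []
    []
    [(1, (.del 36 ⟨0, 1, 0, 0, 0⟩ ⟨0, 0, 0, 0, 0⟩ ⟨0, 12, 0, false⟩ ⟨0, 7, 0, true⟩)),
    (8, (.del 42 ⟨0, 1, 0, 0, 0⟩ ⟨0, 0, 0, 0, 0⟩ ⟨0, 12, 0, false⟩ ⟨3, 9, 3, false⟩))]
    []
    []
    (.del 45 ⟨0, 1, 0, 0, 1⟩ ⟨0, 0, 0, 0, 0⟩ ⟨0, 12, 0, false⟩ ⟨0, 12, 0, false⟩)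

theorem k44 : chkC env c44 p44 = true := by decide +kernel

def p22 : Pf :=
  .step [⟨1, 0, 0, 0, 0⟩]
    []
    [1]
    []
    [(15, (.del 20 ⟨0, 0, 0, 0, 0⟩ ⟨0, 0, 0, 0, 0⟩ ⟨4, 3, 0, false⟩ ⟨0, 9, 0, false⟩))]
    [(1, (.s1 ⟨1, 0, 0, 0, 0⟩ (.del 10 ⟨0, 0, 0, 0, 0⟩ ⟨0, 0, 0, 0, 0⟩ ⟨0, 4, 8, false⟩ ⟨0, 3, 0, false⟩) (.del 11 ⟨0, 0, 0, 0, 0⟩ ⟨0, 0, 0, 0, 0⟩ ⟨4, 3, 3, true⟩ ⟨0, 3, 0, false⟩)))]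
    []
    [(15, (.del 20 ⟨0, 0, 0, 0, 0⟩ ⟨0, 0, 0, 0, 0⟩ ⟨4, 3, 0, false⟩ ⟨0, 9, 0, false⟩))]
    (.del 11 ⟨0, 0, 0, 0, 0⟩ ⟨0, 0, 0, 0, 0⟩ ⟨4, 3, 3, true⟩ ⟨0, 3, 0, false⟩)

theorem k22 : chkC env c22 p22 = true := by decide +kernel

def p74 : Pf :=
  .step []
    [(5, [⟨11, 0, 0, 0, 16⟩]),
    (109, [⟨11, 0, 0, 0, 17⟩]),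
    (110, [⟨17, 0, 0, 0, 21⟩]),
    (129, [⟨17, 0, 0, 0, 22⟩])]
    [5, 129]
    [(110, (.cap 7))]
    []
    [(5, (.cap 5)),
    (129, (.swap (.cap 6)))]
    []
    []
    (.cap 6)

theorem k74 : chkC env c74 p74 = true := by decide +kernel

def p98 : Pf :=
  .step []
    [(1, [⟨3, 0, 0, 0, 5⟩]),
    (8, [⟨4, 0, 0, 0, 5⟩]),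
    (78, [⟨3, 0, 0, 0, 6⟩]),
    (79, [⟨4, 0, 0, 0, 4⟩])]
    [1, 8]
    [(79, (.cap 4))]
    []
    [(1, (.cap 2)),
    (8, (.swap (.cap 2)))]
    []
    []
    (.cap 3)

theorem k98 : chkC env c98 p98 = true := by decide +kernel

def p99 : Pf :=
  .step []
    [(2, [⟨5, 0, 0, 0, 16⟩]),
    (8, [⟨3, 0, 0, 0, 8⟩]),
    (80, [⟨3, 0, 0, 0, 9⟩]),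
    (81, [⟨5, 0, 0, 0, 15⟩])]
    [8, 2]
    [(81, (.cap 9))]
    []
    [(2, (.swap (.cap 2))),
    (8, (.cap 7))]
    []
    []
    (.cap 8)

theorem k99 : chkC env c99 p99 = true := by decide +kernel

def p59 : Pf :=
  .cover []
    []
    (.sx ⟨3, 0, 0, 0, 3⟩ (.del 58 ⟨0, 1, 0, 0, 0⟩ ⟨0, 0, 0, 0, 0⟩ ⟨0, 12, 0, false⟩ ⟨0, 5, 0, false⟩) (.swap (.del 3 ⟨0, 0, 0, 0, 0⟩ ⟨0, 0, 0, 0, 0⟩ ⟨0, 5, 0, false⟩ ⟨3, 6, 0, false⟩)))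

theorem k59 : chkC env c59 p59 = true := by decide +kernel

def p66 : Pf :=
  .cover [(77, (.del 31 ⟨-3, 0, 0, 0, -4⟩ ⟨0, 0, 0, 0, 0⟩ ⟨0, 3, 3, false⟩ ⟨3, 3, 3, true⟩))]
    [(15, (.del 31 ⟨-3, 0, 0, 0, -4⟩ ⟨0, 0, 0, 0, 0⟩ ⟨0, 3, 3, false⟩ ⟨3, 3, 3, true⟩))]
    (.del 28 ⟨0, 1, 0, 0, 0⟩ ⟨0, 0, 0, 0, 0⟩ ⟨0, 3, 3, false⟩ ⟨3, 3, 0, true⟩)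

theorem k66 : chkC env c66 p66 = true := by decide +kernel

end Pool.Agent.Lib.MP_1fc36f_co.H61
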