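import Pool.Agent.Lib.MP_1fc36f_co.H45Defs

/-! Claims and tables of the cop strategy. -/

namespace Pool.Agent.Lib.MP_1fc36f_co.H61

open Pool.Agent.Lib.MP_1fc36f_co.H45

def w0 : List DE :=
  [(60, true), (61, true), (62, true), (7, false), (6, false), (5, false), (22, false), (21, false), (20, false), (23, true), (24, true), (25, true)]

def w1 : List DE :=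
  [(8, true), (9, true), (10, true), (29, true), (30, true), (31, true), (106, true), (107, true), (108, true), (109, true), (32, true), (33, true), (34, true)]

def w2 : List DE :=
  [(138, false), (137, false), (56, false), (55, false), (54, false), (13, false), (12, false), (11, false), (35, true), (36, true), (37, true), (38, true)]

def w3 : List DE :=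
  [(60, true), (61, true), (62, true), (63, true), (64, true), (65, true), (172, false), (171, false), (170, false), (47, false), (46, false), (45, false), (48, true), (49, true), (50, true)]

def w4 : List DE :=
  [(11, true), (12, true), (13, true), (54, true), (55, true), (56, true), (137, true), (138, true)]

def w5 : List DE :=
  [(59, false), (58, false), (57, false), (140, false), (139, false), (138, false), (137, false), (56, false), (55, false), (54, false), (13, false), (12, false), (11, false)]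

def w6 : List DE :=
  [(60, true), (61, true), (62, true), (63, true), (64, true), (65, true), (172, false), (171, false), (170, false)]

def w7 : List DE :=
  [(176, true), (177, true), (178, true), (59, false), (58, false), (57, false), (110, true), (115, false), (111, false), (56, false), (55, false), (54, false), (13, false), (12, false), (11, false)]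

def w8 : List DE :=
  [(176, true), (177, true), (178, true), (53, false), (52, false), (51, false), (13, false), (12, false), (11, false)]

def w9 : List DE :=
  [(62, false), (61, false), (60, false), (4, false), (3, false), (2, false)]

def w10 : List DE :=
  [(8, true), (9, true), (10, true), (221, false), (220, false), (219, false), (181, false), (180, false), (179, false)]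

def w11 : List DE :=
  [(8, true), (9, true), (10, true), (227, false), (226, false), (225, false)]

def w12 : List DE :=
  [(11, true), (12, true), (13, true), (34, false), (33, false), (32, false), (109, false), (108, false), (107, false), (106, false), (31, false), (30, false), (29, false), (10, false), (9, false), (8, false)]

def w13 : List DE :=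
  [(60, true), (61, true), (62, true), (7, false), (6, false), (5, false)]

def w14 : List DE :=
  [(11, true), (12, true), (13, true), (34, false), (33, false), (32, false), (79, true), (84, false), (80, false), (31, false), (30, false), (29, false), (10, false), (9, false), (8, false)]

def w15 : List DE :=
  [(11, true), (12, true), (13, true), (28, false), (27, false), (26, false), (10, false), (9, false), (8, false)]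

def w16 : List DE :=
  [(11, true), (12, true), (13, true), (28, false), (27, false), (26, false)]

def w17 : List DE :=
  [(11, true), (12, true), (13, true), (34, false), (33, false), (32, false), (79, true), (84, false), (80, false), (31, false), (30, false), (29, false)]

def w18 : List DE :=
  [(11, true), (12, true), (13, true), (34, false), (33, false), (32, false), (109, false), (108, false), (107, false)]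

def w19 : List DE :=
  [(65, false), (64, false), (63, false), (62, false), (61, false), (60, false)]

def w20 : List DE :=
  [(29, true), (30, true), (31, true), (106, true), (107, true), (108, true), (109, true), (32, true), (33, true), (34, true), (13, false), (12, false), (11, false)]

def w21 : List DE :=
  [(29, true), (30, true), (31, true), (80, true), (84, true), (79, false), (32, true), (33, true), (34, true), (13, false), (12, false), (11, false)]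

def w22 : List DE :=
  [(26, true), (27, true), (28, true), (13, false), (12, false), (11, false)]

def w23 : List DE :=
  [(80, false), (31, false), (30, false), (29, false), (26, true), (27, true), (28, true)]

def w24 : List DE :=
  [(28, false), (27, false), (26, false), (29, true), (30, true), (31, true), (80, true), (84, true), (79, false), (32, true), (33, true), (34, true)]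

def w25 : List DE :=
  [(222, true), (223, true), (224, true), (279, true), (283, true), (278, false), (225, true), (226, true), (227, true), (10, false), (9, false), (8, false)]

def w26 : List DE :=
  [(225, true), (226, true), (227, true), (26, true), (27, true), (28, true)]

def w27 : List DE :=
  [(225, true), (226, true), (227, true), (29, true), (30, true), (31, true), (80, true), (84, true), (79, false), (32, true), (33, true), (34, true)]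

def w28 : List DE :=
  [(231, true), (232, true), (233, true), (60, true), (61, true), (62, true), (63, true), (64, true), (65, true), (228, true), (229, true), (230, true)]

def w29 : List DE :=
  [(225, true), (226, true), (227, true), (26, true), (27, true), (28, true), (54, true), (55, true), (56, true), (111, true), (115, true), (110, false), (57, true), (58, true), (59, true), (194, true), (195, true), (196, true)]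

def w30 : List DE :=
  [(32, true), (33, true), (34, true), (13, false), (12, false), (11, false)]

def w31 : List DE :=
  [(32, true), (33, true), (34, true), (54, true), (55, true), (56, true), (111, true), (115, true), (110, false), (57, true), (58, true), (59, true)]

def w32 : List DE :=
  [(80, false), (31, false), (30, false), (29, false), (26, true), (27, true), (28, true), (54, true), (55, true), (56, true)]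

def w33 : List DE :=
  [(54, true), (55, true), (56, true), (111, true), (115, true), (110, false), (57, true), (58, true), (59, true), (197, true), (198, true), (199, true), (248, true)]

def w34 : List DE :=
  [(32, true), (33, true), (34, true), (28, false), (27, false), (26, false)]

def w35 : List DE :=
  [(225, true), (226, true), (227, true), (29, true), (30, true), (31, true), (80, true), (84, true), (79, false), (32, true), (33, true), (34, true), (54, true), (55, true), (56, true)]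

def w36 : List DE :=
  [(29, true), (30, true), (31, true), (80, true), (84, true), (79, false), (32, true), (33, true), (34, true), (28, false), (27, false), (26, false)]

def w37 : List DE :=
  [(29, true), (30, true), (31, true), (106, true), (107, true)]

def w38 : List DE :=
  [(34, false), (33, false), (32, false), (109, false), (108, false)]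

def w39 : List DE :=
  [(54, true), (55, true), (56, true), (111, true), (115, true), (110, false), (57, true), (58, true), (59, true), (194, true), (195, true), (196, true)]

def w40 : List DE :=
  [(54, true), (55, true), (56, true), (111, true), (115, true), (110, false), (57, true), (58, true), (59, true)]

def w41 : List DE :=
  [(59, false), (58, false), (57, false), (140, false), (139, false)]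

def w42 : List DE :=
  [(10, false), (9, false), (8, false), (17, true), (18, true), (19, true)]

def w43 : List DE :=
  [(21, false), (20, false), (23, true), (24, true)]

def w44 : List DE :=
  [(12, false), (11, false), (35, true), (36, true), (37, true), (38, true), (39, true), (40, true), (41, true)]

def w45 : List DE :=
  [(65, true), (172, false), (171, false), (170, false), (47, false), (46, false), (45, false), (48, true)]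

def w46 : List DE :=
  [(36, true), (37, true), (38, true), (42, true), (43, true), (44, true)]

def w47 : List DE :=
  [(46, false), (45, false), (48, true), (49, true), (50, true)]

def w48 : List DE :=
  [(33, false), (32, false), (109, false), (108, false), (107, false), (106, false), (31, false), (30, false), (29, false), (10, false), (9, false), (8, false), (14, true), (15, true), (16, true)]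

def w49 : List DE :=
  [(61, true), (62, true), (7, false), (6, false), (5, false)]

def w50 : List DE :=
  [(226, true), (227, true), (10, false), (9, false), (8, false), (14, true), (15, true), (16, true)]

def w51 : List DE :=
  [(60, true), (61, true), (62, true)]

def w52 : List DE :=
  [(53, false), (52, false), (51, false), (28, false), (27, false), (26, false)]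

def w53 : List DE :=
  [(53, false), (52, false), (51, false), (34, false), (33, false), (32, false)]

def w54 : List DE :=
  [(53, false), (52, false), (51, false), (54, true), (55, true), (56, true)]

def w55 : List DE :=
  [(53, false), (52, false), (51, false)]

def w56 : List DE :=
  [(52, true), (53, true), (178, false), (177, false), (176, false), (168, false), (170, true), (171, true), (172, true), (78, false), (77, false), (76, false), (163, false), (164, true), (165, true), (69, true), (70, true), (71, true), (72, true), (73, true), (74, true), (75, true)]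

def w57 : List DE :=
  [(67, true), (68, true), (60, true), (61, true), (62, true)]

def w58 : List DE :=
  [(67, true), (68, true), (60, true), (61, true), (62, true), (63, true), (64, true), (65, true)]

def w59 : List DE :=
  [(165, false), (164, false), (163, true), (76, true), (77, true), (78, true), (172, false), (171, false), (170, false), (168, true), (176, true), (177, true), (178, true), (53, false), (52, false)]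

def w60 : List DE :=
  [(66, true), (67, true), (68, true), (60, true), (61, true), (62, true)]

def w61 : List DE :=
  [(165, false), (164, false), (163, true), (76, true), (77, true), (78, true), (172, false), (171, false), (170, false), (168, true), (176, true), (177, true), (178, true), (53, false), (52, false), (51, false), (34, false), (33, false), (32, false), (109, false), (108, false)]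

def w62 : List DE :=
  [(276, true), (277, true), (200, true), (201, true), (202, true), (219, true), (220, true), (221, true), (10, false), (9, false), (8, false), (0, false), (2, true), (3, true), (4, true), (60, true), (61, true), (62, true)]

def w63 : List DE :=
  [(333, false), (332, false), (331, true), (244, true), (245, true), (246, true), (60, true), (61, true), (62, true)]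

def w64 : List DE :=
  [(108, true), (109, true), (32, true), (33, true), (34, true), (51, true), (52, true), (53, true), (178, false), (177, false), (176, false), (168, false), (170, true), (171, true), (172, true), (78, false), (77, false), (76, false), (163, false), (164, true), (165, true)]

def w65 : List DE :=
  [(66, true), (67, true), (68, true)]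

def w66 : List DE :=
  [(63, true), (64, true), (65, true), (172, false), (171, false), (170, false), (168, true), (176, true), (177, true), (178, true), (53, false), (52, false), (51, false), (34, false), (33, false), (32, false), (109, false), (108, false)]

def w67 : List DE :=
  [(67, false), (66, false), (142, true), (146, true), (141, false), (69, true), (70, true), (71, true), (72, true), (73, true), (74, true), (75, true)]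

def w68 : List DE :=
  [(63, true), (64, true), (65, true)]

def w69 : List DE :=
  [(68, false), (67, false), (66, false), (142, true), (146, true), (141, false)]

def w70 : List DE :=
  [(1, false), (16, false), (15, false), (14, false), (0, false), (2, true), (3, true), (4, true), (68, false), (67, false), (66, false)]

def w71 : List DE :=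
  [(15, false), (14, false), (0, false), (2, true), (3, true), (4, true), (60, true), (61, true), (62, true)]

def w72 : List DE :=
  [(15, true), (16, true), (5, true), (6, true), (7, true)]

def w73 : List DE :=
  [(65, false), (64, false), (63, false)]

def w74 : List DE :=
  [(4, false), (3, false), (2, false), (0, true), (14, true), (15, true), (16, true), (1, true)]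

def w75 : List DE :=
  [(276, true), (277, true), (200, true), (201, true), (202, true), (219, true), (220, true), (221, true), (10, false), (9, false), (8, false), (0, false), (2, true), (3, true), (4, true), (68, false), (67, false), (66, false)]

def w76 : List DE :=
  [(333, false), (332, false), (331, true), (244, true), (245, true), (246, true), (68, false), (67, false), (66, false)]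

def w77 : List DE :=
  [(333, false), (332, false), (331, true), (244, true), (245, true), (246, true), (4, false), (3, false), (2, false), (0, true), (8, true), (9, true), (10, true), (221, false), (220, false), (219, false), (202, false), (201, false), (200, false), (277, false), (276, false)]

def w78 : List DE :=
  [(178, false), (177, false), (176, false), (168, false), (170, true), (171, true), (172, true)]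

def w79 : List DE :=
  [(3, false), (2, false), (0, true), (17, true), (18, true), (19, true)]

def w80 : List DE :=
  [(15, false), (14, false), (17, true), (18, true), (19, true)]

def w81 : List DE :=
  [(33, false), (32, false), (109, false), (108, false), (25, false), (24, false), (23, false), (20, true), (21, true), (22, true)]

def w82 : List DE :=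
  [(15, true), (16, true), (1, true)]

def w83 : List DE :=
  [(165, false), (164, false), (163, true), (76, true), (77, true), (78, true), (172, false), (171, false), (170, false), (168, true), (176, true), (177, true), (178, true), (53, false), (52, false), (51, false), (34, false), (33, false), (32, false), (109, false), (108, false), (25, false), (24, false), (23, false)]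

def w84 : List DE :=
  [(40, false), (39, false), (42, true), (43, true), (44, true)]

def w85 : List DE :=
  [(50, false), (49, false), (48, false)]

def w86 : List DE :=
  [(55, true), (56, true), (137, true), (138, true), (50, false), (49, false), (48, false), (45, true), (46, true), (47, true)]

def w87 : List DE :=
  [(58, true), (59, true), (178, false), (177, false), (176, false), (168, false), (41, false), (40, false)]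

def w88 : List DE :=
  [(4, false), (3, false), (2, false), (0, true), (14, true), (15, true), (16, true), (1, true), (11, true), (12, true), (13, true), (54, true), (55, true), (56, true), (137, true), (138, true), (50, false), (49, false), (48, false)]

def w89 : List DE :=
  [(134, true), (57, true), (58, true), (59, true), (178, false), (177, false), (176, false), (168, false), (41, false), (40, false), (39, false)]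

def w90 : List DE :=
  [(15, true), (16, true), (1, true), (35, true), (36, true), (37, true), (38, true)]

def w91 : List DE :=
  [(137, false), (56, false), (55, false), (54, false), (13, false), (12, false), (11, false), (35, true), (36, true), (37, true), (38, true)]

def w92 : List DE :=
  [(4, false), (3, false), (2, false), (0, true), (14, true), (15, true), (16, true), (1, true), (11, true), (12, true), (13, true), (54, true), (55, true), (56, true), (137, true), (138, true)]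

def w93 : List DE :=
  [(134, true), (57, true), (58, true), (59, true), (178, false), (177, false), (176, false), (168, false)]

def w94 : List DE :=
  [(165, false), (164, false), (163, true), (76, true), (77, true), (78, true), (172, false), (171, false), (170, false), (168, true), (176, true), (177, true), (178, true), (59, false), (58, false), (57, false), (134, false)]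

def w95 : List DE :=
  [(15, true), (16, true), (1, true), (11, true), (12, true), (13, true)]

def w96 : List DE :=
  [(52, false), (51, false), (34, false), (33, false)]

def w97 : List DE :=
  [(276, true), (277, true), (200, true), (201, true), (202, true), (219, true), (220, true), (221, true), (10, false), (9, false), (8, false), (0, false), (2, true), (3, true), (4, true), (246, false), (245, false), (244, false), (331, false), (332, true), (333, true)]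

def w98 : List DE :=
  [(103, true), (32, true), (33, true), (34, true), (13, false), (12, false), (11, false), (1, false), (22, false), (21, false), (20, false)]

def w99 : List DE :=
  [(107, false), (106, false), (31, false), (30, false), (29, false), (10, false), (9, false), (8, false), (0, false)]

def w100 : List DE :=
  [(103, true), (32, true), (33, true), (34, true), (13, false), (12, false), (11, false), (1, false)]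

def w101 : List DE :=
  [(276, true), (277, true), (200, true), (201, true), (202, true), (219, true), (220, true), (221, true), (29, true), (30, true), (31, true)]

def w102 : List DE :=
  [(333, false), (332, false), (331, true), (244, true), (245, true), (246, true), (4, false), (3, false), (2, false), (0, true), (8, true), (9, true), (10, true), (29, true), (30, true), (31, true)]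

def w103 : List DE :=
  [(220, true), (221, true), (26, true), (27, true), (28, true)]

def w104 : List DE :=
  [(52, false), (51, false), (34, false), (33, false), (32, false), (109, false), (108, false)]

/-- Claim rKSD. -/
def c0 : Claim :=
  ⟨⟨⟨0, 0, 0, 0, 0⟩, ⟨0, 0, 0, 0, 0⟩, ⟨0, 0, 0, 0, 0⟩, ⟨0, 0, 0, 0, 0⟩, ⟨⟨0, 0, 0, 0, 1⟩, ⟨0, 0, 0, 0, 0⟩, ⟨0, 0, 0, 0, 0⟩, ⟨0, 0, 0, 0, 0⟩⟩⟩,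
   [8, 78, 79, 80, 81, 82, 83],
   [17, 18, 19, 20, 21, 22, 23, 24, 25],
   ⟨4, w0, [⟨0, 0, 0, 0, 0⟩], [⟨9, 0, 0, 0, 20⟩],
    [(1, [⟨3, 0, 0, 0, 3⟩]),
    (2, [⟨6, 0, 0, 0, 11⟩]),
    (8, [⟨4, 0, 0, 0, 3⟩]),
    (9, [⟨3, 0, 0, 0, 2⟩]),
    (78, [⟨3, 0, 0, 0, 4⟩]),
    (79, [⟨4, 0, 0, 0, 2⟩]),
    (80, [⟨4, 0, 0, 0, 4⟩]),
    (81, [⟨6, 0, 0, 0, 10⟩]),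
    (82, [⟨4, 0, 0, 0, 2⟩]),
    (83, [⟨3, 0, 0, 0, 3⟩])],
    [(1, [⟨9, 0, 0, 0, 19⟩]),
    (2, [⟨6, 0, 0, 0, 11⟩]),
    (8, [⟨8, 0, 0, 0, 19⟩]),
    (78, [⟨9, 0, 0, 0, 18⟩]),
    (79, [⟨8, 0, 0, 0, 20⟩]),
    (80, [⟨8, 0, 0, 0, 18⟩]),
    (81, [⟨6, 0, 0, 0, 12⟩]),
    (82, [⟨8, 0, 0, 0, 20⟩]),
    (83, [⟨9, 0, 0, 0, 19⟩])]⟩,
   ⟨1, w1, [⟨0, 0, 0, 0, 0⟩], [⟨4, 0, 0, 0, 9⟩],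
    [(8, [⟨1, 0, 0, 0, 0⟩]),
    (9, [⟨2, 0, 0, 0, 1⟩]),
    (78, [⟨0, 0, 0, 0, 1⟩]),
    (79, [⟨1, 0, 0, 0, -1⟩]),
    (80, [⟨1, 0, 0, 0, -1⟩]),
    (82, [⟨1, 0, 0, 0, 1⟩]),
    (83, [⟨2, 0, 0, 0, 0⟩])],
    [(1, [⟨0, 0, 0, 0, 0⟩]),
    (2, [⟨3, 0, 0, 0, 8⟩]),
    (8, [⟨1, 0, 0, 0, 0⟩]),
    (9, [⟨2, 0, 0, 0, 1⟩]),
    (78, [⟨0, 0, 0, 0, 1⟩]),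
    (79, [⟨1, 0, 0, 0, -1⟩]),
    (80, [⟨1, 0, 0, 0, 1⟩]),
    (81, [⟨3, 0, 0, 0, 7⟩]),
    (82, [⟨1, 0, 0, 0, 1⟩]),
    (83, [⟨2, 0, 0, 0, 0⟩])]⟩,
   []⟩

/-- Claim rKF2. -/
def c1 : Claim :=
  ⟨⟨⟨0, 0, 0, 0, 0⟩, ⟨0, 0, 0, 0, 0⟩, ⟨0, 0, 0, 0, 0⟩, ⟨0, 0, 0, 0, 0⟩, ⟨⟨0, 0, 0, 0, 1⟩, ⟨0, 0, 0, 0, 0⟩, ⟨0, 0, 0, 0, 0⟩, ⟨0, 0, 0, 0, 0⟩⟩⟩,
   [12, 90, 91, 92, 93, 94, 95, 96],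
   [35, 36, 37, 38, 39, 40, 41, 42, 43, 44],
   ⟨14, w2, [⟨0, 0, 0, 0, 0⟩], [⟨6, 0, 0, 0, 1⟩],
    [(3, [⟨3, 0, 0, 0, 1⟩]),
    (12, [⟨0, 0, 0, 0, 1⟩]),
    (90, [⟨3, 0, 0, 0, 0⟩]),
    (91, [⟨2, 0, 0, 0, 0⟩]),
    (92, [⟨0, 0, 0, 0, 2⟩])],
    [(3, [⟨3, 0, 0, 0, 1⟩]),
    (90, [⟨3, 0, 0, 0, 2⟩]),
    (91, [⟨4, 0, 0, 0, 2⟩]),
    (92, [⟨6, 0, 0, 0, 0⟩])]⟩,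
   ⟨4, w3, [⟨0, 0, 0, 0, 0⟩], [⟨17, 0, 0, 0, 22⟩],
    [(3, [⟨10, 0, 0, 0, 20⟩]),
    (12, [⟨13, 0, 0, 0, 20⟩]),
    (13, [⟨15, 0, 0, 0, 21⟩]),
    (90, [⟨10, 0, 0, 0, 21⟩]),
    (91, [⟨11, 0, 0, 0, 21⟩]),
    (92, [⟨13, 0, 0, 0, 19⟩]),
    (93, [⟨13, 0, 0, 0, 19⟩]),
    (94, [⟨12, 0, 0, 0, 16⟩]),
    (95, [⟨13, 0, 0, 0, 21⟩]),
    (96, [⟨15, 0, 0, 0, 20⟩]),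
    (125, [⟨12, 0, 0, 0, 17⟩])],
    [(12, [⟨15, 0, 0, 0, 22⟩]),
    (13, [⟨15, 0, 0, 0, 21⟩]),
    (91, [⟨17, 0, 0, 0, 21⟩]),
    (92, [⟨15, 0, 0, 0, 23⟩]),
    (93, [⟨15, 0, 0, 0, 21⟩]),
    (94, [⟨12, 0, 0, 0, 18⟩]),
    (95, [⟨15, 0, 0, 0, 23⟩]),
    (96, [⟨15, 0, 0, 0, 22⟩]),
    (125, [⟨12, 0, 0, 0, 17⟩])]⟩,
   []⟩

/-- Claim rKF1. -/
def c2 : Claim :=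
  ⟨⟨⟨0, 0, 0, 0, 0⟩, ⟨0, 0, 0, 0, 0⟩, ⟨0, 0, 0, 0, 0⟩, ⟨0, 0, 0, 0, 0⟩, ⟨⟨0, 0, 0, 0, 2⟩, ⟨0, 0, 0, 0, 0⟩, ⟨0, 0, 0, 0, 0⟩, ⟨0, 0, 0, 0, 0⟩⟩⟩,
   [12, 13, 90, 91, 92, 93, 94, 95, 96, 97, 98, 99, 100],
   [35, 36, 37, 38, 39, 40, 41, 42, 43, 44, 45, 46, 47, 48, 49, 50],
   ⟨4, w3, [⟨0, 0, 0, 0, 0⟩], [⟨17, 0, 0, 0, 22⟩],
    [(3, [⟨6, 0, 0, 0, 12⟩]),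
    (12, [⟨9, 0, 0, 0, 12⟩]),
    (13, [⟨9, 0, 0, 0, 13⟩]),
    (14, [⟨7, 0, 0, 0, 12⟩]),
    (90, [⟨6, 0, 0, 0, 13⟩]),
    (91, [⟨7, 0, 0, 0, 13⟩]),
    (92, [⟨9, 0, 0, 0, 11⟩]),
    (93, [⟨9, 0, 0, 0, 13⟩]),
    (94, [⟨12, 0, 0, 0, 16⟩]),
    (95, [⟨9, 0, 0, 0, 11⟩]),
    (96, [⟨9, 0, 0, 0, 12⟩]),
    (97, [⟨9, 0, 0, 0, 14⟩]),
    (98, [⟨12, 0, 0, 0, 16⟩]),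
    (99, [⟨9, 0, 0, 0, 12⟩]),
    (100, [⟨7, 0, 0, 0, 13⟩]),
    (125, [⟨12, 0, 0, 0, 17⟩])],
    [(12, [⟨15, 0, 0, 0, 22⟩]),
    (13, [⟨15, 0, 0, 0, 21⟩]),
    (91, [⟨17, 0, 0, 0, 21⟩]),
    (92, [⟨15, 0, 0, 0, 23⟩]),
    (93, [⟨15, 0, 0, 0, 21⟩]),
    (94, [⟨12, 0, 0, 0, 18⟩]),
    (95, [⟨15, 0, 0, 0, 23⟩]),
    (96, [⟨15, 0, 0, 0, 22⟩]),
    (97, [⟨15, 0, 0, 0, 20⟩]),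
    (98, [⟨12, 0, 0, 0, 18⟩]),
    (99, [⟨15, 0, 0, 0, 22⟩]),
    (100, [⟨17, 0, 0, 0, 21⟩]),
    (125, [⟨12, 0, 0, 0, 17⟩])]⟩,
   ⟨3, w4, [⟨0, 0, 0, 0, 0⟩], [⟨3, 0, 0, 0, 1⟩],
    [(13, [⟨1, 0, 0, 0, 0⟩]),
    (14, [⟨3, 0, 0, 0, 1⟩]),
    (96, [⟨1, 0, 0, 0, -1⟩]),
    (97, [⟨1, 0, 0, 0, -1⟩]),
    (99, [⟨1, 0, 0, 0, 1⟩]),
    (100, [⟨3, 0, 0, 0, 0⟩])],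
    [(3, [⟨0, 0, 0, 0, 0⟩]),
    (12, [⟨3, 0, 0, 0, 0⟩]),
    (90, [⟨0, 0, 0, 0, 1⟩]),
    (91, [⟨1, 0, 0, 0, 1⟩]),
    (92, [⟨3, 0, 0, 0, -1⟩])]⟩,
   []⟩

/-- Claim rKF0p. -/
def c3 : Claim :=
  ⟨⟨⟨0, 0, 0, 0, 0⟩, ⟨0, 0, 0, 0, 0⟩, ⟨0, 0, 0, 0, 0⟩, ⟨0, 0, 0, 0, 0⟩, ⟨⟨0, 0, 0, 0, 3⟩, ⟨0, 0, 0, 0, 0⟩, ⟨0, 0, 0, 0, 0⟩, ⟨0, 0, 0, 0, 0⟩⟩⟩,
   [12, 13, 90, 91, 92, 93, 94, 95, 96, 97, 98, 99, 100],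
   [35, 36, 37, 38, 39, 40, 41, 42, 43, 44, 45, 46, 47, 48, 49, 50],
   ⟨131, w5, [⟨0, 0, 0, 0, 0⟩], [⟨7, 0, 0, 0, 7⟩],
    [(3, [⟨7, 0, 0, 0, 7⟩]),
    (12, [⟨4, 0, 0, 0, 7⟩]),
    (13, [⟨2, 0, 0, 0, 6⟩]),
    (14, [⟨4, 0, 0, 0, 6⟩]),
    (90, [⟨7, 0, 0, 0, 6⟩]),
    (91, [⟨6, 0, 0, 0, 6⟩]),
    (92, [⟨4, 0, 0, 0, 8⟩]),
    (93, [⟨4, 0, 0, 0, 6⟩]),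
    (94, [⟨1, 0, 0, 0, 3⟩]),
    (95, [⟨4, 0, 0, 0, 6⟩]),
    (96, [⟨2, 0, 0, 0, 7⟩]),
    (97, [⟨2, 0, 0, 0, 5⟩]),
    (99, [⟨2, 0, 0, 0, 6⟩]),
    (100, [⟨4, 0, 0, 0, 5⟩])],
    [(13, [⟨6, 0, 0, 0, 7⟩]),
    (14, [⟨4, 0, 0, 0, 6⟩]),
    (96, [⟨6, 0, 0, 0, 8⟩]),
    (97, [⟨6, 0, 0, 0, 8⟩]),
    (99, [⟨6, 0, 0, 0, 6⟩]),
    (100, [⟨4, 0, 0, 0, 7⟩])]⟩,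
   ⟨4, w6, [⟨0, 0, 0, 0, 0⟩], [⟨12, 0, 0, 0, 17⟩],
    [(3, [⟨6, 0, 0, 0, 12⟩]),
    (12, [⟨9, 0, 0, 0, 12⟩]),
    (13, [⟨9, 0, 0, 0, 13⟩]),
    (14, [⟨7, 0, 0, 0, 12⟩]),
    (90, [⟨6, 0, 0, 0, 13⟩]),
    (91, [⟨7, 0, 0, 0, 13⟩]),
    (92, [⟨9, 0, 0, 0, 11⟩]),
    (93, [⟨9, 0, 0, 0, 13⟩]),
    (94, [⟨12, 0, 0, 0, 16⟩]),
    (95, [⟨9, 0, 0, 0, 11⟩]),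
    (96, [⟨9, 0, 0, 0, 12⟩]),
    (97, [⟨9, 0, 0, 0, 14⟩]),
    (98, [⟨12, 0, 0, 0, 16⟩]),
    (99, [⟨9, 0, 0, 0, 12⟩]),
    (100, [⟨7, 0, 0, 0, 13⟩]),
    (125, [⟨12, 0, 0, 0, 17⟩])],
    []⟩,
   []⟩

/-- Claim rKF0. -/
def c4 : Claim :=
  ⟨⟨⟨0, 0, 0, 0, 0⟩, ⟨0, 0, 0, 0, 0⟩, ⟨0, 0, 0, 0, 0⟩, ⟨0, 0, 0, 0, 0⟩, ⟨⟨0, 0, 0, 0, 4⟩, ⟨0, 0, 0, 0, 0⟩, ⟨0, 0, 0, 0, 0⟩, ⟨0, 0, 0, 0, 0⟩⟩⟩,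
   [12, 13, 90, 91, 92, 93, 94, 95, 96, 97, 98],
   [35, 36, 37, 38, 39, 40, 41, 42, 43, 44, 45, 46, 47],
   ⟨126, w7, [⟨0, 0, 0, 0, 0⟩], [⟨8, 0, 0, 0, 6⟩],
    [(3, [⟨8, 0, 0, 0, 6⟩]),
    (12, [⟨5, 0, 0, 0, 6⟩]),
    (13, [⟨3, 0, 0, 0, 5⟩]),
    (90, [⟨8, 0, 0, 0, 5⟩]),
    (91, [⟨7, 0, 0, 0, 5⟩]),
    (92, [⟨5, 0, 0, 0, 7⟩]),
    (93, [⟨5, 0, 0, 0, 5⟩]),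
    (94, [⟨2, 0, 0, 0, 2⟩]),
    (95, [⟨5, 0, 0, 0, 5⟩]),
    (96, [⟨3, 0, 0, 0, 6⟩]),
    (97, [⟨3, 0, 0, 0, 4⟩]),
    (98, [⟨0, 0, 0, 0, 2⟩])],
    [(13, [⟨7, 0, 0, 0, 6⟩]),
    (96, [⟨7, 0, 0, 0, 7⟩]),
    (97, [⟨7, 0, 0, 0, 7⟩])]⟩,
   ⟨4, w6, [⟨0, 0, 0, 0, 0⟩], [⟨12, 0, 0, 0, 17⟩],
    [(3, [⟨6, 0, 0, 0, 12⟩]),
    (12, [⟨9, 0, 0, 0, 12⟩]),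
    (13, [⟨9, 0, 0, 0, 13⟩]),
    (90, [⟨6, 0, 0, 0, 13⟩]),
    (91, [⟨7, 0, 0, 0, 13⟩]),
    (92, [⟨9, 0, 0, 0, 11⟩]),
    (93, [⟨9, 0, 0, 0, 13⟩]),
    (94, [⟨12, 0, 0, 0, 16⟩]),
    (95, [⟨9, 0, 0, 0, 11⟩]),
    (96, [⟨9, 0, 0, 0, 12⟩]),
    (97, [⟨9, 0, 0, 0, 14⟩]),
    (98, [⟨12, 0, 0, 0, 16⟩]),
    (125, [⟨12, 0, 0, 0, 17⟩])],
    []⟩,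
   []⟩

/-- Claim rKF0r. -/
def c5 : Claim :=
  ⟨⟨⟨0, 0, 0, 0, 0⟩, ⟨0, 0, 0, 0, 0⟩, ⟨0, 0, 0, 0, 0⟩, ⟨0, 0, 0, 0, 0⟩, ⟨⟨0, 0, 0, 0, 4⟩, ⟨0, 0, 0, 0, 0⟩, ⟨0, 0, 0, 0, 0⟩, ⟨0, 0, 0, 0, 0⟩⟩⟩,
   [12, 90, 91, 92, 93, 94, 95, 96],
   [35, 36, 37, 38, 39, 40, 41, 42, 43, 44],
   ⟨126, w8, [⟨0, 0, 0, 0, 0⟩], [⟨6, 0, 0, 0, 6⟩],
    [(3, [⟨6, 0, 0, 0, 6⟩]),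
    (12, [⟨3, 0, 0, 0, 6⟩]),
    (13, [⟨5, 0, 0, 0, 6⟩]),
    (90, [⟨6, 0, 0, 0, 5⟩]),
    (91, [⟨5, 0, 0, 0, 5⟩]),
    (92, [⟨3, 0, 0, 0, 7⟩]),
    (93, [⟨3, 0, 0, 0, 5⟩]),
    (94, [⟨0, 0, 0, 0, 2⟩]),
    (95, [⟨3, 0, 0, 0, 6⟩]),
    (96, [⟨5, 0, 0, 0, 5⟩]),
    (125, [⟨0, 0, 0, 0, 1⟩])],
    [(13, [⟨5, 0, 0, 0, 6⟩]),
    (96, [⟨5, 0, 0, 0, 7⟩])]⟩,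
   ⟨4, w6, [⟨0, 0, 0, 0, 0⟩], [⟨12, 0, 0, 0, 17⟩],
    [(3, [⟨6, 0, 0, 0, 12⟩]),
    (12, [⟨9, 0, 0, 0, 12⟩]),
    (13, [⟨9, 0, 0, 0, 13⟩]),
    (90, [⟨6, 0, 0, 0, 13⟩]),
    (91, [⟨7, 0, 0, 0, 13⟩]),
    (92, [⟨9, 0, 0, 0, 11⟩]),
    (93, [⟨9, 0, 0, 0, 13⟩]),
    (94, [⟨12, 0, 0, 0, 16⟩]),
    (95, [⟨9, 0, 0, 0, 11⟩]),
    (96, [⟨9, 0, 0, 0, 12⟩]),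
    (125, [⟨12, 0, 0, 0, 17⟩])],
    []⟩,
   []⟩

/-- Claim rL1M. -/
def c6 : Claim :=
  ⟨⟨⟨0, 0, 0, 0, 1⟩, ⟨6, 0, 0, 0, 8⟩, ⟨0, 0, 0, 0, 0⟩, ⟨0, 0, 0, 0, 0⟩, ⟨⟨0, 0, 0, 0, 5⟩, ⟨0, 1, 0, 0, 0⟩, ⟨0, 0, 0, 0, 0⟩, ⟨0, 0, 0, 0, 0⟩⟩⟩,
   [0, 219, 68, 69],
   [0, 2, 3, 4, 208, 209, 215],
   ⟨5, w9, [⟨0, 0, 0, 0, 0⟩], [⟨6, 0, 0, 0, 11⟩],
    [(0, [⟨6, -1, 0, 0, 11⟩]),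
    (1, [⟨6, -1, 0, 0, 10⟩]),
    (4, [⟨3, 0, 0, 0, 7⟩]),
    (68, [⟨0, 0, 0, 0, 4⟩, ⟨6, -1, 0, 0, 10⟩]),
    (69, [⟨3, 0, 0, 0, 6⟩, ⟨3, -1, 0, 0, 8⟩]),
    (218, [⟨3, 0, 0, 0, 7⟩]),
    (219, [⟨0, 0, 0, 0, 4⟩, ⟨6, -1, 0, 0, 10⟩]),
    (223, [⟨0, 0, 0, 0, 4⟩, ⟨6, -1, 0, 0, 11⟩])],
    [(4, [⟨3, 0, 0, 0, 7⟩]),
    (68, [⟨6, 0, 0, 0, 10⟩]),
    (69, [⟨3, 0, 0, 0, 8⟩]),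
    (218, [⟨3, 0, 0, 0, 7⟩]),
    (219, [⟨6, 0, 0, 0, 10⟩]),
    (223, [⟨6, 0, 0, 0, 10⟩])]⟩,
   ⟨1, w10, [⟨0, 0, 0, 0, 0⟩], [⟨6, 0, 0, 0, 6⟩],
    [(0, [⟨0, 0, 0, 0, 1⟩]),
    (218, [⟨3, 0, 0, 0, 5⟩]),
    (219, [⟨0, 0, 0, 0, 2⟩]),
    (223, [⟨0, 0, 0, 0, 2⟩])],
    [(0, [⟨0, 0, 0, 0, 1⟩]),
    (1, [⟨0, 0, 0, 0, 0⟩]),
    (4, [⟨3, 0, 0, 0, 5⟩]),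
    (68, [⟨0, 0, 0, 0, 2⟩]),
    (69, [⟨3, 0, 0, 0, 4⟩]),
    (218, [⟨3, 0, 0, 0, 5⟩]),
    (219, [⟨0, 0, 0, 0, 2⟩]),
    (223, [⟨0, 0, 0, 0, 2⟩])]⟩,
   []⟩

/-- Claim rL1D. -/
def c7 : Claim :=
  ⟨⟨⟨0, 0, 0, 0, 1⟩, ⟨6, 0, 0, 0, 8⟩, ⟨0, 0, 0, 0, 0⟩, ⟨0, 0, 0, 0, 0⟩, ⟨⟨0, 0, 0, 0, 5⟩, ⟨0, 1, 0, 0, 0⟩, ⟨0, 0, 0, 0, 1⟩, ⟨0, 0, 0, 0, 0⟩⟩⟩,
   [222, 223],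
   [213, 214, 215],
   ⟨5, w9, [⟨0, 0, 0, 0, 0⟩], [⟨6, 0, 0, 0, 11⟩],
    [(0, [⟨6, -1, 0, 0, 11⟩]),
    (138, [⟨3, 0, 0, 0, 7⟩]),
    (222, [⟨3, 0, 0, 0, 6⟩, ⟨3, -1, 0, 0, 8⟩]),
    (223, [⟨0, 0, 0, 0, 4⟩, ⟨6, -1, 0, 0, 10⟩])],
    [(138, [⟨3, 0, 0, 0, 7⟩]),
    (222, [⟨3, 0, 0, 0, 8⟩]),
    (223, [⟨6, 0, 0, 0, 10⟩])]⟩,
   ⟨1, w11, [⟨0, 0, 0, 0, 0⟩], [⟨5, 0, 0, 0, 4⟩],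
    [(0, [⟨0, 0, 0, 0, 1⟩]),
    (138, [⟨3, 0, 0, 0, 5⟩]),
    (222, [⟨3, 0, 0, 0, 4⟩]),
    (223, [⟨0, 0, 0, 0, 2⟩])],
    [(0, [⟨0, 0, 0, 0, 1⟩]),
    (138, [⟨3, 0, 0, 0, 5⟩]),
    (222, [⟨3, 0, 0, 0, 4⟩]),
    (223, [⟨0, 0, 0, 0, 2⟩])]⟩,
   []⟩

/-- Claim rL1t. -/
def c8 : Claim :=
  ⟨⟨⟨0, 0, 0, 0, 1⟩, ⟨6, 0, 0, 0, 8⟩, ⟨0, 0, 0, 0, 0⟩, ⟨0, 0, 0, 0, 0⟩, ⟨⟨0, 0, 0, 0, 5⟩, ⟨0, 1, 0, 0, 0⟩, ⟨0, 0, 0, 0, 1⟩, ⟨0, 0, 0, 0, 0⟩⟩⟩,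
   [68, 69],
   [2, 3, 4],
   ⟨5, w9, [⟨0, 0, 0, 0, 0⟩], [⟨6, 0, 0, 0, 11⟩],
    [(0, [⟨6, -1, 0, 0, 11⟩]),
    (4, [⟨3, 0, 0, 0, 7⟩]),
    (68, [⟨0, 0, 0, 0, 4⟩, ⟨6, -1, 0, 0, 10⟩]),
    (69, [⟨3, 0, 0, 0, 6⟩, ⟨3, -1, 0, 0, 8⟩])],
    [(4, [⟨3, 0, 0, 0, 7⟩]),
    (68, [⟨6, 0, 0, 0, 10⟩]),
    (69, [⟨3, 0, 0, 0, 8⟩])]⟩,
   ⟨1, w1, [⟨0, 0, 0, 0, 0⟩], [⟨4, 0, 0, 0, 9⟩],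
    [(0, [⟨0, 0, 0, 0, 1⟩])],
    [(0, [⟨0, 0, 0, 0, 1⟩]),
    (4, [⟨3, 0, 0, 0, 5⟩]),
    (68, [⟨0, 0, 0, 0, 2⟩]),
    (69, [⟨3, 0, 0, 0, 4⟩])]⟩,
   []⟩

/-- Claim rZ1p. -/
def c9 : Claim :=
  ⟨⟨⟨0, 0, 0, 0, 0⟩, ⟨0, 0, 0, 0, 0⟩, ⟨0, 0, 0, 0, 0⟩, ⟨0, 0, 0, 0, 0⟩, ⟨⟨0, 0, 0, 0, 6⟩, ⟨0, 0, 0, 0, 0⟩, ⟨0, 0, 0, 0, 0⟩, ⟨0, 0, 0, 0, 0⟩⟩⟩,
   [0, 1, 8, 76, 77, 72, 73, 68, 69, 78, 79, 80, 81, 82, 83, 219, 223],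
   [0, 2, 3, 4, 8, 9, 10, 14, 15, 16, 17, 18, 19, 20, 21, 22, 23, 24, 25, 208, 209, 214, 215],
   ⟨3, w12, [⟨0, 0, 0, 0, 0⟩], [⟨5, 0, 0, 0, 9⟩],
    [(0, [⟨3, 0, 0, 0, 10⟩]),
    (1, [⟨3, 0, 0, 0, 9⟩]),
    (2, [⟨0, 0, 0, 0, 3⟩]),
    (4, [⟨0, 0, 0, 0, 6⟩]),
    (6, [⟨4, 0, 0, 0, 9⟩]),
    (8, [⟨2, 0, 0, 0, 9⟩]),
    (9, [⟨3, 0, 0, 0, 8⟩]),
    (68, [⟨3, 0, 0, 0, 9⟩]),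
    (69, [⟨0, 0, 0, 0, 7⟩]),
    (72, [⟨3, 0, 0, 0, 10⟩]),
    (73, [⟨4, 0, 0, 0, 8⟩]),
    (76, [⟨3, 0, 0, 0, 8⟩]),
    (77, [⟨0, 0, 0, 0, 4⟩]),
    (78, [⟨3, 0, 0, 0, 8⟩]),
    (79, [⟨2, 0, 0, 0, 10⟩]),
    (80, [⟨2, 0, 0, 0, 8⟩]),
    (81, [⟨0, 0, 0, 0, 2⟩]),
    (82, [⟨2, 0, 0, 0, 8⟩]),
    (83, [⟨3, 0, 0, 0, 7⟩]),
    (218, [⟨6, 0, 0, 0, 14⟩]),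
    (219, [⟨3, 0, 0, 0, 11⟩]),
    (222, [⟨6, 0, 0, 0, 13⟩]),
    (223, [⟨3, 0, 0, 0, 11⟩])],
    [(0, [⟨5, 0, 0, 0, 8⟩]),
    (6, [⟨4, 0, 0, 0, 9⟩]),
    (8, [⟨4, 0, 0, 0, 9⟩]),
    (9, [⟨3, 0, 0, 0, 8⟩]),
    (72, [⟨5, 0, 0, 0, 8⟩]),
    (73, [⟨4, 0, 0, 0, 10⟩]),
    (78, [⟨5, 0, 0, 0, 8⟩]),
    (79, [⟨4, 0, 0, 0, 10⟩]),
    (80, [⟨4, 0, 0, 0, 10⟩]),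
    (82, [⟨4, 0, 0, 0, 8⟩]),
    (83, [⟨3, 0, 0, 0, 9⟩]),
    (218, [⟨2, 0, 0, 0, 4⟩]),
    (219, [⟨5, 0, 0, 0, 7⟩]),
    (222, [⟨2, 0, 0, 0, 5⟩]),
    (223, [⟨5, 0, 0, 0, 7⟩])]⟩,
   ⟨4, w13, [⟨0, 0, 0, 0, 0⟩], [⟨6, 0, 0, 0, 11⟩],
    [(0, [⟨3, 0, 0, 0, 4⟩]),
    (1, [⟨3, 0, 0, 0, 5⟩]),
    (2, [⟨6, 0, 0, 0, 11⟩]),
    (6, [⟨2, 0, 0, 0, 5⟩]),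
    (8, [⟨4, 0, 0, 0, 3⟩]),
    (9, [⟨3, 0, 0, 0, 2⟩]),
    (68, [⟨3, 0, 0, 0, 3⟩]),
    (69, [⟨0, 0, 0, 0, 1⟩]),
    (72, [⟨3, 0, 0, 0, 4⟩]),
    (73, [⟨2, 0, 0, 0, 6⟩]),
    (76, [⟨3, 0, 0, 0, 6⟩]),
    (77, [⟨6, 0, 0, 0, 10⟩]),
    (78, [⟨3, 0, 0, 0, 4⟩]),
    (79, [⟨4, 0, 0, 0, 2⟩]),
    (80, [⟨4, 0, 0, 0, 4⟩]),
    (81, [⟨6, 0, 0, 0, 10⟩]),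
    (82, [⟨4, 0, 0, 0, 2⟩]),
    (83, [⟨3, 0, 0, 0, 3⟩]),
    (219, [⟨3, 0, 0, 0, 3⟩]),
    (222, [⟨0, 0, 0, 0, 1⟩]),
    (223, [⟨3, 0, 0, 0, 3⟩])],
    [(0, [⟨3, 0, 0, 0, 4⟩]),
    (1, [⟨3, 0, 0, 0, 5⟩]),
    (4, [⟨0, 0, 0, 0, 0⟩]),
    (6, [⟨2, 0, 0, 0, 5⟩]),
    (8, [⟨4, 0, 0, 0, 3⟩]),
    (9, [⟨3, 0, 0, 0, 2⟩]),
    (68, [⟨3, 0, 0, 0, 3⟩]),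
    (69, [⟨0, 0, 0, 0, 1⟩]),
    (72, [⟨3, 0, 0, 0, 4⟩]),
    (73, [⟨2, 0, 0, 0, 6⟩]),
    (76, [⟨3, 0, 0, 0, 6⟩]),
    (77, [⟨6, 0, 0, 0, 10⟩]),
    (78, [⟨3, 0, 0, 0, 4⟩]),
    (79, [⟨4, 0, 0, 0, 2⟩]),
    (80, [⟨4, 0, 0, 0, 4⟩]),
    (81, [⟨6, 0, 0, 0, 10⟩]),
    (82, [⟨4, 0, 0, 0, 2⟩]),
    (83, [⟨3, 0, 0, 0, 3⟩]),
    (218, [⟨0, 0, 0, 0, 0⟩]),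
    (219, [⟨3, 0, 0, 0, 3⟩]),
    (222, [⟨0, 0, 0, 0, 1⟩]),
    (223, [⟨3, 0, 0, 0, 3⟩])]⟩,
   [(208, ⟨2, 0, 0, 0, 5⟩, ⟨3, 0, 0, 0, 3⟩), (214, ⟨2, 0, 0, 0, 4⟩, ⟨3, 0, 0, 0, 2⟩)]⟩

/-- Claim rZ1L. -/
def c10 : Claim :=
  ⟨⟨⟨0, 0, 0, 0, 0⟩, ⟨0, 0, 0, 0, 0⟩, ⟨0, 0, 0, 0, 0⟩, ⟨0, 0, 0, 0, 0⟩, ⟨⟨0, 0, 0, 0, 7⟩, ⟨0, 0, 0, 0, 0⟩, ⟨0, 0, 0, 0, 0⟩, ⟨0, 0, 0, 0, 0⟩⟩⟩,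
   [0, 1, 8, 76, 77, 72, 73, 68, 69, 78, 79, 80, 81, 219, 223],
   [0, 2, 3, 4, 8, 9, 10, 14, 15, 16, 17, 18, 19, 20, 21, 22, 208, 209, 214, 215],
   ⟨3, w14, [⟨0, 0, 0, 0, 0⟩], [⟨5, 0, 0, 0, 8⟩],
    [(0, [⟨3, 0, 0, 0, 9⟩]),
    (1, [⟨3, 0, 0, 0, 8⟩]),
    (2, [⟨0, 0, 0, 0, 2⟩]),
    (4, [⟨0, 0, 0, 0, 5⟩]),
    (6, [⟨4, 0, 0, 0, 8⟩]),
    (8, [⟨2, 0, 0, 0, 8⟩]),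
    (68, [⟨3, 0, 0, 0, 8⟩]),
    (69, [⟨0, 0, 0, 0, 6⟩]),
    (72, [⟨3, 0, 0, 0, 9⟩]),
    (73, [⟨4, 0, 0, 0, 7⟩]),
    (76, [⟨3, 0, 0, 0, 7⟩]),
    (77, [⟨0, 0, 0, 0, 3⟩]),
    (78, [⟨3, 0, 0, 0, 7⟩]),
    (79, [⟨2, 0, 0, 0, 9⟩]),
    (80, [⟨2, 0, 0, 0, 7⟩]),
    (81, [⟨0, 0, 0, 0, 1⟩]),
    (218, [⟨6, 0, 0, 0, 13⟩]),
    (219, [⟨3, 0, 0, 0, 10⟩]),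
    (222, [⟨6, 0, 0, 0, 12⟩]),
    (223, [⟨3, 0, 0, 0, 10⟩])],
    [(0, [⟨5, 0, 0, 0, 7⟩]),
    (6, [⟨4, 0, 0, 0, 8⟩]),
    (8, [⟨4, 0, 0, 0, 8⟩]),
    (72, [⟨5, 0, 0, 0, 7⟩]),
    (73, [⟨4, 0, 0, 0, 9⟩]),
    (78, [⟨5, 0, 0, 0, 7⟩]),
    (79, [⟨4, 0, 0, 0, 9⟩]),
    (80, [⟨4, 0, 0, 0, 9⟩]),
    (218, [⟨2, 0, 0, 0, 3⟩]),
    (219, [⟨5, 0, 0, 0, 6⟩]),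
    (222, [⟨2, 0, 0, 0, 4⟩]),
    (223, [⟨5, 0, 0, 0, 6⟩])]⟩,
   ⟨4, w13, [⟨0, 0, 0, 0, 0⟩], [⟨6, 0, 0, 0, 11⟩],
    [(0, [⟨3, 0, 0, 0, 4⟩]),
    (1, [⟨3, 0, 0, 0, 5⟩]),
    (2, [⟨6, 0, 0, 0, 11⟩]),
    (6, [⟨2, 0, 0, 0, 5⟩]),
    (8, [⟨4, 0, 0, 0, 3⟩]),
    (68, [⟨3, 0, 0, 0, 3⟩]),
    (69, [⟨0, 0, 0, 0, 1⟩]),
    (72, [⟨3, 0, 0, 0, 4⟩]),
    (73, [⟨2, 0, 0, 0, 6⟩]),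
    (76, [⟨3, 0, 0, 0, 6⟩]),
    (77, [⟨6, 0, 0, 0, 10⟩]),
    (78, [⟨3, 0, 0, 0, 4⟩]),
    (79, [⟨4, 0, 0, 0, 2⟩]),
    (80, [⟨4, 0, 0, 0, 4⟩]),
    (81, [⟨6, 0, 0, 0, 10⟩]),
    (219, [⟨3, 0, 0, 0, 3⟩]),
    (222, [⟨0, 0, 0, 0, 1⟩]),
    (223, [⟨3, 0, 0, 0, 3⟩])],
    [(0, [⟨3, 0, 0, 0, 4⟩]),
    (1, [⟨3, 0, 0, 0, 5⟩]),
    (4, [⟨0, 0, 0, 0, 0⟩]),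
    (6, [⟨2, 0, 0, 0, 5⟩]),
    (8, [⟨4, 0, 0, 0, 3⟩]),
    (68, [⟨3, 0, 0, 0, 3⟩]),
    (69, [⟨0, 0, 0, 0, 1⟩]),
    (72, [⟨3, 0, 0, 0, 4⟩]),
    (73, [⟨2, 0, 0, 0, 6⟩]),
    (76, [⟨3, 0, 0, 0, 6⟩]),
    (77, [⟨6, 0, 0, 0, 10⟩]),
    (78, [⟨3, 0, 0, 0, 4⟩]),
    (79, [⟨4, 0, 0, 0, 2⟩]),
    (80, [⟨4, 0, 0, 0, 4⟩]),
    (81, [⟨6, 0, 0, 0, 10⟩]),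
    (218, [⟨0, 0, 0, 0, 0⟩]),
    (219, [⟨3, 0, 0, 0, 3⟩]),
    (222, [⟨0, 0, 0, 0, 1⟩]),
    (223, [⟨3, 0, 0, 0, 3⟩])]⟩,
   [(208, ⟨2, 0, 0, 0, 5⟩, ⟨3, 0, 0, 0, 3⟩), (214, ⟨2, 0, 0, 0, 4⟩, ⟨3, 0, 0, 0, 2⟩)]⟩

/-- Claim rZ1S. -/
def c11 : Claim :=
  ⟨⟨⟨0, 0, 0, 0, 0⟩, ⟨0, 0, 0, 0, 0⟩, ⟨0, 0, 0, 0, 0⟩, ⟨0, 0, 0, 0, 0⟩, ⟨⟨0, 0, 0, 0, 7⟩, ⟨0, 0, 0, 0, 0⟩, ⟨0, 0, 0, 0, 0⟩, ⟨0, 0, 0, 0, 0⟩⟩⟩,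
   [0, 1, 76, 77, 72, 73, 68, 69, 78, 79, 219, 223],
   [0, 2, 3, 4, 8, 9, 10, 14, 15, 16, 17, 18, 19, 208, 209, 214, 215],
   ⟨3, w15, [⟨0, 0, 0, 0, 0⟩], [⟨5, 0, 0, 0, 6⟩],
    [(0, [⟨3, 0, 0, 0, 7⟩]),
    (1, [⟨3, 0, 0, 0, 6⟩]),
    (4, [⟨0, 0, 0, 0, 3⟩]),
    (6, [⟨4, 0, 0, 0, 6⟩]),
    (8, [⟨4, 0, 0, 0, 6⟩]),
    (68, [⟨3, 0, 0, 0, 6⟩]),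
    (69, [⟨0, 0, 0, 0, 4⟩]),
    (72, [⟨3, 0, 0, 0, 7⟩]),
    (73, [⟨4, 0, 0, 0, 5⟩]),
    (76, [⟨3, 0, 0, 0, 5⟩]),
    (77, [⟨0, 0, 0, 0, 1⟩]),
    (78, [⟨3, 0, 0, 0, 7⟩]),
    (79, [⟨4, 0, 0, 0, 5⟩]),
    (218, [⟨6, 0, 0, 0, 11⟩]),
    (219, [⟨3, 0, 0, 0, 8⟩]),
    (222, [⟨6, 0, 0, 0, 10⟩]),
    (223, [⟨3, 0, 0, 0, 8⟩])],
    [(0, [⟨5, 0, 0, 0, 5⟩]),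
    (6, [⟨4, 0, 0, 0, 6⟩]),
    (8, [⟨4, 0, 0, 0, 6⟩]),
    (72, [⟨5, 0, 0, 0, 5⟩]),
    (73, [⟨4, 0, 0, 0, 7⟩]),
    (78, [⟨5, 0, 0, 0, 5⟩]),
    (79, [⟨4, 0, 0, 0, 7⟩]),
    (218, [⟨2, 0, 0, 0, 1⟩]),
    (219, [⟨5, 0, 0, 0, 4⟩]),
    (222, [⟨2, 0, 0, 0, 2⟩]),
    (223, [⟨5, 0, 0, 0, 4⟩])]⟩,
   ⟨4, w13, [⟨0, 0, 0, 0, 0⟩], [⟨6, 0, 0, 0, 11⟩],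
    [(0, [⟨3, 0, 0, 0, 4⟩]),
    (1, [⟨3, 0, 0, 0, 5⟩]),
    (2, [⟨6, 0, 0, 0, 11⟩]),
    (6, [⟨2, 0, 0, 0, 5⟩]),
    (8, [⟨4, 0, 0, 0, 3⟩]),
    (68, [⟨3, 0, 0, 0, 3⟩]),
    (69, [⟨0, 0, 0, 0, 1⟩]),
    (72, [⟨3, 0, 0, 0, 4⟩]),
    (73, [⟨2, 0, 0, 0, 6⟩]),
    (76, [⟨3, 0, 0, 0, 6⟩]),
    (77, [⟨6, 0, 0, 0, 10⟩]),
    (78, [⟨3, 0, 0, 0, 4⟩]),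
    (79, [⟨4, 0, 0, 0, 2⟩]),
    (219, [⟨3, 0, 0, 0, 3⟩]),
    (222, [⟨0, 0, 0, 0, 1⟩]),
    (223, [⟨3, 0, 0, 0, 3⟩])],
    [(0, [⟨3, 0, 0, 0, 4⟩]),
    (1, [⟨3, 0, 0, 0, 5⟩]),
    (4, [⟨0, 0, 0, 0, 0⟩]),
    (6, [⟨2, 0, 0, 0, 5⟩]),
    (8, [⟨4, 0, 0, 0, 3⟩]),
    (68, [⟨3, 0, 0, 0, 3⟩]),
    (69, [⟨0, 0, 0, 0, 1⟩]),
    (72, [⟨3, 0, 0, 0, 4⟩]),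
    (73, [⟨2, 0, 0, 0, 6⟩]),
    (76, [⟨3, 0, 0, 0, 6⟩]),
    (77, [⟨6, 0, 0, 0, 10⟩]),
    (78, [⟨3, 0, 0, 0, 4⟩]),
    (79, [⟨4, 0, 0, 0, 2⟩]),
    (218, [⟨0, 0, 0, 0, 0⟩]),
    (219, [⟨3, 0, 0, 0, 3⟩]),
    (222, [⟨0, 0, 0, 0, 1⟩]),
    (223, [⟨3, 0, 0, 0, 3⟩])]⟩,
   [(208, ⟨2, 0, 0, 0, 5⟩, ⟨3, 0, 0, 0, 3⟩), (214, ⟨2, 0, 0, 0, 4⟩, ⟨3, 0, 0, 0, 2⟩)]⟩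

/-- Claim rL2bM. -/
def c12 : Claim :=
  ⟨⟨⟨0, 0, 0, 0, 1⟩, ⟨3, 0, 0, 0, 9⟩, ⟨0, 0, 0, 0, 0⟩, ⟨0, 0, 0, 0, 0⟩, ⟨⟨0, 0, 0, 0, 8⟩, ⟨0, 1, 0, 0, 0⟩, ⟨0, 0, 0, 0, 0⟩, ⟨0, 0, 0, 0, 0⟩⟩⟩,
   [2, 76, 77, 70, 71],
   [1, 5, 6, 7, 14, 15, 16, 22],
   ⟨4, w13, [⟨3, 0, 0, 0, 4⟩], [⟨6, 0, 0, 0, 11⟩],
    [(1, [⟨3, 0, 0, 0, 5⟩]),
    (2, [⟨6, -1, 0, 0, 11⟩]),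
    (3, [⟨6, -1, 0, 0, 12⟩]),
    (5, [⟨3, 0, 0, 0, 7⟩]),
    (70, [⟨6, -1, 0, 0, 10⟩]),
    (71, [⟨3, 0, 0, 0, 6⟩, ⟨3, -1, 0, 0, 8⟩]),
    (76, [⟨3, -1, 0, 0, 6⟩]),
    (77, [⟨6, -1, 0, 0, 10⟩]),
    (81, [⟨6, -1, 0, 0, 11⟩])],
    [(1, [⟨3, 0, 0, 0, 5⟩]),
    (5, [⟨3, 0, 0, 0, 7⟩]),
    (70, [⟨6, 0, 0, 0, 10⟩]),
    (71, [⟨3, 0, 0, 0, 8⟩]),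
    (76, [⟨3, 0, 0, 0, 6⟩]),
    (77, [⟨6, 0, 0, 0, 10⟩]),
    (81, [⟨6, 0, 0, 0, 10⟩])]⟩,
   ⟨3, w16, [⟨0, 0, 0, 0, 0⟩], [⟨4, 0, 0, 0, 6⟩],
    [(1, [⟨3, 0, 0, 0, 6⟩]),
    (76, [⟨3, 0, 0, 0, 5⟩]),
    (77, [⟨0, 0, 0, 0, 1⟩]),
    (81, [⟨0, 0, 0, 0, 1⟩])],
    [(1, [⟨3, 0, 0, 0, 7⟩]),
    (2, [⟨0, 0, 0, 0, 1⟩]),
    (3, [⟨0, 0, 0, 0, 0⟩]),
    (5, [⟨3, 0, 0, 0, 5⟩]),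
    (70, [⟨0, 0, 0, 0, 2⟩]),
    (71, [⟨3, 0, 0, 0, 4⟩]),
    (76, [⟨3, 0, 0, 0, 6⟩]),
    (77, [⟨0, 0, 0, 0, 2⟩]),
    (81, [⟨0, 0, 0, 0, 2⟩])]⟩,
   []⟩

/-- Claim rL2bD. -/
def c13 : Claim :=
  ⟨⟨⟨0, 0, 0, 0, 1⟩, ⟨3, 0, 0, 0, 9⟩, ⟨0, 0, 0, 0, 0⟩, ⟨0, 0, 0, 0, 0⟩, ⟨⟨0, 0, 0, 0, 8⟩, ⟨0, 1, 0, 0, 0⟩, ⟨0, 0, 0, 0, 0⟩, ⟨0, 0, 0, 0, 0⟩⟩⟩,
   [2, 8, 80, 81, 78, 79, 70, 71],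
   [1, 5, 6, 7, 16, 17, 18, 19, 20, 21, 22, 23],
   ⟨4, w13, [⟨3, 0, 0, 0, 4⟩], [⟨6, 0, 0, 0, 11⟩],
    [(1, [⟨3, 0, 0, 0, 5⟩]),
    (2, [⟨6, -1, 0, 0, 11⟩]),
    (3, [⟨6, -1, 0, 0, 12⟩]),
    (5, [⟨3, 0, 0, 0, 7⟩]),
    (8, [⟨4, -1, 0, 0, 3⟩]),
    (70, [⟨6, -1, 0, 0, 10⟩]),
    (71, [⟨3, 0, 0, 0, 6⟩, ⟨3, -1, 0, 0, 8⟩]),
    (77, [⟨6, -1, 0, 0, 11⟩]),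
    (79, [⟨4, -1, 0, 0, 2⟩]),
    (80, [⟨4, -1, 0, 0, 4⟩]),
    (81, [⟨6, -1, 0, 0, 10⟩]),
    (82, [⟨4, -1, 0, 0, 3⟩])],
    [(1, [⟨3, 0, 0, 0, 5⟩]),
    (5, [⟨3, 0, 0, 0, 7⟩]),
    (8, [⟨4, 0, 0, 0, 3⟩]),
    (70, [⟨6, 0, 0, 0, 10⟩]),
    (71, [⟨3, 0, 0, 0, 8⟩]),
    (77, [⟨6, 0, 0, 0, 10⟩]),
    (78, [⟨3, 0, 0, 0, 4⟩]),
    (79, [⟨4, 0, 0, 0, 2⟩]),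
    (80, [⟨4, 0, 0, 0, 4⟩]),
    (81, [⟨6, 0, 0, 0, 10⟩]),
    (82, [⟨4, 0, 0, 0, 2⟩])]⟩,
   ⟨3, w17, [⟨0, 0, 0, 0, 0⟩], [⟨4, 0, 0, 0, 8⟩],
    [(1, [⟨3, 0, 0, 0, 8⟩]),
    (8, [⟨2, 0, 0, 0, 8⟩]),
    (77, [⟨0, 0, 0, 0, 1⟩]),
    (78, [⟨3, 0, 0, 0, 7⟩]),
    (79, [⟨2, 0, 0, 0, 9⟩]),
    (80, [⟨2, 0, 0, 0, 7⟩]),
    (81, [⟨0, 0, 0, 0, 1⟩]),
    (82, [⟨2, 0, 0, 0, 8⟩])],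
    [(1, [⟨3, 0, 0, 0, 9⟩]),
    (2, [⟨0, 0, 0, 0, 1⟩]),
    (3, [⟨0, 0, 0, 0, 0⟩]),
    (5, [⟨3, 0, 0, 0, 5⟩]),
    (8, [⟨2, 0, 0, 0, 9⟩]),
    (70, [⟨0, 0, 0, 0, 2⟩]),
    (71, [⟨3, 0, 0, 0, 4⟩]),
    (77, [⟨0, 0, 0, 0, 2⟩]),
    (78, [⟨3, 0, 0, 0, 8⟩]),
    (79, [⟨2, 0, 0, 0, 10⟩]),
    (80, [⟨2, 0, 0, 0, 8⟩]),
    (81, [⟨0, 0, 0, 0, 2⟩]),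
    (82, [⟨2, 0, 0, 0, 10⟩])]⟩,
   []⟩

/-- Claim rL2bE. -/
def c14 : Claim :=
  ⟨⟨⟨0, 0, 0, 0, 1⟩, ⟨3, 0, 0, 0, 9⟩, ⟨0, 0, 0, 0, 0⟩, ⟨0, 0, 0, 0, 0⟩, ⟨⟨0, 0, 0, 0, 8⟩, ⟨0, 1, 0, 0, 0⟩, ⟨0, 0, 0, 0, 1⟩, ⟨0, 0, 0, 0, 0⟩⟩⟩,
   [82, 83],
   [23, 24, 25],
   ⟨4, w13, [⟨0, 0, 0, 0, 0⟩], [⟨6, 0, 0, 0, 11⟩],
    [(8, [⟨3, 0, 0, 0, 4⟩, ⟨4, -1, 0, 0, 3⟩]),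
    (9, [⟨2, 0, 0, 0, 3⟩, ⟨3, -1, 0, 0, 2⟩]),
    (82, [⟨3, 0, 0, 0, 3⟩, ⟨4, -1, 0, 0, 2⟩]),
    (83, [⟨2, 0, 0, 0, 4⟩, ⟨3, -1, 0, 0, 3⟩])],
    [(8, [⟨4, 0, 0, 0, 3⟩]),
    (9, [⟨3, 0, 0, 0, 2⟩]),
    (82, [⟨4, 0, 0, 0, 2⟩]),
    (83, [⟨3, 0, 0, 0, 3⟩])]⟩,
   ⟨3, w18, [⟨0, 0, 0, 0, 0⟩], [⟨3, 0, 0, 0, 9⟩],
    [(8, [⟨2, 0, 0, 0, 8⟩]),
    (9, [⟨3, 0, 0, 0, 8⟩]),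
    (82, [⟨2, 0, 0, 0, 8⟩]),
    (83, [⟨3, 0, 0, 0, 7⟩])],
    [(8, [⟨2, 0, 0, 0, 9⟩]),
    (9, [⟨3, 0, 0, 0, 8⟩]),
    (82, [⟨2, 0, 0, 0, 10⟩])]⟩,
   []⟩

/-- Claim rL2aM. -/
def c15 : Claim :=
  ⟨⟨⟨0, 0, 0, 0, 1⟩, ⟨3, 0, 0, 0, 4⟩, ⟨0, 0, 0, 0, 0⟩, ⟨0, 0, 0, 0, 0⟩, ⟨⟨0, 0, 0, 0, 9⟩, ⟨0, 1, 0, 0, 0⟩, ⟨0, 0, 0, 0, 0⟩, ⟨0, 0, 0, 0, 0⟩⟩⟩,
   [2, 76, 77, 70, 71],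
   [1, 5, 6, 7, 14, 15, 16, 22],
   ⟨129, w19, [⟨6, -1, 0, 0, 6⟩], [⟨6, 0, 0, 0, 9⟩],
    [(1, [⟨6, 0, 0, 0, 8⟩]),
    (5, [⟨6, 0, 0, 0, 6⟩]),
    (70, [⟨3, 0, 0, 0, 3⟩]),
    (71, [⟨6, 0, 0, 0, 5⟩]),
    (76, [⟨6, 0, 0, 0, 7⟩]),
    (77, [⟨3, 0, 0, 0, 3⟩]),
    (81, [⟨6, -1, 0, 0, 7⟩])],
    [(1, [⟨6, 0, 0, 0, 8⟩]),
    (5, [⟨6, 0, 0, 0, 6⟩]),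
    (71, [⟨6, 0, 0, 0, 7⟩])]⟩,
   ⟨3, w16, [⟨0, 0, 0, 0, 0⟩], [⟨4, 0, 0, 0, 6⟩],
    [(1, [⟨3, 0, 0, 0, 6⟩]),
    (76, [⟨3, 0, 0, 0, 5⟩]),
    (77, [⟨0, 0, 0, 0, 1⟩]),
    (81, [⟨0, 0, 0, 0, 1⟩])],
    [(1, [⟨3, 0, 0, 0, 7⟩]),
    (2, [⟨0, 0, 0, 0, 1⟩]),
    (3, [⟨0, 0, 0, 0, 0⟩]),
    (5, [⟨3, 0, 0, 0, 5⟩]),
    (70, [⟨0, 0, 0, 0, 2⟩]),
    (71, [⟨3, 0, 0, 0, 4⟩]),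
    (76, [⟨3, 0, 0, 0, 6⟩]),
    (77, [⟨0, 0, 0, 0, 2⟩]),
    (81, [⟨0, 0, 0, 0, 2⟩])]⟩,
   []⟩

/-- Claim rL2aD. -/
def c16 : Claim :=
  ⟨⟨⟨0, 0, 0, 0, 1⟩, ⟨3, 0, 0, 0, 4⟩, ⟨0, 0, 0, 0, 0⟩, ⟨0, 0, 0, 0, 0⟩, ⟨⟨0, 0, 0, 0, 9⟩, ⟨0, 1, 0, 0, 0⟩, ⟨0, 0, 0, 0, 0⟩, ⟨0, 0, 0, 0, 0⟩⟩⟩,
   [2, 8, 80, 81, 78, 79, 70, 71],
   [1, 5, 6, 7, 16, 17, 18, 19, 20, 21, 22, 23],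
   ⟨129, w19, [⟨6, -1, 0, 0, 6⟩], [⟨6, 0, 0, 0, 9⟩],
    [(1, [⟨6, 0, 0, 0, 8⟩]),
    (5, [⟨6, 0, 0, 0, 6⟩]),
    (8, [⟨5, 0, 0, 0, 10⟩]),
    (70, [⟨3, 0, 0, 0, 3⟩]),
    (71, [⟨6, 0, 0, 0, 5⟩]),
    (77, [⟨6, -1, 0, 0, 7⟩]),
    (78, [⟨6, 0, 0, 0, 9⟩]),
    (79, [⟨5, 0, 0, 0, 11⟩]),
    (80, [⟨5, 0, 0, 0, 9⟩]),
    (81, [⟨3, 0, 0, 0, 3⟩]),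
    (82, [⟨5, 0, 0, 0, 11⟩, ⟨6, -1, 0, 0, 7⟩])],
    [(1, [⟨6, 0, 0, 0, 8⟩]),
    (5, [⟨6, 0, 0, 0, 6⟩]),
    (71, [⟨6, 0, 0, 0, 7⟩])]⟩,
   ⟨3, w17, [⟨0, 0, 0, 0, 0⟩], [⟨4, 0, 0, 0, 8⟩],
    [(1, [⟨3, 0, 0, 0, 8⟩]),
    (8, [⟨2, 0, 0, 0, 8⟩]),
    (77, [⟨0, 0, 0, 0, 1⟩]),
    (78, [⟨3, 0, 0, 0, 7⟩]),
    (79, [⟨2, 0, 0, 0, 9⟩]),
    (80, [⟨2, 0, 0, 0, 7⟩]),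
    (81, [⟨0, 0, 0, 0, 1⟩]),
    (82, [⟨2, 0, 0, 0, 8⟩])],
    [(1, [⟨3, 0, 0, 0, 9⟩]),
    (2, [⟨0, 0, 0, 0, 1⟩]),
    (3, [⟨0, 0, 0, 0, 0⟩]),
    (5, [⟨3, 0, 0, 0, 5⟩]),
    (8, [⟨2, 0, 0, 0, 9⟩]),
    (70, [⟨0, 0, 0, 0, 2⟩]),
    (71, [⟨3, 0, 0, 0, 4⟩]),
    (77, [⟨0, 0, 0, 0, 2⟩]),
    (78, [⟨3, 0, 0, 0, 8⟩]),
    (79, [⟨2, 0, 0, 0, 10⟩]),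
    (80, [⟨2, 0, 0, 0, 8⟩]),
    (81, [⟨0, 0, 0, 0, 2⟩]),
    (82, [⟨2, 0, 0, 0, 10⟩])]⟩,
   []⟩

/-- Claim rL2aE. -/
def c17 : Claim :=
  ⟨⟨⟨0, 0, 0, 0, 1⟩, ⟨3, 0, 0, 0, 4⟩, ⟨0, 0, 0, 0, 0⟩, ⟨0, 0, 0, 0, 0⟩, ⟨⟨0, 0, 0, 0, 9⟩, ⟨0, 1, 0, 0, 0⟩, ⟨0, 0, 0, 0, 0⟩, ⟨0, 0, 0, 0, 0⟩⟩⟩,
   [82, 83],
   [23, 24, 25],
   ⟨129, w19, [⟨6, -1, 0, 0, 6⟩], [⟨9, 0, 0, 0, 13⟩],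
    [(8, [⟨5, 0, 0, 0, 10⟩, ⟨6, -1, 0, 0, 7⟩]),
    (9, [⟨6, 0, 0, 0, 11⟩]),
    (82, [⟨5, 0, 0, 0, 11⟩]),
    (83, [⟨6, 0, 0, 0, 10⟩])],
    [(8, [⟨6, 0, 0, 0, 9⟩]),
    (9, [⟨7, 0, 0, 0, 10⟩]),
    (82, [⟨6, 0, 0, 0, 10⟩]),
    (83, [⟨7, 0, 0, 0, 9⟩])]⟩,
   ⟨3, w18, [⟨0, 0, 0, 0, 0⟩], [⟨3, 0, 0, 0, 9⟩],
    [(8, [⟨2, 0, 0, 0, 8⟩]),
    (9, [⟨3, 0, 0, 0, 8⟩]),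
    (82, [⟨2, 0, 0, 0, 8⟩]),
    (83, [⟨3, 0, 0, 0, 7⟩])],
    [(8, [⟨2, 0, 0, 0, 9⟩]),
    (9, [⟨3, 0, 0, 0, 8⟩]),
    (82, [⟨2, 0, 0, 0, 10⟩])]⟩,
   []⟩

/-- Claim rZ2p. -/
def c18 : Claim :=
  ⟨⟨⟨0, 0, 0, 0, 0⟩, ⟨0, 0, 0, 0, 0⟩, ⟨0, 0, 0, 0, 0⟩, ⟨0, 0, 0, 0, 0⟩, ⟨⟨0, 0, 0, 0, 10⟩, ⟨0, 0, 0, 0, 0⟩, ⟨0, 0, 0, 0, 0⟩, ⟨0, 0, 0, 0, 0⟩⟩⟩,
   [8, 2, 3, 78, 79, 80, 81, 82, 83, 70, 71, 74, 75, 90, 77],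
   [1, 5, 6, 7, 11, 12, 13, 15, 16, 17, 18, 19, 20, 21, 22, 23, 24, 25, 35, 36],
   ⟨6, w20, [⟨0, 0, 0, 0, 0⟩], [⟨4, 0, 0, 0, 9⟩],
    [(2, [⟨2, 0, 0, 0, 9⟩]),
    (3, [⟨2, 0, 0, 0, 9⟩]),
    (7, [⟨3, 0, 0, 0, 9⟩]),
    (8, [⟨0, 0, 0, 0, 1⟩]),
    (9, [⟨1, 0, 0, 0, 1⟩]),
    (70, [⟨2, 0, 0, 0, 8⟩]),
    (74, [⟨2, 0, 0, 0, 10⟩]),
    (75, [⟨3, 0, 0, 0, 8⟩]),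
    (76, [⟨5, 0, 0, 0, 14⟩]),
    (77, [⟨2, 0, 0, 0, 10⟩]),
    (80, [⟨0, 0, 0, 0, 2⟩]),
    (81, [⟨2, 0, 0, 0, 8⟩]),
    (82, [⟨0, 0, 0, 0, 1⟩]),
    (83, [⟨1, 0, 0, 0, 0⟩]),
    (90, [⟨2, 0, 0, 0, 10⟩]),
    (91, [⟨3, 0, 0, 0, 10⟩])],
    [(1, [⟨1, 0, 0, 0, 0⟩]),
    (2, [⟨4, 0, 0, 0, 8⟩]),
    (7, [⟨3, 0, 0, 0, 9⟩]),
    (8, [⟨2, 0, 0, 0, 0⟩]),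
    (9, [⟨1, 0, 0, 0, 1⟩]),
    (74, [⟨4, 0, 0, 0, 8⟩]),
    (75, [⟨3, 0, 0, 0, 10⟩]),
    (76, [⟨1, 0, 0, 0, 4⟩]),
    (77, [⟨4, 0, 0, 0, 8⟩]),
    (78, [⟨1, 0, 0, 0, 1⟩]),
    (79, [⟨2, 0, 0, 0, -1⟩]),
    (80, [⟨2, 0, 0, 0, 1⟩]),
    (81, [⟨4, 0, 0, 0, 7⟩]),
    (82, [⟨2, 0, 0, 0, 1⟩]),
    (83, [⟨1, 0, 0, 0, 2⟩])]⟩,
   ⟨4, w6, [⟨0, 0, 0, 0, 0⟩], [⟨12, 0, 0, 0, 17⟩],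
    [(1, [⟨3, 0, 0, 0, 5⟩]),
    (2, [⟨6, 0, 0, 0, 11⟩]),
    (3, [⟨6, 0, 0, 0, 12⟩]),
    (5, [⟨3, 0, 0, 0, 7⟩]),
    (7, [⟨5, 0, 0, 0, 12⟩]),
    (8, [⟨4, 0, 0, 0, 3⟩]),
    (9, [⟨3, 0, 0, 0, 2⟩]),
    (70, [⟨6, 0, 0, 0, 10⟩]),
    (71, [⟨3, 0, 0, 0, 8⟩]),
    (74, [⟨6, 0, 0, 0, 11⟩]),
    (75, [⟨5, 0, 0, 0, 13⟩]),
    (76, [⟨3, 0, 0, 0, 6⟩]),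
    (77, [⟨6, 0, 0, 0, 10⟩]),
    (78, [⟨3, 0, 0, 0, 4⟩]),
    (79, [⟨4, 0, 0, 0, 2⟩]),
    (80, [⟨4, 0, 0, 0, 4⟩]),
    (81, [⟨6, 0, 0, 0, 10⟩]),
    (82, [⟨4, 0, 0, 0, 2⟩]),
    (83, [⟨3, 0, 0, 0, 3⟩]),
    (90, [⟨6, 0, 0, 0, 13⟩]),
    (91, [⟨7, 0, 0, 0, 13⟩])],
    [(1, [⟨3, 0, 0, 0, 5⟩]),
    (2, [⟨6, 0, 0, 0, 11⟩]),
    (3, [⟨6, 0, 0, 0, 12⟩]),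
    (5, [⟨3, 0, 0, 0, 7⟩]),
    (7, [⟨5, 0, 0, 0, 12⟩]),
    (8, [⟨4, 0, 0, 0, 3⟩]),
    (9, [⟨3, 0, 0, 0, 2⟩]),
    (70, [⟨6, 0, 0, 0, 10⟩]),
    (71, [⟨3, 0, 0, 0, 8⟩]),
    (74, [⟨6, 0, 0, 0, 11⟩]),
    (75, [⟨5, 0, 0, 0, 13⟩]),
    (76, [⟨3, 0, 0, 0, 6⟩]),
    (77, [⟨6, 0, 0, 0, 10⟩]),
    (78, [⟨3, 0, 0, 0, 4⟩]),
    (79, [⟨4, 0, 0, 0, 2⟩]),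
    (80, [⟨4, 0, 0, 0, 4⟩]),
    (81, [⟨6, 0, 0, 0, 10⟩]),
    (82, [⟨4, 0, 0, 0, 2⟩]),
    (83, [⟨3, 0, 0, 0, 3⟩]),
    (90, [⟨6, 0, 0, 0, 13⟩]),
    (91, [⟨7, 0, 0, 0, 13⟩])]⟩,
   [(15, ⟨2, 0, 0, 0, 5⟩, ⟨3, 0, 0, 0, 4⟩)]⟩

/-- Claim rZ2L. -/
def c19 : Claim :=
  ⟨⟨⟨0, 0, 0, 0, 0⟩, ⟨0, 0, 0, 0, 0⟩, ⟨0, 0, 0, 0, 0⟩, ⟨0, 0, 0, 0, 0⟩, ⟨⟨0, 0, 0, 0, 11⟩, ⟨0, 0, 0, 0, 0⟩, ⟨0, 0, 0, 0, 0⟩, ⟨0, 0, 0, 0, 0⟩⟩⟩,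
   [8, 2, 3, 78, 79, 80, 81, 70, 71, 74, 75, 90, 77],
   [1, 5, 6, 7, 11, 12, 13, 15, 16, 17, 18, 19, 20, 21, 22, 35, 36],
   ⟨6, w21, [⟨0, 0, 0, 0, 0⟩], [⟨4, 0, 0, 0, 8⟩],
    [(2, [⟨2, 0, 0, 0, 8⟩]),
    (3, [⟨2, 0, 0, 0, 8⟩]),
    (7, [⟨3, 0, 0, 0, 8⟩]),
    (70, [⟨2, 0, 0, 0, 7⟩]),
    (74, [⟨2, 0, 0, 0, 9⟩]),
    (75, [⟨3, 0, 0, 0, 7⟩]),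
    (76, [⟨5, 0, 0, 0, 13⟩]),
    (77, [⟨2, 0, 0, 0, 9⟩]),
    (80, [⟨0, 0, 0, 0, 1⟩]),
    (81, [⟨2, 0, 0, 0, 7⟩]),
    (90, [⟨2, 0, 0, 0, 9⟩]),
    (91, [⟨3, 0, 0, 0, 9⟩])],
    [(1, [⟨1, 0, 0, 0, 0⟩]),
    (7, [⟨3, 0, 0, 0, 8⟩]),
    (8, [⟨2, 0, 0, 0, 0⟩]),
    (74, [⟨4, 0, 0, 0, 7⟩]),
    (75, [⟨3, 0, 0, 0, 9⟩]),
    (76, [⟨1, 0, 0, 0, 3⟩]),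
    (77, [⟨4, 0, 0, 0, 7⟩]),
    (78, [⟨1, 0, 0, 0, 1⟩]),
    (79, [⟨2, 0, 0, 0, -1⟩]),
    (80, [⟨2, 0, 0, 0, 1⟩]),
    (81, [⟨4, 0, 0, 0, 7⟩])]⟩,
   ⟨4, w6, [⟨0, 0, 0, 0, 0⟩], [⟨12, 0, 0, 0, 17⟩],
    [(1, [⟨3, 0, 0, 0, 5⟩]),
    (2, [⟨6, 0, 0, 0, 11⟩]),
    (3, [⟨6, 0, 0, 0, 12⟩]),
    (5, [⟨3, 0, 0, 0, 7⟩]),
    (7, [⟨5, 0, 0, 0, 12⟩]),
    (8, [⟨4, 0, 0, 0, 3⟩]),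
    (70, [⟨6, 0, 0, 0, 10⟩]),
    (71, [⟨3, 0, 0, 0, 8⟩]),
    (74, [⟨6, 0, 0, 0, 11⟩]),
    (75, [⟨5, 0, 0, 0, 13⟩]),
    (76, [⟨3, 0, 0, 0, 6⟩]),
    (77, [⟨6, 0, 0, 0, 10⟩]),
    (78, [⟨3, 0, 0, 0, 4⟩]),
    (79, [⟨4, 0, 0, 0, 2⟩]),
    (80, [⟨4, 0, 0, 0, 4⟩]),
    (81, [⟨6, 0, 0, 0, 10⟩]),
    (90, [⟨6, 0, 0, 0, 13⟩]),
    (91, [⟨7, 0, 0, 0, 13⟩])],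
    [(1, [⟨3, 0, 0, 0, 5⟩]),
    (2, [⟨6, 0, 0, 0, 11⟩]),
    (3, [⟨6, 0, 0, 0, 12⟩]),
    (5, [⟨3, 0, 0, 0, 7⟩]),
    (7, [⟨5, 0, 0, 0, 12⟩]),
    (8, [⟨4, 0, 0, 0, 3⟩]),
    (70, [⟨6, 0, 0, 0, 10⟩]),
    (71, [⟨3, 0, 0, 0, 8⟩]),
    (74, [⟨6, 0, 0, 0, 11⟩]),
    (75, [⟨5, 0, 0, 0, 13⟩]),
    (76, [⟨3, 0, 0, 0, 6⟩]),
    (77, [⟨6, 0, 0, 0, 10⟩]),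
    (78, [⟨3, 0, 0, 0, 4⟩]),
    (79, [⟨4, 0, 0, 0, 2⟩]),
    (80, [⟨4, 0, 0, 0, 4⟩]),
    (81, [⟨6, 0, 0, 0, 10⟩]),
    (90, [⟨6, 0, 0, 0, 13⟩]),
    (91, [⟨7, 0, 0, 0, 13⟩])]⟩,
   [(15, ⟨2, 0, 0, 0, 5⟩, ⟨3, 0, 0, 0, 4⟩)]⟩

/-- Claim rZ2S. -/
def c20 : Claim :=
  ⟨⟨⟨0, 0, 0, 0, 0⟩, ⟨0, 0, 0, 0, 0⟩, ⟨0, 0, 0, 0, 0⟩, ⟨0, 0, 0, 0, 0⟩, ⟨⟨0, 0, 0, 0, 11⟩, ⟨0, 0, 0, 0, 0⟩, ⟨0, 0, 0, 0, 0⟩, ⟨0, 0, 0, 0, 0⟩⟩⟩,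
   [2, 3, 76, 77, 70, 71, 74, 75, 90, 81],
   [1, 5, 6, 7, 11, 12, 13, 14, 15, 16, 21, 22, 35, 36],
   ⟨6, w22, [⟨0, 0, 0, 0, 0⟩], [⟨4, 0, 0, 0, 6⟩],
    [(2, [⟨2, 0, 0, 0, 6⟩]),
    (3, [⟨2, 0, 0, 0, 6⟩]),
    (7, [⟨3, 0, 0, 0, 6⟩]),
    (70, [⟨2, 0, 0, 0, 5⟩]),
    (74, [⟨2, 0, 0, 0, 7⟩]),
    (75, [⟨3, 0, 0, 0, 5⟩]),
    (77, [⟨2, 0, 0, 0, 5⟩]),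
    (80, [⟨4, 0, 0, 0, 13⟩]),
    (81, [⟨2, 0, 0, 0, 7⟩]),
    (90, [⟨2, 0, 0, 0, 7⟩]),
    (91, [⟨3, 0, 0, 0, 7⟩])],
    [(1, [⟨1, 0, 0, 0, 0⟩]),
    (7, [⟨3, 0, 0, 0, 6⟩]),
    (74, [⟨4, 0, 0, 0, 5⟩]),
    (75, [⟨3, 0, 0, 0, 7⟩]),
    (76, [⟨1, 0, 0, 0, 1⟩]),
    (77, [⟨4, 0, 0, 0, 5⟩]),
    (80, [⟨2, 0, 0, 0, -1⟩]),
    (81, [⟨4, 0, 0, 0, 5⟩])]⟩,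
   ⟨4, w6, [⟨0, 0, 0, 0, 0⟩], [⟨12, 0, 0, 0, 17⟩],
    [(1, [⟨3, 0, 0, 0, 5⟩]),
    (2, [⟨6, 0, 0, 0, 11⟩]),
    (3, [⟨6, 0, 0, 0, 12⟩]),
    (5, [⟨3, 0, 0, 0, 7⟩]),
    (7, [⟨5, 0, 0, 0, 12⟩]),
    (70, [⟨6, 0, 0, 0, 10⟩]),
    (71, [⟨3, 0, 0, 0, 8⟩]),
    (74, [⟨6, 0, 0, 0, 11⟩]),
    (75, [⟨5, 0, 0, 0, 13⟩]),
    (76, [⟨3, 0, 0, 0, 6⟩]),
    (77, [⟨6, 0, 0, 0, 10⟩]),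
    (80, [⟨4, 0, 0, 0, 4⟩]),
    (81, [⟨6, 0, 0, 0, 10⟩]),
    (90, [⟨6, 0, 0, 0, 13⟩]),
    (91, [⟨7, 0, 0, 0, 13⟩])],
    [(1, [⟨3, 0, 0, 0, 5⟩]),
    (2, [⟨6, 0, 0, 0, 11⟩]),
    (3, [⟨6, 0, 0, 0, 12⟩]),
    (5, [⟨3, 0, 0, 0, 7⟩]),
    (7, [⟨5, 0, 0, 0, 12⟩]),
    (70, [⟨6, 0, 0, 0, 10⟩]),
    (71, [⟨3, 0, 0, 0, 8⟩]),
    (74, [⟨6, 0, 0, 0, 11⟩]),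
    (75, [⟨5, 0, 0, 0, 13⟩]),
    (76, [⟨3, 0, 0, 0, 6⟩]),
    (77, [⟨6, 0, 0, 0, 10⟩]),
    (80, [⟨4, 0, 0, 0, 4⟩]),
    (81, [⟨6, 0, 0, 0, 10⟩]),
    (90, [⟨6, 0, 0, 0, 13⟩]),
    (91, [⟨7, 0, 0, 0, 13⟩])]⟩,
   [(21, ⟨1, 0, 0, 0, 7⟩, ⟨2, 0, 0, 0, 6⟩)]⟩

/-- Claim rZ2F. -/
def c21 : Claim :=
  ⟨⟨⟨0, 0, 0, 0, 0⟩, ⟨0, 0, 0, 0, 0⟩, ⟨0, 0, 0, 0, 0⟩, ⟨0, 0, 0, 0, 0⟩, ⟨⟨0, 0, 0, 0, 11⟩, ⟨0, 0, 0, 0, 0⟩, ⟨0, 0, 0, 0, 0⟩, ⟨0, 0, 0, 0, 0⟩⟩⟩,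
   [2, 3, 12, 70, 71, 74, 75, 90, 91, 92, 93, 94, 95, 96, 77, 81],
   [1, 5, 6, 7, 11, 12, 13, 15, 16, 21, 22, 35, 36, 37, 38, 39, 40, 41, 42, 43, 44],
   ⟨126, w7, [⟨0, 0, 0, 0, 0⟩], [⟨8, 0, 0, 0, 6⟩],
    [(2, [⟨6, 0, 0, 0, 6⟩]),
    (3, [⟨6, 0, 0, 0, 6⟩]),
    (5, [⟨3, 0, 0, 0, 2⟩]),
    (7, [⟨7, 0, 0, 0, 6⟩]),
    (12, [⟨3, 0, 0, 0, 6⟩]),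
    (13, [⟨3, 0, 0, 0, 5⟩]),
    (70, [⟨6, 0, 0, 0, 5⟩]),
    (71, [⟨3, 0, 0, 0, 3⟩]),
    (74, [⟨6, 0, 0, 0, 7⟩]),
    (75, [⟨7, 0, 0, 0, 5⟩]),
    (76, [⟨9, 0, 0, 0, 11⟩]),
    (77, [⟨6, 0, 0, 0, 7⟩]),
    (80, [⟨8, 0, 0, 0, 13⟩]),
    (81, [⟨6, 0, 0, 0, 7⟩]),
    (90, [⟨6, 0, 0, 0, 5⟩]),
    (91, [⟨5, 0, 0, 0, 5⟩]),
    (92, [⟨3, 0, 0, 0, 7⟩]),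
    (93, [⟨3, 0, 0, 0, 5⟩]),
    (94, [⟨0, 0, 0, 0, 2⟩]),
    (95, [⟨3, 0, 0, 0, 5⟩]),
    (96, [⟨3, 0, 0, 0, 4⟩]),
    (125, [⟨0, 0, 0, 0, 1⟩])],
    [(7, [⟨7, 0, 0, 0, 6⟩]),
    (13, [⟨7, 0, 0, 0, 6⟩]),
    (74, [⟨8, 0, 0, 0, 5⟩]),
    (75, [⟨7, 0, 0, 0, 7⟩]),
    (76, [⟨5, 0, 0, 0, 1⟩]),
    (77, [⟨8, 0, 0, 0, 5⟩]),
    (80, [⟨6, 0, 0, 0, -1⟩]),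
    (81, [⟨8, 0, 0, 0, 5⟩]),
    (96, [⟨7, 0, 0, 0, 7⟩])]⟩,
   ⟨4, w6, [⟨0, 0, 0, 0, 0⟩], [⟨12, 0, 0, 0, 17⟩],
    [(2, [⟨6, 0, 0, 0, 11⟩]),
    (3, [⟨6, 0, 0, 0, 12⟩]),
    (5, [⟨3, 0, 0, 0, 7⟩]),
    (7, [⟨5, 0, 0, 0, 12⟩]),
    (12, [⟨9, 0, 0, 0, 12⟩]),
    (13, [⟨9, 0, 0, 0, 13⟩]),
    (70, [⟨6, 0, 0, 0, 10⟩]),
    (71, [⟨3, 0, 0, 0, 8⟩]),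
    (74, [⟨6, 0, 0, 0, 11⟩]),
    (75, [⟨5, 0, 0, 0, 13⟩]),
    (76, [⟨3, 0, 0, 0, 6⟩]),
    (77, [⟨6, 0, 0, 0, 10⟩]),
    (80, [⟨4, 0, 0, 0, 4⟩]),
    (81, [⟨6, 0, 0, 0, 10⟩]),
    (90, [⟨6, 0, 0, 0, 13⟩]),
    (91, [⟨7, 0, 0, 0, 13⟩]),
    (92, [⟨9, 0, 0, 0, 11⟩]),
    (93, [⟨9, 0, 0, 0, 13⟩]),
    (94, [⟨12, 0, 0, 0, 16⟩]),
    (95, [⟨9, 0, 0, 0, 12⟩]),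
    (96, [⟨9, 0, 0, 0, 12⟩]),
    (125, [⟨12, 0, 0, 0, 17⟩])],
    [(2, [⟨6, 0, 0, 0, 11⟩]),
    (3, [⟨6, 0, 0, 0, 12⟩]),
    (5, [⟨3, 0, 0, 0, 7⟩]),
    (7, [⟨5, 0, 0, 0, 12⟩]),
    (12, [⟨9, 0, 0, 0, 12⟩]),
    (13, [⟨9, 0, 0, 0, 13⟩]),
    (70, [⟨6, 0, 0, 0, 10⟩]),
    (71, [⟨3, 0, 0, 0, 8⟩]),
    (74, [⟨6, 0, 0, 0, 11⟩]),
    (75, [⟨5, 0, 0, 0, 13⟩]),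
    (76, [⟨3, 0, 0, 0, 6⟩]),
    (77, [⟨6, 0, 0, 0, 10⟩]),
    (80, [⟨4, 0, 0, 0, 4⟩]),
    (81, [⟨6, 0, 0, 0, 10⟩]),
    (90, [⟨6, 0, 0, 0, 13⟩]),
    (91, [⟨7, 0, 0, 0, 13⟩]),
    (92, [⟨9, 0, 0, 0, 11⟩]),
    (93, [⟨9, 0, 0, 0, 13⟩]),
    (94, [⟨12, 0, 0, 0, 16⟩]),
    (95, [⟨9, 0, 0, 0, 12⟩]),
    (96, [⟨9, 0, 0, 0, 12⟩])]⟩,
   [(15, ⟨2, 0, 0, 0, 5⟩, ⟨3, 0, 0, 0, 4⟩), (21, ⟨1, 0, 0, 0, 7⟩, ⟨2, 0, 0, 0, 6⟩)]⟩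

/-- Claim rZ2Sc. -/
def c22 : Claim :=
  ⟨⟨⟨0, 0, 0, 0, 0⟩, ⟨0, 0, 0, 0, 0⟩, ⟨0, 0, 0, 0, 0⟩, ⟨0, 0, 0, 0, 0⟩, ⟨⟨0, 0, 0, 0, 12⟩, ⟨0, 0, 0, 0, 0⟩, ⟨0, 0, 0, 0, 0⟩, ⟨0, 0, 0, 0, 0⟩⟩⟩,
   [76],
   [14, 15],
   ⟨21, w23, [⟨0, 0, 0, 0, 0⟩], [⟨4, 0, 0, 0, 6⟩],
    [(76, [⟨0, 0, 0, 0, 1⟩]),
    (77, [⟨3, 0, 0, 0, 5⟩])],
    [(1, [⟨2, 0, 0, 0, 0⟩]),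
    (76, [⟨2, 0, 0, 0, 1⟩])]⟩,
   ⟨4, w6, [⟨0, 0, 0, 0, 0⟩], [⟨12, 0, 0, 0, 17⟩],
    [(1, [⟨3, 0, 0, 0, 5⟩]),
    (76, [⟨3, 0, 0, 0, 6⟩]),
    (77, [⟨6, 0, 0, 0, 10⟩])],
    [(1, [⟨3, 0, 0, 0, 5⟩]),
    (76, [⟨3, 0, 0, 0, 6⟩]),
    (77, [⟨6, 0, 0, 0, 10⟩])]⟩,
   [(15, ⟨0, 0, 0, 0, 0⟩, ⟨2, 0, 0, 0, 5⟩)]⟩

/-- Claim rZ2Lf. -/
def c23 : Claim :=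
  ⟨⟨⟨0, 0, 0, 0, 0⟩, ⟨0, 0, 0, 0, 0⟩, ⟨0, 0, 0, 0, 0⟩, ⟨0, 0, 0, 0, 0⟩, ⟨⟨0, 0, 0, 0, 12⟩, ⟨0, 0, 0, 0, 0⟩, ⟨0, 0, 0, 0, 0⟩, ⟨0, 0, 0, 0, 0⟩⟩⟩,
   [78, 79],
   [17, 18, 19],
   ⟨7, w24, [⟨0, 0, 0, 0, 0⟩], [⟨6, 0, 0, 0, 14⟩],
    [(1, [⟨2, 0, 0, 0, 6⟩]),
    (8, [⟨3, 0, 0, 0, 6⟩]),
    (78, [⟨2, 0, 0, 0, 7⟩]),
    (79, [⟨3, 0, 0, 0, 5⟩])],
    [(1, [⟨4, 0, 0, 0, 6⟩]),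
    (8, [⟨5, 0, 0, 0, 6⟩]),
    (78, [⟨4, 0, 0, 0, 7⟩]),
    (79, [⟨5, 0, 0, 0, 5⟩])]⟩,
   ⟨4, w6, [⟨0, 0, 0, 0, 0⟩], [⟨12, 0, 0, 0, 17⟩],
    [(1, [⟨3, 0, 0, 0, 5⟩]),
    (8, [⟨4, 0, 0, 0, 3⟩]),
    (78, [⟨3, 0, 0, 0, 4⟩]),
    (79, [⟨4, 0, 0, 0, 2⟩])],
    [(1, [⟨3, 0, 0, 0, 5⟩]),
    (8, [⟨4, 0, 0, 0, 3⟩]),
    (78, [⟨3, 0, 0, 0, 4⟩]),
    (79, [⟨4, 0, 0, 0, 2⟩])]⟩,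
   []⟩

/-- Claim rL1b. -/
def c24 : Claim :=
  ⟨⟨⟨0, 0, 0, 0, 0⟩, ⟨0, 0, 0, 0, 0⟩, ⟨0, 0, 0, 0, 0⟩, ⟨0, 0, 0, 0, 0⟩, ⟨⟨0, 0, 0, 0, 13⟩, ⟨0, 0, 0, 0, 0⟩, ⟨0, 0, 0, 0, 0⟩, ⟨0, 0, 0, 0, 0⟩⟩⟩,
   [0, 219, 222, 223, 68, 69],
   [0, 2, 3, 4, 208, 209, 213, 214, 215],
   ⟨5, w9, [⟨0, 0, 0, 0, 0⟩], [⟨6, 0, 0, 0, 11⟩],
    [(0, [⟨0, 0, 0, 0, 3⟩]),
    (1, [⟨0, 0, 0, 0, 2⟩]),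
    (4, [⟨3, 0, 0, 0, 7⟩]),
    (68, [⟨0, 0, 0, 0, 4⟩]),
    (69, [⟨3, 0, 0, 0, 6⟩]),
    (138, [⟨3, 0, 0, 0, 7⟩]),
    (218, [⟨3, 0, 0, 0, 7⟩]),
    (219, [⟨0, 0, 0, 0, 4⟩]),
    (222, [⟨3, 0, 0, 0, 6⟩]),
    (223, [⟨0, 0, 0, 0, 4⟩])],
    [(4, [⟨3, 0, 0, 0, 7⟩]),
    (68, [⟨6, 0, 0, 0, 10⟩]),
    (69, [⟨3, 0, 0, 0, 8⟩]),
    (138, [⟨3, 0, 0, 0, 7⟩]),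
    (218, [⟨3, 0, 0, 0, 7⟩]),
    (219, [⟨6, 0, 0, 0, 10⟩]),
    (222, [⟨3, 0, 0, 0, 8⟩]),
    (223, [⟨6, 0, 0, 0, 10⟩])]⟩,
   ⟨1, w11, [⟨0, 0, 0, 0, 0⟩], [⟨5, 0, 0, 0, 4⟩],
    [(0, [⟨0, 0, 0, 0, 1⟩]),
    (138, [⟨3, 0, 0, 0, 5⟩]),
    (218, [⟨3, 0, 0, 0, 5⟩]),
    (219, [⟨0, 0, 0, 0, 2⟩]),
    (222, [⟨3, 0, 0, 0, 4⟩]),
    (223, [⟨0, 0, 0, 0, 2⟩])],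
    [(0, [⟨0, 0, 0, 0, 1⟩]),
    (1, [⟨0, 0, 0, 0, 0⟩]),
    (4, [⟨3, 0, 0, 0, 5⟩]),
    (68, [⟨0, 0, 0, 0, 2⟩]),
    (69, [⟨3, 0, 0, 0, 4⟩]),
    (138, [⟨3, 0, 0, 0, 5⟩]),
    (218, [⟨3, 0, 0, 0, 5⟩]),
    (219, [⟨0, 0, 0, 0, 2⟩]),
    (222, [⟨3, 0, 0, 0, 4⟩]),
    (223, [⟨0, 0, 0, 0, 2⟩])]⟩,
   []⟩

/-- Claim rZ0. -/
def c25 : Claim :=
  ⟨⟨⟨0, 0, 0, 0, 0⟩, ⟨0, 0, 0, 0, 0⟩, ⟨0, 0, 0, 0, 0⟩, ⟨0, 0, 0, 0, 0⟩, ⟨⟨0, 0, 0, 0, 14⟩, ⟨0, 0, 0, 0, 0⟩, ⟨0, 0, 0, 0, 0⟩, ⟨0, 0, 0, 0, 0⟩⟩⟩,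
   [0, 1, 219, 222, 223, 68, 69, 72, 73, 76, 77, 78, 79],
   [0, 2, 3, 4, 8, 9, 10, 14, 15, 16, 17, 18, 19, 208, 209, 213, 214, 215],
   ⟨132, w25, [⟨0, 0, 0, 0, 0⟩], [⟨7, 0, 0, 0, 6⟩],
    [(0, [⟨5, 0, 0, 0, 5⟩]),
    (1, [⟨5, 0, 0, 0, 6⟩]),
    (2, [⟨2, 0, 0, 0, 0⟩]),
    (4, [⟨2, 0, 0, 0, 1⟩]),
    (6, [⟨6, 0, 0, 0, 6⟩]),
    (8, [⟨6, 0, 0, 0, 6⟩]),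
    (68, [⟨5, 0, 0, 0, 4⟩]),
    (69, [⟨2, 0, 0, 0, 2⟩]),
    (72, [⟨5, 0, 0, 0, 7⟩]),
    (73, [⟨6, 0, 0, 0, 5⟩]),
    (76, [⟨5, 0, 0, 0, 5⟩]),
    (77, [⟨2, 0, 0, 0, 1⟩]),
    (78, [⟨5, 0, 0, 0, 7⟩]),
    (79, [⟨6, 0, 0, 0, 5⟩]),
    (138, [⟨2, 0, 0, 0, 1⟩]),
    (218, [⟨2, 0, 0, 0, 1⟩]),
    (219, [⟨5, 0, 0, 0, 4⟩]),
    (222, [⟨2, 0, 0, 0, 2⟩]),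
    (223, [⟨5, 0, 0, 0, 4⟩])],
    [(0, [⟨7, 0, 0, 0, 5⟩]),
    (6, [⟨6, 0, 0, 0, 6⟩]),
    (8, [⟨6, 0, 0, 0, 6⟩]),
    (72, [⟨7, 0, 0, 0, 5⟩]),
    (73, [⟨6, 0, 0, 0, 7⟩]),
    (78, [⟨7, 0, 0, 0, 5⟩]),
    (79, [⟨6, 0, 0, 0, 7⟩]),
    (138, [⟨4, 0, 0, 0, 1⟩]),
    (218, [⟨4, 0, 0, 0, 1⟩]),
    (219, [⟨7, 0, 0, 0, 4⟩]),
    (222, [⟨4, 0, 0, 0, 2⟩]),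
    (223, [⟨7, 0, 0, 0, 4⟩])]⟩,
   ⟨4, w13, [⟨0, 0, 0, 0, 0⟩], [⟨6, 0, 0, 0, 11⟩],
    [(0, [⟨3, 0, 0, 0, 4⟩]),
    (1, [⟨3, 0, 0, 0, 5⟩]),
    (2, [⟨6, 0, 0, 0, 11⟩]),
    (6, [⟨2, 0, 0, 0, 5⟩]),
    (8, [⟨4, 0, 0, 0, 3⟩]),
    (68, [⟨3, 0, 0, 0, 3⟩]),
    (69, [⟨0, 0, 0, 0, 1⟩]),
    (72, [⟨3, 0, 0, 0, 4⟩]),
    (73, [⟨2, 0, 0, 0, 6⟩]),
    (76, [⟨3, 0, 0, 0, 6⟩]),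
    (77, [⟨6, 0, 0, 0, 10⟩]),
    (78, [⟨3, 0, 0, 0, 4⟩]),
    (79, [⟨4, 0, 0, 0, 2⟩]),
    (219, [⟨3, 0, 0, 0, 3⟩]),
    (222, [⟨0, 0, 0, 0, 1⟩]),
    (223, [⟨3, 0, 0, 0, 3⟩])],
    [(0, [⟨3, 0, 0, 0, 4⟩]),
    (1, [⟨3, 0, 0, 0, 5⟩]),
    (4, [⟨0, 0, 0, 0, 0⟩]),
    (6, [⟨2, 0, 0, 0, 5⟩]),
    (8, [⟨4, 0, 0, 0, 3⟩]),
    (68, [⟨3, 0, 0, 0, 3⟩]),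
    (69, [⟨0, 0, 0, 0, 1⟩]),
    (72, [⟨3, 0, 0, 0, 4⟩]),
    (73, [⟨2, 0, 0, 0, 6⟩]),
    (76, [⟨3, 0, 0, 0, 6⟩]),
    (77, [⟨6, 0, 0, 0, 10⟩]),
    (78, [⟨3, 0, 0, 0, 4⟩]),
    (79, [⟨4, 0, 0, 0, 2⟩]),
    (138, [⟨0, 0, 0, 0, 0⟩]),
    (218, [⟨0, 0, 0, 0, 0⟩]),
    (219, [⟨3, 0, 0, 0, 3⟩]),
    (222, [⟨0, 0, 0, 0, 1⟩]),
    (223, [⟨3, 0, 0, 0, 3⟩])]⟩,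
   []⟩

/-- Claim rZbM. -/
def c26 : Claim :=
  ⟨⟨⟨0, 0, 0, 0, 0⟩, ⟨0, 0, 0, 0, 0⟩, ⟨0, 0, 0, 0, 0⟩, ⟨0, 0, 0, 0, 0⟩, ⟨⟨0, 0, 0, 0, 15⟩, ⟨0, 0, 0, 0, 0⟩, ⟨0, 0, 0, 0, 0⟩, ⟨0, 0, 0, 0, 0⟩⟩⟩,
   [76],
   [14, 15],
   ⟨141, w26, [⟨0, 0, 0, 0, 0⟩], [⟨7, 0, 0, 0, 10⟩],
    [(1, [⟨3, 0, 0, 0, 4⟩]),
    (76, [⟨3, 0, 0, 0, 5⟩]),
    (77, [⟨6, 0, 0, 0, 9⟩])],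
    [(1, [⟨5, 0, 0, 0, 4⟩]),
    (76, [⟨5, 0, 0, 0, 5⟩])]⟩,
   ⟨4, w6, [⟨0, 0, 0, 0, 0⟩], [⟨12, 0, 0, 0, 17⟩],
    [(1, [⟨3, 0, 0, 0, 5⟩]),
    (76, [⟨3, 0, 0, 0, 6⟩]),
    (77, [⟨6, 0, 0, 0, 10⟩])],
    [(1, [⟨3, 0, 0, 0, 5⟩]),
    (76, [⟨3, 0, 0, 0, 6⟩]),
    (77, [⟨6, 0, 0, 0, 10⟩])]⟩,
   [(15, ⟨0, 0, 0, 0, 0⟩, ⟨2, 0, 0, 0, 5⟩)]⟩

/-- Claim rZbD. -/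
def c27 : Claim :=
  ⟨⟨⟨0, 0, 0, 0, 0⟩, ⟨0, 0, 0, 0, 0⟩, ⟨0, 0, 0, 0, 0⟩, ⟨0, 0, 0, 0, 0⟩, ⟨⟨0, 0, 0, 0, 15⟩, ⟨0, 0, 0, 0, 0⟩, ⟨0, 0, 0, 0, 0⟩, ⟨0, 0, 0, 0, 0⟩⟩⟩,
   [78, 79],
   [17, 18, 19],
   ⟨141, w27, [⟨0, 0, 0, 0, 0⟩], [⟨7, 0, 0, 0, 12⟩],
    [(1, [⟨3, 0, 0, 0, 4⟩]),
    (8, [⟨4, 0, 0, 0, 4⟩]),
    (78, [⟨3, 0, 0, 0, 5⟩]),
    (79, [⟨4, 0, 0, 0, 3⟩])],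
    [(1, [⟨5, 0, 0, 0, 4⟩]),
    (8, [⟨6, 0, 0, 0, 4⟩]),
    (78, [⟨5, 0, 0, 0, 5⟩]),
    (79, [⟨6, 0, 0, 0, 3⟩])]⟩,
   ⟨4, w6, [⟨0, 0, 0, 0, 0⟩], [⟨12, 0, 0, 0, 17⟩],
    [(1, [⟨3, 0, 0, 0, 5⟩]),
    (8, [⟨4, 0, 0, 0, 3⟩]),
    (78, [⟨3, 0, 0, 0, 4⟩]),
    (79, [⟨4, 0, 0, 0, 2⟩])],
    [(1, [⟨3, 0, 0, 0, 5⟩]),
    (8, [⟨4, 0, 0, 0, 3⟩]),
    (78, [⟨3, 0, 0, 0, 4⟩]),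
    (79, [⟨4, 0, 0, 0, 2⟩])]⟩,
   []⟩

/-- Claim rWM. -/
def c28 : Claim :=
  ⟨⟨⟨-3, 0, 0, 0, -4⟩, ⟨3, 0, 0, 0, 3⟩, ⟨0, 0, 0, 0, 0⟩, ⟨0, 0, 0, 0, 0⟩, ⟨⟨20, -1, 0, 0, 0⟩, ⟨0, 0, 0, 0, 1⟩, ⟨0, 0, 0, 0, 0⟩, ⟨0, 0, 0, 0, 0⟩⟩⟩,
   [0, 1, 2, 76, 77, 70, 71],
   [0, 1, 2, 5, 6, 7, 8, 14, 15, 16, 17, 22, 209, 215],
   ⟨130, w28, [⟨0, 0, 0, 0, 0⟩], [⟨18, 0, 0, 0, 26⟩],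
    [(0, [⟨6, 1, 0, 0, 6⟩]),
    (1, [⟨6, 1, 0, 0, 7⟩]),
    (2, [⟨9, 1, 0, 0, 13⟩]),
    (3, [⟨9, 1, 0, 0, 14⟩]),
    (5, [⟨9, 0, 0, 0, 13⟩]),
    (68, [⟨6, 1, 0, 0, 6⟩, ⟨3, 0, 0, 0, 3⟩]),
    (70, [⟨6, 0, 0, 0, 10⟩, ⟨9, 1, 0, 0, 12⟩]),
    (71, [⟨9, 0, 0, 0, 12⟩, ⟨6, 1, 0, 0, 10⟩]),
    (72, [⟨6, 1, 0, 0, 7⟩]),
    (76, [⟨6, 1, 0, 0, 8⟩]),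
    (77, [⟨9, 1, 0, 0, 12⟩]),
    (78, [⟨6, 1, 0, 0, 7⟩]),
    (81, [⟨9, 1, 0, 0, 13⟩]),
    (219, [⟨6, 1, 0, 0, 6⟩]),
    (223, [⟨6, 1, 0, 0, 6⟩])],
    [(0, [⟨9, 0, 0, 0, 10⟩]),
    (1, [⟨9, 0, 0, 0, 11⟩]),
    (2, [⟨12, 0, 0, 0, 17⟩]),
    (3, [⟨12, 0, 0, 0, 18⟩]),
    (5, [⟨9, 0, 0, 0, 13⟩]),
    (68, [⟨9, 0, 0, 0, 9⟩]),
    (70, [⟨12, 0, 0, 0, 16⟩]),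
    (71, [⟨9, 0, 0, 0, 14⟩]),
    (72, [⟨9, 0, 0, 0, 10⟩]),
    (76, [⟨9, 0, 0, 0, 12⟩]),
    (77, [⟨12, 0, 0, 0, 16⟩]),
    (78, [⟨9, 0, 0, 0, 10⟩]),
    (81, [⟨12, 0, 0, 0, 16⟩]),
    (219, [⟨9, 0, 0, 0, 9⟩]),
    (223, [⟨9, 0, 0, 0, 9⟩])]⟩,
   ⟨6, w22, [⟨0, 0, 0, 0, 0⟩], [⟨4, 0, 0, 0, 6⟩],
    [(0, [⟨1, 0, 0, 0, -2⟩]),
    (1, [⟨1, 0, 0, 0, -1⟩]),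
    (2, [⟨4, 0, 0, 0, 5⟩]),
    (3, [⟨4, 0, 0, 0, 6⟩]),
    (5, [⟨4, 0, 0, 0, 4⟩]),
    (68, [⟨1, 0, 0, 0, -3⟩]),
    (70, [⟨4, 0, 0, 0, 5⟩]),
    (71, [⟨4, 0, 0, 0, 5⟩]),
    (72, [⟨1, 0, 0, 0, -2⟩]),
    (76, [⟨1, 0, 0, 0, 0⟩]),
    (77, [⟨4, 0, 0, 0, 4⟩]),
    (78, [⟨1, 0, 0, 0, -2⟩]),
    (81, [⟨4, 0, 0, 0, 4⟩]),
    (219, [⟨1, 0, 0, 0, -3⟩]),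
    (223, [⟨1, 0, 0, 0, -3⟩])],
    [(0, [⟨1, 0, 0, 0, -1⟩]),
    (1, [⟨1, 0, 0, 0, 0⟩]),
    (68, [⟨1, 0, 0, 0, -1⟩]),
    (72, [⟨1, 0, 0, 0, -1⟩]),
    (76, [⟨1, 0, 0, 0, 1⟩]),
    (77, [⟨4, 0, 0, 0, 5⟩]),
    (78, [⟨1, 0, 0, 0, -1⟩]),
    (81, [⟨4, 0, 0, 0, 5⟩]),
    (219, [⟨1, 0, 0, 0, -2⟩]),
    (223, [⟨1, 0, 0, 0, -2⟩])]⟩,
   []⟩

/-- Claim rGWM. -/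
def c29 : Claim :=
  ⟨⟨⟨-3, 0, 0, 0, -4⟩, ⟨3, 0, 0, 0, 4⟩, ⟨0, 0, 0, 0, 0⟩, ⟨0, 0, 0, 0, 0⟩, ⟨⟨20, -1, 0, 0, 0⟩, ⟨0, 0, 0, 0, 9⟩, ⟨0, 0, 0, 0, 0⟩, ⟨0, 0, 0, 0, 0⟩⟩⟩,
   [0, 1, 2, 76, 77, 70, 71],
   [0, 1, 2, 5, 6, 7, 8, 14, 15, 16, 17, 22, 209, 215],
   ⟨130, w28, [⟨0, 0, 0, 0, 0⟩], [⟨18, 0, 0, 0, 26⟩],
    [(0, [⟨6, 1, 0, 0, 6⟩]),
    (1, [⟨6, 1, 0, 0, 7⟩]),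
    (2, [⟨9, 1, 0, 0, 13⟩]),
    (3, [⟨9, 1, 0, 0, 14⟩]),
    (5, [⟨9, 0, 0, 0, 13⟩]),
    (68, [⟨6, 1, 0, 0, 5⟩]),
    (70, [⟨6, 0, 0, 0, 10⟩, ⟨9, 1, 0, 0, 12⟩]),
    (71, [⟨9, 0, 0, 0, 12⟩, ⟨6, 1, 0, 0, 10⟩]),
    (72, [⟨6, 1, 0, 0, 6⟩]),
    (76, [⟨6, 1, 0, 0, 8⟩]),
    (77, [⟨9, 1, 0, 0, 12⟩]),
    (78, [⟨6, 1, 0, 0, 6⟩]),
    (81, [⟨9, 1, 0, 0, 12⟩]),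
    (219, [⟨6, 1, 0, 0, 5⟩]),
    (223, [⟨6, 1, 0, 0, 5⟩])],
    [(0, [⟨9, 0, 0, 0, 10⟩]),
    (1, [⟨9, 0, 0, 0, 11⟩]),
    (2, [⟨12, 0, 0, 0, 17⟩]),
    (3, [⟨12, 0, 0, 0, 18⟩]),
    (5, [⟨9, 0, 0, 0, 13⟩]),
    (68, [⟨9, 0, 0, 0, 9⟩]),
    (70, [⟨12, 0, 0, 0, 16⟩]),
    (71, [⟨9, 0, 0, 0, 14⟩]),
    (72, [⟨9, 0, 0, 0, 10⟩]),
    (76, [⟨9, 0, 0, 0, 12⟩]),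
    (77, [⟨12, 0, 0, 0, 16⟩]),
    (78, [⟨9, 0, 0, 0, 10⟩]),
    (81, [⟨12, 0, 0, 0, 16⟩]),
    (219, [⟨9, 0, 0, 0, 9⟩]),
    (223, [⟨9, 0, 0, 0, 9⟩])]⟩,
   ⟨6, w22, [⟨0, 0, 0, 0, 0⟩], [⟨4, 0, 0, 0, 6⟩],
    [(0, [⟨1, 0, 0, 0, -2⟩]),
    (1, [⟨1, 0, 0, 0, -1⟩]),
    (2, [⟨4, 0, 0, 0, 5⟩]),
    (3, [⟨4, 0, 0, 0, 6⟩]),
    (5, [⟨4, 0, 0, 0, 4⟩]),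
    (68, [⟨1, 0, 0, 0, -3⟩]),
    (70, [⟨4, 0, 0, 0, 5⟩]),
    (71, [⟨4, 0, 0, 0, 5⟩]),
    (72, [⟨1, 0, 0, 0, -2⟩]),
    (76, [⟨1, 0, 0, 0, 0⟩]),
    (77, [⟨4, 0, 0, 0, 4⟩]),
    (78, [⟨1, 0, 0, 0, -2⟩]),
    (81, [⟨4, 0, 0, 0, 4⟩]),
    (219, [⟨1, 0, 0, 0, -3⟩]),
    (223, [⟨1, 0, 0, 0, -3⟩])],
    [(0, [⟨1, 0, 0, 0, -1⟩]),
    (1, [⟨1, 0, 0, 0, 0⟩]),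
    (68, [⟨1, 0, 0, 0, -1⟩]),
    (72, [⟨1, 0, 0, 0, -1⟩]),
    (76, [⟨1, 0, 0, 0, 1⟩]),
    (77, [⟨4, 0, 0, 0, 5⟩]),
    (78, [⟨1, 0, 0, 0, -1⟩]),
    (81, [⟨4, 0, 0, 0, 5⟩]),
    (219, [⟨1, 0, 0, 0, -2⟩]),
    (223, [⟨1, 0, 0, 0, -2⟩])]⟩,
   []⟩

/-- Claim rMa. -/
def c30 : Claim :=
  ⟨⟨⟨-3, 0, 0, 0, -4⟩, ⟨3, 0, 0, 0, 3⟩, ⟨-1, 0, 0, 0, 0⟩, ⟨1, 0, 0, 0, -2⟩, ⟨⟨20, -1, 0, 0, 0⟩, ⟨0, 0, 0, 0, 2⟩, ⟨1, 0, -1, 0, 0⟩, ⟨0, 0, 0, 0, 0⟩⟩⟩,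
   [0, 1, 2, 3, 12, 68, 69, 72, 73, 76, 77, 70, 71, 74, 75, 90, 91, 92, 93, 94],
   [0, 1, 2, 3, 4, 5, 6, 7, 8, 9, 10, 11, 12, 13, 14, 15, 16, 17, 22, 35, 36, 37, 38, 39, 40, 41, 42, 209, 215],
   ⟨130, w28, [⟨0, 0, 0, 0, 0⟩], [⟨18, 0, 0, 0, 26⟩],
    [(0, [⟨6, 1, 0, 0, 6⟩]),
    (1, [⟨6, 1, 0, 0, 7⟩]),
    (2, [⟨9, 1, 0, 0, 13⟩]),
    (3, [⟨9, 1, 0, 0, 14⟩]),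
    (4, [⟨6, 0, 0, 0, 6⟩]),
    (5, [⟨9, 0, 0, 0, 13⟩]),
    (6, [⟨5, 1, 0, 0, 7⟩]),
    (7, [⟨8, 1, 0, 0, 14⟩]),
    (12, [⟨12, 1, 0, 0, 14⟩]),
    (68, [⟨3, 0, 0, 0, 3⟩, ⟨6, 1, 0, 0, 5⟩]),
    (69, [⟨6, 0, 0, 0, 5⟩, ⟨3, 1, 0, 0, 3⟩]),
    (70, [⟨6, 0, 0, 0, 10⟩, ⟨9, 1, 0, 0, 12⟩]),
    (71, [⟨9, 0, 0, 0, 12⟩, ⟨6, 1, 0, 0, 10⟩]),
    (72, [⟨6, 1, 0, 0, 6⟩]),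
    (73, [⟨5, 1, 0, 0, 8⟩]),
    (74, [⟨9, 1, 0, 0, 13⟩]),
    (75, [⟨8, 1, 0, 0, 15⟩]),
    (76, [⟨6, 1, 0, 0, 8⟩]),
    (77, [⟨9, 1, 0, 0, 12⟩]),
    (78, [⟨6, 1, 0, 0, 7⟩]),
    (81, [⟨9, 1, 0, 0, 13⟩]),
    (90, [⟨9, 1, 0, 0, 15⟩]),
    (91, [⟨10, 1, 0, 0, 15⟩]),
    (92, [⟨12, 1, 0, 0, 13⟩]),
    (93, [⟨12, 1, 0, 0, 15⟩]),
    (94, [⟨15, 1, 0, 0, 18⟩]),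
    (95, [⟨12, 1, 0, 0, 15⟩]),
    (125, [⟨15, 1, 0, 0, 19⟩]),
    (219, [⟨6, 1, 0, 0, 6⟩]),
    (223, [⟨6, 1, 0, 0, 6⟩])],
    [(0, [⟨9, 0, 0, 0, 10⟩]),
    (1, [⟨9, 0, 0, 0, 11⟩]),
    (2, [⟨12, 0, 0, 0, 17⟩]),
    (3, [⟨12, 0, 0, 0, 18⟩]),
    (4, [⟨6, 0, 0, 0, 6⟩]),
    (5, [⟨9, 0, 0, 0, 13⟩]),
    (6, [⟨8, 0, 0, 0, 11⟩]),
    (7, [⟨11, 0, 0, 0, 18⟩]),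
    (12, [⟨15, 0, 0, 0, 18⟩]),
    (68, [⟨9, 0, 0, 0, 9⟩]),
    (69, [⟨6, 0, 0, 0, 7⟩]),
    (70, [⟨12, 0, 0, 0, 16⟩]),
    (71, [⟨9, 0, 0, 0, 14⟩]),
    (72, [⟨9, 0, 0, 0, 10⟩]),
    (73, [⟨8, 0, 0, 0, 12⟩]),
    (74, [⟨12, 0, 0, 0, 17⟩]),
    (75, [⟨11, 0, 0, 0, 19⟩]),
    (76, [⟨9, 0, 0, 0, 12⟩]),
    (77, [⟨12, 0, 0, 0, 16⟩]),
    (78, [⟨9, 0, 0, 0, 10⟩]),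
    (81, [⟨12, 0, 0, 0, 16⟩]),
    (90, [⟨12, 0, 0, 0, 19⟩]),
    (91, [⟨13, 0, 0, 0, 19⟩]),
    (92, [⟨15, 0, 0, 0, 17⟩]),
    (93, [⟨15, 0, 0, 0, 19⟩]),
    (94, [⟨18, 0, 0, 0, 22⟩]),
    (95, [⟨15, 0, 0, 0, 18⟩]),
    (125, [⟨18, 0, 0, 0, 23⟩]),
    (219, [⟨9, 0, 0, 0, 9⟩]),
    (223, [⟨9, 0, 0, 0, 9⟩])]⟩,
   ⟨141, w29, [⟨0, 0, 0, 0, 0⟩], [⟨16, 0, 0, 0, 22⟩],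
    [(0, [⟨4, 0, 1, 0, 3⟩]),
    (1, [⟨4, 0, 1, 0, 4⟩]),
    (2, [⟨7, 0, 1, 0, 10⟩]),
    (3, [⟨7, 0, 1, 0, 11⟩]),
    (4, [⟨3, 0, 0, 0, 2⟩]),
    (5, [⟨6, 0, 0, 0, 9⟩]),
    (6, [⟨4, 0, 0, 0, 4⟩]),
    (7, [⟨7, 0, 0, 0, 10⟩]),
    (12, [⟨10, 0, 1, 0, 11⟩]),
    (68, [⟨4, 0, 1, 0, 2⟩, ⟨3, 0, 0, 0, 3⟩]),
    (69, [⟨3, 0, 0, 0, 3⟩]),
    (70, [⟨7, 0, 1, 0, 9⟩, ⟨6, 0, 0, 0, 10⟩]),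
    (71, [⟨6, 0, 0, 0, 10⟩]),
    (72, [⟨4, 0, 1, 0, 3⟩, ⟨3, 0, 0, 0, 5⟩]),
    (73, [⟨4, 0, 0, 0, 3⟩]),
    (74, [⟨7, 0, 1, 0, 10⟩, ⟨6, 0, 0, 0, 11⟩]),
    (75, [⟨6, 0, 1, 0, 12⟩, ⟨7, 0, 0, 0, 9⟩]),
    (76, [⟨4, 0, 1, 0, 5⟩]),
    (77, [⟨7, 0, 1, 0, 9⟩]),
    (78, [⟨4, 0, 1, 0, 3⟩, ⟨3, 0, 0, 0, 5⟩]),
    (81, [⟨7, 0, 1, 0, 9⟩, ⟨6, 0, 0, 0, 11⟩]),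
    (90, [⟨7, 0, 1, 0, 12⟩]),
    (91, [⟨8, 0, 1, 0, 12⟩]),
    (92, [⟨10, 0, 1, 0, 10⟩]),
    (93, [⟨10, 0, 1, 0, 12⟩]),
    (94, [⟨13, 0, 1, 0, 15⟩]),
    (95, [⟨10, 0, 1, 0, 10⟩, ⟨9, 0, 0, 0, 11⟩]),
    (125, [⟨13, 0, 1, 0, 16⟩]),
    (219, [⟨4, 0, 1, 0, 2⟩, ⟨3, 0, 0, 0, 3⟩]),
    (223, [⟨4, 0, 1, 0, 2⟩])],
    [(0, [⟨5, 0, 0, 0, 3⟩]),
    (1, [⟨5, 0, 0, 0, 4⟩]),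
    (2, [⟨8, 0, 0, 0, 10⟩]),
    (3, [⟨8, 0, 0, 0, 10⟩]),
    (4, [⟨5, 0, 0, 0, 4⟩]),
    (5, [⟨8, 0, 0, 0, 11⟩]),
    (6, [⟨4, 0, 0, 0, 4⟩]),
    (7, [⟨7, 0, 0, 0, 10⟩]),
    (12, [⟨11, 0, 0, 0, 10⟩]),
    (68, [⟨5, 0, 0, 0, 3⟩]),
    (69, [⟨5, 0, 0, 0, 3⟩]),
    (70, [⟨8, 0, 0, 0, 10⟩]),
    (71, [⟨8, 0, 0, 0, 10⟩]),
    (72, [⟨5, 0, 0, 0, 3⟩]),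
    (73, [⟨4, 0, 0, 0, 5⟩]),
    (74, [⟨8, 0, 0, 0, 9⟩]),
    (75, [⟨7, 0, 0, 0, 11⟩]),
    (76, [⟨5, 0, 0, 0, 5⟩]),
    (77, [⟨8, 0, 0, 0, 9⟩]),
    (78, [⟨5, 0, 0, 0, 3⟩]),
    (81, [⟨8, 0, 0, 0, 9⟩]),
    (90, [⟨8, 0, 0, 0, 11⟩]),
    (91, [⟨9, 0, 0, 0, 11⟩]),
    (92, [⟨11, 0, 0, 0, 9⟩]),
    (93, [⟨11, 0, 0, 0, 11⟩]),
    (94, [⟨14, 0, 0, 0, 14⟩]),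
    (95, [⟨11, 0, 0, 0, 11⟩]),
    (125, [⟨14, 0, 0, 0, 15⟩]),
    (219, [⟨5, 0, 0, 0, 2⟩]),
    (223, [⟨5, 0, 0, 0, 2⟩])]⟩,
   []⟩

/-- Claim rGMa. -/
def c31 : Claim :=
  ⟨⟨⟨-3, 0, 0, 0, -4⟩, ⟨3, 0, 0, 0, 4⟩, ⟨0, 0, 0, 0, 0⟩, ⟨0, 0, 0, 0, 0⟩, ⟨⟨20, -1, 0, 0, 0⟩, ⟨0, 0, 0, 0, 9⟩, ⟨0, 0, 0, 0, 0⟩, ⟨0, 0, 0, 0, 0⟩⟩⟩,
   [0, 1, 2, 3, 12, 68, 69, 72, 73, 76, 77, 70, 71, 74, 75, 90, 91, 92, 93, 94],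
   [0, 1, 2, 3, 4, 5, 6, 7, 8, 9, 10, 11, 12, 13, 14, 15, 16, 17, 22, 35, 36, 37, 38, 39, 40, 41, 42, 209, 215],
   ⟨130, w28, [⟨0, 0, 0, 0, 0⟩], [⟨18, 0, 0, 0, 26⟩],
    [(0, [⟨6, 1, 0, 0, 6⟩]),
    (1, [⟨6, 1, 0, 0, 7⟩]),
    (2, [⟨9, 1, 0, 0, 13⟩]),
    (3, [⟨9, 1, 0, 0, 14⟩]),
    (4, [⟨6, 0, 0, 0, 6⟩]),
    (5, [⟨9, 0, 0, 0, 13⟩]),
    (6, [⟨5, 1, 0, 0, 7⟩]),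
    (7, [⟨8, 1, 0, 0, 14⟩]),
    (12, [⟨12, 1, 0, 0, 14⟩]),
    (68, [⟨3, 0, 0, 0, 3⟩, ⟨6, 1, 0, 0, 5⟩]),
    (69, [⟨6, 0, 0, 0, 5⟩, ⟨3, 1, 0, 0, 3⟩]),
    (70, [⟨6, 0, 0, 0, 10⟩, ⟨9, 1, 0, 0, 12⟩]),
    (71, [⟨9, 0, 0, 0, 12⟩, ⟨6, 1, 0, 0, 10⟩]),
    (72, [⟨6, 1, 0, 0, 6⟩]),
    (73, [⟨5, 1, 0, 0, 8⟩]),
    (74, [⟨9, 1, 0, 0, 13⟩]),
    (75, [⟨8, 1, 0, 0, 15⟩]),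
    (76, [⟨6, 1, 0, 0, 8⟩]),
    (77, [⟨9, 1, 0, 0, 12⟩]),
    (78, [⟨6, 1, 0, 0, 6⟩]),
    (81, [⟨9, 1, 0, 0, 12⟩]),
    (90, [⟨9, 1, 0, 0, 15⟩]),
    (91, [⟨10, 1, 0, 0, 15⟩]),
    (92, [⟨12, 1, 0, 0, 13⟩]),
    (93, [⟨12, 1, 0, 0, 15⟩]),
    (94, [⟨15, 1, 0, 0, 18⟩]),
    (95, [⟨12, 1, 0, 0, 14⟩]),
    (125, [⟨15, 1, 0, 0, 19⟩]),
    (219, [⟨6, 1, 0, 0, 5⟩]),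
    (223, [⟨6, 1, 0, 0, 5⟩])],
    [(0, [⟨9, 0, 0, 0, 10⟩]),
    (1, [⟨9, 0, 0, 0, 11⟩]),
    (2, [⟨12, 0, 0, 0, 17⟩]),
    (3, [⟨12, 0, 0, 0, 18⟩]),
    (4, [⟨6, 0, 0, 0, 6⟩]),
    (5, [⟨9, 0, 0, 0, 13⟩]),
    (6, [⟨8, 0, 0, 0, 11⟩]),
    (7, [⟨11, 0, 0, 0, 18⟩]),
    (12, [⟨15, 0, 0, 0, 18⟩]),
    (68, [⟨9, 0, 0, 0, 9⟩]),
    (69, [⟨6, 0, 0, 0, 7⟩]),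
    (70, [⟨12, 0, 0, 0, 16⟩]),
    (71, [⟨9, 0, 0, 0, 14⟩]),
    (72, [⟨9, 0, 0, 0, 10⟩]),
    (73, [⟨8, 0, 0, 0, 12⟩]),
    (74, [⟨12, 0, 0, 0, 17⟩]),
    (75, [⟨11, 0, 0, 0, 19⟩]),
    (76, [⟨9, 0, 0, 0, 12⟩]),
    (77, [⟨12, 0, 0, 0, 16⟩]),
    (78, [⟨9, 0, 0, 0, 10⟩]),
    (81, [⟨12, 0, 0, 0, 16⟩]),
    (90, [⟨12, 0, 0, 0, 19⟩]),
    (91, [⟨13, 0, 0, 0, 19⟩]),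
    (92, [⟨15, 0, 0, 0, 17⟩]),
    (93, [⟨15, 0, 0, 0, 19⟩]),
    (94, [⟨18, 0, 0, 0, 22⟩]),
    (95, [⟨15, 0, 0, 0, 18⟩]),
    (125, [⟨18, 0, 0, 0, 23⟩]),
    (219, [⟨9, 0, 0, 0, 9⟩]),
    (223, [⟨9, 0, 0, 0, 9⟩])]⟩,
   ⟨141, w29, [⟨0, 0, 0, 0, 0⟩], [⟨16, 0, 0, 0, 22⟩],
    [(0, [⟨3, 0, 0, 0, 3⟩]),
    (1, [⟨3, 0, 0, 0, 4⟩]),
    (2, [⟨6, 0, 0, 0, 10⟩]),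
    (3, [⟨6, 0, 0, 0, 11⟩]),
    (4, [⟨3, 0, 0, 0, 2⟩]),
    (5, [⟨6, 0, 0, 0, 9⟩]),
    (6, [⟨4, 0, 0, 0, 4⟩]),
    (7, [⟨7, 0, 0, 0, 10⟩]),
    (12, [⟨9, 0, 0, 0, 11⟩]),
    (68, [⟨3, 0, 0, 0, 3⟩]),
    (69, [⟨3, 0, 0, 0, 3⟩]),
    (70, [⟨6, 0, 0, 0, 10⟩]),
    (71, [⟨6, 0, 0, 0, 10⟩]),
    (72, [⟨3, 0, 0, 0, 5⟩]),
    (73, [⟨4, 0, 0, 0, 3⟩]),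
    (74, [⟨6, 0, 0, 0, 11⟩]),
    (75, [⟨7, 0, 0, 0, 9⟩]),
    (76, [⟨3, 0, 0, 0, 5⟩]),
    (77, [⟨6, 0, 0, 0, 9⟩]),
    (78, [⟨3, 0, 0, 0, 5⟩]),
    (81, [⟨6, 0, 0, 0, 11⟩]),
    (90, [⟨6, 0, 0, 0, 12⟩]),
    (91, [⟨7, 0, 0, 0, 12⟩]),
    (92, [⟨9, 0, 0, 0, 10⟩]),
    (93, [⟨9, 0, 0, 0, 12⟩]),
    (94, [⟨12, 0, 0, 0, 15⟩]),
    (95, [⟨9, 0, 0, 0, 11⟩]),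
    (125, [⟨12, 0, 0, 0, 16⟩]),
    (219, [⟨3, 0, 0, 0, 3⟩]),
    (223, [⟨3, 0, 0, 0, 2⟩])],
    [(0, [⟨5, 0, 0, 0, 3⟩]),
    (1, [⟨5, 0, 0, 0, 4⟩]),
    (2, [⟨8, 0, 0, 0, 10⟩]),
    (3, [⟨8, 0, 0, 0, 10⟩]),
    (4, [⟨5, 0, 0, 0, 4⟩]),
    (5, [⟨8, 0, 0, 0, 11⟩]),
    (6, [⟨4, 0, 0, 0, 4⟩]),
    (7, [⟨7, 0, 0, 0, 10⟩]),
    (12, [⟨11, 0, 0, 0, 10⟩]),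
    (68, [⟨5, 0, 0, 0, 3⟩]),
    (69, [⟨5, 0, 0, 0, 3⟩]),
    (70, [⟨8, 0, 0, 0, 10⟩]),
    (71, [⟨8, 0, 0, 0, 10⟩]),
    (72, [⟨5, 0, 0, 0, 3⟩]),
    (73, [⟨4, 0, 0, 0, 5⟩]),
    (74, [⟨8, 0, 0, 0, 9⟩]),
    (75, [⟨7, 0, 0, 0, 11⟩]),
    (76, [⟨5, 0, 0, 0, 5⟩]),
    (77, [⟨8, 0, 0, 0, 9⟩]),
    (78, [⟨5, 0, 0, 0, 3⟩]),
    (81, [⟨8, 0, 0, 0, 9⟩]),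
    (90, [⟨8, 0, 0, 0, 11⟩]),
    (91, [⟨9, 0, 0, 0, 11⟩]),
    (92, [⟨11, 0, 0, 0, 9⟩]),
    (93, [⟨11, 0, 0, 0, 11⟩]),
    (94, [⟨14, 0, 0, 0, 14⟩]),
    (95, [⟨11, 0, 0, 0, 11⟩]),
    (125, [⟨14, 0, 0, 0, 15⟩]),
    (219, [⟨5, 0, 0, 0, 2⟩]),
    (223, [⟨5, 0, 0, 0, 2⟩])]⟩,
   []⟩

/-- Claim rWD. -/
def c32 : Claim :=
  ⟨⟨⟨-3, 0, 0, 0, -4⟩, ⟨3, 0, 0, 0, 3⟩, ⟨0, 0, 0, 0, 0⟩, ⟨0, 0, 0, 0, 0⟩, ⟨⟨20, -1, 0, 0, 0⟩, ⟨0, 0, 0, 0, 3⟩, ⟨0, 0, 0, 0, 0⟩, ⟨0, 0, 0, 0, 0⟩⟩⟩,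
   [80, 81],
   [20, 21, 22],
   ⟨130, w28, [⟨0, 0, 0, 0, 0⟩], [⟨18, 0, 0, 0, 26⟩],
    [(2, [⟨9, 1, 0, 0, 13⟩]),
    (8, [⟨7, 1, 0, 0, 6⟩]),
    (80, [⟨7, 1, 0, 0, 6⟩]),
    (81, [⟨9, 1, 0, 0, 12⟩])],
    [(2, [⟨12, 0, 0, 0, 17⟩]),
    (8, [⟨10, 0, 0, 0, 9⟩]),
    (80, [⟨10, 0, 0, 0, 10⟩]),
    (81, [⟨12, 0, 0, 0, 16⟩])]⟩,
   ⟨11, w30, [⟨0, 0, 0, 0, 0⟩], [⟨3, 0, 0, 0, 6⟩],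
    [(2, [⟨3, 0, 0, 0, 5⟩]),
    (8, [⟨1, 0, 0, 0, -3⟩]),
    (80, [⟨1, 0, 0, 0, -2⟩]),
    (81, [⟨3, 0, 0, 0, 4⟩])],
    [(8, [⟨1, 0, 0, 0, -2⟩]),
    (80, [⟨1, 0, 0, 0, -1⟩]),
    (81, [⟨3, 0, 0, 0, 5⟩])]⟩,
   []⟩

/-- Claim rGWD. -/
def c33 : Claim :=
  ⟨⟨⟨-3, 0, 0, 0, -4⟩, ⟨3, 0, 0, 0, 4⟩, ⟨0, 0, 0, 0, 0⟩, ⟨0, 0, 0, 0, 0⟩, ⟨⟨20, -1, 0, 0, 0⟩, ⟨0, 0, 0, 0, 9⟩, ⟨0, 0, 0, 0, 0⟩, ⟨0, 0, 0, 0, 0⟩⟩⟩,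
   [80, 81],
   [20, 21, 22],
   ⟨130, w28, [⟨0, 0, 0, 0, 0⟩], [⟨18, 0, 0, 0, 26⟩],
    [(2, [⟨9, 1, 0, 0, 13⟩]),
    (8, [⟨7, 1, 0, 0, 5⟩]),
    (80, [⟨7, 1, 0, 0, 6⟩]),
    (81, [⟨9, 1, 0, 0, 12⟩])],
    [(2, [⟨12, 0, 0, 0, 17⟩]),
    (8, [⟨10, 0, 0, 0, 9⟩]),
    (80, [⟨10, 0, 0, 0, 10⟩]),
    (81, [⟨12, 0, 0, 0, 16⟩])]⟩,
   ⟨11, w30, [⟨0, 0, 0, 0, 0⟩], [⟨3, 0, 0, 0, 6⟩],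
    [(2, [⟨3, 0, 0, 0, 5⟩]),
    (8, [⟨1, 0, 0, 0, -3⟩]),
    (80, [⟨1, 0, 0, 0, -2⟩]),
    (81, [⟨3, 0, 0, 0, 4⟩])],
    [(8, [⟨1, 0, 0, 0, -2⟩]),
    (80, [⟨1, 0, 0, 0, -1⟩]),
    (81, [⟨3, 0, 0, 0, 5⟩])]⟩,
   []⟩

/-- Claim rMb. -/
def c34 : Claim :=
  ⟨⟨⟨-3, 0, 0, 0, -4⟩, ⟨3, 0, 0, 0, 3⟩, ⟨0, 0, 0, 0, 0⟩, ⟨0, 0, 0, 0, 0⟩, ⟨⟨20, -1, 0, 0, 0⟩, ⟨0, 0, 0, 0, 3⟩, ⟨0, 0, 0, 0, 0⟩, ⟨0, 0, 0, 0, 0⟩⟩⟩,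
   [2, 3, 70, 71, 74, 75, 90, 91, 92],
   [1, 5, 6, 7, 11, 12, 13, 16, 22, 35, 36, 37, 38],
   ⟨130, w28, [⟨0, 0, 0, 0, 0⟩], [⟨18, 0, 0, 0, 26⟩],
    [(2, [⟨9, 1, 0, 0, 13⟩]),
    (3, [⟨9, 1, 0, 0, 14⟩]),
    (5, [⟨9, 0, 0, 0, 13⟩]),
    (7, [⟨8, 1, 0, 0, 14⟩]),
    (12, [⟨12, 1, 0, 0, 14⟩]),
    (70, [⟨6, 0, 0, 0, 10⟩, ⟨9, 1, 0, 0, 12⟩]),
    (71, [⟨9, 0, 0, 0, 12⟩, ⟨6, 1, 0, 0, 10⟩]),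
    (74, [⟨9, 1, 0, 0, 13⟩]),
    (75, [⟨8, 1, 0, 0, 15⟩]),
    (77, [⟨9, 1, 0, 0, 13⟩]),
    (81, [⟨9, 1, 0, 0, 13⟩]),
    (90, [⟨9, 1, 0, 0, 15⟩]),
    (91, [⟨10, 1, 0, 0, 15⟩]),
    (92, [⟨12, 1, 0, 0, 13⟩])],
    [(2, [⟨12, 0, 0, 0, 17⟩]),
    (3, [⟨12, 0, 0, 0, 18⟩]),
    (5, [⟨9, 0, 0, 0, 13⟩]),
    (7, [⟨11, 0, 0, 0, 18⟩]),
    (12, [⟨15, 0, 0, 0, 18⟩]),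
    (70, [⟨12, 0, 0, 0, 16⟩]),
    (71, [⟨9, 0, 0, 0, 14⟩]),
    (74, [⟨12, 0, 0, 0, 17⟩]),
    (75, [⟨11, 0, 0, 0, 19⟩]),
    (77, [⟨12, 0, 0, 0, 16⟩]),
    (81, [⟨12, 0, 0, 0, 16⟩]),
    (90, [⟨12, 0, 0, 0, 19⟩]),
    (91, [⟨13, 0, 0, 0, 19⟩]),
    (92, [⟨15, 0, 0, 0, 17⟩])]⟩,
   ⟨11, w31, [⟨0, 0, 0, 0, 0⟩], [⟨8, 0, 0, 0, 12⟩],
    [(2, [⟨1, 0, 0, 0, 6⟩]),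
    (3, [⟨1, 0, 0, 0, 7⟩]),
    (5, [⟨1, 0, 0, 0, 5⟩]),
    (7, [⟨2, 0, 0, 0, 6⟩]),
    (12, [⟨4, 0, 0, 0, 7⟩]),
    (70, [⟨1, 0, 0, 0, 6⟩]),
    (71, [⟨1, 0, 0, 0, 6⟩]),
    (74, [⟨1, 0, 0, 0, 7⟩]),
    (75, [⟨2, 0, 0, 0, 5⟩]),
    (77, [⟨1, 0, 0, 0, 7⟩]),
    (81, [⟨1, 0, 0, 0, 5⟩]),
    (90, [⟨1, 0, 0, 0, 8⟩]),
    (91, [⟨2, 0, 0, 0, 8⟩]),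
    (92, [⟨4, 0, 0, 0, 6⟩])],
    [(2, [⟨3, 0, 0, 0, 6⟩]),
    (3, [⟨3, 0, 0, 0, 6⟩]),
    (5, [⟨3, 0, 0, 0, 7⟩]),
    (7, [⟨2, 0, 0, 0, 6⟩]),
    (12, [⟨6, 0, 0, 0, 6⟩]),
    (70, [⟨3, 0, 0, 0, 6⟩]),
    (71, [⟨3, 0, 0, 0, 6⟩]),
    (74, [⟨3, 0, 0, 0, 5⟩]),
    (75, [⟨2, 0, 0, 0, 7⟩]),
    (77, [⟨3, 0, 0, 0, 5⟩]),
    (81, [⟨3, 0, 0, 0, 5⟩]),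
    (90, [⟨3, 0, 0, 0, 7⟩]),
    (91, [⟨4, 0, 0, 0, 7⟩]),
    (92, [⟨6, 0, 0, 0, 5⟩])]⟩,
   []⟩

/-- Claim rGMb. -/
def c35 : Claim :=
  ⟨⟨⟨-3, 0, 0, 0, -4⟩, ⟨3, 0, 0, 0, 4⟩, ⟨0, 0, 0, 0, 0⟩, ⟨0, 0, 0, 0, 0⟩, ⟨⟨20, -1, 0, 0, 0⟩, ⟨0, 0, 0, 0, 9⟩, ⟨0, 0, 0, 0, 0⟩, ⟨0, 0, 0, 0, 0⟩⟩⟩,
   [2, 3, 70, 71, 74, 75, 90, 91, 92],
   [1, 5, 6, 7, 11, 12, 13, 16, 22, 35, 36, 37, 38],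
   ⟨130, w28, [⟨0, 0, 0, 0, 0⟩], [⟨18, 0, 0, 0, 26⟩],
    [(2, [⟨9, 1, 0, 0, 13⟩]),
    (3, [⟨9, 1, 0, 0, 14⟩]),
    (5, [⟨9, 0, 0, 0, 13⟩]),
    (7, [⟨8, 1, 0, 0, 14⟩]),
    (12, [⟨12, 1, 0, 0, 14⟩]),
    (70, [⟨6, 0, 0, 0, 10⟩, ⟨9, 1, 0, 0, 12⟩]),
    (71, [⟨9, 0, 0, 0, 12⟩, ⟨6, 1, 0, 0, 10⟩]),
    (74, [⟨9, 1, 0, 0, 13⟩]),
    (75, [⟨8, 1, 0, 0, 15⟩]),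
    (77, [⟨9, 1, 0, 0, 12⟩]),
    (81, [⟨9, 1, 0, 0, 12⟩]),
    (90, [⟨9, 1, 0, 0, 15⟩]),
    (91, [⟨10, 1, 0, 0, 15⟩]),
    (92, [⟨12, 1, 0, 0, 13⟩])],
    [(2, [⟨12, 0, 0, 0, 17⟩]),
    (3, [⟨12, 0, 0, 0, 18⟩]),
    (5, [⟨9, 0, 0, 0, 13⟩]),
    (7, [⟨11, 0, 0, 0, 18⟩]),
    (12, [⟨15, 0, 0, 0, 18⟩]),
    (70, [⟨12, 0, 0, 0, 16⟩]),
    (71, [⟨9, 0, 0, 0, 14⟩]),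
    (74, [⟨12, 0, 0, 0, 17⟩]),
    (75, [⟨11, 0, 0, 0, 19⟩]),
    (77, [⟨12, 0, 0, 0, 16⟩]),
    (81, [⟨12, 0, 0, 0, 16⟩]),
    (90, [⟨12, 0, 0, 0, 19⟩]),
    (91, [⟨13, 0, 0, 0, 19⟩]),
    (92, [⟨15, 0, 0, 0, 17⟩])]⟩,
   ⟨11, w31, [⟨0, 0, 0, 0, 0⟩], [⟨8, 0, 0, 0, 12⟩],
    [(2, [⟨1, 0, 0, 0, 6⟩]),
    (3, [⟨1, 0, 0, 0, 7⟩]),
    (5, [⟨1, 0, 0, 0, 5⟩]),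
    (7, [⟨2, 0, 0, 0, 6⟩]),
    (12, [⟨4, 0, 0, 0, 7⟩]),
    (70, [⟨1, 0, 0, 0, 6⟩]),
    (71, [⟨1, 0, 0, 0, 6⟩]),
    (74, [⟨1, 0, 0, 0, 7⟩]),
    (75, [⟨2, 0, 0, 0, 5⟩]),
    (77, [⟨1, 0, 0, 0, 7⟩]),
    (81, [⟨1, 0, 0, 0, 5⟩]),
    (90, [⟨1, 0, 0, 0, 8⟩]),
    (91, [⟨2, 0, 0, 0, 8⟩]),
    (92, [⟨4, 0, 0, 0, 6⟩])],
    [(2, [⟨3, 0, 0, 0, 6⟩]),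
    (3, [⟨3, 0, 0, 0, 6⟩]),
    (5, [⟨3, 0, 0, 0, 7⟩]),
    (7, [⟨2, 0, 0, 0, 6⟩]),
    (12, [⟨6, 0, 0, 0, 6⟩]),
    (70, [⟨3, 0, 0, 0, 6⟩]),
    (71, [⟨3, 0, 0, 0, 6⟩]),
    (74, [⟨3, 0, 0, 0, 5⟩]),
    (75, [⟨2, 0, 0, 0, 7⟩]),
    (77, [⟨3, 0, 0, 0, 5⟩]),
    (81, [⟨3, 0, 0, 0, 5⟩]),
    (90, [⟨3, 0, 0, 0, 7⟩]),
    (91, [⟨4, 0, 0, 0, 7⟩]),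
    (92, [⟨6, 0, 0, 0, 5⟩])]⟩,
   []⟩

/-- Claim rMc. -/
def c36 : Claim :=
  ⟨⟨⟨-3, 0, 0, 0, -4⟩, ⟨3, 0, 0, 0, 3⟩, ⟨0, 0, 0, 0, 0⟩, ⟨0, 0, 0, 0, 0⟩, ⟨⟨20, -1, 0, 0, 0⟩, ⟨0, 0, 0, 0, 3⟩, ⟨0, 0, 0, 0, 0⟩, ⟨0, 0, 0, 0, 0⟩⟩⟩,
   [0, 1, 68, 69, 72, 73, 76, 77],
   [0, 2, 3, 4, 8, 9, 10, 14, 15, 16, 17, 209, 215],
   ⟨130, w28, [⟨0, 0, 0, 0, 0⟩], [⟨18, 0, 0, 0, 26⟩],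
    [(0, [⟨6, 1, 0, 0, 6⟩]),
    (1, [⟨6, 1, 0, 0, 7⟩]),
    (2, [⟨9, 1, 0, 0, 13⟩]),
    (4, [⟨6, 0, 0, 0, 6⟩]),
    (6, [⟨5, 1, 0, 0, 7⟩]),
    (68, [⟨3, 0, 0, 0, 3⟩, ⟨6, 1, 0, 0, 5⟩]),
    (69, [⟨6, 0, 0, 0, 5⟩, ⟨3, 1, 0, 0, 3⟩]),
    (72, [⟨6, 1, 0, 0, 6⟩]),
    (73, [⟨5, 1, 0, 0, 8⟩]),
    (76, [⟨6, 1, 0, 0, 8⟩]),
    (77, [⟨9, 1, 0, 0, 12⟩]),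
    (78, [⟨6, 1, 0, 0, 7⟩]),
    (219, [⟨6, 1, 0, 0, 6⟩]),
    (223, [⟨6, 1, 0, 0, 6⟩])],
    [(0, [⟨9, 0, 0, 0, 10⟩]),
    (1, [⟨9, 0, 0, 0, 11⟩]),
    (2, [⟨12, 0, 0, 0, 17⟩]),
    (4, [⟨6, 0, 0, 0, 6⟩]),
    (6, [⟨8, 0, 0, 0, 11⟩]),
    (68, [⟨9, 0, 0, 0, 9⟩]),
    (69, [⟨6, 0, 0, 0, 7⟩]),
    (72, [⟨9, 0, 0, 0, 10⟩]),
    (73, [⟨8, 0, 0, 0, 12⟩]),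
    (76, [⟨9, 0, 0, 0, 12⟩]),
    (77, [⟨12, 0, 0, 0, 16⟩]),
    (78, [⟨9, 0, 0, 0, 10⟩]),
    (219, [⟨9, 0, 0, 0, 9⟩]),
    (223, [⟨9, 0, 0, 0, 9⟩])]⟩,
   ⟨21, w32, [⟨0, 0, 0, 0, 0⟩], [⟨6, 0, 0, 0, 5⟩],
    [(0, [⟨0, 0, 0, 0, 1⟩]),
    (2, [⟨3, 0, 0, 0, 6⟩]),
    (6, [⟨1, 0, 0, 0, 0⟩]),
    (68, [⟨0, 0, 0, 0, 1⟩]),
    (69, [⟨0, 0, 0, 0, 1⟩]),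
    (72, [⟨0, 0, 0, 0, 1⟩]),
    (73, [⟨1, 0, 0, 0, -1⟩]),
    (76, [⟨0, 0, 0, 0, 1⟩]),
    (77, [⟨3, 0, 0, 0, 5⟩]),
    (219, [⟨0, 0, 0, 0, 2⟩]),
    (223, [⟨0, 0, 0, 0, 2⟩])],
    [(0, [⟨2, 0, 0, 0, -1⟩]),
    (1, [⟨2, 0, 0, 0, 0⟩]),
    (2, [⟨5, 0, 0, 0, 6⟩]),
    (4, [⟨2, 0, 0, 0, 0⟩]),
    (6, [⟨1, 0, 0, 0, 0⟩]),
    (68, [⟨2, 0, 0, 0, -1⟩]),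
    (69, [⟨2, 0, 0, 0, -1⟩]),
    (72, [⟨2, 0, 0, 0, -1⟩]),
    (73, [⟨1, 0, 0, 0, 1⟩]),
    (76, [⟨2, 0, 0, 0, 1⟩]),
    (77, [⟨5, 0, 0, 0, 5⟩]),
    (78, [⟨2, 0, 0, 0, -1⟩]),
    (219, [⟨2, 0, 0, 0, -2⟩]),
    (223, [⟨2, 0, 0, 0, -2⟩])]⟩,
   []⟩

/-- Claim rGMc. -/
def c37 : Claim :=
  ⟨⟨⟨-3, 0, 0, 0, -4⟩, ⟨3, 0, 0, 0, 4⟩, ⟨0, 0, 0, 0, 0⟩, ⟨0, 0, 0, 0, 0⟩, ⟨⟨20, -1, 0, 0, 0⟩, ⟨0, 0, 0, 0, 9⟩, ⟨0, 0, 0, 0, 0⟩, ⟨0, 0, 0, 0, 0⟩⟩⟩,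
   [0, 1, 68, 69, 72, 73, 76, 77],
   [0, 2, 3, 4, 8, 9, 10, 14, 15, 16, 17, 209, 215],
   ⟨130, w28, [⟨0, 0, 0, 0, 0⟩], [⟨18, 0, 0, 0, 26⟩],
    [(0, [⟨6, 1, 0, 0, 6⟩]),
    (1, [⟨6, 1, 0, 0, 7⟩]),
    (2, [⟨9, 1, 0, 0, 13⟩]),
    (4, [⟨6, 0, 0, 0, 6⟩]),
    (6, [⟨5, 1, 0, 0, 7⟩]),
    (68, [⟨3, 0, 0, 0, 3⟩, ⟨6, 1, 0, 0, 5⟩]),
    (69, [⟨6, 0, 0, 0, 5⟩, ⟨3, 1, 0, 0, 3⟩]),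
    (72, [⟨6, 1, 0, 0, 6⟩]),
    (73, [⟨5, 1, 0, 0, 8⟩]),
    (76, [⟨6, 1, 0, 0, 8⟩]),
    (77, [⟨9, 1, 0, 0, 12⟩]),
    (78, [⟨6, 1, 0, 0, 6⟩]),
    (219, [⟨6, 1, 0, 0, 5⟩]),
    (223, [⟨6, 1, 0, 0, 5⟩])],
    [(0, [⟨9, 0, 0, 0, 10⟩]),
    (1, [⟨9, 0, 0, 0, 11⟩]),
    (2, [⟨12, 0, 0, 0, 17⟩]),
    (4, [⟨6, 0, 0, 0, 6⟩]),
    (6, [⟨8, 0, 0, 0, 11⟩]),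
    (68, [⟨9, 0, 0, 0, 9⟩]),
    (69, [⟨6, 0, 0, 0, 7⟩]),
    (72, [⟨9, 0, 0, 0, 10⟩]),
    (73, [⟨8, 0, 0, 0, 12⟩]),
    (76, [⟨9, 0, 0, 0, 12⟩]),
    (77, [⟨12, 0, 0, 0, 16⟩]),
    (78, [⟨9, 0, 0, 0, 10⟩]),
    (219, [⟨9, 0, 0, 0, 9⟩]),
    (223, [⟨9, 0, 0, 0, 9⟩])]⟩,
   ⟨21, w32, [⟨0, 0, 0, 0, 0⟩], [⟨6, 0, 0, 0, 5⟩],
    [(0, [⟨0, 0, 0, 0, 1⟩]),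
    (2, [⟨3, 0, 0, 0, 6⟩]),
    (6, [⟨1, 0, 0, 0, 0⟩]),
    (68, [⟨0, 0, 0, 0, 1⟩]),
    (69, [⟨0, 0, 0, 0, 1⟩]),
    (72, [⟨0, 0, 0, 0, 1⟩]),
    (73, [⟨1, 0, 0, 0, -1⟩]),
    (76, [⟨0, 0, 0, 0, 1⟩]),
    (77, [⟨3, 0, 0, 0, 5⟩]),
    (219, [⟨0, 0, 0, 0, 2⟩]),
    (223, [⟨0, 0, 0, 0, 2⟩])],
    [(0, [⟨2, 0, 0, 0, -1⟩]),
    (1, [⟨2, 0, 0, 0, 0⟩]),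
    (2, [⟨5, 0, 0, 0, 6⟩]),
    (4, [⟨2, 0, 0, 0, 0⟩]),
    (6, [⟨1, 0, 0, 0, 0⟩]),
    (68, [⟨2, 0, 0, 0, -1⟩]),
    (69, [⟨2, 0, 0, 0, -1⟩]),
    (72, [⟨2, 0, 0, 0, -1⟩]),
    (73, [⟨1, 0, 0, 0, 1⟩]),
    (76, [⟨2, 0, 0, 0, 1⟩]),
    (77, [⟨5, 0, 0, 0, 5⟩]),
    (78, [⟨2, 0, 0, 0, -1⟩]),
    (219, [⟨2, 0, 0, 0, -2⟩]),
    (223, [⟨2, 0, 0, 0, -2⟩])]⟩,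
   []⟩

/-- Claim rMd. -/
def c38 : Claim :=
  ⟨⟨⟨-3, 0, 0, 0, -4⟩, ⟨3, 0, 0, 0, 3⟩, ⟨0, 0, 0, 0, 0⟩, ⟨0, 0, 0, 0, 0⟩, ⟨⟨20, -1, 0, 0, 0⟩, ⟨0, 0, 0, 0, 4⟩, ⟨0, 0, 0, 0, 0⟩, ⟨0, 0, 0, 0, 0⟩⟩⟩,
   [93, 94],
   [39, 40, 41],
   ⟨130, w28, [⟨0, 0, 0, 0, 0⟩], [⟨18, 0, 0, 0, 26⟩],
    [(12, [⟨12, 1, 0, 0, 15⟩]),
    (93, [⟨12, 1, 0, 0, 15⟩]),
    (94, [⟨15, 1, 0, 0, 18⟩]),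
    (125, [⟨15, 1, 0, 0, 19⟩])],
    [(12, [⟨15, 0, 0, 0, 18⟩]),
    (93, [⟨15, 0, 0, 0, 19⟩]),
    (94, [⟨18, 0, 0, 0, 22⟩]),
    (125, [⟨18, 0, 0, 0, 23⟩])]⟩,
   ⟨7, w33, [⟨0, 0, 0, 0, 0⟩], [⟨7, 0, 0, 0, 6⟩],
    [(12, [⟨2, 0, 0, 0, 1⟩]),
    (93, [⟨2, 0, 0, 0, 2⟩]),
    (94, [⟨5, 0, 0, 0, 5⟩]),
    (125, [⟨5, 0, 0, 0, 6⟩])],
    [(12, [⟨4, 0, 0, 0, 0⟩]),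
    (93, [⟨4, 0, 0, 0, 1⟩]),
    (94, [⟨7, 0, 0, 0, 4⟩]),
    (125, [⟨7, 0, 0, 0, 5⟩])]⟩,
   []⟩

/-- Claim rGMd. -/
def c39 : Claim :=
  ⟨⟨⟨-3, 0, 0, 0, -4⟩, ⟨3, 0, 0, 0, 4⟩, ⟨0, 0, 0, 0, 0⟩, ⟨0, 0, 0, 0, 0⟩, ⟨⟨20, -1, 0, 0, 0⟩, ⟨0, 0, 0, 0, 9⟩, ⟨0, 0, 0, 0, 0⟩, ⟨0, 0, 0, 0, 0⟩⟩⟩,
   [93, 94],
   [39, 40, 41],
   ⟨130, w28, [⟨0, 0, 0, 0, 0⟩], [⟨18, 0, 0, 0, 26⟩],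
    [(12, [⟨12, 1, 0, 0, 14⟩]),
    (93, [⟨12, 1, 0, 0, 15⟩]),
    (94, [⟨15, 1, 0, 0, 18⟩]),
    (125, [⟨15, 1, 0, 0, 19⟩])],
    [(12, [⟨15, 0, 0, 0, 18⟩]),
    (93, [⟨15, 0, 0, 0, 19⟩]),
    (94, [⟨18, 0, 0, 0, 22⟩]),
    (125, [⟨18, 0, 0, 0, 23⟩])]⟩,
   ⟨7, w33, [⟨0, 0, 0, 0, 0⟩], [⟨7, 0, 0, 0, 6⟩],
    [(12, [⟨2, 0, 0, 0, 1⟩]),
    (93, [⟨2, 0, 0, 0, 2⟩]),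
    (94, [⟨5, 0, 0, 0, 5⟩]),
    (125, [⟨5, 0, 0, 0, 6⟩])],
    [(12, [⟨4, 0, 0, 0, 0⟩]),
    (93, [⟨4, 0, 0, 0, 1⟩]),
    (94, [⟨7, 0, 0, 0, 4⟩]),
    (125, [⟨7, 0, 0, 0, 5⟩])]⟩,
   []⟩

/-- Claim rBs. -/
def c40 : Claim :=
  ⟨⟨⟨-3, 0, 0, 0, -4⟩, ⟨3, 0, 0, 0, 3⟩, ⟨0, 0, 0, 0, 0⟩, ⟨0, 0, 0, 0, 0⟩, ⟨⟨20, -1, 0, 0, 0⟩, ⟨0, 0, 0, 0, 4⟩, ⟨0, 0, 0, 0, 0⟩, ⟨0, 0, 0, 0, 0⟩⟩⟩,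
   [76, 77],
   [14, 15, 16],
   ⟨130, w28, [⟨0, 0, 0, 0, 0⟩], [⟨18, 0, 0, 0, 26⟩],
    [(1, [⟨6, 1, 0, 0, 8⟩]),
    (2, [⟨9, 1, 0, 0, 13⟩]),
    (76, [⟨6, 1, 0, 0, 8⟩]),
    (77, [⟨9, 1, 0, 0, 12⟩])],
    [(1, [⟨9, 0, 0, 0, 11⟩]),
    (2, [⟨12, 0, 0, 0, 17⟩]),
    (76, [⟨9, 0, 0, 0, 12⟩]),
    (77, [⟨12, 0, 0, 0, 16⟩])]⟩,
   ⟨11, w34, [⟨0, 0, 0, 0, 0⟩], [⟨5, 0, 0, 0, 12⟩],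
    [(1, [⟨4, 0, 0, 0, 12⟩]),
    (2, [⟨1, 0, 0, 0, 6⟩]),
    (76, [⟨4, 0, 0, 0, 11⟩]),
    (77, [⟨1, 0, 0, 0, 7⟩])],
    [(2, [⟨3, 0, 0, 0, 6⟩]),
    (77, [⟨3, 0, 0, 0, 7⟩])]⟩,
   []⟩

/-- Claim rGBs. -/
def c41 : Claim :=
  ⟨⟨⟨-3, 0, 0, 0, -4⟩, ⟨3, 0, 0, 0, 4⟩, ⟨0, 0, 0, 0, 0⟩, ⟨0, 0, 0, 0, 0⟩, ⟨⟨20, -1, 0, 0, 0⟩, ⟨0, 0, 0, 0, 9⟩, ⟨0, 0, 0, 0, 0⟩, ⟨0, 0, 0, 0, 0⟩⟩⟩,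
   [76, 77],
   [14, 15, 16],
   ⟨130, w28, [⟨0, 0, 0, 0, 0⟩], [⟨18, 0, 0, 0, 26⟩],
    [(1, [⟨6, 1, 0, 0, 7⟩]),
    (2, [⟨9, 1, 0, 0, 13⟩]),
    (76, [⟨6, 1, 0, 0, 8⟩]),
    (77, [⟨9, 1, 0, 0, 12⟩])],
    [(1, [⟨9, 0, 0, 0, 11⟩]),
    (2, [⟨12, 0, 0, 0, 17⟩]),
    (76, [⟨9, 0, 0, 0, 12⟩]),
    (77, [⟨12, 0, 0, 0, 16⟩])]⟩,
   ⟨11, w34, [⟨0, 0, 0, 0, 0⟩], [⟨5, 0, 0, 0, 12⟩],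
    [(1, [⟨4, 0, 0, 0, 12⟩]),
    (2, [⟨1, 0, 0, 0, 6⟩]),
    (76, [⟨4, 0, 0, 0, 11⟩]),
    (77, [⟨1, 0, 0, 0, 7⟩])],
    [(2, [⟨3, 0, 0, 0, 6⟩]),
    (77, [⟨3, 0, 0, 0, 7⟩])]⟩,
   []⟩

/-- Claim rDa. -/
def c42 : Claim :=
  ⟨⟨⟨-3, 0, 0, 0, -4⟩, ⟨3, 0, 0, 0, 3⟩, ⟨0, 0, 0, 0, 0⟩, ⟨0, 0, 0, 0, 0⟩, ⟨⟨20, -1, 0, 0, 0⟩, ⟨0, 0, 0, 0, 4⟩, ⟨0, 0, 0, 0, 0⟩, ⟨0, 0, 0, 0, 0⟩⟩⟩,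
   [8, 78, 79, 80, 81],
   [17, 18, 19, 20, 21, 22],
   ⟨130, w28, [⟨0, 0, 0, 0, 0⟩], [⟨18, 0, 0, 0, 26⟩],
    [(1, [⟨6, 1, 0, 0, 7⟩]),
    (2, [⟨9, 1, 0, 0, 13⟩]),
    (8, [⟨7, 1, 0, 0, 5⟩]),
    (78, [⟨6, 1, 0, 0, 6⟩]),
    (79, [⟨7, 1, 0, 0, 4⟩]),
    (80, [⟨7, 1, 0, 0, 6⟩]),
    (81, [⟨9, 1, 0, 0, 12⟩])],
    [(1, [⟨9, 0, 0, 0, 11⟩]),
    (2, [⟨12, 0, 0, 0, 17⟩]),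
    (8, [⟨10, 0, 0, 0, 9⟩]),
    (78, [⟨9, 0, 0, 0, 10⟩]),
    (79, [⟨10, 0, 0, 0, 8⟩]),
    (80, [⟨10, 0, 0, 0, 10⟩]),
    (81, [⟨12, 0, 0, 0, 16⟩])]⟩,
   ⟨141, w35, [⟨0, 0, 0, 0, 0⟩], [⟨9, 0, 0, 0, 11⟩],
    [(1, [⟨3, 0, 0, 0, 4⟩]),
    (2, [⟨6, 0, 0, 0, 12⟩]),
    (8, [⟨4, 0, 0, 0, 4⟩]),
    (78, [⟨3, 0, 0, 0, 5⟩]),
    (79, [⟨4, 0, 0, 0, 3⟩]),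
    (80, [⟨4, 0, 0, 0, 5⟩]),
    (81, [⟨6, 0, 0, 0, 11⟩])],
    [(1, [⟨5, 0, 0, 0, 4⟩]),
    (2, [⟨8, 0, 0, 0, 12⟩]),
    (8, [⟨6, 0, 0, 0, 4⟩]),
    (78, [⟨5, 0, 0, 0, 5⟩]),
    (79, [⟨6, 0, 0, 0, 3⟩]),
    (80, [⟨6, 0, 0, 0, 5⟩]),
    (81, [⟨8, 0, 0, 0, 11⟩])]⟩,
   []⟩

/-- Claim rGDa. -/
def c43 : Claim :=
  ⟨⟨⟨-3, 0, 0, 0, -4⟩, ⟨3, 0, 0, 0, 4⟩, ⟨0, 0, 0, 0, 0⟩, ⟨0, 0, 0, 0, 0⟩, ⟨⟨20, -1, 0, 0, 0⟩, ⟨0, 0, 0, 0, 9⟩, ⟨0, 0, 0, 0, 0⟩, ⟨0, 0, 0, 0, 0⟩⟩⟩,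
   [8, 78, 79, 80, 81],
   [17, 18, 19, 20, 21, 22],
   ⟨130, w28, [⟨0, 0, 0, 0, 0⟩], [⟨18, 0, 0, 0, 26⟩],
    [(1, [⟨6, 1, 0, 0, 7⟩]),
    (2, [⟨9, 1, 0, 0, 13⟩]),
    (8, [⟨7, 1, 0, 0, 5⟩]),
    (78, [⟨6, 1, 0, 0, 6⟩]),
    (79, [⟨7, 1, 0, 0, 4⟩]),
    (80, [⟨7, 1, 0, 0, 6⟩]),
    (81, [⟨9, 1, 0, 0, 12⟩])],
    [(1, [⟨9, 0, 0, 0, 11⟩]),
    (2, [⟨12, 0, 0, 0, 17⟩]),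
    (8, [⟨10, 0, 0, 0, 9⟩]),
    (78, [⟨9, 0, 0, 0, 10⟩]),
    (79, [⟨10, 0, 0, 0, 8⟩]),
    (80, [⟨10, 0, 0, 0, 10⟩]),
    (81, [⟨12, 0, 0, 0, 16⟩])]⟩,
   ⟨141, w35, [⟨0, 0, 0, 0, 0⟩], [⟨9, 0, 0, 0, 11⟩],
    [(1, [⟨3, 0, 0, 0, 4⟩]),
    (2, [⟨6, 0, 0, 0, 12⟩]),
    (8, [⟨4, 0, 0, 0, 4⟩]),
    (78, [⟨3, 0, 0, 0, 5⟩]),
    (79, [⟨4, 0, 0, 0, 3⟩]),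
    (80, [⟨4, 0, 0, 0, 5⟩]),
    (81, [⟨6, 0, 0, 0, 11⟩])],
    [(1, [⟨5, 0, 0, 0, 4⟩]),
    (2, [⟨8, 0, 0, 0, 12⟩]),
    (8, [⟨6, 0, 0, 0, 4⟩]),
    (78, [⟨5, 0, 0, 0, 5⟩]),
    (79, [⟨6, 0, 0, 0, 3⟩]),
    (80, [⟨6, 0, 0, 0, 5⟩]),
    (81, [⟨8, 0, 0, 0, 11⟩])]⟩,
   []⟩

/-- Claim rDf. -/
def c44 : Claim :=
  ⟨⟨⟨-3, 0, 0, 0, -4⟩, ⟨3, 0, 0, 0, 3⟩, ⟨0, 0, 0, 0, 0⟩, ⟨0, 0, 0, 0, 0⟩, ⟨⟨20, -1, 0, 0, 0⟩, ⟨0, 0, 0, 0, 5⟩, ⟨0, 0, 0, 0, 0⟩, ⟨0, 0, 0, 0, 0⟩⟩⟩,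
   [78, 79],
   [17, 18, 19],
   ⟨130, w28, [⟨0, 0, 0, 0, 0⟩], [⟨18, 0, 0, 0, 26⟩],
    [(1, [⟨6, 1, 0, 0, 7⟩]),
    (8, [⟨7, 1, 0, 0, 5⟩]),
    (78, [⟨6, 1, 0, 0, 6⟩]),
    (79, [⟨7, 1, 0, 0, 4⟩])],
    [(1, [⟨9, 0, 0, 0, 11⟩]),
    (8, [⟨10, 0, 0, 0, 9⟩]),
    (78, [⟨9, 0, 0, 0, 10⟩]),
    (79, [⟨10, 0, 0, 0, 8⟩])]⟩,
   ⟨7, w24, [⟨0, 0, 0, 0, 0⟩], [⟨6, 0, 0, 0, 14⟩],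
    [(1, [⟨2, 0, 0, 0, 6⟩]),
    (8, [⟨3, 0, 0, 0, 6⟩]),
    (78, [⟨2, 0, 0, 0, 7⟩]),
    (79, [⟨3, 0, 0, 0, 5⟩])],
    [(1, [⟨4, 0, 0, 0, 6⟩]),
    (8, [⟨5, 0, 0, 0, 6⟩]),
    (78, [⟨4, 0, 0, 0, 7⟩]),
    (79, [⟨5, 0, 0, 0, 5⟩])]⟩,
   []⟩

/-- Claim rGDf. -/
def c45 : Claim :=
  ⟨⟨⟨-3, 0, 0, 0, -4⟩, ⟨3, 0, 0, 0, 4⟩, ⟨0, 0, 0, 0, 0⟩, ⟨0, 0, 0, 0, 0⟩, ⟨⟨20, -1, 0, 0, 0⟩, ⟨0, 0, 0, 0, 9⟩, ⟨0, 0, 0, 0, 0⟩, ⟨0, 0, 0, 0, 0⟩⟩⟩,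
   [78, 79],
   [17, 18, 19],
   ⟨130, w28, [⟨0, 0, 0, 0, 0⟩], [⟨18, 0, 0, 0, 26⟩],
    [(1, [⟨6, 1, 0, 0, 7⟩]),
    (8, [⟨7, 1, 0, 0, 5⟩]),
    (78, [⟨6, 1, 0, 0, 6⟩]),
    (79, [⟨7, 1, 0, 0, 4⟩])],
    [(1, [⟨9, 0, 0, 0, 11⟩]),
    (8, [⟨10, 0, 0, 0, 9⟩]),
    (78, [⟨9, 0, 0, 0, 10⟩]),
    (79, [⟨10, 0, 0, 0, 8⟩])]⟩,
   ⟨7, w24, [⟨0, 0, 0, 0, 0⟩], [⟨6, 0, 0, 0, 14⟩],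
    [(1, [⟨2, 0, 0, 0, 6⟩]),
    (8, [⟨3, 0, 0, 0, 6⟩]),
    (78, [⟨2, 0, 0, 0, 7⟩]),
    (79, [⟨3, 0, 0, 0, 5⟩])],
    [(1, [⟨4, 0, 0, 0, 6⟩]),
    (8, [⟨5, 0, 0, 0, 6⟩]),
    (78, [⟨4, 0, 0, 0, 7⟩]),
    (79, [⟨5, 0, 0, 0, 5⟩])]⟩,
   []⟩

/-- Claim rDg. -/
def c46 : Claim :=
  ⟨⟨⟨-3, 0, 0, 0, -4⟩, ⟨3, 0, 0, 0, 3⟩, ⟨0, 0, 0, 0, 0⟩, ⟨0, 0, 0, 0, 0⟩, ⟨⟨20, -1, 0, 0, 0⟩, ⟨0, 0, 0, 0, 5⟩, ⟨0, 0, 0, 0, 0⟩, ⟨0, 0, 0, 0, 0⟩⟩⟩,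
   [80, 81],
   [20, 21, 22],
   ⟨130, w28, [⟨0, 0, 0, 0, 0⟩], [⟨18, 0, 0, 0, 26⟩],
    [(2, [⟨9, 1, 0, 0, 13⟩]),
    (8, [⟨7, 1, 0, 0, 6⟩]),
    (80, [⟨7, 1, 0, 0, 6⟩]),
    (81, [⟨9, 1, 0, 0, 12⟩])],
    [(2, [⟨12, 0, 0, 0, 17⟩]),
    (8, [⟨10, 0, 0, 0, 9⟩]),
    (80, [⟨10, 0, 0, 0, 10⟩]),
    (81, [⟨12, 0, 0, 0, 16⟩])]⟩,
   ⟨6, w36, [⟨0, 0, 0, 0, 0⟩], [⟨6, 0, 0, 0, 14⟩],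
    [(2, [⟨2, 0, 0, 0, 8⟩]),
    (80, [⟨0, 0, 0, 0, 1⟩]),
    (81, [⟨2, 0, 0, 0, 7⟩])],
    [(2, [⟨4, 0, 0, 0, 8⟩]),
    (8, [⟨2, 0, 0, 0, 0⟩]),
    (80, [⟨2, 0, 0, 0, 1⟩]),
    (81, [⟨4, 0, 0, 0, 7⟩])]⟩,
   []⟩

/-- Claim rGDg. -/
def c47 : Claim :=
  ⟨⟨⟨-3, 0, 0, 0, -4⟩, ⟨3, 0, 0, 0, 4⟩, ⟨0, 0, 0, 0, 0⟩, ⟨0, 0, 0, 0, 0⟩, ⟨⟨20, -1, 0, 0, 0⟩, ⟨0, 0, 0, 0, 9⟩, ⟨0, 0, 0, 0, 0⟩, ⟨0, 0, 0, 0, 0⟩⟩⟩,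
   [80, 81],
   [20, 21, 22],
   ⟨130, w28, [⟨0, 0, 0, 0, 0⟩], [⟨18, 0, 0, 0, 26⟩],
    [(2, [⟨9, 1, 0, 0, 13⟩]),
    (8, [⟨7, 1, 0, 0, 5⟩]),
    (80, [⟨7, 1, 0, 0, 6⟩]),
    (81, [⟨9, 1, 0, 0, 12⟩])],
    [(2, [⟨12, 0, 0, 0, 17⟩]),
    (8, [⟨10, 0, 0, 0, 9⟩]),
    (80, [⟨10, 0, 0, 0, 10⟩]),
    (81, [⟨12, 0, 0, 0, 16⟩])]⟩,
   ⟨6, w36, [⟨0, 0, 0, 0, 0⟩], [⟨6, 0, 0, 0, 14⟩],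
    [(2, [⟨2, 0, 0, 0, 8⟩]),
    (80, [⟨0, 0, 0, 0, 1⟩]),
    (81, [⟨2, 0, 0, 0, 7⟩])],
    [(2, [⟨4, 0, 0, 0, 8⟩]),
    (8, [⟨2, 0, 0, 0, 0⟩]),
    (80, [⟨2, 0, 0, 0, 1⟩]),
    (81, [⟨4, 0, 0, 0, 7⟩])]⟩,
   []⟩

/-- Claim rEl. -/
def c48 : Claim :=
  ⟨⟨⟨-3, 0, 0, 0, -4⟩, ⟨3, 0, 0, 0, 3⟩, ⟨0, 0, 0, 0, 0⟩, ⟨0, 0, 0, 0, 0⟩, ⟨⟨20, -1, 0, 0, 0⟩, ⟨0, 0, 0, 0, 5⟩, ⟨0, 0, 0, 0, 0⟩, ⟨0, 0, 0, 0, 0⟩⟩⟩,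
   [82, 83],
   [23, 24, 25],
   ⟨130, w28, [⟨0, 0, 0, 0, 0⟩], [⟨18, 0, 0, 0, 26⟩],
    [(8, [⟨7, 1, 0, 0, 5⟩]),
    (9, [⟨6, 1, 0, 0, 4⟩]),
    (82, [⟨7, 1, 0, 0, 4⟩]),
    (83, [⟨6, 1, 0, 0, 5⟩])],
    [(8, [⟨10, 0, 0, 0, 9⟩]),
    (9, [⟨9, 0, 0, 0, 8⟩]),
    (82, [⟨10, 0, 0, 0, 8⟩]),
    (83, [⟨9, 0, 0, 0, 9⟩])]⟩,
   ⟨6, w37, [⟨0, 0, 0, 0, 0⟩], [⟨1, 0, 0, 0, 1⟩],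
    [(9, [⟨1, 0, 0, 0, 1⟩]),
    (82, [⟨0, 0, 0, 0, 1⟩]),
    (83, [⟨1, 0, 0, 0, 0⟩])],
    [(8, [⟨1, 0, 0, 0, -1⟩]),
    (82, [⟨1, 0, 0, 0, 0⟩])]⟩,
   []⟩

/-- Claim rGEl. -/
def c49 : Claim :=
  ⟨⟨⟨-3, 0, 0, 0, -4⟩, ⟨3, 0, 0, 0, 4⟩, ⟨0, 0, 0, 0, 0⟩, ⟨0, 0, 0, 0, 0⟩, ⟨⟨20, -1, 0, 0, 0⟩, ⟨0, 0, 0, 0, 9⟩, ⟨0, 0, 0, 0, 0⟩, ⟨0, 0, 0, 0, 0⟩⟩⟩,
   [82, 83],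
   [23, 24, 25],
   ⟨130, w28, [⟨0, 0, 0, 0, 0⟩], [⟨18, 0, 0, 0, 26⟩],
    [(8, [⟨7, 1, 0, 0, 5⟩]),
    (9, [⟨6, 1, 0, 0, 4⟩]),
    (82, [⟨7, 1, 0, 0, 4⟩]),
    (83, [⟨6, 1, 0, 0, 5⟩])],
    [(8, [⟨10, 0, 0, 0, 9⟩]),
    (9, [⟨9, 0, 0, 0, 8⟩]),
    (82, [⟨10, 0, 0, 0, 8⟩]),
    (83, [⟨9, 0, 0, 0, 9⟩])]⟩,
   ⟨6, w37, [⟨0, 0, 0, 0, 0⟩], [⟨1, 0, 0, 0, 1⟩],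
    [(9, [⟨1, 0, 0, 0, 1⟩]),
    (82, [⟨0, 0, 0, 0, 1⟩]),
    (83, [⟨1, 0, 0, 0, 0⟩])],
    [(8, [⟨1, 0, 0, 0, -1⟩]),
    (82, [⟨1, 0, 0, 0, 0⟩])]⟩,
   []⟩

/-- Claim rEh. -/
def c50 : Claim :=
  ⟨⟨⟨-3, 0, 0, 0, -4⟩, ⟨3, 0, 0, 0, 3⟩, ⟨0, 0, 0, 0, 0⟩, ⟨0, 0, 0, 0, 0⟩, ⟨⟨20, -1, 0, 0, 0⟩, ⟨0, 0, 0, 0, 5⟩, ⟨0, 0, 0, 0, 0⟩, ⟨0, 0, 0, 0, 0⟩⟩⟩,
   [82, 83],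
   [23, 24, 25],
   ⟨130, w28, [⟨0, 0, 0, 0, 0⟩], [⟨18, 0, 0, 0, 26⟩],
    [(8, [⟨7, 1, 0, 0, 5⟩]),
    (9, [⟨6, 1, 0, 0, 4⟩]),
    (82, [⟨7, 1, 0, 0, 4⟩]),
    (83, [⟨6, 1, 0, 0, 5⟩])],
    [(8, [⟨10, 0, 0, 0, 9⟩]),
    (9, [⟨9, 0, 0, 0, 8⟩]),
    (82, [⟨10, 0, 0, 0, 8⟩]),
    (83, [⟨9, 0, 0, 0, 9⟩])]⟩,
   ⟨7, w38, [⟨0, 0, 0, 0, 0⟩], [⟨2, 0, 0, 0, 8⟩],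
    [(8, [⟨1, 0, 0, 0, 8⟩]),
    (9, [⟨2, 0, 0, 0, 8⟩]),
    (82, [⟨1, 0, 0, 0, 9⟩]),
    (83, [⟨2, 0, 0, 0, 8⟩])],
    [(8, [⟨2, 0, 0, 0, 6⟩]),
    (82, [⟨2, 0, 0, 0, 7⟩])]⟩,
   []⟩

/-- Claim rGEh. -/
def c51 : Claim :=
  ⟨⟨⟨-3, 0, 0, 0, -4⟩, ⟨3, 0, 0, 0, 4⟩, ⟨0, 0, 0, 0, 0⟩, ⟨0, 0, 0, 0, 0⟩, ⟨⟨20, -1, 0, 0, 0⟩, ⟨0, 0, 0, 0, 9⟩, ⟨0, 0, 0, 0, 0⟩, ⟨0, 0, 0, 0, 0⟩⟩⟩,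
   [82, 83],
   [23, 24, 25],
   ⟨130, w28, [⟨0, 0, 0, 0, 0⟩], [⟨18, 0, 0, 0, 26⟩],
    [(8, [⟨7, 1, 0, 0, 5⟩]),
    (9, [⟨6, 1, 0, 0, 4⟩]),
    (82, [⟨7, 1, 0, 0, 4⟩]),
    (83, [⟨6, 1, 0, 0, 5⟩])],
    [(8, [⟨10, 0, 0, 0, 9⟩]),
    (9, [⟨9, 0, 0, 0, 8⟩]),
    (82, [⟨10, 0, 0, 0, 8⟩]),
    (83, [⟨9, 0, 0, 0, 9⟩])]⟩,
   ⟨7, w38, [⟨0, 0, 0, 0, 0⟩], [⟨2, 0, 0, 0, 8⟩],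
    [(8, [⟨1, 0, 0, 0, 8⟩]),
    (9, [⟨2, 0, 0, 0, 8⟩]),
    (82, [⟨1, 0, 0, 0, 9⟩]),
    (83, [⟨2, 0, 0, 0, 8⟩])],
    [(8, [⟨2, 0, 0, 0, 6⟩]),
    (82, [⟨2, 0, 0, 0, 7⟩])]⟩,
   []⟩

/-- Claim rFb. -/
def c52 : Claim :=
  ⟨⟨⟨-3, 0, 0, 0, -4⟩, ⟨3, 0, 0, 0, 3⟩, ⟨0, 0, 0, 0, 0⟩, ⟨0, 0, 0, 0, 0⟩, ⟨⟨20, -1, 0, 0, 0⟩, ⟨0, 0, 0, 0, 4⟩, ⟨0, 0, 0, 0, 0⟩, ⟨0, 0, 0, 0, 0⟩⟩⟩,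
   [13, 97, 98],
   [44, 45, 46, 47],
   ⟨130, w28, [⟨0, 0, 0, 0, 0⟩], [⟨18, 0, 0, 0, 26⟩],
    [(13, [⟨12, 1, 0, 0, 15⟩]),
    (96, [⟨12, 1, 0, 0, 15⟩]),
    (97, [⟨12, 1, 0, 0, 16⟩]),
    (98, [⟨15, 1, 0, 0, 18⟩]),
    (125, [⟨15, 1, 0, 0, 19⟩])],
    [(13, [⟨15, 0, 0, 0, 19⟩]),
    (96, [⟨15, 0, 0, 0, 18⟩]),
    (97, [⟨15, 0, 0, 0, 20⟩]),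
    (98, [⟨18, 0, 0, 0, 22⟩]),
    (125, [⟨18, 0, 0, 0, 23⟩])]⟩,
   ⟨7, w39, [⟨0, 0, 0, 0, 0⟩], [⟨9, 0, 0, 0, 12⟩],
    [(13, [⟨2, 0, 0, 0, 1⟩]),
    (96, [⟨2, 0, 0, 0, 1⟩]),
    (97, [⟨2, 0, 0, 0, 2⟩]),
    (98, [⟨5, 0, 0, 0, 4⟩]),
    (125, [⟨5, 0, 0, 0, 5⟩])],
    [(13, [⟨4, 0, 0, 0, 1⟩]),
    (96, [⟨4, 0, 0, 0, 1⟩]),
    (97, [⟨4, 0, 0, 0, 2⟩]),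
    (98, [⟨7, 0, 0, 0, 4⟩]),
    (125, [⟨7, 0, 0, 0, 5⟩])]⟩,
   []⟩

/-- Claim rGFb. -/
def c53 : Claim :=
  ⟨⟨⟨-3, 0, 0, 0, -4⟩, ⟨3, 0, 0, 0, 4⟩, ⟨0, 0, 0, 0, 0⟩, ⟨0, 0, 0, 0, 0⟩, ⟨⟨20, -1, 0, 0, 0⟩, ⟨0, 0, 0, 0, 9⟩, ⟨0, 0, 0, 0, 0⟩, ⟨0, 0, 0, 0, 0⟩⟩⟩,
   [13, 97, 98],
   [44, 45, 46, 47],
   ⟨130, w28, [⟨0, 0, 0, 0, 0⟩], [⟨18, 0, 0, 0, 26⟩],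
    [(13, [⟨12, 1, 0, 0, 15⟩]),
    (96, [⟨12, 1, 0, 0, 14⟩]),
    (97, [⟨12, 1, 0, 0, 16⟩]),
    (98, [⟨15, 1, 0, 0, 18⟩]),
    (125, [⟨15, 1, 0, 0, 19⟩])],
    [(13, [⟨15, 0, 0, 0, 19⟩]),
    (96, [⟨15, 0, 0, 0, 18⟩]),
    (97, [⟨15, 0, 0, 0, 20⟩]),
    (98, [⟨18, 0, 0, 0, 22⟩]),
    (125, [⟨18, 0, 0, 0, 23⟩])]⟩,
   ⟨7, w39, [⟨0, 0, 0, 0, 0⟩], [⟨9, 0, 0, 0, 12⟩],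
    [(13, [⟨2, 0, 0, 0, 1⟩]),
    (96, [⟨2, 0, 0, 0, 1⟩]),
    (97, [⟨2, 0, 0, 0, 2⟩]),
    (98, [⟨5, 0, 0, 0, 4⟩]),
    (125, [⟨5, 0, 0, 0, 5⟩])],
    [(13, [⟨4, 0, 0, 0, 1⟩]),
    (96, [⟨4, 0, 0, 0, 1⟩]),
    (97, [⟨4, 0, 0, 0, 2⟩]),
    (98, [⟨7, 0, 0, 0, 4⟩]),
    (125, [⟨7, 0, 0, 0, 5⟩])]⟩,
   []⟩

/-- Claim rFc. -/
def c54 : Claim :=
  ⟨⟨⟨-3, 0, 0, 0, -4⟩, ⟨3, 0, 0, 0, 3⟩, ⟨0, 0, 0, 0, 0⟩, ⟨0, 0, 0, 0, 0⟩, ⟨⟨20, -1, 0, 0, 0⟩, ⟨0, 0, 0, 0, 5⟩, ⟨0, 0, 0, 0, 0⟩, ⟨0, 0, 0, 0, 0⟩⟩⟩,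
   [97, 98],
   [45, 46, 47],
   ⟨130, w28, [⟨0, 0, 0, 0, 0⟩], [⟨18, 0, 0, 0, 26⟩],
    [(13, [⟨12, 1, 0, 0, 16⟩]),
    (97, [⟨12, 1, 0, 0, 16⟩]),
    (98, [⟨15, 1, 0, 0, 18⟩]),
    (125, [⟨15, 1, 0, 0, 19⟩])],
    [(13, [⟨15, 0, 0, 0, 19⟩]),
    (97, [⟨15, 0, 0, 0, 20⟩]),
    (98, [⟨18, 0, 0, 0, 22⟩]),
    (125, [⟨18, 0, 0, 0, 23⟩])]⟩,
   ⟨7, w33, [⟨0, 0, 0, 0, 0⟩], [⟨7, 0, 0, 0, 6⟩],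
    [(13, [⟨2, 0, 0, 0, 1⟩]),
    (97, [⟨2, 0, 0, 0, 2⟩]),
    (98, [⟨5, 0, 0, 0, 4⟩]),
    (125, [⟨5, 0, 0, 0, 5⟩])],
    [(13, [⟨4, 0, 0, 0, 1⟩]),
    (97, [⟨4, 0, 0, 0, 2⟩]),
    (98, [⟨7, 0, 0, 0, 4⟩]),
    (125, [⟨7, 0, 0, 0, 5⟩])]⟩,
   []⟩

/-- Claim rGFc. -/
def c55 : Claim :=
  ⟨⟨⟨-3, 0, 0, 0, -4⟩, ⟨3, 0, 0, 0, 4⟩, ⟨0, 0, 0, 0, 0⟩, ⟨0, 0, 0, 0, 0⟩, ⟨⟨20, -1, 0, 0, 0⟩, ⟨0, 0, 0, 0, 9⟩, ⟨0, 0, 0, 0, 0⟩, ⟨0, 0, 0, 0, 0⟩⟩⟩,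
   [97, 98],
   [45, 46, 47],
   ⟨130, w28, [⟨0, 0, 0, 0, 0⟩], [⟨18, 0, 0, 0, 26⟩],
    [(13, [⟨12, 1, 0, 0, 15⟩]),
    (97, [⟨12, 1, 0, 0, 16⟩]),
    (98, [⟨15, 1, 0, 0, 18⟩]),
    (125, [⟨15, 1, 0, 0, 19⟩])],
    [(13, [⟨15, 0, 0, 0, 19⟩]),
    (97, [⟨15, 0, 0, 0, 20⟩]),
    (98, [⟨18, 0, 0, 0, 22⟩]),
    (125, [⟨18, 0, 0, 0, 23⟩])]⟩,
   ⟨7, w33, [⟨0, 0, 0, 0, 0⟩], [⟨7, 0, 0, 0, 6⟩],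
    [(13, [⟨2, 0, 0, 0, 1⟩]),
    (97, [⟨2, 0, 0, 0, 2⟩]),
    (98, [⟨5, 0, 0, 0, 4⟩]),
    (125, [⟨5, 0, 0, 0, 5⟩])],
    [(13, [⟨4, 0, 0, 0, 1⟩]),
    (97, [⟨4, 0, 0, 0, 2⟩]),
    (98, [⟨7, 0, 0, 0, 4⟩]),
    (125, [⟨7, 0, 0, 0, 5⟩])]⟩,
   []⟩

/-- Claim rFa. -/
def c56 : Claim :=
  ⟨⟨⟨-3, 0, 0, 0, -4⟩, ⟨3, 0, 0, 0, 3⟩, ⟨0, 0, 0, 0, 0⟩, ⟨0, 0, 0, 0, 0⟩, ⟨⟨20, -1, 0, 0, 0⟩, ⟨0, 0, 0, 0, 5⟩, ⟨0, 0, 0, 0, 0⟩, ⟨0, 0, 0, 0, 0⟩⟩⟩,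
   [95, 96],
   [42, 43, 44],
   ⟨130, w28, [⟨12, 1, 0, 0, 14⟩], [⟨15, 0, 0, 0, 18⟩],
    [(12, [⟨12, 1, 0, 0, 15⟩]),
    (13, [⟨12, 1, 0, 0, 15⟩])],
    []⟩,
   ⟨7, w40, [⟨2, 0, 0, 0, 1⟩], [⟨4, 0, 0, 0, 1⟩],
    [],
    [(12, [⟨4, 0, 0, 0, 0⟩])]⟩,
   []⟩

/-- Claim rGFa. -/
def c57 : Claim :=
  ⟨⟨⟨-3, 0, 0, 0, -4⟩, ⟨3, 0, 0, 0, 4⟩, ⟨0, 0, 0, 0, 0⟩, ⟨0, 0, 0, 0, 0⟩, ⟨⟨20, -1, 0, 0, 0⟩, ⟨0, 0, 0, 0, 9⟩, ⟨0, 0, 0, 0, 0⟩, ⟨0, 0, 0, 0, 0⟩⟩⟩,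
   [95, 96],
   [42, 43, 44],
   ⟨130, w28, [⟨12, 1, 0, 0, 14⟩], [⟨15, 0, 0, 0, 18⟩],
    [],
    []⟩,
   ⟨7, w40, [⟨2, 0, 0, 0, 1⟩], [⟨4, 0, 0, 0, 1⟩],
    [],
    [(12, [⟨4, 0, 0, 0, 0⟩])]⟩,
   []⟩

/-- Claim rFEh. -/
def c58 : Claim :=
  ⟨⟨⟨-3, 0, 0, 0, -4⟩, ⟨3, 0, 0, 0, 3⟩, ⟨0, 0, 0, 0, 0⟩, ⟨0, 0, 0, 0, 0⟩, ⟨⟨20, -1, 0, 0, 0⟩, ⟨0, 0, 0, 0, 5⟩, ⟨0, 0, 0, 0, 0⟩, ⟨0, 0, 0, 0, 0⟩⟩⟩,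
   [99, 100],
   [48, 49, 50],
   ⟨130, w28, [⟨0, 0, 0, 0, 0⟩], [⟨18, 0, 0, 0, 26⟩],
    [(13, [⟨12, 1, 0, 0, 15⟩]),
    (14, [⟨10, 1, 0, 0, 14⟩]),
    (99, [⟨12, 1, 0, 0, 14⟩]),
    (100, [⟨10, 1, 0, 0, 15⟩])],
    [(13, [⟨15, 0, 0, 0, 19⟩]),
    (14, [⟨13, 0, 0, 0, 18⟩]),
    (99, [⟨15, 0, 0, 0, 18⟩]),
    (100, [⟨13, 0, 0, 0, 19⟩])]⟩,
   ⟨131, w41, [⟨0, 0, 0, 0, 0⟩], [⟨4, 0, 0, 0, 6⟩],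
    [(13, [⟨2, 0, 0, 0, 5⟩]),
    (14, [⟨4, 0, 0, 0, 6⟩]),
    (99, [⟨2, 0, 0, 0, 6⟩]),
    (100, [⟨4, 0, 0, 0, 5⟩])],
    [(13, [⟨4, 0, 0, 0, 4⟩]),
    (99, [⟨4, 0, 0, 0, 5⟩])]⟩,
   []⟩

/-- Claim rGFEh. -/
def c59 : Claim :=
  ⟨⟨⟨-3, 0, 0, 0, -4⟩, ⟨3, 0, 0, 0, 4⟩, ⟨0, 0, 0, 0, 0⟩, ⟨0, 0, 0, 0, 0⟩, ⟨⟨20, -1, 0, 0, 0⟩, ⟨0, 0, 0, 0, 9⟩, ⟨0, 0, 0, 0, 0⟩, ⟨0, 0, 0, 0, 0⟩⟩⟩,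
   [99, 100],
   [48, 49, 50],
   ⟨130, w28, [⟨0, 0, 0, 0, 0⟩], [⟨18, 0, 0, 0, 26⟩],
    [(13, [⟨12, 1, 0, 0, 15⟩]),
    (14, [⟨10, 1, 0, 0, 14⟩]),
    (99, [⟨12, 1, 0, 0, 14⟩]),
    (100, [⟨10, 1, 0, 0, 15⟩])],
    [(13, [⟨15, 0, 0, 0, 19⟩]),
    (14, [⟨13, 0, 0, 0, 18⟩]),
    (99, [⟨15, 0, 0, 0, 18⟩]),
    (100, [⟨13, 0, 0, 0, 19⟩])]⟩,
   ⟨131, w41, [⟨0, 0, 0, 0, 0⟩], [⟨4, 0, 0, 0, 6⟩],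
    [(13, [⟨2, 0, 0, 0, 5⟩]),
    (14, [⟨4, 0, 0, 0, 6⟩]),
    (99, [⟨2, 0, 0, 0, 6⟩]),
    (100, [⟨4, 0, 0, 0, 5⟩])],
    [(13, [⟨4, 0, 0, 0, 4⟩]),
    (99, [⟨4, 0, 0, 0, 5⟩])]⟩,
   []⟩

/-- Claim trap1_z1@0_sq@0. -/
def c60 : Claim :=
  ⟨⟨⟨0, 0, 0, 0, 0⟩, ⟨0, 0, 0, 0, 0⟩, ⟨0, 0, 0, 0, 0⟩, ⟨0, 0, 0, 0, 0⟩, ⟨⟨0, 0, 0, 0, 0⟩, ⟨0, 0, 0, 0, 0⟩, ⟨0, 0, 0, 0, 0⟩, ⟨0, 0, 0, 0, 0⟩⟩⟩,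
   [78, 79],
   [17, 18, 19],
   ⟨6, w42, [⟨0, 0, 0, 0, 0⟩], [⟨2, 0, 0, 0, 0⟩],
    [(1, [⟨1, 0, 0, 0, 0⟩]),
    (8, [⟨0, 0, 0, 0, 0⟩]),
    (78, [⟨1, 0, 0, 0, -1⟩]),
    (79, [⟨0, 0, 0, 0, 1⟩])],
    [(1, [⟨1, 0, 0, 0, 0⟩]),
    (8, [⟨2, 0, 0, 0, 0⟩]),
    (78, [⟨1, 0, 0, 0, 1⟩]),
    (79, [⟨2, 0, 0, 0, -1⟩])]⟩,
   ⟨81, w43, [⟨0, 0, 0, 0, 0⟩], [⟨3, 0, 0, 0, 7⟩],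
    [(1, [⟨1, 0, 0, 0, 7⟩]),
    (8, [⟨2, 0, 0, 0, 7⟩]),
    (78, [⟨1, 0, 0, 0, 8⟩]),
    (79, [⟨2, 0, 0, 0, 6⟩])],
    [(1, [⟨3, 0, 0, 0, 7⟩]),
    (8, [⟨2, 0, 0, 0, 7⟩]),
    (78, [⟨3, 0, 0, 0, 6⟩]),
    (79, [⟨2, 0, 0, 0, 8⟩])]⟩,
   []⟩

/-- Claim trap2_Fu@0_f1@1. -/
def c61 : Claim :=
  ⟨⟨⟨0, 0, 0, 0, 0⟩, ⟨0, 0, 0, 0, 0⟩, ⟨0, 0, 0, 0, 0⟩, ⟨0, 0, 0, 0, 0⟩, ⟨⟨0, 0, 0, 0, 0⟩, ⟨0, 0, 0, 0, 0⟩, ⟨0, 0, 0, 0, 0⟩, ⟨0, 0, 0, 0, 0⟩⟩⟩,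
   [93, 94],
   [39, 40, 41],
   ⟨75, w44, [⟨0, 0, 0, 0, 0⟩], [⟨7, 0, 0, 0, 4⟩],
    [(12, [⟨4, 0, 0, 0, -1⟩]),
    (93, [⟨4, 0, 0, 0, -2⟩]),
    (94, [⟨1, 0, 0, 0, -5⟩]),
    (125, [⟨1, 0, 0, 0, -6⟩])],
    [(12, [⟨4, 0, 0, 0, -1⟩]),
    (93, [⟨4, 0, 0, 0, 0⟩]),
    (94, [⟨7, 0, 0, 0, 3⟩]),
    (125, [⟨7, 0, 0, 0, 4⟩])]⟩,
   ⟨110, w45, [⟨0, 0, 0, 0, 0⟩], [⟨6, 0, 0, 0, 10⟩],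
    [(12, [⟨0, 0, 0, 0, 0⟩]),
    (93, [⟨0, 0, 0, 0, 1⟩]),
    (94, [⟨3, 0, 0, 0, 4⟩]),
    (125, [⟨3, 0, 0, 0, 5⟩])],
    [(12, [⟨6, 0, 0, 0, 10⟩]),
    (93, [⟨6, 0, 0, 0, 9⟩]),
    (94, [⟨3, 0, 0, 0, 6⟩]),
    (125, [⟨3, 0, 0, 0, 5⟩])]⟩,
   []⟩

/-- Claim trap3_Fu@0_Fq@0. -/
def c62 : Claim :=
  ⟨⟨⟨0, 0, 0, 0, 0⟩, ⟨0, 0, 0, 0, 0⟩, ⟨0, 0, 0, 0, 0⟩, ⟨0, 0, 0, 0, 0⟩, ⟨⟨0, 0, 0, 0, 0⟩, ⟨0, 0, 0, 0, 0⟩, ⟨0, 0, 0, 0, 0⟩, ⟨0, 0, 0, 0, 0⟩⟩⟩,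
   [95, 96],
   [42, 43, 44],
   ⟨90, w46, [⟨0, 0, 0, 0, 0⟩], [⟨5, 0, 0, 0, 0⟩],
    [(12, [⟨3, 0, 0, 0, -1⟩]),
    (13, [⟨1, 0, 0, 0, -2⟩]),
    (95, [⟨3, 0, 0, 0, -2⟩]),
    (96, [⟨1, 0, 0, 0, -1⟩])],
    [(12, [⟨3, 0, 0, 0, -1⟩]),
    (13, [⟨5, 0, 0, 0, 0⟩]),
    (95, [⟨3, 0, 0, 0, 0⟩]),
    (96, [⟨5, 0, 0, 0, -1⟩])]⟩,
   ⟨98, w47, [⟨0, 0, 0, 0, 0⟩], [⟨5, 0, 0, 0, 4⟩],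
    [(12, [⟨1, 0, 0, 0, 2⟩]),
    (13, [⟨3, 0, 0, 0, 3⟩]),
    (95, [⟨1, 0, 0, 0, 3⟩]),
    (96, [⟨3, 0, 0, 0, 2⟩])],
    [(12, [⟨5, 0, 0, 0, 4⟩]),
    (13, [⟨3, 0, 0, 0, 3⟩]),
    (95, [⟨5, 0, 0, 0, 3⟩]),
    (96, [⟨3, 0, 0, 0, 4⟩])]⟩,
   []⟩

/-- Claim trap4_z1@0_f2@0. -/
def c63 : Claim :=
  ⟨⟨⟨0, 0, 0, 0, 0⟩, ⟨0, 0, 0, 0, 0⟩, ⟨0, 0, 0, 0, 0⟩, ⟨0, 0, 0, 0, 0⟩, ⟨⟨0, 0, 0, 0, 0⟩, ⟨0, 0, 0, 0, 0⟩, ⟨0, 0, 0, 0, 0⟩, ⟨0, 0, 0, 0, 0⟩⟩⟩,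
   [76, 77],
   [14, 15, 16],
   ⟨89, w48, [⟨0, 0, 0, 0, 0⟩], [⟨7, 0, 0, 0, 14⟩],
    [(1, [⟨4, 0, 0, 0, 8⟩]),
    (2, [⟨1, 0, 0, 0, 2⟩]),
    (76, [⟨4, 0, 0, 0, 7⟩]),
    (77, [⟨1, 0, 0, 0, 3⟩])],
    [(1, [⟨4, 0, 0, 0, 8⟩]),
    (2, [⟨7, 0, 0, 0, 14⟩]),
    (76, [⟨4, 0, 0, 0, 9⟩]),
    (77, [⟨7, 0, 0, 0, 13⟩])]⟩,
   ⟨107, w49, [⟨0, 0, 0, 0, 0⟩], [⟨6, 0, 0, 0, 10⟩],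
    [(1, [⟨3, 0, 0, 0, 4⟩]),
    (2, [⟨6, 0, 0, 0, 10⟩]),
    (76, [⟨3, 0, 0, 0, 5⟩]),
    (77, [⟨6, 0, 0, 0, 9⟩])],
    [(1, [⟨9, 0, 0, 0, 16⟩]),
    (2, [⟨6, 0, 0, 0, 10⟩]),
    (76, [⟨9, 0, 0, 0, 15⟩]),
    (77, [⟨6, 0, 0, 0, 11⟩])]⟩,
   []⟩

/-- Claim trap5_z1@0_f2@0. -/
def c64 : Claim :=
  ⟨⟨⟨0, 0, 0, 0, 0⟩, ⟨0, 0, 0, 0, 0⟩, ⟨0, 0, 0, 0, 0⟩, ⟨0, 0, 0, 0, 0⟩, ⟨⟨0, 0, 0, 0, 0⟩, ⟨0, 0, 0, 0, 0⟩, ⟨0, 0, 0, 0, 0⟩, ⟨0, 0, 0, 0, 0⟩⟩⟩,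
   [76, 77],
   [14, 15, 16],
   ⟨230, w50, [⟨0, 0, 0, 0, 0⟩], [⟨8, 0, 0, 0, 9⟩],
    [(1, [⟨5, 0, 0, 0, 3⟩]),
    (2, [⟨2, 0, 0, 0, -3⟩]),
    (76, [⟨5, 0, 0, 0, 2⟩]),
    (77, [⟨2, 0, 0, 0, -2⟩])],
    [(1, [⟨5, 0, 0, 0, 3⟩]),
    (2, [⟨8, 0, 0, 0, 9⟩]),
    (76, [⟨5, 0, 0, 0, 4⟩]),
    (77, [⟨8, 0, 0, 0, 8⟩])]⟩,
   ⟨107, w49, [⟨0, 0, 0, 0, 0⟩], [⟨6, 0, 0, 0, 10⟩],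
    [(1, [⟨3, 0, 0, 0, 4⟩]),
    (2, [⟨6, 0, 0, 0, 10⟩]),
    (76, [⟨3, 0, 0, 0, 5⟩]),
    (77, [⟨6, 0, 0, 0, 9⟩])],
    [(1, [⟨9, 0, 0, 0, 16⟩]),
    (2, [⟨6, 0, 0, 0, 10⟩]),
    (76, [⟨9, 0, 0, 0, 15⟩]),
    (77, [⟨6, 0, 0, 0, 11⟩])]⟩,
   []⟩

/-- Claim R1. -/
def c65 : Claim :=
  ⟨⟨⟨0, 0, 0, 0, 0⟩, ⟨0, 0, 0, 0, 0⟩, ⟨0, 0, 0, 0, 0⟩, ⟨0, 0, 0, 0, 0⟩, ⟨⟨110, 0, 0, 0, 0⟩, ⟨0, 0, 0, 0, 0⟩, ⟨0, 0, 0, 0, 0⟩, ⟨0, 0, 0, 0, 0⟩⟩⟩,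
   [2, 3, 74, 75, 70, 71],
   [1, 5, 6, 7, 11, 12, 13],
   ⟨4, w51, [⟨0, 0, 0, 0, 4⟩], [⟨3, 0, 0, 0, 7⟩],
    [(3, [⟨0, 0, 0, 0, 5⟩]),
    (5, [⟨3, 0, 0, 0, 7⟩]),
    (71, [⟨3, 0, 0, 0, 6⟩])],
    []⟩,
   ⟨7, [], [⟨0, 0, 0, 0, 0⟩], [⟨0, 0, 0, 0, 0⟩],
    [],
    []⟩,
   []⟩

/-- Claim R2. -/
def c66 : Claim :=
  ⟨⟨⟨0, 0, 0, 0, 0⟩, ⟨0, 0, 0, 0, 0⟩, ⟨0, 0, 0, 0, 0⟩, ⟨0, 0, 0, 0, 0⟩, ⟨⟨110, 0, 0, 0, 0⟩, ⟨0, 0, 0, 0, 0⟩, ⟨0, 0, 0, 0, 0⟩, ⟨0, 0, 0, 0, 0⟩⟩⟩,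
   [76, 77, 1],
   [14, 15, 16],
   ⟨4, w51, [⟨0, 0, 0, 0, 4⟩], [⟨3, 0, 0, 0, 7⟩],
    [],
    [(1, [⟨3, 0, 0, 0, 5⟩]),
    (76, [⟨3, 0, 0, 0, 6⟩])]⟩,
   ⟨131, w52, [⟨4, 0, 0, 0, 6⟩], [⟨6, 0, 0, 0, 12⟩],
    [(1, [⟨6, 0, 0, 0, 12⟩]),
    (76, [⟨6, 0, 0, 0, 11⟩])],
    [(2, [⟨4, 0, 0, 0, 6⟩]),
    (77, [⟨4, 0, 0, 0, 7⟩])]⟩,
   []⟩

/-- Claim R3. -/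
def c67 : Claim :=
  ⟨⟨⟨0, 0, 0, 0, 0⟩, ⟨0, 0, 0, 0, 0⟩, ⟨0, 0, 0, 0, 0⟩, ⟨0, 0, 0, 0, 0⟩, ⟨⟨110, 0, 0, 0, 0⟩, ⟨0, 0, 0, 0, 0⟩, ⟨0, 0, 0, 0, 0⟩, ⟨0, 0, 0, 0, 0⟩⟩⟩,
   [80, 81, 8],
   [20, 21, 22],
   ⟨4, w51, [⟨0, 0, 0, 0, 4⟩], [⟨3, 0, 0, 0, 7⟩],
    [],
    []⟩,
   ⟨131, w53, [⟨4, 0, 0, 0, 6⟩], [⟨5, 0, 0, 0, 14⟩],
    [(8, [⟨5, 0, 0, 0, 14⟩]),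
    (80, [⟨5, 0, 0, 0, 13⟩])],
    [(2, [⟨4, 0, 0, 0, 6⟩]),
    (81, [⟨4, 0, 0, 0, 7⟩])]⟩,
   []⟩

/-- Claim R4. -/
def c68 : Claim :=
  ⟨⟨⟨0, 0, 0, 0, 0⟩, ⟨0, 0, 0, 0, 0⟩, ⟨0, 0, 0, 0, 0⟩, ⟨0, 0, 0, 0, 0⟩, ⟨⟨110, 0, 0, 0, 0⟩, ⟨0, 0, 0, 0, 0⟩, ⟨0, 0, 0, 0, 0⟩, ⟨0, 0, 0, 0, 0⟩⟩⟩,
   [90, 91],
   [35, 36],
   ⟨4, w51, [⟨0, 0, 0, 0, 4⟩], [⟨3, 0, 0, 0, 7⟩],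
    [(3, [⟨0, 0, 0, 0, 5⟩]),
    (90, [⟨0, 0, 0, 0, 6⟩]),
    (91, [⟨1, 0, 0, 0, 6⟩])],
    []⟩,
   ⟨131, w54, [⟨4, 0, 0, 0, 6⟩], [⟨4, 0, 0, 0, 8⟩],
    [(91, [⟨4, 0, 0, 0, 8⟩])],
    [(3, [⟨4, 0, 0, 0, 6⟩]),
    (90, [⟨4, 0, 0, 0, 7⟩])]⟩,
   []⟩

/-- Claim E2f. -/
def c69 : Claim :=
  ⟨⟨⟨0, 0, 0, 0, 1⟩, ⟨1, 0, 0, 0, 0⟩, ⟨0, 0, 0, 0, 0⟩, ⟨0, 0, 0, 0, 0⟩, ⟨⟨120, 0, 0, 0, 0⟩, ⟨0, 0, 0, 0, 1⟩, ⟨0, 1, 0, 0, 0⟩, ⟨0, 0, 0, 0, 0⟩⟩⟩,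
   [2, 3, 74, 75, 70, 71],
   [1, 5, 6, 7, 11, 12, 13],
   ⟨131, w55, [⟨0, 0, 0, 0, 0⟩], [⟨4, 0, 0, 0, 6⟩],
    [(2, [⟨4, -1, 0, 0, 6⟩]),
    (3, [⟨4, -1, 0, 0, 6⟩, ⟨3, 0, 0, 0, 7⟩]),
    (5, [⟨1, -1, 0, 0, 2⟩]),
    (7, [⟨4, 0, 0, 0, 6⟩]),
    (70, [⟨4, -1, 0, 0, 5⟩]),
    (71, [⟨1, -1, 0, 0, 3⟩]),
    (74, [⟨4, -1, 0, 0, 5⟩, ⟨3, 0, 0, 0, 7⟩]),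
    (75, [⟨4, 0, 0, 0, 5⟩])],
    []⟩,
   ⟨4, w51, [⟨0, 0, 0, 0, 4⟩], [⟨3, 0, 0, 0, 7⟩],
    [(3, [⟨0, 0, 0, 0, 5⟩]),
    (5, [⟨3, 0, 0, 0, 7⟩]),
    (71, [⟨3, 0, 0, 0, 6⟩])],
    []⟩,
   []⟩

/-- Claim EM. -/
def c70 : Claim :=
  ⟨⟨⟨0, 0, 0, 0, 1⟩, ⟨1, 0, 0, 0, 0⟩, ⟨0, 0, 0, 0, 0⟩, ⟨0, 0, 0, 0, 0⟩, ⟨⟨120, 0, 0, 0, 0⟩, ⟨0, 0, 0, 0, 1⟩, ⟨0, 1, 0, 0, 0⟩, ⟨0, 0, 0, 0, 0⟩⟩⟩,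
   [76, 77],
   [14, 15, 16],
   ⟨131, w52, [⟨0, 0, 0, 0, 0⟩], [⟨6, 0, 0, 0, 12⟩],
    [(1, [⟨6, 0, 0, 0, 12⟩]),
    (2, [⟨4, -1, 0, 0, 7⟩]),
    (76, [⟨6, 0, 0, 0, 11⟩]),
    (77, [⟨3, 0, 0, 0, 7⟩, ⟨4, -1, 0, 0, 6⟩])],
    [(2, [⟨4, 0, 0, 0, 6⟩]),
    (77, [⟨4, 0, 0, 0, 7⟩])]⟩,
   ⟨4, w51, [⟨0, 0, 0, 0, 4⟩], [⟨3, 0, 0, 0, 7⟩],
    [],
    [(1, [⟨3, 0, 0, 0, 5⟩]),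
    (76, [⟨3, 0, 0, 0, 6⟩])]⟩,
   []⟩

/-- Claim EA. -/
def c71 : Claim :=
  ⟨⟨⟨0, 0, 0, 0, 1⟩, ⟨1, 0, 0, 0, 0⟩, ⟨0, 0, 0, 0, 0⟩, ⟨0, 0, 0, 0, 0⟩, ⟨⟨120, 0, 0, 0, 0⟩, ⟨0, 0, 0, 0, 1⟩, ⟨0, 1, 0, 0, 0⟩, ⟨0, 0, 0, 0, 0⟩⟩⟩,
   [90],
   [35, 36],
   ⟨131, w54, [⟨0, 0, 0, 0, 0⟩], [⟨4, 0, 0, 0, 8⟩],
    [(3, [⟨4, -1, 0, 0, 7⟩]),
    (90, [⟨3, 0, 0, 0, 8⟩, ⟨4, -1, 0, 0, 6⟩]),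
    (91, [⟨4, 0, 0, 0, 8⟩])],
    [(3, [⟨4, 0, 0, 0, 6⟩]),
    (90, [⟨4, 0, 0, 0, 7⟩])]⟩,
   ⟨4, w51, [⟨0, 0, 0, 0, 4⟩], [⟨3, 0, 0, 0, 7⟩],
    [(3, [⟨0, 0, 0, 0, 5⟩]),
    (90, [⟨0, 0, 0, 0, 6⟩]),
    (91, [⟨1, 0, 0, 0, 6⟩])],
    []⟩,
   []⟩

/-- Claim ED. -/
def c72 : Claim :=
  ⟨⟨⟨0, 0, 0, 0, 1⟩, ⟨1, 0, 0, 0, 0⟩, ⟨0, 0, 0, 0, 0⟩, ⟨0, 0, 0, 0, 0⟩, ⟨⟨120, 0, 0, 0, 0⟩, ⟨0, 0, 0, 0, 1⟩, ⟨0, 1, 0, 0, 0⟩, ⟨0, 0, 0, 0, 0⟩⟩⟩,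
   [80, 81],
   [20, 21, 22],
   ⟨131, w53, [⟨0, 0, 0, 0, 0⟩], [⟨5, 0, 0, 0, 14⟩],
    [(2, [⟨4, -1, 0, 0, 7⟩]),
    (8, [⟨5, 0, 0, 0, 14⟩]),
    (80, [⟨5, 0, 0, 0, 13⟩]),
    (81, [⟨3, 0, 0, 0, 7⟩, ⟨4, -1, 0, 0, 6⟩])],
    [(2, [⟨4, 0, 0, 0, 6⟩]),
    (81, [⟨4, 0, 0, 0, 7⟩])]⟩,
   ⟨4, w51, [⟨0, 0, 0, 0, 4⟩], [⟨3, 0, 0, 0, 7⟩],
    [],
    []⟩,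
   []⟩

/-- Claim trap6_Zk9@0_T2@0. -/
def c73 : Claim :=
  ⟨⟨⟨0, 0, 0, 0, 0⟩, ⟨0, 0, 0, 0, 0⟩, ⟨0, 0, 0, 0, 0⟩, ⟨0, 0, 0, 0, 0⟩, ⟨⟨0, 0, 0, 0, 0⟩, ⟨0, 0, 0, 0, 0⟩, ⟨0, 0, 0, 0, 0⟩, ⟨0, 0, 0, 0, 0⟩⟩⟩,
   [113, 114, 115, 116, 117, 118],
   [69, 70, 71, 72, 73, 74, 75],
   ⟨101, w56, [⟨0, 0, 0, 0, 0⟩], [⟨14, 0, 0, 0, 25⟩],
    [(5, [⟨4, 0, 0, 0, 3⟩]),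
    (18, [⟨9, 0, 0, 0, 14⟩]),
    (113, [⟨9, 0, 0, 0, 13⟩]),
    (114, [⟨9, 0, 0, 0, 12⟩]),
    (115, [⟨9, 0, 0, 0, 11⟩]),
    (116, [⟨9, 0, 0, 0, 10⟩]),
    (117, [⟨9, 0, 0, 0, 9⟩]),
    (118, [⟨4, 0, 0, 0, 4⟩])],
    [(5, [⟨14, 0, 0, 0, 25⟩]),
    (18, [⟨9, 0, 0, 0, 14⟩]),
    (113, [⟨9, 0, 0, 0, 15⟩]),
    (114, [⟨9, 0, 0, 0, 16⟩]),
    (115, [⟨9, 0, 0, 0, 17⟩]),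
    (116, [⟨9, 0, 0, 0, 18⟩]),
    (117, [⟨9, 0, 0, 0, 19⟩]),
    (118, [⟨14, 0, 0, 0, 24⟩])]⟩,
   ⟨111, w57, [⟨0, 0, 0, 0, 0⟩], [⟨11, 0, 0, 0, 16⟩],
    [(5, [⟨11, 0, 0, 0, 16⟩]),
    (18, [⟨6, 0, 0, 0, 5⟩]),
    (113, [⟨6, 0, 0, 0, 6⟩]),
    (114, [⟨6, 0, 0, 0, 7⟩]),
    (115, [⟨6, 0, 0, 0, 8⟩]),
    (116, [⟨6, 0, 0, 0, 9⟩]),
    (117, [⟨6, 0, 0, 0, 10⟩]),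
    (118, [⟨11, 0, 0, 0, 15⟩])],
    [(5, [⟨11, 0, 0, 0, 16⟩]),
    (18, [⟨16, 0, 0, 0, 27⟩]),
    (113, [⟨16, 0, 0, 0, 26⟩]),
    (114, [⟨16, 0, 0, 0, 25⟩]),
    (115, [⟨16, 0, 0, 0, 24⟩]),
    (116, [⟨16, 0, 0, 0, 23⟩]),
    (117, [⟨16, 0, 0, 0, 22⟩]),
    (118, [⟨11, 0, 0, 0, 17⟩])]⟩,
   []⟩

/-- Claim trap7_T2@0_T1@1. -/
def c74 : Claim :=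
  ⟨⟨⟨0, 0, 0, 0, 0⟩, ⟨0, 0, 0, 0, 0⟩, ⟨0, 0, 0, 0, 0⟩, ⟨0, 0, 0, 0, 0⟩, ⟨⟨0, 0, 0, 0, 0⟩, ⟨0, 0, 0, 0, 0⟩, ⟨0, 0, 0, 0, 0⟩, ⟨0, 0, 0, 0, 0⟩⟩⟩,
   [109, 110],
   [63, 64, 65],
   ⟨111, w58, [⟨0, 0, 0, 0, 0⟩], [⟨17, 0, 0, 0, 22⟩],
    [(5, [⟨11, 0, 0, 0, 16⟩]),
    (109, [⟨11, 0, 0, 0, 15⟩]),
    (110, [⟨5, 0, 0, 0, 11⟩]),
    (129, [⟨5, 0, 0, 0, 10⟩])],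
    [(5, [⟨11, 0, 0, 0, 16⟩]),
    (109, [⟨11, 0, 0, 0, 17⟩]),
    (110, [⟨17, 0, 0, 0, 21⟩]),
    (129, [⟨17, 0, 0, 0, 22⟩])]⟩,
   ⟨18, w59, [⟨0, 0, 0, 0, 0⟩], [⟨9, 0, 0, 0, 14⟩],
    [(5, [⟨-5, 0, 0, 0, -2⟩]),
    (109, [⟨-5, 0, 0, 0, -1⟩]),
    (110, [⟨1, 0, 0, 0, 3⟩]),
    (129, [⟨1, 0, 0, 0, 4⟩])],
    [(5, [⟨7, 0, 0, 0, 10⟩]),
    (109, [⟨7, 0, 0, 0, 9⟩]),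
    (110, [⟨1, 0, 0, 0, 5⟩]),
    (129, [⟨1, 0, 0, 0, 4⟩])]⟩,
   []⟩

/-- Claim N4a. -/
def c75 : Claim :=
  ⟨⟨⟨0, 0, 0, 0, 0⟩, ⟨0, 0, 0, 0, 0⟩, ⟨0, 0, 0, 0, 0⟩, ⟨0, 0, 0, 0, 0⟩, ⟨⟨120, 0, 0, 0, 0⟩, ⟨0, 0, 0, 0, 2⟩, ⟨0, 0, 0, 0, 0⟩, ⟨0, 0, 0, 0, 0⟩⟩⟩,
   [113, 114, 115, 116, 117, 118, 5, 107, 108, 109, 110, 70, 71],
   [5, 6, 7, 60, 61, 62, 63, 64, 65, 69, 70, 71, 72, 73, 74, 75],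
   ⟨17, w60, [⟨0, 0, 0, 0, 0⟩], [⟨11, 0, 0, 0, 17⟩],
    [(2, [⟨8, 0, 0, 0, 14⟩]),
    (4, [⟨8, 0, 0, 0, 10⟩]),
    (5, [⟨5, 0, 0, 0, 10⟩]),
    (70, [⟨8, 0, 0, 0, 13⟩]),
    (71, [⟨5, 0, 0, 0, 11⟩]),
    (107, [⟨8, 0, 0, 0, 9⟩]),
    (108, [⟨5, 0, 0, 0, 9⟩]),
    (109, [⟨5, 0, 0, 0, 9⟩]),
    (114, [⟨0, 0, 0, 0, 1⟩]),
    (115, [⟨0, 0, 0, 0, 2⟩]),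
    (116, [⟨0, 0, 0, 0, 3⟩]),
    (117, [⟨0, 0, 0, 0, 4⟩]),
    (118, [⟨5, 0, 0, 0, 9⟩])],
    [(4, [⟨8, 0, 0, 0, 10⟩]),
    (107, [⟨8, 0, 0, 0, 11⟩]),
    (108, [⟨11, 0, 0, 0, 16⟩])]⟩,
   ⟨18, w61, [⟨0, 0, 0, 0, 0⟩], [⟨11, 0, 0, 0, 23⟩],
    [(2, [⟨8, 0, 0, 0, 15⟩]),
    (4, [⟨2, 0, 0, 0, 4⟩]),
    (5, [⟨5, 0, 0, 0, 11⟩]),
    (70, [⟨8, 0, 0, 0, 14⟩]),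
    (71, [⟨5, 0, 0, 0, 12⟩]),
    (107, [⟨2, 0, 0, 0, 5⟩]),
    (108, [⟨5, 0, 0, 0, 10⟩]),
    (109, [⟨5, 0, 0, 0, 10⟩]),
    (110, [⟨1, 0, 0, 0, 3⟩]),
    (113, [⟨0, 0, 0, 0, 1⟩]),
    (114, [⟨0, 0, 0, 0, 2⟩]),
    (115, [⟨0, 0, 0, 0, 3⟩]),
    (116, [⟨0, 0, 0, 0, 4⟩]),
    (117, [⟨0, 0, 0, 0, 5⟩]),
    (118, [⟨5, 0, 0, 0, 10⟩]),
    (129, [⟨1, 0, 0, 0, 4⟩])],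
    [(2, [⟨8, 0, 0, 0, 15⟩]),
    (4, [⟨8, 0, 0, 0, 18⟩]),
    (5, [⟨5, 0, 0, 0, 11⟩]),
    (18, [⟨0, 0, 0, 0, 0⟩]),
    (70, [⟨8, 0, 0, 0, 14⟩]),
    (71, [⟨5, 0, 0, 0, 12⟩]),
    (107, [⟨8, 0, 0, 0, 17⟩]),
    (108, [⟨5, 0, 0, 0, 12⟩]),
    (109, [⟨5, 0, 0, 0, 12⟩]),
    (110, [⟨1, 0, 0, 0, 5⟩]),
    (113, [⟨0, 0, 0, 0, 1⟩]),
    (114, [⟨0, 0, 0, 0, 2⟩]),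
    (115, [⟨0, 0, 0, 0, 3⟩]),
    (116, [⟨0, 0, 0, 0, 4⟩]),
    (117, [⟨0, 0, 0, 0, 5⟩]),
    (118, [⟨5, 0, 0, 0, 10⟩]),
    (129, [⟨1, 0, 0, 0, 4⟩])]⟩,
   []⟩

/-- Claim N4b. -/
def c76 : Claim :=
  ⟨⟨⟨0, 0, 0, 0, 0⟩, ⟨0, 0, 0, 0, 0⟩, ⟨0, 0, 0, 0, 0⟩, ⟨0, 0, 0, 0, 0⟩, ⟨⟨120, 0, 0, 0, 0⟩, ⟨0, 0, 0, 0, 3⟩, ⟨0, 0, 0, 0, 0⟩, ⟨0, 0, 0, 0, 0⟩⟩⟩,
   [113, 114, 115, 116, 117, 118, 5, 107, 108, 109, 110, 70, 71],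
   [5, 6, 7, 60, 61, 62, 63, 64, 65, 69, 70, 71, 72, 73, 74, 75],
   ⟨134, w62, [⟨0, 0, 0, 0, 0⟩], [⟨13, 0, 0, 0, 26⟩],
    [(2, [⟨10, 0, 0, 0, 23⟩]),
    (4, [⟨10, 0, 0, 0, 19⟩]),
    (5, [⟨7, 0, 0, 0, 19⟩]),
    (18, [⟨2, 0, 0, 0, 8⟩]),
    (70, [⟨10, 0, 0, 0, 22⟩]),
    (71, [⟨7, 0, 0, 0, 20⟩]),
    (107, [⟨10, 0, 0, 0, 18⟩]),
    (108, [⟨7, 0, 0, 0, 18⟩]),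
    (109, [⟨7, 0, 0, 0, 18⟩]),
    (110, [⟨1, 0, 0, 0, 14⟩]),
    (113, [⟨2, 0, 0, 0, 9⟩]),
    (114, [⟨2, 0, 0, 0, 10⟩]),
    (115, [⟨2, 0, 0, 0, 11⟩]),
    (116, [⟨2, 0, 0, 0, 12⟩]),
    (117, [⟨2, 0, 0, 0, 13⟩]),
    (118, [⟨7, 0, 0, 0, 18⟩]),
    (129, [⟨1, 0, 0, 0, 13⟩])],
    [(4, [⟨10, 0, 0, 0, 19⟩]),
    (107, [⟨10, 0, 0, 0, 20⟩]),
    (108, [⟨13, 0, 0, 0, 25⟩])]⟩,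
   ⟨18, w61, [⟨0, 0, 0, 0, 0⟩], [⟨11, 0, 0, 0, 23⟩],
    [(2, [⟨8, 0, 0, 0, 15⟩]),
    (4, [⟨2, 0, 0, 0, 4⟩]),
    (5, [⟨5, 0, 0, 0, 11⟩]),
    (70, [⟨8, 0, 0, 0, 14⟩]),
    (71, [⟨5, 0, 0, 0, 12⟩]),
    (107, [⟨2, 0, 0, 0, 5⟩]),
    (108, [⟨5, 0, 0, 0, 10⟩]),
    (109, [⟨5, 0, 0, 0, 10⟩]),
    (110, [⟨1, 0, 0, 0, 3⟩]),
    (113, [⟨0, 0, 0, 0, 1⟩]),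
    (114, [⟨0, 0, 0, 0, 2⟩]),
    (115, [⟨0, 0, 0, 0, 3⟩]),
    (116, [⟨0, 0, 0, 0, 4⟩]),
    (117, [⟨0, 0, 0, 0, 5⟩]),
    (118, [⟨5, 0, 0, 0, 10⟩]),
    (129, [⟨1, 0, 0, 0, 4⟩])],
    [(2, [⟨8, 0, 0, 0, 15⟩]),
    (4, [⟨8, 0, 0, 0, 18⟩]),
    (5, [⟨5, 0, 0, 0, 11⟩]),
    (18, [⟨0, 0, 0, 0, 0⟩]),
    (70, [⟨8, 0, 0, 0, 14⟩]),
    (71, [⟨5, 0, 0, 0, 12⟩]),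
    (107, [⟨8, 0, 0, 0, 17⟩]),
    (108, [⟨5, 0, 0, 0, 12⟩]),
    (109, [⟨5, 0, 0, 0, 12⟩]),
    (110, [⟨1, 0, 0, 0, 5⟩]),
    (113, [⟨0, 0, 0, 0, 1⟩]),
    (114, [⟨0, 0, 0, 0, 2⟩]),
    (115, [⟨0, 0, 0, 0, 3⟩]),
    (116, [⟨0, 0, 0, 0, 4⟩]),
    (117, [⟨0, 0, 0, 0, 5⟩]),
    (118, [⟨5, 0, 0, 0, 10⟩]),
    (129, [⟨1, 0, 0, 0, 4⟩])]⟩,
   []⟩

/-- Claim N4c. -/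
def c77 : Claim :=
  ⟨⟨⟨0, 0, 0, 0, 0⟩, ⟨0, 0, 0, 0, 0⟩, ⟨0, 0, 0, 0, 0⟩, ⟨0, 0, 0, 0, 0⟩, ⟨⟨120, 0, 0, 0, 0⟩, ⟨0, 0, 0, 0, 4⟩, ⟨0, 0, 0, 0, 0⟩, ⟨0, 0, 0, 0, 0⟩⟩⟩,
   [113, 114, 115, 116, 117, 118, 5, 107, 108, 109, 110, 70, 71],
   [5, 6, 7, 60, 61, 62, 63, 64, 65, 69, 70, 71, 72, 73, 74, 75],
   ⟨143, w63, [⟨0, 0, 0, 0, 0⟩], [⟨4, 0, 0, 0, 11⟩],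
    [(2, [⟨1, 0, 0, 0, 8⟩]),
    (4, [⟨1, 0, 0, 0, 4⟩]),
    (70, [⟨1, 0, 0, 0, 7⟩]),
    (107, [⟨1, 0, 0, 0, 3⟩])],
    [(4, [⟨1, 0, 0, 0, 4⟩]),
    (107, [⟨1, 0, 0, 0, 5⟩]),
    (108, [⟨4, 0, 0, 0, 10⟩])]⟩,
   ⟨18, w61, [⟨0, 0, 0, 0, 0⟩], [⟨11, 0, 0, 0, 23⟩],
    [(2, [⟨8, 0, 0, 0, 15⟩]),
    (4, [⟨2, 0, 0, 0, 4⟩]),
    (5, [⟨5, 0, 0, 0, 11⟩]),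
    (70, [⟨8, 0, 0, 0, 14⟩]),
    (71, [⟨5, 0, 0, 0, 12⟩]),
    (107, [⟨2, 0, 0, 0, 5⟩]),
    (108, [⟨5, 0, 0, 0, 10⟩]),
    (109, [⟨5, 0, 0, 0, 10⟩]),
    (110, [⟨1, 0, 0, 0, 3⟩]),
    (113, [⟨0, 0, 0, 0, 1⟩]),
    (114, [⟨0, 0, 0, 0, 2⟩]),
    (115, [⟨0, 0, 0, 0, 3⟩]),
    (116, [⟨0, 0, 0, 0, 4⟩]),
    (117, [⟨0, 0, 0, 0, 5⟩]),
    (118, [⟨5, 0, 0, 0, 10⟩]),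
    (129, [⟨1, 0, 0, 0, 4⟩])],
    [(2, [⟨8, 0, 0, 0, 15⟩]),
    (4, [⟨8, 0, 0, 0, 18⟩]),
    (5, [⟨5, 0, 0, 0, 11⟩]),
    (18, [⟨0, 0, 0, 0, 0⟩]),
    (70, [⟨8, 0, 0, 0, 14⟩]),
    (71, [⟨5, 0, 0, 0, 12⟩]),
    (107, [⟨8, 0, 0, 0, 17⟩]),
    (108, [⟨5, 0, 0, 0, 12⟩]),
    (109, [⟨5, 0, 0, 0, 12⟩]),
    (110, [⟨1, 0, 0, 0, 5⟩]),
    (113, [⟨0, 0, 0, 0, 1⟩]),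
    (114, [⟨0, 0, 0, 0, 2⟩]),
    (115, [⟨0, 0, 0, 0, 3⟩]),
    (116, [⟨0, 0, 0, 0, 4⟩]),
    (117, [⟨0, 0, 0, 0, 5⟩]),
    (118, [⟨5, 0, 0, 0, 10⟩]),
    (129, [⟨1, 0, 0, 0, 4⟩])]⟩,
   []⟩

/-- Claim TZ. -/
def c78 : Claim :=
  ⟨⟨⟨0, 0, 0, 0, 0⟩, ⟨0, 0, 0, 0, 0⟩, ⟨0, 0, 0, 0, 0⟩, ⟨0, 0, 0, 0, 0⟩, ⟨⟨120, 0, 0, 0, 0⟩, ⟨0, 0, 0, 0, 6⟩, ⟨0, 0, 0, 0, 0⟩, ⟨0, 0, 0, 0, 0⟩⟩⟩,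
   [53, 56, 58, 60, 62, 64, 66, 19, 18, 54, 52, 55, 57, 59, 61, 63, 65, 67, 113, 114, 115, 116, 117, 119, 120],
   [69, 70, 71, 72, 73, 74, 76, 77, 78, 141, 142, 143, 144, 145, 146, 147, 148, 149, 150, 151, 152, 153, 154, 155, 156, 157, 158, 159, 160, 161, 162, 163, 164, 165, 166, 167],
   ⟨9, w64, [⟨0, 0, 0, 0, 0⟩], [⟨11, 0, 0, 0, 23⟩],
    [(17, [⟨10, 0, 0, 0, 19⟩]),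
    (18, [⟨10, 0, 0, 0, 19⟩]),
    (19, [⟨10, 0, 0, 0, 19⟩]),
    (52, [⟨10, 0, 0, 0, 19⟩]),
    (53, [⟨10, 0, 0, 0, 19⟩]),
    (54, [⟨10, 0, 0, 0, 19⟩]),
    (55, [⟨10, 0, 0, 0, 19⟩]),
    (56, [⟨10, 0, 0, 0, 19⟩]),
    (57, [⟨10, 0, 0, 0, 19⟩]),
    (58, [⟨10, 0, 0, 0, 19⟩]),
    (59, [⟨10, 0, 0, 0, 19⟩]),
    (60, [⟨10, 0, 0, 0, 19⟩]),
    (61, [⟨10, 0, 0, 0, 19⟩]),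
    (62, [⟨10, 0, 0, 0, 19⟩]),
    (63, [⟨10, 0, 0, 0, 19⟩]),
    (64, [⟨10, 0, 0, 0, 19⟩]),
    (65, [⟨10, 0, 0, 0, 19⟩]),
    (66, [⟨10, 0, 0, 0, 19⟩]),
    (67, [⟨10, 0, 0, 0, 19⟩]),
    (113, [⟨10, 0, 0, 0, 19⟩]),
    (114, [⟨10, 0, 0, 0, 19⟩]),
    (115, [⟨10, 0, 0, 0, 19⟩]),
    (116, [⟨10, 0, 0, 0, 19⟩]),
    (117, [⟨10, 0, 0, 0, 19⟩]),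
    (118, [⟨6, 0, 0, 0, 13⟩]),
    (119, [⟨10, 0, 0, 0, 19⟩]),
    (120, [⟨10, 0, 0, 0, 19⟩]),
    (129, [⟨10, 0, 0, 0, 19⟩])],
    [(19, [⟨11, 0, 0, 0, 20⟩]),
    (54, [⟨11, 0, 0, 0, 22⟩]),
    (63, [⟨11, 0, 0, 0, 22⟩]),
    (64, [⟨11, 0, 0, 0, 22⟩]),
    (65, [⟨11, 0, 0, 0, 22⟩]),
    (66, [⟨11, 0, 0, 0, 21⟩]),
    (67, [⟨11, 0, 0, 0, 21⟩]),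
    (113, [⟨11, 0, 0, 0, 22⟩]),
    (114, [⟨11, 0, 0, 0, 21⟩]),
    (115, [⟨11, 0, 0, 0, 20⟩]),
    (116, [⟨11, 0, 0, 0, 19⟩]),
    (117, [⟨11, 0, 0, 0, 18⟩]),
    (118, [⟨6, 0, 0, 0, 13⟩]),
    (119, [⟨11, 0, 0, 0, 19⟩]),
    (120, [⟨10, 0, 0, 0, 20⟩]),
    (129, [⟨10, 0, 0, 0, 19⟩])]⟩,
   ⟨17, w65, [⟨0, 0, 0, 0, 0⟩], [⟨8, 0, 0, 0, 10⟩],
    [(114, [⟨0, 0, 0, 0, 1⟩]),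
    (115, [⟨0, 0, 0, 0, 2⟩]),
    (116, [⟨0, 0, 0, 0, 3⟩]),
    (117, [⟨0, 0, 0, 0, 4⟩]),
    (118, [⟨5, 0, 0, 0, 9⟩])],
    [(17, [⟨0, 0, 0, 0, 0⟩]),
    (18, [⟨0, 0, 0, 0, 0⟩]),
    (19, [⟨0, 0, 0, 0, 0⟩]),
    (52, [⟨0, 0, 0, 0, 0⟩]),
    (53, [⟨0, 0, 0, 0, 0⟩]),
    (54, [⟨0, 0, 0, 0, 0⟩]),
    (55, [⟨0, 0, 0, 0, 0⟩]),
    (56, [⟨0, 0, 0, 0, 0⟩]),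
    (57, [⟨0, 0, 0, 0, 0⟩]),
    (58, [⟨0, 0, 0, 0, 0⟩]),
    (59, [⟨0, 0, 0, 0, 0⟩]),
    (60, [⟨0, 0, 0, 0, 0⟩]),
    (61, [⟨0, 0, 0, 0, 0⟩]),
    (62, [⟨0, 0, 0, 0, 0⟩]),
    (63, [⟨0, 0, 0, 0, 0⟩]),
    (64, [⟨0, 0, 0, 0, 0⟩]),
    (65, [⟨0, 0, 0, 0, 0⟩]),
    (66, [⟨0, 0, 0, 0, 0⟩]),
    (67, [⟨0, 0, 0, 0, 0⟩]),
    (113, [⟨0, 0, 0, 0, 0⟩]),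
    (114, [⟨0, 0, 0, 0, 1⟩]),
    (115, [⟨0, 0, 0, 0, 2⟩]),
    (116, [⟨0, 0, 0, 0, 3⟩]),
    (117, [⟨0, 0, 0, 0, 4⟩]),
    (118, [⟨5, 0, 0, 0, 9⟩]),
    (119, [⟨0, 0, 0, 0, 0⟩]),
    (120, [⟨0, 0, 0, 0, 0⟩]),
    (129, [⟨0, 0, 0, 0, 0⟩])]⟩,
   []⟩

/-- Claim TZ0. -/
def c79 : Claim :=
  ⟨⟨⟨0, 0, 0, 0, 0⟩, ⟨0, 0, 0, 0, 0⟩, ⟨0, 0, 0, 0, 0⟩, ⟨0, 0, 0, 0, 0⟩, ⟨⟨120, 0, 0, 0, 0⟩, ⟨0, 0, 0, 0, 7⟩, ⟨0, 0, 0, 0, 0⟩, ⟨0, 0, 0, 0, 0⟩⟩⟩,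
   [53, 56, 58, 60, 62, 64, 66, 19, 18, 54, 52, 55, 57, 59, 61, 63, 65, 67, 113, 114, 115, 116, 117, 119, 120],
   [69, 70, 71, 72, 73, 74, 76, 77, 78, 141, 142, 143, 144, 145, 146, 147, 148, 149, 150, 151, 152, 153, 154, 155, 156, 157, 158, 159, 160, 161, 162, 163, 164, 165, 166, 167],
   ⟨5, w66, [⟨0, 0, 0, 0, 0⟩], [⟨16, 0, 0, 0, 25⟩],
    [(18, [⟨5, 0, 0, 0, 2⟩]),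
    (19, [⟨5, 0, 0, 0, 5⟩]),
    (52, [⟨5, 0, 0, 0, 1⟩]),
    (53, [⟨5, 0, 0, 0, 0⟩]),
    (54, [⟨5, 0, 0, 0, 3⟩]),
    (55, [⟨5, 0, 0, 0, 2⟩]),
    (56, [⟨5, 0, 0, 0, 1⟩]),
    (57, [⟨5, 0, 0, 0, 1⟩]),
    (58, [⟨5, 0, 0, 0, 0⟩]),
    (59, [⟨5, 0, 0, 0, 2⟩]),
    (60, [⟨5, 0, 0, 0, 1⟩]),
    (61, [⟨5, 0, 0, 0, 2⟩]),
    (62, [⟨5, 0, 0, 0, 2⟩]),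
    (63, [⟨5, 0, 0, 0, 3⟩]),
    (64, [⟨5, 0, 0, 0, 3⟩]),
    (65, [⟨5, 0, 0, 0, 3⟩]),
    (66, [⟨5, 0, 0, 0, 4⟩]),
    (67, [⟨5, 0, 0, 0, 4⟩]),
    (113, [⟨5, 0, 0, 0, 3⟩]),
    (114, [⟨5, 0, 0, 0, 4⟩]),
    (115, [⟨5, 0, 0, 0, 5⟩]),
    (116, [⟨5, 0, 0, 0, 6⟩]),
    (117, [⟨5, 0, 0, 0, 7⟩]),
    (118, [⟨10, 0, 0, 0, 12⟩]),
    (119, [⟨5, 0, 0, 0, 6⟩]),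
    (120, [⟨6, 0, 0, 0, 5⟩]),
    (129, [⟨6, 0, 0, 0, 6⟩])],
    [(17, [⟨6, 0, 0, 0, 6⟩]),
    (18, [⟨6, 0, 0, 0, 6⟩]),
    (19, [⟨6, 0, 0, 0, 6⟩]),
    (52, [⟨6, 0, 0, 0, 6⟩]),
    (53, [⟨6, 0, 0, 0, 6⟩]),
    (54, [⟨6, 0, 0, 0, 6⟩]),
    (55, [⟨6, 0, 0, 0, 6⟩]),
    (56, [⟨6, 0, 0, 0, 6⟩]),
    (57, [⟨6, 0, 0, 0, 6⟩]),
    (58, [⟨6, 0, 0, 0, 6⟩]),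
    (59, [⟨6, 0, 0, 0, 6⟩]),
    (60, [⟨6, 0, 0, 0, 6⟩]),
    (61, [⟨6, 0, 0, 0, 6⟩]),
    (62, [⟨6, 0, 0, 0, 6⟩]),
    (63, [⟨6, 0, 0, 0, 6⟩]),
    (64, [⟨6, 0, 0, 0, 6⟩]),
    (65, [⟨6, 0, 0, 0, 6⟩]),
    (66, [⟨6, 0, 0, 0, 6⟩]),
    (67, [⟨6, 0, 0, 0, 6⟩]),
    (113, [⟨6, 0, 0, 0, 6⟩]),
    (114, [⟨6, 0, 0, 0, 6⟩]),
    (115, [⟨6, 0, 0, 0, 6⟩]),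
    (116, [⟨6, 0, 0, 0, 6⟩]),
    (117, [⟨6, 0, 0, 0, 6⟩]),
    (118, [⟨10, 0, 0, 0, 12⟩]),
    (119, [⟨6, 0, 0, 0, 6⟩]),
    (120, [⟨6, 0, 0, 0, 6⟩]),
    (129, [⟨6, 0, 0, 0, 6⟩])]⟩,
   ⟨17, w65, [⟨0, 0, 0, 0, 0⟩], [⟨8, 0, 0, 0, 10⟩],
    [(114, [⟨0, 0, 0, 0, 1⟩]),
    (115, [⟨0, 0, 0, 0, 2⟩]),
    (116, [⟨0, 0, 0, 0, 3⟩]),
    (117, [⟨0, 0, 0, 0, 4⟩]),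
    (118, [⟨5, 0, 0, 0, 9⟩])],
    [(17, [⟨0, 0, 0, 0, 0⟩]),
    (18, [⟨0, 0, 0, 0, 0⟩]),
    (19, [⟨0, 0, 0, 0, 0⟩]),
    (52, [⟨0, 0, 0, 0, 0⟩]),
    (53, [⟨0, 0, 0, 0, 0⟩]),
    (54, [⟨0, 0, 0, 0, 0⟩]),
    (55, [⟨0, 0, 0, 0, 0⟩]),
    (56, [⟨0, 0, 0, 0, 0⟩]),
    (57, [⟨0, 0, 0, 0, 0⟩]),
    (58, [⟨0, 0, 0, 0, 0⟩]),
    (59, [⟨0, 0, 0, 0, 0⟩]),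
    (60, [⟨0, 0, 0, 0, 0⟩]),
    (61, [⟨0, 0, 0, 0, 0⟩]),
    (62, [⟨0, 0, 0, 0, 0⟩]),
    (63, [⟨0, 0, 0, 0, 0⟩]),
    (64, [⟨0, 0, 0, 0, 0⟩]),
    (65, [⟨0, 0, 0, 0, 0⟩]),
    (66, [⟨0, 0, 0, 0, 0⟩]),
    (67, [⟨0, 0, 0, 0, 0⟩]),
    (113, [⟨0, 0, 0, 0, 0⟩]),
    (114, [⟨0, 0, 0, 0, 1⟩]),
    (115, [⟨0, 0, 0, 0, 2⟩]),
    (116, [⟨0, 0, 0, 0, 3⟩]),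
    (117, [⟨0, 0, 0, 0, 4⟩]),
    (118, [⟨5, 0, 0, 0, 9⟩]),
    (119, [⟨0, 0, 0, 0, 0⟩]),
    (120, [⟨0, 0, 0, 0, 0⟩]),
    (129, [⟨0, 0, 0, 0, 0⟩])]⟩,
   []⟩

/-- Claim trap8_Zk9@0_T2@0. -/
def c80 : Claim :=
  ⟨⟨⟨0, 0, 0, 0, 0⟩, ⟨0, 0, 0, 0, 0⟩, ⟨0, 0, 0, 0, 0⟩, ⟨0, 0, 0, 0, 0⟩, ⟨⟨0, 0, 0, 0, 0⟩, ⟨0, 0, 0, 0, 0⟩, ⟨0, 0, 0, 0, 0⟩, ⟨0, 0, 0, 0, 0⟩⟩⟩,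
   [113, 114, 115, 116, 117, 118],
   [69, 70, 71, 72, 73, 74, 75],
   ⟨112, w67, [⟨0, 0, 0, 0, 0⟩], [⟨13, 0, 0, 0, 23⟩],
    [(5, [⟨3, 0, 0, 0, 1⟩]),
    (18, [⟨8, 0, 0, 0, 12⟩]),
    (113, [⟨8, 0, 0, 0, 11⟩]),
    (114, [⟨8, 0, 0, 0, 10⟩]),
    (115, [⟨8, 0, 0, 0, 9⟩]),
    (116, [⟨8, 0, 0, 0, 8⟩]),
    (117, [⟨8, 0, 0, 0, 7⟩]),
    (118, [⟨3, 0, 0, 0, 2⟩])],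
    [(5, [⟨13, 0, 0, 0, 23⟩]),
    (18, [⟨8, 0, 0, 0, 12⟩]),
    (113, [⟨8, 0, 0, 0, 13⟩]),
    (114, [⟨8, 0, 0, 0, 14⟩]),
    (115, [⟨8, 0, 0, 0, 15⟩]),
    (116, [⟨8, 0, 0, 0, 16⟩]),
    (117, [⟨8, 0, 0, 0, 17⟩]),
    (118, [⟨13, 0, 0, 0, 22⟩])]⟩,
   ⟨5, [(63, true), (64, true)], [⟨0, 0, 0, 0, 0⟩], [⟨6, 0, 0, 0, 5⟩],
    [(5, [⟨0, 0, 0, 0, 0⟩]),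
    (18, [⟨-5, 0, 0, 0, -11⟩]),
    (113, [⟨-5, 0, 0, 0, -10⟩]),
    (114, [⟨-5, 0, 0, 0, -9⟩]),
    (115, [⟨-5, 0, 0, 0, -8⟩]),
    (116, [⟨-5, 0, 0, 0, -7⟩]),
    (117, [⟨-5, 0, 0, 0, -6⟩]),
    (118, [⟨0, 0, 0, 0, -1⟩])],
    [(5, [⟨0, 0, 0, 0, 0⟩]),
    (18, [⟨5, 0, 0, 0, 11⟩]),
    (113, [⟨5, 0, 0, 0, 10⟩]),
    (114, [⟨5, 0, 0, 0, 9⟩]),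
    (115, [⟨5, 0, 0, 0, 8⟩]),
    (116, [⟨5, 0, 0, 0, 7⟩]),
    (117, [⟨5, 0, 0, 0, 6⟩]),
    (118, [⟨0, 0, 0, 0, 1⟩])]⟩,
   []⟩

/-- Claim Zr2one. -/
def c81 : Claim :=
  ⟨⟨⟨0, 0, 0, 0, 0⟩, ⟨0, 0, 0, 0, 0⟩, ⟨0, 0, 0, 0, 0⟩, ⟨0, 0, 0, 0, 0⟩, ⟨⟨120, 0, 0, 0, 0⟩, ⟨0, 0, 0, 0, 8⟩, ⟨0, 0, 0, 0, 0⟩, ⟨0, 0, 0, 0, 0⟩⟩⟩,
   [114],
   [],
   ⟨5, w68, [⟨5, 0, 0, 0, 9⟩], [⟨5, 0, 0, 0, 9⟩],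
    [],
    []⟩,
   ⟨4, w69, [⟨8, 0, 0, 0, 10⟩], [⟨8, 0, 0, 0, 10⟩],
    [],
    []⟩,
   []⟩

/-- Claim TZa. -/
def c82 : Claim :=
  ⟨⟨⟨0, 0, 0, 0, 0⟩, ⟨0, 0, 0, 0, 0⟩, ⟨0, 0, 0, 0, 0⟩, ⟨0, 0, 0, 0, 0⟩, ⟨⟨120, 0, 0, 0, 0⟩, ⟨0, 0, 0, 0, 9⟩, ⟨0, 0, 0, 0, 0⟩, ⟨0, 0, 0, 0, 0⟩⟩⟩,
   [53, 56, 58, 60, 62, 64, 66, 19, 18, 54, 52, 55, 57, 59, 61, 63, 65, 67, 113, 114, 115, 116, 117, 118, 119, 120],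
   [69, 70, 71, 72, 73, 74, 75, 76, 77, 78, 141, 142, 143, 144, 145, 146, 147, 148, 149, 150, 151, 152, 153, 154, 155, 156, 157, 158, 159, 160, 161, 162, 163, 164, 165, 166, 167],
   ⟨5, w68, [⟨0, 0, 0, 0, 0⟩], [⟨6, 0, 0, 0, 6⟩],
    [(18, [⟨5, 0, 0, 0, 2⟩]),
    (19, [⟨5, 0, 0, 0, 5⟩]),
    (52, [⟨5, 0, 0, 0, 1⟩]),
    (53, [⟨5, 0, 0, 0, 0⟩]),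
    (54, [⟨5, 0, 0, 0, 3⟩]),
    (55, [⟨5, 0, 0, 0, 2⟩]),
    (56, [⟨5, 0, 0, 0, 1⟩]),
    (57, [⟨5, 0, 0, 0, 1⟩]),
    (58, [⟨5, 0, 0, 0, 0⟩]),
    (59, [⟨5, 0, 0, 0, 2⟩]),
    (60, [⟨5, 0, 0, 0, 1⟩]),
    (61, [⟨5, 0, 0, 0, 2⟩]),
    (62, [⟨5, 0, 0, 0, 2⟩]),
    (63, [⟨5, 0, 0, 0, 3⟩]),
    (64, [⟨5, 0, 0, 0, 3⟩]),
    (65, [⟨5, 0, 0, 0, 3⟩]),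
    (66, [⟨5, 0, 0, 0, 4⟩]),
    (67, [⟨5, 0, 0, 0, 4⟩]),
    (113, [⟨5, 0, 0, 0, 1⟩]),
    (114, [⟨5, 0, 0, 0, 0⟩]),
    (115, [⟨5, 0, 0, 0, -1⟩]),
    (116, [⟨5, 0, 0, 0, -2⟩]),
    (117, [⟨5, 0, 0, 0, -3⟩]),
    (119, [⟨5, 0, 0, 0, 6⟩]),
    (120, [⟨6, 0, 0, 0, 5⟩]),
    (129, [⟨6, 0, 0, 0, 6⟩])],
    [(5, [⟨0, 0, 0, 0, 0⟩]),
    (18, [⟨5, 0, 0, 0, 11⟩]),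
    (19, [⟨5, 0, 0, 0, 14⟩]),
    (52, [⟨5, 0, 0, 0, 12⟩]),
    (53, [⟨5, 0, 0, 0, 13⟩]),
    (54, [⟨5, 0, 0, 0, 16⟩]),
    (55, [⟨5, 0, 0, 0, 15⟩]),
    (56, [⟨5, 0, 0, 0, 14⟩]),
    (57, [⟨5, 0, 0, 0, 13⟩]),
    (58, [⟨5, 0, 0, 0, 14⟩]),
    (59, [⟨5, 0, 0, 0, 16⟩]),
    (60, [⟨5, 0, 0, 0, 15⟩]),
    (61, [⟨5, 0, 0, 0, 13⟩]),
    (62, [⟨5, 0, 0, 0, 14⟩]),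
    (63, [⟨5, 0, 0, 0, 15⟩]),
    (64, [⟨5, 0, 0, 0, 14⟩]),
    (65, [⟨5, 0, 0, 0, 12⟩]),
    (66, [⟨5, 0, 0, 0, 13⟩]),
    (67, [⟨5, 0, 0, 0, 15⟩]),
    (113, [⟨5, 0, 0, 0, 10⟩]),
    (114, [⟨5, 0, 0, 0, 9⟩]),
    (115, [⟨5, 0, 0, 0, 8⟩]),
    (116, [⟨5, 0, 0, 0, 7⟩]),
    (117, [⟨5, 0, 0, 0, 6⟩]),
    (118, [⟨0, 0, 0, 0, 1⟩]),
    (119, [⟨5, 0, 0, 0, 15⟩])]⟩,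
   ⟨4, w69, [⟨8, 0, 0, 0, 10⟩], [⟨8, 0, 0, 0, 10⟩],
    [],
    []⟩,
   []⟩

/-- Claim NA4. -/
def c83 : Claim :=
  ⟨⟨⟨0, 0, 0, 0, 0⟩, ⟨0, 0, 0, 0, 0⟩, ⟨0, 0, 0, 0, 0⟩, ⟨0, 0, 0, 0, 0⟩, ⟨⟨120, 0, 0, 0, 0⟩, ⟨0, 0, 0, 0, 10⟩, ⟨0, 0, 0, 0, 0⟩, ⟨0, 0, 0, 0, 0⟩⟩⟩,
   [53, 56, 58, 60, 62, 64, 66, 19, 18, 54, 52, 55, 57, 59, 61, 63, 65, 67, 113, 114, 115, 116, 117, 118, 119, 120],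
   [69, 70, 71, 72, 73, 74, 75, 76, 77, 78, 141, 142, 143, 144, 145, 146, 147, 148, 149, 150, 151, 152, 153, 154, 155, 156, 157, 158, 159, 160, 161, 162, 163, 164, 165, 166, 167],
   ⟨4, w69, [⟨0, 0, 0, 0, 0⟩], [⟨8, 0, 0, 0, 10⟩],
    [(5, [⟨3, 0, 0, 0, -4⟩]),
    (17, [⟨8, 0, 0, 0, 10⟩]),
    (18, [⟨8, 0, 0, 0, 7⟩]),
    (19, [⟨8, 0, 0, 0, 7⟩]),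
    (52, [⟨8, 0, 0, 0, 8⟩]),
    (53, [⟨8, 0, 0, 0, 9⟩]),
    (54, [⟨8, 0, 0, 0, 9⟩]),
    (55, [⟨8, 0, 0, 0, 8⟩]),
    (56, [⟨8, 0, 0, 0, 8⟩]),
    (57, [⟨8, 0, 0, 0, 7⟩]),
    (58, [⟨8, 0, 0, 0, 7⟩]),
    (59, [⟨8, 0, 0, 0, 7⟩]),
    (60, [⟨8, 0, 0, 0, 6⟩]),
    (61, [⟨8, 0, 0, 0, 6⟩]),
    (62, [⟨8, 0, 0, 0, 5⟩]),
    (63, [⟨8, 0, 0, 0, 7⟩]),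
    (64, [⟨8, 0, 0, 0, 6⟩]),
    (65, [⟨8, 0, 0, 0, 6⟩]),
    (66, [⟨8, 0, 0, 0, 6⟩]),
    (67, [⟨8, 0, 0, 0, 8⟩]),
    (113, [⟨8, 0, 0, 0, 6⟩]),
    (114, [⟨8, 0, 0, 0, 5⟩]),
    (115, [⟨8, 0, 0, 0, 4⟩]),
    (116, [⟨8, 0, 0, 0, 3⟩]),
    (117, [⟨8, 0, 0, 0, 2⟩]),
    (118, [⟨3, 0, 0, 0, -3⟩]),
    (119, [⟨8, 0, 0, 0, 6⟩]),
    (120, [⟨7, 0, 0, 0, 7⟩]),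
    (129, [⟨7, 0, 0, 0, 6⟩])],
    []⟩,
   ⟨5, w68, [⟨0, 0, 0, 0, 0⟩], [⟨6, 0, 0, 0, 6⟩],
    [(18, [⟨5, 0, 0, 0, 2⟩]),
    (19, [⟨5, 0, 0, 0, 5⟩]),
    (52, [⟨5, 0, 0, 0, 1⟩]),
    (53, [⟨5, 0, 0, 0, 0⟩]),
    (54, [⟨5, 0, 0, 0, 3⟩]),
    (55, [⟨5, 0, 0, 0, 2⟩]),
    (56, [⟨5, 0, 0, 0, 1⟩]),
    (57, [⟨5, 0, 0, 0, 1⟩]),
    (58, [⟨5, 0, 0, 0, 0⟩]),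
    (59, [⟨5, 0, 0, 0, 2⟩]),
    (60, [⟨5, 0, 0, 0, 1⟩]),
    (61, [⟨5, 0, 0, 0, 2⟩]),
    (62, [⟨5, 0, 0, 0, 2⟩]),
    (63, [⟨5, 0, 0, 0, 3⟩]),
    (64, [⟨5, 0, 0, 0, 3⟩]),
    (65, [⟨5, 0, 0, 0, 3⟩]),
    (66, [⟨5, 0, 0, 0, 4⟩]),
    (67, [⟨5, 0, 0, 0, 4⟩]),
    (113, [⟨5, 0, 0, 0, 1⟩]),
    (114, [⟨5, 0, 0, 0, 0⟩]),
    (115, [⟨5, 0, 0, 0, -1⟩]),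
    (116, [⟨5, 0, 0, 0, -2⟩]),
    (117, [⟨5, 0, 0, 0, -3⟩]),
    (119, [⟨5, 0, 0, 0, 6⟩]),
    (120, [⟨6, 0, 0, 0, 5⟩]),
    (129, [⟨6, 0, 0, 0, 6⟩])],
    [(5, [⟨0, 0, 0, 0, 0⟩]),
    (18, [⟨5, 0, 0, 0, 11⟩]),
    (19, [⟨5, 0, 0, 0, 14⟩]),
    (52, [⟨5, 0, 0, 0, 12⟩]),
    (53, [⟨5, 0, 0, 0, 13⟩]),
    (54, [⟨5, 0, 0, 0, 16⟩]),
    (55, [⟨5, 0, 0, 0, 15⟩]),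
    (56, [⟨5, 0, 0, 0, 14⟩]),
    (57, [⟨5, 0, 0, 0, 13⟩]),
    (58, [⟨5, 0, 0, 0, 14⟩]),
    (59, [⟨5, 0, 0, 0, 16⟩]),
    (60, [⟨5, 0, 0, 0, 15⟩]),
    (61, [⟨5, 0, 0, 0, 13⟩]),
    (62, [⟨5, 0, 0, 0, 14⟩]),
    (63, [⟨5, 0, 0, 0, 15⟩]),
    (64, [⟨5, 0, 0, 0, 14⟩]),
    (65, [⟨5, 0, 0, 0, 12⟩]),
    (66, [⟨5, 0, 0, 0, 13⟩]),
    (67, [⟨5, 0, 0, 0, 15⟩]),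
    (113, [⟨5, 0, 0, 0, 10⟩]),
    (114, [⟨5, 0, 0, 0, 9⟩]),
    (115, [⟨5, 0, 0, 0, 8⟩]),
    (116, [⟨5, 0, 0, 0, 7⟩]),
    (117, [⟨5, 0, 0, 0, 6⟩]),
    (118, [⟨0, 0, 0, 0, 1⟩]),
    (119, [⟨5, 0, 0, 0, 15⟩])]⟩,
   []⟩

/-- Claim NA3. -/
def c84 : Claim :=
  ⟨⟨⟨0, 0, 0, 0, 0⟩, ⟨0, 0, 0, 0, 0⟩, ⟨0, 0, 0, 0, 0⟩, ⟨0, 0, 0, 0, 0⟩, ⟨⟨120, 0, 0, 0, 0⟩, ⟨0, 0, 0, 0, 11⟩, ⟨0, 0, 0, 0, 0⟩, ⟨0, 0, 0, 0, 0⟩⟩⟩,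
   [17, 53, 56, 58, 60, 62, 64, 66, 19, 18, 54, 52, 55, 57, 59, 61, 63, 65, 67, 113, 114, 115, 116, 117, 118, 119, 120, 111, 112],
   [66, 67, 68, 69, 70, 71, 72, 73, 74, 75, 76, 77, 78, 141, 142, 143, 144, 145, 146, 147, 148, 149, 150, 151, 152, 153, 154, 155, 156, 157, 158, 159, 160, 161, 162, 163, 164, 165, 166, 167],
   ⟨3, w70, [⟨0, 0, 0, 0, 0⟩], [⟨14, 0, 0, 0, 22⟩],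
    [(4, [⟨6, 0, 0, 0, 12⟩]),
    (112, [⟨6, 0, 0, 0, 11⟩])],
    [(4, [⟨6, 0, 0, 0, 12⟩]),
    (111, [⟨14, 0, 0, 0, 21⟩]),
    (112, [⟨6, 0, 0, 0, 13⟩])]⟩,
   ⟨5, w68, [⟨0, 0, 0, 0, 0⟩], [⟨6, 0, 0, 0, 6⟩],
    [(17, [⟨5, 0, 0, 0, 2⟩]),
    (18, [⟨5, 0, 0, 0, 2⟩]),
    (19, [⟨5, 0, 0, 0, 5⟩]),
    (52, [⟨5, 0, 0, 0, 1⟩]),
    (53, [⟨5, 0, 0, 0, 1⟩]),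
    (54, [⟨5, 0, 0, 0, 3⟩]),
    (55, [⟨5, 0, 0, 0, 2⟩]),
    (56, [⟨5, 0, 0, 0, 1⟩]),
    (57, [⟨5, 0, 0, 0, 1⟩]),
    (58, [⟨5, 0, 0, 0, 0⟩]),
    (59, [⟨5, 0, 0, 0, 2⟩]),
    (60, [⟨5, 0, 0, 0, 1⟩]),
    (61, [⟨5, 0, 0, 0, 2⟩]),
    (62, [⟨5, 0, 0, 0, 2⟩]),
    (63, [⟨5, 0, 0, 0, 3⟩]),
    (64, [⟨5, 0, 0, 0, 3⟩]),
    (65, [⟨5, 0, 0, 0, 3⟩]),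
    (66, [⟨5, 0, 0, 0, 4⟩]),
    (67, [⟨5, 0, 0, 0, 4⟩]),
    (111, [⟨5, 0, 0, 0, 1⟩]),
    (113, [⟨5, 0, 0, 0, 1⟩]),
    (114, [⟨5, 0, 0, 0, 0⟩]),
    (115, [⟨5, 0, 0, 0, -1⟩]),
    (116, [⟨5, 0, 0, 0, -2⟩]),
    (117, [⟨5, 0, 0, 0, -3⟩]),
    (119, [⟨5, 0, 0, 0, 6⟩]),
    (120, [⟨6, 0, 0, 0, 5⟩]),
    (129, [⟨6, 0, 0, 0, 6⟩])],
    [(5, [⟨0, 0, 0, 0, 0⟩]),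
    (17, [⟨5, 0, 0, 0, 14⟩]),
    (18, [⟨5, 0, 0, 0, 11⟩]),
    (19, [⟨5, 0, 0, 0, 14⟩]),
    (52, [⟨5, 0, 0, 0, 12⟩]),
    (53, [⟨5, 0, 0, 0, 13⟩]),
    (54, [⟨5, 0, 0, 0, 15⟩]),
    (55, [⟨5, 0, 0, 0, 15⟩]),
    (56, [⟨5, 0, 0, 0, 14⟩]),
    (57, [⟨5, 0, 0, 0, 13⟩]),
    (58, [⟨5, 0, 0, 0, 14⟩]),
    (59, [⟨5, 0, 0, 0, 16⟩]),
    (60, [⟨5, 0, 0, 0, 15⟩]),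
    (61, [⟨5, 0, 0, 0, 13⟩]),
    (62, [⟨5, 0, 0, 0, 14⟩]),
    (63, [⟨5, 0, 0, 0, 15⟩]),
    (64, [⟨5, 0, 0, 0, 14⟩]),
    (65, [⟨5, 0, 0, 0, 12⟩]),
    (66, [⟨5, 0, 0, 0, 13⟩]),
    (67, [⟨5, 0, 0, 0, 15⟩]),
    (111, [⟨5, 0, 0, 0, 15⟩]),
    (113, [⟨5, 0, 0, 0, 10⟩]),
    (114, [⟨5, 0, 0, 0, 9⟩]),
    (115, [⟨5, 0, 0, 0, 8⟩]),
    (116, [⟨5, 0, 0, 0, 7⟩]),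
    (117, [⟨5, 0, 0, 0, 6⟩]),
    (118, [⟨0, 0, 0, 0, 1⟩]),
    (119, [⟨5, 0, 0, 0, 15⟩])]⟩,
   []⟩

/-- Claim trap9_T1@0_T2@0. -/
def c85 : Claim :=
  ⟨⟨⟨0, 0, 0, 0, 0⟩, ⟨0, 0, 0, 0, 0⟩, ⟨0, 0, 0, 0, 0⟩, ⟨0, 0, 0, 0, 0⟩, ⟨⟨0, 0, 0, 0, 0⟩, ⟨0, 0, 0, 0, 0⟩, ⟨0, 0, 0, 0, 0⟩, ⟨0, 0, 0, 0, 0⟩⟩⟩,
   [107, 108],
   [60, 61, 62],
   ⟨77, w71, [⟨0, 0, 0, 0, 0⟩], [⟨9, 0, 0, 0, 17⟩],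
    [(4, [⟨6, 0, 0, 0, 10⟩]),
    (5, [⟨3, 0, 0, 0, 3⟩]),
    (107, [⟨6, 0, 0, 0, 9⟩]),
    (108, [⟨3, 0, 0, 0, 4⟩])],
    [(4, [⟨6, 0, 0, 0, 10⟩]),
    (5, [⟨9, 0, 0, 0, 17⟩]),
    (107, [⟨6, 0, 0, 0, 11⟩]),
    (108, [⟨9, 0, 0, 0, 16⟩])]⟩,
   ⟨110, [(64, false), (63, false)], [⟨0, 0, 0, 0, 0⟩], [⟨6, 0, 0, 0, 5⟩],
    [(4, [⟨3, 0, 0, 0, -2⟩]),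
    (5, [⟨6, 0, 0, 0, 5⟩]),
    (107, [⟨3, 0, 0, 0, -1⟩]),
    (108, [⟨6, 0, 0, 0, 4⟩])],
    [(4, [⟨9, 0, 0, 0, 12⟩]),
    (5, [⟨6, 0, 0, 0, 5⟩]),
    (107, [⟨9, 0, 0, 0, 11⟩]),
    (108, [⟨6, 0, 0, 0, 6⟩])]⟩,
   []⟩

/-- Claim trap10_f2@0_T2@0. -/
def c86 : Claim :=
  ⟨⟨⟨0, 0, 0, 0, 0⟩, ⟨0, 0, 0, 0, 0⟩, ⟨0, 0, 0, 0, 0⟩, ⟨0, 0, 0, 0, 0⟩, ⟨⟨0, 0, 0, 0, 0⟩, ⟨0, 0, 0, 0, 0⟩, ⟨0, 0, 0, 0, 0⟩, ⟨0, 0, 0, 0, 0⟩⟩⟩,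
   [70, 71],
   [5, 6, 7],
   ⟨76, w72, [⟨0, 0, 0, 0, 0⟩], [⟨6, 0, 0, 0, 9⟩],
    [(2, [⟨3, 0, 0, 0, 5⟩]),
    (5, [⟨0, 0, 0, 0, 1⟩]),
    (70, [⟨3, 0, 0, 0, 4⟩]),
    (71, [⟨0, 0, 0, 0, 2⟩])],
    [(2, [⟨3, 0, 0, 0, 5⟩]),
    (5, [⟨6, 0, 0, 0, 9⟩]),
    (70, [⟨3, 0, 0, 0, 6⟩]),
    (71, [⟨6, 0, 0, 0, 8⟩])]⟩,
   ⟨110, [(64, false), (63, false)], [⟨0, 0, 0, 0, 0⟩], [⟨6, 0, 0, 0, 5⟩],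
    [(2, [⟨3, 0, 0, 0, 1⟩]),
    (5, [⟨6, 0, 0, 0, 5⟩]),
    (70, [⟨3, 0, 0, 0, 2⟩]),
    (71, [⟨6, 0, 0, 0, 4⟩])],
    [(2, [⟨9, 0, 0, 0, 9⟩]),
    (5, [⟨6, 0, 0, 0, 5⟩]),
    (70, [⟨9, 0, 0, 0, 8⟩]),
    (71, [⟨6, 0, 0, 0, 6⟩])]⟩,
   []⟩

/-- Claim NA2. -/
def c87 : Claim :=
  ⟨⟨⟨0, 0, 0, 0, 0⟩, ⟨0, 0, 0, 0, 0⟩, ⟨0, 0, 0, 0, 0⟩, ⟨0, 0, 0, 0, 0⟩, ⟨⟨120, 0, 0, 0, 0⟩, ⟨0, 0, 0, 0, 12⟩, ⟨0, 0, 0, 0, 0⟩, ⟨0, 0, 0, 0, 0⟩⟩⟩,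
   [17, 53, 56, 58, 60, 62, 64, 66, 19, 18, 54, 52, 55, 57, 59, 61, 63, 65, 67, 113, 114, 115, 116, 117, 118, 119, 120, 111, 112, 5, 107, 108, 109, 110, 70, 71],
   [5, 6, 7, 60, 61, 62, 63, 64, 65, 66, 67, 68, 69, 70, 71, 72, 73, 74, 75, 76, 77, 78, 141, 142, 143, 144, 145, 146, 147, 148, 149, 150, 151, 152, 153, 154, 155, 156, 157, 158, 159, 160, 161, 162, 163, 164, 165, 166, 167],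
   ⟨129, w73, [⟨0, 0, 0, 0, 0⟩], [⟨6, 0, 0, 0, 6⟩],
    [],
    [(17, [⟨1, 0, 0, 0, 4⟩]),
    (18, [⟨1, 0, 0, 0, 4⟩]),
    (19, [⟨1, 0, 0, 0, 1⟩]),
    (52, [⟨1, 0, 0, 0, 5⟩]),
    (53, [⟨1, 0, 0, 0, 5⟩]),
    (54, [⟨1, 0, 0, 0, 3⟩]),
    (55, [⟨1, 0, 0, 0, 4⟩]),
    (56, [⟨1, 0, 0, 0, 5⟩]),
    (57, [⟨1, 0, 0, 0, 5⟩]),
    (58, [⟨1, 0, 0, 0, 6⟩]),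
    (59, [⟨1, 0, 0, 0, 4⟩]),
    (60, [⟨1, 0, 0, 0, 5⟩]),
    (61, [⟨1, 0, 0, 0, 4⟩]),
    (62, [⟨1, 0, 0, 0, 4⟩]),
    (63, [⟨1, 0, 0, 0, 3⟩]),
    (64, [⟨1, 0, 0, 0, 3⟩]),
    (65, [⟨1, 0, 0, 0, 3⟩]),
    (66, [⟨1, 0, 0, 0, 2⟩]),
    (67, [⟨1, 0, 0, 0, 2⟩]),
    (109, [⟨6, 0, 0, 0, 5⟩]),
    (110, [⟨0, 0, 0, 0, 1⟩]),
    (111, [⟨1, 0, 0, 0, 5⟩]),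
    (113, [⟨1, 0, 0, 0, 5⟩]),
    (114, [⟨1, 0, 0, 0, 6⟩]),
    (115, [⟨1, 0, 0, 0, 7⟩]),
    (116, [⟨1, 0, 0, 0, 8⟩]),
    (117, [⟨1, 0, 0, 0, 9⟩]),
    (119, [⟨1, 0, 0, 0, 0⟩]),
    (120, [⟨0, 0, 0, 0, 1⟩]),
    (129, [⟨0, 0, 0, 0, 0⟩])]⟩,
   ⟨4, w74, [⟨0, 0, 0, 0, 0⟩], [⟨6, 0, 0, 0, 12⟩],
    [(2, [⟨6, 0, 0, 0, 11⟩]),
    (5, [⟨3, 0, 0, 0, 7⟩]),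
    (70, [⟨6, 0, 0, 0, 10⟩]),
    (71, [⟨3, 0, 0, 0, 8⟩]),
    (107, [⟨0, 0, 0, 0, 1⟩]),
    (108, [⟨3, 0, 0, 0, 6⟩]),
    (109, [⟨3, 0, 0, 0, 6⟩]),
    (118, [⟨3, 0, 0, 0, 6⟩])],
    [(2, [⟨6, 0, 0, 0, 11⟩]),
    (4, [⟨0, 0, 0, 0, 0⟩]),
    (5, [⟨3, 0, 0, 0, 7⟩]),
    (70, [⟨6, 0, 0, 0, 10⟩]),
    (71, [⟨3, 0, 0, 0, 8⟩]),
    (107, [⟨0, 0, 0, 0, 1⟩]),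
    (108, [⟨3, 0, 0, 0, 6⟩]),
    (109, [⟨3, 0, 0, 0, 8⟩]),
    (112, [⟨0, 0, 0, 0, 1⟩]),
    (118, [⟨3, 0, 0, 0, 8⟩])]⟩,
   []⟩

/-- Claim NA1u. -/
def c88 : Claim :=
  ⟨⟨⟨0, 0, 0, 0, 0⟩, ⟨0, 0, 0, 0, 0⟩, ⟨0, 0, 0, 0, 0⟩, ⟨0, 0, 0, 0, 0⟩, ⟨⟨120, 0, 0, 0, 0⟩, ⟨0, 0, 0, 0, 13⟩, ⟨0, 0, 0, 0, 0⟩, ⟨0, 0, 0, 0, 0⟩⟩⟩,
   [17, 53, 56, 58, 60, 62, 64, 66, 19, 18, 54, 52, 55, 57, 59, 61, 63, 65, 67, 113, 114, 115, 116, 117, 118, 119, 120, 111, 112, 5, 107, 108, 109, 110, 70, 71],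
   [5, 6, 7, 60, 61, 62, 63, 64, 65, 66, 67, 68, 69, 70, 71, 72, 73, 74, 75, 76, 77, 78, 141, 142, 143, 144, 145, 146, 147, 148, 149, 150, 151, 152, 153, 154, 155, 156, 157, 158, 159, 160, 161, 162, 163, 164, 165, 166, 167],
   ⟨18, w61, [⟨0, 0, 0, 0, 0⟩], [⟨1, 0, 0, 0, 4⟩],
    [(19, [⟨0, 0, 0, 0, 3⟩]),
    (54, [⟨0, 0, 0, 0, 1⟩]),
    (63, [⟨0, 0, 0, 0, 1⟩]),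
    (64, [⟨0, 0, 0, 0, 1⟩]),
    (65, [⟨0, 0, 0, 0, 1⟩]),
    (66, [⟨0, 0, 0, 0, 2⟩]),
    (67, [⟨0, 0, 0, 0, 2⟩]),
    (110, [⟨1, 0, 0, 0, 3⟩]),
    (119, [⟨0, 0, 0, 0, 4⟩]),
    (120, [⟨1, 0, 0, 0, 3⟩]),
    (129, [⟨1, 0, 0, 0, 4⟩])],
    []⟩,
   ⟨4, w74, [⟨0, 0, 0, 0, 0⟩], [⟨6, 0, 0, 0, 12⟩],
    [(2, [⟨6, 0, 0, 0, 11⟩]),
    (5, [⟨3, 0, 0, 0, 7⟩]),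
    (70, [⟨6, 0, 0, 0, 10⟩]),
    (71, [⟨3, 0, 0, 0, 8⟩]),
    (107, [⟨0, 0, 0, 0, 1⟩]),
    (108, [⟨3, 0, 0, 0, 6⟩]),
    (109, [⟨3, 0, 0, 0, 6⟩]),
    (118, [⟨3, 0, 0, 0, 6⟩])],
    [(2, [⟨6, 0, 0, 0, 11⟩]),
    (4, [⟨0, 0, 0, 0, 0⟩]),
    (5, [⟨3, 0, 0, 0, 7⟩]),
    (70, [⟨6, 0, 0, 0, 10⟩]),
    (71, [⟨3, 0, 0, 0, 8⟩]),
    (107, [⟨0, 0, 0, 0, 1⟩]),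
    (108, [⟨3, 0, 0, 0, 6⟩]),
    (109, [⟨3, 0, 0, 0, 8⟩]),
    (112, [⟨0, 0, 0, 0, 1⟩]),
    (118, [⟨3, 0, 0, 0, 8⟩])]⟩,
   []⟩

/-- Claim NA1d. -/
def c89 : Claim :=
  ⟨⟨⟨0, 0, 0, 0, 0⟩, ⟨0, 0, 0, 0, 0⟩, ⟨0, 0, 0, 0, 0⟩, ⟨0, 0, 0, 0, 0⟩, ⟨⟨120, 0, 0, 0, 0⟩, ⟨0, 0, 0, 0, 14⟩, ⟨0, 0, 0, 0, 0⟩, ⟨0, 0, 0, 0, 0⟩⟩⟩,
   [17, 53, 56, 58, 60, 62, 64, 66, 19, 18, 54, 52, 55, 57, 59, 61, 63, 65, 67, 113, 114, 115, 116, 117, 118, 119, 120, 111, 112, 5, 107, 108, 109, 110, 70, 71],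
   [5, 6, 7, 60, 61, 62, 63, 64, 65, 66, 67, 68, 69, 70, 71, 72, 73, 74, 75, 76, 77, 78, 141, 142, 143, 144, 145, 146, 147, 148, 149, 150, 151, 152, 153, 154, 155, 156, 157, 158, 159, 160, 161, 162, 163, 164, 165, 166, 167],
   ⟨9, w64, [⟨0, 0, 0, 0, 0⟩], [⟨10, 0, 0, 0, 19⟩],
    [(2, [⟨1, 0, 0, 0, 9⟩]),
    (4, [⟨1, 0, 0, 0, 6⟩]),
    (5, [⟨4, 0, 0, 0, 13⟩]),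
    (17, [⟨9, 0, 0, 0, 15⟩]),
    (18, [⟨9, 0, 0, 0, 15⟩]),
    (19, [⟨9, 0, 0, 0, 18⟩]),
    (52, [⟨9, 0, 0, 0, 14⟩]),
    (53, [⟨9, 0, 0, 0, 14⟩]),
    (54, [⟨9, 0, 0, 0, 16⟩]),
    (55, [⟨9, 0, 0, 0, 15⟩]),
    (56, [⟨9, 0, 0, 0, 14⟩]),
    (57, [⟨9, 0, 0, 0, 14⟩]),
    (58, [⟨9, 0, 0, 0, 13⟩]),
    (59, [⟨9, 0, 0, 0, 15⟩]),
    (60, [⟨9, 0, 0, 0, 14⟩]),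
    (61, [⟨9, 0, 0, 0, 15⟩]),
    (62, [⟨9, 0, 0, 0, 15⟩]),
    (63, [⟨9, 0, 0, 0, 16⟩]),
    (64, [⟨9, 0, 0, 0, 16⟩]),
    (65, [⟨9, 0, 0, 0, 16⟩]),
    (66, [⟨9, 0, 0, 0, 17⟩]),
    (67, [⟨9, 0, 0, 0, 17⟩]),
    (70, [⟨1, 0, 0, 0, 10⟩]),
    (71, [⟨4, 0, 0, 0, 12⟩]),
    (107, [⟨1, 0, 0, 0, 7⟩]),
    (108, [⟨4, 0, 0, 0, 12⟩]),
    (109, [⟨4, 0, 0, 0, 14⟩]),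
    (110, [⟨10, 0, 0, 0, 18⟩]),
    (111, [⟨9, 0, 0, 0, 14⟩]),
    (112, [⟨1, 0, 0, 0, 6⟩]),
    (113, [⟨9, 0, 0, 0, 14⟩]),
    (114, [⟨9, 0, 0, 0, 13⟩]),
    (115, [⟨9, 0, 0, 0, 12⟩]),
    (116, [⟨9, 0, 0, 0, 11⟩]),
    (117, [⟨9, 0, 0, 0, 10⟩]),
    (118, [⟨4, 0, 0, 0, 12⟩]),
    (119, [⟨9, 0, 0, 0, 19⟩]),
    (120, [⟨10, 0, 0, 0, 18⟩]),
    (129, [⟨10, 0, 0, 0, 19⟩])],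
    []⟩,
   ⟨4, w74, [⟨0, 0, 0, 0, 0⟩], [⟨6, 0, 0, 0, 12⟩],
    [(2, [⟨6, 0, 0, 0, 11⟩]),
    (5, [⟨3, 0, 0, 0, 7⟩]),
    (70, [⟨6, 0, 0, 0, 10⟩]),
    (71, [⟨3, 0, 0, 0, 8⟩]),
    (107, [⟨0, 0, 0, 0, 1⟩]),
    (108, [⟨3, 0, 0, 0, 6⟩]),
    (109, [⟨3, 0, 0, 0, 6⟩]),
    (118, [⟨3, 0, 0, 0, 6⟩])],
    [(2, [⟨6, 0, 0, 0, 11⟩]),
    (4, [⟨0, 0, 0, 0, 0⟩]),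
    (5, [⟨3, 0, 0, 0, 7⟩]),
    (70, [⟨6, 0, 0, 0, 10⟩]),
    (71, [⟨3, 0, 0, 0, 8⟩]),
    (107, [⟨0, 0, 0, 0, 1⟩]),
    (108, [⟨3, 0, 0, 0, 6⟩]),
    (109, [⟨3, 0, 0, 0, 8⟩]),
    (112, [⟨0, 0, 0, 0, 1⟩]),
    (118, [⟨3, 0, 0, 0, 8⟩])]⟩,
   []⟩

/-- Claim TKb. -/
def c90 : Claim :=
  ⟨⟨⟨0, 0, 0, 0, 0⟩, ⟨0, 0, 0, 0, 0⟩, ⟨0, 0, 0, 0, 0⟩, ⟨0, 0, 0, 0, 0⟩, ⟨⟨120, 0, 0, 0, 0⟩, ⟨0, 0, 0, 0, 15⟩, ⟨0, 0, 0, 0, 0⟩, ⟨0, 0, 0, 0, 0⟩⟩⟩,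
   [17, 53, 56, 58, 60, 62, 64, 66, 18, 54, 52, 55, 57, 59, 61, 63, 65, 67, 111, 112, 113, 114],
   [66, 67, 68, 69, 70, 71, 141, 142, 143, 144, 145, 146, 147, 148, 149, 150, 151, 152, 153, 154, 155, 156, 157, 158, 159, 160, 161, 162, 163, 164, 165, 166, 167],
   ⟨134, w75, [⟨0, 0, 0, 0, 0⟩], [⟨18, 0, 0, 0, 29⟩],
    [(4, [⟨10, 0, 0, 0, 19⟩]),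
    (17, [⟨2, 0, 0, 0, 9⟩]),
    (18, [⟨2, 0, 0, 0, 8⟩]),
    (19, [⟨2, 0, 0, 0, 6⟩]),
    (52, [⟨2, 0, 0, 0, 7⟩]),
    (53, [⟨2, 0, 0, 0, 8⟩]),
    (54, [⟨2, 0, 0, 0, 8⟩]),
    (55, [⟨2, 0, 0, 0, 7⟩]),
    (56, [⟨2, 0, 0, 0, 7⟩]),
    (57, [⟨2, 0, 0, 0, 6⟩]),
    (58, [⟨2, 0, 0, 0, 6⟩]),
    (59, [⟨2, 0, 0, 0, 6⟩]),
    (60, [⟨2, 0, 0, 0, 5⟩]),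
    (61, [⟨2, 0, 0, 0, 6⟩]),
    (62, [⟨2, 0, 0, 0, 5⟩]),
    (63, [⟨2, 0, 0, 0, 6⟩]),
    (64, [⟨2, 0, 0, 0, 5⟩]),
    (65, [⟨2, 0, 0, 0, 7⟩]),
    (66, [⟨2, 0, 0, 0, 6⟩]),
    (67, [⟨2, 0, 0, 0, 7⟩]),
    (111, [⟨2, 0, 0, 0, 10⟩]),
    (112, [⟨10, 0, 0, 0, 18⟩]),
    (113, [⟨2, 0, 0, 0, 9⟩]),
    (114, [⟨2, 0, 0, 0, 10⟩]),
    (115, [⟨2, 0, 0, 0, 11⟩])],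
    [(4, [⟨10, 0, 0, 0, 19⟩]),
    (111, [⟨18, 0, 0, 0, 28⟩]),
    (112, [⟨10, 0, 0, 0, 20⟩]),
    (114, [⟨18, 0, 0, 0, 28⟩]),
    (115, [⟨18, 0, 0, 0, 27⟩])]⟩,
   ⟨18, w61, [⟨0, 0, 0, 0, 0⟩], [⟨11, 0, 0, 0, 23⟩],
    [(19, [⟨0, 0, 0, 0, 3⟩]),
    (54, [⟨0, 0, 0, 0, 1⟩]),
    (63, [⟨0, 0, 0, 0, 1⟩]),
    (64, [⟨0, 0, 0, 0, 1⟩]),
    (65, [⟨0, 0, 0, 0, 1⟩]),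
    (66, [⟨0, 0, 0, 0, 2⟩]),
    (67, [⟨0, 0, 0, 0, 2⟩]),
    (113, [⟨0, 0, 0, 0, 1⟩]),
    (114, [⟨0, 0, 0, 0, 2⟩]),
    (115, [⟨0, 0, 0, 0, 3⟩])],
    [(4, [⟨0, 0, 0, 0, 3⟩]),
    (17, [⟨0, 0, 0, 0, 3⟩]),
    (18, [⟨0, 0, 0, 0, 3⟩]),
    (19, [⟨0, 0, 0, 0, 3⟩]),
    (52, [⟨0, 0, 0, 0, 3⟩]),
    (53, [⟨0, 0, 0, 0, 3⟩]),
    (54, [⟨0, 0, 0, 0, 3⟩]),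
    (55, [⟨0, 0, 0, 0, 3⟩]),
    (56, [⟨0, 0, 0, 0, 3⟩]),
    (57, [⟨0, 0, 0, 0, 3⟩]),
    (58, [⟨0, 0, 0, 0, 3⟩]),
    (59, [⟨0, 0, 0, 0, 3⟩]),
    (60, [⟨0, 0, 0, 0, 3⟩]),
    (61, [⟨0, 0, 0, 0, 3⟩]),
    (62, [⟨0, 0, 0, 0, 3⟩]),
    (63, [⟨0, 0, 0, 0, 3⟩]),
    (64, [⟨0, 0, 0, 0, 3⟩]),
    (65, [⟨0, 0, 0, 0, 3⟩]),
    (66, [⟨0, 0, 0, 0, 3⟩]),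
    (67, [⟨0, 0, 0, 0, 3⟩]),
    (111, [⟨0, 0, 0, 0, 3⟩]),
    (112, [⟨0, 0, 0, 0, 3⟩]),
    (113, [⟨0, 0, 0, 0, 3⟩]),
    (114, [⟨0, 0, 0, 0, 3⟩]),
    (115, [⟨0, 0, 0, 0, 3⟩])]⟩,
   []⟩

/-- Claim TKc. -/
def c91 : Claim :=
  ⟨⟨⟨0, 0, 0, 0, 0⟩, ⟨0, 0, 0, 0, 0⟩, ⟨0, 0, 0, 0, 0⟩, ⟨0, 0, 0, 0, 0⟩, ⟨⟨120, 0, 0, 0, 0⟩, ⟨0, 0, 0, 0, 16⟩, ⟨0, 0, 0, 0, 0⟩, ⟨0, 0, 0, 0, 0⟩⟩⟩,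
   [17, 53, 56, 58, 60, 62, 64, 66, 18, 54, 52, 55, 57, 59, 61, 63, 65, 67, 111, 112, 113, 114],
   [66, 67, 68, 69, 70, 71, 141, 142, 143, 144, 145, 146, 147, 148, 149, 150, 151, 152, 153, 154, 155, 156, 157, 158, 159, 160, 161, 162, 163, 164, 165, 166, 167],
   ⟨143, w76, [⟨0, 0, 0, 0, 0⟩], [⟨9, 0, 0, 0, 14⟩],
    [(4, [⟨1, 0, 0, 0, 4⟩]),
    (112, [⟨1, 0, 0, 0, 3⟩])],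
    [(4, [⟨1, 0, 0, 0, 4⟩]),
    (111, [⟨9, 0, 0, 0, 13⟩]),
    (112, [⟨1, 0, 0, 0, 5⟩]),
    (114, [⟨9, 0, 0, 0, 13⟩]),
    (115, [⟨9, 0, 0, 0, 12⟩])]⟩,
   ⟨18, w61, [⟨0, 0, 0, 0, 0⟩], [⟨11, 0, 0, 0, 23⟩],
    [(19, [⟨0, 0, 0, 0, 3⟩]),
    (54, [⟨0, 0, 0, 0, 1⟩]),
    (63, [⟨0, 0, 0, 0, 1⟩]),
    (64, [⟨0, 0, 0, 0, 1⟩]),
    (65, [⟨0, 0, 0, 0, 1⟩]),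
    (66, [⟨0, 0, 0, 0, 2⟩]),
    (67, [⟨0, 0, 0, 0, 2⟩]),
    (113, [⟨0, 0, 0, 0, 1⟩]),
    (114, [⟨0, 0, 0, 0, 2⟩]),
    (115, [⟨0, 0, 0, 0, 3⟩])],
    [(4, [⟨0, 0, 0, 0, 3⟩]),
    (17, [⟨0, 0, 0, 0, 3⟩]),
    (18, [⟨0, 0, 0, 0, 3⟩]),
    (19, [⟨0, 0, 0, 0, 3⟩]),
    (52, [⟨0, 0, 0, 0, 3⟩]),
    (53, [⟨0, 0, 0, 0, 3⟩]),
    (54, [⟨0, 0, 0, 0, 3⟩]),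
    (55, [⟨0, 0, 0, 0, 3⟩]),
    (56, [⟨0, 0, 0, 0, 3⟩]),
    (57, [⟨0, 0, 0, 0, 3⟩]),
    (58, [⟨0, 0, 0, 0, 3⟩]),
    (59, [⟨0, 0, 0, 0, 3⟩]),
    (60, [⟨0, 0, 0, 0, 3⟩]),
    (61, [⟨0, 0, 0, 0, 3⟩]),
    (62, [⟨0, 0, 0, 0, 3⟩]),
    (63, [⟨0, 0, 0, 0, 3⟩]),
    (64, [⟨0, 0, 0, 0, 3⟩]),
    (65, [⟨0, 0, 0, 0, 3⟩]),
    (66, [⟨0, 0, 0, 0, 3⟩]),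
    (67, [⟨0, 0, 0, 0, 3⟩]),
    (111, [⟨0, 0, 0, 0, 3⟩]),
    (112, [⟨0, 0, 0, 0, 3⟩]),
    (113, [⟨0, 0, 0, 0, 3⟩]),
    (114, [⟨0, 0, 0, 0, 3⟩]),
    (115, [⟨0, 0, 0, 0, 3⟩])]⟩,
   []⟩

/-- Claim TZL. -/
def c92 : Claim :=
  ⟨⟨⟨0, 0, 0, 0, 0⟩, ⟨0, 0, 0, 0, 0⟩, ⟨0, 0, 0, 0, 0⟩, ⟨0, 0, 0, 0, 0⟩, ⟨⟨120, 0, 0, 0, 0⟩, ⟨0, 0, 0, 0, 17⟩, ⟨0, 0, 0, 0, 0⟩, ⟨0, 0, 0, 0, 0⟩⟩⟩,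
   [17, 53, 56, 58, 60, 62, 64, 66, 19, 18, 54, 52, 55, 57, 59, 61, 63, 65, 67, 113, 114, 115, 116, 117, 119, 120, 111, 112],
   [66, 67, 68, 69, 70, 71, 72, 73, 74, 76, 77, 78, 141, 142, 143, 144, 145, 146, 147, 148, 149, 150, 151, 152, 153, 154, 155, 156, 157, 158, 159, 160, 161, 162, 163, 164, 165, 166, 167],
   ⟨9, w64, [⟨0, 0, 0, 0, 0⟩], [⟨11, 0, 0, 0, 23⟩],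
    [(4, [⟨1, 0, 0, 0, 5⟩]),
    (17, [⟨9, 0, 0, 0, 15⟩]),
    (18, [⟨9, 0, 0, 0, 15⟩]),
    (19, [⟨9, 0, 0, 0, 18⟩]),
    (52, [⟨9, 0, 0, 0, 14⟩]),
    (53, [⟨9, 0, 0, 0, 14⟩]),
    (54, [⟨9, 0, 0, 0, 16⟩]),
    (55, [⟨9, 0, 0, 0, 15⟩]),
    (56, [⟨9, 0, 0, 0, 14⟩]),
    (57, [⟨9, 0, 0, 0, 14⟩]),
    (58, [⟨9, 0, 0, 0, 13⟩]),
    (59, [⟨9, 0, 0, 0, 15⟩]),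
    (60, [⟨9, 0, 0, 0, 14⟩]),
    (61, [⟨9, 0, 0, 0, 15⟩]),
    (62, [⟨9, 0, 0, 0, 15⟩]),
    (63, [⟨9, 0, 0, 0, 16⟩]),
    (64, [⟨9, 0, 0, 0, 16⟩]),
    (65, [⟨9, 0, 0, 0, 16⟩]),
    (66, [⟨9, 0, 0, 0, 17⟩]),
    (67, [⟨9, 0, 0, 0, 17⟩]),
    (111, [⟨9, 0, 0, 0, 14⟩]),
    (112, [⟨1, 0, 0, 0, 6⟩]),
    (113, [⟨9, 0, 0, 0, 14⟩]),
    (114, [⟨9, 0, 0, 0, 13⟩]),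
    (115, [⟨9, 0, 0, 0, 12⟩]),
    (116, [⟨9, 0, 0, 0, 11⟩]),
    (117, [⟨9, 0, 0, 0, 10⟩]),
    (118, [⟨6, 0, 0, 0, 13⟩]),
    (119, [⟨9, 0, 0, 0, 19⟩]),
    (120, [⟨10, 0, 0, 0, 18⟩]),
    (129, [⟨10, 0, 0, 0, 19⟩])],
    [(19, [⟨11, 0, 0, 0, 20⟩]),
    (54, [⟨11, 0, 0, 0, 22⟩]),
    (63, [⟨11, 0, 0, 0, 22⟩]),
    (64, [⟨11, 0, 0, 0, 22⟩]),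
    (65, [⟨11, 0, 0, 0, 22⟩]),
    (66, [⟨11, 0, 0, 0, 21⟩]),
    (67, [⟨11, 0, 0, 0, 21⟩]),
    (113, [⟨11, 0, 0, 0, 22⟩]),
    (114, [⟨11, 0, 0, 0, 21⟩]),
    (115, [⟨11, 0, 0, 0, 20⟩]),
    (116, [⟨11, 0, 0, 0, 19⟩]),
    (117, [⟨11, 0, 0, 0, 18⟩]),
    (118, [⟨6, 0, 0, 0, 13⟩]),
    (119, [⟨11, 0, 0, 0, 19⟩]),
    (120, [⟨10, 0, 0, 0, 20⟩]),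
    (129, [⟨10, 0, 0, 0, 19⟩])]⟩,
   ⟨143, w77, [⟨0, 0, 0, 0, 0⟩], [⟨11, 0, 0, 0, 23⟩],
    [(4, [⟨1, 0, 0, 0, 4⟩]),
    (112, [⟨1, 0, 0, 0, 3⟩])],
    [(4, [⟨1, 0, 0, 0, 4⟩]),
    (17, [⟨9, 0, 0, 0, 14⟩]),
    (18, [⟨9, 0, 0, 0, 15⟩]),
    (19, [⟨9, 0, 0, 0, 17⟩]),
    (52, [⟨9, 0, 0, 0, 16⟩]),
    (53, [⟨9, 0, 0, 0, 15⟩]),
    (54, [⟨9, 0, 0, 0, 15⟩]),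
    (55, [⟨9, 0, 0, 0, 16⟩]),
    (56, [⟨9, 0, 0, 0, 16⟩]),
    (57, [⟨9, 0, 0, 0, 17⟩]),
    (58, [⟨9, 0, 0, 0, 17⟩]),
    (59, [⟨9, 0, 0, 0, 17⟩]),
    (60, [⟨9, 0, 0, 0, 18⟩]),
    (61, [⟨9, 0, 0, 0, 17⟩]),
    (62, [⟨9, 0, 0, 0, 18⟩]),
    (63, [⟨9, 0, 0, 0, 17⟩]),
    (64, [⟨9, 0, 0, 0, 18⟩]),
    (65, [⟨9, 0, 0, 0, 16⟩]),
    (66, [⟨9, 0, 0, 0, 17⟩]),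
    (67, [⟨9, 0, 0, 0, 16⟩]),
    (111, [⟨9, 0, 0, 0, 13⟩]),
    (112, [⟨1, 0, 0, 0, 5⟩]),
    (113, [⟨9, 0, 0, 0, 14⟩]),
    (114, [⟨9, 0, 0, 0, 13⟩]),
    (115, [⟨9, 0, 0, 0, 12⟩]),
    (116, [⟨9, 0, 0, 0, 11⟩]),
    (117, [⟨9, 0, 0, 0, 10⟩]),
    (118, [⟨4, 0, 0, 0, 5⟩]),
    (119, [⟨9, 0, 0, 0, 18⟩]),
    (120, [⟨10, 0, 0, 0, 17⟩]),
    (129, [⟨10, 0, 0, 0, 18⟩])]⟩,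
   []⟩

/-- Claim NT1. -/
def c93 : Claim :=
  ⟨⟨⟨0, 0, 0, 0, 0⟩, ⟨0, 0, 0, 0, 0⟩, ⟨0, 0, 0, 0, 0⟩, ⟨0, 0, 0, 0, 0⟩, ⟨⟨120, 0, 0, 0, 0⟩, ⟨0, 0, 0, 0, 18⟩, ⟨0, 0, 0, 0, 0⟩, ⟨0, 0, 0, 0, 0⟩⟩⟩,
   [129],
   [],
   ⟨18, w61, [⟨1, 0, 0, 0, 5⟩], [⟨1, 0, 0, 0, 5⟩],
    [],
    []⟩,
   ⟨143, w77, [⟨2, 0, 0, 0, 4⟩], [⟨8, 0, 0, 0, 18⟩],
    [],
    []⟩,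
   []⟩

/-- Claim NT2. -/
def c94 : Claim :=
  ⟨⟨⟨0, 0, 0, 0, 0⟩, ⟨0, 0, 0, 0, 0⟩, ⟨0, 0, 0, 0, 0⟩, ⟨0, 0, 0, 0, 0⟩, ⟨⟨120, 0, 0, 0, 0⟩, ⟨0, 0, 0, 0, 19⟩, ⟨0, 0, 0, 0, 0⟩, ⟨0, 0, 0, 0, 0⟩⟩⟩,
   [129],
   [],
   ⟨18, w61, [⟨1, 0, 0, 0, 5⟩], [⟨1, 0, 0, 0, 6⟩],
    [],
    []⟩,
   ⟨143, w77, [⟨2, 0, 0, 0, 4⟩], [⟨8, 0, 0, 0, 18⟩],
    [],
    []⟩,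
   []⟩

/-- Claim PNr. -/
def c95 : Claim :=
  ⟨⟨⟨0, 0, 0, 0, 0⟩, ⟨0, 0, 0, 0, 0⟩, ⟨0, 0, 0, 0, 0⟩, ⟨0, 0, 0, 0, 0⟩, ⟨⟨120, 0, 0, 0, 0⟩, ⟨0, 0, 0, 0, 20⟩, ⟨0, 0, 0, 0, 0⟩, ⟨0, 0, 0, 0, 0⟩⟩⟩,
   [193, 194],
   [170, 171, 172],
   ⟨131, w78, [⟨0, 0, 0, 0, 0⟩], [⟨4, 0, 0, 0, 5⟩],
    [(125, [⟨1, 0, 0, 0, 1⟩]),
    (129, [⟨4, 0, 0, 0, 3⟩]),
    (193, [⟨1, 0, 0, 0, 0⟩]),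
    (194, [⟨4, 0, 0, 0, 2⟩])],
    [(125, [⟨1, 0, 0, 0, 1⟩]),
    (193, [⟨1, 0, 0, 0, 2⟩]),
    (194, [⟨4, 0, 0, 0, 4⟩])]⟩,
   ⟨4, w74, [⟨1, 0, 0, 0, 0⟩], [⟨6, 0, 0, 0, 12⟩],
    [],
    [(125, [⟨6, 0, 0, 0, 9⟩]),
    (129, [⟨3, 0, 0, 0, 5⟩]),
    (193, [⟨6, 0, 0, 0, 8⟩]),
    (194, [⟨3, 0, 0, 0, 6⟩])]⟩,
   []⟩

/-- Claim PNb. -/
def c96 : Claim :=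
  ⟨⟨⟨0, 0, 0, 0, 0⟩, ⟨0, 0, 0, 0, 0⟩, ⟨0, 0, 0, 0, 0⟩, ⟨0, 0, 0, 0, 0⟩, ⟨⟨120, 0, 0, 0, 0⟩, ⟨0, 0, 0, 0, 21⟩, ⟨0, 0, 0, 0, 0⟩, ⟨0, 0, 0, 0, 0⟩⟩⟩,
   [193, 194],
   [170, 171, 172],
   ⟨131, w78, [⟨0, 0, 0, 0, 0⟩], [⟨4, 0, 0, 0, 5⟩],
    [(125, [⟨1, 0, 0, 0, 1⟩]),
    (129, [⟨4, 0, 0, 0, 3⟩]),
    (193, [⟨1, 0, 0, 0, 0⟩]),
    (194, [⟨4, 0, 0, 0, 2⟩])],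
    [(125, [⟨1, 0, 0, 0, 1⟩]),
    (193, [⟨1, 0, 0, 0, 2⟩]),
    (194, [⟨4, 0, 0, 0, 4⟩])]⟩,
   ⟨143, w77, [⟨2, 0, 0, 0, 4⟩], [⟨11, 0, 0, 0, 23⟩],
    [],
    [(125, [⟨11, 0, 0, 0, 22⟩]),
    (129, [⟨8, 0, 0, 0, 18⟩]),
    (193, [⟨11, 0, 0, 0, 21⟩]),
    (194, [⟨8, 0, 0, 0, 19⟩])]⟩,
   []⟩

/-- Claim trap11_z1@0_sq@0. -/
def c97 : Claim :=
  ⟨⟨⟨0, 0, 0, 0, 0⟩, ⟨0, 0, 0, 0, 0⟩, ⟨0, 0, 0, 0, 0⟩, ⟨0, 0, 0, 0, 0⟩, ⟨⟨0, 0, 0, 0, 0⟩, ⟨0, 0, 0, 0, 0⟩, ⟨0, 0, 0, 0, 0⟩, ⟨0, 0, 0, 0, 0⟩⟩⟩,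
   [78, 79],
   [17, 18, 19],
   ⟨69, w79, [⟨0, 0, 0, 0, 0⟩], [⟨4, 0, 0, 0, 4⟩],
    [(1, [⟨3, 0, 0, 0, 4⟩]),
    (8, [⟨2, 0, 0, 0, 4⟩]),
    (78, [⟨3, 0, 0, 0, 3⟩]),
    (79, [⟨2, 0, 0, 0, 5⟩])],
    [(1, [⟨3, 0, 0, 0, 4⟩]),
    (8, [⟨4, 0, 0, 0, 4⟩]),
    (78, [⟨3, 0, 0, 0, 5⟩]),
    (79, [⟨4, 0, 0, 0, 3⟩])]⟩,
   ⟨83, [(24, false), (23, false)], [⟨0, 0, 0, 0, 0⟩], [⟨1, 0, 0, 0, 0⟩],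
    [(1, [⟨0, 0, 0, 0, 0⟩]),
    (8, [⟨1, 0, 0, 0, 0⟩]),
    (78, [⟨0, 0, 0, 0, 1⟩]),
    (79, [⟨1, 0, 0, 0, -1⟩])],
    [(1, [⟨2, 0, 0, 0, 0⟩]),
    (8, [⟨1, 0, 0, 0, 0⟩]),
    (78, [⟨2, 0, 0, 0, -1⟩]),
    (79, [⟨1, 0, 0, 0, 1⟩])]⟩,
   []⟩

/-- Claim trap12_z1@0_sq@0. -/
def c98 : Claim :=
  ⟨⟨⟨0, 0, 0, 0, 0⟩, ⟨0, 0, 0, 0, 0⟩, ⟨0, 0, 0, 0, 0⟩, ⟨0, 0, 0, 0, 0⟩, ⟨⟨0, 0, 0, 0, 0⟩, ⟨0, 0, 0, 0, 0⟩, ⟨0, 0, 0, 0, 0⟩, ⟨0, 0, 0, 0, 0⟩⟩⟩,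
   [78, 79],
   [17, 18, 19],
   ⟨77, w80, [⟨0, 0, 0, 0, 0⟩], [⟨4, 0, 0, 0, 5⟩],
    [(1, [⟨3, 0, 0, 0, 5⟩]),
    (8, [⟨2, 0, 0, 0, 5⟩]),
    (78, [⟨3, 0, 0, 0, 4⟩]),
    (79, [⟨2, 0, 0, 0, 6⟩])],
    [(1, [⟨3, 0, 0, 0, 5⟩]),
    (8, [⟨4, 0, 0, 0, 5⟩]),
    (78, [⟨3, 0, 0, 0, 6⟩]),
    (79, [⟨4, 0, 0, 0, 4⟩])]⟩,
   ⟨83, [(24, false), (23, false)], [⟨0, 0, 0, 0, 0⟩], [⟨1, 0, 0, 0, 0⟩],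
    [(1, [⟨0, 0, 0, 0, 0⟩]),
    (8, [⟨1, 0, 0, 0, 0⟩]),
    (78, [⟨0, 0, 0, 0, 1⟩]),
    (79, [⟨1, 0, 0, 0, -1⟩])],
    [(1, [⟨2, 0, 0, 0, 0⟩]),
    (8, [⟨1, 0, 0, 0, 0⟩]),
    (78, [⟨2, 0, 0, 0, -1⟩]),
    (79, [⟨1, 0, 0, 0, 1⟩])]⟩,
   []⟩

/-- Claim trap13_sq@0_f2@0. -/
def c99 : Claim :=
  ⟨⟨⟨0, 0, 0, 0, 0⟩, ⟨0, 0, 0, 0, 0⟩, ⟨0, 0, 0, 0, 0⟩, ⟨0, 0, 0, 0, 0⟩, ⟨⟨0, 0, 0, 0, 0⟩, ⟨0, 0, 0, 0, 0⟩, ⟨0, 0, 0, 0, 0⟩, ⟨0, 0, 0, 0, 0⟩⟩⟩,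
   [80, 81],
   [20, 21, 22],
   ⟨89, w81, [⟨0, 0, 0, 0, 0⟩], [⟨5, 0, 0, 0, 16⟩],
    [(2, [⟨1, 0, 0, 0, 0⟩]),
    (8, [⟨3, 0, 0, 0, 8⟩]),
    (80, [⟨3, 0, 0, 0, 7⟩]),
    (81, [⟨1, 0, 0, 0, 1⟩])],
    [(2, [⟨5, 0, 0, 0, 16⟩]),
    (8, [⟨3, 0, 0, 0, 8⟩]),
    (80, [⟨3, 0, 0, 0, 9⟩]),
    (81, [⟨5, 0, 0, 0, 15⟩])]⟩,
   ⟨76, w82, [⟨0, 0, 0, 0, 0⟩], [⟨3, 0, 0, 0, 6⟩],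
    [(2, [⟨3, 0, 0, 0, 5⟩]),
    (8, [⟨1, 0, 0, 0, -3⟩]),
    (80, [⟨1, 0, 0, 0, -2⟩]),
    (81, [⟨3, 0, 0, 0, 4⟩])],
    [(2, [⟨3, 0, 0, 0, 5⟩]),
    (8, [⟨5, 0, 0, 0, 13⟩]),
    (80, [⟨5, 0, 0, 0, 12⟩]),
    (81, [⟨3, 0, 0, 0, 6⟩])]⟩,
   []⟩

/-- Claim KS. -/
def c100 : Claim :=
  ⟨⟨⟨0, 0, 0, 0, 0⟩, ⟨0, 0, 0, 0, 0⟩, ⟨0, 0, 0, 0, 0⟩, ⟨0, 0, 0, 0, 0⟩, ⟨⟨120, 0, 0, 0, 0⟩, ⟨0, 0, 0, 0, 22⟩, ⟨0, 0, 0, 0, 0⟩, ⟨0, 0, 0, 0, 0⟩⟩⟩,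
   [8, 78, 79, 80, 81, 82, 83],
   [17, 18, 19, 20, 21, 22, 23, 24, 25],
   ⟨18, w83, [⟨0, 0, 0, 0, 0⟩], [⟨12, 0, 0, 0, 24⟩],
    [(1, [⟨9, 0, 0, 0, 22⟩]),
    (2, [⟨8, 0, 0, 0, 14⟩]),
    (8, [⟨10, 0, 0, 0, 22⟩]),
    (9, [⟨11, 0, 0, 0, 23⟩]),
    (78, [⟨9, 0, 0, 0, 23⟩]),
    (79, [⟨10, 0, 0, 0, 21⟩]),
    (80, [⟨10, 0, 0, 0, 21⟩]),
    (81, [⟨8, 0, 0, 0, 15⟩]),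
    (82, [⟨10, 0, 0, 0, 23⟩]),
    (83, [⟨11, 0, 0, 0, 22⟩])],
    [(9, [⟨11, 0, 0, 0, 23⟩]),
    (82, [⟨12, 0, 0, 0, 23⟩]),
    (83, [⟨11, 0, 0, 0, 24⟩])]⟩,
   ⟨4, w74, [⟨0, 0, 0, 0, 0⟩], [⟨6, 0, 0, 0, 12⟩],
    [(1, [⟨3, 0, 0, 0, 5⟩]),
    (2, [⟨6, 0, 0, 0, 11⟩]),
    (8, [⟨4, 0, 0, 0, 3⟩]),
    (9, [⟨3, 0, 0, 0, 2⟩]),
    (78, [⟨3, 0, 0, 0, 4⟩]),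
    (79, [⟨4, 0, 0, 0, 2⟩]),
    (80, [⟨4, 0, 0, 0, 4⟩]),
    (81, [⟨6, 0, 0, 0, 10⟩]),
    (82, [⟨4, 0, 0, 0, 2⟩]),
    (83, [⟨3, 0, 0, 0, 3⟩])],
    [(1, [⟨3, 0, 0, 0, 5⟩]),
    (2, [⟨6, 0, 0, 0, 11⟩]),
    (8, [⟨4, 0, 0, 0, 5⟩]),
    (9, [⟨5, 0, 0, 0, 6⟩]),
    (78, [⟨3, 0, 0, 0, 6⟩]),
    (79, [⟨4, 0, 0, 0, 4⟩]),
    (80, [⟨4, 0, 0, 0, 6⟩]),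
    (82, [⟨4, 0, 0, 0, 6⟩]),
    (83, [⟨5, 0, 0, 0, 5⟩])]⟩,
   []⟩

/-- Claim trap14_Fu@0_Fq@0. -/
def c101 : Claim :=
  ⟨⟨⟨0, 0, 0, 0, 0⟩, ⟨0, 0, 0, 0, 0⟩, ⟨0, 0, 0, 0, 0⟩, ⟨0, 0, 0, 0, 0⟩, ⟨⟨0, 0, 0, 0, 0⟩, ⟨0, 0, 0, 0, 0⟩, ⟨0, 0, 0, 0, 0⟩, ⟨0, 0, 0, 0, 0⟩⟩⟩,
   [95, 96],
   [42, 43, 44],
   ⟨94, w84, [⟨0, 0, 0, 0, 0⟩], [⟨5, 0, 0, 0, 5⟩],
    [(12, [⟨3, 0, 0, 0, 4⟩]),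
    (13, [⟨1, 0, 0, 0, 3⟩]),
    (95, [⟨3, 0, 0, 0, 3⟩]),
    (96, [⟨1, 0, 0, 0, 4⟩])],
    [(12, [⟨3, 0, 0, 0, 4⟩]),
    (13, [⟨5, 0, 0, 0, 5⟩]),
    (95, [⟨3, 0, 0, 0, 5⟩]),
    (96, [⟨5, 0, 0, 0, 4⟩])]⟩,
   ⟨14, w85, [⟨0, 0, 0, 0, 0⟩], [⟨2, 0, 0, 0, 1⟩],
    [(12, [⟨0, 0, 0, 0, 0⟩]),
    (13, [⟨2, 0, 0, 0, 1⟩]),
    (95, [⟨0, 0, 0, 0, 1⟩]),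
    (96, [⟨2, 0, 0, 0, 0⟩])],
    [(12, [⟨4, 0, 0, 0, 2⟩]),
    (13, [⟨2, 0, 0, 0, 1⟩]),
    (95, [⟨4, 0, 0, 0, 1⟩]),
    (96, [⟨2, 0, 0, 0, 2⟩])]⟩,
   []⟩

/-- Claim trap15_Fq@0_f1@1. -/
def c102 : Claim :=
  ⟨⟨⟨0, 0, 0, 0, 0⟩, ⟨0, 0, 0, 0, 0⟩, ⟨0, 0, 0, 0, 0⟩, ⟨0, 0, 0, 0, 0⟩, ⟨⟨0, 0, 0, 0, 0⟩, ⟨0, 0, 0, 0, 0⟩, ⟨0, 0, 0, 0, 0⟩, ⟨0, 0, 0, 0, 0⟩⟩⟩,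
   [97, 98],
   [45, 46, 47],
   ⟨103, w86, [⟨0, 0, 0, 0, 0⟩], [⟨7, 0, 0, 0, 5⟩],
    [(13, [⟨4, 0, 0, 0, 1⟩]),
    (97, [⟨4, 0, 0, 0, 0⟩]),
    (98, [⟨1, 0, 0, 0, -2⟩]),
    (125, [⟨1, 0, 0, 0, -3⟩])],
    [(13, [⟨4, 0, 0, 0, 1⟩]),
    (97, [⟨4, 0, 0, 0, 2⟩]),
    (98, [⟨7, 0, 0, 0, 4⟩]),
    (125, [⟨7, 0, 0, 0, 5⟩])]⟩,
   ⟨105, w87, [⟨0, 0, 0, 0, 0⟩], [⟨8, 0, 0, 0, 8⟩],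
    [(13, [⟨2, 0, 0, 0, 0⟩]),
    (97, [⟨2, 0, 0, 0, 1⟩]),
    (98, [⟨5, 0, 0, 0, 3⟩]),
    (125, [⟨5, 0, 0, 0, 4⟩])],
    [(13, [⟨8, 0, 0, 0, 8⟩]),
    (97, [⟨8, 0, 0, 0, 7⟩]),
    (98, [⟨5, 0, 0, 0, 5⟩]),
    (125, [⟨5, 0, 0, 0, 4⟩])]⟩,
   []⟩

/-- Claim KF2. -/
def c103 : Claim :=
  ⟨⟨⟨0, 0, 0, 0, 0⟩, ⟨0, 0, 0, 0, 0⟩, ⟨0, 0, 0, 0, 0⟩, ⟨0, 0, 0, 0, 0⟩, ⟨⟨120, 0, 0, 0, 0⟩, ⟨0, 0, 0, 0, 23⟩, ⟨0, 0, 0, 0, 0⟩, ⟨0, 0, 0, 0, 0⟩⟩⟩,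
   [13, 95, 96, 97, 98, 99, 100],
   [42, 43, 44, 45, 46, 47, 48, 49, 50],
   ⟨4, w88, [⟨0, 0, 0, 0, 0⟩], [⟨11, 0, 0, 0, 14⟩],
    [(12, [⟨5, 0, 0, 0, 11⟩]),
    (13, [⟨7, 0, 0, 0, 12⟩]),
    (14, [⟨9, 0, 0, 0, 13⟩]),
    (95, [⟨5, 0, 0, 0, 12⟩]),
    (96, [⟨7, 0, 0, 0, 11⟩]),
    (97, [⟨7, 0, 0, 0, 11⟩]),
    (98, [⟨4, 0, 0, 0, 9⟩]),
    (99, [⟨7, 0, 0, 0, 13⟩]),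
    (100, [⟨9, 0, 0, 0, 12⟩]),
    (125, [⟨4, 0, 0, 0, 8⟩])],
    [(14, [⟨9, 0, 0, 0, 13⟩]),
    (99, [⟨11, 0, 0, 0, 13⟩]),
    (100, [⟨9, 0, 0, 0, 14⟩])]⟩,
   ⟨49, w89, [⟨0, 0, 0, 0, 0⟩], [⟨8, 0, 0, 0, 11⟩],
    [(12, [⟨8, 0, 0, 0, 11⟩]),
    (13, [⟨6, 0, 0, 0, 10⟩]),
    (14, [⟨4, 0, 0, 0, 9⟩]),
    (95, [⟨8, 0, 0, 0, 10⟩]),
    (96, [⟨6, 0, 0, 0, 11⟩]),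
    (97, [⟨6, 0, 0, 0, 9⟩]),
    (98, [⟨5, 0, 0, 0, 5⟩]),
    (99, [⟨6, 0, 0, 0, 9⟩]),
    (100, [⟨4, 0, 0, 0, 10⟩]),
    (125, [⟨5, 0, 0, 0, 6⟩])],
    [(13, [⟨8, 0, 0, 0, 10⟩]),
    (97, [⟨8, 0, 0, 0, 9⟩]),
    (98, [⟨5, 0, 0, 0, 7⟩]),
    (125, [⟨5, 0, 0, 0, 6⟩])]⟩,
   []⟩

/-- Claim trap16_z2@0_Fu@0. -/
def c104 : Claim :=
  ⟨⟨⟨0, 0, 0, 0, 0⟩, ⟨0, 0, 0, 0, 0⟩, ⟨0, 0, 0, 0, 0⟩, ⟨0, 0, 0, 0, 0⟩, ⟨⟨0, 0, 0, 0, 0⟩, ⟨0, 0, 0, 0, 0⟩, ⟨0, 0, 0, 0, 0⟩, ⟨0, 0, 0, 0, 0⟩⟩⟩,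
   [90, 91, 92],
   [35, 36, 37, 38],
   ⟨76, w90, [⟨0, 0, 0, 0, 0⟩], [⟨6, 0, 0, 0, 6⟩],
    [(3, [⟨3, 0, 0, 0, 6⟩]),
    (12, [⟨0, 0, 0, 0, 6⟩]),
    (90, [⟨3, 0, 0, 0, 5⟩]),
    (91, [⟨2, 0, 0, 0, 5⟩]),
    (92, [⟨0, 0, 0, 0, 7⟩])],
    [(3, [⟨3, 0, 0, 0, 6⟩]),
    (12, [⟨6, 0, 0, 0, 6⟩]),
    (90, [⟨3, 0, 0, 0, 7⟩]),
    (91, [⟨4, 0, 0, 0, 7⟩]),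
    (92, [⟨6, 0, 0, 0, 5⟩])]⟩,
   ⟨94, [(40, false), (39, false)], [⟨0, 0, 0, 0, 0⟩], [⟨3, 0, 0, 0, 4⟩],
    [(3, [⟨0, 0, 0, 0, 4⟩]),
    (12, [⟨3, 0, 0, 0, 4⟩]),
    (90, [⟨0, 0, 0, 0, 5⟩]),
    (91, [⟨1, 0, 0, 0, 5⟩]),
    (92, [⟨3, 0, 0, 0, 3⟩])],
    [(3, [⟨6, 0, 0, 0, 4⟩]),
    (12, [⟨3, 0, 0, 0, 4⟩]),
    (90, [⟨6, 0, 0, 0, 3⟩]),
    (91, [⟨5, 0, 0, 0, 3⟩]),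
    (92, [⟨3, 0, 0, 0, 5⟩])]⟩,
   []⟩

/-- Claim trap17_z2@0_Fu@0. -/
def c105 : Claim :=
  ⟨⟨⟨0, 0, 0, 0, 0⟩, ⟨0, 0, 0, 0, 0⟩, ⟨0, 0, 0, 0, 0⟩, ⟨0, 0, 0, 0, 0⟩, ⟨⟨0, 0, 0, 0, 0⟩, ⟨0, 0, 0, 0, 0⟩, ⟨0, 0, 0, 0, 0⟩, ⟨0, 0, 0, 0, 0⟩⟩⟩,
   [90, 91, 92],
   [35, 36, 37, 38],
   ⟨123, w91, [⟨0, 0, 0, 0, 0⟩], [⟨6, 0, 0, 0, 0⟩],
    [(3, [⟨3, 0, 0, 0, 0⟩]),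
    (12, [⟨0, 0, 0, 0, 0⟩]),
    (90, [⟨3, 0, 0, 0, -1⟩]),
    (91, [⟨2, 0, 0, 0, -1⟩]),
    (92, [⟨0, 0, 0, 0, 1⟩])],
    [(3, [⟨3, 0, 0, 0, 0⟩]),
    (12, [⟨6, 0, 0, 0, 0⟩]),
    (90, [⟨3, 0, 0, 0, 1⟩]),
    (91, [⟨4, 0, 0, 0, 1⟩]),
    (92, [⟨6, 0, 0, 0, -1⟩])]⟩,
   ⟨94, [(40, false), (39, false)], [⟨0, 0, 0, 0, 0⟩], [⟨3, 0, 0, 0, 4⟩],
    [(3, [⟨0, 0, 0, 0, 4⟩]),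
    (12, [⟨3, 0, 0, 0, 4⟩]),
    (90, [⟨0, 0, 0, 0, 5⟩]),
    (91, [⟨1, 0, 0, 0, 5⟩]),
    (92, [⟨3, 0, 0, 0, 3⟩])],
    [(3, [⟨6, 0, 0, 0, 4⟩]),
    (12, [⟨3, 0, 0, 0, 4⟩]),
    (90, [⟨6, 0, 0, 0, 3⟩]),
    (91, [⟨5, 0, 0, 0, 3⟩]),
    (92, [⟨3, 0, 0, 0, 5⟩])]⟩,
   []⟩

/-- Claim KF. -/
def c106 : Claim :=
  ⟨⟨⟨0, 0, 0, 0, 0⟩, ⟨0, 0, 0, 0, 0⟩, ⟨0, 0, 0, 0, 0⟩, ⟨0, 0, 0, 0, 0⟩, ⟨⟨120, 0, 0, 0, 0⟩, ⟨0, 0, 0, 0, 24⟩, ⟨0, 0, 0, 0, 0⟩, ⟨0, 0, 0, 0, 0⟩⟩⟩,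
   [90, 91, 92, 12, 93, 94, 13, 95, 96, 97, 98, 99, 100],
   [35, 36, 37, 38, 39, 40, 41, 42, 43, 44, 45, 46, 47, 48, 49, 50],
   ⟨49, w89, [⟨0, 0, 0, 0, 0⟩], [⟨8, 0, 0, 0, 11⟩],
    [(12, [⟨2, 0, 0, 0, 1⟩]),
    (13, [⟨2, 0, 0, 0, 2⟩]),
    (14, [⟨0, 0, 0, 0, 1⟩]),
    (91, [⟨0, 0, 0, 0, 2⟩]),
    (92, [⟨2, 0, 0, 0, 0⟩]),
    (93, [⟨2, 0, 0, 0, 2⟩]),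
    (94, [⟨5, 0, 0, 0, 5⟩]),
    (95, [⟨2, 0, 0, 0, 0⟩]),
    (96, [⟨2, 0, 0, 0, 1⟩]),
    (97, [⟨2, 0, 0, 0, 3⟩]),
    (98, [⟨5, 0, 0, 0, 5⟩]),
    (99, [⟨2, 0, 0, 0, 1⟩]),
    (100, [⟨0, 0, 0, 0, 2⟩]),
    (125, [⟨5, 0, 0, 0, 6⟩])],
    [(13, [⟨8, 0, 0, 0, 10⟩]),
    (93, [⟨8, 0, 0, 0, 10⟩]),
    (94, [⟨5, 0, 0, 0, 7⟩]),
    (97, [⟨8, 0, 0, 0, 9⟩]),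
    (98, [⟨5, 0, 0, 0, 7⟩]),
    (125, [⟨5, 0, 0, 0, 6⟩])]⟩,
   ⟨4, w92, [⟨0, 0, 0, 0, 0⟩], [⟨9, 0, 0, 0, 13⟩],
    [(3, [⟨6, 0, 0, 0, 12⟩]),
    (12, [⟨5, 0, 0, 0, 11⟩]),
    (13, [⟨7, 0, 0, 0, 12⟩]),
    (14, [⟨9, 0, 0, 0, 13⟩]),
    (90, [⟨6, 0, 0, 0, 11⟩]),
    (91, [⟨5, 0, 0, 0, 11⟩]),
    (92, [⟨5, 0, 0, 0, 10⟩]),
    (93, [⟨5, 0, 0, 0, 10⟩]),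
    (94, [⟨2, 0, 0, 0, 7⟩]),
    (95, [⟨5, 0, 0, 0, 12⟩]),
    (96, [⟨7, 0, 0, 0, 11⟩]),
    (97, [⟨7, 0, 0, 0, 11⟩]),
    (98, [⟨4, 0, 0, 0, 9⟩]),
    (99, [⟨7, 0, 0, 0, 13⟩]),
    (100, [⟨9, 0, 0, 0, 12⟩])],
    [(3, [⟨6, 0, 0, 0, 12⟩]),
    (12, [⟨9, 0, 0, 0, 12⟩]),
    (90, [⟨6, 0, 0, 0, 13⟩]),
    (91, [⟨7, 0, 0, 0, 13⟩]),
    (92, [⟨9, 0, 0, 0, 11⟩])]⟩,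
   []⟩

/-- Claim PX. -/
def c107 : Claim :=
  ⟨⟨⟨0, 0, 0, 0, 0⟩, ⟨0, 0, 0, 0, 0⟩, ⟨0, 0, 0, 0, 0⟩, ⟨0, 0, 0, 0, 0⟩, ⟨⟨120, 0, 0, 0, 0⟩, ⟨0, 0, 0, 0, 25⟩, ⟨0, 0, 0, 0, 0⟩, ⟨0, 0, 0, 0, 0⟩⟩⟩,
   [90, 91, 92, 12, 93, 94, 13, 95, 96, 97, 98, 99, 100, 125],
   [35, 36, 37, 38, 39, 40, 41, 42, 43, 44, 45, 46, 47, 48, 49, 50, 168],
   ⟨49, w93, [⟨0, 0, 0, 0, 0⟩], [⟨5, 0, 0, 0, 6⟩],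
    [(12, [⟨2, 0, 0, 0, -1⟩]),
    (13, [⟨2, 0, 0, 0, 0⟩]),
    (92, [⟨2, 0, 0, 0, -2⟩]),
    (93, [⟨2, 0, 0, 0, 0⟩]),
    (94, [⟨5, 0, 0, 0, 3⟩]),
    (95, [⟨2, 0, 0, 0, -2⟩]),
    (96, [⟨2, 0, 0, 0, -1⟩]),
    (97, [⟨2, 0, 0, 0, 1⟩]),
    (98, [⟨5, 0, 0, 0, 3⟩]),
    (99, [⟨2, 0, 0, 0, -1⟩]),
    (125, [⟨5, 0, 0, 0, 4⟩]),
    (126, [⟨5, 0, 0, 0, 5⟩])],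
    [(126, [⟨5, 0, 0, 0, 5⟩])]⟩,
   ⟨4, w92, [⟨0, 0, 0, 0, 0⟩], [⟨9, 0, 0, 0, 13⟩],
    [(3, [⟨6, 0, 0, 0, 12⟩]),
    (12, [⟨5, 0, 0, 0, 11⟩]),
    (13, [⟨7, 0, 0, 0, 12⟩]),
    (14, [⟨9, 0, 0, 0, 13⟩]),
    (90, [⟨6, 0, 0, 0, 11⟩]),
    (91, [⟨5, 0, 0, 0, 11⟩]),
    (92, [⟨5, 0, 0, 0, 10⟩]),
    (93, [⟨5, 0, 0, 0, 10⟩]),
    (94, [⟨4, 0, 0, 0, 7⟩]),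
    (95, [⟨5, 0, 0, 0, 12⟩]),
    (96, [⟨7, 0, 0, 0, 11⟩]),
    (97, [⟨7, 0, 0, 0, 11⟩]),
    (98, [⟨4, 0, 0, 0, 9⟩]),
    (99, [⟨7, 0, 0, 0, 13⟩]),
    (100, [⟨9, 0, 0, 0, 12⟩]),
    (125, [⟨4, 0, 0, 0, 8⟩]),
    (126, [⟨4, 0, 0, 0, 7⟩])],
    [(3, [⟨6, 0, 0, 0, 12⟩]),
    (12, [⟨9, 0, 0, 0, 12⟩]),
    (90, [⟨6, 0, 0, 0, 13⟩]),
    (91, [⟨7, 0, 0, 0, 13⟩]),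
    (92, [⟨9, 0, 0, 0, 11⟩]),
    (94, [⟨6, 0, 0, 0, 10⟩]),
    (97, [⟨9, 0, 0, 0, 12⟩]),
    (98, [⟨6, 0, 0, 0, 10⟩]),
    (125, [⟨6, 0, 0, 0, 9⟩]),
    (126, [⟨6, 0, 0, 0, 10⟩])]⟩,
   []⟩

/-- Claim PF5. -/
def c108 : Claim :=
  ⟨⟨⟨0, 0, 0, 0, 0⟩, ⟨0, 0, 0, 0, 0⟩, ⟨0, 0, 0, 0, 0⟩, ⟨0, 0, 0, 0, 0⟩, ⟨⟨120, 0, 0, 0, 0⟩, ⟨0, 0, 0, 0, 27⟩, ⟨0, 0, 0, 0, 0⟩, ⟨0, 0, 0, 0, 0⟩⟩⟩,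
   [37, 40, 42, 44, 46, 48, 50, 38, 36, 39, 41, 43, 45, 47, 49, 51, 124],
   [110, 111, 112, 113, 114, 115, 116, 117, 118, 119, 120, 121, 122, 123, 124, 125, 126, 127, 128, 129, 130, 131, 132, 133, 134, 135, 136, 139, 140],
   ⟨18, w94, [⟨0, 0, 0, 0, 0⟩], [⟨9, 0, 0, 0, 13⟩],
    [(16, [⟨9, 0, 0, 0, 13⟩]),
    (36, [⟨9, 0, 0, 0, 12⟩]),
    (37, [⟨9, 0, 0, 0, 11⟩]),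
    (38, [⟨9, 0, 0, 0, 8⟩]),
    (39, [⟨9, 0, 0, 0, 9⟩]),
    (40, [⟨9, 0, 0, 0, 10⟩]),
    (41, [⟨9, 0, 0, 0, 11⟩]),
    (42, [⟨9, 0, 0, 0, 10⟩]),
    (43, [⟨9, 0, 0, 0, 8⟩]),
    (44, [⟨9, 0, 0, 0, 9⟩]),
    (45, [⟨9, 0, 0, 0, 11⟩]),
    (46, [⟨9, 0, 0, 0, 10⟩]),
    (47, [⟨9, 0, 0, 0, 9⟩]),
    (48, [⟨9, 0, 0, 0, 10⟩]),
    (49, [⟨9, 0, 0, 0, 12⟩]),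
    (50, [⟨9, 0, 0, 0, 11⟩]),
    (51, [⟨9, 0, 0, 0, 8⟩]),
    (124, [⟨9, 0, 0, 0, 12⟩])],
    []⟩,
   ⟨4, w92, [⟨9, 0, 0, 0, 11⟩], [⟨9, 0, 0, 0, 13⟩],
    [(14, [⟨9, 0, 0, 0, 13⟩]),
    (50, [⟨9, 0, 0, 0, 12⟩]),
    (51, [⟨9, 0, 0, 0, 12⟩]),
    (124, [⟨9, 0, 0, 0, 12⟩])],
    [(15, [⟨9, 0, 0, 0, 11⟩]),
    (37, [⟨9, 0, 0, 0, 12⟩]),
    (38, [⟨9, 0, 0, 0, 12⟩])]⟩,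
   []⟩

/-- Claim PF4. -/
def c109 : Claim :=
  ⟨⟨⟨0, 0, 0, 0, 0⟩, ⟨0, 0, 0, 0, 0⟩, ⟨0, 0, 0, 0, 0⟩, ⟨0, 0, 0, 0, 0⟩, ⟨⟨120, 0, 0, 0, 0⟩, ⟨0, 0, 0, 0, 28⟩, ⟨0, 0, 0, 0, 0⟩, ⟨0, 0, 0, 0, 0⟩⟩⟩,
   [90, 91, 92, 12, 93, 94, 13, 95, 96, 97, 98, 99, 100, 37, 40, 42, 44, 46, 48, 50, 14, 38, 36, 39, 41, 43, 45, 47, 49, 51, 123, 124],
   [35, 36, 37, 38, 39, 40, 41, 42, 43, 44, 45, 46, 47, 48, 49, 50, 110, 111, 112, 113, 114, 115, 116, 117, 118, 119, 120, 121, 122, 123, 124, 125, 126, 127, 128, 129, 130, 131, 132, 133, 134, 135, 136, 137, 138, 139, 140],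
   ⟨4, w92, [⟨0, 0, 0, 0, 0⟩], [⟨9, 0, 0, 0, 13⟩],
    [(3, [⟨6, 0, 0, 0, 12⟩]),
    (12, [⟨5, 0, 0, 0, 7⟩]),
    (13, [⟨7, 0, 0, 0, 8⟩]),
    (14, [⟨9, 0, 0, 0, 9⟩]),
    (15, [⟨9, 0, 0, 0, 11⟩]),
    (16, [⟨9, 0, 0, 0, 8⟩]),
    (36, [⟨9, 0, 0, 0, 9⟩]),
    (37, [⟨9, 0, 0, 0, 10⟩]),
    (38, [⟨9, 0, 0, 0, 10⟩]),
    (39, [⟨9, 0, 0, 0, 9⟩]),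
    (40, [⟨9, 0, 0, 0, 9⟩]),
    (41, [⟨9, 0, 0, 0, 8⟩]),
    (42, [⟨9, 0, 0, 0, 8⟩]),
    (43, [⟨9, 0, 0, 0, 8⟩]),
    (44, [⟨9, 0, 0, 0, 7⟩]),
    (45, [⟨9, 0, 0, 0, 7⟩]),
    (46, [⟨9, 0, 0, 0, 6⟩]),
    (47, [⟨9, 0, 0, 0, 8⟩]),
    (48, [⟨9, 0, 0, 0, 7⟩]),
    (49, [⟨9, 0, 0, 0, 7⟩]),
    (50, [⟨9, 0, 0, 0, 8⟩]),
    (51, [⟨9, 0, 0, 0, 9⟩]),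
    (90, [⟨6, 0, 0, 0, 11⟩]),
    (91, [⟨5, 0, 0, 0, 11⟩]),
    (92, [⟨5, 0, 0, 0, 6⟩]),
    (93, [⟨5, 0, 0, 0, 6⟩]),
    (94, [⟨2, 0, 0, 0, 3⟩]),
    (95, [⟨5, 0, 0, 0, 8⟩]),
    (96, [⟨7, 0, 0, 0, 7⟩]),
    (97, [⟨7, 0, 0, 0, 7⟩]),
    (98, [⟨4, 0, 0, 0, 5⟩]),
    (99, [⟨7, 0, 0, 0, 9⟩]),
    (100, [⟨9, 0, 0, 0, 8⟩]),
    (123, [⟨9, 0, 0, 0, 10⟩]),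
    (124, [⟨9, 0, 0, 0, 8⟩])],
    [(3, [⟨6, 0, 0, 0, 12⟩]),
    (12, [⟨9, 0, 0, 0, 12⟩]),
    (15, [⟨9, 0, 0, 0, 11⟩]),
    (37, [⟨9, 0, 0, 0, 12⟩]),
    (38, [⟨9, 0, 0, 0, 12⟩]),
    (90, [⟨6, 0, 0, 0, 13⟩]),
    (91, [⟨7, 0, 0, 0, 13⟩]),
    (92, [⟨9, 0, 0, 0, 11⟩]),
    (123, [⟨9, 0, 0, 0, 12⟩])]⟩,
   ⟨18, w94, [⟨4, 0, 0, 0, 8⟩], [⟨9, 0, 0, 0, 13⟩],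
    [(12, [⟨5, 0, 0, 0, 9⟩]),
    (13, [⟨7, 0, 0, 0, 10⟩]),
    (14, [⟨9, 0, 0, 0, 11⟩]),
    (15, [⟨9, 0, 0, 0, 10⟩]),
    (16, [⟨9, 0, 0, 0, 13⟩]),
    (36, [⟨9, 0, 0, 0, 12⟩]),
    (37, [⟨9, 0, 0, 0, 11⟩]),
    (38, [⟨9, 0, 0, 0, 9⟩]),
    (39, [⟨9, 0, 0, 0, 9⟩]),
    (40, [⟨9, 0, 0, 0, 10⟩]),
    (41, [⟨9, 0, 0, 0, 11⟩]),
    (42, [⟨9, 0, 0, 0, 10⟩]),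
    (43, [⟨9, 0, 0, 0, 8⟩]),
    (44, [⟨9, 0, 0, 0, 9⟩]),
    (45, [⟨9, 0, 0, 0, 11⟩]),
    (46, [⟨9, 0, 0, 0, 10⟩]),
    (47, [⟨9, 0, 0, 0, 9⟩]),
    (48, [⟨9, 0, 0, 0, 10⟩]),
    (49, [⟨9, 0, 0, 0, 12⟩]),
    (50, [⟨9, 0, 0, 0, 11⟩]),
    (51, [⟨9, 0, 0, 0, 10⟩]),
    (92, [⟨5, 0, 0, 0, 8⟩]),
    (93, [⟨5, 0, 0, 0, 8⟩]),
    (95, [⟨5, 0, 0, 0, 10⟩]),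
    (96, [⟨7, 0, 0, 0, 9⟩]),
    (97, [⟨7, 0, 0, 0, 9⟩]),
    (99, [⟨7, 0, 0, 0, 11⟩]),
    (100, [⟨9, 0, 0, 0, 10⟩]),
    (123, [⟨9, 0, 0, 0, 10⟩]),
    (124, [⟨9, 0, 0, 0, 12⟩])],
    [(12, [⟨7, 0, 0, 0, 13⟩]),
    (13, [⟨7, 0, 0, 0, 12⟩]),
    (91, [⟨9, 0, 0, 0, 12⟩]),
    (92, [⟨7, 0, 0, 0, 14⟩]),
    (93, [⟨7, 0, 0, 0, 12⟩]),
    (94, [⟨4, 0, 0, 0, 9⟩]),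
    (95, [⟨7, 0, 0, 0, 14⟩]),
    (96, [⟨7, 0, 0, 0, 13⟩]),
    (97, [⟨7, 0, 0, 0, 11⟩]),
    (98, [⟨4, 0, 0, 0, 9⟩]),
    (99, [⟨7, 0, 0, 0, 13⟩]),
    (100, [⟨9, 0, 0, 0, 12⟩]),
    (125, [⟨4, 0, 0, 0, 8⟩])]⟩,
   []⟩

/-- Claim PF3. -/
def c110 : Claim :=
  ⟨⟨⟨0, 0, 0, 0, 0⟩, ⟨0, 0, 0, 0, 0⟩, ⟨0, 0, 0, 0, 0⟩, ⟨0, 0, 0, 0, 0⟩, ⟨⟨120, 0, 0, 0, 0⟩, ⟨0, 0, 0, 0, 29⟩, ⟨0, 0, 0, 0, 0⟩, ⟨0, 0, 0, 0, 0⟩⟩⟩,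
   [90, 91, 92, 12, 93, 94, 13, 95, 96, 97, 98, 99, 100, 37, 40, 42, 44, 46, 48, 50, 14, 16, 38, 36, 39, 41, 43, 45, 47, 49, 51, 123, 124, 105, 106],
   [35, 36, 37, 38, 39, 40, 41, 42, 43, 44, 45, 46, 47, 48, 49, 50, 57, 58, 59, 110, 111, 112, 113, 114, 115, 116, 117, 118, 119, 120, 121, 122, 123, 124, 125, 126, 127, 128, 129, 130, 131, 132, 133, 134, 135, 136, 137, 138, 139, 140],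
   ⟨18, w94, [⟨0, 0, 0, 0, 0⟩], [⟨9, 0, 0, 0, 13⟩],
    [(12, [⟨1, 0, 0, 0, 3⟩]),
    (13, [⟨1, 0, 0, 0, 4⟩]),
    (14, [⟨1, 0, 0, 0, 3⟩]),
    (15, [⟨1, 0, 0, 0, 2⟩]),
    (16, [⟨1, 0, 0, 0, 5⟩]),
    (36, [⟨1, 0, 0, 0, 4⟩]),
    (37, [⟨1, 0, 0, 0, 3⟩]),
    (38, [⟨1, 0, 0, 0, 1⟩]),
    (39, [⟨1, 0, 0, 0, 1⟩]),
    (40, [⟨1, 0, 0, 0, 2⟩]),
    (41, [⟨1, 0, 0, 0, 3⟩]),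
    (42, [⟨1, 0, 0, 0, 2⟩]),
    (43, [⟨1, 0, 0, 0, 0⟩]),
    (44, [⟨1, 0, 0, 0, 1⟩]),
    (45, [⟨1, 0, 0, 0, 3⟩]),
    (46, [⟨1, 0, 0, 0, 2⟩]),
    (47, [⟨1, 0, 0, 0, 1⟩]),
    (48, [⟨1, 0, 0, 0, 2⟩]),
    (49, [⟨1, 0, 0, 0, 4⟩]),
    (50, [⟨1, 0, 0, 0, 3⟩]),
    (51, [⟨1, 0, 0, 0, 2⟩]),
    (92, [⟨1, 0, 0, 0, 2⟩]),
    (93, [⟨1, 0, 0, 0, 4⟩]),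
    (94, [⟨4, 0, 0, 0, 7⟩]),
    (95, [⟨1, 0, 0, 0, 2⟩]),
    (96, [⟨1, 0, 0, 0, 3⟩]),
    (97, [⟨1, 0, 0, 0, 5⟩]),
    (98, [⟨4, 0, 0, 0, 7⟩]),
    (99, [⟨1, 0, 0, 0, 3⟩]),
    (100, [⟨1, 0, 0, 0, 2⟩]),
    (105, [⟨1, 0, 0, 0, 6⟩]),
    (106, [⟨5, 0, 0, 0, 8⟩]),
    (123, [⟨1, 0, 0, 0, 2⟩]),
    (124, [⟨1, 0, 0, 0, 4⟩]),
    (125, [⟨4, 0, 0, 0, 8⟩]),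
    (131, [⟨5, 0, 0, 0, 9⟩])],
    [(12, [⟨7, 0, 0, 0, 13⟩]),
    (13, [⟨7, 0, 0, 0, 12⟩]),
    (91, [⟨9, 0, 0, 0, 12⟩]),
    (92, [⟨7, 0, 0, 0, 14⟩]),
    (93, [⟨7, 0, 0, 0, 12⟩]),
    (94, [⟨4, 0, 0, 0, 9⟩]),
    (95, [⟨7, 0, 0, 0, 14⟩]),
    (96, [⟨7, 0, 0, 0, 13⟩]),
    (97, [⟨7, 0, 0, 0, 11⟩]),
    (98, [⟨4, 0, 0, 0, 9⟩]),
    (99, [⟨7, 0, 0, 0, 13⟩]),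
    (100, [⟨9, 0, 0, 0, 12⟩]),
    (105, [⟨9, 0, 0, 0, 12⟩]),
    (106, [⟨5, 0, 0, 0, 10⟩]),
    (125, [⟨4, 0, 0, 0, 8⟩]),
    (131, [⟨5, 0, 0, 0, 9⟩])]⟩,
   ⟨4, w92, [⟨0, 0, 0, 0, 0⟩], [⟨9, 0, 0, 0, 13⟩],
    [(3, [⟨6, 0, 0, 0, 12⟩]),
    (12, [⟨5, 0, 0, 0, 7⟩]),
    (13, [⟨7, 0, 0, 0, 8⟩]),
    (14, [⟨9, 0, 0, 0, 9⟩]),
    (15, [⟨9, 0, 0, 0, 11⟩]),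
    (16, [⟨9, 0, 0, 0, 8⟩]),
    (36, [⟨9, 0, 0, 0, 9⟩]),
    (37, [⟨9, 0, 0, 0, 10⟩]),
    (38, [⟨9, 0, 0, 0, 10⟩]),
    (39, [⟨9, 0, 0, 0, 9⟩]),
    (40, [⟨9, 0, 0, 0, 9⟩]),
    (41, [⟨9, 0, 0, 0, 8⟩]),
    (42, [⟨9, 0, 0, 0, 8⟩]),
    (43, [⟨9, 0, 0, 0, 8⟩]),
    (44, [⟨9, 0, 0, 0, 7⟩]),
    (45, [⟨9, 0, 0, 0, 7⟩]),
    (46, [⟨9, 0, 0, 0, 6⟩]),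
    (47, [⟨9, 0, 0, 0, 8⟩]),
    (48, [⟨9, 0, 0, 0, 7⟩]),
    (49, [⟨9, 0, 0, 0, 7⟩]),
    (50, [⟨9, 0, 0, 0, 8⟩]),
    (51, [⟨9, 0, 0, 0, 9⟩]),
    (90, [⟨6, 0, 0, 0, 11⟩]),
    (91, [⟨5, 0, 0, 0, 11⟩]),
    (92, [⟨5, 0, 0, 0, 6⟩]),
    (93, [⟨5, 0, 0, 0, 6⟩]),
    (94, [⟨2, 0, 0, 0, 3⟩]),
    (95, [⟨5, 0, 0, 0, 8⟩]),
    (96, [⟨7, 0, 0, 0, 7⟩]),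
    (97, [⟨7, 0, 0, 0, 7⟩]),
    (98, [⟨4, 0, 0, 0, 5⟩]),
    (99, [⟨7, 0, 0, 0, 9⟩]),
    (100, [⟨9, 0, 0, 0, 8⟩]),
    (105, [⟨9, 0, 0, 0, 7⟩]),
    (106, [⟨5, 0, 0, 0, 5⟩]),
    (123, [⟨9, 0, 0, 0, 10⟩]),
    (124, [⟨9, 0, 0, 0, 8⟩]),
    (131, [⟨5, 0, 0, 0, 4⟩])],
    [(3, [⟨6, 0, 0, 0, 12⟩]),
    (12, [⟨9, 0, 0, 0, 12⟩]),
    (15, [⟨9, 0, 0, 0, 11⟩]),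
    (37, [⟨9, 0, 0, 0, 12⟩]),
    (38, [⟨9, 0, 0, 0, 12⟩]),
    (90, [⟨6, 0, 0, 0, 13⟩]),
    (91, [⟨7, 0, 0, 0, 13⟩]),
    (92, [⟨9, 0, 0, 0, 11⟩]),
    (123, [⟨9, 0, 0, 0, 12⟩])]⟩,
   []⟩

/-- Claim PF2. -/
def c111 : Claim :=
  ⟨⟨⟨0, 0, 0, 0, 0⟩, ⟨0, 0, 0, 0, 0⟩, ⟨0, 0, 0, 0, 0⟩, ⟨0, 0, 0, 0, 0⟩, ⟨⟨120, 0, 0, 0, 0⟩, ⟨0, 0, 0, 0, 30⟩, ⟨0, 0, 0, 0, 0⟩, ⟨0, 0, 0, 0, 0⟩⟩⟩,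
   [90, 91, 92, 12, 93, 94, 13, 95, 96, 97, 98, 99, 100, 37, 40, 42, 44, 46, 48, 50, 14, 16, 38, 36, 39, 41, 43, 45, 47, 49, 51, 123, 124, 105, 106],
   [35, 36, 37, 38, 39, 40, 41, 42, 43, 44, 45, 46, 47, 48, 49, 50, 57, 58, 59, 110, 111, 112, 113, 114, 115, 116, 117, 118, 119, 120, 121, 122, 123, 124, 125, 126, 127, 128, 129, 130, 131, 132, 133, 134, 135, 136, 137, 138, 139, 140],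
   ⟨9, w64, [⟨0, 0, 0, 0, 0⟩], [⟨11, 0, 0, 0, 23⟩],
    [(3, [⟨1, 0, 0, 0, 10⟩]),
    (12, [⟨4, 0, 0, 0, 10⟩]),
    (13, [⟨4, 0, 0, 0, 11⟩]),
    (14, [⟨2, 0, 0, 0, 10⟩]),
    (15, [⟨2, 0, 0, 0, 8⟩]),
    (16, [⟨2, 0, 0, 0, 10⟩]),
    (36, [⟨2, 0, 0, 0, 9⟩]),
    (37, [⟨2, 0, 0, 0, 8⟩]),
    (38, [⟨2, 0, 0, 0, 8⟩]),
    (39, [⟨2, 0, 0, 0, 7⟩]),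
    (40, [⟨2, 0, 0, 0, 7⟩]),
    (41, [⟨2, 0, 0, 0, 8⟩]),
    (42, [⟨2, 0, 0, 0, 7⟩]),
    (43, [⟨2, 0, 0, 0, 7⟩]),
    (44, [⟨2, 0, 0, 0, 6⟩]),
    (45, [⟨2, 0, 0, 0, 8⟩]),
    (46, [⟨2, 0, 0, 0, 7⟩]),
    (47, [⟨2, 0, 0, 0, 8⟩]),
    (48, [⟨2, 0, 0, 0, 8⟩]),
    (49, [⟨2, 0, 0, 0, 9⟩]),
    (50, [⟨2, 0, 0, 0, 9⟩]),
    (51, [⟨2, 0, 0, 0, 9⟩]),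
    (90, [⟨1, 0, 0, 0, 11⟩]),
    (91, [⟨2, 0, 0, 0, 11⟩]),
    (92, [⟨4, 0, 0, 0, 9⟩]),
    (93, [⟨4, 0, 0, 0, 11⟩]),
    (94, [⟨7, 0, 0, 0, 14⟩]),
    (95, [⟨4, 0, 0, 0, 9⟩]),
    (96, [⟨4, 0, 0, 0, 10⟩]),
    (97, [⟨4, 0, 0, 0, 12⟩]),
    (98, [⟨7, 0, 0, 0, 14⟩]),
    (99, [⟨4, 0, 0, 0, 10⟩]),
    (100, [⟨2, 0, 0, 0, 11⟩]),
    (105, [⟨2, 0, 0, 0, 11⟩]),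
    (106, [⟨6, 0, 0, 0, 13⟩]),
    (123, [⟨2, 0, 0, 0, 9⟩]),
    (124, [⟨2, 0, 0, 0, 9⟩]),
    (125, [⟨7, 0, 0, 0, 15⟩]),
    (131, [⟨6, 0, 0, 0, 14⟩])],
    [(12, [⟨10, 0, 0, 0, 20⟩]),
    (13, [⟨10, 0, 0, 0, 19⟩]),
    (14, [⟨10, 0, 0, 0, 20⟩]),
    (15, [⟨10, 0, 0, 0, 21⟩]),
    (16, [⟨10, 0, 0, 0, 18⟩]),
    (36, [⟨10, 0, 0, 0, 19⟩]),
    (37, [⟨10, 0, 0, 0, 20⟩]),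
    (38, [⟨10, 0, 0, 0, 22⟩]),
    (39, [⟨10, 0, 0, 0, 22⟩]),
    (40, [⟨10, 0, 0, 0, 21⟩]),
    (41, [⟨10, 0, 0, 0, 20⟩]),
    (42, [⟨10, 0, 0, 0, 21⟩]),
    (43, [⟨10, 0, 0, 0, 23⟩]),
    (44, [⟨10, 0, 0, 0, 22⟩]),
    (45, [⟨10, 0, 0, 0, 20⟩]),
    (46, [⟨10, 0, 0, 0, 21⟩]),
    (47, [⟨10, 0, 0, 0, 22⟩]),
    (48, [⟨10, 0, 0, 0, 21⟩]),
    (49, [⟨10, 0, 0, 0, 19⟩]),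
    (50, [⟨10, 0, 0, 0, 20⟩]),
    (51, [⟨10, 0, 0, 0, 21⟩]),
    (92, [⟨10, 0, 0, 0, 21⟩]),
    (93, [⟨10, 0, 0, 0, 19⟩]),
    (94, [⟨7, 0, 0, 0, 16⟩]),
    (95, [⟨10, 0, 0, 0, 21⟩]),
    (96, [⟨10, 0, 0, 0, 20⟩]),
    (97, [⟨10, 0, 0, 0, 18⟩]),
    (98, [⟨7, 0, 0, 0, 16⟩]),
    (99, [⟨10, 0, 0, 0, 20⟩]),
    (100, [⟨10, 0, 0, 0, 21⟩]),
    (105, [⟨10, 0, 0, 0, 17⟩]),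
    (106, [⟨6, 0, 0, 0, 15⟩]),
    (123, [⟨10, 0, 0, 0, 21⟩]),
    (124, [⟨10, 0, 0, 0, 19⟩]),
    (125, [⟨7, 0, 0, 0, 15⟩]),
    (131, [⟨6, 0, 0, 0, 14⟩])]⟩,
   ⟨4, w92, [⟨0, 0, 0, 0, 0⟩], [⟨9, 0, 0, 0, 13⟩],
    [(3, [⟨6, 0, 0, 0, 12⟩]),
    (12, [⟨5, 0, 0, 0, 7⟩]),
    (13, [⟨7, 0, 0, 0, 8⟩]),
    (14, [⟨9, 0, 0, 0, 9⟩]),
    (15, [⟨9, 0, 0, 0, 11⟩]),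
    (16, [⟨9, 0, 0, 0, 8⟩]),
    (36, [⟨9, 0, 0, 0, 9⟩]),
    (37, [⟨9, 0, 0, 0, 10⟩]),
    (38, [⟨9, 0, 0, 0, 10⟩]),
    (39, [⟨9, 0, 0, 0, 9⟩]),
    (40, [⟨9, 0, 0, 0, 9⟩]),
    (41, [⟨9, 0, 0, 0, 8⟩]),
    (42, [⟨9, 0, 0, 0, 8⟩]),
    (43, [⟨9, 0, 0, 0, 8⟩]),
    (44, [⟨9, 0, 0, 0, 7⟩]),
    (45, [⟨9, 0, 0, 0, 7⟩]),
    (46, [⟨9, 0, 0, 0, 6⟩]),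
    (47, [⟨9, 0, 0, 0, 8⟩]),
    (48, [⟨9, 0, 0, 0, 7⟩]),
    (49, [⟨9, 0, 0, 0, 7⟩]),
    (50, [⟨9, 0, 0, 0, 8⟩]),
    (51, [⟨9, 0, 0, 0, 9⟩]),
    (90, [⟨6, 0, 0, 0, 11⟩]),
    (91, [⟨5, 0, 0, 0, 11⟩]),
    (92, [⟨5, 0, 0, 0, 6⟩]),
    (93, [⟨5, 0, 0, 0, 6⟩]),
    (94, [⟨2, 0, 0, 0, 3⟩]),
    (95, [⟨5, 0, 0, 0, 8⟩]),
    (96, [⟨7, 0, 0, 0, 7⟩]),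
    (97, [⟨7, 0, 0, 0, 7⟩]),
    (98, [⟨4, 0, 0, 0, 5⟩]),
    (99, [⟨7, 0, 0, 0, 9⟩]),
    (100, [⟨9, 0, 0, 0, 8⟩]),
    (105, [⟨9, 0, 0, 0, 7⟩]),
    (106, [⟨5, 0, 0, 0, 5⟩]),
    (123, [⟨9, 0, 0, 0, 10⟩]),
    (124, [⟨9, 0, 0, 0, 8⟩]),
    (131, [⟨5, 0, 0, 0, 4⟩])],
    [(3, [⟨6, 0, 0, 0, 12⟩]),
    (12, [⟨9, 0, 0, 0, 12⟩]),
    (15, [⟨9, 0, 0, 0, 11⟩]),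
    (37, [⟨9, 0, 0, 0, 12⟩]),
    (38, [⟨9, 0, 0, 0, 12⟩]),
    (90, [⟨6, 0, 0, 0, 13⟩]),
    (91, [⟨7, 0, 0, 0, 13⟩]),
    (92, [⟨9, 0, 0, 0, 11⟩]),
    (123, [⟨9, 0, 0, 0, 12⟩])]⟩,
   []⟩

/-- Claim PF1. -/
def c112 : Claim :=
  ⟨⟨⟨0, 0, 0, 0, 0⟩, ⟨0, 0, 0, 0, 0⟩, ⟨0, 0, 0, 0, 0⟩, ⟨0, 0, 0, 0, 0⟩, ⟨⟨120, 0, 0, 0, 0⟩, ⟨0, 0, 0, 0, 31⟩, ⟨0, 0, 0, 0, 0⟩, ⟨0, 0, 0, 0, 0⟩⟩⟩,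
   [90, 91, 92, 12, 93, 94, 13, 95, 96, 97, 98, 99, 100, 15, 37, 40, 42, 44, 46, 48, 50, 14, 16, 38, 36, 39, 41, 43, 45, 47, 49, 51, 123, 124, 105, 106, 103, 104],
   [35, 36, 37, 38, 39, 40, 41, 42, 43, 44, 45, 46, 47, 48, 49, 50, 54, 55, 56, 57, 58, 59, 110, 111, 112, 113, 114, 115, 116, 117, 118, 119, 120, 121, 122, 123, 124, 125, 126, 127, 128, 129, 130, 131, 132, 133, 134, 135, 136, 137, 138, 139, 140],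
   ⟨4, w92, [⟨0, 0, 0, 0, 0⟩], [⟨9, 0, 0, 0, 11⟩],
    [(3, [⟨6, 0, 0, 0, 12⟩]),
    (12, [⟨3, 0, 0, 0, 12⟩]),
    (13, [⟨1, 0, 0, 0, 11⟩]),
    (90, [⟨6, 0, 0, 0, 11⟩]),
    (91, [⟨5, 0, 0, 0, 11⟩]),
    (92, [⟨3, 0, 0, 0, 13⟩]),
    (93, [⟨3, 0, 0, 0, 11⟩]),
    (94, [⟨0, 0, 0, 0, 8⟩]),
    (95, [⟨3, 0, 0, 0, 11⟩]),
    (96, [⟨1, 0, 0, 0, 12⟩]),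
    (97, [⟨1, 0, 0, 0, 10⟩]),
    (99, [⟨1, 0, 0, 0, 10⟩])],
    [(3, [⟨6, 0, 0, 0, 12⟩]),
    (7, [⟨7, 0, 0, 0, 12⟩]),
    (90, [⟨6, 0, 0, 0, 13⟩]),
    (91, [⟨7, 0, 0, 0, 13⟩]),
    (103, [⟨7, 0, 0, 0, 13⟩]),
    (104, [⟨9, 0, 0, 0, 10⟩])]⟩,
   ⟨18, w61, [⟨0, 0, 0, 0, 0⟩], [⟨11, 0, 0, 0, 23⟩],
    [(3, [⟨0, 0, 0, 0, 12⟩]),
    (7, [⟨9, 0, 0, 0, 15⟩]),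
    (12, [⟨3, 0, 0, 0, 12⟩]),
    (13, [⟨5, 0, 0, 0, 13⟩]),
    (14, [⟨7, 0, 0, 0, 14⟩]),
    (15, [⟨7, 0, 0, 0, 16⟩]),
    (16, [⟨7, 0, 0, 0, 13⟩]),
    (36, [⟨7, 0, 0, 0, 14⟩]),
    (37, [⟨7, 0, 0, 0, 15⟩]),
    (38, [⟨7, 0, 0, 0, 15⟩]),
    (39, [⟨7, 0, 0, 0, 14⟩]),
    (40, [⟨7, 0, 0, 0, 14⟩]),
    (41, [⟨7, 0, 0, 0, 13⟩]),
    (42, [⟨7, 0, 0, 0, 13⟩]),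
    (43, [⟨7, 0, 0, 0, 13⟩]),
    (44, [⟨7, 0, 0, 0, 12⟩]),
    (45, [⟨7, 0, 0, 0, 12⟩]),
    (46, [⟨7, 0, 0, 0, 11⟩]),
    (47, [⟨7, 0, 0, 0, 13⟩]),
    (48, [⟨7, 0, 0, 0, 12⟩]),
    (49, [⟨7, 0, 0, 0, 12⟩]),
    (50, [⟨7, 0, 0, 0, 13⟩]),
    (51, [⟨7, 0, 0, 0, 14⟩]),
    (90, [⟨0, 0, 0, 0, 13⟩]),
    (91, [⟨1, 0, 0, 0, 13⟩]),
    (92, [⟨3, 0, 0, 0, 11⟩]),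
    (93, [⟨3, 0, 0, 0, 11⟩]),
    (94, [⟨4, 0, 0, 0, 7⟩]),
    (95, [⟨3, 0, 0, 0, 13⟩]),
    (96, [⟨5, 0, 0, 0, 12⟩]),
    (97, [⟨5, 0, 0, 0, 12⟩]),
    (98, [⟨4, 0, 0, 0, 7⟩]),
    (99, [⟨5, 0, 0, 0, 14⟩]),
    (100, [⟨7, 0, 0, 0, 13⟩]),
    (103, [⟨9, 0, 0, 0, 14⟩]),
    (104, [⟨7, 0, 0, 0, 17⟩]),
    (105, [⟨7, 0, 0, 0, 12⟩]),
    (106, [⟨5, 0, 0, 0, 8⟩]),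
    (123, [⟨7, 0, 0, 0, 15⟩]),
    (124, [⟨7, 0, 0, 0, 13⟩]),
    (125, [⟨4, 0, 0, 0, 8⟩]),
    (131, [⟨5, 0, 0, 0, 9⟩])],
    [(3, [⟨10, 0, 0, 0, 13⟩]),
    (7, [⟨9, 0, 0, 0, 15⟩]),
    (12, [⟨7, 0, 0, 0, 13⟩]),
    (13, [⟨7, 0, 0, 0, 12⟩]),
    (14, [⟨9, 0, 0, 0, 13⟩]),
    (15, [⟨9, 0, 0, 0, 15⟩]),
    (16, [⟨9, 0, 0, 0, 13⟩]),
    (36, [⟨9, 0, 0, 0, 14⟩]),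
    (37, [⟨9, 0, 0, 0, 15⟩]),
    (38, [⟨9, 0, 0, 0, 15⟩]),
    (39, [⟨9, 0, 0, 0, 16⟩]),
    (40, [⟨9, 0, 0, 0, 16⟩]),
    (41, [⟨9, 0, 0, 0, 15⟩]),
    (42, [⟨9, 0, 0, 0, 16⟩]),
    (43, [⟨9, 0, 0, 0, 16⟩]),
    (44, [⟨9, 0, 0, 0, 17⟩]),
    (45, [⟨9, 0, 0, 0, 15⟩]),
    (46, [⟨9, 0, 0, 0, 16⟩]),
    (47, [⟨9, 0, 0, 0, 15⟩]),
    (48, [⟨9, 0, 0, 0, 15⟩]),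
    (49, [⟨9, 0, 0, 0, 14⟩]),
    (50, [⟨9, 0, 0, 0, 14⟩]),
    (51, [⟨9, 0, 0, 0, 14⟩]),
    (90, [⟨10, 0, 0, 0, 12⟩]),
    (91, [⟨9, 0, 0, 0, 12⟩]),
    (92, [⟨7, 0, 0, 0, 14⟩]),
    (93, [⟨7, 0, 0, 0, 12⟩]),
    (94, [⟨4, 0, 0, 0, 9⟩]),
    (95, [⟨7, 0, 0, 0, 14⟩]),
    (96, [⟨7, 0, 0, 0, 13⟩]),
    (97, [⟨7, 0, 0, 0, 11⟩]),
    (98, [⟨4, 0, 0, 0, 9⟩]),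
    (99, [⟨7, 0, 0, 0, 13⟩]),
    (100, [⟨9, 0, 0, 0, 12⟩]),
    (103, [⟨9, 0, 0, 0, 16⟩]),
    (104, [⟨9, 0, 0, 0, 16⟩]),
    (105, [⟨9, 0, 0, 0, 12⟩]),
    (106, [⟨5, 0, 0, 0, 10⟩]),
    (123, [⟨9, 0, 0, 0, 14⟩]),
    (124, [⟨9, 0, 0, 0, 14⟩]),
    (125, [⟨4, 0, 0, 0, 8⟩]),
    (131, [⟨5, 0, 0, 0, 9⟩])]⟩,
   []⟩

/-- Claim trap18_z2@0_Tp2@0. -/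
def c113 : Claim :=
  ⟨⟨⟨0, 0, 0, 0, 0⟩, ⟨0, 0, 0, 0, 0⟩, ⟨0, 0, 0, 0, 0⟩, ⟨0, 0, 0, 0, 0⟩, ⟨⟨0, 0, 0, 0, 0⟩, ⟨0, 0, 0, 0, 0⟩, ⟨0, 0, 0, 0, 0⟩, ⟨0, 0, 0, 0, 0⟩⟩⟩,
   [74, 75],
   [11, 12, 13],
   ⟨76, w95, [⟨0, 0, 0, 0, 0⟩], [⟨4, 0, 0, 0, 6⟩],
    [(3, [⟨3, 0, 0, 0, 6⟩]),
    (7, [⟨2, 0, 0, 0, 6⟩]),
    (74, [⟨3, 0, 0, 0, 5⟩]),
    (75, [⟨2, 0, 0, 0, 7⟩])],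
    [(3, [⟨3, 0, 0, 0, 6⟩]),
    (7, [⟨4, 0, 0, 0, 6⟩]),
    (74, [⟨3, 0, 0, 0, 7⟩]),
    (75, [⟨4, 0, 0, 0, 5⟩])]⟩,
   ⟨102, w96, [⟨0, 0, 0, 0, 0⟩], [⟨6, 0, 0, 0, 10⟩],
    [(3, [⟨3, 0, 0, 0, 5⟩]),
    (7, [⟨4, 0, 0, 0, 5⟩]),
    (74, [⟨3, 0, 0, 0, 6⟩]),
    (75, [⟨4, 0, 0, 0, 4⟩])],
    [(3, [⟨5, 0, 0, 0, 5⟩]),
    (7, [⟨4, 0, 0, 0, 5⟩]),
    (74, [⟨5, 0, 0, 0, 4⟩]),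
    (75, [⟨4, 0, 0, 0, 6⟩])]⟩,
   []⟩

/-- Claim TE1. -/
def c114 : Claim :=
  ⟨⟨⟨0, 0, 0, 0, 0⟩, ⟨0, 0, 0, 0, 0⟩, ⟨0, 0, 0, 0, 0⟩, ⟨0, 0, 0, 0, 0⟩, ⟨⟨120, 0, 0, 0, 0⟩, ⟨0, 0, 0, 0, 32⟩, ⟨0, 0, 0, 0, 0⟩, ⟨0, 0, 0, 0, 0⟩⟩⟩,
   [90, 91, 92, 12, 93, 94, 13, 95, 96, 97, 98, 99, 100, 15, 37, 40, 42, 44, 46, 48, 50, 14, 16, 38, 36, 39, 41, 43, 45, 47, 49, 51, 123, 124, 105, 106, 103, 104, 113, 114, 115, 116, 117, 118, 5, 107, 108, 109, 110, 70, 71, 2, 3, 74, 75, 76, 77, 8, 78, 79, 80, 81, 82, 83],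
   [1, 5, 6, 7, 11, 12, 13, 14, 15, 16, 17, 18, 19, 20, 21, 22, 23, 24, 25, 35, 36, 37, 38, 39, 40, 41, 42, 43, 44, 45, 46, 47, 48, 49, 50, 54, 55, 56, 57, 58, 59, 60, 61, 62, 63, 64, 65, 69, 70, 71, 72, 73, 74, 75, 110, 111, 112, 113, 114, 115, 116, 117, 118, 119, 120, 121, 122, 123, 124, 125, 126, 127, 128, 129, 130, 131, 132, 133, 134, 135, 136, 137, 138, 139, 140],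
   ⟨4, w74, [⟨0, 0, 0, 0, 0⟩], [⟨6, 0, 0, 0, 12⟩],
    [(1, [⟨3, 0, 0, 0, 5⟩]),
    (8, [⟨2, 0, 0, 0, 5⟩]),
    (9, [⟨1, 0, 0, 0, 4⟩]),
    (76, [⟨3, 0, 0, 0, 4⟩]),
    (78, [⟨3, 0, 0, 0, 4⟩]),
    (79, [⟨2, 0, 0, 0, 6⟩]),
    (80, [⟨2, 0, 0, 0, 4⟩]),
    (82, [⟨2, 0, 0, 0, 4⟩]),
    (83, [⟨1, 0, 0, 0, 5⟩])],
    [(1, [⟨3, 0, 0, 0, 5⟩]),
    (2, [⟨6, 0, 0, 0, 11⟩]),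
    (4, [⟨0, 0, 0, 0, 0⟩]),
    (5, [⟨3, 0, 0, 0, 7⟩]),
    (8, [⟨4, 0, 0, 0, 5⟩]),
    (9, [⟨5, 0, 0, 0, 6⟩]),
    (70, [⟨6, 0, 0, 0, 10⟩]),
    (71, [⟨3, 0, 0, 0, 8⟩]),
    (76, [⟨3, 0, 0, 0, 6⟩]),
    (77, [⟨6, 0, 0, 0, 10⟩]),
    (78, [⟨3, 0, 0, 0, 6⟩]),
    (79, [⟨4, 0, 0, 0, 4⟩]),
    (80, [⟨4, 0, 0, 0, 6⟩]),
    (82, [⟨4, 0, 0, 0, 6⟩]),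
    (83, [⟨5, 0, 0, 0, 5⟩]),
    (107, [⟨0, 0, 0, 0, 1⟩]),
    (108, [⟨3, 0, 0, 0, 6⟩]),
    (109, [⟨3, 0, 0, 0, 8⟩]),
    (118, [⟨3, 0, 0, 0, 8⟩])]⟩,
   ⟨18, w61, [⟨0, 0, 0, 0, 0⟩], [⟨11, 0, 0, 0, 23⟩],
    [(2, [⟨8, 0, 0, 0, 14⟩]),
    (3, [⟨8, 0, 0, 0, 15⟩]),
    (4, [⟨2, 0, 0, 0, 3⟩]),
    (5, [⟨5, 0, 0, 0, 10⟩]),
    (7, [⟨9, 0, 0, 0, 15⟩]),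
    (8, [⟨10, 0, 0, 0, 22⟩]),
    (9, [⟨11, 0, 0, 0, 23⟩]),
    (12, [⟨5, 0, 0, 0, 15⟩]),
    (13, [⟨5, 0, 0, 0, 13⟩]),
    (14, [⟨7, 0, 0, 0, 14⟩]),
    (15, [⟨7, 0, 0, 0, 16⟩]),
    (16, [⟨7, 0, 0, 0, 13⟩]),
    (36, [⟨7, 0, 0, 0, 14⟩]),
    (37, [⟨7, 0, 0, 0, 15⟩]),
    (38, [⟨7, 0, 0, 0, 15⟩]),
    (39, [⟨7, 0, 0, 0, 14⟩]),
    (40, [⟨7, 0, 0, 0, 14⟩]),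
    (41, [⟨7, 0, 0, 0, 13⟩]),
    (42, [⟨7, 0, 0, 0, 13⟩]),
    (43, [⟨7, 0, 0, 0, 13⟩]),
    (44, [⟨7, 0, 0, 0, 12⟩]),
    (45, [⟨7, 0, 0, 0, 12⟩]),
    (46, [⟨7, 0, 0, 0, 11⟩]),
    (47, [⟨7, 0, 0, 0, 13⟩]),
    (48, [⟨7, 0, 0, 0, 12⟩]),
    (49, [⟨7, 0, 0, 0, 12⟩]),
    (50, [⟨7, 0, 0, 0, 13⟩]),
    (51, [⟨7, 0, 0, 0, 14⟩]),
    (70, [⟨8, 0, 0, 0, 13⟩]),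
    (71, [⟨5, 0, 0, 0, 11⟩]),
    (74, [⟨8, 0, 0, 0, 16⟩]),
    (75, [⟨9, 0, 0, 0, 14⟩]),
    (76, [⟨5, 0, 0, 0, 9⟩]),
    (77, [⟨8, 0, 0, 0, 13⟩]),
    (78, [⟨9, 0, 0, 0, 23⟩]),
    (79, [⟨10, 0, 0, 0, 21⟩]),
    (80, [⟨10, 0, 0, 0, 21⟩]),
    (81, [⟨8, 0, 0, 0, 15⟩]),
    (82, [⟨10, 0, 0, 0, 23⟩]),
    (83, [⟨11, 0, 0, 0, 22⟩]),
    (90, [⟨8, 0, 0, 0, 14⟩]),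
    (91, [⟨7, 0, 0, 0, 14⟩]),
    (92, [⟨5, 0, 0, 0, 16⟩]),
    (93, [⟨5, 0, 0, 0, 14⟩]),
    (94, [⟨4, 0, 0, 0, 7⟩]),
    (95, [⟨5, 0, 0, 0, 14⟩]),
    (96, [⟨5, 0, 0, 0, 12⟩]),
    (97, [⟨5, 0, 0, 0, 12⟩]),
    (98, [⟨4, 0, 0, 0, 7⟩]),
    (99, [⟨5, 0, 0, 0, 14⟩]),
    (100, [⟨7, 0, 0, 0, 13⟩]),
    (103, [⟨9, 0, 0, 0, 14⟩]),
    (104, [⟨7, 0, 0, 0, 17⟩]),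
    (105, [⟨7, 0, 0, 0, 12⟩]),
    (106, [⟨5, 0, 0, 0, 8⟩]),
    (107, [⟨2, 0, 0, 0, 4⟩]),
    (108, [⟨5, 0, 0, 0, 9⟩]),
    (109, [⟨5, 0, 0, 0, 9⟩]),
    (110, [⟨1, 0, 0, 0, 3⟩]),
    (114, [⟨0, 0, 0, 0, 1⟩]),
    (115, [⟨0, 0, 0, 0, 2⟩]),
    (116, [⟨0, 0, 0, 0, 3⟩]),
    (117, [⟨0, 0, 0, 0, 4⟩]),
    (118, [⟨5, 0, 0, 0, 9⟩]),
    (123, [⟨7, 0, 0, 0, 15⟩]),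
    (124, [⟨7, 0, 0, 0, 13⟩]),
    (125, [⟨4, 0, 0, 0, 8⟩]),
    (129, [⟨1, 0, 0, 0, 4⟩]),
    (131, [⟨5, 0, 0, 0, 9⟩])],
    [(1, [⟨11, 0, 0, 0, 21⟩]),
    (2, [⟨8, 0, 0, 0, 15⟩]),
    (3, [⟨8, 0, 0, 0, 16⟩]),
    (4, [⟨8, 0, 0, 0, 18⟩]),
    (5, [⟨5, 0, 0, 0, 11⟩]),
    (7, [⟨9, 0, 0, 0, 15⟩]),
    (8, [⟨10, 0, 0, 0, 23⟩]),
    (12, [⟨7, 0, 0, 0, 13⟩]),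
    (13, [⟨7, 0, 0, 0, 12⟩]),
    (14, [⟨9, 0, 0, 0, 13⟩]),
    (15, [⟨9, 0, 0, 0, 15⟩]),
    (16, [⟨9, 0, 0, 0, 13⟩]),
    (18, [⟨0, 0, 0, 0, 0⟩]),
    (36, [⟨9, 0, 0, 0, 14⟩]),
    (37, [⟨9, 0, 0, 0, 15⟩]),
    (38, [⟨9, 0, 0, 0, 15⟩]),
    (39, [⟨9, 0, 0, 0, 16⟩]),
    (40, [⟨9, 0, 0, 0, 16⟩]),
    (41, [⟨9, 0, 0, 0, 15⟩]),
    (42, [⟨9, 0, 0, 0, 16⟩]),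
    (43, [⟨9, 0, 0, 0, 16⟩]),
    (44, [⟨9, 0, 0, 0, 17⟩]),
    (45, [⟨9, 0, 0, 0, 15⟩]),
    (46, [⟨9, 0, 0, 0, 16⟩]),
    (47, [⟨9, 0, 0, 0, 15⟩]),
    (48, [⟨9, 0, 0, 0, 15⟩]),
    (49, [⟨9, 0, 0, 0, 14⟩]),
    (50, [⟨9, 0, 0, 0, 14⟩]),
    (51, [⟨9, 0, 0, 0, 14⟩]),
    (70, [⟨8, 0, 0, 0, 14⟩]),
    (71, [⟨5, 0, 0, 0, 12⟩]),
    (74, [⟨8, 0, 0, 0, 17⟩]),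
    (75, [⟨9, 0, 0, 0, 15⟩]),
    (76, [⟨11, 0, 0, 0, 20⟩]),
    (77, [⟨8, 0, 0, 0, 16⟩]),
    (78, [⟨11, 0, 0, 0, 22⟩]),
    (79, [⟨10, 0, 0, 0, 24⟩]),
    (80, [⟨10, 0, 0, 0, 22⟩]),
    (81, [⟨8, 0, 0, 0, 16⟩]),
    (82, [⟨10, 0, 0, 0, 24⟩]),
    (90, [⟨8, 0, 0, 0, 17⟩]),
    (91, [⟨9, 0, 0, 0, 12⟩]),
    (92, [⟨7, 0, 0, 0, 14⟩]),
    (93, [⟨7, 0, 0, 0, 12⟩]),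
    (94, [⟨4, 0, 0, 0, 9⟩]),
    (95, [⟨7, 0, 0, 0, 14⟩]),
    (96, [⟨7, 0, 0, 0, 13⟩]),
    (97, [⟨7, 0, 0, 0, 11⟩]),
    (98, [⟨4, 0, 0, 0, 9⟩]),
    (99, [⟨7, 0, 0, 0, 13⟩]),
    (100, [⟨9, 0, 0, 0, 12⟩]),
    (103, [⟨9, 0, 0, 0, 16⟩]),
    (104, [⟨9, 0, 0, 0, 16⟩]),
    (105, [⟨9, 0, 0, 0, 12⟩]),
    (106, [⟨5, 0, 0, 0, 10⟩]),
    (107, [⟨8, 0, 0, 0, 17⟩]),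
    (108, [⟨5, 0, 0, 0, 12⟩]),
    (109, [⟨5, 0, 0, 0, 12⟩]),
    (110, [⟨1, 0, 0, 0, 5⟩]),
    (113, [⟨0, 0, 0, 0, 1⟩]),
    (114, [⟨0, 0, 0, 0, 2⟩]),
    (115, [⟨0, 0, 0, 0, 3⟩]),
    (116, [⟨0, 0, 0, 0, 4⟩]),
    (117, [⟨0, 0, 0, 0, 5⟩]),
    (118, [⟨5, 0, 0, 0, 10⟩]),
    (123, [⟨9, 0, 0, 0, 14⟩]),
    (124, [⟨9, 0, 0, 0, 14⟩]),
    (125, [⟨4, 0, 0, 0, 8⟩]),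
    (129, [⟨1, 0, 0, 0, 4⟩]),
    (131, [⟨5, 0, 0, 0, 9⟩])]⟩,
   []⟩

/-- Claim TE0u. -/
def c115 : Claim :=
  ⟨⟨⟨0, 0, 0, 0, 0⟩, ⟨0, 0, 0, 0, 0⟩, ⟨0, 0, 0, 0, 0⟩, ⟨0, 0, 0, 0, 0⟩, ⟨⟨120, 0, 0, 0, 0⟩, ⟨0, 0, 0, 0, 33⟩, ⟨0, 0, 0, 0, 0⟩, ⟨0, 0, 0, 0, 0⟩⟩⟩,
   [90, 91, 92, 12, 93, 94, 13, 95, 96, 97, 98, 99, 100, 15, 37, 40, 42, 44, 46, 48, 50, 14, 16, 38, 36, 39, 41, 43, 45, 47, 49, 51, 123, 124, 105, 106, 103, 104, 113, 114, 115, 116, 117, 118, 5, 107, 108, 109, 110, 70, 71, 2, 3, 74, 75, 76, 77, 8, 78, 79, 80, 81, 82, 83],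
   [1, 5, 6, 7, 11, 12, 13, 14, 15, 16, 17, 18, 19, 20, 21, 22, 23, 24, 25, 35, 36, 37, 38, 39, 40, 41, 42, 43, 44, 45, 46, 47, 48, 49, 50, 54, 55, 56, 57, 58, 59, 60, 61, 62, 63, 64, 65, 69, 70, 71, 72, 73, 74, 75, 110, 111, 112, 113, 114, 115, 116, 117, 118, 119, 120, 121, 122, 123, 124, 125, 126, 127, 128, 129, 130, 131, 132, 133, 134, 135, 136, 137, 138, 139, 140],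
   ⟨143, w77, [⟨0, 0, 0, 0, 0⟩], [⟨4, 0, 0, 0, 9⟩],
    [(1, [⟨4, 0, 0, 0, 9⟩]),
    (2, [⟨1, 0, 0, 0, 3⟩]),
    (3, [⟨1, 0, 0, 0, 2⟩]),
    (4, [⟨1, 0, 0, 0, 4⟩]),
    (8, [⟨3, 0, 0, 0, 9⟩]),
    (9, [⟨2, 0, 0, 0, 8⟩]),
    (70, [⟨1, 0, 0, 0, 2⟩]),
    (74, [⟨1, 0, 0, 0, 1⟩]),
    (75, [⟨0, 0, 0, 0, 3⟩]),
    (76, [⟨4, 0, 0, 0, 8⟩]),
    (77, [⟨1, 0, 0, 0, 4⟩]),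
    (78, [⟨4, 0, 0, 0, 8⟩]),
    (79, [⟨3, 0, 0, 0, 10⟩]),
    (80, [⟨3, 0, 0, 0, 8⟩]),
    (81, [⟨1, 0, 0, 0, 2⟩]),
    (82, [⟨3, 0, 0, 0, 8⟩]),
    (83, [⟨2, 0, 0, 0, 9⟩]),
    (90, [⟨1, 0, 0, 0, 1⟩]),
    (91, [⟨0, 0, 0, 0, 1⟩]),
    (107, [⟨1, 0, 0, 0, 3⟩])],
    [(4, [⟨1, 0, 0, 0, 4⟩]),
    (107, [⟨1, 0, 0, 0, 5⟩])]⟩,
   ⟨18, w61, [⟨0, 0, 0, 0, 0⟩], [⟨11, 0, 0, 0, 23⟩],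
    [(2, [⟨8, 0, 0, 0, 14⟩]),
    (3, [⟨8, 0, 0, 0, 15⟩]),
    (4, [⟨2, 0, 0, 0, 3⟩]),
    (5, [⟨5, 0, 0, 0, 10⟩]),
    (7, [⟨9, 0, 0, 0, 15⟩]),
    (8, [⟨10, 0, 0, 0, 22⟩]),
    (9, [⟨11, 0, 0, 0, 23⟩]),
    (12, [⟨5, 0, 0, 0, 15⟩]),
    (13, [⟨5, 0, 0, 0, 13⟩]),
    (14, [⟨7, 0, 0, 0, 14⟩]),
    (15, [⟨7, 0, 0, 0, 16⟩]),
    (16, [⟨7, 0, 0, 0, 13⟩]),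
    (36, [⟨7, 0, 0, 0, 14⟩]),
    (37, [⟨7, 0, 0, 0, 15⟩]),
    (38, [⟨7, 0, 0, 0, 15⟩]),
    (39, [⟨7, 0, 0, 0, 14⟩]),
    (40, [⟨7, 0, 0, 0, 14⟩]),
    (41, [⟨7, 0, 0, 0, 13⟩]),
    (42, [⟨7, 0, 0, 0, 13⟩]),
    (43, [⟨7, 0, 0, 0, 13⟩]),
    (44, [⟨7, 0, 0, 0, 12⟩]),
    (45, [⟨7, 0, 0, 0, 12⟩]),
    (46, [⟨7, 0, 0, 0, 11⟩]),
    (47, [⟨7, 0, 0, 0, 13⟩]),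
    (48, [⟨7, 0, 0, 0, 12⟩]),
    (49, [⟨7, 0, 0, 0, 12⟩]),
    (50, [⟨7, 0, 0, 0, 13⟩]),
    (51, [⟨7, 0, 0, 0, 14⟩]),
    (70, [⟨8, 0, 0, 0, 13⟩]),
    (71, [⟨5, 0, 0, 0, 11⟩]),
    (74, [⟨8, 0, 0, 0, 16⟩]),
    (75, [⟨9, 0, 0, 0, 14⟩]),
    (76, [⟨5, 0, 0, 0, 9⟩]),
    (77, [⟨8, 0, 0, 0, 13⟩]),
    (78, [⟨9, 0, 0, 0, 23⟩]),
    (79, [⟨10, 0, 0, 0, 21⟩]),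
    (80, [⟨10, 0, 0, 0, 21⟩]),
    (81, [⟨8, 0, 0, 0, 15⟩]),
    (82, [⟨10, 0, 0, 0, 23⟩]),
    (83, [⟨11, 0, 0, 0, 22⟩]),
    (90, [⟨8, 0, 0, 0, 14⟩]),
    (91, [⟨7, 0, 0, 0, 14⟩]),
    (92, [⟨5, 0, 0, 0, 16⟩]),
    (93, [⟨5, 0, 0, 0, 14⟩]),
    (94, [⟨4, 0, 0, 0, 7⟩]),
    (95, [⟨5, 0, 0, 0, 14⟩]),
    (96, [⟨5, 0, 0, 0, 12⟩]),
    (97, [⟨5, 0, 0, 0, 12⟩]),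
    (98, [⟨4, 0, 0, 0, 7⟩]),
    (99, [⟨5, 0, 0, 0, 14⟩]),
    (100, [⟨7, 0, 0, 0, 13⟩]),
    (103, [⟨9, 0, 0, 0, 14⟩]),
    (104, [⟨7, 0, 0, 0, 17⟩]),
    (105, [⟨7, 0, 0, 0, 12⟩]),
    (106, [⟨5, 0, 0, 0, 8⟩]),
    (107, [⟨2, 0, 0, 0, 4⟩]),
    (108, [⟨5, 0, 0, 0, 9⟩]),
    (109, [⟨5, 0, 0, 0, 9⟩]),
    (110, [⟨1, 0, 0, 0, 3⟩]),
    (114, [⟨0, 0, 0, 0, 1⟩]),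
    (115, [⟨0, 0, 0, 0, 2⟩]),
    (116, [⟨0, 0, 0, 0, 3⟩]),
    (117, [⟨0, 0, 0, 0, 4⟩]),
    (118, [⟨5, 0, 0, 0, 9⟩]),
    (123, [⟨7, 0, 0, 0, 15⟩]),
    (124, [⟨7, 0, 0, 0, 13⟩]),
    (125, [⟨4, 0, 0, 0, 8⟩]),
    (129, [⟨1, 0, 0, 0, 4⟩]),
    (131, [⟨5, 0, 0, 0, 9⟩])],
    [(1, [⟨11, 0, 0, 0, 21⟩]),
    (2, [⟨8, 0, 0, 0, 15⟩]),
    (3, [⟨8, 0, 0, 0, 16⟩]),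
    (4, [⟨8, 0, 0, 0, 18⟩]),
    (5, [⟨5, 0, 0, 0, 11⟩]),
    (7, [⟨9, 0, 0, 0, 15⟩]),
    (8, [⟨10, 0, 0, 0, 23⟩]),
    (12, [⟨7, 0, 0, 0, 13⟩]),
    (13, [⟨7, 0, 0, 0, 12⟩]),
    (14, [⟨9, 0, 0, 0, 13⟩]),
    (15, [⟨9, 0, 0, 0, 15⟩]),
    (16, [⟨9, 0, 0, 0, 13⟩]),
    (18, [⟨0, 0, 0, 0, 0⟩]),
    (36, [⟨9, 0, 0, 0, 14⟩]),
    (37, [⟨9, 0, 0, 0, 15⟩]),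
    (38, [⟨9, 0, 0, 0, 15⟩]),
    (39, [⟨9, 0, 0, 0, 16⟩]),
    (40, [⟨9, 0, 0, 0, 16⟩]),
    (41, [⟨9, 0, 0, 0, 15⟩]),
    (42, [⟨9, 0, 0, 0, 16⟩]),
    (43, [⟨9, 0, 0, 0, 16⟩]),
    (44, [⟨9, 0, 0, 0, 17⟩]),
    (45, [⟨9, 0, 0, 0, 15⟩]),
    (46, [⟨9, 0, 0, 0, 16⟩]),
    (47, [⟨9, 0, 0, 0, 15⟩]),
    (48, [⟨9, 0, 0, 0, 15⟩]),
    (49, [⟨9, 0, 0, 0, 14⟩]),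
    (50, [⟨9, 0, 0, 0, 14⟩]),
    (51, [⟨9, 0, 0, 0, 14⟩]),
    (70, [⟨8, 0, 0, 0, 14⟩]),
    (71, [⟨5, 0, 0, 0, 12⟩]),
    (74, [⟨8, 0, 0, 0, 17⟩]),
    (75, [⟨9, 0, 0, 0, 15⟩]),
    (76, [⟨11, 0, 0, 0, 20⟩]),
    (77, [⟨8, 0, 0, 0, 16⟩]),
    (78, [⟨11, 0, 0, 0, 22⟩]),
    (79, [⟨10, 0, 0, 0, 24⟩]),
    (80, [⟨10, 0, 0, 0, 22⟩]),
    (81, [⟨8, 0, 0, 0, 16⟩]),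
    (82, [⟨10, 0, 0, 0, 24⟩]),
    (90, [⟨8, 0, 0, 0, 17⟩]),
    (91, [⟨9, 0, 0, 0, 12⟩]),
    (92, [⟨7, 0, 0, 0, 14⟩]),
    (93, [⟨7, 0, 0, 0, 12⟩]),
    (94, [⟨4, 0, 0, 0, 9⟩]),
    (95, [⟨7, 0, 0, 0, 14⟩]),
    (96, [⟨7, 0, 0, 0, 13⟩]),
    (97, [⟨7, 0, 0, 0, 11⟩]),
    (98, [⟨4, 0, 0, 0, 9⟩]),
    (99, [⟨7, 0, 0, 0, 13⟩]),
    (100, [⟨9, 0, 0, 0, 12⟩]),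
    (103, [⟨9, 0, 0, 0, 16⟩]),
    (104, [⟨9, 0, 0, 0, 16⟩]),
    (105, [⟨9, 0, 0, 0, 12⟩]),
    (106, [⟨5, 0, 0, 0, 10⟩]),
    (107, [⟨8, 0, 0, 0, 17⟩]),
    (108, [⟨5, 0, 0, 0, 12⟩]),
    (109, [⟨5, 0, 0, 0, 12⟩]),
    (110, [⟨1, 0, 0, 0, 5⟩]),
    (113, [⟨0, 0, 0, 0, 1⟩]),
    (114, [⟨0, 0, 0, 0, 2⟩]),
    (115, [⟨0, 0, 0, 0, 3⟩]),
    (116, [⟨0, 0, 0, 0, 4⟩]),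
    (117, [⟨0, 0, 0, 0, 5⟩]),
    (118, [⟨5, 0, 0, 0, 10⟩]),
    (123, [⟨9, 0, 0, 0, 14⟩]),
    (124, [⟨9, 0, 0, 0, 14⟩]),
    (125, [⟨4, 0, 0, 0, 8⟩]),
    (129, [⟨1, 0, 0, 0, 4⟩]),
    (131, [⟨5, 0, 0, 0, 9⟩])]⟩,
   []⟩

/-- Claim TE0d. -/
def c116 : Claim :=
  ⟨⟨⟨0, 0, 0, 0, 0⟩, ⟨0, 0, 0, 0, 0⟩, ⟨0, 0, 0, 0, 0⟩, ⟨0, 0, 0, 0, 0⟩, ⟨⟨120, 0, 0, 0, 0⟩, ⟨0, 0, 0, 0, 34⟩, ⟨0, 0, 0, 0, 0⟩, ⟨0, 0, 0, 0, 0⟩⟩⟩,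
   [90, 91, 92, 12, 93, 94, 13, 95, 96, 97, 98, 99, 100, 15, 37, 40, 42, 44, 46, 48, 50, 14, 16, 38, 36, 39, 41, 43, 45, 47, 49, 51, 123, 124, 105, 106, 103, 104, 113, 114, 115, 116, 117, 118, 5, 107, 108, 109, 110, 70, 71, 2, 3, 74, 75, 76, 77, 8, 78, 79, 80, 81, 82, 83],
   [1, 5, 6, 7, 11, 12, 13, 14, 15, 16, 17, 18, 19, 20, 21, 22, 23, 24, 25, 35, 36, 37, 38, 39, 40, 41, 42, 43, 44, 45, 46, 47, 48, 49, 50, 54, 55, 56, 57, 58, 59, 60, 61, 62, 63, 64, 65, 69, 70, 71, 72, 73, 74, 75, 110, 111, 112, 113, 114, 115, 116, 117, 118, 119, 120, 121, 122, 123, 124, 125, 126, 127, 128, 129, 130, 131, 132, 133, 134, 135, 136, 137, 138, 139, 140],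
   ⟨134, w97, [⟨0, 0, 0, 0, 0⟩], [⟨11, 0, 0, 0, 23⟩],
    [(1, [⟨7, 0, 0, 0, 14⟩]),
    (2, [⟨4, 0, 0, 0, 8⟩]),
    (3, [⟨4, 0, 0, 0, 7⟩]),
    (4, [⟨10, 0, 0, 0, 19⟩]),
    (5, [⟨7, 0, 0, 0, 12⟩]),
    (8, [⟨6, 0, 0, 0, 14⟩]),
    (9, [⟨5, 0, 0, 0, 13⟩]),
    (12, [⟨1, 0, 0, 0, 7⟩]),
    (18, [⟨2, 0, 0, 0, 1⟩]),
    (70, [⟨4, 0, 0, 0, 9⟩]),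
    (71, [⟨7, 0, 0, 0, 11⟩]),
    (74, [⟨4, 0, 0, 0, 6⟩]),
    (75, [⟨3, 0, 0, 0, 8⟩]),
    (76, [⟨7, 0, 0, 0, 13⟩]),
    (77, [⟨4, 0, 0, 0, 9⟩]),
    (78, [⟨7, 0, 0, 0, 13⟩]),
    (79, [⟨6, 0, 0, 0, 15⟩]),
    (80, [⟨6, 0, 0, 0, 13⟩]),
    (81, [⟨4, 0, 0, 0, 7⟩]),
    (82, [⟨6, 0, 0, 0, 13⟩]),
    (83, [⟨5, 0, 0, 0, 14⟩]),
    (90, [⟨4, 0, 0, 0, 6⟩]),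
    (91, [⟨3, 0, 0, 0, 6⟩]),
    (92, [⟨1, 0, 0, 0, 8⟩]),
    (93, [⟨1, 0, 0, 0, 6⟩]),
    (95, [⟨1, 0, 0, 0, 6⟩]),
    (107, [⟨10, 0, 0, 0, 18⟩]),
    (108, [⟨7, 0, 0, 0, 13⟩]),
    (109, [⟨7, 0, 0, 0, 11⟩]),
    (110, [⟨1, 0, 0, 0, 7⟩]),
    (113, [⟨2, 0, 0, 0, 2⟩]),
    (114, [⟨2, 0, 0, 0, 3⟩]),
    (115, [⟨2, 0, 0, 0, 4⟩]),
    (116, [⟨2, 0, 0, 0, 5⟩]),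
    (117, [⟨2, 0, 0, 0, 6⟩]),
    (118, [⟨7, 0, 0, 0, 11⟩]),
    (129, [⟨1, 0, 0, 0, 6⟩])],
    [(1, [⟨7, 0, 0, 0, 14⟩]),
    (2, [⟨10, 0, 0, 0, 20⟩]),
    (3, [⟨10, 0, 0, 0, 21⟩]),
    (4, [⟨10, 0, 0, 0, 19⟩]),
    (8, [⟨8, 0, 0, 0, 14⟩]),
    (9, [⟨9, 0, 0, 0, 15⟩]),
    (70, [⟨10, 0, 0, 0, 21⟩]),
    (74, [⟨10, 0, 0, 0, 22⟩]),
    (75, [⟨11, 0, 0, 0, 20⟩]),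
    (76, [⟨7, 0, 0, 0, 15⟩]),
    (77, [⟨10, 0, 0, 0, 19⟩]),
    (78, [⟨7, 0, 0, 0, 15⟩]),
    (79, [⟨8, 0, 0, 0, 13⟩]),
    (80, [⟨8, 0, 0, 0, 15⟩]),
    (81, [⟨10, 0, 0, 0, 21⟩]),
    (82, [⟨8, 0, 0, 0, 15⟩]),
    (83, [⟨9, 0, 0, 0, 14⟩]),
    (90, [⟨10, 0, 0, 0, 22⟩]),
    (91, [⟨11, 0, 0, 0, 22⟩]),
    (107, [⟨10, 0, 0, 0, 20⟩])]⟩,
   ⟨18, w61, [⟨0, 0, 0, 0, 0⟩], [⟨11, 0, 0, 0, 23⟩],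
    [(2, [⟨8, 0, 0, 0, 14⟩]),
    (3, [⟨8, 0, 0, 0, 15⟩]),
    (4, [⟨2, 0, 0, 0, 3⟩]),
    (5, [⟨5, 0, 0, 0, 10⟩]),
    (7, [⟨9, 0, 0, 0, 15⟩]),
    (8, [⟨10, 0, 0, 0, 22⟩]),
    (9, [⟨11, 0, 0, 0, 23⟩]),
    (12, [⟨5, 0, 0, 0, 15⟩]),
    (13, [⟨5, 0, 0, 0, 13⟩]),
    (14, [⟨7, 0, 0, 0, 14⟩]),
    (15, [⟨7, 0, 0, 0, 16⟩]),
    (16, [⟨7, 0, 0, 0, 13⟩]),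
    (36, [⟨7, 0, 0, 0, 14⟩]),
    (37, [⟨7, 0, 0, 0, 15⟩]),
    (38, [⟨7, 0, 0, 0, 15⟩]),
    (39, [⟨7, 0, 0, 0, 14⟩]),
    (40, [⟨7, 0, 0, 0, 14⟩]),
    (41, [⟨7, 0, 0, 0, 13⟩]),
    (42, [⟨7, 0, 0, 0, 13⟩]),
    (43, [⟨7, 0, 0, 0, 13⟩]),
    (44, [⟨7, 0, 0, 0, 12⟩]),
    (45, [⟨7, 0, 0, 0, 12⟩]),
    (46, [⟨7, 0, 0, 0, 11⟩]),
    (47, [⟨7, 0, 0, 0, 13⟩]),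
    (48, [⟨7, 0, 0, 0, 12⟩]),
    (49, [⟨7, 0, 0, 0, 12⟩]),
    (50, [⟨7, 0, 0, 0, 13⟩]),
    (51, [⟨7, 0, 0, 0, 14⟩]),
    (70, [⟨8, 0, 0, 0, 13⟩]),
    (71, [⟨5, 0, 0, 0, 11⟩]),
    (74, [⟨8, 0, 0, 0, 16⟩]),
    (75, [⟨9, 0, 0, 0, 14⟩]),
    (76, [⟨5, 0, 0, 0, 9⟩]),
    (77, [⟨8, 0, 0, 0, 13⟩]),
    (78, [⟨9, 0, 0, 0, 23⟩]),
    (79, [⟨10, 0, 0, 0, 21⟩]),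
    (80, [⟨10, 0, 0, 0, 21⟩]),
    (81, [⟨8, 0, 0, 0, 15⟩]),
    (82, [⟨10, 0, 0, 0, 23⟩]),
    (83, [⟨11, 0, 0, 0, 22⟩]),
    (90, [⟨8, 0, 0, 0, 14⟩]),
    (91, [⟨7, 0, 0, 0, 14⟩]),
    (92, [⟨5, 0, 0, 0, 16⟩]),
    (93, [⟨5, 0, 0, 0, 14⟩]),
    (94, [⟨4, 0, 0, 0, 7⟩]),
    (95, [⟨5, 0, 0, 0, 14⟩]),
    (96, [⟨5, 0, 0, 0, 12⟩]),
    (97, [⟨5, 0, 0, 0, 12⟩]),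
    (98, [⟨4, 0, 0, 0, 7⟩]),
    (99, [⟨5, 0, 0, 0, 14⟩]),
    (100, [⟨7, 0, 0, 0, 13⟩]),
    (103, [⟨9, 0, 0, 0, 14⟩]),
    (104, [⟨7, 0, 0, 0, 17⟩]),
    (105, [⟨7, 0, 0, 0, 12⟩]),
    (106, [⟨5, 0, 0, 0, 8⟩]),
    (107, [⟨2, 0, 0, 0, 4⟩]),
    (108, [⟨5, 0, 0, 0, 9⟩]),
    (109, [⟨5, 0, 0, 0, 9⟩]),
    (110, [⟨1, 0, 0, 0, 3⟩]),
    (114, [⟨0, 0, 0, 0, 1⟩]),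
    (115, [⟨0, 0, 0, 0, 2⟩]),
    (116, [⟨0, 0, 0, 0, 3⟩]),
    (117, [⟨0, 0, 0, 0, 4⟩]),
    (118, [⟨5, 0, 0, 0, 9⟩]),
    (123, [⟨7, 0, 0, 0, 15⟩]),
    (124, [⟨7, 0, 0, 0, 13⟩]),
    (125, [⟨4, 0, 0, 0, 8⟩]),
    (129, [⟨1, 0, 0, 0, 4⟩]),
    (131, [⟨5, 0, 0, 0, 9⟩])],
    [(1, [⟨11, 0, 0, 0, 21⟩]),
    (2, [⟨8, 0, 0, 0, 15⟩]),
    (3, [⟨8, 0, 0, 0, 16⟩]),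
    (4, [⟨8, 0, 0, 0, 18⟩]),
    (5, [⟨5, 0, 0, 0, 11⟩]),
    (7, [⟨9, 0, 0, 0, 15⟩]),
    (8, [⟨10, 0, 0, 0, 23⟩]),
    (12, [⟨7, 0, 0, 0, 13⟩]),
    (13, [⟨7, 0, 0, 0, 12⟩]),
    (14, [⟨9, 0, 0, 0, 13⟩]),
    (15, [⟨9, 0, 0, 0, 15⟩]),
    (16, [⟨9, 0, 0, 0, 13⟩]),
    (18, [⟨0, 0, 0, 0, 0⟩]),
    (36, [⟨9, 0, 0, 0, 14⟩]),
    (37, [⟨9, 0, 0, 0, 15⟩]),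
    (38, [⟨9, 0, 0, 0, 15⟩]),
    (39, [⟨9, 0, 0, 0, 16⟩]),
    (40, [⟨9, 0, 0, 0, 16⟩]),
    (41, [⟨9, 0, 0, 0, 15⟩]),
    (42, [⟨9, 0, 0, 0, 16⟩]),
    (43, [⟨9, 0, 0, 0, 16⟩]),
    (44, [⟨9, 0, 0, 0, 17⟩]),
    (45, [⟨9, 0, 0, 0, 15⟩]),
    (46, [⟨9, 0, 0, 0, 16⟩]),
    (47, [⟨9, 0, 0, 0, 15⟩]),
    (48, [⟨9, 0, 0, 0, 15⟩]),
    (49, [⟨9, 0, 0, 0, 14⟩]),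
    (50, [⟨9, 0, 0, 0, 14⟩]),
    (51, [⟨9, 0, 0, 0, 14⟩]),
    (70, [⟨8, 0, 0, 0, 14⟩]),
    (71, [⟨5, 0, 0, 0, 12⟩]),
    (74, [⟨8, 0, 0, 0, 17⟩]),
    (75, [⟨9, 0, 0, 0, 15⟩]),
    (76, [⟨11, 0, 0, 0, 20⟩]),
    (77, [⟨8, 0, 0, 0, 16⟩]),
    (78, [⟨11, 0, 0, 0, 22⟩]),
    (79, [⟨10, 0, 0, 0, 24⟩]),
    (80, [⟨10, 0, 0, 0, 22⟩]),
    (81, [⟨8, 0, 0, 0, 16⟩]),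
    (82, [⟨10, 0, 0, 0, 24⟩]),
    (90, [⟨8, 0, 0, 0, 17⟩]),
    (91, [⟨9, 0, 0, 0, 12⟩]),
    (92, [⟨7, 0, 0, 0, 14⟩]),
    (93, [⟨7, 0, 0, 0, 12⟩]),
    (94, [⟨4, 0, 0, 0, 9⟩]),
    (95, [⟨7, 0, 0, 0, 14⟩]),
    (96, [⟨7, 0, 0, 0, 13⟩]),
    (97, [⟨7, 0, 0, 0, 11⟩]),
    (98, [⟨4, 0, 0, 0, 9⟩]),
    (99, [⟨7, 0, 0, 0, 13⟩]),
    (100, [⟨9, 0, 0, 0, 12⟩]),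
    (103, [⟨9, 0, 0, 0, 16⟩]),
    (104, [⟨9, 0, 0, 0, 16⟩]),
    (105, [⟨9, 0, 0, 0, 12⟩]),
    (106, [⟨5, 0, 0, 0, 10⟩]),
    (107, [⟨8, 0, 0, 0, 17⟩]),
    (108, [⟨5, 0, 0, 0, 12⟩]),
    (109, [⟨5, 0, 0, 0, 12⟩]),
    (110, [⟨1, 0, 0, 0, 5⟩]),
    (113, [⟨0, 0, 0, 0, 1⟩]),
    (114, [⟨0, 0, 0, 0, 2⟩]),
    (115, [⟨0, 0, 0, 0, 3⟩]),
    (116, [⟨0, 0, 0, 0, 4⟩]),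
    (117, [⟨0, 0, 0, 0, 5⟩]),
    (118, [⟨5, 0, 0, 0, 10⟩]),
    (123, [⟨9, 0, 0, 0, 14⟩]),
    (124, [⟨9, 0, 0, 0, 14⟩]),
    (125, [⟨4, 0, 0, 0, 8⟩]),
    (129, [⟨1, 0, 0, 0, 4⟩]),
    (131, [⟨5, 0, 0, 0, 9⟩])]⟩,
   []⟩

/-- Claim KS2. -/
def c117 : Claim :=
  ⟨⟨⟨0, 0, 0, 0, 0⟩, ⟨0, 0, 0, 0, 0⟩, ⟨0, 0, 0, 0, 0⟩, ⟨0, 0, 0, 0, 0⟩, ⟨⟨120, 0, 0, 0, 0⟩, ⟨0, 0, 0, 0, 35⟩, ⟨0, 0, 0, 0, 0⟩, ⟨0, 0, 0, 0, 0⟩⟩⟩,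
   [8, 78, 79, 80, 81, 82, 83],
   [17, 18, 19, 20, 21, 22, 23, 24, 25],
   ⟨33, w98, [⟨0, 0, 0, 0, 0⟩], [⟨5, 0, 0, 0, 16⟩],
    [(2, [⟨3, 0, 0, 0, 8⟩]),
    (8, [⟨1, 0, 0, 0, 0⟩]),
    (78, [⟨0, 0, 0, 0, 1⟩]),
    (79, [⟨1, 0, 0, 0, -1⟩]),
    (80, [⟨1, 0, 0, 0, 1⟩]),
    (81, [⟨3, 0, 0, 0, 7⟩]),
    (82, [⟨1, 0, 0, 0, -1⟩])],
    [(2, [⟨3, 0, 0, 0, 8⟩]),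
    (80, [⟨5, 0, 0, 0, 15⟩]),
    (81, [⟨3, 0, 0, 0, 9⟩])]⟩,
   ⟨9, w99, [⟨0, 0, 0, 0, 0⟩], [⟨2, 0, 0, 0, 2⟩],
    [(1, [⟨2, 0, 0, 0, 1⟩]),
    (8, [⟨1, 0, 0, 0, 1⟩]),
    (78, [⟨2, 0, 0, 0, 0⟩]),
    (79, [⟨1, 0, 0, 0, 2⟩]),
    (80, [⟨1, 0, 0, 0, 0⟩]),
    (82, [⟨1, 0, 0, 0, 0⟩]),
    (83, [⟨0, 0, 0, 0, 1⟩])],
    [(1, [⟨2, 0, 0, 0, 1⟩]),
    (8, [⟨1, 0, 0, 0, 1⟩]),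
    (9, [⟨0, 0, 0, 0, 0⟩]),
    (78, [⟨2, 0, 0, 0, 0⟩]),
    (79, [⟨1, 0, 0, 0, 2⟩]),
    (80, [⟨1, 0, 0, 0, 2⟩]),
    (82, [⟨1, 0, 0, 0, 0⟩]),
    (83, [⟨0, 0, 0, 0, 1⟩])]⟩,
   []⟩

/-- Claim PSf. -/
def c118 : Claim :=
  ⟨⟨⟨0, 0, 0, 0, 0⟩, ⟨0, 0, 0, 0, 0⟩, ⟨0, 0, 0, 0, 0⟩, ⟨0, 0, 0, 0, 0⟩, ⟨⟨120, 0, 0, 0, 0⟩, ⟨0, 0, 0, 0, 36⟩, ⟨0, 0, 0, 0, 0⟩, ⟨0, 0, 0, 0, 0⟩⟩⟩,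
   [0],
   [],
   ⟨9, w99, [⟨2, 0, 0, 0, 1⟩], [⟨2, 0, 0, 0, 1⟩],
    [],
    []⟩,
   ⟨33, w100, [⟨0, 0, 0, 0, 1⟩], [⟨2, 0, 0, 0, 7⟩],
    [],
    []⟩,
   []⟩

/-- Claim PSz. -/
def c119 : Claim :=
  ⟨⟨⟨0, 0, 0, 0, 0⟩, ⟨0, 0, 0, 0, 0⟩, ⟨0, 0, 0, 0, 0⟩, ⟨0, 0, 0, 0, 0⟩, ⟨⟨120, 0, 0, 0, 0⟩, ⟨0, 0, 0, 0, 37⟩, ⟨0, 0, 0, 0, 0⟩, ⟨0, 0, 0, 0, 0⟩⟩⟩,
   [1],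
   [],
   ⟨9, w99, [⟨2, 0, 0, 0, 0⟩], [⟨2, 0, 0, 0, 0⟩],
    [],
    []⟩,
   ⟨33, w100, [⟨0, 0, 0, 0, 2⟩], [⟨2, 0, 0, 0, 7⟩],
    [],
    []⟩,
   []⟩

/-- Claim PSX. -/
def c120 : Claim :=
  ⟨⟨⟨0, 0, 0, 0, 0⟩, ⟨0, 0, 0, 0, 0⟩, ⟨0, 0, 0, 0, 0⟩, ⟨0, 0, 0, 0, 0⟩, ⟨⟨120, 0, 0, 0, 0⟩, ⟨0, 0, 0, 0, 38⟩, ⟨0, 0, 0, 0, 0⟩, ⟨0, 0, 0, 0, 0⟩⟩⟩,
   [8, 78, 79, 80, 81, 82, 83],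
   [17, 18, 19, 20, 21, 22, 23, 24, 25],
   ⟨9, w99, [⟨0, 0, 0, 0, 0⟩], [⟨2, 0, 0, 0, 1⟩],
    [(1, [⟨2, 0, 0, 0, 0⟩]),
    (8, [⟨1, 0, 0, 0, 0⟩]),
    (78, [⟨2, 0, 0, 0, -1⟩]),
    (79, [⟨1, 0, 0, 0, 1⟩]),
    (80, [⟨1, 0, 0, 0, -1⟩]),
    (82, [⟨1, 0, 0, 0, -1⟩])],
    [(8, [⟨1, 0, 0, 0, 1⟩]),
    (9, [⟨0, 0, 0, 0, 0⟩]),
    (78, [⟨2, 0, 0, 0, 0⟩]),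
    (79, [⟨1, 0, 0, 0, 2⟩]),
    (80, [⟨1, 0, 0, 0, 2⟩]),
    (82, [⟨1, 0, 0, 0, 0⟩]),
    (83, [⟨0, 0, 0, 0, 1⟩])]⟩,
   ⟨33, w100, [⟨0, 0, 0, 0, 0⟩], [⟨3, 0, 0, 0, 8⟩],
    [(1, [⟨0, 0, 0, 0, 2⟩]),
    (2, [⟨3, 0, 0, 0, 8⟩]),
    (8, [⟨1, 0, 0, 0, 0⟩]),
    (78, [⟨0, 0, 0, 0, 1⟩]),
    (79, [⟨1, 0, 0, 0, -1⟩]),
    (80, [⟨1, 0, 0, 0, 1⟩]),
    (81, [⟨3, 0, 0, 0, 7⟩]),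
    (82, [⟨1, 0, 0, 0, -1⟩])],
    [(1, [⟨2, 0, 0, 0, 7⟩]),
    (8, [⟨3, 0, 0, 0, 7⟩]),
    (78, [⟨2, 0, 0, 0, 8⟩]),
    (79, [⟨3, 0, 0, 0, 6⟩])]⟩,
   []⟩

/-- Claim TSa. -/
def c121 : Claim :=
  ⟨⟨⟨0, 0, 0, 0, 0⟩, ⟨0, 0, 0, 0, 0⟩, ⟨0, 0, 0, 0, 0⟩, ⟨0, 0, 0, 0, 0⟩, ⟨⟨120, 0, 0, 0, 0⟩, ⟨0, 0, 0, 0, 40⟩, ⟨0, 0, 0, 0, 0⟩, ⟨0, 0, 0, 0, 0⟩⟩⟩,
   [21, 24, 26, 28, 30, 32, 34, 22, 20, 23, 25, 27, 29, 31, 33, 35, 121, 10, 86, 87],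
   [29, 30, 31, 79, 80, 81, 82, 83, 84, 85, 86, 87, 88, 89, 90, 91, 92, 93, 94, 95, 96, 97, 98, 99, 100, 101, 102, 103, 104, 105, 106, 107],
   ⟨134, w101, [⟨0, 0, 0, 0, 0⟩], [⟨7, 0, 0, 0, 13⟩],
    [(6, [⟨6, 0, 0, 0, 14⟩]),
    (10, [⟨5, 0, 0, 0, 15⟩]),
    (20, [⟨5, 0, 0, 0, 13⟩]),
    (21, [⟨5, 0, 0, 0, 14⟩]),
    (22, [⟨5, 0, 0, 0, 14⟩]),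
    (23, [⟨5, 0, 0, 0, 13⟩]),
    (24, [⟨5, 0, 0, 0, 13⟩]),
    (25, [⟨5, 0, 0, 0, 12⟩]),
    (26, [⟨5, 0, 0, 0, 12⟩]),
    (27, [⟨5, 0, 0, 0, 12⟩]),
    (28, [⟨5, 0, 0, 0, 11⟩]),
    (29, [⟨5, 0, 0, 0, 11⟩]),
    (30, [⟨5, 0, 0, 0, 10⟩]),
    (31, [⟨5, 0, 0, 0, 12⟩]),
    (32, [⟨5, 0, 0, 0, 11⟩]),
    (33, [⟨5, 0, 0, 0, 10⟩]),
    (34, [⟨5, 0, 0, 0, 10⟩]),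
    (35, [⟨5, 0, 0, 0, 13⟩]),
    (86, [⟨6, 0, 0, 0, 13⟩]),
    (87, [⟨5, 0, 0, 0, 16⟩]),
    (121, [⟨5, 0, 0, 0, 14⟩])],
    [(6, [⟨6, 0, 0, 0, 14⟩]),
    (86, [⟨6, 0, 0, 0, 15⟩]),
    (87, [⟨7, 0, 0, 0, 12⟩])]⟩,
   ⟨18, w61, [⟨0, 0, 0, 0, 0⟩], [⟨11, 0, 0, 0, 23⟩],
    [(6, [⟨11, 0, 0, 0, 21⟩]),
    (9, [⟨11, 0, 0, 0, 23⟩]),
    (10, [⟨11, 0, 0, 0, 21⟩]),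
    (11, [⟨11, 0, 0, 0, 21⟩]),
    (20, [⟨11, 0, 0, 0, 21⟩]),
    (21, [⟨11, 0, 0, 0, 21⟩]),
    (22, [⟨11, 0, 0, 0, 21⟩]),
    (23, [⟨11, 0, 0, 0, 21⟩]),
    (24, [⟨11, 0, 0, 0, 21⟩]),
    (25, [⟨11, 0, 0, 0, 21⟩]),
    (26, [⟨11, 0, 0, 0, 21⟩]),
    (27, [⟨11, 0, 0, 0, 21⟩]),
    (28, [⟨11, 0, 0, 0, 21⟩]),
    (29, [⟨11, 0, 0, 0, 21⟩]),
    (30, [⟨11, 0, 0, 0, 21⟩]),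
    (31, [⟨11, 0, 0, 0, 21⟩]),
    (32, [⟨11, 0, 0, 0, 21⟩]),
    (33, [⟨11, 0, 0, 0, 21⟩]),
    (34, [⟨11, 0, 0, 0, 22⟩]),
    (35, [⟨11, 0, 0, 0, 22⟩]),
    (86, [⟨11, 0, 0, 0, 21⟩]),
    (87, [⟨11, 0, 0, 0, 21⟩]),
    (121, [⟨11, 0, 0, 0, 22⟩])],
    [(11, [⟨11, 0, 0, 0, 21⟩]),
    (20, [⟨11, 0, 0, 0, 22⟩]),
    (33, [⟨11, 0, 0, 0, 22⟩])]⟩,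
   []⟩

/-- Claim TSb. -/
def c122 : Claim :=
  ⟨⟨⟨0, 0, 0, 0, 0⟩, ⟨0, 0, 0, 0, 0⟩, ⟨0, 0, 0, 0, 0⟩, ⟨0, 0, 0, 0, 0⟩, ⟨⟨120, 0, 0, 0, 0⟩, ⟨0, 0, 0, 0, 41⟩, ⟨0, 0, 0, 0, 0⟩, ⟨0, 0, 0, 0, 0⟩⟩⟩,
   [21, 24, 26, 28, 30, 32, 34, 22, 20, 23, 25, 27, 29, 31, 33, 35, 121, 10, 86, 87],
   [29, 30, 31, 79, 80, 81, 82, 83, 84, 85, 86, 87, 88, 89, 90, 91, 92, 93, 94, 95, 96, 97, 98, 99, 100, 101, 102, 103, 104, 105, 106, 107],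
   ⟨143, w102, [⟨0, 0, 0, 0, 0⟩], [⟨6, 0, 0, 0, 8⟩],
    [(6, [⟨5, 0, 0, 0, 9⟩]),
    (10, [⟨4, 0, 0, 0, 10⟩]),
    (20, [⟨4, 0, 0, 0, 8⟩]),
    (21, [⟨4, 0, 0, 0, 9⟩]),
    (22, [⟨4, 0, 0, 0, 9⟩]),
    (23, [⟨4, 0, 0, 0, 8⟩]),
    (24, [⟨4, 0, 0, 0, 8⟩]),
    (25, [⟨4, 0, 0, 0, 7⟩]),
    (26, [⟨4, 0, 0, 0, 7⟩]),
    (27, [⟨4, 0, 0, 0, 7⟩]),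
    (28, [⟨4, 0, 0, 0, 6⟩]),
    (29, [⟨4, 0, 0, 0, 6⟩]),
    (30, [⟨4, 0, 0, 0, 5⟩]),
    (31, [⟨4, 0, 0, 0, 7⟩]),
    (32, [⟨4, 0, 0, 0, 6⟩]),
    (33, [⟨4, 0, 0, 0, 5⟩]),
    (34, [⟨4, 0, 0, 0, 5⟩]),
    (35, [⟨4, 0, 0, 0, 8⟩]),
    (86, [⟨5, 0, 0, 0, 8⟩]),
    (87, [⟨4, 0, 0, 0, 11⟩]),
    (121, [⟨4, 0, 0, 0, 9⟩])],
    [(6, [⟨5, 0, 0, 0, 9⟩]),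
    (86, [⟨5, 0, 0, 0, 10⟩]),
    (87, [⟨6, 0, 0, 0, 7⟩])]⟩,
   ⟨18, w61, [⟨0, 0, 0, 0, 0⟩], [⟨11, 0, 0, 0, 23⟩],
    [(6, [⟨11, 0, 0, 0, 21⟩]),
    (9, [⟨11, 0, 0, 0, 23⟩]),
    (10, [⟨11, 0, 0, 0, 21⟩]),
    (11, [⟨11, 0, 0, 0, 21⟩]),
    (20, [⟨11, 0, 0, 0, 21⟩]),
    (21, [⟨11, 0, 0, 0, 21⟩]),
    (22, [⟨11, 0, 0, 0, 21⟩]),
    (23, [⟨11, 0, 0, 0, 21⟩]),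
    (24, [⟨11, 0, 0, 0, 21⟩]),
    (25, [⟨11, 0, 0, 0, 21⟩]),
    (26, [⟨11, 0, 0, 0, 21⟩]),
    (27, [⟨11, 0, 0, 0, 21⟩]),
    (28, [⟨11, 0, 0, 0, 21⟩]),
    (29, [⟨11, 0, 0, 0, 21⟩]),
    (30, [⟨11, 0, 0, 0, 21⟩]),
    (31, [⟨11, 0, 0, 0, 21⟩]),
    (32, [⟨11, 0, 0, 0, 21⟩]),
    (33, [⟨11, 0, 0, 0, 21⟩]),
    (34, [⟨11, 0, 0, 0, 22⟩]),
    (35, [⟨11, 0, 0, 0, 22⟩]),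
    (86, [⟨11, 0, 0, 0, 21⟩]),
    (87, [⟨11, 0, 0, 0, 21⟩]),
    (121, [⟨11, 0, 0, 0, 22⟩])],
    [(11, [⟨11, 0, 0, 0, 21⟩]),
    (20, [⟨11, 0, 0, 0, 22⟩]),
    (33, [⟨11, 0, 0, 0, 22⟩])]⟩,
   []⟩

/-- Claim trap19_Tp1@0_Tp2@0. -/
def c123 : Claim :=
  ⟨⟨⟨0, 0, 0, 0, 0⟩, ⟨0, 0, 0, 0, 0⟩, ⟨0, 0, 0, 0, 0⟩, ⟨0, 0, 0, 0, 0⟩, ⟨⟨0, 0, 0, 0, 0⟩, ⟨0, 0, 0, 0, 0⟩, ⟨0, 0, 0, 0, 0⟩, ⟨0, 0, 0, 0, 0⟩⟩⟩,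
   [84, 85],
   [26, 27, 28],
   ⟨226, w103, [⟨0, 0, 0, 0, 0⟩], [⟨7, 0, 0, 0, 11⟩],
    [(6, [⟨4, 0, 0, 0, 5⟩]),
    (7, [⟨1, 0, 0, 0, -1⟩]),
    (84, [⟨4, 0, 0, 0, 4⟩]),
    (85, [⟨1, 0, 0, 0, 0⟩])],
    [(6, [⟨4, 0, 0, 0, 5⟩]),
    (7, [⟨7, 0, 0, 0, 11⟩]),
    (84, [⟨4, 0, 0, 0, 6⟩]),
    (85, [⟨7, 0, 0, 0, 10⟩])]⟩,
   ⟨102, w104, [⟨0, 0, 0, 0, 0⟩], [⟨6, 0, 0, 0, 13⟩],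
    [(6, [⟨1, 0, 0, 0, -1⟩]),
    (7, [⟨4, 0, 0, 0, 5⟩]),
    (84, [⟨1, 0, 0, 0, 0⟩]),
    (85, [⟨4, 0, 0, 0, 4⟩])],
    [(6, [⟨7, 0, 0, 0, 11⟩]),
    (7, [⟨4, 0, 0, 0, 5⟩]),
    (84, [⟨7, 0, 0, 0, 10⟩]),
    (85, [⟨4, 0, 0, 0, 6⟩])]⟩,
   []⟩

/-- Claim S1. -/
def c124 : Claim :=
  ⟨⟨⟨0, 0, 0, 0, 0⟩, ⟨0, 0, 0, 0, 0⟩, ⟨0, 0, 0, 0, 0⟩, ⟨0, 0, 0, 0, 0⟩, ⟨⟨120, 0, 0, 0, 0⟩, ⟨0, 0, 0, 0, 42⟩, ⟨0, 0, 0, 0, 0⟩, ⟨0, 0, 0, 0, 0⟩⟩⟩,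
   [0, 1, 2, 3, 4, 5, 6, 8, 10, 12, 13, 14, 15, 16, 17, 20, 21, 22, 23, 24, 25, 26, 27, 28, 29, 30, 31, 32, 33, 34, 35, 36, 37, 38, 39, 40, 41, 42, 43, 44, 45, 46, 47, 48, 49, 50, 51, 52, 53, 54, 55, 56, 57, 58, 59, 60, 61, 62, 63, 64, 67, 68, 69, 70, 71, 72, 73, 74, 75, 76, 77, 78, 79, 80, 81, 82, 83, 84, 85, 86, 87, 90, 91, 92, 93, 94, 95, 96, 97, 98, 99, 100, 103, 104, 105, 106, 107, 108, 109, 110, 111, 112, 113, 114, 115, 116, 117, 118, 121, 123, 124, 127, 128, 130, 132, 133, 134, 135, 136, 137, 138, 139, 140, 141, 142, 143, 144, 145, 146, 147, 148, 149, 150, 151, 152, 153, 154, 155, 156, 157, 158, 159, 160, 161, 162, 163, 164, 165, 166, 167, 168, 169, 170, 171, 172, 173, 174,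 175, 176, 177, 178, 179, 180, 181, 182, 183, 184, 185, 186, 187, 188, 189, 190, 191, 192, 195, 196, 199, 200, 201, 202, 203, 204, 205, 206, 207, 208, 209, 210, 211, 212, 213, 214, 215, 216, 217, 218, 219, 220, 221, 222, 223, 224, 225, 226, 227, 228, 229, 230, 231, 232, 233, 234, 235, 236, 237, 238, 239, 240, 241, 242, 243, 244, 245, 246, 247, 248, 249],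
   [0, 1, 2, 3, 4, 5, 6, 7, 8, 9, 10, 11, 12, 13, 14, 15, 16, 17, 18, 19, 20, 21, 22, 23, 24, 25, 26, 27, 28, 29, 30, 31, 35, 36, 37, 38, 39, 40, 41, 42, 43, 44, 45, 46, 47, 48, 49, 50, 54, 55, 56, 57, 58, 59, 60, 61, 62, 63, 64, 65, 66, 67, 68, 69, 70, 71, 72, 73, 74, 75, 79, 80, 81, 82, 83, 84, 85, 86, 87, 88, 89, 90, 91, 92, 93, 94, 95, 96, 97, 98, 99, 100, 101, 102, 103, 104, 105, 106, 107, 110, 111, 112, 113, 114, 115, 116, 117, 118, 119, 120, 121, 122, 123, 124, 125, 126, 127, 128, 129, 130, 131, 132, 133, 134, 135, 136, 137, 138, 139, 140, 141, 142, 143, 144, 145, 146, 147, 148, 149, 150, 151, 152, 153, 154, 155, 156, 157, 158, 159, 160, 161, 162, 166, 167, 169, 173, 174,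 175, 179, 180, 181, 182, 183, 184, 185, 186, 187, 188, 189, 190, 191, 192, 193, 194, 195, 196, 197, 198, 199, 200, 201, 202, 203, 204, 205, 206, 207, 208, 209, 210, 211, 212, 213, 214, 215, 216, 217, 218, 219, 220, 221, 222, 223, 224, 225, 226, 227, 228, 229, 230, 231, 232, 233, 234, 235, 236, 237, 238, 239, 240, 241, 242, 243, 244, 245, 246, 247, 248, 249, 250, 251, 252, 253, 254, 255, 256, 257, 258, 259, 260, 261, 262, 263, 264, 265, 266, 267, 268, 269, 270, 271, 272, 273, 274, 275, 276, 277, 278, 279, 280, 281, 282, 283, 284, 285, 286, 287, 288, 289, 290, 291, 292, 293, 294, 295, 296, 297, 298, 299, 300, 301, 302, 303, 304, 305, 306, 307, 308, 309, 310, 311, 312, 313, 314, 315,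 316, 317, 318, 319, 320, 321, 322, 323, 324, 325, 326, 327, 328, 329, 330, 331, 332, 333, 334, 335],
   ⟨143, w77, [⟨0, 0, 0, 0, 0⟩], [⟨11, 0, 0, 0, 23⟩],
    [],
    [(0, [⟨4, 0, 0, 0, 8⟩]),
    (1, [⟨4, 0, 0, 0, 9⟩]),
    (2, [⟨7, 0, 0, 0, 15⟩]),
    (3, [⟨7, 0, 0, 0, 16⟩]),
    (4, [⟨1, 0, 0, 0, 4⟩]),
    (5, [⟨4, 0, 0, 0, 11⟩]),
    (6, [⟨5, 0, 0, 0, 9⟩]),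
    (7, [⟨8, 0, 0, 0, 15⟩]),
    (8, [⟨5, 0, 0, 0, 9⟩]),
    (9, [⟨6, 0, 0, 0, 10⟩]),
    (10, [⟨6, 0, 0, 0, 8⟩]),
    (11, [⟨6, 0, 0, 0, 11⟩]),
    (12, [⟨10, 0, 0, 0, 16⟩]),
    (13, [⟨11, 0, 0, 0, 23⟩]),
    (14, [⟨10, 0, 0, 0, 16⟩]),
    (15, [⟨10, 0, 0, 0, 14⟩]),
    (16, [⟨10, 0, 0, 0, 17⟩]),
    (17, [⟨9, 0, 0, 0, 14⟩]),
    (18, [⟨9, 0, 0, 0, 17⟩]),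
    (19, [⟨9, 0, 0, 0, 14⟩]),
    (20, [⟨6, 0, 0, 0, 10⟩]),
    (21, [⟨6, 0, 0, 0, 9⟩]),
    (22, [⟨6, 0, 0, 0, 9⟩]),
    (23, [⟨6, 0, 0, 0, 10⟩]),
    (24, [⟨6, 0, 0, 0, 10⟩]),
    (25, [⟨6, 0, 0, 0, 11⟩]),
    (26, [⟨6, 0, 0, 0, 11⟩]),
    (27, [⟨6, 0, 0, 0, 11⟩]),
    (28, [⟨6, 0, 0, 0, 12⟩]),
    (29, [⟨6, 0, 0, 0, 12⟩]),
    (30, [⟨6, 0, 0, 0, 13⟩]),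
    (31, [⟨6, 0, 0, 0, 11⟩]),
    (32, [⟨6, 0, 0, 0, 12⟩]),
    (33, [⟨6, 0, 0, 0, 12⟩]),
    (34, [⟨6, 0, 0, 0, 11⟩]),
    (35, [⟨6, 0, 0, 0, 10⟩]),
    (36, [⟨10, 0, 0, 0, 16⟩]),
    (37, [⟨10, 0, 0, 0, 15⟩]),
    (38, [⟨10, 0, 0, 0, 15⟩]),
    (39, [⟨10, 0, 0, 0, 16⟩]),
    (40, [⟨10, 0, 0, 0, 16⟩]),
    (41, [⟨10, 0, 0, 0, 17⟩]),
    (42, [⟨10, 0, 0, 0, 17⟩]),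
    (43, [⟨10, 0, 0, 0, 17⟩]),
    (44, [⟨10, 0, 0, 0, 18⟩]),
    (45, [⟨10, 0, 0, 0, 18⟩]),
    (46, [⟨10, 0, 0, 0, 19⟩]),
    (47, [⟨10, 0, 0, 0, 17⟩]),
    (48, [⟨10, 0, 0, 0, 18⟩]),
    (49, [⟨10, 0, 0, 0, 18⟩]),
    (50, [⟨10, 0, 0, 0, 17⟩]),
    (51, [⟨10, 0, 0, 0, 16⟩]),
    (52, [⟨9, 0, 0, 0, 16⟩]),
    (53, [⟨9, 0, 0, 0, 15⟩]),
    (54, [⟨9, 0, 0, 0, 15⟩]),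
    (55, [⟨9, 0, 0, 0, 16⟩]),
    (56, [⟨9, 0, 0, 0, 16⟩]),
    (57, [⟨9, 0, 0, 0, 17⟩]),
    (58, [⟨9, 0, 0, 0, 17⟩]),
    (59, [⟨9, 0, 0, 0, 17⟩]),
    (60, [⟨9, 0, 0, 0, 18⟩]),
    (61, [⟨9, 0, 0, 0, 17⟩]),
    (62, [⟨9, 0, 0, 0, 17⟩]),
    (63, [⟨9, 0, 0, 0, 16⟩]),
    (64, [⟨9, 0, 0, 0, 16⟩]),
    (65, [⟨9, 0, 0, 0, 16⟩]),
    (66, [⟨9, 0, 0, 0, 15⟩]),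
    (67, [⟨9, 0, 0, 0, 15⟩]),
    (68, [⟨4, 0, 0, 0, 7⟩]),
    (69, [⟨1, 0, 0, 0, 5⟩]),
    (70, [⟨7, 0, 0, 0, 14⟩]),
    (71, [⟨4, 0, 0, 0, 12⟩]),
    (72, [⟨4, 0, 0, 0, 10⟩]),
    (73, [⟨5, 0, 0, 0, 8⟩]),
    (74, [⟨7, 0, 0, 0, 17⟩]),
    (75, [⟨8, 0, 0, 0, 15⟩]),
    (76, [⟨4, 0, 0, 0, 10⟩]),
    (77, [⟨7, 0, 0, 0, 14⟩]),
    (78, [⟨4, 0, 0, 0, 10⟩]),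
    (79, [⟨5, 0, 0, 0, 8⟩]),
    (80, [⟨5, 0, 0, 0, 10⟩]),
    (81, [⟨7, 0, 0, 0, 16⟩]),
    (82, [⟨5, 0, 0, 0, 10⟩]),
    (83, [⟨6, 0, 0, 0, 9⟩]),
    (84, [⟨5, 0, 0, 0, 10⟩]),
    (85, [⟨8, 0, 0, 0, 14⟩]),
    (86, [⟨5, 0, 0, 0, 10⟩]),
    (87, [⟨6, 0, 0, 0, 7⟩]),
    (90, [⟨7, 0, 0, 0, 17⟩]),
    (91, [⟨8, 0, 0, 0, 17⟩]),
    (92, [⟨10, 0, 0, 0, 15⟩]),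
    (93, [⟨10, 0, 0, 0, 17⟩]),
    (94, [⟨11, 0, 0, 0, 18⟩]),
    (95, [⟨10, 0, 0, 0, 17⟩]),
    (96, [⟨11, 0, 0, 0, 23⟩]),
    (97, [⟨11, 0, 0, 0, 23⟩]),
    (98, [⟨11, 0, 0, 0, 18⟩]),
    (99, [⟨11, 0, 0, 0, 23⟩]),
    (100, [⟨10, 0, 0, 0, 17⟩]),
    (103, [⟨8, 0, 0, 0, 16⟩]),
    (104, [⟨10, 0, 0, 0, 13⟩]),
    (105, [⟨10, 0, 0, 0, 18⟩]),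
    (106, [⟨11, 0, 0, 0, 23⟩]),
    (107, [⟨1, 0, 0, 0, 5⟩]),
    (108, [⟨4, 0, 0, 0, 10⟩]),
    (109, [⟨4, 0, 0, 0, 12⟩]),
    (110, [⟨8, 0, 0, 0, 14⟩]),
    (111, [⟨9, 0, 0, 0, 13⟩]),
    (112, [⟨1, 0, 0, 0, 5⟩]),
    (113, [⟨9, 0, 0, 0, 18⟩]),
    (114, [⟨9, 0, 0, 0, 19⟩]),
    (115, [⟨9, 0, 0, 0, 19⟩]),
    (116, [⟨9, 0, 0, 0, 18⟩]),
    (117, [⟨9, 0, 0, 0, 17⟩]),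
    (118, [⟨4, 0, 0, 0, 12⟩]),
    (121, [⟨6, 0, 0, 0, 9⟩]),
    (123, [⟨10, 0, 0, 0, 15⟩]),
    (124, [⟨10, 0, 0, 0, 17⟩]),
    (125, [⟨11, 0, 0, 0, 17⟩]),
    (126, [⟨11, 0, 0, 0, 18⟩]),
    (127, [⟨8, 0, 0, 0, 15⟩]),
    (128, [⟨8, 0, 0, 0, 16⟩]),
    (129, [⟨8, 0, 0, 0, 13⟩]),
    (130, [⟨5, 0, 0, 0, 11⟩]),
    (131, [⟨11, 0, 0, 0, 23⟩]),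
    (132, [⟨9, 0, 0, 0, 15⟩]),
    (133, [⟨10, 0, 0, 0, 23⟩]),
    (134, [⟨11, 0, 0, 0, 23⟩]),
    (135, [⟨11, 0, 0, 0, 23⟩]),
    (136, [⟨11, 0, 0, 0, 21⟩]),
    (137, [⟨7, 0, 0, 0, 13⟩]),
    (138, [⟨7, 0, 0, 0, 12⟩]),
    (139, [⟨9, 0, 0, 0, 13⟩]),
    (140, [⟨9, 0, 0, 0, 15⟩]),
    (141, [⟨9, 0, 0, 0, 13⟩]),
    (142, [⟨0, 0, 0, 0, 3⟩]),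
    (143, [⟨0, 0, 0, 0, 0⟩]),
    (144, [⟨0, 0, 0, 0, 3⟩]),
    (145, [⟨11, 0, 0, 0, 22⟩]),
    (146, [⟨11, 0, 0, 0, 23⟩]),
    (147, [⟨11, 0, 0, 0, 23⟩]),
    (148, [⟨11, 0, 0, 0, 23⟩]),
    (149, [⟨11, 0, 0, 0, 23⟩]),
    (150, [⟨11, 0, 0, 0, 23⟩]),
    (151, [⟨11, 0, 0, 0, 23⟩]),
    (152, [⟨11, 0, 0, 0, 23⟩]),
    (153, [⟨11, 0, 0, 0, 23⟩]),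
    (154, [⟨11, 0, 0, 0, 23⟩]),
    (155, [⟨11, 0, 0, 0, 23⟩]),
    (156, [⟨11, 0, 0, 0, 23⟩]),
    (157, [⟨11, 0, 0, 0, 23⟩]),
    (158, [⟨11, 0, 0, 0, 22⟩]),
    (159, [⟨11, 0, 0, 0, 23⟩]),
    (160, [⟨11, 0, 0, 0, 23⟩]),
    (161, [⟨9, 0, 0, 0, 14⟩]),
    (162, [⟨9, 0, 0, 0, 15⟩]),
    (163, [⟨9, 0, 0, 0, 15⟩]),
    (164, [⟨9, 0, 0, 0, 16⟩]),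
    (165, [⟨9, 0, 0, 0, 16⟩]),
    (166, [⟨9, 0, 0, 0, 15⟩]),
    (167, [⟨9, 0, 0, 0, 16⟩]),
    (168, [⟨9, 0, 0, 0, 16⟩]),
    (169, [⟨9, 0, 0, 0, 17⟩]),
    (170, [⟨9, 0, 0, 0, 15⟩]),
    (171, [⟨9, 0, 0, 0, 16⟩]),
    (172, [⟨9, 0, 0, 0, 15⟩]),
    (173, [⟨9, 0, 0, 0, 15⟩]),
    (174, [⟨9, 0, 0, 0, 14⟩]),
    (175, [⟨9, 0, 0, 0, 14⟩]),
    (176, [⟨9, 0, 0, 0, 14⟩]),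
    (177, [⟨0, 0, 0, 0, 1⟩]),
    (178, [⟨0, 0, 0, 0, 2⟩]),
    (179, [⟨0, 0, 0, 0, 4⟩]),
    (180, [⟨0, 0, 0, 0, 4⟩]),
    (181, [⟨0, 0, 0, 0, 3⟩]),
    (182, [⟨0, 0, 0, 0, 2⟩]),
    (183, [⟨0, 0, 0, 0, 3⟩]),
    (184, [⟨0, 0, 0, 0, 5⟩]),
    (185, [⟨0, 0, 0, 0, 4⟩]),
    (186, [⟨0, 0, 0, 0, 2⟩]),
    (187, [⟨0, 0, 0, 0, 3⟩]),
    (188, [⟨0, 0, 0, 0, 4⟩]),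
    (189, [⟨0, 0, 0, 0, 3⟩]),
    (190, [⟨0, 0, 0, 0, 1⟩]),
    (191, [⟨0, 0, 0, 0, 2⟩]),
    (192, [⟨0, 0, 0, 0, 4⟩]),
    (195, [⟨8, 0, 0, 0, 14⟩]),
    (196, [⟨5, 0, 0, 0, 12⟩]),
    (199, [⟨8, 0, 0, 0, 17⟩]),
    (200, [⟨9, 0, 0, 0, 15⟩]),
    (201, [⟨11, 0, 0, 0, 19⟩]),
    (202, [⟨8, 0, 0, 0, 16⟩]),
    (203, [⟨11, 0, 0, 0, 19⟩]),
    (204, [⟨10, 0, 0, 0, 24⟩]),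
    (205, [⟨10, 0, 0, 0, 22⟩]),
    (206, [⟨8, 0, 0, 0, 16⟩]),
    (207, [⟨10, 0, 0, 0, 24⟩]),
    (208, [⟨11, 0, 0, 0, 23⟩]),
    (209, [⟨11, 0, 0, 0, 23⟩]),
    (210, [⟨9, 0, 0, 0, 16⟩]),
    (211, [⟨11, 0, 0, 0, 23⟩]),
    (212, [⟨11, 0, 0, 0, 23⟩]),
    (213, [⟨11, 0, 0, 0, 20⟩]),
    (214, [⟨9, 0, 0, 0, 16⟩]),
    (215, [⟨8, 0, 0, 0, 17⟩]),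
    (216, [⟨9, 0, 0, 0, 12⟩]),
    (217, [⟨7, 0, 0, 0, 14⟩]),
    (218, [⟨7, 0, 0, 0, 12⟩]),
    (219, [⟨4, 0, 0, 0, 9⟩]),
    (220, [⟨7, 0, 0, 0, 14⟩]),
    (221, [⟨7, 0, 0, 0, 13⟩]),
    (222, [⟨7, 0, 0, 0, 11⟩]),
    (223, [⟨4, 0, 0, 0, 9⟩]),
    (224, [⟨7, 0, 0, 0, 13⟩]),
    (225, [⟨9, 0, 0, 0, 12⟩]),
    (226, [⟨9, 0, 0, 0, 14⟩]),
    (227, [⟨5, 0, 0, 0, 10⟩]),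
    (228, [⟨9, 0, 0, 0, 16⟩]),
    (229, [⟨9, 0, 0, 0, 16⟩]),
    (230, [⟨9, 0, 0, 0, 12⟩]),
    (231, [⟨5, 0, 0, 0, 10⟩]),
    (232, [⟨8, 0, 0, 0, 14⟩]),
    (233, [⟨5, 0, 0, 0, 12⟩]),
    (234, [⟨5, 0, 0, 0, 12⟩]),
    (235, [⟨1, 0, 0, 0, 5⟩]),
    (236, [⟨0, 0, 0, 0, 4⟩]),
    (237, [⟨8, 0, 0, 0, 12⟩]),
    (238, [⟨0, 0, 0, 0, 1⟩]),
    (239, [⟨0, 0, 0, 0, 2⟩]),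
    (240, [⟨0, 0, 0, 0, 3⟩]),
    (241, [⟨0, 0, 0, 0, 4⟩]),
    (242, [⟨0, 0, 0, 0, 5⟩]),
    (243, [⟨5, 0, 0, 0, 10⟩]),
    (244, [⟨0, 0, 0, 0, 4⟩]),
    (245, [⟨1, 0, 0, 0, 3⟩]),
    (246, [⟨11, 0, 0, 0, 23⟩]),
    (247, [⟨11, 0, 0, 0, 22⟩]),
    (248, [⟨9, 0, 0, 0, 14⟩]),
    (249, [⟨9, 0, 0, 0, 14⟩])]⟩,
   ⟨18, w61, [⟨0, 0, 0, 0, 0⟩], [⟨11, 0, 0, 0, 23⟩],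
    [(0, [⟨11, 0, 0, 0, 17⟩]),
    (1, [⟨11, 0, 0, 0, 18⟩]),
    (2, [⟨8, 0, 0, 0, 15⟩]),
    (3, [⟨8, 0, 0, 0, 16⟩]),
    (4, [⟨8, 0, 0, 0, 13⟩]),
    (5, [⟨5, 0, 0, 0, 11⟩]),
    (6, [⟨11, 0, 0, 0, 23⟩]),
    (7, [⟨9, 0, 0, 0, 15⟩]),
    (8, [⟨10, 0, 0, 0, 23⟩]),
    (9, [⟨11, 0, 0, 0, 23⟩]),
    (10, [⟨11, 0, 0, 0, 23⟩]),
    (11, [⟨11, 0, 0, 0, 21⟩]),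
    (12, [⟨7, 0, 0, 0, 13⟩]),
    (13, [⟨7, 0, 0, 0, 12⟩]),
    (14, [⟨9, 0, 0, 0, 13⟩]),
    (15, [⟨9, 0, 0, 0, 15⟩]),
    (16, [⟨9, 0, 0, 0, 13⟩]),
    (17, [⟨0, 0, 0, 0, 3⟩]),
    (18, [⟨0, 0, 0, 0, 0⟩]),
    (19, [⟨0, 0, 0, 0, 3⟩]),
    (20, [⟨11, 0, 0, 0, 22⟩]),
    (21, [⟨11, 0, 0, 0, 23⟩]),
    (22, [⟨11, 0, 0, 0, 23⟩]),
    (23, [⟨11, 0, 0, 0, 23⟩]),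
    (24, [⟨11, 0, 0, 0, 23⟩]),
    (25, [⟨11, 0, 0, 0, 23⟩]),
    (26, [⟨11, 0, 0, 0, 23⟩]),
    (27, [⟨11, 0, 0, 0, 23⟩]),
    (28, [⟨11, 0, 0, 0, 23⟩]),
    (29, [⟨11, 0, 0, 0, 23⟩]),
    (30, [⟨11, 0, 0, 0, 23⟩]),
    (31, [⟨11, 0, 0, 0, 23⟩]),
    (32, [⟨11, 0, 0, 0, 23⟩]),
    (33, [⟨11, 0, 0, 0, 22⟩]),
    (34, [⟨11, 0, 0, 0, 23⟩]),
    (35, [⟨11, 0, 0, 0, 23⟩]),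
    (36, [⟨9, 0, 0, 0, 14⟩]),
    (37, [⟨9, 0, 0, 0, 15⟩]),
    (38, [⟨9, 0, 0, 0, 15⟩]),
    (39, [⟨9, 0, 0, 0, 16⟩]),
    (40, [⟨9, 0, 0, 0, 16⟩]),
    (41, [⟨9, 0, 0, 0, 15⟩]),
    (42, [⟨9, 0, 0, 0, 16⟩]),
    (43, [⟨9, 0, 0, 0, 16⟩]),
    (44, [⟨9, 0, 0, 0, 17⟩]),
    (45, [⟨9, 0, 0, 0, 15⟩]),
    (46, [⟨9, 0, 0, 0, 16⟩]),
    (47, [⟨9, 0, 0, 0, 15⟩]),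
    (48, [⟨9, 0, 0, 0, 15⟩]),
    (49, [⟨9, 0, 0, 0, 14⟩]),
    (50, [⟨9, 0, 0, 0, 14⟩]),
    (51, [⟨9, 0, 0, 0, 14⟩]),
    (52, [⟨0, 0, 0, 0, 1⟩]),
    (53, [⟨0, 0, 0, 0, 2⟩]),
    (54, [⟨0, 0, 0, 0, 4⟩]),
    (55, [⟨0, 0, 0, 0, 4⟩]),
    (56, [⟨0, 0, 0, 0, 3⟩]),
    (57, [⟨0, 0, 0, 0, 2⟩]),
    (58, [⟨0, 0, 0, 0, 3⟩]),
    (59, [⟨0, 0, 0, 0, 5⟩]),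
    (60, [⟨0, 0, 0, 0, 4⟩]),
    (61, [⟨0, 0, 0, 0, 2⟩]),
    (62, [⟨0, 0, 0, 0, 3⟩]),
    (63, [⟨0, 0, 0, 0, 4⟩]),
    (64, [⟨0, 0, 0, 0, 3⟩]),
    (65, [⟨0, 0, 0, 0, 1⟩]),
    (66, [⟨0, 0, 0, 0, 2⟩]),
    (67, [⟨0, 0, 0, 0, 4⟩]),
    (68, [⟨11, 0, 0, 0, 16⟩]),
    (69, [⟨8, 0, 0, 0, 14⟩]),
    (70, [⟨8, 0, 0, 0, 14⟩]),
    (71, [⟨5, 0, 0, 0, 12⟩]),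
    (72, [⟨11, 0, 0, 0, 19⟩]),
    (73, [⟨11, 0, 0, 0, 23⟩]),
    (74, [⟨8, 0, 0, 0, 17⟩]),
    (75, [⟨9, 0, 0, 0, 15⟩]),
    (76, [⟨11, 0, 0, 0, 19⟩]),
    (77, [⟨8, 0, 0, 0, 16⟩]),
    (78, [⟨11, 0, 0, 0, 19⟩]),
    (79, [⟨10, 0, 0, 0, 24⟩]),
    (80, [⟨10, 0, 0, 0, 22⟩]),
    (81, [⟨8, 0, 0, 0, 16⟩]),
    (82, [⟨10, 0, 0, 0, 24⟩]),
    (83, [⟨11, 0, 0, 0, 23⟩]),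
    (84, [⟨11, 0, 0, 0, 23⟩]),
    (85, [⟨9, 0, 0, 0, 16⟩]),
    (86, [⟨11, 0, 0, 0, 23⟩]),
    (87, [⟨11, 0, 0, 0, 23⟩]),
    (90, [⟨8, 0, 0, 0, 17⟩]),
    (91, [⟨9, 0, 0, 0, 12⟩]),
    (92, [⟨7, 0, 0, 0, 14⟩]),
    (93, [⟨7, 0, 0, 0, 12⟩]),
    (94, [⟨4, 0, 0, 0, 9⟩]),
    (95, [⟨7, 0, 0, 0, 14⟩]),
    (96, [⟨7, 0, 0, 0, 13⟩]),
    (97, [⟨7, 0, 0, 0, 11⟩]),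
    (98, [⟨4, 0, 0, 0, 9⟩]),
    (99, [⟨7, 0, 0, 0, 13⟩]),
    (100, [⟨9, 0, 0, 0, 12⟩]),
    (103, [⟨9, 0, 0, 0, 16⟩]),
    (104, [⟨9, 0, 0, 0, 16⟩]),
    (105, [⟨9, 0, 0, 0, 12⟩]),
    (106, [⟨5, 0, 0, 0, 10⟩]),
    (107, [⟨8, 0, 0, 0, 14⟩]),
    (108, [⟨5, 0, 0, 0, 12⟩]),
    (109, [⟨5, 0, 0, 0, 12⟩]),
    (110, [⟨1, 0, 0, 0, 5⟩]),
    (111, [⟨0, 0, 0, 0, 4⟩]),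
    (112, [⟨8, 0, 0, 0, 12⟩]),
    (113, [⟨0, 0, 0, 0, 1⟩]),
    (114, [⟨0, 0, 0, 0, 2⟩]),
    (115, [⟨0, 0, 0, 0, 3⟩]),
    (116, [⟨0, 0, 0, 0, 4⟩]),
    (117, [⟨0, 0, 0, 0, 5⟩]),
    (118, [⟨5, 0, 0, 0, 10⟩]),
    (121, [⟨11, 0, 0, 0, 23⟩]),
    (123, [⟨9, 0, 0, 0, 14⟩]),
    (124, [⟨9, 0, 0, 0, 14⟩]),
    (125, [⟨4, 0, 0, 0, 8⟩]),
    (126, [⟨4, 0, 0, 0, 9⟩]),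
    (127, [⟨7, 0, 0, 0, 15⟩]),
    (128, [⟨7, 0, 0, 0, 16⟩]),
    (129, [⟨1, 0, 0, 0, 4⟩]),
    (130, [⟨4, 0, 0, 0, 11⟩]),
    (131, [⟨5, 0, 0, 0, 9⟩]),
    (132, [⟨8, 0, 0, 0, 15⟩]),
    (133, [⟨5, 0, 0, 0, 9⟩]),
    (134, [⟨6, 0, 0, 0, 10⟩]),
    (135, [⟨6, 0, 0, 0, 8⟩]),
    (136, [⟨6, 0, 0, 0, 11⟩]),
    (137, [⟨10, 0, 0, 0, 16⟩]),
    (138, [⟨11, 0, 0, 0, 23⟩]),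
    (139, [⟨10, 0, 0, 0, 16⟩]),
    (140, [⟨10, 0, 0, 0, 14⟩]),
    (141, [⟨10, 0, 0, 0, 17⟩]),
    (142, [⟨9, 0, 0, 0, 14⟩]),
    (143, [⟨9, 0, 0, 0, 17⟩]),
    (144, [⟨9, 0, 0, 0, 14⟩]),
    (145, [⟨6, 0, 0, 0, 10⟩]),
    (146, [⟨6, 0, 0, 0, 9⟩]),
    (147, [⟨6, 0, 0, 0, 9⟩]),
    (148, [⟨6, 0, 0, 0, 10⟩]),
    (149, [⟨6, 0, 0, 0, 10⟩]),
    (150, [⟨6, 0, 0, 0, 11⟩]),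
    (151, [⟨6, 0, 0, 0, 11⟩]),
    (152, [⟨6, 0, 0, 0, 11⟩]),
    (153, [⟨6, 0, 0, 0, 12⟩]),
    (154, [⟨6, 0, 0, 0, 12⟩]),
    (155, [⟨6, 0, 0, 0, 13⟩]),
    (156, [⟨6, 0, 0, 0, 11⟩]),
    (157, [⟨6, 0, 0, 0, 12⟩]),
    (158, [⟨6, 0, 0, 0, 12⟩]),
    (159, [⟨6, 0, 0, 0, 11⟩]),
    (160, [⟨6, 0, 0, 0, 10⟩]),
    (161, [⟨10, 0, 0, 0, 16⟩]),
    (162, [⟨10, 0, 0, 0, 15⟩]),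
    (163, [⟨10, 0, 0, 0, 15⟩]),
    (164, [⟨10, 0, 0, 0, 16⟩]),
    (165, [⟨10, 0, 0, 0, 16⟩]),
    (166, [⟨10, 0, 0, 0, 17⟩]),
    (167, [⟨10, 0, 0, 0, 17⟩]),
    (168, [⟨10, 0, 0, 0, 17⟩]),
    (169, [⟨10, 0, 0, 0, 18⟩]),
    (170, [⟨10, 0, 0, 0, 18⟩]),
    (171, [⟨10, 0, 0, 0, 19⟩]),
    (172, [⟨10, 0, 0, 0, 17⟩]),
    (173, [⟨10, 0, 0, 0, 18⟩]),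
    (174, [⟨10, 0, 0, 0, 18⟩]),
    (175, [⟨10, 0, 0, 0, 17⟩]),
    (176, [⟨10, 0, 0, 0, 16⟩]),
    (177, [⟨9, 0, 0, 0, 16⟩]),
    (178, [⟨9, 0, 0, 0, 15⟩]),
    (179, [⟨9, 0, 0, 0, 15⟩]),
    (180, [⟨9, 0, 0, 0, 16⟩]),
    (181, [⟨9, 0, 0, 0, 16⟩]),
    (182, [⟨9, 0, 0, 0, 17⟩]),
    (183, [⟨9, 0, 0, 0, 17⟩]),
    (184, [⟨9, 0, 0, 0, 17⟩]),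
    (185, [⟨9, 0, 0, 0, 18⟩]),
    (186, [⟨9, 0, 0, 0, 17⟩]),
    (187, [⟨9, 0, 0, 0, 17⟩]),
    (188, [⟨9, 0, 0, 0, 16⟩]),
    (189, [⟨9, 0, 0, 0, 16⟩]),
    (190, [⟨9, 0, 0, 0, 16⟩]),
    (191, [⟨9, 0, 0, 0, 15⟩]),
    (192, [⟨9, 0, 0, 0, 15⟩]),
    (195, [⟨7, 0, 0, 0, 14⟩]),
    (196, [⟨4, 0, 0, 0, 12⟩]),
    (199, [⟨7, 0, 0, 0, 17⟩]),
    (200, [⟨8, 0, 0, 0, 15⟩]),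
    (201, [⟨4, 0, 0, 0, 10⟩]),
    (202, [⟨7, 0, 0, 0, 14⟩]),
    (203, [⟨4, 0, 0, 0, 10⟩]),
    (204, [⟨5, 0, 0, 0, 8⟩]),
    (205, [⟨5, 0, 0, 0, 10⟩]),
    (206, [⟨7, 0, 0, 0, 16⟩]),
    (207, [⟨5, 0, 0, 0, 10⟩]),
    (208, [⟨6, 0, 0, 0, 9⟩]),
    (209, [⟨5, 0, 0, 0, 10⟩]),
    (210, [⟨8, 0, 0, 0, 14⟩]),
    (211, [⟨5, 0, 0, 0, 10⟩]),
    (212, [⟨6, 0, 0, 0, 7⟩]),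
    (213, [⟨6, 0, 0, 0, 12⟩]),
    (214, [⟨8, 0, 0, 0, 16⟩]),
    (215, [⟨7, 0, 0, 0, 17⟩]),
    (216, [⟨8, 0, 0, 0, 17⟩]),
    (217, [⟨10, 0, 0, 0, 15⟩]),
    (218, [⟨10, 0, 0, 0, 17⟩]),
    (219, [⟨11, 0, 0, 0, 18⟩]),
    (220, [⟨10, 0, 0, 0, 17⟩]),
    (221, [⟨11, 0, 0, 0, 23⟩]),
    (222, [⟨11, 0, 0, 0, 23⟩]),
    (223, [⟨11, 0, 0, 0, 18⟩]),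
    (224, [⟨11, 0, 0, 0, 23⟩]),
    (225, [⟨10, 0, 0, 0, 17⟩]),
    (226, [⟨8, 0, 0, 0, 16⟩]),
    (227, [⟨11, 0, 0, 0, 23⟩]),
    (228, [⟨8, 0, 0, 0, 16⟩]),
    (229, [⟨10, 0, 0, 0, 13⟩]),
    (230, [⟨10, 0, 0, 0, 18⟩]),
    (231, [⟨11, 0, 0, 0, 23⟩]),
    (232, [⟨1, 0, 0, 0, 5⟩]),
    (233, [⟨4, 0, 0, 0, 10⟩]),
    (234, [⟨4, 0, 0, 0, 12⟩]),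
    (235, [⟨8, 0, 0, 0, 14⟩]),
    (236, [⟨9, 0, 0, 0, 13⟩]),
    (237, [⟨1, 0, 0, 0, 5⟩]),
    (238, [⟨9, 0, 0, 0, 18⟩]),
    (239, [⟨9, 0, 0, 0, 19⟩]),
    (240, [⟨9, 0, 0, 0, 19⟩]),
    (241, [⟨9, 0, 0, 0, 18⟩]),
    (242, [⟨9, 0, 0, 0, 17⟩]),
    (243, [⟨4, 0, 0, 0, 12⟩]),
    (244, [⟨9, 0, 0, 0, 13⟩]),
    (245, [⟨8, 0, 0, 0, 14⟩]),
    (246, [⟨6, 0, 0, 0, 9⟩]),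
    (247, [⟨6, 0, 0, 0, 11⟩]),
    (248, [⟨10, 0, 0, 0, 15⟩]),
    (249, [⟨10, 0, 0, 0, 17⟩])],
    [(0, [⟨11, 0, 0, 0, 17⟩]),
    (1, [⟨11, 0, 0, 0, 18⟩]),
    (2, [⟨8, 0, 0, 0, 15⟩]),
    (3, [⟨8, 0, 0, 0, 16⟩]),
    (4, [⟨8, 0, 0, 0, 13⟩]),
    (5, [⟨5, 0, 0, 0, 11⟩]),
    (6, [⟨11, 0, 0, 0, 23⟩]),
    (7, [⟨9, 0, 0, 0, 15⟩]),
    (8, [⟨10, 0, 0, 0, 23⟩]),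
    (9, [⟨11, 0, 0, 0, 23⟩]),
    (10, [⟨11, 0, 0, 0, 23⟩]),
    (11, [⟨11, 0, 0, 0, 21⟩]),
    (12, [⟨7, 0, 0, 0, 13⟩]),
    (13, [⟨7, 0, 0, 0, 12⟩]),
    (14, [⟨9, 0, 0, 0, 13⟩]),
    (15, [⟨9, 0, 0, 0, 15⟩]),
    (16, [⟨9, 0, 0, 0, 13⟩]),
    (17, [⟨0, 0, 0, 0, 3⟩]),
    (18, [⟨0, 0, 0, 0, 0⟩]),
    (19, [⟨0, 0, 0, 0, 3⟩]),
    (20, [⟨11, 0, 0, 0, 22⟩]),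
    (21, [⟨11, 0, 0, 0, 23⟩]),
    (22, [⟨11, 0, 0, 0, 23⟩]),
    (23, [⟨11, 0, 0, 0, 23⟩]),
    (24, [⟨11, 0, 0, 0, 23⟩]),
    (25, [⟨11, 0, 0, 0, 23⟩]),
    (26, [⟨11, 0, 0, 0, 23⟩]),
    (27, [⟨11, 0, 0, 0, 23⟩]),
    (28, [⟨11, 0, 0, 0, 23⟩]),
    (29, [⟨11, 0, 0, 0, 23⟩]),
    (30, [⟨11, 0, 0, 0, 23⟩]),
    (31, [⟨11, 0, 0, 0, 23⟩]),
    (32, [⟨11, 0, 0, 0, 23⟩]),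
    (33, [⟨11, 0, 0, 0, 22⟩]),
    (34, [⟨11, 0, 0, 0, 23⟩]),
    (35, [⟨11, 0, 0, 0, 23⟩]),
    (36, [⟨9, 0, 0, 0, 14⟩]),
    (37, [⟨9, 0, 0, 0, 15⟩]),
    (38, [⟨9, 0, 0, 0, 15⟩]),
    (39, [⟨9, 0, 0, 0, 16⟩]),
    (40, [⟨9, 0, 0, 0, 16⟩]),
    (41, [⟨9, 0, 0, 0, 15⟩]),
    (42, [⟨9, 0, 0, 0, 16⟩]),
    (43, [⟨9, 0, 0, 0, 16⟩]),
    (44, [⟨9, 0, 0, 0, 17⟩]),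
    (45, [⟨9, 0, 0, 0, 15⟩]),
    (46, [⟨9, 0, 0, 0, 16⟩]),
    (47, [⟨9, 0, 0, 0, 15⟩]),
    (48, [⟨9, 0, 0, 0, 15⟩]),
    (49, [⟨9, 0, 0, 0, 14⟩]),
    (50, [⟨9, 0, 0, 0, 14⟩]),
    (51, [⟨9, 0, 0, 0, 14⟩]),
    (52, [⟨0, 0, 0, 0, 1⟩]),
    (53, [⟨0, 0, 0, 0, 2⟩]),
    (54, [⟨0, 0, 0, 0, 4⟩]),
    (55, [⟨0, 0, 0, 0, 4⟩]),
    (56, [⟨0, 0, 0, 0, 3⟩]),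
    (57, [⟨0, 0, 0, 0, 2⟩]),
    (58, [⟨0, 0, 0, 0, 3⟩]),
    (59, [⟨0, 0, 0, 0, 5⟩]),
    (60, [⟨0, 0, 0, 0, 4⟩]),
    (61, [⟨0, 0, 0, 0, 2⟩]),
    (62, [⟨0, 0, 0, 0, 3⟩]),
    (63, [⟨0, 0, 0, 0, 4⟩]),
    (64, [⟨0, 0, 0, 0, 3⟩]),
    (65, [⟨0, 0, 0, 0, 1⟩]),
    (66, [⟨0, 0, 0, 0, 2⟩]),
    (67, [⟨0, 0, 0, 0, 4⟩]),
    (68, [⟨11, 0, 0, 0, 16⟩]),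
    (69, [⟨8, 0, 0, 0, 14⟩]),
    (70, [⟨8, 0, 0, 0, 14⟩]),
    (71, [⟨5, 0, 0, 0, 12⟩]),
    (72, [⟨11, 0, 0, 0, 19⟩]),
    (73, [⟨11, 0, 0, 0, 23⟩]),
    (74, [⟨8, 0, 0, 0, 17⟩]),
    (75, [⟨9, 0, 0, 0, 15⟩]),
    (76, [⟨11, 0, 0, 0, 19⟩]),
    (77, [⟨8, 0, 0, 0, 16⟩]),
    (78, [⟨11, 0, 0, 0, 19⟩]),
    (79, [⟨10, 0, 0, 0, 24⟩]),
    (80, [⟨10, 0, 0, 0, 22⟩]),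
    (81, [⟨8, 0, 0, 0, 16⟩]),
    (82, [⟨10, 0, 0, 0, 24⟩]),
    (83, [⟨11, 0, 0, 0, 23⟩]),
    (84, [⟨11, 0, 0, 0, 23⟩]),
    (85, [⟨9, 0, 0, 0, 16⟩]),
    (86, [⟨11, 0, 0, 0, 23⟩]),
    (87, [⟨11, 0, 0, 0, 23⟩]),
    (90, [⟨8, 0, 0, 0, 17⟩]),
    (91, [⟨9, 0, 0, 0, 12⟩]),
    (92, [⟨7, 0, 0, 0, 14⟩]),
    (93, [⟨7, 0, 0, 0, 12⟩]),
    (94, [⟨4, 0, 0, 0, 9⟩]),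
    (95, [⟨7, 0, 0, 0, 14⟩]),
    (96, [⟨7, 0, 0, 0, 13⟩]),
    (97, [⟨7, 0, 0, 0, 11⟩]),
    (98, [⟨4, 0, 0, 0, 9⟩]),
    (99, [⟨7, 0, 0, 0, 13⟩]),
    (100, [⟨9, 0, 0, 0, 12⟩]),
    (103, [⟨9, 0, 0, 0, 16⟩]),
    (104, [⟨9, 0, 0, 0, 16⟩]),
    (105, [⟨9, 0, 0, 0, 12⟩]),
    (106, [⟨5, 0, 0, 0, 10⟩]),
    (107, [⟨8, 0, 0, 0, 14⟩]),
    (108, [⟨5, 0, 0, 0, 12⟩]),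
    (109, [⟨5, 0, 0, 0, 12⟩]),
    (110, [⟨1, 0, 0, 0, 5⟩]),
    (111, [⟨0, 0, 0, 0, 4⟩]),
    (112, [⟨8, 0, 0, 0, 12⟩]),
    (113, [⟨0, 0, 0, 0, 1⟩]),
    (114, [⟨0, 0, 0, 0, 2⟩]),
    (115, [⟨0, 0, 0, 0, 3⟩]),
    (116, [⟨0, 0, 0, 0, 4⟩]),
    (117, [⟨0, 0, 0, 0, 5⟩]),
    (118, [⟨5, 0, 0, 0, 10⟩]),
    (121, [⟨11, 0, 0, 0, 23⟩]),
    (123, [⟨9, 0, 0, 0, 14⟩]),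
    (124, [⟨9, 0, 0, 0, 14⟩]),
    (125, [⟨4, 0, 0, 0, 8⟩]),
    (126, [⟨4, 0, 0, 0, 9⟩]),
    (127, [⟨7, 0, 0, 0, 15⟩]),
    (128, [⟨7, 0, 0, 0, 16⟩]),
    (129, [⟨1, 0, 0, 0, 4⟩]),
    (130, [⟨4, 0, 0, 0, 11⟩]),
    (131, [⟨5, 0, 0, 0, 9⟩]),
    (132, [⟨8, 0, 0, 0, 15⟩]),
    (133, [⟨5, 0, 0, 0, 9⟩]),
    (134, [⟨6, 0, 0, 0, 10⟩]),
    (135, [⟨6, 0, 0, 0, 8⟩]),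
    (136, [⟨6, 0, 0, 0, 11⟩]),
    (137, [⟨10, 0, 0, 0, 16⟩]),
    (138, [⟨11, 0, 0, 0, 23⟩]),
    (139, [⟨10, 0, 0, 0, 16⟩]),
    (140, [⟨10, 0, 0, 0, 14⟩]),
    (141, [⟨10, 0, 0, 0, 17⟩]),
    (142, [⟨9, 0, 0, 0, 14⟩]),
    (143, [⟨9, 0, 0, 0, 17⟩]),
    (144, [⟨9, 0, 0, 0, 14⟩]),
    (145, [⟨6, 0, 0, 0, 10⟩]),
    (146, [⟨6, 0, 0, 0, 9⟩]),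
    (147, [⟨6, 0, 0, 0, 9⟩]),
    (148, [⟨6, 0, 0, 0, 10⟩]),
    (149, [⟨6, 0, 0, 0, 10⟩]),
    (150, [⟨6, 0, 0, 0, 11⟩]),
    (151, [⟨6, 0, 0, 0, 11⟩]),
    (152, [⟨6, 0, 0, 0, 11⟩]),
    (153, [⟨6, 0, 0, 0, 12⟩]),
    (154, [⟨6, 0, 0, 0, 12⟩]),
    (155, [⟨6, 0, 0, 0, 13⟩]),
    (156, [⟨6, 0, 0, 0, 11⟩]),
    (157, [⟨6, 0, 0, 0, 12⟩]),
    (158, [⟨6, 0, 0, 0, 12⟩]),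
    (159, [⟨6, 0, 0, 0, 11⟩]),
    (160, [⟨6, 0, 0, 0, 10⟩]),
    (161, [⟨10, 0, 0, 0, 16⟩]),
    (162, [⟨10, 0, 0, 0, 15⟩]),
    (163, [⟨10, 0, 0, 0, 15⟩]),
    (164, [⟨10, 0, 0, 0, 16⟩]),
    (165, [⟨10, 0, 0, 0, 16⟩]),
    (166, [⟨10, 0, 0, 0, 17⟩]),
    (167, [⟨10, 0, 0, 0, 17⟩]),
    (168, [⟨10, 0, 0, 0, 17⟩]),
    (169, [⟨10, 0, 0, 0, 18⟩]),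
    (170, [⟨10, 0, 0, 0, 18⟩]),
    (171, [⟨10, 0, 0, 0, 19⟩]),
    (172, [⟨10, 0, 0, 0, 17⟩]),
    (173, [⟨10, 0, 0, 0, 18⟩]),
    (174, [⟨10, 0, 0, 0, 18⟩]),
    (175, [⟨10, 0, 0, 0, 17⟩]),
    (176, [⟨10, 0, 0, 0, 16⟩]),
    (177, [⟨9, 0, 0, 0, 16⟩]),
    (178, [⟨9, 0, 0, 0, 15⟩]),
    (179, [⟨9, 0, 0, 0, 15⟩]),
    (180, [⟨9, 0, 0, 0, 16⟩]),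
    (181, [⟨9, 0, 0, 0, 16⟩]),
    (182, [⟨9, 0, 0, 0, 17⟩]),
    (183, [⟨9, 0, 0, 0, 17⟩]),
    (184, [⟨9, 0, 0, 0, 17⟩]),
    (185, [⟨9, 0, 0, 0, 18⟩]),
    (186, [⟨9, 0, 0, 0, 17⟩]),
    (187, [⟨9, 0, 0, 0, 17⟩]),
    (188, [⟨9, 0, 0, 0, 16⟩]),
    (189, [⟨9, 0, 0, 0, 16⟩]),
    (190, [⟨9, 0, 0, 0, 16⟩]),
    (191, [⟨9, 0, 0, 0, 15⟩]),
    (192, [⟨9, 0, 0, 0, 15⟩]),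
    (195, [⟨7, 0, 0, 0, 14⟩]),
    (196, [⟨4, 0, 0, 0, 12⟩]),
    (199, [⟨7, 0, 0, 0, 17⟩]),
    (200, [⟨8, 0, 0, 0, 15⟩]),
    (201, [⟨4, 0, 0, 0, 10⟩]),
    (202, [⟨7, 0, 0, 0, 14⟩]),
    (203, [⟨4, 0, 0, 0, 10⟩]),
    (204, [⟨5, 0, 0, 0, 8⟩]),
    (205, [⟨5, 0, 0, 0, 10⟩]),
    (206, [⟨7, 0, 0, 0, 16⟩]),
    (207, [⟨5, 0, 0, 0, 10⟩]),
    (208, [⟨6, 0, 0, 0, 9⟩]),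
    (209, [⟨5, 0, 0, 0, 10⟩]),
    (210, [⟨8, 0, 0, 0, 14⟩]),
    (211, [⟨5, 0, 0, 0, 10⟩]),
    (212, [⟨6, 0, 0, 0, 7⟩]),
    (213, [⟨6, 0, 0, 0, 12⟩]),
    (214, [⟨8, 0, 0, 0, 16⟩]),
    (215, [⟨7, 0, 0, 0, 17⟩]),
    (216, [⟨8, 0, 0, 0, 17⟩]),
    (217, [⟨10, 0, 0, 0, 15⟩]),
    (218, [⟨10, 0, 0, 0, 17⟩]),
    (219, [⟨11, 0, 0, 0, 18⟩]),
    (220, [⟨10, 0, 0, 0, 17⟩]),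
    (221, [⟨11, 0, 0, 0, 23⟩]),
    (222, [⟨11, 0, 0, 0, 23⟩]),
    (223, [⟨11, 0, 0, 0, 18⟩]),
    (224, [⟨11, 0, 0, 0, 23⟩]),
    (225, [⟨10, 0, 0, 0, 17⟩]),
    (226, [⟨8, 0, 0, 0, 16⟩]),
    (227, [⟨11, 0, 0, 0, 23⟩]),
    (228, [⟨8, 0, 0, 0, 16⟩]),
    (229, [⟨10, 0, 0, 0, 13⟩]),
    (230, [⟨10, 0, 0, 0, 18⟩]),
    (231, [⟨11, 0, 0, 0, 23⟩]),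
    (232, [⟨1, 0, 0, 0, 5⟩]),
    (233, [⟨4, 0, 0, 0, 10⟩]),
    (234, [⟨4, 0, 0, 0, 12⟩]),
    (235, [⟨8, 0, 0, 0, 14⟩]),
    (236, [⟨9, 0, 0, 0, 13⟩]),
    (237, [⟨1, 0, 0, 0, 5⟩]),
    (238, [⟨9, 0, 0, 0, 18⟩]),
    (239, [⟨9, 0, 0, 0, 19⟩]),
    (240, [⟨9, 0, 0, 0, 19⟩]),
    (241, [⟨9, 0, 0, 0, 18⟩]),
    (242, [⟨9, 0, 0, 0, 17⟩]),
    (243, [⟨4, 0, 0, 0, 12⟩]),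
    (244, [⟨9, 0, 0, 0, 13⟩]),
    (245, [⟨8, 0, 0, 0, 14⟩]),
    (246, [⟨6, 0, 0, 0, 9⟩]),
    (247, [⟨6, 0, 0, 0, 11⟩]),
    (248, [⟨10, 0, 0, 0, 15⟩]),
    (249, [⟨10, 0, 0, 0, 17⟩])]⟩,
   []⟩

/-- Claim S0. -/
def c125 : Claim :=
  ⟨⟨⟨0, 0, 0, 0, 0⟩, ⟨0, 0, 0, 0, 0⟩, ⟨0, 0, 0, 0, 0⟩, ⟨0, 0, 0, 0, 0⟩, ⟨⟨120, 0, 0, 0, 0⟩, ⟨0, 0, 0, 0, 43⟩, ⟨0, 0, 0, 0, 0⟩, ⟨0, 0, 0, 0, 0⟩⟩⟩,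
   [0, 1, 2, 3, 4, 5, 6, 7, 8, 9, 10, 11, 12, 13, 14, 15, 16, 17, 18, 19, 20, 21, 22, 23, 24, 25, 26, 27, 28, 29, 30, 31, 32, 33, 34, 35, 36, 37, 38, 39, 40, 41, 42, 43, 44, 45, 46, 47, 48, 49, 50, 51, 52, 53, 54, 55, 56, 57, 58, 59, 60, 61, 62, 63, 64, 65, 66, 67, 68, 69, 70, 71, 72, 73, 74, 75, 76, 77, 78, 79, 80, 81, 82, 83, 84, 85, 86, 87, 88, 89, 90, 91, 92, 93, 94, 95, 96, 97, 98, 99, 100, 101, 102, 103, 104, 105, 106, 107, 108, 109, 110, 111, 112, 113, 114, 115, 116, 117, 118, 119, 120, 121, 122, 123, 124, 125, 126, 127, 128, 129, 130, 131, 132, 133, 134, 135, 136, 137, 138, 139, 140, 141, 142, 143, 144, 145, 146, 147, 148, 149, 150, 151, 152, 153, 154, 155, 156, 157, 158,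 159, 160, 161, 162, 163, 164, 165, 166, 167, 168, 169, 170, 171, 172, 173, 174, 175, 176, 177, 178, 179, 180, 181, 182, 183, 184, 185, 186, 187, 188, 189, 190, 191, 192, 193, 194, 195, 196, 197, 198, 199, 200, 201, 202, 203, 204, 205, 206, 207, 208, 209, 210, 211, 212, 213, 214, 215, 216, 217, 218, 219, 220, 221, 222, 223, 224, 225, 226, 227, 228, 229, 230, 231, 232, 233, 234, 235, 236, 237, 238, 239, 240, 241, 242, 243, 244, 245, 246, 247, 248, 249],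
   [0, 1, 2, 3, 4, 5, 6, 7, 8, 9, 10, 11, 12, 13, 14, 15, 16, 17, 18, 19, 20, 21, 22, 23, 24, 25, 26, 27, 28, 29, 30, 31, 32, 33, 34, 35, 36, 37, 38, 39, 40, 41, 42, 43, 44, 45, 46, 47, 48, 49, 50, 51, 52, 53, 54, 55, 56, 57, 58, 59, 60, 61, 62, 63, 64, 65, 66, 67, 68, 69, 70, 71, 72, 73, 74, 75, 76, 77, 78, 79, 80, 81, 82, 83, 84, 85, 86, 87, 88, 89, 90, 91, 92, 93, 94, 95, 96, 97, 98, 99, 100, 101, 102, 103, 104, 105, 106, 107, 108, 109, 110, 111, 112, 113, 114, 115, 116, 117, 118, 119, 120, 121, 122, 123, 124, 125, 126, 127, 128, 129, 130, 131, 132, 133, 134, 135, 136, 137, 138, 139, 140, 141, 142, 143, 144, 145, 146, 147, 148, 149, 150, 151, 152, 153, 154, 155, 156, 157, 158,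 159, 160, 161, 162, 163, 164, 165, 166, 167, 168, 169, 170, 171, 172, 173, 174, 175, 176, 177, 178, 179, 180, 181, 182, 183, 184, 185, 186, 187, 188, 189, 190, 191, 192, 193, 194, 195, 196, 197, 198, 199, 200, 201, 202, 203, 204, 205, 206, 207, 208, 209, 210, 211, 212, 213, 214, 215, 216, 217, 218, 219, 220, 221, 222, 223, 224, 225, 226, 227, 228, 229, 230, 231, 232, 233, 234, 235, 236, 237, 238, 239, 240, 241, 242, 243, 244, 245, 246, 247, 248, 249, 250, 251, 252, 253, 254, 255, 256, 257, 258, 259, 260, 261, 262, 263, 264, 265, 266, 267, 268, 269, 270, 271, 272, 273, 274, 275, 276, 277, 278, 279, 280, 281, 282, 283, 284, 285, 286, 287, 288, 289, 290, 291, 292, 293, 294, 295, 296,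 297, 298, 299, 300, 301, 302, 303, 304, 305, 306, 307, 308, 309, 310, 311, 312, 313, 314, 315, 316, 317, 318, 319, 320, 321, 322, 323, 324, 325, 326, 327, 328, 329, 330, 331, 332, 333, 334, 335],
   ⟨18, w61, [⟨0, 0, 0, 0, 0⟩], [⟨11, 0, 0, 0, 23⟩],
    [],
    [(0, [⟨11, 0, 0, 0, 17⟩]),
    (1, [⟨11, 0, 0, 0, 18⟩]),
    (2, [⟨8, 0, 0, 0, 15⟩]),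
    (3, [⟨8, 0, 0, 0, 16⟩]),
    (4, [⟨8, 0, 0, 0, 13⟩]),
    (5, [⟨5, 0, 0, 0, 11⟩]),
    (6, [⟨11, 0, 0, 0, 23⟩]),
    (7, [⟨9, 0, 0, 0, 15⟩]),
    (8, [⟨10, 0, 0, 0, 23⟩]),
    (9, [⟨11, 0, 0, 0, 23⟩]),
    (10, [⟨11, 0, 0, 0, 23⟩]),
    (11, [⟨11, 0, 0, 0, 21⟩]),
    (12, [⟨7, 0, 0, 0, 13⟩]),
    (13, [⟨7, 0, 0, 0, 12⟩]),
    (14, [⟨9, 0, 0, 0, 13⟩]),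
    (15, [⟨9, 0, 0, 0, 15⟩]),
    (16, [⟨9, 0, 0, 0, 13⟩]),
    (17, [⟨0, 0, 0, 0, 3⟩]),
    (18, [⟨0, 0, 0, 0, 0⟩]),
    (19, [⟨0, 0, 0, 0, 3⟩]),
    (20, [⟨11, 0, 0, 0, 22⟩]),
    (21, [⟨11, 0, 0, 0, 23⟩]),
    (22, [⟨11, 0, 0, 0, 23⟩]),
    (23, [⟨11, 0, 0, 0, 23⟩]),
    (24, [⟨11, 0, 0, 0, 23⟩]),
    (25, [⟨11, 0, 0, 0, 23⟩]),
    (26, [⟨11, 0, 0, 0, 23⟩]),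
    (27, [⟨11, 0, 0, 0, 23⟩]),
    (28, [⟨11, 0, 0, 0, 23⟩]),
    (29, [⟨11, 0, 0, 0, 23⟩]),
    (30, [⟨11, 0, 0, 0, 23⟩]),
    (31, [⟨11, 0, 0, 0, 23⟩]),
    (32, [⟨11, 0, 0, 0, 23⟩]),
    (33, [⟨11, 0, 0, 0, 22⟩]),
    (34, [⟨11, 0, 0, 0, 23⟩]),
    (35, [⟨11, 0, 0, 0, 23⟩]),
    (36, [⟨9, 0, 0, 0, 14⟩]),
    (37, [⟨9, 0, 0, 0, 15⟩]),
    (38, [⟨9, 0, 0, 0, 15⟩]),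
    (39, [⟨9, 0, 0, 0, 16⟩]),
    (40, [⟨9, 0, 0, 0, 16⟩]),
    (41, [⟨9, 0, 0, 0, 15⟩]),
    (42, [⟨9, 0, 0, 0, 16⟩]),
    (43, [⟨9, 0, 0, 0, 16⟩]),
    (44, [⟨9, 0, 0, 0, 17⟩]),
    (45, [⟨9, 0, 0, 0, 15⟩]),
    (46, [⟨9, 0, 0, 0, 16⟩]),
    (47, [⟨9, 0, 0, 0, 15⟩]),
    (48, [⟨9, 0, 0, 0, 15⟩]),
    (49, [⟨9, 0, 0, 0, 14⟩]),
    (50, [⟨9, 0, 0, 0, 14⟩]),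
    (51, [⟨9, 0, 0, 0, 14⟩]),
    (52, [⟨0, 0, 0, 0, 1⟩]),
    (53, [⟨0, 0, 0, 0, 2⟩]),
    (54, [⟨0, 0, 0, 0, 4⟩]),
    (55, [⟨0, 0, 0, 0, 4⟩]),
    (56, [⟨0, 0, 0, 0, 3⟩]),
    (57, [⟨0, 0, 0, 0, 2⟩]),
    (58, [⟨0, 0, 0, 0, 3⟩]),
    (59, [⟨0, 0, 0, 0, 5⟩]),
    (60, [⟨0, 0, 0, 0, 4⟩]),
    (61, [⟨0, 0, 0, 0, 2⟩]),
    (62, [⟨0, 0, 0, 0, 3⟩]),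
    (63, [⟨0, 0, 0, 0, 4⟩]),
    (64, [⟨0, 0, 0, 0, 3⟩]),
    (65, [⟨0, 0, 0, 0, 1⟩]),
    (66, [⟨0, 0, 0, 0, 2⟩]),
    (67, [⟨0, 0, 0, 0, 4⟩]),
    (68, [⟨11, 0, 0, 0, 16⟩]),
    (69, [⟨8, 0, 0, 0, 14⟩]),
    (70, [⟨8, 0, 0, 0, 14⟩]),
    (71, [⟨5, 0, 0, 0, 12⟩]),
    (72, [⟨11, 0, 0, 0, 19⟩]),
    (73, [⟨11, 0, 0, 0, 23⟩]),
    (74, [⟨8, 0, 0, 0, 17⟩]),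
    (75, [⟨9, 0, 0, 0, 15⟩]),
    (76, [⟨11, 0, 0, 0, 19⟩]),
    (77, [⟨8, 0, 0, 0, 16⟩]),
    (78, [⟨11, 0, 0, 0, 19⟩]),
    (79, [⟨10, 0, 0, 0, 24⟩]),
    (80, [⟨10, 0, 0, 0, 22⟩]),
    (81, [⟨8, 0, 0, 0, 16⟩]),
    (82, [⟨10, 0, 0, 0, 24⟩]),
    (83, [⟨11, 0, 0, 0, 23⟩]),
    (84, [⟨11, 0, 0, 0, 23⟩]),
    (85, [⟨9, 0, 0, 0, 16⟩]),
    (86, [⟨11, 0, 0, 0, 23⟩]),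
    (87, [⟨11, 0, 0, 0, 23⟩]),
    (88, [⟨11, 0, 0, 0, 20⟩]),
    (89, [⟨9, 0, 0, 0, 16⟩]),
    (90, [⟨8, 0, 0, 0, 17⟩]),
    (91, [⟨9, 0, 0, 0, 12⟩]),
    (92, [⟨7, 0, 0, 0, 14⟩]),
    (93, [⟨7, 0, 0, 0, 12⟩]),
    (94, [⟨4, 0, 0, 0, 9⟩]),
    (95, [⟨7, 0, 0, 0, 14⟩]),
    (96, [⟨7, 0, 0, 0, 13⟩]),
    (97, [⟨7, 0, 0, 0, 11⟩]),
    (98, [⟨4, 0, 0, 0, 9⟩]),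
    (99, [⟨7, 0, 0, 0, 13⟩]),
    (100, [⟨9, 0, 0, 0, 12⟩]),
    (101, [⟨9, 0, 0, 0, 14⟩]),
    (102, [⟨5, 0, 0, 0, 10⟩]),
    (103, [⟨9, 0, 0, 0, 16⟩]),
    (104, [⟨9, 0, 0, 0, 16⟩]),
    (105, [⟨9, 0, 0, 0, 12⟩]),
    (106, [⟨5, 0, 0, 0, 10⟩]),
    (107, [⟨8, 0, 0, 0, 14⟩]),
    (108, [⟨5, 0, 0, 0, 12⟩]),
    (109, [⟨5, 0, 0, 0, 12⟩]),
    (110, [⟨1, 0, 0, 0, 5⟩]),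
    (111, [⟨0, 0, 0, 0, 4⟩]),
    (112, [⟨8, 0, 0, 0, 12⟩]),
    (113, [⟨0, 0, 0, 0, 1⟩]),
    (114, [⟨0, 0, 0, 0, 2⟩]),
    (115, [⟨0, 0, 0, 0, 3⟩]),
    (116, [⟨0, 0, 0, 0, 4⟩]),
    (117, [⟨0, 0, 0, 0, 5⟩]),
    (118, [⟨5, 0, 0, 0, 10⟩]),
    (119, [⟨0, 0, 0, 0, 4⟩]),
    (120, [⟨1, 0, 0, 0, 3⟩]),
    (121, [⟨11, 0, 0, 0, 23⟩]),
    (122, [⟨11, 0, 0, 0, 22⟩]),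
    (123, [⟨9, 0, 0, 0, 14⟩]),
    (124, [⟨9, 0, 0, 0, 14⟩]),
    (125, [⟨4, 0, 0, 0, 8⟩]),
    (126, [⟨4, 0, 0, 0, 9⟩]),
    (127, [⟨7, 0, 0, 0, 15⟩]),
    (128, [⟨7, 0, 0, 0, 16⟩]),
    (129, [⟨1, 0, 0, 0, 4⟩]),
    (130, [⟨4, 0, 0, 0, 11⟩]),
    (131, [⟨5, 0, 0, 0, 9⟩]),
    (132, [⟨8, 0, 0, 0, 15⟩]),
    (133, [⟨5, 0, 0, 0, 9⟩]),
    (134, [⟨6, 0, 0, 0, 10⟩]),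
    (135, [⟨6, 0, 0, 0, 8⟩]),
    (136, [⟨6, 0, 0, 0, 11⟩]),
    (137, [⟨10, 0, 0, 0, 16⟩]),
    (138, [⟨11, 0, 0, 0, 23⟩]),
    (139, [⟨10, 0, 0, 0, 16⟩]),
    (140, [⟨10, 0, 0, 0, 14⟩]),
    (141, [⟨10, 0, 0, 0, 17⟩]),
    (142, [⟨9, 0, 0, 0, 14⟩]),
    (143, [⟨9, 0, 0, 0, 17⟩]),
    (144, [⟨9, 0, 0, 0, 14⟩]),
    (145, [⟨6, 0, 0, 0, 10⟩]),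
    (146, [⟨6, 0, 0, 0, 9⟩]),
    (147, [⟨6, 0, 0, 0, 9⟩]),
    (148, [⟨6, 0, 0, 0, 10⟩]),
    (149, [⟨6, 0, 0, 0, 10⟩]),
    (150, [⟨6, 0, 0, 0, 11⟩]),
    (151, [⟨6, 0, 0, 0, 11⟩]),
    (152, [⟨6, 0, 0, 0, 11⟩]),
    (153, [⟨6, 0, 0, 0, 12⟩]),
    (154, [⟨6, 0, 0, 0, 12⟩]),
    (155, [⟨6, 0, 0, 0, 13⟩]),
    (156, [⟨6, 0, 0, 0, 11⟩]),
    (157, [⟨6, 0, 0, 0, 12⟩]),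
    (158, [⟨6, 0, 0, 0, 12⟩]),
    (159, [⟨6, 0, 0, 0, 11⟩]),
    (160, [⟨6, 0, 0, 0, 10⟩]),
    (161, [⟨10, 0, 0, 0, 16⟩]),
    (162, [⟨10, 0, 0, 0, 15⟩]),
    (163, [⟨10, 0, 0, 0, 15⟩]),
    (164, [⟨10, 0, 0, 0, 16⟩]),
    (165, [⟨10, 0, 0, 0, 16⟩]),
    (166, [⟨10, 0, 0, 0, 17⟩]),
    (167, [⟨10, 0, 0, 0, 17⟩]),
    (168, [⟨10, 0, 0, 0, 17⟩]),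
    (169, [⟨10, 0, 0, 0, 18⟩]),
    (170, [⟨10, 0, 0, 0, 18⟩]),
    (171, [⟨10, 0, 0, 0, 19⟩]),
    (172, [⟨10, 0, 0, 0, 17⟩]),
    (173, [⟨10, 0, 0, 0, 18⟩]),
    (174, [⟨10, 0, 0, 0, 18⟩]),
    (175, [⟨10, 0, 0, 0, 17⟩]),
    (176, [⟨10, 0, 0, 0, 16⟩]),
    (177, [⟨9, 0, 0, 0, 16⟩]),
    (178, [⟨9, 0, 0, 0, 15⟩]),
    (179, [⟨9, 0, 0, 0, 15⟩]),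
    (180, [⟨9, 0, 0, 0, 16⟩]),
    (181, [⟨9, 0, 0, 0, 16⟩]),
    (182, [⟨9, 0, 0, 0, 17⟩]),
    (183, [⟨9, 0, 0, 0, 17⟩]),
    (184, [⟨9, 0, 0, 0, 17⟩]),
    (185, [⟨9, 0, 0, 0, 18⟩]),
    (186, [⟨9, 0, 0, 0, 17⟩]),
    (187, [⟨9, 0, 0, 0, 17⟩]),
    (188, [⟨9, 0, 0, 0, 16⟩]),
    (189, [⟨9, 0, 0, 0, 16⟩]),
    (190, [⟨9, 0, 0, 0, 16⟩]),
    (191, [⟨9, 0, 0, 0, 15⟩]),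
    (192, [⟨9, 0, 0, 0, 15⟩]),
    (193, [⟨4, 0, 0, 0, 7⟩]),
    (194, [⟨1, 0, 0, 0, 5⟩]),
    (195, [⟨7, 0, 0, 0, 14⟩]),
    (196, [⟨4, 0, 0, 0, 12⟩]),
    (197, [⟨4, 0, 0, 0, 10⟩]),
    (198, [⟨5, 0, 0, 0, 8⟩]),
    (199, [⟨7, 0, 0, 0, 17⟩]),
    (200, [⟨8, 0, 0, 0, 15⟩]),
    (201, [⟨4, 0, 0, 0, 10⟩]),
    (202, [⟨7, 0, 0, 0, 14⟩]),
    (203, [⟨4, 0, 0, 0, 10⟩]),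
    (204, [⟨5, 0, 0, 0, 8⟩]),
    (205, [⟨5, 0, 0, 0, 10⟩]),
    (206, [⟨7, 0, 0, 0, 16⟩]),
    (207, [⟨5, 0, 0, 0, 10⟩]),
    (208, [⟨6, 0, 0, 0, 9⟩]),
    (209, [⟨5, 0, 0, 0, 10⟩]),
    (210, [⟨8, 0, 0, 0, 14⟩]),
    (211, [⟨5, 0, 0, 0, 10⟩]),
    (212, [⟨6, 0, 0, 0, 7⟩]),
    (213, [⟨6, 0, 0, 0, 12⟩]),
    (214, [⟨8, 0, 0, 0, 16⟩]),
    (215, [⟨7, 0, 0, 0, 17⟩]),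
    (216, [⟨8, 0, 0, 0, 17⟩]),
    (217, [⟨10, 0, 0, 0, 15⟩]),
    (218, [⟨10, 0, 0, 0, 17⟩]),
    (219, [⟨11, 0, 0, 0, 18⟩]),
    (220, [⟨10, 0, 0, 0, 17⟩]),
    (221, [⟨11, 0, 0, 0, 23⟩]),
    (222, [⟨11, 0, 0, 0, 23⟩]),
    (223, [⟨11, 0, 0, 0, 18⟩]),
    (224, [⟨11, 0, 0, 0, 23⟩]),
    (225, [⟨10, 0, 0, 0, 17⟩]),
    (226, [⟨8, 0, 0, 0, 16⟩]),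
    (227, [⟨11, 0, 0, 0, 23⟩]),
    (228, [⟨8, 0, 0, 0, 16⟩]),
    (229, [⟨10, 0, 0, 0, 13⟩]),
    (230, [⟨10, 0, 0, 0, 18⟩]),
    (231, [⟨11, 0, 0, 0, 23⟩]),
    (232, [⟨1, 0, 0, 0, 5⟩]),
    (233, [⟨4, 0, 0, 0, 10⟩]),
    (234, [⟨4, 0, 0, 0, 12⟩]),
    (235, [⟨8, 0, 0, 0, 14⟩]),
    (236, [⟨9, 0, 0, 0, 13⟩]),
    (237, [⟨1, 0, 0, 0, 5⟩]),
    (238, [⟨9, 0, 0, 0, 18⟩]),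
    (239, [⟨9, 0, 0, 0, 19⟩]),
    (240, [⟨9, 0, 0, 0, 19⟩]),
    (241, [⟨9, 0, 0, 0, 18⟩]),
    (242, [⟨9, 0, 0, 0, 17⟩]),
    (243, [⟨4, 0, 0, 0, 12⟩]),
    (244, [⟨9, 0, 0, 0, 13⟩]),
    (245, [⟨8, 0, 0, 0, 14⟩]),
    (246, [⟨6, 0, 0, 0, 9⟩]),
    (247, [⟨6, 0, 0, 0, 11⟩]),
    (248, [⟨10, 0, 0, 0, 15⟩]),
    (249, [⟨10, 0, 0, 0, 17⟩])]⟩,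
   ⟨143, [], [⟨0, 0, 0, 0, 0⟩], [⟨0, 0, 0, 0, 0⟩],
    [],
    []⟩,
   []⟩

/-- Claim START. -/
def c126 : Claim :=
  ⟨⟨⟨0, 0, 0, 0, 0⟩, ⟨0, 0, 0, 0, 0⟩, ⟨0, 0, 0, 0, 0⟩, ⟨0, 0, 0, 0, 0⟩, ⟨⟨120, 0, 0, 0, 0⟩, ⟨0, 0, 0, 0, 44⟩, ⟨0, 0, 0, 0, 0⟩, ⟨0, 0, 0, 0, 0⟩⟩⟩,
   [0, 1, 2, 3, 4, 5, 6, 7, 8, 9, 10, 11, 12, 13, 14, 15, 16, 17, 18, 19, 20, 21, 22, 23, 24, 25, 26, 27, 28, 29, 30, 31, 32, 33, 34, 35, 36, 37, 38, 39, 40, 41, 42, 43, 44, 45, 46, 47, 48, 49, 50, 51, 52, 53, 54, 55, 56, 57, 58, 59, 60, 61, 62, 63, 64, 65, 66, 67, 68, 69, 70, 71, 72, 73, 74, 75, 76, 77, 78, 79, 80, 81, 82, 83, 84, 85, 86, 87, 88, 89, 90, 91, 92, 93, 94, 95, 96, 97, 98, 99, 100, 101, 102, 103, 104, 105, 106,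 107, 108, 109, 110, 111, 112, 113, 114, 115, 116, 117, 118, 119, 120, 121, 122, 123, 124, 125, 126, 127, 128, 129, 130, 131, 132, 133, 134, 135, 136, 137, 138, 139, 140, 141, 142, 143, 144, 145, 146, 147, 148, 149, 150, 151, 152, 153, 154, 155, 156, 157, 158, 159, 160, 161, 162, 163, 164, 165, 166, 167, 168, 169, 170, 171, 172, 173, 174, 175, 176, 177, 178, 179, 180, 181, 182, 183, 184, 185, 186, 187, 188, 189, 190, 191, 192, 193, 194, 195, 196, 197, 198, 199, 200, 201, 202, 203, 204, 205, 206, 207, 208, 209, 210, 211, 212, 213, 214, 215, 216, 217, 218, 219, 220, 221, 222, 223, 224, 225, 226, 227, 228, 229, 230, 231, 232, 233, 234, 235, 236, 237, 238, 239, 240, 241, 242, 243, 244,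 245, 246, 247, 248, 249],
   [0, 1, 2, 3, 4, 5, 6, 7, 8, 9, 10, 11, 12, 13, 14, 15, 16, 17, 18, 19, 20, 21, 22, 23, 24, 25, 26, 27, 28, 29, 30, 31, 32, 33, 34, 35, 36, 37, 38, 39, 40, 41, 42, 43, 44, 45, 46, 47, 48, 49, 50, 51, 52, 53, 54, 55, 56, 57, 58, 59, 60, 61, 62, 63, 64, 65, 66, 67, 68, 69, 70, 71, 72, 73, 74, 75, 76, 77, 78, 79, 80, 81, 82, 83, 84, 85, 86, 87, 88, 89, 90, 91, 92, 93, 94, 95, 96, 97, 98, 99, 100, 101, 102, 103, 104, 105, 106, 107, 108, 109, 110, 111, 112, 113, 114, 115, 116, 117, 118, 119, 120, 121, 122, 123, 124, 125, 126, 127, 128, 129, 130, 131, 132, 133, 134, 135, 136, 137, 138, 139, 140, 141, 142, 143, 144, 145, 146, 147, 148, 149, 150, 151, 152, 153,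 154, 155, 156, 157, 158, 159, 160, 161, 162, 163, 164, 165, 166, 167, 168, 169, 170, 171, 172, 173, 174, 175, 176, 177, 178, 179, 180, 181, 182, 183, 184, 185, 186, 187, 188, 189, 190, 191, 192, 193, 194, 195, 196, 197, 198, 199, 200, 201, 202, 203, 204, 205, 206, 207, 208, 209, 210, 211, 212, 213, 214, 215, 216, 217, 218, 219, 220, 221, 222, 223, 224, 225, 226, 227, 228, 229, 230, 231, 232, 233, 234, 235, 236, 237, 238, 239, 240, 241, 242, 243, 244, 245, 246, 247, 248, 249, 250, 251, 252, 253, 254, 255, 256, 257, 258, 259, 260, 261, 262, 263, 264, 265, 266, 267, 268, 269, 270, 271, 272, 273, 274, 275, 276, 277, 278, 279, 280, 281, 282, 283, 284, 285, 286, 287, 288, 289, 290, 291,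 292, 293, 294, 295, 296, 297, 298, 299, 300, 301, 302, 303, 304, 305, 306, 307, 308, 309, 310, 311, 312, 313, 314, 315, 316, 317, 318, 319, 320, 321, 322, 323, 324, 325, 326, 327, 328, 329, 330, 331, 332, 333, 334, 335],
   ⟨18, [], [⟨0, 0, 0, 0, 0⟩], [⟨0, 0, 0, 0, 0⟩],
    [],
    []⟩,
   ⟨143, [], [⟨0, 0, 0, 0, 0⟩], [⟨0, 0, 0, 0, 0⟩],
    [],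
    []⟩,
   []⟩

/-- Table ZK. -/
def t0 : Tab :=
  ⟨⟨⟨0, 0, 0, 0, 0⟩, ⟨0, 0, 0, 0, 0⟩, ⟨0, 0, 0, 0, 0⟩, ⟨0, 0, 0, 0, 0⟩, ⟨⟨120, 0, 0, 0, 0⟩, ⟨0, 0, 0, 0, 5⟩, ⟨0, 0, 0, 0, 0⟩, ⟨0, 0, 0, 0, 0⟩⟩⟩, 23,
   [17, 53, 56, 58, 60, 62, 64, 66, 19, 18, 54, 52, 55, 57, 59, 61, 63, 65, 67, 113, 114, 111, 119],
   [[21, 1, 10], [0, 2, 11], [1, 3, 12], [2, 4, 13], [3, 5, 14], [4, 6, 15], [5, 7, 16], [6, 8, 17], [22, 7, 18], [19, 11, 17], [0, 12, 18], [9, 1, 13], [10, 2, 14], [11, 3, 15], [12, 4, 16], [13, 5, 17], [14, 6, 18], [15, 7, 9], [16, 8, 10], [9, 20], [19], [0], [8]],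
   [true, true, true, true, true, true, true, true, true, true, true, true, true, true, true, true, true, true, true, true, false, false, false],
   [
    [0, 0, 0, 1024, 0, 458752, 633825300114114700748352126976, 11619562447174288716865001974976943789907183872, 201581245814168966044077582663753275733051904, 13344406545288048743241762562080639232, 0, 0, 0, 928455029464035206174343168, 0, 0, 0, 3416168035189246609479302708498260428800, 0, 0, 0, 0, 0],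
    [0, 0, 0, 0, 0, 83886080, 0, 1547434493839701017307906048, 784022536620345970495336263601861743869952, 0, 0, 0, 0, 0, 0, 101412666997722727775612996419584, 0, 11963193940169413179479094317826441216, 0, 0, 0, 0, 0],
    [0, 0, 0, 0, 0, 67108864, 36346078009743793399713504369311744, 696908921278049799925023533210883374186496, 162259276829213363391578010288128, 0, 0, 0, 0, 0, 0, 60848157265984475307048028864512, 0, 81130876354645967076063904268288, 0, 0, 0, 0, 0],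
    [0, 0, 0, 0, 0, 0, 0, 9304717664952033020349200802051522560, 0, 0, 0, 0, 0, 0, 0, 0, 0, 81129638414606681695789005144064, 0, 0, 0, 0, 0],
    [0, 0, 0, 0, 0, 0, 0, 6597069766656, 0, 0, 0, 0, 0, 0, 0, 0, 0, 6646139978924579364519035301401722880, 0, 0, 0, 0, 0],
    [0, 0, 0, 0, 0, 0, 0, 0, 0, 0, 0, 0, 0, 0, 0, 0, 0, 0, 0, 0, 0, 0, 0],
    [0, 0, 0, 0, 0, 0, 0, 0, 0, 0, 0, 0, 0, 0, 0, 0, 0, 0, 0, 0, 0, 0, 0],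
    [0, 0, 0, 0, 0, 0, 0, 0, 0, 0, 0, 0, 0, 0, 0, 0, 0, 0, 0, 0, 0, 0, 0],
    [0, 0, 0, 0, 0, 0, 0, 0, 0, 0, 0, 0, 0, 0, 0, 0, 0, 0, 0, 0, 0, 0, 0],
    [0, 0, 0, 0, 0, 0, 0, 0, 0, 0, 0, 0, 0, 0, 0, 0, 0, 0, 0, 0, 0, 0, 0],
    [0, 0, 0, 327680, 475368975085586025561264095232, 554597137599850363154807652352, 2382012914524578988037021965526746791936, 178408683888718727508272074206290316827295744, 2533274790395904, 0, 0, 524288, 0, 117835264, 0, 117899264, 0, 3062588033673226447247409822903956406272, 0, 0, 0, 0, 0],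
    [0, 0, 0, 0, 0, 0, 0, 0, 0, 0, 0, 0, 0, 0, 0, 0, 0, 0, 0, 0, 0, 0, 0],
    [0, 0, 0, 0, 0, 21558722560, 31153781151208965771183003745124352, 2260595906707456, 0, 0, 0, 0, 0, 0, 0, 101412048018258352119762126897152, 0, 0, 0, 0, 0, 0, 0],
    [0, 0, 0, 0, 0, 0, 0, 0, 0, 0, 0, 0, 0, 0, 0, 0, 0, 0, 0, 0, 0, 0, 0],
    [0, 0, 0, 0, 0, 0, 0, 7696581394432, 0, 0, 0, 0, 0, 0, 0, 0, 0, 9304595970494411110326649421962412032, 0, 0, 0, 0, 0],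
    [0, 0, 0, 0, 0, 0, 0, 0, 0, 0, 0, 0, 0, 0, 0, 0, 0, 0, 0, 0, 0, 0, 0],
    [0, 0, 0, 0, 0, 0, 0, 0, 0, 0, 0, 0, 0, 0, 0, 0, 0, 0, 0, 0, 0, 0, 0],
    [0, 0, 0, 0, 0, 0, 0, 0, 0, 0, 0, 0, 0, 0, 0, 0, 0, 0, 0, 0, 0, 0, 0],
    [0, 0, 0, 0, 0, 0, 0, 0, 0, 0, 0, 0, 0, 0, 0, 0, 0, 0, 0, 0, 0, 0, 0],
    [0, 0, 0, 0, 0, 0, 0, 0, 0, 0, 0, 0, 0, 0, 0, 0, 0, 0, 0, 0, 0, 0, 0],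
    [0, 0, 0, 0, 0, 0, 0, 0, 0, 0, 0, 0, 0, 0, 0, 0, 0, 0, 0, 0, 0, 0, 0],
    [0, 0, 0, 0, 0, 0, 0, 0, 0, 0, 0, 0, 0, 0, 0, 0, 0, 0, 0, 0, 0, 0, 0],
    [0, 0, 0, 0, 0, 0, 0, 0, 0, 0, 0, 0, 0, 0, 0, 0, 0, 0, 0, 0, 0, 0, 0]]⟩

/-- Table TF. -/
def t1 : Tab :=
  ⟨⟨⟨0, 0, 0, 0, 0⟩, ⟨0, 0, 0, 0, 0⟩, ⟨0, 0, 0, 0, 0⟩, ⟨0, 0, 0, 0, 0⟩, ⟨⟨120, 0, 0, 0, 0⟩, ⟨0, 0, 0, 0, 26⟩, ⟨0, 0, 0, 0, 0⟩, ⟨0, 0, 0, 0, 0⟩⟩⟩, 24,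
   [15, 37, 40, 42, 44, 46, 48, 50, 14, 16, 38, 36, 39, 41, 43, 45, 47, 49, 51, 123, 124, 100, 104, 105],
   [[22, 1, 10, 19], [0, 2, 11], [1, 3, 12], [2, 4, 13], [3, 5, 14], [4, 6, 15], [5, 7, 16], [6, 8, 17], [21, 7, 18, 19, 20], [23, 11, 17, 20], [0, 12, 18], [9, 1, 13], [10, 2, 14], [11, 3, 15], [12, 4, 16], [13, 5, 17], [14, 6, 18], [15, 7, 9], [16, 8, 10], [0, 8], [8, 9], [8], [0], [9]],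
   [true, true, true, true, true, true, true, true, true, true, true, true, true, true, true, true, true, true, true, true, true, false, false, false],
   [
    [0, 46730671726813448656774466962980864, 633825300114114700748351602688, 41539008693578735142944718985887744, 0, 0, 0, 73786976294838206464, 0, 10230713042221852229470899395909533115670025865728, 0, 38654705664, 0, 9671406556917033549234176, 0, 2381976568446569244243624222347214454784, 0, 156105228352766324054992994723276410926923776, 0, 0, 0, 0, 0, 0],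
    [0, 0, 0, 0, 0, 0, 0, 0, 0, 0, 0, 0, 0, 8796227239936, 0, 162259276829213363391578010288128, 0, 2722259117909194140572032935609673711616, 0, 0, 0, 0, 0, 0],
    [0, 0, 0, 0, 0, 25769803776, 0, 0, 0, 0, 0, 0, 0, 0, 0, 36346078009743793399721201068146688, 0, 0, 0, 0, 0, 0, 0, 0],
    [0, 0, 0, 0, 0, 0, 0, 0, 0, 0, 0, 0, 0, 0, 0, 0, 0, 0, 0, 0, 0, 0, 0, 0],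
    [0, 0, 0, 0, 0, 0, 0, 0, 0, 0, 0, 0, 0, 0, 0, 0, 0, 0, 0, 0, 0, 0, 0, 0],
    [0, 0, 0, 0, 0, 0, 0, 0, 0, 0, 0, 0, 0, 0, 0, 0, 0, 0, 0, 0, 0, 0, 0, 0],
    [0, 0, 0, 0, 0, 0, 0, 0, 0, 0, 0, 0, 0, 0, 0, 0, 0, 0, 0, 0, 0, 0, 0, 0],
    [0, 0, 0, 0, 0, 0, 0, 0, 0, 0, 0, 0, 0, 0, 0, 0, 0, 0, 0, 0, 0, 0, 0, 0],
    [0, 0, 0, 0, 0, 0, 0, 0, 0, 1461747907521016887751775657217121592306823790592, 0, 3075885505214880678175694842452009549824, 0, 11963051962064242856134263542523101184, 0, 432345564227567616, 0, 1461501637330902918203684832716715365220160110592, 0, 0, 0, 0, 0, 0],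
    [0, 0, 0, 0, 0, 0, 0, 0, 0, 0, 0, 0, 0, 0, 0, 0, 0, 0, 0, 0, 0, 0, 0, 0],
    [0, 0, 0, 36346632606881393250076629112193024, 2041725355306781989746018827568584589312, 111503726023806896858887557134424785505222656, 66902235595591869424607154817945084517941248, 11529485267640332164173966346959202898591875072, 5708990770823839524233143877797980545530986496, 713053462628379038341895553024, 0, 2722300473742375986328025103459290777856, 0, 0, 0, 133806512885385264479995090317569208092721152, 0, 17260776783662702311548645943462177369856409600, 0, 0, 0, 0, 0, 0],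
    [0, 0, 0, 0, 0, 0, 0, 0, 0, 0, 0, 0, 0, 0, 0, 0, 0, 0, 0, 0, 0, 0, 0, 0],
    [0, 0, 0, 0, 0, 1701437796088984991455015689640487157760, 1361129467683753853853498429727072845824, 1701411834604692317316873037158841057280, 0, 2381976568446569244243624222347214454784, 0, 524288, 0, 36346078009743793399721201068146688, 0, 0, 0, 2041694201525630780780249333440469532672, 0, 0, 0, 0, 0, 0],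
    [0, 0, 0, 0, 0, 0, 0, 0, 0, 0, 0, 0, 0, 0, 0, 0, 0, 0, 0, 0, 0, 0, 0, 0],
    [0, 0, 0, 0, 0, 0, 0, 0, 0, 0, 0, 0, 0, 25769803776, 0, 1412872441692160, 0, 6597069766656, 0, 0, 0, 0, 0, 0],
    [0, 0, 0, 0, 0, 0, 0, 0, 0, 0, 0, 0, 0, 0, 0, 0, 0, 0, 0, 0, 0, 0, 0, 0],
    [0, 0, 0, 0, 0, 0, 0, 0, 0, 288230376151711744, 0, 0, 0, 1696576506429440, 0, 289363972639948800, 0, 216172782113783808, 0, 0, 0, 0, 0, 0],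
    [0, 0, 0, 0, 0, 0, 0, 0, 0, 0, 0, 0, 0, 0, 0, 0, 0, 0, 0, 0, 0, 0, 0, 0],
    [0, 0, 0, 0, 0, 1407374883553280, 0, 36893488147419103232, 0, 792281625142643375978389831680, 0, 202824096036516706491272494317568, 0, 2722300473742375986328025112255232212992, 0, 74148671639911399424, 0, 55340242116733304832, 0, 0, 0, 0, 0, 0],
    [0, 0, 0, 0, 0, 0, 0, 0, 0, 1461747820408730955991542308777309907189609728768, 0, 203616389750917543761699867855360, 0, 713053462628379038341895553024, 0, 0, 0, 2923003274661805836407369665432566039311865085952, 0, 0, 0, 0, 0, 0],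
    [0, 0, 0, 0, 0, 0, 0, 0, 0, 0, 0, 0, 0, 696898287454081973172991196020261297061888, 0, 609786001522321726526367296517728634929152, 0, 0, 0, 0, 0, 0, 0, 0],
    [0, 0, 0, 0, 0, 0, 0, 0, 0, 0, 0, 0, 0, 0, 0, 0, 0, 0, 0, 0, 0, 0, 0, 0],
    [0, 0, 0, 0, 0, 0, 0, 0, 0, 0, 0, 0, 0, 0, 0, 0, 0, 0, 0, 0, 0, 0, 0, 0],
    [0, 0, 0, 0, 0, 0, 0, 0, 0, 0, 0, 0, 0, 0, 0, 0, 0, 0, 0, 0, 0, 0, 0, 0]]⟩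

/-- Table TSt. -/
def t2 : Tab :=
  ⟨⟨⟨0, 0, 0, 0, 0⟩, ⟨0, 0, 0, 0, 0⟩, ⟨0, 0, 0, 0, 0⟩, ⟨0, 0, 0, 0, 0⟩, ⟨⟨120, 0, 0, 0, 0⟩, ⟨0, 0, 0, 0, 39⟩, ⟨0, 0, 0, 0, 0⟩, ⟨0, 0, 0, 0, 0⟩⟩⟩, 24,
   [10, 21, 24, 26, 28, 30, 32, 34, 9, 11, 22, 20, 23, 25, 27, 29, 31, 33, 35, 121, 122, 83, 87, 88],
   [[22, 1, 10, 19], [0, 2, 11], [1, 3, 12], [2, 4, 13], [3, 5, 14], [4, 6, 15], [5, 7, 16], [6, 8, 17], [21, 7, 18, 19, 20], [23, 11, 17, 20], [0, 12, 18], [9, 1, 13], [10, 2, 14], [11, 3, 15], [12, 4, 16], [13, 5, 17], [14, 6, 18], [15, 7, 9], [16, 8, 10], [0, 8], [8, 9], [8], [0], [9]],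
   [true, true, true, true, true, true, true, true, true, true, true, true, true, true, true, true, true, true, true, true, true, false, false, false],
   [
    [0, 0, 0, 0, 0, 0, 0, 13292482781945195319531830683010859008, 5909700895113131538998283691947483010360347392, 40164516301298678714737574040137841897214970368, 0, 0, 0, 0, 0, 2381976568446569244243624222347214454784, 0, 156105228352766324054992995227669673587769344, 0, 0, 5932959875451719231397523627701309861618453248, 0, 0, 0],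
    [0, 0, 0, 0, 0, 0, 0, 2722258935367507707706996859454314119168, 792281625142643375935439503360, 648518384996057088, 0, 0, 0, 0, 0, 162259276829213363391578010288128, 0, 2722259117911979505661001501980651159552, 0, 0, 871122859317605561316337208476013869137920, 0, 0, 0],
    [0, 0, 0, 0, 0, 25769803776, 2041730547603640524573647358094978580480, 41538374868278621028243970633760768, 713053462628379038341895553024, 784022536620345970495336263601861743869952, 0, 41538374868278621028243970767978496, 0, 0, 0, 36346078009743793399721201068146688, 0, 0, 0, 9671406556917033397649408, 0, 0, 0, 0],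
    [0, 0, 0, 0, 0, 0, 0, 0, 0, 162259276829213363391578010288128, 0, 0, 0, 0, 0, 0, 0, 9304595970494411110326649421962412032, 0, 0, 0, 0, 0, 0],
    [0, 0, 0, 0, 0, 0, 0, 0, 0, 0, 0, 0, 0, 0, 0, 0, 0, 6597069766656, 0, 0, 0, 0, 0, 0],
    [0, 0, 0, 0, 0, 0, 0, 0, 0, 0, 0, 0, 0, 0, 0, 0, 0, 0, 0, 0, 0, 0, 0, 0],
    [0, 0, 0, 0, 0, 0, 0, 0, 0, 0, 0, 0, 0, 0, 0, 0, 0, 0, 0, 0, 0, 0, 0, 0],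
    [0, 0, 0, 0, 0, 0, 0, 0, 0, 0, 0, 0, 0, 0, 0, 0, 0, 0, 0, 0, 0, 0, 0, 0],
    [0, 0, 0, 0, 0, 0, 0, 0, 0, 0, 0, 0, 0, 0, 0, 0, 0, 1461501637330902918203684832716283019655932542976, 0, 0, 0, 0, 0, 0],
    [0, 0, 0, 0, 0, 0, 0, 0, 0, 0, 0, 0, 0, 0, 0, 0, 0, 0, 0, 0, 0, 0, 0, 0],
    [0, 0, 0, 0, 0, 111503726023806896858887557134424785505222656, 66902235595591869424607154817945084517941248, 11529485267687062835900779795615977365554855936, 5708990770823839524233143877797980545530986496, 46731384780276077540215967124029440, 0, 41538374868278621028243970634350592, 0, 0, 0, 2041694201525630780780681679004697100288, 0, 17260776783662702311548645943462177369856409600, 0, 0, 0, 0, 0,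 0],
    [0, 0, 0, 0, 0, 0, 0, 0, 0, 0, 0, 0, 0, 0, 0, 0, 0, 0, 0, 0, 0, 0, 0, 0],
    [0, 0, 0, 0, 0, 1701437796088984991455015689640487157760, 1361165813761763597646898143201377386496, 111505427404487720399995908236278966370959360, 133804471191183738849214309635890169035882496, 2381976568446569244243622252022377480192, 0, 524288, 0, 36346078009743793399713504486752256, 0, 0, 0, 2041694201525630780780249333474829271040, 0, 8462480737302404222943232, 0, 0, 0, 0],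
    [0, 0, 0, 0, 0, 0, 0, 0, 0, 0, 0, 0, 0, 0, 0, 0, 0, 0, 0, 0, 0, 0, 0, 0],
    [0, 0, 0, 0, 0, 0, 0, 0, 0, 0, 0, 0, 0, 25769803776, 0, 1412872441692160, 0, 0, 0, 0, 0, 0, 0, 0],
    [0, 0, 0, 0, 0, 0, 0, 0, 0, 0, 0, 0, 0, 0, 0, 0, 0, 0, 0, 0, 0, 0, 0, 0],
    [0, 0, 0, 0, 0, 0, 0, 0, 0, 0, 0, 0, 0, 0, 0, 1125899906842624, 0, 216172782113783808, 0, 0, 0, 0, 0, 0],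
    [0, 0, 0, 0, 0, 0, 0, 0, 0, 0, 0, 0, 0, 0, 0, 0, 0, 0, 0, 0, 0, 0, 0, 0],
    [0, 0, 0, 0, 0, 0, 0, 36893488147419103232, 0, 0, 0, 0, 0, 0, 0, 74148671639911399424, 0, 55340232221128654848, 0, 0, 0, 0, 0, 0],
    [0, 0, 0, 0, 0, 0, 0, 0, 0, 1461501637330902918203684832716283019655932542976, 0, 0, 0, 0, 0, 0, 0, 2923003274661805836407369665432566039311865085952, 0, 0, 0, 0, 0, 0],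
    [0, 0, 0, 0, 0, 0, 0, 0, 0, 0, 0, 0, 0, 0, 0, 0, 0, 0, 0, 0, 0, 0, 0, 0],
    [0, 0, 0, 0, 0, 0, 0, 0, 0, 0, 0, 0, 0, 0, 0, 0, 0, 0, 0, 0, 0, 0, 0, 0],
    [0, 0, 0, 0, 0, 0, 0, 0, 0, 0, 0, 0, 0, 0, 0, 0, 0, 0, 0, 0, 0, 0, 0, 0],
    [0, 0, 0, 0, 0, 0, 0, 0, 0, 0, 0, 0, 0, 0, 0, 0, 0, 0, 0, 0, 0, 0, 0, 0]]⟩

/-- All claims and tables. -/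
def env : Env :=
  ⟨[c0, c1, c2, c3, c4, c5, c6, c7, c8, c9, c10, c11, c12, c13, c14, c15, c16, c17, c18, c19, c20, c21, c22, c23, c24, c25, c26, c27, c28, c29, c30, c31, c32, c33, c34, c35, c36, c37, c38, c39, c40, c41, c42, c43, c44, c45, c46, c47, c48, c49, c50, c51, c52, c53, c54, c55, c56, c57, c58, c59, c60, c61, c62, c63, c64, c65, c66, c67, c68, c69, c70, c71, c72, c73, c74, c75, c76, c77, c78, c79, c80, c81, c82, c83, c84, c85, c86, c87, c88, c89, c90, c91, c92, c93, c94, c95, c96, c97, c98, c99, c100, c101, c102, c103, c104, c105, c106, c107, c108, c109, c110, c111, c112, c113, c114, c115, c116, c117, c118, c119, c120, c121, c122, c123, c124, c125, c126],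
   [t0, t1, t2]⟩

theorem env_wf : env.cs.all Claim.wf = true := by decide +kernel

end Pool.Agent.Lib.MP_1fc36f_co.H61
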