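import Pool.Agent.Lib.MP_1fc36f_co.H61Chk0
import Pool.Agent.Lib.MP_1fc36f_co.H61Chk1
import Pool.Agent.Lib.MP_1fc36f_co.H61Chk2
import Pool.Agent.Lib.MP_1fc36f_co.H61Chk3
import Pool.Agent.Lib.MP_1fc36f_co.H61Chk4
import Pool.Agent.Lib.MP_1fc36f_co.H61Chk5
import Pool.Agent.Lib.MP_1fc36f_co.H45Main

/-! Two cops win on the graphs of the family. -/

namespace Pool.Agent.Lib.MP_1fc36f_co.H61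

open Pool.Agent.Lib.MP_1fc36f_co.H40 Pool.Agent.Lib.MP_1fc36f_co.H39
open Pool.Agent.Lib.MP_1fc36f_co.H45

theorem all_cons {α : Type} {p : α → Prop} {a : α} {l : List α} (h : p a) (t : ∀ b ∈ l, p b) :
    ∀ b ∈ a :: l, p b := List.forall_mem_cons.2 ⟨h, t⟩

theorem all_nil {α : Type} {p : α → Prop} : ∀ b ∈ ([] : List α), p b :=
  fun _ h => absurd h List.not_mem_nil

theorem claims_ok : ∀ C ∈ env.cs, ∃ p, chkC env C p = true :=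
  all_cons ⟨p0, k0⟩ <|
  all_cons ⟨p1, k1⟩ <|
  all_cons ⟨p2, k2⟩ <|
  all_cons ⟨p3, k3⟩ <|
  all_cons ⟨p4, k4⟩ <|
  all_cons ⟨p5, k5⟩ <|
  all_cons ⟨p6, k6⟩ <|
  all_cons ⟨p7, k7⟩ <|
  all_cons ⟨p8, k8⟩ <|
  all_cons ⟨p9, k9⟩ <|
  all_cons ⟨p10, k10⟩ <|
  all_cons ⟨p11, k11⟩ <|
  all_cons ⟨p12, k12⟩ <|
  all_cons ⟨p13, k13⟩ <|
  all_cons ⟨p14, k14⟩ <|
  all_cons ⟨p15, k15⟩ <|
  all_cons ⟨p16, k16⟩ <|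
  all_cons ⟨p17, k17⟩ <|
  all_cons ⟨p18, k18⟩ <|
  all_cons ⟨p19, k19⟩ <|
  all_cons ⟨p20, k20⟩ <|
  all_cons ⟨p21, k21⟩ <|
  all_cons ⟨p22, k22⟩ <|
  all_cons ⟨p23, k23⟩ <|
  all_cons ⟨p24, k24⟩ <|
  all_cons ⟨p25, k25⟩ <|
  all_cons ⟨p26, k26⟩ <|
  all_cons ⟨p27, k27⟩ <|
  all_cons ⟨p28, k28⟩ <|
  all_cons ⟨p29, k29⟩ <|
  all_cons ⟨p30, k30⟩ <|
  all_cons ⟨p31, k31⟩ <|
  all_cons ⟨p32, k32⟩ <|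
  all_cons ⟨p33, k33⟩ <|
  all_cons ⟨p34, k34⟩ <|
  all_cons ⟨p35, k35⟩ <|
  all_cons ⟨p36, k36⟩ <|
  all_cons ⟨p37, k37⟩ <|
  all_cons ⟨p38, k38⟩ <|
  all_cons ⟨p39, k39⟩ <|
  all_cons ⟨p40, k40⟩ <|
  all_cons ⟨p41, k41⟩ <|
  all_cons ⟨p42, k42⟩ <|
  all_cons ⟨p43, k43⟩ <|
  all_cons ⟨p44, k44⟩ <|
  all_cons ⟨p45, k45⟩ <|
  all_cons ⟨p46, k46⟩ <|
  all_cons ⟨p47, k47⟩ <|
  all_cons ⟨p48, k48⟩ <|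
  all_cons ⟨p49, k49⟩ <|
  all_cons ⟨p50, k50⟩ <|
  all_cons ⟨p51, k51⟩ <|
  all_cons ⟨p52, k52⟩ <|
  all_cons ⟨p53, k53⟩ <|
  all_cons ⟨p54, k54⟩ <|
  all_cons ⟨p55, k55⟩ <|
  all_cons ⟨p56, k56⟩ <|
  all_cons ⟨p57, k57⟩ <|
  all_cons ⟨p58, k58⟩ <|
  all_cons ⟨p59, k59⟩ <|
  all_cons ⟨p60, k60⟩ <|
  all_cons ⟨p61, k61⟩ <|
  all_cons ⟨p62, k62⟩ <|
  all_cons ⟨p63, k63⟩ <|
  all_cons ⟨p64, k64⟩ <|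
  all_cons ⟨p65, k65⟩ <|
  all_cons ⟨p66, k66⟩ <|
  all_cons ⟨p67, k67⟩ <|
  all_cons ⟨p68, k68⟩ <|
  all_cons ⟨p69, k69⟩ <|
  all_cons ⟨p70, k70⟩ <|
  all_cons ⟨p71, k71⟩ <|
  all_cons ⟨p72, k72⟩ <|
  all_cons ⟨p73, k73⟩ <|
  all_cons ⟨p74, k74⟩ <|
  all_cons ⟨p75, k75⟩ <|
  all_cons ⟨p76, k76⟩ <|
  all_cons ⟨p77, k77⟩ <|
  all_cons ⟨p78, k78⟩ <|
  all_cons ⟨p79, k79⟩ <|
  all_cons ⟨p80, k80⟩ <|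
  all_cons ⟨p81, k81⟩ <|
  all_cons ⟨p82, k82⟩ <|
  all_cons ⟨p83, k83⟩ <|
  all_cons ⟨p84, k84⟩ <|
  all_cons ⟨p85, k85⟩ <|
  all_cons ⟨p86, k86⟩ <|
  all_cons ⟨p87, k87⟩ <|
  all_cons ⟨p88, k88⟩ <|
  all_cons ⟨p89, k89⟩ <|
  all_cons ⟨p90, k90⟩ <|
  all_cons ⟨p91, k91⟩ <|
  all_cons ⟨p92, k92⟩ <|
  all_cons ⟨p93, k93⟩ <|
  all_cons ⟨p94, k94⟩ <|
  all_cons ⟨p95, k95⟩ <|
  all_cons ⟨p96, k96⟩ <|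
  all_cons ⟨p97, k97⟩ <|
  all_cons ⟨p98, k98⟩ <|
  all_cons ⟨p99, k99⟩ <|
  all_cons ⟨p100, k100⟩ <|
  all_cons ⟨p101, k101⟩ <|
  all_cons ⟨p102, k102⟩ <|
  all_cons ⟨p103, k103⟩ <|
  all_cons ⟨p104, k104⟩ <|
  all_cons ⟨p105, k105⟩ <|
  all_cons ⟨p106, k106⟩ <|
  all_cons ⟨p107, k107⟩ <|
  all_cons ⟨p108, k108⟩ <|
  all_cons ⟨p109, k109⟩ <|
  all_cons ⟨p110, k110⟩ <|
  all_cons ⟨p111, k111⟩ <|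
  all_cons ⟨p112, k112⟩ <|
  all_cons ⟨p113, k113⟩ <|
  all_cons ⟨p114, k114⟩ <|
  all_cons ⟨p115, k115⟩ <|
  all_cons ⟨p116, k116⟩ <|
  all_cons ⟨p117, k117⟩ <|
  all_cons ⟨p118, k118⟩ <|
  all_cons ⟨p119, k119⟩ <|
  all_cons ⟨p120, k120⟩ <|
  all_cons ⟨p121, k121⟩ <|
  all_cons ⟨p122, k122⟩ <|
  all_cons ⟨p123, k123⟩ <|
  all_cons ⟨p124, k124⟩ <|
  all_cons ⟨p125, k125⟩ <|
  all_cons ⟨p126, k126⟩ <|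
  all_nil

theorem tabs_ok : ∀ T ∈ env.ts, ∃ ex, chkTab env T ex = true :=
  all_cons ⟨e0, j0⟩ <| all_cons ⟨e1, j1⟩ <| all_cons ⟨e2, j2⟩ <| all_nil

theorem start_ok : (env.cs.any isStart) = true := by decide +kernel

theorem upper {H : ℕ} (h : 30 ≤ H) (hH : 5 ≤ H) : ∃ t, CaptureWithin (W H hH).G 2 t :=
  up (fun C hC => List.all_eq_true.1 env_wf C hC) claims_ok tabs_ok (List.any_eq_true.1 start_ok)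
    (by unfold H0; omega)

end Pool.Agent.Lib.MP_1fc36f_co.H61
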